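import Mathlib

/-!
# Simple arcs as sets of points of the plane
-/

set_option autoImplicit false

namespace Pool.Agent.H354_OP

open Set

/-- `A` is (the set of points of) a simple arc from `a` to `b`. -/
def IsArc (A : Set ℂ) (a b : ℂ) : Prop :=
  ∃ γ : ℝ → ℂ, ContinuousOn γ (Icc 0 1) ∧ InjOn γ (Icc 0 1) ∧ γ 0 = a ∧ γ 1 = b ∧
    γ '' Icc 0 1 = A

theorem IsArc.symm {A : Set ℂ} {a b : ℂ} (h : IsArc A a b) : IsArc A b a := by
  obtain ⟨γ, h1, h2, h3, h4, h5⟩ := h
  have hm : ∀ t ∈ Icc (0 : ℝ) 1, 1 - t ∈ Icc (0 : ℝ) 1 := by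
    intro t ht
    exact ⟨by linarith [ht.2], by linarith [ht.1]⟩
  refine ⟨fun t => γ (1 - t), ?_, ?_, by simpa using h4, by simpa using h3, ?_⟩
  · exact h1.comp (by fun_prop) hm
  · intro s hs t ht hst
    have := h2 (hm s hs) (hm t ht) hst
    linarith
  · rw [← h5]
    ext z
    constructor
    · rintro ⟨t, ht, rfl⟩
      exact ⟨1 - t, hm t ht, rfl⟩
    · rintro ⟨t, ht, rfl⟩
      exact ⟨1 - t, hm t ht, by simp⟩

theorem IsArc.left_mem {A : Set ℂ} {a b : ℂ} (h : IsArc A a b) : a ∈ A := by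
  obtain ⟨γ, h1, h2, h3, h4, h5⟩ := h
  rw [← h5, ← h3]
  exact ⟨0, ⟨le_refl _, zero_le_one⟩, rfl⟩

theorem IsArc.right_mem {A : Set ℂ} {a b : ℂ} (h : IsArc A a b) : b ∈ A := h.symm.left_mem

theorem IsArc.ne {A : Set ℂ} {a b : ℂ} (h : IsArc A a b) : a ≠ b := by
  obtain ⟨γ, h1, h2, h3, h4, h5⟩ := h
  intro hab
  have := h2 (⟨le_refl _, zero_le_one⟩ : (0 : ℝ) ∈ Icc (0 : ℝ) 1) ⟨zero_le_one, le_refl _⟩
    (by rw [h3, h4, hab])
  norm_num at this

theorem isArc_segment {a b : ℂ} (h : a ≠ b) : IsArc (segment ℝ a b) a b := by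
  refine ⟨fun t => a + t • (b - a), by fun_prop, ?_, by simp, by simp, ?_⟩
  · intro s _ t _ hst
    simp only [add_right_inj] at hst
    have hba : b - a ≠ 0 := sub_ne_zero.mpr h.symm
    exact smul_left_injective ℝ hba hst
  · rw [segment_eq_image']

theorem IsArc.concat {A B : Set ℂ} {a b c : ℂ} (hA : IsArc A a b) (hB : IsArc B b c)
    (hAB : A ∩ B ⊆ {b}) : IsArc (A ∪ B) a c := by
  obtain ⟨α, a1, a2, a3, a4, a5⟩ := hA
  obtain ⟨β, b1, b2, b3, b4, b5⟩ := hB
  have key : ∀ s ∈ Icc (0 : ℝ) 1, ∀ t ∈ Icc (0 : ℝ) 1, α s = β t → s = 1 ∧ t = 0 := by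
    intro s hs t ht h
    have h1 : α s ∈ A ∩ B := ⟨a5 ▸ ⟨s, hs, rfl⟩, b5 ▸ ⟨t, ht, h.symm⟩⟩
    have h2 : α s = b := hAB h1
    refine ⟨a2 hs ⟨zero_le_one, le_refl _⟩ (by rw [h2, a4]),
      b2 ht ⟨le_refl _, zero_le_one⟩ (by rw [← h, h2, b3])⟩
  refine ⟨fun t => if t ≤ 1 / 2 then α (2 * t) else β (2 * t - 1), ?_, ?_, ?_, ?_, ?_⟩
  · have hU : Icc (0 : ℝ) 1 = Icc 0 (1 / 2) ∪ Icc (1 / 2) 1 :=
      (Icc_union_Icc_eq_Icc (by norm_num) (by norm_num)).symm
    rw [hU]
    refine ContinuousOn.union_of_isClosed ?_ ?_ isClosed_Icc isClosed_Icc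
    · have : ContinuousOn (fun t : ℝ => α (2 * t)) (Icc 0 (1 / 2)) :=
        a1.comp (by fun_prop) (fun t ht => ⟨by linarith [ht.1], by linarith [ht.2]⟩)
      refine this.congr ?_
      intro t ht
      simp only [if_pos ht.2]
    · have : ContinuousOn (fun t : ℝ => β (2 * t - 1)) (Icc (1 / 2) 1) :=
        b1.comp (by fun_prop) (fun t ht => ⟨by linarith [ht.1], by linarith [ht.2]⟩)
      refine this.congr ?_
      intro t ht
      by_cases h : t ≤ 1 / 2
      · have : t = 1 / 2 := le_antisymm h ht.1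
        subst this
        simp only [le_refl, if_true]
        norm_num
        rw [a4, b3]
      · simp only [if_neg h]
  · intro s hs t ht hst
    simp only at hst
    split_ifs at hst with h1 h2 h2
    · have := a2 ⟨by linarith [hs.1], by linarith⟩ ⟨by linarith [ht.1], by linarith⟩ hst
      linarith
    · have := key _ ⟨by linarith [hs.1], by linarith⟩ _ ⟨by linarith, by linarith [ht.2]⟩ hst
      linarith [this.1, this.2]
    · have := key _ ⟨by linarith [ht.1], by linarith⟩ _ ⟨by linarith, by linarith [hs.2]⟩ hst.symm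
      linarith [this.1, this.2]
    · have := b2 ⟨by linarith, by linarith [hs.2]⟩ ⟨by linarith, by linarith [ht.2]⟩ hst
      linarith
  · simp only [mul_zero]
    rw [if_pos (by norm_num)]
    exact a3
  · have h12 : ¬ ((1 : ℝ) ≤ 1 / 2) := by norm_num
    simp only [if_neg h12]
    norm_num
    exact b4
  · ext z
    constructor
    · rintro ⟨t, ht, rfl⟩
      simp only
      split_ifs with h
      · exact Or.inl (a5 ▸ ⟨2 * t, ⟨by linarith [ht.1], by linarith⟩, rfl⟩)
      · exact Or.inr (b5 ▸ ⟨2 * t - 1, ⟨by linarith, by linarith [ht.2]⟩, rfl⟩)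
    · rintro (hz | hz)
      · rw [← a5] at hz
        obtain ⟨t, ht, rfl⟩ := hz
        refine ⟨t / 2, ⟨by linarith [ht.1], by linarith [ht.2]⟩, ?_⟩
        simp only
        rw [if_pos (by linarith [ht.2])]
        congr 1
        ring
      · rw [← b5] at hz
        obtain ⟨t, ht, rfl⟩ := hz
        rcases eq_or_lt_of_le ht.1 with h | h
        · refine ⟨1 / 2, ⟨by norm_num, by norm_num⟩, ?_⟩
          simp only [le_refl, if_true]
          norm_num
          rw [← h, a4, b3]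
        · refine ⟨(t + 1) / 2, ⟨by linarith, by linarith [ht.2]⟩, ?_⟩
          simp only
          rw [if_neg (by linarith)]
          congr 1
          ring

/-- the points of the polygonal line `p 0, …, p n` -/
def polyImg (p : ℕ → ℂ) (n : ℕ) : Set ℂ := ⋃ i ∈ {i : ℕ | i < n}, segment ℝ (p i) (p (i + 1))

theorem mem_polyImg {p : ℕ → ℂ} {n : ℕ} {z : ℂ} :
    z ∈ polyImg p n ↔ ∃ i < n, z ∈ segment ℝ (p i) (p (i + 1)) := by
  simp [polyImg]

/-- the polygonal line `p 0, …, p n` has no self-intersection -/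
structure SimplePoly (p : ℕ → ℂ) (n : ℕ) : Prop where
  ne : ∀ i < n, p i ≠ p (i + 1)
  cons : ∀ i, i + 1 < n →
    segment ℝ (p i) (p (i + 1)) ∩ segment ℝ (p (i + 1)) (p (i + 2)) ⊆ {p (i + 1)}
  far : ∀ i j, i + 2 ≤ j → j < n →
    Disjoint (segment ℝ (p i) (p (i + 1))) (segment ℝ (p j) (p (j + 1)))

theorem SimplePoly.isArc {p : ℕ → ℂ} : ∀ {n : ℕ}, SimplePoly p (n + 1) →
    IsArc (polyImg p (n + 1)) (p 0) (p (n + 1)) := by
  intro n
  induction n with
  | zero =>
    intro h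
    have : polyImg p 1 = segment ℝ (p 0) (p 1) := by
      ext z
      rw [mem_polyImg]
      constructor
      · rintro ⟨i, hi, hz⟩
        obtain rfl : i = 0 := by omega
        exact hz
      · intro hz
        exact ⟨0, by omega, hz⟩
    rw [this]
    exact isArc_segment (h.ne 0 (by omega))
  | succ n ih =>
    intro h
    have h' : SimplePoly p (n + 1) :=
      ⟨fun i hi => h.ne i (by omega), fun i hi => h.cons i (by omega),
        fun i j hij hj => h.far i j hij (by omega)⟩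
    have : polyImg p (n + 1 + 1) = polyImg p (n + 1) ∪ segment ℝ (p (n + 1)) (p (n + 2)) := by
      ext z
      rw [mem_polyImg, mem_union, mem_polyImg]
      constructor
      · rintro ⟨i, hi, hz⟩
        rcases Nat.lt_or_ge i (n + 1) with h1 | h1
        · exact Or.inl ⟨i, h1, hz⟩
        · obtain rfl : i = n + 1 := by omega
          exact Or.inr hz
      · rintro (⟨i, hi, hz⟩ | hz)
        · exact ⟨i, by omega, hz⟩
        · exact ⟨n + 1, by omega, hz⟩
    rw [this]
    refine (ih h').concat (isArc_segment (h.ne (n + 1) (by omega))) ?_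
    rintro z ⟨hz1, hz2⟩
    rw [mem_polyImg] at hz1
    obtain ⟨i, hi, hz1⟩ := hz1
    rcases Nat.lt_or_ge i n with h1 | h1
    · exact absurd hz2 (Set.disjoint_left.mp (h.far i (n + 1) (by omega) (by omega)) hz1)
    · obtain rfl : i = n := by omega
      exact h.cons i (by omega) ⟨hz1, hz2⟩

end Pool.Agent.H354_OP
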