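import Pool.Agent.H354_OP.Redraw

/-!
# Drawings with at most `k` crossings on every edge
-/

set_option autoImplicit false

namespace Pool.Agent.H354_OP

open Set Filter Topology

/-- `H` has a drawing with at most `k` crossings on every edge; sets of points as edges. -/
def KDraw {V : Type} (k : ℕ) (H : SimpleGraph V) : Prop :=
  ∃ (pos : V → ℂ) (A : Sym2 V → Set ℂ), Drawing H pos A ∧
    ∀ e ∈ H.edgeSet, (xs H pos A e).encard ≤ k

/-- the same, in the words of the posed problem -/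
def FDraw {V : Type} (m : ℕ) (H : SimpleGraph V) : Prop :=
  ∃ (pos : V → ℝ × ℝ) (γ : Sym2 V → ℝ → ℝ × ℝ),
    Function.Injective pos ∧
    (∀ u v : V, H.Adj u v →
      ((γ s(u, v) 0 = pos u ∧ γ s(u, v) 1 = pos v) ∨
       (γ s(u, v) 0 = pos v ∧ γ s(u, v) 1 = pos u))) ∧
    (∀ e ∈ H.edgeSet, ContinuousOn (γ e) (Set.Icc (0 : ℝ) 1)) ∧
    (∀ e ∈ H.edgeSet, Set.InjOn (γ e) (Set.Icc (0 : ℝ) 1)) ∧
    (∀ e ∈ H.edgeSet, ∀ t : ℝ, t ∈ Set.Ioo (0 : ℝ) 1 →
      ∀ w : V, γ e t ≠ pos w) ∧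
    (∀ e ∈ H.edgeSet,
      {q : Sym2 V × (ℝ × ℝ) | q.1 ∈ H.edgeSet ∧ q.1 ≠ e ∧
        q.2 ∈ γ e '' Set.Ioo (0 : ℝ) 1 ∧
        q.2 ∈ γ q.1 '' Set.Ioo (0 : ℝ) 1}.encard
        ≤ (m : ℕ∞))

theorem KDraw.mono {V : Type} {k k' : ℕ} {H : SimpleGraph V} (h : KDraw k H) (hk : k ≤ k') :
    KDraw k' H := by
  obtain ⟨pos, A, hd, hx⟩ := h
  exact ⟨pos, A, hd, fun e he => (hx e he).trans (by exact_mod_cast hk)⟩

/-- the inside of a curve, as a set of points -/
theorem inner_eq {V : Type} {pos : V → ℂ} {γ : ℝ → ℂ} {u v : V}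
    (hi : InjOn γ (Icc 0 1)) (h : (γ 0 = pos u ∧ γ 1 = pos v) ∨ (γ 0 = pos v ∧ γ 1 = pos u))
    (ha : ∀ t ∈ Ioo (0 : ℝ) 1, ∀ w, γ t ≠ pos w) (z : ℂ) :
    z ∈ γ '' Ioo 0 1 ↔ z ∈ γ '' Icc 0 1 ∧ z ∉ range pos := by
  constructor
  · rintro ⟨t, ht, rfl⟩
    refine ⟨⟨t, Ioo_subset_Icc_self ht, rfl⟩, ?_⟩
    rintro ⟨w, hw⟩
    exact ha t ht w hw.symm
  · rintro ⟨⟨t, ht, rfl⟩, hz⟩
    refine ⟨t, ⟨lt_of_le_of_ne ht.1 ?_, lt_of_le_of_ne ht.2 ?_⟩, rfl⟩
    · rintro rfl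
      rcases h with h | h
      · exact hz ⟨u, h.1.symm⟩
      · exact hz ⟨v, h.1.symm⟩
    · rintro rfl
      rcases h with h | h
      · exact hz ⟨v, h.2.symm⟩
      · exact hz ⟨u, h.2.symm⟩

theorem fdraw_iff {V : Type} (k : ℕ) (H : SimpleGraph V) : FDraw k H ↔ KDraw k H := by
  classical
  set φ := Complex.equivRealProdCLM with hφ
  constructor
  · rintro ⟨pos, γ, h1, h2, h3, h4, h5, h6⟩
    set pos' : V → ℂ := fun v => φ.symm (pos v) with hpos'
    set γ' : Sym2 V → ℝ → ℂ := fun e t => φ.symm (γ e t) with hγ'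
    have hinj : Function.Injective (φ.symm : ℝ × ℝ → ℂ) := φ.symm.injective
    have hi' : ∀ e ∈ H.edgeSet, InjOn (γ' e) (Icc 0 1) := fun e he s hs t ht hst =>
      h4 e he hs ht (hinj hst)
    have hc' : ∀ e ∈ H.edgeSet, ContinuousOn (γ' e) (Icc 0 1) := fun e he =>
      φ.symm.continuous.comp_continuousOn (h3 e he)
    have he' : ∀ u v, H.Adj u v → ((γ' s(u, v) 0 = pos' u ∧ γ' s(u, v) 1 = pos' v) ∨
       (γ' s(u, v) 0 = pos' v ∧ γ' s(u, v) 1 = pos' u)) := by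
      intro u v huv
      rcases h2 u v huv with ⟨a, b⟩ | ⟨a, b⟩
      · left; exact ⟨congrArg φ.symm a, congrArg φ.symm b⟩
      · right; exact ⟨congrArg φ.symm a, congrArg φ.symm b⟩
    have ha' : ∀ e ∈ H.edgeSet, ∀ t ∈ Ioo (0 : ℝ) 1, ∀ w, γ' e t ≠ pos' w :=
      fun e he t ht w h => h5 e he t ht w (hinj h)
    have hin : ∀ e ∈ H.edgeSet, ∀ z, z ∈ γ' e '' Ioo 0 1 ↔ z ∈ γ' e '' Icc 0 1 ∧
        z ∉ range pos' := by
      intro e
      induction e using Sym2.ind with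
      | _ u v =>
        intro he z
        exact inner_eq (hi' _ he) (he' u v he) (ha' _ he) z
    refine ⟨pos', fun e => γ' e '' Icc 0 1, ⟨fun a b hab => h1 (hinj hab), ?_, ?_⟩, ?_⟩
    · intro u v huv
      have harc : IsArc (γ' s(u, v) '' Icc 0 1) (γ' s(u, v) 0) (γ' s(u, v) 1) :=
        ⟨γ' s(u, v), hc' _ huv, hi' _ huv, rfl, rfl, rfl⟩
      rcases he' u v huv with ⟨a, b⟩ | ⟨a, b⟩
      · rw [a, b] at harc; exact harc
      · rw [a, b] at harc; exact harc.symm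
    · intro e
      induction e using Sym2.ind with
      | _ u v =>
        rintro he w ⟨t, ht, htw⟩
        rcases eq_or_lt_of_le ht.1 with h0 | h0
        · subst h0
          rcases he' u v he with ⟨a, b⟩ | ⟨a, b⟩
          · rw [a] at htw; rw [h1 (hinj htw)]; simp
          · rw [a] at htw; rw [h1 (hinj htw)]; simp
        · rcases eq_or_lt_of_le ht.2 with h0' | h0'
          · subst h0'
            rcases he' u v he with ⟨a, b⟩ | ⟨a, b⟩
            · rw [b] at htw; rw [h1 (hinj htw)]; simp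
            · rw [b] at htw; rw [h1 (hinj htw)]; simp
          · exact absurd htw (ha' _ he t ⟨h0, h0'⟩ w)
    · intro e he
      refine le_trans ?_ (h6 e he)
      refine Set.encard_le_encard_of_injOn (f := fun q => (q.1, φ q.2)) ?_ ?_
      · rintro ⟨f, z⟩ ⟨hf, hfe, hz1, hz2, hz3⟩
        simp only at hf hfe hz1 hz2 hz3 ⊢
        have hze := (hin e he z).mpr ⟨hz1, hz3⟩
        have hzf := (hin f hf z).mpr ⟨hz2, hz3⟩
        obtain ⟨t, ht, rfl⟩ := hze
        obtain ⟨t', ht', hteq⟩ := hzf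
        refine ⟨hf, hfe, ⟨t, ht, by simp [hγ']⟩, ⟨t', ht', ?_⟩⟩
        rw [← hteq]
        simp [hγ']
      · rintro ⟨f, z⟩ _ ⟨f', z'⟩ _ h
        simp only [Prod.mk.injEq] at h
        exact Prod.ext h.1 (φ.injective h.2)
  · rintro ⟨pos, A, hd, hx⟩
    have hγ : ∀ e : Sym2 V, ∃ γ : ℝ → ℂ, e ∈ H.edgeSet → ContinuousOn γ (Icc 0 1) ∧
        InjOn γ (Icc 0 1) ∧ γ '' Icc 0 1 = A e ∧
        ∃ u v, e = s(u, v) ∧ γ 0 = pos u ∧ γ 1 = pos v := by
      intro e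
      induction e using Sym2.ind with
      | _ u v =>
        by_cases h : s(u, v) ∈ H.edgeSet
        · obtain ⟨γ, g1, g2, g3, g4, g5⟩ := hd.arc u v h
          exact ⟨γ, fun _ => ⟨g1, g2, g5, u, v, rfl, g3, g4⟩⟩
        · exact ⟨0, fun h' => absurd h' h⟩
    choose γ hγ using hγ
    have hends : ∀ u v, H.Adj u v → ((γ s(u, v) 0 = pos u ∧ γ s(u, v) 1 = pos v) ∨
       (γ s(u, v) 0 = pos v ∧ γ s(u, v) 1 = pos u)) := by
      intro u v huv
      obtain ⟨-, -, -, a, b, hab, ha, hb⟩ := hγ s(u, v) huv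
      rw [Sym2.eq_iff] at hab
      rcases hab with ⟨rfl, rfl⟩ | ⟨rfl, rfl⟩
      · exact Or.inl ⟨ha, hb⟩
      · exact Or.inr ⟨ha, hb⟩
    have hav : ∀ e ∈ H.edgeSet, ∀ t ∈ Ioo (0 : ℝ) 1, ∀ w, γ e t ≠ pos w := by
      intro e he t ht w h
      obtain ⟨-, hi, hA, a, b, hab, ha, hb⟩ := hγ e he
      have hw : w ∈ e := hd.avoid e he w (by rw [← hA, ← h]; exact ⟨t, Ioo_subset_Icc_self ht, rfl⟩)
      rw [hab, Sym2.mem_iff] at hw
      rcases hw with rfl | rfl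
      · have := hi (Ioo_subset_Icc_self ht) ⟨le_refl _, zero_le_one⟩ (h.trans ha.symm)
        exact ht.1.ne' this
      · have := hi (Ioo_subset_Icc_self ht) ⟨zero_le_one, le_refl _⟩ (h.trans hb.symm)
        exact ht.2.ne this
    refine ⟨fun v => φ (pos v), fun e t => φ (γ e t), fun a b hab => hd.inj (φ.injective hab),
      ?_, ?_, ?_, ?_, ?_⟩
    · intro u v huv
      rcases hends u v huv with ⟨a, b⟩ | ⟨a, b⟩
      · left; exact ⟨congrArg φ a, congrArg φ b⟩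
      · right; exact ⟨congrArg φ a, congrArg φ b⟩
    · intro e he
      exact φ.continuous.comp_continuousOn (hγ e he).1
    · intro e he s hs t ht hst
      exact (hγ e he).2.1 hs ht (φ.injective hst)
    · intro e he t ht w h
      exact hav e he t ht w (φ.injective h)
    · intro e he
      refine le_trans ?_ (hx e he)
      refine Set.encard_le_encard_of_injOn (f := fun q => (q.1, φ.symm q.2)) ?_ ?_
      · rintro ⟨f, z⟩ ⟨hf, hfe, ⟨t, ht, hz1⟩, ⟨t', ht', hz2⟩⟩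
        simp only at hf hfe hz1 hz2 ⊢
        have e1 : φ.symm z = γ e t := by rw [← hz1]; simp
        have e2 : φ.symm z = γ f t' := by rw [← hz2]; simp
        refine ⟨hf, hfe, ?_, ?_, ?_⟩
        · simp only
          rw [e1, ← (hγ e he).2.2.1]
          exact ⟨t, Ioo_subset_Icc_self ht, rfl⟩
        · simp only
          rw [e2, ← (hγ f hf).2.2.1]
          exact ⟨t', Ioo_subset_Icc_self ht', rfl⟩
        · rintro ⟨w, hw⟩
          simp only at hw
          rw [e1] at hw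
          exact hav e he t ht w hw.symm
      · rintro ⟨f, z⟩ _ ⟨f', z'⟩ _ h
        simp only [Prod.mk.injEq] at h
        exact Prod.ext h.1 (φ.symm.injective h.2)

end Pool.Agent.H354_OP
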