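import Pool.Agent.H354_OP.Top

/-!
# Sampling: the contraction of a graph of short cells is sparse
-/

set_option autoImplicit false

namespace Pool.Agent.H354_OP

open Set Filter Topology Pool.Agent.Helper805.CHS

theorem encard_biUnion_le_finset {α β : Type*} (s : Finset α) (f : α → Set β) (K : ℕ)
    (h : ∀ a ∈ s, (f a).encard ≤ K) : (⋃ a ∈ s, f a).encard ≤ (s.card * K : ℕ) := by
  classical
  induction s using Finset.induction with
  | empty => simp
  | insert a s ha ih =>
    rw [Finset.card_insert_of_notMem ha]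
    have : (⋃ x ∈ insert a s, f x) = f a ∪ ⋃ x ∈ s, f x := by
      simp
    rw [this]
    refine (Set.encard_union_le _ _).trans ?_
    have h1 := h a (Finset.mem_insert_self _ _)
    have h2 := ih fun x hx => h x (Finset.mem_insert_of_mem hx)
    push_cast at h2 ⊢
    rw [add_mul, one_mul, add_comm]
    exact add_le_add h2 h1

theorem encard_biUnion_le_set {α β : Type*} (s : Set α) (f : α → Set β) (M K : ℕ)
    (hs : s.encard ≤ M) (h : ∀ a ∈ s, (f a).encard ≤ K) :
    (⋃ a ∈ s, f a).encard ≤ (M * K : ℕ) := by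
  have hfin : s.Finite := Set.finite_of_encard_le_coe hs
  have h1 := encard_biUnion_le_finset hfin.toFinset f K fun a ha => h a (hfin.mem_toFinset.mp ha)
  have h2 : hfin.toFinset.card ≤ M := by
    rw [← hfin.coe_toFinset, Set.encard_coe_eq_coe_finsetCard] at hs
    exact_mod_cast hs
  have h3 : (⋃ a ∈ hfin.toFinset, f a) = ⋃ a ∈ s, f a := by
    ext x
    simp
  rw [h3] at h1
  refine h1.trans ?_
  have : hfin.toFinset.card * K ≤ M * K := Nat.mul_le_mul_right _ h2
  exact_mod_cast this

theorem card_prescribed {ι : Type*} [Fintype ι] [DecidableEq ι] (k : ℕ) (s : Finset ι) :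
    (Finset.univ.filter (fun c : ι → Fin (k + 1) => ∀ x ∈ s, c x = 0)).card * (k + 1) ^ s.card =
      (k + 1) ^ (Fintype.card ι) := by
  have h1 : (Finset.univ.filter (fun c : ι → Fin (k + 1) => ∀ x ∈ s, c x = 0)) =
      Fintype.piFinset (fun x => if x ∈ s then {0} else Finset.univ) := by
    ext c
    rw [Fintype.mem_piFinset]
    simp only [Finset.mem_filter, Finset.mem_univ, true_and]
    constructor
    · intro h x
      by_cases hx : x ∈ s
      · rw [if_pos hx, Finset.mem_singleton]
        exact h x hx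
      · rw [if_neg hx]
        exact Finset.mem_univ _
    · intro h x hx
      have := h x
      rw [if_pos hx, Finset.mem_singleton] at this
      exact this
  rw [h1, Fintype.card_piFinset]
  have h2 : ∀ x : ι, (if x ∈ s then ({0} : Finset (Fin (k + 1))) else Finset.univ).card =
      if x ∈ s then 1 else (k + 1) := by
    intro x
    by_cases hx : x ∈ s
    · rw [if_pos hx, if_pos hx, Finset.card_singleton]
    · rw [if_neg hx, if_neg hx, Finset.card_univ, Fintype.card_fin]
  rw [Finset.prod_congr rfl fun x _ => h2 x]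
  have h3 : (k + 1) ^ s.card = ∏ x : ι, if x ∈ s then (k + 1) else 1 := by
    rw [Finset.prod_ite_mem, Finset.univ_inter, Finset.prod_const]
  rw [h3, ← Finset.prod_mul_distrib]
  have h4 : ∀ x : ι, ((if x ∈ s then 1 else (k + 1)) * (if x ∈ s then (k + 1) else 1)) = k + 1 := by
    intro x
    by_cases hx : x ∈ s
    · simp [hx]
    · simp [hx]
  rw [Finset.prod_congr rfl fun x _ => h4 x, Finset.prod_const, Finset.card_univ]

theorem two_cells {V ι : Type} (Z : ι → Set V) (hdisj : ∀ i j, i ≠ j → Disjoint (Z i) (Z j))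
    (f : Sym2 V) : {k | ∃ y ∈ f, y ∈ Z k}.encard ≤ (2 : ℕ) := by
  induction f using Sym2.ind with
  | _ a b =>
    have hone : ∀ y : V, {k | y ∈ Z k}.encard ≤ 1 := by
      intro y
      rw [Set.encard_le_one_iff]
      intro i j hi hj
      by_contra hij
      exact Set.disjoint_left.mp (hdisj i j hij) hi hj
    have hsub : {k | ∃ y ∈ s(a, b), y ∈ Z k} ⊆ {k | a ∈ Z k} ∪ {k | b ∈ Z k} := by
      rintro k ⟨y, hy, hk⟩
      rcases Sym2.mem_iff.mp hy with rfl | rfl
      · exact Or.inl hk
      · exact Or.inr hk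
    refine (Set.encard_le_encard hsub).trans ((Set.encard_union_le _ _).trans ?_)
    refine (add_le_add (hone a) (hone b)).trans ?_
    norm_num

theorem samp {V : Type} {M : ℕ} {H : SimpleGraph V} {pos : V → ℂ} {C : Sym2 V → Set ℂ}
    (hT : TopD M H pos C) {ι : Type} [Fintype ι] (root : ι → V) (Z : ι → Set V)
    (hdisj : ∀ i j, i ≠ j → Disjoint (Z i) (Z j)) (hroot : ∀ i, root i ∈ Z i) (ρ : ℕ)
    (hZ : ∀ i, ∀ v ∈ Z i, ∃ w : H.Walk (root i) v, w.length ≤ ρ ∧ ∀ u ∈ w.support, u ∈ Z i)
    (E : Finset (ι × ι))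
    (hE : ∀ e ∈ E, e.1 ≠ e.2 ∧ ∃ a ∈ Z e.1, ∃ b ∈ Z e.2, H.Adj a b) :
    E.card ≤ 56 * (2 * M * (2 * ρ + 1) + 1) * Fintype.card ι := by
  classical
  -- walks
  have hW : ∀ e ∈ E, ∃ w : H.Walk (root e.1) (root e.2), w.length ≤ 2 * ρ + 1 ∧
      ∀ u ∈ w.support, u ∈ Z e.1 ∨ u ∈ Z e.2 := by
    intro e he
    obtain ⟨-, a, ha, b, hb, hab⟩ := hE e he
    obtain ⟨w1, l1, s1⟩ := hZ _ a ha
    obtain ⟨w2, l2, s2⟩ := hZ _ b hb
    refine ⟨w1.append (SimpleGraph.Walk.cons hab w2.reverse), ?_, ?_⟩
    · rw [SimpleGraph.Walk.length_append, SimpleGraph.Walk.length_cons,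
        SimpleGraph.Walk.length_reverse]
      omega
    · intro u hu
      rw [SimpleGraph.Walk.mem_support_append_iff, SimpleGraph.Walk.support_cons, List.mem_cons,
        SimpleGraph.Walk.support_reverse, List.mem_reverse] at hu
      rcases hu with hu | rfl | hu
      · exact Or.inl (s1 u hu)
      · exact Or.inl ha
      · exact Or.inr (s2 u hu)
  choose W hWl hWs using hW
  have hZne : ∀ i j v, v ∈ Z i → v ∈ Z j → i = j := by
    intro i j v hi hj
    by_contra hij
    exact Set.disjoint_left.mp (hdisj i j hij) hi hj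
  set en : ι × ι → Finset ι := fun e => Finset.univ.filter (fun k => k ≠ e.1 ∧ k ≠ e.2 ∧
    ∃ he : e ∈ E, ∃ g ∈ (W e he).edges, ∃ f, (f ∈ H.edgeSet ∧ (∀ x ∈ g, x ∉ f) ∧
      ¬ Disjoint (C g) (C f)) ∧ ∃ y ∈ f, y ∈ Z k) with hen
  have henc : ∀ e ∈ E, (en e).card ≤ 2 * M * (2 * ρ + 1) := by
    intro e he
    have hsub : ((en e : Finset ι) : Set ι) ⊆ ⋃ g ∈ (W e he).edges.toFinset,
        ⋃ f ∈ {f | f ∈ H.edgeSet ∧ (∀ x ∈ g, x ∉ f) ∧ ¬ Disjoint (C g) (C f)},
          {k | ∃ y ∈ f, y ∈ Z k} := by
      intro k hk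
      rw [Finset.mem_coe] at hk
      simp only [hen, Finset.mem_filter, Finset.mem_univ, true_and] at hk
      obtain ⟨-, -, _, g, hg, f, hf, hy⟩ := hk
      simp only [mem_iUnion]
      exact ⟨g, List.mem_toFinset.mpr hg, f, hf, hy⟩
    have h1 := Set.encard_le_encard hsub
    have h2 := encard_biUnion_le_finset (W e he).edges.toFinset
      (fun g => ⋃ f ∈ {f | f ∈ H.edgeSet ∧ (∀ x ∈ g, x ∉ f) ∧ ¬ Disjoint (C g) (C f)},
          {k | ∃ y ∈ f, y ∈ Z k}) (M * 2) (by
        intro g hg
        have hg' : g ∈ H.edgeSet := (W e he).edges_subset_edgeSet (List.mem_toFinset.mp hg)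
        exact encard_biUnion_le_set _ _ M 2 (hT.conf g hg') fun f _ => two_cells Z hdisj f)
    have h3 := h1.trans h2
    rw [Set.encard_coe_eq_coe_finsetCard] at h3
    have h4 : (en e).card ≤ (W e he).edges.toFinset.card * (M * 2) := by exact_mod_cast h3
    have h5 : (W e he).edges.toFinset.card ≤ 2 * ρ + 1 := by
      refine (List.toFinset_card_le _).trans ?_
      rw [SimpleGraph.Walk.length_edges]
      exact hWl e he
    calc (en e).card ≤ (W e he).edges.toFinset.card * (M * 2) := h4
      _ ≤ (2 * ρ + 1) * (M * 2) := Nat.mul_le_mul_right _ h5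
      _ = 2 * M * (2 * ρ + 1) := by ring
  set w : ℕ := 2 * M * (2 * ρ + 1) + 1 with hw
  set k : ℕ := 2 * w - 1 with hk
  have hk1 : k + 1 = 2 * w := by omega
  set act : (ι → Fin (k + 1)) → Finset ι := fun c => Finset.univ.filter (fun i => c i = 0)
    with hact
  set Ec : (ι → Fin (k + 1)) → Finset (ι × ι) := fun c =>
    E.filter (fun e => c e.1 = 0 ∧ c e.2 = 0 ∧ ∀ x ∈ en e, c x ≠ 0) with hEc
  set KE : ι × ι → Set ℂ := fun e => if h : e ∈ E then KW pos C (W e h) else ∅ with hKE
  have hKE' : ∀ e (h : e ∈ E), KE e = KW pos C (W e h) := fun e h => by simp [hKE, h]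
  have hdens : ∀ c, (Ec c).card ≤ 14 * (act c).card := by
    intro c
    have hmem : ∀ e, e ∈ Ec c ↔ e ∈ E ∧ c e.1 = 0 ∧ c e.2 = 0 ∧ ∀ x ∈ en e, c x ≠ 0 := by
      intro e
      simp only [hEc, Finset.mem_filter]
    let B : SimpleGraph ι :=
      { Adj := fun i j => (i, j) ∈ Ec c ∨ (j, i) ∈ Ec c
        symm := ⟨fun i j h => h.symm⟩
        loopless := ⟨fun i h => by
          have h' : (i, i) ∈ Ec c := by simpa using h
          exact (hE _ ((hmem _).mp h').1).1 rfl⟩ }
    have hp : ∀ e ∈ E, ∀ x, pos (root x) ∈ KE e → x = e.1 ∨ x = e.2 := by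
      intro e he x hx
      rw [hKE' e he] at hx
      have hs : root x ∈ (W e he).support := by
        rcases hx with ⟨y, hy, hxy⟩ | ⟨f, hf, hxf⟩
        · rw [hT.inj hxy]; exact hy
        · exact (W e he).mem_support_of_mem_edges hf
            (hT.avoid f ((W e he).edges_subset_edgeSet hf) _ hxf)
      rcases hWs e he _ hs with h | h
      · exact Or.inl (hZne _ _ _ (hroot x) h)
      · exact Or.inr (hZne _ _ _ (hroot x) h)
    have hdis : ∀ e ∈ Ec c, ∀ e' ∈ Ec c, e.1 ≠ e'.1 → e.1 ≠ e'.2 → e.2 ≠ e'.1 → e.2 ≠ e'.2 →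
        Disjoint (KE e) (KE e') := by
      intro e he e' he' n1 n2 n3 n4
      obtain ⟨heE, hc1, hc2, hc3⟩ := (hmem e).mp he
      obtain ⟨heE', hc1', hc2', hc3'⟩ := (hmem e').mp he'
      rw [hKE' e heE, hKE' e' heE']
      have hsup : ∀ x ∈ (W e heE).support, x ∉ (W e' heE').support := by
        intro x hx hx'
        rcases hWs e heE x hx with h | h <;> rcases hWs e' heE' x hx' with h' | h'
        · exact n1 (hZne _ _ _ h h')
        · exact n2 (hZne _ _ _ h h')
        · exact n3 (hZne _ _ _ h h')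
        · exact n4 (hZne _ _ _ h h')
      refine hT.disj _ _ hsup ?_
      intro g hg f hf
      by_contra hnd
      have hfe : f ∈ H.edgeSet := (W e' heE').edges_subset_edgeSet hf
      have hgf : ∀ x ∈ g, x ∉ f := by
        intro x hx hx'
        exact hsup x ((W e heE).mem_support_of_mem_edges hg hx)
          ((W e' heE').mem_support_of_mem_edges hf hx')
      obtain ⟨y, hy⟩ : ∃ y, y ∈ f := by
        induction f using Sym2.ind with
        | _ a b => exact ⟨a, by simp⟩
      have hy' := hWs e' heE' y ((W e' heE').mem_support_of_mem_edges hf hy)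
      rcases hy' with h | h
      · have : e'.1 ∈ en e := by
          simp only [hen, Finset.mem_filter, Finset.mem_univ, true_and]
          exact ⟨n1.symm, n3.symm, heE, g, hg, f, ⟨hfe, hgf, hnd⟩, y, hy, h⟩
        exact hc3 _ this hc1'
      · have : e'.2 ∈ en e := by
          simp only [hen, Finset.mem_filter, Finset.mem_univ, true_and]
          exact ⟨n2.symm, n4.symm, heE, g, hg, f, ⟨hfe, hgf, hnd⟩, y, hy, h⟩
        exact hc3 _ this hc2'
    have hmod := models_of_sets B (fun i => pos (root i)) (by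
        intro i j hij
        exact hZne _ _ _ (hroot i) (by rw [hT.inj hij]; exact hroot j))
      (fun i j => if (i, j) ∈ Ec c then KE (i, j) else KE (j, i)) (by
        intro i j hij
        by_cases h : (i, j) ∈ Ec c
        · simp only [if_pos h]
          rw [hKE' _ ((hmem _).mp h).1]
          exact hT.joined _
        · simp only [if_neg h]
          have h' : (j, i) ∈ Ec c := hij.resolve_left h
          rw [hKE' _ ((hmem _).mp h').1]
          exact (hT.joined _).symm) (by
        intro i j hij x hx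
        by_cases h : (i, j) ∈ Ec c
        · simp only [if_pos h] at hx
          exact hp _ ((hmem _).mp h).1 x hx
        · simp only [if_neg h] at hx
          have h' : (j, i) ∈ Ec c := hij.resolve_left h
          exact (hp _ ((hmem _).mp h').1 x hx).symm) (by
        intro i j k l hij hkl n1 n2 n3 n4
        by_cases h : (i, j) ∈ Ec c
        · by_cases h' : (k, l) ∈ Ec c
          · simp only [if_pos h, if_pos h']
            exact hdis _ h _ h' n1 n2 n3 n4
          · have h'' := hkl.resolve_left h'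
            simp only [if_pos h, if_neg h']
            exact hdis _ h _ h'' n2 n1 n4 n3
        · have hh := hij.resolve_left h
          by_cases h' : (k, l) ∈ Ec c
          · simp only [if_neg h, if_pos h']
            exact hdis _ hh _ h' n3 n4 n1 n2
          · have h'' := hkl.resolve_left h'
            simp only [if_neg h, if_neg h']
            exact hdis _ hh _ h'' n4 n3 n2 n1)
    have hd := density B hmod.1 (ι := {i // i ∈ act c}) (fun i => {i.1})
      (fun i => hub_conn_singleton B i.1) (by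
        intro i j hij
        exact Set.disjoint_singleton.mpr fun h => hij (Subtype.ext h))
      (Finset.univ.filter (fun q => (q.1.1, q.2.1) ∈ Ec c)) (by
        intro e he
        simp only [Finset.mem_filter, Finset.mem_univ, true_and] at he
        refine ⟨fun h => (hE _ ((hmem _).mp he).1).1 (by rw [h]), e.1.1, rfl, e.2.1, rfl, ?_⟩
        exact Or.inl he)
    rw [Fintype.card_coe] at hd
    refine le_trans ?_ hd
    have himg : Ec c ⊆ (Finset.univ.filter
        (fun q : {i // i ∈ act c} × {i // i ∈ act c} => (q.1.1, q.2.1) ∈ Ec c)).image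
        (fun q => (q.1.1, q.2.1)) := by
      intro e he
      obtain ⟨heE, hc1, hc2, hc3⟩ := (hmem e).mp he
      rw [Finset.mem_image]
      refine ⟨(⟨e.1, by simp [hact, hc1]⟩, ⟨e.2, by simp [hact, hc2]⟩), ?_, rfl⟩
      simp only [Finset.mem_filter, Finset.mem_univ, true_and]
      exact he
    exact (Finset.card_le_card himg).trans Finset.card_image_le
  -- averaging
  set T : ℕ := (k + 1) ^ Fintype.card ι with hTdef
  have hTpos : 0 < T := by positivity
  have hone : ∀ i : ι, (Finset.univ.filter (fun c : ι → Fin (k + 1) => c i = 0)).card * (k + 1) =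
      T := by
    intro i
    have := card_prescribed k ({i} : Finset ι)
    simpa using this
  have htwo : ∀ i j : ι, i ≠ j →
      (Finset.univ.filter (fun c : ι → Fin (k + 1) => c i = 0 ∧ c j = 0)).card * (k + 1) ^ 2 =
      T := by
    intro i j hij
    have := card_prescribed k ({i, j} : Finset ι)
    rw [Finset.card_pair hij] at this
    simpa using this
  have hthree : ∀ i j l : ι, i ≠ j → l ≠ i → l ≠ j →
      (Finset.univ.filter (fun c : ι → Fin (k + 1) => c i = 0 ∧ c j = 0 ∧ c l = 0)).card *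
        (k + 1) ^ 3 = T := by
    intro i j l hij hli hlj
    have := card_prescribed k ({i, j, l} : Finset ι)
    rw [Finset.card_eq_three.mpr ⟨i, j, l, hij, hli.symm, hlj.symm, rfl⟩] at this
    simpa using this
  have hae : ∀ e ∈ E, T ≤ 2 * (k + 1) ^ 2 * (Finset.univ.filter
      (fun c : ι → Fin (k + 1) => c e.1 = 0 ∧ c e.2 = 0 ∧ ∀ x ∈ en e, c x ≠ 0)).card := by
    intro e he
    set a := (Finset.univ.filter
      (fun c : ι → Fin (k + 1) => c e.1 = 0 ∧ c e.2 = 0 ∧ ∀ x ∈ en e, c x ≠ 0)).card with ha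
    have h2 := htwo e.1 e.2 (hE e he).1
    have hcov : (Finset.univ.filter (fun c : ι → Fin (k + 1) => c e.1 = 0 ∧ c e.2 = 0)) ⊆
        (Finset.univ.filter
          (fun c : ι → Fin (k + 1) => c e.1 = 0 ∧ c e.2 = 0 ∧ ∀ x ∈ en e, c x ≠ 0)) ∪
        (en e).biUnion (fun l => Finset.univ.filter
          (fun c : ι → Fin (k + 1) => c e.1 = 0 ∧ c e.2 = 0 ∧ c l = 0)) := by
      intro c hc
      simp only [Finset.mem_filter, Finset.mem_univ, true_and] at hc
      rw [Finset.mem_union, Finset.mem_biUnion]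
      by_cases h : ∀ x ∈ en e, c x ≠ 0
      · left
        simp only [Finset.mem_filter, Finset.mem_univ, true_and]
        exact ⟨hc.1, hc.2, h⟩
      · right
        push Not at h
        obtain ⟨x, hx, hcx⟩ := h
        refine ⟨x, hx, ?_⟩
        simp only [Finset.mem_filter, Finset.mem_univ, true_and]
        exact ⟨hc.1, hc.2, hcx⟩
    have h3 := (Finset.card_le_card hcov).trans ((Finset.card_union_le _ _).trans
      (add_le_add_right Finset.card_biUnion_le _))
    have h4 : (∑ l ∈ en e, (Finset.univ.filter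
        (fun c : ι → Fin (k + 1) => c e.1 = 0 ∧ c e.2 = 0 ∧ c l = 0)).card) * (k + 1) ^ 3 =
        (en e).card * T := by
      rw [Finset.sum_mul, Finset.sum_congr rfl (g := fun _ => T), Finset.sum_const, smul_eq_mul]
      intro l hl
      simp only [hen, Finset.mem_filter, Finset.mem_univ, true_and] at hl
      exact hthree e.1 e.2 l (hE e he).1 hl.1 hl.2.1
    have h5 := Nat.mul_le_mul_right ((k + 1) ^ 3) h3
    rw [add_mul, h4] at h5
    have h6 : (Finset.univ.filter (fun c : ι → Fin (k + 1) => c e.1 = 0 ∧ c e.2 = 0)).card *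
        (k + 1) ^ 3 = (k + 1) * T := by
      rw [← h2]; ring
    rw [h6] at h5
    have h7 : (en e).card * T ≤ (w - 1) * T := Nat.mul_le_mul_right _ (by
      have := henc e he
      omega)
    suffices hgoal : T ≤ 2 * (2 * w) ^ 2 * a by
      rw [← hk1] at hgoal
      exact hgoal
    have h5' : 2 * w * T ≤ a * (2 * w) ^ 3 + (en e).card * T := by
      rw [← hk1]
      exact h5
    have h8 : 2 * w * T ≤ a * (2 * w) ^ 3 + (w - 1) * T := h5'.trans (by gcongr)
    have h9 : w * T + (w - 1) * T ≤ 2 * w * T := by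
      rw [← add_mul]
      exact Nat.mul_le_mul_right _ (by omega)
    have h10 : w * T ≤ a * (2 * w) ^ 3 := by omega
    have h11 : w * T ≤ w * (2 * (2 * w) ^ 2 * a) := by
      calc w * T ≤ a * (2 * w) ^ 3 := h10
        _ = w * (2 * (2 * w) ^ 2 * a) := by ring
    exact Nat.le_of_mul_le_mul_left h11 (by omega)
  have hsum1 : ∑ c, (Ec c).card = ∑ e ∈ E, (Finset.univ.filter
      (fun c : ι → Fin (k + 1) => c e.1 = 0 ∧ c e.2 = 0 ∧ ∀ x ∈ en e, c x ≠ 0)).card := by
    simp only [hEc, Finset.card_filter]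
    rw [Finset.sum_comm]
  have hsum2 : ∑ c, (act c).card = ∑ i, (Finset.univ.filter
      (fun c : ι → Fin (k + 1) => c i = 0)).card := by
    simp only [hact, Finset.card_filter]
    rw [Finset.sum_comm]
  have hA : E.card * T ≤ 2 * (k + 1) ^ 2 * ∑ c, (Ec c).card := by
    rw [hsum1, Finset.mul_sum, ← smul_eq_mul, ← Finset.sum_const]
    exact Finset.sum_le_sum hae
  have hB : ∑ c, (Ec c).card ≤ 14 * ∑ c, (act c).card := by
    rw [Finset.mul_sum]
    exact Finset.sum_le_sum fun c _ => hdens c
  have hC : (∑ c, (act c).card) * (k + 1) = Fintype.card ι * T := by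
    rw [hsum2, Finset.sum_mul, Finset.sum_congr rfl fun i _ => hone i, Finset.sum_const,
      smul_eq_mul, Finset.card_univ]
  have hD : E.card * T ≤ (56 * w * Fintype.card ι) * T := by
    calc E.card * T ≤ 2 * (k + 1) ^ 2 * ∑ c, (Ec c).card := hA
      _ ≤ 2 * (k + 1) ^ 2 * (14 * ∑ c, (act c).card) := by gcongr
      _ = 28 * (k + 1) * ((∑ c, (act c).card) * (k + 1)) := by ring
      _ = 28 * (k + 1) * (Fintype.card ι * T) := by rw [hC]
      _ = (56 * w * Fintype.card ι) * T := by rw [hk1]; ring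
  exact Nat.le_of_mul_le_mul_right hD hTpos

end Pool.Agent.H354_OP
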