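import Pool.Agent.H354_OP.Par2
import Pool.Agent.H354_OP.KD
import Pool.Agent.H354_OP.Samp

/-!
# Redrawing a long path of vertices of degree two along a walk
-/

set_option autoImplicit false

namespace Pool.Agent.H354_OP

open Set Filter Topology

theorem count_split (q : ℕ) : ∀ (Θ : Finset ℝ) (a b : ℝ), a < b → (∀ θ ∈ Θ, a < θ ∧ θ < b) →
    ∃ τ, a < τ ∧ τ < b ∧ τ ∉ Θ ∧ (Θ.filter (fun θ => θ < τ)).card ≤ q ∧
      (Θ.filter (fun θ => τ < θ)).card ≤ Θ.card - q := by
  induction q with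
  | zero =>
    intro Θ a b hab hΘ
    rcases Θ.eq_empty_or_nonempty with h | h
    · subst h
      exact ⟨(a + b) / 2, by linarith, by linarith, by simp, by simp, by simp⟩
    · have h1 := hΘ _ (Θ.min'_mem h)
      refine ⟨(a + Θ.min' h) / 2, by linarith, by linarith, ?_, ?_, ?_⟩
      · intro hm
        have := Θ.min'_le _ hm
        linarith
      · rw [Nat.le_zero, Finset.card_eq_zero, Finset.filter_eq_empty_iff]
        intro θ hθ
        have := Θ.min'_le _ hθ
        simp only [not_lt]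
        linarith
      · exact Finset.card_filter_le _ _
  | succ q ih =>
    intro Θ a b hab hΘ
    rcases Θ.eq_empty_or_nonempty with h | h
    · subst h
      exact ⟨(a + b) / 2, by linarith, by linarith, by simp, by simp, by simp⟩
    · have h1 := hΘ _ (Θ.min'_mem h)
      obtain ⟨τ, h2, h3, h4, h5, h6⟩ := ih (Θ.erase (Θ.min' h)) (Θ.min' h) b h1.2 (by
        intro θ hθ
        rw [Finset.mem_erase] at hθ
        exact ⟨lt_of_le_of_ne (Θ.min'_le _ hθ.2) (Ne.symm hθ.1), (hΘ θ hθ.2).2⟩)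
      rw [Finset.card_erase_of_mem (Θ.min'_mem h)] at h6
      refine ⟨τ, by linarith, h3, ?_, ?_, ?_⟩
      · intro hm
        refine h4 (Finset.mem_erase.mpr ⟨?_, hm⟩)
        exact h2.ne'
      · have hsub : Θ.filter (fun θ => θ < τ) ⊆
            insert (Θ.min' h) ((Θ.erase (Θ.min' h)).filter (fun θ => θ < τ)) := by
          intro θ hθ
          rw [Finset.mem_filter] at hθ
          rw [Finset.mem_insert, Finset.mem_filter, Finset.mem_erase]
          by_cases he : θ = Θ.min' h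
          · exact Or.inl he
          · exact Or.inr ⟨⟨he, hθ.1⟩, hθ.2⟩
        refine (Finset.card_le_card hsub).trans ((Finset.card_insert_le _ _).trans ?_)
        omega
      · have hsub : Θ.filter (fun θ => τ < θ) ⊆
            (Θ.erase (Θ.min' h)).filter (fun θ => τ < θ) := by
          intro θ hθ
          rw [Finset.mem_filter] at hθ
          rw [Finset.mem_filter, Finset.mem_erase]
          refine ⟨⟨?_, hθ.1⟩, hθ.2⟩
          rintro rfl
          linarith [hθ.2]
        refine (Finset.card_le_card hsub).trans (h6.trans ?_)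
        omega

theorem balanced_times (q : ℕ) : ∀ (t : ℕ) (Θ : Finset ℝ) (a b : ℝ), a < b →
    (∀ θ ∈ Θ, a < θ ∧ θ < b) → Θ.card ≤ q * (t + 1) →
    ∃ τ : ℕ → ℝ, τ 0 = a ∧ τ (t + 1) = b ∧ (∀ i ≤ t, τ i < τ (i + 1)) ∧
      (∀ i, 1 ≤ i → i ≤ t → τ i ∉ Θ) ∧
      ∀ i ≤ t, (Θ.filter (fun θ => τ i < θ ∧ θ < τ (i + 1))).card ≤ q := by
  intro t
  induction t with
  | zero =>
    intro Θ a b hab hΘ hc
    refine ⟨fun i => if i = 0 then a else b, by simp, by simp, ?_, ?_, ?_⟩
    · intro i hi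
      obtain rfl : i = 0 := by omega
      simpa using hab
    · intro i h1 h2
      omega
    · intro i hi
      refine (Finset.card_filter_le _ _).trans ?_
      simpa using hc
  | succ t ih =>
    intro Θ a b hab hΘ hc
    obtain ⟨σ, h1, h2, h3, h4, h5⟩ := count_split q Θ a b hab hΘ
    obtain ⟨τ, t0, tn, ts, tm, tc⟩ := ih (Θ.filter (fun θ => σ < θ)) σ b h2 (by
      intro θ hθ
      rw [Finset.mem_filter] at hθ
      exact ⟨hθ.2, (hΘ θ hθ.1).2⟩) (by
      refine h5.trans ?_
      have : q * (t + 1 + 1) = q * (t + 1) + q := by ring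
      omega)
    have hle : ∀ i ≤ t + 1, σ ≤ τ i := by
      intro i
      induction i with
      | zero => intro _; rw [t0]
      | succ i ih2 =>
        intro hi
        exact (ih2 (by omega)).trans (ts i (by omega)).le
    refine ⟨fun i => if i = 0 then a else τ (i - 1), by simp, by simpa using tn, ?_, ?_, ?_⟩
    · intro i hi
      rcases Nat.eq_zero_or_pos i with rfl | h0
      · simpa [t0] using h1
      · have := ts (i - 1) (by omega)
        rw [show i - 1 + 1 = i by omega] at this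
        simpa [show i ≠ 0 by omega] using this
    · intro i hi1 hi2
      simp only [show i ≠ 0 by omega, if_false]
      rcases Nat.eq_zero_or_pos (i - 1) with h0 | h0
      · rw [h0, t0]
        exact h3
      · intro hm
        refine tm (i - 1) h0 (by omega) ?_
        rw [Finset.mem_filter]
        refine ⟨hm, ?_⟩
        have h6 := ts (i - 1 - 1) (by omega)
        rw [show i - 1 - 1 + 1 = i - 1 by omega] at h6
        exact (hle (i - 1 - 1) (by omega)).trans_lt h6
    · intro i hi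
      rcases Nat.eq_zero_or_pos i with rfl | h0
      · simp only [if_true, Nat.zero_add, one_ne_zero, if_false, Nat.sub_self, t0]
        refine le_trans (Finset.card_le_card ?_) h4
        intro θ hθ
        rw [Finset.mem_filter] at hθ ⊢
        exact ⟨hθ.1, hθ.2.2⟩
      · have h6 := tc (i - 1) (by omega)
        rw [show i - 1 + 1 = i by omega] at h6
        simp only [show i ≠ 0 by omega, if_false, Nat.succ_ne_zero, Nat.add_sub_cancel]
        refine le_trans (Finset.card_le_card ?_) h6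
        intro θ hθ
        rw [Finset.mem_filter] at hθ
        rw [Finset.mem_filter, Finset.mem_filter]
        exact ⟨⟨hθ.1, (hle (i - 1) (by omega)).trans_lt hθ.2.1⟩, hθ.2⟩

theorem IsArc.subdivide_bal {B : Set ℂ} {a b : ℂ} (h : IsArc B a b) {F : Set ℂ} {q t : ℕ}
    (hF : F.encard ≤ (q * (t + 1) : ℕ)) (haF : a ∉ F) (hbF : b ∉ F) :
    ∃ (c : ℕ → ℂ) (S : ℕ → Set ℂ), c 0 = a ∧ c (t + 1) = b ∧
      (∀ i ≤ t, IsArc (S i) (c i) (c (i + 1))) ∧ (∀ i ≤ t, S i ⊆ B) ∧
      (∀ i, 1 ≤ i → i ≤ t → c i ∈ B ∧ c i ∉ F) ∧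
      (∀ i j, i ≤ t + 1 → j ≤ t + 1 → c i = c j → i = j) ∧
      (∀ i j, i < j → j ≤ t → ∀ z ∈ S i, z ∈ S j → z = c j) ∧
      (∀ i l, i ≤ t → l ≤ t + 1 → c l ∈ S i → l = i ∨ l = i + 1) ∧
      (∀ i ≤ t, (S i ∩ F).encard ≤ q) := by
  obtain ⟨γ, hc, hi, h0, h1, hB⟩ := h
  have hΘfin : {τ | τ ∈ Icc (0 : ℝ) 1 ∧ γ τ ∈ F}.Finite := by
    refine Set.Finite.of_injOn (f := γ) (t := F) (fun τ hτ => hτ.2) ?_
      (Set.finite_of_encard_le_coe hF)
    exact hi.mono fun τ hτ => hτ.1
  have hΘcard : hΘfin.toFinset.card ≤ q * (t + 1) := by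
    have h2 : {τ | τ ∈ Icc (0 : ℝ) 1 ∧ γ τ ∈ F}.encard ≤ F.encard :=
      Set.encard_le_encard_of_injOn (f := γ) (fun τ hτ => hτ.2) (hi.mono fun τ hτ => hτ.1)
    have h3 := h2.trans hF
    rw [← hΘfin.coe_toFinset, Set.encard_coe_eq_coe_finsetCard] at h3
    exact_mod_cast h3
  obtain ⟨τ, τz, τl, hstep, hτF, hτq⟩ := balanced_times q t hΘfin.toFinset 0 1 zero_lt_one (by
    intro θ hθ
    rw [Set.Finite.mem_toFinset] at hθ
    refine ⟨lt_of_le_of_ne hθ.1.1 ?_, lt_of_le_of_ne hθ.1.2 ?_⟩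
    · rintro rfl
      apply haF
      rw [← h0]
      exact hθ.2
    · rintro rfl
      apply hbF
      rw [← h1]
      exact hθ.2) hΘcard
  have hmono : ∀ i j, i < j → j ≤ t + 1 → τ i < τ j := by
    intro i j hij
    induction j with
    | zero => omega
    | succ j ih =>
      intro hj
      rcases Nat.lt_or_ge i j with h2 | h2
      · exact (ih h2 (by omega)).trans (hstep j (by omega))
      · obtain rfl : i = j := by omega
        exact hstep i (by omega)
  have hle : ∀ i j, i ≤ j → j ≤ t + 1 → τ i ≤ τ j := by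
    intro i j hij hj
    rcases eq_or_lt_of_le hij with rfl | h2
    · exact le_rfl
    · exact (hmono i j h2 hj).le
  have hmem : ∀ i, i ≤ t + 1 → τ i ∈ Icc (0 : ℝ) 1 := by
    intro i hit
    constructor
    · rw [← τz]; exact hle 0 i (by omega) hit
    · rw [← τl]; exact hle i (t + 1) hit le_rfl
  have hsubI : ∀ i, i ≤ t → Icc (τ i) (τ (i + 1)) ⊆ Icc (0 : ℝ) 1 := by
    intro i hit x hx
    exact ⟨(hmem i (by omega)).1.trans hx.1, hx.2.trans (hmem (i + 1) (by omega)).2⟩
  have hinj : ∀ i j, i ≤ t + 1 → j ≤ t + 1 → τ i = τ j → i = j := by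
    intro i j hit hjt hij
    rcases lt_trichotomy i j with h2 | h2 | h2
    · exact absurd hij (hmono i j h2 hjt).ne
    · exact h2
    · exact absurd hij (hmono j i h2 hit).ne'
  have hcF : ∀ i, i ≤ t + 1 → γ (τ i) ∉ F := by
    intro i hit
    rcases Nat.eq_zero_or_pos i with rfl | hi0
    · rw [τz, h0]
      exact haF
    · rcases Nat.lt_or_ge t i with h2 | h2
      · obtain rfl : i = t + 1 := by omega
        rw [τl, h1]
        exact hbF
      · intro hm
        refine hτF i hi0 h2 ?_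
        rw [Set.Finite.mem_toFinset]
        exact ⟨hmem i hit, hm⟩
  refine ⟨fun i => γ (τ i), fun i => γ '' Icc (τ i) (τ (i + 1)), by change γ (τ 0) = a; rw [τz, h0],
    by change γ (τ (t + 1)) = b; rw [τl, h1],
    ?_, ?_, ?_, ?_, ?_, ?_, ?_⟩
  · intro i hit
    have hlt := hstep i hit
    have hd : 0 < τ (i + 1) - τ i := by linarith
    have hm : ∀ s ∈ Icc (0 : ℝ) 1, τ i + s * (τ (i + 1) - τ i) ∈ Icc (τ i) (τ (i + 1)) := by
      intro s hs
      constructor
      · have := mul_nonneg hs.1 hd.le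
        linarith
      · have := mul_le_mul_of_nonneg_right hs.2 hd.le
        linarith
    refine ⟨fun s => γ (τ i + s * (τ (i + 1) - τ i)), ?_, ?_, by simp, by simp, ?_⟩
    · exact hc.comp (by fun_prop) fun s hs => hsubI i hit (hm s hs)
    · intro s hs s' hs' hss
      have h3 := hi (hsubI i hit (hm s hs)) (hsubI i hit (hm s' hs')) hss
      have h4 : s * (τ (i + 1) - τ i) = s' * (τ (i + 1) - τ i) := by linarith
      exact mul_right_cancel₀ hd.ne' h4
    · ext z
      constructor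
      · rintro ⟨s, hs, rfl⟩
        exact ⟨_, hm s hs, rfl⟩
      · rintro ⟨x, hx, rfl⟩
        refine ⟨(x - τ i) / (τ (i + 1) - τ i), ⟨div_nonneg (by linarith [hx.1]) hd.le,
          (div_le_one hd).mpr (by linarith [hx.2])⟩, ?_⟩
        simp only
        rw [div_mul_cancel₀ _ hd.ne']
        congr 1
        ring
  · intro i hit
    rw [← hB]
    exact image_mono (hsubI i hit)
  · intro i hi1 hit
    refine ⟨?_, hcF i (by omega)⟩
    rw [← hB]
    exact ⟨τ i, hmem i (by omega), rfl⟩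
  · intro i j hit hjt hij
    exact hinj i j hit hjt (hi (hmem i hit) (hmem j hjt) hij)
  · rintro i j hij hjt z ⟨s, hs, rfl⟩ ⟨s', hs', hss⟩
    have h2 : s' = s := hi (hsubI j hjt hs') (hsubI i (by omega) hs) hss
    have h3 : τ (i + 1) ≤ τ j := hle (i + 1) j (by omega) (by omega)
    have h4 : s = τ j := by
      have := hs.2
      have := hs'.1
      linarith
    rw [h4]
  · rintro i l hit hlt ⟨s, hs, hsl⟩
    have h2 : s = τ l := hi (hsubI i hit hs) (hmem l hlt) hsl
    by_contra hcon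
    push Not at hcon
    rcases Nat.lt_or_ge l i with h3 | h3
    · have := hmono l i h3 (by omega)
      linarith [hs.1]
    · have := hmono (i + 1) l (by omega) hlt
      linarith [hs.2]
  · intro i hit
    have hsub : γ '' Icc (τ i) (τ (i + 1)) ∩ F ⊆
        γ '' (hΘfin.toFinset.filter (fun θ => τ i < θ ∧ θ < τ (i + 1)) : Finset ℝ) := by
      rintro z ⟨⟨s, hs, rfl⟩, hz⟩
      refine ⟨s, ?_, rfl⟩
      rw [Finset.mem_coe, Finset.mem_filter, Set.Finite.mem_toFinset]
      refine ⟨⟨hsubI i hit hs, hz⟩, lt_of_le_of_ne hs.1 ?_, lt_of_le_of_ne hs.2 ?_⟩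
      · rintro h2
        rw [← h2] at hz
        exact hcF i (by omega) hz
      · rintro h2
        rw [h2] at hz
        exact hcF (i + 1) (by omega) hz
    refine (Set.encard_le_encard hsub).trans ((Set.encard_image_le _ _).trans ?_)
    rw [Set.encard_coe_eq_coe_finsetCard]
    exact_mod_cast hτq i hit

theorem getVert_transfer {V : Type*} {G H : SimpleGraph V} {u v : V} (w : G.Walk u v)
    (h : ∀ e ∈ w.edges, e ∈ H.edgeSet) (i : ℕ) : (w.transfer H h).getVert i = w.getVert i := by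
  induction w generalizing i with
  | nil => simp
  | cons hadj w ih =>
    cases i with
    | zero => simp
    | succ i =>
      simp only [SimpleGraph.Walk.transfer, SimpleGraph.Walk.getVert_cons_succ]
      exact ih _ i

/-- redrawing a long path along a walk, with a balanced distribution of the crossings -/
theorem redraw_bal {V : Type} [Finite V] {G : SimpleGraph V} {u v : V} (huv : u ≠ v)
    (P : G.Walk u v) (hP : P.IsPath)
    (hPint : ∀ x ∈ P.support, x ≠ u → x ≠ v → ∀ y, G.Adj x y → s(x, y) ∈ P.edges)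
    {m q : ℕ} {e : Sym2 V} (he : e ∈ P.edges) (hdraw : KDraw m (G.deleteEdges {e}))
    (Q : G.Walk u v) (hQP : ∀ f ∈ Q.edges, f ≠ e) (δ : ℕ → ℕ)
    (hδ : ∀ i < Q.length, Q.getVert i ≠ u → Q.getVert i ≠ v →
      {e | e ∈ G.edgeSet ∧ Q.getVert i ∈ e}.encard ≤ δ i)
    (hcost : (∑ i ∈ Finset.range Q.length, (δ i + 2 * m)) * 4 ≤ q * P.length) :
    KDraw (q * (m + 1) + (5 * m + 8)) G := by
  classical
  obtain ⟨pos, A, hd, hx⟩ := hdraw
  set H := G.deleteEdges {e} with hH
  have hHe : ∀ f, f ∈ H.edgeSet ↔ f ∈ G.edgeSet ∧ f ≠ e := by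
    intro f
    rw [hH, SimpleGraph.edgeSet_deleteEdges]
    simp
  have hQH : ∀ f ∈ Q.edges, f ∈ H.edgeSet := fun f hf =>
    (hHe f).mpr ⟨Q.edges_subset_edgeSet hf, hQP f hf⟩
  have hgv : ∀ i, (Q.transfer H hQH).getVert i = Q.getVert i := fun i =>
    getVert_transfer _ _ _
  obtain ⟨A', B, hd', hxs, hB, hBpos, hBcard, hBedge⟩ := parallel3 hd hx huv (Q.transfer H hQH)
    (meets_card hd hx (Q.transfer H hQH) δ (by
      intro i hi hiu hiv
      rw [SimpleGraph.Walk.length_transfer] at hi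
      rw [hgv] at hiu hiv ⊢
      refine (Set.encard_le_encard ?_).trans (hδ i hi hiu hiv)
      rintro f ⟨hf, hxf⟩
      exact ⟨((hHe f).mp hf).1, hxf⟩))
  rw [SimpleGraph.Walk.length_transfer] at hBcard
  set XB : Set (Sym2 V × ℂ) := {q | q.1 ∈ H.edgeSet ∧ q.2 ∈ B ∧ q.2 ∈ A' q.1 ∧ q.2 ∉ range pos}
    with hXB
  have hPlen : 0 < P.length := by
    rcases Nat.eq_zero_or_pos P.length with h0 | h0
    · exact absurd (SimpleGraph.Walk.eq_of_length_eq_zero h0) huv
    · exact h0
  obtain ⟨t, ht⟩ : ∃ t, P.length = t + 1 := ⟨P.length - 1, by omega⟩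
  set p : ℕ → V := P.getVert with hp
  have p0 : p 0 = u := by simp [hp]
  have pt : p (t + 1) = v := by rw [hp, ← ht]; simp
  have pinj : ∀ i j, i ≤ t + 1 → j ≤ t + 1 → p i = p j → i = j := by
    intro i j hi hj hij
    exact hP.getVert_injOn (by simp only [mem_ofPred_eq]; omega)
      (by simp only [mem_ofPred_eq]; omega) hij
  have padj : ∀ i ≤ t, G.Adj (p i) (p (i + 1)) := fun i hi => P.adj_getVert_succ (by omega)
  have hXp : ∀ x, pos x ∉ Prod.snd '' XB := by
    rintro x ⟨p, hp, hpx⟩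
    exact hp.2.2.2 ⟨x, hpx.symm⟩
  have hFcard : (Prod.snd '' XB).encard ≤ (q * (t + 1) : ℕ) := by
    refine (Set.encard_image_le _ _).trans (hBcard.trans ?_)
    rw [← ht]
    exact_mod_cast hcost
  obtain ⟨c, S, c0, ct, hS, hSB, hcB, hcinj, hSS, hcS, hSq⟩ := hB.subdivide_bal hFcard
    (hXp u) (hXp v)
  -- inner vertices of the path
  set inn : V → Prop := fun x => ∃ i, 1 ≤ i ∧ i ≤ t ∧ p i = x with hinn
  have hpos'ex : ∃ pos' : V → ℂ, (∀ i, i ≤ t + 1 → pos' (p i) = c i) ∧
      ∀ x, ¬ inn x → pos' x = pos x := by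
    refine ⟨fun x => if h : inn x then c h.choose else pos x, ?_, ?_⟩
    · intro i hi
      by_cases h : inn (p i)
      · simp only [dif_pos h]
        have hs := h.choose_spec
        exact congrArg c (pinj _ _ (by omega) hi hs.2.2)
      · simp only [dif_neg h]
        rcases Nat.eq_zero_or_pos i with rfl | hi0
        · rw [p0, c0]
        · have : i = t + 1 := by
            by_contra hne
            exact h ⟨i, hi0, by omega, rfl⟩
          rw [this, pt, ct]
    · intro x hx
      simp only [dif_neg hx]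
  obtain ⟨pos', hpos'1, hpos'2⟩ := hpos'ex
  set PE : Set (Sym2 V) := {f | ∃ i ≤ t, f = s(p i, p (i + 1))} with hPE
  have hPEinj : ∀ i j, i ≤ t → j ≤ t → s(p i, p (i + 1)) = s(p j, p (j + 1)) → i = j := by
    intro i j hi hj h
    rw [Sym2.eq_iff] at h
    rcases h with ⟨h1, -⟩ | ⟨h1, h2⟩
    · exact pinj i j (by omega) (by omega) h1
    · have a1 := pinj i (j + 1) (by omega) (by omega) h1
      have a2 := pinj (i + 1) j (by omega) (by omega) h2
      omega
  have hA''ex : ∃ A'' : Sym2 V → Set ℂ, (∀ i ≤ t, A'' s(p i, p (i + 1)) = S i) ∧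
      ∀ f ∉ PE, A'' f = A' f := by
    refine ⟨fun f => if h : ∃ i ≤ t, f = s(p i, p (i + 1)) then S h.choose else A' f, ?_, ?_⟩
    · intro i hi
      have h : ∃ j ≤ t, s(p i, p (i + 1)) = s(p j, p (j + 1)) := ⟨i, hi, rfl⟩
      simp only [dif_pos h]
      have hs := h.choose_spec
      exact congrArg S (hPEinj _ _ hi hs.1 hs.2).symm
    · intro f hf
      have h : ¬ ∃ j ≤ t, f = s(p j, p (j + 1)) := hf
      simp only [dif_neg h]
  obtain ⟨A'', hA''1, hA''2⟩ := hA''ex
  have hPEe : ∀ f ∈ P.edges, f ∈ PE := by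
    intro f hf
    obtain ⟨i, hi, h⟩ := mem_walk_edges P hf
    exact ⟨i, by omega, h⟩
  have hnPE : ∀ f ∈ G.edgeSet, f ∉ PE → f ∈ H.edgeSet := by
    intro f hf hfP
    refine (hHe f).mpr ⟨hf, ?_⟩
    rintro rfl
    exact hfP (hPEe _ he)
  -- edges off the path avoid its inner vertices
  have hninn : ∀ f ∈ G.edgeSet, f ∉ PE → ∀ x ∈ f, ¬ inn x := by
    rintro f hf hfP x hxf ⟨i, hi1, hit, rfl⟩
    obtain ⟨y, rfl⟩ := hxf
    refine hfP (hPEe _ (hPint (p i) (P.getVert_mem_support i) ?_ ?_ y hf))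
    · rw [← p0]
      intro h
      have := pinj i 0 (by omega) (by omega) h
      omega
    · rw [← pt]
      intro h
      have := pinj i (t + 1) (by omega) le_rfl h
      omega
  have hcF : ∀ i, 1 ≤ i → i ≤ t → c i ∉ range pos := by
    rintro i h1 h2 ⟨x, hx⟩
    have h3 := hBpos x (by rw [hx]; exact (hcB i h1 h2).1)
    rcases h3 with h3 | h3
    · rw [h3, ← c0] at hx
      have := hcinj 0 i (by omega) (by omega) hx
      omega
    · rw [h3, ← ct] at hx
      have := hcinj (t + 1) i (by omega) (by omega) hx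
      omega
  have hcA' : ∀ i, 1 ≤ i → i ≤ t → ∀ f ∈ H.edgeSet, c i ∉ A' f := by
    intro i h1 h2 f hf hm
    exact (hcB i h1 h2).2 ⟨(f, c i), ⟨hf, (hcB i h1 h2).1, hm, hcF i h1 h2⟩, rfl⟩
  have hdraw : Drawing G pos' A'' := by
    refine ⟨?_, ?_, ?_⟩
    · intro x y hxy
      by_cases hx : inn x
      · obtain ⟨i, i1, i2, rfl⟩ := hx
        by_cases hy : inn y
        · obtain ⟨j, j1, j2, rfl⟩ := hy
          rw [hpos'1 i (by omega), hpos'1 j (by omega)] at hxy
          rw [hcinj i j (by omega) (by omega) hxy]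
        · rw [hpos'1 i (by omega), hpos'2 y hy] at hxy
          exact absurd ⟨y, hxy.symm⟩ (hcF i i1 i2)
      · by_cases hy : inn y
        · obtain ⟨j, j1, j2, rfl⟩ := hy
          rw [hpos'1 j (by omega), hpos'2 x hx] at hxy
          exact absurd ⟨x, hxy⟩ (hcF j j1 j2)
        · rw [hpos'2 x hx, hpos'2 y hy] at hxy
          exact hd'.inj hxy
    · intro a b hab
      by_cases hf : s(a, b) ∈ PE
      · obtain ⟨i, hi, h⟩ := hf
        rw [h, hA''1 i hi]
        have harc := hS i hi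
        rw [← hpos'1 i (by omega), ← hpos'1 (i + 1) (by omega)] at harc
        rw [Sym2.eq_iff] at h
        rcases h with ⟨rfl, rfl⟩ | ⟨rfl, rfl⟩
        · exact harc
        · exact harc.symm
      · rw [hA''2 _ hf, hpos'2 a (hninn _ hab hf a (by simp)),
          hpos'2 b (hninn _ hab hf b (by simp))]
        exact hd'.arc a b (hnPE _ hab hf)
    · intro f hf x hxf
      by_cases hfP : f ∈ PE
      · obtain ⟨i, hi, rfl⟩ := hfP
        rw [hA''1 i hi] at hxf
        by_cases hx : inn x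
        · obtain ⟨l, l1, l2, rfl⟩ := hx
          rw [hpos'1 l (by omega)] at hxf
          rcases hcS i l hi (by omega) hxf with rfl | rfl
          · simp
          · simp
        · rw [hpos'2 x hx] at hxf
          rcases hBpos x (hSB i hi hxf) with rfl | rfl
          · rw [← c0] at hxf
            have := hcS i 0 hi (by omega) hxf
            obtain rfl : i = 0 := by omega
            rw [p0]
            simp
          · rw [← ct] at hxf
            have := hcS i (t + 1) hi le_rfl hxf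
            obtain rfl : i = t := by omega
            rw [pt]
            simp
      · rw [hA''2 f hfP] at hxf
        by_cases hx : inn x
        · obtain ⟨l, l1, l2, rfl⟩ := hx
          rw [hpos'1 l (by omega)] at hxf
          exact absurd hxf (hcA' l l1 l2 f (hnPE f hf hfP))
        · rw [hpos'2 x hx] at hxf
          exact hd'.avoid f (hnPE f hf hfP) x hxf
  have hrange : ∀ f ∈ G.edgeSet, f ∉ PE → ∀ z ∈ A' f, z ∉ range pos' → z ∉ range pos := by
    rintro f hf hfP z hz hz' ⟨y, rfl⟩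
    have hy := hd'.avoid f (hnPE f hf hfP) y hz
    exact hz' ⟨y, hpos'2 y (hninn f hf hfP y hy)⟩
  have hSSc : ∀ i j, i ≤ t → j ≤ t → i ≠ j → ∀ z ∈ S i, z ∈ S j → z ∈ range pos' := by
    intro i j hi hj hij z hz hz'
    rcases Nat.lt_or_gt_of_ne hij with h | h
    · exact ⟨p j, by rw [hpos'1 j (by omega), hSS i j h hj z hz hz']⟩
    · exact ⟨p i, by rw [hpos'1 i (by omega), hSS j i h hi z hz' hz]⟩
  have hone : ∀ z, {p : Sym2 V × ℂ | p.1 ∈ H.edgeSet ∧ z ∈ A' p.1 ∧ p.2 = z ∧
      z ∉ range pos}.encard ≤ (m + 1 : ℕ) := by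
    intro z
    rcases Set.eq_empty_or_nonempty {p : Sym2 V × ℂ | p.1 ∈ H.edgeSet ∧ z ∈ A' p.1 ∧ p.2 = z ∧
      z ∉ range pos} with h | ⟨⟨g₀, z₀⟩, h1, h2, h3, h4⟩
    · rw [h]
      simp
    · simp only at h1 h2 h3 h4
      have hsub : {p : Sym2 V × ℂ | p.1 ∈ H.edgeSet ∧ z ∈ A' p.1 ∧ p.2 = z ∧ z ∉ range pos} ⊆
          insert (g₀, z) (xs H pos A' g₀) := by
        rintro ⟨g, z'⟩ ⟨h5, h6, h7, -⟩
        simp only at h5 h6 h7
        subst h7
        by_cases hg : g = g₀
        · left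
          rw [hg]
        · right
          exact ⟨h5, hg, h2, h6, h4⟩
      refine (Set.encard_le_encard hsub).trans ((Set.encard_insert_le _ _).trans ?_)
      push_cast
      gcongr
      exact (Set.encard_le_encard (hxs g₀ h1)).trans (hx g₀ h1)
  refine ⟨pos', A'', hdraw, ?_⟩
  intro f hf
  by_cases hfP : f ∈ PE
  · obtain ⟨i, hi, rfl⟩ := hfP
    have hsub : xs G pos' A'' s(p i, p (i + 1)) ⊆ ⋃ z ∈ S i ∩ Prod.snd '' XB,
        {p : Sym2 V × ℂ | p.1 ∈ H.edgeSet ∧ z ∈ A' p.1 ∧ p.2 = z ∧ z ∉ range pos} := by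
      rintro ⟨g', z⟩ ⟨h1, h2, h3, h4, h5⟩
      simp only at h1 h2 h3 h4 h5
      rw [hA''1 i hi] at h3
      by_cases hgP : g' ∈ PE
      · exfalso
        obtain ⟨j, hj, rfl⟩ := hgP
        rw [hA''1 j hj] at h4
        refine h5 (hSSc i j hi hj ?_ z h3 h4)
        rintro rfl
        exact h2 rfl
      · rw [hA''2 g' hgP] at h4
        have h6 := hnPE g' h1 hgP
        have h7 := hrange g' h1 hgP z h4 h5
        simp only [mem_iUnion]
        exact ⟨z, ⟨h3, ⟨(g', z), ⟨h6, hSB i hi h3, h4, h7⟩, rfl⟩⟩, h6, h4, rfl, h7⟩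
    refine (Set.encard_le_encard hsub).trans ?_
    refine (encard_biUnion_le_set _ _ q (m + 1) (hSq i hi) fun z _ => hone z).trans ?_
    exact_mod_cast Nat.le_add_right _ _
  · have hfH := hnPE f hf hfP
    have hsub : xs G pos' A'' f ⊆ xs H pos A' f ∪ {q | q.1 ∈ PE ∧ q ∈ xs G pos' A'' f} := by
      rintro ⟨g', z⟩ hq
      by_cases hgP : g' ∈ PE
      · exact Or.inr ⟨hgP, hq⟩
      · left
        obtain ⟨h1, h2, h3, h4, h5⟩ := hq
        simp only at h1 h2 h3 h4 h5
        rw [hA''2 f hfP] at h3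
        rw [hA''2 g' hgP] at h4
        exact ⟨hnPE g' h1 hgP, h2, h3, h4, hrange f hf hfP z h3 h5⟩
    refine (Set.encard_le_encard hsub).trans ((Set.encard_union_le _ _).trans ?_)
    have hb1 : (xs H pos A' f).encard ≤ m :=
      (Set.encard_le_encard (hxs f hfH)).trans (hx f hfH)
    have hb2 : {q | q.1 ∈ PE ∧ q ∈ xs G pos' A'' f}.encard ≤
        {z | z ∈ B ∧ z ∈ A' f ∧ z ∉ range pos}.encard := by
      refine Set.encard_le_encard_of_injOn (f := Prod.snd) ?_ ?_
      · rintro ⟨g', z⟩ ⟨⟨i, hi, hgi⟩, h1, h2, h3, h4, h5⟩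
        simp only at hgi h1 h2 h3 h4 h5 ⊢
        rw [hA''2 f hfP] at h3
        rw [hgi, hA''1 i hi] at h4
        exact ⟨hSB i hi h4, h3, hrange f hf hfP z h3 h5⟩
      · rintro ⟨g', z⟩ ⟨⟨i, hi, hgi⟩, h1, h2, h3, h4, h5⟩ ⟨g'', z'⟩
          ⟨⟨j, hj, hgj⟩, h1', h2', h3', h4', h5'⟩ h
        simp only at h
        subst h
        simp only at hgi hgj h4 h4' h5
        rw [hgi, hA''1 i hi] at h4
        rw [hgj, hA''1 j hj] at h4'
        by_cases hij : i = j
        · subst hij
          rw [hgi, hgj]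
        · exact absurd (hSSc i j hi hj hij z h4 h4') h5
    refine (add_le_add hb1 (hb2.trans (hBedge f hfH))).trans ?_
    have : m + (m + 2) * 4 ≤ q * (m + 1) + (5 * m + 8) := by ring_nf; omega
    exact_mod_cast this

end Pool.Agent.H354_OP
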