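import Mathlib

/-!
# Light edges and small connected sets of vertices of small degree
-/

set_option autoImplicit false

namespace Pool.Agent.H354_OP

open Finset
open scoped Classical

set_option linter.unusedSectionVars false

variable {V : Type} [Fintype V]

/-- the neighbours of a vertex -/
noncomputable def nb (H : SimpleGraph V) (v : V) : Finset V := univ.filter (fun y => H.Adj v y)

theorem mem_nb {H : SimpleGraph V} {v y : V} : y ∈ nb H v ↔ H.Adj v y := by
  simp [nb]

/-- an edge whose ends are joined by another path of length at most `g` all of whose inner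
vertices have degree at most `Δ` -/
def Light (g Δ : ℕ) (H : SimpleGraph V) : Prop :=
  ∃ u v, H.Adj u v ∧ ∃ w : H.Walk u v, w.IsPath ∧ 2 ≤ w.length ∧ w.length ≤ g ∧
    ∀ x ∈ w.support, x ≠ u → x ≠ v → (nb H x).card ≤ Δ

/-- a connected set -/
def Conn (H : SimpleGraph V) (Z : Finset V) : Prop :=
  ∀ x ∈ Z, ∀ y ∈ Z, ∃ w : H.Walk x y, ∀ u ∈ w.support, u ∈ Z

theorem path_length {H : SimpleGraph V} {Z : Finset V} {x y : V} {w : H.Walk x y}
    (hw : w.IsPath) (hs : ∀ u ∈ w.support, u ∈ Z) : w.length + 1 ≤ Z.card := by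
  rw [← SimpleGraph.Walk.length_support, ← List.toFinset_card_of_nodup hw.support_nodup]
  refine card_le_card ?_
  intro u hu
  exact hs u (List.mem_toFinset.mp hu)

theorem Conn.path {H : SimpleGraph V} {Z : Finset V} (h : Conn H Z) {x y : V} (hx : x ∈ Z)
    (hy : y ∈ Z) : ∃ w : H.Walk x y, w.IsPath ∧ (∀ u ∈ w.support, u ∈ Z) ∧
      w.length + 1 ≤ Z.card := by
  obtain ⟨w, hw⟩ := h x hx y hy
  have hs : ∀ u ∈ w.bypass.support, u ∈ Z := fun u hu => hw u (w.support_bypass_subset_support hu)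
  exact ⟨w.bypass, w.bypass_isPath, hs, path_length w.bypass_isPath hs⟩

theorem two_edges {H : SimpleGraph V} {g Δ : ℕ} {A B : Finset V} (hA : Conn H A)
    (hB : Conn H B) (hd : ∀ x ∈ A, x ∉ B) {z z' y y' : V} (hz : z ∈ A) (hz' : z' ∈ A)
    (hy : y ∈ B) (hy' : y' ∈ B) (hzy : H.Adj z y) (hzy' : H.Adj z' y') (hne : z ≠ z' ∨ y ≠ y')
    (hAl : ∀ x ∈ A, (nb H x).card ≤ Δ) (hBl : ∀ x ∈ B, x ≠ y → (nb H x).card ≤ Δ)
    (hg : A.card + B.card ≤ g + 1) : Light g Δ H := by
  obtain ⟨w1, p1, s1, l1⟩ := hA.path hz hz'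
  obtain ⟨w2, p2, s2, l2⟩ := hB.path hy' hy
  refine ⟨z, y, hzy, w1.append (SimpleGraph.Walk.cons hzy' w2), ?_, ?_, ?_, ?_⟩
  · rw [SimpleGraph.Walk.isPath_def, SimpleGraph.Walk.support_append,
      SimpleGraph.Walk.support_cons, List.tail_cons, List.nodup_append]
    refine ⟨p1.support_nodup, p2.support_nodup, ?_⟩
    intro a ha b hb hab
    subst hab
    exact hd a (s1 a ha) (s2 a hb)
  · rw [SimpleGraph.Walk.length_append, SimpleGraph.Walk.length_cons]
    rcases hne with h | h
    · have : 0 < w1.length := by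
        rcases Nat.eq_zero_or_pos w1.length with h0 | h0
        · exact absurd (SimpleGraph.Walk.eq_of_length_eq_zero h0) h
        · exact h0
      omega
    · have : 0 < w2.length := by
        rcases Nat.eq_zero_or_pos w2.length with h0 | h0
        · exact absurd (SimpleGraph.Walk.eq_of_length_eq_zero h0).symm h
        · exact h0
      omega
  · rw [SimpleGraph.Walk.length_append, SimpleGraph.Walk.length_cons]
    omega
  · intro x hx hxz hxy
    rw [SimpleGraph.Walk.mem_support_append_iff, SimpleGraph.Walk.support_cons,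
      List.mem_cons] at hx
    rcases hx with hx | rfl | hx
    · exact hAl x (s1 x hx)
    · exact hAl x hz'
    · exact hBl x (s2 x hx) hxy

theorem conn_singleton (H : SimpleGraph V) (y : V) : Conn H {y} := by
  intro a ha b hb
  rw [mem_singleton] at ha hb
  subst ha
  subst hb
  exact ⟨SimpleGraph.Walk.nil, by simp⟩

/-- a vertex outside a small connected set of vertices of small degree has at most one
neighbour in it -/
theorem attach {H : SimpleGraph V} {g Δ : ℕ} (hL : ¬ Light g Δ H) {Z : Finset V}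
    (hZ : Conn H Z) (hZl : ∀ x ∈ Z, (nb H x).card ≤ Δ) (hg : Z.card ≤ g) {y z z' : V}
    (hy : y ∉ Z) (hz : z ∈ Z) (hz' : z' ∈ Z) (hzy : H.Adj z y) (hzy' : H.Adj z' y) : z = z' := by
  by_contra hne
  refine hL (two_edges hZ (conn_singleton H y) ?_ hz hz' (mem_singleton_self y)
    (mem_singleton_self y) hzy hzy' (Or.inl hne) hZl ?_ ?_)
  · intro x hx hxy
    rw [mem_singleton] at hxy
    exact hy (hxy ▸ hx)
  · intro x hx hxy
    exact absurd (mem_singleton.mp hx) hxy
  · rw [card_singleton]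
    omega

theorem light_of_cycle {H : SimpleGraph V} {g Δ : ℕ} {Z : Finset V}
    (hZl : ∀ x ∈ Z, (nb H x).card ≤ Δ) (hg : Z.card ≤ g + 1) {v : V} (c : H.Walk v v)
    (hc : c.IsCycle) (hs : ∀ u ∈ c.support, u ∈ Z) : Light g Δ H := by
  cases c with
  | nil => exact absurd rfl hc.ne_nil
  | @cons _ u _ h p =>
    have hlen := hc.three_le_length
    rw [SimpleGraph.Walk.length_cons] at hlen
    rw [SimpleGraph.Walk.cons_isCycle_iff] at hc
    have hs' : ∀ x ∈ p.support, x ∈ Z := fun x hx => hs x (by simp [hx])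
    have := path_length hc.1 hs'
    exact ⟨u, v, h.symm, p, hc.1, by omega, by omega, fun x hx _ _ => hZl x (hs' x hx)⟩

/-- a small connected set of vertices of small degree induces a tree -/
theorem tree_sum {H : SimpleGraph V} {g Δ : ℕ} (hL : ¬ Light g Δ H) {Z : Finset V}
    (hne : Z.Nonempty) (hZ : Conn H Z) (hZl : ∀ x ∈ Z, (nb H x).card ≤ Δ)
    (hg : Z.card ≤ g + 1) :
    ∑ z ∈ Z, ((nb H z).filter (fun y => y ∈ Z)).card + 2 = 2 * Z.card := by
  set K := H.induce (Z : Set V) with hK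
  have hconn : K.Connected := by
    obtain ⟨x, hx⟩ := hne
    have : Nonempty (Z : Set V) := ⟨⟨x, hx⟩⟩
    constructor
    intro a b
    obtain ⟨w, hw⟩ := hZ a.1 a.2 b.1 b.2
    exact ⟨w.induce (Z : Set V) hw⟩
  have hacyc : K.IsAcyclic := by
    intro v c hc
    refine hL (light_of_cycle hZl hg (c.map (SimpleGraph.Embedding.induce (G := H) (Z : Set V)).toHom)
      (hc.map (SimpleGraph.Embedding.induce (G := H) (Z : Set V)).injective) ?_)
    intro u hu
    rw [SimpleGraph.Walk.support_map, List.mem_map] at hu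
    obtain ⟨x, -, rfl⟩ := hu
    exact x.2
  have htree : K.IsTree := ⟨hconn, hacyc⟩
  have h1 := htree.card_edgeFinset
  have h2 := K.sum_degrees_eq_twice_card_edges
  have h3 : Fintype.card (Z : Set V) = Z.card := by simp
  rw [h3] at h1
  have h4 : ∑ v : (Z : Set V), K.degree v =
      ∑ z ∈ Z, ((nb H z).filter (fun y => y ∈ Z)).card := by
    have h5 : ∀ v : (Z : Set V), K.degree v = ((nb H v.1).filter (fun y => y ∈ Z)).card := by
      intro v
      rw [← SimpleGraph.card_neighborFinset_eq_degree]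
      refine Finset.card_bij (fun y _ => y.1) ?_ ?_ ?_
      · intro y hy
        rw [SimpleGraph.mem_neighborFinset] at hy
        rw [mem_filter, mem_nb]
        exact ⟨hy, y.2⟩
      · intro y _ y' _ h
        exact Subtype.ext h
      · intro y hy
        rw [mem_filter, mem_nb] at hy
        refine ⟨⟨y, hy.2⟩, ?_, rfl⟩
        rw [SimpleGraph.mem_neighborFinset]
        exact hy.1
    rw [Finset.sum_congr rfl fun v _ => h5 v]
    exact Finset.sum_coe_sort Z (fun z => ((nb H z).filter (fun y => y ∈ Z)).card)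
  rw [← h4, h2]
  omega

/-- a connected set of vertices of small degree sends at least as many edges out as it has
vertices, up to a defect -/
theorem out_bound {H : SimpleGraph V} {g Δ : ℕ} (hL : ¬ Light g Δ H) {L Hi Bad X₀ Z : Finset V}
    (hne : Z.Nonempty) (hZ : Conn H Z) (hZl : ∀ x ∈ Z, (nb H x).card ≤ Δ) (hg : Z.card ≤ g)
    (hZHi : ∀ x ∈ Z, x ∉ Hi)
    (hcov : ∀ x ∈ Z, ∀ y, H.Adj x y → y ∈ L ∨ y ∈ Bad ∨ y ∈ Hi)
    (hdeg : ∀ x ∈ Z, 3 ≤ (nb H x).card + (if x ∈ X₀ then 1 else 0))
    (h2 : (Hi.filter (fun y => ∃ z ∈ Z, H.Adj z y)).card ≤ 2) :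
    Z.card ≤ ∑ z ∈ Z, ((nb H z).filter (fun y => y ∈ L ∧ y ∉ Z)).card +
      ∑ z ∈ Z, (((nb H z).filter (fun y => y ∈ Bad)).card + (if z ∈ X₀ then 1 else 0)) := by
  have ht := tree_sum hL hne hZ hZl (by omega)
  have hhi : ∑ z ∈ Z, ((nb H z).filter (fun y => y ∈ Hi)).card ≤ 2 := by
    rw [← Finset.card_biUnion]
    · refine le_trans (card_le_card ?_) h2
      intro y hy
      rw [mem_biUnion] at hy
      obtain ⟨z, hz, hy⟩ := hy
      rw [mem_filter, mem_nb] at hy
      rw [mem_filter]
      exact ⟨hy.2, z, hz, hy.1⟩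
    · intro z hz z' hz' hzz
      simp only [Function.onFun]
      rw [Finset.disjoint_left]
      intro y hy hy'
      rw [mem_filter, mem_nb] at hy hy'
      exact hzz (attach hL hZ hZl hg (fun h => hZHi y h hy.2) hz hz' hy.1 hy'.1)
  have hpt : ∀ z ∈ Z, 3 ≤ ((nb H z).filter (fun y => y ∈ Z)).card +
      ((nb H z).filter (fun y => y ∈ L ∧ y ∉ Z)).card +
      ((nb H z).filter (fun y => y ∈ Hi)).card +
      (((nb H z).filter (fun y => y ∈ Bad)).card + (if z ∈ X₀ then 1 else 0)) := by
    intro z hz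
    refine (hdeg z hz).trans ?_
    rw [← add_assoc]
    refine Nat.add_le_add_right ?_ _
    have hsub : nb H z ⊆ (((nb H z).filter (fun y => y ∈ Z) ∪
        (nb H z).filter (fun y => y ∈ L ∧ y ∉ Z)) ∪ (nb H z).filter (fun y => y ∈ Hi)) ∪
        (nb H z).filter (fun y => y ∈ Bad) := by
      intro y hy
      simp only [mem_union, mem_filter]
      rcases hcov z hz y (mem_nb.mp hy) with h | h | h
      · by_cases hyZ : y ∈ Z
        · exact Or.inl (Or.inl (Or.inl ⟨hy, hyZ⟩))
        · exact Or.inl (Or.inl (Or.inr ⟨hy, h, hyZ⟩))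
      · exact Or.inr ⟨hy, h⟩
      · exact Or.inl (Or.inr ⟨hy, h⟩)
    refine (card_le_card hsub).trans ((card_union_le _ _).trans ?_)
    refine Nat.add_le_add_right ((card_union_le _ _).trans ?_) _
    exact Nat.add_le_add_right (card_union_le _ _) _
  have hsum := Finset.sum_le_sum hpt
  rw [Finset.sum_const, smul_eq_mul, Finset.sum_add_distrib, Finset.sum_add_distrib,
    Finset.sum_add_distrib] at hsum
  omega

/-- the restriction of a graph to a set of vertices -/
def res (H : SimpleGraph V) (L : Finset V) : SimpleGraph V where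
  Adj a b := H.Adj a b ∧ a ∈ L ∧ b ∈ L
  symm := ⟨fun _ _ h => ⟨h.1.symm, h.2.2, h.2.1⟩⟩
  loopless := ⟨fun _ h => h.1.ne rfl⟩

theorem res_le (H : SimpleGraph V) (L : Finset V) : res H L ≤ H := fun _ _ h => h.1

/-- the ball of radius `j` around `x` in the restriction of `H` to `L` -/
noncomputable def ball (H : SimpleGraph V) (L : Finset V) (x : V) (j : ℕ) : Finset V :=
  univ.filter (fun y => ∃ w : (res H L).Walk x y, w.length ≤ j)

theorem mem_ball {H : SimpleGraph V} {L : Finset V} {x y : V} {j : ℕ} :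
    y ∈ ball H L x j ↔ ∃ w : (res H L).Walk x y, w.length ≤ j := by
  simp [ball]

theorem self_mem_ball (H : SimpleGraph V) (L : Finset V) (x : V) (j : ℕ) : x ∈ ball H L x j :=
  mem_ball.mpr ⟨SimpleGraph.Walk.nil, by simp⟩

theorem ball_mono {H : SimpleGraph V} {L : Finset V} {x : V} {i j : ℕ} (h : i ≤ j) :
    ball H L x i ⊆ ball H L x j := by
  intro y hy
  obtain ⟨w, hw⟩ := mem_ball.mp hy
  exact mem_ball.mpr ⟨w, hw.trans h⟩

theorem ball_symm {H : SimpleGraph V} {L : Finset V} {x y : V} {j : ℕ} (h : y ∈ ball H L x j) :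
    x ∈ ball H L y j := by
  obtain ⟨w, hw⟩ := mem_ball.mp h
  exact mem_ball.mpr ⟨w.reverse, by simpa using hw⟩

theorem ball_trans {H : SimpleGraph V} {L : Finset V} {x y z : V} {i j : ℕ}
    (h : y ∈ ball H L x i) (h' : z ∈ ball H L y j) : z ∈ ball H L x (i + j) := by
  obtain ⟨w, hw⟩ := mem_ball.mp h
  obtain ⟨w', hw'⟩ := mem_ball.mp h'
  refine mem_ball.mpr ⟨w.append w', ?_⟩
  rw [SimpleGraph.Walk.length_append]
  omega

theorem ball_adj {H : SimpleGraph V} {L : Finset V} {x y z : V} {j : ℕ}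
    (h : y ∈ ball H L x j) (hyz : H.Adj y z) (hy : y ∈ L) (hz : z ∈ L) :
    z ∈ ball H L x (j + 1) := by
  refine ball_trans h (mem_ball.mpr ⟨SimpleGraph.Walk.cons ⟨hyz, hy, hz⟩ SimpleGraph.Walk.nil, ?_⟩)
  simp

theorem walk_res {H : SimpleGraph V} {L : Finset V} {x y : V} (w : (res H L).Walk x y)
    (hx : x ∈ L) : ∀ u ∈ w.support, u ∈ L := by
  induction w with
  | nil =>
    intro u hu
    simp only [SimpleGraph.Walk.support_nil, List.mem_singleton] at hu
    exact hu ▸ hx
  | cons h w ih =>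
    intro u hu
    rw [SimpleGraph.Walk.support_cons, List.mem_cons] at hu
    rcases hu with rfl | hu
    · exact hx
    · exact ih h.2.2 u hu

theorem ball_sub {H : SimpleGraph V} {L : Finset V} {x : V} (hx : x ∈ L) (j : ℕ) :
    ball H L x j ⊆ L := by
  intro y hy
  obtain ⟨w, -⟩ := mem_ball.mp hy
  exact walk_res w hx y w.end_mem_support

/-- every vertex of a short walk is in the ball -/
theorem walk_ball {H : SimpleGraph V} {L : Finset V} {x y : V} (w : (res H L).Walk x y) {j : ℕ}
    (hw : w.length ≤ j) : ∀ u ∈ w.support, u ∈ ball H L x j := by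
  intro u hu
  refine mem_ball.mpr ⟨w.takeUntil u hu, (w.length_takeUntil_le_length hu).trans hw⟩

theorem conn_of_root {H : SimpleGraph V} {L Z : Finset V} {x : V}
    (h : ∀ y ∈ Z, ∃ w : (res H L).Walk x y, ∀ u ∈ w.support, u ∈ Z) : Conn H Z := by
  intro a ha b hb
  obtain ⟨w, hw⟩ := h a ha
  obtain ⟨w', hw'⟩ := h b hb
  refine ⟨(w.reverse.append w').mapLe (res_le H L), ?_⟩
  intro u hu
  rw [SimpleGraph.Walk.support_mapLe_eq_support, SimpleGraph.Walk.mem_support_append_iff,
    SimpleGraph.Walk.support_reverse, List.mem_reverse] at hu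
  rcases hu with hu | hu
  · exact hw u hu
  · exact hw' u hu

theorem ball_conn (H : SimpleGraph V) (L : Finset V) (x : V) (j : ℕ) : Conn H (ball H L x j) := by
  refine conn_of_root (L := L) (x := x) fun y hy => ?_
  obtain ⟨w, hw⟩ := mem_ball.mp hy
  exact ⟨w, walk_ball w hw⟩

theorem ball_card {H : SimpleGraph V} {L : Finset V} {x : V} {Δ : ℕ} (hx : x ∈ L)
    (hL : ∀ x ∈ L, (nb H x).card ≤ Δ) (j : ℕ) : (ball H L x j).card ≤ (Δ + 1) ^ j := by
  induction j with
  | zero =>
    have : ball H L x 0 ⊆ {x} := by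
      intro y hy
      obtain ⟨w, hw⟩ := mem_ball.mp hy
      rw [mem_singleton]
      exact (SimpleGraph.Walk.eq_of_length_eq_zero (Nat.le_zero.mp hw)).symm
    simpa using card_le_card this
  | succ j ih =>
    have hsub : ball H L x (j + 1) ⊆ ball H L x j ∪ (ball H L x j).biUnion (fun z => nb H z) := by
      intro y hy
      obtain ⟨w, hw⟩ := mem_ball.mp hy
      rw [mem_union, mem_biUnion]
      have hr : ∀ (a b : V) (w : (res H L).Walk a b), w.length ≤ j + 1 → b = a ∨
          ∃ z, (∃ w' : (res H L).Walk z b, w'.length ≤ j) ∧ (res H L).Adj a z := by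
        intro a b w hw
        cases w with
        | nil => exact Or.inl rfl
        | @cons _ z _ h p =>
          right
          rw [SimpleGraph.Walk.length_cons] at hw
          exact ⟨z, ⟨p, by omega⟩, h⟩
      rcases hr y x w.reverse (by simpa using hw) with h | ⟨z, ⟨w', hw'⟩, hz⟩
      · left
        rw [← h]
        exact self_mem_ball H L x j
      · right
        refine ⟨z, mem_ball.mpr ⟨w'.reverse, by simpa using hw'⟩, ?_⟩
        rw [mem_nb]
        exact hz.1.symm
    refine (card_le_card hsub).trans ((card_union_le _ _).trans ?_)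
    have h1 := Finset.card_biUnion_le_card_mul (ball H L x j) (fun z => nb H z) Δ
      (fun z hz => hL z (ball_sub hx j hz))
    calc (ball H L x j).card + ((ball H L x j).biUnion (fun z => nb H z)).card
        ≤ (ball H L x j).card + (ball H L x j).card * Δ := by omega
      _ = (ball H L x j).card * (Δ + 1) := by ring
      _ ≤ (Δ + 1) ^ j * (Δ + 1) := Nat.mul_le_mul_right _ ih
      _ = (Δ + 1) ^ (j + 1) := by ring

theorem ball_growth {H : SimpleGraph V} {g Δ : ℕ} (hL : ¬ Light g Δ H) {L : Finset V} {x : V}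
    (hx : x ∈ L) (hLl : ∀ x ∈ L, (nb H x).card ≤ Δ) (j : ℕ) (hg : (ball H L x j).card ≤ g) :
    (ball H L x j).card + ∑ z ∈ ball H L x j,
      ((nb H z).filter (fun y => y ∈ L ∧ y ∉ ball H L x j)).card ≤ (ball H L x (j + 1)).card := by
  rw [← Finset.card_biUnion]
  · rw [← Finset.card_union_of_disjoint]
    · refine card_le_card ?_
      intro y hy
      rw [mem_union, mem_biUnion] at hy
      rcases hy with hy | ⟨z, hz, hy⟩
      · exact ball_mono (Nat.le_succ j) hy
      · rw [mem_filter, mem_nb] at hy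
        exact ball_adj hz hy.1 (ball_sub hx j hz) hy.2.1
    · rw [Finset.disjoint_left]
      intro y hy hy'
      rw [mem_biUnion] at hy'
      obtain ⟨z, hz, hy'⟩ := hy'
      rw [mem_filter] at hy'
      exact hy'.2.2 hy
  · intro z hz z' hz' hzz
    simp only [Function.onFun]
    rw [Finset.disjoint_left]
    intro y hy hy'
    rw [mem_filter, mem_nb] at hy hy'
    exact hzz (attach hL (ball_conn H L x j) (fun u hu => hLl u (ball_sub hx j hu)) hg
      hy.2.2 hz hz' hy.1 hy'.1)

/-- a spanning forest of small depth -/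
theorem forest (H : SimpleGraph V) (L X : Finset V) : ∀ j : ℕ, ∃ f : V → V,
    (∀ x ∈ X, f x = x) ∧
    ∀ v, (∃ x ∈ X, v ∈ ball H L x j) → f v ∈ X ∧ ∃ w : (res H L).Walk (f v) v, w.length ≤ j ∧
      ∀ u ∈ w.support, (∃ x ∈ X, u ∈ ball H L x j) ∧ f u = f v := by
  intro j
  induction j with
  | zero =>
    refine ⟨id, fun _ _ => rfl, ?_⟩
    rintro v ⟨x, hx, hv⟩
    obtain ⟨w, hw⟩ := mem_ball.mp hv
    obtain rfl := SimpleGraph.Walk.eq_of_length_eq_zero (Nat.le_zero.mp hw)
    refine ⟨hx, SimpleGraph.Walk.nil, by simp, ?_⟩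
    intro u hu
    have hu' : u = x := by simpa using hu
    rw [hu']
    exact ⟨⟨x, hx, self_mem_ball H L x 0⟩, rfl⟩
  | succ j ih =>
    obtain ⟨f, hfx, hf⟩ := ih
    have hstep : ∀ v, (∃ x ∈ X, v ∈ ball H L x (j + 1)) → ¬ (∃ x ∈ X, v ∈ ball H L x j) →
        ∃ u, (∃ x ∈ X, u ∈ ball H L x j) ∧ (res H L).Adj u v := by
      rintro v ⟨x, hx, hv⟩ hnv
      obtain ⟨w, hw⟩ := mem_ball.mp hv
      have hr : ∀ (a b : V) (w : (res H L).Walk a b), w.length ≤ j + 1 → b = a ∨
          ∃ z, (∃ w' : (res H L).Walk z b, w'.length ≤ j) ∧ (res H L).Adj a z := by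
        intro a b w hw
        cases w with
        | nil => exact Or.inl rfl
        | @cons _ z _ h p =>
          right
          rw [SimpleGraph.Walk.length_cons] at hw
          exact ⟨z, ⟨p, by omega⟩, h⟩
      rcases hr v x w.reverse (by simpa using hw) with h | ⟨z, ⟨w', hw'⟩, hz⟩
      · exfalso
        refine hnv ⟨x, hx, ?_⟩
        rw [← h]
        exact self_mem_ball H L x j
      · exact ⟨z, ⟨x, hx, mem_ball.mpr ⟨w'.reverse, by simpa using hw'⟩⟩, hz.symm⟩
    choose! par hpar hadj using hstep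
    obtain ⟨F, hF⟩ : ∃ F : V → V, ∀ v, F v = if (∃ x ∈ X, v ∈ ball H L x j) then f v
        else f (par v) := ⟨_, fun v => rfl⟩
    refine ⟨F, ?_, ?_⟩
    · intro x hx
      rw [hF, if_pos ⟨x, hx, self_mem_ball H L x j⟩]
      exact hfx x hx
    intro v hv
    have hlift : ∀ u, (∃ x ∈ X, u ∈ ball H L x j) → ∃ x ∈ X, u ∈ ball H L x (j + 1) := by
      rintro u ⟨x, hx, hu⟩
      exact ⟨x, hx, ball_mono (Nat.le_succ j) hu⟩
    by_cases h : ∃ x ∈ X, v ∈ ball H L x j
    · have hFv : F v = f v := by rw [hF, if_pos h]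
      rw [hFv]
      obtain ⟨h1, w, hw, hs⟩ := hf v h
      refine ⟨h1, w, by omega, ?_⟩
      intro u hu
      obtain ⟨h2, h3⟩ := hs u hu
      rw [hF u, if_pos h2]
      exact ⟨hlift u h2, h3⟩
    · have hFv : F v = f (par v) := by rw [hF, if_neg h]
      rw [hFv]
      obtain ⟨h1, w, hw, hs⟩ := hf (par v) (hpar v hv h)
      refine ⟨h1, w.append (SimpleGraph.Walk.cons (hadj v hv h) SimpleGraph.Walk.nil), ?_, ?_⟩
      · rw [SimpleGraph.Walk.length_append, SimpleGraph.Walk.length_cons,
          SimpleGraph.Walk.length_nil]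
        omega
      · intro u hu
        rw [SimpleGraph.Walk.mem_support_append_iff] at hu
        rcases hu with hu | hu
        · obtain ⟨h2, h3⟩ := hs u hu
          rw [hF u, if_pos h2]
          exact ⟨hlift u h2, h3⟩
        · simp only [SimpleGraph.Walk.support_cons, SimpleGraph.Walk.support_nil, List.mem_cons,
            List.not_mem_nil, or_false] at hu
          rcases hu with rfl | rfl
          · rw [hF, if_pos (hpar v hv h)]
            exact ⟨hlift _ (hpar v hv h), rfl⟩
          · rw [hFv]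
            exact ⟨hv, rfl⟩

theorem Light.mono {H : SimpleGraph V} {g g' Δ Δ' : ℕ} (h : Light g Δ H) (hg : g ≤ g')
    (hΔ : Δ ≤ Δ') : Light g' Δ' H := by
  obtain ⟨u, v, huv, w, h1, h2, h3, h4⟩ := h
  exact ⟨u, v, huv, w, h1, h2, h3.trans hg, fun x hx hxu hxv => (h4 x hx hxu hxv).trans hΔ⟩

end Pool.Agent.H354_OP
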