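import Pool.Agent.H354_OP.Wor0

/-!
# The world of a graph that is hard to draw
-/

set_option autoImplicit false

namespace Pool.Agent.H354_OP

open Finset
open scoped Classical

set_option linter.unusedSectionVars false

theorem redraw_cost {V : Type} [Fintype V] {G : SimpleGraph V} {m k : ℕ} (hk : ¬ KDraw k G)
    (hcrit : ∀ e ∈ G.edgeSet, KDraw m (G.deleteEdges {e}))
    (hdeg : ∀ v, (nb G v).card < 3 → (nb G v).card = 0 ∨ (nb G v).card = 2) {n : ℕ} {p : ℕ → V}
    (hp : PSeq G p n) (hn : 0 < n) (hinn : ∀ i, 0 < i → i < n → (nb G (p i)).card < 3)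
    (Q : G.Walk (p 0) (p n)) (hQ : ∀ f ∈ Q.edges, f ≠ s(p 0, p 1)) {R : ℕ}
    (hR : ((Q.support.map (fun y => if y = p 0 ∨ y = p n then 0 else (nb G y).card)).sum +
      2 * m * Q.length) * 4 ≤ R * n) (hRk : R * (m + 1) + (5 * m + 8) ≤ k) : False := by
  obtain ⟨P, hP, hPl, hPs, hPe⟩ := hp.walk
  have hD : D2 G (fun v => 3 ≤ (nb G v).card) := d2_of_deg fun v hv => hdeg v (not_le.mp hv)
  refine hk (KDraw.mono (redraw_bal (e := s(p 0, p 1)) ?_ P hP ?_ ((hPe _).mpr ⟨0, hn, rfl⟩)
    (hcrit _ ?_) Q hQ (fun i => if Q.getVert i = p 0 ∨ Q.getVert i = p n then 0 else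
      (nb G (Q.getVert i)).card) ?_ (q := R) ?_) hRk)
  · intro h
    have := hp.inj 0 n (Nat.zero_le _) le_rfl h
    omega
  · intro x hx hx0 hxn y hxy
    obtain ⟨i, hi, rfl⟩ := (hPs x).mp hx
    have hi0 : 0 < i := by
      rcases Nat.eq_zero_or_pos i with h | h
      · exact absurd (by rw [h]) hx0
      · exact h
    have hin : i < n := by
      rcases Nat.lt_or_ge i n with h | h
      · exact h
      · exact absurd (by rw [show i = n by omega]) hxn
    have a1 : G.Adj (p i) (p (i - 1)) := by
      have := hp.adj (i - 1) (by omega)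
      rw [show i - 1 + 1 = i by omega] at this
      exact this.symm
    have a2 : G.Adj (p i) (p (i + 1)) := hp.adj i hin
    have hne : p (i - 1) ≠ p (i + 1) := by
      intro h2
      have := hp.inj (i - 1) (i + 1) (by omega) (by omega) h2
      omega
    rw [hPe]
    rcases hD (p i) (not_le.mpr (hinn i hi0 hin)) _ _ _ a1 a2 hxy hne with h | h
    · refine ⟨i - 1, by omega, ?_⟩
      rw [show i - 1 + 1 = i by omega, h]
      exact Sym2.eq_swap
    · refine ⟨i, hin, ?_⟩
      rw [h]
  · exact hp.adj 0 hn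
  · intro i hi hi0 hin
    rw [if_neg (by tauto)]
    exact incid_le _
  · rw [hPl]
    refine le_trans ?_ hR
    refine Nat.mul_le_mul_right _ ?_
    rw [sum_add_distrib, sum_const, card_range, smul_eq_mul]
    have h1 := sum_getVert_le Q (fun y => if y = p 0 ∨ y = p n then 0 else (nb G y).card)
    have h2 : Q.length * (2 * m) = 2 * m * Q.length := by ring
    rw [h2]
    exact Nat.add_le_add_right h1 _

theorem base_facts {V : Type} [Fintype V] {G : SimpleGraph V} {m k : ℕ} (hk : ¬ KDraw k G)
    (hkm : (16 + 8 * m) * (m + 1) + (5 * m + 8) + m ≤ k)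
    (hcrit : ∀ e ∈ G.edgeSet, KDraw m (G.deleteEdges {e})) {Br : V → Prop}
    (hBr : ∀ v, Br v ↔ 3 ≤ (nb G v).card) :
    (∀ v, (nb G v).card < 3 → (nb G v).card = 0 ∨ (nb G v).card = 2) ∧ ParU G Br ∧
      (∃ x, Br x) ∧ ∃ (n : V → V → ℕ) (p : V → V → ℕ → V), ∀ x a, Br x → G.Adj x a →
        Thr G Br (n x a) (p x a) ∧ p x a 0 = x ∧ p x a 1 = a := by
  have hnot : ¬ KDraw m G := fun h => hk (h.mono (by omega))
  have hdeg1 : ∀ v, (nb G v).card ≠ 1 := by
    intro v hv
    obtain ⟨y, hy⟩ := Finset.card_eq_one.mp hv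
    have hvy : G.Adj v y := mem_nb.mp (by rw [hy]; exact mem_singleton_self y)
    refine hnot (pendant hvy (fun z hz => ?_) (hcrit _ hvy))
    have := mem_nb.mpr hz
    rw [hy, mem_singleton] at this
    exact this
  have hdeg : ∀ v, (nb G v).card < 3 → (nb G v).card = 0 ∨ (nb G v).card = 2 := by
    intro v hv
    have := hdeg1 v
    omega
  have hdeg' : ∀ v, ¬ Br v → (nb G v).card = 0 ∨ (nb G v).card = 2 := fun v hv =>
    hdeg v (not_le.mp ((hBr v).not.mp hv))
  have hs₁ : ∀ n p, PSeq G p n → (∀ i ≤ n, ¬ Br (p i)) → n + 1 ≤ Fintype.card V := by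
    intro n p hp _
    have := Fintype.card_le_of_injective (fun i : Fin (n + 1) => p i) (fun i j hij =>
      Fin.ext (hp.inj i j (by omega) (by omega) hij))
    simpa using this
  have hRk : (16 + 8 * m) * (m + 1) + (5 * m + 8) ≤ k := by omega
  have hloop : ∀ n p, PSeq G p n → 2 ≤ n → (∀ i, 0 < i → i < n → ¬ Br (p i)) →
      ¬ G.Adj (p n) (p 0) := by
    intro n p hp h2 hb hadj
    refine redraw_cost hk hcrit hdeg hp (by omega)
      (fun i h1 h2 => not_le.mp ((hBr _).not.mp (hb i h1 h2)))
      (SimpleGraph.Walk.cons hadj.symm SimpleGraph.Walk.nil) ?_ ?_ hRk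
    · intro f hf h
      simp only [SimpleGraph.Walk.edges_cons, SimpleGraph.Walk.edges_nil, List.mem_singleton] at hf
      rw [hf, Sym2.eq_iff] at h
      rcases h with ⟨-, h⟩ | ⟨h, -⟩
      · have := hp.inj n 1 le_rfl (by omega) h
        omega
      · have := hp.inj 0 1 (by omega) (by omega) h
        omega
    · simp only [SimpleGraph.Walk.support_cons, SimpleGraph.Walk.support_nil, List.map_cons,
        List.map_nil, List.sum_cons, List.sum_nil, true_or, or_true, if_true,
        SimpleGraph.Walk.length_cons, SimpleGraph.Walk.length_nil]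
      have h3 : (16 + 8 * m) * 1 ≤ (16 + 8 * m) * n := Nat.mul_le_mul_left _ (by omega)
      omega
  by_cases hedge : ∃ a b, G.Adj a b
  swap
  · exact absurd (kdraw_of_noEdge hedge m) hnot
  by_cases hB : ∃ x, Br x
  swap
  · push Not at hB
    obtain ⟨a, b, hab⟩ := hedge
    obtain ⟨n, p, hp, p0, -⟩ := exists_thread (Br := fun v => v = a)
      (fun n p hp _ => hs₁ n p hp (fun i _ => hB _)) (fun v _ => hdeg' v (hB v)) (x := a) rfl hab
      (fun n p hp h2 _ => hloop n p hp h2 (fun i _ _ => hB _))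
    have h1 := hp.seq.inj 0 n (Nat.zero_le _) le_rfl (p0.trans hp.bn.symm)
    have h2 := hp.pos
    omega
  refine ⟨hdeg, ?_, hB, ?_⟩
  · -- parallel threads
    have hpar : ∀ n p n' q, Thr G Br n p → Thr G Br n' q → n' ≤ n → p 0 = q 0 →
        p n = q n' → p 1 = q 1 := by
      intro n p n' q hp hq hn' h0 hn
      by_contra hne
      obtain ⟨Q, hQl, hQe, hQs⟩ := seqWalk n' hq.seq.adj
      refine redraw_cost hk hcrit hdeg hp.seq hp.pos
        (fun i h1 h2 => not_le.mp ((hBr _).not.mp (hp.inn i h1 h2))) (Q.copy h0.symm hn.symm) ?_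
        (R := 16 + 8 * m) ?_ hRk
      · intro f hf h
        rw [SimpleGraph.Walk.edges_copy] at hf
        obtain ⟨j, hj, rfl⟩ := hQe f hf
        rw [Sym2.eq_iff] at h
        rcases h with ⟨h1, h2⟩ | ⟨h1, h2⟩
        · have h3 := hq.seq.inj j 0 hj.le (Nat.zero_le _) (h1.trans h0)
          rw [h3] at h2
          exact hne h2.symm
        · have h3 := hq.seq.inj (j + 1) 0 hj (Nat.zero_le _) (h2.trans h0)
          omega
      · have h1 := hQs (fun y => if y = p 0 ∨ y = p n then 0 else (nb G y).card) _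
          SimpleGraph.Walk.nil
        rw [SimpleGraph.Walk.append_nil, SimpleGraph.Walk.support_nil, List.map_cons,
          List.map_nil, List.sum_cons, List.sum_nil] at h1
        rw [SimpleGraph.Walk.support_copy, SimpleGraph.Walk.length_copy, hQl, h1]
        have h2 : ∑ i ∈ range n', (if q i = p 0 ∨ q i = p n then 0 else (nb G (q i)).card) ≤
            ∑ i ∈ range n', 2 := by
          refine sum_le_sum fun i hi => ?_
          rw [mem_range] at hi
          split_ifs with h
          · omega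
          · push Not at h
            have hb : ¬ Br (q i) := by
              intro hb
              rcases hq.ends hi.le hb with h3 | h3
              · exact h.1 (by rw [h3, h0])
              · exact h.2 (by rw [h3, hn])
            rcases hdeg' _ hb with h3 | h3 <;> omega
        rw [sum_const, card_range, smul_eq_mul] at h2
        have h3 : (if q n' = p 0 ∨ q n' = p n then 0 else (nb G (q n')).card) = 0 :=
          if_pos (Or.inr hn.symm)
        rw [h3]
        have h4 : 2 * m * n' ≤ 2 * m * n := Nat.mul_le_mul_left _ hn'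
        have h5 : (16 + 8 * m) * n = 16 * n + 4 * (2 * m * n) := by ring
        rw [h5]
        omega
    intro n p n' q hp hq h0 hn
    rcases Nat.le_total n' n with h | h
    · exact hpar n p n' q hp hq h h0 hn
    · exact (hpar n' q n p hq hp h h0.symm hn.symm).symm
  · have hch : ∀ x a, ∃ n p, Br x → G.Adj x a → Thr G Br n p ∧ p 0 = x ∧ p 1 = a := by
      intro x a
      by_cases h : Br x ∧ G.Adj x a
      · obtain ⟨n, p, hp⟩ := exists_thread hs₁ hdeg' h.1 h.2
          (fun n p hp h2 hb => hloop n p hp h2 (fun i h3 h4 => hb i h3 h4.le))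
        exact ⟨n, p, fun _ _ => hp⟩
      · exact ⟨0, fun _ => x, fun h1 h2 => absurd ⟨h1, h2⟩ h⟩
    choose n p hp using hch
    exact ⟨n, p, hp⟩

end Pool.Agent.H354_OP
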