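import Pool.Agent.H354_OP.MainD
import Pool.Agent.H354_OP.Wor1

/-!
# Cycles with few branch vertices
-/

set_option autoImplicit false

namespace Pool.Agent.H354_OP

open Finset
open scoped Classical

set_option linter.unusedSectionVars false

/-- a thread that starts along a cycle stays on it -/
theorem stay_cycle {V : Type} {G : SimpleGraph V} {Br : V → Prop} (hD : D2 G Br) {v : V}
    {c : G.Walk v v} (hc : c.IsCycle) {n : ℕ} {q : ℕ → V} (hq : Thr G Br n q)
    (h0 : c.toSubgraph.Adj (q 0) (q 1)) : ∀ i < n, c.toSubgraph.Adj (q i) (q (i + 1)) := by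
  intro i
  induction i with
  | zero => exact fun _ => h0
  | succ i ih =>
    intro hi
    have h1 := ih (by omega)
    have hz : q (i + 1) ∈ c.support := by
      rw [← SimpleGraph.Walk.mem_verts_toSubgraph]
      exact h1.snd_mem
    have h2 := hc.ncard_neighborSet_toSubgraph_eq_two hz
    obtain ⟨b, hb, hbq⟩ := Set.exists_ne_of_one_lt_ncard
      (s := c.toSubgraph.neighborSet (q (i + 1))) (by omega) (q i)
    have hb' : c.toSubgraph.Adj (q (i + 1)) b := hb
    have hne : q i ≠ q (i + 1 + 1) := by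
      intro h
      have := hq.seq.inj i (i + 1 + 1) (by omega) (by omega) h
      omega
    rcases hD (q (i + 1)) (hq.inn (i + 1) (by omega) hi) (q i) (q (i + 1 + 1)) b
      (hq.seq.adj i (by omega)).symm (hq.seq.adj (i + 1) hi) hb'.adj_sub hne with h | h
    · exact absurd h hbq
    · rw [← h]
      exact hb'

theorem stay_end {V : Type} {G : SimpleGraph V} {Br : V → Prop} (hD : D2 G Br) {v : V}
    {c : G.Walk v v} (hc : c.IsCycle) {n : ℕ} {q : ℕ → V} (hq : Thr G Br n q)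
    (h0 : c.toSubgraph.Adj (q 0) (q 1)) : q n ∈ c.support := by
  have h1 := stay_cycle hD hc hq h0 (n - 1) (by have := hq.pos; omega)
  rw [Nat.sub_add_cancel hq.pos] at h1
  rw [← SimpleGraph.Walk.mem_verts_toSubgraph]
  exact h1.snd_mem

theorem two_nb {V : Type} {G : SimpleGraph V} {v : V} {c : G.Walk v v} (hc : c.IsCycle) {x : V}
    (hx : x ∈ c.support) : ∃ a b, a ≠ b ∧ c.toSubgraph.Adj x a ∧ c.toSubgraph.Adj x b := by
  have h2 := hc.ncard_neighborSet_toSubgraph_eq_two hx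
  obtain ⟨a, b, hab, h⟩ := Set.ncard_eq_two.mp h2
  refine ⟨a, b, hab, ?_, ?_⟩
  · have : a ∈ c.toSubgraph.neighborSet x := by rw [h]; simp
    exact this
  · have : b ∈ c.toSubgraph.neighborSet x := by rw [h]; simp
    exact this

theorem forest_sum' {V : Type} [Fintype V] {Φ : SimpleGraph V} (hΦ : Φ.IsAcyclic)
    (hV : Nonempty V) : ∑ v, (nb Φ v).card + 2 ≤ 2 * Fintype.card V := by
  have hconn : (⊤ : SimpleGraph V).Connected := SimpleGraph.connected_top
  obtain ⟨F, h1, -, h2⟩ := hconn.exists_isTree_le_of_le_of_isAcyclic le_top hΦ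
  have h3 := h2.card_edgeFinset
  have h4 := F.sum_degrees_eq_twice_card_edges
  have h5 : ∑ v, (nb Φ v).card ≤ ∑ v, F.degree v := by
    refine sum_le_sum fun v _ => ?_
    rw [← SimpleGraph.card_neighborFinset_eq_degree]
    refine card_le_card fun y hy => ?_
    rw [mem_nb] at hy
    rw [SimpleGraph.mem_neighborFinset]
    exact h1 hy
  omega

theorem exists_cycle2 {V : Type} [Fintype V] {H : SimpleGraph V} (hd : ∀ x, 2 ≤ (nb H x).card)
    (hne : Nonempty V) : ShortC (Fintype.card V) H := by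
  have h1 : ¬ H.IsAcyclic := by
    intro h
    have h2 := forest_sum' h hne
    have h3 : 2 * Fintype.card V ≤ ∑ v, (nb H v).card := by
      rw [← Finset.card_univ, mul_comm, ← smul_eq_mul, ← sum_const]
      exact sum_le_sum fun x _ => hd x
    omega
  simp only [SimpleGraph.IsAcyclic, not_forall, not_not] at h1
  obtain ⟨v, c, hc⟩ := h1
  cases c with
  | nil => exact absurd hc (by simp)
  | @cons _ u _ h p =>
    have hl := hc.three_le_length
    rw [SimpleGraph.Walk.length_cons] at hl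
    rw [SimpleGraph.Walk.cons_isCycle_iff] at hc
    exact ⟨u, v, h.symm, p, hc.1, by omega, hc.1.length_lt.le⟩

theorem ShortC.map {V W : Type} {Γ : SimpleGraph V} {H : SimpleGraph W} {ℓ : ℕ}
    (h : ShortC ℓ Γ) (f : Γ →g H) (hf : Function.Injective f) : ShortC ℓ H := by
  obtain ⟨a, b, hab, w, hw, h2, hl⟩ := h
  refine ⟨f a, f b, f.map_adj hab, w.map f, hw.map hf, ?_, ?_⟩
  · rw [SimpleGraph.Walk.length_map]
    exact h2
  · rw [SimpleGraph.Walk.length_map]
    exact hl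

/-- a cycle gives a cycle in the graph of the threads -/
theorem cycle_short {V : Type} [Fintype V] {G : SimpleGraph V} {Br : V → Prop} (hD : D2 G Br)
    (hP : ParU G Br) {n : V → V → ℕ} {p : V → V → ℕ → V}
    (hp : ∀ x a, Br x → G.Adj x a → Thr G Br (n x a) (p x a) ∧ p x a 0 = x ∧ p x a 1 = a) {v : V}
    {c : G.Walk v v} (hc : c.IsCycle) (hB : ∃ x ∈ c.support, Br x) {y : ℕ}
    (hy : (univ.filter (fun u => Br u ∧ u ∈ c.support)).card ≤ y) :
    ∃ Γ : SimpleGraph {v // Br v}, Γ ≤ TH G Br ∧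
      (∀ a b, Γ.Adj a b → a.1 ∈ c.support ∧ b.1 ∈ c.support) ∧ ShortC y Γ := by
  obtain ⟨S, hS⟩ : ∃ S : Set {v // Br v}, ∀ x, x ∈ S ↔ x.1 ∈ c.support := ⟨_, fun x => Iff.rfl⟩
  obtain ⟨Γ, hΓ⟩ : ∃ Γ : SimpleGraph S, Γ = (TH G Br).induce S := ⟨_, rfl⟩
  have hend : ∀ x : S, ∀ a, c.toSubgraph.Adj x.1.1 a → ∃ z : S, Γ.Adj x z ∧
      z.1.1 = p x.1.1 a (n x.1.1 a) := by
    intro x a ha
    obtain ⟨h1, h2, h3⟩ := hp x.1.1 a x.1.2 ha.adj_sub
    have h4 : p x.1.1 a (n x.1.1 a) ∈ c.support := by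
      refine stay_end hD hc h1 ?_
      rw [h2, h3]
      exact ha
    refine ⟨⟨⟨_, h1.bn⟩, (hS _).mpr h4⟩, ?_, rfl⟩
    rw [hΓ, SimpleGraph.comap_adj]
    refine ⟨?_, n x.1.1 a, p x.1.1 a, h1, h2, rfl⟩
    intro h5
    have h6 : x.1.1 = p x.1.1 a (n x.1.1 a) := congrArg Subtype.val h5
    have h7 := h1.seq.inj 0 (n x.1.1 a) (Nat.zero_le _) le_rfl (h2.trans h6)
    have := h1.pos
    omega
  have hd : ∀ x : S, 2 ≤ (nb Γ x).card := by
    intro x
    obtain ⟨a, b, hab, ha, hb⟩ := two_nb hc ((hS _).mp x.2)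
    obtain ⟨z, hz, hz'⟩ := hend x a ha
    obtain ⟨z', hz₂, hz₂'⟩ := hend x b hb
    obtain ⟨h1, h2, h3⟩ := hp x.1.1 a x.1.2 ha.adj_sub
    obtain ⟨k1, k2, k3⟩ := hp x.1.1 b x.1.2 hb.adj_sub
    have hne : z ≠ z' := by
      intro h
      rw [← h, hz'] at hz₂'
      have h4 := hP _ _ _ _ h1 k1 (h2.trans k2.symm) hz₂'
      rw [h3, k3] at h4
      exact hab h4
    rw [← card_pair hne]
    refine card_le_card ?_
    intro w hw
    rw [mem_insert, mem_singleton] at hw
    rcases hw with rfl | rfl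
    · exact mem_nb.mpr hz
    · exact mem_nb.mpr hz₂
  obtain ⟨x, hx, hxB⟩ := hB
  have hsh := exists_cycle2 hd ⟨⟨⟨x, hxB⟩, (hS _).mpr hx⟩⟩
  have hcard : Fintype.card S ≤ y := by
    refine le_trans ?_ hy
    rw [← Finset.card_univ]
    refine Finset.card_le_card_of_injOn (fun s => s.1.1) ?_ ?_
    · intro s _
      rw [Finset.mem_coe, mem_filter]
      exact ⟨mem_univ _, s.1.2, (hS _).mp s.2⟩
    · intro s _ s' _ h
      exact Subtype.ext (Subtype.ext h)
  subst hΓ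
  obtain ⟨Γ, hΓ⟩ : ∃ Γ : SimpleGraph {v // Br v}, ∀ a b, Γ.Adj a b ↔
      (TH G Br).Adj a b ∧ a ∈ S ∧ b ∈ S :=
    ⟨⟨fun a b => (TH G Br).Adj a b ∧ a ∈ S ∧ b ∈ S, ⟨fun a b h => ⟨h.1.symm, h.2.2, h.2.1⟩⟩,
      ⟨fun a h => h.1.ne rfl⟩⟩, fun a b => Iff.rfl⟩
  refine ⟨Γ, fun a b h => ((hΓ a b).mp h).1, fun a b h => ?_, ?_⟩
  · obtain ⟨-, h1, h2⟩ := (hΓ a b).mp h
    exact ⟨(hS _).mp h1, (hS _).mp h2⟩
  · refine (hsh.map (H := Γ) ⟨fun s => s.1, ?_⟩ (fun a b h => Subtype.ext h)).mono hcard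
    intro a b h
    exact (hΓ _ _).mpr ⟨h, a.2, b.2⟩

/-- every cycle contains a branch vertex -/
theorem cycle_has_branch {V : Type} [Fintype V] {G : SimpleGraph V} {m k : ℕ} (hk : ¬ KDraw k G)
    (hkm : (16 + 8 * m) * (m + 1) + (5 * m + 8) + m ≤ k)
    (hcrit : ∀ e ∈ G.edgeSet, KDraw m (G.deleteEdges {e})) {Br : V → Prop}
    (hBr : ∀ v, Br v ↔ 3 ≤ (nb G v).card)
    (hdeg : ∀ v, (nb G v).card < 3 → (nb G v).card = 0 ∨ (nb G v).card = 2) {v : V}
    {c : G.Walk v v} (hc : c.IsCycle) : ∃ x ∈ c.support, Br x := by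
  by_contra hcon
  push Not at hcon
  have hdeg' : ∀ v, ¬ Br v → (nb G v).card = 0 ∨ (nb G v).card = 2 := fun v hv =>
    hdeg v (not_le.mp ((hBr v).not.mp hv))
  have hs₁ : ∀ n p, PSeq G p n → n + 1 ≤ Fintype.card V := by
    intro n p hp
    have := Fintype.card_le_of_injective (fun i : Fin (n + 1) => p i) (fun i j hij =>
      Fin.ext (hp.inj i j (by omega) (by omega) hij))
    simpa using this
  have hRk : (16 + 8 * m) * (m + 1) + (5 * m + 8) ≤ k := by omega
  have hloop : ∀ n p, PSeq G p n → 2 ≤ n → (∀ i, 0 < i → i < n → ¬ Br (p i)) →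
      ¬ G.Adj (p n) (p 0) := by
    intro n p hp h2 hb hadj
    refine redraw_cost hk hcrit hdeg hp (by omega)
      (fun i h1 h2 => not_le.mp ((hBr _).not.mp (hb i h1 h2)))
      (SimpleGraph.Walk.cons hadj.symm SimpleGraph.Walk.nil) ?_ ?_ hRk
    · intro f hf h
      simp only [SimpleGraph.Walk.edges_cons, SimpleGraph.Walk.edges_nil, List.mem_singleton] at hf
      rw [hf, Sym2.eq_iff] at h
      rcases h with ⟨-, h⟩ | ⟨h, -⟩
      · have := hp.inj n 1 le_rfl (by omega) h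
        omega
      · have := hp.inj 0 1 (by omega) (by omega) h
        omega
    · simp only [SimpleGraph.Walk.support_cons, SimpleGraph.Walk.support_nil, List.map_cons,
        List.map_nil, List.sum_cons, List.sum_nil, true_or, or_true, if_true,
        SimpleGraph.Walk.length_cons, SimpleGraph.Walk.length_nil]
      have h3 : (16 + 8 * m) * 1 ≤ (16 + 8 * m) * n := Nat.mul_le_mul_left _ (by omega)
      omega
  obtain ⟨Br', hBr'⟩ : ∃ Br' : V → Prop, ∀ x, Br' x ↔ Br x ∨ x = v := ⟨_, fun x => Iff.rfl⟩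
  have hd' : ∀ x, ¬ Br' x → (nb G x).card = 0 ∨ (nb G x).card = 2 := fun x hx =>
    hdeg' x fun h => hx ((hBr' x).mpr (Or.inl h))
  obtain ⟨a, b, hab, ha, hb⟩ := two_nb hc c.start_mem_support
  obtain ⟨n, p, hp, p0, p1⟩ := exists_thread (Br := Br')
    (fun n p hp _ => hs₁ n p hp) hd' (x := v) ((hBr' v).mpr (Or.inr rfl)) ha.adj_sub
    (fun n p hp h2 h3 => hloop n p hp h2 fun i h4 h5 h6 => h3 i h4 h5.le ((hBr' _).mpr (Or.inl h6)))
  have h1 := stay_end (d2_of_deg hd') hc hp (by rw [p0, p1]; exact ha)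
  rcases (hBr' _).mp hp.bn with h2 | h2
  · exact hcon _ h1 h2
  · have h3 := hp.seq.inj 0 n (Nat.zero_le _) le_rfl (p0.trans h2.symm)
    have := hp.pos
    omega

end Pool.Agent.H354_OP
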