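import Pool.Agent.H354_OP.Cyc

/-!
# Cycles with few branch vertices: a bound in terms of the average degree on the cycle
-/

set_option autoImplicit false

namespace Pool.Agent.H354_OP

open Finset
open scoped Classical

set_option linter.unusedSectionVars false

/-- a cyclic sequence, started anywhere, contains a long run without branch vertices -/
theorem long_run {V : Type} [Fintype V] {L : ℕ} (hL : 3 ≤ L) (F : ℕ → V)
    (hinj : ∀ i j, i < L → j < L → F i = F j → i = j) {Br : V → Prop} (h0 : Br (F 0))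
    {B : Finset V} (hB : ∀ i, Br (F i) → F i ∈ B) {y : ℕ} (hy : B.card ≤ y) :
    ∃ i n, 1 ≤ n ∧ n < L ∧ (∀ j, i < j → j < i + n → ¬ Br (F j)) ∧ L ≤ 2 * y * n := by
  obtain ⟨S, hS⟩ : ∃ S : Finset (ℕ × ℕ), ∀ p, p ∈ S ↔ (p.1 < L ∧ p.2 < L) ∧ 1 ≤ p.2 ∧
      ∀ j, p.1 < j → j < p.1 + p.2 → ¬ Br (F j) :=
    ⟨(range L ×ˢ range L).filter (fun p => 1 ≤ p.2 ∧
      ∀ j, p.1 < j → j < p.1 + p.2 → ¬ Br (F j)), fun p => by simp⟩
  obtain ⟨p, hp, hmax⟩ := Finset.exists_max_image S (fun p => p.2)
    ⟨(0, 1), (hS _).mpr ⟨⟨by omega, by omega⟩, le_rfl, fun j h1 h2 => by simp at h1 h2; omega⟩⟩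
  obtain ⟨⟨hp1, hp2⟩, hp3, hp4⟩ := (hS p).mp hp
  refine ⟨p.1, p.2, hp3, hp2, hp4, ?_⟩
  obtain ⟨ι, hι⟩ : ∃ ι : ℕ → ℕ, ∀ t, ι t = Nat.findGreatest (fun i => Br (F i)) t :=
    ⟨_, fun t => rfl⟩
  have hι1 : ∀ t, ι t ≤ t := fun t => by rw [hι]; exact Nat.findGreatest_le t
  have hι2 : ∀ t, Br (F (ι t)) := fun t => by
    rw [hι]
    exact Nat.findGreatest_spec (P := fun i => Br (F i)) (Nat.zero_le t) h0
  have hι3 : ∀ t j, ι t < j → j ≤ t → ¬ Br (F j) := fun t j h1 h2 => by
    rw [hι] at h1
    exact Nat.findGreatest_is_greatest h1 h2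
  have hlt : ∀ t < L, t - ι t < 2 * p.2 := by
    intro t ht
    have h1 := hι1 t
    rcases Nat.lt_or_ge (t - ι t + 1) L with h2 | h2
    · have h3 := hmax (ι t, t - ι t + 1) ((hS _).mpr ⟨⟨by simp only; omega, h2⟩, by simp only; omega,
        fun j h4 h5 => hι3 t j h4 (by simp only at h5; omega)⟩)
      simp only at h3
      omega
    · have h3 := hmax (0, L - 1) ((hS _).mpr ⟨⟨by simp only; omega, by simp only; omega⟩,
        by simp only; omega, fun j h4 h5 => hι3 t j (by simp only at h4; omega)
          (by simp only at h5; omega)⟩)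
      simp only at h3
      omega
  have hcard : (range L).card ≤ (B ×ˢ range (2 * p.2)).card := by
    refine Finset.card_le_card_of_injOn (fun t => (F (ι t), t - ι t)) ?_ ?_
    · intro t ht
      rw [Finset.mem_coe, mem_range] at ht
      rw [Finset.mem_coe, mem_product, mem_range]
      exact ⟨hB _ (hι2 t), hlt t ht⟩
    · intro t ht t' ht' h
      rw [Finset.mem_coe, mem_range] at ht ht'
      simp only [Prod.mk.injEq] at h
      have h1 := hι1 t
      have h2 := hι1 t'
      have h3 := hinj (ι t) (ι t') (by omega) (by omega) h.1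
      omega
  rw [card_range, card_product, card_range] at hcard
  calc L ≤ B.card * (2 * p.2) := hcard
    _ ≤ y * (2 * p.2) := Nat.mul_le_mul_right _ hy
    _ = 2 * y * p.2 := by ring

theorem cycle_avg {V : Type} [Fintype V] {G : SimpleGraph V} {m D y k : ℕ}
    (hcrit : ∀ e ∈ G.edgeSet, KDraw m (G.deleteEdges {e})) {v : V} (c : G.Walk v v)
    (hc : c.IsCycle)
    (hcy : (univ.filter (fun u => 3 ≤ (nb G u).card ∧ u ∈ c.support)).card ≤ y)
    (hsum : ∑ j ∈ range c.length, (nb G (c.getVert j)).card ≤ D * c.length)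
    (hk : 8 * (m + 1) * (D + 2 * m + 4) * (y + 1) ≤ k) : KDraw k G := by
  by_contra hnk
  obtain ⟨L, hL⟩ : ∃ L, L = c.length := ⟨_, rfl⟩
  rw [← hL] at hsum
  have hL3 : 3 ≤ L := by rw [hL]; exact hc.three_le_length
  have hk1 : (16 + 8 * m) * (m + 1) + (5 * m + 8) + m ≤ k := by
    refine le_trans ?_ hk
    calc (16 + 8 * m) * (m + 1) + (5 * m + 8) + m ≤ 8 * (m + 1) * (2 * m + 4) * 1 := by
          have h1 : 8 * (m + 1) * (2 * m + 4) * 1 = 16 * (m * m) + 48 * m + 32 := by ring
          have h2 : (16 + 8 * m) * (m + 1) = 8 * (m * m) + 24 * m + 16 := by ring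
          omega
      _ ≤ 8 * (m + 1) * (D + 2 * m + 4) * (y + 1) := by
          gcongr
          · omega
          · omega
  have hk2 : 8 * (D + 2 * m) * y * (m + 1) + (5 * m + 8) ≤ k := by
    refine le_trans ?_ hk
    have h1 : 8 * (m + 1) * (D + 2 * m + 4) * (y + 1) = 8 * (D + 2 * m) * y * (m + 1) +
        (8 * ((D + 2 * m) * (m + 1)) + 32 * (m + 1) + 32 * ((m + 1) * y)) := by ring
    rw [h1]
    omega
  obtain ⟨Br, hBr⟩ : ∃ Br : V → Prop, ∀ v, Br v ↔ 3 ≤ (nb G v).card := ⟨_, fun v => Iff.rfl⟩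
  obtain ⟨hdeg, -, -, -⟩ := base_facts hnk hk1 hcrit hBr
  obtain ⟨x, hx, hxB⟩ := cycle_has_branch hnk hk1 hcrit hBr hdeg hc
  obtain ⟨b, rfl, hb⟩ := SimpleGraph.Walk.mem_support_iff_exists_getVert.mp hx
  -- the cyclic sequence
  obtain ⟨F, hF⟩ : ∃ F : ℕ → V, ∀ t, F t = c.getVert ((t + b) % L) := ⟨_, fun t => rfl⟩
  have hmod : ∀ t, t % L < L := fun t => Nat.mod_lt _ (by omega)
  have hcinj : ∀ i j, i < L → j < L → c.getVert i = c.getVert j → i = j := by
    intro i j hi hj h
    exact hc.getVert_injOn' (by simp only [Set.mem_ofPred_eq]; omega)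
      (by simp only [Set.mem_ofPred_eq]; omega) h
  have hFeq : ∀ s t, F s = F t → s % L = t % L := by
    intro s t h
    rw [hF, hF] at h
    have h1 := hcinj _ _ (hmod _) (hmod _) h
    exact Nat.ModEq.add_right_cancel' b h1
  have hwin : ∀ s t, s ≤ t → t < s + L → F s = F t → s = t := by
    intro s t h1 h2 h3
    have h4 : s ≡ t [MOD L] := hFeq s t h3
    have h5 := (Nat.modEq_iff_dvd' h1).mp h4
    have h6 : t - s = 0 := Nat.eq_zero_of_dvd_of_lt h5 (by omega)
    omega
  have hadj : ∀ t, G.Adj (F t) (F (t + 1)) := by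
    intro t
    rw [hF, hF]
    have h1 := hmod (t + b)
    rcases Nat.lt_or_ge ((t + b) % L + 1) L with h2 | h2
    · have h3 : (t + 1 + b) % L = (t + b) % L + 1 := by
        rw [show t + 1 + b = (t + b) + 1 by ring, Nat.add_mod, Nat.mod_eq_of_lt (a := 1) (by omega),
          Nat.mod_eq_of_lt h2]
      rw [h3]
      exact c.adj_getVert_succ (by omega)
    · have h4 : (t + b) % L = L - 1 := by omega
      have h3 : (t + 1 + b) % L = 0 := by
        rw [show t + 1 + b = (t + b) + 1 by ring, Nat.add_mod, Nat.mod_eq_of_lt (a := 1) (by omega),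
          h4, Nat.sub_add_cancel (by omega), Nat.mod_self]
      rw [h3, h4, SimpleGraph.Walk.getVert_zero]
      have h5 := c.adj_getVert_succ (i := L - 1) (by omega)
      rw [Nat.sub_add_cancel (by omega), hL, SimpleGraph.Walk.getVert_length] at h5
      rw [hL]
      exact h5
  have hFs : ∀ t, F t ∈ c.support := fun t => by rw [hF]; exact c.getVert_mem_support _
  have hF0 : Br (F 0) := by
    rw [hF, zero_add]
    rcases Nat.lt_or_ge b L with h | h
    · rw [Nat.mod_eq_of_lt h]
      exact hxB
    · have h1 : b = L := by omega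
      rw [h1, Nat.mod_self, SimpleGraph.Walk.getVert_zero]
      rw [h1, hL, SimpleGraph.Walk.getVert_length] at hxB
      exact hxB
  obtain ⟨i, n, hn1, hnL, hrun, hLn⟩ := long_run hL3 F
    (fun i j hi hj h => by
      rcases Nat.le_total i j with h1 | h1
      · exact hwin i j h1 (by omega) h
      · exact (hwin j i h1 (by omega) h.symm).symm) hF0
    (B := univ.filter (fun u => 3 ≤ (nb G u).card ∧ u ∈ c.support))
    (fun i hi => by
      rw [mem_filter]
      exact ⟨mem_univ _, (hBr _).mp hi, hFs i⟩) hcy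
  -- the thread and the rest of the cycle
  have hps : PSeq G (fun j => F (i + j)) n := by
    refine ⟨fun j _ => hadj (i + j), ?_⟩
    intro s t hs ht h
    rcases Nat.le_total s t with h1 | h1
    · have := hwin (i + s) (i + t) (by omega) (by omega) h
      omega
    · have := hwin (i + t) (i + s) (by omega) (by omega) h.symm
      omega
  obtain ⟨W, hW1, hW2, hW3⟩ := seqWalk (G := G) (p := fun j => F (i + n + j)) (L - n)
    (fun j _ => hadj (i + n + j))
  have hend : F (i + n + (L - n)) = F (i + 0) := by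
    rw [hF, hF, show i + n + (L - n) + b = (i + 0 + b) + L by omega, Nat.add_mod_right]
  have hsumW : (W.support.map (fun u => (nb G u).card)).sum ≤ D * L := by
    have h1 := hW3 (fun u => (nb G u).card) _ SimpleGraph.Walk.nil
    rw [SimpleGraph.Walk.append_nil, SimpleGraph.Walk.support_nil, List.map_cons,
      List.map_nil, List.sum_cons, List.sum_nil] at h1
    have h1' : (W.support.map (fun u => (nb G u).card)).sum =
        ∑ j ∈ range (L - n + 1), (nb G (F (i + n + j))).card := by
      rw [h1, Finset.sum_range_succ]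
      rfl
    rw [h1']
    refine le_trans ?_ hsum
    have h2 : ∀ j, (nb G (F (i + n + j))).card =
        (fun t => (nb G (c.getVert t)).card) ((i + n + j + b) % L) := fun j => by rw [hF]
    rw [Finset.sum_congr rfl fun j _ => h2 j,
      ← Finset.sum_image (s := range (L - n + 1)) (g := fun j => (i + n + j + b) % L)
      (f := fun t => (nb G (c.getVert t)).card)]
    · refine Finset.sum_le_sum_of_subset ?_
      intro u hu
      rw [mem_image] at hu
      obtain ⟨j, -, rfl⟩ := hu
      rw [mem_range]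
      exact hmod _
    · intro s hs t ht h
      have h' : F (i + n + s) = F (i + n + t) := by
        rw [hF, hF]
        exact congrArg c.getVert h
      rw [Finset.mem_coe, mem_range] at hs ht
      rcases Nat.le_total s t with h1 | h1
      · have := hwin (i + n + s) (i + n + t) (by omega) (by omega) h'
        omega
      · have := hwin (i + n + t) (i + n + s) (by omega) (by omega) h'.symm
        omega
  refine redraw_cost hnk hcrit hdeg hps (by omega)
    (fun j h1 h2 => not_le.mp ((hBr _).not.mp (hrun (i + j) (by omega) (by omega))))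
    ((W.copy rfl hend).reverse) ?_ (R := 8 * (D + 2 * m) * y) ?_ hk2
  · intro f hf h
    rw [SimpleGraph.Walk.edges_reverse, List.mem_reverse, SimpleGraph.Walk.edges_copy] at hf
    obtain ⟨j, hj, hj'⟩ := hW2 f hf
    rw [hj', Sym2.eq_iff] at h
    simp only [add_zero] at h
    rcases h with ⟨h1, -⟩ | ⟨h1, h2⟩
    · have := hwin i (i + n + j) (by omega) (by omega) h1.symm
      omega
    · have := hwin (i + 1) (i + n + j) (by omega) (by omega) h1.symm
      have := hwin (i + n + (j + 1)) (i + n + (L - n)) (by omega) (by omega) (by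
        rw [h2, hend]
        rfl)
      omega
  · rw [SimpleGraph.Walk.length_reverse, SimpleGraph.Walk.length_copy, hW1,
      SimpleGraph.Walk.support_reverse, List.map_reverse, List.sum_reverse,
      SimpleGraph.Walk.support_copy]
    have h1 : (W.support.map (fun u => if u = F (i + 0) ∨ u = F (i + n) then 0 else
        (nb G u).card)).sum ≤ (W.support.map (fun u => (nb G u).card)).sum := by
      refine List.sum_le_sum fun u _ => ?_
      split_ifs
      · exact Nat.zero_le _
      · exact le_rfl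
    have h2 : 2 * m * (L - n) ≤ 2 * m * L := Nat.mul_le_mul_left _ (Nat.sub_le _ _)
    calc ((W.support.map (fun u => if u = F (i + 0) ∨ u = F (i + n) then 0 else
          (nb G u).card)).sum + 2 * m * (L - n)) * 4 ≤ (D * L + 2 * m * L) * 4 :=
          Nat.mul_le_mul_right _ (Nat.add_le_add (h1.trans hsumW) h2)
      _ = 4 * (D + 2 * m) * L := by ring
      _ ≤ 4 * (D + 2 * m) * (2 * y * n) := Nat.mul_le_mul_left _ hLn
      _ = 8 * (D + 2 * m) * y * n := by ring

end Pool.Agent.H354_OP
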