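import Pool.Agent.H354_OP.Comb

/-!
# Grouping tokens in a connected graph
-/

set_option autoImplicit false

namespace Pool.Agent.H354_OP

open Finset
open scoped Classical

set_option linter.unusedSectionVars false

/-- a connected set with at least two vertices has a vertex that can be removed -/
theorem noncut {V : Type} {Γ : SimpleGraph V} {S : Finset V} (hS : Conn Γ S) (h2 : 2 ≤ S.card) :
    ∃ v ∈ S, Conn Γ (S.erase v) ∧ ∃ u ∈ S.erase v, Γ.Adj v u := by
  set K := Γ.induce (S : Set V) with hK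
  obtain ⟨a, ha, b, hb, hab⟩ := Finset.one_lt_card.mp (show 1 < S.card by omega)
  have hne : Nonempty (S : Set V) := ⟨⟨a, ha⟩⟩
  have hnt : Nontrivial (S : Set V) := ⟨⟨a, ha⟩, ⟨b, hb⟩, fun h => hab (congrArg Subtype.val h)⟩
  have hconn : K.Connected := by
    constructor
    intro a b
    obtain ⟨w, hw⟩ := hS a.1 a.2 b.1 b.2
    exact ⟨w.induce (S : Set V) hw⟩
  obtain ⟨v, hv⟩ := hconn.exists_connected_induce_compl_singleton_of_finite_nontrivial
  refine ⟨v.1, v.2, ?_, ?_⟩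
  · intro x hx y hy
    rw [mem_erase] at hx hy
    have hx' : (⟨x, hx.2⟩ : (S : Set V)) ∈ ({v}ᶜ : Set (S : Set V)) := fun h =>
      hx.1 (congrArg Subtype.val (Set.mem_singleton_iff.mp h))
    have hy' : (⟨y, hy.2⟩ : (S : Set V)) ∈ ({v}ᶜ : Set (S : Set V)) := fun h =>
      hy.1 (congrArg Subtype.val (Set.mem_singleton_iff.mp h))
    obtain ⟨w⟩ := hv.preconnected ⟨⟨x, hx.2⟩, hx'⟩ ⟨⟨y, hy.2⟩, hy'⟩
    have key : ∀ (a b : (({v}ᶜ : Set (S : Set V)) : Type)) (w : (K.induce {v}ᶜ).Walk a b),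
        ∃ w' : Γ.Walk a.1.1 b.1.1, ∀ u ∈ w'.support, u ∈ S.erase v.1 := by
      intro a b w
      have hmem : ∀ c : (({v}ᶜ : Set (S : Set V)) : Type), c.1.1 ∈ S.erase v.1 := by
        intro c
        rw [mem_erase]
        exact ⟨fun h => c.2 (Set.mem_singleton_iff.mpr (Subtype.ext h)), c.1.2⟩
      induction w with
      | nil =>
        refine ⟨SimpleGraph.Walk.nil, ?_⟩
        intro u hu
        rw [SimpleGraph.Walk.support_nil, List.mem_singleton] at hu
        rw [hu]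
        exact hmem _
      | cons h w ih =>
        obtain ⟨w', hw'⟩ := ih
        have h' : Γ.Adj _ _ := h
        refine ⟨SimpleGraph.Walk.cons h' w', ?_⟩
        intro u hu
        rw [SimpleGraph.Walk.support_cons, List.mem_cons] at hu
        rcases hu with rfl | hu
        · exact hmem _
        · exact hw' u hu
    exact key _ _ w
  · obtain ⟨c, hc, hcv⟩ : ∃ c ∈ S, c ≠ v.1 := by
      by_cases h : a = v.1
      · exact ⟨b, hb, fun h' => hab (h.trans h'.symm)⟩
      · exact ⟨a, ha, h⟩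
    obtain ⟨w, hw⟩ := hS v.1 v.2 c hc
    cases w with
    | nil => exact absurd rfl hcv
    | @cons _ u _ h p =>
      refine ⟨u, ?_, h⟩
      rw [mem_erase]
      exact ⟨h.ne', hw u (by simp)⟩

/-- cutting a finite set into parts of size `g` -/
theorem chunk {τ : Type} (g : ℕ) (hg : 0 < g) : ∀ (k : ℕ) (Θ : Finset τ), Θ.card ≤ k →
    ∃ 𝒢 : Finset (Finset τ), (∀ A ∈ 𝒢, A ⊆ Θ ∧ A.card = g) ∧
      (∀ A ∈ 𝒢, ∀ A' ∈ 𝒢, A ≠ A' → Disjoint A A') ∧ (Θ \ 𝒢.biUnion id).card < g := by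
  intro k
  induction k with
  | zero =>
    intro Θ h
    refine ⟨∅, by simp, by simp, ?_⟩
    simp only [biUnion_empty, sdiff_empty]
    omega
  | succ k ih =>
    intro Θ h
    by_cases hlt : Θ.card < g
    · exact ⟨∅, by simp, by simp, by simpa using hlt⟩
    · push Not at hlt
      obtain ⟨A, hA, hAc⟩ := Finset.exists_subset_card_eq hlt
      have hc := card_sdiff_add_card_eq_card hA
      obtain ⟨𝒢, h1, h2, h3⟩ := ih (Θ \ A) (by omega)
      have hdis : ∀ B ∈ 𝒢, Disjoint A B := fun B hB =>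
        disjoint_sdiff.mono_right (h1 B hB).1
      refine ⟨insert A 𝒢, ?_, ?_, ?_⟩
      · intro B hB
        rw [mem_insert] at hB
        rcases hB with rfl | hB
        · exact ⟨hA, hAc⟩
        · exact ⟨(h1 B hB).1.trans sdiff_subset, (h1 B hB).2⟩
      · intro B hB B' hB' hne
        rw [mem_insert] at hB hB'
        rcases hB with rfl | hB
        · rcases hB' with rfl | hB'
          · exact absurd rfl hne
          · exact hdis B' hB'
        · rcases hB' with rfl | hB'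
          · exact (hdis B hB).symm
          · exact h2 B hB B' hB' hne
      · refine lt_of_le_of_lt (card_le_card ?_) h3
        intro x hx
        rw [mem_sdiff, mem_biUnion] at hx ⊢
        rw [mem_sdiff]
        refine ⟨⟨hx.1, fun h => hx.2 ⟨A, mem_insert_self _ _, h⟩⟩, ?_⟩
        rintro ⟨B, hB, hxB⟩
        exact hx.2 ⟨B, mem_insert_of_mem hB, hxB⟩

theorem count_meet {τ : Type} (𝒢 : Finset (Finset τ))
    (h : ∀ A ∈ 𝒢, ∀ A' ∈ 𝒢, A ≠ A' → Disjoint A A') (R : Finset τ) :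
    (𝒢.filter (fun A => ∃ θ ∈ A, θ ∈ R)).card ≤ R.card := by
  have h1 : ((𝒢.filter (fun A => ∃ θ ∈ A, θ ∈ R)).biUnion (fun A => A ∩ R)).card =
      ∑ A ∈ 𝒢.filter (fun A => ∃ θ ∈ A, θ ∈ R), (A ∩ R).card := by
    refine card_biUnion ?_
    intro A hA A' hA' hne
    rw [mem_coe, mem_filter] at hA hA'
    exact (h A hA.1 A' hA'.1 hne).mono inter_subset_left inter_subset_left
  have h2 : ((𝒢.filter (fun A => ∃ θ ∈ A, θ ∈ R)).biUnion (fun A => A ∩ R)) ⊆ R := by
    intro x hx
    rw [mem_biUnion] at hx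
    obtain ⟨A, -, hx⟩ := hx
    exact (mem_inter.mp hx).2
  refine le_trans ?_ (card_le_card h2)
  rw [h1, card_eq_sum_ones]
  refine sum_le_sum fun A hA => ?_
  rw [mem_filter] at hA
  obtain ⟨-, θ, h3, h4⟩ := hA
  exact card_pos.mpr ⟨θ, mem_inter.mpr ⟨h3, h4⟩⟩

theorem grouping {V τ : Type} (Γ : SimpleGraph V) (g : ℕ) (hg : 0 < g) : ∀ (n : ℕ) (S : Finset V),
    S.card = n → S.Nonempty → Conn Γ S → ∀ (Θ : Finset τ) (loc : τ → V), (∀ θ ∈ Θ, loc θ ∈ S) →
    ∃ (𝒢 : Finset (Finset τ)) (E : Finset τ → Finset (Sym2 V)),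
      (∀ A ∈ 𝒢, A ⊆ Θ ∧ A.card = g) ∧ (∀ A ∈ 𝒢, ∀ A' ∈ 𝒢, A ≠ A' → Disjoint A A') ∧
      (Θ \ 𝒢.biUnion id).card < g ∧ (∀ A ∈ 𝒢, ∀ f ∈ E A, f ∈ Γ.edgeSet ∧ ∀ x ∈ f, x ∈ S) ∧
      (∀ A ∈ 𝒢, ∀ θ ∈ A, ∀ θ' ∈ A, ∃ w : Γ.Walk (loc θ) (loc θ'), ∀ f ∈ w.edges, f ∈ E A) ∧
      (∀ f, (𝒢.filter (fun A => f ∈ E A)).card ≤ g) ∧ ∑ A ∈ 𝒢, (E A).card ≤ g * S.card := by
  intro n
  induction n with
  | zero =>
    intro S hS hne
    exact absurd (card_eq_zero.mp hS) hne.ne_empty
  | succ n ih =>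
    intro S hS hne hconn Θ loc hloc
    by_cases h1 : S.card = 1
    · obtain ⟨v, rfl⟩ := card_eq_one.mp h1
      obtain ⟨𝒢, g1, g2, g3⟩ := chunk g hg _ Θ le_rfl
      refine ⟨𝒢, fun _ => ∅, g1, g2, g3, by simp, ?_, by simp, by simp⟩
      intro A hA θ hθ θ' hθ'
      have e1 := mem_singleton.mp (hloc θ ((g1 A hA).1 hθ))
      have e2 := mem_singleton.mp (hloc θ' ((g1 A hA).1 hθ'))
      rw [e1, e2]
      exact ⟨SimpleGraph.Walk.nil, by simp⟩
    · obtain ⟨v, hv, hconn', u, hu, hvu⟩ := noncut hconn (by omega)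
      have hcard : (S.erase v).card = n := by
        rw [card_erase_of_mem hv]
        omega
      obtain ⟨𝒱, v1, v2, v3⟩ := chunk g hg _ (Θ.filter (fun θ => loc θ = v)) le_rfl
      set R := Θ.filter (fun θ => loc θ = v) \ 𝒱.biUnion id with hR
      have hRmem : ∀ θ, θ ∈ R → θ ∈ Θ ∧ loc θ = v ∧ ∀ A ∈ 𝒱, θ ∉ A := by
        intro θ hθ
        rw [hR, mem_sdiff, mem_filter, mem_biUnion] at hθ
        exact ⟨hθ.1.1, hθ.1.2, fun A hA h => hθ.2 ⟨A, hA, h⟩⟩
      obtain ⟨loc', hl1, hl2⟩ : ∃ loc' : τ → V, (∀ θ ∈ R, loc' θ = u) ∧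
          ∀ θ, θ ∉ R → loc' θ = loc θ :=
        ⟨fun θ => if θ ∈ R then u else loc θ, fun θ h => by simp [h], fun θ h => by simp [h]⟩
      obtain ⟨𝒢, E, g1, g2, g3, g4, g5, g6, g7⟩ := ih (S.erase v) hcard ⟨u, hu⟩ hconn'
        (Θ \ 𝒱.biUnion id) loc' (by
          intro θ hθ
          rw [mem_sdiff, mem_biUnion] at hθ
          by_cases h : θ ∈ R
          · rw [hl1 θ h]
            exact hu
          · rw [hl2 θ h, mem_erase]
            refine ⟨fun hlv => h ?_, hloc θ hθ.1⟩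
            rw [hR, mem_sdiff, mem_filter, mem_biUnion]
            exact ⟨⟨hθ.1, hlv⟩, hθ.2⟩)
      have hdV : ∀ A ∈ 𝒱, ∀ B ∈ 𝒢, Disjoint A B := by
        intro A hA B hB
        rw [Finset.disjoint_left]
        intro θ hθ hθ'
        have := (g1 B hB).1 hθ'
        rw [mem_sdiff, mem_biUnion] at this
        exact this.2 ⟨A, hA, hθ⟩
      have hnotV : ∀ A ∈ 𝒢, A ∉ 𝒱 := by
        intro A hA hA'
        have h3 := hdV A hA' A hA
        rw [disjoint_self] at h3
        have h4 := (g1 A hA).2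
        rw [h3] at h4
        simp only [bot_eq_empty, card_empty] at h4
        omega
      refine ⟨𝒱 ∪ 𝒢, fun A => if A ∈ 𝒱 then ∅ else E A ∪ (if ∃ θ ∈ A, θ ∈ R then {s(v, u)} else ∅),
        ?_, ?_, ?_, ?_, ?_, ?_, ?_⟩
      · intro A hA
        rw [mem_union] at hA
        rcases hA with hA | hA
        · exact ⟨(v1 A hA).1.trans (filter_subset _ _), (v1 A hA).2⟩
        · exact ⟨(g1 A hA).1.trans sdiff_subset, (g1 A hA).2⟩
      · intro A hA A' hA' hne'
        rw [mem_union] at hA hA'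
        rcases hA with hA | hA <;> rcases hA' with hA' | hA'
        · exact v2 A hA A' hA' hne'
        · exact hdV A hA A' hA'
        · exact (hdV A' hA' A hA).symm
        · exact g2 A hA A' hA' hne'
      · refine lt_of_le_of_lt (card_le_card ?_) g3
        intro θ hθ
        rw [mem_sdiff, mem_biUnion] at hθ ⊢
        rw [mem_sdiff, mem_biUnion]
        refine ⟨⟨hθ.1, ?_⟩, ?_⟩
        · rintro ⟨A, hA, h⟩
          exact hθ.2 ⟨A, mem_union_left _ hA, h⟩
        · rintro ⟨A, hA, h⟩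
          exact hθ.2 ⟨A, mem_union_right _ hA, h⟩
      · intro A hA f hf
        by_cases hAV : A ∈ 𝒱
        · simp [hAV] at hf
        · have hAG : A ∈ 𝒢 := (mem_union.mp hA).resolve_left hAV
          simp only [hAV, if_false] at hf
          rw [mem_union] at hf
          rcases hf with hf | hf
          · exact ⟨(g4 A hAG f hf).1, fun x hx => mem_of_mem_erase ((g4 A hAG f hf).2 x hx)⟩
          · split_ifs at hf with h
            · rw [mem_singleton] at hf
              rw [hf]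
              refine ⟨hvu, ?_⟩
              intro x hx
              rcases Sym2.mem_iff.mp hx with rfl | rfl
              · exact hv
              · exact mem_of_mem_erase hu
            · simp at hf
      · intro A hA θ hθ θ' hθ'
        by_cases hAV : A ∈ 𝒱
        · have e1 := (mem_filter.mp ((v1 A hAV).1 hθ)).2
          have e2 := (mem_filter.mp ((v1 A hAV).1 hθ')).2
          rw [e1, e2]
          exact ⟨SimpleGraph.Walk.nil, by simp⟩
        · have hAG : A ∈ 𝒢 := (mem_union.mp hA).resolve_left hAV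
          simp only [hAV, if_false]
          obtain ⟨w, hw⟩ := g5 A hAG θ hθ θ' hθ'
          have key : ∀ θ ∈ A, ∃ w : Γ.Walk (loc θ) (loc' θ), ∀ f ∈ w.edges,
              f ∈ E A ∪ (if ∃ θ ∈ A, θ ∈ R then {s(v, u)} else ∅) := by
            intro θ hθ
            by_cases h : θ ∈ R
            · have e1 := (hRmem θ h).2.1
              have e2 := hl1 θ h
              refine ⟨(SimpleGraph.Walk.cons hvu SimpleGraph.Walk.nil).copy e1.symm e2.symm, ?_⟩
              intro f hf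
              rw [SimpleGraph.Walk.edges_copy] at hf
              simp only [SimpleGraph.Walk.edges_cons, SimpleGraph.Walk.edges_nil,
                List.mem_singleton] at hf
              rw [hf, if_pos ⟨θ, hθ, h⟩]
              simp
            · have e2 := hl2 θ h
              exact ⟨SimpleGraph.Walk.nil.copy rfl e2.symm, by simp⟩
          obtain ⟨w1, hw1⟩ := key θ hθ
          obtain ⟨w2, hw2⟩ := key θ' hθ'
          refine ⟨w1.append (w.append w2.reverse), ?_⟩
          intro f hf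
          rw [SimpleGraph.Walk.edges_append, List.mem_append, SimpleGraph.Walk.edges_append,
            List.mem_append, SimpleGraph.Walk.edges_reverse, List.mem_reverse] at hf
          rcases hf with hf | hf | hf
          · exact hw1 f hf
          · exact mem_union_left _ (hw f hf)
          · exact hw2 f hf
      · intro f
        by_cases hfv : f = s(v, u)
        · have hsub : ((𝒱 ∪ 𝒢).filter (fun A => f ∈ (if A ∈ 𝒱 then ∅ else E A ∪
              (if ∃ θ ∈ A, θ ∈ R then {s(v, u)} else ∅)))) ⊆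
              𝒢.filter (fun A => ∃ θ ∈ A, θ ∈ R) := by
            intro A hA
            rw [mem_filter] at hA ⊢
            obtain ⟨hA1, hA2⟩ := hA
            by_cases hAV : A ∈ 𝒱
            · simp [hAV] at hA2
            · have hAG : A ∈ 𝒢 := (mem_union.mp hA1).resolve_left hAV
              refine ⟨hAG, ?_⟩
              simp only [hAV, if_false] at hA2
              rw [mem_union] at hA2
              rcases hA2 with h | h
              · exfalso
                have := (g4 A hAG f h).2 v (by rw [hfv]; simp)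
                simp at this
              · by_contra hcon
                rw [if_neg hcon] at h
                simp at h
          refine (card_le_card hsub).trans ?_
          have hcnt : (𝒢.filter (fun A => ∃ θ ∈ A, θ ∈ R)).card ≤ R.card :=
            count_meet 𝒢 g2 R
          omega
        · refine le_trans (card_le_card ?_) (g6 f)
          intro A hA
          rw [mem_filter] at hA ⊢
          obtain ⟨hA1, hA2⟩ := hA
          by_cases hAV : A ∈ 𝒱
          · simp [hAV] at hA2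
          · have hAG : A ∈ 𝒢 := (mem_union.mp hA1).resolve_left hAV
            refine ⟨hAG, ?_⟩
            simp only [hAV, if_false] at hA2
            rw [mem_union] at hA2
            rcases hA2 with h | h
            · exact h
            · split_ifs at h with h'
              · exact absurd (mem_singleton.mp h) hfv
              · simp at h
      · have hdisj : Disjoint 𝒱 𝒢 := by
          rw [Finset.disjoint_left]
          intro A hA hA'
          exact hnotV A hA' hA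
        rw [sum_union hdisj]
        have e1 : ∑ A ∈ 𝒱, ((if A ∈ 𝒱 then ∅ else E A ∪
            (if ∃ θ ∈ A, θ ∈ R then {s(v, u)} else ∅) : Finset (Sym2 V))).card = 0 := by
          refine sum_eq_zero fun A hA => ?_
          simp [hA]
        have e2 : ∑ A ∈ 𝒢, ((if A ∈ 𝒱 then ∅ else E A ∪
            (if ∃ θ ∈ A, θ ∈ R then {s(v, u)} else ∅) : Finset (Sym2 V))).card ≤
            ∑ A ∈ 𝒢, ((E A).card + if ∃ θ ∈ A, θ ∈ R then 1 else 0) := by
          refine sum_le_sum fun A hA => ?_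
          rw [if_neg (hnotV A hA)]
          refine (card_union_le _ _).trans ?_
          split_ifs <;> simp
        rw [e1, zero_add]
        refine e2.trans ?_
        rw [sum_add_distrib, ← card_filter]
        have h5 : (𝒢.filter (fun A => ∃ θ ∈ A, θ ∈ R)).card ≤ R.card := count_meet 𝒢 g2 R
        rw [hcard] at g7
        rw [hS]
        have : g * (n + 1) = g * n + g := by ring
        omega

/-- the vertex set of a component -/
noncomputable def cmp {V : Type} [Fintype V] (Γ : SimpleGraph V) (v : V) : Finset V :=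
  univ.filter (fun y => Γ.Reachable v y)

theorem mem_cmp {V : Type} [Fintype V] {Γ : SimpleGraph V} {v y : V} :
    y ∈ cmp Γ v ↔ Γ.Reachable v y := by
  simp [cmp]

theorem self_mem_cmp {V : Type} [Fintype V] (Γ : SimpleGraph V) (v : V) : v ∈ cmp Γ v :=
  mem_cmp.mpr (SimpleGraph.Reachable.refl _)

theorem cmp_eq {V : Type} [Fintype V] {Γ : SimpleGraph V} {v y : V} (h : y ∈ cmp Γ v) :
    cmp Γ y = cmp Γ v := by
  rw [mem_cmp] at h
  ext z
  rw [mem_cmp, mem_cmp]
  exact ⟨fun h' => h.trans h', fun h' => h.symm.trans h'⟩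

theorem cmp_adj {V : Type} [Fintype V] {Γ : SimpleGraph V} {v y z : V} (h : y ∈ cmp Γ v)
    (hyz : Γ.Adj y z) : z ∈ cmp Γ v := by
  rw [mem_cmp] at h ⊢
  exact h.trans hyz.reachable

theorem cmp_conn {V : Type} [Fintype V] (Γ : SimpleGraph V) (v : V) : Conn Γ (cmp Γ v) := by
  intro x hx y hy
  rw [mem_cmp] at hx hy
  obtain ⟨w⟩ := hx.symm.trans hy
  refine ⟨w, fun u hu => ?_⟩
  rw [mem_cmp]
  exact hx.trans ⟨w.takeUntil u hu⟩

theorem cmp_disj {V : Type} [Fintype V] {Γ : SimpleGraph V} {S S' : Finset V}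
    (hS : S ∈ univ.image (cmp Γ)) (hS' : S' ∈ univ.image (cmp Γ)) {x : V} (h : x ∈ S)
    (h' : x ∈ S') : S = S' := by
  rw [mem_image] at hS hS'
  obtain ⟨v, -, rfl⟩ := hS
  obtain ⟨v', -, rfl⟩ := hS'
  rw [← cmp_eq h, ← cmp_eq h']

theorem sum_cmp {V : Type} [Fintype V] (Γ : SimpleGraph V) (f : V → ℕ) :
    ∑ S ∈ univ.image (cmp Γ), ∑ x ∈ S, f x = ∑ x, f x := by
  rw [← sum_biUnion]
  · refine sum_congr ?_ fun _ _ => rfl
    ext x
    simp only [mem_biUnion, mem_univ, iff_true]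
    exact ⟨cmp Γ x, mem_image_of_mem _ (mem_univ x), self_mem_cmp Γ x⟩
  · intro S hS S' hS' hne
    simp only [Function.onFun]
    rw [Finset.disjoint_left]
    intro x hx hx'
    exact hne (cmp_disj hS hS' hx hx')

theorem grouping_all {V τ : Type} [Fintype V] (Γ : SimpleGraph V) (g : ℕ) (hg : 0 < g)
    (Θ : Finset τ) (loc : τ → V) :
    ∃ (𝒢 : Finset (Finset τ)) (E : Finset τ → Finset (Sym2 V)),
      (∀ A ∈ 𝒢, A ⊆ Θ ∧ A.card = g) ∧ (∀ A ∈ 𝒢, ∀ A' ∈ 𝒢, A ≠ A' → Disjoint A A') ∧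
      Θ.card ≤ g * 𝒢.card +
        g * ((univ.image (cmp Γ)).filter (fun S => ∃ θ ∈ Θ, loc θ ∈ S)).card ∧
      (∀ A ∈ 𝒢, ∀ f ∈ E A, f ∈ Γ.edgeSet) ∧
      (∀ A ∈ 𝒢, ∀ θ ∈ A, ∀ θ' ∈ A, ∃ w : Γ.Walk (loc θ) (loc θ'), ∀ f ∈ w.edges, f ∈ E A) ∧
      (∀ f, (𝒢.filter (fun A => f ∈ E A)).card ≤ g) ∧
      ∑ A ∈ 𝒢, (E A).card ≤ g * Fintype.card V := by
  have hex : ∀ S : Finset V, ∃ (𝒢 : Finset (Finset τ)) (E : Finset τ → Finset (Sym2 V)),
      S ∈ univ.image (cmp Γ) →
      (∀ A ∈ 𝒢, A ⊆ Θ.filter (fun θ => loc θ ∈ S) ∧ A.card = g) ∧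
      (∀ A ∈ 𝒢, ∀ A' ∈ 𝒢, A ≠ A' → Disjoint A A') ∧
      (Θ.filter (fun θ => loc θ ∈ S) \ 𝒢.biUnion id).card < g ∧
      (∀ A ∈ 𝒢, ∀ f ∈ E A, f ∈ Γ.edgeSet ∧ ∀ x ∈ f, x ∈ S) ∧
      (∀ A ∈ 𝒢, ∀ θ ∈ A, ∀ θ' ∈ A, ∃ w : Γ.Walk (loc θ) (loc θ'), ∀ f ∈ w.edges, f ∈ E A) ∧
      (∀ f, (𝒢.filter (fun A => f ∈ E A)).card ≤ g) ∧ ∑ A ∈ 𝒢, (E A).card ≤ g * S.card := by
    intro S
    by_cases hS : S ∈ univ.image (cmp Γ)
    · rw [mem_image] at hS
      obtain ⟨v, -, rfl⟩ := hS
      obtain ⟨𝒢, E, h⟩ := grouping Γ g hg _ (cmp Γ v) rfl ⟨v, self_mem_cmp Γ v⟩ (cmp_conn Γ v)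
        (Θ.filter (fun θ => loc θ ∈ cmp Γ v)) loc (fun θ hθ => (mem_filter.mp hθ).2)
      exact ⟨𝒢, E, fun _ => h⟩
    · exact ⟨∅, fun _ => ∅, fun h => absurd h hS⟩
  choose 𝒢 E hE using hex
  have hloc : ∀ S ∈ univ.image (cmp Γ), ∀ A ∈ 𝒢 S, ∃ θ ∈ A, loc θ ∈ S := by
    intro S hS A hA
    obtain ⟨h1, h2⟩ := (hE S hS).1 A hA
    obtain ⟨θ, hθ⟩ : A.Nonempty := card_pos.mp (by omega)
    exact ⟨θ, hθ, (mem_filter.mp (h1 hθ)).2⟩
  have huniq : ∀ S ∈ univ.image (cmp Γ), ∀ S' ∈ univ.image (cmp Γ), ∀ A, A ∈ 𝒢 S → A ∈ 𝒢 S' →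
      S = S' := by
    intro S hS S' hS' A hA hA'
    obtain ⟨θ, h1, h2⟩ := hloc S hS A hA
    have h3 := ((hE S' hS').1 A hA').1 h1
    exact cmp_disj hS hS' h2 (mem_filter.mp h3).2
  obtain ⟨E', hE'⟩ : ∃ E' : Finset τ → Finset (Sym2 V), ∀ S ∈ univ.image (cmp Γ), ∀ A ∈ 𝒢 S,
      E' A = E S A := by
    refine ⟨fun A => if h : ∃ S ∈ univ.image (cmp Γ), A ∈ 𝒢 S then E h.choose A else ∅, ?_⟩
    intro S hS A hA
    have h : ∃ S ∈ univ.image (cmp Γ), A ∈ 𝒢 S := ⟨S, hS, hA⟩
    simp only [dif_pos h]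
    rw [huniq _ h.choose_spec.1 S hS A h.choose_spec.2 hA]
  refine ⟨(univ.image (cmp Γ)).biUnion 𝒢, E', ?_, ?_, ?_, ?_, ?_, ?_, ?_⟩
  · intro A hA
    rw [mem_biUnion] at hA
    obtain ⟨S, hS, hA⟩ := hA
    exact ⟨((hE S hS).1 A hA).1.trans (filter_subset _ _), ((hE S hS).1 A hA).2⟩
  · intro A hA A' hA' hne
    rw [mem_biUnion] at hA hA'
    obtain ⟨S, hS, hA⟩ := hA
    obtain ⟨S', hS', hA'⟩ := hA'
    by_cases h : S = S'
    · subst h
      exact (hE S hS).2.1 A hA A' hA' hne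
    · rw [Finset.disjoint_left]
      intro θ hθ hθ'
      exact h (cmp_disj hS hS' (mem_filter.mp (((hE S hS).1 A hA).1 hθ)).2
        (mem_filter.mp (((hE S' hS').1 A' hA').1 hθ')).2)
  · have h1 : Θ.card = ∑ S ∈ univ.image (cmp Γ), (Θ.filter (fun θ => loc θ ∈ S)).card := by
      rw [← card_biUnion]
      · congr 1
        ext θ
        simp only [mem_biUnion, mem_filter]
        constructor
        · intro h
          exact ⟨cmp Γ (loc θ), mem_image_of_mem _ (mem_univ _), h, self_mem_cmp Γ _⟩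
        · rintro ⟨S, -, h, -⟩
          exact h
      · intro S hS S' hS' hne
        simp only [Function.onFun]
        rw [Finset.disjoint_left]
        intro θ hθ hθ'
        exact hne (cmp_disj hS hS' (mem_filter.mp hθ).2 (mem_filter.mp hθ').2)
    have h2 : ((univ.image (cmp Γ)).biUnion 𝒢).card = ∑ S ∈ univ.image (cmp Γ), (𝒢 S).card := by
      refine card_biUnion ?_
      intro S hS S' hS' hne
      simp only [Function.onFun]
      rw [Finset.disjoint_left]
      intro A hA hA'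
      exact hne (huniq S hS S' hS' A hA hA')
    rw [h1, h2, card_filter, mul_sum, mul_sum, ← sum_add_distrib]
    refine sum_le_sum fun S hS => ?_
    obtain ⟨g1, g2, g3, -⟩ := hE S hS
    have h3 : ((𝒢 S).biUnion id).card ≤ (𝒢 S).card * g :=
      card_biUnion_le_card_mul _ _ _ fun A hA => (g1 A hA).2.le
    have h4 : (Θ.filter (fun θ => loc θ ∈ S)).card ≤
        (Θ.filter (fun θ => loc θ ∈ S) \ (𝒢 S).biUnion id).card + ((𝒢 S).biUnion id).card := by
      refine le_trans (card_le_card ?_) (card_union_le _ _)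
      intro x hx
      rw [mem_union, mem_sdiff]
      by_cases h : x ∈ (𝒢 S).biUnion id
      · exact Or.inr h
      · exact Or.inl ⟨hx, h⟩
    rw [mul_comm g (𝒢 S).card]
    split_ifs with h
    · omega
    · have : Θ.filter (fun θ => loc θ ∈ S) = ∅ := by
        rw [filter_eq_empty_iff]
        intro θ hθ hS'
        exact h ⟨θ, hθ, hS'⟩
      rw [this]
      simp
  · intro A hA f hf
    rw [mem_biUnion] at hA
    obtain ⟨S, hS, hA⟩ := hA
    rw [hE' S hS A hA] at hf
    exact ((hE S hS).2.2.2.1 A hA f hf).1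
  · intro A hA
    rw [mem_biUnion] at hA
    obtain ⟨S, hS, hA⟩ := hA
    rw [hE' S hS A hA]
    exact (hE S hS).2.2.2.2.1 A hA
  · intro f
    by_cases hf : ∃ S ∈ univ.image (cmp Γ), ∀ x ∈ f, x ∈ S
    · obtain ⟨S, hS, hfS⟩ := hf
      refine le_trans (card_le_card ?_) ((hE S hS).2.2.2.2.2.1 f)
      intro A hA
      rw [mem_filter, mem_biUnion] at hA
      obtain ⟨⟨S', hS', hA⟩, hfA⟩ := hA
      rw [hE' S' hS' A hA] at hfA
      have h1 := ((hE S' hS').2.2.2.1 A hA f hfA).2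
      have h2 : S' = S := by
        induction f using Sym2.ind with
        | _ a b => exact cmp_disj hS' hS (h1 a (by simp)) (hfS a (by simp))
      subst h2
      rw [mem_filter]
      exact ⟨hA, hfA⟩
    · have : ((univ.image (cmp Γ)).biUnion 𝒢).filter (fun A => f ∈ E' A) = ∅ := by
        rw [filter_eq_empty_iff]
        intro A hA hfA
        rw [mem_biUnion] at hA
        obtain ⟨S, hS, hA⟩ := hA
        rw [hE' S hS A hA] at hfA
        exact hf ⟨S, hS, ((hE S hS).2.2.2.1 A hA f hfA).2⟩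
      rw [this]
      simp
  · rw [sum_biUnion]
    · have h1 : ∀ S ∈ univ.image (cmp Γ), ∑ A ∈ 𝒢 S, (E' A).card ≤ g * ∑ x ∈ S, 1 := by
        intro S hS
        rw [sum_congr rfl fun A hA => by rw [hE' S hS A hA]]
        refine (hE S hS).2.2.2.2.2.2.trans ?_
        rw [card_eq_sum_ones]
      refine (sum_le_sum h1).trans ?_
      rw [← mul_sum, sum_cmp Γ (fun _ => 1)]
      simp
    · intro S hS S' hS' hne
      simp only [Function.onFun]
      rw [Finset.disjoint_left]
      intro A hA hA'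
      exact hne (huniq S hS S' hS' A hA hA')

end Pool.Agent.H354_OP
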