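import Pool.Agent.H354_OP.MainB
import Pool.Agent.H354_OP.Group

/-!
# Many edges outside a spanning forest give a cycle of logarithmic length
-/

set_option autoImplicit false

namespace Pool.Agent.H354_OP

open Finset
open scoped Classical

set_option linter.unusedSectionVars false

variable {V : Type} [Fintype V]

theorem swap_sum (Γ : SimpleGraph V) (A B : Finset V) :
    ∑ a ∈ A, ((nb Γ a).filter (fun y => y ∈ B)).card =
      ∑ b ∈ B, ((nb Γ b).filter (fun y => y ∈ A)).card := by
  have h : ∀ (a : V) (B : Finset V), ((nb Γ a).filter (fun y => y ∈ B)).card =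
      ∑ b ∈ B, (if Γ.Adj a b then 1 else 0) := by
    intro a B
    rw [← card_filter]
    congr 1
    ext y
    simp only [mem_filter, mem_nb]
    tauto
  rw [sum_congr rfl fun a _ => h a B, sum_congr rfl fun b _ => h b A, sum_comm]
  refine sum_congr rfl fun b _ => sum_congr rfl fun a _ => ?_
  simp only [Γ.adj_comm]

theorem dense_short {Γ : SimpleGraph V} {c r : ℕ} {S : Finset V} (hne : S.Nonempty)
    (hS : (2 * c + 1) * S.card < c * (∑ z ∈ S, ((nb Γ z).filter (fun y => y ∈ S)).card + 2))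
    (hr : (2 * c) ^ r * Fintype.card V < (2 * c + 1) ^ r) : ShortC (2 * r + 1) Γ := by
  by_contra hL
  obtain ⟨P, hP⟩ : ∃ P : Finset V → Prop, ∀ S, P S ↔ S.Nonempty ∧
      (2 * c + 1) * S.card < c * (∑ z ∈ S, ((nb Γ z).filter (fun y => y ∈ S)).card + 2) :=
    ⟨_, fun S => Iff.rfl⟩
  obtain ⟨S₀, hS₀, hmin⟩ := Finset.exists_min_image (univ.filter P) Finset.card
    ⟨S, by rw [mem_filter, hP]; exact ⟨mem_univ _, hne, hS⟩⟩
  rw [mem_filter, hP] at hS₀
  obtain ⟨-, ⟨x, hx⟩, hS₀⟩ := hS₀
  have hballroot : ∀ j, ∀ v ∈ ball Γ S₀ x j, ∃ w : Γ.Walk x v, w.length ≤ j ∧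
      ∀ u ∈ w.support, u ∈ ball Γ S₀ x j := by
    intro j v hv
    obtain ⟨w, hw⟩ := mem_ball.mp hv
    refine ⟨w.mapLe (res_le Γ S₀), by simpa using hw, ?_⟩
    intro u hu
    rw [SimpleGraph.Walk.support_mapLe_eq_support] at hu
    exact walk_ball w hw u hu
  have hgrow : ∀ j ≤ r, (2 * c + 1) ^ j ≤ (2 * c) ^ j * (ball Γ S₀ x j).card := by
    intro j
    induction j with
    | zero =>
      intro _
      have := Finset.card_pos.mpr ⟨x, self_mem_ball Γ S₀ x 0⟩
      simpa using this
    | succ j ih =>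
      intro hj
      set Z := ball Γ S₀ x j with hZ
      have ht := tree_sumR (x := x) (r := j) (Z := Z) (fun h => hL (h.mono (by omega)))
        (self_mem_ball Γ S₀ x j) (hballroot j)
      have hZS : Z ⊆ S₀ := ball_sub hx j
      have hYne : (S₀ \ Z).Nonempty := by
        rw [nonempty_iff_ne_empty]
        intro h
        have h1 : Z = S₀ := subset_antisymm hZS (sdiff_eq_empty_iff_subset.mp h)
        rw [← h1] at hS₀
        have h2 : c * (∑ z ∈ Z, ((nb Γ z).filter (fun y => y ∈ Z)).card + 2) ≤ c * (2 * Z.card) :=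
          Nat.mul_le_mul_left _ ht
        have h3 : c * (2 * Z.card) ≤ (2 * c + 1) * Z.card := by
          have : (2 * c + 1) * Z.card = c * (2 * Z.card) + Z.card := by ring
          omega
        omega
      have hcard : (S₀ \ Z).card + Z.card = S₀.card := card_sdiff_add_card_eq_card hZS
      have hZpos : 0 < Z.card := card_pos.mpr ⟨x, self_mem_ball Γ S₀ x j⟩
      set Y := S₀ \ Z with hY
      have hYP : c * (∑ z ∈ Y, ((nb Γ z).filter (fun y => y ∈ Y)).card + 2) ≤
          (2 * c + 1) * Y.card := by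
        by_contra hcon
        push Not at hcon
        have := hmin Y (by rw [mem_filter, hP]; exact ⟨mem_univ _, hYne, hcon⟩)
        omega
      have hmemY : ∀ y, y ∈ S₀ ↔ y ∈ Z ∨ y ∈ Y := by
        intro y
        rw [hY, mem_sdiff]
        constructor
        · intro h
          by_cases h' : y ∈ Z
          · exact Or.inl h'
          · exact Or.inr ⟨h, h'⟩
        · rintro (h | h)
          · exact hZS h
          · exact h.1
      have hdis : Disjoint Z Y := disjoint_sdiff
      have hsplit : ∀ z, ((nb Γ z).filter (fun y => y ∈ S₀)).card =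
          ((nb Γ z).filter (fun y => y ∈ Z)).card + ((nb Γ z).filter (fun y => y ∈ Y)).card := by
        intro z
        rw [← card_union_of_disjoint]
        · congr 1
          ext y
          simp only [mem_filter, mem_union]
          rw [hmemY]
          tauto
        · rw [Finset.disjoint_left]
          intro y hy hy'
          exact Finset.disjoint_left.mp hdis (mem_filter.mp hy).2 (mem_filter.mp hy').2
      have htot : ∑ z ∈ S₀, ((nb Γ z).filter (fun y => y ∈ S₀)).card =
          ∑ z ∈ Z, ((nb Γ z).filter (fun y => y ∈ Z)).card +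
          ∑ z ∈ Y, ((nb Γ z).filter (fun y => y ∈ Y)).card +
          2 * ∑ z ∈ Z, ((nb Γ z).filter (fun y => y ∈ Y)).card := by
        have h1 : S₀ = Z ∪ Y := by
          ext y
          rw [mem_union, hmemY]
        have hU : ∀ f : V → ℕ, ∑ z ∈ S₀, f z = ∑ z ∈ Z, f z + ∑ z ∈ Y, f z := by
          intro f
          rw [← sum_union hdis, ← h1]
        rw [sum_congr rfl fun z _ => hsplit z, sum_add_distrib, hU, hU, swap_sum Γ Y Z]
        ring
      have hout : Z.card + ∑ z ∈ Z, ((nb Γ z).filter (fun y => y ∈ Y)).card ≤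
          (ball Γ S₀ x (j + 1)).card := by
        rw [← Finset.card_biUnion]
        · rw [← Finset.card_union_of_disjoint]
          · refine card_le_card ?_
            intro y hy
            rw [mem_union, mem_biUnion] at hy
            rcases hy with hy | ⟨z, hz, hy⟩
            · exact ball_mono (Nat.le_succ j) hy
            · rw [mem_filter, mem_nb] at hy
              exact ball_adj hz hy.1 (hZS hz) ((hmemY y).mpr (Or.inr hy.2))
          · rw [Finset.disjoint_left]
            intro y hy hy'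
            rw [mem_biUnion] at hy'
            obtain ⟨z, hz, hy'⟩ := hy'
            rw [mem_filter] at hy'
            exact Finset.disjoint_left.mp hdis hy hy'.2
        · intro z hz z' hz' hzz
          simp only [Function.onFun]
          rw [Finset.disjoint_left]
          intro y hy hy'
          rw [mem_filter, mem_nb] at hy hy'
          exact hzz (attachR (ρ := 2 * j) (fun h => hL (h.mono (by omega)))
            (connR_of_root (hballroot j)) (fun h => Finset.disjoint_left.mp hdis h hy.2) hz hz'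
            hy.1 hy'.1)
      have h4 := ih (by omega)
      have h5 : (2 * c + 1) * Z.card ≤ 2 * c * (ball Γ S₀ x (j + 1)).card := by
        obtain ⟨o, ho⟩ : ∃ o, o = ∑ z ∈ Z, ((nb Γ z).filter (fun y => y ∈ Y)).card := ⟨_, rfl⟩
        obtain ⟨a, ha⟩ : ∃ a, a = ∑ z ∈ Z, ((nb Γ z).filter (fun y => y ∈ Z)).card := ⟨_, rfl⟩
        obtain ⟨b, hb⟩ : ∃ b, b = ∑ z ∈ Y, ((nb Γ z).filter (fun y => y ∈ Y)).card := ⟨_, rfl⟩
        rw [htot, ← ho, ← ha, ← hb, ← hcard] at hS₀
        rw [← ho] at hout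
        rw [← ha] at ht
        rw [← hb] at hYP
        have e1 : (2 * c + 1) * (Y.card + Z.card) = (2 * c + 1) * Y.card + (2 * c + 1) * Z.card := by
          ring
        have e2 : c * (a + b + 2 * o + 2) = c * (b + 2) + c * a + 2 * c * o := by ring
        rw [e1, e2] at hS₀
        have e3 : c * (a + 2) ≤ c * (2 * Z.card) := Nat.mul_le_mul_left _ ht
        have e4 : c * (a + 2) = c * a + 2 * c := by ring
        have e5 : c * (2 * Z.card) = 2 * c * Z.card := by ring
        have e6 : 2 * c * (Z.card + o) ≤ 2 * c * (ball Γ S₀ x (j + 1)).card :=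
          Nat.mul_le_mul_left _ hout
        have e7 : 2 * c * (Z.card + o) = 2 * c * Z.card + 2 * c * o := by ring
        omega
      calc (2 * c + 1) ^ (j + 1) = (2 * c + 1) * (2 * c + 1) ^ j := by ring
        _ ≤ (2 * c + 1) * ((2 * c) ^ j * Z.card) := Nat.mul_le_mul_left _ h4
        _ = (2 * c) ^ j * ((2 * c + 1) * Z.card) := by ring
        _ ≤ (2 * c) ^ j * (2 * c * (ball Γ S₀ x (j + 1)).card) := Nat.mul_le_mul_left _ h5
        _ = (2 * c) ^ (j + 1) * (ball Γ S₀ x (j + 1)).card := by ring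
  have h1 := hgrow r le_rfl
  have h2 : (2 * c) ^ r * (ball Γ S₀ x r).card ≤ (2 * c) ^ r * Fintype.card V :=
    Nat.mul_le_mul_left _ (card_le_univ _)
  omega

theorem conn_sum {Φ : SimpleGraph V} {S : Finset V} (hne : S.Nonempty) (hS : Conn Φ S) :
    2 * S.card ≤ ∑ z ∈ S, ((nb Φ z).filter (fun y => y ∈ S)).card + 2 := by
  set K := Φ.induce (S : Set V) with hK
  have hconn : K.Connected := by
    obtain ⟨x, hx⟩ := hne
    have : Nonempty (S : Set V) := ⟨⟨x, hx⟩⟩
    constructor
    intro a b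
    obtain ⟨w, hw⟩ := hS a.1 a.2 b.1 b.2
    exact ⟨w.induce (S : Set V) hw⟩
  have h1 := hconn.card_vert_le_card_edgeSet_add_one
  have h2 := K.sum_degrees_eq_twice_card_edges
  have h3 : Nat.card (S : Set V) = S.card := by simp
  have h3' : Nat.card K.edgeSet = K.edgeFinset.card := by
    rw [Nat.card_eq_fintype_card, SimpleGraph.edgeFinset_card]
  rw [h3, h3'] at h1
  have h4 : ∑ v : (S : Set V), K.degree v =
      ∑ z ∈ S, ((nb Φ z).filter (fun y => y ∈ S)).card := by
    have h5 : ∀ v : (S : Set V), K.degree v = ((nb Φ v.1).filter (fun y => y ∈ S)).card := by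
      intro v
      rw [← SimpleGraph.card_neighborFinset_eq_degree]
      refine Finset.card_bij (fun y _ => y.1) ?_ ?_ ?_
      · intro y hy
        rw [SimpleGraph.mem_neighborFinset] at hy
        rw [mem_filter, mem_nb]
        exact ⟨hy, y.2⟩
      · intro y _ y' _ h
        exact Subtype.ext h
      · intro y hy
        rw [mem_filter, mem_nb] at hy
        refine ⟨⟨y, hy.2⟩, ?_, rfl⟩
        rw [SimpleGraph.mem_neighborFinset]
        exact hy.1
    rw [Finset.sum_congr rfl fun v _ => h5 v]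
    exact Finset.sum_coe_sort S (fun z => ((nb Φ z).filter (fun y => y ∈ S)).card)
  rw [← h4, h2]
  omega

theorem excess_short {Γ Φ : SimpleGraph V} (hreach : ∀ a b, Γ.Adj a b → Φ.Reachable a b)
    (hle : Φ ≤ Γ) {c r x : ℕ} (hx : 0 < x) (hsum : ∑ v, (nb Φ v).card + x ≤ ∑ v, (nb Γ v).card)
    (hc : 2 * Fintype.card V ≤ c * x) (hr : (2 * c) ^ r * Fintype.card V < (2 * c + 1) ^ r) :
    ShortC (2 * r + 1) Γ := by
  by_contra hL
  have hrw : ∀ a b, Γ.Reachable a b → Φ.Reachable a b := by
    intro a b ⟨w⟩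
    induction w with
    | nil => exact SimpleGraph.Reachable.refl _
    | cons h w ih => exact (hreach _ _ h).trans ih
  have hconnΦ : ∀ v, Conn Φ (cmp Γ v) := by
    intro v a ha b hb
    rw [mem_cmp] at ha hb
    obtain ⟨w⟩ := hrw _ _ (ha.symm.trans hb)
    refine ⟨w, fun u hu => ?_⟩
    rw [mem_cmp]
    refine ha.trans ⟨(w.takeUntil u hu).mapLe hle⟩
  have hin : ∀ v, ∀ z ∈ cmp Γ v, (nb Γ z).filter (fun y => y ∈ cmp Γ v) = nb Γ z := by
    intro v z hz
    rw [filter_eq_self]
    intro y hy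
    exact cmp_adj hz (mem_nb.mp hy)
  have hinΦ : ∀ v, ∀ z ∈ cmp Γ v, (nb Φ z).filter (fun y => y ∈ cmp Γ v) = nb Φ z := by
    intro v z hz
    rw [filter_eq_self]
    intro y hy
    exact cmp_adj hz (hle (mem_nb.mp hy))
  have h1 : ∀ S ∈ univ.image (cmp Γ), c * (∑ z ∈ S, (nb Γ z).card + 2) ≤ (2 * c + 1) * S.card := by
    intro S hS
    rw [mem_image] at hS
    obtain ⟨v, -, rfl⟩ := hS
    by_contra hcon
    push Not at hcon
    refine hL (dense_short ⟨v, self_mem_cmp Γ v⟩ (r := r) (c := c) ?_ hr)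
    rw [sum_congr rfl fun z hz => by rw [hin v z hz]]
    exact hcon
  have h2 : ∀ S ∈ univ.image (cmp Γ), 2 * S.card ≤ ∑ z ∈ S, (nb Φ z).card + 2 := by
    intro S hS
    rw [mem_image] at hS
    obtain ⟨v, -, rfl⟩ := hS
    have := conn_sum ⟨v, self_mem_cmp Γ v⟩ (hconnΦ v)
    rwa [sum_congr rfl fun z hz => by rw [hinΦ v z hz]] at this
  have hN : ∑ S ∈ univ.image (cmp Γ), S.card = Fintype.card V := by
    have := sum_cmp Γ (fun _ => 1)
    simp only [sum_const, smul_eq_mul, mul_one] at this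
    rw [this, Finset.card_univ]
  have h3 := sum_le_sum h1
  have h4 := sum_le_sum h2
  rw [← mul_sum, ← mul_sum, sum_add_distrib, sum_cmp, hN] at h3
  rw [← mul_sum, sum_add_distrib, sum_cmp, hN] at h4
  obtain ⟨k, hk⟩ : ∃ k, k = ∑ S ∈ univ.image (cmp Γ), 2 := ⟨_, rfl⟩
  obtain ⟨a, ha⟩ : ∃ a, a = ∑ v, (nb Γ v).card := ⟨_, rfl⟩
  obtain ⟨b, hb⟩ : ∃ b, b = ∑ v, (nb Φ v).card := ⟨_, rfl⟩
  obtain ⟨N, hNN⟩ : ∃ N, N = Fintype.card V := ⟨_, rfl⟩
  have e0 : ∑ S ∈ univ.image (cmp Γ), ∑ x ∈ S, (nb Γ x).card = a := by rw [sum_cmp, ← ha]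
  have e0' : ∑ S ∈ univ.image (cmp Γ), ∑ x ∈ S, (nb Φ x).card = b := by rw [sum_cmp, ← hb]
  rw [← ha, ← hk, ← hNN] at h3
  rw [← hb, ← hk, ← hNN] at h4
  rw [← ha, ← hb] at hsum
  rw [← hNN] at hc
  have e1 : c * (b + x + k) ≤ c * (a + k) := Nat.mul_le_mul_left _ (by omega)
  have e2 : c * (2 * N + x) ≤ c * (b + x + k) := Nat.mul_le_mul_left _ (by omega)
  have e3 : c * (2 * N + x) = 2 * c * N + c * x := by ring
  have e4 : (2 * c + 1) * N = 2 * c * N + N := by ring
  have hNpos : 0 < N := by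
    rcases Nat.eq_zero_or_pos N with h | h
    · exfalso
      rw [hNN, Fintype.card_eq_zero_iff] at h
      have : a = 0 := by
        rw [ha]
        exact Fintype.sum_empty _
      omega
    · exact h
  omega

/-- a short cycle contains an edge outside a given acyclic subgraph -/
theorem short_extra {Γ Φ : SimpleGraph V} (hac : Φ.IsAcyclic) {ℓ : ℕ} (h : ShortC ℓ Γ) :
    ∃ u v, Γ.Adj u v ∧ ¬ Φ.Adj u v ∧ ∃ w : Γ.Walk u v, w.IsPath ∧ 2 ≤ w.length ∧ w.length ≤ ℓ := by
  obtain ⟨u, v, huv, w, hw, h2, hl, hmax⟩ := heaviest h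
    (fun f => if f ∈ Φ.edgeSet then 0 else 1)
  refine ⟨u, v, huv, ?_, w, hw, h2, hl⟩
  intro hΦ
  have h0 : ∀ f ∈ w.edges, f ∈ Φ.edgeSet := by
    intro f hf
    have h3 := hmax f hf
    have hΦ' : s(u, v) ∈ Φ.edgeSet := hΦ
    simp only [hΦ', if_true] at h3
    by_contra hcon
    simp [hcon] at h3
  have hc : (SimpleGraph.Walk.cons hΦ.symm (w.transfer Φ h0)).IsCycle := by
    rw [SimpleGraph.Walk.cons_isCycle_iff]
    refine ⟨hw.transfer h0, ?_⟩
    intro he
    rw [SimpleGraph.Walk.edges_transfer] at he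
    rw [Sym2.eq_swap] at he
    have := path_edge_length w hw he
    omega
  exact hac _ hc

end Pool.Agent.H354_OP
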