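import Pool.Agent.H354_OP.Wor1

/-!
# Detours
-/

set_option autoImplicit false

namespace Pool.Agent.H354_OP

open Finset
open scoped Classical

set_option linter.unusedSectionVars false

/-- two different internally disjoint paths with the same ends do not have a common edge -/
theorem first_edge {V : Type} {G : SimpleGraph V} {u v : V} (P Q : G.Walk u v) (hP : P.IsPath)
    (hQ : Q.IsPath) (hne : P ≠ Q) (hdisj : ∀ x ∈ Q.support, x ∈ P.support → x = u ∨ x = v) :
    u ≠ v ∧ ∃ e ∈ P.edges, ∀ f ∈ Q.edges, f ≠ e := by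
  cases P with
  | nil =>
    exfalso
    apply hne
    rw [SimpleGraph.Walk.isPath_iff_eq_nil] at hQ
    exact hQ.symm
  | @cons _ w _ h P' =>
    rw [SimpleGraph.Walk.cons_isPath_iff] at hP
    have huv : u ≠ v := fun h1 => hP.2 (h1 ▸ P'.end_mem_support)
    refine ⟨huv, s(u, w), by simp, ?_⟩
    rintro f hf rfl
    have hw : w ∈ Q.support := Q.snd_mem_support_of_mem_edges hf
    rcases hdisj w hw (by simp) with h1 | h1
    · exact h.ne h1.symm
    · subst h1
      have h2 := path_edge_length Q hQ hf
      have hP' : P' = SimpleGraph.Walk.nil := by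
        have := hP.1
        rwa [SimpleGraph.Walk.isPath_iff_eq_nil] at this
      subst hP'
      apply hne
      cases Q with
      | nil => exact absurd rfl huv
      | @cons _ w' _ h' Q' =>
        rw [SimpleGraph.Walk.length_cons] at h2
        have h3 : Q'.length = 0 := by omega
        cases Q' with
        | nil => rfl
        | cons h6 Q'' =>
          rw [SimpleGraph.Walk.length_cons] at h3
          omega

theorem detour {V : Type} [Fintype V] {G : SimpleGraph V} {m k : ℕ}
    (hcrit : ∀ e ∈ G.edgeSet, KDraw m (G.deleteEdges {e})) {u v : V} (P Q : G.Walk u v)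
    (hP : P.IsPath) (hQ : Q.IsPath) (hne : P ≠ Q)
    (hdisj : ∀ x ∈ Q.support, x ∈ P.support → x = u ∨ x = v)
    (hdeg : ∀ x ∈ P.support, x ≠ u → x ≠ v → (nb G x).card ≤ 2) {B : ℕ}
    (hB : ∑ i ∈ Ico 1 Q.length, (nb G (Q.getVert i)).card ≤ B * P.length)
    (hk : 16 * (m + 1) ^ 2 * (B + 1) ≤ k) : KDraw k G := by
  obtain ⟨huv, e, he, hQe⟩ := first_edge P Q hP hQ hne hdisj
  have hPpos : 0 < P.length := by
    rcases Nat.eq_zero_or_pos P.length with h | h
    · exact absurd (SimpleGraph.Walk.eq_of_length_eq_zero h) huv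
    · exact h
  have hQpos : 0 < Q.length := by
    rcases Nat.eq_zero_or_pos Q.length with h | h
    · exact absurd (SimpleGraph.Walk.eq_of_length_eq_zero h) huv
    · exact h
  refine (redraw_bal (q := 8 * (m + 1) * (B + 1)) huv P hP ?_ he
    (hcrit e (P.edges_subset_edgeSet he)) Q hQe
    (fun i => if i = 0 then 0 else (nb G (Q.getVert i)).card) ?_ ?_).mono ?_
  · intro x hx hxu hxv y hxy
    obtain ⟨i, rfl, hi⟩ := SimpleGraph.Walk.mem_support_iff_exists_getVert.mp hx
    have hi0 : 0 < i := by
      rcases Nat.eq_zero_or_pos i with h | h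
      · exact absurd (by rw [h, SimpleGraph.Walk.getVert_zero]) hxu
      · exact h
    have hin : i < P.length := by
      rcases Nat.lt_or_ge i P.length with h | h
      · exact h
      · exact absurd (by rw [show i = P.length by omega, SimpleGraph.Walk.getVert_length]) hxv
    have inj : ∀ i j, i ≤ P.length → j ≤ P.length → P.getVert i = P.getVert j → i = j :=
      fun i j hi hj hij => hP.getVert_injOn hi hj hij
    have a1 : G.Adj (P.getVert i) (P.getVert (i - 1)) := by
      have := P.adj_getVert_succ (i := i - 1) (by omega)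
      rw [show i - 1 + 1 = i by omega] at this
      exact this.symm
    have a2 : G.Adj (P.getVert i) (P.getVert (i + 1)) := P.adj_getVert_succ hin
    have e1 : s(P.getVert i, P.getVert (i - 1)) ∈ P.edges := by
      have := P.toSubgraph_adj_getVert (i := i - 1) (by omega)
      rw [show i - 1 + 1 = i by omega] at this
      rw [← SimpleGraph.Walk.mem_edges_toSubgraph]
      exact this.symm
    have e2 : s(P.getVert i, P.getVert (i + 1)) ∈ P.edges := by
      rw [← SimpleGraph.Walk.mem_edges_toSubgraph]
      exact P.toSubgraph_adj_getVert hin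
    have hne' : P.getVert (i - 1) ≠ P.getVert (i + 1) := by
      intro h2
      have := inj (i - 1) (i + 1) (by omega) (by omega) h2
      omega
    have h2 := hdeg _ hx hxu hxv
    by_contra hcon
    have hy1 : y ≠ P.getVert (i - 1) := fun h => hcon (h ▸ e1)
    have hy2 : y ≠ P.getVert (i + 1) := fun h => hcon (h ▸ e2)
    have h3 : ({y, P.getVert (i - 1), P.getVert (i + 1)} : Finset V).card = 3 :=
      Finset.card_eq_three.mpr ⟨_, _, _, hy1, hy2, hne', rfl⟩
    have h4 : ({y, P.getVert (i - 1), P.getVert (i + 1)} : Finset V) ⊆ nb G (P.getVert i) := by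
      intro z hz
      simp only [mem_insert, mem_singleton] at hz
      rw [mem_nb]
      rcases hz with rfl | rfl | rfl
      · exact hxy
      · exact a1
      · exact a2
    have := card_le_card h4
    omega
  · intro i _ hiu _
    rw [if_neg]
    · exact incid_le _
    · intro h
      exact hiu (by rw [h, SimpleGraph.Walk.getVert_zero])
  · have h1 : ∑ i ∈ range Q.length, (if i = 0 then 0 else (nb G (Q.getVert i)).card) =
        ∑ i ∈ Ico 1 Q.length, (nb G (Q.getVert i)).card := by
      rw [range_eq_Ico, Finset.sum_eq_sum_Ico_succ_bot hQpos, if_pos rfl, zero_add]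
      refine sum_congr rfl fun i hi => ?_
      rw [mem_Ico] at hi
      rw [if_neg (by omega)]
    have h2 : Q.length ≤ (B + 1) * P.length := by
      have h3 : ∑ i ∈ Ico 1 Q.length, 1 ≤ ∑ i ∈ Ico 1 Q.length, (nb G (Q.getVert i)).card := by
        refine sum_le_sum fun i hi => ?_
        rw [mem_Ico] at hi
        exact Finset.card_pos.mpr ⟨_, mem_nb.mpr (Q.adj_getVert_succ hi.2)⟩
      rw [sum_const, Nat.card_Ico, smul_eq_mul, mul_one] at h3
      have h4 : (B + 1) * P.length = B * P.length + P.length := by ring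
      omega
    rw [sum_add_distrib, sum_const, card_range, smul_eq_mul, h1]
    have h5 : Q.length * (2 * m) ≤ (B + 1) * P.length * (2 * m) := Nat.mul_le_mul_right _ h2
    have h6 : 8 * (m + 1) * (B + 1) * P.length =
        ((B + 1) * P.length * (2 * m)) * 4 + 8 * (B * P.length) + 8 * P.length := by ring
    rw [h6]
    omega
  · refine le_trans ?_ hk
    have h1 : (m + 1) ^ 2 * (B + 1) = (m + 1) * (m + 1) * B + (m + 1) * (m + 1) := by ring
    have h2 : 8 * (m + 1) * (B + 1) * (m + 1) = 8 * ((m + 1) ^ 2 * (B + 1)) := by ring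
    have h3 : m + 1 ≤ (m + 1) ^ 2 * (B + 1) := by
      calc m + 1 = (m + 1) * 1 := by ring
        _ ≤ (m + 1) * ((m + 1) * (B + 1)) :=
          Nat.mul_le_mul_left _ (Nat.mul_pos (Nat.succ_pos _) (Nat.succ_pos _))
        _ = (m + 1) ^ 2 * (B + 1) := by ring
    have h4 : 16 * (m + 1) ^ 2 * (B + 1) = 16 * ((m + 1) ^ 2 * (B + 1)) := by ring
    rw [h2, h4]
    omega

end Pool.Agent.H354_OP
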