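import Pool.Agent.H354_OP.Mad

/-!
# Dense parts of a graph with sparse quotients contain short cycles
-/

set_option autoImplicit false

namespace Pool.Agent.H354_OP

open Finset
open scoped Classical

set_option linter.unusedSectionVars false

variable {V : Type} [Fintype V]

theorem dense_samp {A : ℕ} {H Γ : SimpleGraph V} (hT : Spn A H) (hΓ : Γ ≤ H) {c r : ℕ} {S : Finset V} (hne : S.Nonempty)
    (hS : (2 * c + 1) * S.card < c * (∑ z ∈ S, ((nb Γ z).filter (fun y => y ∈ S)).card + 2))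
    (hr : (2 * c) ^ r * (2 * c * A) < (2 * c + 1) ^ r) :
    ShortC (8 * r + 1) Γ := by
  by_contra hL
  obtain ⟨P, hP⟩ : ∃ P : Finset V → Prop, ∀ S, P S ↔ S.Nonempty ∧
      (2 * c + 1) * S.card < c * (∑ z ∈ S, ((nb Γ z).filter (fun y => y ∈ S)).card + 2) :=
    ⟨_, fun S => Iff.rfl⟩
  obtain ⟨S₀, hS₀, hmin⟩ := Finset.exists_min_image (univ.filter P) Finset.card
    ⟨S, by rw [mem_filter, hP]; exact ⟨mem_univ _, hne, hS⟩⟩
  rw [mem_filter, hP] at hS₀
  obtain ⟨-, ⟨x₀, hx₀⟩, hS₀⟩ := hS₀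
  -- the edges that leave a tree in the set
  have hkey : ∀ Z : Finset V, Z ⊆ S₀ → Z.Nonempty →
      ∑ z ∈ Z, ((nb Γ z).filter (fun y => y ∈ Z)).card + 2 ≤ 2 * Z.card →
      Z.card + 2 * c < 2 * c * ∑ z ∈ Z, ((nb Γ z).filter (fun y => y ∈ S₀ \ Z)).card := by
    intro Z hZS hZne ht
    have hYne : (S₀ \ Z).Nonempty := by
      rw [nonempty_iff_ne_empty]
      intro h
      have h1 : Z = S₀ := subset_antisymm hZS (sdiff_eq_empty_iff_subset.mp h)
      rw [← h1] at hS₀
      have h2 : c * (∑ z ∈ Z, ((nb Γ z).filter (fun y => y ∈ Z)).card + 2) ≤ c * (2 * Z.card) :=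
        Nat.mul_le_mul_left _ ht
      have h3 : c * (2 * Z.card) ≤ (2 * c + 1) * Z.card := by
        have : (2 * c + 1) * Z.card = c * (2 * Z.card) + Z.card := by ring
        omega
      omega
    have hcard : (S₀ \ Z).card + Z.card = S₀.card := card_sdiff_add_card_eq_card hZS
    have hZpos : 0 < Z.card := card_pos.mpr hZne
    obtain ⟨Y, hY⟩ : ∃ Y, Y = S₀ \ Z := ⟨_, rfl⟩
    rw [← hY] at hYne hcard ⊢
    have hYP : c * (∑ z ∈ Y, ((nb Γ z).filter (fun y => y ∈ Y)).card + 2) ≤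
        (2 * c + 1) * Y.card := by
      by_contra hcon
      push Not at hcon
      have := hmin Y (by rw [mem_filter, hP]; exact ⟨mem_univ _, hYne, hcon⟩)
      omega
    have hmemY : ∀ y, y ∈ S₀ ↔ y ∈ Z ∨ y ∈ Y := by
      intro y
      rw [hY, mem_sdiff]
      constructor
      · intro h
        by_cases h' : y ∈ Z
        · exact Or.inl h'
        · exact Or.inr ⟨h, h'⟩
      · rintro (h | h)
        · exact hZS h
        · exact h.1
    have hdis : Disjoint Z Y := by rw [hY]; exact disjoint_sdiff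
    have hsplit : ∀ z, ((nb Γ z).filter (fun y => y ∈ S₀)).card =
        ((nb Γ z).filter (fun y => y ∈ Z)).card + ((nb Γ z).filter (fun y => y ∈ Y)).card := by
      intro z
      rw [← card_union_of_disjoint]
      · congr 1
        ext y
        simp only [mem_filter, mem_union]
        rw [hmemY]
        tauto
      · rw [Finset.disjoint_left]
        intro y hy hy'
        exact Finset.disjoint_left.mp hdis (mem_filter.mp hy).2 (mem_filter.mp hy').2
    have htot : ∑ z ∈ S₀, ((nb Γ z).filter (fun y => y ∈ S₀)).card =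
        ∑ z ∈ Z, ((nb Γ z).filter (fun y => y ∈ Z)).card +
        ∑ z ∈ Y, ((nb Γ z).filter (fun y => y ∈ Y)).card +
        2 * ∑ z ∈ Z, ((nb Γ z).filter (fun y => y ∈ Y)).card := by
      have h1 : S₀ = Z ∪ Y := by
        ext y
        rw [mem_union, hmemY]
      have hU : ∀ f : V → ℕ, ∑ z ∈ S₀, f z = ∑ z ∈ Z, f z + ∑ z ∈ Y, f z := by
        intro f
        rw [← sum_union hdis, ← h1]
      rw [sum_congr rfl fun z _ => hsplit z, sum_add_distrib, hU, hU, swap_sum Γ Y Z]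
      ring
    obtain ⟨o, ho⟩ : ∃ o, o = ∑ z ∈ Z, ((nb Γ z).filter (fun y => y ∈ Y)).card := ⟨_, rfl⟩
    obtain ⟨a, ha⟩ : ∃ a, a = ∑ z ∈ Z, ((nb Γ z).filter (fun y => y ∈ Z)).card := ⟨_, rfl⟩
    obtain ⟨b, hb⟩ : ∃ b, b = ∑ z ∈ Y, ((nb Γ z).filter (fun y => y ∈ Y)).card := ⟨_, rfl⟩
    rw [htot, ← ho, ← ha, ← hb, ← hcard] at hS₀
    rw [← ha] at ht
    rw [← hb] at hYP
    rw [← ho]
    have e1 : (2 * c + 1) * (Y.card + Z.card) = (2 * c + 1) * Y.card + (2 * c + 1) * Z.card := by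
      ring
    have e2 : c * (a + b + 2 * o + 2) = c * (b + 2) + c * a + 2 * c * o := by ring
    rw [e1, e2] at hS₀
    have e3 : c * (a + 2) ≤ c * (2 * Z.card) := Nat.mul_le_mul_left _ ht
    have e4 : c * (a + 2) = c * a + 2 * c := by ring
    have e5 : c * (2 * Z.card) = 2 * c * Z.card := by ring
    have e6 : (2 * c + 1) * Z.card = 2 * c * Z.card + Z.card := by ring
    omega
  have hballroot : ∀ x j, ∀ v ∈ ball Γ S₀ x j, ∃ w : Γ.Walk x v, w.length ≤ j ∧
      ∀ u ∈ w.support, u ∈ ball Γ S₀ x j := by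
    intro x j v hv
    obtain ⟨w, hw⟩ := mem_ball.mp hv
    refine ⟨w.mapLe (res_le Γ S₀), by simpa using hw, ?_⟩
    intro u hu
    rw [SimpleGraph.Walk.support_mapLe_eq_support] at hu
    exact walk_ball w hw u hu
  have hgrow : ∀ x ∈ S₀, ∀ j ≤ r, (2 * c + 1) ^ j ≤ (2 * c) ^ j * (ball Γ S₀ x j).card := by
    intro x hx j
    induction j with
    | zero =>
      intro _
      have := Finset.card_pos.mpr ⟨x, self_mem_ball Γ S₀ x 0⟩
      simpa using this
    | succ j ih =>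
      intro hj
      set Z := ball Γ S₀ x j with hZ
      have ht := tree_sumR (x := x) (r := j) (Z := Z) (fun h => hL (h.mono (by omega)))
        (self_mem_ball Γ S₀ x j) (hballroot x j)
      have hZS : Z ⊆ S₀ := ball_sub hx j
      have hk := hkey Z hZS ⟨x, self_mem_ball Γ S₀ x j⟩ ht
      have hdis : Disjoint Z (S₀ \ Z) := disjoint_sdiff
      have hout : Z.card + ∑ z ∈ Z, ((nb Γ z).filter (fun y => y ∈ S₀ \ Z)).card ≤
          (ball Γ S₀ x (j + 1)).card := by
        rw [← Finset.card_biUnion]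
        · rw [← Finset.card_union_of_disjoint]
          · refine card_le_card ?_
            intro y hy
            rw [mem_union, mem_biUnion] at hy
            rcases hy with hy | ⟨z, hz, hy⟩
            · exact ball_mono (Nat.le_succ j) hy
            · rw [mem_filter, mem_nb] at hy
              exact ball_adj hz hy.1 (hZS hz) (mem_sdiff.mp hy.2).1
          · rw [Finset.disjoint_left]
            intro y hy hy'
            rw [mem_biUnion] at hy'
            obtain ⟨z, hz, hy'⟩ := hy'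
            rw [mem_filter] at hy'
            exact Finset.disjoint_left.mp hdis hy hy'.2
        · intro z hz z' hz' hzz
          simp only [Function.onFun]
          rw [Finset.disjoint_left]
          intro y hy hy'
          rw [mem_filter, mem_nb] at hy hy'
          exact hzz (attachR (ρ := 2 * j) (fun h => hL (h.mono (by omega)))
            (connR_of_root (hballroot x j)) (fun h => Finset.disjoint_left.mp hdis h hy.2) hz hz'
            hy.1 hy'.1)
      have h4 := ih (by omega)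
      have h5 : (2 * c + 1) * Z.card ≤ 2 * c * (ball Γ S₀ x (j + 1)).card := by
        obtain ⟨o, ho⟩ : ∃ o, o = ∑ z ∈ Z, ((nb Γ z).filter (fun y => y ∈ S₀ \ Z)).card :=
          ⟨_, rfl⟩
        rw [← ho] at hk hout
        have e6 : 2 * c * (Z.card + o) ≤ 2 * c * (ball Γ S₀ x (j + 1)).card :=
          Nat.mul_le_mul_left _ hout
        have e7 : 2 * c * (Z.card + o) = 2 * c * Z.card + 2 * c * o := by ring
        have e8 : (2 * c + 1) * Z.card = 2 * c * Z.card + Z.card := by ring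
        omega
      calc (2 * c + 1) ^ (j + 1) = (2 * c + 1) * (2 * c + 1) ^ j := by ring
        _ ≤ (2 * c + 1) * ((2 * c) ^ j * Z.card) := Nat.mul_le_mul_left _ h4
        _ = (2 * c) ^ j * ((2 * c + 1) * Z.card) := by ring
        _ ≤ (2 * c) ^ j * (2 * c * (ball Γ S₀ x (j + 1)).card) := Nat.mul_le_mul_left _ h5
        _ = (2 * c) ^ (j + 1) * (ball Γ S₀ x (j + 1)).card := by ring
  -- centres
  obtain ⟨good, hgood⟩ : ∃ good : Finset V → Prop, ∀ X, good X ↔
      ∀ x ∈ X, ∀ y ∈ X, x ≠ y → Disjoint (ball Γ S₀ x r) (ball Γ S₀ y r) := ⟨_, fun X => Iff.rfl⟩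
  obtain ⟨X, hX, hmax⟩ := Finset.exists_max_image (S₀.powerset.filter good) Finset.card
    ⟨∅, by rw [mem_filter, hgood]; simp⟩
  rw [mem_filter, mem_powerset, hgood] at hX
  obtain ⟨hXL, hXd⟩ := hX
  have hcover : ∀ v ∈ S₀, ∃ x ∈ X, v ∈ ball Γ S₀ x (2 * r) := by
    intro v hv
    by_cases hvX : v ∈ X
    · exact ⟨v, hvX, self_mem_ball Γ S₀ v _⟩
    · by_contra hcon
      push Not at hcon
      have hdis : ∀ x ∈ X, Disjoint (ball Γ S₀ v r) (ball Γ S₀ x r) := by
        intro x hx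
        rw [Finset.disjoint_left]
        intro u hu hu'
        refine hcon x hx ?_
        rw [two_mul]
        exact ball_trans hu' (ball_symm hu)
      have h6 := hmax (insert v X) (by
        rw [mem_filter, mem_powerset, hgood]
        refine ⟨Finset.insert_subset hv hXL, ?_⟩
        intro a ha b hb hab
        rw [mem_insert] at ha hb
        rcases ha with rfl | ha
        · rcases hb with rfl | hb
          · exact absurd rfl hab
          · exact hdis b hb
        · rcases hb with rfl | hb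
          · exact (hdis a ha).symm
          · exact hXd a ha b hb hab)
      rw [card_insert_of_notMem hvX] at h6
      omega
  have hXpos : 0 < X.card := by
    obtain ⟨x, hx, -⟩ := hcover x₀ hx₀
    exact Finset.card_pos.mpr ⟨x, hx⟩
  obtain ⟨f, hfX, hf⟩ := forest Γ S₀ X (2 * r)
  set Z : V → Finset V := fun x => S₀.filter (fun v => f v = x) with hZ
  have hZL : ∀ x, Z x ⊆ S₀ := fun x => filter_subset _ _
  have hmemZ : ∀ x v, v ∈ Z x ↔ v ∈ S₀ ∧ f v = x := fun x v => by simp [hZ]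
  have hZroot : ∀ x ∈ X, ∀ v ∈ Z x, ∃ w : Γ.Walk x v, w.length ≤ 2 * r ∧
      ∀ u ∈ w.support, u ∈ Z x := by
    intro x hx v hv
    obtain ⟨hvL, hvx⟩ := (hmemZ x v).mp hv
    obtain ⟨h1, w, hw, hs⟩ := hf v (hcover v hvL)
    subst hvx
    refine ⟨w.mapLe (res_le Γ S₀), by simpa using hw, fun u hu => ?_⟩
    rw [SimpleGraph.Walk.support_mapLe_eq_support] at hu
    rw [hmemZ]
    exact ⟨walk_res w (hXL h1) u hu, (hs u hu).2⟩
  have hZself : ∀ x ∈ X, x ∈ Z x := fun x hx => (hmemZ x x).mpr ⟨hXL hx, hfX x hx⟩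
  have hZdisj : ∀ x y, x ≠ y → ∀ v ∈ Z x, v ∉ Z y := by
    intro x y hxy v hv hv'
    exact hxy (((hmemZ x v).mp hv).2.symm.trans ((hmemZ y v).mp hv').2)
  have hsamp := hT X Z (fun x _ y _ hxy => Finset.disjoint_left.mpr (hZdisj x y hxy))
    hZself (by
      intro x hx a ha b hb
      obtain ⟨w1, -, hw1⟩ := hZroot x hx a ha
      obtain ⟨w2, -, hw2⟩ := hZroot x hx b hb
      refine ⟨(w1.reverse.append w2).mapLe hΓ, ?_⟩
      intro u hu
      rw [SimpleGraph.Walk.support_mapLe_eq_support, SimpleGraph.Walk.mem_support_append_iff,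
        SimpleGraph.Walk.support_reverse, List.mem_reverse] at hu
      exact hu.elim (hw1 u) (hw2 u))
  have hout : ∀ x ∈ X, ∑ z ∈ Z x, ((nb Γ z).filter (fun y => y ∈ S₀ \ Z x)).card ≤
      (X.filter (fun y => x ≠ y ∧ ∃ a ∈ Z x, ∃ b ∈ Z y, H.Adj a b)).card := by
    intro x hx
    rw [← Finset.card_sigma]
    refine Finset.card_le_card_of_injOn (fun p => f p.2) ?_ ?_
    · rintro ⟨z, y⟩ hzy
      rw [Finset.mem_coe, mem_sigma] at hzy
      obtain ⟨hz, hzy⟩ := hzy
      simp only at hz hzy ⊢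
      rw [mem_filter, mem_nb, mem_sdiff] at hzy
      obtain ⟨hadj, hyL, hyZ⟩ := hzy
      rw [Finset.mem_coe, mem_filter]
      refine ⟨(hf y (hcover y hyL)).1, ?_, z, hz, y, (hmemZ _ _).mpr ⟨hyL, rfl⟩, hΓ hadj⟩
      intro h
      exact hyZ ((hmemZ _ _).mpr ⟨hyL, h.symm⟩)
    · rintro ⟨z, y⟩ hzy ⟨z', y'⟩ hzy' hff
      rw [Finset.mem_coe, mem_sigma] at hzy hzy'
      obtain ⟨hz, hzy⟩ := hzy
      obtain ⟨hz', hzy'⟩ := hzy'
      simp only at hz hzy hz' hzy' hff
      rw [mem_filter, mem_nb, mem_sdiff] at hzy hzy'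
      obtain ⟨hadj, hyL, hyZ⟩ := hzy
      obtain ⟨hadj', hyL', hyZ'⟩ := hzy'
      by_contra hne
      have hfy : f y ∈ X := (hf y (hcover y hyL)).1
      have hxy : x ≠ f y := fun h => hyZ ((hmemZ _ _).mpr ⟨hyL, h.symm⟩)
      have hor : z ≠ z' ∨ y ≠ y' := by
        by_contra hcon
        push Not at hcon
        obtain ⟨rfl, rfl⟩ := hcon
        exact hne rfl
      exact hL ((two_edgesR (connR_of_root (hZroot x hx)) (connR_of_root (hZroot (f y) hfy))
        (hZdisj x (f y) hxy) hz hz' ((hmemZ _ _).mpr ⟨hyL, rfl⟩)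
        ((hmemZ _ _).mpr ⟨hyL', hff.symm⟩) hadj hadj' hor).mono (by omega))
  have hob : ∀ x ∈ X, (Z x).card ≤
      2 * c * ∑ z ∈ Z x, ((nb Γ z).filter (fun y => y ∈ S₀ \ Z x)).card := by
    intro x hx
    have h1 := tree_sumR (x := x) (r := 2 * r) (Z := Z x) (fun h => hL (h.mono (by omega)))
      (hZself x hx) (hZroot x hx)
    have h2 := hkey (Z x) (hZL x) ⟨x, hZself x hx⟩ h1
    omega
  have hLcard : S₀.card = ∑ x ∈ X, (Z x).card :=
    Finset.card_eq_sum_card_fiberwise fun v hv => (hf v (hcover v hv)).1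
  have h7 : S₀.card ≤ 2 * c * (A * X.card) := by
    have h8 := Finset.sum_le_sum hob
    rw [← mul_sum, ← hLcard] at h8
    exact h8.trans (Nat.mul_le_mul_left _ ((Finset.sum_le_sum hout).trans hsamp))
  have h8 : (2 * c + 1) ^ r * X.card ≤ (2 * c) ^ r * S₀.card := by
    have h1 : ∑ x ∈ X, (ball Γ S₀ x r).card ≤ S₀.card := by
      rw [← Finset.card_biUnion (fun x hx y hy hxy => hXd x hx y hy hxy)]
      refine card_le_card ?_
      intro v hv
      rw [mem_biUnion] at hv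
      obtain ⟨x, hx, hv⟩ := hv
      exact ball_sub (hXL hx) r hv
    calc (2 * c + 1) ^ r * X.card = ∑ x ∈ X, (2 * c + 1) ^ r := by
          rw [sum_const, smul_eq_mul, mul_comm]
      _ ≤ ∑ x ∈ X, (2 * c) ^ r * (ball Γ S₀ x r).card :=
          sum_le_sum fun x hx => hgrow x (hXL hx) r le_rfl
      _ = (2 * c) ^ r * ∑ x ∈ X, (ball Γ S₀ x r).card := by rw [mul_sum]
      _ ≤ (2 * c) ^ r * S₀.card := Nat.mul_le_mul_left _ h1
  have h9 : (2 * c + 1) ^ r * X.card ≤
      (2 * c) ^ r * (2 * c * A) * X.card := by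
    refine h8.trans ((Nat.mul_le_mul_left _ h7).trans (le_of_eq ?_))
    ring
  have h10 := Nat.le_of_mul_le_mul_right h9 hXpos
  omega

theorem excess_samp {A : ℕ} {H Γ Φ : SimpleGraph V} (hT : Spn A H) (hΓ : Γ ≤ H) (hreach : ∀ a b, Γ.Adj a b → Φ.Reachable a b)
    (hle : Φ ≤ Γ) {c r x : ℕ} (hx : 0 < x) (hsum : ∑ v, (nb Φ v).card + x ≤ ∑ v, (nb Γ v).card)
    (hc : 2 * Fintype.card V ≤ c * x)
    (hr : (2 * c) ^ r * (2 * c * A) < (2 * c + 1) ^ r) :
    ShortC (8 * r + 1) Γ := by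
  by_contra hL
  have hrw : ∀ a b, Γ.Reachable a b → Φ.Reachable a b := by
    intro a b ⟨w⟩
    induction w with
    | nil => exact SimpleGraph.Reachable.refl _
    | cons h w ih => exact (hreach _ _ h).trans ih
  have hconnΦ : ∀ v, Conn Φ (cmp Γ v) := by
    intro v a ha b hb
    rw [mem_cmp] at ha hb
    obtain ⟨w⟩ := hrw _ _ (ha.symm.trans hb)
    refine ⟨w, fun u hu => ?_⟩
    rw [mem_cmp]
    refine ha.trans ⟨(w.takeUntil u hu).mapLe hle⟩
  have hin : ∀ v, ∀ z ∈ cmp Γ v, (nb Γ z).filter (fun y => y ∈ cmp Γ v) = nb Γ z := by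
    intro v z hz
    rw [filter_eq_self]
    intro y hy
    exact cmp_adj hz (mem_nb.mp hy)
  have hinΦ : ∀ v, ∀ z ∈ cmp Γ v, (nb Φ z).filter (fun y => y ∈ cmp Γ v) = nb Φ z := by
    intro v z hz
    rw [filter_eq_self]
    intro y hy
    exact cmp_adj hz (hle (mem_nb.mp hy))
  have h1 : ∀ S ∈ univ.image (cmp Γ), c * (∑ z ∈ S, (nb Γ z).card + 2) ≤ (2 * c + 1) * S.card := by
    intro S hS
    rw [mem_image] at hS
    obtain ⟨v, -, rfl⟩ := hS
    by_contra hcon
    push Not at hcon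
    refine hL (dense_samp hT hΓ ⟨v, self_mem_cmp Γ v⟩ (r := r) (c := c) ?_ hr)
    rw [sum_congr rfl fun z hz => by rw [hin v z hz]]
    exact hcon
  have h2 : ∀ S ∈ univ.image (cmp Γ), 2 * S.card ≤ ∑ z ∈ S, (nb Φ z).card + 2 := by
    intro S hS
    rw [mem_image] at hS
    obtain ⟨v, -, rfl⟩ := hS
    have := conn_sum ⟨v, self_mem_cmp Γ v⟩ (hconnΦ v)
    rwa [sum_congr rfl fun z hz => by rw [hinΦ v z hz]] at this
  have hN : ∑ S ∈ univ.image (cmp Γ), S.card = Fintype.card V := by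
    have := sum_cmp Γ (fun _ => 1)
    simp only [sum_const, smul_eq_mul, mul_one] at this
    rw [this, Finset.card_univ]
  have h3 := sum_le_sum h1
  have h4 := sum_le_sum h2
  rw [← mul_sum, ← mul_sum, sum_add_distrib, sum_cmp, hN] at h3
  rw [← mul_sum, sum_add_distrib, sum_cmp, hN] at h4
  obtain ⟨k, hk⟩ : ∃ k, k = ∑ S ∈ univ.image (cmp Γ), 2 := ⟨_, rfl⟩
  obtain ⟨a, ha⟩ : ∃ a, a = ∑ v, (nb Γ v).card := ⟨_, rfl⟩
  obtain ⟨b, hb⟩ : ∃ b, b = ∑ v, (nb Φ v).card := ⟨_, rfl⟩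
  obtain ⟨N, hNN⟩ : ∃ N, N = Fintype.card V := ⟨_, rfl⟩
  rw [← ha, ← hk, ← hNN] at h3
  rw [← hb, ← hk, ← hNN] at h4
  rw [← ha, ← hb] at hsum
  rw [← hNN] at hc
  have e1 : c * (b + x + k) ≤ c * (a + k) := Nat.mul_le_mul_left _ (by omega)
  have e2 : c * (2 * N + x) ≤ c * (b + x + k) := Nat.mul_le_mul_left _ (by omega)
  have e3 : c * (2 * N + x) = 2 * c * N + c * x := by ring
  have e4 : (2 * c + 1) * N = 2 * c * N + N := by ring
  have hNpos : 0 < N := by
    rcases Nat.eq_zero_or_pos N with h | h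
    · exfalso
      rw [hNN, Fintype.card_eq_zero_iff] at h
      have : a = 0 := by
        rw [ha]
        exact Fintype.sum_empty _
      omega
    · exact h
  omega

end Pool.Agent.H354_OP
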