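import Pool.Agent.H354_OP.Poly

/-!
# Drawings and their planarization
-/

set_option autoImplicit false

namespace Pool.Agent.H354_OP

open Set Filter Topology

/-- `pos` and the arcs `A e` form a drawing of `H` in the plane. -/
structure Drawing {V : Type*} (H : SimpleGraph V) (pos : V → ℂ) (A : Sym2 V → Set ℂ) : Prop where
  inj : Function.Injective pos
  arc : ∀ u v, H.Adj u v → IsArc (A s(u, v)) (pos u) (pos v)
  avoid : ∀ e ∈ H.edgeSet, ∀ w, pos w ∈ A e → w ∈ e

/-- the crossings on the edge `e` -/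
def xs {V : Type*} (H : SimpleGraph V) (pos : V → ℂ) (A : Sym2 V → Set ℂ) (e : Sym2 V) :
    Set (Sym2 V × ℂ) :=
  {q | q.1 ∈ H.edgeSet ∧ q.1 ≠ e ∧ q.2 ∈ A e ∧ q.2 ∈ A q.1 ∧ q.2 ∉ range pos}

/-- finitely many segments, meeting only in common ends -/
structure PSLG (Γ : SimpleGraph ℂ) : Prop where
  fin : {q : ℂ × ℂ | Γ.Adj q.1 q.2}.Finite
  meet : ∀ a b c d, Γ.Adj a b → Γ.Adj c d → s(a, b) ≠ s(c, d) →
    segment ℝ a b ∩ segment ℝ c d ⊆ {a, b} ∩ {c, d}

/-- a path, as a sequence of points -/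
structure Route (Γ : SimpleGraph ℂ) (p : ℕ → ℂ) (n : ℕ) : Prop where
  adj : ∀ i < n, Γ.Adj (p i) (p (i + 1))
  inj : ∀ i j, i ≤ n → j ≤ n → p i = p j → i = j

theorem Route.mono {Γ Γ' : SimpleGraph ℂ} {p : ℕ → ℂ} {n : ℕ} (h : Route Γ p n) (hle : Γ ≤ Γ') :
    Route Γ' p n :=
  ⟨fun i hi => hle (h.adj i hi), h.inj⟩

theorem exists_route {Γ : SimpleGraph ℂ} {a b : ℂ} (h : Γ.Reachable a b) :
    ∃ p n, p 0 = a ∧ p n = b ∧ Route Γ p n := by
  classical
  obtain ⟨w⟩ := h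
  refine ⟨w.bypass.getVert, w.bypass.length, by simp, by simp, ?_, ?_⟩
  · intro i hi
    exact w.bypass.adj_getVert_succ hi
  · intro i j hi hj hij
    exact w.bypass_isPath.getVert_injOn hi hj hij

theorem PSLG.simple {Γ : SimpleGraph ℂ} (h : PSLG Γ) {p : ℕ → ℂ} {n : ℕ} (hr : Route Γ p n) :
    SimplePoly p n := by
  refine ⟨fun i hi => (hr.adj i hi).ne, ?_, ?_⟩
  · intro i hi z hz
    have hne : s(p i, p (i + 1)) ≠ s(p (i + 1), p (i + 2)) := by
      intro he
      rw [Sym2.eq_iff] at he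
      rcases he with ⟨h1, -⟩ | ⟨h1, -⟩
      · have := hr.inj i (i + 1) (by omega) (by omega) h1
        omega
      · have := hr.inj i (i + 2) (by omega) (by omega) h1
        omega
    have hm := h.meet _ _ _ _ (hr.adj i (by omega)) (hr.adj (i + 1) hi) hne hz
    rcases hm.1 with h1 | h1
    · rcases hm.2 with h2 | h2
      · rw [mem_singleton_iff, h2]
      · rw [mem_singleton_iff] at h2
        have := hr.inj i (i + 2) (by omega) (by omega) (h1.symm.trans h2)
        omega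
    · exact h1
  · intro i j hij hj
    rw [Set.disjoint_left]
    intro z hz1 hz2
    have hne : s(p i, p (i + 1)) ≠ s(p j, p (j + 1)) := by
      intro he
      rw [Sym2.eq_iff] at he
      rcases he with ⟨h1, -⟩ | ⟨h1, -⟩
      · have := hr.inj i j (by omega) (by omega) h1
        omega
      · have := hr.inj i (j + 1) (by omega) (by omega) h1
        omega
    have hm := h.meet _ _ _ _ (hr.adj i (by omega)) (hr.adj j hj) hne ⟨hz1, hz2⟩
    have key : ∀ a b, a ≤ n → b ≤ n → a ≠ b → z = p a → z = p b → False :=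
      fun a b ha hb hab h1 h2 => hab (hr.inj a b ha hb (h1.symm.trans h2))
    rcases hm.1 with h1 | h1 <;> rcases hm.2 with h2 | h2
    · exact key i j (by omega) (by omega) (by omega) h1 h2
    · exact key i (j + 1) (by omega) (by omega) (by omega) h1 h2
    · exact key (i + 1) j (by omega) (by omega) (by omega) h1 h2
    · exact key (i + 1) (j + 1) (by omega) (by omega) (by omega) h1 h2

theorem SimplePoly.node_mem {p : ℕ → ℂ} {n : ℕ} (h : SimplePoly p n) {i k : ℕ} (hi : i < n)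
    (hk : k ≤ n) (hm : p k ∈ segment ℝ (p i) (p (i + 1))) : k = i ∨ k = i + 1 := by
  by_contra hcon
  push Not at hcon
  obtain ⟨h1, h2⟩ := hcon
  rcases Nat.lt_or_ge k i with hki | hki
  · have hkm : p k ∈ segment ℝ (p k) (p (k + 1)) := left_mem_segment _ _ _
    rcases Nat.lt_or_ge (k + 1) i with h3 | h3
    · exact Set.disjoint_left.mp (h.far k i (by omega) hi) hkm hm
    · obtain rfl : i = k + 1 := by omega
      exact h.ne k (by omega) (h.cons k hi ⟨hkm, hm⟩)
  · have hkm : p k ∈ segment ℝ (p (k - 1)) (p (k - 1 + 1)) := by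
      rw [show k - 1 + 1 = k by omega]
      exact right_mem_segment _ _ _
    rcases Nat.lt_or_ge (i + 2) k with h3 | h3
    · exact Set.disjoint_left.mp (h.far i (k - 1) (by omega) (by omega)) hm hkm
    · obtain rfl : k = i + 2 := by omega
      have := h.cons i (by omega) ⟨hm, hkm⟩
      exact h.ne (i + 1) (by omega) this.symm

theorem SimplePoly.node_inj {p : ℕ → ℂ} {n : ℕ} (h : SimplePoly p n) {i j : ℕ} (hi : i ≤ n)
    (hj : j ≤ n) (hij : p i = p j) : i = j := by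
  wlog hlt : i < j generalizing i j
  · by_contra hne
    exact hne (this hj hi hij.symm (by omega)).symm
  have hm : p j ∈ segment ℝ (p i) (p (i + 1)) := by
    rw [← hij]
    exact left_mem_segment _ _ _
  rcases h.node_mem (by omega) hj hm with h1 | h1
  · exact h1.symm
  · subst h1
    exact absurd hij (h.ne i (by omega))

/-- the links, all in one: the times of one edge -/
structure Links {V : Type*} (H : SimpleGraph V) (N : Set ℂ) (γ : Sym2 V → ℝ → ℂ)
    (x : Sym2 V × ℝ × ℝ) : Prop where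
  he : x.1 ∈ H.edgeSet
  hs : x.2.1 ∈ Icc (0 : ℝ) 1
  hsN : γ x.1 x.2.1 ∈ N
  ht : x.2.2 ∈ Icc (0 : ℝ) 1
  htN : γ x.1 x.2.2 ∈ N
  hst : x.2.1 < x.2.2
  hno : ∀ t, x.2.1 < t → t < x.2.2 → γ x.1 t ∉ N

theorem links_finite {V : Type*} [Finite V] {H : SimpleGraph V} {N : Set ℂ} (hN : N.Finite)
    {γ : Sym2 V → ℝ → ℂ} (hinj : ∀ e ∈ H.edgeSet, InjOn (γ e) (Icc 0 1)) :
    {x | Links H N γ x}.Finite := by
  have hT : ∀ e ∈ H.edgeSet, {t | t ∈ Icc (0 : ℝ) 1 ∧ γ e t ∈ N}.Finite := by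
    intro e he
    refine Set.Finite.of_injOn (f := γ e) (t := N) (fun t ht => ht.2) ?_ hN
    exact (hinj e he).mono fun t ht => ht.1
  have hfin : (⋃ e ∈ H.edgeSet, ({e} : Set (Sym2 V)) ×ˢ ({t | t ∈ Icc (0 : ℝ) 1 ∧ γ e t ∈ N} ×ˢ
      {t | t ∈ Icc (0 : ℝ) 1 ∧ γ e t ∈ N})).Finite := by
    refine Set.Finite.biUnion (Set.toFinite _) fun e he => ?_
    exact (Set.finite_singleton e).prod ((hT e he).prod (hT e he))
  refine hfin.subset ?_
  intro x hx
  simp only [mem_iUnion]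
  exact ⟨x.1, hx.he, rfl, ⟨hx.hs, hx.hsN⟩, ⟨hx.ht, hx.htN⟩⟩

/-- the segments of the polygonal lines replacing the links -/
def linkGraph {V : Type*} (H : SimpleGraph V) (N : Set ℂ) (γ : Sym2 V → ℝ → ℂ)
    (n : {x // Links H N γ x} → ℕ) (p : {x // Links H N γ x} → ℕ → ℂ)
    (C : Set (Sym2 V)) : SimpleGraph ℂ where
  Adj a b := a ≠ b ∧ ∃ j : {x // Links H N γ x}, j.1.1 ∈ C ∧ ∃ i < n j + 1,
    s(a, b) = s(p j i, p j (i + 1))
  symm := ⟨fun a b h => ⟨h.1.symm, by rw [Sym2.eq_swap]; exact h.2⟩⟩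
  loopless := ⟨fun a h => h.1 rfl⟩

theorem linkGraph_mono {V : Type*} (H : SimpleGraph V) (N : Set ℂ) (γ : Sym2 V → ℝ → ℂ)
    (n : {x // Links H N γ x} → ℕ) (p : {x // Links H N γ x} → ℕ → ℂ)
    {C C' : Set (Sym2 V)} (h : C ⊆ C') : linkGraph H N γ n p C ≤ linkGraph H N γ n p C' := by
  rintro a b ⟨h1, j, h2, h3⟩
  exact ⟨h1, j, h h2, h3⟩

/-- planarization of a drawing -/
theorem exists_poly {V : Type*} [Finite V] {H : SimpleGraph V} {pos : V → ℂ}
    {A : Sym2 V → Set ℂ} (hd : Drawing H pos A) (N : Set ℂ) (hN : N.Finite)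
    (hpos : range pos ⊆ N)
    (hNA : ∀ e ∈ H.edgeSet, ∀ f ∈ H.edgeSet, e ≠ f → A e ∩ A f ⊆ N) :
    ∃ (Γ : SimpleGraph ℂ) (P : Sym2 V → ℕ → ℂ) (n : Sym2 V → ℕ),
      PSLG Γ ∧
      (∀ x ∉ N, ∀ a b c, Γ.Adj x a → Γ.Adj x b → Γ.Adj x c → a = b ∨ b = c ∨ a = c) ∧
      (∀ e ∈ H.edgeSet, Route Γ (P e) (n e)) ∧
      (∀ u v, H.Adj u v → (P s(u, v) 0 = pos u ∧ P s(u, v) (n s(u, v)) = pos v) ∨
        (P s(u, v) 0 = pos v ∧ P s(u, v) (n s(u, v)) = pos u)) ∧
      (∀ e ∈ H.edgeSet, ∀ f ∈ H.edgeSet, e ≠ f →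
        polyImg (P e) (n e) ∩ polyImg (P f) (n f) ⊆ N) ∧
      (∀ e ∈ H.edgeSet, polyImg (P e) (n e) ∩ N ⊆ A e) := by
  classical
  -- parametrisations
  have hγ : ∀ e : Sym2 V, ∃ γ : ℝ → ℂ, e ∈ H.edgeSet → ContinuousOn γ (Icc 0 1) ∧
      InjOn γ (Icc 0 1) ∧ γ '' Icc 0 1 = A e ∧ ∃ u v, e = s(u, v) ∧ γ 0 = pos u ∧ γ 1 = pos v := by
    intro e
    induction e using Sym2.ind with
    | _ u v =>
      by_cases h : s(u, v) ∈ H.edgeSet
      · obtain ⟨γ, g1, g2, g3, g4, g5⟩ := hd.arc u v h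
        exact ⟨γ, fun _ => ⟨g1, g2, g5, u, v, rfl, g3, g4⟩⟩
      · exact ⟨0, fun h' => absurd h' h⟩
  choose γ hγ using hγ
  have hγc : ∀ e ∈ H.edgeSet, ContinuousOn (γ e) (Icc 0 1) := fun e he => (hγ e he).1
  have hγi : ∀ e ∈ H.edgeSet, InjOn (γ e) (Icc 0 1) := fun e he => (hγ e he).2.1
  have hγA : ∀ e ∈ H.edgeSet, γ e '' Icc 0 1 = A e := fun e he => (hγ e he).2.2.1
  have hγe := fun e he => (hγ e he).2.2.2
  have hmA : ∀ e ∈ H.edgeSet, ∀ t ∈ Icc (0 : ℝ) 1, γ e t ∈ A e := by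
    intro e he t ht
    rw [← hγA e he]
    exact ⟨t, ht, rfl⟩
  have hJfin := links_finite (H := H) hN hγi
  have : Finite {x // Links H N γ x} := hJfin
  -- the links as arcs
  set α : {x // Links H N γ x} → ℝ → ℂ :=
    fun j s => γ j.1.1 (j.1.2.1 + s * (j.1.2.2 - j.1.2.1)) with hα
  have hIcc : ∀ j : {x // Links H N γ x}, ∀ s ∈ Icc (0 : ℝ) 1,
      j.1.2.1 + s * (j.1.2.2 - j.1.2.1) ∈ Icc (0 : ℝ) 1 := by
    intro j s hs
    have h1 := j.2.hs
    have h2 := j.2.ht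
    have h3 := j.2.hst
    constructor
    · have : 0 ≤ s * (j.1.2.2 - j.1.2.1) := mul_nonneg hs.1 (by linarith)
      linarith [h1.1]
    · have : s * (j.1.2.2 - j.1.2.1) ≤ 1 * (j.1.2.2 - j.1.2.1) :=
        mul_le_mul_of_nonneg_right hs.2 (by linarith)
      linarith [h2.2]
  have hIoo : ∀ j : {x // Links H N γ x}, ∀ s ∈ Ioo (0 : ℝ) 1,
      j.1.2.1 < j.1.2.1 + s * (j.1.2.2 - j.1.2.1) ∧
      j.1.2.1 + s * (j.1.2.2 - j.1.2.1) < j.1.2.2 := by
    intro j s hs
    have h3 := j.2.hst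
    constructor
    · have : 0 < s * (j.1.2.2 - j.1.2.1) := mul_pos hs.1 (by linarith)
      linarith
    · have : s * (j.1.2.2 - j.1.2.1) < 1 * (j.1.2.2 - j.1.2.1) :=
        mul_lt_mul_of_pos_right hs.2 (by linarith)
      linarith
  have hα0 : ∀ j, α j 0 = γ j.1.1 j.1.2.1 := fun j => by simp [hα]
  have hα1 : ∀ j, α j 1 = γ j.1.1 j.1.2.2 := fun j => by simp [hα]
  have hint : ∀ j, ∀ t ∈ Ioo (0 : ℝ) 1, α j t ∉ N := by
    intro j t ht
    exact j.2.hno _ (hIoo j t ht).1 (hIoo j t ht).2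
  have h01 : ∀ j, α j 0 ≠ α j 1 := by
    intro j h
    rw [hα0, hα1] at h
    exact j.2.hst.ne (hγi _ j.2.he j.2.hs j.2.ht h)
  obtain ⟨S, hS1, hS2, hS3⟩ := polygonal N hN α
    (fun j => (hγc _ j.2.he).comp (by fun_prop) (hIcc j))
    (fun j => by rw [hα0]; exact j.2.hsN) (fun j => by rw [hα1]; exact j.2.htN)
    h01 hint (by
      intro i j hij s hs t ht h
      by_cases he : i.1.1 = j.1.1
      · have h1 : i.1.2.1 + s * (i.1.2.2 - i.1.2.1) = j.1.2.1 + t * (j.1.2.2 - j.1.2.1) := by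
          have hi := hIcc i s ⟨hs.1.le, hs.2.le⟩
          have hj := hIcc j t ⟨ht.1.le, ht.2.le⟩
          refine hγi _ i.2.he hi hj ?_
          have h' : γ i.1.1 (i.1.2.1 + s * (i.1.2.2 - i.1.2.1)) =
            γ j.1.1 (j.1.2.1 + t * (j.1.2.2 - j.1.2.1)) := h
          rw [h', he]
        have hi := hIoo i s hs
        have hj := hIoo j t ht
        rw [h1] at hi
        have a1 : ¬ (i.1.2.1 < j.1.2.1) := by
          intro hlt
          refine i.2.hno _ hlt (by linarith) ?_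
          rw [he]
          exact j.2.hsN
        have a2 : ¬ (j.1.2.1 < i.1.2.1) := by
          intro hlt
          refine j.2.hno _ hlt (by linarith) ?_
          rw [← he]
          exact i.2.hsN
        have a3 : ¬ (i.1.2.2 < j.1.2.2) := by
          intro hlt
          refine j.2.hno _ (by linarith) hlt ?_
          rw [← he]
          exact i.2.htN
        have a4 : ¬ (j.1.2.2 < i.1.2.2) := by
          intro hlt
          refine i.2.hno _ (by linarith) hlt ?_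
          rw [he]
          exact j.2.htN
        apply hij
        apply Subtype.ext
        refine Prod.ext he (Prod.ext ?_ ?_)
        · linarith
        · linarith
      · refine hint i s hs (hNA _ i.2.he _ j.2.he he ⟨?_, ?_⟩)
        · exact hmA _ i.2.he _ (hIcc i s ⟨hs.1.le, hs.2.le⟩)
        · rw [h]
          exact hmA _ j.2.he _ (hIcc j t ⟨ht.1.le, ht.2.le⟩))
  have hgeo := fun j => geodesic (h01 j) (hS1 j)
  choose n p hp0 hp1 hps hpS using hgeo
  have hends : ∀ j, ∀ z ∈ S j, z ∈ N → z = p j 0 ∨ z = p j (n j + 1) := by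
    intro j z hz hzN
    rw [hp0, hp1]
    exact hS3 j ⟨hz, hzN⟩
  have hcross : ∀ i j, i ≠ j → ∀ z ∈ S i, z ∈ S j → z ∈ N := fun i j hij z h1 h2 =>
    hS2 i j hij ⟨h1, h2⟩
  set Γ := linkGraph H N γ n p univ with hΓ
  have hΓadj : ∀ a b, Γ.Adj a b ↔ a ≠ b ∧ ∃ j, ∃ i < n j + 1, s(a, b) = s(p j i, p j (i + 1)) := by
    intro a b
    rw [hΓ]
    simp [linkGraph]
  have hsegeq : ∀ {a b c d : ℂ}, s(a, b) = s(c, d) → segment ℝ a b = segment ℝ c d := by
    intro a b c d h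
    rw [Sym2.eq_iff] at h
    rcases h with ⟨rfl, rfl⟩ | ⟨rfl, rfl⟩
    · rfl
    · exact segment_symm _ _ _
  have hpaireq : ∀ {a b c d : ℂ}, s(a, b) = s(c, d) → ({a, b} : Set ℂ) = {c, d} := by
    intro a b c d h
    rw [Sym2.eq_iff] at h
    rcases h with ⟨rfl, rfl⟩ | ⟨rfl, rfl⟩
    · rfl
    · exact Set.pair_comm _ _
  -- the ends of a segment of a link
  have hendseg : ∀ j, ∀ i < n j + 1, ∀ z ∈ segment ℝ (p j i) (p j (i + 1)), z ∈ N →
      z ∈ ({p j i, p j (i + 1)} : Set ℂ) := by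
    intro j i hi z hz hzN
    rcases hends j z (hpS j i hi hz) hzN with h | h
    · rw [h] at hz ⊢
      rcases (hps j).node_mem hi (by omega) hz with h' | h'
      · left; rw [← h']
      · right; rw [← h']; rfl
    · rw [h] at hz ⊢
      rcases (hps j).node_mem hi (by omega) hz with h' | h'
      · left; rw [← h']
      · right; rw [h']; rfl
  have hPSLG : PSLG Γ := by
    constructor
    · have : (⋃ j : {x // Links H N γ x}, ⋃ i ∈ {i | i < n j + 1},
          ({(p j i, p j (i + 1)), (p j (i + 1), p j i)} : Set (ℂ × ℂ))).Finite := by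
        refine Set.finite_iUnion fun j => ?_
        exact (Set.finite_lt_nat _).biUnion fun i _ => Set.toFinite _
      refine this.subset ?_
      rintro ⟨a, b⟩ hab
      obtain ⟨-, j, i, hi, h⟩ := (hΓadj a b).mp hab
      simp only [mem_iUnion]
      refine ⟨j, i, hi, ?_⟩
      rw [Sym2.eq_iff] at h
      rcases h with ⟨rfl, rfl⟩ | ⟨rfl, rfl⟩
      · left; rfl
      · right; rfl
    · intro a b c d hab hcd hne
      obtain ⟨-, j, i, hi, h⟩ := (hΓadj a b).mp hab
      obtain ⟨-, j', i', hi', h'⟩ := (hΓadj c d).mp hcd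
      rw [h, h'] at hne
      rw [hsegeq h, hsegeq h', hpaireq h, hpaireq h']
      rintro z ⟨hz, hz'⟩
      by_cases hj : j = j'
      · subst hj
        rcases lt_trichotomy i i' with hlt | heq | hlt
        · rcases Nat.lt_or_ge (i + 1) i' with h2 | h2
          · exact absurd hz' (Set.disjoint_left.mp ((hps j).far i i' (by omega) hi') hz)
          · obtain rfl : i' = i + 1 := by omega
            have := (hps j).cons i hi' ⟨hz, hz'⟩
            rw [mem_singleton_iff] at this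
            rw [this]
            exact ⟨Or.inr rfl, Or.inl rfl⟩
        · subst heq
          exact absurd rfl hne
        · rcases Nat.lt_or_ge (i' + 1) i with h2 | h2
          · exact absurd hz (Set.disjoint_left.mp ((hps j).far i' i (by omega) hi) hz')
          · obtain rfl : i = i' + 1 := by omega
            have := (hps j).cons i' hi ⟨hz', hz⟩
            rw [mem_singleton_iff] at this
            rw [this]
            exact ⟨Or.inl rfl, Or.inr rfl⟩
      · have hzN := hcross j j' hj z (hpS j i hi hz) (hpS j' i' hi' hz')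
        exact ⟨hendseg j i hi z hz hzN, hendseg j' i' hi' z hz' hzN⟩
  -- reachability along an edge
  have hlinkreach : ∀ j, (linkGraph H N γ n p {j.1.1}).Reachable (p j 0) (p j (n j + 1)) := by
    intro j
    have : ∀ i ≤ n j + 1, (linkGraph H N γ n p {j.1.1}).Reachable (p j 0) (p j i) := by
      intro i
      induction i with
      | zero => intro _; exact SimpleGraph.Reachable.refl _
      | succ i ih =>
        intro hi
        refine (ih (by omega)).trans (SimpleGraph.Adj.reachable ?_)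
        exact ⟨(hps j).ne i (by omega), j, rfl, i, by omega, rfl⟩
    exact this _ le_rfl
  have hreach : ∀ e ∈ H.edgeSet,
      (linkGraph H N γ n p {e}).Reachable (γ e 0) (γ e 1) := by
    intro e he
    have h0m : (0 : ℝ) ∈ Icc (0 : ℝ) 1 := ⟨le_refl _, zero_le_one⟩
    have h1m : (1 : ℝ) ∈ Icc (0 : ℝ) 1 := ⟨zero_le_one, le_refl _⟩
    obtain ⟨u, v, -, hu, hv⟩ := hγe e he
    have hTfin : {t | t ∈ Icc (0 : ℝ) 1 ∧ γ e t ∈ N}.Finite := by
      refine Set.Finite.of_injOn (f := γ e) (t := N) (fun t ht => ht.2) ?_ hN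
      exact (hγi e he).mono fun t ht => ht.1
    have hall : ∀ t, t ∈ Icc (0 : ℝ) 1 ∧ γ e t ∈ N →
        (linkGraph H N γ n p {e}).Reachable (γ e 0) (γ e t) := by
      by_contra hcon
      push Not at hcon
      have hBfin : {t | (t ∈ Icc (0 : ℝ) 1 ∧ γ e t ∈ N) ∧
          ¬ (linkGraph H N γ n p {e}).Reachable (γ e 0) (γ e t)}.Finite :=
        hTfin.subset fun t ht => ht.1
      obtain ⟨t, ht, hmin⟩ := Set.exists_min_image _ id hBfin hcon
      obtain ⟨⟨ht1, htN⟩, htbad⟩ := ht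
      have ht0 : 0 < t := by
        refine lt_of_le_of_ne ht1.1 fun h => htbad ?_
        rw [← h]
      have hCfin : {s | (s ∈ Icc (0 : ℝ) 1 ∧ γ e s ∈ N) ∧ s < t}.Finite :=
        hTfin.subset fun t ht => ht.1
      obtain ⟨s, hs, hmax⟩ := Set.exists_max_image _ id hCfin
        ⟨0, ⟨h0m, hu ▸ hpos ⟨u, rfl⟩⟩, ht0⟩
      obtain ⟨⟨hs1, hsN⟩, hst⟩ := hs
      have hsgood : (linkGraph H N γ n p {e}).Reachable (γ e 0) (γ e s) := by
        by_contra hbad
        exact absurd (hmin s ⟨⟨hs1, hsN⟩, hbad⟩) (not_le.mpr hst)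
      have hlink : Links H N γ (e, s, t) :=
        ⟨he, hs1, hsN, ht1, htN, hst, fun x hx1 hx2 hxN =>
          absurd (hmax x ⟨⟨⟨hs1.1.trans hx1.le, hx2.le.trans ht1.2⟩, hxN⟩, hx2⟩)
            (not_le.mpr hx1)⟩
      have h3 := hlinkreach ⟨_, hlink⟩
      rw [hp0, hp1, hα0, hα1] at h3
      exact htbad (hsgood.trans h3)
    exact hall 1 ⟨h1m, hv ▸ hpos ⟨v, rfl⟩⟩
  have hroute : ∀ e : Sym2 V, ∃ (P : ℕ → ℂ) (m : ℕ), e ∈ H.edgeSet → P 0 = γ e 0 ∧
      P m = γ e 1 ∧ Route (linkGraph H N γ n p {e}) P m := by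
    intro e
    by_cases he : e ∈ H.edgeSet
    · obtain ⟨P, m, h1, h2, h3⟩ := exists_route (hreach e he)
      exact ⟨P, m, fun _ => ⟨h1, h2, h3⟩⟩
    · exact ⟨0, 0, fun h => absurd h he⟩
  choose P m hroute using hroute
  have hPS : ∀ e ∈ H.edgeSet, ∀ z ∈ polyImg (P e) (m e), ∃ j : {x // Links H N γ x},
      j.1.1 = e ∧ z ∈ S j := by
    intro e he z hz
    rw [mem_polyImg] at hz
    obtain ⟨i, hi, hz⟩ := hz
    obtain ⟨-, j, hj, i', hi', h⟩ := (hroute e he).2.2.adj i hi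
    rw [hsegeq h] at hz
    exact ⟨j, hj, hpS j i' hi' hz⟩
  refine ⟨Γ, P, m, hPSLG, ?_, ?_, ?_, ?_, ?_⟩
  · intro x hx a b c ha hb hc
    have hx' : ∀ y, Γ.Adj x y → ∃ j, ∃ i, 0 < i ∧ i < n j + 1 ∧ x = p j i ∧
        (y = p j (i + 1) ∨ y = p j (i - 1)) := by
      intro y hy
      obtain ⟨-, j, i, hi, h⟩ := (hΓadj x y).mp hy
      have hp0N : p j 0 ∈ N := by rw [hp0, hα0]; exact j.2.hsN
      have hp1N : p j (n j + 1) ∈ N := by rw [hp1, hα1]; exact j.2.htN
      rw [Sym2.eq_iff] at h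
      rcases h with ⟨h1, h2⟩ | ⟨h1, h2⟩
      · refine ⟨j, i, ?_, hi, h1, Or.inl h2⟩
        rcases Nat.eq_zero_or_pos i with h0 | h0
        · subst h0
          exact absurd (h1 ▸ hp0N) hx
        · exact h0
      · refine ⟨j, i + 1, by omega, ?_, h1, Or.inr h2⟩
        rcases Nat.lt_or_ge (i + 1) (n j + 1) with h0 | h0
        · exact h0
        · have : i + 1 = n j + 1 := by omega
          rw [this] at h1
          exact absurd (h1 ▸ hp1N) hx
    have hjj : ∀ j j' i i', i < n j + 1 → i' < n j' + 1 → x = p j i → x = p j' i' →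
        (⟨j, i⟩ : {x // Links H N γ x} × ℕ) = ⟨j', i'⟩ := by
      intro j j' i i' hi hi' h h'
      by_cases hj : j = j'
      · subst hj
        have := (hps j).node_inj (by omega) (by omega) (h.symm.trans h')
        rw [this]
      · exfalso
        refine hx (hcross j j' hj x ?_ ?_)
        · rw [h]
          exact hpS j i hi (left_mem_segment _ _ _)
        · rw [h']
          exact hpS j' i' hi' (left_mem_segment _ _ _)
    obtain ⟨j1, i1, a1, a2, a3, a4⟩ := hx' a ha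
    obtain ⟨j2, i2, b1, b2, b3, b4⟩ := hx' b hb
    obtain ⟨j3, i3, c1, c2, c3, c4⟩ := hx' c hc
    have e1 := hjj _ _ _ _ a2 b2 a3 b3
    have e2 := hjj _ _ _ _ a2 c2 a3 c3
    rw [Prod.mk.injEq] at e1 e2
    obtain ⟨rfl, rfl⟩ := e1
    obtain ⟨rfl, rfl⟩ := e2
    rcases a4 with h1 | h1 <;> rcases b4 with h2 | h2 <;> rcases c4 with h3 | h3
    · exact Or.inl (h1.trans h2.symm)
    · exact Or.inl (h1.trans h2.symm)
    · exact Or.inr (Or.inr (h1.trans h3.symm))
    · exact Or.inr (Or.inl (h2.trans h3.symm))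
    · exact Or.inr (Or.inl (h2.trans h3.symm))
    · exact Or.inr (Or.inr (h1.trans h3.symm))
    · exact Or.inl (h1.trans h2.symm)
    · exact Or.inl (h1.trans h2.symm)
  · intro e he
    exact (hroute e he).2.2.mono (linkGraph_mono H N γ n p (subset_univ _))
  · intro u v huv
    obtain ⟨a, b, hab, ha, hb⟩ := hγe s(u, v) huv
    obtain ⟨h0, h1, -⟩ := hroute s(u, v) huv
    rw [h0, h1, ha, hb]
    rw [Sym2.eq_iff] at hab
    rcases hab with ⟨rfl, rfl⟩ | ⟨rfl, rfl⟩
    · exact Or.inl ⟨rfl, rfl⟩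
    · exact Or.inr ⟨rfl, rfl⟩
  · rintro e he f hf hef z ⟨hz, hz'⟩
    obtain ⟨j, hj, hz⟩ := hPS e he z hz
    obtain ⟨j', hj', hz'⟩ := hPS f hf z hz'
    refine hcross j j' ?_ z hz hz'
    rintro rfl
    exact hef (hj.symm.trans hj')
  · rintro e he z ⟨hz, hzN⟩
    obtain ⟨j, hj, hz⟩ := hPS e he z hz
    rcases hS3 j ⟨hz, hzN⟩ with h | h
    · rw [h, hα0, ← hj]
      exact hmA _ j.2.he _ j.2.hs
    · rw [mem_singleton_iff] at h
      rw [h, hα1, ← hj]
      exact hmA _ j.2.he _ j.2.ht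

end Pool.Agent.H354_OP
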