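import Pool.Agent.H354_OP.Arc

/-!
# A polygonal arc next to a given polygonal arc
-/

set_option autoImplicit false

namespace Pool.Agent.H354_OP

open Set Filter Topology

/-- the cross product -/
def cr (z w : ℂ) : ℝ := z.re * w.im - z.im * w.re

/-- the scalar product -/
def dt (z w : ℂ) : ℝ := z.re * w.re + z.im * w.im

theorem cr_self (z : ℂ) : cr z z = 0 := by simp [cr]; ring
theorem cr_anti (z w : ℂ) : cr z w = - cr w z := by simp [cr]; ring
theorem cr_add (z w v : ℂ) : cr z (w + v) = cr z w + cr z v := by simp [cr]; ring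
theorem cr_sub (z w v : ℂ) : cr z (w - v) = cr z w - cr z v := by simp [cr]; ring
theorem cr_smul (z w : ℂ) (t : ℝ) : cr z (t • w) = t * cr z w := by simp [cr]; ring
theorem smul_cr (z w : ℂ) (t : ℝ) : cr (t • z) w = t * cr z w := by simp [cr]; ring
theorem dt_smul (z w : ℂ) (t : ℝ) : dt z (t • w) = t * dt z w := by simp [dt]; ring
theorem smul_dt (z w : ℂ) (t : ℝ) : dt (t • z) w = t * dt z w := by simp [dt]; ring
theorem cr_zero (z : ℂ) : cr z 0 = 0 := by simp [cr]
theorem cr_neg (z w : ℂ) : cr z (-w) = - cr z w := by simp [cr]; ring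
theorem dt_self_nonneg (z : ℂ) : 0 ≤ dt z z := by
  simp only [dt]; nlinarith [mul_self_nonneg z.re, mul_self_nonneg z.im]
theorem dt_self_norm (z : ℂ) : dt z z = ‖z‖ ^ 2 := by
  rw [← Complex.normSq_eq_norm_sq, Complex.normSq_apply, dt]
theorem dt_self_pos {z : ℂ} (h : z ≠ 0) : 0 < dt z z := by
  rw [dt_self_norm]
  have := norm_pos_iff.mpr h
  positivity
theorem cr_I (z w : ℂ) : cr z (Complex.I * w) = dt z w := by simp [cr, dt]

theorem continuous_cr {X : Type*} [TopologicalSpace X] {f g : X → ℂ} (hf : Continuous f)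
    (hg : Continuous g) : Continuous (fun x => cr (f x) (g x)) := by
  unfold cr
  fun_prop

theorem continuous_dt {X : Type*} [TopologicalSpace X] {f g : X → ℂ} (hf : Continuous f)
    (hg : Continuous g) : Continuous (fun x => dt (f x) (g x)) := by
  unfold dt
  fun_prop

theorem mem_seg {a b z : ℂ} (h : z ∈ segment ℝ a b) :
    ∃ t : ℝ, 0 ≤ t ∧ t ≤ 1 ∧ z = a + t • (b - a) := by
  rw [segment_eq_image'] at h
  obtain ⟨t, ht, rfl⟩ := h
  exact ⟨t, ht.1, ht.2, rfl⟩

theorem seg_mem {a b : ℂ} {t : ℝ} (h0 : 0 ≤ t) (h1 : t ≤ 1) :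
    a + t • (b - a) ∈ segment ℝ a b := by
  rw [segment_eq_image']
  exact ⟨t, ⟨h0, h1⟩, rfl⟩

theorem isClosed_seg (a b : ℂ) : IsClosed (segment ℝ a b) := by
  rw [segment_eq_image']
  exact (isCompact_Icc.image (by fun_prop)).isClosed

theorem inter_subsingleton {a b x y : ℂ} (h : cr (b - a) (y - x) ≠ 0) :
    (segment ℝ a b ∩ segment ℝ x y).Subsingleton := by
  rintro z ⟨hz1, hz2⟩ w ⟨hw1, hw2⟩
  obtain ⟨t, -, -, h1⟩ := mem_seg hz1
  obtain ⟨s, -, -, h2⟩ := mem_seg hz2
  obtain ⟨t', -, -, h3⟩ := mem_seg hw1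
  obtain ⟨s', -, -, h4⟩ := mem_seg hw2
  have e1 : z - w = (t - t') • (b - a) := by
    rw [h1, h3, sub_smul]; ring
  have e2 : z - w = (s - s') • (y - x) := by
    rw [h2, h4, sub_smul]; ring
  have e3 : cr (b - a) (z - w) = 0 := by
    rw [e1, cr_smul, cr_self, mul_zero]
  rw [e2, cr_smul] at e3
  have e4 : s - s' = 0 := (mul_eq_zero.mp e3).resolve_right h
  rw [e4, zero_smul] at e2
  exact sub_eq_zero.mp e2

theorem inter_corner {a b c : ℂ} (h : cr (b - a) (c - b) ≠ 0 ∨ 0 < dt (b - a) (c - b)) :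
    segment ℝ a b ∩ segment ℝ b c ⊆ {b} := by
  rintro z ⟨hz1, hz2⟩
  rw [segment_symm] at hz1
  obtain ⟨t, ht0, -, h1⟩ := mem_seg hz1
  obtain ⟨s, hs0, -, h2⟩ := mem_seg hz2
  have e1 : z - b = (-t) • (b - a) := by
    rw [h1, neg_smul, ← smul_neg, neg_sub]; ring
  have e2 : z - b = s • (c - b) := by rw [h2]; ring
  rw [mem_singleton_iff]
  rcases h with h | h
  · have e3 : cr (b - a) (z - b) = 0 := by rw [e1, cr_smul, cr_self, mul_zero]
    rw [e2, cr_smul] at e3
    have e4 : s = 0 := (mul_eq_zero.mp e3).resolve_right h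
    rw [e4, zero_smul] at e2
    exact sub_eq_zero.mp e2
  · have e3 : dt (z - b) (c - b) = (-t) * dt (b - a) (c - b) := by rw [e1, smul_dt]
    have e4 : dt (z - b) (c - b) = s * dt (c - b) (c - b) := by rw [e2, smul_dt]
    have e5 := dt_self_nonneg (c - b)
    have e6 : 0 ≤ s * dt (c - b) (c - b) := mul_nonneg hs0 e5
    have e7 : t = 0 := by
      by_contra hne
      have : 0 < t := lt_of_le_of_ne ht0 (Ne.symm hne)
      nlinarith [mul_pos this h]
    rw [e7, neg_zero, zero_smul] at e1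
    exact sub_eq_zero.mp e1

/-- a moving segment stays disjoint from a closed set for a short time -/
theorem moving_disjoint {f g : ℝ → ℂ} (hf : Continuous f) (hg : Continuous g) {K : Set ℂ}
    (hK : IsClosed K) (h : Disjoint (segment ℝ (f 0) (g 0)) K) :
    ∀ᶠ ε in 𝓝 (0 : ℝ), Disjoint (segment ℝ (f ε) (g ε)) K := by
  have key : ∀ᶠ ε in 𝓝 (0 : ℝ), ∀ t ∈ Icc (0 : ℝ) 1, f ε + t • (g ε - f ε) ∉ K := by
    refine isCompact_Icc.eventually_forall_of_forall_eventually ?_
    intro t ht
    have hc : Continuous (fun z : ℝ × ℝ => f z.1 + z.2 • (g z.1 - f z.1)) := by fun_prop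
    have h0 : f 0 + t • (g 0 - f 0) ∈ Kᶜ := by
      intro hmem
      exact Set.disjoint_left.mp h (seg_mem ht.1 ht.2) hmem
    exact hc.continuousAt.eventually (hK.isOpen_compl.mem_nhds h0)
  filter_upwards [key] with ε hε
  rw [Set.disjoint_left]
  intro z hz
  obtain ⟨t, h0, h1, rfl⟩ := mem_seg hz
  exact hε t ⟨h0, h1⟩

/-- two moving disjoint segments stay disjoint for a short time -/
theorem moving_disjoint2 {f g f' g' : ℝ → ℂ} (hf : Continuous f) (hg : Continuous g)
    (hf' : Continuous f') (hg' : Continuous g')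
    (h : Disjoint (segment ℝ (f 0) (g 0)) (segment ℝ (f' 0) (g' 0))) :
    ∀ᶠ ε in 𝓝 (0 : ℝ), Disjoint (segment ℝ (f ε) (g ε)) (segment ℝ (f' ε) (g' ε)) := by
  have key : ∀ᶠ ε in 𝓝 (0 : ℝ), ∀ t ∈ Icc (0 : ℝ) 1 ×ˢ Icc (0 : ℝ) 1,
      (f ε + t.1 • (g ε - f ε)) - (f' ε + t.2 • (g' ε - f' ε)) ≠ 0 := by
    refine (isCompact_Icc.prod isCompact_Icc).eventually_forall_of_forall_eventually ?_
    intro t ht
    have hc : Continuous (fun z : ℝ × (ℝ × ℝ) => (f z.1 + z.2.1 • (g z.1 - f z.1)) -
      (f' z.1 + z.2.2 • (g' z.1 - f' z.1))) := by fun_prop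
    have h0 : (f 0 + t.1 • (g 0 - f 0)) - (f' 0 + t.2 • (g' 0 - f' 0)) ∈ ({0} : Set ℂ)ᶜ := by
      intro hmem
      rw [mem_singleton_iff, sub_eq_zero] at hmem
      refine Set.disjoint_left.mp h (seg_mem ht.1.1 ht.1.2) ?_
      rw [hmem]
      exact seg_mem ht.2.1 ht.2.2
    exact hc.continuousAt.eventually (isClosed_singleton.isOpen_compl.mem_nhds h0)
  filter_upwards [key] with ε hε
  rw [Set.disjoint_left]
  intro z hz hz'
  obtain ⟨t, h0, h1, e1⟩ := mem_seg hz
  obtain ⟨s, h2, h3, e2⟩ := mem_seg hz'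
  refine hε (t, s) ⟨⟨h0, h1⟩, ⟨h2, h3⟩⟩ ?_
  simp only
  rw [← e1, ← e2, sub_self]

section Offset

variable (p : ℕ → ℂ) (T : ℕ)

/-- the direction of the `i`-th segment -/
noncomputable def dir (i : ℕ) : ℂ := ‖p (i + 1) - p i‖⁻¹ • (p (i + 1) - p i)

/-- the direction in which the `i`-th vertex is moved -/
noncomputable def off (i : ℕ) : ℂ :=
  if 1 ≤ i ∧ i < T then Complex.I * (dir p (i - 1) + dir p i) else 0

/-- the moved vertices -/
noncomputable def mv (ε : ℝ) (i : ℕ) : ℂ := p i + ε • off p T i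

variable {p T}

theorem mv_zero (i : ℕ) : mv p T 0 i = p i := by simp [mv]

theorem mv_first (ε : ℝ) : mv p T ε 0 = p 0 := by simp [mv, off]

theorem mv_last (ε : ℝ) : mv p T ε T = p T := by simp [mv, off]

theorem continuous_mv (i : ℕ) : Continuous (fun ε => mv p T ε i) := by
  unfold mv; fun_prop

theorem seg_dir (i : ℕ) (h : p i ≠ p (i + 1)) :
    p (i + 1) - p i = ‖p (i + 1) - p i‖ • dir p i := by
  unfold dir
  rw [smul_smul, mul_inv_cancel₀, one_smul]
  exact norm_ne_zero_iff.mpr (sub_ne_zero.mpr h.symm)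

theorem len_pos (i : ℕ) (h : p i ≠ p (i + 1)) : 0 < ‖p (i + 1) - p i‖ :=
  norm_pos_iff.mpr (sub_ne_zero.mpr h.symm)

theorem dt_dir (i : ℕ) (h : p i ≠ p (i + 1)) : dt (dir p i) (dir p i) = 1 := by
  have h1 := len_pos i h
  unfold dir
  rw [smul_dt, dt_smul, dt_self_norm]
  field_simp

theorem turn_pos (hp : SimplePoly p T) {i : ℕ} (hi : i + 1 < T) :
    0 < 1 + dt (dir p i) (dir p (i + 1)) := by
  have n1 := hp.ne i (by omega)
  have n2 := hp.ne (i + 1) hi
  have u1 := dt_dir i n1
  have u2 := dt_dir (i + 1) n2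
  by_contra hcon
  push Not at hcon
  set d := dir p i with hd
  set d' := dir p (i + 1) with hd'
  have hz : d' = -d := by
    have e : dt (d + d') (d + d') ≤ 0 := by
      have : dt (d + d') (d + d') = dt d d + 2 * dt d d' + dt d' d' := by
        simp only [dt, Complex.add_re, Complex.add_im]; ring
      rw [this, u1, u2]; linarith
    by_contra hne
    have : d + d' ≠ 0 := by
      intro h0
      exact hne (by linear_combination h0)
    exact absurd (dt_self_pos this) (not_lt.mpr e)
  have s1 := seg_dir i n1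
  have s2 := seg_dir (i + 1) n2
  rw [← hd] at s1
  rw [← hd', hz] at s2
  have l1 := len_pos i n1
  have l2 := len_pos (i + 1) n2
  set L := ‖p (i + 1) - p i‖ with hL
  set L' := ‖p (i + 1 + 1) - p (i + 1)‖ with hL'
  set τ := min L L' with hτ
  have hτ0 : 0 < τ := lt_min l1 l2
  have m1 : p (i + 1) - τ • d ∈ segment ℝ (p i) (p (i + 1)) := by
    rw [segment_symm]
    have : p (i + 1) - τ • d = p (i + 1) + (τ / L) • (p i - p (i + 1)) := by
      have : p i - p (i + 1) = -(L • d) := by rw [← s1]; ring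
      rw [this, smul_neg, smul_smul, div_mul_cancel₀ _ l1.ne']; ring
    rw [this]
    exact seg_mem (by positivity) ((div_le_one l1).mpr (min_le_left _ _))
  have m2 : p (i + 1) - τ • d ∈ segment ℝ (p (i + 1)) (p (i + 2)) := by
    have : p (i + 1) - τ • d = p (i + 1) + (τ / L') • (p (i + 2) - p (i + 1)) := by
      rw [s2, smul_neg, smul_neg, smul_smul, div_mul_cancel₀ _ l2.ne']; ring
    rw [this]
    exact seg_mem (by positivity) ((div_le_one l2).mpr (min_le_right _ _))
  have := hp.cons i hi ⟨m1, m2⟩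
  rw [mem_singleton_iff] at this
  have h0 : τ • d = 0 := by linear_combination (-1 : ℂ) * this
  rcases smul_eq_zero.mp h0 with h | h
  · exact hτ0.ne' h
  · rw [h] at u1
    simp [dt] at u1

theorem cr_off_left (hp : SimplePoly p T) {i : ℕ} (hi : i < T) :
    0 ≤ cr (dir p i) (off p T i) ∧ (1 ≤ i → 0 < cr (dir p i) (off p T i)) := by
  by_cases h1 : 1 ≤ i
  · obtain ⟨j, rfl⟩ : ∃ j, i = j + 1 := ⟨i - 1, by omega⟩
    have ht := turn_pos hp hi
    have : cr (dir p (j + 1)) (off p T (j + 1)) = 1 + dt (dir p j) (dir p (j + 1)) := by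
      unfold off
      rw [if_pos ⟨h1, hi⟩, Nat.add_sub_cancel, cr_I]
      have u := dt_dir (j + 1) (hp.ne (j + 1) hi)
      simp only [dt, Complex.add_re, Complex.add_im] at u ⊢
      linarith
    rw [this]
    exact ⟨ht.le, fun _ => ht⟩
  · refine ⟨?_, fun h => absurd h h1⟩
    unfold off
    rw [if_neg (by omega), cr_zero]

theorem cr_off_right (hp : SimplePoly p T) {i : ℕ} (hi : i < T) :
    0 ≤ cr (dir p i) (off p T (i + 1)) ∧
      (i + 1 < T → 0 < cr (dir p i) (off p T (i + 1))) := by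
  by_cases h1 : i + 1 < T
  · have ht := turn_pos hp h1
    have : cr (dir p i) (off p T (i + 1)) = 1 + dt (dir p i) (dir p (i + 1)) := by
      unfold off
      rw [if_pos ⟨by omega, h1⟩, Nat.add_sub_cancel, cr_I]
      have u := dt_dir i (hp.ne i hi)
      simp only [dt, Complex.add_re, Complex.add_im] at u ⊢
      linarith
    rw [this]
    exact ⟨ht.le, fun _ => ht⟩
  · refine ⟨?_, fun h => absurd h h1⟩
    unfold off
    rw [if_neg (by omega), cr_zero]

theorem cr_dir_seg (hp : SimplePoly p T) {i : ℕ} (hi : i < T) :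
    cr (dir p i) (p (i + 1) - p i) = 0 := by
  rw [seg_dir i (hp.ne i hi), cr_smul, cr_self, mul_zero]

/-- the moved segment lies on the left of the segment -/
theorem left_side (hT : 2 ≤ T) (hp : SimplePoly p T) {i : ℕ} (hi : i < T) {ε : ℝ} (hε : 0 < ε)
    {z : ℂ} (hz : z ∈ segment ℝ (mv p T ε i) (mv p T ε (i + 1))) :
    0 ≤ cr (dir p i) (z - p i) ∧
      (cr (dir p i) (z - p i) = 0 → (z = p 0 ∧ i = 0) ∨ (z = p T ∧ i + 1 = T)) := by
  obtain ⟨t, t0, t1, hz⟩ := mem_seg hz
  have hA := cr_off_left hp hi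
  have hB := cr_off_right hp hi
  set A := cr (dir p i) (off p T i) with hAd
  set B := cr (dir p i) (off p T (i + 1)) with hBd
  have e : cr (dir p i) (z - p i) = (1 - t) * (ε * A) + t * (ε * B) := by
    have : z - p i = (1 - t) • (ε • off p T i) + t • (ε • off p T (i + 1)) +
        t • (p (i + 1) - p i) := by
      rw [hz]
      unfold mv
      simp only [Complex.real_smul]
      push_cast
      ring
    rw [this, cr_add, cr_add, cr_smul, cr_smul, cr_smul, cr_smul, cr_smul, cr_dir_seg hp hi,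
      mul_zero, add_zero]
  have h1 : 0 ≤ (1 - t) * (ε * A) := by
    have := hA.1
    have : 0 ≤ 1 - t := by linarith
    positivity
  have h2 : 0 ≤ t * (ε * B) := by
    have := hB.1
    positivity
  refine ⟨by rw [e]; linarith, fun h0 => ?_⟩
  rw [e] at h0
  have h3 : (1 - t) * (ε * A) = 0 := by linarith
  have h4 : t * (ε * B) = 0 := by linarith
  by_cases hi0 : i = 0
  · left
    subst hi0
    have hBp : 0 < B := hB.2 (by omega)
    have ht : t = 0 := by
      rcases mul_eq_zero.mp h4 with h | h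
      · exact h
      · exact absurd h (by positivity)
    refine ⟨?_, rfl⟩
    rw [hz, ht, zero_smul, add_zero, mv_first]
  · right
    have hAp : 0 < A := hA.2 (by omega)
    have ht : t = 1 := by
      rcases mul_eq_zero.mp h3 with h | h
      · linarith
      · exact absurd h (by positivity)
    rw [ht, one_mul] at h4
    have hB0 : ¬ (0 < B) := by
      intro h
      exact absurd h4 (by positivity)
    have hiT : i + 1 = T := by
      by_contra hne
      exact hB0 (hB.2 (by omega))
    refine ⟨?_, hiT⟩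
    rw [hz, ht, one_smul, hiT, mv_last]
    ring

theorem prev_disj (hT : 2 ≤ T) (hp : SimplePoly p T) {i : ℕ} (hi : i + 1 < T) :
    ∀ᶠ ε in 𝓝[>] (0 : ℝ), ∀ z ∈ segment ℝ (mv p T ε (i + 1)) (mv p T ε (i + 2)),
      z ∈ segment ℝ (p i) (p (i + 1)) → z = p 0 ∨ z = p T := by
  have n1 := hp.ne i (by omega)
  have n2 := hp.ne (i + 1) hi
  have l1 := len_pos i n1
  have l2 := len_pos (i + 1) n2
  by_cases hκ : cr (dir p i) (dir p (i + 1)) ≤ 0
  · filter_upwards [self_mem_nhdsWithin] with ε hε z hz hz'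
    obtain ⟨h1, h2⟩ := left_side hT hp hi hε hz
    rw [segment_symm] at hz'
    obtain ⟨t, t0, t1, e⟩ := mem_seg hz'
    have e1 : z - p (i + 1) = (-(t * ‖p (i + 1) - p i‖)) • dir p i := by
      rw [e, neg_smul, ← smul_smul, ← seg_dir i n1, ← smul_neg]; ring
    have e2 : cr (dir p (i + 1)) (z - p (i + 1)) =
        (t * ‖p (i + 1) - p i‖) * cr (dir p i) (dir p (i + 1)) := by
      rw [e1, cr_smul, cr_anti (dir p (i + 1))]; ring
    have h3 : 0 ≤ t * ‖p (i + 1) - p i‖ := by positivity
    have h4 : cr (dir p (i + 1)) (z - p (i + 1)) = 0 := by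
      refine le_antisymm ?_ h1
      rw [e2]
      exact mul_nonpos_of_nonneg_of_nonpos h3 hκ
    rcases h2 h4 with h | h
    · exact Or.inl h.1
    · exact Or.inr h.1
  · push Not at hκ
    have hev : ∀ᶠ ε in 𝓝[>] (0 : ℝ), 0 < cr (dir p i) (mv p T ε (i + 2) - p (i + 1)) := by
      apply mem_nhdsWithin_of_mem_nhds
      have hc : Continuous (fun ε => cr (dir p i) (mv p T ε (i + 2) - p (i + 1))) :=
        continuous_cr continuous_const ((continuous_mv _).sub continuous_const)
      refine hc.continuousAt.eventually (lt_mem_nhds ?_)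
      simp only [mv_zero]
      have := seg_dir (i + 1) n2
      rw [show p (i + 2) - p (i + 1) = _ from this, cr_smul]
      positivity
    filter_upwards [hev, self_mem_nhdsWithin] with ε h1 hε z hz hz'
    exfalso
    have h2 : 0 < cr (dir p i) (mv p T ε (i + 1) - p (i + 1)) := by
      have : mv p T ε (i + 1) - p (i + 1) = ε • off p T (i + 1) := by unfold mv; ring
      rw [this, cr_smul]
      exact mul_pos hε ((cr_off_right hp (by omega)).2 hi)
    obtain ⟨t, t0, t1, e⟩ := mem_seg hz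
    have h3 : cr (dir p i) (z - p (i + 1)) = (1 - t) * cr (dir p i) (mv p T ε (i + 1) - p (i + 1))
        + t * cr (dir p i) (mv p T ε (i + 2) - p (i + 1)) := by
      rw [← cr_smul, ← cr_smul, ← cr_add]
      congr 1
      rw [e]
      simp only [Complex.real_smul]
      push_cast
      ring
    obtain ⟨s, s0, s1, e'⟩ := mem_seg hz'
    have h4 : cr (dir p i) (z - p (i + 1)) = 0 := by
      have : z - p (i + 1) = (s - 1) • (p (i + 1) - p i) := by
        rw [e']
        simp only [Complex.real_smul]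
        push_cast
        ring
      rw [this, cr_smul, cr_dir_seg hp (by omega), mul_zero]
    rw [h4] at h3
    have h5 : 0 ≤ 1 - t := by linarith
    rcases eq_or_lt_of_le t0 with ht | ht
    · rw [← ht] at h3
      linarith
    · nlinarith [mul_pos ht h1, mul_nonneg h5 h2.le]

theorem next_disj (hT : 2 ≤ T) (hp : SimplePoly p T) {i : ℕ} (hi : i + 1 < T) :
    ∀ᶠ ε in 𝓝[>] (0 : ℝ), ∀ z ∈ segment ℝ (mv p T ε i) (mv p T ε (i + 1)),
      z ∈ segment ℝ (p (i + 1)) (p (i + 2)) → z = p 0 ∨ z = p T := by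
  have n1 := hp.ne i (by omega)
  have n2 := hp.ne (i + 1) hi
  have l1 := len_pos i n1
  have l2 := len_pos (i + 1) n2
  by_cases hκ : cr (dir p i) (dir p (i + 1)) ≤ 0
  · filter_upwards [self_mem_nhdsWithin] with ε hε z hz hz'
    obtain ⟨h1, h2⟩ := left_side hT hp (by omega : i < T) hε hz
    obtain ⟨t, t0, t1, e⟩ := mem_seg hz'
    have e1 : z - p i = (t * ‖p (i + 1 + 1) - p (i + 1)‖) • dir p (i + 1) +
        (p (i + 1) - p i) := by
      rw [e, ← smul_smul, ← seg_dir (i + 1) n2]; ring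
    have e2 : cr (dir p i) (z - p i) =
        (t * ‖p (i + 1 + 1) - p (i + 1)‖) * cr (dir p i) (dir p (i + 1)) := by
      rw [e1, cr_add, cr_smul, cr_dir_seg hp (by omega), add_zero]
    have h3 : 0 ≤ t * ‖p (i + 1 + 1) - p (i + 1)‖ := by positivity
    have h4 : cr (dir p i) (z - p i) = 0 := by
      refine le_antisymm ?_ h1
      rw [e2]
      exact mul_nonpos_of_nonneg_of_nonpos h3 hκ
    rcases h2 h4 with h | h
    · exact Or.inl h.1
    · exact Or.inr h.1
  · push Not at hκ
    have hev : ∀ᶠ ε in 𝓝[>] (0 : ℝ), 0 < cr (dir p (i + 1)) (mv p T ε i - p (i + 1)) := by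
      apply mem_nhdsWithin_of_mem_nhds
      have hc : Continuous (fun ε => cr (dir p (i + 1)) (mv p T ε i - p (i + 1))) :=
        continuous_cr continuous_const ((continuous_mv _).sub continuous_const)
      refine hc.continuousAt.eventually (lt_mem_nhds ?_)
      simp only [mv_zero]
      have : p i - p (i + 1) = -(p (i + 1) - p i) := by ring
      rw [this, cr_neg, seg_dir i n1, cr_smul, cr_anti (dir p (i + 1))]
      have := mul_pos l1 hκ
      linarith
    filter_upwards [hev, self_mem_nhdsWithin] with ε h1 hε z hz hz'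
    exfalso
    have h2 : 0 < cr (dir p (i + 1)) (mv p T ε (i + 1) - p (i + 1)) := by
      have : mv p T ε (i + 1) - p (i + 1) = ε • off p T (i + 1) := by unfold mv; ring
      rw [this, cr_smul]
      exact mul_pos hε ((cr_off_left hp hi).2 (by omega))
    obtain ⟨t, t0, t1, e⟩ := mem_seg hz
    have h3 : cr (dir p (i + 1)) (z - p (i + 1)) =
        (1 - t) * cr (dir p (i + 1)) (mv p T ε i - p (i + 1))
        + t * cr (dir p (i + 1)) (mv p T ε (i + 1) - p (i + 1)) := by
      rw [← cr_smul, ← cr_smul, ← cr_add]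
      congr 1
      rw [e]
      simp only [Complex.real_smul]
      push_cast
      ring
    obtain ⟨s, s0, s1, e'⟩ := mem_seg hz'
    have h4 : cr (dir p (i + 1)) (z - p (i + 1)) = 0 := by
      have : z - p (i + 1) = s • (p (i + 1 + 1) - p (i + 1)) := by
        rw [e']; ring
      rw [this, cr_smul, cr_dir_seg hp hi, mul_zero]
    rw [h4] at h3
    have h5 : 0 ≤ 1 - t := by linarith
    rcases eq_or_lt_of_le t0 with ht | ht
    · rw [← ht] at h3
      linarith
    · nlinarith [mul_pos ht h2, mul_nonneg h5 h1.le]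

/-- the moved arc does not meet the arc -/
theorem self_disj (hT : 2 ≤ T) (hp : SimplePoly p T) {i j : ℕ} (hi : i < T) (hj : j < T) :
    ∀ᶠ ε in 𝓝[>] (0 : ℝ), ∀ z ∈ segment ℝ (mv p T ε i) (mv p T ε (i + 1)),
      z ∈ segment ℝ (p j) (p (j + 1)) → z = p 0 ∨ z = p T := by
  have hfar : Disjoint (segment ℝ (p i) (p (i + 1))) (segment ℝ (p j) (p (j + 1))) →
      ∀ᶠ ε in 𝓝[>] (0 : ℝ), ∀ z ∈ segment ℝ (mv p T ε i) (mv p T ε (i + 1)),
      z ∈ segment ℝ (p j) (p (j + 1)) → z = p 0 ∨ z = p T := by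
    intro h
    have := moving_disjoint (continuous_mv (p := p) (T := T) i) (continuous_mv (p := p) (T := T) (i + 1))
      (isClosed_seg (p j) (p (j + 1))) (by simpa only [mv_zero] using h)
    filter_upwards [mem_nhdsWithin_of_mem_nhds this] with ε hε z hz hz'
    exact absurd hz' (Set.disjoint_left.mp hε hz)
  rcases Nat.lt_or_ge (i + 1) j with h | h
  · exact hfar (hp.far i j (by omega) hj)
  rcases Nat.lt_or_ge (j + 1) i with h' | h'
  · exact hfar (hp.far j i (by omega) hi).symm
  rcases Nat.lt_trichotomy i j with h1 | h1 | h1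
  · obtain rfl : j = i + 1 := by omega
    exact next_disj hT hp hj
  · subst h1
    filter_upwards [self_mem_nhdsWithin] with ε hε z hz hz'
    obtain ⟨h1, h2⟩ := left_side hT hp hi hε hz
    obtain ⟨s, s0, s1, e'⟩ := mem_seg hz'
    have h4 : cr (dir p i) (z - p i) = 0 := by
      have : z - p i = s • (p (i + 1) - p i) := by rw [e']; ring
      rw [this, cr_smul, cr_dir_seg hp hi, mul_zero]
    rcases h2 h4 with h | h
    · exact Or.inl h.1
    · exact Or.inr h.1
  · obtain rfl : i = j + 1 := by omega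
    exact prev_disj hT hp hi

/-- the moved arc meets a further segment in few points, near common vertices only -/
theorem other_inter (hT : 2 ≤ T) (hp : SimplePoly p T) {i : ℕ} (hi : i < T) {x y : ℂ}
    (hxy : segment ℝ x y ∩ segment ℝ (p i) (p (i + 1)) ⊆ {x, y} ∩ {p i, p (i + 1)}) :
    ∀ᶠ ε in 𝓝[>] (0 : ℝ),
      (segment ℝ (mv p T ε i) (mv p T ε (i + 1)) ∩ segment ℝ x y).Subsingleton ∧
      ∀ z ∈ segment ℝ (mv p T ε i) (mv p T ε (i + 1)) ∩ segment ℝ x y, z ≠ p 0 → z ≠ p T →
        ∃ j, (j = i ∨ j = i + 1) ∧ 0 < j ∧ j < T ∧ (p j = x ∨ p j = y) := by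
  -- the case of a common vertex
  have key : ∀ x y : ℂ, (x = p i ∨ x = p (i + 1)) → ∀ᶠ ε in 𝓝[>] (0 : ℝ),
      (segment ℝ (mv p T ε i) (mv p T ε (i + 1)) ∩ segment ℝ x y).Subsingleton ∧
      ∀ z ∈ segment ℝ (mv p T ε i) (mv p T ε (i + 1)) ∩ segment ℝ x y, z ≠ p 0 → z ≠ p T →
        ∃ j, (j = i ∨ j = i + 1) ∧ 0 < j ∧ j < T ∧ (p j = x ∨ p j = y) := by
    intro x y hx
    obtain ⟨j, hj, hjx⟩ : ∃ j, (j = i ∨ j = i + 1) ∧ p j = x := by
      rcases hx with h | h
      · exact ⟨i, Or.inl rfl, h.symm⟩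
      · exact ⟨i + 1, Or.inr rfl, h.symm⟩
    by_cases hc : cr (p (i + 1) - p i) (y - x) = 0
    · filter_upwards [self_mem_nhdsWithin] with ε hε
      have hall : ∀ z ∈ segment ℝ (mv p T ε i) (mv p T ε (i + 1)) ∩ segment ℝ x y,
          (z = p 0 ∧ i = 0) ∨ (z = p T ∧ i + 1 = T) := by
        rintro z ⟨hz, hz'⟩
        refine (left_side hT hp hi hε hz).2 ?_
        obtain ⟨s, -, -, e⟩ := mem_seg hz'
        have e1 : z - p i = (x - p i) + s • (y - x) := by rw [e]; ring
        have e2 : cr (dir p i) (x - p i) = 0 := by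
          rcases hx with h | h
          · rw [h, sub_self, cr_zero]
          · rw [h, cr_dir_seg hp hi]
        have e3 : cr (dir p i) (y - x) = 0 := by
          unfold dir
          rw [smul_cr, hc, mul_zero]
        rw [e1, cr_add, e2, cr_smul, e3, mul_zero, add_zero]
      refine ⟨?_, ?_⟩
      · intro z hz w hw
        rcases hall z hz with ⟨h1, h2⟩ | ⟨h1, h2⟩ <;> rcases hall w hw with ⟨h3, h4⟩ | ⟨h3, h4⟩
        · rw [h1, h3]
        · omega
        · omega
        · rw [h1, h3]
      · intro z hz h0 h1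
        rcases hall z hz with h | h
        · exact absurd h.1 h0
        · exact absurd h.1 h1
    · have hev : ∀ᶠ ε in 𝓝[>] (0 : ℝ), cr (mv p T ε (i + 1) - mv p T ε i) (y - x) ≠ 0 := by
        apply mem_nhdsWithin_of_mem_nhds
        have hcont : Continuous (fun ε => cr (mv p T ε (i + 1) - mv p T ε i) (y - x)) :=
          continuous_cr ((continuous_mv _).sub (continuous_mv _)) continuous_const
        refine hcont.continuousAt.eventually_ne ?_
        simp only [mv_zero]
        exact hc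
      filter_upwards [hev] with ε hε
      have hsub := inter_subsingleton hε
      refine ⟨hsub, ?_⟩
      intro z hz h0 h1
      refine ⟨j, hj, ?_, ?_, Or.inl hjx⟩
      · by_contra hj0
        have hj0 : j = 0 := by omega
        have hi0 : i = 0 := by omega
        subst hi0
        rw [hj0] at hjx
        refine h0 (hsub hz ⟨?_, ?_⟩)
        · rw [mv_first]; exact left_mem_segment _ _ _
        · rw [hjx]; exact left_mem_segment _ _ _
      · by_contra hjT
        have hjT : j = T := by omega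
        have hiT : i + 1 = T := by omega
        rw [hjT] at hjx
        refine h1 (hsub hz ⟨?_, ?_⟩)
        · rw [hiT, mv_last]; exact right_mem_segment _ _ _
        · rw [hjx]; exact left_mem_segment _ _ _
  by_cases hdis : Disjoint (segment ℝ (p i) (p (i + 1))) (segment ℝ x y)
  · have := moving_disjoint (continuous_mv (p := p) (T := T) i) (continuous_mv (p := p) (T := T) (i + 1))
      (isClosed_seg x y) (by simpa only [mv_zero] using hdis)
    filter_upwards [mem_nhdsWithin_of_mem_nhds this] with ε hε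
    refine ⟨?_, ?_⟩
    · rintro z ⟨hz, hz'⟩
      exact absurd hz' (Set.disjoint_left.mp hε hz)
    · rintro z ⟨hz, hz'⟩
      exact absurd hz' (Set.disjoint_left.mp hε hz)
  · obtain ⟨c, hc1, hc2⟩ := Set.not_disjoint_iff.mp hdis
    obtain ⟨hc3, hc4⟩ := hxy ⟨hc2, hc1⟩
    rcases hc3 with hc3 | hc3
    · refine key x y ?_
      rw [← hc3]
      exact hc4
    · rw [mem_singleton_iff] at hc3
      have := key y x (by rw [← hc3]; exact hc4)
      filter_upwards [this] with ε hε
      rw [segment_symm ℝ x y]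
      refine ⟨hε.1, fun z hz h0 h1 => ?_⟩
      obtain ⟨j, h2, h3, h4, h5⟩ := hε.2 z hz h0 h1
      exact ⟨j, h2, h3, h4, h5.symm⟩

/-- the moved polygonal line is simple -/
theorem mv_simple (hp : SimplePoly p T) :
    ∀ᶠ ε in 𝓝[>] (0 : ℝ), SimplePoly (mv p T ε) T := by
  have h1 : ∀ᶠ ε in 𝓝[>] (0 : ℝ), ∀ i < T, mv p T ε i ≠ mv p T ε (i + 1) := by
    have := (Set.finite_lt_nat T).eventually_all (l := 𝓝[>] (0 : ℝ))
      (p := fun i ε => mv p T ε i ≠ mv p T ε (i + 1))
    refine this.mpr ?_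
    intro i hi
    apply mem_nhdsWithin_of_mem_nhds
    have hc : Continuous (fun ε => mv p T ε (i + 1) - mv p T ε i) :=
      (continuous_mv _).sub (continuous_mv _)
    have : ∀ᶠ ε in 𝓝 (0 : ℝ), mv p T ε (i + 1) - mv p T ε i ≠ 0 := by
      refine hc.continuousAt.eventually_ne ?_
      simp only [mv_zero]
      exact sub_ne_zero.mpr (hp.ne i hi).symm
    filter_upwards [this] with ε hε h
    exact hε (by rw [h, sub_self])
  have h2 : ∀ᶠ ε in 𝓝[>] (0 : ℝ), ∀ i ∈ {i | i + 1 < T},
      segment ℝ (mv p T ε i) (mv p T ε (i + 1)) ∩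
        segment ℝ (mv p T ε (i + 1)) (mv p T ε (i + 2)) ⊆ {mv p T ε (i + 1)} := by
    have hfin : ({i | i + 1 < T} : Set ℕ).Finite := (Set.finite_lt_nat T).subset (fun i hi => by
      simp only [mem_setOf_eq] at hi ⊢; omega)
    refine hfin.eventually_all.mpr ?_
    intro i hi
    have hi : i + 1 < T := hi
    have n1 := hp.ne i (by omega)
    have n2 := hp.ne (i + 1) hi
    have l1 := len_pos i n1
    have l2 := len_pos (i + 1) n2
    apply mem_nhdsWithin_of_mem_nhds
    by_cases hκ : cr (dir p i) (dir p (i + 1)) = 0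
    · -- same direction
      have hd : 0 < dt (dir p i) (dir p (i + 1)) := by
        have ht := turn_pos hp hi
        have u1 := dt_dir i n1
        have u2 := dt_dir (i + 1) n2
        have hid : cr (dir p i) (dir p (i + 1)) ^ 2 + dt (dir p i) (dir p (i + 1)) ^ 2 =
            dt (dir p i) (dir p i) * dt (dir p (i + 1)) (dir p (i + 1)) := by
          simp only [cr, dt]; ring
        rw [hκ, u1, u2] at hid
        have : (dt (dir p i) (dir p (i + 1)) - 1) * (dt (dir p i) (dir p (i + 1)) + 1) = 0 := by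
          linarith
        rcases mul_eq_zero.mp this with h | h
        · linarith
        · linarith
      have hev : ∀ᶠ ε in 𝓝 (0 : ℝ),
          0 < dt (mv p T ε (i + 1) - mv p T ε i) (mv p T ε (i + 2) - mv p T ε (i + 1)) := by
        have hc : Continuous (fun ε =>
            dt (mv p T ε (i + 1) - mv p T ε i) (mv p T ε (i + 2) - mv p T ε (i + 1))) :=
          continuous_dt ((continuous_mv _).sub (continuous_mv _))
            ((continuous_mv _).sub (continuous_mv _))
        refine hc.continuousAt.eventually (lt_mem_nhds ?_)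
        simp only [mv_zero]
        rw [seg_dir i n1, show p (i + 2) - p (i + 1) = _ from seg_dir (i + 1) n2, smul_dt, dt_smul]
        positivity
      filter_upwards [hev] with ε hε
      exact inter_corner (Or.inr hε)
    · have hev : ∀ᶠ ε in 𝓝 (0 : ℝ),
          cr (mv p T ε (i + 1) - mv p T ε i) (mv p T ε (i + 2) - mv p T ε (i + 1)) ≠ 0 := by
        have hc : Continuous (fun ε =>
            cr (mv p T ε (i + 1) - mv p T ε i) (mv p T ε (i + 2) - mv p T ε (i + 1))) :=
          continuous_cr ((continuous_mv _).sub (continuous_mv _))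
            ((continuous_mv _).sub (continuous_mv _))
        refine hc.continuousAt.eventually_ne ?_
        simp only [mv_zero]
        rw [seg_dir i n1, show p (i + 2) - p (i + 1) = _ from seg_dir (i + 1) n2, smul_cr, cr_smul]
        exact mul_ne_zero l1.ne' (mul_ne_zero l2.ne' hκ)
      filter_upwards [hev] with ε hε
      exact inter_corner (Or.inl hε)
  have h3 : ∀ᶠ ε in 𝓝[>] (0 : ℝ), ∀ i ∈ {i | i < T}, ∀ j ∈ {j | j < T}, i + 2 ≤ j →
      Disjoint (segment ℝ (mv p T ε i) (mv p T ε (i + 1)))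
        (segment ℝ (mv p T ε j) (mv p T ε (j + 1))) := by
    refine (Set.finite_lt_nat T).eventually_all.mpr fun i hi => ?_
    refine (Set.finite_lt_nat T).eventually_all.mpr fun j hj => ?_
    by_cases hij : i + 2 ≤ j
    · have := moving_disjoint2 (continuous_mv (p := p) (T := T) i) (continuous_mv (p := p) (T := T) (i + 1))
        (continuous_mv (p := p) (T := T) j) (continuous_mv (p := p) (T := T) (j + 1)) (by simpa only [mv_zero] using hp.far i j hij hj)
      filter_upwards [mem_nhdsWithin_of_mem_nhds this] with ε hε _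
      exact hε
    · exact Filter.Eventually.of_forall fun ε h => absurd h hij
  filter_upwards [h1, h2, h3] with ε a1 a2 a3
  exact ⟨a1, fun i hi => a2 i hi, fun i j hij hj =>
    a3 i (show i < T by omega) j (show j < T from hj) hij⟩

/-- There is a simple polygonal arc next to `p` which meets `p` at the ends only, and which meets
every segment of the finite family `S` at most once per segment, near common vertices only. -/
theorem offset (hT : 2 ≤ T) (hp : SimplePoly p T) (S : Set (ℂ × ℂ)) (hSfin : S.Finite)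
    (hS : ∀ s ∈ S, ∀ i < T, segment ℝ s.1 s.2 ∩ segment ℝ (p i) (p (i + 1)) ⊆
      {s.1, s.2} ∩ {p i, p (i + 1)}) (N : Set ℂ) (hN : N.Finite) :
    ∃ q : ℕ → ℂ, q 0 = p 0 ∧ q T = p T ∧ SimplePoly q T ∧
      (∀ i < T, ∀ j < T, ∀ z ∈ segment ℝ (q i) (q (i + 1)), z ∈ segment ℝ (p j) (p (j + 1)) →
        z = p 0 ∨ z = p T) ∧
      (∀ z ∈ N, ∀ i < T, z ∈ segment ℝ (q i) (q (i + 1)) → z = p 0 ∨ z = p T) ∧
      (∀ s ∈ S, ∀ i < T, (segment ℝ (q i) (q (i + 1)) ∩ segment ℝ s.1 s.2).Subsingleton ∧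
        ∀ z ∈ segment ℝ (q i) (q (i + 1)) ∩ segment ℝ s.1 s.2, z ≠ p 0 → z ≠ p T →
          ∃ j, (j = i ∨ j = i + 1) ∧ 0 < j ∧ j < T ∧ (p j = s.1 ∨ p j = s.2)) := by
  have h1 := mv_simple hp
  have h2 : ∀ᶠ ε in 𝓝[>] (0 : ℝ), ∀ i ∈ {i | i < T}, ∀ j ∈ {j | j < T},
      ∀ z ∈ segment ℝ (mv p T ε i) (mv p T ε (i + 1)), z ∈ segment ℝ (p j) (p (j + 1)) →
        z = p 0 ∨ z = p T := by
    refine (Set.finite_lt_nat T).eventually_all.mpr fun i hi => ?_
    refine (Set.finite_lt_nat T).eventually_all.mpr fun j hj => ?_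
    exact self_disj hT hp hi hj
  have h3 : ∀ᶠ ε in 𝓝[>] (0 : ℝ), ∀ z ∈ N, ∀ i ∈ {i | i < T},
      z ∈ segment ℝ (mv p T ε i) (mv p T ε (i + 1)) → z = p 0 ∨ z = p T := by
    refine hN.eventually_all.mpr fun z hz => ?_
    refine (Set.finite_lt_nat T).eventually_all.mpr fun i hi => ?_
    by_cases hmem : ∃ j < T, z ∈ segment ℝ (p j) (p (j + 1))
    · obtain ⟨j, hj, hzj⟩ := hmem
      filter_upwards [self_disj hT hp hi hj] with ε hε hz'
      exact hε z hz' hzj
    · push Not at hmem
      have := moving_disjoint (continuous_mv (p := p) (T := T) i) (continuous_mv (p := p) (T := T) (i + 1))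
        (isClosed_singleton (x := z)) (by
          simp only [mv_zero]
          rw [Set.disjoint_singleton_right]
          exact hmem i hi)
      filter_upwards [mem_nhdsWithin_of_mem_nhds this] with ε hε hz'
      exact absurd rfl (Set.disjoint_left.mp hε hz')
  have h4 : ∀ᶠ ε in 𝓝[>] (0 : ℝ), ∀ s ∈ S, ∀ i ∈ {i | i < T},
      (segment ℝ (mv p T ε i) (mv p T ε (i + 1)) ∩ segment ℝ s.1 s.2).Subsingleton ∧
      ∀ z ∈ segment ℝ (mv p T ε i) (mv p T ε (i + 1)) ∩ segment ℝ s.1 s.2, z ≠ p 0 → z ≠ p T →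
        ∃ j, (j = i ∨ j = i + 1) ∧ 0 < j ∧ j < T ∧ (p j = s.1 ∨ p j = s.2) := by
    refine hSfin.eventually_all.mpr fun s hs => ?_
    refine (Set.finite_lt_nat T).eventually_all.mpr fun i hi => ?_
    exact other_inter hT hp hi (hS s hs i hi)
  obtain ⟨ε, a1, a2, a3, a4⟩ := (h1.and (h2.and (h3.and h4))).exists
  exact ⟨mv p T ε, mv_first ε, mv_last ε, a1, fun i hi j hj => a2 i hi j hj,
    fun z hz i hi => a3 z hz i hi, fun s hs i hi => a4 s hs i hi⟩

end Offset

end Pool.Agent.H354_OP
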