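import Pool.Agent.H354_OP.Volume

/-!
# Graphs that are sparse in the topological sense have cycles of logarithmic length
-/

set_option autoImplicit false

namespace Pool.Agent.H354_OP

open Finset
open scoped Classical

set_option linter.unusedSectionVars false

variable {V : Type} [Fintype V]

/-- there is a cycle of length at most `ℓ + 1` -/
def ShortC (ℓ : ℕ) (H : SimpleGraph V) : Prop :=
  ∃ u v, H.Adj u v ∧ ∃ w : H.Walk u v, w.IsPath ∧ 2 ≤ w.length ∧ w.length ≤ ℓ

/-- any two vertices are joined by a short walk inside the set -/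
def ConnR (H : SimpleGraph V) (Z : Finset V) (ρ : ℕ) : Prop :=
  ∀ x ∈ Z, ∀ y ∈ Z, ∃ w : H.Walk x y, w.length ≤ ρ ∧ ∀ u ∈ w.support, u ∈ Z

theorem ConnR.path {H : SimpleGraph V} {Z : Finset V} {ρ : ℕ} (h : ConnR H Z ρ) {x y : V}
    (hx : x ∈ Z) (hy : y ∈ Z) : ∃ w : H.Walk x y, w.IsPath ∧ (∀ u ∈ w.support, u ∈ Z) ∧
      w.length ≤ ρ := by
  obtain ⟨w, hl, hw⟩ := h x hx y hy
  exact ⟨w.bypass, w.bypass_isPath, fun u hu => hw u (w.support_bypass_subset_support hu),
    w.length_bypass_le_length.trans hl⟩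

theorem connR_of_root {H : SimpleGraph V} {Z : Finset V} {x : V} {r : ℕ}
    (h : ∀ v ∈ Z, ∃ w : H.Walk x v, w.length ≤ r ∧ ∀ u ∈ w.support, u ∈ Z) : ConnR H Z (2 * r) := by
  intro a ha b hb
  obtain ⟨w, hl, hw⟩ := h a ha
  obtain ⟨w', hl', hw'⟩ := h b hb
  refine ⟨w.reverse.append w', ?_, ?_⟩
  · rw [SimpleGraph.Walk.length_append, SimpleGraph.Walk.length_reverse]
    omega
  · intro u hu
    rw [SimpleGraph.Walk.mem_support_append_iff, SimpleGraph.Walk.support_reverse,
      List.mem_reverse] at hu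
    rcases hu with hu | hu
    · exact hw u hu
    · exact hw' u hu

theorem two_edgesR {H : SimpleGraph V} {A B : Finset V} {a b : ℕ} (hA : ConnR H A a)
    (hB : ConnR H B b) (hd : ∀ x ∈ A, x ∉ B) {z z' y y' : V} (hz : z ∈ A) (hz' : z' ∈ A)
    (hy : y ∈ B) (hy' : y' ∈ B) (hzy : H.Adj z y) (hzy' : H.Adj z' y') (hne : z ≠ z' ∨ y ≠ y') :
    ShortC (a + b + 1) H := by
  obtain ⟨w1, p1, s1, l1⟩ := hA.path hz hz'
  obtain ⟨w2, p2, s2, l2⟩ := hB.path hy' hy
  refine ⟨z, y, hzy, w1.append (SimpleGraph.Walk.cons hzy' w2), ?_, ?_, ?_⟩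
  · rw [SimpleGraph.Walk.isPath_def, SimpleGraph.Walk.support_append,
      SimpleGraph.Walk.support_cons, List.tail_cons, List.nodup_append]
    refine ⟨p1.support_nodup, p2.support_nodup, ?_⟩
    intro a ha b hb hab
    subst hab
    exact hd a (s1 a ha) (s2 a hb)
  · rw [SimpleGraph.Walk.length_append, SimpleGraph.Walk.length_cons]
    rcases hne with h | h
    · have : 0 < w1.length := by
        rcases Nat.eq_zero_or_pos w1.length with h0 | h0
        · exact absurd (SimpleGraph.Walk.eq_of_length_eq_zero h0) h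
        · exact h0
      omega
    · have : 0 < w2.length := by
        rcases Nat.eq_zero_or_pos w2.length with h0 | h0
        · exact absurd (SimpleGraph.Walk.eq_of_length_eq_zero h0).symm h
        · exact h0
      omega
  · rw [SimpleGraph.Walk.length_append, SimpleGraph.Walk.length_cons]
    omega

theorem ShortC.mono {H : SimpleGraph V} {a b : ℕ} (h : ShortC a H) (hab : a ≤ b) :
    ShortC b H := by
  obtain ⟨u, v, huv, w, h1, h2, h3⟩ := h
  exact ⟨u, v, huv, w, h1, h2, h3.trans hab⟩

theorem attachR {H : SimpleGraph V} {Z : Finset V} {ρ : ℕ} (hL : ¬ ShortC (ρ + 1) H)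
    (hZ : ConnR H Z ρ) {y z z' : V} (hy : y ∉ Z) (hz : z ∈ Z) (hz' : z' ∈ Z)
    (hzy : H.Adj z y) (hzy' : H.Adj z' y) : z = z' := by
  by_contra hne
  refine hL ?_
  have := two_edgesR (B := {y}) (b := 0) hZ (by
      intro a ha b hb
      rw [mem_singleton] at ha hb
      subst ha
      subst hb
      exact ⟨SimpleGraph.Walk.nil, by simp⟩) (by
      intro x hx hxy
      rw [mem_singleton] at hxy
      exact hy (hxy ▸ hx)) hz hz' (mem_singleton_self y) (mem_singleton_self y) hzy hzy'
      (Or.inl hne)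
  exact this.mono (by omega)

/-- a set of small radius induces a tree when there are no short cycles -/
theorem tree_sumR {H : SimpleGraph V} {Z : Finset V} {x : V} {r : ℕ} (hL : ¬ ShortC (2 * r) H)
    (hxZ : x ∈ Z)
    (h : ∀ v ∈ Z, ∃ w : H.Walk x v, w.length ≤ r ∧ ∀ u ∈ w.support, u ∈ Z) :
    ∑ z ∈ Z, ((nb H z).filter (fun y => y ∈ Z)).card + 2 ≤ 2 * Z.card := by
  have hmin : ∀ z, ∃ n, z ∈ Z → (∃ w : H.Walk x z, w.length = n ∧ ∀ u ∈ w.support, u ∈ Z) ∧
      ∀ w : H.Walk x z, (∀ u ∈ w.support, u ∈ Z) → n ≤ w.length := by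
    intro z
    by_cases hz : z ∈ Z
    · have hex : ∃ n, ∃ w : H.Walk x z, w.length = n ∧ ∀ u ∈ w.support, u ∈ Z := by
        obtain ⟨w, -, hw⟩ := h z hz
        exact ⟨_, w, rfl, hw⟩
      refine ⟨Nat.find hex, fun _ => ⟨Nat.find_spec hex, ?_⟩⟩
      intro w hw
      exact Nat.find_min' hex ⟨w, rfl, hw⟩
    · exact ⟨0, fun h' => absurd h' hz⟩
  choose d hd using hmin
  have hdr : ∀ z ∈ Z, d z ≤ r := by
    intro z hz
    obtain ⟨w, hl, hw⟩ := h z hz
    exact ((hd z hz).2 w hw).trans hl
  have hpar : ∀ z, ∃ b, z ∈ Z → z ≠ x → b ∈ Z ∧ H.Adj z b ∧ d b < d z := by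
    intro z
    by_cases hz : z ∈ Z
    · obtain ⟨w, hl, hw⟩ := (hd z hz).1
      have key : ∀ (c : V) (p : H.Walk z c), c = x → p.length = d z → (∀ u ∈ p.support, u ∈ Z) →
          z ≠ x → ∃ b, b ∈ Z ∧ H.Adj z b ∧ d b < d z := by
        intro c p hc hpl hps hzx
        cases p with
        | nil => exact absurd hc hzx
        | @cons _ b _ hadj p =>
          subst hc
          have hb : b ∈ Z := hps b (by simp)
          refine ⟨b, hb, hadj, ?_⟩
          have h1 := (hd b hb).2 p.reverse (by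
            intro u hu
            rw [SimpleGraph.Walk.support_reverse, List.mem_reverse] at hu
            exact hps u (by simp [hu]))
          rw [SimpleGraph.Walk.length_reverse] at h1
          rw [SimpleGraph.Walk.length_cons] at hpl
          omega
      by_cases hzx : z = x
      · exact ⟨x, fun _ h' => absurd hzx h'⟩
      · obtain ⟨b, hb⟩ := key x w.reverse rfl (by rw [SimpleGraph.Walk.length_reverse, hl]) (by
          intro u hu
          rw [SimpleGraph.Walk.support_reverse, List.mem_reverse] at hu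
          exact hw u hu) hzx
        exact ⟨b, fun _ _ => hb⟩
    · exact ⟨x, fun h' => absurd h' hz⟩
  choose p hp using hpar
  have hroot : ∀ n, ∀ z ∈ Z, d z ≤ n → ∃ w : H.Walk z x, w.length ≤ d z ∧
      ∀ e ∈ w.edges, ∃ a ∈ Z, a ≠ x ∧ e = s(a, p a) := by
    intro n
    induction n with
    | zero =>
      intro z hz hn
      by_cases hzx : z = x
      · subst hzx
        exact ⟨SimpleGraph.Walk.nil, by simp, by simp⟩
      · have := (hp z hz hzx).2.2
        omega
    | succ n ih =>
      intro z hz hn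
      by_cases hzx : z = x
      · subst hzx
        exact ⟨SimpleGraph.Walk.nil, by simp, by simp⟩
      · obtain ⟨h1, h2, h3⟩ := hp z hz hzx
        obtain ⟨w, hw1, hw2⟩ := ih (p z) h1 (by omega)
        refine ⟨SimpleGraph.Walk.cons h2 w, ?_, ?_⟩
        · rw [SimpleGraph.Walk.length_cons]
          omega
        · intro e he
          rw [SimpleGraph.Walk.edges_cons, List.mem_cons] at he
          rcases he with rfl | he
          · exact ⟨z, hz, hzx, rfl⟩
          · exact hw2 e he
  have htree : ∀ z ∈ Z, ∀ y ∈ Z, H.Adj z y → (z ≠ x ∧ y = p z) ∨ (y ≠ x ∧ z = p y) := by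
    intro z hz y hy hzy
    by_contra hcon
    obtain ⟨w1, l1, e1⟩ := hroot _ z hz le_rfl
    obtain ⟨w2, l2, e2⟩ := hroot _ y hy le_rfl
    have hne : s(z, y) ∉ (w1.append w2.reverse).edges := by
      intro he
      rw [SimpleGraph.Walk.edges_append, List.mem_append, SimpleGraph.Walk.edges_reverse,
        List.mem_reverse] at he
      have h3 : ∃ a ∈ Z, a ≠ x ∧ s(z, y) = s(a, p a) := by
        rcases he with he | he
        · exact e1 _ he
        · exact e2 _ he
      obtain ⟨a, -, hax, h3⟩ := h3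
      apply hcon
      rw [Sym2.eq_iff] at h3
      rcases h3 with ⟨rfl, h4⟩ | ⟨h4, rfl⟩
      · exact Or.inl ⟨hax, h4⟩
      · exact Or.inr ⟨hax, h4⟩
    refine hL ⟨z, y, hzy, (w1.append w2.reverse).bypass, SimpleGraph.Walk.bypass_isPath _, ?_, ?_⟩
    · have h3 : s(z, y) ∉ (w1.append w2.reverse).bypass.edges := fun h' =>
        hne ((w1.append w2.reverse).edges_bypass_subset_edges h')
      by_contra hlt
      push Not at hlt
      generalize (w1.append w2.reverse).bypass = w at h3 hlt
      cases w with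
      | nil => exact hzy.ne rfl
      | @cons _ b _ h4 w =>
        rw [SimpleGraph.Walk.length_cons] at hlt
        have h5 : w.length = 0 := by omega
        have := SimpleGraph.Walk.eq_of_length_eq_zero h5
        subst this
        simp at h3
    · refine (SimpleGraph.Walk.length_bypass_le_length _).trans ?_
      rw [SimpleGraph.Walk.length_append, SimpleGraph.Walk.length_reverse]
      have := hdr z hz
      have := hdr y hy
      omega
  have hcard : ∑ z ∈ Z, ((nb H z).filter (fun y => y ∈ Z)).card ≤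
      ((Z.erase x).image (fun z => (⟨z, p z⟩ : (_ : V) × V)) ∪
        (Z.erase x).image (fun z => (⟨p z, z⟩ : (_ : V) × V))).card := by
    rw [← Finset.card_sigma]
    refine card_le_card ?_
    rintro ⟨z, y⟩ hzy
    rw [mem_sigma] at hzy
    obtain ⟨hz, hzy⟩ := hzy
    simp only at hz hzy
    rw [mem_filter, mem_nb] at hzy
    rw [mem_union, mem_image, mem_image]
    rcases htree z hz y hzy.2 hzy.1 with ⟨h1, rfl⟩ | ⟨h1, rfl⟩
    · exact Or.inl ⟨z, mem_erase.mpr ⟨h1, hz⟩, rfl⟩
    · exact Or.inr ⟨y, mem_erase.mpr ⟨h1, hzy.2⟩, rfl⟩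
  have h1 := (hcard.trans (card_union_le _ _)).trans (add_le_add card_image_le card_image_le)
  rw [card_erase_of_mem hxZ] at h1
  have h2 : 0 < Z.card := card_pos.mpr ⟨x, hxZ⟩
  omega

/-- a set of small radius sends out more edges than it has vertices -/
theorem out_boundR {H : SimpleGraph V} {X₀ Z : Finset V} {x : V} {r : ℕ}
    (hL : ¬ ShortC (2 * r) H) (hxZ : x ∈ Z)
    (h : ∀ v ∈ Z, ∃ w : H.Walk x v, w.length ≤ r ∧ ∀ u ∈ w.support, u ∈ Z)
    (hdeg : ∀ x ∈ Z, 3 ≤ (nb H x).card + (if x ∈ X₀ then 1 else 0)) :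
    Z.card + 2 ≤ ∑ z ∈ Z, ((nb H z).filter (fun y => y ∉ Z)).card +
      ∑ z ∈ Z, (if z ∈ X₀ then 1 else 0) := by
  have ht := tree_sumR hL hxZ h
  have hpt : ∀ z ∈ Z, 3 ≤ ((nb H z).filter (fun y => y ∈ Z)).card +
      ((nb H z).filter (fun y => y ∉ Z)).card + (if z ∈ X₀ then 1 else 0) := by
    intro z hz
    rw [Finset.card_filter_add_card_filter_not]
    exact hdeg z hz
  have hsum := Finset.sum_le_sum hpt
  rw [Finset.sum_const, smul_eq_mul, Finset.sum_add_distrib, Finset.sum_add_distrib] at hsum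
  omega

theorem short_cycle {M : ℕ} {H : SimpleGraph V} {pos : V → ℂ} {C : Sym2 V → Set ℂ}
    (hT : TopD M H pos C) (X₀ : Finset V) (hX₀ : X₀.card ≤ 2)
    (hdeg : ∀ v, (nb H v).card = 0 ∨ 3 ≤ (nb H v).card + (if v ∈ X₀ then 1 else 0))
    (hedge : ∃ a b, H.Adj a b) {r : ℕ}
    (hr : 56 * (2 * M * (2 * (2 * r) + 1) + 1) < 2 ^ r) : ShortC (8 * r + 1) H := by
  by_contra hS
  set L := univ.filter (fun v : V => (nb H v).card ≠ 0) with hL
  have hLmem : ∀ v, v ∈ L ↔ (nb H v).card ≠ 0 := fun v => by rw [hL, mem_filter]; simp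
  have hadjL : ∀ x y, H.Adj x y → y ∈ L := by
    intro x y hxy
    rw [hLmem]
    exact (Finset.card_pos.mpr ⟨x, mem_nb.mpr hxy.symm⟩).ne'
  have hdegL : ∀ x ∈ L, 3 ≤ (nb H x).card + (if x ∈ X₀ then 1 else 0) := by
    intro x hx
    rcases hdeg x with h | h
    · exact absurd h ((hLmem x).mp hx)
    · exact h
  have hite : ∀ Z : Finset V, ∑ z ∈ Z, (if z ∈ X₀ then 1 else 0) ≤ 2 := by
    intro Z
    rw [← Finset.card_filter]
    refine (card_le_card ?_).trans hX₀
    intro x hx
    rw [mem_filter] at hx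
    exact hx.2
  -- balls
  have hballroot : ∀ x j, ∀ v ∈ ball H L x j, ∃ w : H.Walk x v, w.length ≤ j ∧
      ∀ u ∈ w.support, u ∈ ball H L x j := by
    intro x j v hv
    obtain ⟨w, hw⟩ := mem_ball.mp hv
    refine ⟨w.mapLe (res_le H L), by simpa using hw, ?_⟩
    intro u hu
    rw [SimpleGraph.Walk.support_mapLe_eq_support] at hu
    exact walk_ball w hw u hu
  have hgrow : ∀ x ∈ L, ∀ j ≤ r, 2 ^ j ≤ (ball H L x j).card := by
    intro x hx j
    induction j with
    | zero =>
      intro _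
      exact Finset.card_pos.mpr ⟨x, self_mem_ball H L x 0⟩
    | succ j ih =>
      intro hj
      have h1 := out_boundR (X₀ := X₀) (x := x) (r := j) (Z := ball H L x j)
        (fun h => hS (h.mono (by omega))) (self_mem_ball H L x j) (hballroot x j)
        (fun z hz => hdegL z (ball_sub hx j hz))
      have h2 := hite (ball H L x j)
      have h3 : (ball H L x j).card + ∑ z ∈ ball H L x j,
          ((nb H z).filter (fun y => y ∉ ball H L x j)).card ≤ (ball H L x (j + 1)).card := by
        rw [← Finset.card_biUnion]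
        · rw [← Finset.card_union_of_disjoint]
          · refine card_le_card ?_
            intro y hy
            rw [mem_union, mem_biUnion] at hy
            rcases hy with hy | ⟨z, hz, hy⟩
            · exact ball_mono (Nat.le_succ j) hy
            · rw [mem_filter, mem_nb] at hy
              exact ball_adj hz hy.1 (ball_sub hx j hz) (hadjL z y hy.1)
          · rw [Finset.disjoint_left]
            intro y hy hy'
            rw [mem_biUnion] at hy'
            obtain ⟨z, hz, hy'⟩ := hy'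
            rw [mem_filter] at hy'
            exact hy'.2 hy
        · intro z hz z' hz' hzz
          simp only [Function.onFun]
          rw [Finset.disjoint_left]
          intro y hy hy'
          rw [mem_filter, mem_nb] at hy hy'
          exact hzz (attachR (ρ := 2 * j) (fun h => hS (h.mono (by omega)))
            (connR_of_root (hballroot x j)) hy.2 hz hz' hy.1 hy'.1)
      have h4 := ih (by omega)
      rw [pow_succ]
      omega
  -- centres
  obtain ⟨good, hgood⟩ : ∃ good : Finset V → Prop, ∀ X, good X ↔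
      ∀ x ∈ X, ∀ y ∈ X, x ≠ y → Disjoint (ball H L x r) (ball H L y r) := ⟨_, fun X => Iff.rfl⟩
  obtain ⟨X, hX, hmax⟩ := Finset.exists_max_image (L.powerset.filter good) Finset.card
    ⟨∅, by rw [mem_filter, hgood]; simp⟩
  rw [mem_filter, mem_powerset, hgood] at hX
  obtain ⟨hXL, hXd⟩ := hX
  have hcover : ∀ v ∈ L, ∃ x ∈ X, v ∈ ball H L x (2 * r) := by
    intro v hv
    by_cases hvX : v ∈ X
    · exact ⟨v, hvX, self_mem_ball H L v _⟩
    · by_contra hcon
      push Not at hcon
      have hdis : ∀ x ∈ X, Disjoint (ball H L v r) (ball H L x r) := by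
        intro x hx
        rw [Finset.disjoint_left]
        intro u hu hu'
        refine hcon x hx ?_
        rw [two_mul]
        exact ball_trans hu' (ball_symm hu)
      have h6 := hmax (insert v X) (by
        rw [mem_filter, mem_powerset, hgood]
        refine ⟨Finset.insert_subset hv hXL, ?_⟩
        intro a ha b hb hab
        rw [mem_insert] at ha hb
        rcases ha with rfl | ha
        · rcases hb with rfl | hb
          · exact absurd rfl hab
          · exact hdis b hb
        · rcases hb with rfl | hb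
          · exact (hdis a ha).symm
          · exact hXd a ha b hb hab)
      rw [card_insert_of_notMem hvX] at h6
      omega
  have hXpos : 0 < X.card := by
    obtain ⟨a, b, hab⟩ := hedge
    obtain ⟨x, hx, -⟩ := hcover b (hadjL a b hab)
    exact Finset.card_pos.mpr ⟨x, hx⟩
  obtain ⟨f, hfX, hf⟩ := forest H L X (2 * r)
  set Z : V → Finset V := fun x => L.filter (fun v => f v = x) with hZ
  have hZL : ∀ x, Z x ⊆ L := fun x => filter_subset _ _
  have hmemZ : ∀ x v, v ∈ Z x ↔ v ∈ L ∧ f v = x := fun x v => by simp [hZ]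
  have hZroot : ∀ x ∈ X, ∀ v ∈ Z x, ∃ w : H.Walk x v, w.length ≤ 2 * r ∧
      ∀ u ∈ w.support, u ∈ Z x := by
    intro x hx v hv
    obtain ⟨hvL, hvx⟩ := (hmemZ x v).mp hv
    obtain ⟨h1, w, hw, hs⟩ := hf v (hcover v hvL)
    subst hvx
    refine ⟨w.mapLe (res_le H L), by simpa using hw, fun u hu => ?_⟩
    rw [SimpleGraph.Walk.support_mapLe_eq_support] at hu
    rw [hmemZ]
    exact ⟨walk_res w (hXL h1) u hu, (hs u hu).2⟩
  have hZself : ∀ x ∈ X, x ∈ Z x := fun x hx => (hmemZ x x).mpr ⟨hXL hx, hfX x hx⟩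
  have hZdisj : ∀ x y, x ≠ y → ∀ v ∈ Z x, v ∉ Z y := by
    intro x y hxy v hv hv'
    exact hxy (((hmemZ x v).mp hv).2.symm.trans ((hmemZ y v).mp hv').2)
  have hsamp := samp' hT X Z (fun x _ y _ hxy => Finset.disjoint_left.mpr (hZdisj x y hxy))
    hZself (2 * r) hZroot
  -- the out-edges of a cell go to different cells
  have hout : ∀ x ∈ X, ∑ z ∈ Z x, ((nb H z).filter (fun y => y ∉ Z x)).card ≤
      (X.filter (fun y => x ≠ y ∧ ∃ a ∈ Z x, ∃ b ∈ Z y, H.Adj a b)).card := by
    intro x hx
    rw [← Finset.card_sigma]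
    refine Finset.card_le_card_of_injOn (fun p => f p.2) ?_ ?_
    · rintro ⟨z, y⟩ hzy
      rw [Finset.mem_coe, mem_sigma] at hzy
      obtain ⟨hz, hzy⟩ := hzy
      simp only at hz hzy ⊢
      rw [mem_filter, mem_nb] at hzy
      obtain ⟨hadj, hyZ⟩ := hzy
      have hyL := hadjL z y hadj
      rw [Finset.mem_coe, mem_filter]
      refine ⟨(hf y (hcover y hyL)).1, ?_, z, hz, y, (hmemZ _ _).mpr ⟨hyL, rfl⟩, hadj⟩
      intro h
      exact hyZ ((hmemZ _ _).mpr ⟨hyL, h.symm⟩)
    · rintro ⟨z, y⟩ hzy ⟨z', y'⟩ hzy' hff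
      rw [Finset.mem_coe, mem_sigma] at hzy hzy'
      obtain ⟨hz, hzy⟩ := hzy
      obtain ⟨hz', hzy'⟩ := hzy'
      simp only at hz hzy hz' hzy' hff
      rw [mem_filter, mem_nb] at hzy hzy'
      obtain ⟨hadj, hyZ⟩ := hzy
      obtain ⟨hadj', hyZ'⟩ := hzy'
      have hyL := hadjL z y hadj
      have hyL' := hadjL z' y' hadj'
      by_contra hne
      have hfy : f y ∈ X := (hf y (hcover y hyL)).1
      have hxy : x ≠ f y := fun h => hyZ ((hmemZ _ _).mpr ⟨hyL, h.symm⟩)
      have hor : z ≠ z' ∨ y ≠ y' := by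
        by_contra hcon
        push Not at hcon
        obtain ⟨rfl, rfl⟩ := hcon
        exact hne rfl
      exact hS ((two_edgesR (connR_of_root (hZroot x hx)) (connR_of_root (hZroot (f y) hfy))
        (hZdisj x (f y) hxy) hz hz' ((hmemZ _ _).mpr ⟨hyL, rfl⟩)
        ((hmemZ _ _).mpr ⟨hyL', hff.symm⟩) hadj hadj' hor).mono (by omega))
  have hob : ∀ x ∈ X, (Z x).card + 2 ≤ ∑ z ∈ Z x, ((nb H z).filter (fun y => y ∉ Z x)).card +
      ∑ z ∈ Z x, (if z ∈ X₀ then 1 else 0) := by
    intro x hx
    exact out_boundR (fun h => hS (h.mono (by omega))) (hZself x hx) (hZroot x hx)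
      (fun z hz => hdegL z (hZL x hz))
  have hLcard : L.card = ∑ x ∈ X, (Z x).card :=
    Finset.card_eq_sum_card_fiberwise fun v hv => (hf v (hcover v hv)).1
  have hLsum : ∑ x ∈ X, ∑ z ∈ Z x, (if z ∈ X₀ then 1 else 0) =
      ∑ z ∈ L, (if z ∈ X₀ then 1 else 0) :=
    Finset.sum_fiberwise_of_maps_to (fun v hv => (hf v (hcover v hv)).1) _
  have h7 : L.card + 2 * X.card ≤ 56 * (2 * M * (2 * (2 * r) + 1) + 1) * X.card + 2 := by
    have h8 := Finset.sum_le_sum hob
    rw [Finset.sum_add_distrib, Finset.sum_const, smul_eq_mul, ← hLcard, Finset.sum_add_distrib,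
      hLsum] at h8
    have h9 := hite L
    have h10 := (Finset.sum_le_sum hout).trans hsamp
    omega
  have h8 : 2 ^ r * X.card ≤ L.card := by
    have h1 : ∑ x ∈ X, (ball H L x r).card ≤ L.card := by
      rw [← Finset.card_biUnion (fun x hx y hy hxy => hXd x hx y hy hxy)]
      refine card_le_card ?_
      intro v hv
      rw [mem_biUnion] at hv
      obtain ⟨x, hx, hv⟩ := hv
      exact ball_sub (hXL hx) r hv
    refine le_trans ?_ h1
    rw [mul_comm, ← smul_eq_mul, ← Finset.sum_const]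
    exact Finset.sum_le_sum fun x hx => hgrow x (hXL hx) r le_rfl
  have h9 : 56 * (2 * M * (2 * (2 * r) + 1) + 1) * X.card + X.card ≤ 2 ^ r * X.card := by
    calc 56 * (2 * M * (2 * (2 * r) + 1) + 1) * X.card + X.card
        = (56 * (2 * M * (2 * (2 * r) + 1) + 1) + 1) * X.card := by ring
      _ ≤ 2 ^ r * X.card := Nat.mul_le_mul_right _ hr
  omega

end Pool.Agent.H354_OP
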