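import Pool.Agent.H354_OP.Lv0

/-!
# Tokens with clusters: grouping them, few groups see three hubs
-/

set_option autoImplicit false

namespace Pool.Agent.H354_OP

open Finset
open scoped Classical

set_option linter.unusedSectionVars false

theorem ends_card {V : Type} [Fintype V] (E : Finset (Sym2 V)) :
    (univ.filter (fun z => ∃ f ∈ E, z ∈ f)).card ≤ 2 * E.card := by
  have hsub : univ.filter (fun z => ∃ f ∈ E, z ∈ f) ⊆ E.biUnion (fun f => univ.filter (· ∈ f)) := by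
    intro z hz
    rw [mem_filter] at hz
    obtain ⟨f, hf, hzf⟩ := hz.2
    rw [mem_biUnion]
    exact ⟨f, hf, by rw [mem_filter]; exact ⟨mem_univ _, hzf⟩⟩
  refine (card_le_card hsub).trans (card_biUnion_le.trans ?_)
  rw [mul_comm, ← smul_eq_mul, ← sum_const]
  refine sum_le_sum fun f _ => ?_
  induction f using Sym2.ind with
  | _ a b =>
    refine (card_le_card ?_).trans (card_le_two (a := a) (b := b))
    intro y hy
    rw [mem_filter, Sym2.mem_iff] at hy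
    simpa using hy.2

/-- the number of groups that contain an element with a property -/
theorem groups_card {τ : Type} (𝒢 : Finset (Finset τ)) (Θ : Finset τ)
    (hsub : ∀ A ∈ 𝒢, A ⊆ Θ) (hdis : ∀ A ∈ 𝒢, ∀ A' ∈ 𝒢, A ≠ A' → Disjoint A A') (P : τ → Prop) :
    (𝒢.filter (fun A => ∃ θ ∈ A, P θ)).card ≤ (Θ.filter P).card := by
  rcases (𝒢.filter (fun A => ∃ θ ∈ A, P θ)).eq_empty_or_nonempty with h0 | ⟨A₀, hA₀⟩
  · rw [h0]
    simp
  · rw [mem_filter] at hA₀
    obtain ⟨-, θ₀, -⟩ := hA₀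
    have hne : Nonempty τ := ⟨θ₀⟩
    have hch : ∀ A ∈ 𝒢.filter (fun A => ∃ θ ∈ A, P θ), ∃ θ, θ ∈ A ∧ P θ := by
      intro A hA
      rw [mem_filter] at hA
      obtain ⟨-, θ, h1, h2⟩ := hA
      exact ⟨θ, h1, h2⟩
    choose! f h1 h2 using hch
    refine card_le_card_of_injOn f ?_ ?_
    · intro A hA
      rw [mem_coe] at hA
      rw [mem_coe, mem_filter]
      exact ⟨hsub A (mem_filter.mp hA).1 (h1 A hA), h2 A hA⟩
    · intro A hA A' hA' he
      rw [mem_coe] at hA hA'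
      by_contra hne
      refine Finset.disjoint_left.mp (hdis A (mem_filter.mp hA).1 A' (mem_filter.mp hA').1 hne)
        (h1 A hA) ?_
      rw [he]
      exact h1 A' hA'

theorem gstar (g g₀ s : ℕ) (hg : 0 < g) : ∃ C : ℕ, ∀ (V τ : Type) [Fintype V]
    (H Γ : SimpleGraph V) (pos : V → ℂ) (Cc : Sym2 V → Set ℂ) (M S : ℕ), TopD M H pos Cc →
    M ≤ S → 1 ≤ S → Γ ≤ H → ∀ (L Hi : Finset V), Disjoint L Hi → (∀ a b, Γ.Adj a b → a ∈ L) →
    (∀ x ∈ L, (nb Γ x).card ≤ S) → ∀ (Θ : Finset τ) (loc : τ → V) (X : τ → Finset V)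
    (EX : τ → Finset (Sym2 V)),
    (∀ θ ∈ Θ, loc θ ∈ X θ ∧ X θ ⊆ L ∧ (EX θ).card ≤ s ∧
      (∀ x ∈ X θ, ∃ w : H.Walk (loc θ) x, (∀ f ∈ w.edges, f ∈ EX θ) ∧ ∀ u ∈ w.support, u ∈ X θ) ∧
      (∀ f ∈ EX θ, f ∈ H.edgeSet ∧ (∃ z ∈ X θ, z ∈ f) ∧ ∀ x ∈ f, x ∈ X θ ∨ x ∈ Hi)) →
    (∀ z, (Θ.filter (fun θ => z ∈ X θ)).card ≤ s * S) →
    (∀ f, (Θ.filter (fun θ => f ∈ EX θ)).card ≤ s) →
    (∀ A ⊆ Θ, A.card = g →
      (∀ θ ∈ A, ∀ θ' ∈ A, ∃ w : Γ.Walk (loc θ) (loc θ'), w.length ≤ g₀) →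
      ∃ T ⊆ Hi, 3 ≤ T.card ∧ ∀ a ∈ T, ∃ θ ∈ A, ∃ x ∈ X θ, s(x, a) ∈ EX θ) →
    ∃ Bd : ℕ, g₀ * Bd ≤ g * Fintype.card V ∧ Θ.card ≤ g * (C * (S * Hi.card)) + g * Bd +
      g * ((univ.image (cmp Γ)).filter (fun S => ∃ θ ∈ Θ, loc θ ∈ S)).card := by
  obtain ⟨q, hq⟩ : ∃ q, q = 1 + 2 * (g₀ + g * s) := ⟨_, rfl⟩
  refine ⟨(2 * q * (s + g) + 1) * (406 * (q * (q * (q * 2)) + 1)), ?_⟩
  intro V τ _ H Γ pos Cc M S hT hMS hS1 hΓH L Hi hLHi hΓL hdeg Θ loc X EX hX hz hf hhub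
  obtain ⟨𝒢, E, hG1, hG2, hG3, hG4, hG5, hG6, hG7⟩ := grouping_all Γ g hg Θ loc
  obtain ⟨𝒢₁, h𝒢₁⟩ : ∃ 𝒢₁, 𝒢₁ = 𝒢.filter (fun A => (E A).card ≤ g₀) := ⟨_, rfl⟩
  obtain ⟨𝒢₂, h𝒢₂⟩ : ∃ 𝒢₂, 𝒢₂ = 𝒢.filter (fun A => ¬ (E A).card ≤ g₀) := ⟨_, rfl⟩
  have hsplit : 𝒢₁.card + 𝒢₂.card = 𝒢.card := by
    rw [h𝒢₁, h𝒢₂]
    exact card_filter_add_card_filter_not _
  have hm1 : ∀ A ∈ 𝒢₁, A ∈ 𝒢 ∧ (E A).card ≤ g₀ := fun A hA => by
    rwa [h𝒢₁, mem_filter] at hA
  refine ⟨𝒢₂.card, ?_, ?_⟩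
  · refine le_trans ?_ hG7
    rw [mul_comm, ← smul_eq_mul, ← sum_const]
    refine (sum_le_sum (f := fun _ => g₀) (g := fun A => (E A).card) fun A hA => ?_).trans
      (sum_le_sum_of_subset ?_)
    · rw [h𝒢₂, mem_filter] at hA
      omega
    · rw [h𝒢₂]
      exact filter_subset _ _
  have hΓL' : ∀ a b, Γ.Adj a b → b ∈ L := fun a b h => hΓL b a h.symm
  have hnHi : ∀ x ∈ L, x ∉ Hi := fun x h1 h2 => Finset.disjoint_left.mp hLHi h1 h2
  have hΓe : ∀ f ∈ Γ.edgeSet, f ∈ H.edgeSet ∧ ∀ x ∈ f, x ∈ L := by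
    intro f
    induction f using Sym2.ind with
    | _ a b =>
      intro h
      refine ⟨hΓH h, fun x hx => ?_⟩
      rw [Sym2.mem_iff] at hx
      rcases hx with rfl | rfl
      · exact hΓL _ _ h
      · exact hΓL' _ _ h
  -- the enlarged groups
  obtain ⟨Ep, hEp⟩ : ∃ Ep : Finset τ → Finset (Sym2 V), ∀ A, Ep A = E A ∪ A.biUnion EX :=
    ⟨_, fun A => rfl⟩
  have hmE : ∀ A f, f ∈ Ep A ↔ f ∈ E A ∨ ∃ θ ∈ A, f ∈ EX θ := by
    intro A f
    rw [hEp, mem_union, mem_biUnion]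
  have hEpH : ∀ A ∈ 𝒢, ∀ f ∈ Ep A, f ∈ H.edgeSet := by
    intro A hA f hf
    rcases (hmE A f).mp hf with h | ⟨θ, hθ, h⟩
    · exact (hΓe f (hG4 A hA f h)).1
    · exact ((hX θ ((hG1 A hA).1 hθ)).2.2.2.2 f h).1
  have hEpc : ∀ A ∈ 𝒢₁, (Ep A).card ≤ g₀ + g * s := by
    intro A hA
    rw [hEp]
    refine (card_union_le _ _).trans (add_le_add (hm1 A hA).2 (card_biUnion_le.trans ?_))
    rw [← (hG1 A (hm1 A hA).1).2, ← smul_eq_mul, ← sum_const]
    exact sum_le_sum fun θ hθ => (hX θ ((hG1 A (hm1 A hA).1).1 hθ)).2.2.1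
  have hmain : 𝒢₁.card ≤ (2 * q * (s + g) + 1) * (406 * (q * (q * (q * 2)) + 1)) *
      (S * Hi.card) := by
    rcases 𝒢₁.eq_empty_or_nonempty with h0 | ⟨A₀, hA₀⟩
    · rw [h0]
      simp
    have hneA : ∀ A ∈ 𝒢₁, ∃ θ, θ ∈ A := by
      intro A hA
      obtain ⟨θ, hθ⟩ : A.Nonempty := card_pos.mp (by rw [(hG1 A (hm1 A hA).1).2]; exact hg)
      exact ⟨θ, hθ⟩
    obtain ⟨θ₀, -⟩ := hneA A₀ hA₀
    have hτ : Nonempty τ := ⟨θ₀⟩
    choose! b hb using hneA
    have hbΘ : ∀ A ∈ 𝒢₁, b A ∈ Θ := fun A hA => (hG1 A (hm1 A hA).1).1 (hb A hA)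
    -- the graph of a group
    obtain ⟨Q, hQ⟩ : ∃ Q : Finset τ → SimpleGraph V, ∀ A x y, (Q A).Adj x y ↔
        s(x, y) ∈ Ep A ∧ H.Adj x y ∧ x ∉ Hi ∧ y ∉ Hi := by
      refine ⟨fun A => ⟨fun x y => s(x, y) ∈ Ep A ∧ H.Adj x y ∧ x ∉ Hi ∧ y ∉ Hi,
        ⟨fun x y h => ⟨by rw [Sym2.eq_swap]; exact h.1, h.2.1.symm, h.2.2.2, h.2.2.1⟩⟩,
        ⟨fun x h => h.2.1.ne rfl⟩⟩, fun A x y => Iff.rfl⟩
    have hQH : ∀ A, Q A ≤ H := fun A x y h => ((hQ A x y).mp h).2.1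
    obtain ⟨Z, hZ⟩ : ∃ Z : Finset τ → Finset V, ∀ A, Z A = cmp (Q A) (loc (b A)) :=
      ⟨_, fun A => rfl⟩
    have hZHi : ∀ A ∈ 𝒢₁, ∀ z ∈ Z A, z ∉ Hi := by
      intro A hA z hz'
      rw [hZ, mem_cmp] at hz'
      obtain ⟨w⟩ := hz'.symm
      cases w with
      | nil =>
        have := hX _ (hbΘ A hA)
        exact hnHi _ (this.2.1 this.1)
      | cons h w => exact ((hQ _ _ _).mp h).2.2.1
    have hZE : ∀ A ∈ 𝒢₁, ∀ z ∈ Z A, z = loc (b A) ∨ ∃ f ∈ Ep A, z ∈ f := by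
      intro A hA z hz'
      rw [hZ, mem_cmp] at hz'
      obtain ⟨w⟩ := hz'.symm
      cases w with
      | nil => exact Or.inl rfl
      | cons h w => exact Or.inr ⟨_, ((hQ _ _ _).mp h).1, by simp⟩
    obtain ⟨E', hE'⟩ : ∃ E' : Finset τ → Finset (Sym2 V), ∀ A, E' A =
        (Ep A).filter (fun f => ∃ z ∈ Z A, z ∈ f) := ⟨_, fun A => rfl⟩
    have hmE' : ∀ A f, f ∈ E' A ↔ f ∈ Ep A ∧ ∃ z ∈ Z A, z ∈ f := by
      intro A f
      rw [hE', mem_filter]
    have hq1 : ∀ A ∈ 𝒢₁, (Ep A).card ≤ q := fun A hA => (hEpc A hA).trans (by omega)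
    have key := star2 hT Hi 𝒢₁ Z E' q ((s + g) * S) (g + s) ?_ ?_ ?_ ?_ ?_ ?_ ?_ ?_
    · refine key.trans ?_
      have h1 : q * ((s + g) * S) + q * (M * (g + s)) + 1 ≤ (2 * q * (s + g) + 1) * S := by
        calc q * ((s + g) * S) + q * (M * (g + s)) + 1 ≤
            q * ((s + g) * S) + q * (S * (g + s)) + S := by gcongr
          _ = (2 * q * (s + g) + 1) * S := by ring
      calc (q * ((s + g) * S) + q * (M * (g + s)) + 1) *
          (406 * (q * (q * (q * 2)) + 1) * Hi.card) ≤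
          (2 * q * (s + g) + 1) * S * (406 * (q * (q * (q * 2)) + 1) * Hi.card) :=
            Nat.mul_le_mul_right _ h1
        _ = _ := by ring
    · -- edges
      intro A hA f hf'
      rw [hmE'] at hf'
      obtain ⟨h1, z, hz1, hz2⟩ := hf'
      have hfH := hEpH A (hm1 A hA).1 f h1
      refine ⟨hfH, ⟨z, hz1, hz2⟩, ?_⟩
      obtain ⟨y, rfl⟩ := hz2
      intro x hx
      rw [Sym2.mem_iff] at hx
      rcases hx with rfl | rfl
      · exact Or.inl hz1
      · by_cases hxHi : x ∈ Hi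
        · exact Or.inr hxHi
        · left
          rw [hZ] at hz1 ⊢
          exact cmp_adj hz1 ((hQ _ _ _).mpr ⟨h1, hfH, hZHi A hA z (by rw [hZ]; exact hz1), hxHi⟩)
    · intro A hA
      rw [Finset.disjoint_left]
      exact fun z hz' => hZHi A hA z hz'
    · -- connected
      intro A hA x hx y hy
      rw [hZ] at hx hy
      obtain ⟨w, hw⟩ := cmp_conn (Q A) _ x hx y hy
      refine ⟨w.mapLe (hQH A), ?_, ?_⟩
      · intro f hf'
        rw [SimpleGraph.Walk.edges_mapLe_eq_edges] at hf'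
        have h1 := w.edges_subset_edgeSet hf'
        rw [hmE', hZ]
        induction f using Sym2.ind with
        | _ c d =>
          exact ⟨((hQ _ _ _).mp h1).1, c, hw c (w.fst_mem_support_of_mem_edges hf'), by simp⟩
      · intro u hu
        rw [SimpleGraph.Walk.support_mapLe_eq_support] at hu
        rw [hZ]
        exact hw u hu
    · -- number of vertices
      intro A hA
      have hsub : Z A ⊆ insert (loc (b A)) (univ.filter (fun z => ∃ f ∈ Ep A, z ∈ f)) := by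
        intro z hz'
        rw [mem_insert, mem_filter]
        rcases hZE A hA z hz' with h | h
        · exact Or.inl h
        · exact Or.inr ⟨mem_univ _, h⟩
      refine (card_le_card hsub).trans ((card_insert_le _ _).trans ?_)
      have h1 := ends_card (Ep A)
      have h2 := hEpc A hA
      omega
    · intro A hA
      rw [hE']
      exact (card_filter_le _ _).trans (hq1 A hA)
    · -- groups at a vertex
      intro z
      have hsub : 𝒢₁.filter (fun A => z ∈ Z A) ⊆ 𝒢.filter (fun A => ∃ θ ∈ A, z ∈ X θ) ∪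
          (if z ∈ L then (nb Γ z).biUnion (fun y => 𝒢.filter (fun A => s(z, y) ∈ E A)) else ∅) := by
        intro A hA
        rw [mem_filter] at hA
        obtain ⟨hA1, hzA⟩ := hA
        have hA𝒢 := (hm1 A hA1).1
        rw [mem_union, mem_filter]
        rcases hZE A hA1 z hzA with h | ⟨f, hf1, hf2⟩
        · exact Or.inl ⟨hA𝒢, b A, hb A hA1, h ▸ (hX _ (hbΘ A hA1)).1⟩
        · rcases (hmE A f).mp hf1 with h | ⟨θ, hθ, h⟩
          · right
            have h2 := hΓe f (hG4 A hA𝒢 f h)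
            rw [if_pos (h2.2 z hf2), mem_biUnion]
            obtain ⟨y, rfl⟩ := hf2
            refine ⟨y, mem_nb.mpr (hG4 A hA𝒢 _ h), ?_⟩
            rw [mem_filter]
            exact ⟨hA𝒢, h⟩
          · left
            refine ⟨hA𝒢, θ, hθ, ?_⟩
            rcases ((hX θ ((hG1 A hA𝒢).1 hθ)).2.2.2.2 f h).2.2 z hf2 with h3 | h3
            · exact h3
            · exact absurd h3 (hZHi A hA1 z hzA)
      refine (card_le_card hsub).trans ((card_union_le _ _).trans ?_)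
      have h1 : (𝒢.filter (fun A => ∃ θ ∈ A, z ∈ X θ)).card ≤ s * S := by
        have h2 := groups_card 𝒢 Θ (fun A hA => (hG1 A hA).1) hG2 (fun θ => z ∈ X θ)
        have h3 := hz z
        refine le_trans (le_of_eq ?_) (h2.trans (le_trans (le_of_eq ?_) h3)) <;> congr!
      have h2 : (if z ∈ L then (nb Γ z).biUnion (fun y => 𝒢.filter (fun A => s(z, y) ∈ E A))
          else ∅).card ≤ g * S := by
        split_ifs with hzL
        · refine card_biUnion_le.trans ((sum_le_sum (g := fun _ => g) fun y _ => hG6 _).trans ?_)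
          rw [sum_const, smul_eq_mul, mul_comm]
          exact Nat.mul_le_mul_left _ (hdeg z hzL)
        · simp
      calc _ ≤ s * S + g * S := add_le_add h1 h2
        _ = (s + g) * S := by ring
    · -- groups at an edge
      intro f
      have hsub : 𝒢₁.filter (fun A => f ∈ E' A) ⊆ 𝒢.filter (fun A => f ∈ E A) ∪
          𝒢.filter (fun A => ∃ θ ∈ A, f ∈ EX θ) := by
        intro A hA
        rw [mem_filter] at hA
        have h1 := ((hmE' A f).mp hA.2).1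
        rw [mem_union, mem_filter, mem_filter]
        rcases (hmE A f).mp h1 with h | h
        · exact Or.inl ⟨(hm1 A hA.1).1, h⟩
        · exact Or.inr ⟨(hm1 A hA.1).1, h⟩
      refine (card_le_card hsub).trans ((card_union_le _ _).trans (add_le_add (hG6 f) ?_))
      have h2 := groups_card 𝒢 Θ (fun A hA => (hG1 A hA).1) hG2 (fun θ => f ∈ EX θ)
      have h3 := hf f
      refine le_trans (le_of_eq ?_) (h2.trans (le_trans (le_of_eq ?_) h3)) <;> congr!
    · -- three hubs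
      intro A hA
      have hA𝒢 := (hm1 A hA).1
      obtain ⟨T, hTHi, hT3, hTT⟩ := hhub A (hG1 A hA𝒢).1 (hG1 A hA𝒢).2 (by
        intro θ hθ θ' hθ'
        obtain ⟨w, hw⟩ := hG5 A hA𝒢 θ hθ θ' hθ'
        refine ⟨w.bypass, ?_⟩
        have h1 : w.bypass.edges.Nodup := w.bypass_isPath.isTrail.edges_nodup
        rw [← SimpleGraph.Walk.length_edges, ← List.toFinset_card_of_nodup h1]
        refine (card_le_card ?_).trans (hm1 A hA).2
        intro f hf'
        rw [List.mem_toFinset] at hf'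
        exact hw f (w.edges_bypass_subset_edges hf'))
      refine ⟨T, hTHi, hT3, ?_⟩
      intro a ha
      obtain ⟨θ, hθ, x, hx, hxa⟩ := hTT a ha
      have hθΘ := (hG1 A hA𝒢).1 hθ
      have hlift : ∀ {x y : V} (w : H.Walk x y), (∀ f ∈ w.edges, f ∈ Ep A) →
          (∀ u ∈ w.support, u ∉ Hi) → (Q A).Reachable x y := by
        intro x y w
        induction w with
        | nil => exact fun _ _ => SimpleGraph.Reachable.refl _
        | cons h w ih =>
          intro h1 h2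
          refine SimpleGraph.Reachable.trans (SimpleGraph.Adj.reachable ?_)
            (ih (fun f hf' => h1 f (by simp [hf'])) (fun u hu => h2 u (by simp [hu])))
          exact (hQ _ _ _).mpr ⟨h1 _ (by simp), h, h2 _ (by simp), h2 _ (by simp)⟩
      have hr1 : (Q A).Reachable (loc θ) x := by
        obtain ⟨w, hw1, hw2⟩ := (hX θ hθΘ).2.2.2.1 x hx
        exact hlift w (fun f hf' => (hmE A f).mpr (Or.inr ⟨θ, hθ, hw1 f hf'⟩))
          (fun u hu => hnHi u ((hX θ hθΘ).2.1 (hw2 u hu)))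
      have hr2 : (Q A).Reachable (loc (b A)) (loc θ) := by
        obtain ⟨w, hw⟩ := hG5 A hA𝒢 (b A) (hb A hA) θ hθ
        refine hlift (w.mapLe hΓH) ?_ ?_
        · intro f hf'
          rw [SimpleGraph.Walk.edges_mapLe_eq_edges] at hf'
          exact (hmE A f).mpr (Or.inl (hw f hf'))
        · intro u hu
          rw [SimpleGraph.Walk.support_mapLe_eq_support] at hu
          refine hnHi u ?_
          have h1 := (w.takeUntil u hu).reverse
          cases h1 with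
          | nil => exact (hX _ (hbΘ A hA)).2.1 (hX _ (hbΘ A hA)).1
          | cons h _ => exact hΓL _ _ h
      have hxZ : x ∈ Z A := by
        rw [hZ, mem_cmp]
        exact hr2.trans hr1
      refine ⟨x, hxZ, ?_⟩
      rw [hmE']
      exact ⟨(hmE A _).mpr (Or.inr ⟨θ, hθ, hxa⟩), x, hxZ, by simp⟩
  rw [← hsplit] at hG3
  have h1 := Nat.mul_le_mul_left g hmain
  have h2 : g * (𝒢₁.card + 𝒢₂.card) = g * 𝒢₁.card + g * 𝒢₂.card := by ring
  omega

end Pool.Agent.H354_OP
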