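import Pool.Agent.H354_OP.Volume

/-!
# A graph that is sparse in the topological sense has a light edge
-/

set_option autoImplicit false

namespace Pool.Agent.H354_OP

open Finset
open scoped Classical

set_option linter.unusedSectionVars false

/-- the degree thresholds -/
def th (K D M r : ℕ) : ℕ → ℕ
  | 0 => 0
  | i + 1 => th K D M r i + 4 * D + K * D * (th K D M r i * ((th K D M r i + 1) ^ (2 * r) *
      (406 * ((th K D M r i + 1) ^ (2 * r) * (th K D M r i * (M * 2)) + 1))))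

theorem th_mono (K D M r : ℕ) : Monotone (th K D M r) := by
  refine monotone_nat_of_le_succ fun i => ?_
  rw [th]
  omega

theorem exists_radius (M : ℕ) :
    4 * (56 * (2 * M * (2 * (2 * (M + 16)) + 1) + 1)) ≤ 2 ^ (M + 16) := by
  have h : M * M + M + 2 ≤ 2 ^ (M + 1) := by
    induction M with
    | zero => norm_num
    | succ M ih =>
      rw [pow_succ]
      nlinarith
  have h2 : 2 ^ (M + 16) = 2 ^ (M + 1) * 32768 := by
    rw [show M + 16 = (M + 1) + 15 by ring, pow_add]
    norm_num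
  rw [h2]
  nlinarith

variable {V : Type} [Fintype V]

theorem incid_le {H : SimpleGraph V} (x : V) :
    {e | e ∈ H.edgeSet ∧ x ∈ e}.encard ≤ ((nb H x).card : ℕ∞) := by
  have hsub : {e | e ∈ H.edgeSet ∧ x ∈ e} ⊆ (fun y => s(x, y)) '' (nb H x : Set V) := by
    rintro e ⟨he, hx⟩
    obtain ⟨y, rfl⟩ := hx
    exact ⟨y, mem_nb.mpr he, rfl⟩
  refine (Set.encard_le_encard hsub).trans ((Set.encard_image_le _ _).trans ?_)
  rw [Set.encard_coe_eq_coe_finsetCard]

theorem double_count (H : SimpleGraph V) (A B : Finset V) :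
    ∑ z ∈ A, ((nb H z).filter (fun y => y ∈ B)).card ≤ ∑ y ∈ B, (nb H y).card := by
  have h1 : ∀ z, ((nb H z).filter (fun y => y ∈ B)).card = ∑ y ∈ B, if H.Adj z y then 1 else 0 := by
    intro z
    rw [← Finset.card_filter]
    congr 1
    ext y
    rw [mem_filter, mem_filter, mem_nb, and_comm]
  rw [Finset.sum_congr rfl fun z _ => h1 z, Finset.sum_comm]
  refine Finset.sum_le_sum fun y _ => ?_
  rw [← Finset.card_filter]
  refine card_le_card ?_
  intro z hz
  rw [mem_filter] at hz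
  rw [mem_nb]
  exact hz.2.symm

/-- the small case: a graph all of whose vertices have degree `0` or at least `2` -/
theorem small_light {H : SimpleGraph V} {g Δ : ℕ}
    (hdeg : ∀ v, (nb H v).card = 0 ∨ 2 ≤ (nb H v).card) (hedge : ∃ a b, H.Adj a b)
    (hn : (univ.filter (fun v => (nb H v).card ≠ 0)).card ≤ g)
    (hn' : (univ.filter (fun v => (nb H v).card ≠ 0)).card ≤ Δ) : Light g Δ H := by
  by_contra hL
  obtain ⟨a, b, hab⟩ := hedge
  set Vn := univ.filter (fun v : V => (nb H v).card ≠ 0) with hVn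
  have hmem : ∀ x y, H.Adj x y → y ∈ Vn := by
    intro x y hxy
    rw [hVn, mem_filter]
    refine ⟨mem_univ _, ?_⟩
    exact (Finset.card_pos.mpr ⟨x, mem_nb.mpr hxy.symm⟩).ne'
  have hlow : ∀ x, (nb H x).card ≤ Δ := by
    intro x
    refine le_trans (card_le_card ?_) hn'
    intro y hy
    exact hmem x y (mem_nb.mp hy)
  set Z := univ.filter (fun y : V => H.Reachable a y) with hZ
  have haZ : a ∈ Z := by rw [hZ, mem_filter]; exact ⟨mem_univ _, SimpleGraph.Reachable.refl _⟩
  have hZadj : ∀ x ∈ Z, ∀ y, H.Adj x y → y ∈ Z := by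
    intro x hx y hxy
    rw [hZ, mem_filter] at hx ⊢
    exact ⟨mem_univ _, hx.2.trans hxy.reachable⟩
  have hwalk : ∀ x y (w : H.Walk x y), x ∈ Z → ∀ u ∈ w.support, u ∈ Z := by
    intro x y w
    induction w with
    | nil =>
      intro hx u hu
      rw [SimpleGraph.Walk.support_nil, List.mem_singleton] at hu
      rw [hu]
      exact hx
    | cons h w ih =>
      intro hx u hu
      rw [SimpleGraph.Walk.support_cons, List.mem_cons] at hu
      rcases hu with rfl | hu
      · exact hx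
      · exact ih (hZadj _ hx _ h) u hu
  have hconn : Conn H Z := by
    intro x hx y hy
    have hx' := hx
    have hy' := hy
    rw [hZ, mem_filter] at hx' hy'
    obtain ⟨w⟩ := hx'.2.symm.trans hy'.2
    exact ⟨w, hwalk x y w hx⟩
  have hZVn : Z ⊆ Vn := by
    intro x hx
    rw [hZ, mem_filter] at hx
    obtain ⟨w⟩ := hx.2.symm
    cases w with
    | nil => exact hmem b a hab.symm
    | cons h w => exact hmem _ _ h.symm
  have ht := tree_sum hL ⟨a, haZ⟩ hconn (fun x _ => hlow x)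
    ((card_le_card hZVn).trans (hn.trans (Nat.le_succ g)))
  have h2 : 2 * Z.card ≤ ∑ z ∈ Z, ((nb H z).filter (fun y => y ∈ Z)).card := by
    rw [mul_comm, ← smul_eq_mul, ← Finset.sum_const]
    refine Finset.sum_le_sum fun z hz => ?_
    have h3 : (nb H z).filter (fun y => y ∈ Z) = nb H z := by
      rw [Finset.filter_eq_self]
      intro y hy
      exact hZadj z hz y (mem_nb.mp hy)
    rw [h3]
    have h4 := hZVn hz
    rw [hVn, mem_filter] at h4
    rcases hdeg z with h5 | h5
    · exact absurd h5 h4.2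
    · exact h5
  omega

theorem light_exists (M : ℕ) : ∃ g Δ : ℕ, ∀ (V : Type) [Fintype V] (H : SimpleGraph V)
    (pos : V → ℂ) (C : Sym2 V → Set ℂ), TopD M H pos C → ∀ X₀ : Finset V, X₀.card ≤ 2 →
    (∀ v, (nb H v).card = 0 ∨
      2 ≤ (nb H v).card ∧ 3 ≤ (nb H v).card + (if v ∈ X₀ then 1 else 0)) →
    (∃ a b, H.Adj a b) → Light g Δ H := by
  obtain ⟨r, hr⟩ : ∃ r : ℕ, r = M + 16 := ⟨_, rfl⟩
  obtain ⟨W, hW⟩ : ∃ W : ℕ, W = 56 * (2 * M * (2 * (2 * r) + 1) + 1) := ⟨_, rfl⟩
  obtain ⟨D, hD⟩ : ∃ D : ℕ, D = 56 * (2 * M * (2 * 0 + 1) + 1) := ⟨_, rfl⟩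
  obtain ⟨K, hK⟩ : ∃ K : ℕ, K = 8 * (W + 2) := ⟨_, rfl⟩
  obtain ⟨t, ht⟩ : ∃ t : ℕ, t = K * D := ⟨_, rfl⟩
  have hDpos : 0 < D := by rw [hD]; positivity
  have hKpos : 0 < K := by rw [hK]; positivity
  have htpos : 0 < t := by rw [ht]; exact Nat.mul_pos hKpos hDpos
  obtain ⟨T, hT⟩ : ∃ T, T = th K D M r := ⟨_, rfl⟩
  refine ⟨2 * (T t + 1) ^ (2 * r) + K, T t + K, ?_⟩
  intro V _ H pos C hTop X₀ hX₀ hdeg hedge
  by_contra hL
  set Vn := univ.filter (fun v : V => (nb H v).card ≠ 0) with hVn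
  have hVnmem : ∀ v, v ∈ Vn ↔ (nb H v).card ≠ 0 := fun v => by rw [hVn, mem_filter]; simp
  rcases Nat.lt_or_ge K Vn.card with hbig | hsmall
  swap
  · refine hL (small_light (fun v => ?_) hedge (hsmall.trans (Nat.le_add_left _ _))
      (hsmall.trans (Nat.le_add_left _ _)))
    rcases hdeg v with h | h
    · exact Or.inl h
    · exact Or.inr h.1
  set n := Vn.card with hn
  have hadjVn : ∀ x y, H.Adj x y → y ∈ Vn := by
    intro x y hxy
    rw [hVnmem]
    exact (Finset.card_pos.mpr ⟨x, mem_nb.mpr hxy.symm⟩).ne'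
  -- the average degree is bounded
  have hsum : ∑ v ∈ Vn, (nb H v).card ≤ D * n := by
    have h := samp' hTop Vn (fun v => {v}) (fun x _ y _ hxy => Finset.disjoint_singleton.mpr hxy)
      (fun x _ => mem_singleton_self x) 0 (by
        intro x _ v hv
        rw [mem_singleton] at hv
        subst hv
        exact ⟨SimpleGraph.Walk.nil, by simp, by simp⟩)
    rw [← hD] at h
    refine le_trans (Finset.sum_le_sum fun v _ => ?_) h
    refine card_le_card ?_
    intro y hy
    rw [mem_nb] at hy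
    rw [mem_filter]
    exact ⟨hadjVn v y hy, hy.ne, v, mem_singleton_self v, y, mem_singleton_self y, hy⟩
  -- the choice of the thresholds
  have hmono : Monotone T := hT ▸ th_mono K D M r
  set Mid : ℕ → Finset V := fun i =>
    univ.filter (fun v => T i < (nb H v).card ∧ (nb H v).card ≤ T (i + 1)) with hMid
  have hMidmem : ∀ i v, v ∈ Mid i ↔ T i < (nb H v).card ∧ (nb H v).card ≤ T (i + 1) :=
    fun i v => by simp [hMid]
  have hMidsum : ∑ i ∈ range t, ∑ v ∈ Mid i, (nb H v).card ≤ ∑ v ∈ Vn, (nb H v).card := by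
    rw [← Finset.sum_biUnion]
    · refine Finset.sum_le_sum_of_subset ?_
      intro v hv
      rw [mem_biUnion] at hv
      obtain ⟨i, -, hv⟩ := hv
      rw [hMidmem] at hv
      rw [hVnmem]
      omega
    · intro i _ j _ hij
      simp only [Function.onFun]
      rw [Finset.disjoint_left]
      intro v hv hv'
      rw [hMidmem] at hv hv'
      rcases Nat.lt_or_gt_of_ne hij with h | h
      · have := hmono (show i + 1 ≤ j by omega)
        omega
      · have := hmono (show j + 1 ≤ i by omega)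
        omega
  obtain ⟨i, hi, hMidi⟩ : ∃ i ∈ range t, t * ∑ v ∈ Mid i, (nb H v).card ≤ D * n := by
    refine Finset.exists_le_of_sum_le (s := range t) ⟨0, by simpa using htpos⟩ ?_
    rw [← Finset.mul_sum, Finset.sum_const, card_range, smul_eq_mul]
    exact Nat.mul_le_mul_left _ (hMidsum.trans hsum)
  rw [mem_range] at hi
  obtain ⟨Δ, hΔ⟩ : ∃ Δ, Δ = T i := ⟨_, rfl⟩
  obtain ⟨q, hq⟩ : ∃ q, q = (Δ + 1) ^ (2 * r) := ⟨_, rfl⟩
  have hT1 : T (i + 1) = Δ + 4 * D + K * D * (Δ * (q * (406 * (q * (Δ * (M * 2)) + 1)))) := by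
    rw [hq, hΔ, hT, th]
  have hTt : Δ ≤ T t := hΔ ▸ hmono hi.le
  have hqle : q ≤ (T t + 1) ^ (2 * r) := hq ▸ Nat.pow_le_pow_left (by omega) _
  obtain ⟨g, hg⟩ : ∃ g, g = 2 * (T t + 1) ^ (2 * r) + K := ⟨_, rfl⟩
  have hgq : 2 * q ≤ g := by
    rw [hg]
    exact (Nat.mul_le_mul_left _ hqle).trans (Nat.le_add_right _ _)
  rw [← hg] at hL
  have hL' : ¬ Light g Δ H := fun h => hL (h.mono le_rfl (hTt.trans (Nat.le_add_right _ _)))
  set L0 := Vn.filter (fun v => (nb H v).card ≤ Δ) with hL0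
  set Hi := univ.filter (fun v : V => T (i + 1) < (nb H v).card) with hHi
  have hL0mem : ∀ v, v ∈ L0 ↔ (nb H v).card ≠ 0 ∧ (nb H v).card ≤ Δ := by
    intro v
    rw [hL0, mem_filter, hVnmem]
  have hHimem : ∀ v, v ∈ Hi ↔ T (i + 1) < (nb H v).card := by
    intro v
    rw [hHi, mem_filter]
    simp
  have hTi : Δ ≤ T (i + 1) := hΔ ▸ hmono (Nat.le_succ i)
  -- the maximal family of pieces
  obtain ⟨good, hgood⟩ : ∃ good : Finset (Finset V) → Prop, ∀ Q, good Q ↔
      (∀ Z ∈ Q, ∀ Z' ∈ Q, Z ≠ Z' → Disjoint Z Z') ∧ ∀ Z ∈ Q, Z ⊆ L0 ∧ Conn H Z ∧ Z.card ≤ q ∧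
        3 ≤ (Hi.filter (fun y => ∃ z ∈ Z, H.Adj z y)).card := ⟨_, fun Q => Iff.rfl⟩
  obtain ⟨Q, hQ, hmax⟩ := Finset.exists_max_image ((univ : Finset (Finset (Finset V))).filter good)
    Finset.card ⟨∅, by rw [mem_filter, hgood]; simp⟩
  rw [mem_filter, hgood] at hQ
  obtain ⟨-, hQd, hQp⟩ := hQ
  set R := Q.biUnion id with hR
  have hRL0 : R ⊆ L0 := by
    intro v hv
    rw [hR, mem_biUnion] at hv
    obtain ⟨Z, hZ, hv⟩ := hv
    exact (hQp Z hZ).1 hv
  set L := L0 \ R with hLdef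
  set Bad := Mid i ∪ R with hBad
  have hstar : Q.card ≤ 406 * (q * (Δ * (M * 2)) + 1) * Hi.card := by
    refine star hTop Hi Q q Δ hQd ?_ (fun Z hZ => (hQp Z hZ).2.1) (fun Z hZ => (hQp Z hZ).2.2.1)
      ?_ ?_
    · intro Z hZ
      rw [Finset.disjoint_left]
      intro v hv hv'
      have h1 := (hQp Z hZ).1 hv
      rw [hL0mem] at h1
      rw [hHimem] at hv'
      omega
    · intro Z hZ x hx
      refine (incid_le x).trans ?_
      have h1 := (hQp Z hZ).1 hx
      rw [hL0mem] at h1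
      exact_mod_cast h1.2
    · intro Z hZ
      refine ⟨Hi.filter (fun y => ∃ z ∈ Z, H.Adj z y), filter_subset _ _, (hQp Z hZ).2.2.2, ?_⟩
      intro a ha
      rw [mem_filter] at ha
      exact ha.2
  have hvol := volume hTop (g := g) (Δ := Δ) (r := r) hL' L Hi Bad X₀
    (fun x hx => ((hL0mem x).mp (mem_sdiff.mp hx).1).2) (by
      intro x hx hx'
      have h1 := (hL0mem x).mp (mem_sdiff.mp hx).1
      rw [hHimem] at hx'
      omega) (by
      intro x hx y hxy
      have hy := hadjVn x y hxy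
      rw [hVnmem] at hy
      by_cases h1 : (nb H y).card ≤ Δ
      · have hyL0 : y ∈ L0 := (hL0mem y).mpr ⟨hy, h1⟩
        by_cases h2 : y ∈ R
        · exact Or.inr (Or.inl (mem_union_right _ h2))
        · exact Or.inl (mem_sdiff.mpr ⟨hyL0, h2⟩)
      · by_cases h2 : (nb H y).card ≤ T (i + 1)
        · exact Or.inr (Or.inl (mem_union_left _ ((hMidmem i y).mpr ⟨by omega, h2⟩)))
        · exact Or.inr (Or.inr ((hHimem y).mpr (by omega)))) (by
      intro x hx
      rcases hdeg x with h | h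
      · exact absurd h ((hL0mem x).mp (mem_sdiff.mp hx).1).1
      · exact h.2) (hq ▸ hgq) (by
      intro Z hZL hZc hZne hZq
      rw [← hq] at hZq
      by_contra hcon
      push Not at hcon
      obtain ⟨z0, hz0⟩ := hZne
      have hdZ : ∀ Z' ∈ Q, Disjoint Z Z' := by
        intro Z' hZ'
        rw [Finset.disjoint_left]
        intro v hv hv'
        refine (mem_sdiff.mp (hZL hv)).2 ?_
        rw [hR, mem_biUnion]
        exact ⟨Z', hZ', hv'⟩
      have hZQ : Z ∉ Q := by
        intro h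
        exact Finset.disjoint_left.mp (hdZ Z h) hz0 hz0
      have h6 := hmax (insert Z Q) (by
        rw [mem_filter, hgood]
        refine ⟨mem_univ _, ?_, ?_⟩
        · intro A hA B hB hAB
          rw [mem_insert] at hA hB
          rcases hA with rfl | hA
          · rcases hB with rfl | hB
            · exact absurd rfl hAB
            · exact hdZ B hB
          · rcases hB with rfl | hB
            · exact (hdZ A hA).symm
            · exact hQd A hA B hB hAB
        · intro A hA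
          rw [mem_insert] at hA
          rcases hA with rfl | hA
          · exact ⟨fun v hv => (mem_sdiff.mp (hZL hv)).1, hZc, hZq, hcon⟩
          · exact hQp A hA)
      rw [card_insert_of_notMem hZQ] at h6
      omega) W hW (by rw [hW, hr]; exact exists_radius M)
  -- the defects
  set β₁ := ∑ y ∈ Bad, (nb H y).card with hβ₁
  have hβ : ∑ z ∈ L, (((nb H z).filter (fun y => y ∈ Bad)).card + (if z ∈ X₀ then 1 else 0)) ≤
      β₁ + 2 := by
    rw [Finset.sum_add_distrib]
    refine add_le_add (double_count H L Bad) ?_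
    rw [← Finset.card_filter]
    refine (card_le_card ?_).trans hX₀
    intro x hx
    rw [mem_filter] at hx
    exact hx.2
  have hRcard : R.card ≤ Q.card * q :=
    Finset.card_biUnion_le_card_mul Q id q fun Z hZ => (hQp Z hZ).2.2.1
  have hRsum : ∑ y ∈ R, (nb H y).card ≤ Δ * R.card := by
    rw [mul_comm, ← smul_eq_mul, ← Finset.sum_const]
    exact Finset.sum_le_sum fun y hy => ((hL0mem y).mp (hRL0 hy)).2
  have hHisum : T (i + 1) * Hi.card ≤ D * n := by
    refine le_trans ?_ hsum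
    have h1 : T (i + 1) * Hi.card ≤ ∑ v ∈ Hi, (nb H v).card := by
      rw [mul_comm, ← smul_eq_mul, ← Finset.sum_const]
      exact Finset.sum_le_sum fun y hy => ((hHimem y).mp hy).le
    refine h1.trans (Finset.sum_le_sum_of_subset ?_)
    intro v hv
    rw [hHimem] at hv
    rw [hVnmem]
    omega
  obtain ⟨G, hG⟩ : ∃ G, G = Δ * (q * (406 * (q * (Δ * (M * 2)) + 1))) := ⟨_, rfl⟩
  have hRG : ∑ y ∈ R, (nb H y).card ≤ G * Hi.card := by
    calc ∑ y ∈ R, (nb H y).card ≤ Δ * R.card := hRsum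
      _ ≤ Δ * (Q.card * q) := Nat.mul_le_mul_left _ hRcard
      _ ≤ Δ * ((406 * (q * (Δ * (M * 2)) + 1) * Hi.card) * q) :=
        Nat.mul_le_mul_left _ (Nat.mul_le_mul_right _ hstar)
      _ = G * Hi.card := by rw [hG]; ring
  have h10 : D * (K * (G * Hi.card)) + D * (4 * Hi.card) + Δ * Hi.card ≤ D * n := by
    refine le_trans (le_of_eq ?_) hHisum
    rw [hT1, ← hG]
    ring
  have h11 : K * (G * Hi.card) ≤ n := by
    refine le_of_mul_le_mul_left ?_ hDpos
    have : 0 ≤ Δ * Hi.card := Nat.zero_le _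
    omega
  have h12 : 4 * Hi.card ≤ n := by
    refine le_of_mul_le_mul_left ?_ hDpos
    have : 0 ≤ Δ * Hi.card := Nat.zero_le _
    omega
  have h13 : K * ∑ v ∈ Mid i, (nb H v).card ≤ n := by
    refine le_of_mul_le_mul_left ?_ hDpos
    calc D * (K * ∑ v ∈ Mid i, (nb H v).card) = t * ∑ v ∈ Mid i, (nb H v).card := by
          rw [ht]; ring
      _ ≤ D * n := hMidi
  have h14 : K * β₁ ≤ 2 * n := by
    have h15 : β₁ ≤ ∑ v ∈ Mid i, (nb H v).card + ∑ y ∈ R, (nb H y).card := by
      rw [hβ₁, hBad]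
      have := Finset.sum_union_inter (s₁ := Mid i) (s₂ := R) (f := fun y => (nb H y).card)
      omega
    calc K * β₁ ≤ K * (∑ v ∈ Mid i, (nb H v).card + ∑ y ∈ R, (nb H y).card) :=
          Nat.mul_le_mul_left _ h15
      _ = K * ∑ v ∈ Mid i, (nb H v).card + K * ∑ y ∈ R, (nb H y).card := by ring
      _ ≤ n + K * (G * Hi.card) := add_le_add h13 (Nat.mul_le_mul_left _ hRG)
      _ ≤ 2 * n := by omega
  have hBadcard : Bad.card ≤ β₁ := by
    rw [Finset.card_eq_sum_ones]
    refine Finset.sum_le_sum fun y hy => ?_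
    rw [hBad, mem_union, hMidmem] at hy
    rcases hy with h | h
    · omega
    · have := ((hL0mem y).mp (hRL0 h)).1
      omega
  have hcov : n ≤ L.card + Bad.card + Hi.card := by
    have hsub : Vn ⊆ (L ∪ Bad) ∪ Hi := by
      intro v hv
      rw [hVnmem] at hv
      rw [mem_union, mem_union]
      by_cases h1 : (nb H v).card ≤ Δ
      · have hvL0 : v ∈ L0 := (hL0mem v).mpr ⟨hv, h1⟩
        by_cases h2 : v ∈ R
        · exact Or.inl (Or.inr (mem_union_right _ h2))
        · exact Or.inl (Or.inl (mem_sdiff.mpr ⟨hvL0, h2⟩))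
      · by_cases h2 : (nb H v).card ≤ T (i + 1)
        · exact Or.inl (Or.inr (mem_union_left _ ((hMidmem i v).mpr ⟨by omega, h2⟩)))
        · exact Or.inr ((hHimem v).mpr (by omega))
    refine (card_le_card hsub).trans ((card_union_le _ _).trans ?_)
    exact Nat.add_le_add_right (card_union_le _ _) _
  have h16 : 3 * L.card ≤ 4 * (W + 1) * (β₁ + 2) :=
    hvol.trans (Nat.mul_le_mul_left _ hβ)
  have h17 : 4 * (W + 1) * (β₁ + 2) = 4 * (W * β₁) + 4 * β₁ + 8 * W + 8 := by ring
  have h18 : K * β₁ = 8 * (W * β₁) + 16 * β₁ := by rw [hK]; ring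
  have h19 : K = 8 * W + 16 := by rw [hK]; ring
  omega

end Pool.Agent.H354_OP
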