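import Pool.Agent.H354_OP.LC

/-!
# Light edges with respect to a prescribed degree function
-/

set_option autoImplicit false

namespace Pool.Agent.H354_OP

open Finset
open scoped Classical

set_option linter.unusedSectionVars false

variable {V : Type} [Fintype V]

/-- an edge whose ends are joined by another path of length at most `g` on whose inner
vertices the function `d` is at most `Δ` -/
def LightD (g Δ : ℕ) (d : V → ℕ) (H : SimpleGraph V) : Prop :=
  ∃ u v, H.Adj u v ∧ ∃ w : H.Walk u v, w.IsPath ∧ 2 ≤ w.length ∧ w.length ≤ g ∧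
    ∀ x ∈ w.support, x ≠ u → x ≠ v → d x ≤ Δ

theorem two_edgesD {H : SimpleGraph V} {g Δ : ℕ} {d : V → ℕ} {A B : Finset V} (hA : Conn H A)
    (hB : Conn H B) (hd : ∀ x ∈ A, x ∉ B) {z z' y y' : V} (hz : z ∈ A) (hz' : z' ∈ A)
    (hy : y ∈ B) (hy' : y' ∈ B) (hzy : H.Adj z y) (hzy' : H.Adj z' y') (hne : z ≠ z' ∨ y ≠ y')
    (hAl : ∀ x ∈ A, d x ≤ Δ) (hBl : ∀ x ∈ B, x ≠ y → d x ≤ Δ)
    (hg : A.card + B.card ≤ g + 1) : LightD g Δ d H := by
  obtain ⟨w1, p1, s1, l1⟩ := hA.path hz hz'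
  obtain ⟨w2, p2, s2, l2⟩ := hB.path hy' hy
  refine ⟨z, y, hzy, w1.append (SimpleGraph.Walk.cons hzy' w2), ?_, ?_, ?_, ?_⟩
  · rw [SimpleGraph.Walk.isPath_def, SimpleGraph.Walk.support_append,
      SimpleGraph.Walk.support_cons, List.tail_cons, List.nodup_append]
    refine ⟨p1.support_nodup, p2.support_nodup, ?_⟩
    intro a ha b hb hab
    subst hab
    exact hd a (s1 a ha) (s2 a hb)
  · rw [SimpleGraph.Walk.length_append, SimpleGraph.Walk.length_cons]
    rcases hne with h | h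
    · have : 0 < w1.length := by
        rcases Nat.eq_zero_or_pos w1.length with h0 | h0
        · exact absurd (SimpleGraph.Walk.eq_of_length_eq_zero h0) h
        · exact h0
      omega
    · have : 0 < w2.length := by
        rcases Nat.eq_zero_or_pos w2.length with h0 | h0
        · exact absurd (SimpleGraph.Walk.eq_of_length_eq_zero h0).symm h
        · exact h0
      omega
  · rw [SimpleGraph.Walk.length_append, SimpleGraph.Walk.length_cons]
    omega
  · intro x hx hxz hxy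
    rw [SimpleGraph.Walk.mem_support_append_iff, SimpleGraph.Walk.support_cons,
      List.mem_cons] at hx
    rcases hx with hx | rfl | hx
    · exact hAl x (s1 x hx)
    · exact hAl x hz'
    · exact hBl x (s2 x hx) hxy

/-- a vertex outside a small connected set of vertices of small degree has at most one
neighbour in it -/
theorem attachD {H : SimpleGraph V} {g Δ : ℕ} {d : V → ℕ} (hL : ¬ LightD g Δ d H) {Z : Finset V}
    (hZ : Conn H Z) (hZl : ∀ x ∈ Z, d x ≤ Δ) (hg : Z.card ≤ g) {y z z' : V}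
    (hy : y ∉ Z) (hz : z ∈ Z) (hz' : z' ∈ Z) (hzy : H.Adj z y) (hzy' : H.Adj z' y) : z = z' := by
  by_contra hne
  refine hL (two_edgesD hZ (conn_singleton H y) ?_ hz hz' (mem_singleton_self y)
    (mem_singleton_self y) hzy hzy' (Or.inl hne) hZl ?_ ?_)
  · intro x hx hxy
    rw [mem_singleton] at hxy
    exact hy (hxy ▸ hx)
  · intro x hx hxy
    exact absurd (mem_singleton.mp hx) hxy
  · rw [card_singleton]
    omega

theorem light_of_cycleD {H : SimpleGraph V} {g Δ : ℕ} {d : V → ℕ} {Z : Finset V}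
    (hZl : ∀ x ∈ Z, d x ≤ Δ) (hg : Z.card ≤ g + 1) {v : V} (c : H.Walk v v)
    (hc : c.IsCycle) (hs : ∀ u ∈ c.support, u ∈ Z) : LightD g Δ d H := by
  cases c with
  | nil => exact absurd rfl hc.ne_nil
  | @cons _ u _ h p =>
    have hlen := hc.three_le_length
    rw [SimpleGraph.Walk.length_cons] at hlen
    rw [SimpleGraph.Walk.cons_isCycle_iff] at hc
    have hs' : ∀ x ∈ p.support, x ∈ Z := fun x hx => hs x (by simp [hx])
    have := path_length hc.1 hs'
    exact ⟨u, v, h.symm, p, hc.1, by omega, by omega, fun x hx _ _ => hZl x (hs' x hx)⟩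

/-- a small connected set of vertices of small degree induces a tree -/
theorem tree_sumD {H : SimpleGraph V} {g Δ : ℕ} {d : V → ℕ} (hL : ¬ LightD g Δ d H) {Z : Finset V}
    (hne : Z.Nonempty) (hZ : Conn H Z) (hZl : ∀ x ∈ Z, d x ≤ Δ)
    (hg : Z.card ≤ g + 1) :
    ∑ z ∈ Z, ((nb H z).filter (fun y => y ∈ Z)).card + 2 = 2 * Z.card := by
  set K := H.induce (Z : Set V) with hK
  have hconn : K.Connected := by
    obtain ⟨x, hx⟩ := hne
    have : Nonempty (Z : Set V) := ⟨⟨x, hx⟩⟩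
    constructor
    intro a b
    obtain ⟨w, hw⟩ := hZ a.1 a.2 b.1 b.2
    exact ⟨w.induce (Z : Set V) hw⟩
  have hacyc : K.IsAcyclic := by
    intro v c hc
    refine hL (light_of_cycleD hZl hg (c.map (SimpleGraph.Embedding.induce (G := H) (Z : Set V)).toHom)
      (hc.map (SimpleGraph.Embedding.induce (G := H) (Z : Set V)).injective) ?_)
    intro u hu
    rw [SimpleGraph.Walk.support_map, List.mem_map] at hu
    obtain ⟨x, -, rfl⟩ := hu
    exact x.2
  have htree : K.IsTree := ⟨hconn, hacyc⟩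
  have h1 := htree.card_edgeFinset
  have h2 := K.sum_degrees_eq_twice_card_edges
  have h3 : Fintype.card (Z : Set V) = Z.card := by simp
  rw [h3] at h1
  have h4 : ∑ v : (Z : Set V), K.degree v =
      ∑ z ∈ Z, ((nb H z).filter (fun y => y ∈ Z)).card := by
    have h5 : ∀ v : (Z : Set V), K.degree v = ((nb H v.1).filter (fun y => y ∈ Z)).card := by
      intro v
      rw [← SimpleGraph.card_neighborFinset_eq_degree]
      refine Finset.card_bij (fun y _ => y.1) ?_ ?_ ?_
      · intro y hy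
        rw [SimpleGraph.mem_neighborFinset] at hy
        rw [mem_filter, mem_nb]
        exact ⟨hy, y.2⟩
      · intro y _ y' _ h
        exact Subtype.ext h
      · intro y hy
        rw [mem_filter, mem_nb] at hy
        refine ⟨⟨y, hy.2⟩, ?_, rfl⟩
        rw [SimpleGraph.mem_neighborFinset]
        exact hy.1
    rw [Finset.sum_congr rfl fun v _ => h5 v]
    exact Finset.sum_coe_sort Z (fun z => ((nb H z).filter (fun y => y ∈ Z)).card)
  rw [← h4, h2]
  omega

/-- a connected set of vertices of small degree sends at least as many edges out as it has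
vertices, up to a defect -/
theorem out_boundD {H : SimpleGraph V} {g Δ : ℕ} {d δ : V → ℕ} (hL : ¬ LightD g Δ d H) {L Hi Bad Z : Finset V}
    (hne : Z.Nonempty) (hZ : Conn H Z) (hZl : ∀ x ∈ Z, d x ≤ Δ) (hg : Z.card ≤ g)
    (hZHi : ∀ x ∈ Z, x ∉ Hi)
    (hcov : ∀ x ∈ Z, ∀ y, H.Adj x y → y ∈ L ∨ y ∈ Bad ∨ y ∈ Hi)
    (hdeg : ∀ x ∈ Z, 3 ≤ (nb H x).card + δ x)
    (h2 : (Hi.filter (fun y => ∃ z ∈ Z, H.Adj z y)).card ≤ 2) :
    Z.card ≤ ∑ z ∈ Z, ((nb H z).filter (fun y => y ∈ L ∧ y ∉ Z)).card +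
      ∑ z ∈ Z, (((nb H z).filter (fun y => y ∈ Bad)).card + δ z) := by
  have ht := tree_sumD hL hne hZ hZl (by omega)
  have hhi : ∑ z ∈ Z, ((nb H z).filter (fun y => y ∈ Hi)).card ≤ 2 := by
    rw [← Finset.card_biUnion]
    · refine le_trans (card_le_card ?_) h2
      intro y hy
      rw [mem_biUnion] at hy
      obtain ⟨z, hz, hy⟩ := hy
      rw [mem_filter, mem_nb] at hy
      rw [mem_filter]
      exact ⟨hy.2, z, hz, hy.1⟩
    · intro z hz z' hz' hzz
      simp only [Function.onFun]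
      rw [Finset.disjoint_left]
      intro y hy hy'
      rw [mem_filter, mem_nb] at hy hy'
      exact hzz (attachD hL hZ hZl hg (fun h => hZHi y h hy.2) hz hz' hy.1 hy'.1)
  have hpt : ∀ z ∈ Z, 3 ≤ ((nb H z).filter (fun y => y ∈ Z)).card +
      ((nb H z).filter (fun y => y ∈ L ∧ y ∉ Z)).card +
      ((nb H z).filter (fun y => y ∈ Hi)).card +
      (((nb H z).filter (fun y => y ∈ Bad)).card + δ z) := by
    intro z hz
    refine (hdeg z hz).trans ?_
    rw [← add_assoc]
    refine Nat.add_le_add_right ?_ _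
    have hsub : nb H z ⊆ (((nb H z).filter (fun y => y ∈ Z) ∪
        (nb H z).filter (fun y => y ∈ L ∧ y ∉ Z)) ∪ (nb H z).filter (fun y => y ∈ Hi)) ∪
        (nb H z).filter (fun y => y ∈ Bad) := by
      intro y hy
      simp only [mem_union, mem_filter]
      rcases hcov z hz y (mem_nb.mp hy) with h | h | h
      · by_cases hyZ : y ∈ Z
        · exact Or.inl (Or.inl (Or.inl ⟨hy, hyZ⟩))
        · exact Or.inl (Or.inl (Or.inr ⟨hy, h, hyZ⟩))
      · exact Or.inr ⟨hy, h⟩
      · exact Or.inl (Or.inr ⟨hy, h⟩)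
    refine (card_le_card hsub).trans ((card_union_le _ _).trans ?_)
    refine Nat.add_le_add_right ((card_union_le _ _).trans ?_) _
    exact Nat.add_le_add_right (card_union_le _ _) _
  have hsum := Finset.sum_le_sum hpt
  rw [Finset.sum_const, smul_eq_mul, Finset.sum_add_distrib, Finset.sum_add_distrib,
    Finset.sum_add_distrib] at hsum
  omega

theorem ball_growthD {H : SimpleGraph V} {g Δ : ℕ} {d : V → ℕ} (hL : ¬ LightD g Δ d H) {L : Finset V} {x : V}
    (hx : x ∈ L) (hLl : ∀ x ∈ L, d x ≤ Δ) (j : ℕ) (hg : (ball H L x j).card ≤ g) :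
    (ball H L x j).card + ∑ z ∈ ball H L x j,
      ((nb H z).filter (fun y => y ∈ L ∧ y ∉ ball H L x j)).card ≤ (ball H L x (j + 1)).card := by
  rw [← Finset.card_biUnion]
  · rw [← Finset.card_union_of_disjoint]
    · refine card_le_card ?_
      intro y hy
      rw [mem_union, mem_biUnion] at hy
      rcases hy with hy | ⟨z, hz, hy⟩
      · exact ball_mono (Nat.le_succ j) hy
      · rw [mem_filter, mem_nb] at hy
        exact ball_adj hz hy.1 (ball_sub hx j hz) hy.2.1
    · rw [Finset.disjoint_left]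
      intro y hy hy'
      rw [mem_biUnion] at hy'
      obtain ⟨z, hz, hy'⟩ := hy'
      rw [mem_filter] at hy'
      exact hy'.2.2 hy
  · intro z hz z' hz' hzz
    simp only [Function.onFun]
    rw [Finset.disjoint_left]
    intro y hy hy'
    rw [mem_filter, mem_nb] at hy hy'
    exact hzz (attachD hL (ball_conn H L x j) (fun u hu => hLl u (ball_sub hx j hu)) hg
      hy.2.2 hz hz' hy.1 hy'.1)

theorem LightD.mono {H : SimpleGraph V} {g g' Δ Δ' : ℕ} {d : V → ℕ} (h : LightD g Δ d H) (hg : g ≤ g')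
    (hΔ : Δ ≤ Δ') : LightD g' Δ' d H := by
  obtain ⟨u, v, huv, w, h1, h2, h3, h4⟩ := h
  exact ⟨u, v, huv, w, h1, h2, h3.trans hg, fun x hx hxu hxv => (h4 x hx hxu hxv).trans hΔ⟩

theorem volumeD {M : ℕ} {H : SimpleGraph V} {pos : V → ℂ} {C : Sym2 V → Set ℂ}
    (hT : TopD M H pos C) {g Δ r : ℕ} {d δ : V → ℕ} (hnd : ∀ x, (nb H x).card ≤ d x) (hLight : ¬ LightD g Δ d H) (L Hi Bad : Finset V)
    (hLl : ∀ x ∈ L, d x ≤ Δ) (hLHi : ∀ x ∈ L, x ∉ Hi)
    (hcov : ∀ x ∈ L, ∀ y, H.Adj x y → y ∈ L ∨ y ∈ Bad ∨ y ∈ Hi)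
    (hdeg : ∀ x ∈ L, 3 ≤ (nb H x).card + δ x)
    (hg : 2 * (Δ + 1) ^ (2 * r) ≤ g)
    (hHi : ∀ Z : Finset V, Z ⊆ L → Conn H Z → Z.Nonempty → Z.card ≤ (Δ + 1) ^ (2 * r) →
      (Hi.filter (fun y => ∃ z ∈ Z, H.Adj z y)).card ≤ 2)
    (W : ℕ) (hW : W = 56 * (2 * M * (2 * (2 * r) + 1) + 1)) (hr : 4 * W ≤ 2 ^ r) :
    3 * L.card ≤ 4 * (W + 1) *
      ∑ z ∈ L, (((nb H z).filter (fun y => y ∈ Bad)).card + δ z) := by
  set β : V → ℕ := fun z => ((nb H z).filter (fun y => y ∈ Bad)).card +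
    δ z with hβ
  have hqpos : 1 ≤ (Δ + 1) ^ (2 * r) := Nat.one_le_pow _ _ (by omega)
  -- centres
  obtain ⟨good, hgood⟩ : ∃ good : Finset V → Prop, ∀ X, good X ↔
      ∀ x ∈ X, ∀ y ∈ X, x ≠ y → Disjoint (ball H L x r) (ball H L y r) := ⟨_, fun X => Iff.rfl⟩
  obtain ⟨X, hX, hmax⟩ := Finset.exists_max_image (L.powerset.filter good) Finset.card
    ⟨∅, by rw [mem_filter, hgood]; simp⟩
  rw [mem_filter, mem_powerset, hgood] at hX
  obtain ⟨hXL, hXd⟩ := hX
  have hcover : ∀ v ∈ L, ∃ x ∈ X, v ∈ ball H L x (2 * r) := by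
    intro v hv
    by_cases hvX : v ∈ X
    · exact ⟨v, hvX, self_mem_ball H L v _⟩
    · by_contra hcon
      push Not at hcon
      have hdis : ∀ x ∈ X, Disjoint (ball H L v r) (ball H L x r) := by
        intro x hx
        rw [Finset.disjoint_left]
        intro u hu hu'
        refine hcon x hx ?_
        rw [two_mul]
        exact ball_trans hu' (ball_symm hu)
      have h6 := hmax (insert v X) (by
        rw [mem_filter, mem_powerset, hgood]
        refine ⟨Finset.insert_subset hv hXL, ?_⟩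
        intro a ha b hb hab
        rw [mem_insert] at ha hb
        rcases ha with rfl | ha
        · rcases hb with rfl | hb
          · exact absurd rfl hab
          · exact hdis b hb
        · rcases hb with rfl | hb
          · exact (hdis a ha).symm
          · exact hXd a ha b hb hab)
      rw [card_insert_of_notMem hvX] at h6
      omega
  obtain ⟨f, hfX, hf⟩ := forest H L X (2 * r)
  set Z : V → Finset V := fun x => L.filter (fun v => f v = x) with hZ
  have hZL : ∀ x, Z x ⊆ L := fun x => filter_subset _ _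
  have hmemZ : ∀ x v, v ∈ Z x ↔ v ∈ L ∧ f v = x := fun x v => by simp [hZ]
  have hZroot : ∀ x ∈ X, ∀ v ∈ Z x, ∃ w : (res H L).Walk x v, w.length ≤ 2 * r ∧
      ∀ u ∈ w.support, u ∈ Z x := by
    intro x hx v hv
    obtain ⟨hvL, hvx⟩ := (hmemZ x v).mp hv
    obtain ⟨h1, w, hw, hs⟩ := hf v (hcover v hvL)
    subst hvx
    refine ⟨w, hw, fun u hu => ?_⟩
    rw [hmemZ]
    exact ⟨walk_res w (hXL h1) u hu, (hs u hu).2⟩
  have hZconn : ∀ x ∈ X, Conn H (Z x) := by
    intro x hx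
    refine conn_of_root (L := L) (x := x) fun v hv => ?_
    obtain ⟨w, -, hs⟩ := hZroot x hx v hv
    exact ⟨w, hs⟩
  have hZself : ∀ x ∈ X, x ∈ Z x := fun x hx => (hmemZ x x).mpr ⟨hXL hx, hfX x hx⟩
  have hZcard : ∀ x ∈ X, (Z x).card ≤ (Δ + 1) ^ (2 * r) := by
    intro x hx
    refine le_trans (card_le_card ?_) (ball_card (hXL hx) (fun x hx => (hnd x).trans (hLl x hx)) (2 * r))
    intro v hv
    obtain ⟨w, hw, -⟩ := hZroot x hx v hv
    exact mem_ball.mpr ⟨w, hw⟩
  have hZdisj : ∀ x y, x ≠ y → ∀ v ∈ Z x, v ∉ Z y := by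
    intro x y hxy v hv hv'
    exact hxy (((hmemZ x v).mp hv).2.symm.trans ((hmemZ y v).mp hv').2)
  have hsamp := samp' hT X Z (fun x _ y _ hxy => Finset.disjoint_left.mpr (hZdisj x y hxy))
    hZself (2 * r) (by
      intro x hx v hv
      obtain ⟨w, hw, hs⟩ := hZroot x hx v hv
      refine ⟨w.mapLe (res_le H L), by simpa using hw, ?_⟩
      intro u hu
      rw [SimpleGraph.Walk.support_mapLe_eq_support] at hu
      exact hs u hu)
  -- the out-edges of a cell go to different cells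
  have hout : ∀ x ∈ X, ∑ z ∈ Z x, ((nb H z).filter (fun y => y ∈ L ∧ y ∉ Z x)).card ≤
      (X.filter (fun y => x ≠ y ∧ ∃ a ∈ Z x, ∃ b ∈ Z y, H.Adj a b)).card := by
    intro x hx
    rw [← Finset.card_sigma]
    refine Finset.card_le_card_of_injOn (fun p => f p.2) ?_ ?_
    · rintro ⟨z, y⟩ hzy
      rw [Finset.mem_coe, mem_sigma] at hzy
      obtain ⟨hz, hzy⟩ := hzy
      simp only at hz hzy ⊢
      rw [mem_filter, mem_nb] at hzy
      obtain ⟨hadj, hyL, hyZ⟩ := hzy
      rw [Finset.mem_coe, mem_filter]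
      refine ⟨(hf y (hcover y hyL)).1, ?_, z, hz, y, (hmemZ _ _).mpr ⟨hyL, rfl⟩, hadj⟩
      intro h
      exact hyZ ((hmemZ _ _).mpr ⟨hyL, h.symm⟩)
    · rintro ⟨z, y⟩ hzy ⟨z', y'⟩ hzy' hff
      rw [Finset.mem_coe, mem_sigma] at hzy hzy'
      obtain ⟨hz, hzy⟩ := hzy
      obtain ⟨hz', hzy'⟩ := hzy'
      simp only at hz hzy hz' hzy' hff
      rw [mem_filter, mem_nb] at hzy hzy'
      obtain ⟨hadj, hyL, hyZ⟩ := hzy
      obtain ⟨hadj', hyL', hyZ'⟩ := hzy'
      by_contra hne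
      have hfy : f y ∈ X := (hf y (hcover y hyL)).1
      have hxy : x ≠ f y := fun h => hyZ ((hmemZ _ _).mpr ⟨hyL, h.symm⟩)
      have hor : z ≠ z' ∨ y ≠ y' := by
        by_contra hcon
        push Not at hcon
        obtain ⟨rfl, rfl⟩ := hcon
        exact hne rfl
      have h1 := hZcard x hx
      have h2 := hZcard (f y) hfy
      exact hLight (two_edgesD (hZconn x hx) (hZconn (f y) hfy) (hZdisj x (f y) hxy) hz hz'
        ((hmemZ _ _).mpr ⟨hyL, rfl⟩) ((hmemZ _ _).mpr ⟨hyL', hff.symm⟩) hadj hadj' hor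
        (fun u hu => hLl u (hZL _ hu)) (fun u hu _ => hLl u (hZL _ hu)) (by omega))
  have hob : ∀ Z : Finset V, Z ⊆ L → Conn H Z → Z.Nonempty → Z.card ≤ (Δ + 1) ^ (2 * r) →
      Z.card ≤ ∑ z ∈ Z, ((nb H z).filter (fun y => y ∈ L ∧ y ∉ Z)).card + ∑ z ∈ Z, β z := by
    intro Z hZ1 hZ2 hZ3 hZ4
    exact out_boundD hLight hZ3 hZ2 (fun x hx => hLl x (hZ1 hx)) (by omega)
      (fun x hx => hLHi x (hZ1 hx)) (fun x hx => hcov x (hZ1 hx)) (fun x hx => hdeg x (hZ1 hx))
      (hHi Z hZ1 hZ2 hZ3 hZ4)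
  have hLcard : L.card = ∑ x ∈ X, (Z x).card :=
    Finset.card_eq_sum_card_fiberwise fun v hv => (hf v (hcover v hv)).1
  have hLsum : ∑ x ∈ X, ∑ z ∈ Z x, β z = ∑ z ∈ L, β z :=
    Finset.sum_fiberwise_of_maps_to (fun v hv => (hf v (hcover v hv)).1) β
  have hL1 : L.card ≤ W * X.card + ∑ z ∈ L, β z := by
    rw [hLcard, ← hLsum, hW]
    refine le_trans (Finset.sum_le_sum fun x hx =>
      hob (Z x) (hZL x) (hZconn x hx) ⟨x, hZself x hx⟩ (hZcard x hx)) ?_
    rw [Finset.sum_add_distrib]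
    exact Nat.add_le_add_right ((Finset.sum_le_sum hout).trans hsamp) _
  -- balls of good centres are large
  have hbig : ∀ x ∈ X, ∑ z ∈ ball H L x r, β z = 0 → 2 ^ r ≤ (ball H L x r).card := by
    intro x hx h0
    have hβ0 : ∀ z ∈ ball H L x r, β z = 0 := Finset.sum_eq_zero_iff.mp h0
    have hind : ∀ j ≤ r, 2 ^ j ≤ (ball H L x j).card := by
      intro j
      induction j with
      | zero =>
        intro _
        exact Finset.card_pos.mpr ⟨x, self_mem_ball H L x 0⟩
      | succ j ih =>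
        intro hj
        have hc : (ball H L x j).card ≤ (Δ + 1) ^ (2 * r) :=
          (ball_card (hXL hx) (fun x hx => (hnd x).trans (hLl x hx)) j).trans (Nat.pow_le_pow_right (by omega) (by omega))
        have h1 := hob (ball H L x j) (ball_sub (hXL hx) j) (ball_conn H L x j)
          ⟨x, self_mem_ball H L x j⟩ hc
        have h2 : ∑ z ∈ ball H L x j, β z = 0 :=
          Finset.sum_eq_zero fun z hz => hβ0 z (ball_mono (by omega) hz)
        have h3 := ball_growthD hLight (hXL hx) hLl j (by omega)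
        have h4 := ih (by omega)
        rw [pow_succ]
        omega
    exact hind r le_rfl
  set Xg := X.filter (fun x => ∑ z ∈ ball H L x r, β z = 0) with hXg
  set Xb := X.filter (fun x => ¬ ∑ z ∈ ball H L x r, β z = 0) with hXb
  have hXcard : Xg.card + Xb.card = X.card := Finset.card_filter_add_card_filter_not _
  have hdisjb : ∀ Y ⊆ X, (↑Y : Set V).PairwiseDisjoint (fun x => ball H L x r) := by
    intro Y hY x hx y hy hxy
    exact hXd x (hY hx) y (hY hy) hxy
  have hsubL : ∀ Y ⊆ X, Y.biUnion (fun x => ball H L x r) ⊆ L := by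
    intro Y hY v hv
    rw [mem_biUnion] at hv
    obtain ⟨x, hx, hv⟩ := hv
    exact ball_sub (hXL (hY hx)) r hv
  have hXbcard : Xb.card ≤ ∑ z ∈ L, β z := by
    have h1 : Xb.card ≤ ∑ x ∈ Xb, ∑ z ∈ ball H L x r, β z := by
      rw [Finset.card_eq_sum_ones]
      refine Finset.sum_le_sum fun x hx => ?_
      rw [hXb, mem_filter] at hx
      omega
    rw [← Finset.sum_biUnion (hdisjb Xb (filter_subset _ _))] at h1
    exact h1.trans (Finset.sum_le_sum_of_subset (hsubL Xb (filter_subset _ _)))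
  have hXgcard : 2 ^ r * Xg.card ≤ L.card := by
    have h1 : ∑ x ∈ Xg, (ball H L x r).card ≤ L.card := by
      rw [← Finset.card_biUnion (hdisjb Xg (filter_subset _ _))]
      exact card_le_card (hsubL Xg (filter_subset _ _))
    refine le_trans ?_ h1
    rw [mul_comm, ← smul_eq_mul, ← Finset.sum_const]
    refine Finset.sum_le_sum fun x hx => ?_
    rw [hXg, mem_filter] at hx
    exact hbig x hx.1 hx.2
  have h5 : 4 * W * Xg.card ≤ L.card := (Nat.mul_le_mul_right _ hr).trans hXgcard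
  have h6 : W * X.card = W * Xg.card + W * Xb.card := by rw [← hXcard, mul_add]
  have h7 : W * Xb.card ≤ W * ∑ z ∈ L, β z := Nat.mul_le_mul_left _ hXbcard
  have h8 : 4 * W * Xg.card = 4 * (W * Xg.card) := by ring
  have h9 : 4 * (W + 1) * ∑ z ∈ L, β z = 4 * (W * ∑ z ∈ L, β z) + 4 * ∑ z ∈ L, β z := by ring
  rw [h9]
  omega



/-- the small case -/
theorem small_lightD {H : SimpleGraph V} {g Δ : ℕ} {d δ : V → ℕ} (a : V)
    (hdeg : ∀ v, 3 ≤ (nb H v).card + δ v) (hδ : ∑ v, δ v ≤ 2) (hg : Fintype.card V ≤ g)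
    (hd : ∀ v, d v ≤ Δ) : LightD g Δ d H := by
  by_contra hL
  set Z := univ.filter (fun y : V => H.Reachable a y) with hZ
  have haZ : a ∈ Z := by rw [hZ, mem_filter]; exact ⟨mem_univ _, SimpleGraph.Reachable.refl _⟩
  have hZadj : ∀ x ∈ Z, ∀ y, H.Adj x y → y ∈ Z := by
    intro x hx y hxy
    rw [hZ, mem_filter] at hx ⊢
    exact ⟨mem_univ _, hx.2.trans hxy.reachable⟩
  have hwalk : ∀ x y (w : H.Walk x y), x ∈ Z → ∀ u ∈ w.support, u ∈ Z := by
    intro x y w
    induction w with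
    | nil =>
      intro hx u hu
      rw [SimpleGraph.Walk.support_nil, List.mem_singleton] at hu
      rw [hu]
      exact hx
    | cons h w ih =>
      intro hx u hu
      rw [SimpleGraph.Walk.support_cons, List.mem_cons] at hu
      rcases hu with rfl | hu
      · exact hx
      · exact ih (hZadj _ hx _ h) u hu
  have hconn : Conn H Z := by
    intro x hx y hy
    have hx' := hx
    have hy' := hy
    rw [hZ, mem_filter] at hx' hy'
    obtain ⟨w⟩ := hx'.2.symm.trans hy'.2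
    exact ⟨w, hwalk x y w hx⟩
  have hZc : Z.card ≤ Fintype.card V := card_le_univ Z
  have ht := tree_sumD hL ⟨a, haZ⟩ hconn (fun x _ => hd x) (by omega)
  have h2 : 3 * Z.card ≤ ∑ z ∈ Z, (((nb H z).filter (fun y => y ∈ Z)).card + δ z) := by
    rw [mul_comm, ← smul_eq_mul, ← Finset.sum_const]
    refine Finset.sum_le_sum fun z hz => ?_
    have h3 : (nb H z).filter (fun y => y ∈ Z) = nb H z := by
      rw [Finset.filter_eq_self]
      intro y hy
      exact hZadj z hz y (mem_nb.mp hy)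
    rw [h3]
    exact hdeg z
  rw [Finset.sum_add_distrib] at h2
  have h3 : ∑ z ∈ Z, δ z ≤ ∑ z, δ z := Finset.sum_le_sum_of_subset (subset_univ Z)
  have h4 : 0 < Z.card := Finset.card_pos.mpr ⟨a, haZ⟩
  omega

theorem light_existsD (M D r W : ℕ) (hD : 0 < D)
    (hW : W = 56 * (2 * M * (2 * (2 * r) + 1) + 1)) (hr : 4 * W ≤ 2 ^ r) :
    ∃ g Δ : ℕ, ∀ (V : Type) [Fintype V] (H : SimpleGraph V)
    (pos : V → ℂ) (C : Sym2 V → Set ℂ), TopD M H pos C → ∀ d δ : V → ℕ,
    (∀ v, (nb H v).card ≤ d v) → (∀ v, 3 ≤ d v) → (∀ v, 3 ≤ (nb H v).card + δ v) →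
    ∑ v, d v ≤ D * Fintype.card V →
    32 * (W + 2) * ∑ v, δ v ≤ Fintype.card V + 64 * (W + 2) → Nonempty V →
    LightD g Δ d H := by
  obtain ⟨K, hK⟩ : ∃ K : ℕ, K = 8 * (W + 2) := ⟨_, rfl⟩
  obtain ⟨t, ht⟩ : ∃ t : ℕ, t = K * D := ⟨_, rfl⟩
  have hKpos : 0 < K := by rw [hK]; positivity
  have htpos : 0 < t := by rw [ht]; exact Nat.mul_pos hKpos hD
  obtain ⟨T, hT⟩ : ∃ T, T = th K D M r := ⟨_, rfl⟩
  refine ⟨2 * (T t + 1) ^ (2 * r) + 3 * K, T t + D * (3 * K), ?_⟩
  intro V _ H pos C hTop d δ hnd hd3 hdeg hsum hδ hne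
  by_contra hL
  obtain ⟨n, hn⟩ : ∃ n, n = Fintype.card V := ⟨_, rfl⟩
  rw [← hn] at hsum hδ
  have hδK : 4 * (K * ∑ v, δ v) ≤ n + 8 * K := by
    have h1 : 32 * (W + 2) * ∑ v, δ v = 4 * (K * ∑ v, δ v) := by rw [hK]; ring
    have h2 : 64 * (W + 2) = 8 * K := by rw [hK]; ring
    omega
  rcases Nat.lt_or_ge (3 * K) n with hbig | hsmall
  swap
  · obtain ⟨a⟩ := hne
    refine hL (small_lightD a hdeg ?_ (by omega) (fun v => ?_))
    · by_contra hcon
      have h3 : 3 ≤ ∑ v, δ v := by omega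
      have h4 : K * 3 ≤ K * ∑ v, δ v := Nat.mul_le_mul_left _ h3
      omega
    · have h1 : d v ≤ ∑ v, d v := Finset.single_le_sum (fun _ _ => Nat.zero_le _) (mem_univ v)
      have h2 : D * n ≤ D * (3 * K) := Nat.mul_le_mul_left _ hsmall
      omega
  -- the choice of the thresholds
  have hmono : Monotone T := hT ▸ th_mono K D M r
  set Mid : ℕ → Finset V := fun i =>
    univ.filter (fun v => T i < d v ∧ d v ≤ T (i + 1)) with hMid
  have hMidmem : ∀ i v, v ∈ Mid i ↔ T i < d v ∧ d v ≤ T (i + 1) :=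
    fun i v => by simp [hMid]
  have hMidsum : ∑ i ∈ range t, ∑ v ∈ Mid i, d v ≤ ∑ v, d v := by
    rw [← Finset.sum_biUnion]
    · exact Finset.sum_le_sum_of_subset (subset_univ _)
    · intro i _ j _ hij
      simp only [Function.onFun]
      rw [Finset.disjoint_left]
      intro v hv hv'
      rw [hMidmem] at hv hv'
      rcases Nat.lt_or_gt_of_ne hij with h | h
      · have := hmono (show i + 1 ≤ j by omega)
        omega
      · have := hmono (show j + 1 ≤ i by omega)
        omega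
  obtain ⟨i, hi, hMidi⟩ : ∃ i ∈ range t, t * ∑ v ∈ Mid i, d v ≤ D * n := by
    refine Finset.exists_le_of_sum_le (s := range t) ⟨0, by simpa using htpos⟩ ?_
    rw [← Finset.mul_sum, Finset.sum_const, card_range, smul_eq_mul]
    exact Nat.mul_le_mul_left _ (hMidsum.trans hsum)
  rw [mem_range] at hi
  obtain ⟨Δ, hΔ⟩ : ∃ Δ, Δ = T i := ⟨_, rfl⟩
  obtain ⟨q, hq⟩ : ∃ q, q = (Δ + 1) ^ (2 * r) := ⟨_, rfl⟩
  have hT1 : T (i + 1) = Δ + 4 * D + K * D * (Δ * (q * (406 * (q * (Δ * (M * 2)) + 1)))) := by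
    rw [hq, hΔ, hT, th]
  have hTt : Δ ≤ T t := hΔ ▸ hmono hi.le
  have hqle : q ≤ (T t + 1) ^ (2 * r) := hq ▸ Nat.pow_le_pow_left (by omega) _
  obtain ⟨g, hg⟩ : ∃ g, g = 2 * (T t + 1) ^ (2 * r) + 3 * K := ⟨_, rfl⟩
  have hgq : 2 * q ≤ g := by
    rw [hg]
    exact (Nat.mul_le_mul_left _ hqle).trans (Nat.le_add_right _ _)
  rw [← hg] at hL
  have hL' : ¬ LightD g Δ d H :=
    fun h => hL (h.mono le_rfl (hTt.trans (Nat.le_add_right _ _)))
  set L0 := univ.filter (fun v : V => d v ≤ Δ) with hL0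
  set Hi := univ.filter (fun v : V => T (i + 1) < d v) with hHi
  have hL0mem : ∀ v, v ∈ L0 ↔ d v ≤ Δ := by
    intro v
    rw [hL0, mem_filter]
    simp
  have hHimem : ∀ v, v ∈ Hi ↔ T (i + 1) < d v := by
    intro v
    rw [hHi, mem_filter]
    simp
  have hTi : Δ ≤ T (i + 1) := hΔ ▸ hmono (Nat.le_succ i)
  -- the maximal family of pieces
  obtain ⟨good, hgood⟩ : ∃ good : Finset (Finset V) → Prop, ∀ Q, good Q ↔
      (∀ Z ∈ Q, ∀ Z' ∈ Q, Z ≠ Z' → Disjoint Z Z') ∧ ∀ Z ∈ Q, Z ⊆ L0 ∧ Conn H Z ∧ Z.card ≤ q ∧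
        3 ≤ (Hi.filter (fun y => ∃ z ∈ Z, H.Adj z y)).card := ⟨_, fun Q => Iff.rfl⟩
  obtain ⟨Q, hQ, hmax⟩ := Finset.exists_max_image ((univ : Finset (Finset (Finset V))).filter good)
    Finset.card ⟨∅, by rw [mem_filter, hgood]; simp⟩
  rw [mem_filter, hgood] at hQ
  obtain ⟨-, hQd, hQp⟩ := hQ
  set R := Q.biUnion id with hR
  have hRL0 : R ⊆ L0 := by
    intro v hv
    rw [hR, mem_biUnion] at hv
    obtain ⟨Z, hZ, hv⟩ := hv
    exact (hQp Z hZ).1 hv
  set L := L0 \ R with hLdef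
  set Bad := Mid i ∪ R with hBad
  have hstar : Q.card ≤ 406 * (q * (Δ * (M * 2)) + 1) * Hi.card := by
    refine star hTop Hi Q q Δ hQd ?_ (fun Z hZ => (hQp Z hZ).2.1) (fun Z hZ => (hQp Z hZ).2.2.1)
      ?_ ?_
    · intro Z hZ
      rw [Finset.disjoint_left]
      intro v hv hv'
      have h1 := (hQp Z hZ).1 hv
      rw [hL0mem] at h1
      rw [hHimem] at hv'
      omega
    · intro Z hZ x hx
      refine (incid_le x).trans ?_
      have h1 := (hQp Z hZ).1 hx
      rw [hL0mem] at h1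
      exact_mod_cast (hnd x).trans h1
    · intro Z hZ
      refine ⟨Hi.filter (fun y => ∃ z ∈ Z, H.Adj z y), filter_subset _ _, (hQp Z hZ).2.2.2, ?_⟩
      intro a ha
      rw [mem_filter] at ha
      exact ha.2
  have hvol := volumeD hTop (g := g) (Δ := Δ) (r := r) (d := d) (δ := δ) hnd hL' L Hi Bad
    (fun x hx => (hL0mem x).mp (mem_sdiff.mp hx).1) (by
      intro x hx hx'
      have h1 := (hL0mem x).mp (mem_sdiff.mp hx).1
      rw [hHimem] at hx'
      omega) (by
      intro x hx y hxy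
      by_cases h1 : d y ≤ Δ
      · have hyL0 : y ∈ L0 := (hL0mem y).mpr h1
        by_cases h2 : y ∈ R
        · exact Or.inr (Or.inl (mem_union_right _ h2))
        · exact Or.inl (mem_sdiff.mpr ⟨hyL0, h2⟩)
      · by_cases h2 : d y ≤ T (i + 1)
        · exact Or.inr (Or.inl (mem_union_left _ ((hMidmem i y).mpr ⟨by omega, h2⟩)))
        · exact Or.inr (Or.inr ((hHimem y).mpr (by omega)))) (fun x _ => hdeg x) (hq ▸ hgq) (by
      intro Z hZL hZc hZne hZq
      rw [← hq] at hZq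
      by_contra hcon
      push Not at hcon
      obtain ⟨z0, hz0⟩ := hZne
      have hdZ : ∀ Z' ∈ Q, Disjoint Z Z' := by
        intro Z' hZ'
        rw [Finset.disjoint_left]
        intro v hv hv'
        refine (mem_sdiff.mp (hZL hv)).2 ?_
        rw [hR, mem_biUnion]
        exact ⟨Z', hZ', hv'⟩
      have hZQ : Z ∉ Q := by
        intro h
        exact Finset.disjoint_left.mp (hdZ Z h) hz0 hz0
      have h6 := hmax (insert Z Q) (by
        rw [mem_filter, hgood]
        refine ⟨mem_univ _, ?_, ?_⟩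
        · intro A hA B hB hAB
          rw [mem_insert] at hA hB
          rcases hA with rfl | hA
          · rcases hB with rfl | hB
            · exact absurd rfl hAB
            · exact hdZ B hB
          · rcases hB with rfl | hB
            · exact (hdZ A hA).symm
            · exact hQd A hA B hB hAB
        · intro A hA
          rw [mem_insert] at hA
          rcases hA with rfl | hA
          · exact ⟨fun v hv => (mem_sdiff.mp (hZL hv)).1, hZc, hZq, hcon⟩
          · exact hQp A hA)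
      rw [card_insert_of_notMem hZQ] at h6
      omega) W hW hr
  -- the defects
  obtain ⟨S, hS⟩ : ∃ S, S = ∑ v, δ v := ⟨_, rfl⟩
  rw [← hS] at hδK
  set β₁ := ∑ y ∈ Bad, d y with hβ₁
  have hβ : ∑ z ∈ L, (((nb H z).filter (fun y => y ∈ Bad)).card + δ z) ≤ β₁ + S := by
    rw [Finset.sum_add_distrib]
    refine add_le_add ((double_count H L Bad).trans (Finset.sum_le_sum fun y _ => hnd y)) ?_
    rw [hS]
    exact Finset.sum_le_sum_of_subset (subset_univ _)
  have hRcard : R.card ≤ Q.card * q :=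
    Finset.card_biUnion_le_card_mul Q id q fun Z hZ => (hQp Z hZ).2.2.1
  have hRsum : ∑ y ∈ R, d y ≤ Δ * R.card := by
    rw [mul_comm, ← smul_eq_mul, ← Finset.sum_const]
    exact Finset.sum_le_sum fun y hy => (hL0mem y).mp (hRL0 hy)
  have hHisum : T (i + 1) * Hi.card ≤ D * n := by
    refine le_trans ?_ hsum
    have h1 : T (i + 1) * Hi.card ≤ ∑ v ∈ Hi, d v := by
      rw [mul_comm, ← smul_eq_mul, ← Finset.sum_const]
      exact Finset.sum_le_sum fun y hy => ((hHimem y).mp hy).le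
    exact h1.trans (Finset.sum_le_sum_of_subset (subset_univ _))
  obtain ⟨G, hG⟩ : ∃ G, G = Δ * (q * (406 * (q * (Δ * (M * 2)) + 1))) := ⟨_, rfl⟩
  have hRG : ∑ y ∈ R, d y ≤ G * Hi.card := by
    calc ∑ y ∈ R, d y ≤ Δ * R.card := hRsum
      _ ≤ Δ * (Q.card * q) := Nat.mul_le_mul_left _ hRcard
      _ ≤ Δ * ((406 * (q * (Δ * (M * 2)) + 1) * Hi.card) * q) :=
        Nat.mul_le_mul_left _ (Nat.mul_le_mul_right _ hstar)
      _ = G * Hi.card := by rw [hG]; ring
  have h10 : D * (K * (G * Hi.card)) + D * (4 * Hi.card) + Δ * Hi.card ≤ D * n := by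
    refine le_trans (le_of_eq ?_) hHisum
    rw [hT1, ← hG]
    ring
  have h11 : K * (G * Hi.card) ≤ n := by
    refine le_of_mul_le_mul_left ?_ hD
    have : 0 ≤ Δ * Hi.card := Nat.zero_le _
    omega
  have h12 : 4 * Hi.card ≤ n := by
    refine le_of_mul_le_mul_left ?_ hD
    have : 0 ≤ Δ * Hi.card := Nat.zero_le _
    omega
  have h13 : K * ∑ v ∈ Mid i, d v ≤ n := by
    refine le_of_mul_le_mul_left ?_ hD
    calc D * (K * ∑ v ∈ Mid i, d v) = t * ∑ v ∈ Mid i, d v := by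
          rw [ht]; ring
      _ ≤ D * n := hMidi
  have h14 : K * β₁ ≤ 2 * n := by
    have h15 : β₁ ≤ ∑ v ∈ Mid i, d v + ∑ y ∈ R, d y := by
      rw [hβ₁, hBad]
      have := Finset.sum_union_inter (s₁ := Mid i) (s₂ := R) (f := fun y => d y)
      omega
    calc K * β₁ ≤ K * (∑ v ∈ Mid i, d v + ∑ y ∈ R, d y) :=
          Nat.mul_le_mul_left _ h15
      _ = K * ∑ v ∈ Mid i, d v + K * ∑ y ∈ R, d y := by ring
      _ ≤ n + K * (G * Hi.card) := add_le_add h13 (Nat.mul_le_mul_left _ hRG)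
      _ ≤ 2 * n := by omega
  have hBadcard : Bad.card ≤ β₁ := by
    rw [Finset.card_eq_sum_ones]
    refine Finset.sum_le_sum fun y hy => ?_
    have := hd3 y
    omega
  have hcov : n ≤ L.card + Bad.card + Hi.card := by
    have hsub : (univ : Finset V) ⊆ (L ∪ Bad) ∪ Hi := by
      intro v _
      rw [mem_union, mem_union]
      by_cases h1 : d v ≤ Δ
      · have hvL0 : v ∈ L0 := (hL0mem v).mpr h1
        by_cases h2 : v ∈ R
        · exact Or.inl (Or.inr (mem_union_right _ h2))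
        · exact Or.inl (Or.inl (mem_sdiff.mpr ⟨hvL0, h2⟩))
      · by_cases h2 : d v ≤ T (i + 1)
        · exact Or.inl (Or.inr (mem_union_left _ ((hMidmem i v).mpr ⟨by omega, h2⟩)))
        · exact Or.inr ((hHimem v).mpr (by omega))
    have h0 := card_le_card hsub
    rw [card_univ, ← hn] at h0
    refine h0.trans ((card_union_le _ _).trans ?_)
    exact Nat.add_le_add_right (card_union_le _ _) _
  have h16 : 3 * L.card ≤ 4 * (W + 1) * (β₁ + S) :=
    hvol.trans (Nat.mul_le_mul_left _ hβ)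
  have h17 : 4 * (W + 1) * (β₁ + S) = 4 * (W * β₁) + 4 * β₁ + 4 * (W * S) + 4 * S := by ring
  have h18 : K * β₁ = 8 * (W * β₁) + 16 * β₁ := by rw [hK]; ring
  have h18' : K * S = 8 * (W * S) + 16 * S := by rw [hK]; ring
  have h19 : K = 8 * W + 16 := by rw [hK]; ring
  omega

end Pool.Agent.H354_OP
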