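import Pool.Agent.H354_OP.KD

/-!
# Vertices of degree one
-/

set_option autoImplicit false

namespace Pool.Agent.H354_OP

open Set Filter Topology

/-- an initial part of an arc that avoids finitely many points -/
theorem IsArc.initial {B : Set ℂ} {a b : ℂ} (h : IsArc B a b) {F : Set ℂ} (hF : F.Finite)
    (haF : a ∉ F) : ∃ (c : ℂ) (S : Set ℂ), IsArc S a c ∧ S ⊆ B ∧ Disjoint S F := by
  obtain ⟨γ, hc, hi, h0, h1, hB⟩ := h
  have hfin : {τ | τ ∈ Icc (0 : ℝ) 1 ∧ γ τ ∈ F}.Finite := by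
    refine Set.Finite.of_injOn (f := γ) (t := F) (fun τ hτ => hτ.2) ?_ hF
    exact hi.mono fun τ hτ => hτ.1
  obtain ⟨ε, hε0, hε1, hεF⟩ : ∃ ε : ℝ, 0 < ε ∧ ε ≤ 1 ∧ ∀ τ, 0 ≤ τ → τ ≤ ε → γ τ ∉ F := by
    rcases Set.eq_empty_or_nonempty {τ | τ ∈ Icc (0 : ℝ) 1 ∧ γ τ ∈ F} with he | hne
    · refine ⟨1, one_pos, le_rfl, fun τ h0' h1' hm => ?_⟩
      have : τ ∈ {τ | τ ∈ Icc (0 : ℝ) 1 ∧ γ τ ∈ F} := ⟨⟨h0', h1'⟩, hm⟩
      rw [he] at this
      exact this
    · obtain ⟨τ₀, hτ₀, hmin⟩ := hfin.exists_minimal hne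
      have hpos : 0 < τ₀ := by
        rcases eq_or_lt_of_le hτ₀.1.1 with h | h
        · exfalso
          apply haF
          rw [← h0, h]
          exact hτ₀.2
        · exact h
      refine ⟨τ₀ / 2, by linarith, by linarith [hτ₀.1.2], fun τ h0' h1' hm => ?_⟩
      have h2 : τ ∈ {τ | τ ∈ Icc (0 : ℝ) 1 ∧ γ τ ∈ F} := ⟨⟨h0', by linarith [hτ₀.1.2]⟩, hm⟩
      have h3 := hmin h2 (by linarith)
      linarith
  have hsub : ∀ s ∈ Icc (0 : ℝ) 1, s * ε ∈ Icc (0 : ℝ) 1 := by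
    intro s hs
    exact ⟨mul_nonneg hs.1 hε0.le, by nlinarith [hs.1, hs.2]⟩
  refine ⟨γ ε, γ '' Icc 0 ε, ⟨fun s => γ (s * ε), ?_, ?_, by simp [h0], by simp, ?_⟩, ?_, ?_⟩
  · exact hc.comp (by fun_prop) hsub
  · intro s hs s' hs' hss
    have h3 := hi (hsub s hs) (hsub s' hs') hss
    exact mul_right_cancel₀ hε0.ne' h3
  · ext z
    constructor
    · rintro ⟨s, hs, rfl⟩
      exact ⟨s * ε, ⟨mul_nonneg hs.1 hε0.le, by nlinarith [hs.1, hs.2]⟩, rfl⟩
    · rintro ⟨τ, hτ, rfl⟩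
      refine ⟨τ / ε, ⟨div_nonneg hτ.1 hε0.le, (div_le_one hε0).mpr hτ.2⟩, ?_⟩
      simp only
      rw [div_mul_cancel₀ _ hε0.ne']
  · rw [← hB]
    exact image_mono (Icc_subset_Icc_right hε1)
  · rw [Set.disjoint_left]
    rintro z ⟨τ, hτ, rfl⟩ hz
    exact hεF τ hτ.1 hτ.2 hz

/-- adding a leaf along an arc without crossings -/
theorem attach_leaf {V : Type} {G : SimpleGraph V} {x y : V} (hxy : G.Adj x y)
    (hx : ∀ z, G.Adj x z → z = y) {m : ℕ} {pos : V → ℂ} {A : Sym2 V → Set ℂ}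
    (hd : Drawing (G.deleteEdges {s(x, y)}) pos A)
    (hxs : ∀ f ∈ (G.deleteEdges {s(x, y)}).edgeSet,
      (xs (G.deleteEdges {s(x, y)}) pos A f).encard ≤ m)
    {S : Set ℂ} {c : ℂ} (hS : IsArc S (pos y) c) (hc : c ∉ range pos)
    (hSA : ∀ f ∈ (G.deleteEdges {s(x, y)}).edgeSet, ∀ z ∈ S, z ∈ A f → z = pos y)
    (hSp : ∀ w, pos w ∈ S → w = y) : KDraw m G := by
  classical
  set H := G.deleteEdges {s(x, y)} with hH
  have hHe : ∀ f, f ∈ H.edgeSet ↔ f ∈ G.edgeSet ∧ f ≠ s(x, y) := by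
    intro f
    rw [hH, SimpleGraph.edgeSet_deleteEdges]
    simp
  have hxH : ∀ f ∈ H.edgeSet, x ∉ f := by
    rintro f hf ⟨z, rfl⟩
    obtain ⟨h1, h2⟩ := (hHe _).mp hf
    apply h2
    rw [hx z h1]
  have hne : y ≠ x := hxy.ne'
  obtain ⟨pos', hp1, hp2⟩ : ∃ pos' : V → ℂ, pos' x = c ∧ ∀ w, w ≠ x → pos' w = pos w :=
    ⟨Function.update pos x c, by simp, fun w hw => by simp [hw]⟩
  obtain ⟨A', hA1, hA2⟩ : ∃ A' : Sym2 V → Set ℂ, A' s(x, y) = S ∧ ∀ f, f ≠ s(x, y) → A' f = A f :=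
    ⟨Function.update A s(x, y) S, by simp, fun w hw => by simp [hw]⟩
  have hpA : ∀ f ∈ H.edgeSet, ∀ w, pos' w ∈ A f → w ≠ x := by
    rintro f hf w hw rfl
    rw [hp1] at hw
    exact hc ⟨y, (hSA f hf c hS.right_mem hw).symm⟩
  have hrange : ∀ f ∈ H.edgeSet, ∀ z ∈ A f, z ∉ range pos' → z ∉ range pos := by
    rintro f hf z hz hz' ⟨w, rfl⟩
    refine hz' ⟨w, hp2 w ?_⟩
    rintro rfl
    exact hxH f hf (hd.avoid f hf w hz)
  refine ⟨pos', A', ⟨?_, ?_, ?_⟩, ?_⟩
  · intro a b hab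
    by_cases ha : a = x
    · by_cases hb : b = x
      · rw [ha, hb]
      · rw [ha, hp1, hp2 b hb] at hab
        exact absurd ⟨b, hab.symm⟩ hc
    · by_cases hb : b = x
      · rw [hb, hp1, hp2 a ha] at hab
        exact absurd ⟨a, hab⟩ hc
      · rw [hp2 a ha, hp2 b hb] at hab
        exact hd.inj hab
  · intro a b hab
    by_cases hf : s(a, b) = s(x, y)
    · rw [hf, hA1]
      rw [Sym2.eq_iff] at hf
      rcases hf with ⟨rfl, rfl⟩ | ⟨rfl, rfl⟩
      · rw [hp1, hp2 b hne]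
        exact hS.symm
      · rw [hp1, hp2 a hne]
        exact hS
    · have hfH : s(a, b) ∈ H.edgeSet := (hHe _).mpr ⟨hab, hf⟩
      rw [hA2 _ hf, hp2 a, hp2 b]
      · exact hd.arc a b hfH
      · rintro rfl
        exact hxH _ hfH (by simp)
      · rintro rfl
        exact hxH _ hfH (by simp)
  · intro f hf w hw
    by_cases hfe : f = s(x, y)
    · rw [hfe, hA1] at hw
      rw [hfe]
      by_cases hwx : w = x
      · rw [hwx]; simp
      · rw [hp2 w hwx] at hw
        rw [hSp w hw]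
        simp
    · have hfH : f ∈ H.edgeSet := (hHe _).mpr ⟨hf, hfe⟩
      rw [hA2 f hfe] at hw
      have hwx := hpA f hfH w hw
      rw [hp2 w hwx] at hw
      exact hd.avoid f hfH w hw
  · intro f hf
    by_cases hfe : f = s(x, y)
    · have : xs G pos' A' f = ∅ := by
        ext ⟨g, z⟩
        simp only [xs, mem_ofPred_eq, mem_empty_iff_false, iff_false]
        rintro ⟨h1, h2, h3, h4, h5⟩
        rw [hfe, hA1] at h3
        have hge : g ≠ s(x, y) := fun h => h2 (h.trans hfe.symm)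
        rw [hA2 g hge] at h4
        have := hSA g ((hHe g).mpr ⟨h1, hge⟩) z h3 h4
        exact h5 ⟨y, by rw [this, hp2 y hne]⟩
      rw [this]
      simp
    · have hfH : f ∈ H.edgeSet := (hHe _).mpr ⟨hf, hfe⟩
      refine (Set.encard_le_encard ?_).trans (hxs f hfH)
      rintro ⟨g, z⟩ ⟨h1, h2, h3, h4, h5⟩
      simp only at h1 h2 h3 h4 h5
      rw [hA2 f hfe] at h3
      by_cases hge : g = s(x, y)
      · exfalso
        rw [hge, hA1] at h4
        have := hSA f hfH z h4 h3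
        exact h5 ⟨y, by rw [this, hp2 y hne]⟩
      · rw [hA2 g hge] at h4
        exact ⟨(hHe g).mpr ⟨h1, hge⟩, h2, h3, h4, hrange f hfH z h3 h5⟩

theorem IsArc.isClosed {A : Set ℂ} {a b : ℂ} (h : IsArc A a b) : IsClosed A := by
  obtain ⟨γ, hc, -, -, -, hA⟩ := h
  rw [← hA]
  exact (isCompact_Icc.image_of_continuousOn hc).isClosed

/-- a leaf can be added without new crossings -/
theorem pendant {V : Type} [Finite V] {G : SimpleGraph V} {x y : V} (hxy : G.Adj x y)
    (hx : ∀ z, G.Adj x z → z = y) {m : ℕ} (hdraw : KDraw m (G.deleteEdges {s(x, y)})) :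
    KDraw m G := by
  classical
  obtain ⟨pos, A, hd, hxs⟩ := hdraw
  by_cases hz : ∃ z, (G.deleteEdges {s(x, y)}).Adj y z
  · obtain ⟨z, hyz⟩ := hz
    obtain ⟨A', B, hd', hsub, hB, hBpos, hBcard⟩ := parallel hd hxs hyz.ne
      (SimpleGraph.Walk.cons hyz SimpleGraph.Walk.nil) (Δ := 0) (by
        intro w hw hwy hwz
        simp only [SimpleGraph.Walk.support_cons, SimpleGraph.Walk.support_nil, List.mem_cons,
          List.not_mem_nil, or_false] at hw
        rcases hw with h | h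
        · exact absurd h hwy
        · exact absurd h hwz)
    set XB : Set (Sym2 V × ℂ) := {q | q.1 ∈ (G.deleteEdges {s(x, y)}).edgeSet ∧ q.2 ∈ B ∧
      q.2 ∈ A' q.1 ∧ q.2 ∉ range pos} with hXB
    have hXBfin : XB.Finite := by
      refine Set.finite_of_encard_le_coe (k := 1 * (0 + 2 * m) * 4) ?_
      refine hBcard.trans ?_
      simp
    obtain ⟨c, S, hS, hSB, hSF⟩ := hB.initial
      (F := Prod.snd '' XB ∪ {pos z}) ((hXBfin.image _).union (Set.finite_singleton _)) (by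
        rintro (⟨q, hq, h⟩ | h)
        · exact hq.2.2.2 ⟨y, h.symm⟩
        · exact hyz.ne (hd.inj h))
    rw [Set.disjoint_left] at hSF
    have hSp : ∀ w, pos w ∈ S → w = y := by
      intro w hw
      rcases hBpos w (hSB hw) with h | h
      · exact h
      · exact absurd (Or.inr (by rw [h]; rfl)) (hSF hw)
    refine attach_leaf hxy hx hd' (fun f hf => (Set.encard_le_encard (hsub f hf)).trans (hxs f hf))
      hS ?_ ?_ hSp
    · rintro ⟨w, hw⟩
      have := hSp w (hw ▸ hS.right_mem)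
      rw [this] at hw
      exact hS.ne hw
    · intro f hf p hp hpA
      by_cases hpr : p ∈ range pos
      · obtain ⟨w, rfl⟩ := hpr
        rw [hSp w hp]
      · exact absurd (Or.inl ⟨(f, p), ⟨hf, hSB hp, hpA, hpr⟩, rfl⟩) (hSF hp)
  · push Not at hz
    set H := G.deleteEdges {s(x, y)} with hH
    have hcl : IsClosed ((⋃ f ∈ H.edgeSet, A f) ∪ pos '' {w | w ≠ y}) := by
      refine IsClosed.union ?_ ((Set.toFinite _).image _).isClosed
      refine Set.Finite.isClosed_biUnion (Set.toFinite _) ?_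
      intro f hf
      induction f using Sym2.ind with
      | _ a b => exact (hd.arc a b hf).isClosed
    have hnot : pos y ∉ ((⋃ f ∈ H.edgeSet, A f) ∪ pos '' {w | w ≠ y}) := by
      rintro (h | ⟨w, hw, hwy⟩)
      · simp only [mem_iUnion] at h
        obtain ⟨f, hf, h⟩ := h
        have hyf := hd.avoid f hf y h
        obtain ⟨z, rfl⟩ := hyf
        exact hz z hf
      · exact hw (hd.inj hwy)
    obtain ⟨ε, hε, hball⟩ := Metric.isOpen_iff.mp hcl.isOpen_compl (pos y) hnot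
    set c : ℂ := pos y + (ε / 2 : ℝ) with hc
    have hcy : dist c (pos y) = ε / 2 := by
      rw [hc, dist_eq_norm]
      simp only [add_sub_cancel_left]
      rw [Complex.norm_real, Real.norm_eq_abs, abs_of_pos (by linarith)]
    have hne : pos y ≠ c := by
      intro h
      rw [← h, dist_self] at hcy
      linarith
    have hsegb : segment ℝ (pos y) c ⊆ Metric.ball (pos y) ε := by
      refine (convex_ball (pos y) ε).segment_subset (Metric.mem_ball_self hε) ?_
      rw [Metric.mem_ball, hcy]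
      linarith
    have hSp : ∀ w, pos w ∈ segment ℝ (pos y) c → w = y := by
      intro w hw
      by_contra hwy
      exact hball (hsegb hw) (Or.inr ⟨w, hwy, rfl⟩)
    refine attach_leaf hxy hx hd hxs (isArc_segment hne) ?_ ?_ hSp
    · rintro ⟨w, hw⟩
      have := hSp w (hw ▸ right_mem_segment _ _ _)
      rw [this] at hw
      exact hne hw
    · intro f hf p hp hpA
      exfalso
      refine hball (hsegb hp) (Or.inl ?_)
      simp only [mem_iUnion]
      exact ⟨f, hf, hpA⟩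

end Pool.Agent.H354_OP
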