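import Pool.Agent.H354_OP.Par2
import Pool.Agent.H354_OP.Bal
import Pool.Agent.H354_OP.Pend

/-!
# Drawings with prescribed loads of the edges
-/

set_option autoImplicit false

namespace Pool.Agent.H354_OP

open Set Filter Topology

/-- In a drawing of `H` an arc can be drawn along a walk; each of its crossings is near a vertex or
a crossing met along the walk. -/
theorem parallel4 {V : Type*} [Finite V] {H : SimpleGraph V} {pos : V → ℂ} {A : Sym2 V → Set ℂ}
    (hd : Drawing H pos A) (hxfin : ∀ e ∈ H.edgeSet, (xs H pos A e).Finite) {u v : V}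
    (huv : u ≠ v) (w : H.Walk u v) :
    ∃ (A' : Sym2 V → Set ℂ) (B : Set ℂ), Drawing H pos A' ∧
      (∀ e ∈ H.edgeSet, xs H pos A' e ⊆ xs H pos A e) ∧ IsArc B (pos u) (pos v) ∧
      (∀ x, pos x ∈ B → x = u ∨ x = v) ∧
      (∀ z ∈ B, z ∉ range pos → ∀ f ∈ H.edgeSet, ∀ f' ∈ H.edgeSet, z ∈ A' f → z ∈ A' f' →
        f = f') ∧
      ∃ (x : Sym2 V × ℂ → ℂ) (tag : Sym2 V × ℂ → Bool × Bool),
        (∀ q ∈ {q : Sym2 V × ℂ | q.1 ∈ H.edgeSet ∧ q.2 ∈ B ∧ q.2 ∈ A' q.1 ∧ q.2 ∉ range pos},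
          (q.1, x q) ∈ meets H pos A w) ∧
        InjOn (fun q => ((q.1, x q), tag q))
          {q : Sym2 V × ℂ | q.1 ∈ H.edgeSet ∧ q.2 ∈ B ∧ q.2 ∈ A' q.1 ∧ q.2 ∉ range pos} := by
  classical
  set N : Set ℂ := range pos ∪ ⋃ e ∈ H.edgeSet, Prod.snd '' xs H pos A e with hNdef
  have hN : N.Finite := by
    refine (Set.finite_range pos).union ?_
    exact (Set.toFinite _).biUnion fun e he => (hxfin e he).image _
  have hpos : range pos ⊆ N := subset_union_left
  have hNA : ∀ e ∈ H.edgeSet, ∀ f ∈ H.edgeSet, e ≠ f → A e ∩ A f ⊆ N := by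
    rintro e he f hf hef z ⟨hz, hz'⟩
    by_cases h : z ∈ range pos
    · exact hpos h
    · right
      simp only [mem_iUnion]
      exact ⟨e, he, ⟨(f, z), ⟨hf, hef.symm, hz, hz', h⟩, rfl⟩⟩
  have hNx : ∀ z ∈ N, z ∉ range pos → ∀ e ∈ H.edgeSet, z ∈ A e → ∃ g, (g, z) ∈ xs H pos A e := by
    intro z hz hzp e he hze
    rcases hz with hz | hz
    · exact absurd hz hzp
    · simp only [mem_iUnion] at hz
      obtain ⟨h, hh, ⟨g, z'⟩, hgz, rfl⟩ := hz
      by_cases hhe : h = e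
      · subst hhe
        exact ⟨g, hgz⟩
      · exact ⟨h, hh, hhe, hze, hgz.2.2.1, hzp⟩
  obtain ⟨Γ, P, n, hΓ, hdeg, hroute, hPe, hPP, hPA⟩ := exists_poly hd N hN hpos hNA
  have hPne : ∀ e ∈ H.edgeSet, 0 < n e := by
    intro e
    induction e using Sym2.ind with
    | _ a b =>
      intro he
      rcases Nat.eq_zero_or_pos (n s(a, b)) with h0 | h0
      · exfalso
        have hab : pos a ≠ pos b := fun h => (SimpleGraph.Adj.ne he) (hd.inj h)
        rcases hPe a b he with ⟨h1, h2⟩ | ⟨h1, h2⟩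
        · rw [h0, h1] at h2
          exact hab h2
        · rw [h0, h1] at h2
          exact hab h2.symm
      · exact h0
  set A' : Sym2 V → Set ℂ := fun e => polyImg (P e) (n e) with hA'
  have hd' : Drawing H pos A' := by
    refine ⟨hd.inj, ?_, ?_⟩
    · intro a b hab
      have h1 := hPne s(a, b) hab
      obtain ⟨k, hk⟩ : ∃ k, n s(a, b) = k + 1 := ⟨n s(a, b) - 1, by omega⟩
      have h2 : IsArc (A' s(a, b)) (P s(a, b) 0) (P s(a, b) (n s(a, b))) := by
        have h3 := hΓ.simple (hroute s(a, b) hab)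
        simp only [hA']
        rw [hk] at h3 ⊢
        exact h3.isArc
      rcases hPe a b hab with ⟨h3, h4⟩ | ⟨h3, h4⟩
      · rw [h3, h4] at h2
        exact h2
      · rw [h3, h4] at h2
        exact h2.symm
    · intro e he x hx
      exact hd.avoid e he x (hPA e he ⟨hx, hpos ⟨x, rfl⟩⟩)
  have hxs : ∀ e ∈ H.edgeSet, xs H pos A' e ⊆ xs H pos A e := by
    rintro e he ⟨f, z⟩ ⟨h1, h2, h3, h4, h5⟩
    have hzN : z ∈ N := hPP e he f h1 (Ne.symm h2) ⟨h3, h4⟩
    exact ⟨h1, h2, hPA e he ⟨h3, hzN⟩, hPA f h1 ⟨h4, hzN⟩, h5⟩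
  have hwe : ∀ e ∈ w.edges, e ∈ H.edgeSet := fun e he => w.edges_subset_edgeSet he
  -- the path along the walk
  set ΓP := routeGraph P n {e | e ∈ w.edges} with hΓP
  have hΓle : ΓP ≤ Γ := by
    rintro a b ⟨hab, e, he, i, hi, h⟩
    have h1 := (hroute e (hwe e he)).adj i hi
    rw [Sym2.eq_iff] at h
    rcases h with ⟨rfl, rfl⟩ | ⟨rfl, rfl⟩
    · exact h1
    · exact h1.symm
  have hreach : ΓP.Reachable (pos u) (pos v) := by
    refine reach_walk w fun a b hab => ?_
    have hr := hroute s(a, b) (hwe _ hab)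
    have h1 : ∀ i ≤ n s(a, b), ΓP.Reachable (P s(a, b) 0) (P s(a, b) i) := by
      intro i
      induction i with
      | zero => intro _; exact SimpleGraph.Reachable.refl _
      | succ i ih =>
        intro hi
        refine (ih (by omega)).trans (SimpleGraph.Adj.reachable ?_)
        exact ⟨(hr.adj i (by omega)).ne, s(a, b), hab, i, by omega, rfl⟩
    have h2 := h1 _ le_rfl
    rcases hPe a b (hwe _ hab) with ⟨h3, h4⟩ | ⟨h3, h4⟩
    · rw [h3, h4] at h2
      exact h2
    · rw [h3, h4] at h2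
      exact h2.symm
  obtain ⟨p, T, p0, pT, hp⟩ := exists_route hreach
  have hpΓ : Route Γ p T := hp.mono hΓle
  have hTpos : 0 < T := by
    rcases Nat.eq_zero_or_pos T with h | h
    · exfalso
      rw [h, p0] at pT
      exact huv (hd.inj pT)
    · exact h
  have hps := hΓ.simple hpΓ
  set S : Set (ℂ × ℂ) := {q | Γ.Adj q.1 q.2 ∧ ∀ i < T, s(q.1, q.2) ≠ s(p i, p (i + 1))} with hSdef
  have hSfin : S.Finite := hΓ.fin.subset fun q hq => hq.1
  obtain ⟨B, hB, hBp, hBN, c, hc⟩ := offset' hTpos hps S hSfin (by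
    intro s hs i hi
    exact hΓ.meet _ _ _ _ hs.1 (hpΓ.adj i hi) (hs.2 i hi)) N hN
  rw [p0] at hB hBp hBN hc
  rw [pT] at hB hBp hBN hc
  refine ⟨A', B, hd', hxs, hB, ?_, ?_, ?_⟩
  · intro x hx'
    rcases hBN (pos x) (hpos ⟨x, rfl⟩) hx' with h | h
    · exact Or.inl (hd.inj h)
    · exact Or.inr (hd.inj h)
  · intro z hzB hzp f hf f' hf' hzf hzf'
    by_contra hne
    rcases hBN z (hPP f hf f' hf' hne ⟨hzf, hzf'⟩) hzB with h | h
    · exact hzp ⟨u, h.symm⟩
    · exact hzp ⟨v, h.symm⟩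
  -- nodes of the path at which a segment off the path starts
  have hnode : ∀ s ∈ S, ∀ j, 0 < j → j < T → (p j = s.1 ∨ p j = s.2) → p j ∈ N := by
    rintro ⟨a, b⟩ hs j hj0 hjT hjs
    by_contra hjN
    have h1 : Γ.Adj (p j) (p (j + 1)) := hpΓ.adj j hjT
    have h2 : Γ.Adj (p j) (p (j - 1)) := by
      have := hpΓ.adj (j - 1) (by omega)
      rw [show j - 1 + 1 = j by omega] at this
      exact this.symm
    have hne : p (j + 1) ≠ p (j - 1) := by
      intro h
      have := hpΓ.inj (j + 1) (j - 1) (by omega) (by omega) h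
      omega
    have key : ∀ y, Γ.Adj (p j) y → (∀ i < T, s(p j, y) ≠ s(p i, p (i + 1))) → False := by
      intro y hy hoff
      rcases hdeg (p j) hjN _ _ _ h1 h2 hy with h | h | h
      · exact hne h
      · refine hoff (j - 1) (by omega) ?_
        rw [show j - 1 + 1 = j by omega, ← h]
        exact Sym2.eq_swap
      · refine hoff j hjT ?_
        rw [← h]
    rcases hjs with h | h
    · simp only at h
      refine key b (h ▸ hs.1) ?_
      intro i hi
      rw [h]
      exact hs.2 i hi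
    · simp only at h
      refine key a (h ▸ hs.1.symm) ?_
      intro i hi
      rw [h, Sym2.eq_swap]
      exact hs.2 i hi
  have hpA : ∀ j < T, ∃ e ∈ w.edges, p j ∈ A' e := by
    intro j hj
    obtain ⟨-, e, he, i, hi, h⟩ := hp.adj j hj
    refine ⟨e, he, ?_⟩
    simp only [hA']
    rw [mem_polyImg]
    refine ⟨i, hi, ?_⟩
    rw [Sym2.eq_iff] at h
    rcases h with ⟨h1, -⟩ | ⟨h1, -⟩
    · rw [h1]; exact left_mem_segment _ _ _
    · rw [h1]; exact right_mem_segment _ _ _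
  set Q : Set (Sym2 V × ℂ) := meets H pos A w with hQ
  have hex : ∀ q : Sym2 V × ℂ, q.1 ∈ H.edgeSet ∧ q.2 ∈ B ∧ q.2 ∈ A' q.1 ∧ q.2 ∉ range pos →
      ∃ (x : ℂ) (b side : Bool) (i j : ℕ), (q.1, x) ∈ Q ∧ i < n q.1 ∧ j < T ∧ p j = x ∧
        q.2 = c j b (P q.1 i, P q.1 (i + 1)) ∧
        (if side then P q.1 i = x else P q.1 (i + 1) = x) := by
    rintro ⟨f, z⟩ ⟨hf, hzB, hzf, hzp⟩
    simp only at hf hzB hzf hzp ⊢
    have hzf' := hzf
    simp only [hA'] at hzf
    rw [mem_polyImg] at hzf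
    obtain ⟨i, hi, hz⟩ := hzf
    have hz0 : z ≠ pos u := fun h => hzp ⟨u, h.symm⟩
    have hz1 : z ≠ pos v := fun h => hzp ⟨v, h.symm⟩
    have hmem : (P f i, P f (i + 1)) ∈ S := by
      refine ⟨(hroute f hf).adj i hi, ?_⟩
      intro j hj h
      have hzp' : z ∈ polyImg p T := by
        rw [mem_polyImg]
        refine ⟨j, hj, ?_⟩
        simp only at h
        rw [Sym2.eq_iff] at h
        rcases h with ⟨h1, h2⟩ | ⟨h1, h2⟩
        · rw [← h1, ← h2]; exact hz
        · rw [← h1, ← h2, segment_symm]; exact hz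
      rcases hBp z hzB hzp' with h' | h'
      · exact hz0 h'
      · exact hz1 h'
    obtain ⟨j, b, hj0, hjT, hjs, hzc⟩ := hc _ hmem z hzB hz hz0 hz1
    have hjN := hnode _ hmem j hj0 hjT hjs
    obtain ⟨e, he, hje⟩ := hpA j hjT
    have hju : p j ≠ pos u := by
      rw [← p0]
      intro h
      have := hpΓ.inj j 0 hjT.le (by omega) h
      omega
    have hjv : p j ≠ pos v := by
      rw [← pT]
      intro h
      have := hpΓ.inj j T hjT.le le_rfl h
      omega
    have hjf : p j ∈ A' f := by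
      simp only [hA']
      rw [mem_polyImg]
      refine ⟨i, hi, ?_⟩
      rcases hjs with h | h
      · simp only at h
        rw [h]; exact left_mem_segment _ _ _
      · simp only at h
        rw [h]; exact right_mem_segment _ _ _
    have hjAf : p j ∈ A f := hPA f hf ⟨hjf, hjN⟩
    have hQm : (f, p j) ∈ Q :=
      ⟨hf, hju, hjv, hjAf, ⟨e, he, hPA e (hwe e he) ⟨hje, hjN⟩⟩, by
        by_cases hjp : p j ∈ range pos
        · exact Or.inl hjp
        · exact Or.inr (hNx (p j) hjN hjp f hf hjAf)⟩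
    rcases hjs with h | h
    · exact ⟨p j, b, true, i, j, hQm, hi, hjT, rfl, hzc, by simpa using h.symm⟩
    · exact ⟨p j, b, false, i, j, hQm, hi, hjT, rfl, hzc, by simpa using h.symm⟩
  choose! x b side i j hq1 hq2 hq3 hq4 hq5 hq6 using hex
  refine ⟨x, fun q => (b q, side q), fun q hq => hq1 q hq, ?_⟩
  intro q hq q' hq' h
  simp only [Prod.mk.injEq] at h
  obtain ⟨⟨h1, h2⟩, h3, h4⟩ := h
  have a3 := hq3 q hq
  have a4 := hq4 q hq
  have b3 := hq3 q' hq'
  have b4 := hq4 q' hq'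
  have hj : j q = j q' := hpΓ.inj _ _ a3.le b3.le (by rw [a4, b4, h2])
  have a2 := hq2 q hq
  have b2 := hq2 q' hq'
  have a6 := hq6 q hq
  have b6 := hq6 q' hq'
  rw [← h1] at b2 b6
  have hr := hroute q.1 hq.1
  have hi : i q = i q' := by
    rw [← h2, ← h4] at b6
    cases hside : side q
    · rw [hside] at a6 b6
      simp only [Bool.false_eq_true, if_false] at a6 b6
      have := hr.inj _ _ (by omega) (by omega) (a6.trans b6.symm)
      omega
    · rw [hside] at a6 b6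
      simp only [if_true] at a6 b6
      exact hr.inj _ _ (by omega) (by omega) (a6.trans b6.symm)
  refine Prod.ext h1 ?_
  rw [hq5 q hq, hq5 q' hq', hj, h3, h1, hi]


theorem getVert_edge {V : Type*} {H : SimpleGraph V} {u v : V} (w : H.Walk u v) :
    ∀ i < w.length, s(w.getVert i, w.getVert (i + 1)) ∈ w.edges := by
  induction w with
  | nil => intro i hi; simp at hi
  | cons h w ih =>
    intro i hi
    cases i with
    | zero => simp
    | succ i =>
      rw [SimpleGraph.Walk.length_cons] at hi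
      rw [SimpleGraph.Walk.getVert_cons_succ, SimpleGraph.Walk.getVert_cons_succ,
        SimpleGraph.Walk.edges_cons, List.mem_cons]
      exact Or.inr (ih i (by omega))

theorem meets_card' {V : Type*} {H : SimpleGraph V} {pos : V → ℂ} {A : Sym2 V → Set ℂ}
    (hd : Drawing H pos A) {m : ℕ} {u v : V}
    (w : H.Walk u v) (hx : ∀ e ∈ w.edges, (xs H pos A e).encard ≤ m) (δ : ℕ → ℕ)
    (hδ : ∀ i < w.length, w.getVert i ≠ u → w.getVert i ≠ v →
      {e | e ∈ H.edgeSet ∧ w.getVert i ∈ e}.encard ≤ δ i) :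
    (meets H pos A w).encard ≤ (∑ i ∈ Finset.range w.length, (δ i + 2 * m) : ℕ) := by
  have hwe : ∀ e ∈ w.edges, e ∈ H.edgeSet := fun e he => w.edges_subset_edgeSet he
  set Z : ℕ → Set (Sym2 V × ℂ) := fun i =>
    {q | q.1 ∈ H.edgeSet ∧ w.getVert i ∈ q.1 ∧ q.2 = pos (w.getVert i) ∧ w.getVert i ≠ u ∧
      w.getVert i ≠ v} ∪
    ((xs H pos A s(w.getVert i, w.getVert (i + 1))) ∪
      (fun q => (s(w.getVert i, w.getVert (i + 1)), q.2)) ''
        (xs H pos A s(w.getVert i, w.getVert (i + 1)))) with hZ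
  have hsub : meets H pos A w ⊆ ⋃ i ∈ {i | i < w.length}, Z i := by
    rintro ⟨f, x⟩ ⟨hf, hxu, hxv, hxf, ⟨e, he, hxe⟩, hor⟩
    simp only at hf hxu hxv hxf hxe hor
    obtain ⟨i, hi, rfl⟩ := mem_walk_edges w he
    simp only [mem_iUnion]
    by_cases hxp : x ∈ range pos
    · obtain ⟨y, rfl⟩ := hxp
      have hy1 := hd.avoid _ (hwe _ he) y hxe
      have hy2 := hd.avoid f hf y hxf
      have hyu : y ≠ u := fun h => hxu (by rw [h])
      have hyv : y ≠ v := fun h => hxv (by rw [h])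
      rcases Sym2.mem_iff.mp hy1 with h | h
      · exact ⟨i, hi, Or.inl ⟨hf, h ▸ hy2, by rw [h], h ▸ hyu, h ▸ hyv⟩⟩
      · have hi1 : i + 1 < w.length := by
          rcases Nat.lt_or_ge (i + 1) w.length with h' | h'
          · exact h'
          · exfalso
            rw [w.getVert_of_length_le h'] at h
            exact hyv h
        exact ⟨i + 1, hi1, Or.inl ⟨hf, h ▸ hy2, by rw [h], h ▸ hyu, h ▸ hyv⟩⟩
    · refine ⟨i, hi, Or.inr ?_⟩
      by_cases hfe : f = s(w.getVert i, w.getVert (i + 1))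
      · right
        rcases hor with h | ⟨g, hg⟩
        · exact absurd h hxp
        · rw [hfe] at hg
          exact ⟨(g, x), hg, by rw [hfe]⟩
      · left
        exact ⟨hf, hfe, hxe, hxf, hxp⟩
  refine (Set.encard_le_encard hsub).trans ?_
  refine encard_iUnion_le_sum Z (fun i => δ i + 2 * m) w.length ?_
  intro i hi
  have hadj : s(w.getVert i, w.getVert (i + 1)) ∈ w.edges := getVert_edge w i hi
  have h1 : {q : Sym2 V × ℂ | q.1 ∈ H.edgeSet ∧ w.getVert i ∈ q.1 ∧
      q.2 = pos (w.getVert i) ∧ w.getVert i ≠ u ∧ w.getVert i ≠ v}.encard ≤ δ i := by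
    by_cases hg : w.getVert i ≠ u ∧ w.getVert i ≠ v
    · refine le_trans ?_ (hδ i hi hg.1 hg.2)
      refine Set.encard_le_encard_of_injOn (f := Prod.fst) ?_ ?_
      · rintro q ⟨h1, h2, -⟩
        exact ⟨h1, h2⟩
      · rintro q ⟨-, -, h3, -⟩ q' ⟨-, -, h4, -⟩ h5
        exact Prod.ext h5 (h3.trans h4.symm)
    · have : {q : Sym2 V × ℂ | q.1 ∈ H.edgeSet ∧ w.getVert i ∈ q.1 ∧
          q.2 = pos (w.getVert i) ∧ w.getVert i ≠ u ∧ w.getVert i ≠ v} = ∅ := by
        ext q
        simp only [mem_ofPred_eq, mem_empty_iff_false, iff_false]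
        rintro ⟨-, -, -, h3⟩
        exact hg h3
      rw [this]
      simp
  refine (Set.encard_union_le _ _).trans ?_
  have h2 := hx _ hadj
  have h3 := Set.encard_image_le (fun q : Sym2 V × ℂ =>
    (s(w.getVert i, w.getVert (i + 1)), q.2))
    (xs H pos A s(w.getVert i, w.getVert (i + 1)))
  have h4 := (Set.encard_union_le (xs H pos A s(w.getVert i, w.getVert (i + 1)))
    ((fun q : Sym2 V × ℂ => (s(w.getVert i, w.getVert (i + 1)), q.2)) ''
      (xs H pos A s(w.getVert i, w.getVert (i + 1))))).trans (add_le_add h2 (h3.trans h2))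
  refine (add_le_add h1 h4).trans ?_
  push_cast
  rw [two_mul]

theorem meets_edge' {V : Type*} {H : SimpleGraph V} {pos : V → ℂ} {A : Sym2 V → Set ℂ}
    (hd : Drawing H pos A) {u v : V}
    (w : H.Walk u v) {f : Sym2 V} (hf : f ∈ H.edgeSet) {m : ℕ}
    (hx : (xs H pos A f).encard ≤ m) :
    {x | (f, x) ∈ meets H pos A w}.encard ≤ (m + 2 : ℕ) := by
  have hsub : {x | (f, x) ∈ meets H pos A w} ⊆ Prod.snd '' xs H pos A f ∪ pos '' {y | y ∈ f} := by
    rintro x ⟨-, -, -, hxf, -, h⟩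
    rcases h with ⟨y, hy⟩ | ⟨g, hg⟩
    · refine Or.inr ⟨y, hd.avoid f hf y ?_, hy⟩
      rw [hy]
      exact hxf
    · exact Or.inl ⟨_, hg, rfl⟩
  refine (Set.encard_le_encard hsub).trans ((Set.encard_union_le _ _).trans ?_)
  have h1 := (Set.encard_image_le Prod.snd (xs H pos A f)).trans hx
  have h2 : (pos '' {y | y ∈ f}).encard ≤ 2 := by
    refine (Set.encard_image_le _ _).trans ?_
    induction f using Sym2.ind with
    | _ a b =>
      have : {y | y ∈ s(a, b)} = {a, b} := by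
        ext y
        simp
      rw [this]
      refine (Set.encard_insert_le _ _).trans ?_
      rw [Set.encard_singleton]
      norm_num
  push_cast
  exact add_le_add h1 h2

/-- at every crossing of `b` there is only one other edge -/
def Simple1 {V : Type} (H : SimpleGraph V) (pos : V → ℂ) (A : Sym2 V → Set ℂ) (b : Sym2 V) :
    Prop :=
  ∀ z f f', (f, z) ∈ xs H pos A b → (f', z) ∈ xs H pos A b → f = f'

/-- a drawing in which every edge `e` has at most `ℓ e` crossings, and the edges in `S` have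
simple crossings -/
def LDraw {V : Type} (H : SimpleGraph V) (ℓ : Sym2 V → ℕ) (S : Set (Sym2 V)) : Prop :=
  ∃ (pos : V → ℂ) (A : Sym2 V → Set ℂ), Drawing H pos A ∧
    (∀ e ∈ H.edgeSet, (xs H pos A e).encard ≤ ℓ e) ∧
    ∀ b ∈ S, b ∈ H.edgeSet → Simple1 H pos A b

theorem LDraw.add {V : Type} [Finite V] {H : SimpleGraph V} {ℓ : Sym2 V → ℕ} {S : Set (Sym2 V)}
    (h : LDraw H ℓ S) {u v : V} (huv : u ≠ v) (hna : ¬ H.Adj u v) (w : H.Walk u v) {U : ℕ}
    (hU : ∀ e ∈ w.edges, ℓ e ≤ U) (δ : ℕ → ℕ)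
    (hδ : ∀ i < w.length, w.getVert i ≠ u → w.getVert i ≠ v →
      {e | e ∈ H.edgeSet ∧ w.getVert i ∈ e}.encard ≤ δ i) {K : SimpleGraph V}
    (hK : ∀ f, f ∈ K.edgeSet ↔ f ∈ H.edgeSet ∨ f = s(u, v)) {ℓ' : Sym2 V → ℕ}
    (h1 : ∀ f ∈ H.edgeSet, 5 * ℓ f + 8 ≤ ℓ' f)
    (h2 : 4 * (∑ i ∈ Finset.range w.length, (δ i + 2 * U)) ≤ ℓ' s(u, v)) :
    LDraw K ℓ' (insert s(u, v) S) := by
  classical
  obtain ⟨pos, A, hd, hx, hS⟩ := h
  obtain ⟨A', B, hd', hxs, hB, hBp, hBs, x, tag, hx1, hx2⟩ := parallel4 hd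
    (fun e he => Set.finite_of_encard_le_coe (hx e he)) huv w
  have hne : ∀ f ∈ H.edgeSet, f ≠ s(u, v) := by
    rintro f hf rfl
    exact hna hf
  obtain ⟨A'', hA1, hA2⟩ : ∃ A'' : Sym2 V → Set ℂ, A'' s(u, v) = B ∧
      ∀ f, f ≠ s(u, v) → A'' f = A' f :=
    ⟨Function.update A' s(u, v) B, by simp, fun f hf => by simp [hf]⟩
  have hxB : (xs K pos A'' s(u, v)) = {q : Sym2 V × ℂ | q.1 ∈ H.edgeSet ∧ q.2 ∈ B ∧
      q.2 ∈ A' q.1 ∧ q.2 ∉ range pos} := by
    ext ⟨f, z⟩
    simp only [xs, mem_ofPred_eq]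
    rw [hA1, hK]
    constructor
    · rintro ⟨h3, h4, h5, h6, h7⟩
      have h8 := h3.resolve_right h4
      rw [hA2 f h4] at h6
      exact ⟨h8, h5, h6, h7⟩
    · rintro ⟨h3, h5, h6, h7⟩
      have h4 := hne f h3
      rw [hA2 f h4]
      exact ⟨Or.inl h3, h4, h5, h6, h7⟩
  have hxf : ∀ f ∈ H.edgeSet, ∀ q, q ∈ xs K pos A'' f → q ∈ xs H pos A' f ∨
      (q.1 = s(u, v) ∧ q.2 ∈ B ∧ q.2 ∈ A' f ∧ q.2 ∉ range pos) := by
    rintro f hf ⟨g, z⟩ ⟨h3, h4, h5, h6, h7⟩
    simp only at h3 h4 h5 h6 h7 ⊢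
    rw [hA2 f (hne f hf)] at h5
    rw [hK] at h3
    by_cases hg : g = s(u, v)
    · right
      rw [hg, hA1] at h6
      exact ⟨hg, h6, h5, h7⟩
    · left
      rw [hA2 g hg] at h6
      exact ⟨h3.resolve_right hg, h4, h5, h6, h7⟩
  refine ⟨pos, A'', ⟨hd.inj, ?_, ?_⟩, ?_, ?_⟩
  · intro a b hab
    by_cases hf : s(a, b) = s(u, v)
    · rw [hf, hA1]
      rw [Sym2.eq_iff] at hf
      rcases hf with ⟨rfl, rfl⟩ | ⟨rfl, rfl⟩
      · exact hB
      · exact hB.symm
    · rw [hA2 _ hf]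
      exact hd'.arc a b (((hK _).mp hab).resolve_right hf)
  · intro f hf y hy
    by_cases hfe : f = s(u, v)
    · rw [hfe, hA1] at hy
      rw [hfe]
      rcases hBp y hy with rfl | rfl <;> simp
    · rw [hA2 f hfe] at hy
      exact hd'.avoid f (((hK _).mp hf).resolve_right hfe) y hy
  · intro f hf
    by_cases hfe : f = s(u, v)
    · subst hfe
      rw [hxB]
      refine (encard_le_of_tag _ (meets H pos A w) (fun q => (q.1, x q)) tag hx1 hx2).trans ?_
      have h3 := meets_card' hd w (m := U) (fun e he => (hx e (w.edges_subset_edgeSet he)).trans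
        (by exact_mod_cast hU e he)) δ hδ
      refine (mul_le_mul_left h3 4).trans ?_
      rw [mul_comm]
      exact_mod_cast h2
    · have hfH := ((hK _).mp hf).resolve_right hfe
      have hsub : xs K pos A'' f ⊆ xs H pos A' f ∪ (fun z => (s(u, v), z)) ''
          {z | z ∈ B ∧ z ∈ A' f ∧ z ∉ range pos} := by
        rintro ⟨g, z⟩ hq
        rcases hxf f hfH _ hq with h3 | ⟨h3, h4⟩
        · exact Or.inl h3
        · right
          simp only at h3
          exact ⟨z, h4, by rw [h3]⟩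
      refine (Set.encard_le_encard hsub).trans ((Set.encard_union_le _ _).trans ?_)
      have h3 : (xs H pos A' f).encard ≤ ℓ f := (Set.encard_le_encard (hxs f hfH)).trans (hx f hfH)
      have h4 : {z | z ∈ B ∧ z ∈ A' f ∧ z ∉ range pos}.encard ≤ ((ℓ f + 2) * 4 : ℕ) := by
        refine (encard_le_of_tag _ {x | (f, x) ∈ meets H pos A w} (fun z => x (f, z))
          (fun z => tag (f, z)) ?_ ?_).trans ?_
        · rintro z ⟨h1, h2, h3⟩
          exact hx1 (f, z) ⟨hfH, h1, h2, h3⟩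
        · rintro z ⟨h1, h2, h3⟩ z' ⟨h1', h2', h3'⟩ h
          simp only [Prod.mk.injEq] at h
          have h5 : ((f, z) : Sym2 V × ℂ) = (f, z') := hx2 ⟨hfH, h1, h2, h3⟩ ⟨hfH, h1', h2', h3'⟩
            (by simp only [h.1, h.2])
          exact (Prod.mk.inj h5).2
        · have := meets_edge' hd w hfH (hx f hfH)
          push_cast at this ⊢
          gcongr
      refine (add_le_add h3 ((Set.encard_image_le _ _).trans h4)).trans ?_
      have h5 := h1 f hfH
      have h6 : ℓ f + (ℓ f + 2) * 4 ≤ ℓ' f := by omega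
      exact_mod_cast h6
  · intro b hb hbK z f f' hf hf'
    by_cases hbe : b = s(u, v)
    · subst hbe
      rw [hxB] at hf hf'
      exact hBs z hf.2.1 hf.2.2.2 f hf.1 f' hf'.1 hf.2.2.1 hf'.2.2.1
    · have hbH := ((hK _).mp hbK).resolve_right hbe
      have hbS : b ∈ S := by
        rcases hb with h | h
        · exact absurd h hbe
        · exact h
      rcases hxf b hbH _ hf with h3 | ⟨h3, h4, h5, h6⟩ <;>
        rcases hxf b hbH _ hf' with h3' | ⟨h3', h4', h5', h6'⟩
      · exact hS b hbS hbH z f f' (hxs b hbH h3) (hxs b hbH h3')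
      · exact absurd (hBs z h4' h6' f h3.1 b hbH h3.2.2.2.1 h3.2.2.1) h3.2.1
      · exact absurd (hBs z h4 h6 f' h3'.1 b hbH h3'.2.2.2.1 h3'.2.2.1) h3'.2.1
      · simp only at h3 h3'
        rw [h3, h3']

theorem LDraw.mono {V : Type} {H K : SimpleGraph V} {ℓ ℓ' : Sym2 V → ℕ} {S S' : Set (Sym2 V)}
    (h : LDraw H ℓ S) (hK : K ≤ H) (hℓ : ∀ f ∈ K.edgeSet, ℓ f ≤ ℓ' f)
    (hS : ∀ b ∈ K.edgeSet, b ∈ S' → b ∈ S) : LDraw K ℓ' S' := by
  obtain ⟨pos, A, hd, hx, hSS⟩ := h
  have hKe : ∀ f ∈ K.edgeSet, f ∈ H.edgeSet := by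
    intro f
    induction f using Sym2.ind with
    | _ a b => exact fun h => hK h
  have hsub : ∀ f, xs K pos A f ⊆ xs H pos A f := by
    rintro f ⟨g, z⟩ ⟨h1, h2⟩
    exact ⟨hKe g h1, h2⟩
  refine ⟨pos, A, ⟨hd.inj, fun u v h => hd.arc u v (hK h), fun e he => hd.avoid e (hKe e he)⟩,
    fun e he => ?_, ?_⟩
  · refine (Set.encard_le_encard (hsub e)).trans ((hx e (hKe e he)).trans ?_)
    exact_mod_cast hℓ e he
  · intro b hb hbK z f f' hf hf'
    exact hSS b (hS b hbK hb) (hKe b hbK) z f f' (hsub b hf) (hsub b hf')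

/-- adding a leaf at an isolated vertex -/
theorem LDraw.leaf {V : Type} [Finite V] {H : SimpleGraph V} {ℓ : Sym2 V → ℕ} {S : Set (Sym2 V)}
    (h : LDraw H ℓ S) {x y : V} (hxy : x ≠ y) (hx : ∀ z, ¬ H.Adj x z) {K : SimpleGraph V}
    (hK : ∀ f, f ∈ K.edgeSet ↔ f ∈ H.edgeSet ∨ f = s(x, y)) : LDraw K ℓ S := by
  classical
  obtain ⟨pos, A, hd, hxs, hS⟩ := h
  -- the new arc
  obtain ⟨A₀, c, B, hd₀, hsub, hB, hc, hBA, hBp⟩ : ∃ (A₀ : Sym2 V → Set ℂ) (c : ℂ) (B : Set ℂ),
      Drawing H pos A₀ ∧ (∀ f ∈ H.edgeSet, xs H pos A₀ f ⊆ xs H pos A f) ∧ IsArc B (pos y) c ∧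
      c ∉ range pos ∧ (∀ f ∈ H.edgeSet, ∀ z ∈ B, z ∈ A₀ f → z = pos y) ∧
      (∀ w, pos w ∈ B → w = y) := by
    obtain ⟨m, hm⟩ : ∃ m : ℕ, ∀ e ∈ H.edgeSet, (xs H pos A e).encard ≤ m := by
      have : Fintype V := Fintype.ofFinite V
      refine ⟨∑ e : Sym2 V, ℓ e, fun e he => (hxs e he).trans ?_⟩
      exact_mod_cast Finset.single_le_sum (f := ℓ) (fun _ _ => Nat.zero_le _) (Finset.mem_univ e)
    by_cases hz : ∃ z, H.Adj y z
    · obtain ⟨z, hyz⟩ := hz
      obtain ⟨A', B, hd', hsub, hB, hBpos, hBcard⟩ := parallel hd hm hyz.ne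
        (SimpleGraph.Walk.cons hyz SimpleGraph.Walk.nil) (Δ := 0) (by
          intro w hw hwy hwz
          simp only [SimpleGraph.Walk.support_cons, SimpleGraph.Walk.support_nil, List.mem_cons,
            List.not_mem_nil, or_false] at hw
          rcases hw with h | h
          · exact absurd h hwy
          · exact absurd h hwz)
      set XB : Set (Sym2 V × ℂ) := {q | q.1 ∈ H.edgeSet ∧ q.2 ∈ B ∧
        q.2 ∈ A' q.1 ∧ q.2 ∉ range pos} with hXB
      have hXBfin : XB.Finite := by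
        refine Set.finite_of_encard_le_coe (k := 1 * (0 + 2 * m) * 4) ?_
        refine hBcard.trans ?_
        simp
      obtain ⟨c, S', hS', hSB, hSF⟩ := hB.initial
        (F := Prod.snd '' XB ∪ {pos z}) ((hXBfin.image _).union (Set.finite_singleton _)) (by
          rintro (⟨q, hq, h⟩ | h)
          · exact hq.2.2.2 ⟨y, h.symm⟩
          · exact hyz.ne (hd.inj h))
      rw [Set.disjoint_left] at hSF
      have hSp : ∀ w, pos w ∈ S' → w = y := by
        intro w hw
        rcases hBpos w (hSB hw) with h | h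
        · exact h
        · exact absurd (Or.inr (by rw [h]; rfl)) (hSF hw)
      refine ⟨A', c, S', hd', hsub, hS', ?_, ?_, hSp⟩
      · rintro ⟨w, hw⟩
        have := hSp w (hw ▸ hS'.right_mem)
        rw [this] at hw
        exact hS'.ne hw
      · intro f hf p hp hpA
        by_cases hpr : p ∈ range pos
        · obtain ⟨w, rfl⟩ := hpr
          rw [hSp w hp]
        · exact absurd (Or.inl ⟨(f, p), ⟨hf, hSB hp, hpA, hpr⟩, rfl⟩) (hSF hp)
    · push Not at hz
      have hcl : IsClosed ((⋃ f ∈ H.edgeSet, A f) ∪ pos '' {w | w ≠ y}) := by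
        refine IsClosed.union ?_ ((Set.toFinite _).image _).isClosed
        refine Set.Finite.isClosed_biUnion (Set.toFinite _) ?_
        intro f hf
        induction f using Sym2.ind with
        | _ a b => exact (hd.arc a b hf).isClosed
      have hnot : pos y ∉ ((⋃ f ∈ H.edgeSet, A f) ∪ pos '' {w | w ≠ y}) := by
        rintro (h | ⟨w, hw, hwy⟩)
        · simp only [mem_iUnion] at h
          obtain ⟨f, hf, h⟩ := h
          have hyf := hd.avoid f hf y h
          obtain ⟨z, rfl⟩ := hyf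
          exact hz z hf
        · exact hw (hd.inj hwy)
      obtain ⟨ε, hε, hball⟩ := Metric.isOpen_iff.mp hcl.isOpen_compl (pos y) hnot
      set c : ℂ := pos y + (ε / 2 : ℝ) with hc
      have hcy : dist c (pos y) = ε / 2 := by
        rw [hc, dist_eq_norm]
        simp only [add_sub_cancel_left]
        rw [Complex.norm_real, Real.norm_eq_abs, abs_of_pos (by linarith)]
      have hne : pos y ≠ c := by
        intro h
        rw [← h, dist_self] at hcy
        linarith
      have hsegb : segment ℝ (pos y) c ⊆ Metric.ball (pos y) ε := by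
        refine (convex_ball (pos y) ε).segment_subset (Metric.mem_ball_self hε) ?_
        rw [Metric.mem_ball, hcy]
        linarith
      have hSp : ∀ w, pos w ∈ segment ℝ (pos y) c → w = y := by
        intro w hw
        by_contra hwy
        exact hball (hsegb hw) (Or.inr ⟨w, hwy, rfl⟩)
      refine ⟨A, c, segment ℝ (pos y) c, hd, fun f _ => subset_rfl, isArc_segment hne, ?_, ?_, hSp⟩
      · rintro ⟨w, hw⟩
        have := hSp w (hw ▸ right_mem_segment _ _ _)
        rw [this] at hw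
        exact hne hw
      · intro f hf p hp hpA
        exfalso
        refine hball (hsegb hp) (Or.inl ?_)
        simp only [mem_iUnion]
        exact ⟨f, hf, hpA⟩
  have hxH : ∀ f ∈ H.edgeSet, x ∉ f := by
    rintro f hf ⟨z, rfl⟩
    exact hx z hf
  have hne : ∀ f ∈ H.edgeSet, f ≠ s(x, y) := by
    rintro f hf rfl
    exact hx y hf
  obtain ⟨pos', hp1, hp2⟩ : ∃ pos' : V → ℂ, pos' x = c ∧ ∀ w, w ≠ x → pos' w = pos w :=
    ⟨Function.update pos x c, by simp, fun w hw => by simp [hw]⟩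
  obtain ⟨A', hA1, hA2⟩ : ∃ A' : Sym2 V → Set ℂ, A' s(x, y) = B ∧ ∀ f, f ≠ s(x, y) → A' f = A₀ f :=
    ⟨Function.update A₀ s(x, y) B, by simp, fun w hw => by simp [hw]⟩
  have hpA : ∀ f ∈ H.edgeSet, ∀ w, pos' w ∈ A₀ f → w ≠ x := by
    rintro f hf w hw rfl
    rw [hp1] at hw
    exact hc ⟨y, (hBA f hf c hB.right_mem hw).symm⟩
  have hrange : ∀ f ∈ H.edgeSet, ∀ z ∈ A₀ f, z ∉ range pos' → z ∉ range pos := by
    rintro f hf z hz hz' ⟨w, rfl⟩
    refine hz' ⟨w, hp2 w ?_⟩
    rintro rfl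
    exact hxH f hf (hd₀.avoid f hf w hz)
  have hnew : xs K pos' A' s(x, y) = ∅ := by
    ext ⟨g, z⟩
    simp only [xs, mem_ofPred_eq, mem_empty_iff_false, iff_false]
    rintro ⟨h1, h2, h3, h4, h5⟩
    rw [hA1] at h3
    rw [hA2 g h2] at h4
    have := hBA g (((hK g).mp h1).resolve_right h2) z h3 h4
    exact h5 ⟨y, by rw [this, hp2 y hxy.symm]⟩
  have hold : ∀ f ∈ H.edgeSet, xs K pos' A' f ⊆ xs H pos A f := by
    rintro f hf ⟨g, z⟩ ⟨h1, h2, h3, h4, h5⟩
    refine hsub f hf ?_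
    simp only at h1 h2 h3 h4 h5
    rw [hA2 f (hne f hf)] at h3
    by_cases hge : g = s(x, y)
    · exfalso
      rw [hge, hA1] at h4
      have := hBA f hf z h4 h3
      exact h5 ⟨y, by rw [this, hp2 y hxy.symm]⟩
    · rw [hA2 g hge] at h4
      exact ⟨((hK g).mp h1).resolve_right hge, h2, h3, h4, hrange f hf z h3 h5⟩
  refine ⟨pos', A', ⟨?_, ?_, ?_⟩, ?_, ?_⟩
  · intro a b hab
    by_cases ha : a = x
    · by_cases hb : b = x
      · rw [ha, hb]
      · rw [ha, hp1, hp2 b hb] at hab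
        exact absurd ⟨b, hab.symm⟩ hc
    · by_cases hb : b = x
      · rw [hb, hp1, hp2 a ha] at hab
        exact absurd ⟨a, hab⟩ hc
      · rw [hp2 a ha, hp2 b hb] at hab
        exact hd.inj hab
  · intro a b hab
    by_cases hf : s(a, b) = s(x, y)
    · rw [hf, hA1]
      rw [Sym2.eq_iff] at hf
      rcases hf with ⟨rfl, rfl⟩ | ⟨rfl, rfl⟩
      · rw [hp1, hp2 b hxy.symm]
        exact hB.symm
      · rw [hp1, hp2 a hxy.symm]
        exact hB
    · have hfH : s(a, b) ∈ H.edgeSet := ((hK _).mp hab).resolve_right hf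
      rw [hA2 _ hf, hp2 a, hp2 b]
      · exact hd₀.arc a b hfH
      · rintro rfl
        exact hxH _ hfH (by simp)
      · rintro rfl
        exact hxH _ hfH (by simp)
  · intro f hf w hw
    by_cases hfe : f = s(x, y)
    · rw [hfe, hA1] at hw
      rw [hfe]
      by_cases hwx : w = x
      · rw [hwx]; simp
      · rw [hp2 w hwx] at hw
        rw [hBp w hw]
        simp
    · have hfH : f ∈ H.edgeSet := ((hK _).mp hf).resolve_right hfe
      rw [hA2 f hfe] at hw
      have hwx := hpA f hfH w hw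
      rw [hp2 w hwx] at hw
      exact hd₀.avoid f hfH w hw
  · intro f hf
    by_cases hfe : f = s(x, y)
    · rw [hfe, hnew]
      simp
    · have hfH : f ∈ H.edgeSet := ((hK _).mp hf).resolve_right hfe
      exact (Set.encard_le_encard (hold f hfH)).trans (hxs f hfH)
  · intro b hb hbK z f f' hf hf'
    by_cases hbe : b = s(x, y)
    · rw [hbe, hnew] at hf
      exact absurd hf (by simp)
    · have hbH : b ∈ H.edgeSet := ((hK _).mp hbK).resolve_right hbe
      exact hS b hb hbH z f f' (hold b hbH hf) (hold b hbH hf')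

/-- adding isolated vertices -/
theorem LDraw.sum {V Y : Type} [Finite V] [Fintype Y] {H : SimpleGraph V} {ℓ : Sym2 V → ℕ}
    {S : Set (Sym2 V)} (h : LDraw H ℓ S) {K : SimpleGraph (V ⊕ Y)}
    (hK : ∀ a b, K.Adj a b ↔ ∃ a' b', a = Sum.inl a' ∧ b = Sum.inl b' ∧ H.Adj a' b')
    {ℓ' : Sym2 (V ⊕ Y) → ℕ} (hℓ : ∀ a b, H.Adj a b → ℓ s(a, b) ≤ ℓ' s(Sum.inl a, Sum.inl b)) :
    LDraw K ℓ' ∅ := by
  classical
  obtain ⟨pos, A, hd, hx, hS⟩ := h
  obtain ⟨R, hR⟩ : ∃ R : ℝ, ∀ z, (z ∈ range pos ∨ ∃ f ∈ H.edgeSet, z ∈ A f) → ‖z‖ ≤ R := by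
    have hcomp : Bornology.IsBounded (range pos ∪ ⋃ f ∈ H.edgeSet, A f) := by
      refine Bornology.IsBounded.union (Set.finite_range pos).isBounded ?_
      rw [Bornology.isBounded_biUnion (Set.toFinite _)]
      intro f hf
      induction f using Sym2.ind with
      | _ a b =>
        obtain ⟨γ, hc, -, -, -, hA⟩ := hd.arc a b hf
        rw [← hA]
        exact (isCompact_Icc.image_of_continuousOn hc).isBounded
    obtain ⟨R, hR⟩ := hcomp.exists_norm_le
    refine ⟨R, fun z hz => hR z ?_⟩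
    rcases hz with h | ⟨f, hf, h⟩
    · exact Or.inl h
    · right
      simp only [mem_iUnion]
      exact ⟨f, hf, h⟩
  set e := Fintype.equivFin Y with he
  set far : Y → ℂ := fun y => ((|R| + 1 + (e y : ℕ) : ℝ) : ℂ) with hfar
  have hfarn : ∀ y, R < ‖far y‖ := by
    intro y
    rw [hfar]
    simp only
    rw [Complex.norm_real, Real.norm_eq_abs]
    have h1 : (0 : ℝ) ≤ (e y : ℕ) := Nat.cast_nonneg _
    have h2 := le_abs_self R
    have h3 := abs_nonneg R
    rw [abs_of_nonneg (by linarith)]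
    linarith
  have hfarinj : Function.Injective far := by
    intro y y' h
    simp only [hfar] at h
    have h1 : (|R| + 1 + (e y : ℕ) : ℝ) = |R| + 1 + (e y' : ℕ) := by exact_mod_cast h
    have h2 : ((e y : ℕ) : ℝ) = (e y' : ℕ) := by linarith
    exact e.injective (Fin.ext (by exact_mod_cast h2))
  set pos' : V ⊕ Y → ℂ := Sum.elim pos far with hpos'
  obtain ⟨A', hA'⟩ : ∃ A' : Sym2 (V ⊕ Y) → Set ℂ, ∀ f : Sym2 V, A' (f.map Sum.inl) = A f := by
    refine ⟨fun F => ⋃ (f : Sym2 V) (_ : f.map Sum.inl = F), A f, fun f => ?_⟩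
    ext z
    simp only [mem_iUnion, exists_prop]
    constructor
    · rintro ⟨g, hg, hz⟩
      rwa [← Sym2.map.injective Sum.inl_injective hg]
    · intro hz
      exact ⟨f, rfl, hz⟩
  have hKe : ∀ F ∈ K.edgeSet, ∃ f ∈ H.edgeSet, f.map Sum.inl = F := by
    intro F
    induction F using Sym2.ind with
    | _ a b =>
      intro h
      obtain ⟨a', b', rfl, rfl, h'⟩ := (hK a b).mp h
      exact ⟨s(a', b'), h', rfl⟩
  have hxs : ∀ f ∈ H.edgeSet, xs K pos' A' (f.map Sum.inl) ⊆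
      (fun q : Sym2 V × ℂ => (q.1.map Sum.inl, q.2)) '' xs H pos A f := by
    rintro f hf ⟨F, z⟩ ⟨h1, h2, h3, h4, h5⟩
    simp only at h1 h2 h3 h4 h5
    obtain ⟨g, hg, rfl⟩ := hKe F h1
    rw [hA'] at h3 h4
    refine ⟨(g, z), ⟨hg, ?_, h3, h4, ?_⟩, rfl⟩
    · rintro rfl
      exact h2 rfl
    · rintro ⟨w, rfl⟩
      exact h5 ⟨Sum.inl w, rfl⟩
  refine ⟨pos', A', ⟨?_, ?_, ?_⟩, ?_, ?_⟩
  · rintro (a | a) (b | b) hab
    · exact congrArg Sum.inl (hd.inj hab)
    · exfalso
      have h1 := hR (pos a) (Or.inl ⟨a, rfl⟩)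
      have h2 := hfarn b
      change pos a = far b at hab
      rw [hab] at h1
      linarith
    · exfalso
      have h1 := hR (pos b) (Or.inl ⟨b, rfl⟩)
      have h2 := hfarn a
      change far a = pos b at hab
      rw [← hab] at h1
      linarith
    · exact congrArg Sum.inr (hfarinj hab)
  · intro a b hab
    obtain ⟨a', b', rfl, rfl, h'⟩ := (hK a b).mp hab
    have : s(Sum.inl a', Sum.inl b') = (s(a', b') : Sym2 V).map (Sum.inl : V → V ⊕ Y) := rfl
    rw [this, hA']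
    exact hd.arc a' b' h'
  · intro F hF w hw
    obtain ⟨f, hf, rfl⟩ := hKe F hF
    rw [hA'] at hw
    rcases w with w | w
    · have := hd.avoid f hf w hw
      rw [Sym2.mem_map]
      exact ⟨w, this, rfl⟩
    · exfalso
      have h1 := hR (far w) (Or.inr ⟨f, hf, hw⟩)
      have h2 := hfarn w
      linarith
  · intro F hF
    obtain ⟨f, hf, rfl⟩ := hKe F hF
    refine (Set.encard_le_encard (hxs f hf)).trans ((Set.encard_image_le _ _).trans
      ((hx f hf).trans ?_))
    induction f using Sym2.ind with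
    | _ a b => exact_mod_cast hℓ a b hf
  · intro b hb
    exact absurd hb (by simp)

end Pool.Agent.H354_OP
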