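import Pool.Agent.H354_OP.MainB

/-!
# The explicit logarithmic bound
-/

set_option autoImplicit false

namespace Pool.Agent.H354_OP

theorem radius_log (m s : ℕ) :
    56 * (2 * (m * (s + 1 + 1)) * (2 * (2 * (2 * (m + Nat.log 2 (s + 2)) + 16)) + 1) + 1) <
      2 ^ (2 * (m + Nat.log 2 (s + 2)) + 16) := by
  obtain ⟨a, ha⟩ : ∃ a, a = m + Nat.log 2 (s + 2) := ⟨_, rfl⟩
  have h1 : s + 2 < 2 ^ (Nat.log 2 (s + 2) + 1) := Nat.lt_pow_succ_log_self (by norm_num) _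
  have h2 : m < 2 ^ m := Nat.lt_two_pow_self
  have h3 : m * (s + 2) ≤ 2 ^ (a + 1) := by
    calc m * (s + 2) ≤ 2 ^ m * 2 ^ (Nat.log 2 (s + 2) + 1) := Nat.mul_le_mul h2.le h1.le
      _ = 2 ^ (a + 1) := by rw [← pow_add, ha, add_assoc]
  have h4 : a + 1 ≤ 2 ^ a := Nat.lt_two_pow_self
  rw [← ha]
  have h5 : 2 * (2 * (2 * a + 16)) + 1 ≤ 65 * 2 ^ a := by
    have : 65 * (a + 1) ≤ 65 * 2 ^ a := Nat.mul_le_mul_left _ h4
    omega
  have h6 : 2 * (m * (s + 1 + 1)) ≤ 4 * 2 ^ a := by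
    have : 2 ^ (a + 1) = 2 * 2 ^ a := by ring
    rw [this] at h3
    have h7 : m * (s + 1 + 1) = m * (s + 2) := rfl
    omega
  have h7 : 2 * (m * (s + 1 + 1)) * (2 * (2 * (2 * a + 16)) + 1) ≤ (4 * 2 ^ a) * (65 * 2 ^ a) :=
    Nat.mul_le_mul h6 h5
  have h8 : (2 : ℕ) ^ (2 * a + 16) = 65536 * (2 ^ a * 2 ^ a) := by
    rw [pow_add, two_mul, pow_add]
    norm_num
    ring
  have h9 : (4 * 2 ^ a) * (65 * 2 ^ a) = 260 * (2 ^ a * 2 ^ a) := by ring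
  have h10 : 0 < 2 ^ a * 2 ^ a := by positivity
  rw [h8]
  rw [h9] at h7
  omega

theorem bound_log (m s D : ℕ) :
    (8 * (2 * (m + Nat.log 2 (s + 2)) + 16) + 1) * (D + 2 * m) * 4 * (m + 1) + (5 * m + 8) ≤
      1200 * (m + 1) ^ 3 * (D + 1) * Nat.log 2 (s + 2) := by
  obtain ⟨l, hl⟩ : ∃ l, l = Nat.log 2 (s + 2) := ⟨_, rfl⟩
  have h1 : 1 ≤ l := by
    rw [hl]
    exact Nat.log_pos (by norm_num) (by omega)
  rw [← hl]
  have h2 : 8 * (2 * (m + l) + 16) + 1 ≤ 145 * (m + 1) * l := by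
    have h3 : 145 * m ≤ 145 * m * l := Nat.le_mul_of_pos_right _ h1
    have h4 : 145 * (m + 1) * l = 145 * m * l + 145 * l := by ring
    omega
  have h3 : D + 2 * m ≤ 2 * (m + 1) * (D + 1) := by
    have : 2 * (m + 1) * (D + 1) = 2 * m * D + 2 * m + 2 * D + 2 := by ring
    have h4 : 0 ≤ 2 * m * D := Nat.zero_le _
    omega
  have h4 : (8 * (2 * (m + l) + 16) + 1) * (D + 2 * m) * 4 * (m + 1) ≤
      (145 * (m + 1) * l) * (2 * (m + 1) * (D + 1)) * 4 * (m + 1) := by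
    gcongr
  have h5 : 5 * m + 8 ≤ 40 * ((m + 1) ^ 3 * (D + 1) * l) := by
    have h6 : 1 ≤ (m + 1) ^ 2 * (D + 1) * l :=
      Nat.mul_pos (Nat.mul_pos (by positivity) (by positivity)) h1
    have h7 : (m + 1) ^ 3 * (D + 1) * l = (m + 1) * ((m + 1) ^ 2 * (D + 1) * l) := by ring
    rw [h7]
    have h8 : m + 1 ≤ (m + 1) * ((m + 1) ^ 2 * (D + 1) * l) := Nat.le_mul_of_pos_right _ h6
    omega
  have h6 : (145 * (m + 1) * l) * (2 * (m + 1) * (D + 1)) * 4 * (m + 1) =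
      1160 * ((m + 1) ^ 3 * (D + 1) * l) := by ring
  have h7 : 1200 * (m + 1) ^ 3 * (D + 1) * l = 1200 * ((m + 1) ^ 3 * (D + 1) * l) := by ring
  rw [h7]
  rw [h6] at h4
  omega

end Pool.Agent.H354_OP
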