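import Pool.Agent.H354_OP.Star
import Pool.Agent.H354_OP.Comb

/-!
# The volume argument
-/

set_option autoImplicit false

namespace Pool.Agent.H354_OP

open Finset
open scoped Classical

set_option linter.unusedSectionVars false

variable {V : Type} [Fintype V]

theorem samp' {M : ℕ} {H : SimpleGraph V} {pos : V → ℂ} {C : Sym2 V → Set ℂ}
    (hT : TopD M H pos C) (X : Finset V) (Z : V → Finset V)
    (hdisj : ∀ x ∈ X, ∀ y ∈ X, x ≠ y → Disjoint (Z x) (Z y)) (hroot : ∀ x ∈ X, x ∈ Z x) (ρ : ℕ)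
    (hZ : ∀ x ∈ X, ∀ v ∈ Z x, ∃ w : H.Walk x v, w.length ≤ ρ ∧ ∀ u ∈ w.support, u ∈ Z x) :
    ∑ x ∈ X, (X.filter (fun y => x ≠ y ∧ ∃ a ∈ Z x, ∃ b ∈ Z y, H.Adj a b)).card ≤
      56 * (2 * M * (2 * ρ + 1) + 1) * X.card := by
  have h := samp hT (ι := {x // x ∈ X}) (fun i => i.1) (fun i => (Z i.1 : Set V)) (by
      intro i j hij
      rw [Finset.disjoint_coe]
      exact hdisj i.1 i.2 j.1 j.2 fun h => hij (Subtype.ext h)) (fun i => hroot i.1 i.2) ρ
      (fun i v hv => hZ i.1 i.2 v hv)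
      (univ.filter (fun e => e.1 ≠ e.2 ∧ ∃ a ∈ Z e.1.1, ∃ b ∈ Z e.2.1, H.Adj a b)) (by
        intro e he
        rw [mem_filter] at he
        exact he.2)
  rw [Fintype.card_coe] at h
  refine le_trans ?_ h
  rw [← Finset.card_sigma]
  have hsub : (X.sigma fun x => X.filter (fun y => x ≠ y ∧ ∃ a ∈ Z x, ∃ b ∈ Z y, H.Adj a b)) ⊆
      (univ.filter (fun e : {x // x ∈ X} × {x // x ∈ X} =>
        e.1 ≠ e.2 ∧ ∃ a ∈ Z e.1.1, ∃ b ∈ Z e.2.1, H.Adj a b)).image
        (fun e => (⟨e.1.1, e.2.1⟩ : (_ : V) × V)) := by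
    rintro ⟨x, y⟩ hxy
    rw [mem_sigma, mem_filter] at hxy
    obtain ⟨hx, hy, hne, hadj⟩ := hxy
    rw [mem_image]
    refine ⟨(⟨x, hx⟩, ⟨y, hy⟩), ?_, rfl⟩
    rw [mem_filter]
    exact ⟨mem_univ _, fun h => hne (congrArg Subtype.val h), hadj⟩
  exact (card_le_card hsub).trans card_image_le

theorem volume {M : ℕ} {H : SimpleGraph V} {pos : V → ℂ} {C : Sym2 V → Set ℂ}
    (hT : TopD M H pos C) {g Δ r : ℕ} (hLight : ¬ Light g Δ H) (L Hi Bad X₀ : Finset V)
    (hLl : ∀ x ∈ L, (nb H x).card ≤ Δ) (hLHi : ∀ x ∈ L, x ∉ Hi)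
    (hcov : ∀ x ∈ L, ∀ y, H.Adj x y → y ∈ L ∨ y ∈ Bad ∨ y ∈ Hi)
    (hdeg : ∀ x ∈ L, 3 ≤ (nb H x).card + (if x ∈ X₀ then 1 else 0))
    (hg : 2 * (Δ + 1) ^ (2 * r) ≤ g)
    (hHi : ∀ Z : Finset V, Z ⊆ L → Conn H Z → Z.Nonempty → Z.card ≤ (Δ + 1) ^ (2 * r) →
      (Hi.filter (fun y => ∃ z ∈ Z, H.Adj z y)).card ≤ 2)
    (W : ℕ) (hW : W = 56 * (2 * M * (2 * (2 * r) + 1) + 1)) (hr : 4 * W ≤ 2 ^ r) :
    3 * L.card ≤ 4 * (W + 1) *
      ∑ z ∈ L, (((nb H z).filter (fun y => y ∈ Bad)).card + (if z ∈ X₀ then 1 else 0)) := by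
  set β : V → ℕ := fun z => ((nb H z).filter (fun y => y ∈ Bad)).card +
    (if z ∈ X₀ then 1 else 0) with hβ
  have hqpos : 1 ≤ (Δ + 1) ^ (2 * r) := Nat.one_le_pow _ _ (by omega)
  -- centres
  obtain ⟨good, hgood⟩ : ∃ good : Finset V → Prop, ∀ X, good X ↔
      ∀ x ∈ X, ∀ y ∈ X, x ≠ y → Disjoint (ball H L x r) (ball H L y r) := ⟨_, fun X => Iff.rfl⟩
  obtain ⟨X, hX, hmax⟩ := Finset.exists_max_image (L.powerset.filter good) Finset.card
    ⟨∅, by rw [mem_filter, hgood]; simp⟩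
  rw [mem_filter, mem_powerset, hgood] at hX
  obtain ⟨hXL, hXd⟩ := hX
  have hcover : ∀ v ∈ L, ∃ x ∈ X, v ∈ ball H L x (2 * r) := by
    intro v hv
    by_cases hvX : v ∈ X
    · exact ⟨v, hvX, self_mem_ball H L v _⟩
    · by_contra hcon
      push Not at hcon
      have hdis : ∀ x ∈ X, Disjoint (ball H L v r) (ball H L x r) := by
        intro x hx
        rw [Finset.disjoint_left]
        intro u hu hu'
        refine hcon x hx ?_
        rw [two_mul]
        exact ball_trans hu' (ball_symm hu)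
      have h6 := hmax (insert v X) (by
        rw [mem_filter, mem_powerset, hgood]
        refine ⟨Finset.insert_subset hv hXL, ?_⟩
        intro a ha b hb hab
        rw [mem_insert] at ha hb
        rcases ha with rfl | ha
        · rcases hb with rfl | hb
          · exact absurd rfl hab
          · exact hdis b hb
        · rcases hb with rfl | hb
          · exact (hdis a ha).symm
          · exact hXd a ha b hb hab)
      rw [card_insert_of_notMem hvX] at h6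
      omega
  obtain ⟨f, hfX, hf⟩ := forest H L X (2 * r)
  set Z : V → Finset V := fun x => L.filter (fun v => f v = x) with hZ
  have hZL : ∀ x, Z x ⊆ L := fun x => filter_subset _ _
  have hmemZ : ∀ x v, v ∈ Z x ↔ v ∈ L ∧ f v = x := fun x v => by simp [hZ]
  have hZroot : ∀ x ∈ X, ∀ v ∈ Z x, ∃ w : (res H L).Walk x v, w.length ≤ 2 * r ∧
      ∀ u ∈ w.support, u ∈ Z x := by
    intro x hx v hv
    obtain ⟨hvL, hvx⟩ := (hmemZ x v).mp hv
    obtain ⟨h1, w, hw, hs⟩ := hf v (hcover v hvL)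
    subst hvx
    refine ⟨w, hw, fun u hu => ?_⟩
    rw [hmemZ]
    exact ⟨walk_res w (hXL h1) u hu, (hs u hu).2⟩
  have hZconn : ∀ x ∈ X, Conn H (Z x) := by
    intro x hx
    refine conn_of_root (L := L) (x := x) fun v hv => ?_
    obtain ⟨w, -, hs⟩ := hZroot x hx v hv
    exact ⟨w, hs⟩
  have hZself : ∀ x ∈ X, x ∈ Z x := fun x hx => (hmemZ x x).mpr ⟨hXL hx, hfX x hx⟩
  have hZcard : ∀ x ∈ X, (Z x).card ≤ (Δ + 1) ^ (2 * r) := by
    intro x hx
    refine le_trans (card_le_card ?_) (ball_card (hXL hx) hLl (2 * r))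
    intro v hv
    obtain ⟨w, hw, -⟩ := hZroot x hx v hv
    exact mem_ball.mpr ⟨w, hw⟩
  have hZdisj : ∀ x y, x ≠ y → ∀ v ∈ Z x, v ∉ Z y := by
    intro x y hxy v hv hv'
    exact hxy (((hmemZ x v).mp hv).2.symm.trans ((hmemZ y v).mp hv').2)
  have hsamp := samp' hT X Z (fun x _ y _ hxy => Finset.disjoint_left.mpr (hZdisj x y hxy))
    hZself (2 * r) (by
      intro x hx v hv
      obtain ⟨w, hw, hs⟩ := hZroot x hx v hv
      refine ⟨w.mapLe (res_le H L), by simpa using hw, ?_⟩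
      intro u hu
      rw [SimpleGraph.Walk.support_mapLe_eq_support] at hu
      exact hs u hu)
  -- the out-edges of a cell go to different cells
  have hout : ∀ x ∈ X, ∑ z ∈ Z x, ((nb H z).filter (fun y => y ∈ L ∧ y ∉ Z x)).card ≤
      (X.filter (fun y => x ≠ y ∧ ∃ a ∈ Z x, ∃ b ∈ Z y, H.Adj a b)).card := by
    intro x hx
    rw [← Finset.card_sigma]
    refine Finset.card_le_card_of_injOn (fun p => f p.2) ?_ ?_
    · rintro ⟨z, y⟩ hzy
      rw [Finset.mem_coe, mem_sigma] at hzy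
      obtain ⟨hz, hzy⟩ := hzy
      simp only at hz hzy ⊢
      rw [mem_filter, mem_nb] at hzy
      obtain ⟨hadj, hyL, hyZ⟩ := hzy
      rw [Finset.mem_coe, mem_filter]
      refine ⟨(hf y (hcover y hyL)).1, ?_, z, hz, y, (hmemZ _ _).mpr ⟨hyL, rfl⟩, hadj⟩
      intro h
      exact hyZ ((hmemZ _ _).mpr ⟨hyL, h.symm⟩)
    · rintro ⟨z, y⟩ hzy ⟨z', y'⟩ hzy' hff
      rw [Finset.mem_coe, mem_sigma] at hzy hzy'
      obtain ⟨hz, hzy⟩ := hzy
      obtain ⟨hz', hzy'⟩ := hzy'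
      simp only at hz hzy hz' hzy' hff
      rw [mem_filter, mem_nb] at hzy hzy'
      obtain ⟨hadj, hyL, hyZ⟩ := hzy
      obtain ⟨hadj', hyL', hyZ'⟩ := hzy'
      by_contra hne
      have hfy : f y ∈ X := (hf y (hcover y hyL)).1
      have hxy : x ≠ f y := fun h => hyZ ((hmemZ _ _).mpr ⟨hyL, h.symm⟩)
      have hor : z ≠ z' ∨ y ≠ y' := by
        by_contra hcon
        push Not at hcon
        obtain ⟨rfl, rfl⟩ := hcon
        exact hne rfl
      have h1 := hZcard x hx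
      have h2 := hZcard (f y) hfy
      exact hLight (two_edges (hZconn x hx) (hZconn (f y) hfy) (hZdisj x (f y) hxy) hz hz'
        ((hmemZ _ _).mpr ⟨hyL, rfl⟩) ((hmemZ _ _).mpr ⟨hyL', hff.symm⟩) hadj hadj' hor
        (fun u hu => hLl u (hZL _ hu)) (fun u hu _ => hLl u (hZL _ hu)) (by omega))
  have hob : ∀ Z : Finset V, Z ⊆ L → Conn H Z → Z.Nonempty → Z.card ≤ (Δ + 1) ^ (2 * r) →
      Z.card ≤ ∑ z ∈ Z, ((nb H z).filter (fun y => y ∈ L ∧ y ∉ Z)).card + ∑ z ∈ Z, β z := by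
    intro Z hZ1 hZ2 hZ3 hZ4
    exact out_bound hLight hZ3 hZ2 (fun x hx => hLl x (hZ1 hx)) (by omega)
      (fun x hx => hLHi x (hZ1 hx)) (fun x hx => hcov x (hZ1 hx)) (fun x hx => hdeg x (hZ1 hx))
      (hHi Z hZ1 hZ2 hZ3 hZ4)
  have hLcard : L.card = ∑ x ∈ X, (Z x).card :=
    Finset.card_eq_sum_card_fiberwise fun v hv => (hf v (hcover v hv)).1
  have hLsum : ∑ x ∈ X, ∑ z ∈ Z x, β z = ∑ z ∈ L, β z :=
    Finset.sum_fiberwise_of_maps_to (fun v hv => (hf v (hcover v hv)).1) β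
  have hL1 : L.card ≤ W * X.card + ∑ z ∈ L, β z := by
    rw [hLcard, ← hLsum, hW]
    refine le_trans (Finset.sum_le_sum fun x hx =>
      hob (Z x) (hZL x) (hZconn x hx) ⟨x, hZself x hx⟩ (hZcard x hx)) ?_
    rw [Finset.sum_add_distrib]
    exact Nat.add_le_add_right ((Finset.sum_le_sum hout).trans hsamp) _
  -- balls of good centres are large
  have hbig : ∀ x ∈ X, ∑ z ∈ ball H L x r, β z = 0 → 2 ^ r ≤ (ball H L x r).card := by
    intro x hx h0
    have hβ0 : ∀ z ∈ ball H L x r, β z = 0 := Finset.sum_eq_zero_iff.mp h0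
    have hind : ∀ j ≤ r, 2 ^ j ≤ (ball H L x j).card := by
      intro j
      induction j with
      | zero =>
        intro _
        exact Finset.card_pos.mpr ⟨x, self_mem_ball H L x 0⟩
      | succ j ih =>
        intro hj
        have hc : (ball H L x j).card ≤ (Δ + 1) ^ (2 * r) :=
          (ball_card (hXL hx) hLl j).trans (Nat.pow_le_pow_right (by omega) (by omega))
        have h1 := hob (ball H L x j) (ball_sub (hXL hx) j) (ball_conn H L x j)
          ⟨x, self_mem_ball H L x j⟩ hc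
        have h2 : ∑ z ∈ ball H L x j, β z = 0 :=
          Finset.sum_eq_zero fun z hz => hβ0 z (ball_mono (by omega) hz)
        have h3 := ball_growth hLight (hXL hx) hLl j (by omega)
        have h4 := ih (by omega)
        rw [pow_succ]
        omega
    exact hind r le_rfl
  set Xg := X.filter (fun x => ∑ z ∈ ball H L x r, β z = 0) with hXg
  set Xb := X.filter (fun x => ¬ ∑ z ∈ ball H L x r, β z = 0) with hXb
  have hXcard : Xg.card + Xb.card = X.card := Finset.card_filter_add_card_filter_not _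
  have hdisjb : ∀ Y ⊆ X, (↑Y : Set V).PairwiseDisjoint (fun x => ball H L x r) := by
    intro Y hY x hx y hy hxy
    exact hXd x (hY hx) y (hY hy) hxy
  have hsubL : ∀ Y ⊆ X, Y.biUnion (fun x => ball H L x r) ⊆ L := by
    intro Y hY v hv
    rw [mem_biUnion] at hv
    obtain ⟨x, hx, hv⟩ := hv
    exact ball_sub (hXL (hY hx)) r hv
  have hXbcard : Xb.card ≤ ∑ z ∈ L, β z := by
    have h1 : Xb.card ≤ ∑ x ∈ Xb, ∑ z ∈ ball H L x r, β z := by
      rw [Finset.card_eq_sum_ones]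
      refine Finset.sum_le_sum fun x hx => ?_
      rw [hXb, mem_filter] at hx
      omega
    rw [← Finset.sum_biUnion (hdisjb Xb (filter_subset _ _))] at h1
    exact h1.trans (Finset.sum_le_sum_of_subset (hsubL Xb (filter_subset _ _)))
  have hXgcard : 2 ^ r * Xg.card ≤ L.card := by
    have h1 : ∑ x ∈ Xg, (ball H L x r).card ≤ L.card := by
      rw [← Finset.card_biUnion (hdisjb Xg (filter_subset _ _))]
      exact card_le_card (hsubL Xg (filter_subset _ _))
    refine le_trans ?_ h1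
    rw [mul_comm, ← smul_eq_mul, ← Finset.sum_const]
    refine Finset.sum_le_sum fun x hx => ?_
    rw [hXg, mem_filter] at hx
    exact hbig x hx.1 hx.2
  have h5 : 4 * W * Xg.card ≤ L.card := (Nat.mul_le_mul_right _ hr).trans hXgcard
  have h6 : W * X.card = W * Xg.card + W * Xb.card := by rw [← hXcard, mul_add]
  have h7 : W * Xb.card ≤ W * ∑ z ∈ L, β z := Nat.mul_le_mul_left _ hXbcard
  have h8 : 4 * W * Xg.card = 4 * (W * Xg.card) := by ring
  have h9 : 4 * (W + 1) * ∑ z ∈ L, β z = 4 * (W * ∑ z ∈ L, β z) + 4 * ∑ z ∈ L, β z := by ring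
  rw [h9]
  omega

end Pool.Agent.H354_OP
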