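import Pool.Agent.H354_OP.Star2
import Pool.Agent.H354_OP.Dense
import Pool.Agent.H354_OP.Volume

/-!
# Levels of threads: definitions and the lemma on moving a small cluster
-/

set_option autoImplicit false

namespace Pool.Agent.H354_OP

open Finset
open scoped Classical

set_option linter.unusedSectionVars false

variable {V : Type} [Fintype V]

/-- the short threads, without one of them -/
def TN (H : SimpleGraph V) (len : Sym2 V → ℕ) (e₀ : Sym2 V) (N : ℕ) : SimpleGraph V where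
  Adj x y := H.Adj x y ∧ s(x, y) ≠ e₀ ∧ len s(x, y) ≤ N
  symm := ⟨fun x y h => ⟨h.1.symm, by rw [Sym2.eq_swap]; exact h.2.1, by
    rw [Sym2.eq_swap]; exact h.2.2⟩⟩
  loopless := ⟨fun _ h => h.1.ne rfl⟩

theorem TN_le {H : SimpleGraph V} {len : Sym2 V → ℕ} {e₀ : Sym2 V} {N : ℕ} : TN H len e₀ N ≤ H :=
  fun _ _ h => h.1

/-- no edge can be drawn anew along another way between its ends -/
def NoDir (H : SimpleGraph V) (len : Sym2 V → ℕ) (q K : ℕ) : Prop :=
  ∀ u v, H.Adj u v → ∀ w : H.Walk u v, s(u, v) ∉ w.edges → w.length ≤ q →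
    (∀ f ∈ w.edges, len f ≤ K * len s(u, v)) →
    (∀ x ∈ w.support, x ≠ u → x ≠ v → (nb H x).card ≤ K * len s(u, v)) → False

/-- no small set of vertices can be drawn anew at other places -/
def NoMov (H : SimpleGraph V) (len : Sym2 V → ℕ) (s q K : ℕ) : Prop :=
  ∀ (X : Finset V) (e : Sym2 V) (π : V → V), ∑ x ∈ X, (nb H x).card ≤ s → e ∈ H.edgeSet →
    (∃ x ∈ X, x ∈ e) → (∀ y, y ∉ X → π y = y) →
    (∀ v ∈ X, ∀ w, H.Adj v w → ∃ W : (H.deleteEdges {e}).Walk (π v) (π w), W.length ≤ q ∧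
      (∀ f ∈ W.edges, len f ≤ K * len s(v, w)) ∧
      ∀ y ∈ W.support, (w ∉ X ∧ y = w) ∨ (nb H y).card ≤ K * len s(v, w)) → False

theorem NoDir.mono {H : SimpleGraph V} {len : Sym2 V → ℕ} {q q' K : ℕ} (h : NoDir H len q' K)
    (hq : q ≤ q') : NoDir H len q K :=
  fun u v huv w h1 h2 h3 h4 => h u v huv w h1 (h2.trans hq) h3 h4

theorem NoMov.mono {H : SimpleGraph V} {len : Sym2 V → ℕ} {s s' q q' K : ℕ}
    (h : NoMov H len s' q' K) (hs : s ≤ s') (hq : q ≤ q') : NoMov H len s q K := by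
  intro X e π h1 h2 h3 h4 h5
  refine h X e π (h1.trans hs) h2 h3 h4 fun v hv w hw => ?_
  obtain ⟨W, h6, h7⟩ := h5 v hv w hw
  exact ⟨W, h6.trans hq, h7⟩

theorem conn_walk {H T : SimpleGraph V} (hTH : T ≤ H) {Z : Finset V} (hZ : Conn T Z) {x y : V}
    (hx : x ∈ Z) (hy : y ∈ Z) : ∃ w : H.Walk x y, w.length ≤ Z.card ∧ (∀ u ∈ w.support, u ∈ Z) ∧
      ∀ f ∈ w.edges, f ∈ T.edgeSet ∧ ∀ u ∈ f, u ∈ Z := by
  obtain ⟨w, hw, hs, hl⟩ := hZ.path hx hy
  refine ⟨w.mapLe hTH, ?_, ?_, ?_⟩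
  · rw [SimpleGraph.Walk.length_mapLe]
    omega
  · intro u hu
    rw [SimpleGraph.Walk.support_mapLe_eq_support] at hu
    exact hs u hu
  · intro f hf
    rw [SimpleGraph.Walk.edges_mapLe_eq_edges] at hf
    refine ⟨w.edges_subset_edgeSet hf, fun u hu => ?_⟩
    exact hs u (w.mem_support_of_mem_edges hf hu)

theorem mov_lemma {H : SimpleGraph V} {len : Sym2 V → ℕ} {e₀ : Sym2 V} {N N' F G s q₁ : ℕ}
    (hNM : NoMov H len s (2 * s + q₁ + 1) (F * G)) (hl : ∀ f ∈ H.edgeSet, 1 ≤ len f)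
    (hstep : ∀ ℓ, N < ℓ → N' ≤ F * ℓ) (hF : 1 ≤ F) (hG : 1 ≤ G) (hsK : s ≤ F)
    (X X' : Finset V) (hX : ∑ x ∈ X, (nb H x).card ≤ s) (hX' : ∑ x ∈ X', (nb H x).card ≤ s)
    (hXc : X.card ≤ s) (hXc' : X'.card ≤ s) (hdis : ∀ x ∈ X', x ∉ X)
    (hcX : Conn (TN H len e₀ N) X) (hcX' : Conn (TN H len e₀ N) X')
    (Y : V → Prop) (hY : ∀ v ∈ X, ∀ w, (TN H len e₀ N).Adj v w → w ∈ X ∨ Y w)
    (hYX : ∀ w, Y w → w ∉ X) (he₀ : ∀ v ∈ X, v ∉ e₀)
    (π₀ : V → V) (h1 : ∀ v ∈ X, π₀ v ∈ X')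
    (h2 : ∀ v ∈ X, ∀ w ∈ X, (TN H len e₀ N).Adj v w → (TN H len e₀ N).Adj (π₀ v) (π₀ w) ∧
      len s(π₀ v, π₀ w) ≤ F * len s(v, w))
    (h3 : ∀ v ∈ X, ∀ w, Y w → (TN H len e₀ N).Adj v w → (TN H len e₀ N).Adj (π₀ v) w ∧
      len s(π₀ v, w) ≤ F * len s(v, w))
    {v₁ y₁ : V} (hv₁ : v₁ ∈ X) (hy₁ : y₁ ∉ X) (he : (TN H len e₀ N).Adj v₁ y₁)
    {a b : V} (ha : a ∈ X') (hb : b ∈ X) (P : H.Walk a b) (hP : s(v₁, y₁) ∉ P.edges)
    (hPl : P.length ≤ q₁) (hPlen : ∀ f ∈ P.edges, len f ≤ N')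
    (hPd : ∀ x ∈ P.support, (nb H x).card ≤ G * N') (hNN : N ≤ N') : False := by
  have hdeg : ∀ x ∈ X, (nb H x).card ≤ s := fun x hx =>
    (single_le_sum (f := fun x => (nb H x).card) (fun _ _ => Nat.zero_le _) hx).trans hX
  have hdeg' : ∀ x ∈ X', (nb H x).card ≤ s := fun x hx =>
    (single_le_sum (f := fun x => (nb H x).card) (fun _ _ => Nat.zero_le _) hx).trans hX'
  have hFG : F ≤ F * G := Nat.le_mul_of_pos_right _ hG
  have hsl : ∀ f ∈ H.edgeSet, s ≤ F * G * len f := fun f hf =>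
    (hsK.trans hFG).trans (Nat.le_mul_of_pos_right _ (hl f hf))
  have hFl : ∀ ℓ, F * ℓ ≤ F * G * ℓ := fun ℓ => Nat.mul_le_mul_right _ hFG
  -- a walk avoiding the edge
  have htr : ∀ (a b w : V) (v : V) (hvw : s(v, w) ∈ H.edgeSet) (W : H.Walk a b),
      s(v₁, y₁) ∉ W.edges → W.length ≤ 2 * s + q₁ + 1 →
      (∀ f ∈ W.edges, len f ≤ F * G * len s(v, w)) →
      (∀ y ∈ W.support, (w ∉ X ∧ y = w) ∨ (nb H y).card ≤ F * G * len s(v, w)) →
      ∃ W : (H.deleteEdges {s(v₁, y₁)}).Walk a b, W.length ≤ 2 * s + q₁ + 1 ∧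
        (∀ f ∈ W.edges, len f ≤ F * G * len s(v, w)) ∧
        ∀ y ∈ W.support, (w ∉ X ∧ y = w) ∨ (nb H y).card ≤ F * G * len s(v, w) := by
    intro a b w v hvw W h4 h5 h6 h7
    have h8 : ∀ e ∈ W.edges, e ∈ (H.deleteEdges {s(v₁, y₁)}).edgeSet := by
      intro e he'
      rw [SimpleGraph.edgeSet_deleteEdges]
      refine ⟨W.edges_subset_edgeSet he', fun h => ?_⟩
      rw [Set.mem_singleton_iff] at h
      exact h4 (h ▸ he')
    refine ⟨W.transfer _ h8, ?_, ?_, ?_⟩
    · rw [SimpleGraph.Walk.length_transfer]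
      exact h5
    · rw [SimpleGraph.Walk.edges_transfer]
      exact h6
    · rw [SimpleGraph.Walk.support_transfer]
      exact h7
  -- the two sets avoid the edge
  have hXe : ∀ f : Sym2 V, (∀ u ∈ f, u ∈ X) → f ≠ s(v₁, y₁) := by
    rintro f hf rfl
    exact hy₁ (hf y₁ (by simp))
  have hXe' : ∀ f : Sym2 V, (∀ u ∈ f, u ∈ X') → f ≠ s(v₁, y₁) := by
    rintro f hf rfl
    exact hdis v₁ (hf v₁ (by simp)) hv₁
  obtain ⟨π, hπ1, hπ2⟩ : ∃ π : V → V, (∀ y ∈ X, π y = π₀ y) ∧ ∀ y, y ∉ X → π y = y :=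
    ⟨fun y => if y ∈ X then π₀ y else y, fun y hy => if_pos hy, fun y hy => if_neg hy⟩
  refine hNM X s(v₁, y₁) π hX he.1 ⟨v₁, hv₁, by simp⟩ hπ2 ?_
  intro v hv w hvw
  have hvw' : s(v, w) ∈ H.edgeSet := hvw
  have hπv : π₀ v ∈ X' := h1 v hv
  rw [hπ1 v hv]
  by_cases hlen : len s(v, w) ≤ N
  · -- short edges
    have hT : (TN H len e₀ N).Adj v w := by
      refine ⟨hvw, ?_, hlen⟩
      intro h
      exact he₀ v hv (h ▸ by simp)
    rcases hY v hv w hT with hw | hw
    · rw [hπ1 w hw]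
      obtain ⟨h4, h5⟩ := h2 v hv w hw hT
      refine htr _ _ w v hvw' (SimpleGraph.Walk.cons h4.1 SimpleGraph.Walk.nil) ?_ ?_ ?_ ?_
      · simp only [SimpleGraph.Walk.edges_cons, SimpleGraph.Walk.edges_nil, List.mem_singleton]
        refine (hXe' _ ?_).symm
        intro u hu
        rw [Sym2.mem_iff] at hu
        rcases hu with rfl | rfl
        · exact hπv
        · exact h1 w hw
      · simp only [SimpleGraph.Walk.length_cons, SimpleGraph.Walk.length_nil]
        omega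
      · intro f hf
        simp only [SimpleGraph.Walk.edges_cons, SimpleGraph.Walk.edges_nil,
          List.mem_singleton] at hf
        rw [hf]
        exact h5.trans (hFl _)
      · intro y hy
        simp only [SimpleGraph.Walk.support_cons, SimpleGraph.Walk.support_nil, List.mem_cons,
          List.not_mem_nil, or_false] at hy
        right
        rcases hy with rfl | rfl
        · exact (hdeg' _ hπv).trans (hsl _ hvw')
        · exact (hdeg' _ (h1 w hw)).trans (hsl _ hvw')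
    · have hwX := hYX w hw
      rw [hπ2 w hwX]
      obtain ⟨h4, h5⟩ := h3 v hv w hw hT
      refine htr _ _ w v hvw' (SimpleGraph.Walk.cons h4.1 SimpleGraph.Walk.nil) ?_ ?_ ?_ ?_
      · simp only [SimpleGraph.Walk.edges_cons, SimpleGraph.Walk.edges_nil, List.mem_singleton]
        intro h
        have h6 : v₁ ∈ s(π₀ v, w) := by rw [← h]; simp
        rw [Sym2.mem_iff] at h6
        rcases h6 with h6 | h6
        · exact hdis _ hπv (h6 ▸ hv₁)
        · exact hwX (h6 ▸ hv₁)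
      · simp only [SimpleGraph.Walk.length_cons, SimpleGraph.Walk.length_nil]
        omega
      · intro f hf
        simp only [SimpleGraph.Walk.edges_cons, SimpleGraph.Walk.edges_nil,
          List.mem_singleton] at hf
        rw [hf]
        exact h5.trans (hFl _)
      · intro y hy
        simp only [SimpleGraph.Walk.support_cons, SimpleGraph.Walk.support_nil, List.mem_cons,
          List.not_mem_nil, or_false] at hy
        rcases hy with rfl | rfl
        · exact Or.inr ((hdeg' _ hπv).trans (hsl _ hvw'))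
        · exact Or.inl ⟨hwX, rfl⟩
  · -- long edges
    have hN' : N' ≤ F * len s(v, w) := hstep _ (by omega)
    have hNK : N' ≤ F * G * len s(v, w) := hN'.trans (hFl _)
    have hGN : G * N' ≤ F * G * len s(v, w) := by
      calc G * N' ≤ G * (F * len s(v, w)) := Nat.mul_le_mul_left _ hN'
        _ = F * G * len s(v, w) := by ring
    have hTl : ∀ f ∈ (TN H len e₀ N).edgeSet, len f ≤ N := by
      intro f
      induction f using Sym2.ind with
      | _ x y => exact fun h => h.2.2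
    by_cases hw : w ∈ X
    · rw [hπ1 w hw]
      obtain ⟨W, hW1, hW2, hW3⟩ := conn_walk TN_le hcX' hπv (h1 w hw)
      refine htr _ _ w v hvw' W ?_ ?_ ?_ ?_
      · intro h
        exact hXe' _ (hW3 _ h).2 rfl
      · omega
      · intro f hf
        exact (hTl f (hW3 f hf).1).trans (hNN.trans hNK)
      · intro y hy
        exact Or.inr ((hdeg' _ (hW2 y hy)).trans (hsl _ hvw'))
    · rw [hπ2 w hw]
      obtain ⟨W, hW1, hW2, hW3⟩ := conn_walk TN_le hcX' hπv ha
      obtain ⟨U, hU1, hU2, hU3⟩ := conn_walk TN_le hcX hb hv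
      refine htr _ _ w v hvw' (W.append (P.append (U.append
        (SimpleGraph.Walk.cons hvw SimpleGraph.Walk.nil)))) ?_ ?_ ?_ ?_
      · simp only [SimpleGraph.Walk.edges_append, List.mem_append, SimpleGraph.Walk.edges_cons,
          SimpleGraph.Walk.edges_nil, List.mem_singleton]
        rintro (h | h | h | h)
        · exact hXe' _ (hW3 _ h).2 rfl
        · exact hP h
        · exact hXe _ (hU3 _ h).2 rfl
        · have h6 : len s(v₁, y₁) ≤ N := he.2.2
          rw [h] at h6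
          exact hlen h6
      · simp only [SimpleGraph.Walk.length_append, SimpleGraph.Walk.length_cons,
          SimpleGraph.Walk.length_nil]
        omega
      · intro f hf
        simp only [SimpleGraph.Walk.edges_append, List.mem_append, SimpleGraph.Walk.edges_cons,
          SimpleGraph.Walk.edges_nil, List.mem_singleton] at hf
        rcases hf with h | h | h | h
        · exact (hTl f (hW3 f h).1).trans (hNN.trans hNK)
        · exact (hPlen f h).trans hNK
        · exact (hTl f (hU3 f h).1).trans (hNN.trans hNK)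
        · rw [h]
          exact Nat.le_mul_of_pos_left _ (Nat.mul_pos hF hG)
      · intro y hy
        simp only [SimpleGraph.Walk.mem_support_append_iff, SimpleGraph.Walk.support_cons,
          SimpleGraph.Walk.support_nil, List.mem_cons, List.not_mem_nil, or_false] at hy
        rcases hy with h | h | h | h | h
        · exact Or.inr ((hdeg' _ (hW2 y h)).trans (hsl _ hvw'))
        · exact Or.inr ((hPd y h).trans hGN)
        · exact Or.inr ((hdeg _ (hU2 y h)).trans (hsl _ hvw'))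
        · rw [h]
          exact Or.inr ((hdeg _ hv).trans (hsl _ hvw'))
        · exact Or.inl ⟨hw, h⟩

end Pool.Agent.H354_OP
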