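import Pool.Agent.H354_OP.Lv0

/-!
# Levels of threads: kinds of small clusters, counting tokens
-/

set_option autoImplicit false

namespace Pool.Agent.H354_OP

open Finset
open scoped Classical

set_option linter.unusedSectionVars false

variable {V : Type} [Fintype V]

/-- the kind of a pair of vertices -/
noncomputable def scl (T : SimpleGraph V) (len : Sym2 V → ℕ) (F J : ℕ) (u v : V) : Fin (J + 1) :=
  if T.Adj u v then ⟨min J (Nat.log F (len s(u, v)) + 1), by omega⟩ else 0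

theorem scl_eq {T : SimpleGraph V} {len : Sym2 V → ℕ} {F J : ℕ} {u v u' v' : V}
    (h : scl T len F J u v = scl T len F J u' v') (hF : 1 < F)
    (hl : ∀ u v, T.Adj u v → 1 ≤ len s(u, v) ∧ len s(u, v) < F ^ J) (huv : T.Adj u v) :
    T.Adj u' v' ∧ len s(u', v') ≤ F * len s(u, v) := by
  have h1 := hl u v huv
  have h2 : Nat.log F (len s(u, v)) < J := Nat.log_lt_of_lt_pow (by omega) h1.2
  by_cases h' : T.Adj u' v'
  · refine ⟨h', ?_⟩
    have h1' := hl u' v' h'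
    have h2' : Nat.log F (len s(u', v')) < J := Nat.log_lt_of_lt_pow (by omega) h1'.2
    simp only [scl, if_pos huv, if_pos h', Fin.mk.injEq] at h
    have h3 : Nat.log F (len s(u, v)) = Nat.log F (len s(u', v')) := by omega
    have h4 := Nat.lt_pow_succ_log_self hF (len s(u', v'))
    have h5 := Nat.pow_log_le_self F (x := len s(u, v)) (by omega)
    rw [← h3, pow_succ, mul_comm] at h4
    exact h4.le.trans (Nat.mul_le_mul_left _ h5)
  · exfalso
    simp only [scl, if_pos huv, if_neg h'] at h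
    have h3 := congrArg Fin.val h
    simp only [Fin.val_zero] at h3
    omega

/-- the number of kinds of clusters -/
def NC (s J : ℕ) : ℕ := Fintype.card ((Fin s → Fin s → Fin (J + 1)) × (Fin s → Bool → Fin (J + 1)))

theorem two_same {T : SimpleGraph V} {len : Sym2 V → ℕ} {F J s : ℕ} (hF : 1 < F)
    (hl : ∀ u v, T.Adj u v → 1 ≤ len s(u, v) ∧ len s(u, v) < F ^ J) (h : Bool → V)
    (𝒳 : Finset (Finset V)) (hX : ∀ X ∈ 𝒳, X.Nonempty ∧ X.card ≤ s) (hc : NC s J < 𝒳.card) :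
    ∃ X ∈ 𝒳, ∃ X' ∈ 𝒳, X ≠ X' ∧ ∃ π₀ : V → V, (∀ v ∈ X, π₀ v ∈ X') ∧
      (∀ v ∈ X, ∀ w ∈ X, T.Adj v w → T.Adj (π₀ v) (π₀ w) ∧
        len s(π₀ v, π₀ w) ≤ F * len s(v, w)) ∧
      (∀ v ∈ X, ∀ w, (w = h true ∨ w = h false) → T.Adj v w → T.Adj (π₀ v) w ∧
        len s(π₀ v, w) ≤ F * len s(v, w)) := by
  have hen : ∀ X : Finset V, ∃ en : Fin s → V, X ∈ 𝒳 → (∀ i, en i ∈ X) ∧ ∀ v ∈ X, ∃ i, en i = v := by
    intro X
    by_cases hX' : X ∈ 𝒳
    · obtain ⟨⟨x₀, hx₀⟩, hc'⟩ := hX X hX'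
      refine ⟨fun i => if hi : i.1 < X.card then (X.equivFin.symm ⟨i.1, hi⟩).1 else x₀,
        fun _ => ⟨?_, ?_⟩⟩
      · intro i
        by_cases hi : i.1 < X.card
        · simp only [dif_pos hi]
          exact (X.equivFin.symm ⟨i.1, hi⟩).2
        · simp only [dif_neg hi]
          exact hx₀
      · intro v hv
        have h1 := (X.equivFin ⟨v, hv⟩).2
        refine ⟨⟨(X.equivFin ⟨v, hv⟩).1, by omega⟩, ?_⟩
        simp only [dif_pos h1, Fin.eta, Equiv.symm_apply_apply]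
    · rcases Nat.eq_zero_or_pos s with rfl | hs
      · exact ⟨fun i => i.elim0, fun h => absurd h hX'⟩
      · obtain ⟨Y, hY⟩ : 𝒳.Nonempty := card_pos.mp (by omega)
        obtain ⟨⟨x₀, -⟩, -⟩ := hX Y hY
        exact ⟨fun _ => x₀, fun h => absurd h hX'⟩
  choose en hen using hen
  obtain ⟨X, hX1, X', hX2, hne, hcode⟩ := Finset.exists_ne_map_eq_of_card_lt_of_maps_to
    (s := 𝒳) (t := (univ : Finset ((Fin s → Fin s → Fin (J + 1)) × (Fin s → Bool → Fin (J + 1)))))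
    (f := fun X => (fun i j => scl T len F J (en X i) (en X j),
      fun i b => scl T len F J (en X i) (h b))) (by rw [Finset.card_univ]; exact hc)
      (fun a _ => mem_univ _)
  simp only [Prod.mk.injEq] at hcode
  obtain ⟨hc1, hc2⟩ := hcode
  have hc1' : ∀ i j, scl T len F J (en X i) (en X j) = scl T len F J (en X' i) (en X' j) :=
    fun i j => congrFun (congrFun hc1 i) j
  have hc2' : ∀ i b, scl T len F J (en X i) (h b) = scl T len F J (en X' i) (h b) :=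
    fun i j => congrFun (congrFun hc2 i) j
  obtain ⟨e1, e2⟩ := hen X hX1
  obtain ⟨e1', -⟩ := hen X' hX2
  have hidx : ∀ v, ∃ w, v ∈ X → ∃ i, en X i = v ∧ en X' i = w := by
    intro v
    by_cases hv : v ∈ X
    · obtain ⟨i, hi⟩ := e2 v hv
      exact ⟨en X' i, fun _ => ⟨i, hi, rfl⟩⟩
    · exact ⟨v, fun h => absurd h hv⟩
  choose π₀ hπ using hidx
  refine ⟨X, hX1, X', hX2, hne, π₀, ?_, ?_, ?_⟩
  · intro v hv
    obtain ⟨i, -, h2⟩ := hπ v hv
    rw [← h2]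
    exact e1' i
  · intro v hv w hw hvw
    obtain ⟨i, h1, h2⟩ := hπ v hv
    obtain ⟨j, h3, h4⟩ := hπ w hw
    have h5 := hc1' i j
    rw [h1, h2, h3, h4] at h5
    exact scl_eq h5 hF hl hvw
  · intro v hv w hw hvw
    obtain ⟨i, h1, h2⟩ := hπ v hv
    obtain ⟨b, rfl⟩ : ∃ b, w = h b := by
      rcases hw with h | h
      · exact ⟨true, h⟩
      · exact ⟨false, h⟩
    have h5 := hc2' i b
    rw [h1, h2] at h5
    exact scl_eq h5 hF hl hvw

theorem fiberG {β : Type} {H Γ : SimpleGraph V} {s : ℕ} (Θ : Finset (V × V)) (B : Finset β)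
    (g : V × V → β) (hg : ∀ p ∈ Θ, g p ∈ B)
    (h : ∀ p ∈ Θ, H.Adj p.1 p.2 ∧ ∑ x ∈ cmp Γ p.1, (nb H x).card ≤ s)
    (hgg : ∀ p ∈ Θ, ∀ p' ∈ Θ, g p = g p' → cmp Γ p.1 = cmp Γ p'.1) : Θ.card ≤ s * B.card := by
  refine Finset.card_le_mul_card_image_of_maps_to hg s ?_
  intro b _
  rcases (Θ.filter (fun p => g p = b)).eq_empty_or_nonempty with h0 | ⟨p₀, hp₀⟩
  · rw [h0]
    simp
  · rw [mem_filter] at hp₀
    refine le_trans ?_ (h p₀ hp₀.1).2
    rw [← card_sigma]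
    refine card_le_card_of_injOn (fun p => (⟨p.1, p.2⟩ : (_ : V) × V)) ?_ ?_
    · intro p hp
      rw [mem_coe, mem_filter] at hp
      simp only [mem_coe, mem_sigma]
      refine ⟨?_, mem_nb.mpr (h p hp.1).1⟩
      rw [← hgg p hp.1 p₀ hp₀.1 (hp.2.trans hp₀.2.symm)]
      exact self_mem_cmp _ _
    · intro p _ p' _ he
      simp only [Sigma.mk.injEq, heq_eq_eq] at he
      exact Prod.ext he.1 he.2

/-- the tokens of small components that meet `Q` -/
theorem fiberQ {H Γ : SimpleGraph V} {s : ℕ} (Θ : Finset (V × V)) (Q : Finset V)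
    (h : ∀ p ∈ Θ, H.Adj p.1 p.2 ∧ ∑ x ∈ cmp Γ p.1, (nb H x).card ≤ s)
    (hQ : ∀ p ∈ Θ, ∃ y ∈ cmp Γ p.1, y ∈ Q) : Θ.card ≤ s * Q.card := by
  have hch : ∀ p : V × V, ∃ y, p ∈ Θ → y ∈ cmp Γ p.1 ∧ y ∈ Q := by
    intro p
    by_cases hp : p ∈ Θ
    · obtain ⟨y, h1, h2⟩ := hQ p hp
      exact ⟨y, fun _ => ⟨h1, h2⟩⟩
    · exact ⟨p.1, fun h => absurd h hp⟩
  choose g hg using hch
  refine fiberG Θ Q g (fun p hp => (hg p hp).2) h ?_
  intro p hp p' hp' he
  have h1 := (hg p hp).1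
  have h2 := (hg p' hp').1
  rw [he] at h1
  rw [← cmp_eq h1, cmp_eq h2]

/-- the low vertices -/
noncomputable def Lo (H : SimpleGraph V) (S : ℕ) : Finset V := univ.filter (fun x => (nb H x).card ≤ S)

/-- the vertices in between -/
noncomputable def Zo (H : SimpleGraph V) (S γ : ℕ) : Finset V :=
  univ.filter (fun x => S < (nb H x).card ∧ (nb H x).card ≤ γ * S)

/-- the hubs -/
noncomputable def Hb (H : SimpleGraph V) (S γ : ℕ) : Finset V :=
  univ.filter (fun x => γ * S < (nb H x).card)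

theorem mem_Lo {H : SimpleGraph V} {S : ℕ} {x : V} : x ∈ Lo H S ↔ (nb H x).card ≤ S := by
  simp [Lo]

theorem mem_Zo {H : SimpleGraph V} {S γ : ℕ} {x : V} :
    x ∈ Zo H S γ ↔ S < (nb H x).card ∧ (nb H x).card ≤ γ * S := by
  simp [Zo]

theorem mem_Hb {H : SimpleGraph V} {S γ : ℕ} {x : V} :
    x ∈ Hb H S γ ↔ γ * S < (nb H x).card := by
  simp [Hb]

theorem hub_few {H : SimpleGraph V} {S γ t : ℕ} (ht : ∑ x, (nb H x).card = t) :
    γ * (S * (Hb H S γ).card) ≤ t := by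
  rw [← ht, ← mul_assoc, mul_comm, ← smul_eq_mul, ← sum_const]
  refine (sum_le_sum fun x hx => (mem_Hb.mp hx).le).trans ?_
  exact sum_le_sum_of_subset (subset_univ _)

theorem lo_hb {H : SimpleGraph V} {S γ : ℕ} (hγ : 1 ≤ γ) : Disjoint (Lo H S) (Hb H S γ) := by
  rw [Finset.disjoint_left]
  intro x hx hx'
  rw [mem_Lo] at hx
  rw [mem_Hb] at hx'
  have := Nat.le_mul_of_pos_left S hγ
  omega

theorem samp_darts {M : ℕ} {T : SimpleGraph V} {pos : V → ℂ} {C : Sym2 V → Set ℂ}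
    (hT : TopD M T pos C) (Hi : Finset V) :
    (univ.filter (fun p : V × V => p.1 ∈ Hi ∧ p.2 ∈ Hi ∧ T.Adj p.1 p.2)).card ≤
      56 * (2 * M + 1) * Hi.card := by
  have h := samp' hT Hi (fun v => {v})
    (fun x _ y _ hxy => Finset.disjoint_singleton.mpr hxy)
    (fun x _ => mem_singleton_self x) 0 (by
      intro x _ v hv
      rw [mem_singleton] at hv
      subst hv
      exact ⟨SimpleGraph.Walk.nil, by simp, by simp⟩)
  rw [← card_sigma] at h
  refine (card_le_card_of_injOn (fun p => (⟨p.1, p.2⟩ : (_ : V) × V)) ?_ ?_).trans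
    (h.trans (le_of_eq (by ring)))
  · intro p hp
    rw [mem_coe, mem_filter] at hp
    simp only [mem_coe, mem_sigma, mem_filter, mem_singleton]
    exact ⟨hp.2.1, hp.2.2.1, hp.2.2.2.ne, p.1, rfl, p.2, rfl, hp.2.2.2⟩
  · intro p _ p' _ he
    simp only [Sigma.mk.injEq, heq_eq_eq] at he
    exact Prod.ext he.1 he.2

/-- few pairs of hubs are joined through small components -/
theorem samp_pairs {M : ℕ} {T : SimpleGraph V} {pos : V → ℂ} {C : Sym2 V → Set ℂ}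
    (hT : TopD M T pos C) (Hi : Finset V) (𝒳 : Finset (Finset V)) {s : ℕ}
    (hdisj : ∀ X ∈ 𝒳, ∀ X' ∈ 𝒳, X ≠ X' → Disjoint X X') (hHi : ∀ X ∈ 𝒳, Disjoint X Hi)
    (hconn : ∀ X ∈ 𝒳, Conn T X) (hs : ∀ X ∈ 𝒳, X.card ≤ s)
    (hubs : Finset V → Finset V)
    (hh : ∀ X ∈ 𝒳, hubs X ⊆ Hi ∧ (hubs X).card = 2 ∧ ∀ y ∈ hubs X, ∃ x ∈ X, T.Adj x y) :
    (𝒳.image hubs).card ≤ 56 * (2 * M * (2 * (s + 1) + 1) + 1) * Hi.card := by
  rcases (𝒳.image hubs).eq_empty_or_nonempty with h0 | ⟨Q, hQ⟩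
  · rw [h0]
    simp
  have hch : ∀ P ∈ 𝒳.image hubs, ∃ (X : Finset V) (a b : V),
      X ∈ 𝒳 ∧ hubs X = P ∧ a ≠ b ∧ P = {a, b} := by
    intro P hP
    rw [mem_image] at hP
    obtain ⟨X, hX, rfl⟩ := hP
    obtain ⟨a, b, hab, h⟩ := card_eq_two.mp (hh X hX).2.1
    exact ⟨X, a, b, hX, rfl, hab, h⟩
  have hne : Nonempty V := by
    obtain ⟨-, a, -⟩ := hch Q hQ
    exact ⟨a⟩
  choose! X a b h1 h2 h3 h4 using hch
  have hmem : ∀ P ∈ 𝒳.image hubs, ∀ y, y ∈ P ↔ y = a P ∨ y = b P := by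
    intro P hP y
    have h := Finset.ext_iff.mp (h4 P hP) y
    rw [h, mem_insert, mem_singleton]
  have haHi : ∀ P ∈ 𝒳.image hubs, a P ∈ Hi := by
    intro P hP
    refine (hh (X P) (h1 P hP)).1 ?_
    rw [h2 P hP, hmem P hP]
    exact Or.inl rfl
  have hbHi : ∀ P ∈ 𝒳.image hubs, b P ∈ Hi := by
    intro P hP
    refine (hh (X P) (h1 P hP)).1 ?_
    rw [h2 P hP, hmem P hP]
    exact Or.inr rfl
  have hadj : ∀ P ∈ 𝒳.image hubs, ∀ y ∈ P, ∃ x ∈ X P, T.Adj x y := by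
    intro P hP y hy
    refine (hh (X P) (h1 P hP)).2.2 y ?_
    rw [h2 P hP]
    exact hy
  have hXX : ∀ P ∈ 𝒳.image hubs, ∀ P' ∈ 𝒳.image hubs, ∀ v, v ∈ X P → v ∈ X P' → P = P' := by
    intro P hP P' hP' v hv hv'
    by_contra hne
    have h5 : X P ≠ X P' := by
      intro h
      exact hne (by rw [← h2 P hP, ← h2 P' hP', h])
    exact Finset.disjoint_left.mp (hdisj _ (h1 P hP) _ (h1 P' hP') h5) hv hv'
  have hXHi : ∀ P ∈ 𝒳.image hubs, ∀ v ∈ X P, v ∉ Hi := fun P hP v hv =>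
    Finset.disjoint_left.mp (hHi _ (h1 P hP)) hv
  have key := samp hT (ι := {x // x ∈ Hi}) (fun i => i.1)
    (fun i => {v | v = i.1 ∨ ∃ P ∈ 𝒳.image hubs, a P = i.1 ∧ v ∈ X P}) (by
      intro i j hij
      rw [Set.disjoint_left]
      rintro v (hv | ⟨P, hP, hPi, hv⟩) (hv' | ⟨P', hP', hPj, hv'⟩)
      · exact hij (Subtype.ext (hv.symm.trans hv'))
      · exact hXHi P' hP' v hv' (hv ▸ i.2)
      · exact hXHi P hP v hv (hv' ▸ j.2)
      · have := hXX P hP P' hP' v hv hv'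
        subst this
        exact hij (Subtype.ext (hPi.symm.trans hPj))) (fun i => Or.inl rfl) (s + 1) (by
      rintro i v (hv | ⟨P, hP, hPi, hv⟩)
      · rw [hv]
        refine ⟨SimpleGraph.Walk.nil, by simp, ?_⟩
        intro u hu
        rw [SimpleGraph.Walk.support_nil, List.mem_singleton] at hu
        exact Or.inl hu
      · obtain ⟨x, hx, hxa⟩ := hadj P hP (a P) ((hmem P hP _).mpr (Or.inl rfl))
        rw [hPi] at hxa
        obtain ⟨w, hw, hws, hwl⟩ := (hconn _ (h1 P hP)).path hx hv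
        refine ⟨SimpleGraph.Walk.cons hxa.symm w, ?_, ?_⟩
        · rw [SimpleGraph.Walk.length_cons]
          have := hs _ (h1 P hP)
          omega
        · intro u hu
          rw [SimpleGraph.Walk.support_cons, List.mem_cons] at hu
          rcases hu with hu | hu
          · exact Or.inl hu
          · exact Or.inr ⟨P, hP, hPi, hws u hu⟩)
    ((𝒳.image hubs).attach.image (fun P => (⟨a P.1, haHi P.1 P.2⟩, ⟨b P.1, hbHi P.1 P.2⟩))) (by
      intro e he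
      rw [mem_image] at he
      obtain ⟨⟨P, hP⟩, -, rfl⟩ := he
      refine ⟨fun h => h3 P hP (congrArg Subtype.val h), ?_⟩
      obtain ⟨x, hx, hxb⟩ := hadj P hP (b P) ((hmem P hP _).mpr (Or.inr rfl))
      exact ⟨x, Or.inr ⟨P, hP, rfl, hx⟩, b P, Or.inl rfl, hxb⟩)
  have hinj : Set.InjOn (fun P : {P // P ∈ 𝒳.image hubs} => ((⟨a P.1, haHi P.1 P.2⟩,
      ⟨b P.1, hbHi P.1 P.2⟩) : {x // x ∈ Hi} × {x // x ∈ Hi}))
      ((𝒳.image hubs).attach : Set {P // P ∈ 𝒳.image hubs}) := by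
    rintro ⟨P, hP⟩ - ⟨P', hP'⟩ - he
    simp only [Prod.mk.injEq, Subtype.mk.injEq] at he
    apply Subtype.ext
    ext y
    simp only
    rw [hmem P hP, hmem P' hP', he.1, he.2]
  rw [Fintype.card_coe, card_image_of_injOn hinj, card_attach] at key
  exact key

end Pool.Agent.H354_OP
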