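import Pool.Agent.H354_OP.Lv1

/-!
# Levels of threads: few small clusters have two tokens, one of them at a middle hub
-/

set_option autoImplicit false

namespace Pool.Agent.H354_OP

open Finset
open scoped Classical

set_option linter.unusedSectionVars false

variable {V : Type} [Fintype V]

theorem Conn.mono {Γ T : SimpleGraph V} (h : Γ ≤ T) {Z : Finset V} (hZ : Conn Γ Z) : Conn T Z := by
  intro x hx y hy
  obtain ⟨w, hw⟩ := hZ x hx y hy
  exact ⟨w.mapLe h, by rw [SimpleGraph.Walk.support_mapLe_eq_support]; exact hw⟩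

theorem cmp_sub {T : SimpleGraph V} {L : Finset V} {x : V} (hx : x ∈ L) :
    cmp (res T L) x ⊆ L := by
  intro y hy
  rw [mem_cmp] at hy
  obtain ⟨w⟩ := hy
  exact walk_res w hx y w.end_mem_support

theorem card_le_mass {H : SimpleGraph V} (hdeg1 : ∀ x, 1 ≤ (nb H x).card) (X : Finset V) :
    X.card ≤ ∑ x ∈ X, (nb H x).card := by
  rw [card_eq_sum_ones]
  exact sum_le_sum fun x _ => hdeg1 x

/-- disjoint sets that meet `Q` -/
theorem meet_card (𝒳 : Finset (Finset V))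
    (hdisj : ∀ X ∈ 𝒳, ∀ X' ∈ 𝒳, ∀ x ∈ X, x ∈ X' → X = X') (Q : Finset V)
    (hQ : ∀ X ∈ 𝒳, ∃ y ∈ X, y ∈ Q) : 𝒳.card ≤ Q.card := by
  rcases isEmpty_or_nonempty V with hV | hV
  · have : 𝒳 = ∅ := by
      rw [eq_empty_iff_forall_notMem]
      intro X hX
      obtain ⟨y, -⟩ := hQ X hX
      exact hV.false y
    rw [this]
    simp
  · choose! f h1 h2 using hQ
    refine card_le_card_of_injOn f (fun X hX => h2 X hX) ?_
    intro X hX X' hX' he
    refine hdisj X hX X' hX' (f X) (h1 X hX) ?_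
    rw [he]
    exact h1 X' hX'

/-- the constant -/
def CC (s J : ℕ) : ℕ := 406 * (2 * s * s + 1) + NC s J * (56 * (2 * (2 * s + 3) + 1) + 1)

theorem claim_few {H : SimpleGraph V} {len : Sym2 V → ℕ} {e₀ : Sym2 V}
    {N N' F G γ J s M : ℕ} {pos : V → ℂ} {C : Sym2 V → Set ℂ}
    {T : SimpleGraph V} (hTdef : T = TN H len e₀ N) {L : Finset V} (hL : L = Lo H (G * N))
    {Hi : Finset V} (hHi : Hi = Hb H (G * N) γ)
    (hT : TopD M T pos C) (hMS : M ≤ G * N) (hS1 : 1 ≤ G * N)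
    (hdeg1 : ∀ x, 1 ≤ (nb H x).card)
    (hl : ∀ f ∈ H.edgeSet, 1 ≤ len f) (hlJ : N < F ^ J) (hF : 1 < F) (hG : 1 ≤ G) (hγ : 1 ≤ γ)
    (hsF : s ≤ F) (hstep : ∀ ℓ, N < ℓ → N' ≤ F * ℓ) (hNN : N ≤ N')
    (hNM : NoMov H len s (2 * s + 2 + 1) (F * G)) (Θ : Finset (V × V))
    (hΘ : ∀ p ∈ Θ, p.1 ∈ L ∧ T.Adj p.1 p.2 ∧ ∑ x ∈ cmp (res T L) p.1, (nb H x).card ≤ s)
    (hΘ2 : ∀ p ∈ Θ, ∃ v y v₂ y₂, v ∈ cmp (res T L) p.1 ∧ v₂ ∈ cmp (res T L) p.1 ∧ T.Adj v y ∧
      T.Adj v₂ y₂ ∧ y ∈ Hi ∧ y₂ ∈ Hi ∧ (nb H y).card ≤ G * N' ∧ (v, y) ≠ (v₂, y₂)) :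
    Θ.card ≤ s * (2 + ∑ z ∈ Zo H (G * N) γ, (nb H z).card + CC s J * (G * N * Hi.card)) := by
  set Γ := res T L with hΓ
  obtain ⟨𝒳, h𝒳⟩ : ∃ 𝒳, 𝒳 = Θ.image (fun p => cmp Γ p.1) := ⟨_, rfl⟩
  have h0 : Θ.card ≤ s * 𝒳.card := by
    refine fiberG (H := H) (Γ := Γ) Θ 𝒳 (fun p => cmp Γ p.1) (fun p hp => ?_) (fun p hp => ?_)
      (fun p _ p' _ h => h)
    · rw [h𝒳]
      exact mem_image_of_mem _ hp
    · obtain ⟨-, h1, h2⟩ := hΘ p hp
      rw [hTdef] at h1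
      exact ⟨h1.1, h2⟩
  refine h0.trans (Nat.mul_le_mul_left _ ?_)
  -- facts on the components
  have hX : ∀ X ∈ 𝒳, X ∈ univ.image (cmp Γ) ∧ X.Nonempty ∧ X ⊆ L ∧ Conn T X ∧
      ∑ x ∈ X, (nb H x).card ≤ s ∧ X.card ≤ s ∧ ∀ x ∈ X, ∀ y, T.Adj x y → y ∈ L → y ∈ X := by
    intro X hX
    rw [h𝒳, mem_image] at hX
    obtain ⟨p, hp, rfl⟩ := hX
    obtain ⟨h1, h2, h3⟩ := hΘ p hp
    refine ⟨mem_image_of_mem _ (mem_univ _), ⟨_, self_mem_cmp _ _⟩, cmp_sub h1,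
      (cmp_conn Γ p.1).mono (res_le T L), h3, (card_le_mass hdeg1 _).trans h3, ?_⟩
    intro x hx y hxy hy
    exact cmp_adj hx ⟨hxy, cmp_sub h1 hx, hy⟩
  have hdisj : ∀ X ∈ 𝒳, ∀ X' ∈ 𝒳, ∀ x ∈ X, x ∈ X' → X = X' := fun X h1 X' h2 x hx hx' =>
    cmp_disj (hX X h1).1 (hX X' h2).1 hx hx'
  have hLHi : Disjoint L Hi := by
    rw [hL, hHi]
    exact lo_hb hγ
  have hLdeg : ∀ x ∈ L, (nb H x).card ≤ G * N := fun x hx => by
    rw [hL] at hx
    exact mem_Lo.mp hx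
  have hTH : T ≤ H := by
    rw [hTdef]
    exact TN_le
  -- the ones near a bad vertex
  obtain ⟨Q, hQ⟩ : ∃ Q : Finset V, Q = univ.filter (fun y => y ∈ e₀ ∨ ∃ z ∈ Zo H (G * N) γ,
    T.Adj z y) := ⟨_, rfl⟩
  have hQc : Q.card ≤ 2 + ∑ z ∈ Zo H (G * N) γ, (nb H z).card := by
    have hsub : Q ⊆ univ.filter (fun y => y ∈ e₀) ∪ (Zo H (G * N) γ).biUnion (nb H) := by
      intro y hy
      rw [hQ, mem_filter] at hy
      rw [mem_union, mem_filter, mem_biUnion]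
      rcases hy.2 with h | ⟨z, hz, hzy⟩
      · exact Or.inl ⟨mem_univ _, h⟩
      · exact Or.inr ⟨z, hz, mem_nb.mpr (hTH hzy)⟩
    refine (card_le_card hsub).trans ((card_union_le _ _).trans (add_le_add ?_ card_biUnion_le))
    induction e₀ using Sym2.ind with
    | _ a b =>
      refine (card_le_card ?_).trans (card_le_two (a := a) (b := b))
      intro y hy
      rw [mem_filter, Sym2.mem_iff] at hy
      simpa using hy.2
  obtain ⟨𝒳₀, h𝒳₀⟩ : ∃ 𝒳₀, 𝒳₀ = 𝒳.filter (fun X => ∃ y ∈ X, y ∈ Q) := ⟨_, rfl⟩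
  obtain ⟨𝒳₁, h𝒳₁⟩ : ∃ 𝒳₁, 𝒳₁ = 𝒳.filter (fun X => ¬ ∃ y ∈ X, y ∈ Q) := ⟨_, rfl⟩
  have hc0 : 𝒳₀.card + 𝒳₁.card = 𝒳.card := by
    rw [h𝒳₀, h𝒳₁]
    exact card_filter_add_card_filter_not _
  have hc1 : 𝒳₀.card ≤ Q.card := by
    refine meet_card 𝒳₀ ?_ Q ?_
    · intro X h1 X' h2
      rw [h𝒳₀, mem_filter] at h1 h2
      exact hdisj X h1.1 X' h2.1
    · intro X h1
      rw [h𝒳₀, mem_filter] at h1
      exact h1.2
  have h1X : ∀ X ∈ 𝒳₁, X ∈ 𝒳 ∧ ∀ y ∈ X, y ∉ Q := by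
    intro X hX1
    rw [h𝒳₁, mem_filter] at hX1
    exact ⟨hX1.1, fun y hy hyQ => hX1.2 ⟨y, hy, hyQ⟩⟩
  -- hubs
  obtain ⟨hubs, hhubs⟩ : ∃ hubs : Finset V → Finset V, ∀ X, hubs X =
    Hi.filter (fun y => ∃ x ∈ X, T.Adj x y) := ⟨_, fun X => rfl⟩
  have hmh : ∀ X y, y ∈ hubs X ↔ y ∈ Hi ∧ ∃ x ∈ X, T.Adj x y := by
    intro X y
    rw [hhubs, mem_filter]
  obtain ⟨𝒳₃, h𝒳₃⟩ : ∃ 𝒳₃, 𝒳₃ = 𝒳₁.filter (fun X => 3 ≤ (hubs X).card) := ⟨_, rfl⟩
  obtain ⟨𝒳₂, h𝒳₂⟩ : ∃ 𝒳₂, 𝒳₂ = 𝒳₁.filter (fun X => ¬ 3 ≤ (hubs X).card) := ⟨_, rfl⟩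
  have hc2 : 𝒳₃.card + 𝒳₂.card = 𝒳₁.card := by
    rw [h𝒳₃, h𝒳₂]
    exact card_filter_add_card_filter_not _
  have h3X : ∀ X ∈ 𝒳₃, X ∈ 𝒳₁ ∧ 3 ≤ (hubs X).card := by
    intro X hX3
    rwa [h𝒳₃, mem_filter] at hX3
  have h2X : ∀ X ∈ 𝒳₂, X ∈ 𝒳₁ ∧ (hubs X).card ≤ 2 := by
    intro X hX2
    rw [h𝒳₂, mem_filter] at hX2
    exact ⟨hX2.1, by omega⟩
  have hXHi : ∀ X ∈ 𝒳, Disjoint X Hi := fun X h1 => hLHi.mono_left (hX X h1).2.2.1
  have hc3 : 𝒳₃.card ≤ 406 * (s * (s * (M * 2)) + 1) * Hi.card := by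
    refine star hT Hi 𝒳₃ s s ?_ ?_ ?_ ?_ ?_ ?_
    · intro X h1 X' h2 hne
      rw [Finset.disjoint_left]
      intro x hx hx'
      exact hne (hdisj X (h1X X (h3X X h1).1).1 X' (h1X X' (h3X X' h2).1).1 x hx hx')
    · intro X h1
      exact hXHi X (h1X X (h3X X h1).1).1
    · intro X h1 x hx y hy
      exact (hX X (h1X X (h3X X h1).1).1).2.2.2.1 x hx y hy
    · intro X h1
      exact (hX X (h1X X (h3X X h1).1).1).2.2.2.2.2.1
    · intro X h1 x hx
      refine le_trans ?_ ((incid_le (H := H) x).trans ?_)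
      · refine Set.encard_le_encard ?_
        rintro f ⟨hf, hxf⟩
        refine ⟨?_, hxf⟩
        induction f using Sym2.ind with
        | _ a b => exact hTH hf
      · have h4 := (hX X (h1X X (h3X X h1).1).1).2.2.2.2.1
        have h5 := (single_le_sum (f := fun x => (nb H x).card) (fun _ _ => Nat.zero_le _)
          hx).trans h4
        exact_mod_cast h5
    · intro X h1
      refine ⟨hubs X, ?_, (h3X X h1).2, ?_⟩
      · intro y hy
        exact ((hmh X y).mp hy).1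
      · intro y hy
        exact ((hmh X y).mp hy).2
  have hc4 : (𝒳₂.image hubs).card ≤
      56 * (2 * M * (2 * (s + 1) + 1) + 1) * Hi.card + Hi.card := by
    have hsub : 𝒳₂.image hubs ⊆ (𝒳₂.filter (fun X => (hubs X).card = 2)).image hubs ∪
        Hi.image (fun a => {a}) := by
      intro P hP
      rw [mem_image] at hP
      obtain ⟨X, hX2, rfl⟩ := hP
      rw [mem_union]
      by_cases h2 : (hubs X).card = 2
      · left
        rw [mem_image]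
        exact ⟨X, by rw [mem_filter]; exact ⟨hX2, h2⟩, rfl⟩
      · right
        have hX𝒳 := (h1X X (h2X X hX2).1).1
        rw [h𝒳, mem_image] at hX𝒳
        obtain ⟨p, hp, rfl⟩ := hX𝒳
        obtain ⟨v, y, v₂, y₂, a1, a2, a3, a4, a5, -⟩ := hΘ2 p hp
        have hy : y ∈ hubs (cmp Γ p.1) := (hmh _ _).mpr ⟨a5, v, a1, a3⟩
        have h3 : (hubs (cmp Γ p.1)).card = 1 := by
          have h4 := card_pos.mpr ⟨y, hy⟩
          have h5 := (h2X _ hX2).2
          omega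
        obtain ⟨z, hz⟩ := card_eq_one.mp h3
        rw [mem_image]
        refine ⟨z, ?_, hz.symm⟩
        have : z ∈ hubs (cmp Γ p.1) := by rw [hz]; exact mem_singleton_self z
        exact ((hmh _ _).mp this).1
    refine (card_le_card hsub).trans ((card_union_le _ _).trans (add_le_add ?_ card_image_le))
    refine samp_pairs hT Hi _ ?_ ?_ ?_ ?_ hubs ?_
    · intro X h1 X' h2 hne
      rw [mem_filter] at h1 h2
      rw [Finset.disjoint_left]
      intro x hx hx'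
      exact hne (hdisj X (h1X X (h2X X h1.1).1).1 X' (h1X X' (h2X X' h2.1).1).1 x hx hx')
    · intro X h1
      rw [mem_filter] at h1
      exact hXHi X (h1X X (h2X X h1.1).1).1
    · intro X h1
      rw [mem_filter] at h1
      exact (hX X (h1X X (h2X X h1.1).1).1).2.2.2.1
    · intro X h1
      rw [mem_filter] at h1
      exact (hX X (h1X X (h2X X h1.1).1).1).2.2.2.2.2.1
    · intro X h1
      rw [mem_filter] at h1
      exact ⟨fun y hy => ((hmh X y).mp hy).1, h1.2, fun y hy => ((hmh X y).mp hy).2⟩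
  have hc5 : 𝒳₂.card ≤ NC s J * (𝒳₂.image hubs).card := by
    refine Finset.card_le_mul_card_image _ _ ?_
    intro P hP
    by_contra hcon
    push Not at hcon
    rw [mem_image] at hP
    obtain ⟨X₀, hX₀, hP₀⟩ := hP
    have hP2 : P.card ≤ 2 := by
      rw [← hP₀]
      exact (h2X X₀ hX₀).2
    obtain ⟨h, hh⟩ : ∃ h : Bool → V, ∀ y ∈ P, y = h true ∨ y = h false := by
      have hPne : P.Nonempty := by
        have hX𝒳 := (h1X X₀ (h2X X₀ hX₀).1).1
        rw [h𝒳, mem_image] at hX𝒳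
        obtain ⟨p, hp, hpX⟩ := hX𝒳
        obtain ⟨v, y, v₂, y₂, a1, a2, a3, a4, a5, -⟩ := hΘ2 p hp
        refine ⟨y, ?_⟩
        rw [← hP₀, hmh]
        exact ⟨a5, v, hpX ▸ a1, a3⟩
      obtain ⟨y₀, hy₀⟩ := hPne
      rcases (P.erase y₀).eq_empty_or_nonempty with h0 | ⟨y₁, hy₁⟩
      · refine ⟨fun _ => y₀, fun y hy => Or.inl ?_⟩
        by_contra hne
        have : y ∈ P.erase y₀ := mem_erase.mpr ⟨hne, hy⟩
        rw [h0] at this
        simp at this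
      · refine ⟨fun b => if b then y₀ else y₁, fun y hy => ?_⟩
        by_contra hne
        push Not at hne
        simp only [if_true, Bool.false_eq_true, if_false] at hne
        rw [mem_erase] at hy₁
        have h3 : ({y₀, y₁, y} : Finset V) ⊆ P := by
          intro z hz
          simp only [mem_insert, mem_singleton] at hz
          rcases hz with rfl | rfl | rfl
          · exact hy₀
          · exact hy₁.2
          · exact hy
        have h4 : ({y₀, y₁, y} : Finset V).card = 3 :=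
          Finset.card_eq_three.mpr ⟨y₀, y₁, y, hy₁.1.symm, hne.1.symm, hne.2.symm, rfl⟩
        have := card_le_card h3
        omega
    have hlT : ∀ u v, T.Adj u v → 1 ≤ len s(u, v) ∧ len s(u, v) < F ^ J := by
      intro u v huv
      rw [hTdef] at huv
      exact ⟨hl _ huv.1, huv.2.2.trans_lt hlJ⟩
    obtain ⟨X, hXm, X', hXm', hne, π₀, e1, e2, e3⟩ := two_same hF hlT h
      (𝒳₂.filter (fun X => hubs X = P)) (by
        intro X hX2
        rw [mem_filter] at hX2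
        have := hX X (h1X X (h2X X hX2.1).1).1
        exact ⟨this.2.1, this.2.2.2.2.2.1⟩) hcon
    rw [mem_filter] at hXm hXm'
    have hXX := hX X (h1X X (h2X X hXm.1).1).1
    have hXX' := hX X' (h1X X' (h2X X' hXm'.1).1).1
    have hXQ := (h1X X (h2X X hXm.1).1).2
    have hX𝒳 := (h1X X (h2X X hXm.1).1).1
    have hdis : ∀ x ∈ X', x ∉ X := by
      intro x hx' hx
      exact hne (hdisj X hX𝒳 X' (h1X X' (h2X X' hXm'.1).1).1 x hx hx')
    obtain ⟨v, y, v₂, y₂, a1, a2, a3, a4, a5, a6, a7, a8⟩ : ∃ v y v₂ y₂, v ∈ X ∧ v₂ ∈ X ∧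
        T.Adj v y ∧ T.Adj v₂ y₂ ∧ y ∈ Hi ∧ y₂ ∈ Hi ∧ (nb H y).card ≤ G * N' ∧
        (v, y) ≠ (v₂, y₂) := by
      have h5 := hX𝒳
      rw [h𝒳, mem_image] at h5
      obtain ⟨p, hp, rfl⟩ := h5
      exact hΘ2 p hp
    have hHiX : ∀ z ∈ Hi, z ∉ X := fun z hz hz' =>
      Finset.disjoint_left.mp (hXHi X hX𝒳) hz' hz
    have hHiX' : ∀ z ∈ Hi, z ∉ X' := fun z hz hz' =>
      Finset.disjoint_left.mp (hXHi X' (h1X X' (h2X X' hXm'.1).1).1) hz' hz
    have hPHi : ∀ w ∈ P, w ∈ Hi := by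
      intro w hw
      rw [← hXm.2, hmh] at hw
      exact hw.1
    obtain ⟨x', hx', hx'y⟩ : ∃ x' ∈ X', T.Adj x' y := by
      have h5 : y ∈ hubs X' := by
        rw [hXm'.2, ← hXm.2, hmh]
        exact ⟨a5, v, a1, a3⟩
      exact ((hmh _ _).mp h5).2
    subst hTdef
    refine mov_lemma (q₁ := 2) hNM hl hstep (by omega) hG hsF X X' hXX.2.2.2.2.1
      hXX'.2.2.2.2.1 hXX.2.2.2.2.2.1 hXX'.2.2.2.2.2.1 hdis hXX.2.2.2.1 hXX'.2.2.2.1
      (fun w => w ∈ P) ?_ (fun w hw => hHiX w (hPHi w hw)) ?_ π₀ e1 e2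
      (fun v hv w hw hvw => e3 v hv w (hh w hw) hvw) (v₁ := v₂) (y₁ := y₂) a2 (hHiX _ a6) a4
      hx' a1 (SimpleGraph.Walk.cons hx'y.1 (SimpleGraph.Walk.cons a3.1.symm
        SimpleGraph.Walk.nil)) ?_ ?_ ?_ ?_ hNN
    · intro u hu w huw
      by_cases hw : w ∈ L
      · exact Or.inl (hXX.2.2.2.2.2.2 u hu w huw hw)
      · right
        have hwZ : w ∉ Zo H (G * N) γ := by
          intro h6
          refine hXQ u hu ?_
          rw [hQ, mem_filter]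
          exact ⟨mem_univ _, Or.inr ⟨w, h6, huw.symm⟩⟩
        have hwHi : w ∈ Hi := by
          rw [hL, mem_Lo] at hw
          rw [mem_Zo] at hwZ
          rw [hHi, mem_Hb]
          push Not at hw hwZ
          exact hwZ hw
        rw [← hXm.2, hmh]
        exact ⟨hwHi, u, hu, huw⟩
    · intro u hu hue
      refine hXQ u hu ?_
      rw [hQ, mem_filter]
      exact ⟨mem_univ _, Or.inl hue⟩
    · simp only [SimpleGraph.Walk.edges_cons, SimpleGraph.Walk.edges_nil, List.mem_cons,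
        List.not_mem_nil, or_false]
      rintro (h6 | h6)
      · rw [Sym2.eq_iff] at h6
        rcases h6 with ⟨h6, -⟩ | ⟨h6, -⟩
        · exact hdis x' hx' (h6 ▸ a2)
        · exact hHiX y a5 (h6 ▸ a2)
      · rw [Sym2.eq_iff] at h6
        rcases h6 with ⟨h6, -⟩ | ⟨h6, h7⟩
        · exact hHiX y a5 (h6 ▸ a2)
        · exact a8 (by rw [h6, h7])
    · simp
    · intro f hf
      simp only [SimpleGraph.Walk.edges_cons, SimpleGraph.Walk.edges_nil, List.mem_cons,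
        List.not_mem_nil, or_false] at hf
      rcases hf with rfl | rfl
      · exact hx'y.2.2.trans hNN
      · exact a3.symm.2.2.trans hNN
    · intro x hx
      simp only [SimpleGraph.Walk.support_cons, SimpleGraph.Walk.support_nil, List.mem_cons,
        List.not_mem_nil, or_false] at hx
      have hGN : G * N ≤ G * N' := Nat.mul_le_mul_left _ hNN
      rcases hx with rfl | rfl | rfl
      · exact (hLdeg _ (hXX'.2.2.1 hx')).trans hGN
      · exact a7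
      · exact (hLdeg _ (hXX.2.2.1 a1)).trans hGN
  -- the sum
  obtain ⟨S, hS⟩ : ∃ S, S = G * N := ⟨_, rfl⟩
  rw [← hS] at hMS hS1 hQc ⊢
  have b1 : 406 * (s * (s * (M * 2)) + 1) * Hi.card ≤ 406 * (2 * s * s + 1) * (S * Hi.card) := by
    calc 406 * (s * (s * (M * 2)) + 1) * Hi.card ≤ 406 * (s * (s * (S * 2)) + S) * Hi.card := by
          gcongr
      _ = 406 * (2 * s * s + 1) * (S * Hi.card) := by ring
  have b2 : 56 * (2 * M * (2 * (s + 1) + 1) + 1) * Hi.card + Hi.card ≤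
      (56 * (2 * (2 * s + 3) + 1) + 1) * (S * Hi.card) := by
    calc 56 * (2 * M * (2 * (s + 1) + 1) + 1) * Hi.card + Hi.card ≤
        56 * (2 * S * (2 * (s + 1) + 1) + S) * Hi.card + S * Hi.card := by
          gcongr
          exact Nat.le_mul_of_pos_left _ hS1
      _ = (56 * (2 * (2 * s + 3) + 1) + 1) * (S * Hi.card) := by ring
  have b3 := hc5.trans (Nat.mul_le_mul_left (NC s J) (hc4.trans b2))
  have b4 : CC s J * (S * Hi.card) = 406 * (2 * s * s + 1) * (S * Hi.card) +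
      NC s J * ((56 * (2 * (2 * s + 3) + 1) + 1) * (S * Hi.card)) := by
    rw [CC]
    ring
  rw [b4]
  omega

end Pool.Agent.H354_OP
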