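import Pool.Agent.H354_OP.Lv2
import Pool.Agent.H354_OP.Gst

/-!
# Levels of threads: few tokens lie at large components
-/

set_option autoImplicit false

namespace Pool.Agent.H354_OP

open Finset
open scoped Classical

set_option linter.unusedSectionVars false

theorem big_comps {V : Type} [Fintype V] {H Γ : SimpleGraph V} {s t : ℕ}
    (ht : ∑ x, (nb H x).card = t) {τ : Type} (Θ : Finset τ) (loc : τ → V)
    (hΘ : ∀ θ ∈ Θ, s < ∑ x ∈ cmp Γ (loc θ), (nb H x).card) :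
    s * ((univ.image (cmp Γ)).filter (fun S => ∃ θ ∈ Θ, loc θ ∈ S)).card ≤ t := by
  rw [← ht, ← sum_cmp Γ, mul_comm, ← smul_eq_mul, ← sum_const]
  refine (sum_le_sum fun S hS => ?_).trans (sum_le_sum_of_subset (filter_subset _ _))
  rw [mem_filter, mem_image] at hS
  obtain ⟨⟨v, -, rfl⟩, θ, hθ, h⟩ := hS
  rw [← cmp_eq h]
  exact (hΘ θ hθ).le

theorem walk_support_res {V : Type} [Fintype V] {T : SimpleGraph V} {L : Finset V} {x y : V}
    (w : (res T L).Walk x y) (hx : x ∈ L) : ∀ u ∈ w.support, u ∈ L := walk_res w hx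

theorem res_edge {V : Type} [Fintype V] {T : SimpleGraph V} {L : Finset V} {f : Sym2 V}
    (h : f ∈ (res T L).edgeSet) : f ∈ T.edgeSet ∧ ∀ x ∈ f, x ∈ L := by
  induction f using Sym2.ind with
  | _ a b =>
    refine ⟨h.1, fun x hx => ?_⟩
    rw [Sym2.mem_iff] at hx
    rcases hx with rfl | rfl
    · exact h.2.1
    · exact h.2.2

theorem long_few (g₀ : ℕ) : ∃ C : ℕ, ∀ (V : Type) [Fintype V] (H : SimpleGraph V)
    (len : Sym2 V → ℕ) (e₀ : Sym2 V) (N₀ N F G γ M : ℕ) (pos : V → ℂ) (Cc : Sym2 V → Set ℂ)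
    (T : SimpleGraph V) (_ : T = TN H len e₀ N) (L : Finset V) (_ : L = Lo H (G * N))
    (Hi : Finset V) (_ : Hi = Hb H (G * N) γ) (_ : TopD M T pos Cc) (_ : M ≤ G * N)
    (_ : 1 ≤ G * N) (_ : 1 ≤ F) (_ : 1 ≤ G) (_ : 1 ≤ γ) (_ : ∀ ℓ, N₀ < ℓ → N ≤ F * ℓ)
    (_ : NoDir H len (g₀ + 1) (F * G)) (Θ : Finset (V × V))
    (_ : ∀ p ∈ Θ, p.1 ∈ L ∧ p.2 ∈ Hi ∧ T.Adj p.1 p.2 ∧ N₀ < len s(p.1, p.2)),
    ∃ Bd : ℕ, g₀ * Bd ≤ 3 * Fintype.card V ∧ Θ.card ≤ 3 * (C * (G * N * Hi.card)) + 3 * Bd +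
      3 * ((univ.image (cmp (res T L))).filter (fun S => ∃ θ ∈ Θ, θ.1 ∈ S)).card := by
  obtain ⟨C, hC⟩ := gstar 3 g₀ 1 (by norm_num)
  refine ⟨C, ?_⟩
  intro V _ H len e₀ N₀ N F G γ M pos Cc T hTdef L hL Hi hHi hT hM hS1 hF hG hγ hstep hND Θ hΘ
  have hLHi : Disjoint L Hi := by
    rw [hL, hHi]
    exact lo_hb hγ
  have hnHi : ∀ x ∈ L, x ∉ Hi := fun x h1 h2 => Finset.disjoint_left.mp hLHi h1 h2
  have hLdeg : ∀ x ∈ L, (nb H x).card ≤ G * N := fun x hx => by
    rw [hL] at hx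
    exact mem_Lo.mp hx
  have hTH : T ≤ H := by
    rw [hTdef]
    exact TN_le
  refine hC V (V × V) T (res T L) pos Cc M (G * N) hT hM hS1 (res_le T L) L Hi hLHi
    (fun a b h => h.2.1) ?_ Θ Prod.fst (fun p => {p.1}) (fun p => {s(p.1, p.2)}) ?_ ?_ ?_ ?_
  · intro x hx
    refine le_trans (card_le_card ?_) (hLdeg x hx)
    intro y hy
    rw [mem_nb] at hy ⊢
    exact hTH hy.1
  · -- the clusters
    intro p hp
    obtain ⟨h1, h2, h3, h4⟩ := hΘ p hp
    refine ⟨mem_singleton_self _, ?_, by simp, ?_, ?_⟩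
    · intro x hx
      rw [mem_singleton] at hx
      rw [hx]
      exact h1
    · intro x hx
      rw [mem_singleton] at hx
      subst hx
      refine ⟨SimpleGraph.Walk.nil, by simp, by simp⟩
    · intro f hf
      rw [mem_singleton] at hf
      subst hf
      refine ⟨h3, ⟨p.1, mem_singleton_self _, by simp⟩, ?_⟩
      intro x hx
      rw [Sym2.mem_iff] at hx
      rcases hx with rfl | rfl
      · exact Or.inl (mem_singleton_self _)
      · exact Or.inr h2
  · intro z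
    rw [one_mul]
    by_cases hz : z ∈ L
    · refine le_trans (card_le_card_of_injOn (t := nb H z) Prod.snd ?_ ?_) (hLdeg z hz)
      · intro p hp
        rw [mem_coe, mem_filter, mem_singleton] at hp
        rw [mem_coe, mem_nb, hp.2]
        exact hTH (hΘ p hp.1).2.2.1
      · intro p hp p' hp' he
        rw [mem_coe, mem_filter, mem_singleton] at hp hp'
        exact Prod.ext (hp.2.symm.trans hp'.2) he
    · have : Θ.filter (fun p => z ∈ ({p.1} : Finset V)) = ∅ := by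
        rw [filter_eq_empty_iff]
        intro p hp h
        rw [mem_singleton] at h
        exact hz (h ▸ (hΘ p hp).1)
      rw [this]
      simp
  · intro f
    rw [card_le_one]
    intro p hp p' hp'
    rw [mem_filter, mem_singleton] at hp hp'
    have h1 := hΘ p hp.1
    have h2 := hΘ p' hp'.1
    have h3 := hp.2.symm.trans hp'.2
    rw [Sym2.eq_iff] at h3
    rcases h3 with ⟨h3, h4⟩ | ⟨h3, h4⟩
    · exact Prod.ext h3 h4
    · exact absurd h2.2.1 (h3 ▸ hnHi _ h1.1)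
  · -- three hubs
    intro A hA hA3 hw
    have hinj : Set.InjOn Prod.snd (A : Set (V × V)) := by
      intro p hp p' hp' he
      rw [mem_coe] at hp hp'
      by_contra hne
      have h1 := hΘ p (hA hp)
      have h2 := hΘ p' (hA hp')
      have hne1 : p'.1 ≠ p.1 := fun h => hne (Prod.ext h.symm he)
      obtain ⟨w, hwl⟩ := hw p hp p' hp'
      have hws := walk_support_res w h1.1
      have hadj : H.Adj p'.1 p.2 := by
        rw [he]
        exact hTH h2.2.2.1
      have hlK : N ≤ F * G * len s(p.1, p.2) :=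
        (hstep _ h1.2.2.2).trans (Nat.mul_le_mul_right _ (Nat.le_mul_of_pos_right _ hG))
      refine hND p.1 p.2 (hTH h1.2.2.1) ((w.mapLe ((res_le T L).trans hTH)).append
        (SimpleGraph.Walk.cons hadj SimpleGraph.Walk.nil)) ?_ ?_ ?_ ?_
      · rw [SimpleGraph.Walk.edges_append, SimpleGraph.Walk.edges_mapLe_eq_edges, List.mem_append]
        simp only [SimpleGraph.Walk.edges_cons, SimpleGraph.Walk.edges_nil, List.mem_singleton]
        rintro (h | h)
        · exact hnHi _ ((res_edge (w.edges_subset_edgeSet h)).2 p.2 (by simp)) h1.2.1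
        · rw [Sym2.eq_iff] at h
          rcases h with ⟨h, -⟩ | ⟨h, -⟩
          · exact hne1 h.symm
          · exact hnHi _ h1.1 (h ▸ h1.2.1)
      · rw [SimpleGraph.Walk.length_append, SimpleGraph.Walk.length_mapLe]
        simp only [SimpleGraph.Walk.length_cons, SimpleGraph.Walk.length_nil]
        omega
      · intro f hf
        rw [SimpleGraph.Walk.edges_append, SimpleGraph.Walk.edges_mapLe_eq_edges,
          List.mem_append] at hf
        simp only [SimpleGraph.Walk.edges_cons, SimpleGraph.Walk.edges_nil,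
          List.mem_singleton] at hf
        refine le_trans ?_ hlK
        rcases hf with h | h
        · have h5 := (res_edge (w.edges_subset_edgeSet h)).1
          rw [hTdef] at h5
          induction f using Sym2.ind with
          | _ a b => exact h5.2.2
        · have h5 := h2.2.2.1
          rw [hTdef] at h5
          rw [h, he]
          exact h5.2.2
      · intro x hx hx1 hx2
        rw [SimpleGraph.Walk.mem_support_append_iff,
          SimpleGraph.Walk.support_mapLe_eq_support] at hx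
        simp only [SimpleGraph.Walk.support_cons, SimpleGraph.Walk.support_nil, List.mem_cons,
          List.not_mem_nil, or_false] at hx
        have hxL : x ∈ L := by
          rcases hx with h | h | h
          · exact hws x h
          · rw [h]
            exact h2.1
          · exact absurd h hx2
        refine (hLdeg x hxL).trans ?_
        calc G * N ≤ G * (F * len s(p.1, p.2)) := Nat.mul_le_mul_left _ (hstep _ h1.2.2.2)
          _ = F * G * len s(p.1, p.2) := by ring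
    refine ⟨A.image Prod.snd, ?_, ?_, ?_⟩
    · intro y hy
      rw [mem_image] at hy
      obtain ⟨p, hp, rfl⟩ := hy
      exact (hΘ p (hA hp)).2.1
    · rw [card_image_of_injOn hinj, hA3]
    · intro y hy
      rw [mem_image] at hy
      obtain ⟨p, hp, rfl⟩ := hy
      exact ⟨p, hp, p.1, mem_singleton_self _, mem_singleton_self _⟩

theorem two_cover {V : Type} [Fintype V] {P : Finset V} (hne : P.Nonempty) (hP2 : P.card ≤ 2) :
    ∃ h : Bool → V, ∀ y ∈ P, y = h true ∨ y = h false := by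
  obtain ⟨y₀, hy₀⟩ := hne
  rcases (P.erase y₀).eq_empty_or_nonempty with h0 | ⟨y₁, hy₁⟩
  · refine ⟨fun _ => y₀, fun y hy => Or.inl ?_⟩
    by_contra hne
    have : y ∈ P.erase y₀ := mem_erase.mpr ⟨hne, hy⟩
    rw [h0] at this
    simp at this
  · refine ⟨fun b => if b then y₀ else y₁, fun y hy => ?_⟩
    by_contra hne
    push Not at hne
    simp only [if_true, Bool.false_eq_true, if_false] at hne
    rw [mem_erase] at hy₁
    have h3 : ({y₀, y₁, y} : Finset V) ⊆ P := by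
      intro z hz
      simp only [mem_insert, mem_singleton] at hz
      rcases hz with rfl | rfl | rfl
      · exact hy₀
      · exact hy₁.2
      · exact hy
    have h4 : ({y₀, y₁, y} : Finset V).card = 3 :=
      Finset.card_eq_three.mpr ⟨y₀, y₁, y, hy₁.1.symm, hne.1.symm, hne.2.symm, rfl⟩
    have := card_le_card h3
    omega

theorem short_few (J g₀ s₀ : ℕ) : ∃ C : ℕ, ∀ (V : Type) [Fintype V] (H : SimpleGraph V)
    (len : Sym2 V → ℕ) (e₀ : Sym2 V) (N₀ N F G γ M : ℕ) (pos : V → ℂ) (Cc : Sym2 V → Set ℂ)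
    (T : SimpleGraph V) (_ : T = TN H len e₀ N) (L : Finset V) (_ : L = Lo H (G * N))
    (Hi : Finset V) (_ : Hi = Hb H (G * N) γ) (_ : TopD M T pos Cc) (_ : M ≤ G * N)
    (_ : 1 ≤ G * N) (_ : 1 < F) (_ : 1 ≤ G) (_ : 1 ≤ γ) (_ : ∀ ℓ, N₀ < ℓ → N ≤ F * ℓ)
    (_ : N₀ ≤ N) (_ : s₀ ≤ F) (_ : N₀ < F ^ J) (_ : ∀ x, 1 ≤ (nb H x).card)
    (_ : ∀ f ∈ H.edgeSet, 1 ≤ len f)
    (_ : NoMov H len s₀ (2 * s₀ + g₀ + 1) (F * G))
    (T₀ : SimpleGraph V) (_ : T₀ = TN H len e₀ N₀) (L₀ : Finset V) (_ : L₀ = Lo H (G * N₀))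
    (Θ : Finset (V × V))
    (_ : ∀ p ∈ Θ, p.1 ∈ L₀ ∧ p.2 ∈ Hi ∧ T₀.Adj p.1 p.2 ∧
      ∑ x ∈ cmp (res T₀ L₀) p.1, (nb H x).card ≤ s₀ ∧
      (∀ u ∈ cmp (res T₀ L₀) p.1, ∀ w, T₀.Adj u w → w ∈ cmp (res T₀ L₀) p.1 ∨ w ∈ Hi) ∧
      (∀ u ∈ cmp (res T₀ L₀) p.1, u ∉ e₀)),
    ∃ Bd : ℕ, g₀ * Bd ≤ (s₀ * NC s₀ J + 1) * Fintype.card V ∧
      Θ.card ≤ (s₀ * NC s₀ J + 1) * (C * (G * N * Hi.card)) + (s₀ * NC s₀ J + 1) * Bd +
      (s₀ * NC s₀ J + 1) *
        ((univ.image (cmp (res T L))).filter (fun S => ∃ θ ∈ Θ, θ.1 ∈ S)).card := by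
  obtain ⟨C, hC⟩ := gstar (s₀ * NC s₀ J + 1) g₀ (2 * s₀) (by omega)
  refine ⟨C, ?_⟩
  intro V _ H len e₀ N₀ N F G γ M pos Cc T hTdef L hL Hi hHi hT hM hS1 hF hG hγ hstep hNN hsF hNJ
    hdeg1 hl hNM T₀ hT₀ L₀ hL₀ Θ hΘ
  have hLHi : Disjoint L Hi := by
    rw [hL, hHi]
    exact lo_hb hγ
  have hnHi : ∀ x ∈ L, x ∉ Hi := fun x h1 h2 => Finset.disjoint_left.mp hLHi h1 h2
  have hLdeg : ∀ x ∈ L, (nb H x).card ≤ G * N := fun x hx => by
    rw [hL] at hx
    exact mem_Lo.mp hx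
  have hTH : T ≤ H := by
    rw [hTdef]
    exact TN_le
  have hT₀T : T₀ ≤ T := by
    rw [hTdef, hT₀]
    exact fun a b h => ⟨h.1, h.2.1, h.2.2.trans hNN⟩
  have hL₀L : L₀ ⊆ L := by
    intro x hx
    rw [hL₀, mem_Lo] at hx
    rw [hL, mem_Lo]
    exact hx.trans (Nat.mul_le_mul_left _ hNN)
  set Γ₀ := res T₀ L₀ with hΓ₀
  have hXL : ∀ p ∈ Θ, cmp Γ₀ p.1 ⊆ L₀ := fun p hp => cmp_sub (hΘ p hp).1
  -- tokens at a vertex set
  have hcount : ∀ Q : Finset V, (Θ.filter (fun p => ∃ y ∈ cmp Γ₀ p.1, y ∈ Q)).card ≤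
      s₀ * Q.card := by
    intro Q
    refine fiberQ (H := H) (Γ := Γ₀) _ Q ?_ ?_
    · intro p hp
      rw [mem_filter] at hp
      exact ⟨hTH (hT₀T (hΘ p hp.1).2.2.1), (hΘ p hp.1).2.2.2.1⟩
    · intro p hp
      rw [mem_filter] at hp
      exact hp.2
  refine hC V (V × V) T (res T L) pos Cc M (G * N) hT hM hS1 (res_le T L) L Hi hLHi
    (fun a b h => h.2.1) ?_ Θ Prod.fst (fun p => cmp Γ₀ p.1)
    (fun p => univ.filter (fun f => f ∈ T₀.edgeSet ∧ ∃ z ∈ cmp Γ₀ p.1, z ∈ f)) ?_ ?_ ?_ ?_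
  · intro x hx
    refine le_trans (card_le_card ?_) (hLdeg x hx)
    intro y hy
    rw [mem_nb] at hy ⊢
    exact hTH hy.1
  · -- the clusters
    intro p hp
    obtain ⟨h1, h2, h3, h4, h5, h6⟩ := hΘ p hp
    refine ⟨self_mem_cmp _ _, (hXL p hp).trans hL₀L, ?_, ?_, ?_⟩
    · have hsub : univ.filter (fun f => f ∈ T₀.edgeSet ∧ ∃ z ∈ cmp Γ₀ p.1, z ∈ f) ⊆
          (cmp Γ₀ p.1).biUnion (fun z => (nb H z).image (fun y => s(z, y))) := by
        intro f hf
        rw [mem_filter] at hf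
        obtain ⟨-, hf1, z, hz, hzf⟩ := hf
        obtain ⟨y, rfl⟩ := hzf
        rw [mem_biUnion]
        exact ⟨z, hz, mem_image_of_mem _ (mem_nb.mpr (hTH (hT₀T hf1)))⟩
      refine (card_le_card hsub).trans (card_biUnion_le.trans ?_)
      refine (sum_le_sum fun z _ => card_image_le).trans (h4.trans ?_)
      omega
    · intro x hx
      obtain ⟨w, hw⟩ := cmp_conn Γ₀ p.1 p.1 (self_mem_cmp _ _) x hx
      refine ⟨w.mapLe ((res_le T₀ L₀).trans (hT₀T)), ?_, ?_⟩
      · intro f hf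
        rw [SimpleGraph.Walk.edges_mapLe_eq_edges] at hf
        rw [mem_filter]
        refine ⟨mem_univ _, (res_edge (w.edges_subset_edgeSet hf)).1, ?_⟩
        induction f using Sym2.ind with
        | _ a b => exact ⟨a, hw a (w.fst_mem_support_of_mem_edges hf), by simp⟩
      · intro u hu
        rw [SimpleGraph.Walk.support_mapLe_eq_support] at hu
        exact hw u hu
    · intro f hf
      rw [mem_filter] at hf
      obtain ⟨-, hf1, z, hz, hzf⟩ := hf
      obtain ⟨y, rfl⟩ := hzf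
      refine ⟨hT₀T hf1, ⟨z, hz, by simp⟩, ?_⟩
      intro x hx
      rw [Sym2.mem_iff] at hx
      rcases hx with rfl | rfl
      · exact Or.inl hz
      · exact h5 z hz x hf1
  · intro z
    refine (le_trans (card_le_card ?_) (hcount {z})).trans ?_
    · intro p hp
      rw [mem_filter] at hp ⊢
      exact ⟨hp.1, z, hp.2, mem_singleton_self z⟩
    · rw [card_singleton, mul_one]
      calc s₀ ≤ 2 * s₀ := by omega
        _ ≤ 2 * s₀ * (G * N) := Nat.le_mul_of_pos_right _ hS1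
  · intro f
    refine (le_trans (card_le_card ?_) (hcount (univ.filter (· ∈ f)))).trans ?_
    · intro p hp
      rw [mem_filter, mem_filter] at hp
      obtain ⟨hp1, -, -, z, hz, hzf⟩ := hp
      rw [mem_filter]
      exact ⟨hp1, z, hz, by rw [mem_filter]; exact ⟨mem_univ _, hzf⟩⟩
    · rw [mul_comm]
      refine Nat.mul_le_mul_right _ ?_
      induction f using Sym2.ind with
      | _ a b =>
        refine (card_le_card ?_).trans (card_le_two (a := a) (b := b))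
        intro y hy
        rw [mem_filter, Sym2.mem_iff] at hy
        simpa using hy.2
  · -- three hubs
    intro A hA hAc hw
    obtain ⟨P, hP⟩ : ∃ P : Finset V, P = Hi.filter (fun a => ∃ θ ∈ A, ∃ x ∈ cmp Γ₀ θ.1,
        T₀.Adj x a) := ⟨_, rfl⟩
    have hmP : ∀ a, a ∈ P ↔ a ∈ Hi ∧ ∃ θ ∈ A, ∃ x ∈ cmp Γ₀ θ.1, T₀.Adj x a := by
      intro a
      rw [hP, mem_filter]
    refine ⟨P, fun a ha => ((hmP a).mp ha).1, ?_, ?_⟩
    swap
    · intro a ha
      obtain ⟨-, θ, hθ, x, hx, hxa⟩ := (hmP a).mp ha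
      refine ⟨θ, hθ, x, hx, ?_⟩
      rw [mem_filter]
      exact ⟨mem_univ _, hxa, x, hx, by simp⟩
    by_contra hcon
    have hPne : P.Nonempty := by
      obtain ⟨θ, hθ⟩ : A.Nonempty := card_pos.mp (by omega)
      refine ⟨θ.2, ?_⟩
      rw [hmP]
      exact ⟨(hΘ θ (hA hθ)).2.1, θ, hθ, θ.1, self_mem_cmp _ _, (hΘ θ (hA hθ)).2.2.1⟩
    obtain ⟨h, hh⟩ := two_cover hPne (by omega)
    have hlT : ∀ u v, T₀.Adj u v → 1 ≤ len s(u, v) ∧ len s(u, v) < F ^ J := by
      intro u v huv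
      rw [hT₀] at huv
      exact ⟨hl _ huv.1, huv.2.2.trans_lt hNJ⟩
    have hAX : A.card ≤ s₀ * (A.image (fun p => cmp Γ₀ p.1)).card := by
      refine fiberG (H := H) (Γ := Γ₀) A _ (fun p => cmp Γ₀ p.1)
        (fun p hp => mem_image_of_mem _ hp) (fun p hp => ?_) (fun p _ p' _ h => h)
      exact ⟨hTH (hT₀T (hΘ p (hA hp)).2.2.1), (hΘ p (hA hp)).2.2.2.1⟩
    have hcX : NC s₀ J < (A.image (fun p => cmp Γ₀ p.1)).card := by
      by_contra hle
      have h1 := Nat.mul_le_mul_left s₀ (not_lt.mp hle)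
      omega
    obtain ⟨X, hX, X', hX', hne, π₀, e1, e2, e3⟩ := two_same hF hlT h
      (A.image (fun p => cmp Γ₀ p.1)) (by
        intro X hX
        rw [mem_image] at hX
        obtain ⟨p, hp, rfl⟩ := hX
        exact ⟨⟨_, self_mem_cmp _ _⟩, (card_le_mass hdeg1 _).trans (hΘ p (hA hp)).2.2.2.1⟩) hcX
    rw [mem_image] at hX hX'
    obtain ⟨p, hp, rfl⟩ := hX
    obtain ⟨p', hp', rfl⟩ := hX'
    obtain ⟨h1, h2, h3, h4, h5, h6⟩ := hΘ p (hA hp)
    obtain ⟨h1', h2', h3', h4', h5', h6'⟩ := hΘ p' (hA hp')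
    obtain ⟨w, hwl⟩ := hw p' hp' p hp
    have hdis : ∀ x ∈ cmp Γ₀ p'.1, x ∉ cmp Γ₀ p.1 := by
      intro x hx' hx
      exact hne (by rw [← cmp_eq hx, cmp_eq hx'])
    have hHiX : ∀ z ∈ Hi, z ∉ cmp Γ₀ p.1 := fun z hz hz' =>
      hnHi z (hL₀L (hXL p (hA hp) hz')) hz
    have hPHi : ∀ w ∈ P, w ∈ Hi := fun w hw => ((hmP w).mp hw).1
    have hws := walk_support_res w (hL₀L h1')
    subst hT₀
    refine mov_lemma (q₁ := g₀) hNM hl hstep (by omega) hG hsF (cmp Γ₀ p.1) (cmp Γ₀ p'.1) h4 h4'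
      ((card_le_mass hdeg1 _).trans h4) ((card_le_mass hdeg1 _).trans h4') hdis
      ((cmp_conn Γ₀ p.1).mono (res_le _ _)) ((cmp_conn Γ₀ p'.1).mono (res_le _ _))
      (fun w => w ∈ P) ?_ (fun w hw => hHiX w (hPHi w hw)) h6 π₀ e1 e2
      (fun v hv w hw hvw => e3 v hv w (hh w hw) hvw) (v₁ := p.1) (y₁ := p.2) (self_mem_cmp _ _)
      (hHiX _ h2) h3 (self_mem_cmp _ _) (self_mem_cmp _ _)
      (w.mapLe ((res_le T L).trans hTH)) ?_ ?_ ?_ ?_ hNN
    · intro u hu v huv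
      rcases h5 u hu v huv with h | h
      · exact Or.inl h
      · right
        rw [hmP]
        exact ⟨h, p, hp, u, hu, huv⟩
    · rw [SimpleGraph.Walk.edges_mapLe_eq_edges]
      intro h
      exact hnHi _ ((res_edge (w.edges_subset_edgeSet h)).2 p.2 (by simp)) h2
    · rw [SimpleGraph.Walk.length_mapLe]
      exact hwl
    · intro f hf
      rw [SimpleGraph.Walk.edges_mapLe_eq_edges] at hf
      have h7 := (res_edge (w.edges_subset_edgeSet hf)).1
      rw [hTdef] at h7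
      induction f using Sym2.ind with
      | _ a b => exact h7.2.2
    · intro x hx
      rw [SimpleGraph.Walk.support_mapLe_eq_support] at hx
      exact hLdeg x (hws x hx)

end Pool.Agent.H354_OP
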