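import Pool.Agent.H354_OP.Lv3

/-!
# Levels of threads: few tokens lie at large components, at every level
-/

set_option autoImplicit false

namespace Pool.Agent.H354_OP

open Finset
open scoped Classical

set_option linter.unusedSectionVars false

/-- the lengths at which the levels end -/
def Nn (F b : ℕ) : ℕ := if b = 0 then 0 else F ^ (b - 1)

theorem Nn_zero (F : ℕ) : Nn F 0 = 0 := if_pos rfl

theorem Nn_succ (F b : ℕ) : Nn F (b + 1) = F ^ b := if_neg (Nat.succ_ne_zero b)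

theorem Nn_step {F : ℕ} (hF : 1 ≤ F) (b ℓ : ℕ) (h : Nn F b < ℓ) : Nn F (b + 1) ≤ F * ℓ := by
  cases b with
  | zero =>
    rw [Nn_zero] at h
    rw [Nn_succ, pow_zero]
    exact Nat.mul_pos hF h
  | succ b =>
    rw [Nn_succ] at h
    rw [Nn_succ, pow_succ, mul_comm]
    exact Nat.mul_le_mul_left _ h.le

theorem Nn_mono {F : ℕ} (hF : 1 ≤ F) (b : ℕ) : Nn F b ≤ Nn F (b + 1) := by
  cases b with
  | zero =>
    rw [Nn_zero]
    exact Nat.zero_le _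
  | succ b =>
    rw [Nn_succ, Nn_succ]
    exact Nat.pow_le_pow_right hF (Nat.le_succ b)

theorem Nn_lt {F : ℕ} (hF : 1 < F) {b J : ℕ} (h : b ≤ J) : Nn F b < F ^ J := by
  cases b with
  | zero =>
    rw [Nn_zero]
    exact Nat.pow_pos (by omega)
  | succ b =>
    rw [Nn_succ]
    exact Nat.pow_lt_pow_right hF (by omega)

theorem Nn_pos {F : ℕ} (hF : 1 ≤ F) (b : ℕ) : 1 ≤ Nn F (b + 1) := by
  rw [Nn_succ]
  exact Nat.pow_pos hF

/-- what is known about the graph of the threads of a graph that is hard to draw -/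
structure Wd (m J Λ F γ G t : ℕ) {V : Type} [Fintype V] (H : SimpleGraph V) (len : Sym2 V → ℕ)
    (e₀ : Sym2 V) : Prop where
  ht : ∑ x, (nb H x).card = t
  hd : ∀ x, 3 ≤ (nb H x).card
  hl : ∀ f ∈ H.edgeSet, 1 ≤ len f
  hG : m + 1 ≤ G
  hγ : Λ ≤ γ
  hγF : γ ≤ F
  hz : ∀ b ≤ J, Λ * ∑ x ∈ Zo H (G * Nn F b) γ, (nb H x).card ≤ t
  hdir : NoDir H len (Λ * (Nat.log 2 t + 1)) (F * G)
  hmov : NoMov H len Λ Λ (F * G)
  hΛ : Λ ≤ t
  top : ∀ N, ∃ (pos : V → ℂ) (C : Sym2 V → Set ℂ), TopD (m * N) (TN H len e₀ N) pos C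

theorem Wd.mono {m J Λ Λ' F γ G t : ℕ} {V : Type} [Fintype V] {H : SimpleGraph V}
    {len : Sym2 V → ℕ} {e₀ : Sym2 V} (h : Wd m J Λ' F γ G t H len e₀) (hΛ : Λ ≤ Λ') :
    Wd m J Λ F γ G t H len e₀ :=
  ⟨h.ht, h.hd, h.hl, h.hG, hΛ.trans h.hγ, h.hγF, fun b hb => (Nat.mul_le_mul_right _ hΛ).trans
    (h.hz b hb), h.hdir.mono (Nat.mul_le_mul_right _ hΛ), h.hmov.mono hΛ hΛ, hΛ.trans h.hΛ, h.top⟩

theorem Wd.cardV {m J Λ F γ G t : ℕ} {V : Type} [Fintype V] {H : SimpleGraph V}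
    {len : Sym2 V → ℕ} {e₀ : Sym2 V} (h : Wd m J Λ F γ G t H len e₀) :
    3 * Fintype.card V ≤ t := by
  rw [← h.ht, ← Finset.card_univ, mul_comm, ← smul_eq_mul, ← sum_const]
  exact sum_le_sum fun x _ => h.hd x

/-- the small quantities: a multiple of them is at most `t` -/
theorem Wd.hub {m J Λ F γ G t : ℕ} {V : Type} [Fintype V] {H : SimpleGraph V}
    {len : Sym2 V → ℕ} {e₀ : Sym2 V} (h : Wd m J Λ F γ G t H len e₀) (N : ℕ) {k : ℕ}
    (hk : k ≤ Λ) : k * (G * N * (Hb H (G * N) γ).card) ≤ t :=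
  (Nat.mul_le_mul_right _ (hk.trans h.hγ)).trans (hub_few h.ht)

/-- the claim in a world, at the level `b + 1` -/
theorem Wd.claim {m J Λ F γ G t : ℕ} {V : Type} [Fintype V] {H : SimpleGraph V}
    {len : Sym2 V → ℕ} {e₀ : Sym2 V} (h : Wd m J Λ F γ G t H len e₀) {b s k : ℕ}
    (hb : b + 1 ≤ J) (hs : 2 * s + 3 ≤ Λ)
    (hk : 3 * (k * s * (2 + CC s J)) ≤ Λ) {N N' : ℕ} (hN : N = Nn F (b + 1))
    (hN' : N' = Nn F (b + 2)) (Θ : Finset (V × V))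
    (hΘ : ∀ p ∈ Θ, p.1 ∈ Lo H (G * N) ∧ (TN H len e₀ N).Adj p.1 p.2 ∧
      ∑ x ∈ cmp (res (TN H len e₀ N) (Lo H (G * N))) p.1, (nb H x).card ≤ s)
    (hΘ2 : ∀ p ∈ Θ, ∃ v y v₂ y₂, v ∈ cmp (res (TN H len e₀ N) (Lo H (G * N))) p.1 ∧
      v₂ ∈ cmp (res (TN H len e₀ N) (Lo H (G * N))) p.1 ∧ (TN H len e₀ N).Adj v y ∧
      (TN H len e₀ N).Adj v₂ y₂ ∧ y ∈ Hb H (G * N) γ ∧ y₂ ∈ Hb H (G * N) γ ∧
      (nb H y).card ≤ G * N' ∧ (v, y) ≠ (v₂, y₂)) : k * Θ.card ≤ t := by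
  have hΛF : Λ ≤ F := h.hγ.trans h.hγF
  have hG1 : 1 ≤ G := by have := h.hG; omega
  have hN1 : 1 ≤ N := hN ▸ Nn_pos (by omega) b
  obtain ⟨pos, C, hT⟩ := h.top N
  have key := claim_few (J := J) rfl rfl rfl hT (Nat.mul_le_mul_right _ (by have := h.hG; omega))
    (Nat.mul_pos hG1 hN1) (fun x => by have := h.hd x; omega) h.hl (hN ▸ Nn_lt (by omega) hb)
    (by omega) hG1 (by have := h.hγ; omega) (by omega)
    (fun ℓ hℓ => by rw [hN] at hℓ; rw [hN']; exact Nn_step (by omega) _ ℓ hℓ)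
    (by rw [hN, hN']; exact Nn_mono (by omega) _)
    (h.hmov.mono (by omega) (by omega)) Θ hΘ hΘ2
  obtain ⟨Z, hZ⟩ : ∃ Z, Z = ∑ z ∈ Zo H (G * N) γ, (nb H z).card := ⟨_, rfl⟩
  obtain ⟨B, hB⟩ : ∃ B, B = G * N * (Hb H (G * N) γ).card := ⟨_, rfl⟩
  rw [← hZ, ← hB] at key
  have h1 : Λ * Z ≤ t := by
    have := h.hz (b + 1) hb
    rw [← hN] at this
    rw [hZ]
    exact this
  have h2 : Λ * B ≤ t := by
    rw [hB]
    exact h.hub N le_rfl
  have h3 := Nat.mul_le_mul_left k key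
  have e1 : 3 * (k * s * 2) ≤ t := by
    refine le_trans ?_ (hk.trans h.hΛ)
    refine Nat.mul_le_mul_left _ (Nat.mul_le_mul_left _ (by omega))
  have e2 : 3 * (k * s * Z) ≤ t := by
    refine le_trans ?_ h1
    rw [← mul_assoc]
    refine Nat.mul_le_mul_right _ (le_trans ?_ hk)
    refine Nat.mul_le_mul_left _ (Nat.le_mul_of_pos_right _ (by omega))
  have e3 : 3 * (k * s * (CC s J * B)) ≤ t := by
    refine le_trans ?_ h2
    calc 3 * (k * s * (CC s J * B)) = 3 * (k * s * CC s J) * B := by ring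
      _ ≤ Λ * B := Nat.mul_le_mul_right _ (le_trans (Nat.mul_le_mul_left _
          (Nat.mul_le_mul_left _ (by omega))) hk)
  have h4 : k * (s * (2 + Z + CC s J * B)) = k * s * 2 + k * s * Z + k * s * (CC s J * B) := by
    ring
  omega

/-- few tokens lie at large components -/
theorem T_level (m J : ℕ) : ∀ b ≤ J, ∀ c : ℕ, ∃ s Λ : ℕ, ∀ (F γ G t : ℕ) (V : Type) [Fintype V]
    (H : SimpleGraph V) (len : Sym2 V → ℕ) (e₀ : Sym2 V), Wd m J Λ F γ G t H len e₀ →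
    ∀ N, N = Nn F b → ∀ Θ : Finset (V × V),
    (∀ p ∈ Θ, p.1 ∈ Lo H (G * N) ∧ p.2 ∈ Hb H (G * N) γ ∧ (TN H len e₀ N).Adj p.1 p.2 ∧
      s < ∑ x ∈ cmp (res (TN H len e₀ N) (Lo H (G * N))) p.1, (nb H x).card) →
    c * Θ.card ≤ t := by
  intro b
  induction b with
  | zero =>
    intro _ c
    refine ⟨0, 0, ?_⟩
    intro F γ G t V _ H len e₀ hW N hN Θ hΘ
    have : Θ = ∅ := by
      rw [eq_empty_iff_forall_notMem]
      intro p hp
      have h1 := mem_Lo.mp (hΘ p hp).1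
      have h2 := hW.hd p.1
      rw [hN, Nn_zero, mul_zero] at h1
      omega
    rw [this]
    simp
  | succ b ih =>
    intro hb c
    obtain ⟨s₁, Λ₁, h₁⟩ := ih (by omega) (16 * c)
    obtain ⟨Cl, hCl⟩ := long_few (48 * c)
    obtain ⟨g, hg⟩ : ∃ g, g = s₁ * NC s₁ J + 1 := ⟨_, rfl⟩
    obtain ⟨Cs, hCs⟩ := short_few J (16 * c * g * g) s₁
    obtain ⟨s, hs⟩ : ∃ s, s = 48 * c + 16 * c * g := ⟨_, rfl⟩
    obtain ⟨Λ, hΛ⟩ : ∃ Λ, Λ = Λ₁ + 48 * c * Cl + (48 * c + 2) + 2688 * c +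
      3 * (16 * c * s₁ * (2 + CC s₁ J)) + 32 * c * s₁ + 16 * c * g * Cs +
      (2 * s₁ + 16 * c * g * g + 1) + (2 * s₁ + 3) + 2 := ⟨_, rfl⟩
    refine ⟨s, Λ, ?_⟩
    intro F γ G t V _ H len e₀ hW N hN Θ hΘ
    have hΛF : Λ ≤ F := hW.hγ.trans hW.hγF
    have hΛγ := hW.hγ
    have hG := hW.hG
    have hF1 : 1 < F := by omega
    have hG1 : 1 ≤ G := by omega
    have hγ1 : 1 ≤ γ := by omega
    have hdeg1 : ∀ x, 1 ≤ (nb H x).card := fun x => by have := hW.hd x; omega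
    have hcard := hW.cardV
    have hΛt := hW.hΛ
    obtain ⟨N₀, hN₀⟩ : ∃ N₀, N₀ = Nn F b := ⟨_, rfl⟩
    have hstep : ∀ ℓ, N₀ < ℓ → N ≤ F * ℓ := fun ℓ hℓ => by
      rw [hN₀] at hℓ
      rw [hN]
      exact Nn_step (by omega) b ℓ hℓ
    have hNN : N₀ ≤ N := by
      rw [hN₀, hN]
      exact Nn_mono (by omega) b
    have hN1 : 1 ≤ N := hN ▸ Nn_pos (by omega) b
    obtain ⟨T₀, hT₀⟩ : ∃ T₀, T₀ = TN H len e₀ N₀ := ⟨_, rfl⟩
    obtain ⟨T, hT⟩ : ∃ T, T = TN H len e₀ N := ⟨_, rfl⟩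
    obtain ⟨L₀, hL₀⟩ : ∃ L₀, L₀ = Lo H (G * N₀) := ⟨_, rfl⟩
    obtain ⟨L, hL⟩ : ∃ L, L = Lo H (G * N) := ⟨_, rfl⟩
    obtain ⟨Hi₀, hHi₀⟩ : ∃ Hi₀, Hi₀ = Hb H (G * N₀) γ := ⟨_, rfl⟩
    obtain ⟨Hi, hHi⟩ : ∃ Hi, Hi = Hb H (G * N) γ := ⟨_, rfl⟩
    obtain ⟨Z₀, hZ₀⟩ : ∃ Z₀, Z₀ = Zo H (G * N₀) γ := ⟨_, rfl⟩
    obtain ⟨Z, hZ⟩ : ∃ Z, Z = Zo H (G * N) γ := ⟨_, rfl⟩
    rw [← hT, ← hL, ← hHi] at hΘ
    have hT₀H : T₀ ≤ H := by rw [hT₀]; exact TN_le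
    have hTH : T ≤ H := by rw [hT]; exact TN_le
    have hT₀T : T₀ ≤ T := by
      rw [hT, hT₀]
      exact fun a b h => ⟨h.1, h.2.1, h.2.2.trans hNN⟩
    have hGN : G * N₀ ≤ G * N := Nat.mul_le_mul_left _ hNN
    have hHiHi : ∀ x ∈ Hi, x ∈ Hi₀ := by
      intro x hx
      rw [hHi, mem_Hb] at hx
      rw [hHi₀, mem_Hb]
      have := Nat.mul_le_mul_left γ hGN
      omega
    have hcase₀ : ∀ x, x ∈ L₀ ∨ x ∈ Z₀ ∨ x ∈ Hi₀ := by
      intro x
      rw [hL₀, hZ₀, hHi₀, mem_Lo, mem_Zo, mem_Hb]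
      omega
    have hcase : ∀ x, (nb H x).card ≤ G * N ∨ x ∈ Z ∨ x ∈ Hi := by
      intro x
      rw [hZ, hHi, mem_Zo, mem_Hb]
      omega
    have hHideg : ∀ x ∈ Hi, G * N < (nb H x).card := by
      intro x hx
      rw [hHi, mem_Hb] at hx
      have := Nat.le_mul_of_pos_left (G * N) hγ1
      omega
    obtain ⟨σ₀, hσ₀⟩ : ∃ σ₀, σ₀ = ∑ z ∈ Z₀, (nb H z).card := ⟨_, rfl⟩
    obtain ⟨σ, hσ⟩ : ∃ σ, σ = ∑ z ∈ Z, (nb H z).card := ⟨_, rfl⟩
    obtain ⟨β₀, hβ₀⟩ : ∃ β₀, β₀ = G * N₀ * Hi₀.card := ⟨_, rfl⟩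
    obtain ⟨β, hβ⟩ : ∃ β, β = G * N * Hi.card := ⟨_, rfl⟩
    have hσ₀t : Λ * σ₀ ≤ t := by
      rw [hσ₀, hZ₀, hN₀]
      exact hW.hz b (by omega)
    have hσt : Λ * σ ≤ t := by
      rw [hσ, hZ, hN]
      exact hW.hz (b + 1) hb
    have hβ₀t : Λ * β₀ ≤ t := by
      rw [hβ₀, hHi₀]
      exact hW.hub N₀ le_rfl
    have hβt : Λ * β ≤ t := by
      rw [hβ, hHi]
      exact hW.hub N le_rfl
    -- the parts
    obtain ⟨Γ₀, hΓ₀⟩ : ∃ Γ₀, Γ₀ = res T₀ L₀ := ⟨_, rfl⟩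
    obtain ⟨Γ, hΓ⟩ : ∃ Γ, Γ = res T L := ⟨_, rfl⟩
    rw [← hΓ] at hΘ
    obtain ⟨Q, hQ⟩ : ∃ Q : Finset V, Q = univ.filter (fun y => y ∈ e₀ ∨ (∃ z ∈ Z₀, T₀.Adj z y) ∨
      ∃ z ∈ Z, T₀.Adj z y) := ⟨_, rfl⟩
    have hQc : Q.card ≤ 2 + σ₀ + σ := by
      have hsub : Q ⊆ univ.filter (fun y => y ∈ e₀) ∪ Z₀.biUnion (nb H) ∪ Z.biUnion (nb H) := by
        intro y hy
        rw [hQ, mem_filter] at hy
        rw [mem_union, mem_union, mem_filter, mem_biUnion, mem_biUnion]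
        rcases hy.2 with h | ⟨z, hz, hzy⟩ | ⟨z, hz, hzy⟩
        · exact Or.inl (Or.inl ⟨mem_univ _, h⟩)
        · exact Or.inl (Or.inr ⟨z, hz, mem_nb.mpr (hT₀H hzy)⟩)
        · exact Or.inr ⟨z, hz, mem_nb.mpr (hT₀H hzy)⟩
      refine (card_le_card hsub).trans ((card_union_le _ _).trans (add_le_add
        ((card_union_le _ _).trans (add_le_add ?_ ?_)) ?_))
      · induction e₀ using Sym2.ind with
        | _ a b =>
          refine (card_le_card ?_).trans (card_le_two (a := a) (b := b))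
          intro y hy
          rw [mem_filter, Sym2.mem_iff] at hy
          simpa using hy.2
      · rw [hσ₀]
        exact card_biUnion_le
      · rw [hσ]
        exact card_biUnion_le
    obtain ⟨Θl, hΘl⟩ : ∃ Θl, Θl = Θ.filter (fun p => N₀ < len s(p.1, p.2)) := ⟨_, rfl⟩
    obtain ⟨Θ4, hΘ4⟩ : ∃ Θ4, Θ4 = Θ.filter (fun p => p.1 ∈ Z₀) := ⟨_, rfl⟩
    obtain ⟨Θ5, hΘ5⟩ : ∃ Θ5, Θ5 = Θ.filter (fun p => T₀.Adj p.1 p.2 ∧ p.1 ∈ Hi₀) := ⟨_, rfl⟩
    obtain ⟨Θ6, hΘ6⟩ : ∃ Θ6, Θ6 = Θ.filter (fun p => T₀.Adj p.1 p.2 ∧ p.1 ∈ L₀ ∧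
      s₁ < ∑ x ∈ cmp Γ₀ p.1, (nb H x).card) := ⟨_, rfl⟩
    obtain ⟨Θ7, hΘ7⟩ : ∃ Θ7, Θ7 = Θ.filter (fun p => T₀.Adj p.1 p.2 ∧ p.1 ∈ L₀ ∧
      ∑ x ∈ cmp Γ₀ p.1, (nb H x).card ≤ s₁ ∧
      ∃ u ∈ cmp Γ₀ p.1, ∃ w ∈ Hi₀, T₀.Adj u w ∧ (nb H w).card ≤ G * N) := ⟨_, rfl⟩
    obtain ⟨Θ8, hΘ8⟩ : ∃ Θ8, Θ8 = Θ.filter (fun p => T₀.Adj p.1 p.2 ∧ p.1 ∈ L₀ ∧
      ∑ x ∈ cmp Γ₀ p.1, (nb H x).card ≤ s₁ ∧ ∃ u ∈ cmp Γ₀ p.1, u ∈ Q) := ⟨_, rfl⟩
    obtain ⟨Θ9, hΘ9⟩ : ∃ Θ9, Θ9 = Θ.filter (fun p => T₀.Adj p.1 p.2 ∧ p.1 ∈ L₀ ∧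
      ∑ x ∈ cmp Γ₀ p.1, (nb H x).card ≤ s₁ ∧
      (¬ ∃ u ∈ cmp Γ₀ p.1, ∃ w ∈ Hi₀, T₀.Adj u w ∧ (nb H w).card ≤ G * N) ∧
      ¬ ∃ u ∈ cmp Γ₀ p.1, u ∈ Q) := ⟨_, rfl⟩
    have hcover : Θ.card ≤ Θl.card + Θ4.card + Θ5.card + Θ6.card + Θ7.card + Θ8.card + Θ9.card := by
      have hsub : Θ ⊆ Θl ∪ Θ4 ∪ Θ5 ∪ Θ6 ∪ Θ7 ∪ Θ8 ∪ Θ9 := by
        intro p hp
        obtain ⟨h2, h3, h4, h5⟩ := hΘ p hp
        simp only [mem_union, hΘl, hΘ4, hΘ5, hΘ6, hΘ7, hΘ8, hΘ9, mem_filter, hp, true_and]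
        by_cases hlen : N₀ < len s(p.1, p.2)
        · exact Or.inl (Or.inl (Or.inl (Or.inl (Or.inl (Or.inl hlen)))))
        · have hadj : T₀.Adj p.1 p.2 := by
            rw [hT] at h4
            rw [hT₀]
            exact ⟨h4.1, h4.2.1, not_lt.mp hlen⟩
          rcases hcase₀ p.1 with h | h | h
          · by_cases h6 : s₁ < ∑ x ∈ cmp Γ₀ p.1, (nb H x).card
            · exact Or.inl (Or.inl (Or.inl (Or.inr ⟨hadj, h, h6⟩)))
            · by_cases h7 : ∃ u ∈ cmp Γ₀ p.1, ∃ w ∈ Hi₀, T₀.Adj u w ∧ (nb H w).card ≤ G * N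
              · exact Or.inl (Or.inl (Or.inr ⟨hadj, h, not_lt.mp h6, h7⟩))
              · by_cases h8 : ∃ u ∈ cmp Γ₀ p.1, u ∈ Q
                · exact Or.inl (Or.inr ⟨hadj, h, not_lt.mp h6, h8⟩)
                · exact Or.inr ⟨hadj, h, not_lt.mp h6, h7, h8⟩
          · exact Or.inl (Or.inl (Or.inl (Or.inl (Or.inl (Or.inr h)))))
          · exact Or.inl (Or.inl (Or.inl (Or.inl (Or.inr ⟨hadj, h⟩))))
      refine (card_le_card hsub).trans ?_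
      have a1 := card_union_le Θl Θ4
      have a2 := card_union_le (Θl ∪ Θ4) Θ5
      have a3 := card_union_le (Θl ∪ Θ4 ∪ Θ5) Θ6
      have a4 := card_union_le (Θl ∪ Θ4 ∪ Θ5 ∪ Θ6) Θ7
      have a5 := card_union_le (Θl ∪ Θ4 ∪ Θ5 ∪ Θ6 ∪ Θ7) Θ8
      have a6 := card_union_le (Θl ∪ Θ4 ∪ Θ5 ∪ Θ6 ∪ Θ7 ∪ Θ8) Θ9
      omega
    have hmem : ∀ p ∈ Θ, p.1 ∈ L ∧ p.2 ∈ Hi ∧ T.Adj p.1 p.2 ∧
      s < ∑ x ∈ cmp Γ p.1, (nb H x).card := hΘ
    obtain ⟨pos, Cc, htop⟩ := hW.top N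
    rw [← hT] at htop
    have hmGN : m * N ≤ G * N := Nat.mul_le_mul_right _ (by omega)
    have hS1 : 1 ≤ G * N := Nat.mul_pos hG1 hN1
    have hcomps : ∀ Θ' : Finset (V × V), Θ' ⊆ Θ →
        s * ((univ.image (cmp Γ)).filter (fun S => ∃ θ ∈ Θ', θ.1 ∈ S)).card ≤ t := by
      intro Θ' hΘ'
      exact big_comps hW.ht Θ' Prod.fst (fun p hp => (hmem p (hΘ' hp)).2.2.2)
    -- long tokens
    obtain ⟨Bl, hBl1, hBl2⟩ := hCl V H len e₀ N₀ N F G γ (m * N) pos Cc T hT L hL Hi hHi htop hmGN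
      hS1 (by omega) hG1 hγ1 hstep (hW.hdir.mono (by
        have h1 : 48 * c + 1 ≤ Λ := by omega
        exact h1.trans (Nat.le_mul_of_pos_right _ (by omega)))) Θl (by
        intro p hp
        rw [hΘl, mem_filter] at hp
        have := hmem p hp.1
        exact ⟨this.1, this.2.1, this.2.2.1, hp.2⟩)
    rw [← hΓ, ← hβ] at hBl2
    have hl3 := hcomps Θl (by rw [hΘl]; exact filter_subset _ _)
    obtain ⟨κl, hκl⟩ : ∃ κl, κl = ((univ.image (cmp Γ)).filter (fun S => ∃ θ ∈ Θl, θ.1 ∈ S)).card :=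
      ⟨_, rfl⟩
    rw [← hκl] at hBl2 hl3
    -- in between
    have h4 : Θ4.card ≤ σ₀ := by
      rw [hσ₀, ← card_sigma]
      refine card_le_card_of_injOn (fun p => (⟨p.1, p.2⟩ : (_ : V) × V)) ?_ ?_
      · intro p hp
        rw [mem_coe, hΘ4, mem_filter] at hp
        simp only [mem_coe, mem_sigma]
        exact ⟨hp.2, mem_nb.mpr (hTH (hmem p hp.1).2.2.1)⟩
      · intro p _ p' _ he
        simp only [Sigma.mk.injEq, heq_eq_eq] at he
        exact Prod.ext he.1 he.2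
    -- small components at the lower level
    have h6 : 16 * c * Θ6.card ≤ t := by
      refine h₁ F γ G t V H len e₀ (hW.mono (by omega)) N₀ hN₀ Θ6 ?_
      intro p hp
      rw [hΘ6, mem_filter] at hp
      rw [← hT₀, ← hL₀, ← hHi₀, ← hΓ₀]
      exact ⟨hp.2.2.1, hHiHi _ (hmem p hp.1).2.1, hp.2.1, hp.2.2.2⟩
    have h57 : 16 * c * Θ5.card ≤ t ∧ 16 * c * Θ7.card ≤ t := by
      cases b with
      | zero =>
        have hno : ∀ x y, ¬ T₀.Adj x y := by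
          intro x y hxy
          rw [hT₀, hN₀, Nn_zero] at hxy
          have h1 := hW.hl s(x, y) hxy.1
          have h2 := hxy.2.2
          omega
        have e5 : Θ5 = ∅ := by
          rw [eq_empty_iff_forall_notMem]
          intro p hp
          rw [hΘ5, mem_filter] at hp
          exact hno _ _ hp.2.1
        have e7 : Θ7 = ∅ := by
          rw [eq_empty_iff_forall_notMem]
          intro p hp
          rw [hΘ7, mem_filter] at hp
          exact hno _ _ hp.2.1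
        rw [e5, e7]
        simp
      | succ b =>
        have hN₀1 : 1 ≤ N₀ := hN₀ ▸ Nn_pos (by omega) b
        have hS₀1 : 1 ≤ G * N₀ := Nat.mul_pos hG1 hN₀1
        constructor
        · obtain ⟨pos₀, C₀, htop₀⟩ := hW.top N₀
          rw [← hT₀] at htop₀
          have h5 : Θ5.card ≤ 168 * β₀ := by
            refine le_trans (card_le_card ?_) ((samp_darts htop₀ Hi₀).trans ?_)
            · intro p hp
              rw [hΘ5, mem_filter] at hp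
              rw [mem_filter]
              exact ⟨mem_univ _, hp.2.2, hHiHi _ (hmem p hp.1).2.1, hp.2.1⟩
            · rw [hβ₀]
              have h8 : m * N₀ ≤ G * N₀ := Nat.mul_le_mul_right _ (by omega)
              calc 56 * (2 * (m * N₀) + 1) * Hi₀.card ≤
                  56 * (2 * (G * N₀) + G * N₀) * Hi₀.card := by gcongr
                _ = 168 * (G * N₀ * Hi₀.card) := by ring
          calc 16 * c * Θ5.card ≤ 16 * c * (168 * β₀) := Nat.mul_le_mul_left _ h5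
            _ = 2688 * c * β₀ := by ring
            _ ≤ Λ * β₀ := Nat.mul_le_mul_right _ (by omega)
            _ ≤ t := hβ₀t
        · refine hW.claim (b := b) (s := s₁) (N := N₀) (N' := N) (by omega) (by omega) (by omega)
            hN₀ hN Θ7 ?_ ?_
          · intro p hp
            rw [hΘ7, mem_filter] at hp
            rw [← hT₀, ← hL₀, ← hΓ₀]
            exact ⟨hp.2.2.1, hp.2.1, hp.2.2.2.1⟩
          · intro p hp
            rw [hΘ7, mem_filter] at hp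
            obtain ⟨hp1, hp2, hp3, hp4, u, hu, w, hw, huw, hwd⟩ := hp
            rw [← hT₀, ← hL₀, ← hΓ₀, ← hHi₀]
            refine ⟨u, w, p.1, p.2, hu, self_mem_cmp _ _, huw, hp2, hw, hHiHi _ (hmem p hp1).2.1,
              hwd, ?_⟩
            intro he
            have h8 := hHideg _ (hmem p hp1).2.1
            rw [← (Prod.mk.inj he).2] at h8
            omega
    obtain ⟨h5, h7⟩ := h57
    have h8 : Θ8.card ≤ s₁ * (2 + σ₀ + σ) := by
      refine (fiberQ (H := H) (Γ := Γ₀) Θ8 Q ?_ ?_).trans (Nat.mul_le_mul_left _ hQc)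
      · intro p hp
        rw [hΘ8, mem_filter] at hp
        exact ⟨hT₀H hp.2.1, hp.2.2.2.1⟩
      · intro p hp
        rw [hΘ8, mem_filter] at hp
        exact hp.2.2.2.2
    -- good tokens
    obtain ⟨Bs, hBs1, hBs2⟩ := hCs V H len e₀ N₀ N F G γ (m * N) pos Cc T hT L hL Hi hHi htop hmGN
      hS1 hF1 hG1 hγ1 hstep hNN (by omega) (hN₀ ▸ Nn_lt hF1 (by omega)) hdeg1 hW.hl
      (hW.hmov.mono (by omega) (by omega)) T₀ hT₀ L₀ hL₀ Θ9 (by
        intro p hp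
        rw [hΘ9, mem_filter] at hp
        obtain ⟨hp1, hp2, hp3, hp4, hp5, hp6⟩ := hp
        rw [← hΓ₀]
        refine ⟨hp3, (hmem p hp1).2.1, hp2, hp4, ?_, ?_⟩
        · intro u hu w huw
          have huL : u ∈ L₀ := by
            rw [hΓ₀] at hu
            exact cmp_sub hp3 hu
          have huQ : u ∉ Q := fun h => hp6 ⟨u, hu, h⟩
          rw [hQ, mem_filter] at huQ
          push Not at huQ
          rcases hcase₀ w with h | h | h
          · left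
            refine cmp_adj hu ?_
            rw [hΓ₀]
            exact ⟨huw, huL, h⟩
          · exact absurd huw.symm ((huQ (mem_univ _)).2.1 w h)
          · rcases hcase w with h' | h' | h'
            · exact absurd ⟨u, hu, w, h, huw, h'⟩ hp5
            · exact absurd huw.symm ((huQ (mem_univ _)).2.2 w h')
            · exact Or.inr h'
        · intro u hu hue
          refine hp6 ⟨u, hu, ?_⟩
          rw [hQ, mem_filter]
          exact ⟨mem_univ _, Or.inl hue⟩)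
    rw [← hg] at hBs1 hBs2
    rw [← hΓ, ← hβ] at hBs2
    have hs3 := hcomps Θ9 (by rw [hΘ9]; exact filter_subset _ _)
    obtain ⟨κs, hκs⟩ : ∃ κs, κs = ((univ.image (cmp Γ)).filter (fun S => ∃ θ ∈ Θ9, θ.1 ∈ S)).card :=
      ⟨_, rfl⟩
    rw [← hκs] at hBs2 hs3
    -- the sum
    have hgpos : 0 < g := by omega
    have y1 : 16 * (c * (3 * (Cl * β))) ≤ t := by
      calc 16 * (c * (3 * (Cl * β))) = 48 * c * Cl * β := by ring
        _ ≤ Λ * β := Nat.mul_le_mul_right _ (by omega)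
        _ ≤ t := hβt
    have y2 : 16 * (c * (3 * Bl)) ≤ t := by
      have : 16 * (c * (3 * Bl)) = 48 * c * Bl := by ring
      omega
    have y3 : 16 * (c * (3 * κl)) ≤ t := by
      calc 16 * (c * (3 * κl)) = 48 * c * κl := by ring
        _ ≤ s * κl := Nat.mul_le_mul_right _ (by omega)
        _ ≤ t := hl3
    have y4 : 16 * (c * σ₀) ≤ t := by
      calc 16 * (c * σ₀) = 16 * c * σ₀ := by ring
        _ ≤ Λ * σ₀ := Nat.mul_le_mul_right _ (by omega)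
        _ ≤ t := hσ₀t
    have y5 : 16 * (c * Θ5.card) ≤ t := by rw [← mul_assoc]; exact h5
    have y6 : 16 * (c * Θ6.card) ≤ t := by rw [← mul_assoc]; exact h6
    have y7 : 16 * (c * Θ7.card) ≤ t := by rw [← mul_assoc]; exact h7
    have y8 : 16 * (c * (s₁ * 2)) ≤ t := by
      calc 16 * (c * (s₁ * 2)) = 32 * c * s₁ := by ring
        _ ≤ Λ := by omega
        _ ≤ t := hΛt
    have y9 : 16 * (c * (s₁ * σ₀)) ≤ t := by
      calc 16 * (c * (s₁ * σ₀)) = 16 * c * s₁ * σ₀ := by ring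
        _ ≤ Λ * σ₀ := Nat.mul_le_mul_right _ (by
          have : 16 * c * s₁ ≤ 32 * c * s₁ := by gcongr; omega
          omega)
        _ ≤ t := hσ₀t
    have y10 : 16 * (c * (s₁ * σ)) ≤ t := by
      calc 16 * (c * (s₁ * σ)) = 16 * c * s₁ * σ := by ring
        _ ≤ Λ * σ := Nat.mul_le_mul_right _ (by
          have : 16 * c * s₁ ≤ 32 * c * s₁ := by gcongr; omega
          omega)
        _ ≤ t := hσt
    have y11 : 16 * (c * (g * (Cs * β))) ≤ t := by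
      calc 16 * (c * (g * (Cs * β))) = 16 * c * g * Cs * β := by ring
        _ ≤ Λ * β := Nat.mul_le_mul_right _ (by omega)
        _ ≤ t := hβt
    have y12 : 16 * (c * (g * Bs)) ≤ t := by
      have h10 : g * (16 * (c * (g * Bs))) ≤ g * Fintype.card V := by
        calc g * (16 * (c * (g * Bs))) = 16 * c * g * g * Bs := by ring
          _ ≤ g * Fintype.card V := hBs1
      have := Nat.le_of_mul_le_mul_left h10 hgpos
      omega
    have y13 : 16 * (c * (g * κs)) ≤ t := by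
      calc 16 * (c * (g * κs)) = 16 * c * g * κs := by ring
        _ ≤ s * κs := Nat.mul_le_mul_right _ (by omega)
        _ ≤ t := hs3
    have z1 := Nat.mul_le_mul_left c hcover
    have z2 := Nat.mul_le_mul_left c hBl2
    have z3 := Nat.mul_le_mul_left c h4
    have z4 := Nat.mul_le_mul_left c h8
    have z5 := Nat.mul_le_mul_left c hBs2
    have w1 : c * (Θl.card + Θ4.card + Θ5.card + Θ6.card + Θ7.card + Θ8.card + Θ9.card) =
        c * Θl.card + c * Θ4.card + c * Θ5.card + c * Θ6.card + c * Θ7.card + c * Θ8.card +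
          c * Θ9.card := by ring
    have w2 : c * (3 * (Cl * β) + 3 * Bl + 3 * κl) = c * (3 * (Cl * β)) + c * (3 * Bl) +
        c * (3 * κl) := by ring
    have w4 : c * (s₁ * (2 + σ₀ + σ)) = c * (s₁ * 2) + c * (s₁ * σ₀) + c * (s₁ * σ) := by ring
    have w5 : c * (g * (Cs * β) + g * Bs + g * κs) = c * (g * (Cs * β)) + c * (g * Bs) +
        c * (g * κs) := by ring
    rw [w1] at z1
    rw [w2] at z2
    rw [w4] at z4
    rw [w5] at z5
    omega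

end Pool.Agent.H354_OP
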