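import Pool.Agent.H354_OP.Lv4

/-!
# Levels of threads: the short threads between low vertices form almost a forest
-/

set_option autoImplicit false

namespace Pool.Agent.H354_OP

open Finset
open scoped Classical

set_option linter.unusedSectionVars false

/-- adding edges, each of which is the only way out of some set -/
theorem acyclic_pend {V : Type} {Φ U : SimpleGraph V} (hΦ : Φ.IsAcyclic)
    (hU : ∀ a b, U.Adj a b → ∃ (v x : V) (S : Set V), s(a, b) = s(v, x) ∧ v ∈ S ∧ x ∉ S ∧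
      ∀ c d, c ∈ S → d ∉ S → (Φ.Adj c d ∨ U.Adj c d) → s(c, d) = s(v, x)) :
    (Φ ⊔ U).IsAcyclic := by
  have hbridge : ∀ e ∈ U.edgeSet, (Φ ⊔ U).IsBridge e := by
    intro e
    induction e using Sym2.ind with
    | _ a b =>
      intro hab
      obtain ⟨v, x, S, h1, h2, h3, h4⟩ := hU a b hab
      rw [h1, SimpleGraph.isBridge_iff_forall_walk_mem_edges]
      intro p
      obtain ⟨d, hd, hd1, hd2⟩ := p.exists_boundary_dart S h2 h3
      have h5 := h4 d.fst d.snd hd1 hd2 (by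
        have := d.adj
        rwa [SimpleGraph.sup_adj] at this)
      rw [← h5]
      exact List.mem_map.mpr ⟨d, hd, rfl⟩
  intro v c hc
  by_cases hall : ∀ e ∈ c.edges, e ∈ Φ.edgeSet
  · exact hΦ (c.transfer Φ hall) (hc.transfer hall)
  · push Not at hall
    obtain ⟨e, he, heΦ⟩ := hall
    have h1 := c.edges_subset_edgeSet he
    rw [SimpleGraph.edgeSet_sup] at h1
    rcases h1 with h1 | h1
    · exact heΦ h1
    · exact (hbridge e h1).notMem_edges_of_isCycle hc he

theorem forest_sum {V : Type} [Fintype V] {Φ : SimpleGraph V} (hΦ : Φ.IsAcyclic) :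
    ∑ v, (nb Φ v).card ≤ 2 * Fintype.card V := by
  rcases isEmpty_or_nonempty V with hV | hV
  · simp
  · have hconn : (⊤ : SimpleGraph V).Connected := SimpleGraph.connected_top
    obtain ⟨F, h1, -, h2⟩ := hconn.exists_isTree_le_of_le_of_isAcyclic le_top hΦ
    have h3 := h2.card_edgeFinset
    have h4 := F.sum_degrees_eq_twice_card_edges
    have h5 : ∑ v, (nb Φ v).card ≤ ∑ v, F.degree v := by
      refine sum_le_sum fun v _ => ?_
      rw [← SimpleGraph.card_neighborFinset_eq_degree]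
      refine card_le_card fun y hy => ?_
      rw [mem_nb] at hy
      rw [SimpleGraph.mem_neighborFinset]
      exact h1 hy
    omega

theorem two_mul_pow_le (a : ℕ) (ha : 0 < a) : 2 * a ^ a ≤ (a + 1) ^ a := by
  have h := one_add_mul_le_pow (a := (1 : ℝ) / a) (by
    have : (0 : ℝ) ≤ 1 / a := by positivity
    linarith) a
  have ha' : (0 : ℝ) < a := by exact_mod_cast ha
  have h1 : (1 : ℝ) + a * (1 / a) = 2 := by
    rw [mul_one_div, div_self ha'.ne']
    norm_num
  rw [h1] at h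
  have h2 : (a : ℝ) ^ a * (1 + 1 / a) ^ a = (a + 1) ^ a := by
    rw [← mul_pow]
    congr 1
    rw [mul_add, mul_one, mul_one_div, div_self ha'.ne']
  have h3 : (2 : ℝ) * a ^ a ≤ (a + 1) ^ a := by
    rw [← h2]
    have := mul_le_mul_of_nonneg_left h (pow_nonneg ha'.le a)
    linarith
  exact_mod_cast h3

theorem radius_fact {a t : ℕ} (ha : 0 < a) :
    a ^ (a * (Nat.log 2 t + 1)) * t < (a + 1) ^ (a * (Nat.log 2 t + 1)) := by
  obtain ⟨k, hk⟩ : ∃ k, k = Nat.log 2 t + 1 := ⟨_, rfl⟩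
  have h1 : t < 2 ^ k := by
    rw [hk]
    exact Nat.lt_pow_succ_log_self (by norm_num) t
  rw [← hk, pow_mul, pow_mul]
  have h2 : (2 * a ^ a) ^ k ≤ ((a + 1) ^ a) ^ k := Nat.pow_le_pow_left (two_mul_pow_le a ha) k
  rw [mul_pow] at h2
  refine lt_of_lt_of_le ?_ h2
  rw [mul_comm]
  exact Nat.mul_lt_mul_of_pos_right h1 (pow_pos (pow_pos ha a) k)

theorem darts_card {V : Type} [Fintype V] (Γ : SimpleGraph V) :
    ∑ v, (nb Γ v).card = (univ.filter (fun p : V × V => Γ.Adj p.1 p.2)).card := by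
  rw [← card_sigma]
  refine card_bij (fun p _ => (p.1, p.2)) ?_ ?_ ?_
  · intro p hp
    rw [mem_sigma] at hp
    rw [mem_filter]
    exact ⟨mem_univ _, mem_nb.mp hp.2⟩
  · intro p _ p' _ he
    simp only [Prod.mk.injEq] at he
    exact Sigma.ext he.1 (heq_of_eq he.2)
  · intro p hp
    rw [mem_filter] at hp
    exact ⟨⟨p.1, p.2⟩, by rw [mem_sigma]; exact ⟨mem_univ _, mem_nb.mpr hp.2⟩, rfl⟩

theorem F_level (m J : ℕ) : ∀ b ≤ J, ∀ c : ℕ, ∃ Λ : ℕ, ∀ (F γ G t : ℕ) (V : Type) [Fintype V]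
    (H : SimpleGraph V) (len : Sym2 V → ℕ) (e₀ : Sym2 V), Wd m J Λ F γ G t H len e₀ →
    ∀ N, N = Nn F b → ∃ Φ : SimpleGraph V, Φ ≤ res (TN H len e₀ N) (Lo H (G * N)) ∧
      Φ.IsAcyclic ∧ c * ∑ v, (nb (res (TN H len e₀ N) (Lo H (G * N))) v).card ≤
        c * ∑ v, (nb Φ v).card + t := by
  intro b
  induction b with
  | zero =>
    intro _ c
    refine ⟨0, ?_⟩
    intro F γ G t V _ H len e₀ hW N hN
    refine ⟨⊥, bot_le, SimpleGraph.isAcyclic_bot, ?_⟩
    have : ∀ v, nb (res (TN H len e₀ N) (Lo H (G * N))) v = ∅ := by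
      intro v
      rw [eq_empty_iff_forall_notMem]
      intro y hy
      rw [mem_nb] at hy
      have h1 := mem_Lo.mp hy.2.1
      have h2 := hW.hd v
      rw [hN, Nn_zero, mul_zero] at h1
      omega
    simp [this]
  | succ b ih =>
    intro hb c
    rcases Nat.eq_zero_or_pos c with hc | hc
    · subst hc
      exact ⟨0, fun F γ G t V _ H len e₀ _ N _ => ⟨⊥, bot_le, SimpleGraph.isAcyclic_bot, by simp⟩⟩
    obtain ⟨Λ₁, h₁⟩ := ih (by omega) (16 * c)
    obtain ⟨s₁, Λ₂, h₂⟩ := T_level m J b (by omega) (32 * c)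
    obtain ⟨Λ, hΛ⟩ : ∃ Λ, Λ = Λ₁ + Λ₂ + 32 * c + 2688 * c +
      3 * (32 * c * s₁ * (2 + CC s₁ J)) + (2 * s₁ + 3) + (8 * c + 1) + 2 := ⟨_, rfl⟩
    refine ⟨Λ, ?_⟩
    intro F γ G t V _ H len e₀ hW N hN
    have hΛF : Λ ≤ F := hW.hγ.trans hW.hγF
    have hΛγ := hW.hγ
    have hG := hW.hG
    have hF1 : 1 < F := by omega
    have hG1 : 1 ≤ G := by omega
    have hγ1 : 1 ≤ γ := by omega
    have hcard := hW.cardV
    have hΛt := hW.hΛ
    obtain ⟨N₀, hN₀⟩ : ∃ N₀, N₀ = Nn F b := ⟨_, rfl⟩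
    have hstep : ∀ ℓ, N₀ < ℓ → N ≤ F * ℓ := fun ℓ hℓ => by
      rw [hN₀] at hℓ
      rw [hN]
      exact Nn_step (by omega) b ℓ hℓ
    have hNN : N₀ ≤ N := by
      rw [hN₀, hN]
      exact Nn_mono (by omega) b
    obtain ⟨T₀, hT₀⟩ : ∃ T₀, T₀ = TN H len e₀ N₀ := ⟨_, rfl⟩
    obtain ⟨T, hT⟩ : ∃ T, T = TN H len e₀ N := ⟨_, rfl⟩
    obtain ⟨L₀, hL₀⟩ : ∃ L₀, L₀ = Lo H (G * N₀) := ⟨_, rfl⟩
    obtain ⟨L, hL⟩ : ∃ L, L = Lo H (G * N) := ⟨_, rfl⟩
    obtain ⟨Hi₀, hHi₀⟩ : ∃ Hi₀, Hi₀ = Hb H (G * N₀) γ := ⟨_, rfl⟩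
    obtain ⟨Z₀, hZ₀⟩ : ∃ Z₀, Z₀ = Zo H (G * N₀) γ := ⟨_, rfl⟩
    have hT₀H : T₀ ≤ H := by rw [hT₀]; exact TN_le
    have hTH : T ≤ H := by rw [hT]; exact TN_le
    have hT₀T : T₀ ≤ T := by
      rw [hT, hT₀]
      exact fun a b h => ⟨h.1, h.2.1, h.2.2.trans hNN⟩
    have hGN : G * N₀ ≤ G * N := Nat.mul_le_mul_left _ hNN
    have hL₀L : L₀ ⊆ L := by
      intro x hx
      rw [hL₀, mem_Lo] at hx
      rw [hL, mem_Lo]
      exact hx.trans hGN
    have hLd : ∀ x, x ∈ L ↔ (nb H x).card ≤ G * N := fun x => by rw [hL, mem_Lo]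
    have hcase₀ : ∀ x, x ∈ L₀ ∨ x ∈ Z₀ ∨ x ∈ Hi₀ := by
      intro x
      rw [hL₀, hZ₀, hHi₀, mem_Lo, mem_Zo, mem_Hb]
      omega
    have hLHi₀ : ∀ x ∈ L₀, x ∉ Hi₀ := by
      intro x h1 h2
      rw [hL₀] at h1
      rw [hHi₀] at h2
      exact Finset.disjoint_left.mp (lo_hb hγ1) h1 h2
    obtain ⟨Γ₀, hΓ₀⟩ : ∃ Γ₀, Γ₀ = res T₀ L₀ := ⟨_, rfl⟩
    obtain ⟨Γ, hΓ⟩ : ∃ Γ, Γ = res T L := ⟨_, rfl⟩
    obtain ⟨Φ₀, hΦ₀, hΦ₀a, hΦ₀c⟩ := h₁ F γ G t V H len e₀ (hW.mono (by omega)) N₀ hN₀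
    rw [← hT₀, ← hL₀, ← hΓ₀] at hΦ₀ hΦ₀c
    rw [← hT, ← hL, ← hΓ]
    -- the tokens that are alone
    obtain ⟨tok, htok⟩ : ∃ tok : V → V → Prop, ∀ v x, tok v x ↔ v ∈ L₀ ∧ x ∈ Hi₀ ∧ x ∈ L ∧
        T₀.Adj v x ∧ ∀ v' ∈ cmp Γ₀ v, ∀ x' ∈ Hi₀, T₀.Adj v' x' → (v', x') = (v, x) :=
      ⟨_, fun v x => Iff.rfl⟩
    obtain ⟨U, hU⟩ : ∃ U : SimpleGraph V, ∀ a b, U.Adj a b ↔ tok a b ∨ tok b a := by
      refine ⟨⟨fun a b => tok a b ∨ tok b a, ⟨fun a b h => h.symm⟩, ⟨fun a h => ?_⟩⟩,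
        fun a b => Iff.rfl⟩
      rcases h with h | h
      · exact ((htok a a).mp h).2.2.2.1.ne rfl
      · exact ((htok a a).mp h).2.2.2.1.ne rfl
    have hcmpL : ∀ v ∈ L₀, ∀ y ∈ cmp Γ₀ v, y ∈ L₀ := by
      intro v hv y hy
      rw [hΓ₀] at hy
      exact cmp_sub hv hy
    have hΦ' : (Φ₀ ⊔ U).IsAcyclic := by
      refine acyclic_pend hΦ₀a ?_
      intro a b hab
      obtain ⟨v, x, hvx, htk⟩ : ∃ v x, s(a, b) = s(v, x) ∧ tok v x := by
        rcases (hU a b).mp hab with h | h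
        · exact ⟨a, b, rfl, h⟩
        · exact ⟨b, a, Sym2.eq_swap, h⟩
      obtain ⟨t1, t2, t3, t4, t5⟩ := (htok v x).mp htk
      refine ⟨v, x, (cmp Γ₀ v : Set V), hvx, self_mem_cmp _ _, ?_, ?_⟩
      · intro h
        exact hLHi₀ x (hcmpL v t1 x h) t2
      · intro c' d hc' hd h
        rw [mem_coe] at hc' hd
        rcases h with h | h
        · exact absurd (cmp_adj hc' (hΦ₀ h)) hd
        · rcases (hU c' d).mp h with h | h
          · obtain ⟨-, u2, -, u4, -⟩ := (htok c' d).mp h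
            have := t5 c' hc' d u2 u4
            rw [(Prod.mk.inj this).1, (Prod.mk.inj this).2]
          · obtain ⟨-, u2, -, -, -⟩ := (htok d c').mp h
            exact absurd u2 (hLHi₀ c' (hcmpL v t1 c' hc'))
    obtain ⟨E', hE'⟩ : ∃ E' : SimpleGraph V, ∀ a b, E'.Adj a b ↔ Γ.Adj a b ∧ N₀ < len s(a, b) := by
      refine ⟨⟨fun a b => Γ.Adj a b ∧ N₀ < len s(a, b), ⟨fun a b h => ⟨h.1.symm, ?_⟩⟩,
        ⟨fun a h => h.1.ne rfl⟩⟩, fun a b => Iff.rfl⟩
      rw [Sym2.eq_swap]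
      exact h.2
    obtain ⟨Φ', hΦ'd⟩ : ∃ Φ', Φ' = Φ₀ ⊔ U := ⟨_, rfl⟩
    rw [← hΦ'd] at hΦ'
    obtain ⟨Γs, hΓs⟩ : ∃ Γs, Γs = Φ' ⊔ E' := ⟨_, rfl⟩
    have hΓ₀Γ : Γ₀ ≤ Γ := by
      rw [hΓ₀, hΓ]
      exact fun a b h => ⟨hT₀T h.1, hL₀L h.2.1, hL₀L h.2.2⟩
    have hUΓ : U ≤ Γ := by
      intro a b h
      rw [hΓ]
      rcases (hU a b).mp h with h | h
      · obtain ⟨t1, t2, t3, t4, t5⟩ := (htok a b).mp h
        exact ⟨hT₀T t4, hL₀L t1, t3⟩
      · obtain ⟨t1, t2, t3, t4, t5⟩ := (htok b a).mp h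
        exact ⟨(hT₀T t4).symm, t3, hL₀L t1⟩
    have hΓsΓ : Γs ≤ Γ := by
      rw [hΓs, hΦ'd]
      refine sup_le (sup_le (hΦ₀.trans hΓ₀Γ) hUΓ) ?_
      intro a b h
      exact ((hE' a b).mp h).1
    obtain ⟨D, hD⟩ : ∃ D : Finset (V × V), D = univ.filter (fun p => T₀.Adj p.1 p.2 ∧ p.1 ∈ L ∧
      p.2 ∈ L ∧ ¬ Φ'.Adj p.1 p.2) := ⟨_, rfl⟩
    have hsumD : ∑ v, (nb Γ v).card ≤ ∑ v, (nb Γs v).card + D.card := by
      rw [darts_card, darts_card]
      refine (card_le_card ?_).trans (card_union_le _ _)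
      intro p hp
      rw [mem_filter] at hp
      rw [mem_union, mem_filter, hD, mem_filter]
      have hp2 := hp.2
      rw [hΓ] at hp2
      by_cases h : Γs.Adj p.1 p.2
      · exact Or.inl ⟨mem_univ _, h⟩
      · right
        rw [hΓs, SimpleGraph.sup_adj, hE'] at h
        push Not at h
        refine ⟨mem_univ _, ?_, hp2.2.1, hp2.2.2, h.1⟩
        have h3 := h.2 hp.2
        have h4 := hp2.1
        rw [hT] at h4
        rw [hT₀]
        exact ⟨h4.1, h4.2.1, h3⟩
    -- the exceptional darts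
    have hΦ'adj : ∀ a b, Φ'.Adj a b ↔ Φ₀.Adj a b ∨ U.Adj a b := by
      intro a b
      rw [hΦ'd, SimpleGraph.sup_adj]
    have hDt : 2 * (c * D.card) ≤ t := by
      cases b with
      | zero =>
        have : D = ∅ := by
          rw [eq_empty_iff_forall_notMem]
          intro p hp
          rw [hD, mem_filter, hT₀, hN₀, Nn_zero] at hp
          have h1 := hW.hl s(p.1, p.2) hp.2.1.1
          have h2 := hp.2.1.2.2
          omega
        rw [this]
        simp
      | succ b =>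
        have hN₀1 : 1 ≤ N₀ := hN₀ ▸ Nn_pos (by omega) b
        have hS₀1 : 1 ≤ G * N₀ := Nat.mul_pos hG1 hN₀1
        obtain ⟨σ₀, hσ₀⟩ : ∃ σ₀, σ₀ = ∑ z ∈ Z₀, (nb H z).card := ⟨_, rfl⟩
        obtain ⟨β₀, hβ₀⟩ : ∃ β₀, β₀ = G * N₀ * Hi₀.card := ⟨_, rfl⟩
        have hσ₀t : Λ * σ₀ ≤ t := by
          rw [hσ₀, hZ₀, hN₀]
          exact hW.hz (b + 1) (by omega)
        have hβ₀t : Λ * β₀ ≤ t := by
          rw [hβ₀, hHi₀]
          exact hW.hub N₀ le_rfl
        obtain ⟨Da, hDa⟩ : ∃ Da : Finset (V × V), Da = univ.filter (fun p => Γ₀.Adj p.1 p.2 ∧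
          ¬ Φ₀.Adj p.1 p.2) := ⟨_, rfl⟩
        obtain ⟨Dz, hDz⟩ : ∃ Dz : Finset (V × V), Dz = univ.filter (fun p => p.1 ∈ Z₀ ∧
          H.Adj p.1 p.2) := ⟨_, rfl⟩
        obtain ⟨Dh, hDh⟩ : ∃ Dh : Finset (V × V), Dh = univ.filter (fun p => p.1 ∈ Hi₀ ∧
          p.2 ∈ Hi₀ ∧ T₀.Adj p.1 p.2) := ⟨_, rfl⟩
        obtain ⟨Dt, hDt⟩ : ∃ Dt : Finset (V × V), Dt = univ.filter (fun p => T₀.Adj p.1 p.2 ∧
          p.1 ∈ L₀ ∧ p.2 ∈ Hi₀ ∧ p.2 ∈ L ∧ ¬ tok p.1 p.2) := ⟨_, rfl⟩
        obtain ⟨D1, hD1⟩ : ∃ D1 : Finset (V × V), D1 = Dt.filter (fun p =>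
          s₁ < ∑ x ∈ cmp Γ₀ p.1, (nb H x).card) := ⟨_, rfl⟩
        obtain ⟨D2, hD2⟩ : ∃ D2 : Finset (V × V), D2 = Dt.filter (fun p =>
          ¬ s₁ < ∑ x ∈ cmp Γ₀ p.1, (nb H x).card) := ⟨_, rfl⟩
        have hcDt : D1.card + D2.card = Dt.card := by
          rw [hD1, hD2]
          exact card_filter_add_card_filter_not _
        have hcover : D.card ≤ Da.card + Dz.card + Dz.card + Dh.card + Dt.card + Dt.card := by
          have hsub : D ⊆ Da ∪ Dz ∪ Dz.image Prod.swap ∪ Dh ∪ Dt ∪ Dt.image Prod.swap := by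
            intro p hp
            rw [hD, mem_filter, hΦ'adj] at hp
            obtain ⟨-, h1, h2, h3, h4⟩ := hp
            push Not at h4
            simp only [mem_union]
            have hz2 : p.2 ∈ Z₀ → p ∈ Dz.image Prod.swap := by
              intro h
              rw [mem_image]
              refine ⟨p.swap, ?_, Prod.swap_swap p⟩
              rw [hDz, mem_filter]
              exact ⟨mem_univ _, h, (hT₀H h1).symm⟩
            have hz1 : p.1 ∈ Z₀ → p ∈ Dz := by
              intro h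
              rw [hDz, mem_filter]
              exact ⟨mem_univ _, h, hT₀H h1⟩
            have hnt : ∀ a b, (a = p.1 ∧ b = p.2) ∨ (a = p.2 ∧ b = p.1) → ¬ tok a b := by
              rintro a b (⟨rfl, rfl⟩ | ⟨rfl, rfl⟩) h
              · exact h4.2 ((hU _ _).mpr (Or.inl h))
              · exact h4.2 ((hU _ _).mpr (Or.inr h))
            rcases hcase₀ p.1 with h5 | h5 | h5
            · rcases hcase₀ p.2 with h6 | h6 | h6
              · refine Or.inl (Or.inl (Or.inl (Or.inl (Or.inl ?_))))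
                rw [hDa, mem_filter, hΓ₀]
                exact ⟨mem_univ _, ⟨h1, h5, h6⟩, h4.1⟩
              · exact Or.inl (Or.inl (Or.inl (Or.inr (hz2 h6))))
              · refine Or.inl (Or.inr ?_)
                rw [hDt, mem_filter]
                exact ⟨mem_univ _, h1, h5, h6, h3, hnt _ _ (Or.inl ⟨rfl, rfl⟩)⟩
            · exact Or.inl (Or.inl (Or.inl (Or.inl (Or.inr (hz1 h5)))))
            · rcases hcase₀ p.2 with h6 | h6 | h6
              · refine Or.inr ?_
                rw [mem_image]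
                refine ⟨p.swap, ?_, Prod.swap_swap p⟩
                rw [hDt, mem_filter]
                exact ⟨mem_univ _, h1.symm, h6, h5, h2, hnt _ _ (Or.inr ⟨rfl, rfl⟩)⟩
              · exact Or.inl (Or.inl (Or.inl (Or.inr (hz2 h6))))
              · refine Or.inl (Or.inl (Or.inr ?_))
                rw [hDh, mem_filter]
                exact ⟨mem_univ _, h5, h6, h1⟩
          refine (card_le_card hsub).trans ?_
          have a1 := card_union_le Da Dz
          have a2 := card_union_le (Da ∪ Dz) (Dz.image Prod.swap)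
          have a3 := card_union_le (Da ∪ Dz ∪ Dz.image Prod.swap) Dh
          have a4 := card_union_le (Da ∪ Dz ∪ Dz.image Prod.swap ∪ Dh) Dt
          have a5 := card_union_le (Da ∪ Dz ∪ Dz.image Prod.swap ∪ Dh ∪ Dt) (Dt.image Prod.swap)
          have a6 : (Dz.image Prod.swap).card ≤ Dz.card := card_image_le
          have a7 : (Dt.image Prod.swap).card ≤ Dt.card := card_image_le
          omega
        have b1 : 16 * (c * Da.card) ≤ t := by
          have h1 : Da.card + ∑ v, (nb Φ₀ v).card ≤ ∑ v, (nb Γ₀ v).card := by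
            rw [darts_card, darts_card, ← card_union_of_disjoint]
            · refine card_le_card fun p hp => ?_
              rw [mem_union, hDa, mem_filter, mem_filter] at hp
              rw [mem_filter]
              rcases hp with hp | hp
              · exact ⟨mem_univ _, hp.2.1⟩
              · exact ⟨mem_univ _, hΦ₀ hp.2⟩
            · rw [Finset.disjoint_left]
              intro p hp hp'
              rw [hDa, mem_filter] at hp
              rw [mem_filter] at hp'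
              exact hp.2.2 hp'.2
          have h2 := Nat.mul_le_mul_left (16 * c) h1
          have h3 : 16 * c * (Da.card + ∑ v, (nb Φ₀ v).card) = 16 * (c * Da.card) +
            16 * c * ∑ v, (nb Φ₀ v).card := by ring
          omega
        have b2 : Dz.card ≤ σ₀ := by
          rw [hσ₀, ← card_sigma]
          refine card_le_card_of_injOn (fun p => (⟨p.1, p.2⟩ : (_ : V) × V)) ?_ ?_
          · intro p hp
            rw [mem_coe, hDz, mem_filter] at hp
            simp only [mem_coe, mem_sigma]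
            exact ⟨hp.2.1, mem_nb.mpr hp.2.2⟩
          · intro p _ p' _ he
            simp only [Sigma.mk.injEq, heq_eq_eq] at he
            exact Prod.ext he.1 he.2
        have b3 : Dh.card ≤ 168 * β₀ := by
          obtain ⟨pos₀, C₀, htop₀⟩ := hW.top N₀
          rw [← hT₀] at htop₀
          rw [hDh]
          refine (samp_darts htop₀ Hi₀).trans ?_
          rw [hβ₀]
          have h8 : m * N₀ ≤ G * N₀ := Nat.mul_le_mul_right _ (by omega)
          calc 56 * (2 * (m * N₀) + 1) * Hi₀.card ≤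
              56 * (2 * (G * N₀) + G * N₀) * Hi₀.card := by gcongr
            _ = 168 * (G * N₀ * Hi₀.card) := by ring
        have b4 : 32 * c * D1.card ≤ t := by
          refine h₂ F γ G t V H len e₀ (hW.mono (by omega)) N₀ hN₀ D1 ?_
          intro p hp
          rw [hD1, hDt, mem_filter, mem_filter] at hp
          rw [← hT₀, ← hL₀, ← hHi₀, ← hΓ₀]
          exact ⟨hp.1.2.2.1, hp.1.2.2.2.1, hp.1.2.1, hp.2⟩
        have b5 : 32 * c * D2.card ≤ t := by
          refine hW.claim (b := b) (s := s₁) (N := N₀) (N' := N) (by omega) (by omega) (by omega)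
            hN₀ hN D2 ?_ ?_
          · intro p hp
            rw [hD2, hDt, mem_filter, mem_filter] at hp
            rw [← hT₀, ← hL₀, ← hΓ₀]
            exact ⟨hp.1.2.2.1, hp.1.2.1, not_lt.mp hp.2⟩
          · intro p hp
            rw [hD2, hDt, mem_filter, mem_filter] at hp
            obtain ⟨⟨-, hp1, hp2, hp3, hp4, hp5⟩, hp6⟩ := hp
            rw [htok] at hp5
            push Not at hp5
            obtain ⟨v', hv', x', hx', hvx', hne⟩ := hp5 hp2 hp3 hp4 hp1
            rw [← hT₀, ← hL₀, ← hΓ₀, ← hHi₀]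
            exact ⟨p.1, p.2, v', x', self_mem_cmp _ _, hv', hp1, hvx', hp3, hx', (hLd _).mp hp4,
              fun h => hne h.symm⟩
        have c2 : 16 * (c * (2 * σ₀)) ≤ t := by
          calc 16 * (c * (2 * σ₀)) = 32 * c * σ₀ := by ring
            _ ≤ Λ * σ₀ := Nat.mul_le_mul_right _ (by omega)
            _ ≤ t := hσ₀t
        have c3 : 16 * (c * (168 * β₀)) ≤ t := by
          calc 16 * (c * (168 * β₀)) = 2688 * c * β₀ := by ring
            _ ≤ Λ * β₀ := Nat.mul_le_mul_right _ (by omega)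
            _ ≤ t := hβ₀t
        have d1 := Nat.mul_le_mul_left c hcover
        have d2 := Nat.mul_le_mul_left c b2
        have d3 := Nat.mul_le_mul_left c b3
        have d4 : c * (Da.card + Dz.card + Dz.card + Dh.card + Dt.card + Dt.card) =
            c * Da.card + 2 * (c * Dz.card) + c * Dh.card + 2 * (c * Dt.card) := by ring
        have d5 : c * (2 * σ₀) = 2 * (c * σ₀) := by ring
        have d6 : 32 * c * D1.card = 32 * (c * D1.card) := by ring
        have d7 : 32 * c * D2.card = 32 * (c * D2.card) := by ring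
        have d8 : c * Dt.card = c * D1.card + c * D2.card := by rw [← hcDt]; ring
        rw [d4] at d1
        rw [d5] at c2
        rw [d6] at b4
        rw [d7] at b5
        omega
    -- a spanning forest
    obtain ⟨Φ, hΦle, hΦa, hΦr⟩ := Γs.exists_isAcyclic_reachable_eq_le
    refine ⟨Φ, hΦle.trans hΓsΓ, hΦa, ?_⟩
    obtain ⟨x, hx⟩ : ∃ x, ∑ v, (nb Φ v).card + x = ∑ v, (nb Γs v).card := by
      refine ⟨∑ v, (nb Γs v).card - ∑ v, (nb Φ v).card, ?_⟩
      have := sum_le_sum (s := univ) fun v _ => nb_mono hΦle v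
      omega
    have hxt : 2 * c * x ≤ t := by
      by_contra hcon
      push Not at hcon
      have hx0 : 0 < x := by
        rcases Nat.eq_zero_or_pos x with h | h
        · rw [h] at hcon
          omega
        · exact h
      obtain ⟨r, hr⟩ : ∃ r, r = 2 * (2 * c) * (Nat.log 2 t + 1) := ⟨_, rfl⟩
      have hshort : ShortC (2 * r + 1) Γs := by
        refine excess_short (Φ := Φ) (c := 2 * c) (x := x) ?_ hΦle hx0 hx.le (by omega) ?_
        · intro a b hab
          have := hab.reachable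
          rwa [← hΦr] at this
        · rw [hr]
          refine lt_of_le_of_lt ?_ (radius_fact (t := t) (by omega))
          exact Nat.mul_le_mul_left _ (by omega)
      obtain ⟨u, v, huv, hnuv, w, hwp, hw2, hwl⟩ := short_extra hΦ' hshort
      have hE : E'.Adj u v := by
        rw [hΓs, SimpleGraph.sup_adj] at huv
        exact huv.resolve_left hnuv
      rw [hE', hΓ] at hE
      obtain ⟨hE1, hE2⟩ := hE
      have hN' := hstep _ hE2
      have hwΓ : ∀ f ∈ w.edges, f ∈ T.edgeSet ∧ ∀ x ∈ f, x ∈ L := by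
        intro f hf
        have h1 := w.edges_subset_edgeSet hf
        have h2 : f ∈ Γ.edgeSet := by
          induction f using Sym2.ind with
          | _ a b => exact hΓsΓ h1
        rw [hΓ] at h2
        exact res_edge h2
      refine hW.hdir u v (hTH hE1.1) (w.mapLe (hΓsΓ.trans (by
        rw [hΓ]
        exact (res_le T L).trans hTH))) ?_ ?_ ?_ ?_
      · rw [SimpleGraph.Walk.edges_mapLe_eq_edges]
        intro h
        have := path_edge_length w hwp h
        omega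
      · rw [SimpleGraph.Walk.length_mapLe]
        refine hwl.trans ?_
        have h1 : 2 * r + 1 ≤ (8 * c + 1) * (Nat.log 2 t + 1) := by
          have h2 : (8 * c + 1) * (Nat.log 2 t + 1) = 2 * (2 * (2 * c) * (Nat.log 2 t + 1)) +
            Nat.log 2 t + 1 := by ring
          omega
        exact h1.trans (Nat.mul_le_mul_right _ (by omega))
      · intro f hf
        rw [SimpleGraph.Walk.edges_mapLe_eq_edges] at hf
        have h1 := (hwΓ f hf).1
        have h2 : len f ≤ N := by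
          rw [hT] at h1
          induction f using Sym2.ind with
          | _ a b => exact h1.2.2
        exact (h2.trans hN').trans (Nat.mul_le_mul_right _ (Nat.le_mul_of_pos_right _ hG1))
      · intro y hy hyu hyv
        rw [SimpleGraph.Walk.support_mapLe_eq_support] at hy
        have hyL : y ∈ L := by
          have h1 := (w.takeUntil y hy).reverse
          cases h1 with
          | nil => exact absurd rfl hyu
          | cons h _ =>
            have h2 := hΓsΓ h
            rw [hΓ] at h2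
            exact h2.2.1
        refine ((hLd y).mp hyL).trans ?_
        calc G * N ≤ G * (F * len s(u, v)) := Nat.mul_le_mul_left _ hN'
          _ = F * G * len s(u, v) := by ring
    have h1 := Nat.mul_le_mul_left c hsumD
    rw [← hx] at h1
    have h2 : c * (∑ v, (nb Φ v).card + x + D.card) = c * ∑ v, (nb Φ v).card + c * x +
      c * D.card := by ring
    rw [h2] at h1
    rw [mul_assoc] at hxt
    omega

end Pool.Agent.H354_OP
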