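import Pool.Agent.H354_OP.Lv5

/-!
# Levels of threads: the contradiction
-/

set_option autoImplicit false

namespace Pool.Agent.H354_OP

open Finset
open scoped Classical

set_option linter.unusedSectionVars false

theorem no_world (m J : ℕ) : ∃ Λ : ℕ, ∀ (F γ G t : ℕ) (V : Type) [Fintype V]
    (H : SimpleGraph V) (len : Sym2 V → ℕ) (e₀ : Sym2 V), Wd m J Λ F γ G t H len e₀ →
    (∀ f ∈ H.edgeSet, len f ≤ Nn F J) → (∀ x, (nb H x).card ≤ G * Nn F J) → False := by
  obtain ⟨Λ₁, h₁⟩ := F_level m J J le_rfl 12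
  refine ⟨Λ₁ + 9, ?_⟩
  intro F γ G t V _ H len e₀ hW hlen hdeg
  obtain ⟨Φ, -, hΦa, hΦc⟩ := h₁ F γ G t V H len e₀ (hW.mono (by omega)) _ rfl
  have h1 := forest_sum hΦa
  have h2 := hW.cardV
  have h3 := hW.hΛ
  have h4 : ∑ v, (nb H v).card ≤
      ∑ v, (nb (res (TN H len e₀ (Nn F J)) (Lo H (G * Nn F J))) v).card + 2 := by
    rw [darts_card, darts_card]
    have hsub : univ.filter (fun p : V × V => H.Adj p.1 p.2) ⊆
        univ.filter (fun p : V × V =>
          (res (TN H len e₀ (Nn F J)) (Lo H (G * Nn F J))).Adj p.1 p.2) ∪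
        univ.filter (fun p : V × V => s(p.1, p.2) = e₀) := by
      intro p hp
      rw [mem_filter] at hp
      rw [mem_union, mem_filter, mem_filter]
      by_cases h : s(p.1, p.2) = e₀
      · exact Or.inr ⟨mem_univ _, h⟩
      · exact Or.inl ⟨mem_univ _, ⟨hp.2, h, hlen _ hp.2⟩, mem_Lo.mpr (hdeg _), mem_Lo.mpr (hdeg _)⟩
    refine (card_le_card hsub).trans ((card_union_le _ _).trans (Nat.add_le_add_left ?_ _))
    induction e₀ using Sym2.ind with
    | _ a b =>
      refine (card_le_card ?_).trans (card_le_two (a := (a, b)) (b := (b, a)))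
      intro p hp
      rw [mem_filter, Sym2.eq_iff] at hp
      rw [mem_insert, mem_singleton]
      rcases hp.2 with h | h
      · exact Or.inl (Prod.ext h.1 h.2)
      · exact Or.inr (Prod.ext h.1 h.2)
  rw [hW.ht] at h4
  omega

end Pool.Agent.H354_OP
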