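import Pool.Agent.H354_OP.Dtp

/-!
# Dense graphs have complete minors; quotients
-/

set_option autoImplicit false

namespace Pool.Agent.H354_OP

open Finset
open scoped Classical

set_option linter.unusedSectionVars false

variable {V : Type} [Fintype V]

/-- a model of the complete graph on `t` vertices in `S` -/
def HasK (Q : SimpleGraph V) (t : ℕ) (S : Finset V) : Prop :=
  ∃ f : Fin t → Finset V, (∀ i, (f i).Nonempty ∧ Conn Q (f i) ∧ f i ⊆ S) ∧
    ∀ i j, i ≠ j → Disjoint (f i) (f j) ∧ ∃ a ∈ f i, ∃ b ∈ f j, Q.Adj a b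

theorem HasK.mono {Q : SimpleGraph V} {t : ℕ} {S S' : Finset V} (h : HasK Q t S) (hS : S ⊆ S') :
    HasK Q t S' := by
  obtain ⟨f, h1, h2⟩ := h
  exact ⟨f, fun i => ⟨(h1 i).1, (h1 i).2.1, (h1 i).2.2.trans hS⟩, h2⟩

/-- twice the number of edges in a set -/
noncomputable def dd (Q : SimpleGraph V) (A : Finset V) : ℕ :=
  ∑ v ∈ A, ((nb Q v).filter (fun y => y ∈ A)).card

theorem dd_insert (Q : SimpleGraph V) {A : Finset V} {v : V} (hv : v ∉ A) :
    dd Q (insert v A) = dd Q A + 2 * ((nb Q v).filter (fun y => y ∈ A)).card := by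
  have h1 : ∀ z, ((nb Q z).filter (fun y => y ∈ insert v A)).card =
      ((nb Q z).filter (fun y => y ∈ A)).card + ((nb Q z).filter (fun y => y ∈ ({v} : Finset V))).card := by
    intro z
    rw [← card_union_of_disjoint]
    · congr 1
      ext y
      simp only [mem_filter, mem_union, mem_insert, mem_singleton]
      tauto
    · rw [Finset.disjoint_left]
      intro y hy hy'
      rw [mem_filter] at hy hy'
      rw [mem_singleton] at hy'
      exact hv (hy'.2 ▸ hy.2)
  have h2 : ((nb Q v).filter (fun y => y ∈ ({v} : Finset V))).card = 0 := by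
    rw [card_eq_zero, eq_empty_iff_forall_notMem]
    intro y hy
    rw [mem_filter, mem_nb, mem_singleton] at hy
    exact hy.1.ne hy.2.symm
  have h3 := swap_sum Q A {v}
  rw [sum_singleton] at h3
  rw [dd, sum_insert hv, h1 v, h2, sum_congr rfl fun z _ => h1 z, sum_add_distrib, dd]
  omega

/-- the vertices outside `U` with a neighbour in `U` -/
noncomputable def bd (Q : SimpleGraph V) (S U : Finset V) : Finset V :=
  (S \ U).filter (fun v => ∃ u ∈ U, Q.Adj u v)

theorem mem_bd {Q : SimpleGraph V} {S U : Finset V} {v : V} :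
    v ∈ bd Q S U ↔ (v ∈ S ∧ v ∉ U) ∧ ∃ u ∈ U, Q.Adj u v := by
  simp [bd]

theorem conn_insert {Q : SimpleGraph V} {U : Finset V} (hU : Conn Q U) {u v : V} (hu : u ∈ U)
    (huv : Q.Adj u v) : Conn Q (insert v U) := by
  intro x hx y hy
  rw [mem_insert] at hx hy
  have hup : ∀ {a b : V} (w : Q.Walk a b), (∀ z ∈ w.support, z ∈ U) →
      ∀ z ∈ w.support, z ∈ insert v U := fun w hw z hz => mem_insert_of_mem (hw z hz)
  rcases hx with rfl | hx
  · rcases hy with rfl | hy
    · exact ⟨SimpleGraph.Walk.nil, by simp⟩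
    · obtain ⟨w, hw⟩ := hU u hu y hy
      refine ⟨SimpleGraph.Walk.cons huv.symm w, ?_⟩
      intro z hz
      rw [SimpleGraph.Walk.support_cons, List.mem_cons] at hz
      rcases hz with rfl | hz
      · exact mem_insert_self _ _
      · exact hup w hw z hz
  · rcases hy with rfl | hy
    · obtain ⟨w, hw⟩ := hU x hx u hu
      refine ⟨w.concat huv, ?_⟩
      intro z hz
      rw [SimpleGraph.Walk.support_concat, List.mem_append, List.mem_singleton] at hz
      rcases hz with hz | rfl
      · exact hup w hw z hz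
      · exact mem_insert_self _ _
    · obtain ⟨w, hw⟩ := hU x hx y hy
      exact ⟨w, hup w hw⟩

theorem mader (Q : SimpleGraph V) : ∀ (t : ℕ) (S : Finset V), S.Nonempty →
    2 ^ t * S.card ≤ dd Q S → HasK Q t S := by
  intro t
  induction t with
  | zero =>
    intro S hS _
    exact ⟨fun i => i.elim0, fun i => i.elim0, fun i => i.elim0⟩
  | succ t ih =>
    intro S
    induction hn : S.card using Nat.strong_induction_on generalizing S with
    | _ n ihn =>
    intro hS hd
    obtain ⟨P, hP⟩ : ∃ P : Finset V → Prop, ∀ U, P U ↔ U.Nonempty ∧ U ⊆ S ∧ Conn Q U ∧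
      2 ^ (t + 1) * ((S \ U).card + 1) ≤ dd Q (S \ U) + 2 * (bd Q S U).card := ⟨_, fun _ => Iff.rfl⟩
    obtain ⟨x, hx⟩ := id hS
    have hPx : P {x} := by
      rw [hP]
      refine ⟨singleton_nonempty x, singleton_subset_iff.mpr hx, conn_singleton Q x, ?_⟩
      have h1 : insert x (S \ {x}) = S := by
        ext y
        simp only [mem_insert, mem_sdiff, mem_singleton]
        constructor
        · rintro (rfl | ⟨h1, -⟩)
          · exact hx
          · exact h1
        · intro h
          by_cases h' : y = x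
          · exact Or.inl h'
          · exact Or.inr ⟨h, h'⟩
      have h2 := dd_insert Q (A := S \ {x}) (v := x) (by simp)
      rw [h1] at h2
      have h3 : (S \ {x}).card + 1 = S.card := by
        have := card_insert_of_notMem (s := S \ {x}) (a := x) (by simp)
        rw [h1] at this
        exact this.symm
      have h4 : ((nb Q x).filter (fun y => y ∈ S \ {x})).card ≤ (bd Q S {x}).card := by
        refine card_le_card fun y hy => ?_
        rw [mem_filter, mem_nb, mem_sdiff] at hy
        rw [mem_bd]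
        exact ⟨hy.2, x, mem_singleton_self x, hy.1⟩
      rw [h3, hn]
      omega
    obtain ⟨U, hU, hmax⟩ := Finset.exists_max_image (univ.filter P) Finset.card
      ⟨{x}, by rw [mem_filter]; exact ⟨mem_univ _, hPx⟩⟩
    rw [mem_filter, hP] at hU
    obtain ⟨-, hUne, hUS, hUc, hUd⟩ := hU
    rcases (bd Q S U).eq_empty_or_nonempty with h0 | hne
    · rw [h0, card_empty] at hUd
      have hpos : 0 < 2 ^ (t + 1) := by positivity
      have h1 : 0 < dd Q (S \ U) := by
        have : 0 < 2 ^ (t + 1) * ((S \ U).card + 1) := Nat.mul_pos hpos (Nat.succ_pos _)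
        omega
      have hne' : (S \ U).Nonempty := by
        rw [nonempty_iff_ne_empty]
        intro h
        rw [h, dd, sum_empty] at h1
        omega
      have hlt : (S \ U).card < n := by
        rw [← hn]
        have h2 := card_sdiff_add_card_eq_card hUS
        have h3 : 0 < U.card := card_pos.mpr hUne
        omega
      refine (ihn _ hlt (S \ U) rfl hne' ?_).mono sdiff_subset
      have : 2 ^ (t + 1) * ((S \ U).card + 1) = 2 ^ (t + 1) * (S \ U).card + 2 ^ (t + 1) := by ring
      omega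
    · have hdeg : 2 ^ t * (bd Q S U).card ≤ dd Q (bd Q S U) := by
        rw [dd, mul_comm, ← smul_eq_mul, ← sum_const]
        refine sum_le_sum fun v hv => ?_
        obtain ⟨⟨hvS, hvU⟩, u, hu, huv⟩ := mem_bd.mp hv
        have hins : insert v (S \ insert v U) = S \ U := by
          ext y
          simp only [mem_insert, mem_sdiff]
          constructor
          · rintro (rfl | ⟨h1, h2⟩)
            · exact ⟨hvS, hvU⟩
            · exact ⟨h1, fun h => h2 (Or.inr h)⟩
          · rintro ⟨h1, h2⟩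
            by_cases h : y = v
            · exact Or.inl h
            · exact Or.inr ⟨h1, fun h' => h'.elim h h2⟩
        have hnot : v ∉ S \ insert v U := by simp
        have h2 := dd_insert Q hnot
        rw [hins] at h2
        have h3 : (S \ insert v U).card + 1 = (S \ U).card := by
          have := card_insert_of_notMem hnot
          rw [hins] at this
          exact this.symm
        have h4 : ¬ P (insert v U) := by
          intro h
          have := hmax _ (by rw [mem_filter]; exact ⟨mem_univ _, h⟩)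
          rw [card_insert_of_notMem hvU] at this
          omega
        rw [hP] at h4
        have h5 : dd Q (S \ insert v U) + 2 * (bd Q S (insert v U)).card <
            2 ^ (t + 1) * ((S \ insert v U).card + 1) := by
          by_contra hcon
          push Not at hcon
          refine h4 ⟨insert_nonempty _ _, insert_subset hvS hUS, conn_insert hUc hu huv, hcon⟩
        rw [h3] at h5
        -- the new boundary
        obtain ⟨A, hA⟩ : ∃ A, A = (bd Q S U).erase v := ⟨_, rfl⟩
        obtain ⟨B, hB⟩ : ∃ B, B = (nb Q v).filter (fun y => y ∈ S \ insert v U) := ⟨_, rfl⟩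
        have hAc : A.card + 1 = (bd Q S U).card := by
          rw [hA, card_erase_add_one hv]
        have hun : (A ∪ B).card ≤ (bd Q S (insert v U)).card := by
          refine card_le_card fun y hy => ?_
          rw [mem_union, hA, hB, mem_erase, mem_bd, mem_filter, mem_nb, mem_sdiff] at hy
          rw [mem_bd]
          rcases hy with ⟨hyv, ⟨hyS, hyU⟩, z, hz, hzy⟩ | ⟨hvy, hyS, hyU⟩
          · refine ⟨⟨hyS, ?_⟩, z, mem_insert_of_mem hz, hzy⟩
            rw [mem_insert]
            exact fun h => h.elim hyv hyU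
          · exact ⟨⟨hyS, hyU⟩, v, mem_insert_self _ _, hvy⟩
        have hin : (A ∩ B).card ≤ ((nb Q v).filter (fun y => y ∈ bd Q S U)).card := by
          refine card_le_card fun y hy => ?_
          rw [mem_inter, hA, hB, mem_erase, mem_filter] at hy
          rw [mem_filter]
          exact ⟨hy.2.1, hy.1.2⟩
        have hui := card_union_add_card_inter A B
        rw [← hB] at h2
        have h6 : 2 ^ (t + 1) * ((S \ U).card + 1) = 2 ^ (t + 1) * (S \ U).card + 2 * 2 ^ t := by
          ring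
        omega
      obtain ⟨f, hf1, hf2⟩ := ih (bd Q S U) hne hdeg
      refine ⟨Fin.cons U f, ?_, ?_⟩
      · intro i
        refine Fin.cases ?_ (fun j => ?_) i
        · rw [Fin.cons_zero]
          exact ⟨hUne, hUc, hUS⟩
        · rw [Fin.cons_succ]
          exact ⟨(hf1 j).1, (hf1 j).2.1, (hf1 j).2.2.trans (fun y hy => (mem_bd.mp hy).1.1)⟩
      · have hUf : ∀ j, Disjoint U (f j) ∧ ∃ a ∈ U, ∃ b ∈ f j, Q.Adj a b := by
          intro j
          refine ⟨?_, ?_⟩
          · rw [Finset.disjoint_left]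
            intro y hy hy'
            exact (mem_bd.mp ((hf1 j).2.2 hy')).1.2 hy
          · obtain ⟨b, hb⟩ := (hf1 j).1
            obtain ⟨-, u, hu, hub⟩ := mem_bd.mp ((hf1 j).2.2 hb)
            exact ⟨u, hu, b, hb, hub⟩
        intro i j
        refine Fin.cases ?_ (fun i' => ?_) i
        · refine Fin.cases ?_ (fun j' => ?_) j
          · intro h
            exact absurd rfl h
          · intro _
            rw [Fin.cons_zero, Fin.cons_succ]
            exact hUf j'
        · refine Fin.cases ?_ (fun j' => ?_) j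
          · intro _
            rw [Fin.cons_zero, Fin.cons_succ]
            obtain ⟨h1, a, ha, b, hb, hab⟩ := hUf i'
            exact ⟨h1.symm, b, hb, a, ha, hab.symm⟩
          · intro h
            rw [Fin.cons_succ, Fin.cons_succ]
            exact hf2 i' j' fun h' => h (by rw [h'])

theorem conn_lift {Q H : SimpleGraph V} {Z : V → Finset V} {A : Finset V}
    (hZ : ∀ x ∈ A, Conn H (Z x)) (hadj : ∀ x y, Q.Adj x y → ∃ a ∈ Z x, ∃ b ∈ Z y, H.Adj a b)
    {x y : V} (w : Q.Walk x y) (hw : ∀ u ∈ w.support, u ∈ A) : ∀ a ∈ Z x, ∀ b ∈ Z y,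
    ∃ w' : H.Walk a b, ∀ u ∈ w'.support, u ∈ A.biUnion Z := by
  induction w with
  | @nil x =>
    intro a ha b hb
    have hx : x ∈ A := hw x (by simp)
    obtain ⟨w', hw'⟩ := hZ x hx a ha b hb
    exact ⟨w', fun u hu => mem_biUnion.mpr ⟨x, hx, hw' u hu⟩⟩
  | @cons x z y h w ih =>
    intro a ha b hb
    have hx : x ∈ A := hw x (by simp)
    obtain ⟨a', ha', b', hb', hab⟩ := hadj x z h
    obtain ⟨w1, hw1⟩ := hZ x hx a ha a' ha'
    obtain ⟨w2, hw2⟩ := ih (fun u hu => hw u (by simp [hu])) b' hb' b hb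
    refine ⟨w1.append (SimpleGraph.Walk.cons hab w2), ?_⟩
    intro u hu
    rw [SimpleGraph.Walk.mem_support_append_iff, SimpleGraph.Walk.support_cons,
      List.mem_cons] at hu
    rcases hu with hu | rfl | hu
    · exact mem_biUnion.mpr ⟨x, hx, hw1 u hu⟩
    · exact mem_biUnion.mpr ⟨x, hx, ha'⟩
    · exact hw2 u hu

/-- every quotient is sparse -/
def Spn (A : ℕ) (H : SimpleGraph V) : Prop :=
  ∀ (X : Finset V) (Z : V → Finset V), (∀ x ∈ X, ∀ y ∈ X, x ≠ y → Disjoint (Z x) (Z y)) →
    (∀ x ∈ X, x ∈ Z x) → (∀ x ∈ X, Conn H (Z x)) →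
    ∑ x ∈ X, (X.filter (fun y => x ≠ y ∧ ∃ a ∈ Z x, ∃ b ∈ Z y, H.Adj a b)).card ≤ A * X.card

theorem spn_of_minor {H : SimpleGraph V} {t : ℕ} (h : ¬ HasK H t univ) : Spn (2 ^ t) H := by
  intro X Z hZd hZx hZc
  by_contra hcon
  push Not at hcon
  apply h
  obtain ⟨Q, hQ⟩ : ∃ Q : SimpleGraph V, ∀ x y, Q.Adj x y ↔ x ≠ y ∧ x ∈ X ∧ y ∈ X ∧
      ∃ a ∈ Z x, ∃ b ∈ Z y, H.Adj a b := by
    refine ⟨⟨fun x y => x ≠ y ∧ x ∈ X ∧ y ∈ X ∧ ∃ a ∈ Z x, ∃ b ∈ Z y, H.Adj a b,
      ⟨fun x y h => ⟨h.1.symm, h.2.2.1, h.2.1, ?_⟩⟩, ⟨fun x h => h.1 rfl⟩⟩, fun x y => Iff.rfl⟩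
    obtain ⟨a, ha, b, hb, hab⟩ := h.2.2.2
    exact ⟨b, hb, a, ha, hab.symm⟩
  have hX : X.Nonempty := by
    rw [nonempty_iff_ne_empty]
    rintro rfl
    simp at hcon
  obtain ⟨f, hf1, hf2⟩ := mader Q t X hX (by
    rw [dd]
    refine hcon.le.trans (sum_le_sum fun x hx => card_le_card fun y hy => ?_)
    rw [mem_filter] at hy
    rw [mem_filter, mem_nb, hQ]
    exact ⟨⟨hy.2.1, hx, hy.1, hy.2.2⟩, hy.1⟩)
  refine ⟨fun i => (f i).biUnion Z, ?_, ?_⟩
  · intro i
    obtain ⟨⟨x, hx⟩, h2, h3⟩ := hf1 i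
    refine ⟨⟨x, mem_biUnion.mpr ⟨x, hx, hZx x (h3 hx)⟩⟩, ?_, subset_univ _⟩
    intro a ha b hb
    rw [mem_biUnion] at ha hb
    obtain ⟨x, hx, ha⟩ := ha
    obtain ⟨y, hy, hb⟩ := hb
    obtain ⟨w, hw⟩ := h2 x hx y hy
    exact conn_lift (fun x hx => hZc x (h3 hx)) (fun x y h => ((hQ x y).mp h).2.2.2) w hw a ha b hb
  · intro i j hij
    obtain ⟨h1, a, ha, b, hb, hab⟩ := hf2 i j hij
    refine ⟨?_, ?_⟩
    · rw [Finset.disjoint_left]
      intro u hu hu'
      rw [mem_biUnion] at hu hu'
      obtain ⟨x, hx, hu⟩ := hu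
      obtain ⟨y, hy, hu'⟩ := hu'
      have hxy : x ≠ y := by
        rintro rfl
        exact Finset.disjoint_left.mp h1 hx hy
      exact Finset.disjoint_left.mp (hZd x ((hf1 i).2.2 hx) y ((hf1 j).2.2 hy) hxy) hu hu'
    · obtain ⟨-, -, -, a', ha', b', hb', hab'⟩ := (hQ a b).mp hab
      exact ⟨a', mem_biUnion.mpr ⟨a, ha, ha'⟩, b', mem_biUnion.mpr ⟨b, hb, hb'⟩, hab'⟩

end Pool.Agent.H354_OP
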