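import Pool.Agent.H354_OP.Thread
import Pool.Agent.H354_OP.LC

/-!
# Critical graphs and light edges
-/

set_option autoImplicit false

namespace Pool.Agent.H354_OP

open Finset
open scoped Classical

theorem path_edge_length {V : Type} {G : SimpleGraph V} {u v : V} (w : G.Walk u v)
    (hw : w.IsPath) (he : s(u, v) ∈ w.edges) : w.length ≤ 1 := by
  obtain ⟨i, hi, h⟩ := mem_walk_edges w he
  have inj : ∀ i j, i ≤ w.length → j ≤ w.length → w.getVert i = w.getVert j → i = j :=
    fun i j hi hj hij => hw.getVert_injOn hi hj hij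
  have h0 : w.getVert 0 = u := by simp
  have hn : w.getVert w.length = v := by simp
  rw [Sym2.eq_iff] at h
  rcases h with ⟨h1, h2⟩ | ⟨h1, h2⟩
  · have a1 := inj 0 i (by omega) (by omega) (h0.trans h1)
    have a2 := inj w.length (i + 1) le_rfl (by omega) (hn.trans h2)
    omega
  · have a1 := inj 0 (i + 1) (by omega) (by omega) (h0.trans h1)
    omega

theorem kdraw_of_light {V : Type} [Fintype V] {G : SimpleGraph V} {m g Δ : ℕ}
    (hcrit : ∀ e ∈ G.edgeSet, KDraw m (G.deleteEdges {e})) (hL : Light g Δ G) :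
    KDraw (m + g * (Δ + 2 * m) * 4) G := by
  obtain ⟨u, v, huv, w, hw, h2, hg, hdeg⟩ := hL
  have he : s(u, v) ∈ G.edgeSet := huv
  refine redraw (P := SimpleGraph.Walk.cons huv SimpleGraph.Walk.nil) huv.ne ?_ ?_ (e := s(u, v))
    (by simp) (hcrit _ he) w ?_ hg ?_
  · rw [SimpleGraph.Walk.cons_isPath_iff]
    simp [huv.ne]
  · intro x hx hxu hxv
    simp only [SimpleGraph.Walk.support_cons, SimpleGraph.Walk.support_nil, List.mem_cons,
      List.not_mem_nil, or_false] at hx
    rcases hx with rfl | rfl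
    · exact absurd rfl hxu
    · exact absurd rfl hxv
  · rintro f hf rfl
    have := path_edge_length w hw hf
    omega
  · intro x hx hxu hxv
    exact (incid_le x).trans (by exact_mod_cast hdeg x hx hxu hxv)

theorem kdraw_of_noEdge {V : Type} [Fintype V] {G : SimpleGraph V} (h : ¬ ∃ a b, G.Adj a b)
    (m : ℕ) : KDraw m G := by
  have hno : ∀ e, e ∉ G.edgeSet := by
    intro e
    induction e using Sym2.ind with
    | _ a b => exact fun he => h ⟨a, b, he⟩
  obtain ⟨f⟩ : Nonempty (V ↪ ℂ) := ⟨(Fintype.equivFin V).toEmbedding.trans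
    (Fin.valEmbedding.trans ⟨fun n : ℕ => (n : ℂ), Nat.cast_injective⟩)⟩
  refine ⟨f, fun _ => ∅, ⟨f.injective, fun u v huv => absurd ⟨u, v, huv⟩ h,
    fun e he => absurd he (hno e)⟩, fun e he => absurd he (hno e)⟩

theorem nb_delete {V : Type} [Fintype V] (G : SimpleGraph V) (a b : V) (x : V) :
    (nb G x).card ≤ (nb (G.deleteEdges {s(a, b)}) x).card +
      (if x ∈ ({a, b} : Finset V) then 1 else 0) := by
  have hadj : ∀ y, G.Adj x y → ¬ (G.deleteEdges {s(a, b)}).Adj x y → s(x, y) = s(a, b) := by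
    intro y h1 h2
    by_contra h3
    exact h2 (by rw [SimpleGraph.deleteEdges_adj]; exact ⟨h1, by simpa using h3⟩)
  by_cases hx : x ∈ ({a, b} : Finset V)
  · rw [if_pos hx]
    have hsub : nb G x ⊆ nb (G.deleteEdges {s(a, b)}) x ∪ {if x = a then b else a} := by
      intro y hy
      rw [mem_nb] at hy
      rw [mem_union, mem_nb, mem_singleton]
      by_cases h : (G.deleteEdges {s(a, b)}).Adj x y
      · exact Or.inl h
      · right
        have h3 := hadj y hy h
        rw [Sym2.eq_iff] at h3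
        rcases h3 with ⟨rfl, rfl⟩ | ⟨rfl, rfl⟩
        · rw [if_pos rfl]
        · rw [if_neg hy.ne]
    refine (card_le_card hsub).trans ((card_union_le _ _).trans ?_)
    rw [card_singleton]
  · rw [if_neg hx, add_zero]
    refine card_le_card ?_
    intro y hy
    rw [mem_nb] at hy ⊢
    by_contra h
    have h3 := hadj y hy h
    apply hx
    rw [mem_insert, mem_singleton]
    rw [Sym2.eq_iff] at h3
    rcases h3 with ⟨rfl, -⟩ | ⟨rfl, -⟩
    · exact Or.inl rfl
    · exact Or.inr rfl

theorem nb_mono {V : Type} [Fintype V] {G H : SimpleGraph V} (h : G ≤ H) (x : V) :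
    (nb G x).card ≤ (nb H x).card := by
  refine card_le_card fun y hy => ?_
  rw [mem_nb] at hy ⊢
  exact h hy

/-- critical graphs without vertices of degree one or two -/
theorem main_deg3 (m : ℕ) : ∃ k : ℕ, ∀ (V : Type) [Fintype V] (G : SimpleGraph V),
    ¬ KDraw m G → (∀ e ∈ G.edgeSet, KDraw m (G.deleteEdges {e})) →
    (∀ v, (nb G v).card = 0 ∨ 3 ≤ (nb G v).card) → KDraw k G := by
  obtain ⟨g, Δ, hlight⟩ := light_exists m
  refine ⟨m + g * (Δ + 1 + 2 * m) * 4, ?_⟩
  intro V _ G hnot hcrit hdeg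
  by_cases hedge : ∃ a b, G.Adj a b
  swap
  · exact absurd (kdraw_of_noEdge hedge m) hnot
  obtain ⟨a, b, hab⟩ := hedge
  obtain ⟨pos, A, hd, hx⟩ := hcrit s(a, b) hab
  set H := G.deleteEdges {s(a, b)} with hH
  have hHG : H ≤ G := SimpleGraph.deleteEdges_le _
  have hnb : ∀ v, (nb G v).card ≤ (nb H v).card + (if v ∈ ({a, b} : Finset V) then 1 else 0) :=
    nb_delete G a b
  have hL : Light g Δ H := by
    refine hlight V H pos A (hd.topD hx) {a, b} (card_le_two) ?_ ?_
    · intro v
      rcases hdeg v with h | h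
      · left
        have := nb_mono hHG v
        omega
      · right
        have := hnb v
        split_ifs at this ⊢ <;> omega
    · have h3 : 3 ≤ (nb G a).card := by
        rcases hdeg a with h | h
        · exact absurd h (Finset.card_pos.mpr ⟨b, mem_nb.mpr hab⟩).ne'
        · exact h
      have h4 := hnb a
      have h5 : 0 < (nb H a).card := by
        split_ifs at h4 <;> omega
      obtain ⟨c, hc⟩ := Finset.card_pos.mp h5
      exact ⟨a, c, mem_nb.mp hc⟩
  obtain ⟨u, v, huv, w, hw, h2, hg, hdegw⟩ := hL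
  refine kdraw_of_light hcrit ⟨u, v, hHG huv, w.mapLe hHG, ?_, ?_, ?_, ?_⟩
  · exact hw.mapLe hHG
  · simpa using h2
  · simpa using hg
  · intro x hx hxu hxv
    rw [SimpleGraph.Walk.support_mapLe_eq_support] at hx
    have h1 := hdegw x hx hxu hxv
    have h3 := hnb x
    split_ifs at h3 <;> omega

end Pool.Agent.H354_OP
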