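import Pool.Agent.H354_OP.TG
import Pool.Agent.H354_OP.Pend

/-!
# Critical graphs without long paths of vertices of degree two
-/

set_option autoImplicit false

namespace Pool.Agent.H354_OP

open Finset
open scoped Classical

theorem redraw_seq {V : Type} [Fintype V] {G : SimpleGraph V} {m : ℕ}
    (hcrit : ∀ e ∈ G.edgeSet, KDraw m (G.deleteEdges {e}))
    (hdeg : ∀ v, (nb G v).card < 3 → (nb G v).card = 0 ∨ (nb G v).card = 2) {n : ℕ} {p : ℕ → V}
    (hp : PSeq G p n) (hn : 0 < n) (hinn : ∀ i, 0 < i → i < n → (nb G (p i)).card < 3)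
    (Q : G.Walk (p 0) (p n)) (hQ : ∀ f ∈ Q.edges, f ≠ s(p 0, p 1)) {g Δ : ℕ}
    (hQlen : Q.length ≤ g) (hQdeg : ∀ x ∈ Q.support, x ≠ p 0 → x ≠ p n → (nb G x).card ≤ Δ) :
    KDraw (m + g * (Δ + 2 * m) * 4) G := by
  obtain ⟨P, hP, -, hPs, hPe⟩ := hp.walk
  have hD : D2 G (fun v => 3 ≤ (nb G v).card) := d2_of_deg fun v hv => hdeg v (not_le.mp hv)
  refine redraw (e := s(p 0, p 1)) ?_ P hP ?_ ((hPe _).mpr ⟨0, hn, rfl⟩) (hcrit _ ?_) Q hQ hQlen ?_
  · intro h
    have := hp.inj 0 n (Nat.zero_le _) le_rfl h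
    omega
  · intro x hx hx0 hxn y hxy
    obtain ⟨i, hi, rfl⟩ := (hPs x).mp hx
    have hi0 : 0 < i := by
      rcases Nat.eq_zero_or_pos i with h | h
      · exact absurd (by rw [h]) hx0
      · exact h
    have hin : i < n := by
      rcases Nat.lt_or_ge i n with h | h
      · exact h
      · exact absurd (by rw [show i = n by omega]) hxn
    have a1 : G.Adj (p i) (p (i - 1)) := by
      have := hp.adj (i - 1) (by omega)
      rw [show i - 1 + 1 = i by omega] at this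
      exact this.symm
    have a2 : G.Adj (p i) (p (i + 1)) := hp.adj i hin
    have hne : p (i - 1) ≠ p (i + 1) := by
      intro h2
      have := hp.inj (i - 1) (i + 1) (by omega) (by omega) h2
      omega
    rw [hPe]
    rcases hD (p i) (not_le.mpr (hinn i hi0 hin)) _ _ _ a1 a2 hxy hne with h | h
    · refine ⟨i - 1, by omega, ?_⟩
      rw [show i - 1 + 1 = i by omega, h]
      exact Sym2.eq_swap
    · refine ⟨i, hin, ?_⟩
      rw [h]
  · exact hp.adj 0 hn
  · intro x hx hx0 hxn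
    exact (incid_le x).trans (by exact_mod_cast hQdeg x hx hx0 hxn)

theorem main_threads (m s : ℕ) : ∃ k : ℕ, ∀ (V : Type) [Fintype V] (G : SimpleGraph V),
    ¬ KDraw m G → (∀ e ∈ G.edgeSet, KDraw m (G.deleteEdges {e})) →
    (∀ n p, PSeq G p n → (∀ i ≤ n, (nb G (p i)).card = 2) → n + 1 ≤ s) → KDraw k G := by
  obtain ⟨S, hS⟩ : ∃ S, S = s + 1 := ⟨_, rfl⟩
  obtain ⟨g, Δ, hlight⟩ := light_exists (m * (S + 1))
  refine ⟨m + ((g + 1) * (S + 1)) * (Δ + 2 + 2 * m) * 4, ?_⟩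
  intro V _ G hnot hcrit hs
  by_contra hk
  obtain ⟨Br, hBr⟩ : ∃ Br : V → Prop, ∀ v, Br v ↔ 3 ≤ (nb G v).card := ⟨_, fun v => Iff.rfl⟩
  have hdeg1 : ∀ v, (nb G v).card ≠ 1 := by
    intro v hv
    obtain ⟨y, hy⟩ := Finset.card_eq_one.mp hv
    have hvy : G.Adj v y := mem_nb.mp (by rw [hy]; exact mem_singleton_self y)
    refine hnot (pendant hvy (fun z hz => ?_) (hcrit _ hvy))
    have := mem_nb.mpr hz
    rw [hy, mem_singleton] at this
    exact this
  have hdeg : ∀ v, (nb G v).card < 3 → (nb G v).card = 0 ∨ (nb G v).card = 2 := by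
    intro v hv
    have := hdeg1 v
    omega
  have hdeg' : ∀ v, ¬ Br v → (nb G v).card = 0 ∨ (nb G v).card = 2 := fun v hv =>
    hdeg v (not_le.mp ((hBr v).not.mp hv))
  have hD : D2 G Br := d2_of_deg hdeg'
  have hs₁ : ∀ n p, PSeq G p n → (∀ i ≤ n, ¬ Br (p i)) → n + 1 ≤ S := by
    intro n p hp hb
    rcases Nat.eq_zero_or_pos n with h0 | h0
    · omega
    · have := hs n p hp (fun i hi => by
        rcases hdeg' _ (hb i hi) with h | h
        · exfalso
          rcases Nat.lt_or_ge i n with h1 | h1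
          · exact absurd h (Finset.card_pos.mpr ⟨_, mem_nb.mpr (hp.adj i h1)⟩).ne'
          · have h2 := hp.adj (i - 1) (by omega)
            rw [show i - 1 + 1 = i by omega] at h2
            exact absurd h (Finset.card_pos.mpr ⟨_, mem_nb.mpr h2.symm⟩).ne'
        · exact h)
      omega
  -- redrawing is impossible
  have hred : ∀ (n : ℕ) (p : ℕ → V), PSeq G p n → 0 < n → (∀ i, 0 < i → i < n → ¬ Br (p i)) →
      ∀ Q : G.Walk (p 0) (p n), (∀ f ∈ Q.edges, f ≠ s(p 0, p 1)) →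
        Q.length ≤ (g + 1) * (S + 1) →
        (∀ x ∈ Q.support, x ≠ p 0 → x ≠ p n → (nb G x).card ≤ Δ + 2) → False := by
    intro n p hp hn hinn Q hQ hQl hQd
    exact hk (redraw_seq hcrit hdeg hp hn
      (fun i h1 h2 => not_le.mp ((hBr _).not.mp (hinn i h1 h2))) Q hQ hQl hQd)
  have hbig : 1 ≤ (g + 1) * (S + 1) := Nat.mul_pos (Nat.succ_pos _) (Nat.succ_pos _)
  have hloop : ∀ n p, PSeq G p n → 2 ≤ n → (∀ i, 0 < i → i < n → ¬ Br (p i)) →
      ¬ G.Adj (p n) (p 0) := by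
    intro n p hp h2 hb hadj
    refine hred n p hp (by omega) hb (SimpleGraph.Walk.cons hadj.symm SimpleGraph.Walk.nil) ?_
      (by simpa using hbig) ?_
    · intro f hf h
      simp only [SimpleGraph.Walk.edges_cons, SimpleGraph.Walk.edges_nil, List.mem_singleton] at hf
      rw [hf, Sym2.eq_iff] at h
      rcases h with ⟨-, h⟩ | ⟨h, -⟩
      · have := hp.inj n 1 le_rfl (by omega) h
        omega
      · have := hp.inj 0 1 (by omega) (by omega) h
        omega
    · intro x hx hx0 hxn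
      simp only [SimpleGraph.Walk.support_cons, SimpleGraph.Walk.support_nil, List.mem_cons,
        List.not_mem_nil, or_false] at hx
      rcases hx with h | h
      · exact absurd h hx0
      · exact absurd h hxn
  by_cases hedge : ∃ a b, G.Adj a b
  swap
  · exact hnot (kdraw_of_noEdge hedge m)
  by_cases hB : ∃ x, Br x
  swap
  · push Not at hB
    obtain ⟨a, b, hab⟩ := hedge
    obtain ⟨n, p, hp, p0, -⟩ := exists_thread (Br := fun v => v = a)
      (fun n p hp _ => hs₁ n p hp (fun i _ => hB _)) (fun v _ => hdeg' v (hB v)) (x := a) rfl hab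
      (fun n p hp h2 _ => hloop n p hp h2 (fun i _ _ => hB _))
    have h1 := hp.seq.inj 0 n (Nat.zero_le _) le_rfl (p0.trans hp.bn.symm)
    have h2 := hp.pos
    omega
  obtain ⟨x₀, hx₀⟩ := hB
  have hex : ∀ x a, Br x → G.Adj x a → ∃ n p, Thr G Br n p ∧ p 0 = x ∧ p 1 = a :=
    fun x a hx hxa => exists_thread hs₁ hdeg' hx hxa
      (fun n p hp h2 hb => hloop n p hp h2 (fun i h3 h4 => hb i h3 h4.le))
  have hlen : ∀ n p, Thr G Br n p → n ≤ S + 1 := fun n p hp => hp.length_le hs₁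
  have hpar : ∀ n p n' q, Thr G Br n p → Thr G Br n' q → p 0 = q 0 → p n = q n' → p 1 = q 1 := by
    intro n p n' q hp hq h0 hn
    by_contra hne
    obtain ⟨Q, -, hQl, hQs, hQe⟩ := hq.seq.walk
    refine hred n p hp.seq hp.pos hp.inn (Q.copy h0.symm hn.symm) ?_ ?_ ?_
    · intro f hf h
      rw [SimpleGraph.Walk.edges_copy, hQe] at hf
      obtain ⟨j, hj, rfl⟩ := hf
      rw [Sym2.eq_iff] at h
      rcases h with ⟨h1, h2⟩ | ⟨h1, h2⟩
      · have h3 := hq.seq.inj j 0 hj.le (Nat.zero_le _) (h1.trans h0)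
        rw [h3] at h2
        exact hne h2.symm
      · have h3 := hq.seq.inj (j + 1) 0 hj (Nat.zero_le _) (h2.trans h0)
        omega
    · rw [SimpleGraph.Walk.length_copy, hQl]
      refine (hlen n' q hq).trans ?_
      exact Nat.le_mul_of_pos_left _ (Nat.succ_pos _)
    · intro x hx hx0 hxn
      rw [SimpleGraph.Walk.support_copy, hQs] at hx
      obtain ⟨i, hi, rfl⟩ := hx
      have hb : ¬ Br (q i) := by
        intro hb
        rcases hq.ends hi hb with h | h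
        · exact hx0 (by rw [h, h0])
        · exact hxn (by rw [h, hn])
      rcases hdeg' _ hb with h | h <;> omega
  have hx₀' := (hBr _).mp hx₀
  obtain ⟨a₀, ha₀⟩ : ∃ a₀, a₀ ∈ nb G x₀ := Finset.card_pos.mp (by omega)
  rw [mem_nb] at ha₀
  obtain ⟨n₀, p₀, hp₀, hp₀0, hp₀1⟩ := hex x₀ a₀ hx₀ ha₀
  obtain ⟨pos, A, hd, hxs⟩ := hcrit s(x₀, a₀) ha₀
  obtain ⟨C, hC⟩ := TGraph.topD hD (s := S) (e := s(x₀, a₀)) (e₀ := s(x₀, p₀ n₀)) hlen (by
    rintro n p hp ⟨i, hi, h⟩
    rw [← hp₀0]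
    refine hp.edge hD hp₀ hi hp₀.pos ?_
    rw [h, hp₀0, hp₀1]) (hd.topD hxs)
  set T := TGraph G Br s(x₀, p₀ n₀) with hT
  have hTdeg' : ∀ x : {v // Br v}, (nb G x.1).card ≤ (nb T x).card + 1 := by
    intro x
    refine (TGraph.deg hex hpar ⟨x₀, hx₀⟩ ⟨p₀ n₀, hp₀.bn⟩ x).trans ?_
    refine Nat.add_le_add_left ?_ _
    split_ifs <;> omega
  have hTdeg : ∀ x : {v // Br v}, x ≠ ⟨x₀, hx₀⟩ → x ≠ ⟨p₀ n₀, hp₀.bn⟩ →
      (nb G x.1).card ≤ (nb T x).card := by
    intro x h1 h2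
    refine (TGraph.deg hex hpar ⟨x₀, hx₀⟩ ⟨p₀ n₀, hp₀.bn⟩ x).trans ?_
    rw [if_neg]
    · exact le_rfl
    · simp only [Finset.mem_insert, Finset.mem_singleton, not_or]
      exact ⟨h1, h2⟩
  have hTb : ∀ x : {v // Br v}, 3 ≤ (nb G x.1).card := fun x => (hBr _).mp x.2
  obtain ⟨u, v, huv, w, hw, h2, hg, hdegw⟩ := hlight {v // Br v} T (fun v => pos v.1) C hC
    {⟨x₀, hx₀⟩, ⟨p₀ n₀, hp₀.bn⟩} card_le_two (by
      intro x
      right
      have h1 := hTdeg' x
      have h3 := hTb x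
      refine ⟨by omega, ?_⟩
      split_ifs with h
      · omega
      · simp only [Finset.mem_insert, Finset.mem_singleton, not_or] at h
        have := hTdeg x h.1 h.2
        omega) (by
      have h1 := hTdeg' ⟨x₀, hx₀⟩
      have h3 := hTb ⟨x₀, hx₀⟩
      obtain ⟨y, hy⟩ : ∃ y, y ∈ nb T ⟨x₀, hx₀⟩ := Finset.card_pos.mp (by omega)
      exact ⟨_, y, mem_nb.mp hy⟩)
  obtain ⟨-, -, n, p, hp, hp0, hpn⟩ := id huv
  obtain ⟨Q, hQ1, hQ2, hQ3⟩ := TGraph.expand hlen w
  refine hred n p hp.seq hp.pos hp.inn (Q.copy hp0.symm hpn.symm) ?_ ?_ ?_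
  · intro f hf h
    rw [SimpleGraph.Walk.edges_copy] at hf
    obtain ⟨n', p', hp', ⟨i, hi, hfi⟩, E, hE, hEm⟩ := hQ3 f hf
    have h3 := hp'.edge hD hp hi hp.pos (by rw [← hfi, h])
    rw [hp0, hpn, ← hEm] at h3
    have h4 : E = s(u, v) := Sym2.map.injective Subtype.val_injective h3
    rw [h4] at hE
    have := path_edge_length w hw hE
    omega
  · rw [SimpleGraph.Walk.length_copy]
    exact (hQ1.trans (Nat.mul_le_mul_right _ hg)).trans (Nat.mul_le_mul_right _ (Nat.le_succ g))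
  · intro x hx hx0 hxn
    rw [SimpleGraph.Walk.support_copy] at hx
    by_cases hb : Br x
    · have h3 := hQ2 x hx hb
      have h4 := hdegw _ h3 (fun h => hx0 (by rw [hp0, ← h])) (fun h => hxn (by rw [hpn, ← h]))
      have h5 := hTdeg' ⟨x, hb⟩
      simp only at h5
      omega
    · rcases hdeg' _ hb with h | h <;> omega

end Pool.Agent.H354_OP
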