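import Pool.Agent.H354_OP.MainA
import Pool.Agent.H354_OP.Bal
import Pool.Agent.H354_OP.Girth

/-!
# Critical graphs: a logarithmic bound in terms of the length of the threads
-/

set_option autoImplicit false

namespace Pool.Agent.H354_OP

open Finset
open scoped Classical

theorem decomp_edge {V : Type} {G : SimpleGraph V} {u v : V} (w : G.Walk u v) {e : Sym2 V}
    (he : e ∈ w.edges) : ∃ (y z : V) (h : G.Adj y z) (wa : G.Walk u y) (wb : G.Walk z v),
      w = wa.append (SimpleGraph.Walk.cons h wb) ∧ e = s(y, z) := by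
  induction w with
  | nil => simp at he
  | @cons a b c hadj w ih =>
    rw [SimpleGraph.Walk.edges_cons, List.mem_cons] at he
    rcases he with rfl | he
    · exact ⟨a, b, hadj, SimpleGraph.Walk.nil, w, by simp, rfl⟩
    · obtain ⟨y, z, h, wa, wb, h1, h2⟩ := ih he
      exact ⟨y, z, h, SimpleGraph.Walk.cons hadj wa, wb, by rw [h1]; rfl, h2⟩

/-- the cycle may be opened at its heaviest edge -/
theorem heaviest {V : Type} [Fintype V] {T : SimpleGraph V} {ℓ : ℕ} (h : ShortC ℓ T)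
    (n : Sym2 V → ℕ) : ∃ u v, T.Adj u v ∧ ∃ w : T.Walk u v, w.IsPath ∧ 2 ≤ w.length ∧
      w.length ≤ ℓ ∧ ∀ E ∈ w.edges, n E ≤ n s(u, v) := by
  obtain ⟨u, v, huv, w, hw, h2, hl⟩ := h
  obtain ⟨E, hE, hmax⟩ := Finset.exists_max_image (insert s(u, v) w.edges.toFinset) n
    ⟨s(u, v), mem_insert_self _ _⟩
  rw [mem_insert, List.mem_toFinset] at hE
  rcases hE with rfl | hE
  · exact ⟨u, v, huv, w, hw, h2, hl, fun F hF => hmax F (by simp [hF])⟩
  · obtain ⟨y, z, hyz, wa, wb, hwab, rfl⟩ := decomp_edge w hE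
    have hnd := hw.support_nodup
    rw [hwab, SimpleGraph.Walk.support_append, SimpleGraph.Walk.support_cons,
      List.tail_cons] at hnd
    have hlen : w.length = wa.length + (wb.length + 1) := by
      rw [hwab, SimpleGraph.Walk.length_append, SimpleGraph.Walk.length_cons]
    refine ⟨z, y, hyz.symm, wb.append (SimpleGraph.Walk.cons huv.symm wa), ?_, ?_, ?_, ?_⟩
    · rw [SimpleGraph.Walk.isPath_def, SimpleGraph.Walk.support_append,
        SimpleGraph.Walk.support_cons, List.tail_cons]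
      exact List.nodup_append_comm.mp hnd
    · rw [SimpleGraph.Walk.length_append, SimpleGraph.Walk.length_cons]
      omega
    · rw [SimpleGraph.Walk.length_append, SimpleGraph.Walk.length_cons]
      omega
    · intro F hF
      rw [SimpleGraph.Walk.edges_append, List.mem_append, SimpleGraph.Walk.edges_cons,
        List.mem_cons] at hF
      rw [show s(z, y) = s(y, z) from Sym2.eq_swap]
      apply hmax
      rw [mem_insert, List.mem_toFinset, hwab, SimpleGraph.Walk.edges_append, List.mem_append,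
        SimpleGraph.Walk.edges_cons, List.mem_cons]
      rcases hF with hF | hF | hF
      · exact Or.inr (Or.inr (Or.inr hF))
      · left
        rw [hF]
        exact Sym2.eq_swap
      · exact Or.inr (Or.inl hF)

/-- a walk in the graph of the threads, written out, with a bound for the length -/
theorem TGraph.expand' {V : Type} {G : SimpleGraph V} {Br : V → Prop} {N : ℕ} {e₀ : Sym2 V}
    {u v : {v // Br v}} (w : (TGraph G Br e₀).Walk u v)
    (hN : ∀ a b, s(a, b) ∈ w.edges → ∃ n p, n ≤ N ∧ Thr G Br n p ∧ p 0 = a.1 ∧ p n = b.1) :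
    ∃ Q : G.Walk u.1 v.1, Q.length ≤ w.length * N ∧
      (∀ f ∈ Q.edges, ∃ n p, Thr G Br n p ∧ (∃ i < n, f = s(p i, p (i + 1))) ∧
        ∃ E ∈ w.edges, E.map Subtype.val = s(p 0, p n)) := by
  induction w with
  | @nil u => exact ⟨SimpleGraph.Walk.nil, by simp, by simp⟩
  | @cons a b c hadj w ih =>
    obtain ⟨Q, hQ1, hQ3⟩ := ih (fun a' b' h => hN a' b' (by simp [h]))
    obtain ⟨n, p, hnN, hp, h0, hn⟩ := hN a b (by simp)
    obtain ⟨P, -, hPl, hPs, hPe⟩ := hp.seq.walk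
    refine ⟨(P.copy h0 hn).append Q, ?_, ?_⟩
    · rw [SimpleGraph.Walk.length_append, SimpleGraph.Walk.length_copy, hPl,
        SimpleGraph.Walk.length_cons, add_mul, one_mul]
      omega
    · intro f hf
      rw [SimpleGraph.Walk.edges_append, List.mem_append, SimpleGraph.Walk.edges_copy] at hf
      rcases hf with hf | hf
      · obtain ⟨i, hi, h⟩ := (hPe f).mp hf
        refine ⟨n, p, hp, ⟨i, hi, h⟩, s(a, b), by simp, ?_⟩
        rw [h0, hn]
        rfl
      · obtain ⟨n', p', h1, h2, E, hE, h3⟩ := hQ3 f hf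
        exact ⟨n', p', h1, h2, E, by simp [hE], h3⟩

theorem redraw_seq_bal {V : Type} [Fintype V] {G : SimpleGraph V} {m : ℕ}
    (hcrit : ∀ e ∈ G.edgeSet, KDraw m (G.deleteEdges {e}))
    (hdeg : ∀ v, (nb G v).card < 3 → (nb G v).card = 0 ∨ (nb G v).card = 2) {n : ℕ} {p : ℕ → V}
    (hp : PSeq G p n) (hn : 0 < n) (hinn : ∀ i, 0 < i → i < n → (nb G (p i)).card < 3)
    (Q : G.Walk (p 0) (p n)) (hQ : ∀ f ∈ Q.edges, f ≠ s(p 0, p 1)) {R Δ : ℕ}
    (hQlen : Q.length ≤ R * n) (hΔ : ∀ v, (nb G v).card ≤ Δ) :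
    KDraw (R * (Δ + 2 * m) * 4 * (m + 1) + (5 * m + 8)) G := by
  obtain ⟨P, hP, hPl, hPs, hPe⟩ := hp.walk
  have hD : D2 G (fun v => 3 ≤ (nb G v).card) := d2_of_deg fun v hv => hdeg v (not_le.mp hv)
  refine redraw_bal (e := s(p 0, p 1)) ?_ P hP ?_ ((hPe _).mpr ⟨0, hn, rfl⟩) (hcrit _ ?_) Q hQ
    (fun _ => Δ) ?_ ?_
  · intro h
    have := hp.inj 0 n (Nat.zero_le _) le_rfl h
    omega
  · intro x hx hx0 hxn y hxy
    obtain ⟨i, hi, rfl⟩ := (hPs x).mp hx
    have hi0 : 0 < i := by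
      rcases Nat.eq_zero_or_pos i with h | h
      · exact absurd (by rw [h]) hx0
      · exact h
    have hin : i < n := by
      rcases Nat.lt_or_ge i n with h | h
      · exact h
      · exact absurd (by rw [show i = n by omega]) hxn
    have a1 : G.Adj (p i) (p (i - 1)) := by
      have := hp.adj (i - 1) (by omega)
      rw [show i - 1 + 1 = i by omega] at this
      exact this.symm
    have a2 : G.Adj (p i) (p (i + 1)) := hp.adj i hin
    have hne : p (i - 1) ≠ p (i + 1) := by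
      intro h2
      have := hp.inj (i - 1) (i + 1) (by omega) (by omega) h2
      omega
    rw [hPe]
    rcases hD (p i) (not_le.mpr (hinn i hi0 hin)) _ _ _ a1 a2 hxy hne with h | h
    · refine ⟨i - 1, by omega, ?_⟩
      rw [show i - 1 + 1 = i by omega, h]
      exact Sym2.eq_swap
    · refine ⟨i, hin, ?_⟩
      rw [h]
  · exact hp.adj 0 hn
  · intro i _ _ _
    exact (incid_le _).trans (by exact_mod_cast hΔ _)
  · rw [Finset.sum_const, Finset.card_range, smul_eq_mul, hPl]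
    calc Q.length * (Δ + 2 * m) * 4 ≤ (R * n) * (Δ + 2 * m) * 4 := by gcongr
      _ = R * (Δ + 2 * m) * 4 * n := by ring

theorem main_log (m s Δ r : ℕ)
    (hr : 56 * (2 * (m * (s + 1 + 1)) * (2 * (2 * r) + 1) + 1) < 2 ^ r) (V : Type) [Fintype V]
    (G : SimpleGraph V) (hnot : ¬ KDraw m G)
    (hcrit : ∀ e ∈ G.edgeSet, KDraw m (G.deleteEdges {e}))
    (hs : ∀ n p, PSeq G p n → (∀ i ≤ n, (nb G (p i)).card = 2) → n + 1 ≤ s)
    (hΔ : ∀ v, (nb G v).card ≤ Δ) :
    KDraw ((8 * r + 1) * (Δ + 2 * m) * 4 * (m + 1) + (5 * m + 8)) G := by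
  obtain ⟨S, hS⟩ : ∃ S, S = s + 1 := ⟨_, rfl⟩
  rw [← hS] at hr
  by_contra hk
  obtain ⟨Br, hBr⟩ : ∃ Br : V → Prop, ∀ v, Br v ↔ 3 ≤ (nb G v).card := ⟨_, fun v => Iff.rfl⟩
  have hdeg1 : ∀ v, (nb G v).card ≠ 1 := by
    intro v hv
    obtain ⟨y, hy⟩ := Finset.card_eq_one.mp hv
    have hvy : G.Adj v y := mem_nb.mp (by rw [hy]; exact mem_singleton_self y)
    refine hnot (pendant hvy (fun z hz => ?_) (hcrit _ hvy))
    have := mem_nb.mpr hz
    rw [hy, mem_singleton] at this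
    exact this
  have hdeg : ∀ v, (nb G v).card < 3 → (nb G v).card = 0 ∨ (nb G v).card = 2 := by
    intro v hv
    have := hdeg1 v
    omega
  have hdeg' : ∀ v, ¬ Br v → (nb G v).card = 0 ∨ (nb G v).card = 2 := fun v hv =>
    hdeg v (not_le.mp ((hBr v).not.mp hv))
  have hD : D2 G Br := d2_of_deg hdeg'
  have hs₁ : ∀ n p, PSeq G p n → (∀ i ≤ n, ¬ Br (p i)) → n + 1 ≤ S := by
    intro n p hp hb
    rcases Nat.eq_zero_or_pos n with h0 | h0
    · omega
    · have := hs n p hp (fun i hi => by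
        rcases hdeg' _ (hb i hi) with h | h
        · exfalso
          rcases Nat.lt_or_ge i n with h1 | h1
          · exact absurd h (Finset.card_pos.mpr ⟨_, mem_nb.mpr (hp.adj i h1)⟩).ne'
          · have h2 := hp.adj (i - 1) (by omega)
            rw [show i - 1 + 1 = i by omega] at h2
            exact absurd h (Finset.card_pos.mpr ⟨_, mem_nb.mpr h2.symm⟩).ne'
        · exact h)
      omega
  -- redrawing is impossible
  have hred : ∀ (n : ℕ) (p : ℕ → V), PSeq G p n → 0 < n → (∀ i, 0 < i → i < n → ¬ Br (p i)) →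
      ∀ Q : G.Walk (p 0) (p n), (∀ f ∈ Q.edges, f ≠ s(p 0, p 1)) →
        Q.length ≤ (8 * r + 1) * n → False := by
    intro n p hp hn hinn Q hQ hQl
    exact hk (redraw_seq_bal hcrit hdeg hp hn
      (fun i h1 h2 => not_le.mp ((hBr _).not.mp (hinn i h1 h2))) Q hQ hQl hΔ)
  have hloop : ∀ n p, PSeq G p n → 2 ≤ n → (∀ i, 0 < i → i < n → ¬ Br (p i)) →
      ¬ G.Adj (p n) (p 0) := by
    intro n p hp h2 hb hadj
    refine hred n p hp (by omega) hb (SimpleGraph.Walk.cons hadj.symm SimpleGraph.Walk.nil) ?_ ?_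
    · intro f hf h
      simp only [SimpleGraph.Walk.edges_cons, SimpleGraph.Walk.edges_nil, List.mem_singleton] at hf
      rw [hf, Sym2.eq_iff] at h
      rcases h with ⟨-, h⟩ | ⟨h, -⟩
      · have := hp.inj n 1 le_rfl (by omega) h
        omega
      · have := hp.inj 0 1 (by omega) (by omega) h
        omega
    · rw [SimpleGraph.Walk.length_cons, SimpleGraph.Walk.length_nil]
      exact Nat.mul_pos (Nat.succ_pos _) (by omega)
  by_cases hedge : ∃ a b, G.Adj a b
  swap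
  · exact hnot (kdraw_of_noEdge hedge m)
  by_cases hB : ∃ x, Br x
  swap
  · push Not at hB
    obtain ⟨a, b, hab⟩ := hedge
    obtain ⟨n, p, hp, p0, -⟩ := exists_thread (Br := fun v => v = a)
      (fun n p hp _ => hs₁ n p hp (fun i _ => hB _)) (fun v _ => hdeg' v (hB v)) (x := a) rfl hab
      (fun n p hp h2 _ => hloop n p hp h2 (fun i _ _ => hB _))
    have h1 := hp.seq.inj 0 n (Nat.zero_le _) le_rfl (p0.trans hp.bn.symm)
    have h2 := hp.pos
    omega
  obtain ⟨x₀, hx₀⟩ := hB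
  have hex : ∀ x a, Br x → G.Adj x a → ∃ n p, Thr G Br n p ∧ p 0 = x ∧ p 1 = a :=
    fun x a hx hxa => exists_thread hs₁ hdeg' hx hxa
      (fun n p hp h2 hb => hloop n p hp h2 (fun i h3 h4 => hb i h3 h4.le))
  have hlen : ∀ n p, Thr G Br n p → n ≤ S + 1 := fun n p hp => hp.length_le hs₁
  have hpar' : ∀ n p n' q, Thr G Br n p → Thr G Br n' q → n' ≤ n → p 0 = q 0 → p n = q n' →
      p 1 = q 1 := by
    intro n p n' q hp hq hnn h0 hn
    by_contra hne
    obtain ⟨Q, -, hQl, hQs, hQe⟩ := hq.seq.walk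
    refine hred n p hp.seq hp.pos hp.inn (Q.copy h0.symm hn.symm) ?_ ?_
    · intro f hf h
      rw [SimpleGraph.Walk.edges_copy, hQe] at hf
      obtain ⟨j, hj, rfl⟩ := hf
      rw [Sym2.eq_iff] at h
      rcases h with ⟨h1, h2⟩ | ⟨h1, h2⟩
      · have h3 := hq.seq.inj j 0 hj.le (Nat.zero_le _) (h1.trans h0)
        rw [h3] at h2
        exact hne h2.symm
      · have h3 := hq.seq.inj (j + 1) 0 hj (Nat.zero_le _) (h2.trans h0)
        omega
    · rw [SimpleGraph.Walk.length_copy, hQl]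
      exact hnn.trans (Nat.le_mul_of_pos_left _ (Nat.succ_pos _))
  have hpar : ∀ n p n' q, Thr G Br n p → Thr G Br n' q → p 0 = q 0 → p n = q n' → p 1 = q 1 := by
    intro n p n' q hp hq h0 hn
    rcases Nat.le_total n' n with h | h
    · exact hpar' n p n' q hp hq h h0 hn
    · exact (hpar' n' q n p hq hp h h0.symm hn.symm).symm
  have hx₀' := (hBr _).mp hx₀
  obtain ⟨a₀, ha₀⟩ : ∃ a₀, a₀ ∈ nb G x₀ := Finset.card_pos.mp (by omega)
  rw [mem_nb] at ha₀
  obtain ⟨n₀, p₀, hp₀, hp₀0, hp₀1⟩ := hex x₀ a₀ hx₀ ha₀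
  obtain ⟨pos, A, hd, hxs⟩ := hcrit s(x₀, a₀) ha₀
  obtain ⟨C, hC⟩ := TGraph.topD hD (s := S) (e := s(x₀, a₀)) (e₀ := s(x₀, p₀ n₀)) hlen (by
    rintro n p hp ⟨i, hi, h⟩
    rw [← hp₀0]
    refine hp.edge hD hp₀ hi hp₀.pos ?_
    rw [h, hp₀0, hp₀1]) (hd.topD hxs)
  set T := TGraph G Br s(x₀, p₀ n₀) with hT
  have hTdeg' : ∀ x : {v // Br v}, (nb G x.1).card ≤ (nb T x).card + 1 := by
    intro x
    refine (TGraph.deg hex hpar ⟨x₀, hx₀⟩ ⟨p₀ n₀, hp₀.bn⟩ x).trans ?_
    refine Nat.add_le_add_left ?_ _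
    split_ifs <;> omega
  have hTdeg : ∀ x : {v // Br v}, x ≠ ⟨x₀, hx₀⟩ → x ≠ ⟨p₀ n₀, hp₀.bn⟩ →
      (nb G x.1).card ≤ (nb T x).card := by
    intro x h1 h2
    refine (TGraph.deg hex hpar ⟨x₀, hx₀⟩ ⟨p₀ n₀, hp₀.bn⟩ x).trans ?_
    rw [if_neg]
    · exact le_rfl
    · simp only [Finset.mem_insert, Finset.mem_singleton, not_or]
      exact ⟨h1, h2⟩
  have hTb : ∀ x : {v // Br v}, 3 ≤ (nb G x.1).card := fun x => (hBr _).mp x.2
  have hshort : ShortC (8 * r + 1) T := short_cycle hC {⟨x₀, hx₀⟩, ⟨p₀ n₀, hp₀.bn⟩} card_le_two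
    (by
      intro x
      right
      have h1 := hTdeg' x
      have h3 := hTb x
      split_ifs with h
      · omega
      · simp only [Finset.mem_insert, Finset.mem_singleton, not_or] at h
        have := hTdeg x h.1 h.2
        omega) (by
      have h1 := hTdeg' ⟨x₀, hx₀⟩
      have h3 := hTb ⟨x₀, hx₀⟩
      obtain ⟨y, hy⟩ : ∃ y, y ∈ nb T ⟨x₀, hx₀⟩ := Finset.card_pos.mp (by omega)
      exact ⟨_, y, mem_nb.mp hy⟩) hr
  -- the lengths of the threads
  have hnex : ∀ E : Sym2 {v // Br v}, ∃ n, E ∈ T.edgeSet → ∃ p, Thr G Br n p ∧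
      s(p 0, p n) = E.map Subtype.val := by
    intro E
    induction E using Sym2.ind with
    | _ a b =>
      by_cases h : s(a, b) ∈ T.edgeSet
      · obtain ⟨-, -, n, p, hp, h0, hn⟩ := h
        refine ⟨n, fun _ => ⟨p, hp, ?_⟩⟩
        rw [h0, hn]
        rfl
      · exact ⟨0, fun h' => absurd h' h⟩
  choose len hlenE using hnex
  have hthr : ∀ a b : {v // Br v}, T.Adj a b → ∃ p, Thr G Br (len s(a, b)) p ∧ p 0 = a.1 ∧
      p (len s(a, b)) = b.1 := by
    intro a b hab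
    obtain ⟨p, hp, h1⟩ := hlenE s(a, b) hab
    rw [Sym2.map_mk, Sym2.eq_iff] at h1
    rcases h1 with ⟨h1, h2⟩ | ⟨h1, h2⟩
    · exact ⟨p, hp, h1, h2⟩
    · exact ⟨_, hp.rev, by simpa using h2, by simpa using h1⟩
  obtain ⟨u, v, huv, w, hw, h2, hg, hmax⟩ := heaviest hshort len
  obtain ⟨p, hp, hp0, hpn⟩ := hthr u v huv
  obtain ⟨Q, hQ1, hQ3⟩ := TGraph.expand' (N := len s(u, v)) w (by
    intro a b hab
    have hTab : T.Adj a b := w.edges_subset_edgeSet hab
    obtain ⟨p', hp', h0', hn'⟩ := hthr a b hTab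
    exact ⟨_, p', hmax _ hab, hp', h0', hn'⟩)
  refine hred _ p hp.seq hp.pos hp.inn (Q.copy hp0.symm hpn.symm) ?_ ?_
  · intro f hf h
    rw [SimpleGraph.Walk.edges_copy] at hf
    obtain ⟨n', p', hp', ⟨i, hi, hfi⟩, E, hE, hEm⟩ := hQ3 f hf
    have h3 := hp'.edge hD hp hi hp.pos (by rw [← hfi, h])
    rw [hp0, hpn, ← hEm] at h3
    have h4 : E = s(u, v) := Sym2.map.injective Subtype.val_injective h3
    rw [h4] at hE
    have := path_edge_length w hw hE
    omega
  · rw [SimpleGraph.Walk.length_copy]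
    exact hQ1.trans (Nat.mul_le_mul_right _ hg)

end Pool.Agent.H354_OP
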