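import Pool.Agent.H354_OP.TGS
import Pool.Agent.H354_OP.MainA

/-!
# Critical graphs whose average degree is bounded away from two
-/

set_option autoImplicit false

namespace Pool.Agent.H354_OP

open Finset
open scoped Classical

theorem dyadic_sum (L : ℕ) : ∀ J : ℕ, ∑ j ∈ range J, (if 2 ^ j < L then 2 ^ j else 0) + 1 ≤ 2 ^ J ∧
    ∑ j ∈ range J, (if 2 ^ j < L then 2 ^ j else 0) ≤ 2 * L := by
  intro J
  induction J with
  | zero => simp
  | succ J ih =>
    rw [Finset.sum_range_succ, pow_succ]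
    split_ifs with h
    · omega
    · omega

theorem harmonic_scale (C B : ℕ) : ∃ J : ℕ, ∀ (L : ℕ → ℕ) (n : ℕ),
    ∑ j ∈ range J, 2 ^ j * L j ≤ B * n → 0 < n → ∃ j < J, C * (2 ^ j * (j + 1)) * L j ≤ n := by
  have ht := Real.tendsto_sum_range_one_div_nat_succ_atTop
  obtain ⟨J, hJ⟩ := (ht.eventually (Filter.eventually_ge_atTop ((B : ℝ) * C + 1))).exists
  refine ⟨J, ?_⟩
  intro L n hs hn
  by_contra hcon
  push Not at hcon
  have hC : 0 < C := by
    by_contra h0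
    obtain rfl : C = 0 := by omega
    have hJ0 : 0 < J := by
      rcases Nat.eq_zero_or_pos J with h | h
      · subst h
        norm_num at hJ
      · exact h
    have := hcon 0 hJ0
    omega
  have hCr : (0 : ℝ) < C := by exact_mod_cast hC
  have hnr : (0 : ℝ) < n := by exact_mod_cast hn
  have h1 : ∑ j ∈ range J, (n : ℝ) * (1 / ((j : ℝ) + 1)) ≤ C * ∑ j ∈ range J, (2 : ℝ) ^ j * L j := by
    rw [Finset.mul_sum]
    refine Finset.sum_le_sum fun j hj => ?_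
    have h2 := hcon j (mem_range.mp hj)
    have h3 : (n : ℝ) ≤ C * (2 ^ j * (j + 1)) * L j := by exact_mod_cast h2.le
    have h4 : (0 : ℝ) < (j : ℝ) + 1 := by positivity
    rw [mul_one_div, div_le_iff₀ h4]
    linarith
  have h5 : (∑ j ∈ range J, (2 : ℝ) ^ j * L j) ≤ B * n := by exact_mod_cast hs
  rw [← Finset.mul_sum] at h1
  have h6 : (n : ℝ) * ((B : ℝ) * C + 1) ≤ n * ∑ j ∈ range J, (1 / ((j : ℝ) + 1)) :=
    mul_le_mul_of_nonneg_left hJ hnr.le
  have h7 : (C : ℝ) * ∑ j ∈ range J, (2 : ℝ) ^ j * L j ≤ C * (B * n) :=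
    mul_le_mul_of_nonneg_left h5 hCr.le
  nlinarith

theorem radius_j (m j : ℕ) :
    4 * (56 * (2 * (m * 2 ^ j) * (2 * (2 * (2 * (m + j) + 16)) + 1) + 1)) ≤
      2 ^ (2 * (m + j) + 16) := by
  obtain ⟨a, ha⟩ : ∃ a, a = m + j := ⟨_, rfl⟩
  have h2 : m < 2 ^ m := Nat.lt_two_pow_self
  have h3 : m * 2 ^ j ≤ 2 ^ a := by
    calc m * 2 ^ j ≤ 2 ^ m * 2 ^ j := Nat.mul_le_mul_right _ h2.le
      _ = 2 ^ a := by rw [← pow_add, ha]
  have h4 : a + 1 ≤ 2 ^ a := Nat.lt_two_pow_self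
  rw [← ha]
  have h5 : 2 * (2 * (2 * a + 16)) + 1 ≤ 65 * 2 ^ a := by omega
  have h7 : 2 * (m * 2 ^ j) * (2 * (2 * (2 * a + 16)) + 1) ≤ (2 * 2 ^ a) * (65 * 2 ^ a) :=
    Nat.mul_le_mul (Nat.mul_le_mul_left _ h3) h5
  have h8 : (2 : ℕ) ^ (2 * a + 16) = 65536 * (2 ^ a * 2 ^ a) := by
    rw [pow_add, two_mul, pow_add]
    norm_num
    ring
  have h9 : (2 * 2 ^ a) * (65 * 2 ^ a) = 130 * (2 ^ a * 2 ^ a) := by ring
  have h10 : 0 < 2 ^ a * 2 ^ a := by positivity
  rw [h8]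
  rw [h9] at h7
  omega

theorem weight_j (m j : ℕ) :
    32 * (56 * (2 * (m * 2 ^ j) * (2 * (2 * (2 * (m + j) + 16)) + 1) + 1) + 2) ≤
      (32 * (56 * (2 * m * (8 * m + 65) + 1) + 2)) * (2 ^ j * (j + 1)) := by
  have h1 : 2 * (2 * (2 * (m + j) + 16)) + 1 ≤ (8 * m + 65) * (j + 1) := by
    have : (8 * m + 65) * (j + 1) = 8 * (m * j) + 8 * m + 65 * j + 65 := by ring
    have h0 : 0 ≤ m * j := Nat.zero_le _
    omega
  have h2 : 2 * (m * 2 ^ j) * (2 * (2 * (2 * (m + j) + 16)) + 1) ≤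
      2 * (m * 2 ^ j) * ((8 * m + 65) * (j + 1)) := Nat.mul_le_mul_left _ h1
  have h3 : 2 * (m * 2 ^ j) * ((8 * m + 65) * (j + 1)) =
      2 * m * (8 * m + 65) * (2 ^ j * (j + 1)) := by ring
  have h4 : 1 ≤ 2 ^ j * (j + 1) := Nat.mul_pos (by positivity) (Nat.succ_pos _)
  rw [h3] at h2
  obtain ⟨P, hP⟩ : ∃ P, P = 2 ^ j * (j + 1) := ⟨_, rfl⟩
  obtain ⟨A, hA⟩ : ∃ A, A = 2 * m * (8 * m + 65) := ⟨_, rfl⟩
  rw [← hP, ← hA] at h2 ⊢
  rw [← hP] at h4
  have h5 : 32 * (56 * (A + 1) + 2) * P = 1792 * (A * P) + 1856 * P := by ring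
  rw [h5]
  omega


theorem TGS.nb_le {V : Type} [Fintype V] {G : SimpleGraph V} {Br : V → Prop} (hD : D2 G Br)
    {N : ℕ} {e₀ : Sym2 V} (x : {v // Br v}) :
    (nb (TGS G Br N e₀) x).card ≤ (nb G x.1).card := by
  have hch : ∀ y, ∃ a, y ∈ nb (TGS G Br N e₀) x → G.Adj x.1 a ∧
      ∃ n p, Thr G Br n p ∧ p 0 = x.1 ∧ p n = y.1 ∧ p 1 = a := by
    intro y
    by_cases h : y ∈ nb (TGS G Br N e₀) x
    · rw [mem_nb] at h
      obtain ⟨-, -, n, p, hp, -, h0, hn⟩ := h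
      refine ⟨p 1, fun _ => ⟨?_, n, p, hp, h0, hn, rfl⟩⟩
      rw [← h0]
      exact hp.seq.adj 0 hp.pos
    · exact ⟨x.1, fun h' => absurd h' h⟩
  choose f hf using hch
  refine Finset.card_le_card_of_injOn f ?_ ?_
  · intro y hy
    rw [Finset.mem_coe, mem_nb]
    exact (hf y hy).1
  · intro y hy z hz hyz
    obtain ⟨-, n, p, hp, h0, hn, h1⟩ := hf y hy
    obtain ⟨-, n', q, hq, h0', hn', h1'⟩ := hf z hz
    have := (hp.dart hD hq (i := 0) (j := 0) hp.pos hq.pos (h0.trans h0'.symm)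
      (by rw [Nat.zero_add, h1, h1', hyz])).2
    exact Subtype.ext (by rw [← hn, ← hn', this])

theorem main_avg (m q : ℕ) : ∃ k : ℕ, ∀ (V : Type) [Fintype V] (G : SimpleGraph V),
    ¬ KDraw m G → (∀ e ∈ G.edgeSet, KDraw m (G.deleteEdges {e})) →
    2 * (q + 1) * (univ.filter (fun v => (nb G v).card ≠ 0)).card ≤ q * ∑ v, (nb G v).card →
    KDraw k G := by
  obtain ⟨N0, hN0⟩ : ∃ N0, N0 = 2 * (q + 1) := ⟨_, rfl⟩
  obtain ⟨D1, hD1⟩ : ∃ D1, D1 = 56 * (2 * (m * N0) * (2 * 0 + 1) + 1) := ⟨_, rfl⟩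
  obtain ⟨D, hDdef⟩ : ∃ D, D = 2 * D1 + 4 := ⟨_, rfl⟩
  obtain ⟨Cm, hCm⟩ : ∃ Cm, Cm = 32 * (56 * (2 * m * (8 * m + 65) + 1) + 2) := ⟨_, rfl⟩
  obtain ⟨J, hJ⟩ := harmonic_scale Cm (2 * (q + 1) * D)
  have hlight := fun j : ℕ => light_existsD (m * 2 ^ j) D (2 * (m + j) + 16) _ (by omega) rfl
    (radius_j m j)
  choose g Δ hlight using hlight
  obtain ⟨Lm, hLm⟩ : ∃ Lm, Lm = ∑ j ∈ range J, (g j + 1) * 2 ^ j + N0 + 1 := ⟨_, rfl⟩
  obtain ⟨Dm, hDm⟩ : ∃ Dm, Dm = ∑ j ∈ range J, Δ j := ⟨_, rfl⟩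
  have hLj : ∀ j < J, (g j + 1) * 2 ^ j ≤ Lm := by
    intro j hj
    have := Finset.single_le_sum (f := fun j => (g j + 1) * 2 ^ j)
      (fun _ _ => Nat.zero_le _) (mem_range.mpr hj)
    omega
  have hDj : ∀ j < J, Δ j ≤ Dm := by
    intro j hj
    have := Finset.single_le_sum (f := fun j => Δ j) (fun _ _ => Nat.zero_le _) (mem_range.mpr hj)
    omega
  refine ⟨m + Lm * (Dm + 2 + 2 * m) * 4, ?_⟩
  intro V _ G hnot hcrit havg
  by_contra hk
  obtain ⟨Br, hBr⟩ : ∃ Br : V → Prop, ∀ v, Br v ↔ 3 ≤ (nb G v).card := ⟨_, fun v => Iff.rfl⟩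
  have hdeg1 : ∀ v, (nb G v).card ≠ 1 := by
    intro v hv
    obtain ⟨y, hy⟩ := Finset.card_eq_one.mp hv
    have hvy : G.Adj v y := mem_nb.mp (by rw [hy]; exact mem_singleton_self y)
    refine hnot (pendant hvy (fun z hz => ?_) (hcrit _ hvy))
    have := mem_nb.mpr hz
    rw [hy, mem_singleton] at this
    exact this
  have hdeg : ∀ v, (nb G v).card < 3 → (nb G v).card = 0 ∨ (nb G v).card = 2 := by
    intro v hv
    have := hdeg1 v
    omega
  have hdeg' : ∀ v, ¬ Br v → (nb G v).card = 0 ∨ (nb G v).card = 2 := fun v hv =>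
    hdeg v (not_le.mp ((hBr v).not.mp hv))
  have hD : D2 G Br := d2_of_deg hdeg'
  have hs₁ : ∀ n p, PSeq G p n → (∀ i ≤ n, ¬ Br (p i)) → n + 1 ≤ Fintype.card V := by
    intro n p hp _
    have := Fintype.card_le_of_injective (fun i : Fin (n + 1) => p i) (fun i j hij =>
      Fin.ext (hp.inj i j (by omega) (by omega) hij))
    simpa using this
  -- redrawing is impossible
  have hred : ∀ (n : ℕ) (p : ℕ → V), PSeq G p n → 0 < n → (∀ i, 0 < i → i < n → ¬ Br (p i)) →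
      ∀ Q : G.Walk (p 0) (p n), (∀ f ∈ Q.edges, f ≠ s(p 0, p 1)) →
        Q.length ≤ Lm →
        (∀ x ∈ Q.support, x ≠ p 0 → x ≠ p n → (nb G x).card ≤ Dm + 2) → False := by
    intro n p hp hn hinn Q hQ hQl hQd
    exact hk (redraw_seq hcrit hdeg hp hn
      (fun i h1 h2 => not_le.mp ((hBr _).not.mp (hinn i h1 h2))) Q hQ hQl hQd)
  have hloop : ∀ n p, PSeq G p n → 2 ≤ n → (∀ i, 0 < i → i < n → ¬ Br (p i)) →
      ¬ G.Adj (p n) (p 0) := by
    intro n p hp h2 hb hadj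
    refine hred n p hp (by omega) hb (SimpleGraph.Walk.cons hadj.symm SimpleGraph.Walk.nil) ?_
      (by simp only [SimpleGraph.Walk.length_cons, SimpleGraph.Walk.length_nil]; omega) ?_
    · intro f hf h
      simp only [SimpleGraph.Walk.edges_cons, SimpleGraph.Walk.edges_nil, List.mem_singleton] at hf
      rw [hf, Sym2.eq_iff] at h
      rcases h with ⟨-, h⟩ | ⟨h, -⟩
      · have := hp.inj n 1 le_rfl (by omega) h
        omega
      · have := hp.inj 0 1 (by omega) (by omega) h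
        omega
    · intro x hx hx0 hxn
      simp only [SimpleGraph.Walk.support_cons, SimpleGraph.Walk.support_nil, List.mem_cons,
        List.not_mem_nil, or_false] at hx
      rcases hx with h | h
      · exact absurd h hx0
      · exact absurd h hxn
  by_cases hedge : ∃ a b, G.Adj a b
  swap
  · exact hnot (kdraw_of_noEdge hedge m)
  by_cases hB : ∃ x, Br x
  swap
  · push Not at hB
    obtain ⟨a, b, hab⟩ := hedge
    obtain ⟨n, p, hp, p0, -⟩ := exists_thread (Br := fun v => v = a)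
      (fun n p hp _ => hs₁ n p hp (fun i _ => hB _)) (fun v _ => hdeg' v (hB v)) (x := a) rfl hab
      (fun n p hp h2 _ => hloop n p hp h2 (fun i _ _ => hB _))
    have h1 := hp.seq.inj 0 n (Nat.zero_le _) le_rfl (p0.trans hp.bn.symm)
    have h2 := hp.pos
    omega
  obtain ⟨x₀, hx₀⟩ := hB
  have hch : ∀ x a, ∃ n p, Br x → G.Adj x a → Thr G Br n p ∧ p 0 = x ∧ p 1 = a := by
    intro x a
    by_cases h : Br x ∧ G.Adj x a
    · obtain ⟨n, p, hp⟩ := exists_thread hs₁ hdeg' h.1 h.2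
        (fun n p hp h2 hb => hloop n p hp h2 (fun i h3 h4 => hb i h3 h4.le))
      exact ⟨n, p, fun _ _ => hp⟩
    · exact ⟨0, fun _ => x, fun h1 h2 => absurd ⟨h1, h2⟩ h⟩
  choose n p hp using hch
  have hpar : ∀ N ≤ Lm, ∀ n p n' q, Thr G Br n p → Thr G Br n' q → n' ≤ N → p 0 = q 0 →
      p n = q n' → p 1 = q 1 := by
    intro N hN n p n' q hp hq hn' h0 hn
    by_contra hne
    obtain ⟨Q, -, hQl, hQs, hQe⟩ := hq.seq.walk
    refine hred n p hp.seq hp.pos hp.inn (Q.copy h0.symm hn.symm) ?_ ?_ ?_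
    · intro f hf h
      rw [SimpleGraph.Walk.edges_copy, hQe] at hf
      obtain ⟨j, hj, rfl⟩ := hf
      rw [Sym2.eq_iff] at h
      rcases h with ⟨h1, h2⟩ | ⟨h1, h2⟩
      · have h3 := hq.seq.inj j 0 hj.le (Nat.zero_le _) (h1.trans h0)
        rw [h3] at h2
        exact hne h2.symm
      · have h3 := hq.seq.inj (j + 1) 0 hj (Nat.zero_le _) (h2.trans h0)
        omega
    · rw [SimpleGraph.Walk.length_copy, hQl]
      exact hn'.trans hN
    · intro x hx hx0 hxn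
      rw [SimpleGraph.Walk.support_copy, hQs] at hx
      obtain ⟨i, hi, rfl⟩ := hx
      have hb : ¬ Br (q i) := by
        intro hb
        rcases hq.ends hi hb with h | h
        · exact hx0 (by rw [h, h0])
        · exact hxn (by rw [h, hn])
      rcases hdeg' _ hb with h | h <;> omega
  have hx₀' := (hBr _).mp hx₀
  obtain ⟨a₀, ha₀⟩ : ∃ a₀, a₀ ∈ nb G x₀ := Finset.card_pos.mp (by omega)
  rw [mem_nb] at ha₀
  obtain ⟨hp₀, hp₀0, hp₀1⟩ := hp x₀ a₀ hx₀ ha₀
  set p₀ := p x₀ a₀ with hp₀def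
  set n₀ := n x₀ a₀ with hn₀def
  obtain ⟨pos, A, hd, hxs⟩ := hcrit s(x₀, a₀) ha₀
  obtain ⟨T, hT⟩ : ∃ T : ℕ → SimpleGraph {v // Br v}, ∀ N, T N = TGS G Br N s(x₀, p₀ n₀) :=
    ⟨_, fun N => rfl⟩
  have htop : ∀ N, ∃ C, TopD (m * N) (T N) (fun v => pos v.1) C := by
    intro N
    rw [hT]
    refine TGS.topD hD (e := s(x₀, a₀)) (e₀ := s(x₀, p₀ n₀)) ?_ (hd.topD hxs)
    rintro n p hp ⟨i, hi, h⟩
    rw [← hp₀0]
    refine hp.edge hD hp₀ hi hp₀.pos ?_
    rw [h, hp₀0, hp₀1]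
  set y₀ : {v // Br v} := ⟨p₀ n₀, hp₀.bn⟩ with hy₀
  set z₀ : {v // Br v} := ⟨x₀, hx₀⟩ with hz₀
  have hTb : ∀ x : {v // Br v}, 3 ≤ (nb G x.1).card := fun x => (hBr _).mp x.2
  have hTdeg : ∀ N ≤ Lm, ∀ x : {v // Br v}, (nb G x.1).card ≤ (nb (T N) x).card +
      (((nb G x.1).filter (fun a => N < n x.1 a)).card +
      (if x ∈ ({z₀, y₀} : Finset {v // Br v}) then 1 else 0)) := by
    intro N hN x
    rw [hT]
    exact TGS.deg (fun x a => hp x a) (hpar N hN) z₀ y₀ x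
  have hite : ∑ x : {v // Br v}, (if x ∈ ({z₀, y₀} : Finset {v // Br v}) then 1 else 0) ≤ 2 := by
    rw [← Finset.card_filter]
    refine (card_le_card ?_).trans (card_le_two (a := z₀) (b := y₀))
    intro x hx
    rw [mem_filter] at hx
    exact hx.2
  -- the sums
  obtain ⟨t, ht⟩ : ∃ t, t = ∑ x : {v // Br v}, (nb G x.1).card := ⟨_, rfl⟩
  obtain ⟨S, hS⟩ : ∃ S, S = ∑ x : {v // Br v}, ∑ a ∈ nb G x.1, n x.1 a := ⟨_, rfl⟩
  obtain ⟨nH, hnH⟩ : ∃ nH, nH = Fintype.card {v // Br v} := ⟨_, rfl⟩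
  have hnHpos : 0 < nH := by
    rw [hnH]
    exact Fintype.card_pos_iff.mpr ⟨z₀⟩
  have hsub : ∀ f : V → ℕ, ∑ x ∈ univ.filter Br, f x = ∑ x : {v // Br v}, f x.1 := by
    intro f
    exact Finset.sum_subtype _ (fun x => by simp) f
  have hSle : S ≤ ∑ v, (nb G v).card := by
    have := darts_sum hD (fun x a => hp x a)
    rw [hsub (fun x => ∑ a ∈ nb G x, n x a)] at this
    rw [hS]
    exact this
  obtain ⟨n₂, hn₂⟩ : ∃ n₂, n₂ = (univ.filter (fun v => ¬ Br v ∧ (nb G v).card ≠ 0)).card :=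
    ⟨_, rfl⟩
  have hall : ∑ v, (nb G v).card = t + 2 * n₂ := by
    rw [← Finset.sum_filter_add_sum_filter_not univ Br, hsub (fun x => (nb G x).card), ← ht]
    congr 1
    have h1 : ∀ v ∈ univ.filter (fun v => ¬ Br v), (nb G v).card =
        if (nb G v).card ≠ 0 then 2 else 0 := by
      intro v hv
      rw [mem_filter] at hv
      rcases hdeg' v hv.2 with h | h <;> simp [h]
    rw [Finset.sum_congr rfl h1, Finset.sum_ite, Finset.sum_const_zero, add_zero, Finset.sum_const,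
      smul_eq_mul, Finset.filter_filter, hn₂, mul_comm]
  have hn₂le : n₂ ≤ (univ.filter (fun v => (nb G v).card ≠ 0)).card := by
    rw [hn₂]
    refine card_le_card fun v hv => ?_
    rw [mem_filter] at hv ⊢
    exact ⟨hv.1, hv.2.2⟩
  have h2n₂ : 2 * n₂ ≤ q * t := by
    have h1 := (Nat.mul_le_mul_left (2 * (q + 1)) hn₂le).trans havg
    rw [hall] at h1
    have h2 : 2 * (q + 1) * n₂ = 2 * (q * n₂) + 2 * n₂ := by ring
    have h3 : q * (t + 2 * n₂) = q * t + 2 * (q * n₂) := by ring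
    omega
  have hSt : S ≤ (q + 1) * t := by
    have h3 : (q + 1) * t = q * t + t := by ring
    omega
  obtain ⟨long, hlong⟩ : ∃ long : ℕ → ℕ, ∀ N, long N = ∑ x : {v // Br v},
      ((nb G x.1).filter (fun a => N < n x.1 a)).card := ⟨_, fun N => rfl⟩
  have hlong0 : 2 * long N0 ≤ t := by
    have h1 : N0 * long N0 ≤ S := by
      rw [hlong, hS, Finset.mul_sum]
      refine Finset.sum_le_sum fun x _ => ?_
      rw [Finset.card_filter, Finset.mul_sum]
      refine Finset.sum_le_sum fun a _ => ?_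
      split_ifs <;> omega
    have h2 : (q + 1) * (2 * long N0) ≤ (q + 1) * t := by
      have h3 : (q + 1) * (2 * long N0) = N0 * long N0 := by rw [hN0]; ring
      omega
    exact Nat.le_of_mul_le_mul_left h2 (Nat.succ_pos q)
  have htD : t ≤ D * nH := by
    obtain ⟨C, hC⟩ := htop N0
    have h := samp' hC univ (fun v => {v})
      (fun x _ y _ hxy => Finset.disjoint_singleton.mpr hxy)
      (fun x _ => mem_singleton_self x) 0 (by
        intro x _ v hv
        rw [mem_singleton] at hv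
        subst hv
        exact ⟨SimpleGraph.Walk.nil, by simp, by simp⟩)
    rw [← hD1, Finset.card_univ, ← hnH] at h
    have h1 : ∑ x : {v // Br v}, (nb (T N0) x).card ≤ D1 * nH := by
      refine le_trans (Finset.sum_le_sum fun v _ => ?_) h
      refine card_le_card ?_
      intro y hy
      rw [mem_nb] at hy
      simp only [mem_filter, mem_univ, true_and]
      exact ⟨hy.ne, v, mem_singleton_self v, y, mem_singleton_self y, hy⟩
    have h2 : t ≤ ∑ x : {v // Br v}, (nb (T N0) x).card + (long N0 + 2) := by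
      rw [ht]
      refine (Finset.sum_le_sum fun x _ => hTdeg N0 (by omega) x).trans ?_
      rw [Finset.sum_add_distrib, Finset.sum_add_distrib, ← hlong]
      omega
    have h3 : D * nH = 2 * (D1 * nH) + 4 * nH := by rw [hDdef]; ring
    omega
  have hharm : ∑ j ∈ range J, 2 ^ j * long (2 ^ j) ≤ 2 * (q + 1) * D * nH := by
    have h1 : ∑ j ∈ range J, 2 ^ j * long (2 ^ j) = ∑ x : {v // Br v}, ∑ a ∈ nb G x.1,
        ∑ j ∈ range J, (if 2 ^ j < n x.1 a then 2 ^ j else 0) := by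
      have h2 : ∀ j, 2 ^ j * long (2 ^ j) = ∑ x : {v // Br v}, ∑ a ∈ nb G x.1,
          (if 2 ^ j < n x.1 a then 2 ^ j else 0) := by
        intro j
        rw [hlong, Finset.mul_sum]
        refine Finset.sum_congr rfl fun x _ => ?_
        rw [Finset.card_filter, Finset.mul_sum]
        refine Finset.sum_congr rfl fun a _ => ?_
        split_ifs <;> simp
      rw [Finset.sum_congr rfl fun j _ => h2 j, Finset.sum_comm]
      refine Finset.sum_congr rfl fun x _ => ?_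
      rw [Finset.sum_comm]
    have h3 : ∑ j ∈ range J, 2 ^ j * long (2 ^ j) ≤ 2 * S := by
      rw [h1, hS, Finset.mul_sum]
      refine Finset.sum_le_sum fun x _ => ?_
      rw [Finset.mul_sum]
      exact Finset.sum_le_sum fun a _ => (dyadic_sum (n x.1 a) J).2
    calc ∑ j ∈ range J, 2 ^ j * long (2 ^ j) ≤ 2 * S := h3
      _ ≤ 2 * ((q + 1) * t) := Nat.mul_le_mul_left _ hSt
      _ ≤ 2 * ((q + 1) * (D * nH)) := Nat.mul_le_mul_left _ (Nat.mul_le_mul_left _ htD)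
      _ = 2 * (q + 1) * D * nH := by ring
  obtain ⟨j, hjJ, hj⟩ := hJ (fun j => long (2 ^ j)) nH hharm hnHpos
  have hjL : 2 ^ j ≤ Lm := by
    refine le_trans ?_ (hLj j hjJ)
    exact Nat.le_mul_of_pos_left _ (Nat.succ_pos _)
  obtain ⟨C, hC⟩ := htop (2 ^ j)
  obtain ⟨u, v, huv, w, hw, h2, hg, hdegw⟩ := hlight j {v // Br v} (T (2 ^ j)) _ C hC
    (fun x => (nb G x.1).card)
    (fun x => ((nb G x.1).filter (fun a => 2 ^ j < n x.1 a)).card +
      (if x ∈ ({z₀, y₀} : Finset {v // Br v}) then 1 else 0))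
    (fun x => by rw [hT]; exact TGS.nb_le hD x) hTb
    (fun x => (hTb x).trans (hTdeg _ hjL x)) (by rw [← ht, ← hnH]; exact htD) (by
      rw [Finset.sum_add_distrib, ← hlong, ← hnH]
      obtain ⟨I, hI⟩ : ∃ I, I = ∑ x : {v // Br v},
        (if x ∈ ({z₀, y₀} : Finset {v // Br v}) then 1 else 0) := ⟨_, rfl⟩
      rw [← hI] at hite ⊢
      have h3 := weight_j m j
      rw [← hCm] at h3
      have h4 := (Nat.mul_le_mul_right (long (2 ^ j)) h3).trans hj
      rw [mul_add]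
      refine add_le_add h4 ?_
      refine (Nat.mul_le_mul_left _ hite).trans (le_of_eq ?_)
      ring) ⟨z₀⟩
  have huv' := huv
  rw [hT] at huv'
  obtain ⟨-, -, n', p', hp', -, hp'0, hp'n⟩ := huv'
  obtain ⟨Q, hQ1, hQ2, hQ3⟩ := TGS.expand (w.copy rfl rfl |>.mapLe (le_of_eq (hT (2 ^ j))))
  refine hred n' p' hp'.seq hp'.pos hp'.inn (Q.copy hp'0.symm hp'n.symm) ?_ ?_ ?_
  · intro f hf h
    rw [SimpleGraph.Walk.edges_copy] at hf
    obtain ⟨n'', p'', hp'', ⟨i, hi, hfi⟩, E, hE, hEm⟩ := hQ3 f hf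
    have h3 := hp''.edge hD hp' hi hp'.pos (by rw [← hfi, h])
    rw [hp'0, hp'n, ← hEm] at h3
    have h4 : E = s(u, v) := Sym2.map.injective Subtype.val_injective h3
    rw [h4] at hE
    have := path_edge_length w hw (by simpa using hE)
    omega
  · rw [SimpleGraph.Walk.length_copy]
    refine hQ1.trans ?_
    have h3 : (SimpleGraph.Walk.mapLe (le_of_eq (hT (2 ^ j))) (w.copy rfl rfl)).length ≤ g j := by
      simpa using hg
    exact (Nat.mul_le_mul_right _ (h3.trans (Nat.le_succ _))).trans (hLj j hjJ)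
  · intro x hx hx0 hxn
    rw [SimpleGraph.Walk.support_copy] at hx
    by_cases hb : Br x
    · have h3 := hQ2 x hx hb
      rw [SimpleGraph.Walk.support_mapLe_eq_support] at h3
      have h4 := hdegw _ (by simpa using h3) (fun h => hx0 (by rw [hp'0, ← h]))
        (fun h => hxn (by rw [hp'n, ← h]))
      simp only at h4
      have := hDj j hjJ
      omega
    · rcases hdeg' _ hb with h | h <;> omega

end Pool.Agent.H354_OP
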