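import Pool.Agent.H354_OP.Wor2

/-!
# Critical graphs have drawings with few crossings per edge, up to a small power of the order
-/

set_option autoImplicit false

namespace Pool.Agent.H354_OP

open Finset
open scoped Classical

set_option linter.unusedSectionVars false

/-- choosing the threshold for the hubs -/
theorem choose_zone {V : Type} [Fintype V] (H : SimpleGraph V) (Λ γ g₀ J : ℕ) (hΛ : 0 < Λ)
    (hγ : 1 ≤ γ) (N : ℕ → ℕ) :
    ∃ j < Λ * (J + 1), ∀ b ≤ J,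
      Λ * ∑ x ∈ Zo H (γ ^ j * g₀ * N b) γ, (nb H x).card ≤ ∑ x, (nb H x).card := by
  obtain ⟨t, ht⟩ : ∃ t, t = ∑ x, (nb H x).card := ⟨_, rfl⟩
  obtain ⟨P, hP⟩ : ∃ P, P = Λ * (J + 1) := ⟨_, rfl⟩
  have hPpos : 0 < P := by rw [hP]; positivity
  obtain ⟨z, hz⟩ : ∃ z : ℕ → ℕ → ℕ, ∀ j b, z j b =
      ∑ x ∈ Zo H (γ ^ j * g₀ * N b) γ, (nb H x).card := ⟨_, fun j b => rfl⟩
  have h1 : ∀ b, ∑ j ∈ range P, z j b ≤ t := by
    intro b
    have h2 : ∀ j, z j b = ∑ x, if x ∈ Zo H (γ ^ j * g₀ * N b) γ then (nb H x).card else 0 := by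
      intro j
      rw [hz, ← sum_filter]
      congr 1
      ext x
      simp
    rw [sum_congr rfl fun j _ => h2 j, sum_comm, ht]
    refine sum_le_sum fun x _ => ?_
    rw [← sum_filter, sum_const, smul_eq_mul]
    have h3 : ((range P).filter (fun j => x ∈ Zo H (γ ^ j * g₀ * N b) γ)).card ≤ 1 := by
      rw [card_le_one]
      have key : ∀ j j', j < j' → x ∈ Zo H (γ ^ j * g₀ * N b) γ →
          x ∈ Zo H (γ ^ j' * g₀ * N b) γ → False := by
        intro j j' hjj h4 h5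
        rw [mem_Zo] at h4 h5
        have h6 : γ * (γ ^ j * g₀ * N b) ≤ γ ^ j' * g₀ * N b := by
          calc γ * (γ ^ j * g₀ * N b) = γ ^ (j + 1) * (g₀ * N b) := by ring
            _ ≤ γ ^ j' * (g₀ * N b) := Nat.mul_le_mul_right _ (Nat.pow_le_pow_right hγ hjj)
            _ = γ ^ j' * g₀ * N b := by ring
        omega
      intro j hj j' hj'
      rw [mem_filter] at hj hj'
      rcases lt_trichotomy j j' with h | h | h
      · exact (key j j' h hj.2 hj'.2).elim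
      · exact h
      · exact (key j' j h hj'.2 hj.2).elim
    calc _ ≤ 1 * (nb H x).card := Nat.mul_le_mul_right _ h3
      _ = (nb H x).card := one_mul _
  by_contra hcon
  push Not at hcon
  have h2 : ∀ j ∈ range P, t + 1 ≤ Λ * ∑ b ∈ range (J + 1), z j b := by
    intro j hj
    rw [mem_range, hP] at hj
    obtain ⟨b, hb, h3⟩ := hcon j hj
    rw [← hz, ← ht] at h3
    have h4 := single_le_sum (f := fun b => z j b) (fun _ _ => Nat.zero_le _)
      (mem_range.mpr (Nat.lt_succ_of_le hb))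
    exact h3.trans_le (Nat.mul_le_mul_left _ h4)
  have h3 := sum_le_sum h2
  rw [sum_const, card_range, smul_eq_mul, ← mul_sum, sum_comm] at h3
  have h4 : ∑ b ∈ range (J + 1), ∑ j ∈ range P, z j b ≤ (J + 1) * t := by
    refine (sum_le_sum fun b _ => h1 b).trans ?_
    rw [sum_const, card_range, smul_eq_mul]
  have h5 := Nat.mul_le_mul_left Λ h4
  have h6 : Λ * ((J + 1) * t) = P * t := by rw [hP]; ring
  have h7 : P * (t + 1) = P * t + P := by ring
  omega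

theorem exists_cycle {V : Type} [Fintype V] {H : SimpleGraph V} (hd : ∀ x, 3 ≤ (nb H x).card)
    (hne : Nonempty V) : ShortC (Fintype.card V) H := by
  have h1 : ¬ H.IsAcyclic := by
    intro h
    have h2 := forest_sum h
    have h3 : 3 * Fintype.card V ≤ ∑ v, (nb H v).card := by
      rw [← Finset.card_univ, mul_comm, ← smul_eq_mul, ← sum_const]
      exact sum_le_sum fun x _ => hd x
    have h4 : 0 < Fintype.card V := Fintype.card_pos
    omega
  simp only [SimpleGraph.IsAcyclic, not_forall, not_not] at h1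
  obtain ⟨v, c, hc⟩ := h1
  cases c with
  | nil => exact absurd hc (by simp)
  | @cons _ u _ h p =>
    have hl := hc.three_le_length
    rw [SimpleGraph.Walk.length_cons] at hl
    rw [SimpleGraph.Walk.cons_isCycle_iff] at hc
    exact ⟨u, v, h.symm, p, hc.1, by omega, hc.1.length_lt.le⟩

theorem TN_eq {V : Type} {G : SimpleGraph V} {Br : V → Prop} (hD : D2 G Br) (hP : ParU G Br)
    (e₀ : Sym2 {v // Br v}) (N : ℕ) [Fintype {v // Br v}] :
    TN (TH G Br) (tl G Br) e₀ N = TGS G Br N (e₀.map Subtype.val) := by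
  ext x y
  have hmap : ∀ E : Sym2 {v // Br v}, E.map Subtype.val = e₀.map Subtype.val ↔ E = e₀ :=
    fun E => ⟨fun h => Sym2.map.injective Subtype.val_injective h, fun h => by rw [h]⟩
  have hxy : s(x.1, y.1) = (s(x, y) : Sym2 {v // Br v}).map Subtype.val := rfl
  constructor
  · rintro ⟨h1, h2, h3⟩
    obtain ⟨p, hp, h0, hn⟩ := TH.thread hD hP h1
    refine ⟨h1.1, ?_, _, p, hp, h3, h0, hn⟩
    intro h
    rw [hxy] at h
    exact h2 ((hmap _).mp h)
  · rintro ⟨h1, h2, n, p, hp, hnN, h0, hn⟩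
    refine ⟨⟨h1, n, p, hp, h0, hn⟩, ?_, ?_⟩
    · intro h
      exact h2 (by rw [hxy, h])
    · rw [tl_eq hD hP hp (by rw [h0, hn]; rfl)]
      exact hnN

theorem core (m J : ℕ) : ∃ A : ℕ, ∀ (V : Type) [Fintype V] (G : SimpleGraph V),
    (∀ e ∈ G.edgeSet, KDraw m (G.deleteEdges {e})) → ∀ F, A ≤ F → Fintype.card V ≤ F ^ J →
    ∀ k, A * F * (Nat.log 2 (Fintype.card V) + 1) ≤ k → KDraw k G := by
  obtain ⟨Λ₀, h₀⟩ := no_world m (J + 1)
  obtain ⟨Λ, hΛ⟩ : ∃ Λ, Λ = Λ₀ + 2 := ⟨_, rfl⟩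
  obtain ⟨P, hP⟩ : ∃ P, P = Λ * (J + 1 + 1) := ⟨_, rfl⟩
  obtain ⟨g₁, hg₁⟩ : ∃ g₁, g₁ = Λ ^ P * (m + 1) := ⟨_, rfl⟩
  refine ⟨(16 + 8 * m) * (2 * Λ) * g₁ * (m + 1) + rc m Λ Λ * ((4 * Λ + 1) * g₁) + rm m Λ +
    ((16 + 8 * m) * (m + 1) + (5 * m + 8) + m) + Λ, ?_⟩
  intro V _ G hcrit F hAF hVF k hk
  by_contra hnk
  obtain ⟨c₁, hc₁⟩ : ∃ c₁, c₁ = (16 + 8 * m) * (2 * Λ) * g₁ * (m + 1) := ⟨_, rfl⟩
  obtain ⟨c₂, hc₂⟩ : ∃ c₂, c₂ = rc m Λ Λ * ((4 * Λ + 1) * g₁) := ⟨_, rfl⟩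
  obtain ⟨c₃, hc₃⟩ : ∃ c₃, c₃ = (16 + 8 * m) * (m + 1) + (5 * m + 8) + m := ⟨_, rfl⟩
  obtain ⟨L, hL⟩ : ∃ L, L = Nat.log 2 (Fintype.card V) + 1 := ⟨_, rfl⟩
  rw [← hc₁, ← hc₂, ← hc₃] at hAF hk
  rw [← hL] at hk
  have hLpos : 1 ≤ L := by omega
  have hF1 : 1 ≤ F := by omega
  have hΛ1 : 1 ≤ Λ := by omega
  have hFL : 1 ≤ F * L := Nat.mul_pos hF1 hLpos
  have hk' : c₁ * (F * L) + c₂ * (F * L) + rm m Λ * (F * L) + c₃ * (F * L) ≤ k := by
    refine le_trans ?_ hk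
    have : (c₁ + c₂ + rm m Λ + c₃ + Λ) * F * L = c₁ * (F * L) + c₂ * (F * L) +
      rm m Λ * (F * L) + c₃ * (F * L) + Λ * (F * L) := by ring
    omega
  have hc₃k : c₃ ≤ c₃ * (F * L) := Nat.le_mul_of_pos_right _ hFL
  obtain ⟨Br, hBr⟩ : ∃ Br : V → Prop, ∀ v, Br v ↔ 3 ≤ (nb G v).card := ⟨_, fun v => Iff.rfl⟩
  obtain ⟨hdeg, hPar, ⟨x₀, hx₀⟩, hthr⟩ := base_facts hnk (by rw [← hc₃]; omega) hcrit hBr
  have hdeg' : ∀ v, ¬ Br v → (nb G v).card = 0 ∨ (nb G v).card = 2 := fun v hv =>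
    hdeg v (not_le.mp ((hBr v).not.mp hv))
  have hD : D2 G Br := d2_of_deg hdeg'
  obtain ⟨n, p, hp⟩ := id hthr
  have hnb : ∀ x : {v // Br v}, (nb (TH G Br) x).card = (nb G x.1).card :=
    fun x => TH.nb_card hD hPar hp x
  obtain ⟨t, ht⟩ : ∃ t, t = ∑ x, (nb (TH G Br) x).card := ⟨_, rfl⟩
  have hd3 : ∀ x, 3 ≤ (nb (TH G Br) x).card := by
    intro x
    rw [hnb]
    exact (hBr _).mp x.2
  have hdV : ∀ x, (nb (TH G Br) x).card ≤ Fintype.card V := by
    intro x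
    rw [hnb]
    exact card_le_univ _
  have htn : t ≤ Fintype.card V * Fintype.card V := by
    rw [ht]
    refine (sum_le_sum fun x _ => hdV x).trans ?_
    rw [sum_const, smul_eq_mul, card_univ]
    exact Nat.mul_le_mul_right _ (Fintype.card_subtype_le _)
  have hlen : ∀ f ∈ (TH G Br).edgeSet, 1 ≤ tl G Br f ∧ tl G Br f ≤ Fintype.card V := by
    intro f
    induction f using Sym2.ind with
    | _ a b =>
      intro h
      have h' : (TH G Br).Adj a b := h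
      obtain ⟨q, hq, -⟩ := TH.thread hD hPar h'
      refine ⟨hq.pos, ?_⟩
      have := Fintype.card_le_of_injective (fun i : Fin (tl G Br s(a, b) + 1) => q i)
        (fun i j hij => Fin.ext (hq.seq.inj i j (by omega) (by omega) hij))
      rw [Fintype.card_fin] at this
      omega
  have hlogt : Nat.log 2 t + 1 ≤ 2 * L := by
    have h1 : Fintype.card V < 2 ^ L := by
      rw [hL]
      exact Nat.lt_pow_succ_log_self (by norm_num) _
    have h2 : t < 2 ^ (2 * L) := by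
      calc t ≤ Fintype.card V * Fintype.card V := htn
        _ < 2 ^ L * 2 ^ L := Nat.mul_lt_mul_of_lt_of_le h1 h1.le (by positivity)
        _ = 2 ^ (2 * L) := by rw [← pow_add]; congr 1; omega
    rcases Nat.eq_zero_or_pos t with h0 | h0
    · rw [h0, Nat.log_zero_right]
      omega
    · have h3 : 2 ^ Nat.log 2 t < 2 ^ (2 * L) :=
        (Nat.pow_log_le_self 2 (by omega)).trans_lt h2
      have h4 := (Nat.pow_lt_pow_iff_right (by norm_num : 1 < 2)).mp h3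
      omega
  -- direct redrawing
  have hdir : ∀ g ≤ g₁, NoDir (TH G Br) (tl G Br) (Λ * (Nat.log 2 t + 1)) (F * g) := by
    intro g hg
    refine world_dir hnk hcrit hBr hdeg hD hPar hnb (Nat.mul_pos hΛ1 (by omega)) ?_
    have h1 : (16 + 8 * m) * (Λ * (Nat.log 2 t + 1)) * (F * g) * (m + 1) ≤ c₁ * (F * L) := by
      calc (16 + 8 * m) * (Λ * (Nat.log 2 t + 1)) * (F * g) * (m + 1) ≤
          (16 + 8 * m) * (Λ * (2 * L)) * (F * g₁) * (m + 1) := by gcongr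
        _ = (16 + 8 * m) * (2 * Λ) * g₁ * (m + 1) * (F * L) := by ring
        _ = c₁ * (F * L) := by rw [hc₁]
    omega
  have hg₁1 : 1 ≤ g₁ := by
    rw [hg₁]
    exact Nat.mul_pos (Nat.pow_pos hΛ1) (Nat.succ_pos m)
  have hne : Nonempty {v // Br v} := ⟨⟨x₀, hx₀⟩⟩
  have hcard3 : 3 * Fintype.card {v // Br v} ≤ t := by
    rw [ht, ← Finset.card_univ, mul_comm, ← smul_eq_mul, ← sum_const]
    exact sum_le_sum fun x _ => hd3 x
  by_cases hΛt : Λ ≤ t
  swap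
  · -- few branch vertices
    obtain ⟨u, v, huv, w, hw, h2, hl, hmax⟩ := heaviest (exists_cycle hd3 hne) (tl G Br)
    have hlpos := (hlen s(u, v) huv).1
    refine hdir 1 hg₁1 u v huv w ?_ ?_ ?_ ?_
    · intro he
      have := path_edge_length w hw he
      omega
    · refine le_trans ?_ (Nat.le_mul_of_pos_right Λ (Nat.succ_pos (Nat.log 2 t)))
      omega
    · intro f hf
      exact (hmax f hf).trans (Nat.le_mul_of_pos_left _ (by omega))
    · intro x _ _ _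
      have h3 : (nb (TH G Br) x).card ≤ t := by
        rw [ht]
        exact single_le_sum (f := fun x => (nb (TH G Br) x).card) (fun _ _ => Nat.zero_le _)
          (mem_univ x)
      have h4 : F * 1 ≤ F * 1 * tl G Br s(u, v) := Nat.le_mul_of_pos_right _ hlpos
      omega
  -- the world
  obtain ⟨j, hj, hz⟩ := choose_zone (TH G Br) Λ Λ (m + 1) (J + 1) hΛ1 hΛ1 (Nn F)
  obtain ⟨g, hg⟩ : ∃ g, g = Λ ^ j * (m + 1) := ⟨_, rfl⟩
  rw [← ht] at hz
  have hgg : g ≤ g₁ := by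
    rw [hg, hg₁]
    exact Nat.mul_le_mul_right _ (Nat.pow_le_pow_right hΛ1 (by omega))
  have hg1 : m + 1 ≤ g := by
    rw [hg]
    exact Nat.le_mul_of_pos_left _ (Nat.pow_pos hΛ1)
  have hx₀' := (hBr _).mp hx₀
  obtain ⟨a₀, ha₀⟩ : ∃ a₀, a₀ ∈ nb G x₀ := Finset.card_pos.mp (by omega)
  rw [mem_nb] at ha₀
  obtain ⟨hp₀, hp₀0, hp₀1⟩ := hp x₀ a₀ hx₀ ha₀
  obtain ⟨pos, A, hd, hxs⟩ := hcrit s(x₀, a₀) ha₀
  have hW : Wd m (J + 1) Λ F Λ g t (TH G Br) (tl G Br)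
      s(⟨x₀, hx₀⟩, ⟨p x₀ a₀ (n x₀ a₀), hp₀.bn⟩) := by
    refine ⟨ht.symm, hd3, fun f hf => (hlen f hf).1, hg1, le_rfl, by omega, ?_, hdir g hgg, ?_,
      hΛt, ?_⟩
    · intro b hb
      rw [hg]
      exact hz b hb
    · refine world_mov hnk hcrit hBr hdeg hD hPar hnb hthr (Nat.mul_pos hF1 (by omega)) ?_
      have h1 : rc m Λ Λ * ((4 * Λ + 1) * (F * g)) ≤ c₂ * (F * L) := by
        calc rc m Λ Λ * ((4 * Λ + 1) * (F * g)) ≤ rc m Λ Λ * ((4 * Λ + 1) * (F * g₁)) := by gcongr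
          _ = c₂ * F := by rw [hc₂]; ring
          _ ≤ c₂ * (F * L) := Nat.mul_le_mul_left _ (Nat.le_mul_of_pos_right _ hLpos)
      have h2 : rm m Λ ≤ rm m Λ * (F * L) := Nat.le_mul_of_pos_right _ hFL
      omega
    · intro N
      rw [TN_eq hD hPar]
      obtain ⟨C, hC⟩ := TGS.topD hD (N := N) (e := s(x₀, a₀))
        (e₀ := s(x₀, p x₀ a₀ (n x₀ a₀))) (by
          rintro n' p' hp' ⟨i, hi, h⟩
          have := hp'.edge hD hp₀ hi hp₀.pos (by rw [h, hp₀0, hp₀1])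
          rw [this, hp₀0]) (hd.topD hxs)
      exact ⟨_, C, hC⟩
  refine h₀ F Λ g t _ _ _ _ (hW.mono (by omega)) ?_ ?_
  · intro f hf
    rw [Nn_succ]
    exact (hlen f hf).2.trans hVF
  · intro x
    rw [Nn_succ]
    refine (hdV x).trans (hVF.trans ?_)
    exact Nat.le_mul_of_pos_left _ (by omega)

end Pool.Agent.H354_OP
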