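import Pool.Agent.H354_OP.MainD

/-!
# Critical graphs have drawings with few crossings per edge, up to a small power of the order
-/

set_option autoImplicit false

namespace Pool.Agent.H354_OP

open Finset
open scoped Classical

set_option linter.unusedSectionVars false

theorem log_pow (d : ℕ) : ∃ D : ℕ, ∀ n, 1 ≤ n → (Nat.log 2 n + 1) ^ d ≤ D * n := by
  have h := tendsto_pow_const_div_const_pow_of_one_lt d (r := (2 : ℝ)) (by norm_num)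
  obtain ⟨B, hB⟩ := h.bddAbove_range
  obtain ⟨b, hb⟩ := exists_nat_ge B
  refine ⟨2 * b, fun n hn => ?_⟩
  have h1 : ((Nat.log 2 n + 1 : ℕ) : ℝ) ^ d / 2 ^ (Nat.log 2 n + 1) ≤ b :=
    (hB ⟨Nat.log 2 n + 1, rfl⟩).trans hb
  rw [div_le_iff₀ (by positivity)] at h1
  have h2 : (Nat.log 2 n + 1) ^ d ≤ b * 2 ^ (Nat.log 2 n + 1) := by exact_mod_cast h1
  refine h2.trans ?_
  have h3 := Nat.pow_log_le_self 2 (x := n) (by omega)
  calc b * 2 ^ (Nat.log 2 n + 1) = 2 * b * 2 ^ Nat.log 2 n := by ring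
    _ ≤ 2 * b * n := Nat.mul_le_mul_left _ h3

theorem main_sub (m r : ℕ) : ∃ C : ℕ, ∀ (V : Type) [Fintype V] (G : SimpleGraph V),
    (∀ e ∈ G.edgeSet, KDraw m (G.deleteEdges {e})) →
    ∀ k, C * Fintype.card V ≤ k ^ (r + 1) → KDraw k G := by
  obtain ⟨A, hA⟩ := core m (2 * (r + 1))
  obtain ⟨D, hD⟩ := log_pow (2 * (r + 1))
  obtain ⟨A', hA'⟩ : ∃ A', A' = A + 2 := ⟨_, rfl⟩
  obtain ⟨R, hR⟩ : ∃ R, R = r + 1 := ⟨_, rfl⟩
  rw [← hR] at hA hD ⊢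
  obtain ⟨B, hB⟩ : ∃ B, B = A ^ (2 * R) * (A' ^ (2 * R) + 4 ^ R) * D := ⟨_, rfl⟩
  refine ⟨B + 1, ?_⟩
  intro V _ G hcrit k hk
  obtain ⟨n, hn⟩ : ∃ n, n = Fintype.card V := ⟨_, rfl⟩
  rw [← hn] at hk
  rcases Nat.eq_zero_or_pos n with h0 | hn1
  · refine kdraw_of_noEdge ?_ k
    rintro ⟨a, -⟩
    have : 0 < Fintype.card V := Fintype.card_pos_iff.mpr ⟨a⟩
    omega
  have hex : ∃ F, A' ≤ F ∧ n ≤ F ^ (2 * R) := by
    refine ⟨A' + n, by omega, ?_⟩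
    calc n ≤ A' + n := by omega
      _ = (A' + n) ^ 1 := (pow_one _).symm
      _ ≤ (A' + n) ^ (2 * R) := Nat.pow_le_pow_right (by omega) (by omega)
  obtain ⟨F, hF⟩ : ∃ F, F = Nat.find hex := ⟨_, rfl⟩
  have hF1 : A' ≤ F ∧ n ≤ F ^ (2 * R) := by
    rw [hF]
    exact Nat.find_spec hex
  have hFn : F ^ (2 * R) ≤ (A' ^ (2 * R) + 4 ^ R) * n := by
    rcases Nat.lt_or_ge A' F with h1 | h1
    · have h2 : ¬ (A' ≤ F - 1 ∧ n ≤ (F - 1) ^ (2 * R)) :=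
        Nat.find_min hex (m := F - 1) (by omega)
      have h3 : (F - 1) ^ (2 * R) ≤ n := by
        by_contra hcon
        exact h2 ⟨by omega, by omega⟩
      calc F ^ (2 * R) ≤ (2 * (F - 1)) ^ (2 * R) := Nat.pow_le_pow_left (by omega) _
        _ = 4 ^ R * (F - 1) ^ (2 * R) := by rw [mul_pow, pow_mul]; norm_num
        _ ≤ 4 ^ R * n := Nat.mul_le_mul_left _ h3
        _ ≤ (A' ^ (2 * R) + 4 ^ R) * n := Nat.mul_le_mul_right _ (by omega)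
    · obtain rfl : F = A' := by omega
      calc F ^ (2 * R) ≤ (F ^ (2 * R) + 4 ^ R) * 1 := by
            rw [mul_one]
            exact Nat.le_add_right _ _
        _ ≤ (F ^ (2 * R) + 4 ^ R) * n := Nat.mul_le_mul_left _ hn1
  refine hA V G hcrit F (by omega) (by rw [← hn]; exact hF1.2) k ?_
  rw [← hn]
  by_contra hcon
  push Not at hcon
  have h1 : (k ^ R) ^ 2 ≤ B * (n * n) := by
    calc (k ^ R) ^ 2 = k ^ (2 * R) := by rw [← pow_mul, mul_comm]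
      _ ≤ (A * F * (Nat.log 2 n + 1)) ^ (2 * R) := Nat.pow_le_pow_left hcon.le _
      _ = A ^ (2 * R) * F ^ (2 * R) * (Nat.log 2 n + 1) ^ (2 * R) := by rw [mul_pow, mul_pow]
      _ ≤ A ^ (2 * R) * ((A' ^ (2 * R) + 4 ^ R) * n) * (D * n) := by
        gcongr
        exact hD n hn1
      _ = B * (n * n) := by rw [hB]; ring
  have h2 : ((B + 1) * n) ^ 2 ≤ (k ^ R) ^ 2 := Nat.pow_le_pow_left hk 2
  have h3 : (B + 1) * (n * n) ≤ ((B + 1) * n) ^ 2 := by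
    calc (B + 1) * (n * n) ≤ (B + 1) * (B + 1) * (n * n) :=
          Nat.mul_le_mul_right _ (Nat.le_mul_of_pos_left _ (Nat.succ_pos B))
      _ = ((B + 1) * n) ^ 2 := by ring
  have h4 : (B + 1) * (n * n) = B * (n * n) + n * n := by ring
  have h5 : 0 < n * n := Nat.mul_pos hn1 hn1
  omega

theorem main_eps (m : ℕ) (ε : ℝ) (hε : 0 < ε) : ∃ C : ℝ, ∀ (V : Type) [Fintype V]
    (G : SimpleGraph V), (∀ e ∈ G.edgeSet, KDraw m (G.deleteEdges {e})) →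
    ∀ k : ℕ, C * (Fintype.card V : ℝ) ^ ε ≤ k → KDraw k G := by
  obtain ⟨r, hr⟩ := exists_nat_one_div_lt hε
  obtain ⟨C, hC⟩ := main_sub m r
  refine ⟨C + 1, ?_⟩
  intro V _ G hcrit k hk
  refine hC V G hcrit k ?_
  obtain ⟨n, hn⟩ : ∃ n, n = Fintype.card V := ⟨_, rfl⟩
  rw [← hn] at hk ⊢
  rcases Nat.eq_zero_or_pos n with h0 | hn1
  · rw [h0]
    simp
  have hn1' : (1 : ℝ) ≤ n := by exact_mod_cast hn1
  have h1 : (n : ℝ) ^ ((1 : ℝ) / (r + 1)) ≤ (n : ℝ) ^ ε :=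
    Real.rpow_le_rpow_of_exponent_le hn1' hr.le
  have hC0 : (0 : ℝ) ≤ C := Nat.cast_nonneg C
  have h2 : ((C : ℝ) + 1) * (n : ℝ) ^ ((1 : ℝ) / (r + 1)) ≤ k :=
    (mul_le_mul_of_nonneg_left h1 (by linarith)).trans hk
  have h3 : (((C : ℝ) + 1) * (n : ℝ) ^ ((1 : ℝ) / (r + 1))) ^ (r + 1) ≤ (k : ℝ) ^ (r + 1) :=
    pow_le_pow_left₀ (by positivity) h2 _
  have h4 : ((n : ℝ) ^ ((1 : ℝ) / (r + 1))) ^ (r + 1) = n := by
    rw [← Real.rpow_natCast, ← Real.rpow_mul (by positivity)]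
    have : (1 : ℝ) / (r + 1) * ((r + 1 : ℕ) : ℝ) = 1 := by
      push_cast
      field_simp
    rw [this, Real.rpow_one]
  rw [mul_pow, h4] at h3
  have h5 : ((C : ℝ) + 1) ^ 1 ≤ ((C : ℝ) + 1) ^ (r + 1) :=
    pow_le_pow_right₀ (by linarith) (by omega)
  rw [pow_one] at h5
  have h6 : (C : ℝ) * n ≤ (k : ℝ) ^ (r + 1) := by
    refine le_trans ?_ h3
    refine mul_le_mul_of_nonneg_right (by linarith) (by positivity)
  exact_mod_cast h6

end Pool.Agent.H354_OP
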