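import Pool.Agent.H354_OP.Pk5
import Pool.Agent.H354_OP.MainD

/-!
# Critical graphs have drawings in which the edges have few crossings: a power of the logarithm
-/

set_option autoImplicit false

namespace Pool.Agent.H354_OP

open Finset
open scoped Classical

set_option linter.unusedSectionVars false

/-- choosing the threshold for the hubs: the zones of all levels are disjoint -/
theorem choose_zone2 {V : Type} [Fintype V] (H : SimpleGraph V) (Λ γ g J : ℕ) (hΛ : 0 < Λ)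
    (hγ : 1 ≤ γ) : ∃ j < Λ, Λ * ∑ b ∈ range (J + 1),
      ∑ x ∈ Zo H (γ ^ j * g * Nn (γ ^ Λ) b) γ, (nb H x).card ≤ ∑ x, (nb H x).card := by
  obtain ⟨z, hz⟩ : ∃ z : ℕ → ℕ → ℕ, ∀ j b, z j b =
      ∑ x ∈ Zo H (γ ^ j * g * Nn (γ ^ Λ) b) γ, (nb H x).card := ⟨_, fun j b => rfl⟩
  obtain ⟨t, ht⟩ : ∃ t, t = ∑ x, (nb H x).card := ⟨_, rfl⟩
  have h1 : ∑ j ∈ range Λ, ∑ b ∈ range (J + 1), z j b ≤ t := by
    have h2 : ∀ j b, z j b = ∑ x, if x ∈ Zo H (γ ^ j * g * Nn (γ ^ Λ) b) γ then (nb H x).card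
        else 0 := by
      intro j b
      rw [hz, ← sum_filter]
      congr 1
      ext x
      simp
    rw [← sum_product' (range Λ) (range (J + 1)) z,
      sum_congr rfl fun p _ => h2 p.1 p.2, sum_comm, ht]
    refine sum_le_sum fun x _ => ?_
    rw [← sum_filter, sum_const, smul_eq_mul]
    have h3 : (((range Λ) ×ˢ (range (J + 1))).filter (fun p =>
        x ∈ Zo H (γ ^ p.1 * g * Nn (γ ^ Λ) p.2) γ)).card ≤ 1 := by
      rw [card_le_one]
      have key : ∀ p : ℕ × ℕ, x ∈ Zo H (γ ^ p.1 * g * Nn (γ ^ Λ) p.2) γ → ∃ e, p.2 = e + 1 ∧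
          g * γ ^ (p.1 + Λ * e) < (nb H x).card ∧
          (nb H x).card ≤ g * γ ^ (p.1 + Λ * e + 1) := by
        rintro ⟨j, b⟩ hp
        rw [mem_Zo] at hp
        simp only at hp ⊢
        cases b with
        | zero =>
          rw [Nn_zero, mul_zero, mul_zero] at hp
          omega
        | succ e =>
          refine ⟨e, rfl, ?_⟩
          rw [Nn_succ, ← pow_mul] at hp
          have e1 : γ ^ j * g * γ ^ (Λ * e) = g * γ ^ (j + Λ * e) := by
            rw [pow_add]; ring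
          have e2 : g * γ ^ (j + Λ * e + 1) = γ * (g * γ ^ (j + Λ * e)) := by
            rw [pow_succ]; ring
          rw [e1] at hp
          rw [e2]
          exact hp
      have key2 : ∀ a a', g * γ ^ a < (nb H x).card → (nb H x).card ≤ g * γ ^ (a' + 1) →
          a ≤ a' := by
        intro a a' h4 h5
        by_contra hcon
        push Not at hcon
        have h6 : g * γ ^ (a' + 1) ≤ g * γ ^ a :=
          Nat.mul_le_mul_left _ (Nat.pow_le_pow_right hγ hcon)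
        omega
      intro p hp p' hp'
      rw [mem_filter, mem_product, mem_range, mem_range] at hp hp'
      obtain ⟨e, he, h4, h5⟩ := key p hp.2
      obtain ⟨e', he', h4', h5'⟩ := key p' hp'.2
      have h6 : p.1 + Λ * e = p'.1 + Λ * e' :=
        le_antisymm (key2 _ _ h4 h5') (key2 _ _ h4' h5)
      have h7 : p.1 = p'.1 := by
        have h8 := congrArg (· % Λ) h6
        simp only [Nat.add_mul_mod_self_left] at h8
        rwa [Nat.mod_eq_of_lt hp.1.1, Nat.mod_eq_of_lt hp'.1.1] at h8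
      have h8 : e = e' := by
        rw [h7] at h6
        exact Nat.eq_of_mul_eq_mul_left hΛ (by omega)
      exact Prod.ext h7 (by rw [he, he', h8])
    calc _ ≤ 1 * (nb H x).card := Nat.mul_le_mul_right _ h3
      _ = (nb H x).card := one_mul _
  by_contra hcon
  push Not at hcon
  have h2 : ∀ j ∈ range Λ, t + 1 ≤ Λ * ∑ b ∈ range (J + 1), z j b := by
    intro j hj
    rw [mem_range] at hj
    have h3 := hcon j hj
    rw [← ht] at h3
    simp only [← hz] at h3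
    exact h3
  have h3 := sum_le_sum h2
  rw [sum_const, card_range, smul_eq_mul, ← mul_sum] at h3
  have h5 := Nat.mul_le_mul_left Λ h1
  have h7 : Λ * (t + 1) = Λ * t + Λ := by ring
  omega

/-- the parameters -/
def Us (L : ℕ) : ℕ := 16 * (L + 1)

/-- the parameters -/
def Ss (L : ℕ) : ℕ := 96 * Us L

/-- the parameters -/
def gs (L : ℕ) : ℕ := 8 * Us L * Bc (Ss L) (Ss L)

/-- the parameters -/
def Fs (L : ℕ) : ℕ := gs L ^ 192

/-- the parameters -/
def Ks (m L : ℕ) : ℕ := Fs L * (Fs L * (m + 1))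

/-- the parameters -/
def qs (L : ℕ) : ℕ := (8 * (4 * Us L) + 1) * (2 * L) + (2 * Ss L + 1) + 64 * Us L

/-- the bound -/
def kb (m L : ℕ) : ℕ := ((16 + 8 * m) * qs L * Ks m L * (m + 1) + (5 * m + 8)) +
  (rc2 m (Ss L) (Ss L) * ((4 * (2 * Ss L + (Ss L + Ss L + 2) + 1) + 2 * Ss L + 2) * Ks m L) +
    rm2 m (Ss L)) + ((16 + 8 * m) * (m + 1) + (5 * m + 8) + m)

theorem core2 (m : ℕ) (V : Type) [Fintype V] (G : SimpleGraph V)
    (hcrit : ∀ e ∈ G.edgeSet, KDraw m (G.deleteEdges {e})) (k : ℕ)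
    (hk : kb m (Nat.log 2 (Fintype.card V) + 1) ≤ k) : KDraw k G := by
  by_contra hnk
  obtain ⟨L, hL⟩ : ∃ L, L = Nat.log 2 (Fintype.card V) + 1 := ⟨_, rfl⟩
  rw [← hL, kb] at hk
  obtain ⟨U, hU⟩ : ∃ U, U = Us L := ⟨_, rfl⟩
  obtain ⟨s, hs⟩ : ∃ s, s = Ss L := ⟨_, rfl⟩
  obtain ⟨γ, hγ⟩ : ∃ γ, γ = gs L := ⟨_, rfl⟩
  obtain ⟨F, hF⟩ : ∃ F, F = Fs L := ⟨_, rfl⟩
  obtain ⟨q, hq⟩ : ∃ q, q = qs L := ⟨_, rfl⟩
  rw [← hs, ← hq] at hk
  have hLpos : 1 ≤ L := by omega
  have hUL : U = 16 * (L + 1) := by rw [hU, Us]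
  have hsU : s = 96 * U := by rw [hs, Ss, ← hU]
  have hγe : γ = 8 * U * Bc s s := by rw [hγ, gs, ← hU, ← hs]
  obtain ⟨Λ, hΛ⟩ : ∃ Λ, Λ = 192 := ⟨_, rfl⟩
  have hFe : F = γ ^ Λ := by rw [hF, Fs, ← hγ, hΛ]
  have hqe : q = (8 * (4 * U) + 1) * (2 * L) + (2 * s + 1) + 64 * U := by
    rw [hq, qs, ← hU, ← hs]
  have hKe : Ks m L = F * (F * (m + 1)) := by rw [Ks, ← hF]
  rw [hKe] at hk
  have hBc : 504 ≤ Bc s s := by rw [Bc]; omega
  have hγbig : s + 2 ≤ γ := by
    have h1 : 8 * U * 504 ≤ γ := by rw [hγe]; exact Nat.mul_le_mul_left _ hBc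
    omega
  have hγ1 : 1 ≤ γ := by omega
  have hFγ : γ ≤ F := by
    rw [hFe]
    calc γ = γ ^ 1 := (pow_one γ).symm
      _ ≤ γ ^ Λ := Nat.pow_le_pow_right hγ1 (by omega)
  obtain ⟨Br, hBr⟩ : ∃ Br : V → Prop, ∀ v, Br v ↔ 3 ≤ (nb G v).card := ⟨_, fun v => Iff.rfl⟩
  obtain ⟨hdeg, hPar, ⟨x₀, hx₀⟩, hthr⟩ := base_facts hnk (by omega) hcrit hBr
  have hdeg' : ∀ v, ¬ Br v → (nb G v).card = 0 ∨ (nb G v).card = 2 := fun v hv =>
    hdeg v (not_le.mp ((hBr v).not.mp hv))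
  have hD : D2 G Br := d2_of_deg hdeg'
  obtain ⟨n, p, hp⟩ := id hthr
  have hnb : ∀ x : {v // Br v}, (nb (TH G Br) x).card = (nb G x.1).card :=
    fun x => TH.nb_card hD hPar hp x
  obtain ⟨t, ht⟩ : ∃ t, t = ∑ x, (nb (TH G Br) x).card := ⟨_, rfl⟩
  have hd3 : ∀ x, 3 ≤ (nb (TH G Br) x).card := by
    intro x
    rw [hnb]
    exact (hBr _).mp x.2
  have hdV : ∀ x, (nb (TH G Br) x).card ≤ Fintype.card V := by
    intro x
    rw [hnb]
    exact card_le_univ _
  have htn : t ≤ Fintype.card V * Fintype.card V := by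
    rw [ht]
    refine (sum_le_sum fun x _ => hdV x).trans ?_
    rw [sum_const, smul_eq_mul, card_univ]
    exact Nat.mul_le_mul_right _ (Fintype.card_subtype_le _)
  have hlen : ∀ f ∈ (TH G Br).edgeSet, 1 ≤ tl G Br f ∧ tl G Br f ≤ Fintype.card V := by
    intro f
    induction f using Sym2.ind with
    | _ a b =>
      intro h
      have h' : (TH G Br).Adj a b := h
      obtain ⟨q, hq, -⟩ := TH.thread hD hPar h'
      refine ⟨hq.pos, ?_⟩
      have := Fintype.card_le_of_injective (fun i : Fin (tl G Br s(a, b) + 1) => q i)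
        (fun i j hij => Fin.ext (hq.seq.inj i j (by omega) (by omega) hij))
      rw [Fintype.card_fin] at this
      omega
  have hV2 : Fintype.card V < 2 ^ L := by
    rw [hL]
    exact Nat.lt_pow_succ_log_self (by norm_num) _
  have hlogt : Nat.log 2 t + 1 ≤ 2 * L := by
    have h2 : t < 2 ^ (2 * L) := by
      calc t ≤ Fintype.card V * Fintype.card V := htn
        _ < 2 ^ L * 2 ^ L := Nat.mul_lt_mul_of_lt_of_le hV2 hV2.le (by positivity)
        _ = 2 ^ (2 * L) := by rw [← pow_add, two_mul]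
    rcases Nat.eq_zero_or_pos t with h0 | h0
    · rw [h0, Nat.log_zero_right]
      omega
    · have h3 : 2 ^ Nat.log 2 t < 2 ^ (2 * L) :=
        (Nat.pow_log_le_self 2 (by omega)).trans_lt h2
      have h4 := (Nat.pow_lt_pow_iff_right (by norm_num : 1 < 2)).mp h3
      omega
  have hqc : (8 * (4 * U) + 1) * (Nat.log 2 t + 1) ≤ q := by
    have h1 : (8 * (4 * U) + 1) * (Nat.log 2 t + 1) ≤ (8 * (4 * U) + 1) * (2 * L) :=
      Nat.mul_le_mul_left _ hlogt
    omega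
  have hq1 : 1 ≤ q := by omega
  -- the factor
  obtain ⟨j, hj, hz⟩ := choose_zone2 (TH G Br) Λ γ (m + 1) (L + 1) (by omega) hγ1
  obtain ⟨g, hg⟩ : ∃ g, g = γ ^ j * (m + 1) := ⟨_, rfl⟩
  rw [← ht, ← hg, ← hFe] at hz
  have hgF : g ≤ F * (m + 1) := by
    rw [hg, hFe]
    exact Nat.mul_le_mul_right _ (Nat.pow_le_pow_right hγ1 (by omega))
  have hgm : m + 1 ≤ g := by
    rw [hg]
    exact Nat.le_mul_of_pos_left _ (Nat.pow_pos hγ1)
  have hKg : F * g ≤ F * (F * (m + 1)) := Nat.mul_le_mul_left _ hgF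
  have hKpos : 1 ≤ F * g := Nat.mul_pos (by omega) (by omega)
  have hdir : NoDir (TH G Br) (tl G Br) q (F * g) := by
    refine world_dir hnk hcrit hBr hdeg hD hPar hnb hq1 ?_
    have h1 : (16 + 8 * m) * q * (F * g) * (m + 1) ≤
        (16 + 8 * m) * q * (F * (F * (m + 1))) * (m + 1) := by gcongr
    omega
  have hmv : NoMv (TH G Br) (tl G Br) s (2 * s + (s + s + 2) + 1) (F * g) := by
    refine world_mv hnk hcrit hBr hdeg hD hPar hnb hthr hKpos (by omega) ?_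
    have h1 : rc2 m s s * ((4 * (2 * s + (s + s + 2) + 1) + 2 * s + 2) * (F * g)) ≤
        rc2 m s s * ((4 * (2 * s + (s + s + 2) + 1) + 2 * s + 2) * (F * (F * (m + 1)))) := by
      gcongr
    omega
  have hne : Nonempty {v // Br v} := ⟨⟨x₀, hx₀⟩⟩
  have hcard3 : 3 * Fintype.card {v // Br v} ≤ t := by
    rw [ht, ← Finset.card_univ, mul_comm, ← smul_eq_mul, ← sum_const]
    exact sum_le_sum fun x _ => hd3 x
  by_cases hUt : 64 * U ≤ t
  swap
  · -- few branch vertices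
    obtain ⟨u, v, huv, w, hw, h2, hl, hmax⟩ := heaviest (exists_cycle hd3 hne) (tl G Br)
    have hlpos := (hlen s(u, v) huv).1
    refine hdir u v huv w ?_ ?_ ?_ ?_
    · intro he
      have := path_edge_length w hw he
      omega
    · omega
    · intro f hf
      exact (hmax f hf).trans (Nat.le_mul_of_pos_left _ hKpos)
    · intro x _ _ _
      have h3 : (nb (TH G Br) x).card ≤ t := by
        rw [ht]
        exact single_le_sum (f := fun x => (nb (TH G Br) x).card) (fun _ _ => Nat.zero_le _)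
          (mem_univ x)
      have h4 : F * g ≤ F * g * tl G Br s(u, v) := Nat.le_mul_of_pos_right _ hlpos
      have h5 : F ≤ F * g := Nat.le_mul_of_pos_right _ (by omega)
      omega
  -- the world
  have hx₀' := (hBr _).mp hx₀
  obtain ⟨a₀, ha₀⟩ : ∃ a₀, a₀ ∈ nb G x₀ := Finset.card_pos.mp (by omega)
  rw [mem_nb] at ha₀
  obtain ⟨hp₀, hp₀0, hp₀1⟩ := hp x₀ a₀ hx₀ ha₀
  obtain ⟨pos, A, hd, hxs⟩ := hcrit s(x₀, a₀) ha₀
  obtain ⟨D, hDD⟩ : ∃ D : Dat {v // Br v}, D = ⟨TH G Br, tl G Br,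
    s(⟨x₀, hx₀⟩, ⟨p x₀ a₀ (n x₀ a₀), hp₀.bn⟩), F, γ, g⟩ := ⟨_, rfl⟩
  have hOk : D.Ok m s s q t := by
    rw [hDD]
    refine ⟨ht.symm, hd3, fun f hf => (hlen f hf).1, hgm, hγ1, by simp only; omega, hdir, hmv, ?_⟩
    intro N
    simp only
    rw [TN_eq hD hPar]
    obtain ⟨C, hC⟩ := TGS.topD hD (N := N) (e := s(x₀, a₀))
      (e₀ := s(x₀, p x₀ a₀ (n x₀ a₀))) (by
        rintro n' p' hp' ⟨i, hi, h⟩
        have := hp'.edge hD hp₀ hi hp₀.pos (by rw [h, hp₀0, hp₀1])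
        rw [this, hp₀0]) (hd.topD hxs)
    exact ⟨_, C, hC⟩
  have hVF : Fintype.card V ≤ F ^ L := by
    refine hV2.le.trans (Nat.pow_le_pow_left ?_ _)
    omega
  refine hOk.no_world2 (J := L + 1) (U := U) (by omega) (by omega) hsU hsU (by omega) hqc ?_ hUt
    ?_ ?_ ?_
  · rw [hDD]
    simp only
    rw [hγe]
  · rw [hDD, ← hΛ]
    exact hz
  · intro f hf
    rw [hDD] at hf ⊢
    simp only [Dat.N] at hf ⊢
    rw [Nn_succ]
    exact (hlen f hf).2.trans hVF
  · intro x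
    rw [hDD]
    simp only [Dat.N]
    rw [Nn_succ]
    refine (hdV x).trans (hVF.trans ?_)
    exact Nat.le_mul_of_pos_left _ (by omega)

end Pool.Agent.H354_OP
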