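import Pool.Agent.H354_OP.MainF

/-!
# Critical graphs have drawings in which the edges have few crossings: a power of the logarithm
-/

set_option autoImplicit false

namespace Pool.Agent.H354_OP

open Finset
open scoped Classical

/-- bounded by a power of the second variable, with an exponent that does not depend on the first -/
def PB (f : ℕ → ℕ → ℕ) : Prop := ∃ d : ℕ, ∀ m, ∃ C : ℕ, ∀ x, 1 ≤ x → f m x ≤ C * x ^ d

theorem PB.left (g : ℕ → ℕ) : PB (fun m _ => g m) :=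
  ⟨0, fun m => ⟨g m, fun x _ => by simp⟩⟩

theorem PB.const (c : ℕ) : PB (fun _ _ => c) := PB.left fun _ => c

theorem PB.right : PB (fun _ x => x) := ⟨1, fun _ => ⟨1, fun x _ => by simp⟩⟩

theorem PB.add {f g : ℕ → ℕ → ℕ} (hf : PB f) (hg : PB g) : PB (fun m x => f m x + g m x) := by
  obtain ⟨d, hf⟩ := hf
  obtain ⟨d', hg⟩ := hg
  refine ⟨d + d', fun m => ?_⟩
  obtain ⟨C, hC⟩ := hf m
  obtain ⟨C', hC'⟩ := hg m
  refine ⟨C + C', fun x hx => ?_⟩
  have h1 : C * x ^ d ≤ C * x ^ (d + d') :=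
    Nat.mul_le_mul_left _ (Nat.pow_le_pow_right hx (by omega))
  have h2 : C' * x ^ d' ≤ C' * x ^ (d + d') :=
    Nat.mul_le_mul_left _ (Nat.pow_le_pow_right hx (by omega))
  have h3 := hC x hx
  have h4 := hC' x hx
  change f m x + g m x ≤ (C + C') * x ^ (d + d')
  rw [add_mul]
  omega

theorem PB.mul {f g : ℕ → ℕ → ℕ} (hf : PB f) (hg : PB g) : PB (fun m x => f m x * g m x) := by
  obtain ⟨d, hf⟩ := hf
  obtain ⟨d', hg⟩ := hg
  refine ⟨d + d', fun m => ?_⟩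
  obtain ⟨C, hC⟩ := hf m
  obtain ⟨C', hC'⟩ := hg m
  refine ⟨C * C', fun x hx => ?_⟩
  refine (Nat.mul_le_mul (hC x hx) (hC' x hx)).trans (le_of_eq ?_)
  rw [pow_add]
  ring

theorem PB.pow {f : ℕ → ℕ → ℕ} (hf : PB f) (n : ℕ) : PB (fun m x => f m x ^ n) := by
  induction n with
  | zero => simpa using PB.const 1
  | succ n ih =>
    simp only [pow_succ]
    exact ih.mul hf

theorem PB.mono {f g : ℕ → ℕ → ℕ} (hg : PB g) (h : ∀ m x, f m x ≤ g m x) : PB f := by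
  obtain ⟨d, hg⟩ := hg
  refine ⟨d, fun m => ?_⟩
  obtain ⟨C, hC⟩ := hg m
  exact ⟨C, fun x hx => (h m x).trans (hC x hx)⟩

theorem PB_GC {g g₀ s : ℕ → ℕ → ℕ} (h1 : PB g) (h2 : PB g₀) (h3 : PB s) :
    PB (fun m x => GC (g m x) (g₀ m x) (s m x)) := by
  have hc := fun c => PB.const c
  have hq : PB (fun m x => 1 + 2 * (g₀ m x + g m x * s m x)) :=
    (hc 1).add ((hc 2).mul (h2.add (h1.mul h3)))
  exact ((((hc 2).mul hq).mul (h3.add h1)).add (hc 1)).mul
    ((hc 406).mul ((hq.mul (hq.mul (hq.mul (hc 2)))).add (hc 1)))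

theorem PB_Bc {s g₀ : ℕ → ℕ → ℕ} (h1 : PB s) (h2 : PB g₀) :
    PB (fun m x => Bc (s m x) (g₀ m x)) := by
  have hc := fun c => PB.const c
  exact (((((hc 504).add ((hc 812).mul (h1.mul ((((hc 2).mul h1).mul h1).add (hc 1))))).add
    ((hc 2).mul ((hc 56).mul (((hc 2).mul (((hc 2).mul h1).add (hc 3))).add (hc 1))))).add
    ((hc 12).mul (PB_GC (hc 3) h2 (h1.add (hc 2))))).add
    ((hc 6).mul (PB_GC (hc 3) h2 (hc 1))))

theorem PB_kb : PB kb := by
  have hc := fun c => PB.const c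
  have hm : PB (fun m _ => m) := PB.left fun m => m
  have hx := PB.right
  have hU : PB (fun _ x => Us x) := (hc 16).mul (hx.add (hc 1))
  have hS : PB (fun _ x => Ss x) := (hc 96).mul hU
  have hg : PB (fun _ x => gs x) := ((hc 8).mul hU).mul (PB_Bc hS hS)
  have hF : PB (fun _ x => Fs x) := hg.pow 192
  have hK : PB (fun m x => Ks m x) := hF.mul (hF.mul (hm.add (hc 1)))
  have hq : PB (fun _ x => qs x) := (((((hc 8).mul ((hc 4).mul hU)).add (hc 1)).mul
    ((hc 2).mul hx)).add (((hc 2).mul hS).add (hc 1))).add ((hc 64).mul hU)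
  have hrm : PB (fun m x => rm2 m (Ss x)) := hm.add (((hc 4).mul (hm.add (hc 2))).mul hS)
  have hca : PB (fun m x => ca m (Ss x)) := (hc 4).mul ((((hc 8).mul hS).add (hc 9)).add
    ((hc 12).mul hm))
  have hrc : PB (fun m x => rc2 m (Ss x) (Ss x)) := by
    refine PB.mono (g := fun m x => Ss x * ((4 * ca m (Ss x) + 8) +
      4 * (8 * Ss x + 9 + 12 * rm2 m (Ss x)))) ?_ (fun m x => rc2_le m _ _ le_rfl)
    exact hS.mul ((((hc 4).mul hca).add (hc 8)).add ((hc 4).mul ((((hc 8).mul hS).add (hc 9)).add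
      ((hc 12).mul hrm))))
  have h1 : PB (fun m x => (16 + 8 * m) * qs x * Ks m x * (m + 1) + (5 * m + 8)) :=
    ((((((hc 16).add ((hc 8).mul hm)).mul hq).mul hK).mul (hm.add (hc 1))).add
      (((hc 5).mul hm).add (hc 8)))
  have h2 : PB (fun m x => rc2 m (Ss x) (Ss x) * ((4 * (2 * Ss x + (Ss x + Ss x + 2) + 1) +
      2 * Ss x + 2) * Ks m x) + rm2 m (Ss x)) :=
    (hrc.mul ((((((hc 4).mul ((((hc 2).mul hS).add ((hS.add hS).add (hc 2))).add (hc 1))).add
      ((hc 2).mul hS)).add (hc 2)).mul hK))).add hrm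
  have h3 : PB (fun m _ => (16 + 8 * m) * (m + 1) + (5 * m + 8) + m) := PB.left _
  exact (h1.add h2).add h3

theorem main_polylog : ∃ d : ℕ, ∀ m : ℕ, ∃ C : ℕ, ∀ (V : Type) [Fintype V] (G : SimpleGraph V),
    (∀ e ∈ G.edgeSet, KDraw m (G.deleteEdges {e})) →
    ∀ k, C * (Nat.log 2 (Fintype.card V) + 1) ^ d ≤ k → KDraw k G := by
  obtain ⟨d, hd⟩ := PB_kb
  refine ⟨d, fun m => ?_⟩
  obtain ⟨C, hC⟩ := hd m
  refine ⟨C, fun V _ G hcrit k hk => core2 m V G hcrit k ?_⟩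
  exact (hC _ (Nat.le_add_left 1 _)).trans hk

end Pool.Agent.H354_OP
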