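import Pool.Agent.H354_OP.Pk8
import Pool.Agent.H354_OP.MainG

/-!
# Critical graphs have drawings in which the edges have few crossings: a power of the logarithm of
the inverse of the excess of the average degree over two
-/

set_option autoImplicit false

namespace Pool.Agent.H354_OP

open Finset
open scoped Classical

set_option linter.unusedSectionVars false

theorem TH.long_le {V : Type} [Fintype V] {G : SimpleGraph V} {Br : V → Prop} (hD : D2 G Br)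
    (hP : ParU G Br) {n : V → V → ℕ} {p : V → V → ℕ → V}
    (hp : ∀ x a, Br x → G.Adj x a → Thr G Br (n x a) (p x a) ∧ p x a 0 = x ∧ p x a 1 = a)
    (N : ℕ) :
    (univ.filter (fun e : {v // Br v} × {v // Br v} =>
      (TH G Br).Adj e.1 e.2 ∧ N < tl G Br s(e.1, e.2))).card ≤
      ∑ x : {v // Br v}, ((nb G x.1).filter (fun a => N < n x.1 a)).card := by
  have hch : ∀ e : {v // Br v} × {v // Br v}, ∃ a, (TH G Br).Adj e.1 e.2 →
      G.Adj e.1.1 a ∧ ∃ q, Thr G Br (tl G Br s(e.1, e.2)) q ∧ q 0 = e.1.1 ∧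
        q (tl G Br s(e.1, e.2)) = e.2.1 ∧ q 1 = a := by
    intro e
    by_cases h : (TH G Br).Adj e.1 e.2
    · obtain ⟨q, hq, h0, hn⟩ := TH.thread hD hP h
      refine ⟨q 1, fun _ => ⟨?_, q, hq, h0, hn, rfl⟩⟩
      rw [← h0]
      exact hq.seq.adj 0 hq.pos
    · exact ⟨e.1.1, fun h' => absurd h' h⟩
  choose f hf using hch
  rw [← Finset.card_sigma]
  refine Finset.card_le_card_of_injOn (fun e => (⟨e.1, f e⟩ : (_ : {v // Br v}) × V)) ?_ ?_
  · intro e he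
    rw [mem_coe, mem_filter] at he
    obtain ⟨h1, q, hq, h0, hn, hq1⟩ := hf e he.2.1
    obtain ⟨g1, g2, g3⟩ := hp e.1.1 (f e) e.1.2 h1
    have := (hq.unique hD g1 (h0.trans g2.symm) (hq1.trans g3.symm)).1
    rw [mem_coe, mem_sigma]
    refine ⟨mem_univ _, ?_⟩
    rw [mem_filter, mem_nb]
    refine ⟨h1, ?_⟩
    simp only
    rw [← this]
    exact he.2.2
  · intro e he e' he' hee
    rw [mem_coe, mem_filter] at he he'
    simp only [Sigma.mk.injEq, heq_eq_eq] at hee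
    obtain ⟨h1, q, hq, h0, hn, hq1⟩ := hf e he.2.1
    obtain ⟨h1', q', hq', h0', hn', hq1'⟩ := hf e' he'.2.1
    obtain ⟨g1, g2⟩ := hq.unique hD hq' (h0.trans ((congrArg Subtype.val hee.1).trans h0'.symm))
      (hq1.trans (hee.2.trans hq1'.symm))
    refine Prod.ext hee.1 (Subtype.ext ?_)
    rw [← hn, ← hn', g2 _ le_rfl, g1]

theorem sum_len {V : Type} [Fintype V] {G : SimpleGraph V} {Br : V → Prop} (hD : D2 G Br)
    (hdeg' : ∀ v, ¬ Br v → (nb G v).card = 0 ∨ (nb G v).card = 2)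
    {n : V → V → ℕ} {p : V → V → ℕ → V}
    (hp : ∀ x a, Br x → G.Adj x a → Thr G Br (n x a) (p x a) ∧ p x a 0 = x ∧ p x a 1 = a)
    {q : ℕ} (havg : 2 * (q + 1) * (univ.filter (fun v => (nb G v).card ≠ 0)).card ≤
      q * ∑ v, (nb G v).card) :
    ∑ x : {v // Br v}, ∑ a ∈ nb G x.1, n x.1 a ≤ (q + 1) * ∑ x : {v // Br v}, (nb G x.1).card := by
  obtain ⟨t, ht⟩ : ∃ t, t = ∑ x : {v // Br v}, (nb G x.1).card := ⟨_, rfl⟩
  obtain ⟨S, hS⟩ : ∃ S, S = ∑ x : {v // Br v}, ∑ a ∈ nb G x.1, n x.1 a := ⟨_, rfl⟩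
  have hsub : ∀ f : V → ℕ, ∑ x ∈ univ.filter Br, f x = ∑ x : {v // Br v}, f x.1 := by
    intro f
    exact Finset.sum_subtype _ (fun x => by simp) f
  have hSle : S ≤ ∑ v, (nb G v).card := by
    have := darts_sum hD (fun x a => hp x a)
    rw [hsub (fun x => ∑ a ∈ nb G x, n x a)] at this
    rw [hS]
    exact this
  obtain ⟨n₂, hn₂⟩ : ∃ n₂, n₂ = (univ.filter (fun v => ¬ Br v ∧ (nb G v).card ≠ 0)).card :=
    ⟨_, rfl⟩
  have hall : ∑ v, (nb G v).card = t + 2 * n₂ := by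
    rw [← Finset.sum_filter_add_sum_filter_not univ Br, hsub (fun x => (nb G x).card), ← ht]
    congr 1
    have h1 : ∀ v ∈ univ.filter (fun v => ¬ Br v), (nb G v).card =
        if (nb G v).card ≠ 0 then 2 else 0 := by
      intro v hv
      rw [mem_filter] at hv
      rcases hdeg' v hv.2 with h | h <;> simp [h]
    rw [Finset.sum_congr rfl h1, Finset.sum_ite, Finset.sum_const_zero, add_zero, Finset.sum_const,
      smul_eq_mul, Finset.filter_filter, hn₂, mul_comm]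
  have hn₂le : n₂ ≤ (univ.filter (fun v => (nb G v).card ≠ 0)).card := by
    rw [hn₂]
    refine card_le_card fun v hv => ?_
    rw [mem_filter] at hv ⊢
    exact ⟨hv.1, hv.2.2⟩
  have h2n₂ : 2 * n₂ ≤ q * t := by
    have h1 := (Nat.mul_le_mul_left (2 * (q + 1)) hn₂le).trans havg
    rw [hall] at h1
    have h2 : 2 * (q + 1) * n₂ = 2 * (q * n₂) + 2 * n₂ := by ring
    have h3 : q * (t + 2 * n₂) = q * t + 2 * (q * n₂) := by ring
    omega
  rw [← hS, ← ht]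
  have h3 : (q + 1) * t = q * t + t := by ring
  omega

/-- the radius in which cycles are found -/
def rs (m L : ℕ) : ℕ := (16 * Us L) * (2 * (192 * gs L * L) + 2 * (616 * (16 * Us L) ^ 2 * (m + 1)) + 4)

theorem radius_topD (m L : ℕ) :
    (2 * (2 * (4 * Us L))) ^ rs m L * (2 * (2 * (4 * Us L)) *
      (56 * (2 * (m * Fs L ^ L) * (2 * (2 * rs m L) + 1) + 1))) <
      (2 * (2 * (4 * Us L)) + 1) ^ rs m L := by
  obtain ⟨B, hB⟩ : ∃ B, B = 16 * Us L := ⟨_, rfl⟩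
  have hB' : 2 * (2 * (4 * Us L)) = B := by rw [hB]; ring
  have hB1 : 0 < B := by rw [hB, Us]; omega
  obtain ⟨A, hA⟩ : ∃ A, A = 192 * gs L * L := ⟨_, rfl⟩
  obtain ⟨κ, hκ⟩ : ∃ κ, κ = 616 * B ^ 2 * (m + 1) := ⟨_, rfl⟩
  obtain ⟨ρ, hρ⟩ : ∃ ρ, ρ = 2 * A + 2 * κ + 4 := ⟨_, rfl⟩
  have hr : rs m L = B * ρ := by
    rw [rs, hρ, hκ, hA, hB]
  rw [hB', hr]
  obtain ⟨T, hT⟩ : ∃ T, T = B * (56 * (2 * (m * Fs L ^ L) * (2 * (2 * (B * ρ)) + 1) + 1)) :=
    ⟨_, rfl⟩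
  rw [← hT]
  have hF : Fs L ^ L ≤ 2 ^ A := by
    have h1 : gs L ≤ 2 ^ gs L := (Nat.lt_two_pow_self).le
    obtain ⟨n, hn⟩ : ∃ n, n = 192 := ⟨_, rfl⟩
    have hFs : Fs L = gs L ^ n := by
      rw [hn]
      unfold Fs
      rfl
    rw [hFs, hA, ← hn]
    clear hFs hn hr
    calc (gs L ^ n) ^ L ≤ ((2 ^ gs L) ^ n) ^ L := Nat.pow_le_pow_left (Nat.pow_le_pow_left h1 _) _
      _ = 2 ^ (n * gs L * L) := by
        rw [← pow_mul, ← pow_mul]
        congr 1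
        ring
  have hTlt : T < 2 ^ ρ := by
    have h1 : T ≤ κ * 2 ^ A * ρ := by
      have hρ1 : 1 ≤ ρ := by omega
      have hBρ : 1 ≤ B * ρ := Nat.mul_pos hB1 hρ1
      have hP : 1 ≤ 2 ^ A := Nat.one_le_two_pow
      obtain ⟨z, hz⟩ : ∃ z, z = B * ρ := ⟨_, rfl⟩
      obtain ⟨P, hPd⟩ : ∃ P, P = 2 ^ A := ⟨_, rfl⟩
      rw [← hPd] at hF hP ⊢
      rw [← hz] at hT hBρ
      have e1 : 2 * (m * Fs L ^ L) * (2 * (2 * z) + 1) ≤ 10 * (m * P * z) := by
        calc 2 * (m * Fs L ^ L) * (2 * (2 * z) + 1) ≤ 2 * (m * P) * (5 * z) :=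
              Nat.mul_le_mul (Nat.mul_le_mul_left _ (Nat.mul_le_mul_left _ hF)) (by omega)
          _ = 10 * (m * P * z) := by ring
      have e2 : 1 ≤ P * z := Nat.mul_pos hP hBρ
      have e3 : 11 * ((m + 1) * P * z) = 11 * (m * P * z) + 11 * (P * z) := by ring
      calc T = B * (56 * (2 * (m * Fs L ^ L) * (2 * (2 * z) + 1) + 1)) := hT
        _ ≤ B * (56 * (11 * ((m + 1) * P * z))) := by
          refine Nat.mul_le_mul_left _ (Nat.mul_le_mul_left _ ?_)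
          omega
        _ = 616 * B ^ 2 * (m + 1) * P * ρ := by rw [hz]; ring
        _ = κ * P * ρ := by rw [hκ]
    have h2 : κ * ρ < 2 ^ (2 * κ + A + 4) := by
      have h3 : κ < 2 ^ κ := Nat.lt_two_pow_self
      have h4 : κ + A + 3 < 2 ^ (κ + A + 3) := Nat.lt_two_pow_self
      have h5 : κ * ρ ≤ κ * (2 * (κ + A + 3)) := by
        refine Nat.mul_le_mul_left _ ?_
        omega
      have h6 : κ * (2 * (κ + A + 3)) ≤ 2 ^ κ * (2 * (κ + A + 3)) := Nat.mul_le_mul_right _ h3.le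
      have h7 : 2 ^ κ * (2 * (κ + A + 3)) < 2 ^ κ * (2 * 2 ^ (κ + A + 3)) := by
        refine Nat.mul_lt_mul_of_pos_left ?_ (pow_pos (by norm_num) _)
        omega
      have h8 : 2 ^ κ * (2 * 2 ^ (κ + A + 3)) = 2 ^ (2 * κ + A + 4) := by
        rw [show 2 * κ + A + 4 = κ + (1 + (κ + A + 3)) by ring, pow_add 2 κ, pow_add 2 1, pow_one]
      omega
    calc T ≤ κ * 2 ^ A * ρ := h1
      _ = 2 ^ A * (κ * ρ) := by ring
      _ < 2 ^ A * 2 ^ (2 * κ + A + 4) :=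
        Nat.mul_lt_mul_of_pos_left h2 (pow_pos (by norm_num) _)
      _ = 2 ^ ρ := by
        rw [← pow_add]
        congr 1
        omega
  rw [pow_mul, pow_mul]
  have h2 : (2 * B ^ B) ^ ρ ≤ ((B + 1) ^ B) ^ ρ := Nat.pow_le_pow_left (two_mul_pow_le B hB1) ρ
  rw [mul_pow] at h2
  refine lt_of_lt_of_le ?_ h2
  rw [mul_comm]
  exact Nat.mul_lt_mul_of_pos_right hTlt (pow_pos (pow_pos hB1 B) ρ)

/-- the parameters -/
def qs3 (m L : ℕ) : ℕ := (8 * rs m L + 1) + (2 * Ss L + 1) + 64 * Us L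

/-- the bound -/
def kb3 (m L : ℕ) : ℕ := ((16 + 8 * m) * qs3 m L * Ks m L * (m + 1) + (5 * m + 8)) +
  (rc2 m (Ss L) (Ss L) * ((4 * (2 * Ss L + (Ss L + Ss L + 2) + 1) + 2 * Ss L + 2) * Ks m L) +
    rm2 m (Ss L)) + ((16 + 8 * m) * (m + 1) + (5 * m + 8) + m)

end Pool.Agent.H354_OP
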