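import Pool.Agent.H354_OP.MainH

/-!
# Critical graphs have drawings in which the edges have few crossings: a power of the logarithm of
the inverse of the excess of the average degree over two
-/

set_option autoImplicit false

namespace Pool.Agent.H354_OP

open Finset
open scoped Classical

set_option linter.unusedSectionVars false

theorem core3 (m q₀ : ℕ) (V : Type) [Fintype V] (G : SimpleGraph V)
    (hcrit : ∀ e ∈ G.edgeSet, KDraw m (G.deleteEdges {e}))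
    (havg : 2 * (q₀ + 1) * (univ.filter (fun v => (nb G v).card ≠ 0)).card ≤
      q₀ * ∑ v, (nb G v).card) (k : ℕ)
    (hk : kb3 m (Nat.log 2 q₀ + 14) ≤ k) : KDraw k G := by
  by_contra hnk
  obtain ⟨L, hL⟩ : ∃ L, L = Nat.log 2 q₀ + 14 := ⟨_, rfl⟩
  rw [← hL, kb3] at hk
  obtain ⟨U, hU⟩ : ∃ U, U = Us L := ⟨_, rfl⟩
  obtain ⟨s, hs⟩ : ∃ s, s = Ss L := ⟨_, rfl⟩
  obtain ⟨γ, hγ⟩ : ∃ γ, γ = gs L := ⟨_, rfl⟩
  obtain ⟨F, hF⟩ : ∃ F, F = Fs L := ⟨_, rfl⟩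
  obtain ⟨q, hq⟩ : ∃ q, q = qs3 m L := ⟨_, rfl⟩
  obtain ⟨r, hr⟩ : ∃ r, r = rs m L := ⟨_, rfl⟩
  have hrad := radius_topD m L
  rw [← hs, ← hq] at hk
  rw [← hU, ← hr, ← hF] at hrad
  have hUL : U = 16 * (L + 1) := by rw [hU, Us]
  have hsU : s = 96 * U := by rw [hs, Ss, ← hU]
  have hγe : γ = 8 * U * Bc s s := by rw [hγ, gs, ← hU, ← hs]
  obtain ⟨Λ, hΛ⟩ : ∃ Λ, Λ = 192 := ⟨_, rfl⟩
  have hFe : F = γ ^ Λ := by rw [hF, Fs, ← hγ, hΛ]
  have hqe : q = (8 * r + 1) + (2 * s + 1) + 64 * U := by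
    rw [hq, qs3, ← hU, ← hs, ← hr]
  have hKe : Ks m L = F * (F * (m + 1)) := by rw [Ks, ← hF]
  rw [hKe] at hk
  have hBc : 504 ≤ Bc s s := by rw [Bc]; omega
  have hγbig : s + 2 ≤ γ := by
    have h1 : 8 * U * 504 ≤ γ := by rw [hγe]; exact Nat.mul_le_mul_left _ hBc
    omega
  have hγ1 : 1 ≤ γ := by omega
  have hFγ : γ ≤ F := by
    rw [hFe]
    calc γ = γ ^ 1 := (pow_one γ).symm
      _ ≤ γ ^ Λ := Nat.pow_le_pow_right hγ1 (by omega)
  obtain ⟨Br, hBr⟩ : ∃ Br : V → Prop, ∀ v, Br v ↔ 3 ≤ (nb G v).card := ⟨_, fun v => Iff.rfl⟩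
  obtain ⟨hdeg, hPar, ⟨x₀, hx₀⟩, hthr⟩ := base_facts hnk (by omega) hcrit hBr
  have hdeg' : ∀ v, ¬ Br v → (nb G v).card = 0 ∨ (nb G v).card = 2 := fun v hv =>
    hdeg v (not_le.mp ((hBr v).not.mp hv))
  have hD : D2 G Br := d2_of_deg hdeg'
  obtain ⟨n, p, hp⟩ := id hthr
  have hnb : ∀ x : {v // Br v}, (nb (TH G Br) x).card = (nb G x.1).card :=
    fun x => TH.nb_card hD hPar hp x
  obtain ⟨t, ht⟩ : ∃ t, t = ∑ x, (nb (TH G Br) x).card := ⟨_, rfl⟩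
  have hd3 : ∀ x, 3 ≤ (nb (TH G Br) x).card := by
    intro x
    rw [hnb]
    exact (hBr _).mp x.2
  have hlen : ∀ f ∈ (TH G Br).edgeSet, 1 ≤ tl G Br f := by
    intro f
    induction f using Sym2.ind with
    | _ a b =>
      intro h
      have h' : (TH G Br).Adj a b := h
      obtain ⟨q, hq, -⟩ := TH.thread hD hPar h'
      exact hq.pos
  have hq1 : 1 ≤ q := by omega
  -- the factor
  obtain ⟨j, hj, hz⟩ := choose_zone2 (TH G Br) Λ γ (m + 1) (L + 2) (by omega) hγ1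
  obtain ⟨g, hg⟩ : ∃ g, g = γ ^ j * (m + 1) := ⟨_, rfl⟩
  rw [← ht, ← hg, ← hFe] at hz
  have hgF : g ≤ F * (m + 1) := by
    rw [hg, hFe]
    exact Nat.mul_le_mul_right _ (Nat.pow_le_pow_right hγ1 (by omega))
  have hgm : m + 1 ≤ g := by
    rw [hg]
    exact Nat.le_mul_of_pos_left _ (Nat.pow_pos hγ1)
  have hKg : F * g ≤ F * (F * (m + 1)) := Nat.mul_le_mul_left _ hgF
  have hKpos : 1 ≤ F * g := Nat.mul_pos (by omega) (by omega)
  have hdir : NoDir (TH G Br) (tl G Br) q (F * g) := by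
    refine world_dir hnk hcrit hBr hdeg hD hPar hnb hq1 ?_
    have h1 : (16 + 8 * m) * q * (F * g) * (m + 1) ≤
        (16 + 8 * m) * q * (F * (F * (m + 1))) * (m + 1) := by gcongr
    omega
  have hmv : NoMv (TH G Br) (tl G Br) s (2 * s + (s + s + 2) + 1) (F * g) := by
    refine world_mv hnk hcrit hBr hdeg hD hPar hnb hthr hKpos (by omega) ?_
    have h1 : rc2 m s s * ((4 * (2 * s + (s + s + 2) + 1) + 2 * s + 2) * (F * g)) ≤
        rc2 m s s * ((4 * (2 * s + (s + s + 2) + 1) + 2 * s + 2) * (F * (F * (m + 1)))) := by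
      gcongr
    omega
  have hne : Nonempty {v // Br v} := ⟨⟨x₀, hx₀⟩⟩
  have hcard3 : 3 * Fintype.card {v // Br v} ≤ t := by
    rw [ht, ← Finset.card_univ, mul_comm, ← smul_eq_mul, ← sum_const]
    exact sum_le_sum fun x _ => hd3 x
  by_cases hUt : 64 * U ≤ t
  swap
  · -- few branch vertices
    obtain ⟨u, v, huv, w, hw, h2, hl, hmax⟩ := heaviest (exists_cycle hd3 hne) (tl G Br)
    have hlpos := hlen s(u, v) huv
    refine hdir u v huv w ?_ ?_ ?_ ?_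
    · intro he
      have := path_edge_length w hw he
      omega
    · omega
    · intro f hf
      exact (hmax f hf).trans (Nat.le_mul_of_pos_left _ hKpos)
    · intro x _ _ _
      have h3 : (nb (TH G Br) x).card ≤ t := by
        rw [ht]
        exact single_le_sum (f := fun x => (nb (TH G Br) x).card) (fun _ _ => Nat.zero_le _)
          (mem_univ x)
      have h4 : F * g ≤ F * g * tl G Br s(u, v) := Nat.le_mul_of_pos_right _ hlpos
      have h5 : F ≤ F * g := Nat.le_mul_of_pos_right _ (by omega)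
      omega
  -- few long threads
  have hq₀ : q₀ + 1 ≤ 2 ^ (Nat.log 2 q₀ + 1) := Nat.lt_pow_succ_log_self (by norm_num) q₀
  have hFL : 48 * (q₀ + 1) ≤ F ^ L := by
    calc 48 * (q₀ + 1) ≤ 48 * 2 ^ (Nat.log 2 q₀ + 1) := Nat.mul_le_mul_left _ hq₀
      _ ≤ 2 ^ 13 * 2 ^ (Nat.log 2 q₀ + 1) := Nat.mul_le_mul_right _ (by norm_num)
      _ = 2 ^ L := by
        have h13 : L = 13 + (Nat.log 2 q₀ + 1) := by omega
        rw [h13, pow_add 2 13]
      _ ≤ F ^ L := Nat.pow_le_pow_left (by omega) _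
  have hLg : 48 * (univ.filter (fun e : {v // Br v} × {v // Br v} =>
      (TH G Br).Adj e.1 e.2 ∧ F ^ L < tl G Br s(e.1, e.2))).card ≤ t := by
    have h1 := TH.long_le hD hPar hp (F ^ L)
    have h2 := sum_len hD hdeg' hp havg
    have h3 : ∑ x : {v // Br v}, (nb G x.1).card = t := by
      rw [ht]
      exact sum_congr rfl fun x _ => (hnb x).symm
    rw [h3] at h2
    obtain ⟨lg, hlg⟩ : ∃ lg, lg = ∑ x : {v // Br v},
      ((nb G x.1).filter (fun a => F ^ L < n x.1 a)).card := ⟨_, rfl⟩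
    have h4 : F ^ L * lg ≤ ∑ x : {v // Br v}, ∑ a ∈ nb G x.1, n x.1 a := by
      rw [hlg, Finset.mul_sum]
      refine Finset.sum_le_sum fun x _ => ?_
      rw [Finset.card_filter, Finset.mul_sum]
      refine Finset.sum_le_sum fun a _ => ?_
      split_ifs <;> omega
    rw [← hlg] at h1
    have h5 : (q₀ + 1) * (48 * lg) ≤ (q₀ + 1) * t := by
      calc (q₀ + 1) * (48 * lg) = 48 * (q₀ + 1) * lg := by ring
        _ ≤ F ^ L * lg := Nat.mul_le_mul_right _ hFL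
        _ ≤ (q₀ + 1) * t := h4.trans h2
    have h6 := Nat.le_of_mul_le_mul_left h5 (Nat.succ_pos q₀)
    omega
  -- the world
  have hx₀' := (hBr _).mp hx₀
  obtain ⟨a₀, ha₀⟩ : ∃ a₀, a₀ ∈ nb G x₀ := Finset.card_pos.mp (by omega)
  rw [mem_nb] at ha₀
  obtain ⟨hp₀, hp₀0, hp₀1⟩ := hp x₀ a₀ hx₀ ha₀
  obtain ⟨pos, A, hd, hxs⟩ := hcrit s(x₀, a₀) ha₀
  obtain ⟨D, hDD⟩ : ∃ D : Dat {v // Br v}, D = ⟨TH G Br, tl G Br,
    s(⟨x₀, hx₀⟩, ⟨p x₀ a₀ (n x₀ a₀), hp₀.bn⟩), F, γ, g⟩ := ⟨_, rfl⟩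
  have hOk : D.Ok m s s q t := by
    rw [hDD]
    refine ⟨ht.symm, hd3, hlen, hgm, hγ1, by simp only; omega, hdir, hmv, ?_⟩
    intro N
    simp only
    rw [TN_eq hD hPar]
    obtain ⟨C, hC⟩ := TGS.topD hD (N := N) (e := s(x₀, a₀))
      (e₀ := s(x₀, p x₀ a₀ (n x₀ a₀))) (by
        rintro n' p' hp' ⟨i, hi, h⟩
        have := hp'.edge hD hp₀ hi hp₀.pos (by rw [h, hp₀0, hp₀1])
        rw [this, hp₀0]) (hd.topD hxs)
    exact ⟨_, C, hC⟩
  refine hOk.no_world3 (J := L + 1) (U := U) (r := r) (by omega) (by omega) hsU hsU (by omega)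
    (by omega) ?_ ?_ hUt ?_ ?_
  · rw [hDD]
    simp only [Dat.N]
    rw [Nn_succ]
    exact hrad
  · rw [hDD]
    simp only
    rw [hγe]
  · rw [hDD, ← hΛ]
    exact hz
  · rw [hDD]
    simp only [Dat.Lg, Dat.N]
    rw [Nn_succ]
    exact hLg

theorem PB_kb3 : PB kb3 := by
  have hc := fun c => PB.const c
  have hm : PB (fun m _ => m) := PB.left fun m => m
  have hx := PB.right
  have hU : PB (fun _ x => Us x) := (hc 16).mul (hx.add (hc 1))
  have hS : PB (fun _ x => Ss x) := (hc 96).mul hU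
  have hg : PB (fun _ x => gs x) := ((hc 8).mul hU).mul (PB_Bc hS hS)
  have hF : PB (fun _ x => Fs x) := hg.pow 192
  have hK : PB (fun m x => Ks m x) := hF.mul (hF.mul (hm.add (hc 1)))
  have hr : PB rs := ((hc 16).mul hU).mul ((((hc 2).mul (((hc 192).mul hg).mul hx)).add
    ((hc 2).mul (((hc 616).mul (((hc 16).mul hU).pow 2)).mul (hm.add (hc 1))))).add (hc 4))
  have hq : PB qs3 := ((((hc 8).mul hr).add (hc 1)).add (((hc 2).mul hS).add (hc 1))).add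
    ((hc 64).mul hU)
  have hrm : PB (fun m x => rm2 m (Ss x)) := hm.add (((hc 4).mul (hm.add (hc 2))).mul hS)
  have hca : PB (fun m x => ca m (Ss x)) := (hc 4).mul ((((hc 8).mul hS).add (hc 9)).add
    ((hc 12).mul hm))
  have hrc : PB (fun m x => rc2 m (Ss x) (Ss x)) := by
    refine PB.mono (g := fun m x => Ss x * ((4 * ca m (Ss x) + 8) +
      4 * (8 * Ss x + 9 + 12 * rm2 m (Ss x)))) ?_ (fun m x => rc2_le m _ _ le_rfl)
    exact hS.mul ((((hc 4).mul hca).add (hc 8)).add ((hc 4).mul ((((hc 8).mul hS).add (hc 9)).add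
      ((hc 12).mul hrm))))
  have h1 : PB (fun m x => (16 + 8 * m) * qs3 m x * Ks m x * (m + 1) + (5 * m + 8)) :=
    ((((((hc 16).add ((hc 8).mul hm)).mul hq).mul hK).mul (hm.add (hc 1))).add
      (((hc 5).mul hm).add (hc 8)))
  have h2 : PB (fun m x => rc2 m (Ss x) (Ss x) * ((4 * (2 * Ss x + (Ss x + Ss x + 2) + 1) +
      2 * Ss x + 2) * Ks m x) + rm2 m (Ss x)) :=
    (hrc.mul ((((((hc 4).mul ((((hc 2).mul hS).add ((hS.add hS).add (hc 2))).add (hc 1))).add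
      ((hc 2).mul hS)).add (hc 2)).mul hK))).add hrm
  have h3 : PB (fun m _ => (16 + 8 * m) * (m + 1) + (5 * m + 8) + m) := PB.left _
  exact (h1.add h2).add h3

theorem main_avglog : ∃ d : ℕ, ∀ m : ℕ, ∃ C : ℕ, ∀ (q : ℕ) (V : Type) [Fintype V]
    (G : SimpleGraph V), (∀ e ∈ G.edgeSet, KDraw m (G.deleteEdges {e})) →
    2 * (q + 1) * (univ.filter (fun v => (nb G v).card ≠ 0)).card ≤ q * ∑ v, (nb G v).card →
    ∀ k, C * (Nat.log 2 q + 1) ^ d ≤ k → KDraw k G := by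
  obtain ⟨d, hd⟩ := PB_kb3
  refine ⟨d, fun m => ?_⟩
  obtain ⟨C, hC⟩ := hd m
  refine ⟨C * 14 ^ d, fun q V _ G hcrit havg k hk => core3 m q V G hcrit havg k ?_⟩
  refine (hC _ (by omega)).trans (le_trans ?_ hk)
  rw [mul_assoc, ← mul_pow]
  exact Nat.mul_le_mul_left _ (Nat.pow_le_pow_left (by omega) d)

/-- both bounds together -/
theorem main_avglog2 : ∃ d : ℕ, ∀ m : ℕ, ∃ C : ℕ, ∀ (V : Type) [Fintype V]
    (G : SimpleGraph V), (∀ e ∈ G.edgeSet, KDraw m (G.deleteEdges {e})) → ∀ q : ℕ,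
    (Fintype.card V ≤ q ∨ 2 * (q + 1) * (univ.filter (fun v => (nb G v).card ≠ 0)).card ≤
      q * ∑ v, (nb G v).card) →
    ∀ k, C * (Nat.log 2 q + 1) ^ d ≤ k → KDraw k G := by
  obtain ⟨d₁, h₁⟩ := main_polylog
  obtain ⟨d₂, h₂⟩ := main_avglog
  refine ⟨d₁ + d₂, fun m => ?_⟩
  obtain ⟨C₁, h₁⟩ := h₁ m
  obtain ⟨C₂, h₂⟩ := h₂ m
  refine ⟨C₁ + C₂, fun V _ G hcrit q hq k hk => ?_⟩
  obtain ⟨ℓ, hℓ⟩ : ∃ ℓ, ℓ = Nat.log 2 q + 1 := ⟨_, rfl⟩
  rw [← hℓ] at hk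
  have hℓ1 : 1 ≤ ℓ := by omega
  rcases hq with hq | hq
  · refine h₁ V G hcrit k (le_trans ?_ hk)
    have h3 : Nat.log 2 (Fintype.card V) + 1 ≤ ℓ := by
      rw [hℓ]
      exact Nat.succ_le_succ (Nat.log_mono_right hq)
    calc C₁ * (Nat.log 2 (Fintype.card V) + 1) ^ d₁ ≤ C₁ * ℓ ^ (d₁ + d₂) :=
          Nat.mul_le_mul_left _ ((Nat.pow_le_pow_left h3 _).trans
            (Nat.pow_le_pow_right hℓ1 (by omega)))
      _ ≤ (C₁ + C₂) * ℓ ^ (d₁ + d₂) := Nat.mul_le_mul_right _ (by omega)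
  · refine h₂ q V G hcrit hq k (le_trans ?_ hk)
    rw [← hℓ]
    calc C₂ * ℓ ^ d₂ ≤ C₂ * ℓ ^ (d₁ + d₂) :=
          Nat.mul_le_mul_left _ (Nat.pow_le_pow_right hℓ1 (by omega))
      _ ≤ (C₁ + C₂) * ℓ ^ (d₁ + d₂) := Nat.mul_le_mul_right _ (by omega)

end Pool.Agent.H354_OP
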