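import Pool.Agent.H354_OP.Pk9
import Pool.Agent.H354_OP.MainI

/-!
# Critical graphs have drawings in which the edges have few crossings: a power of the logarithm of
the number of vertices of degree at least three
-/

set_option autoImplicit false

namespace Pool.Agent.H354_OP

open Finset
open scoped Classical

set_option linter.unusedSectionVars false

theorem core4 (m q₀ : ℕ) (V : Type) [Fintype V] (G : SimpleGraph V)
    (hcrit : ∀ e ∈ G.edgeSet, KDraw m (G.deleteEdges {e}))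
    (hn₃ : (univ.filter (fun v => 3 ≤ (nb G v).card)).card ≤ q₀) (k : ℕ)
    (hk : kb m (Nat.log 2 q₀ + 1) ≤ k) : KDraw k G := by
  by_contra hnk
  obtain ⟨L, hL⟩ : ∃ L, L = Nat.log 2 q₀ + 1 := ⟨_, rfl⟩
  rw [← hL, kb] at hk
  obtain ⟨U, hU⟩ : ∃ U, U = Us L := ⟨_, rfl⟩
  obtain ⟨s, hs⟩ : ∃ s, s = Ss L := ⟨_, rfl⟩
  obtain ⟨γ, hγ⟩ : ∃ γ, γ = gs L := ⟨_, rfl⟩
  obtain ⟨F, hF⟩ : ∃ F, F = Fs L := ⟨_, rfl⟩
  obtain ⟨q, hq⟩ : ∃ q, q = qs L := ⟨_, rfl⟩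
  rw [← hs, ← hq] at hk
  have hLpos : 1 ≤ L := by omega
  have hUL : U = 16 * (L + 1) := by rw [hU, Us]
  have hsU : s = 96 * U := by rw [hs, Ss, ← hU]
  have hγe : γ = 8 * U * Bc s s := by rw [hγ, gs, ← hU, ← hs]
  obtain ⟨Λ, hΛ⟩ : ∃ Λ, Λ = 192 := ⟨_, rfl⟩
  have hFe : F = γ ^ Λ := by rw [hF, Fs, ← hγ, hΛ]
  have hqe : q = (8 * (4 * U) + 1) * (2 * L) + (2 * s + 1) + 64 * U := by
    rw [hq, qs, ← hU, ← hs]
  have hKe : Ks m L = F * (F * (m + 1)) := by rw [Ks, ← hF]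
  rw [hKe] at hk
  have hBc : 504 ≤ Bc s s := by rw [Bc]; omega
  have hγbig : s + 2 ≤ γ := by
    have h1 : 8 * U * 504 ≤ γ := by rw [hγe]; exact Nat.mul_le_mul_left _ hBc
    omega
  have hγ1 : 1 ≤ γ := by omega
  have hFγ : γ ≤ F := by
    rw [hFe]
    calc γ = γ ^ 1 := (pow_one γ).symm
      _ ≤ γ ^ Λ := Nat.pow_le_pow_right hγ1 (by omega)
  obtain ⟨Br, hBr⟩ : ∃ Br : V → Prop, ∀ v, Br v ↔ 3 ≤ (nb G v).card := ⟨_, fun v => Iff.rfl⟩
  obtain ⟨hdeg, hPar, ⟨x₀, hx₀⟩, hthr⟩ := base_facts hnk (by omega) hcrit hBr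
  have hdeg' : ∀ v, ¬ Br v → (nb G v).card = 0 ∨ (nb G v).card = 2 := fun v hv =>
    hdeg v (not_le.mp ((hBr v).not.mp hv))
  have hD : D2 G Br := d2_of_deg hdeg'
  obtain ⟨n, p, hp⟩ := id hthr
  have hnb : ∀ x : {v // Br v}, (nb (TH G Br) x).card = (nb G x.1).card :=
    fun x => TH.nb_card hD hPar hp x
  obtain ⟨t, ht⟩ : ∃ t, t = ∑ x, (nb (TH G Br) x).card := ⟨_, rfl⟩
  have hd3 : ∀ x, 3 ≤ (nb (TH G Br) x).card := by
    intro x
    rw [hnb]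
    exact (hBr _).mp x.2
  have hcV : Fintype.card {v // Br v} ≤ q₀ := by
    rw [Fintype.card_subtype]
    refine le_trans (card_le_card ?_) hn₃
    intro v hv
    rw [mem_filter] at hv ⊢
    exact ⟨mem_univ _, (hBr v).mp hv.2⟩
  have hdV : ∀ x, (nb (TH G Br) x).card ≤ q₀ := fun x => (card_le_univ _).trans hcV
  have htn : t ≤ q₀ * q₀ := by
    rw [ht]
    refine (sum_le_sum fun x _ => hdV x).trans ?_
    rw [sum_const, smul_eq_mul, card_univ]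
    exact Nat.mul_le_mul_right _ hcV
  have hlen : ∀ f ∈ (TH G Br).edgeSet, 1 ≤ tl G Br f := by
    intro f
    induction f using Sym2.ind with
    | _ a b =>
      intro h
      have h' : (TH G Br).Adj a b := h
      obtain ⟨q, hq, -⟩ := TH.thread hD hPar h'
      exact hq.pos
  have hV2 : q₀ < 2 ^ L := by
    rw [hL]
    exact Nat.lt_pow_succ_log_self (by norm_num) _
  have hlogt : Nat.log 2 t + 1 ≤ 2 * L := by
    have h2 : t < 2 ^ (2 * L) := by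
      calc t ≤ q₀ * q₀ := htn
        _ < 2 ^ L * 2 ^ L := Nat.mul_lt_mul_of_lt_of_le hV2 hV2.le (by positivity)
        _ = 2 ^ (2 * L) := by rw [← pow_add, two_mul]
    rcases Nat.eq_zero_or_pos t with h0 | h0
    · rw [h0, Nat.log_zero_right]
      omega
    · have h3 : 2 ^ Nat.log 2 t < 2 ^ (2 * L) :=
        (Nat.pow_log_le_self 2 (by omega)).trans_lt h2
      have h4 := (Nat.pow_lt_pow_iff_right (by norm_num : 1 < 2)).mp h3
      omega
  have hqc : (8 * (4 * U) + 1) * (Nat.log 2 t + 1) ≤ q := by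
    have h1 : (8 * (4 * U) + 1) * (Nat.log 2 t + 1) ≤ (8 * (4 * U) + 1) * (2 * L) :=
      Nat.mul_le_mul_left _ hlogt
    omega
  have hq1 : 1 ≤ q := by omega
  -- the factor
  obtain ⟨j, hj, hz⟩ := choose_zone2 (TH G Br) Λ γ (m + 1) (L + 1) (by omega) hγ1
  obtain ⟨g, hg⟩ : ∃ g, g = γ ^ j * (m + 1) := ⟨_, rfl⟩
  rw [← ht, ← hg, ← hFe] at hz
  have hgF : g ≤ F * (m + 1) := by
    rw [hg, hFe]
    exact Nat.mul_le_mul_right _ (Nat.pow_le_pow_right hγ1 (by omega))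
  have hgm : m + 1 ≤ g := by
    rw [hg]
    exact Nat.le_mul_of_pos_left _ (Nat.pow_pos hγ1)
  have hKg : F * g ≤ F * (F * (m + 1)) := Nat.mul_le_mul_left _ hgF
  have hKpos : 1 ≤ F * g := Nat.mul_pos (by omega) (by omega)
  have hdir : NoDir (TH G Br) (tl G Br) q (F * g) := by
    refine world_dir hnk hcrit hBr hdeg hD hPar hnb hq1 ?_
    have h1 : (16 + 8 * m) * q * (F * g) * (m + 1) ≤
        (16 + 8 * m) * q * (F * (F * (m + 1))) * (m + 1) := by gcongr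
    omega
  have hmv : NoMv (TH G Br) (tl G Br) s (2 * s + (s + s + 2) + 1) (F * g) := by
    refine world_mv hnk hcrit hBr hdeg hD hPar hnb hthr hKpos (by omega) ?_
    have h1 : rc2 m s s * ((4 * (2 * s + (s + s + 2) + 1) + 2 * s + 2) * (F * g)) ≤
        rc2 m s s * ((4 * (2 * s + (s + s + 2) + 1) + 2 * s + 2) * (F * (F * (m + 1)))) := by
      gcongr
    omega
  have hne : Nonempty {v // Br v} := ⟨⟨x₀, hx₀⟩⟩
  have hcard3 : 3 * Fintype.card {v // Br v} ≤ t := by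
    rw [ht, ← Finset.card_univ, mul_comm, ← smul_eq_mul, ← sum_const]
    exact sum_le_sum fun x _ => hd3 x
  by_cases hUt : 64 * U ≤ t
  swap
  · -- few branch vertices
    obtain ⟨u, v, huv, w, hw, h2, hl, hmax⟩ := heaviest (exists_cycle hd3 hne) (tl G Br)
    have hlpos := hlen s(u, v) huv
    refine hdir u v huv w ?_ ?_ ?_ ?_
    · intro he
      have := path_edge_length w hw he
      omega
    · omega
    · intro f hf
      exact (hmax f hf).trans (Nat.le_mul_of_pos_left _ hKpos)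
    · intro x _ _ _
      have h3 : (nb (TH G Br) x).card ≤ t := by
        rw [ht]
        exact single_le_sum (f := fun x => (nb (TH G Br) x).card) (fun _ _ => Nat.zero_le _)
          (mem_univ x)
      have h4 : F * g ≤ F * g * tl G Br s(u, v) := Nat.le_mul_of_pos_right _ hlpos
      have h5 : F ≤ F * g := Nat.le_mul_of_pos_right _ (by omega)
      omega
  -- the world
  have hx₀' := (hBr _).mp hx₀
  obtain ⟨a₀, ha₀⟩ : ∃ a₀, a₀ ∈ nb G x₀ := Finset.card_pos.mp (by omega)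
  rw [mem_nb] at ha₀
  obtain ⟨hp₀, hp₀0, hp₀1⟩ := hp x₀ a₀ hx₀ ha₀
  obtain ⟨pos, A, hd, hxs⟩ := hcrit s(x₀, a₀) ha₀
  obtain ⟨D, hDD⟩ : ∃ D : Dat {v // Br v}, D = ⟨TH G Br, tl G Br,
    s(⟨x₀, hx₀⟩, ⟨p x₀ a₀ (n x₀ a₀), hp₀.bn⟩), F, γ, g⟩ := ⟨_, rfl⟩
  have hOk : D.Ok m s s q t := by
    rw [hDD]
    refine ⟨ht.symm, hd3, hlen, hgm, hγ1, by simp only; omega, hdir, hmv, ?_⟩
    intro N
    simp only
    rw [TN_eq hD hPar]
    obtain ⟨C, hC⟩ := TGS.topD hD (N := N) (e := s(x₀, a₀))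
      (e₀ := s(x₀, p x₀ a₀ (n x₀ a₀))) (by
        rintro n' p' hp' ⟨i, hi, h⟩
        have := hp'.edge hD hp₀ hi hp₀.pos (by rw [h, hp₀0, hp₀1])
        rw [this, hp₀0]) (hd.topD hxs)
    exact ⟨_, C, hC⟩
  have hVF : q₀ ≤ F ^ L := by
    refine hV2.le.trans (Nat.pow_le_pow_left ?_ _)
    omega
  refine hOk.no_world4 (J := L + 1) (U := U) (by omega) (by omega) hsU hsU (by omega) hqc ?_ hUt
    ?_ ?_
  · rw [hDD]
    simp only
    rw [hγe]
  · rw [hDD, ← hΛ]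
    exact hz
  · intro x
    rw [hDD]
    simp only [Dat.N]
    rw [Nn_succ]
    refine (hdV x).trans (hVF.trans ?_)
    exact Nat.le_mul_of_pos_left _ (by omega)

/-- both bounds together -/
theorem main_avglog3 : ∃ d : ℕ, ∀ m : ℕ, ∃ C : ℕ, ∀ (V : Type) [Fintype V]
    (G : SimpleGraph V), (∀ e ∈ G.edgeSet, KDraw m (G.deleteEdges {e})) → ∀ q : ℕ,
    ((univ.filter (fun v => 3 ≤ (nb G v).card)).card ≤ q ∨
      2 * (q + 1) * (univ.filter (fun v => (nb G v).card ≠ 0)).card ≤ q * ∑ v, (nb G v).card) →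
    ∀ k, C * (Nat.log 2 q + 1) ^ d ≤ k → KDraw k G := by
  obtain ⟨d₁, h₁⟩ := PB_kb
  obtain ⟨d₂, h₂⟩ := main_avglog
  refine ⟨d₁ + d₂, fun m => ?_⟩
  obtain ⟨C₁, h₁⟩ := h₁ m
  obtain ⟨C₂, h₂⟩ := h₂ m
  refine ⟨C₁ + C₂, fun V _ G hcrit q hq k hk => ?_⟩
  rcases hq with hq | hq
  · refine core4 m q V G hcrit hq k ((h₁ _ (Nat.le_add_left 1 _)).trans (le_trans ?_ hk))
    calc C₁ * (Nat.log 2 q + 1) ^ d₁ ≤ C₁ * (Nat.log 2 q + 1) ^ (d₁ + d₂) :=
          Nat.mul_le_mul_left _ (Nat.pow_le_pow_right (Nat.le_add_left 1 _) (by omega))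
      _ ≤ (C₁ + C₂) * (Nat.log 2 q + 1) ^ (d₁ + d₂) := Nat.mul_le_mul_right _ (by omega)
  · refine h₂ q V G hcrit hq k (le_trans ?_ hk)
    calc C₂ * (Nat.log 2 q + 1) ^ d₂ ≤ C₂ * (Nat.log 2 q + 1) ^ (d₁ + d₂) :=
          Nat.mul_le_mul_left _ (Nat.pow_le_pow_right (Nat.le_add_left 1 _) (by omega))
      _ ≤ (C₁ + C₂) * (Nat.log 2 q + 1) ^ (d₁ + d₂) := Nat.mul_le_mul_right _ (by omega)

end Pool.Agent.H354_OP
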