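import Pool.Agent.H354_OP.Wor0
import Pool.Agent.H354_OP.Mad

/-!
# Models of graphs in the graph of the threads
-/

set_option autoImplicit false

namespace Pool.Agent.H354_OP

open Finset
open scoped Classical

set_option linter.unusedSectionVars false

/-- the set of vertices that belongs to a part of a model -/
noncomputable def fat {V : Type} [Fintype V] (G : SimpleGraph V) (Br : V → Prop) {t : ℕ}
    (f : Fin t → Finset {v // Br v}) (i : Fin t) : Finset V :=
  univ.filter (fun v => (∃ x ∈ f i, x.1 = v) ∨ (¬ Br v ∧ ∃ (n : ℕ) (p : ℕ → V) (l : ℕ),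
    Thr G Br n p ∧ l ≤ n ∧ p l = v ∧ (∃ x ∈ f i, x.1 = p 0) ∧
    ∃ j, i ≤ j ∧ ∃ y ∈ f j, y.1 = p n))

theorem mem_fat {V : Type} [Fintype V] {G : SimpleGraph V} {Br : V → Prop} {t : ℕ}
    {f : Fin t → Finset {v // Br v}} {i : Fin t} {v : V} : v ∈ fat G Br f i ↔
    (∃ x ∈ f i, x.1 = v) ∨ (¬ Br v ∧ ∃ (n : ℕ) (p : ℕ → V) (l : ℕ),
      Thr G Br n p ∧ l ≤ n ∧ p l = v ∧ (∃ x ∈ f i, x.1 = p 0) ∧
      ∃ j, i ≤ j ∧ ∃ y ∈ f j, y.1 = p n) := by
  simp only [fat, mem_filter, mem_univ, true_and]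

theorem fat_thread {V : Type} [Fintype V] {G : SimpleGraph V} {Br : V → Prop} {t : ℕ}
    {f : Fin t → Finset {v // Br v}} {i j : Fin t} (hij : i ≤ j) {n : ℕ} {p : ℕ → V}
    (hp : Thr G Br n p) {x y : {v // Br v}} (hx : x ∈ f i) (hx0 : x.1 = p 0) (hy : y ∈ f j)
    (hyn : y.1 = p n) {l : ℕ} (hl : l < n) : p l ∈ fat G Br f i := by
  rw [mem_fat]
  rcases Nat.eq_zero_or_pos l with rfl | h0
  · exact Or.inl ⟨x, hx, hx0⟩
  · exact Or.inr ⟨hp.inn l h0 hl, n, p, l, hp, hl.le, rfl, ⟨x, hx, hx0⟩, j, hij, y, hy, hyn⟩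

theorem fat_walk {V : Type} [Fintype V] {G : SimpleGraph V} {Br : V → Prop} {t : ℕ}
    {f : Fin t → Finset {v // Br v}} {i : Fin t} {x y : {v // Br v}} (w : (TH G Br).Walk x y)
    (hw : ∀ u ∈ w.support, u ∈ f i) : ∃ w' : G.Walk x.1 y.1, ∀ u ∈ w'.support,
      u ∈ fat G Br f i := by
  induction w with
  | @nil x =>
    refine ⟨SimpleGraph.Walk.nil, ?_⟩
    intro u hu
    rw [SimpleGraph.Walk.support_nil, List.mem_singleton] at hu
    rw [mem_fat]
    exact Or.inl ⟨x, hw x (by simp), hu.symm⟩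
  | @cons x z y h w ih =>
    obtain ⟨w2, hw2⟩ := ih (fun u hu => hw u (by simp [hu]))
    obtain ⟨-, n, p, hp, h0, hn⟩ := id h
    obtain ⟨P, -, -, hPs, -⟩ := hp.seq.walk
    have hx : x ∈ f i := hw x (by simp)
    have hz : z ∈ f i := hw z (by simp)
    refine ⟨((P.copy h0 hn).append w2), ?_⟩
    intro u hu
    rw [SimpleGraph.Walk.mem_support_append_iff, SimpleGraph.Walk.support_copy] at hu
    rcases hu with hu | hu
    · obtain ⟨l, hl, rfl⟩ := (hPs u).mp hu
      rcases Nat.lt_or_ge l n with h1 | h1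
      · exact fat_thread le_rfl hp hx h0.symm hz hn.symm h1
      · obtain rfl : l = n := by omega
        rw [mem_fat]
        exact Or.inl ⟨z, hz, hn.symm⟩
    · exact hw2 u hu

theorem TH.model {V : Type} [Fintype V] {G : SimpleGraph V} {Br : V → Prop} (hD : D2 G Br)
    {t : ℕ} (f : Fin t → Finset {v // Br v}) (hne : ∀ i, (f i).Nonempty)
    (hc : ∀ i, Conn (TH G Br) (f i)) (hd : ∀ i j, i ≠ j → Disjoint (f i) (f j)) :
    (∀ i, (fat G Br f i).Nonempty) ∧ (∀ i, Conn G (fat G Br f i)) ∧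
      (∀ i j, i ≠ j → Disjoint (fat G Br f i) (fat G Br f j)) ∧
      ∀ i j, i ≠ j → (∃ a ∈ f i, ∃ b ∈ f j, (TH G Br).Adj a b) →
        ∃ a ∈ fat G Br f i, ∃ b ∈ fat G Br f j, G.Adj a b := by
  refine ⟨?_, ?_, ?_, ?_⟩
  · intro i
    obtain ⟨x, hx⟩ := hne i
    exact ⟨x.1, mem_fat.mpr (Or.inl ⟨x, hx, rfl⟩)⟩
  · intro i
    -- every vertex is joined to a branch vertex
    have key : ∀ v ∈ fat G Br f i, ∃ x ∈ f i, ∃ w : G.Walk v x.1, ∀ u ∈ w.support,
        u ∈ fat G Br f i := by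
      intro v hv
      rcases mem_fat.mp hv with ⟨x, hx, rfl⟩ | ⟨hb, n, p, l, hp, hl, rfl, ⟨x, hx, hx0⟩, j, hj, y,
        hy, hyn⟩
      · refine ⟨x, hx, SimpleGraph.Walk.nil, ?_⟩
        intro u hu
        rw [SimpleGraph.Walk.support_nil, List.mem_singleton] at hu
        rw [hu]
        exact hv
      · obtain ⟨P, -, -, hPs, -⟩ := (hp.seq.mono hl).walk
        refine ⟨x, hx, (P.copy hx0.symm rfl).reverse, ?_⟩
        intro u hu
        rw [SimpleGraph.Walk.support_reverse, List.mem_reverse, SimpleGraph.Walk.support_copy] at hu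
        obtain ⟨l', hl', rfl⟩ := (hPs u).mp hu
        have h1 := hp.inner hl hb
        exact fat_thread hj hp hx hx0 hy hyn (by omega)
    intro a ha b hb
    obtain ⟨x, hx, w1, hw1⟩ := key a ha
    obtain ⟨y, hy, w2, hw2⟩ := key b hb
    obtain ⟨w, hw⟩ := hc i x hx y hy
    obtain ⟨w3, hw3⟩ := fat_walk w hw
    refine ⟨(w1.append w3).append w2.reverse, ?_⟩
    intro u hu
    rw [SimpleGraph.Walk.mem_support_append_iff, SimpleGraph.Walk.mem_support_append_iff,
      SimpleGraph.Walk.support_reverse, List.mem_reverse] at hu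
    rcases hu with (hu | hu) | hu
    · exact hw1 u hu
    · exact hw3 u hu
    · exact hw2 u hu
  · -- disjointness
    have key : ∀ i j, i < j → Disjoint (fat G Br f i) (fat G Br f j) := by
      intro i j hij
      rw [Finset.disjoint_left]
      intro v hv hv'
      have hdis : ∀ {a b : Fin t} {x y : {v // Br v}}, x ∈ f a → y ∈ f b → x.1 = y.1 → a = b := by
        intro a b x y hx hy hxy
        by_contra hne
        have := Subtype.ext hxy
        subst this
        exact Finset.disjoint_left.mp (hd a b hne) hx hy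
      rcases mem_fat.mp hv with ⟨x, hx, rfl⟩ | ⟨hb, n, p, l, hp, hl, rfl, ⟨x, hx, hx0⟩, j₁, hj₁,
        y, hy, hyn⟩
      · rcases mem_fat.mp hv' with ⟨x', hx', h⟩ | ⟨hb', -⟩
        · exact hij.ne (hdis hx hx' h.symm)
        · exact hb' x.2
      · rcases mem_fat.mp hv' with ⟨x', hx', h⟩ | ⟨-, n', p', l', hp', hl', he, ⟨x', hx', hx0'⟩,
          j₂, hj₂, y', hy', hyn'⟩
        · exact hb (h ▸ x'.2)
        · have h1 := hp.vertex hD hp' hl hl' hb he.symm
          rw [Sym2.eq_iff] at h1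
          rcases h1 with ⟨h1, -⟩ | ⟨h1, -⟩
          · exact hij.ne (hdis hx hx' (hx0.trans (h1.trans hx0'.symm)))
          · have h2 := hdis hx hy' (hx0.trans (h1.trans hyn'.symm))
            rw [← h2] at hj₂
            exact absurd hj₂ (not_le.mpr hij)
    intro i j hij
    rcases lt_or_gt_of_ne hij with h | h
    · exact key i j h
    · exact (key j i h).symm
  · have key : ∀ i j, i < j → (∃ a ∈ f i, ∃ b ∈ f j, (TH G Br).Adj a b) →
        ∃ a ∈ fat G Br f i, ∃ b ∈ fat G Br f j, G.Adj a b := by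
      rintro i j hij ⟨a, ha, b, hb, hab⟩
      obtain ⟨-, n, p, hp, h0, hn⟩ := id hab
      have hpos := hp.pos
      refine ⟨p (n - 1), fat_thread hij.le hp ha h0.symm hb hn.symm (by omega), p n, ?_, ?_⟩
      · rw [mem_fat]
        exact Or.inl ⟨b, hb, hn.symm⟩
      · have := hp.seq.adj (n - 1) (by omega)
        rwa [show n - 1 + 1 = n by omega] at this
    intro i j hij h
    rcases lt_or_gt_of_ne hij with h' | h'
    · exact key i j h' h
    · obtain ⟨a, ha, b, hb, hab⟩ := h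
      obtain ⟨a', ha', b', hb', hab'⟩ := key j i h' ⟨b, hb, a, ha, hab.symm⟩
      exact ⟨b', hb', a', ha', hab'.symm⟩

end Pool.Agent.H354_OP
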