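import Pool.Agent.H354_OP.Qk1
import Pool.Agent.H354_OP.Tran
import Pool.Agent.H354_OP.MainJ

/-!
# Critical graphs without a fixed complete minor: a power of the logarithm of the maximum degree
-/

set_option autoImplicit false

namespace Pool.Agent.H354_OP

open Finset
open scoped Classical

set_option linter.unusedSectionVars false

/-- the radius in which cycles are found -/
def rs5 (t₀ L : ℕ) : ℕ := (16 * Us L) * (16 * Us L + t₀)

theorem radius_spn (t₀ L : ℕ) :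
    (2 * (2 * (4 * Us L))) ^ rs5 t₀ L * (2 * (2 * (4 * Us L)) * 2 ^ t₀) <
      (2 * (2 * (4 * Us L)) + 1) ^ rs5 t₀ L := by
  obtain ⟨B, hB⟩ : ∃ B, B = 16 * Us L := ⟨_, rfl⟩
  have hB' : 2 * (2 * (4 * Us L)) = B := by rw [hB]; ring
  have hB1 : 0 < B := by rw [hB, Us]; omega
  have hr : rs5 t₀ L = B * (B + t₀) := by rw [rs5, hB]
  rw [hB', hr, pow_mul, pow_mul]
  have h2 : (2 * B ^ B) ^ (B + t₀) ≤ ((B + 1) ^ B) ^ (B + t₀) :=
    Nat.pow_le_pow_left (two_mul_pow_le B hB1) _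
  rw [mul_pow] at h2
  refine lt_of_lt_of_le ?_ h2
  rw [mul_comm]
  refine Nat.mul_lt_mul_of_pos_right ?_ (pow_pos (pow_pos hB1 B) _)
  rw [pow_add]
  exact Nat.mul_lt_mul_of_pos_right Nat.lt_two_pow_self (by positivity)

/-- the parameters -/
def qs5 (t₀ L : ℕ) : ℕ := (8 * rs5 t₀ L + 1) + (2 * Ss L + 1) + 64 * Us L

/-- the bound -/
def kb5 (m t₀ L : ℕ) : ℕ := ((16 + 8 * m) * qs5 t₀ L * Ks m L * (m + 1) + (5 * m + 8)) +
  (rc2 m (Ss L) (Ss L) * ((4 * (2 * Ss L + (Ss L + Ss L + 2) + 1) + 2 * Ss L + 2) * Ks m L) +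
    rm2 m (Ss L)) + ((16 + 8 * m) * (m + 1) + (5 * m + 8) + m)

theorem core5 (m t₀ q₀ : ℕ) (V : Type) [Fintype V] (G : SimpleGraph V)
    (hcrit : ∀ e ∈ G.edgeSet, KDraw m (G.deleteEdges {e}))
    (hmin : ¬ HasK G t₀ univ) (hΔ : ∀ v, (nb G v).card ≤ q₀) (k : ℕ)
    (hk : kb5 m t₀ (Nat.log 2 q₀ + 1) ≤ k) : KDraw k G := by
  by_contra hnk
  obtain ⟨L, hL⟩ : ∃ L, L = Nat.log 2 q₀ + 1 := ⟨_, rfl⟩
  rw [← hL, kb5] at hk
  obtain ⟨U, hU⟩ : ∃ U, U = Us L := ⟨_, rfl⟩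
  obtain ⟨s, hs⟩ : ∃ s, s = Ss L := ⟨_, rfl⟩
  obtain ⟨γ, hγ⟩ : ∃ γ, γ = gs L := ⟨_, rfl⟩
  obtain ⟨F, hF⟩ : ∃ F, F = Fs L := ⟨_, rfl⟩
  obtain ⟨q, hq⟩ : ∃ q, q = qs5 t₀ L := ⟨_, rfl⟩
  obtain ⟨r, hr⟩ : ∃ r, r = rs5 t₀ L := ⟨_, rfl⟩
  have hrad := radius_spn t₀ L
  rw [← hr] at hrad
  rw [← hs, ← hq] at hk
  have hLpos : 1 ≤ L := by omega
  have hUL : U = 16 * (L + 1) := by rw [hU, Us]
  have hsU : s = 96 * U := by rw [hs, Ss, ← hU]
  have hγe : γ = 8 * U * Bc s s := by rw [hγ, gs, ← hU, ← hs]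
  obtain ⟨Λ, hΛ⟩ : ∃ Λ, Λ = 192 := ⟨_, rfl⟩
  have hFe : F = γ ^ Λ := by rw [hF, Fs, ← hγ, hΛ]
  rw [← hU] at hrad
  have hqe : q = (8 * r + 1) + (2 * s + 1) + 64 * U := by
    rw [hq, qs5, ← hU, ← hs, ← hr]
  have hKe : Ks m L = F * (F * (m + 1)) := by rw [Ks, ← hF]
  rw [hKe] at hk
  have hBc : 504 ≤ Bc s s := by rw [Bc]; omega
  have hγbig : s + 2 ≤ γ := by
    have h1 : 8 * U * 504 ≤ γ := by rw [hγe]; exact Nat.mul_le_mul_left _ hBc
    omega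
  have hγ1 : 1 ≤ γ := by omega
  have hFγ : γ ≤ F := by
    rw [hFe]
    calc γ = γ ^ 1 := (pow_one γ).symm
      _ ≤ γ ^ Λ := Nat.pow_le_pow_right hγ1 (by omega)
  obtain ⟨Br, hBr⟩ : ∃ Br : V → Prop, ∀ v, Br v ↔ 3 ≤ (nb G v).card := ⟨_, fun v => Iff.rfl⟩
  obtain ⟨hdeg, hPar, ⟨x₀, hx₀⟩, hthr⟩ := base_facts hnk (by omega) hcrit hBr
  have hdeg' : ∀ v, ¬ Br v → (nb G v).card = 0 ∨ (nb G v).card = 2 := fun v hv =>
    hdeg v (not_le.mp ((hBr v).not.mp hv))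
  have hD : D2 G Br := d2_of_deg hdeg'
  obtain ⟨n, p, hp⟩ := id hthr
  have hnb : ∀ x : {v // Br v}, (nb (TH G Br) x).card = (nb G x.1).card :=
    fun x => TH.nb_card hD hPar hp x
  obtain ⟨t, ht⟩ : ∃ t, t = ∑ x, (nb (TH G Br) x).card := ⟨_, rfl⟩
  have hd3 : ∀ x, 3 ≤ (nb (TH G Br) x).card := by
    intro x
    rw [hnb]
    exact (hBr _).mp x.2
  have hdV : ∀ x, (nb (TH G Br) x).card ≤ q₀ := fun x => by rw [hnb]; exact hΔ _
  have hlen : ∀ f ∈ (TH G Br).edgeSet, 1 ≤ tl G Br f := by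
    intro f
    induction f using Sym2.ind with
    | _ a b =>
      intro h
      have h' : (TH G Br).Adj a b := h
      obtain ⟨q, hq, -⟩ := TH.thread hD hPar h'
      exact hq.pos
  have hV2 : q₀ < 2 ^ L := by
    rw [hL]
    exact Nat.lt_pow_succ_log_self (by norm_num) _
  have hSpn : Spn (2 ^ t₀) (TH G Br) := by
    refine spn_of_minor fun ⟨f, h1, h2⟩ => hmin ?_
    obtain ⟨k1, k2, k3, k4⟩ := TH.model hD f (fun i => (h1 i).1) (fun i => (h1 i).2.1)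
      (fun i j hij => (h2 i j hij).1)
    exact ⟨fat G Br f, fun i => ⟨k1 i, k2 i, subset_univ _⟩, fun i j hij =>
      ⟨k3 i j hij, k4 i j hij (h2 i j hij).2⟩⟩
  have hq1 : 1 ≤ q := by omega
  -- the factor
  obtain ⟨j, hj, hz⟩ := choose_zone2 (TH G Br) Λ γ (m + 1) (L + 1) (by omega) hγ1
  obtain ⟨g, hg⟩ : ∃ g, g = γ ^ j * (m + 1) := ⟨_, rfl⟩
  rw [← ht, ← hg, ← hFe] at hz
  have hgF : g ≤ F * (m + 1) := by
    rw [hg, hFe]
    exact Nat.mul_le_mul_right _ (Nat.pow_le_pow_right hγ1 (by omega))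
  have hgm : m + 1 ≤ g := by
    rw [hg]
    exact Nat.le_mul_of_pos_left _ (Nat.pow_pos hγ1)
  have hKg : F * g ≤ F * (F * (m + 1)) := Nat.mul_le_mul_left _ hgF
  have hKpos : 1 ≤ F * g := Nat.mul_pos (by omega) (by omega)
  have hdir : NoDir (TH G Br) (tl G Br) q (F * g) := by
    refine world_dir hnk hcrit hBr hdeg hD hPar hnb hq1 ?_
    have h1 : (16 + 8 * m) * q * (F * g) * (m + 1) ≤
        (16 + 8 * m) * q * (F * (F * (m + 1))) * (m + 1) := by gcongr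
    omega
  have hmv : NoMv (TH G Br) (tl G Br) s (2 * s + (s + s + 2) + 1) (F * g) := by
    refine world_mv hnk hcrit hBr hdeg hD hPar hnb hthr hKpos (by omega) ?_
    have h1 : rc2 m s s * ((4 * (2 * s + (s + s + 2) + 1) + 2 * s + 2) * (F * g)) ≤
        rc2 m s s * ((4 * (2 * s + (s + s + 2) + 1) + 2 * s + 2) * (F * (F * (m + 1)))) := by
      gcongr
    omega
  have hne : Nonempty {v // Br v} := ⟨⟨x₀, hx₀⟩⟩
  have hcard3 : 3 * Fintype.card {v // Br v} ≤ t := by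
    rw [ht, ← Finset.card_univ, mul_comm, ← smul_eq_mul, ← sum_const]
    exact sum_le_sum fun x _ => hd3 x
  by_cases hUt : 64 * U ≤ t
  swap
  · -- few branch vertices
    obtain ⟨u, v, huv, w, hw, h2, hl, hmax⟩ := heaviest (exists_cycle hd3 hne) (tl G Br)
    have hlpos := hlen s(u, v) huv
    refine hdir u v huv w ?_ ?_ ?_ ?_
    · intro he
      have := path_edge_length w hw he
      omega
    · omega
    · intro f hf
      exact (hmax f hf).trans (Nat.le_mul_of_pos_left _ hKpos)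
    · intro x _ _ _
      have h3 : (nb (TH G Br) x).card ≤ t := by
        rw [ht]
        exact single_le_sum (f := fun x => (nb (TH G Br) x).card) (fun _ _ => Nat.zero_le _)
          (mem_univ x)
      have h4 : F * g ≤ F * g * tl G Br s(u, v) := Nat.le_mul_of_pos_right _ hlpos
      have h5 : F ≤ F * g := Nat.le_mul_of_pos_right _ (by omega)
      omega
  -- the world
  have hx₀' := (hBr _).mp hx₀
  obtain ⟨a₀, ha₀⟩ : ∃ a₀, a₀ ∈ nb G x₀ := Finset.card_pos.mp (by omega)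
  rw [mem_nb] at ha₀
  obtain ⟨hp₀, hp₀0, hp₀1⟩ := hp x₀ a₀ hx₀ ha₀
  obtain ⟨pos, A, hd, hxs⟩ := hcrit s(x₀, a₀) ha₀
  obtain ⟨D, hDD⟩ : ∃ D : Dat {v // Br v}, D = ⟨TH G Br, tl G Br,
    s(⟨x₀, hx₀⟩, ⟨p x₀ a₀ (n x₀ a₀), hp₀.bn⟩), F, γ, g⟩ := ⟨_, rfl⟩
  have hOk : D.Ok m s s q t := by
    rw [hDD]
    refine ⟨ht.symm, hd3, hlen, hgm, hγ1, by simp only; omega, hdir, hmv, ?_⟩
    intro N
    simp only
    rw [TN_eq hD hPar]
    obtain ⟨C, hC⟩ := TGS.topD hD (N := N) (e := s(x₀, a₀))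
      (e₀ := s(x₀, p x₀ a₀ (n x₀ a₀))) (by
        rintro n' p' hp' ⟨i, hi, h⟩
        have := hp'.edge hD hp₀ hi hp₀.pos (by rw [h, hp₀0, hp₀1])
        rw [this, hp₀0]) (hd.topD hxs)
    exact ⟨_, C, hC⟩
  have hVF : q₀ ≤ F ^ L := by
    refine hV2.le.trans (Nat.pow_le_pow_left ?_ _)
    omega
  refine hOk.no_world5 (A := 2 ^ t₀) (J := L + 1) (U := U) (r := r) ?_ (by omega) (by omega) hsU
    hsU (by omega) (by omega) hrad ?_ hUt ?_ ?_
  · rw [hDD]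
    exact hSpn
  · rw [hDD]
    simp only
    rw [hγe]
  · rw [hDD, ← hΛ]
    exact hz
  · intro x
    rw [hDD]
    simp only [Dat.N]
    rw [Nn_succ]
    refine (hdV x).trans (hVF.trans ?_)
    exact Nat.le_mul_of_pos_left _ (by omega)

theorem PB_kb5 : PB (fun i L => kb5 (Nat.unpair i).1 (Nat.unpair i).2 L) := by
  have hc := fun c => PB.const c
  have hm : PB (fun i _ => (Nat.unpair i).1) := PB.left fun i => (Nat.unpair i).1
  have ht : PB (fun i _ => (Nat.unpair i).2) := PB.left fun i => (Nat.unpair i).2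
  have hx := PB.right
  have hU : PB (fun _ x => Us x) := (hc 16).mul (hx.add (hc 1))
  have hS : PB (fun _ x => Ss x) := (hc 96).mul hU
  have hg : PB (fun _ x => gs x) := ((hc 8).mul hU).mul (PB_Bc hS hS)
  have hF : PB (fun _ x => Fs x) := hg.pow 192
  have hK : PB (fun i x => Ks (Nat.unpair i).1 x) := hF.mul (hF.mul (hm.add (hc 1)))
  have hr : PB (fun i x => rs5 (Nat.unpair i).2 x) := ((hc 16).mul hU).mul (((hc 16).mul hU).add ht)
  have hq : PB (fun i x => qs5 (Nat.unpair i).2 x) :=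
    ((((hc 8).mul hr).add (hc 1)).add (((hc 2).mul hS).add (hc 1))).add ((hc 64).mul hU)
  have hrm : PB (fun i x => rm2 (Nat.unpair i).1 (Ss x)) :=
    hm.add (((hc 4).mul (hm.add (hc 2))).mul hS)
  have hca : PB (fun i x => ca (Nat.unpair i).1 (Ss x)) := (hc 4).mul ((((hc 8).mul hS).add (hc 9)).add
    ((hc 12).mul hm))
  have hrc : PB (fun i x => rc2 (Nat.unpair i).1 (Ss x) (Ss x)) := by
    refine PB.mono (g := fun i x => Ss x * ((4 * ca (Nat.unpair i).1 (Ss x) + 8) +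
      4 * (8 * Ss x + 9 + 12 * rm2 (Nat.unpair i).1 (Ss x)))) ?_
      (fun i x => rc2_le (Nat.unpair i).1 _ _ le_rfl)
    exact hS.mul ((((hc 4).mul hca).add (hc 8)).add ((hc 4).mul ((((hc 8).mul hS).add (hc 9)).add
      ((hc 12).mul hrm))))
  have h1 : PB (fun i x => (16 + 8 * (Nat.unpair i).1) * qs5 (Nat.unpair i).2 x *
      Ks (Nat.unpair i).1 x * ((Nat.unpair i).1 + 1) + (5 * (Nat.unpair i).1 + 8)) :=
    ((((((hc 16).add ((hc 8).mul hm)).mul hq).mul hK).mul (hm.add (hc 1))).add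
      (((hc 5).mul hm).add (hc 8)))
  have h2 : PB (fun i x => rc2 (Nat.unpair i).1 (Ss x) (Ss x) *
      ((4 * (2 * Ss x + (Ss x + Ss x + 2) + 1) + 2 * Ss x + 2) * Ks (Nat.unpair i).1 x) +
      rm2 (Nat.unpair i).1 (Ss x)) :=
    (hrc.mul ((((((hc 4).mul ((((hc 2).mul hS).add ((hS.add hS).add (hc 2))).add (hc 1))).add
      ((hc 2).mul hS)).add (hc 2)).mul hK))).add hrm
  have h3 : PB (fun i _ => (16 + 8 * (Nat.unpair i).1) * ((Nat.unpair i).1 + 1) +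
      (5 * (Nat.unpair i).1 + 8) + (Nat.unpair i).1) := PB.left _
  exact (h1.add h2).add h3

theorem main_minor : ∃ d : ℕ, ∀ m t : ℕ, ∃ C : ℕ, ∀ (V : Type) [Fintype V]
    (G : SimpleGraph V), (∀ e ∈ G.edgeSet, KDraw m (G.deleteEdges {e})) → ¬ HasK G t univ →
    ∀ Δ : ℕ, (∀ v, (nb G v).card ≤ Δ) → ∀ k, C * (Nat.log 2 Δ + 1) ^ d ≤ k → KDraw k G := by
  obtain ⟨d, hd⟩ := PB_kb5
  refine ⟨d, fun m t => ?_⟩
  obtain ⟨C, hC⟩ := hd (Nat.pair m t)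
  refine ⟨C, fun V _ G hcrit hmin Δ hΔ k hk => core5 m t Δ V G hcrit hmin hΔ k ?_⟩
  have := hC (Nat.log 2 Δ + 1) (by omega)
  simp only [Nat.unpair_pair] at this
  exact this.trans hk

end Pool.Agent.H354_OP
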