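import Pool.Agent.H354_OP.Tw2

/-!
# Critical graphs without a fixed complete minor in which vertices of large degree are joined by few
disjoint paths: a constant
-/

set_option autoImplicit false

namespace Pool.Agent.H354_OP

open Finset
open scoped Classical

set_option linter.unusedSectionVars false

/-- the factor -/
def K6 (t₀ p D : ℕ) : ℕ :=
  (400 * (p * 2 ^ t₀) * 2 ^ t₀ + 1) ^ (100 * 2 ^ t₀) * (100 * 2 ^ t₀ + D)

/-- the length of the cycles -/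
def q6 (t₀ : ℕ) : ℕ := 8 * (200 * (200 + t₀)) + 1

/-- the bound -/
def kb6 (m t₀ p D : ℕ) : ℕ := ((16 + 8 * m) * q6 t₀ * K6 t₀ p D * (m + 1) + (5 * m + 8)) +
  (rc2 m (K6 t₀ p D) (K6 t₀ p D) * ((4 * 2 + 2 * K6 t₀ p D + 2) * K6 t₀ p D) +
    rm2 m (K6 t₀ p D)) + ((16 + 8 * m) * (m + 1) + (5 * m + 8) + m)

theorem core6 (m t₀ p Dg : ℕ) (V : Type) [Fintype V] (G : SimpleGraph V)
    (hcrit : ∀ e ∈ G.edgeSet, KDraw m (G.deleteEdges {e}))
    (hmin : ¬ HasK G t₀ univ) (hfew : FewD G Dg p) (k : ℕ)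
    (hk : kb6 m t₀ p Dg ≤ k) : KDraw k G := by
  by_contra hnk
  obtain ⟨K, hK⟩ : ∃ K, K = K6 t₀ p Dg := ⟨_, rfl⟩
  obtain ⟨q, hq⟩ : ∃ q, q = q6 t₀ := ⟨_, rfl⟩
  obtain ⟨A, hA⟩ : ∃ A, A = 2 ^ t₀ := ⟨_, rfl⟩
  obtain ⟨γ, hγ⟩ : ∃ γ, γ = 400 * (p * A) * A + 1 := ⟨_, rfl⟩
  obtain ⟨r, hr⟩ : ∃ r, r = 200 * (200 + t₀) := ⟨_, rfl⟩
  have hrad := radius_two t₀
  rw [← hr, ← hA] at hrad
  rw [kb6, ← hK, ← hq] at hk
  have hA1 : 0 < A := by rw [hA]; positivity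
  have hKe : K = γ ^ (100 * A) * (100 * A + Dg) := by rw [hK, K6, hγ, hA]
  have hqe : q = 8 * r + 1 := by rw [hq, q6, hr]
  have hγ1 : 1 ≤ γ := by omega
  have hK100 : 100 * A + Dg ≤ K := by
    rw [hKe]
    exact Nat.le_mul_of_pos_left _ (Nat.pow_pos hγ1)
  obtain ⟨Br, hBr⟩ : ∃ Br : V → Prop, ∀ v, Br v ↔ 3 ≤ (nb G v).card := ⟨_, fun v => Iff.rfl⟩
  obtain ⟨hdeg, hPar, ⟨x₀, hx₀⟩, hthr⟩ := base_facts hnk (by omega) hcrit hBr
  have hdeg' : ∀ v, ¬ Br v → (nb G v).card = 0 ∨ (nb G v).card = 2 := fun v hv =>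
    hdeg v (not_le.mp ((hBr v).not.mp hv))
  have hD : D2 G Br := d2_of_deg hdeg'
  obtain ⟨n, pp, hp⟩ := id hthr
  have hnb : ∀ x : {v // Br v}, (nb (TH G Br) x).card = (nb G x.1).card :=
    fun x => TH.nb_card hD hPar hp x
  have hd3 : ∀ x, 3 ≤ (nb (TH G Br) x).card := by
    intro x
    rw [hnb]
    exact (hBr _).mp x.2
  have hlen : ∀ f ∈ (TH G Br).edgeSet, 1 ≤ tl G Br f := by
    intro f
    induction f using Sym2.ind with
    | _ a b =>
      intro h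
      have h' : (TH G Br).Adj a b := h
      obtain ⟨q, hq, -⟩ := TH.thread hD hPar h'
      exact hq.pos
  have hSpn : Spn A (TH G Br) := by
    rw [hA]
    refine spn_of_minor fun ⟨f, h1, h2⟩ => hmin ?_
    obtain ⟨k1, k2, k3, k4⟩ := TH.model hD f (fun i => (h1 i).1) (fun i => (h1 i).2.1)
      (fun i j hij => (h2 i j hij).1)
    exact ⟨fat G Br f, fun i => ⟨k1 i, k2 i, subset_univ _⟩, fun i j hij =>
      ⟨k3 i j hij, k4 i j hij (h2 i j hij).2⟩⟩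
  have hdir : NoDir (TH G Br) (tl G Br) q K :=
    world_dir hnk hcrit hBr hdeg hD hPar hnb (by omega) (by omega)
  have hmv : NoMv (TH G Br) (tl G Br) K 2 K :=
    world_mv hnk hcrit hBr hdeg hD hPar hnb hthr (by omega) (by omega) (by omega)
  -- the threshold
  obtain ⟨j, hj, hz⟩ := choose_zone2 (TH G Br) (100 * A) γ (100 * A + Dg) 1 (by omega) hγ1
  obtain ⟨S, hS⟩ : ∃ S, S = γ ^ j * (100 * A + Dg) := ⟨_, rfl⟩
  have hSK : S ≤ K := by
    rw [hS, hKe]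
    exact Nat.mul_le_mul_right _ (Nat.pow_le_pow_right hγ1 (by omega))
  have hS100 : 100 * A + Dg ≤ S := by
    rw [hS]
    exact Nat.le_mul_of_pos_left _ (Nat.pow_pos hγ1)
  have hN1 : Nn (γ ^ (100 * A)) 1 = 1 := (Nn_succ _ 0).trans (pow_zero _)
  rw [sum_range_succ, hN1, mul_one, ← hS] at hz
  have hT := spn_sum hSpn
  have hmZ : 100 * ∑ x ∈ Zo (TH G Br) S γ, (nb (TH G Br) x).card ≤
      Fintype.card {v // Br v} := by
    obtain ⟨z, hzz⟩ : ∃ z, z = ∑ x ∈ Zo (TH G Br) S γ, (nb (TH G Br) x).card := ⟨_, rfl⟩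
    rw [← hzz] at hz ⊢
    have h1 : 100 * z * A ≤ Fintype.card {v // Br v} * A := by
      calc 100 * z * A = 100 * A * z := by ring
        _ ≤ 100 * A * (∑ b ∈ range 1, ∑ x ∈ Zo (TH G Br)
            (γ ^ j * (100 * A + Dg) * Nn (γ ^ (100 * A)) b) γ, (nb (TH G Br) x).card + z) :=
          Nat.mul_le_mul_left _ (Nat.le_add_left _ _)
        _ ≤ ∑ x, (nb (TH G Br) x).card := hz
        _ ≤ A * Fintype.card {v // Br v} := hT
        _ = Fintype.card {v // Br v} * A := mul_comm _ _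
    exact Nat.le_of_mul_le_mul_right h1 hA1
  have hn : 0 < Fintype.card {v // Br v} := Fintype.card_pos_iff.mpr ⟨⟨x₀, hx₀⟩⟩
  obtain ⟨v, hv, y, hy, hvy, hw⟩ := good_vertex hSpn hA1 hd3 (W := Lo (TH G Br) S)
    (Z := Zo (TH G Br) S γ) (B := Hb (TH G Br) S γ) rfl rfl rfl (p := p)
    (TH.fewJ hD hnb hfew (fun y hy => by
      rw [mem_Hb] at hy
      have := Nat.le_mul_of_pos_left S hγ1
      omega)) hmZ (by omega) (by omega)
    (low_sum hSpn hlen hdir (by omega) hSK (by omega) hrad) hn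
  exact no_good (S := S) hlen hd3 hdir hmv (by omega) le_rfl hSK hSK (by omega) (mem_Lo.mp hv) hvy
    (fun w h1 h2 => ⟨mem_Lo.mp (hw w h1 h2).1, (hw w h1 h2).2⟩)

/-- the bound for graphs without a fixed complete minor in which vertices of large degree are
joined by few disjoint connected sets -/
theorem main_few (m t p D : ℕ) (V : Type) [Fintype V] (G : SimpleGraph V)
    (hcrit : ∀ e ∈ G.edgeSet, KDraw m (G.deleteEdges {e})) (hmin : ¬ HasK G t univ)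
    (hfew : FewD G D p) : KDraw (kb6 m t p D) G :=
  core6 m t p D V G hcrit hmin hfew _ le_rfl

end Pool.Agent.H354_OP
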