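import Pool.Agent.H354_OP.MainK
import Pool.Agent.H354_OP.Dtp
import Pool.Agent.H354_OP.Cyc

/-!
# Critical graphs in which the vertices of large degree are far from the other branch vertices: an
explicit bound
-/

set_option autoImplicit false

namespace Pool.Agent.H354_OP

open Finset
open scoped Classical

set_option linter.unusedSectionVars false

theorem radius_x (M x : ℕ) (hM : M ≤ 2 ^ x) :
    (2 * 2) ^ (8 * x + 64) * (2 * 2 * (56 * (2 * M * (2 * (2 * (8 * x + 64)) + 1) + 1))) <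
      (2 * 2 + 1) ^ (8 * x + 64) := by
  have h1 : x + 1 ≤ 2 ^ x := Nat.lt_two_pow_self
  have h2 : 2 * (2 * (8 * x + 64)) + 1 ≤ 257 * 2 ^ x := by omega
  have h3 : 2 * M * (2 * (2 * (8 * x + 64)) + 1) ≤ 514 * (2 ^ x * 2 ^ x) := by
    calc 2 * M * (2 * (2 * (8 * x + 64)) + 1) ≤ 2 * 2 ^ x * (257 * 2 ^ x) := by gcongr
      _ = 514 * (2 ^ x * 2 ^ x) := by ring
  have h4 : 0 < 2 ^ x * 2 ^ x := by positivity
  have h5 : 2 * 2 * (56 * (2 * M * (2 * (2 * (8 * x + 64)) + 1) + 1)) ≤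
      115360 * (2 ^ x * 2 ^ x) := by omega
  have h6 : (2 * 2 : ℕ) ^ (8 * x + 64) = 65536 ^ x * 4 ^ 64 := by
    rw [pow_add, pow_mul]
    norm_num
  have h7 : (2 * 2 + 1 : ℕ) ^ (8 * x + 64) = 390625 ^ x * 5 ^ 64 := by
    rw [pow_add, pow_mul]
    norm_num
  have h8 : 65536 ^ x * (2 ^ x * 2 ^ x) ≤ 390625 ^ x := by
    rw [← mul_pow, ← mul_pow]
    exact Nat.pow_le_pow_left (by norm_num) _
  rw [h6, h7]
  calc 65536 ^ x * 4 ^ 64 * (2 * 2 * (56 * (2 * M * (2 * (2 * (8 * x + 64)) + 1) + 1)))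
      ≤ 65536 ^ x * 4 ^ 64 * (115360 * (2 ^ x * 2 ^ x)) := Nat.mul_le_mul_left _ h5
    _ = 65536 ^ x * (2 ^ x * 2 ^ x) * (4 ^ 64 * 115360) := by ring
    _ ≤ 390625 ^ x * (4 ^ 64 * 115360) := Nat.mul_le_mul_right _ h8
    _ < 390625 ^ x * 5 ^ 64 := by
      refine Nat.mul_lt_mul_of_pos_left (by norm_num) (by positivity)

theorem radius_y (n x : ℕ) (hn : n < 2 ^ x) : (2 * 2) ^ (4 * x) * n < (2 * 2 + 1) ^ (4 * x) := by
  have h6 : (2 * 2 : ℕ) ^ (4 * x) = 256 ^ x := by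
    rw [pow_mul]
    norm_num
  have h7 : (2 * 2 + 1 : ℕ) ^ (4 * x) = 625 ^ x := by
    rw [pow_mul]
    norm_num
  rw [h6, h7]
  calc 256 ^ x * n < 256 ^ x * 2 ^ x := Nat.mul_lt_mul_of_pos_left hn (by positivity)
    _ = 512 ^ x := by
      rw [← mul_pow]
      norm_num
    _ ≤ 625 ^ x := Nat.pow_le_pow_left (by norm_num) _

/-- leaving out one edge and the long edges -/
theorem TN_darts {W : Type} [Fintype W] (H : SimpleGraph W) (len : Sym2 W → ℕ) (a b : W) (N : ℕ) :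
    ∑ x, (nb H x).card ≤ ∑ x, (nb (TN H len s(a, b) N) x).card +
      (univ.filter (fun e : W × W => H.Adj e.1 e.2 ∧ N < len s(e.1, e.2))).card + 2 := by
  rw [darts_card, darts_card]
  have h1 : univ.filter (fun e : W × W => H.Adj e.1 e.2) ⊆
      (univ.filter (fun e : W × W => (TN H len s(a, b) N).Adj e.1 e.2) ∪
        univ.filter (fun e : W × W => H.Adj e.1 e.2 ∧ N < len s(e.1, e.2))) ∪
        {(a, b), (b, a)} := by
    intro e he
    rw [mem_filter] at he
    rw [mem_union, mem_union, mem_filter, mem_filter, mem_insert, mem_singleton]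
    by_cases h2 : s(e.1, e.2) = s(a, b)
    · right
      rw [Sym2.eq_iff] at h2
      rcases h2 with ⟨h2, h3⟩ | ⟨h2, h3⟩
      · exact Or.inl (Prod.ext h2 h3)
      · exact Or.inr (Prod.ext h2 h3)
    · left
      rcases Nat.lt_or_ge N (len s(e.1, e.2)) with h3 | h3
      · exact Or.inr ⟨mem_univ _, he.2, h3⟩
      · exact Or.inl ⟨mem_univ _, he.2, h2, h3⟩
  refine (card_le_card h1).trans ((card_union_le _ _).trans ?_)
  refine Nat.add_le_add (card_union_le _ _) ?_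
  exact card_le_two

/-- the degree of a branch vertex is at most `D` times its distance to the other ones -/
def Spr {V : Type} [Fintype V] (D : ℕ) (G : SimpleGraph V) (u : V) : Prop :=
  3 ≤ (nb G u).card → ∀ v, v ≠ u → 3 ≤ (nb G v).card → ∀ w : G.Walk u v,
    (nb G u).card ≤ D * w.length

theorem main_spread (m D y : ℕ) (V : Type) [Fintype V] (G : SimpleGraph V)
    (hcrit : ∀ e ∈ G.edgeSet, KDraw m (G.deleteEdges {e}))
    (hq : (∃ (v : V) (c : G.Walk v v), c.IsCycle ∧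
        (univ.filter (fun u => 3 ≤ (nb G u).card ∧ u ∈ c.support)).card ≤ y ∧
        ∀ u ∈ c.support, Spr D G u) ∨
      ((∀ u, Spr D G u) ∧ ((univ.filter (fun v => 3 ≤ (nb G v).card)).card < 2 ^ y ∨
        (∃ q, (m + 1) * (q + 1) ≤ 2 ^ y ∧
          2 * (q + 1) * (univ.filter (fun v => (nb G v).card ≠ 0)).card ≤
            q * ∑ v, (nb G v).card) ∨
        ¬ HasK G y univ))) (k : ℕ)
    (hk : 12500 * (m + 1) ^ 2 * (D + 1) * (y + 1) ≤ k) : KDraw k G := by
  by_contra hnk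
  obtain ⟨g, hg⟩ : ∃ g, g = 769 * (y + 1) := ⟨_, rfl⟩
  have hk1 : (16 + 8 * m) * g * (D + 1) * (m + 1) + (5 * m + 8) +
      ((16 + 8 * m) * (m + 1) + (5 * m + 8) + m) ≤ k := by
    refine le_trans ?_ hk
    have e1 : (16 + 8 * m) * g * (D + 1) * (m + 1) ≤
        12304 * ((m + 1) ^ 2 * (D + 1) * (y + 1)) := by
      calc (16 + 8 * m) * g * (D + 1) * (m + 1) ≤ (16 * (m + 1)) * g * (D + 1) * (m + 1) := by
            gcongr
            omega
        _ = 12304 * ((m + 1) ^ 2 * (D + 1) * (y + 1)) := by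
            rw [hg]
            ring
    have e2 : (m + 1) ^ 2 ≤ (m + 1) ^ 2 * (D + 1) * (y + 1) := by
      rw [mul_assoc]
      exact Nat.le_mul_of_pos_right _ (Nat.mul_pos (Nat.succ_pos _) (Nat.succ_pos _))
    have e3 : (5 * m + 8) + ((16 + 8 * m) * (m + 1) + (5 * m + 8) + m) ≤ 100 * (m + 1) ^ 2 := by
      have : 100 * (m + 1) ^ 2 = 100 * (m * m) + 200 * m + 100 := by ring
      have h2 : (16 + 8 * m) * (m + 1) = 8 * (m * m) + 24 * m + 16 := by ring
      omega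
    have e4 : 12500 * (m + 1) ^ 2 * (D + 1) * (y + 1) =
        12500 * ((m + 1) ^ 2 * (D + 1) * (y + 1)) := by
      ring
    omega
  obtain ⟨Br, hBr⟩ : ∃ Br : V → Prop, ∀ v, Br v ↔ 3 ≤ (nb G v).card := ⟨_, fun v => Iff.rfl⟩
  obtain ⟨hdeg, hPar, ⟨x₀, hx₀⟩, hthr⟩ := base_facts hnk (by omega) hcrit hBr
  have hdeg' : ∀ v, ¬ Br v → (nb G v).card = 0 ∨ (nb G v).card = 2 := fun v hv =>
    hdeg v (not_le.mp ((hBr v).not.mp hv))
  have hD : D2 G Br := d2_of_deg hdeg'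
  obtain ⟨n, p, hp⟩ := id hthr
  have hnb : ∀ x : {v // Br v}, (nb (TH G Br) x).card = (nb G x.1).card :=
    fun x => TH.nb_card hD hPar hp x
  obtain ⟨τ, hτ⟩ : ∃ τ, τ = ∑ x, (nb (TH G Br) x).card := ⟨_, rfl⟩
  have hd3 : ∀ x, 3 ≤ (nb (TH G Br) x).card := by
    intro x
    rw [hnb]
    exact (hBr _).mp x.2
  have hne : Nonempty {v // Br v} := ⟨⟨x₀, hx₀⟩⟩
  have hcard3 : 3 * Fintype.card {v // Br v} ≤ τ := by
    rw [hτ, ← Finset.card_univ, mul_comm, ← smul_eq_mul, ← sum_const]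
    exact sum_le_sum fun x _ => hd3 x
  have hcpos : 0 < Fintype.card {v // Br v} := Fintype.card_pos
  have hg1 : 1 ≤ g := by omega
  have hdir : NoDir (TH G Br) (tl G Br) g (D + 1) :=
    world_dir hnk hcrit hBr hdeg hD hPar hnb hg1 (by omega)
  -- there is no short cycle
  have hno : ∀ Γ : SimpleGraph {v // Br v}, Γ ≤ TH G Br →
      (∀ x z, Γ.Adj x z → Spr D G x.1) → ShortC g Γ → False := by
    intro Γ hΓ hΓs hS
    obtain ⟨u, v, huv, w, hw, h2, hl, hmax⟩ := heaviest hS (tl G Br)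
    refine hdir u v (hΓ huv) (w.mapLe hΓ) ?_ ?_ ?_ ?_
    · intro he
      rw [SimpleGraph.Walk.edges_mapLe_eq_edges] at he
      have := path_edge_length w hw he
      omega
    · rw [SimpleGraph.Walk.length_mapLe]
      exact hl
    · intro f hf
      rw [SimpleGraph.Walk.edges_mapLe_eq_edges] at hf
      exact (hmax f hf).trans (Nat.le_mul_of_pos_left _ (Nat.succ_pos _))
    · intro x hx hxu hxv
      rw [SimpleGraph.Walk.support_mapLe_eq_support] at hx
      obtain ⟨f, hf, hxf⟩ : ∃ f ∈ w.edges, x ∈ f :=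
        (SimpleGraph.Walk.mem_support_iff_exists_mem_edges.mp hx).resolve_left hxv
      obtain ⟨z, rfl⟩ := hxf
      have hxz' : Γ.Adj x z := w.edges_subset_edgeSet hf
      have hxz : (TH G Br).Adj x z := hΓ hxz'
      obtain ⟨P, hP, h0, hn⟩ := TH.thread hD hPar hxz
      obtain ⟨Q, -, hQl, -⟩ := hP.seq.walk
      have h3 := hΓs x z hxz' ((hBr _).mp x.2) z.1 (fun h => hxz.ne (Subtype.ext h.symm))
        ((hBr _).mp z.2) (Q.copy h0 hn)
      rw [SimpleGraph.Walk.length_copy, hQl] at h3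
      rw [hnb]
      refine h3.trans ?_
      exact Nat.mul_le_mul (Nat.le_succ D) (hmax _ hf)
  rcases hq with ⟨v, c, hc, hcy, hsp⟩ | ⟨hsp, hq⟩
  · -- a cycle with few branch vertices
    have hcB := cycle_has_branch hnk (by omega) hcrit hBr hdeg hc
    obtain ⟨Γ, hΓ, hΓs, hS⟩ := cycle_short hD hPar hp hc hcB (y := y) (by
      simpa only [hBr] using hcy)
    exact hno Γ hΓ (fun x z hxz => hsp _ (hΓs x z hxz).1) (hS.mono (by omega))
  have hno' : ∀ Γ : SimpleGraph {v // Br v}, Γ ≤ TH G Br → ShortC g Γ → False :=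
    fun Γ hΓ => hno Γ hΓ fun x _ _ => hsp x.1
  rcases hq with hq | ⟨q₀, hqy, hq⟩ | hq
  · -- few branch vertices
    have hlt : Fintype.card {v // Br v} < 2 ^ y := by
      refine lt_of_le_of_lt (le_of_eq ?_) hq
      rw [Fintype.card_subtype]
      congr 1
      ext v
      simp only [mem_filter, mem_univ, true_and, hBr]
    have hS := dense_short (Γ := TH G Br) (c := 2) (r := 4 * y) (S := univ)
      ⟨⟨x₀, hx₀⟩, mem_univ _⟩ (by
        simp only [mem_univ, filter_true_of_mem, implies_true]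
        rw [← hτ, Finset.card_univ]
        omega) (radius_y _ y hlt)
    exact hno' _ le_rfl (hS.mono (by omega))
  · -- large average degree
    obtain ⟨N, hN⟩ : ∃ N, N = 12 * (q₀ + 1) := ⟨_, rfl⟩
    obtain ⟨x, hx⟩ : ∃ x, x = y + 4 := ⟨_, rfl⟩
    have hMx : m * N ≤ 2 ^ x := by
      calc m * N ≤ (m + 1) * (12 * (q₀ + 1)) := by
            rw [hN]
            exact Nat.mul_le_mul_right _ (Nat.le_succ m)
        _ = 12 * ((m + 1) * (q₀ + 1)) := by ring
        _ ≤ 16 * 2 ^ y := Nat.mul_le_mul (by norm_num) hqy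
        _ = 2 ^ x := by
            rw [hx, pow_add]
            ring
    have hLg : 12 * (univ.filter (fun e : {v // Br v} × {v // Br v} =>
        (TH G Br).Adj e.1 e.2 ∧ N < tl G Br s(e.1, e.2))).card ≤ τ := by
      have h1 := TH.long_le hD hPar hp N
      have h2 := sum_len hD hdeg' hp hq
      have h3 : ∑ x : {v // Br v}, (nb G x.1).card = τ := by
        rw [hτ]
        exact sum_congr rfl fun x _ => (hnb x).symm
      rw [h3] at h2
      obtain ⟨lg, hlg⟩ : ∃ lg, lg = ∑ x : {v // Br v},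
        ((nb G x.1).filter (fun a => N < n x.1 a)).card := ⟨_, rfl⟩
      have h4 : N * lg ≤ ∑ x : {v // Br v}, ∑ a ∈ nb G x.1, n x.1 a := by
        rw [hlg, Finset.mul_sum]
        refine Finset.sum_le_sum fun x _ => ?_
        rw [Finset.card_filter, Finset.mul_sum]
        refine Finset.sum_le_sum fun a _ => ?_
        split_ifs <;> omega
      rw [← hlg] at h1
      have h5 : (q₀ + 1) * (12 * lg) ≤ (q₀ + 1) * τ := by
        calc (q₀ + 1) * (12 * lg) = N * lg := by rw [hN]; ring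
          _ ≤ (q₀ + 1) * τ := h4.trans h2
      have h6 := Nat.le_of_mul_le_mul_left h5 (Nat.succ_pos q₀)
      omega
    have hx₀' := (hBr _).mp hx₀
    obtain ⟨a₀, ha₀⟩ : ∃ a₀, a₀ ∈ nb G x₀ := Finset.card_pos.mp (by omega)
    rw [mem_nb] at ha₀
    obtain ⟨hp₀, hp₀0, hp₀1⟩ := hp x₀ a₀ hx₀ ha₀
    obtain ⟨pos, A, hd, hxs⟩ := hcrit s(x₀, a₀) ha₀
    obtain ⟨Γ, hΓ⟩ : ∃ Γ, Γ = TN (TH G Br) (tl G Br)
      s(⟨x₀, hx₀⟩, ⟨p x₀ a₀ (n x₀ a₀), hp₀.bn⟩) N := ⟨_, rfl⟩
    have hTop : ∃ C, TopD (m * N) Γ (fun v => pos v.1) C := by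
      rw [hΓ, TN_eq hD hPar]
      exact TGS.topD hD (N := N) (e := s(x₀, a₀))
        (e₀ := s(x₀, p x₀ a₀ (n x₀ a₀))) (by
          rintro n' p' hp' ⟨i, hi, h⟩
          have := hp'.edge hD hp₀ hi hp₀.pos (by rw [h, hp₀0, hp₀1])
          rw [this, hp₀0]) (hd.topD hxs)
    obtain ⟨C, hC⟩ := hTop
    have hdarts := TN_darts (TH G Br) (tl G Br) ⟨x₀, hx₀⟩ ⟨p x₀ a₀ (n x₀ a₀), hp₀.bn⟩ N
    rw [← hΓ, ← hτ] at hdarts
    have hS := dense_topD (Γ := Γ) hC le_rfl (c := 2) (r := 8 * x + 64) (S := univ)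
      ⟨⟨x₀, hx₀⟩, mem_univ _⟩ (by
        simp only [mem_univ, filter_true_of_mem, implies_true]
        rw [Finset.card_univ]
        omega) (radius_x _ x hMx)
    exact hno' _ (hΓ ▸ TN_le) (hS.mono (by omega))
  · -- no complete minor
    have hSpn : Spn (2 ^ y) (TH G Br) := by
      refine spn_of_minor fun ⟨f, h1, h2⟩ => hq ?_
      obtain ⟨k1, k2, k3, k4⟩ := TH.model hD f (fun i => (h1 i).1) (fun i => (h1 i).2.1)
        (fun i j hij => (h2 i j hij).1)
      exact ⟨fat G Br f, fun i => ⟨k1 i, k2 i, subset_univ _⟩, fun i j hij =>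
        ⟨k3 i j hij, k4 i j hij (h2 i j hij).2⟩⟩
    have hS := dense_samp hSpn (le_refl (TH G Br)) (c := 2) (r := 4 * (y + 3)) (S := univ)
      ⟨⟨x₀, hx₀⟩, mem_univ _⟩ (by
        simp only [mem_univ, filter_true_of_mem, implies_true]
        rw [← hτ, Finset.card_univ]
        omega) (radius_y _ (y + 3) (by
          rw [pow_add]
          have : 0 < 2 ^ y := by positivity
          omega))
    exact hno' _ le_rfl (hS.mono (by omega))

end Pool.Agent.H354_OP
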