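import Pool.Agent.H354_OP.MainN

/-!
# Critical graphs that have a cycle with few branch vertices
-/

set_option autoImplicit false

namespace Pool.Agent.H354_OP

open Finset
open scoped Classical

set_option linter.unusedSectionVars false

theorem main_cycle (m D y : ℕ) (V : Type) [Fintype V] (G : SimpleGraph V)
    (hcrit : ∀ e ∈ G.edgeSet, KDraw m (G.deleteEdges {e}))
    {v : V} (c : G.Walk v v) (hc : c.IsCycle)
    (hcy : (univ.filter (fun u => 3 ≤ (nb G u).card ∧ u ∈ c.support)).card ≤ y)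
    (hsp : ∀ u ∈ c.support, Spr D G u) (k : ℕ)
    (hk : 30 * (m + 1) ^ 2 * (D + 1) * (y + 1) ≤ k) : KDraw k G := by
  by_contra hnk
  obtain ⟨g, hg⟩ : ∃ g, g = y + 1 := ⟨_, rfl⟩
  obtain ⟨Z, hZ⟩ : ∃ Z, Z = (m + 1) ^ 2 * (D + 1) * (y + 1) := ⟨_, rfl⟩
  have hZ1 : (16 + 8 * m) * g * (D + 1) * (m + 1) ≤ 16 * Z := by
    calc (16 + 8 * m) * g * (D + 1) * (m + 1) ≤ (16 * (m + 1)) * g * (D + 1) * (m + 1) := by
          gcongr
          omega
      _ = 16 * Z := by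
          rw [hg, hZ]
          ring
  have hZ2 : m + 1 ≤ (m + 1) ^ 2 := by
    calc m + 1 = (m + 1) ^ 1 := (pow_one _).symm
      _ ≤ (m + 1) ^ 2 := Nat.pow_le_pow_right (Nat.succ_pos _) (by norm_num)
  have hZ3 : (m + 1) ^ 2 ≤ Z := by
    rw [hZ, mul_assoc]
    exact Nat.le_mul_of_pos_right _ (Nat.mul_pos (Nat.succ_pos _) (Nat.succ_pos _))
  have hZ4 : 30 * (m + 1) ^ 2 * (D + 1) * (y + 1) = 30 * Z := by
    rw [hZ]
    ring
  rw [hZ4] at hk
  have hZ5 : (16 + 8 * m) * (m + 1) = 8 * (m + 1) ^ 2 + 8 * (m + 1) := by ring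
  obtain ⟨Br, hBr⟩ : ∃ Br : V → Prop, ∀ v, Br v ↔ 3 ≤ (nb G v).card := ⟨_, fun v => Iff.rfl⟩
  obtain ⟨hdeg, hPar, ⟨x₀, hx₀⟩, hthr⟩ := base_facts hnk (by omega) hcrit hBr
  have hdeg' : ∀ v, ¬ Br v → (nb G v).card = 0 ∨ (nb G v).card = 2 := fun v hv =>
    hdeg v (not_le.mp ((hBr v).not.mp hv))
  have hD : D2 G Br := d2_of_deg hdeg'
  obtain ⟨n, p, hp⟩ := id hthr
  have hnb : ∀ x : {v // Br v}, (nb (TH G Br) x).card = (nb G x.1).card :=
    fun x => TH.nb_card hD hPar hp x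
  obtain ⟨τ, hτ⟩ : ∃ τ, τ = ∑ x, (nb (TH G Br) x).card := ⟨_, rfl⟩
  have hd3 : ∀ x, 3 ≤ (nb (TH G Br) x).card := by
    intro x
    rw [hnb]
    exact (hBr _).mp x.2
  have hne : Nonempty {v // Br v} := ⟨⟨x₀, hx₀⟩⟩
  have hcard3 : 3 * Fintype.card {v // Br v} ≤ τ := by
    rw [hτ, ← Finset.card_univ, mul_comm, ← smul_eq_mul, ← sum_const]
    exact sum_le_sum fun x _ => hd3 x
  have hcpos : 0 < Fintype.card {v // Br v} := Fintype.card_pos
  have hg1 : 1 ≤ g := by omega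
  have hdir : NoDir (TH G Br) (tl G Br) g (D + 1) :=
    world_dir hnk hcrit hBr hdeg hD hPar hnb hg1 (by omega)
  -- there is no short cycle
  have hno : ∀ Γ : SimpleGraph {v // Br v}, Γ ≤ TH G Br →
      (∀ x z, Γ.Adj x z → Spr D G x.1) → ShortC g Γ → False := by
    intro Γ hΓ hΓs hS
    obtain ⟨u, v, huv, w, hw, h2, hl, hmax⟩ := heaviest hS (tl G Br)
    refine hdir u v (hΓ huv) (w.mapLe hΓ) ?_ ?_ ?_ ?_
    · intro he
      rw [SimpleGraph.Walk.edges_mapLe_eq_edges] at he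
      have := path_edge_length w hw he
      omega
    · rw [SimpleGraph.Walk.length_mapLe]
      exact hl
    · intro f hf
      rw [SimpleGraph.Walk.edges_mapLe_eq_edges] at hf
      exact (hmax f hf).trans (Nat.le_mul_of_pos_left _ (Nat.succ_pos _))
    · intro x hx hxu hxv
      rw [SimpleGraph.Walk.support_mapLe_eq_support] at hx
      obtain ⟨f, hf, hxf⟩ : ∃ f ∈ w.edges, x ∈ f :=
        (SimpleGraph.Walk.mem_support_iff_exists_mem_edges.mp hx).resolve_left hxv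
      obtain ⟨z, rfl⟩ := hxf
      have hxz' : Γ.Adj x z := w.edges_subset_edgeSet hf
      have hxz : (TH G Br).Adj x z := hΓ hxz'
      obtain ⟨P, hP, h0, hn⟩ := TH.thread hD hPar hxz
      obtain ⟨Q, -, hQl, -⟩ := hP.seq.walk
      have h3 := hΓs x z hxz' ((hBr _).mp x.2) z.1 (fun h => hxz.ne (Subtype.ext h.symm))
        ((hBr _).mp z.2) (Q.copy h0 hn)
      rw [SimpleGraph.Walk.length_copy, hQl] at h3
      rw [hnb]
      refine h3.trans ?_
      exact Nat.mul_le_mul (Nat.le_succ D) (hmax _ hf)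
  have hcB := cycle_has_branch hnk (by omega) hcrit hBr hdeg hc
  obtain ⟨Γ, hΓ, hΓs, hS⟩ := cycle_short hD hPar hp hc hcB (y := y) (by
    simpa only [hBr] using hcy)
  exact hno Γ hΓ (fun x z hxz => hsp _ (hΓs x z hxz).1) (hS.mono (by omega))

end Pool.Agent.H354_OP
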