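import Pool.Agent.H354_OP.Wor3

/-!
# Two small clusters at the same one or two hubs: one of them can be moved onto the other
-/

set_option autoImplicit false

namespace Pool.Agent.H354_OP

open Finset
open scoped Classical

set_option linter.unusedSectionVars false

variable {V : Type} [Fintype V]

theorem mov_core {H : SimpleGraph V} {len : Sym2 V → ℕ} {e₀ : Sym2 V} {N N' F G s q₁ : ℕ}
    (hNM : NoMv H len s (2 * s + q₁ + 1) (F * G))
    (hstep : ∀ ℓ, N < ℓ → N' ≤ F * ℓ) (hG : 1 ≤ G) (hsF : s + 2 ≤ F) (hNN : N ≤ N')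
    (hl : ∀ f ∈ H.edgeSet, 1 ≤ len f)
    (X X' : Finset V) (hX : ∑ x ∈ X, (nb H x).card ≤ s) (hX' : ∑ x ∈ X', (nb H x).card ≤ s)
    (hXc : X.card ≤ s) (hXc' : X'.card ≤ s) (hdis : ∀ x ∈ X', x ∉ X)
    (hcX : Conn (TN H len e₀ N) X) (hcX' : Conn (TN H len e₀ N) X') (he₀ : ∀ v ∈ X, v ∉ e₀)
    {v₁ y₁ : V} (hv₁ : v₁ ∈ X) (hy₁ : y₁ ∉ X) (he : (TN H len e₀ N).Adj v₁ y₁)
    {x a z : V} (hxa : H.Adj x a) (R : H.Walk a z) (φ : V → ℕ) (L : ℕ)
    (hL : L = len s(x, a) + (R.edges.map len).sum) (haX' : a ∈ X') (hxX : x ∉ X) (hzX : z ∉ X)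
    (hex : s(v₁, y₁) ≠ s(x, a)) (heR : s(v₁, y₁) ∉ R.edges)
    (hRX' : ∀ i < R.length, R.getVert i ∈ X') (hzs : z ∈ X' ∨ ∀ v ∈ X, φ v < L)
    (hφ : ∀ v ∈ X, 1 ≤ φ v ∧ φ v ≤ L) (hLN : L ≤ (s + 2) * N)
    (hT : ∀ v ∈ X, ∀ w, (TN H len e₀ N).Adj v w → (w ∈ X ∧ φ v ≤ φ w + len s(v, w)) ∨
      (w = x ∧ φ v ≤ len s(v, w)) ∨ (w = z ∧ L ≤ φ v + len s(v, w)))
    {a' b : V} (ha' : a' ∈ X') (hb : b ∈ X) (P : H.Walk a' b) (hP : s(v₁, y₁) ∉ P.edges)
    (hPl : P.length ≤ q₁) (hPlen : ∀ f ∈ P.edges, len f ≤ N')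
    (hPd : ∀ u ∈ P.support, (nb H u).card ≤ G * N') : False := by
  have hdeg : ∀ x ∈ X, (nb H x).card ≤ s := fun x hx =>
    (single_le_sum (f := fun x => (nb H x).card) (fun _ _ => Nat.zero_le _) hx).trans hX
  have hdeg' : ∀ x ∈ X', (nb H x).card ≤ s := fun x hx =>
    (single_le_sum (f := fun x => (nb H x).card) (fun _ _ => Nat.zero_le _) hx).trans hX'
  have hFG : F ≤ F * G := Nat.le_mul_of_pos_right _ hG
  have hsl : ∀ f ∈ H.edgeSet, s ≤ F * G * len f := fun f hf =>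
    (show s ≤ F * G by omega).trans (Nat.le_mul_of_pos_right _ (hl f hf))
  have hFl : ∀ ℓ, F * ℓ ≤ F * G * ℓ := fun ℓ => Nat.mul_le_mul_right _ hFG
  have hK1 : 1 ≤ F * G := by omega
  refine hNM X s(v₁, y₁) x a z hxa R φ L hL hX he.1 ⟨v₁, hv₁, by simp⟩ hex heR hxX hzX
    (hdeg' a haX') (fun i hi => hdeg' _ (hRX' i hi)) (hzs.imp (hdeg' z) id) hφ ?_
  intro v hv w hvw
  have hvw' : s(v, w) ∈ H.edgeSet := hvw
  have hlK : len s(v, w) ≤ F * G * len s(v, w) := Nat.le_mul_of_pos_left _ hK1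
  by_cases hlen : len s(v, w) ≤ N
  · have hTa : (TN H len e₀ N).Adj v w := by
      refine ⟨hvw, ?_, hlen⟩
      intro h
      exact he₀ v hv (h ▸ by simp)
    rcases hT v hv w hTa with ⟨h1, h2⟩ | ⟨h1, h2⟩ | ⟨h1, h2⟩
    · exact Or.inl ⟨h1, by omega⟩
    · exact Or.inr (Or.inl ⟨h1, by omega⟩)
    · exact Or.inr (Or.inr (Or.inl ⟨h1, by omega⟩))
  · have hLK : L ≤ F * G * len s(v, w) := by
      calc L ≤ (s + 2) * N := hLN
        _ ≤ F * len s(v, w) := Nat.mul_le_mul hsF (by omega)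
        _ ≤ F * G * len s(v, w) := hFl _
    by_cases hw : w ∈ X
    · have := (hφ v hv).2
      exact Or.inl ⟨hw, by omega⟩
    · refine Or.inr (Or.inr (Or.inr ⟨hw, hLK, ?_⟩))
      have hN' : N' ≤ F * len s(v, w) := hstep _ (by omega)
      have hNK : N' ≤ F * G * len s(v, w) := hN'.trans (hFl _)
      have hGN : G * N' ≤ F * G * len s(v, w) := by
        calc G * N' ≤ G * (F * len s(v, w)) := Nat.mul_le_mul_left _ hN'
          _ = F * G * len s(v, w) := by ring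
      have hTl : ∀ f ∈ (TN H len e₀ N).edgeSet, len f ≤ N := by
        intro f
        induction f using Sym2.ind with
        | _ x y => exact fun h => h.2.2
      have hXe : ∀ f : Sym2 V, (∀ u ∈ f, u ∈ X) → f ≠ s(v₁, y₁) := by
        rintro f hf rfl
        exact hy₁ (hf y₁ (by simp))
      have hXe' : ∀ f : Sym2 V, (∀ u ∈ f, u ∈ X') → f ≠ s(v₁, y₁) := by
        rintro f hf rfl
        exact hdis v₁ (hf v₁ (by simp)) hv₁
      obtain ⟨W, hW1, hW2, hW3⟩ := conn_walk TN_le hcX' haX' ha'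
      obtain ⟨U, hU1, hU2, hU3⟩ := conn_walk TN_le hcX hb hv
      obtain ⟨Q, hQ⟩ : ∃ Q, Q = W.append (P.append (U.append
        (SimpleGraph.Walk.cons hvw SimpleGraph.Walk.nil))) := ⟨_, rfl⟩
      have hQe : ∀ f, f ∈ Q.edges ↔ f ∈ W.edges ∨ f ∈ P.edges ∨ f ∈ U.edges ∨ f = s(v, w) := by
        intro f
        rw [hQ]
        simp only [SimpleGraph.Walk.edges_append, List.mem_append, SimpleGraph.Walk.edges_cons,
          SimpleGraph.Walk.edges_nil, List.mem_singleton]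
      have h8 : ∀ e ∈ Q.edges, e ∈ (H.deleteEdges {s(v₁, y₁)}).edgeSet := by
        intro e he'
        rw [SimpleGraph.edgeSet_deleteEdges]
        refine ⟨Q.edges_subset_edgeSet he', fun h => ?_⟩
        rw [Set.mem_singleton_iff] at h
        subst h
        rcases (hQe _).mp he' with h | h | h | h
        · exact hXe' _ (hW3 _ h).2 rfl
        · exact hP h
        · exact hXe _ (hU3 _ h).2 rfl
        · have h6 : len s(v₁, y₁) ≤ N := he.2.2
          rw [h] at h6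
          exact hlen h6
      refine ⟨Q.transfer _ h8, ?_, ?_, ?_⟩
      · rw [SimpleGraph.Walk.length_transfer, hQ]
        simp only [SimpleGraph.Walk.length_append, SimpleGraph.Walk.length_cons,
          SimpleGraph.Walk.length_nil]
        omega
      · rw [SimpleGraph.Walk.edges_transfer]
        intro f hf
        rcases (hQe _).mp hf with h | h | h | h
        · exact (hTl f (hW3 f h).1).trans (hNN.trans hNK)
        · exact (hPlen f h).trans hNK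
        · exact (hTl f (hU3 f h).1).trans (hNN.trans hNK)
        · rw [h]
          exact hlK
      · rw [SimpleGraph.Walk.support_transfer, hQ]
        intro y hy
        simp only [SimpleGraph.Walk.mem_support_append_iff, SimpleGraph.Walk.support_cons,
          SimpleGraph.Walk.support_nil, List.mem_cons, List.not_mem_nil, or_false] at hy
        rcases hy with h | h | h | h | h
        · exact Or.inr ((hdeg' _ (hW2 y h)).trans (hsl _ hvw'))
        · exact Or.inr ((hPd y h).trans hGN)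
        · exact Or.inr ((hdeg _ (hU2 y h)).trans (hsl _ hvw'))
        · rw [h]
          exact Or.inr ((hdeg _ hv).trans (hsl _ hvw'))
        · exact Or.inl h

/-- the lengths of the ways from `x` to `v` through `X` -/
def dS (H : SimpleGraph V) (len : Sym2 V → ℕ) (X : Finset V) (x v : V) : Set ℕ :=
  {n | ∃ (a : V) (w : H.Walk a v), H.Adj x a ∧ (∀ u ∈ w.support, u ∈ X) ∧
    n = len s(x, a) + (w.edges.map len).sum}

/-- the lengths of the ways from `x` to `x'` through `X` -/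
def eS (H : SimpleGraph V) (len : Sym2 V → ℕ) (X : Finset V) (x x' : V) : Set ℕ :=
  {n | ∃ (a b : V) (w : H.Walk a b), H.Adj x a ∧ H.Adj b x' ∧ (∀ u ∈ w.support, u ∈ X) ∧
    n = len s(x, a) + ((w.edges.map len).sum + len s(b, x'))}

theorem dS_ne {H T : SimpleGraph V} (hTH : T ≤ H) (len : Sym2 V → ℕ) {X : Finset V}
    (hX : Conn T X) {x a v : V} (ha : a ∈ X) (hxa : H.Adj x a) (hv : v ∈ X) :
    (dS H len X x v).Nonempty := by
  obtain ⟨w, -, hw, -⟩ := conn_walk hTH hX ha hv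
  exact ⟨_, a, w, hxa, hw, rfl⟩

theorem dS_adj {H : SimpleGraph V} {len : Sym2 V → ℕ} {X : Finset V} {x v w : V}
    (hne : (dS H len X x w).Nonempty) (hv : v ∈ X) (hvw : H.Adj v w) :
    sInf (dS H len X x v) ≤ sInf (dS H len X x w) + len s(v, w) := by
  obtain ⟨a, W, h1, h2, h3⟩ := Nat.sInf_mem hne
  refine Nat.sInf_le ⟨a, W.append (SimpleGraph.Walk.cons hvw.symm SimpleGraph.Walk.nil), h1, ?_, ?_⟩
  · intro u hu
    rw [SimpleGraph.Walk.mem_support_append_iff] at hu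
    simp only [SimpleGraph.Walk.support_cons, SimpleGraph.Walk.support_nil, List.mem_cons,
      List.not_mem_nil, or_false] at hu
    rcases hu with hu | hu | hu
    · exact h2 u hu
    · rw [hu]
      exact h2 w W.end_mem_support
    · rw [hu]
      exact hv
  · rw [SimpleGraph.Walk.edges_append, List.map_append, List.sum_append, h3]
    simp only [SimpleGraph.Walk.edges_cons, SimpleGraph.Walk.edges_nil, List.map_cons,
      List.map_nil, List.sum_cons, List.sum_nil, add_zero]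
    rw [Sym2.eq_swap (a := w)]
    ring

theorem dS_one {H : SimpleGraph V} {len : Sym2 V → ℕ} {X : Finset V} {x v : V}
    (hv : v ∈ X) (hvx : H.Adj v x) : sInf (dS H len X x v) ≤ len s(v, x) := by
  refine Nat.sInf_le ⟨v, SimpleGraph.Walk.nil, hvx.symm, ?_, ?_⟩
  · intro u hu
    rw [SimpleGraph.Walk.support_nil, List.mem_singleton] at hu
    rw [hu]
    exact hv
  · rw [Sym2.eq_swap]
    simp

theorem dS_pos {H : SimpleGraph V} {len : Sym2 V → ℕ} (hl : ∀ f ∈ H.edgeSet, 1 ≤ len f)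
    {X : Finset V} {x v : V} (hne : (dS H len X x v).Nonempty) : 1 ≤ sInf (dS H len X x v) := by
  obtain ⟨a, W, h1, h2, h3⟩ := Nat.sInf_mem hne
  have h4 := hl s(x, a) h1
  omega

theorem eS_le {H : SimpleGraph V} {len : Sym2 V → ℕ} {X : Finset V} {x x' v : V}
    (hne : (dS H len X x v).Nonempty) (hvx : H.Adj v x') :
    sInf (eS H len X x x') ≤ sInf (dS H len X x v) + len s(v, x') := by
  obtain ⟨a, W, h1, h2, h3⟩ := Nat.sInf_mem hne
  refine Nat.sInf_le ⟨a, v, W, h1, hvx, h2, ?_⟩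
  omega

theorem sum_edges_le {H : SimpleGraph V} (len : Sym2 V → ℕ) {u v : V} (w : H.Walk u v) {N : ℕ}
    (h : ∀ f ∈ w.edges, len f ≤ N) : (w.edges.map len).sum ≤ w.length * N := by
  have h1 := List.sum_le_card_nsmul (w.edges.map len) N (by
    intro x hx
    rw [List.mem_map] at hx
    obtain ⟨y, hy, rfl⟩ := hx
    exact h y hy)
  rw [List.length_map, SimpleGraph.Walk.length_edges, smul_eq_mul] at h1
  exact h1

theorem TN_len {H : SimpleGraph V} {len : Sym2 V → ℕ} {e₀ : Sym2 V} {N : ℕ} :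
    ∀ f ∈ (TN H len e₀ N).edgeSet, len f ≤ N := by
  intro f
  induction f using Sym2.ind with
  | _ x y => exact fun h => h.2.2

/-- moving a cluster at one hub onto an edge of another cluster -/
theorem mov_one {H : SimpleGraph V} {len : Sym2 V → ℕ} {e₀ : Sym2 V} {N N' F G s q₁ : ℕ}
    (hNM : NoMv H len s (2 * s + q₁ + 1) (F * G))
    (hstep : ∀ ℓ, N < ℓ → N' ≤ F * ℓ) (hG : 1 ≤ G) (hsF : s + 2 ≤ F) (hNN : N ≤ N')
    (hl : ∀ f ∈ H.edgeSet, 1 ≤ len f)
    (X X' : Finset V) (hX : ∑ x ∈ X, (nb H x).card ≤ s) (hX' : ∑ x ∈ X', (nb H x).card ≤ s)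
    (hXc : X.card ≤ s) (hXc' : X'.card ≤ s) (hdis : ∀ x ∈ X', x ∉ X)
    (hcX : Conn (TN H len e₀ N) X) (hcX' : Conn (TN H len e₀ N) X') (he₀ : ∀ v ∈ X, v ∉ e₀)
    {v₁ y₁ : V} (hv₁ : v₁ ∈ X) (hy₁ : y₁ ∉ X) (he : (TN H len e₀ N).Adj v₁ y₁)
    {x : V} (hxX : x ∉ X) {v₂ v' : V} (hv₂ : v₂ ∈ X) (hv₂x : (TN H len e₀ N).Adj v₂ x)
    (hv' : v' ∈ X') (hv'x : (TN H len e₀ N).Adj v' x)
    (hXh : ∀ v ∈ X, ∀ w, (TN H len e₀ N).Adj v w → w ∈ X ∨ w = x)
    {a' b : V} (ha' : a' ∈ X') (hb : b ∈ X) (P : H.Walk a' b) (hP : s(v₁, y₁) ∉ P.edges)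
    (hPl : P.length ≤ q₁) (hPlen : ∀ f ∈ P.edges, len f ≤ N')
    (hPd : ∀ u ∈ P.support, (nb H u).card ≤ G * N') : False := by
  have hne : ∀ v ∈ X, (dS H len X x v).Nonempty := fun v hv =>
    dS_ne TN_le len hcX hv₂ hv₂x.1.symm hv
  refine mov_core hNM hstep hG hsF hNN hl X X' hX hX' hXc hXc' hdis hcX hcX' he₀ hv₁ hy₁ he
    hv'x.1.symm SimpleGraph.Walk.nil (fun v => min (sInf (dS H len X x v)) (len s(x, v')))
    (len s(x, v')) (by simp) hv' hxX (hdis v' hv') ?_ (by simp) (by simp) (Or.inl hv') ?_ ?_ ?_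
    ha' hb P hP hPl hPlen hPd
  · intro h
    have h1 : v₁ ∈ s(x, v') := by rw [← h]; simp
    rw [Sym2.mem_iff] at h1
    rcases h1 with h1 | h1
    · exact hxX (h1 ▸ hv₁)
    · exact hdis v' hv' (h1 ▸ hv₁)
  · intro v hv
    have h1 := dS_pos hl (hne v hv)
    have h2 := hl s(x, v') hv'x.1.symm
    omega
  · have h1 : len s(x, v') ≤ N := by rw [Sym2.eq_swap]; exact hv'x.2.2
    calc len s(x, v') ≤ N := h1
      _ ≤ (s + 2) * N := Nat.le_mul_of_pos_left _ (by omega)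
  · intro v hv w hvw
    rcases hXh v hv w hvw with hw | hw
    · left
      refine ⟨hw, ?_⟩
      have h1 := dS_adj (hne w hw) hv hvw.1
      omega
    · right
      left
      refine ⟨hw, ?_⟩
      subst hw
      have h1 := dS_one (len := len) hv hvw.1
      omega

/-- moving a cluster at two hubs onto a shorter way through another cluster -/
theorem mov_two {H : SimpleGraph V} {len : Sym2 V → ℕ} {e₀ : Sym2 V} {N N' F G s q₁ : ℕ}
    (hNM : NoMv H len s (2 * s + q₁ + 1) (F * G))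
    (hstep : ∀ ℓ, N < ℓ → N' ≤ F * ℓ) (hG : 1 ≤ G) (hsF : s + 2 ≤ F) (hNN : N ≤ N')
    (hl : ∀ f ∈ H.edgeSet, 1 ≤ len f)
    (X X' : Finset V) (hX : ∑ x ∈ X, (nb H x).card ≤ s) (hX' : ∑ x ∈ X', (nb H x).card ≤ s)
    (hXc : X.card ≤ s) (hXc' : X'.card ≤ s) (hdis : ∀ x ∈ X', x ∉ X)
    (hcX : Conn (TN H len e₀ N) X) (hcX' : Conn (TN H len e₀ N) X') (he₀ : ∀ v ∈ X, v ∉ e₀)
    {v₁ y₁ : V} (hv₁ : v₁ ∈ X) (hy₁ : y₁ ∉ X) (he : (TN H len e₀ N).Adj v₁ y₁)
    {x x' : V} (hxX : x ∉ X) (hxX' : x' ∉ X) {v₂ v' v'' : V}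
    (hv₂ : v₂ ∈ X) (hv₂x : (TN H len e₀ N).Adj v₂ x)
    (hv' : v' ∈ X') (hv'x : (TN H len e₀ N).Adj v' x)
    (hv'' : v'' ∈ X') (hv''x : (TN H len e₀ N).Adj v'' x')
    (hXh : ∀ v ∈ X, ∀ w, (TN H len e₀ N).Adj v w → w ∈ X ∨ w = x ∨ w = x')
    (hD : sInf (eS H len X' x x') ≤ sInf (eS H len X x x'))
    {a' b : V} (ha' : a' ∈ X') (hb : b ∈ X) (P : H.Walk a' b) (hP : s(v₁, y₁) ∉ P.edges)
    (hPl : P.length ≤ q₁) (hPlen : ∀ f ∈ P.edges, len f ≤ N')
    (hPd : ∀ u ∈ P.support, (nb H u).card ≤ G * N') : False := by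
  have hne : ∀ v ∈ X, (dS H len X x v).Nonempty := fun v hv =>
    dS_ne TN_le len hcX hv₂ hv₂x.1.symm hv
  obtain ⟨D, hDe⟩ : ∃ D, D = sInf (eS H len X' x x') := ⟨_, rfl⟩
  rw [← hDe] at hD
  have hDN : D ≤ (s + 2) * N := by
    obtain ⟨w, hw1, hw2, hw3⟩ := conn_walk (TN_le (H := H)) hcX' hv' hv''
    have h1 : D ≤ len s(x, v') + ((w.edges.map len).sum + len s(v'', x')) := by
      rw [hDe]
      exact Nat.sInf_le ⟨v', v'', w, hv'x.1.symm, hv''x.1, hw2, rfl⟩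
    have h2 := sum_edges_le len w (N := N) (fun f hf => TN_len f (hw3 f hf).1)
    have h3 : w.length * N ≤ s * N := Nat.mul_le_mul_right _ (hw1.trans hXc')
    have h4 : len s(x, v') ≤ N := by rw [Sym2.eq_swap]; exact hv'x.2.2
    have h5 : len s(v'', x') ≤ N := hv''x.2.2
    have h6 : (s + 2) * N = s * N + 2 * N := by ring
    omega
  obtain ⟨a, b₂, w, g1, g2, g3, g4⟩ : D ∈ eS H len X' x x' := by
    rw [hDe]
    obtain ⟨w, hw1, hw2, hw3⟩ := conn_walk (TN_le (H := H)) hcX' hv' hv''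
    exact Nat.sInf_mem ⟨_, v', v'', w, hv'x.1.symm, hv''x.1, hw2, rfl⟩
  have haX' : a ∈ X' := g3 a w.start_mem_support
  have hbX' : b₂ ∈ X' := g3 b₂ w.end_mem_support
  have hl1 := hl s(x, a) g1
  have hl2 := hl s(b₂, x') g2
  refine mov_core hNM hstep hG hsF hNN hl X X' hX hX' hXc hXc' hdis hcX hcX' he₀ hv₁ hy₁ he
    g1 (w.append (SimpleGraph.Walk.cons g2 SimpleGraph.Walk.nil))
    (fun v => min (sInf (dS H len X x v)) (D - 1)) D ?_ haX' hxX hxX' ?_ ?_ ?_ ?_ ?_ hDN ?_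
    ha' hb P hP hPl hPlen hPd
  · rw [SimpleGraph.Walk.edges_append, List.map_append, List.sum_append, g4]
    simp
  · intro h
    have h1 : v₁ ∈ s(x, a) := by rw [← h]; simp
    rw [Sym2.mem_iff] at h1
    rcases h1 with h1 | h1
    · exact hxX (h1 ▸ hv₁)
    · exact hdis a haX' (h1 ▸ hv₁)
  · rw [SimpleGraph.Walk.edges_append, List.mem_append]
    simp only [SimpleGraph.Walk.edges_cons, SimpleGraph.Walk.edges_nil, List.mem_singleton]
    rintro (h | h)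
    · exact hdis v₁ (g3 v₁ (w.fst_mem_support_of_mem_edges h)) hv₁
    · have h1 : v₁ ∈ s(b₂, x') := by rw [← h]; simp
      rw [Sym2.mem_iff] at h1
      rcases h1 with h1 | h1
      · exact hdis b₂ hbX' (h1 ▸ hv₁)
      · exact hxX' (h1 ▸ hv₁)
  · intro i hi
    rw [SimpleGraph.Walk.length_append] at hi
    simp only [SimpleGraph.Walk.length_cons, SimpleGraph.Walk.length_nil] at hi
    rw [SimpleGraph.Walk.getVert_append]
    split_ifs with h
    · exact g3 _ (SimpleGraph.Walk.getVert_mem_support _ _)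
    · have h1 : i - w.length = 0 := by omega
      rw [h1, SimpleGraph.Walk.getVert_zero]
      exact hbX'
  · right
    intro v hv
    omega
  · intro v hv
    have h1 := dS_pos hl (hne v hv)
    omega
  · intro v hv u hvu
    have hlu := hl s(v, u) hvu.1
    rcases hXh v hv u hvu with hu | hu | hu
    · left
      refine ⟨hu, ?_⟩
      have h1 := dS_adj (hne u hu) hv hvu.1
      omega
    · right
      left
      refine ⟨hu, ?_⟩
      subst hu
      have h1 := dS_one (len := len) hv hvu.1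
      omega
    · right
      right
      refine ⟨hu, ?_⟩
      subst hu
      have h1 := eS_le (hne v hv) hvu.1
      omega

/-- two clusters at the same one or two hubs, joined by a way that avoids a token of each -/
theorem mov2 {H : SimpleGraph V} {len : Sym2 V → ℕ} {e₀ : Sym2 V} {N N' F G s q₁ : ℕ}
    (hNM : NoMv H len s (2 * s + q₁ + 1) (F * G))
    (hstep : ∀ ℓ, N < ℓ → N' ≤ F * ℓ) (hG : 1 ≤ G) (hsF : s + 2 ≤ F) (hNN : N ≤ N')
    (hl : ∀ f ∈ H.edgeSet, 1 ≤ len f)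
    (X X' : Finset V) (hX : ∑ x ∈ X, (nb H x).card ≤ s) (hX' : ∑ x ∈ X', (nb H x).card ≤ s)
    (hXc : X.card ≤ s) (hXc' : X'.card ≤ s) (hdis : ∀ x ∈ X', x ∉ X)
    (hcX : Conn (TN H len e₀ N) X) (hcX' : Conn (TN H len e₀ N) X')
    (he₀ : ∀ v ∈ X, v ∉ e₀) (he₀' : ∀ v ∈ X', v ∉ e₀)
    {x x' : V} (hxX : x ∉ X) (hx'X : x' ∉ X) (hxX' : x ∉ X') (hx'X' : x' ∉ X')
    (hXh : ∀ v ∈ X, ∀ w, (TN H len e₀ N).Adj v w → w ∈ X ∨ w = x ∨ w = x')
    (hXh' : ∀ v ∈ X', ∀ w, (TN H len e₀ N).Adj v w → w ∈ X' ∨ w = x ∨ w = x')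
    (ht : ∃ v ∈ X, (TN H len e₀ N).Adj v x) (ht' : ∃ v ∈ X', (TN H len e₀ N).Adj v x)
    {a' b : V} (ha' : a' ∈ X') (hb : b ∈ X) (P : H.Walk a' b)
    (hP : ∃ v ∈ X, ∃ y, y ∉ X ∧ (TN H len e₀ N).Adj v y ∧ s(v, y) ∉ P.edges)
    (hP' : ∃ v ∈ X', ∃ y, y ∉ X' ∧ (TN H len e₀ N).Adj v y ∧ s(v, y) ∉ P.edges)
    (hPl : P.length ≤ q₁) (hPlen : ∀ f ∈ P.edges, len f ≤ N')
    (hPd : ∀ u ∈ P.support, (nb H u).card ≤ G * N') : False := by
  obtain ⟨v₁, hv₁, y₁, hy₁, hvy, hvP⟩ := hP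
  obtain ⟨v₁', hv₁', y₁', hy₁', hvy', hvP'⟩ := hP'
  obtain ⟨v₂, hv₂, hv₂x⟩ := ht
  obtain ⟨v₂', hv₂', hv₂x'⟩ := ht'
  have hdis' : ∀ x ∈ X, x ∉ X' := fun x h h' => hdis x h' h
  have hPr : s(v₁', y₁') ∉ P.reverse.edges := by
    rw [SimpleGraph.Walk.edges_reverse, List.mem_reverse]
    exact hvP'
  have hPrl : P.reverse.length ≤ q₁ := by
    rw [SimpleGraph.Walk.length_reverse]
    exact hPl
  have hPre : ∀ f ∈ P.reverse.edges, len f ≤ N' := by
    intro f hf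
    rw [SimpleGraph.Walk.edges_reverse, List.mem_reverse] at hf
    exact hPlen f hf
  have hPrd : ∀ u ∈ P.reverse.support, (nb H u).card ≤ G * N' := by
    intro f hf
    rw [SimpleGraph.Walk.support_reverse, List.mem_reverse] at hf
    exact hPd f hf
  by_cases hA : ∀ v ∈ X, ∀ w, (TN H len e₀ N).Adj v w → w ∈ X ∨ w = x
  · exact mov_one hNM hstep hG hsF hNN hl X X' hX hX' hXc hXc' hdis hcX hcX' he₀ hv₁ hy₁ hvy hxX
      hv₂ hv₂x hv₂' hv₂x' hA ha' hb P hvP hPl hPlen hPd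
  by_cases hA' : ∀ v ∈ X', ∀ w, (TN H len e₀ N).Adj v w → w ∈ X' ∨ w = x
  · exact mov_one hNM hstep hG hsF hNN hl X' X hX' hX hXc' hXc hdis' hcX' hcX he₀' hv₁' hy₁' hvy'
      hxX' hv₂' hv₂x' hv₂ hv₂x hA' hb ha' P.reverse hPr hPrl hPre hPrd
  push Not at hA hA'
  obtain ⟨u, hu, w, huw, h1, h2⟩ := hA
  obtain ⟨u', hu', w', huw', h1', h2'⟩ := hA'
  obtain rfl : w = x' := by
    rcases hXh u hu w huw with h | h | h
    · exact absurd h h1
    · exact absurd h h2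
    · exact h
  obtain rfl : w' = w := by
    rcases hXh' u' hu' w' huw' with h | h | h
    · exact absurd h h1'
    · exact absurd h h2'
    · exact h
  rcases Nat.le_total (sInf (eS H len X' x w')) (sInf (eS H len X x w')) with h | h
  · exact mov_two hNM hstep hG hsF hNN hl X X' hX hX' hXc hXc' hdis hcX hcX' he₀ hv₁ hy₁ hvy hxX
      hx'X hv₂ hv₂x hv₂' hv₂x' hu' huw' hXh h ha' hb P hvP hPl hPlen hPd
  · exact mov_two hNM hstep hG hsF hNN hl X' X hX' hX hXc' hXc hdis' hcX' hcX he₀' hv₁' hy₁' hvy'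
      hxX' hx'X' hv₂' hv₂x' hv₂ hv₂x hu huw hXh' h hb ha' P.reverse hPr hPrl hPre hPrd

end Pool.Agent.H354_OP
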