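import Pool.Agent.H354_OP.Mv

/-!
# Two small clusters at the same one or two hubs and without long edges: one of them can be moved
onto the other
-/

set_option autoImplicit false

namespace Pool.Agent.H354_OP

open Finset
open scoped Classical

set_option linter.unusedSectionVars false

variable {V : Type} [Fintype V]

theorem mov_coreL {H : SimpleGraph V} {len : Sym2 V → ℕ} {e₀ : Sym2 V} {N F G s q₂ : ℕ}
    (hNM : NoMv H len s q₂ (F * G)) (hFG : 1 ≤ F * G)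
    (X X' : Finset V) (hX : ∑ x ∈ X, (nb H x).card ≤ s) (hX' : ∑ x ∈ X', (nb H x).card ≤ s)
    (he₀ : ∀ v ∈ X, v ∉ e₀) (hnl : ∀ v ∈ X, ∀ w, H.Adj v w → len s(v, w) ≤ N)
    {v₁ y₁ : V} (hv₁ : v₁ ∈ X) (he : (TN H len e₀ N).Adj v₁ y₁)
    {x a z : V} (hxa : H.Adj x a) (R : H.Walk a z) (φ : V → ℕ) (L : ℕ)
    (hL : L = len s(x, a) + (R.edges.map len).sum) (haX' : a ∈ X') (hxX : x ∉ X) (hzX : z ∉ X)
    (hex : s(v₁, y₁) ≠ s(x, a)) (heR : s(v₁, y₁) ∉ R.edges)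
    (hRX' : ∀ i < R.length, R.getVert i ∈ X') (hzs : z ∈ X' ∨ ∀ v ∈ X, φ v < L)
    (hφ : ∀ v ∈ X, 1 ≤ φ v ∧ φ v ≤ L)
    (hT : ∀ v ∈ X, ∀ w, (TN H len e₀ N).Adj v w → (w ∈ X ∧ φ v ≤ φ w + len s(v, w)) ∨
      (w = x ∧ φ v ≤ len s(v, w)) ∨ (w = z ∧ L ≤ φ v + len s(v, w))) : False := by
  have hdeg' : ∀ x ∈ X', (nb H x).card ≤ s := fun x hx =>
    (single_le_sum (f := fun x => (nb H x).card) (fun _ _ => Nat.zero_le _) hx).trans hX'
  refine hNM X s(v₁, y₁) x a z hxa R φ L hL hX he.1 ⟨v₁, hv₁, by simp⟩ hex heR hxX hzX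
    (hdeg' a haX') (fun i hi => hdeg' _ (hRX' i hi)) (hzs.imp (hdeg' z) id) hφ ?_
  intro v hv w hvw
  have hlK : len s(v, w) ≤ F * G * len s(v, w) := Nat.le_mul_of_pos_left _ hFG
  have hTa : (TN H len e₀ N).Adj v w := by
    refine ⟨hvw, ?_, hnl v hv w hvw⟩
    intro h
    exact he₀ v hv (h ▸ by simp)
  rcases hT v hv w hTa with ⟨h1, h2⟩ | ⟨h1, h2⟩ | ⟨h1, h2⟩
  · exact Or.inl ⟨h1, by omega⟩
  · exact Or.inr (Or.inl ⟨h1, by omega⟩)
  · exact Or.inr (Or.inr (Or.inl ⟨h1, by omega⟩))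

theorem mov_oneL {H : SimpleGraph V} {len : Sym2 V → ℕ} {e₀ : Sym2 V} {N F G s q₂ : ℕ}
    (hNM : NoMv H len s q₂ (F * G)) (hFG : 1 ≤ F * G) (hl : ∀ f ∈ H.edgeSet, 1 ≤ len f)
    (X X' : Finset V) (hX : ∑ x ∈ X, (nb H x).card ≤ s) (hX' : ∑ x ∈ X', (nb H x).card ≤ s)
    (hdis : ∀ x ∈ X', x ∉ X) (hcX : Conn (TN H len e₀ N) X) (he₀ : ∀ v ∈ X, v ∉ e₀)
    (hnl : ∀ v ∈ X, ∀ w, H.Adj v w → len s(v, w) ≤ N)
    {x : V} (hxX : x ∉ X) {v₂ v' : V} (hv₂ : v₂ ∈ X) (hv₂x : (TN H len e₀ N).Adj v₂ x)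
    (hv' : v' ∈ X') (hv'x : (TN H len e₀ N).Adj v' x)
    (hXh : ∀ v ∈ X, ∀ w, (TN H len e₀ N).Adj v w → w ∈ X ∨ w = x) : False := by
  have hne : ∀ v ∈ X, (dS H len X x v).Nonempty := fun v hv =>
    dS_ne TN_le len hcX hv₂ hv₂x.1.symm hv
  refine mov_coreL hNM hFG X X' hX hX' he₀ hnl hv₂ hv₂x
    hv'x.1.symm SimpleGraph.Walk.nil (fun v => min (sInf (dS H len X x v)) (len s(x, v')))
    (len s(x, v')) (by simp) hv' hxX (hdis v' hv') ?_ (by simp) (by simp) (Or.inl hv') ?_ ?_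
  · intro h
    have h1 : v₂ ∈ s(x, v') := by rw [← h]; simp
    rw [Sym2.mem_iff] at h1
    rcases h1 with h1 | h1
    · exact hxX (h1 ▸ hv₂)
    · exact hdis v' hv' (h1 ▸ hv₂)
  · intro v hv
    have h1 := dS_pos hl (hne v hv)
    have h2 := hl s(x, v') hv'x.1.symm
    omega
  · intro v hv w hvw
    rcases hXh v hv w hvw with hw | hw
    · left
      refine ⟨hw, ?_⟩
      have h1 := dS_adj (hne w hw) hv hvw.1
      omega
    · right
      left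
      refine ⟨hw, ?_⟩
      subst hw
      have h1 := dS_one (len := len) hv hvw.1
      omega

theorem mov_twoL {H : SimpleGraph V} {len : Sym2 V → ℕ} {e₀ : Sym2 V} {N F G s q₂ : ℕ}
    (hNM : NoMv H len s q₂ (F * G)) (hFG : 1 ≤ F * G) (hl : ∀ f ∈ H.edgeSet, 1 ≤ len f)
    (X X' : Finset V) (hX : ∑ x ∈ X, (nb H x).card ≤ s) (hX' : ∑ x ∈ X', (nb H x).card ≤ s)
    (hdis : ∀ x ∈ X', x ∉ X) (hcX : Conn (TN H len e₀ N) X) (hcX' : Conn (TN H len e₀ N) X')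
    (he₀ : ∀ v ∈ X, v ∉ e₀) (hnl : ∀ v ∈ X, ∀ w, H.Adj v w → len s(v, w) ≤ N)
    {x x' : V} (hxX : x ∉ X) (hxX' : x' ∉ X) {v₂ v' v'' : V}
    (hv₂ : v₂ ∈ X) (hv₂x : (TN H len e₀ N).Adj v₂ x)
    (hv' : v' ∈ X') (hv'x : (TN H len e₀ N).Adj v' x)
    (hv'' : v'' ∈ X') (hv''x : (TN H len e₀ N).Adj v'' x')
    (hXh : ∀ v ∈ X, ∀ w, (TN H len e₀ N).Adj v w → w ∈ X ∨ w = x ∨ w = x')
    (hD : sInf (eS H len X' x x') ≤ sInf (eS H len X x x')) : False := by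
  have hne : ∀ v ∈ X, (dS H len X x v).Nonempty := fun v hv =>
    dS_ne TN_le len hcX hv₂ hv₂x.1.symm hv
  obtain ⟨D, hDe⟩ : ∃ D, D = sInf (eS H len X' x x') := ⟨_, rfl⟩
  rw [← hDe] at hD
  obtain ⟨a, b₂, w, g1, g2, g3, g4⟩ : D ∈ eS H len X' x x' := by
    rw [hDe]
    obtain ⟨w, hw1, hw2, hw3⟩ := conn_walk (TN_le (H := H)) hcX' hv' hv''
    exact Nat.sInf_mem ⟨_, v', v'', w, hv'x.1.symm, hv''x.1, hw2, rfl⟩
  have haX' : a ∈ X' := g3 a w.start_mem_support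
  have hbX' : b₂ ∈ X' := g3 b₂ w.end_mem_support
  have hl1 := hl s(x, a) g1
  have hl2 := hl s(b₂, x') g2
  refine mov_coreL hNM hFG X X' hX hX' he₀ hnl hv₂ hv₂x
    g1 (w.append (SimpleGraph.Walk.cons g2 SimpleGraph.Walk.nil))
    (fun v => min (sInf (dS H len X x v)) (D - 1)) D ?_ haX' hxX hxX' ?_ ?_ ?_ ?_ ?_ ?_
  · rw [SimpleGraph.Walk.edges_append, List.map_append, List.sum_append, g4]
    simp
  · intro h
    have h1 : v₂ ∈ s(x, a) := by rw [← h]; simp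
    rw [Sym2.mem_iff] at h1
    rcases h1 with h1 | h1
    · exact hxX (h1 ▸ hv₂)
    · exact hdis a haX' (h1 ▸ hv₂)
  · rw [SimpleGraph.Walk.edges_append, List.mem_append]
    simp only [SimpleGraph.Walk.edges_cons, SimpleGraph.Walk.edges_nil, List.mem_singleton]
    rintro (h | h)
    · exact hdis v₂ (g3 v₂ (w.fst_mem_support_of_mem_edges h)) hv₂
    · have h1 : v₂ ∈ s(b₂, x') := by rw [← h]; simp
      rw [Sym2.mem_iff] at h1
      rcases h1 with h1 | h1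
      · exact hdis b₂ hbX' (h1 ▸ hv₂)
      · exact hxX' (h1 ▸ hv₂)
  · intro i hi
    rw [SimpleGraph.Walk.length_append] at hi
    simp only [SimpleGraph.Walk.length_cons, SimpleGraph.Walk.length_nil] at hi
    rw [SimpleGraph.Walk.getVert_append]
    split_ifs with h
    · exact g3 _ (SimpleGraph.Walk.getVert_mem_support _ _)
    · have h1 : i - w.length = 0 := by omega
      rw [h1, SimpleGraph.Walk.getVert_zero]
      exact hbX'
  · right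
    intro v hv
    omega
  · intro v hv
    have h1 := dS_pos hl (hne v hv)
    omega
  · intro v hv u hvu
    have hlu := hl s(v, u) hvu.1
    rcases hXh v hv u hvu with hu | hu | hu
    · left
      refine ⟨hu, ?_⟩
      have h1 := dS_adj (hne u hu) hv hvu.1
      omega
    · right
      left
      refine ⟨hu, ?_⟩
      subst hu
      have h1 := dS_one (len := len) hv hvu.1
      omega
    · right
      right
      refine ⟨hu, ?_⟩
      subst hu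
      have h1 := eS_le (hne v hv) hvu.1
      omega

/-- two clusters at the same one or two hubs, without long edges -/
theorem mov2L {H : SimpleGraph V} {len : Sym2 V → ℕ} {e₀ : Sym2 V} {N F G s q₂ : ℕ}
    (hNM : NoMv H len s q₂ (F * G)) (hFG : 1 ≤ F * G) (hl : ∀ f ∈ H.edgeSet, 1 ≤ len f)
    (X X' : Finset V) (hX : ∑ x ∈ X, (nb H x).card ≤ s) (hX' : ∑ x ∈ X', (nb H x).card ≤ s)
    (hdis : ∀ x ∈ X', x ∉ X)
    (hcX : Conn (TN H len e₀ N) X) (hcX' : Conn (TN H len e₀ N) X')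
    (he₀ : ∀ v ∈ X, v ∉ e₀) (he₀' : ∀ v ∈ X', v ∉ e₀)
    (hnl : ∀ v ∈ X, ∀ w, H.Adj v w → len s(v, w) ≤ N)
    (hnl' : ∀ v ∈ X', ∀ w, H.Adj v w → len s(v, w) ≤ N)
    {x x' : V} (hxX : x ∉ X) (hx'X : x' ∉ X) (hxX' : x ∉ X') (hx'X' : x' ∉ X')
    (hXh : ∀ v ∈ X, ∀ w, (TN H len e₀ N).Adj v w → w ∈ X ∨ w = x ∨ w = x')
    (hXh' : ∀ v ∈ X', ∀ w, (TN H len e₀ N).Adj v w → w ∈ X' ∨ w = x ∨ w = x')
    (ht : ∃ v ∈ X, (TN H len e₀ N).Adj v x) (ht' : ∃ v ∈ X', (TN H len e₀ N).Adj v x) :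
    False := by
  obtain ⟨v₂, hv₂, hv₂x⟩ := ht
  obtain ⟨v₂', hv₂', hv₂x'⟩ := ht'
  have hdis' : ∀ x ∈ X, x ∉ X' := fun x h h' => hdis x h' h
  by_cases hA : ∀ v ∈ X, ∀ w, (TN H len e₀ N).Adj v w → w ∈ X ∨ w = x
  · exact mov_oneL hNM hFG hl X X' hX hX' hdis hcX he₀ hnl hxX hv₂ hv₂x hv₂' hv₂x' hA
  by_cases hA' : ∀ v ∈ X', ∀ w, (TN H len e₀ N).Adj v w → w ∈ X' ∨ w = x
  · exact mov_oneL hNM hFG hl X' X hX' hX hdis' hcX' he₀' hnl' hxX' hv₂' hv₂x' hv₂ hv₂x hA'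
  push Not at hA hA'
  obtain ⟨u, hu, w, huw, h1, h2⟩ := hA
  obtain ⟨u', hu', w', huw', h1', h2'⟩ := hA'
  obtain rfl : w = x' := by
    rcases hXh u hu w huw with h | h | h
    · exact absurd h h1
    · exact absurd h h2
    · exact h
  obtain rfl : w' = w := by
    rcases hXh' u' hu' w' huw' with h | h | h
    · exact absurd h h1'
    · exact absurd h h2'
    · exact h
  rcases Nat.le_total (sInf (eS H len X' x w')) (sInf (eS H len X x w')) with h | h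
  · exact mov_twoL hNM hFG hl X X' hX hX' hdis hcX hcX' he₀ hnl hxX hx'X hv₂ hv₂x hv₂' hv₂x' hu'
      huw' hXh h
  · exact mov_twoL hNM hFG hl X' X hX' hX hdis' hcX' hcX he₀' hnl' hxX' hx'X' hv₂' hv₂x' hv₂ hv₂x
      hu huw hXh' h

end Pool.Agent.H354_OP
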