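import Pool.Agent.H354_OP.Redraw

/-!
# An arc along a walk: the places where it meets the drawing
-/

set_option autoImplicit false

namespace Pool.Agent.H354_OP

open Set Filter Topology

/-- the vertices and crossings met along a walk -/
def meets {V : Type*} (H : SimpleGraph V) (pos : V → ℂ) (A : Sym2 V → Set ℂ) {u v : V}
    (w : H.Walk u v) : Set (Sym2 V × ℂ) :=
  {q | q.1 ∈ H.edgeSet ∧ q.2 ≠ pos u ∧ q.2 ≠ pos v ∧ q.2 ∈ A q.1 ∧ (∃ e ∈ w.edges, q.2 ∈ A e) ∧
    (q.2 ∈ range pos ∨ ∃ g, (g, q.2) ∈ xs H pos A q.1)}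

/-- In a drawing of `H` an arc can be drawn along a walk; each of its crossings is near a vertex or
a crossing met along the walk. -/
theorem parallel2 {V : Type*} [Finite V] {H : SimpleGraph V} {pos : V → ℂ} {A : Sym2 V → Set ℂ}
    (hd : Drawing H pos A) (hxfin : ∀ e ∈ H.edgeSet, (xs H pos A e).Finite) {u v : V}
    (huv : u ≠ v) (w : H.Walk u v) :
    ∃ (A' : Sym2 V → Set ℂ) (B : Set ℂ), Drawing H pos A' ∧
      (∀ e ∈ H.edgeSet, xs H pos A' e ⊆ xs H pos A e) ∧ IsArc B (pos u) (pos v) ∧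
      (∀ x, pos x ∈ B → x = u ∨ x = v) ∧
      ∃ (x : Sym2 V × ℂ → ℂ) (tag : Sym2 V × ℂ → Bool × Bool),
        (∀ q ∈ {q : Sym2 V × ℂ | q.1 ∈ H.edgeSet ∧ q.2 ∈ B ∧ q.2 ∈ A' q.1 ∧ q.2 ∉ range pos},
          (q.1, x q) ∈ meets H pos A w) ∧
        InjOn (fun q => ((q.1, x q), tag q))
          {q : Sym2 V × ℂ | q.1 ∈ H.edgeSet ∧ q.2 ∈ B ∧ q.2 ∈ A' q.1 ∧ q.2 ∉ range pos} := by
  classical
  set N : Set ℂ := range pos ∪ ⋃ e ∈ H.edgeSet, Prod.snd '' xs H pos A e with hNdef
  have hN : N.Finite := by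
    refine (Set.finite_range pos).union ?_
    exact (Set.toFinite _).biUnion fun e he => (hxfin e he).image _
  have hpos : range pos ⊆ N := subset_union_left
  have hNA : ∀ e ∈ H.edgeSet, ∀ f ∈ H.edgeSet, e ≠ f → A e ∩ A f ⊆ N := by
    rintro e he f hf hef z ⟨hz, hz'⟩
    by_cases h : z ∈ range pos
    · exact hpos h
    · right
      simp only [mem_iUnion]
      exact ⟨e, he, ⟨(f, z), ⟨hf, hef.symm, hz, hz', h⟩, rfl⟩⟩
  have hNx : ∀ z ∈ N, z ∉ range pos → ∀ e ∈ H.edgeSet, z ∈ A e → ∃ g, (g, z) ∈ xs H pos A e := by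
    intro z hz hzp e he hze
    rcases hz with hz | hz
    · exact absurd hz hzp
    · simp only [mem_iUnion] at hz
      obtain ⟨h, hh, ⟨g, z'⟩, hgz, rfl⟩ := hz
      by_cases hhe : h = e
      · subst hhe
        exact ⟨g, hgz⟩
      · exact ⟨h, hh, hhe, hze, hgz.2.2.1, hzp⟩
  obtain ⟨Γ, P, n, hΓ, hdeg, hroute, hPe, hPP, hPA⟩ := exists_poly hd N hN hpos hNA
  have hPne : ∀ e ∈ H.edgeSet, 0 < n e := by
    intro e
    induction e using Sym2.ind with
    | _ a b =>
      intro he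
      rcases Nat.eq_zero_or_pos (n s(a, b)) with h0 | h0
      · exfalso
        have hab : pos a ≠ pos b := fun h => (SimpleGraph.Adj.ne he) (hd.inj h)
        rcases hPe a b he with ⟨h1, h2⟩ | ⟨h1, h2⟩
        · rw [h0, h1] at h2
          exact hab h2
        · rw [h0, h1] at h2
          exact hab h2.symm
      · exact h0
  set A' : Sym2 V → Set ℂ := fun e => polyImg (P e) (n e) with hA'
  have hd' : Drawing H pos A' := by
    refine ⟨hd.inj, ?_, ?_⟩
    · intro a b hab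
      have h1 := hPne s(a, b) hab
      obtain ⟨k, hk⟩ : ∃ k, n s(a, b) = k + 1 := ⟨n s(a, b) - 1, by omega⟩
      have h2 : IsArc (A' s(a, b)) (P s(a, b) 0) (P s(a, b) (n s(a, b))) := by
        have h3 := hΓ.simple (hroute s(a, b) hab)
        simp only [hA']
        rw [hk] at h3 ⊢
        exact h3.isArc
      rcases hPe a b hab with ⟨h3, h4⟩ | ⟨h3, h4⟩
      · rw [h3, h4] at h2
        exact h2
      · rw [h3, h4] at h2
        exact h2.symm
    · intro e he x hx
      exact hd.avoid e he x (hPA e he ⟨hx, hpos ⟨x, rfl⟩⟩)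
  have hxs : ∀ e ∈ H.edgeSet, xs H pos A' e ⊆ xs H pos A e := by
    rintro e he ⟨f, z⟩ ⟨h1, h2, h3, h4, h5⟩
    have hzN : z ∈ N := hPP e he f h1 (Ne.symm h2) ⟨h3, h4⟩
    exact ⟨h1, h2, hPA e he ⟨h3, hzN⟩, hPA f h1 ⟨h4, hzN⟩, h5⟩
  have hwe : ∀ e ∈ w.edges, e ∈ H.edgeSet := fun e he => w.edges_subset_edgeSet he
  -- the path along the walk
  set ΓP := routeGraph P n {e | e ∈ w.edges} with hΓP
  have hΓle : ΓP ≤ Γ := by
    rintro a b ⟨hab, e, he, i, hi, h⟩
    have h1 := (hroute e (hwe e he)).adj i hi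
    rw [Sym2.eq_iff] at h
    rcases h with ⟨rfl, rfl⟩ | ⟨rfl, rfl⟩
    · exact h1
    · exact h1.symm
  have hreach : ΓP.Reachable (pos u) (pos v) := by
    refine reach_walk w fun a b hab => ?_
    have hr := hroute s(a, b) (hwe _ hab)
    have h1 : ∀ i ≤ n s(a, b), ΓP.Reachable (P s(a, b) 0) (P s(a, b) i) := by
      intro i
      induction i with
      | zero => intro _; exact SimpleGraph.Reachable.refl _
      | succ i ih =>
        intro hi
        refine (ih (by omega)).trans (SimpleGraph.Adj.reachable ?_)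
        exact ⟨(hr.adj i (by omega)).ne, s(a, b), hab, i, by omega, rfl⟩
    have h2 := h1 _ le_rfl
    rcases hPe a b (hwe _ hab) with ⟨h3, h4⟩ | ⟨h3, h4⟩
    · rw [h3, h4] at h2
      exact h2
    · rw [h3, h4] at h2
      exact h2.symm
  obtain ⟨p, T, p0, pT, hp⟩ := exists_route hreach
  have hpΓ : Route Γ p T := hp.mono hΓle
  have hTpos : 0 < T := by
    rcases Nat.eq_zero_or_pos T with h | h
    · exfalso
      rw [h, p0] at pT
      exact huv (hd.inj pT)
    · exact h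
  have hps := hΓ.simple hpΓ
  set S : Set (ℂ × ℂ) := {q | Γ.Adj q.1 q.2 ∧ ∀ i < T, s(q.1, q.2) ≠ s(p i, p (i + 1))} with hSdef
  have hSfin : S.Finite := hΓ.fin.subset fun q hq => hq.1
  obtain ⟨B, hB, hBp, hBN, c, hc⟩ := offset' hTpos hps S hSfin (by
    intro s hs i hi
    exact hΓ.meet _ _ _ _ hs.1 (hpΓ.adj i hi) (hs.2 i hi)) N hN
  rw [p0] at hB hBp hBN hc
  rw [pT] at hB hBp hBN hc
  refine ⟨A', B, hd', hxs, hB, ?_, ?_⟩
  · intro x hx'
    rcases hBN (pos x) (hpos ⟨x, rfl⟩) hx' with h | h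
    · exact Or.inl (hd.inj h)
    · exact Or.inr (hd.inj h)
  -- nodes of the path at which a segment off the path starts
  have hnode : ∀ s ∈ S, ∀ j, 0 < j → j < T → (p j = s.1 ∨ p j = s.2) → p j ∈ N := by
    rintro ⟨a, b⟩ hs j hj0 hjT hjs
    by_contra hjN
    have h1 : Γ.Adj (p j) (p (j + 1)) := hpΓ.adj j hjT
    have h2 : Γ.Adj (p j) (p (j - 1)) := by
      have := hpΓ.adj (j - 1) (by omega)
      rw [show j - 1 + 1 = j by omega] at this
      exact this.symm
    have hne : p (j + 1) ≠ p (j - 1) := by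
      intro h
      have := hpΓ.inj (j + 1) (j - 1) (by omega) (by omega) h
      omega
    have key : ∀ y, Γ.Adj (p j) y → (∀ i < T, s(p j, y) ≠ s(p i, p (i + 1))) → False := by
      intro y hy hoff
      rcases hdeg (p j) hjN _ _ _ h1 h2 hy with h | h | h
      · exact hne h
      · refine hoff (j - 1) (by omega) ?_
        rw [show j - 1 + 1 = j by omega, ← h]
        exact Sym2.eq_swap
      · refine hoff j hjT ?_
        rw [← h]
    rcases hjs with h | h
    · simp only at h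
      refine key b (h ▸ hs.1) ?_
      intro i hi
      rw [h]
      exact hs.2 i hi
    · simp only at h
      refine key a (h ▸ hs.1.symm) ?_
      intro i hi
      rw [h, Sym2.eq_swap]
      exact hs.2 i hi
  have hpA : ∀ j < T, ∃ e ∈ w.edges, p j ∈ A' e := by
    intro j hj
    obtain ⟨-, e, he, i, hi, h⟩ := hp.adj j hj
    refine ⟨e, he, ?_⟩
    simp only [hA']
    rw [mem_polyImg]
    refine ⟨i, hi, ?_⟩
    rw [Sym2.eq_iff] at h
    rcases h with ⟨h1, -⟩ | ⟨h1, -⟩
    · rw [h1]; exact left_mem_segment _ _ _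
    · rw [h1]; exact right_mem_segment _ _ _
  set Q : Set (Sym2 V × ℂ) := meets H pos A w with hQ
  have hex : ∀ q : Sym2 V × ℂ, q.1 ∈ H.edgeSet ∧ q.2 ∈ B ∧ q.2 ∈ A' q.1 ∧ q.2 ∉ range pos →
      ∃ (x : ℂ) (b side : Bool) (i j : ℕ), (q.1, x) ∈ Q ∧ i < n q.1 ∧ j < T ∧ p j = x ∧
        q.2 = c j b (P q.1 i, P q.1 (i + 1)) ∧
        (if side then P q.1 i = x else P q.1 (i + 1) = x) := by
    rintro ⟨f, z⟩ ⟨hf, hzB, hzf, hzp⟩
    simp only at hf hzB hzf hzp ⊢
    have hzf' := hzf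
    simp only [hA'] at hzf
    rw [mem_polyImg] at hzf
    obtain ⟨i, hi, hz⟩ := hzf
    have hz0 : z ≠ pos u := fun h => hzp ⟨u, h.symm⟩
    have hz1 : z ≠ pos v := fun h => hzp ⟨v, h.symm⟩
    have hmem : (P f i, P f (i + 1)) ∈ S := by
      refine ⟨(hroute f hf).adj i hi, ?_⟩
      intro j hj h
      have hzp' : z ∈ polyImg p T := by
        rw [mem_polyImg]
        refine ⟨j, hj, ?_⟩
        simp only at h
        rw [Sym2.eq_iff] at h
        rcases h with ⟨h1, h2⟩ | ⟨h1, h2⟩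
        · rw [← h1, ← h2]; exact hz
        · rw [← h1, ← h2, segment_symm]; exact hz
      rcases hBp z hzB hzp' with h' | h'
      · exact hz0 h'
      · exact hz1 h'
    obtain ⟨j, b, hj0, hjT, hjs, hzc⟩ := hc _ hmem z hzB hz hz0 hz1
    have hjN := hnode _ hmem j hj0 hjT hjs
    obtain ⟨e, he, hje⟩ := hpA j hjT
    have hju : p j ≠ pos u := by
      rw [← p0]
      intro h
      have := hpΓ.inj j 0 hjT.le (by omega) h
      omega
    have hjv : p j ≠ pos v := by
      rw [← pT]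
      intro h
      have := hpΓ.inj j T hjT.le le_rfl h
      omega
    have hjf : p j ∈ A' f := by
      simp only [hA']
      rw [mem_polyImg]
      refine ⟨i, hi, ?_⟩
      rcases hjs with h | h
      · simp only at h
        rw [h]; exact left_mem_segment _ _ _
      · simp only at h
        rw [h]; exact right_mem_segment _ _ _
    have hjAf : p j ∈ A f := hPA f hf ⟨hjf, hjN⟩
    have hQm : (f, p j) ∈ Q :=
      ⟨hf, hju, hjv, hjAf, ⟨e, he, hPA e (hwe e he) ⟨hje, hjN⟩⟩, by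
        by_cases hjp : p j ∈ range pos
        · exact Or.inl hjp
        · exact Or.inr (hNx (p j) hjN hjp f hf hjAf)⟩
    rcases hjs with h | h
    · exact ⟨p j, b, true, i, j, hQm, hi, hjT, rfl, hzc, by simpa using h.symm⟩
    · exact ⟨p j, b, false, i, j, hQm, hi, hjT, rfl, hzc, by simpa using h.symm⟩
  choose! x b side i j hq1 hq2 hq3 hq4 hq5 hq6 using hex
  refine ⟨x, fun q => (b q, side q), fun q hq => hq1 q hq, ?_⟩
  intro q hq q' hq' h
  simp only [Prod.mk.injEq] at h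
  obtain ⟨⟨h1, h2⟩, h3, h4⟩ := h
  have a3 := hq3 q hq
  have a4 := hq4 q hq
  have b3 := hq3 q' hq'
  have b4 := hq4 q' hq'
  have hj : j q = j q' := hpΓ.inj _ _ a3.le b3.le (by rw [a4, b4, h2])
  have a2 := hq2 q hq
  have b2 := hq2 q' hq'
  have a6 := hq6 q hq
  have b6 := hq6 q' hq'
  rw [← h1] at b2 b6
  have hr := hroute q.1 hq.1
  have hi : i q = i q' := by
    rw [← h2, ← h4] at b6
    cases hside : side q
    · rw [hside] at a6 b6
      simp only [Bool.false_eq_true, if_false] at a6 b6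
      have := hr.inj _ _ (by omega) (by omega) (a6.trans b6.symm)
      omega
    · rw [hside] at a6 b6
      simp only [if_true] at a6 b6
      exact hr.inj _ _ (by omega) (by omega) (a6.trans b6.symm)
  refine Prod.ext h1 ?_
  rw [hq5 q hq, hq5 q' hq', hj, h3, h1, hi]

theorem encard_iUnion_le_sum {α : Type*} (Z : ℕ → Set α) (K : ℕ → ℕ) (r : ℕ)
    (h : ∀ i < r, (Z i).encard ≤ K i) :
    (⋃ i ∈ {i | i < r}, Z i).encard ≤ (∑ i ∈ Finset.range r, K i : ℕ) := by
  induction r with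
  | zero => simp
  | succ r ih =>
    have : (⋃ i ∈ {i | i < r + 1}, Z i) = (⋃ i ∈ {i | i < r}, Z i) ∪ Z r := by
      ext x
      simp only [mem_iUnion, mem_union]
      constructor
      · rintro ⟨i, hi, hx⟩
        have hi' : i < r + 1 := hi
        rcases Nat.lt_or_ge i r with h1 | h1
        · exact Or.inl ⟨i, h1, hx⟩
        · obtain rfl : i = r := by omega
          exact Or.inr hx
      · rintro (⟨i, hi, hx⟩ | hx)
        · exact ⟨i, Nat.lt_succ_of_lt hi, hx⟩
        · exact ⟨r, Nat.lt_succ_self r, hx⟩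
    rw [this]
    refine (Set.encard_union_le _ _).trans ?_
    have h1 := ih fun i hi => h i (by omega)
    have h2 := h r (by omega)
    rw [Finset.sum_range_succ]
    push_cast
    push_cast at h1
    exact add_le_add h1 h2

theorem meets_card {V : Type*} {H : SimpleGraph V} {pos : V → ℂ} {A : Sym2 V → Set ℂ}
    (hd : Drawing H pos A) {m : ℕ} (hx : ∀ e ∈ H.edgeSet, (xs H pos A e).encard ≤ m) {u v : V}
    (w : H.Walk u v) (δ : ℕ → ℕ)
    (hδ : ∀ i < w.length, w.getVert i ≠ u → w.getVert i ≠ v →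
      {e | e ∈ H.edgeSet ∧ w.getVert i ∈ e}.encard ≤ δ i) :
    (meets H pos A w).encard ≤ (∑ i ∈ Finset.range w.length, (δ i + 2 * m) : ℕ) := by
  have hwe : ∀ e ∈ w.edges, e ∈ H.edgeSet := fun e he => w.edges_subset_edgeSet he
  set Z : ℕ → Set (Sym2 V × ℂ) := fun i =>
    {q | q.1 ∈ H.edgeSet ∧ w.getVert i ∈ q.1 ∧ q.2 = pos (w.getVert i) ∧ w.getVert i ≠ u ∧
      w.getVert i ≠ v} ∪
    ((xs H pos A s(w.getVert i, w.getVert (i + 1))) ∪
      (fun q => (s(w.getVert i, w.getVert (i + 1)), q.2)) ''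
        (xs H pos A s(w.getVert i, w.getVert (i + 1)))) with hZ
  have hsub : meets H pos A w ⊆ ⋃ i ∈ {i | i < w.length}, Z i := by
    rintro ⟨f, x⟩ ⟨hf, hxu, hxv, hxf, ⟨e, he, hxe⟩, hor⟩
    simp only at hf hxu hxv hxf hxe hor
    obtain ⟨i, hi, rfl⟩ := mem_walk_edges w he
    simp only [mem_iUnion]
    by_cases hxp : x ∈ range pos
    · obtain ⟨y, rfl⟩ := hxp
      have hy1 := hd.avoid _ (hwe _ he) y hxe
      have hy2 := hd.avoid f hf y hxf
      have hyu : y ≠ u := fun h => hxu (by rw [h])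
      have hyv : y ≠ v := fun h => hxv (by rw [h])
      rcases Sym2.mem_iff.mp hy1 with h | h
      · exact ⟨i, hi, Or.inl ⟨hf, h ▸ hy2, by rw [h], h ▸ hyu, h ▸ hyv⟩⟩
      · have hi1 : i + 1 < w.length := by
          rcases Nat.lt_or_ge (i + 1) w.length with h' | h'
          · exact h'
          · exfalso
            rw [w.getVert_of_length_le h'] at h
            exact hyv h
        exact ⟨i + 1, hi1, Or.inl ⟨hf, h ▸ hy2, by rw [h], h ▸ hyu, h ▸ hyv⟩⟩
    · refine ⟨i, hi, Or.inr ?_⟩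
      by_cases hfe : f = s(w.getVert i, w.getVert (i + 1))
      · right
        rcases hor with h | ⟨g, hg⟩
        · exact absurd h hxp
        · rw [hfe] at hg
          exact ⟨(g, x), hg, by rw [hfe]⟩
      · left
        exact ⟨hf, hfe, hxe, hxf, hxp⟩
  refine (Set.encard_le_encard hsub).trans ?_
  refine encard_iUnion_le_sum Z (fun i => δ i + 2 * m) w.length ?_
  intro i hi
  have hadj : s(w.getVert i, w.getVert (i + 1)) ∈ H.edgeSet := w.adj_getVert_succ hi
  have h1 : {q : Sym2 V × ℂ | q.1 ∈ H.edgeSet ∧ w.getVert i ∈ q.1 ∧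
      q.2 = pos (w.getVert i) ∧ w.getVert i ≠ u ∧ w.getVert i ≠ v}.encard ≤ δ i := by
    by_cases hg : w.getVert i ≠ u ∧ w.getVert i ≠ v
    · refine le_trans ?_ (hδ i hi hg.1 hg.2)
      refine Set.encard_le_encard_of_injOn (f := Prod.fst) ?_ ?_
      · rintro q ⟨h1, h2, -⟩
        exact ⟨h1, h2⟩
      · rintro q ⟨-, -, h3, -⟩ q' ⟨-, -, h4, -⟩ h5
        exact Prod.ext h5 (h3.trans h4.symm)
    · have : {q : Sym2 V × ℂ | q.1 ∈ H.edgeSet ∧ w.getVert i ∈ q.1 ∧
          q.2 = pos (w.getVert i) ∧ w.getVert i ≠ u ∧ w.getVert i ≠ v} = ∅ := by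
        ext q
        simp only [mem_ofPred_eq, mem_empty_iff_false, iff_false]
        rintro ⟨-, -, -, h3⟩
        exact hg h3
      rw [this]
      simp
  refine (Set.encard_union_le _ _).trans ?_
  have h2 := hx _ hadj
  have h3 := Set.encard_image_le (fun q : Sym2 V × ℂ =>
    (s(w.getVert i, w.getVert (i + 1)), q.2))
    (xs H pos A s(w.getVert i, w.getVert (i + 1)))
  have h4 := (Set.encard_union_le (xs H pos A s(w.getVert i, w.getVert (i + 1)))
    ((fun q : Sym2 V × ℂ => (s(w.getVert i, w.getVert (i + 1)), q.2)) ''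
      (xs H pos A s(w.getVert i, w.getVert (i + 1))))).trans (add_le_add h2 (h3.trans h2))
  refine (add_le_add h1 h4).trans ?_
  push_cast
  rw [two_mul]

theorem meets_edge {V : Type*} {H : SimpleGraph V} {pos : V → ℂ} {A : Sym2 V → Set ℂ}
    (hd : Drawing H pos A) {m : ℕ} (hx : ∀ e ∈ H.edgeSet, (xs H pos A e).encard ≤ m) {u v : V}
    (w : H.Walk u v) {f : Sym2 V} (hf : f ∈ H.edgeSet) :
    {x | (f, x) ∈ meets H pos A w}.encard ≤ (m + 2 : ℕ) := by
  have hsub : {x | (f, x) ∈ meets H pos A w} ⊆ Prod.snd '' xs H pos A f ∪ pos '' {y | y ∈ f} := by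
    rintro x ⟨-, -, -, hxf, -, h⟩
    rcases h with ⟨y, hy⟩ | ⟨g, hg⟩
    · refine Or.inr ⟨y, hd.avoid f hf y ?_, hy⟩
      rw [hy]
      exact hxf
    · exact Or.inl ⟨_, hg, rfl⟩
  refine (Set.encard_le_encard hsub).trans ((Set.encard_union_le _ _).trans ?_)
  have h1 := (Set.encard_image_le Prod.snd (xs H pos A f)).trans (hx f hf)
  have h2 : (pos '' {y | y ∈ f}).encard ≤ 2 := by
    refine (Set.encard_image_le _ _).trans ?_
    induction f using Sym2.ind with
    | _ a b =>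
      have : {y | y ∈ s(a, b)} = {a, b} := by
        ext y
        simp
      rw [this]
      refine (Set.encard_insert_le _ _).trans ?_
      rw [Set.encard_singleton]
      norm_num
  push_cast
  exact add_le_add h1 h2

theorem encard_le_of_tag {α β : Type*} (S : Set α) (R : Set β) (f : α → β) (tag : α → Bool × Bool)
    (hf : ∀ a ∈ S, f a ∈ R) (hi : InjOn (fun a => (f a, tag a)) S) : S.encard ≤ R.encard * 4 := by
  refine (Set.encard_le_encard_of_injOn (t := R ×ˢ (univ : Set (Bool × Bool)))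
    (fun a ha => ⟨hf a ha, mem_univ _⟩) hi).trans ?_
  rw [Set.encard_prod]
  have h4 : (univ : Set (Bool × Bool)).encard = 4 := by
    rw [Set.encard_univ]
    simp [ENat.card_eq_coe_fintype_card]
  rw [h4]

/-- an arc along a walk, with bounds for the number of its crossings -/
theorem parallel3 {V : Type*} [Finite V] {H : SimpleGraph V} {pos : V → ℂ} {A : Sym2 V → Set ℂ}
    (hd : Drawing H pos A) {m : ℕ} (hx : ∀ e ∈ H.edgeSet, (xs H pos A e).encard ≤ m) {u v : V}
    (huv : u ≠ v) (w : H.Walk u v) {N : ℕ} (hN : (meets H pos A w).encard ≤ N) :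
    ∃ (A' : Sym2 V → Set ℂ) (B : Set ℂ), Drawing H pos A' ∧
      (∀ e ∈ H.edgeSet, xs H pos A' e ⊆ xs H pos A e) ∧ IsArc B (pos u) (pos v) ∧
      (∀ x, pos x ∈ B → x = u ∨ x = v) ∧
      {q : Sym2 V × ℂ | q.1 ∈ H.edgeSet ∧ q.2 ∈ B ∧ q.2 ∈ A' q.1 ∧ q.2 ∉ range pos}.encard ≤
        (N * 4 : ℕ) ∧
      ∀ f ∈ H.edgeSet, {z | z ∈ B ∧ z ∈ A' f ∧ z ∉ range pos}.encard ≤ ((m + 2) * 4 : ℕ) := by
  obtain ⟨A', B, hd', hxs, hB, hBp, x, tag, hx1, hx2⟩ := parallel2 hd
    (fun e he => Set.finite_of_encard_le_coe (hx e he)) huv w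
  refine ⟨A', B, hd', hxs, hB, hBp, ?_, ?_⟩
  · refine (encard_le_of_tag _ (meets H pos A w) (fun q => (q.1, x q)) tag hx1 hx2).trans ?_
    push_cast
    gcongr
  · intro f hf
    refine (encard_le_of_tag _ {x | (f, x) ∈ meets H pos A w} (fun z => x (f, z))
      (fun z => tag (f, z)) ?_ ?_).trans ?_
    · rintro z ⟨h1, h2, h3⟩
      exact hx1 (f, z) ⟨hf, h1, h2, h3⟩
    · rintro z ⟨h1, h2, h3⟩ z' ⟨h1', h2', h3'⟩ h
      simp only [Prod.mk.injEq] at h
      have h5 : ((f, z) : Sym2 V × ℂ) = (f, z') := hx2 ⟨hf, h1, h2, h3⟩ ⟨hf, h1', h2', h3'⟩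
        (by simp only [h.1, h.2])
      exact (Prod.mk.inj h5).2
    · have := meets_edge hd hx w hf
      push_cast at this ⊢
      gcongr

end Pool.Agent.H354_OP
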