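import Pool.Agent.H354_OP.Rer

/-!
# Drawings with prescribed loads of the edges: adding many edges along walks of old edges
-/

set_option autoImplicit false

namespace Pool.Agent.H354_OP

open Set Filter Topology

/-- the vertices and crossings with other edges of the walk that are met along a walk -/
def meet5 {V : Type*} (H : SimpleGraph V) (pos : V → ℂ) (A : Sym2 V → Set ℂ) {u v : V}
    (w : H.Walk u v) : Set (Sym2 V × ℂ) :=
  {q | q.1 ∈ H.edgeSet ∧ q.2 ≠ pos u ∧ q.2 ≠ pos v ∧ q.2 ∈ A q.1 ∧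
    ∃ e ∈ w.edges, e ≠ q.1 ∧ q.2 ∈ A e}

/-- In a drawing of `H` an arc can be drawn along a walk; each of its crossings is near a vertex or
a crossing met along the walk. -/
theorem parallel5 {V : Type*} [Finite V] {H : SimpleGraph V} {pos : V → ℂ} {A : Sym2 V → Set ℂ}
    (hd : Drawing H pos A) (hxfin : ∀ e ∈ H.edgeSet, (xs H pos A e).Finite) {u v : V}
    (huv : u ≠ v) (w : H.Walk u v) :
    ∃ (A' : Sym2 V → Set ℂ) (B : Set ℂ), Drawing H pos A' ∧
      (∀ e ∈ H.edgeSet, xs H pos A' e ⊆ xs H pos A e) ∧ IsArc B (pos u) (pos v) ∧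
      (∀ x, pos x ∈ B → x = u ∨ x = v) ∧
      (∀ z ∈ B, z ∉ range pos → ∀ f ∈ H.edgeSet, ∀ f' ∈ H.edgeSet, z ∈ A' f → z ∈ A' f' →
        f = f') ∧
      ∃ (x : Sym2 V × ℂ → ℂ) (tag : Sym2 V × ℂ → Bool × Bool),
        (∀ q ∈ {q : Sym2 V × ℂ | q.1 ∈ H.edgeSet ∧ q.2 ∈ B ∧ q.2 ∈ A' q.1 ∧ q.2 ∉ range pos},
          (q.1, x q) ∈ meet5 H pos A w) ∧
        InjOn (fun q => ((q.1, x q), tag q))
          {q : Sym2 V × ℂ | q.1 ∈ H.edgeSet ∧ q.2 ∈ B ∧ q.2 ∈ A' q.1 ∧ q.2 ∉ range pos} := by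
  classical
  set N : Set ℂ := range pos ∪ ⋃ e ∈ H.edgeSet, Prod.snd '' xs H pos A e with hNdef
  have hN : N.Finite := by
    refine (Set.finite_range pos).union ?_
    exact (Set.toFinite _).biUnion fun e he => (hxfin e he).image _
  have hpos : range pos ⊆ N := subset_union_left
  have hNA : ∀ e ∈ H.edgeSet, ∀ f ∈ H.edgeSet, e ≠ f → A e ∩ A f ⊆ N := by
    rintro e he f hf hef z ⟨hz, hz'⟩
    by_cases h : z ∈ range pos
    · exact hpos h
    · right
      simp only [mem_iUnion]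
      exact ⟨e, he, ⟨(f, z), ⟨hf, hef.symm, hz, hz', h⟩, rfl⟩⟩
  have hNx : ∀ z ∈ N, z ∉ range pos → ∀ e ∈ H.edgeSet, z ∈ A e → ∃ g, (g, z) ∈ xs H pos A e := by
    intro z hz hzp e he hze
    rcases hz with hz | hz
    · exact absurd hz hzp
    · simp only [mem_iUnion] at hz
      obtain ⟨h, hh, ⟨g, z'⟩, hgz, rfl⟩ := hz
      by_cases hhe : h = e
      · subst hhe
        exact ⟨g, hgz⟩
      · exact ⟨h, hh, hhe, hze, hgz.2.2.1, hzp⟩
  obtain ⟨Γ, P, n, hΓ, hdeg, hroute, hPe, hPP, hPA⟩ := exists_poly hd N hN hpos hNA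
  have hPne : ∀ e ∈ H.edgeSet, 0 < n e := by
    intro e
    induction e using Sym2.ind with
    | _ a b =>
      intro he
      rcases Nat.eq_zero_or_pos (n s(a, b)) with h0 | h0
      · exfalso
        have hab : pos a ≠ pos b := fun h => (SimpleGraph.Adj.ne he) (hd.inj h)
        rcases hPe a b he with ⟨h1, h2⟩ | ⟨h1, h2⟩
        · rw [h0, h1] at h2
          exact hab h2
        · rw [h0, h1] at h2
          exact hab h2.symm
      · exact h0
  set A' : Sym2 V → Set ℂ := fun e => polyImg (P e) (n e) with hA'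
  have hd' : Drawing H pos A' := by
    refine ⟨hd.inj, ?_, ?_⟩
    · intro a b hab
      have h1 := hPne s(a, b) hab
      obtain ⟨k, hk⟩ : ∃ k, n s(a, b) = k + 1 := ⟨n s(a, b) - 1, by omega⟩
      have h2 : IsArc (A' s(a, b)) (P s(a, b) 0) (P s(a, b) (n s(a, b))) := by
        have h3 := hΓ.simple (hroute s(a, b) hab)
        simp only [hA']
        rw [hk] at h3 ⊢
        exact h3.isArc
      rcases hPe a b hab with ⟨h3, h4⟩ | ⟨h3, h4⟩
      · rw [h3, h4] at h2
        exact h2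
      · rw [h3, h4] at h2
        exact h2.symm
    · intro e he x hx
      exact hd.avoid e he x (hPA e he ⟨hx, hpos ⟨x, rfl⟩⟩)
  have hxs : ∀ e ∈ H.edgeSet, xs H pos A' e ⊆ xs H pos A e := by
    rintro e he ⟨f, z⟩ ⟨h1, h2, h3, h4, h5⟩
    have hzN : z ∈ N := hPP e he f h1 (Ne.symm h2) ⟨h3, h4⟩
    exact ⟨h1, h2, hPA e he ⟨h3, hzN⟩, hPA f h1 ⟨h4, hzN⟩, h5⟩
  have hwe : ∀ e ∈ w.edges, e ∈ H.edgeSet := fun e he => w.edges_subset_edgeSet he
  -- the path along the walk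
  set ΓP := routeGraph P n {e | e ∈ w.edges} with hΓP
  have hΓle : ΓP ≤ Γ := by
    rintro a b ⟨hab, e, he, i, hi, h⟩
    have h1 := (hroute e (hwe e he)).adj i hi
    rw [Sym2.eq_iff] at h
    rcases h with ⟨rfl, rfl⟩ | ⟨rfl, rfl⟩
    · exact h1
    · exact h1.symm
  have hreach : ΓP.Reachable (pos u) (pos v) := by
    refine reach_walk w fun a b hab => ?_
    have hr := hroute s(a, b) (hwe _ hab)
    have h1 : ∀ i ≤ n s(a, b), ΓP.Reachable (P s(a, b) 0) (P s(a, b) i) := by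
      intro i
      induction i with
      | zero => intro _; exact SimpleGraph.Reachable.refl _
      | succ i ih =>
        intro hi
        refine (ih (by omega)).trans (SimpleGraph.Adj.reachable ?_)
        exact ⟨(hr.adj i (by omega)).ne, s(a, b), hab, i, by omega, rfl⟩
    have h2 := h1 _ le_rfl
    rcases hPe a b (hwe _ hab) with ⟨h3, h4⟩ | ⟨h3, h4⟩
    · rw [h3, h4] at h2
      exact h2
    · rw [h3, h4] at h2
      exact h2.symm
  obtain ⟨p, T, p0, pT, hp⟩ := exists_route hreach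
  have hpΓ : Route Γ p T := hp.mono hΓle
  have hTpos : 0 < T := by
    rcases Nat.eq_zero_or_pos T with h | h
    · exfalso
      rw [h, p0] at pT
      exact huv (hd.inj pT)
    · exact h
  have hps := hΓ.simple hpΓ
  set S : Set (ℂ × ℂ) := {q | Γ.Adj q.1 q.2 ∧ ∀ i < T, s(q.1, q.2) ≠ s(p i, p (i + 1))} with hSdef
  have hSfin : S.Finite := hΓ.fin.subset fun q hq => hq.1
  obtain ⟨B, hB, hBp, hBN, c, hc⟩ := offset' hTpos hps S hSfin (by
    intro s hs i hi
    exact hΓ.meet _ _ _ _ hs.1 (hpΓ.adj i hi) (hs.2 i hi)) N hN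
  rw [p0] at hB hBp hBN hc
  rw [pT] at hB hBp hBN hc
  refine ⟨A', B, hd', hxs, hB, ?_, ?_, ?_⟩
  · intro x hx'
    rcases hBN (pos x) (hpos ⟨x, rfl⟩) hx' with h | h
    · exact Or.inl (hd.inj h)
    · exact Or.inr (hd.inj h)
  · intro z hzB hzp f hf f' hf' hzf hzf'
    by_contra hne
    rcases hBN z (hPP f hf f' hf' hne ⟨hzf, hzf'⟩) hzB with h | h
    · exact hzp ⟨u, h.symm⟩
    · exact hzp ⟨v, h.symm⟩
  -- nodes of the path at which a segment off the path starts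
  have hnode : ∀ s ∈ S, ∀ j, 0 < j → j < T → (p j = s.1 ∨ p j = s.2) → p j ∈ N := by
    rintro ⟨a, b⟩ hs j hj0 hjT hjs
    by_contra hjN
    have h1 : Γ.Adj (p j) (p (j + 1)) := hpΓ.adj j hjT
    have h2 : Γ.Adj (p j) (p (j - 1)) := by
      have := hpΓ.adj (j - 1) (by omega)
      rw [show j - 1 + 1 = j by omega] at this
      exact this.symm
    have hne : p (j + 1) ≠ p (j - 1) := by
      intro h
      have := hpΓ.inj (j + 1) (j - 1) (by omega) (by omega) h
      omega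
    have key : ∀ y, Γ.Adj (p j) y → (∀ i < T, s(p j, y) ≠ s(p i, p (i + 1))) → False := by
      intro y hy hoff
      rcases hdeg (p j) hjN _ _ _ h1 h2 hy with h | h | h
      · exact hne h
      · refine hoff (j - 1) (by omega) ?_
        rw [show j - 1 + 1 = j by omega, ← h]
        exact Sym2.eq_swap
      · refine hoff j hjT ?_
        rw [← h]
    rcases hjs with h | h
    · simp only at h
      refine key b (h ▸ hs.1) ?_
      intro i hi
      rw [h]
      exact hs.2 i hi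
    · simp only at h
      refine key a (h ▸ hs.1.symm) ?_
      intro i hi
      rw [h, Sym2.eq_swap]
      exact hs.2 i hi
  have hpA : ∀ j < T, ∃ e ∈ w.edges, p j ∈ A' e := by
    intro j hj
    obtain ⟨-, e, he, i, hi, h⟩ := hp.adj j hj
    refine ⟨e, he, ?_⟩
    simp only [hA']
    rw [mem_polyImg]
    refine ⟨i, hi, ?_⟩
    rw [Sym2.eq_iff] at h
    rcases h with ⟨h1, -⟩ | ⟨h1, -⟩
    · rw [h1]; exact left_mem_segment _ _ _
    · rw [h1]; exact right_mem_segment _ _ _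
  set Q : Set (Sym2 V × ℂ) := meet5 H pos A w with hQ
  have hex : ∀ q : Sym2 V × ℂ, q.1 ∈ H.edgeSet ∧ q.2 ∈ B ∧ q.2 ∈ A' q.1 ∧ q.2 ∉ range pos →
      ∃ (x : ℂ) (b side : Bool) (i j : ℕ), (q.1, x) ∈ Q ∧ i < n q.1 ∧ j < T ∧ p j = x ∧
        q.2 = c j b (P q.1 i, P q.1 (i + 1)) ∧
        (if side then P q.1 i = x else P q.1 (i + 1) = x) := by
    rintro ⟨f, z⟩ ⟨hf, hzB, hzf, hzp⟩
    simp only at hf hzB hzf hzp ⊢
    have hzf' := hzf
    simp only [hA'] at hzf
    rw [mem_polyImg] at hzf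
    obtain ⟨i, hi, hz⟩ := hzf
    have hz0 : z ≠ pos u := fun h => hzp ⟨u, h.symm⟩
    have hz1 : z ≠ pos v := fun h => hzp ⟨v, h.symm⟩
    have hmem : (P f i, P f (i + 1)) ∈ S := by
      refine ⟨(hroute f hf).adj i hi, ?_⟩
      intro j hj h
      have hzp' : z ∈ polyImg p T := by
        rw [mem_polyImg]
        refine ⟨j, hj, ?_⟩
        simp only at h
        rw [Sym2.eq_iff] at h
        rcases h with ⟨h1, h2⟩ | ⟨h1, h2⟩
        · rw [← h1, ← h2]; exact hz
        · rw [← h1, ← h2, segment_symm]; exact hz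
      rcases hBp z hzB hzp' with h' | h'
      · exact hz0 h'
      · exact hz1 h'
    obtain ⟨j, b, hj0, hjT, hjs, hzc⟩ := hc _ hmem z hzB hz hz0 hz1
    have hjN := hnode _ hmem j hj0 hjT hjs
    obtain ⟨e, he, hje⟩ := hpA j hjT
    have hju : p j ≠ pos u := by
      rw [← p0]
      intro h
      have := hpΓ.inj j 0 hjT.le (by omega) h
      omega
    have hjv : p j ≠ pos v := by
      rw [← pT]
      intro h
      have := hpΓ.inj j T hjT.le le_rfl h
      omega
    have hjf : p j ∈ A' f := by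
      simp only [hA']
      rw [mem_polyImg]
      refine ⟨i, hi, ?_⟩
      rcases hjs with h | h
      · simp only at h
        rw [h]; exact left_mem_segment _ _ _
      · simp only at h
        rw [h]; exact right_mem_segment _ _ _
    have hjAf : p j ∈ A f := hPA f hf ⟨hjf, hjN⟩
    have hQm : (f, p j) ∈ Q := by
      refine ⟨hf, hju, hjv, hjAf, ?_⟩
      by_contra hcon
      push Not at hcon
      have hall : ∀ e ∈ w.edges, p j ∈ A' e → e = f := by
        intro e he hje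
        by_contra hef
        exact hcon e he hef (hPA e (hwe e he) ⟨hje, hjN⟩)
      obtain ⟨-, e₁, he₁, l₁, hl₁, h₁⟩ := hp.adj j hjT
      have hadj2 := hp.adj (j - 1) (by omega)
      rw [show j - 1 + 1 = j by omega] at hadj2
      obtain ⟨-, e₂, he₂, l₂, hl₂, h₂⟩ := hadj2
      have k₁ : p j = P e₁ l₁ ∨ p j = P e₁ (l₁ + 1) := by
        rw [Sym2.eq_iff] at h₁
        rcases h₁ with ⟨h, -⟩ | ⟨h, -⟩
        · exact Or.inl h
        · exact Or.inr h
      have k₂ : p j = P e₂ l₂ ∨ p j = P e₂ (l₂ + 1) := by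
        rw [Sym2.eq_iff] at h₂
        rcases h₂ with ⟨-, h⟩ | ⟨-, h⟩
        · exact Or.inr h
        · exact Or.inl h
      have hmemA : ∀ e l, l < n e → (p j = P e l ∨ p j = P e (l + 1)) → p j ∈ A' e := by
        intro e l hl h
        simp only [hA']
        rw [mem_polyImg]
        refine ⟨l, hl, ?_⟩
        rcases h with h | h
        · rw [h]; exact left_mem_segment _ _ _
        · rw [h]; exact right_mem_segment _ _ _
      have c₁ : e₁ = f := hall e₁ he₁ (hmemA e₁ l₁ hl₁ k₁)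
      have c₂ : e₂ = f := hall e₂ he₂ (hmemA e₂ l₂ hl₂ k₂)
      subst c₁
      subst c₂
      have hr := hroute e₂ hf
      have hl12 : l₁ ≠ l₂ := by
        rintro rfl
        rw [← h₁, Sym2.eq_iff] at h₂
        rcases h₂ with ⟨h, -⟩ | ⟨h, -⟩
        · have := hpΓ.inj (j - 1) j (by omega) (by omega) h
          omega
        · have := hpΓ.inj (j - 1) (j + 1) (by omega) (by omega) h
          omega
      have hil1 : i ≠ l₁ := by
        rintro rfl
        exact hmem.2 j hjT h₁.symm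
      have hil2 : i ≠ l₂ := by
        rintro rfl
        refine hmem.2 (j - 1) (by omega) ?_
        rw [show j - 1 + 1 = j by omega]
        exact h₂.symm
      obtain ⟨k, hk, hkj⟩ : ∃ k, k ≤ n e₂ ∧ p j = P e₂ k := by
        rcases k₁ with h | h
        · exact ⟨l₁, by omega, h⟩
        · exact ⟨l₁ + 1, by omega, h⟩
      have d₁ : k = l₁ ∨ k = l₁ + 1 := by
        rcases k₁ with h | h
        · exact Or.inl (hr.inj _ _ hk (by omega) (hkj.symm.trans h))
        · exact Or.inr (hr.inj _ _ hk (by omega) (hkj.symm.trans h))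
      have d₂ : k = l₂ ∨ k = l₂ + 1 := by
        rcases k₂ with h | h
        · exact Or.inl (hr.inj _ _ hk (by omega) (hkj.symm.trans h))
        · exact Or.inr (hr.inj _ _ hk (by omega) (hkj.symm.trans h))
      have d₃ : k = i ∨ k = i + 1 := by
        rcases hjs with h | h
        · exact Or.inl (hr.inj _ _ hk (by omega) (hkj.symm.trans h))
        · exact Or.inr (hr.inj _ _ hk (by omega) (hkj.symm.trans h))
      omega
    rcases hjs with h | h
    · exact ⟨p j, b, true, i, j, hQm, hi, hjT, rfl, hzc, by simpa using h.symm⟩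
    · exact ⟨p j, b, false, i, j, hQm, hi, hjT, rfl, hzc, by simpa using h.symm⟩
  choose! x b side i j hq1 hq2 hq3 hq4 hq5 hq6 using hex
  refine ⟨x, fun q => (b q, side q), fun q hq => hq1 q hq, ?_⟩
  intro q hq q' hq' h
  simp only [Prod.mk.injEq] at h
  obtain ⟨⟨h1, h2⟩, h3, h4⟩ := h
  have a3 := hq3 q hq
  have a4 := hq4 q hq
  have b3 := hq3 q' hq'
  have b4 := hq4 q' hq'
  have hj : j q = j q' := hpΓ.inj _ _ a3.le b3.le (by rw [a4, b4, h2])
  have a2 := hq2 q hq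
  have b2 := hq2 q' hq'
  have a6 := hq6 q hq
  have b6 := hq6 q' hq'
  rw [← h1] at b2 b6
  have hr := hroute q.1 hq.1
  have hi : i q = i q' := by
    rw [← h2, ← h4] at b6
    cases hside : side q
    · rw [hside] at a6 b6
      simp only [Bool.false_eq_true, if_false] at a6 b6
      have := hr.inj _ _ (by omega) (by omega) (a6.trans b6.symm)
      omega
    · rw [hside] at a6 b6
      simp only [if_true] at a6 b6
      exact hr.inj _ _ (by omega) (by omega) (a6.trans b6.symm)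
  refine Prod.ext h1 ?_
  rw [hq5 q hq, hq5 q' hq', hj, h3, h1, hi]



theorem meet5_card {V : Type*} {H : SimpleGraph V} {pos : V → ℂ} {A : Sym2 V → Set ℂ}
    (hd : Drawing H pos A) {m : ℕ} {u v : V} (P : Set (Sym2 V))
    (w : H.Walk u v) (hx : ∀ e ∈ w.edges, {q | q ∈ xs H pos A e ∧ q.1 ∈ P}.encard ≤ m) (δ : ℕ → ℕ)
    (hδ : ∀ i < w.length, w.getVert i ≠ u → w.getVert i ≠ v →
      {e | e ∈ H.edgeSet ∧ w.getVert i ∈ e}.encard ≤ δ i) :
    {q | q ∈ meet5 H pos A w ∧ q.1 ∈ P}.encard ≤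
      (∑ i ∈ Finset.range w.length, (δ i + m) : ℕ) := by
  have hwe : ∀ e ∈ w.edges, e ∈ H.edgeSet := fun e he => w.edges_subset_edgeSet he
  set Z : ℕ → Set (Sym2 V × ℂ) := fun i =>
    {q | q.1 ∈ H.edgeSet ∧ w.getVert i ∈ q.1 ∧ q.2 = pos (w.getVert i) ∧ w.getVert i ≠ u ∧
      w.getVert i ≠ v} ∪
    {q | q ∈ xs H pos A s(w.getVert i, w.getVert (i + 1)) ∧ q.1 ∈ P} with hZ
  have hsub : {q | q ∈ meet5 H pos A w ∧ q.1 ∈ P} ⊆ ⋃ i ∈ {i | i < w.length}, Z i := by
    rintro ⟨f, x⟩ ⟨⟨hf, hxu, hxv, hxf, e, he, hef, hxe⟩, hfP⟩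
    simp only at hf hxu hxv hxf hxe hef hfP
    obtain ⟨i, hi, rfl⟩ := mem_walk_edges w he
    simp only [mem_iUnion]
    by_cases hxp : x ∈ range pos
    · obtain ⟨y, rfl⟩ := hxp
      have hy1 := hd.avoid _ (hwe _ he) y hxe
      have hy2 := hd.avoid f hf y hxf
      have hyu : y ≠ u := fun h => hxu (by rw [h])
      have hyv : y ≠ v := fun h => hxv (by rw [h])
      rcases Sym2.mem_iff.mp hy1 with h | h
      · exact ⟨i, hi, Or.inl ⟨hf, h ▸ hy2, by rw [h], h ▸ hyu, h ▸ hyv⟩⟩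
      · have hi1 : i + 1 < w.length := by
          rcases Nat.lt_or_ge (i + 1) w.length with h' | h'
          · exact h'
          · exfalso
            rw [w.getVert_of_length_le h'] at h
            exact hyv h
        exact ⟨i + 1, hi1, Or.inl ⟨hf, h ▸ hy2, by rw [h], h ▸ hyu, h ▸ hyv⟩⟩
    · exact ⟨i, hi, Or.inr ⟨⟨hf, fun h => hef h.symm, hxe, hxf, hxp⟩, hfP⟩⟩
  refine (Set.encard_le_encard hsub).trans ?_
  refine encard_iUnion_le_sum Z (fun i => δ i + m) w.length ?_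
  intro i hi
  have hadj : s(w.getVert i, w.getVert (i + 1)) ∈ w.edges := getVert_edge w i hi
  have h1 : {q : Sym2 V × ℂ | q.1 ∈ H.edgeSet ∧ w.getVert i ∈ q.1 ∧
      q.2 = pos (w.getVert i) ∧ w.getVert i ≠ u ∧ w.getVert i ≠ v}.encard ≤ δ i := by
    by_cases hg : w.getVert i ≠ u ∧ w.getVert i ≠ v
    · refine le_trans ?_ (hδ i hi hg.1 hg.2)
      refine Set.encard_le_encard_of_injOn (f := Prod.fst) ?_ ?_
      · rintro q ⟨h1, h2, -⟩
        exact ⟨h1, h2⟩
      · rintro q ⟨-, -, h3, -⟩ q' ⟨-, -, h4, -⟩ h5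
        exact Prod.ext h5 (h3.trans h4.symm)
    · have : {q : Sym2 V × ℂ | q.1 ∈ H.edgeSet ∧ w.getVert i ∈ q.1 ∧
          q.2 = pos (w.getVert i) ∧ w.getVert i ≠ u ∧ w.getVert i ≠ v} = ∅ := by
        ext q
        simp only [mem_ofPred_eq, mem_empty_iff_false, iff_false]
        rintro ⟨-, -, -, h3⟩
        exact hg h3
      rw [this]
      simp
  refine (Set.encard_union_le _ _).trans ?_
  have h2 := hx _ hadj
  refine (add_le_add h1 h2).trans ?_
  push_cast
  exact le_rfl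

theorem meet5_edge {V : Type*} {H : SimpleGraph V} {pos : V → ℂ} {A : Sym2 V → Set ℂ}
    (hd : Drawing H pos A) {u v : V} {P : Set (Sym2 V)}
    (w : H.Walk u v) (hw : ∀ e ∈ w.edges, e ∈ P) {f : Sym2 V} (hf : f ∈ H.edgeSet) {m : ℕ}
    (hx : {q | q ∈ xs H pos A f ∧ q.1 ∈ P}.encard ≤ m) :
    {x | (f, x) ∈ meet5 H pos A w}.encard ≤ (m + 2 : ℕ) := by
  have hsub : {x | (f, x) ∈ meet5 H pos A w} ⊆
      Prod.snd '' {q | q ∈ xs H pos A f ∧ q.1 ∈ P} ∪ pos '' {y | y ∈ f} := by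
    rintro x ⟨-, -, -, hxf, e, he, hef, hxe⟩
    simp only at hxf hef hxe
    by_cases hxp : x ∈ range pos
    · obtain ⟨y, rfl⟩ := hxp
      exact Or.inr ⟨y, hd.avoid f hf y hxf, rfl⟩
    · exact Or.inl ⟨(e, x), ⟨⟨w.edges_subset_edgeSet he, hef, hxf, hxe, hxp⟩, hw e he⟩, rfl⟩
  refine (Set.encard_le_encard hsub).trans ((Set.encard_union_le _ _).trans ?_)
  have h1 := (Set.encard_image_le Prod.snd {q | q ∈ xs H pos A f ∧ q.1 ∈ P}).trans hx
  have h2 : (pos '' {y | y ∈ f}).encard ≤ 2 := by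
    refine (Set.encard_image_le _ _).trans ?_
    induction f using Sym2.ind with
    | _ a b =>
      have : {y | y ∈ s(a, b)} = {a, b} := by
        ext y
        simp
      rw [this]
      refine (Set.encard_insert_le _ _).trans ?_
      rw [Set.encard_singleton]
      norm_num
  push_cast
  exact add_le_add h1 h2

/-- a drawing in which every edge `e` has at most `ℓ e` crossings, at most `a e` of them with edges
in `O`, and the edges in `S` have simple crossings -/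
def LD {V : Type} (H : SimpleGraph V) (O : Set (Sym2 V)) (a ℓ : Sym2 V → ℕ) (S : Set (Sym2 V)) :
    Prop :=
  ∃ (pos : V → ℂ) (A : Sym2 V → Set ℂ), Drawing H pos A ∧
    (∀ e ∈ H.edgeSet, {q | q ∈ xs H pos A e ∧ q.1 ∈ O}.encard ≤ a e) ∧
    (∀ e ∈ H.edgeSet, (xs H pos A e).encard ≤ ℓ e) ∧
    ∀ b ∈ S, b ∈ H.edgeSet → Simple1 H pos A b

theorem LDraw.ld {V : Type} {H : SimpleGraph V} {ℓ : Sym2 V → ℕ} {S O : Set (Sym2 V)}
    (h : LDraw H ℓ S) : LD H O ℓ ℓ S := by
  obtain ⟨pos, A, hd, hx, hS⟩ := h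
  exact ⟨pos, A, hd, fun e he => (Set.encard_le_encard (fun q hq => hq.1)).trans (hx e he), hx, hS⟩

theorem LD.ldraw {V : Type} {H : SimpleGraph V} {O : Set (Sym2 V)} {a ℓ : Sym2 V → ℕ}
    {S : Set (Sym2 V)} (h : LD H O a ℓ S) : LDraw H ℓ S := by
  obtain ⟨pos, A, hd, -, hx, hS⟩ := h
  exact ⟨pos, A, hd, hx, hS⟩

theorem LD.monoS {V : Type} {H : SimpleGraph V} {O : Set (Sym2 V)} {a ℓ : Sym2 V → ℕ}
    {S S' : Set (Sym2 V)} (h : LD H O a ℓ S) (hS : ∀ b ∈ H.edgeSet, b ∈ S' → b ∈ S) :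
    LD H O a ℓ S' := by
  obtain ⟨pos, A, hd, ha, hx, hSS⟩ := h
  exact ⟨pos, A, hd, ha, hx, fun b hb hbK => hSS b (hS b hbK hb) hbK⟩

theorem LD.add {V : Type} [Finite V] {H : SimpleGraph V} {O : Set (Sym2 V)} {a ℓ : Sym2 V → ℕ}
    {S : Set (Sym2 V)} (h : LD H O a ℓ S) {u v : V} (huv : u ≠ v) (hna : ¬ H.Adj u v)
    (hnO : s(u, v) ∉ O) (w : H.Walk u v) (hwO : ∀ e ∈ w.edges, e ∈ O) {Ua U : ℕ}
    (hUa : ∀ e ∈ w.edges, a e ≤ Ua) (hU : ∀ e ∈ w.edges, ℓ e ≤ U) (D : V → ℕ)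
    (hD : ∀ y, y ≠ u → y ≠ v → {e | e ∈ H.edgeSet ∧ y ∈ e}.encard ≤ D y) {K : SimpleGraph V}
    (hK : ∀ f, f ∈ K.edgeSet ↔ f ∈ H.edgeSet ∨ f = s(u, v)) {a' ℓ' : Sym2 V → ℕ}
    (h1 : ∀ f ∈ H.edgeSet, a f ≤ a' f) (h2 : ∀ f ∈ H.edgeSet, ℓ f + (a f + 2) * 4 ≤ ℓ' f)
    (h3 : 4 * (w.support.map (fun y => D y + Ua)).sum ≤ a' s(u, v))
    (h4 : 4 * (w.support.map (fun y => D y + U)).sum ≤ ℓ' s(u, v)) :
    LD K O a' ℓ' (insert s(u, v) S) := by
  classical
  obtain ⟨pos, A, hd, ha, hx, hS⟩ := h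
  obtain ⟨A', B, hd', hxs, hB, hBp, hBs, x, tag, hx1, hx2⟩ := parallel5 hd
    (fun e he => Set.finite_of_encard_le_coe (hx e he)) huv w
  have hne : ∀ f ∈ H.edgeSet, f ≠ s(u, v) := by
    rintro f hf rfl
    exact hna hf
  obtain ⟨A'', hA1, hA2⟩ : ∃ A'' : Sym2 V → Set ℂ, A'' s(u, v) = B ∧
      ∀ f, f ≠ s(u, v) → A'' f = A' f :=
    ⟨Function.update A' s(u, v) B, by simp, fun f hf => by simp [hf]⟩
  have hxB : (xs K pos A'' s(u, v)) = {q : Sym2 V × ℂ | q.1 ∈ H.edgeSet ∧ q.2 ∈ B ∧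
      q.2 ∈ A' q.1 ∧ q.2 ∉ range pos} := by
    ext ⟨f, z⟩
    simp only [xs, mem_ofPred_eq]
    rw [hA1, hK]
    constructor
    · rintro ⟨h3, h4, h5, h6, h7⟩
      have h8 := h3.resolve_right h4
      rw [hA2 f h4] at h6
      exact ⟨h8, h5, h6, h7⟩
    · rintro ⟨h3, h5, h6, h7⟩
      have h4 := hne f h3
      rw [hA2 f h4]
      exact ⟨Or.inl h3, h4, h5, h6, h7⟩
  have hxf : ∀ f ∈ H.edgeSet, ∀ q, q ∈ xs K pos A'' f → q ∈ xs H pos A' f ∨
      (q.1 = s(u, v) ∧ q.2 ∈ B ∧ q.2 ∈ A' f ∧ q.2 ∉ range pos) := by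
    rintro f hf ⟨g, z⟩ ⟨h3, h4, h5, h6, h7⟩
    simp only at h3 h4 h5 h6 h7 ⊢
    rw [hA2 f (hne f hf)] at h5
    rw [hK] at h3
    by_cases hg : g = s(u, v)
    · right
      rw [hg, hA1] at h6
      exact ⟨hg, h6, h5, h7⟩
    · left
      rw [hA2 g hg] at h6
      exact ⟨h3.resolve_right hg, h4, h5, h6, h7⟩
  have hsum : ∀ (U : ℕ), ∑ i ∈ Finset.range w.length, (D (w.getVert i) + U) ≤
      (w.support.map (fun y => D y + U)).sum := fun U => sum_getVert_le w (fun y => D y + U)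
  -- the crossings of the new edge
  have hnew : ∀ (P : Set (Sym2 V)) (U : ℕ),
      (∀ e ∈ w.edges, {q | q ∈ xs H pos A e ∧ q.1 ∈ P}.encard ≤ U) →
      {q | q ∈ xs K pos A'' s(u, v) ∧ q.1 ∈ P}.encard ≤
        (4 * (w.support.map (fun y => D y + U)).sum : ℕ) := by
    intro P U hPU
    rw [hxB]
    refine (encard_le_of_tag _ {q | q ∈ meet5 H pos A w ∧ q.1 ∈ P} (fun q => (q.1, x q)) tag
      (fun q hq => ⟨hx1 q hq.1, hq.2⟩) (hx2.mono fun q hq => hq.1)).trans ?_
    have h3 := meet5_card hd (m := U) P w hPU (fun i => D (w.getVert i))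
      (fun i _ h1 h2 => hD _ h1 h2)
    have h5 : ((∑ i ∈ Finset.range w.length, (D (w.getVert i) + U) : ℕ) : ℕ∞) ≤
        ((w.support.map (fun y => D y + U)).sum : ℕ) := Nat.cast_le.mpr (hsum U)
    have h6 := h3.trans h5
    refine (mul_le_mul' h6 le_rfl).trans ?_
    rw [mul_comm]
    exact_mod_cast le_rfl
  have hold : ∀ f ∈ H.edgeSet, {z | z ∈ B ∧ z ∈ A' f ∧ z ∉ range pos}.encard ≤
      ((a f + 2) * 4 : ℕ) := by
    intro f hfH
    refine (encard_le_of_tag _ {x | (f, x) ∈ meet5 H pos A w} (fun z => x (f, z))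
      (fun z => tag (f, z)) ?_ ?_).trans ?_
    · rintro z ⟨h1, h2, h3⟩
      exact hx1 (f, z) ⟨hfH, h1, h2, h3⟩
    · rintro z ⟨h1, h2, h3⟩ z' ⟨h1', h2', h3'⟩ h
      simp only [Prod.mk.injEq] at h
      have h5 : ((f, z) : Sym2 V × ℂ) = (f, z') := hx2 ⟨hfH, h1, h2, h3⟩ ⟨hfH, h1', h2', h3'⟩
        (by simp only [h.1, h.2])
      exact (Prod.mk.inj h5).2
    · have := meet5_edge hd w hwO hfH (ha f hfH)
      push_cast at this ⊢
      gcongr
  refine ⟨pos, A'', ⟨hd.inj, ?_, ?_⟩, ?_, ?_, ?_⟩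
  · intro a b hab
    by_cases hf : s(a, b) = s(u, v)
    · rw [hf, hA1]
      rw [Sym2.eq_iff] at hf
      rcases hf with ⟨rfl, rfl⟩ | ⟨rfl, rfl⟩
      · exact hB
      · exact hB.symm
    · rw [hA2 _ hf]
      exact hd'.arc a b (((hK _).mp hab).resolve_right hf)
  · intro f hf y hy
    by_cases hfe : f = s(u, v)
    · rw [hfe, hA1] at hy
      rw [hfe]
      rcases hBp y hy with rfl | rfl <;> simp
    · rw [hA2 f hfe] at hy
      exact hd'.avoid f (((hK _).mp hf).resolve_right hfe) y hy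
  · intro f hf
    by_cases hfe : f = s(u, v)
    · subst hfe
      refine (hnew O Ua (fun e he => (ha e (w.edges_subset_edgeSet he)).trans
        (by exact_mod_cast hUa e he))).trans ?_
      exact_mod_cast h3
    · have hfH := ((hK _).mp hf).resolve_right hfe
      refine le_trans (Set.encard_le_encard ?_) ((ha f hfH).trans (by exact_mod_cast h1 f hfH))
      rintro q ⟨hq, hqO⟩
      rcases hxf f hfH q hq with h5 | ⟨h5, -⟩
      · exact ⟨hxs f hfH h5, hqO⟩
      · rw [h5] at hqO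
        exact absurd hqO hnO
  · intro f hf
    by_cases hfe : f = s(u, v)
    · subst hfe
      have h5 := hnew Set.univ U (fun e he => (Set.encard_le_encard (fun q hq => hq.1)).trans
        ((hx e (w.edges_subset_edgeSet he)).trans (by exact_mod_cast hU e he)))
      have h6 : xs K pos A'' s(u, v) ⊆ {q | q ∈ xs K pos A'' s(u, v) ∧ q.1 ∈ Set.univ} :=
        fun q hq => ⟨hq, Set.mem_univ _⟩
      refine (Set.encard_le_encard h6).trans (h5.trans ?_)
      exact_mod_cast h4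
    · have hfH := ((hK _).mp hf).resolve_right hfe
      have hsub : xs K pos A'' f ⊆ xs H pos A' f ∪ (fun z => (s(u, v), z)) ''
          {z | z ∈ B ∧ z ∈ A' f ∧ z ∉ range pos} := by
        rintro ⟨g, z⟩ hq
        rcases hxf f hfH _ hq with h3 | ⟨h3, h4⟩
        · exact Or.inl h3
        · right
          simp only at h3
          exact ⟨z, h4, by rw [h3]⟩
      refine (Set.encard_le_encard hsub).trans ((Set.encard_union_le _ _).trans ?_)
      have h3 : (xs H pos A' f).encard ≤ ℓ f := (Set.encard_le_encard (hxs f hfH)).trans (hx f hfH)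
      refine (add_le_add h3 ((Set.encard_image_le _ _).trans (hold f hfH))).trans ?_
      have h5 := h2 f hfH
      exact_mod_cast h5
  · intro b hb hbK z f f' hf hf'
    by_cases hbe : b = s(u, v)
    · subst hbe
      rw [hxB] at hf hf'
      exact hBs z hf.2.1 hf.2.2.2 f hf.1 f' hf'.1 hf.2.2.1 hf'.2.2.1
    · have hbH := ((hK _).mp hbK).resolve_right hbe
      have hbS : b ∈ S := by
        rcases hb with h | h
        · exact absurd h hbe
        · exact h
      rcases hxf b hbH _ hf with h3 | ⟨h3, h4, h5, h6⟩ <;>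
        rcases hxf b hbH _ hf' with h3' | ⟨h3', h4', h5', h6'⟩
      · exact hS b hbS hbH z f f' (hxs b hbH h3) (hxs b hbH h3')
      · exact absurd (hBs z h4' h6' f h3.1 b hbH h3.2.2.2.1 h3.2.2.1) h3.2.1
      · exact absurd (hBs z h4 h6 f' h3'.1 b hbH h3'.2.2.2.1 h3'.2.2.1) h3'.2.1
      · simp only at h3 h3'
        rw [h3, h3']

end Pool.Agent.H354_OP
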