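import Pool.Agent.H354_OP.Mv

/-!
# Levels of threads, second version: the data, small clusters and their hubs
-/

set_option autoImplicit false

namespace Pool.Agent.H354_OP

open Finset
open scoped Classical

set_option linter.unusedSectionVars false

/-- the data -/
structure Dat (V : Type) where
  /-- the graph of the threads -/
  H : SimpleGraph V
  /-- their lengths -/
  len : Sym2 V → ℕ
  /-- the thread that is not used -/
  e₀ : Sym2 V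
  /-- the ratio of the levels -/
  F : ℕ
  /-- the width of the zones -/
  γ : ℕ
  /-- the factor between lengths and degrees -/
  G : ℕ

namespace Dat

variable {V : Type} [Fintype V] (D : Dat V)

/-- the length of a level -/
def N (b : ℕ) : ℕ := Nn D.F b

/-- the short threads -/
def T (b : ℕ) : SimpleGraph V := TN D.H D.len D.e₀ (D.N b)

/-- the low vertices -/
noncomputable def L (b : ℕ) : Finset V := Lo D.H (D.G * D.N b)

/-- the hubs -/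
noncomputable def Hi (b : ℕ) : Finset V := Hb D.H (D.G * D.N b) D.γ

/-- the vertices in between -/
noncomputable def Z (b : ℕ) : Finset V := Zo D.H (D.G * D.N b) D.γ

/-- the short threads between low vertices -/
noncomputable def Γ (b : ℕ) : SimpleGraph V := res (D.T b) (D.L b)

/-- the sum of the degrees -/
noncomputable def mass (X : Finset V) : ℕ := ∑ x ∈ X, (nb D.H x).card

/-- the sum of the degrees in between -/
noncomputable def σ (b : ℕ) : ℕ := D.mass (D.Z b)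

/-- the error made for the hubs -/
noncomputable def β (b : ℕ) : ℕ := D.G * D.N b * (D.Hi b).card

/-- the hubs of a set -/
noncomputable def hubs (b : ℕ) (X : Finset V) : Finset V :=
  (D.Hi b).filter (fun y => ∃ v ∈ X, (D.T b).Adj v y)

/-- the small components -/
noncomputable def Sm (s b : ℕ) : Finset (Finset V) :=
  univ.filter (fun X => (∃ v ∈ D.L b, X = cmp (D.Γ b) v) ∧ D.mass X ≤ s)

/-- the pairs of a small component and a hub of it -/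
noncomputable def Pr (s b : ℕ) : Finset (Finset V × V) :=
  univ.filter (fun p => p.1 ∈ D.Sm s b ∧ p.2 ∈ D.hubs b p.1)

/-- the tokens -/
noncomputable def tok (b : ℕ) : Finset (V × V) :=
  univ.filter (fun p => p.1 ∈ D.L b ∧ p.2 ∈ D.Hi b ∧ (D.T b).Adj p.1 p.2)

/-- the small components with three hubs -/
noncomputable def hub3 (s b : ℕ) : Finset (Finset V) :=
  (D.Sm s b).filter (fun X => 3 ≤ (D.hubs b X).card)

/-- the vertices near the vertices in between -/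
noncomputable def Q (b : ℕ) : Finset V :=
  univ.filter (fun y => y ∈ D.e₀ ∨ (∃ z ∈ D.Z b, (D.T b).Adj z y) ∨
    ∃ z ∈ D.Z (b + 1), (D.T b).Adj z y)

/-- what is known about the graph of the threads of a graph that is hard to draw -/
structure Ok (m s g₀ q t : ℕ) : Prop where
  ht : ∑ x, (nb D.H x).card = t
  hd : ∀ x, 3 ≤ (nb D.H x).card
  hl : ∀ f ∈ D.H.edgeSet, 1 ≤ D.len f
  hG : m + 1 ≤ D.G
  hγ : 1 ≤ D.γ
  hsF : s + 2 ≤ D.F
  hdir : NoDir D.H D.len q (D.F * D.G)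
  hmv : NoMv D.H D.len s (2 * s + (g₀ + s + 2) + 1) (D.F * D.G)
  top : ∀ N, ∃ (pos : V → ℂ) (C : Sym2 V → Set ℂ), TopD (m * N) (TN D.H D.len D.e₀ N) pos C

variable {D}

theorem T_le (b : ℕ) : D.T b ≤ D.H := TN_le

theorem mem_L {b : ℕ} {x : V} : x ∈ D.L b ↔ (nb D.H x).card ≤ D.G * D.N b := mem_Lo

theorem mem_Hi {b : ℕ} {x : V} : x ∈ D.Hi b ↔ D.γ * (D.G * D.N b) < (nb D.H x).card := mem_Hb

theorem mem_Z {b : ℕ} {x : V} : x ∈ D.Z b ↔
    D.G * D.N b < (nb D.H x).card ∧ (nb D.H x).card ≤ D.γ * (D.G * D.N b) := mem_Zo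

theorem mem_hubs {b : ℕ} {X : Finset V} {y : V} :
    y ∈ D.hubs b X ↔ y ∈ D.Hi b ∧ ∃ v ∈ X, (D.T b).Adj v y := by
  simp [hubs]

theorem mem_Sm {s b : ℕ} {X : Finset V} :
    X ∈ D.Sm s b ↔ (∃ v ∈ D.L b, X = cmp (D.Γ b) v) ∧ D.mass X ≤ s := by
  simp [Sm]

theorem mem_Pr {s b : ℕ} {p : Finset V × V} :
    p ∈ D.Pr s b ↔ p.1 ∈ D.Sm s b ∧ p.2 ∈ D.hubs b p.1 := by
  simp [Pr]

theorem mem_tok {b : ℕ} {p : V × V} :
    p ∈ D.tok b ↔ p.1 ∈ D.L b ∧ p.2 ∈ D.Hi b ∧ (D.T b).Adj p.1 p.2 := by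
  simp [tok]

theorem mem_hub3 {s b : ℕ} {X : Finset V} :
    X ∈ D.hub3 s b ↔ X ∈ D.Sm s b ∧ 3 ≤ (D.hubs b X).card := by
  simp [hub3]

theorem mem_Q {b : ℕ} {y : V} : y ∈ D.Q b ↔ y ∈ D.e₀ ∨ (∃ z ∈ D.Z b, (D.T b).Adj z y) ∨
    ∃ z ∈ D.Z (b + 1), (D.T b).Adj z y := by
  simp [Q]

theorem tri (b : ℕ) (x : V) : x ∈ D.L b ∨ x ∈ D.Z b ∨ x ∈ D.Hi b := by
  rw [mem_L, mem_Z, mem_Hi]
  omega

theorem deg_le {X : Finset V} {x : V} (hx : x ∈ X) : (nb D.H x).card ≤ D.mass X :=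
  single_le_sum (f := fun x => (nb D.H x).card) (fun _ _ => Nat.zero_le _) hx

namespace Ok

variable {m s g₀ q t : ℕ}

theorem F1 (h : D.Ok m s g₀ q t) : 1 ≤ D.F := by have := h.hsF; omega

theorem G1 (h : D.Ok m s g₀ q t) : 1 ≤ D.G := by have := h.hG; omega

theorem N_step (h : D.Ok m s g₀ q t) (b ℓ : ℕ) (hb : D.N b < ℓ) : D.N (b + 1) ≤ D.F * ℓ :=
  Nn_step h.F1 b ℓ hb

theorem N_mono (h : D.Ok m s g₀ q t) (b : ℕ) : D.N b ≤ D.N (b + 1) := Nn_mono h.F1 b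

theorem N_pos (h : D.Ok m s g₀ q t) (b : ℕ) : 1 ≤ D.N (b + 1) := Nn_pos h.F1 b

theorem GN_pos (h : D.Ok m s g₀ q t) (b : ℕ) : 1 ≤ D.G * D.N (b + 1) :=
  Nat.mul_pos h.G1 (h.N_pos b)

theorem GN_mono (h : D.Ok m s g₀ q t) (b : ℕ) : D.G * D.N b ≤ D.G * D.N (b + 1) :=
  Nat.mul_le_mul_left _ (h.N_mono b)

theorem T_mono (h : D.Ok m s g₀ q t) (b : ℕ) : D.T b ≤ D.T (b + 1) :=
  fun _ _ hab => ⟨hab.1, hab.2.1, hab.2.2.trans (h.N_mono b)⟩

theorem L_mono (h : D.Ok m s g₀ q t) (b : ℕ) : D.L b ⊆ D.L (b + 1) := by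
  intro x hx
  rw [mem_L] at hx ⊢
  exact hx.trans (h.GN_mono b)

theorem Hi_anti (h : D.Ok m s g₀ q t) (b : ℕ) : D.Hi (b + 1) ⊆ D.Hi b := by
  intro x hx
  rw [mem_Hi] at hx ⊢
  exact (Nat.mul_le_mul_left _ (h.GN_mono b)).trans_lt hx

theorem Γ_mono (h : D.Ok m s g₀ q t) (b : ℕ) : D.Γ b ≤ D.Γ (b + 1) :=
  fun _ _ hab => ⟨h.T_mono b hab.1, h.L_mono b hab.2.1, h.L_mono b hab.2.2⟩

theorem LHi (h : D.Ok m s g₀ q t) {b : ℕ} {x : V} (hx : x ∈ D.L b) : x ∉ D.Hi b := by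
  intro hx'
  rw [mem_L] at hx
  rw [mem_Hi] at hx'
  have := Nat.le_mul_of_pos_left (D.G * D.N b) h.hγ
  omega

theorem T0 (h : D.Ok m s g₀ q t) (x y : V) : ¬ (D.T 0).Adj x y := by
  intro hxy
  have h1 := h.hl s(x, y) hxy.1
  have h2 : D.len s(x, y) ≤ D.N 0 := hxy.2.2
  rw [N, Nn_zero] at h2
  omega

theorem L0 (h : D.Ok m s g₀ q t) (x : V) : x ∉ D.L 0 := by
  intro hx
  rw [mem_L, N, Nn_zero, mul_zero] at hx
  have := h.hd x
  omega

theorem deg1 (h : D.Ok m s g₀ q t) (x : V) : 1 ≤ (nb D.H x).card := by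
  have := h.hd x
  omega

theorem cardV (h : D.Ok m s g₀ q t) : 3 * Fintype.card V ≤ t := by
  rw [← h.ht, ← Finset.card_univ, mul_comm, ← smul_eq_mul, ← sum_const]
  exact sum_le_sum fun x _ => h.hd x

/-- facts on small components -/
theorem sm (h : D.Ok m s g₀ q t) {b s' : ℕ} {X : Finset V} (hX : X ∈ D.Sm s' b) :
    X ∈ univ.image (cmp (D.Γ b)) ∧ X.Nonempty ∧ X ⊆ D.L b ∧ Conn (D.T b) X ∧
      D.mass X ≤ s' ∧ X.card ≤ s' ∧ ∀ x ∈ X, ∀ y, (D.T b).Adj x y → y ∈ D.L b → y ∈ X := by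
  rw [mem_Sm] at hX
  obtain ⟨⟨v, hv, rfl⟩, h2⟩ := hX
  refine ⟨mem_image_of_mem _ (mem_univ _), ⟨_, self_mem_cmp _ _⟩, cmp_sub hv,
    (cmp_conn (D.Γ b) v).mono (res_le (D.T b) (D.L b)), h2,
    (card_le_mass h.deg1 _).trans h2, ?_⟩
  intro x hx y hxy hy
  exact cmp_adj hx ⟨hxy, cmp_sub hv hx, hy⟩

theorem sm_disj (h : D.Ok m s g₀ q t) {b s' : ℕ} {X X' : Finset V} (hX : X ∈ D.Sm s' b)
    (hX' : X' ∈ D.Sm s' b) {x : V} (hx : x ∈ X) (hx' : x ∈ X') : X = X' :=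
  cmp_disj (h.sm hX).1 (h.sm hX').1 hx hx'

theorem hubs_not (h : D.Ok m s g₀ q t) {b s' : ℕ} {X : Finset V} (hX : X ∈ D.Sm s' b) {y : V}
    (hy : y ∈ D.Hi b) : y ∉ X := fun hyX => h.LHi ((h.sm hX).2.2.1 hyX) hy

theorem hub3_le (h : D.Ok m s g₀ q t) (b s' : ℕ) :
    (D.hub3 s' b).card ≤ 406 * (2 * s' * s' + 1) * D.β b := by
  cases b with
  | zero =>
    have : D.hub3 s' 0 = ∅ := by
      rw [eq_empty_iff_forall_notMem]
      intro X hX
      rw [mem_hub3, mem_Sm] at hX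
      obtain ⟨⟨⟨v, hv, -⟩, -⟩, -⟩ := hX
      exact h.L0 v hv
    rw [this]
    simp
  | succ b =>
    obtain ⟨pos, C, hT⟩ := h.top (D.N (b + 1))
    have hS1 := h.GN_pos b
    have h1 : (D.hub3 s' (b + 1)).card ≤
        406 * (s' * (s' * (m * D.N (b + 1) * 2)) + 1) * (D.Hi (b + 1)).card := by
      refine star hT (D.Hi (b + 1)) (D.hub3 s' (b + 1)) s' s' ?_ ?_ ?_ ?_ ?_ ?_
      · intro X h1 X' h2 hne
        rw [mem_hub3] at h1 h2
        rw [Finset.disjoint_left]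
        intro x hx hx'
        exact hne (h.sm_disj h1.1 h2.1 hx hx')
      · intro X h1
        rw [mem_hub3] at h1
        rw [Finset.disjoint_left]
        intro x hx hx'
        exact h.hubs_not h1.1 hx' hx
      · intro X h1 x hx y hy
        rw [mem_hub3] at h1
        exact (h.sm h1.1).2.2.2.1 x hx y hy
      · intro X h1
        rw [mem_hub3] at h1
        exact (h.sm h1.1).2.2.2.2.2.1
      · intro X h1 x hx
        rw [mem_hub3] at h1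
        refine le_trans ?_ ((incid_le (H := D.H) x).trans ?_)
        · refine Set.encard_le_encard ?_
          rintro f ⟨hf, hxf⟩
          refine ⟨?_, hxf⟩
          induction f using Sym2.ind with
          | _ a b => exact hf.1
        · have h5 := (deg_le (D := D) hx).trans (h.sm h1.1).2.2.2.2.1
          exact_mod_cast h5
      · intro X h1
        rw [mem_hub3] at h1
        refine ⟨D.hubs (b + 1) X, ?_, h1.2, ?_⟩
        · intro y hy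
          exact (mem_hubs.mp hy).1
        · intro y hy
          exact (mem_hubs.mp hy).2
    refine h1.trans ?_
    obtain ⟨S, hS⟩ : ∃ S, S = D.G * D.N (b + 1) := ⟨_, rfl⟩
    have hMS : m * D.N (b + 1) ≤ S := by
      rw [hS]
      exact Nat.mul_le_mul_right _ (by have := h.hG; omega)
    rw [β, ← hS]
    rw [← hS] at hS1
    calc 406 * (s' * (s' * (m * D.N (b + 1) * 2)) + 1) * (D.Hi (b + 1)).card ≤
        406 * (s' * (s' * (S * 2)) + S) * (D.Hi (b + 1)).card := by gcongr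
      _ = 406 * (2 * s' * s' + 1) * (S * (D.Hi (b + 1)).card) := by ring

theorem hh_le (h : D.Ok m s g₀ q t) (b : ℕ) :
    (univ.filter (fun p : V × V => p.1 ∈ D.Hi b ∧ p.2 ∈ D.Hi b ∧ (D.T b).Adj p.1 p.2)).card ≤
      168 * D.β b := by
  cases b with
  | zero =>
    have : univ.filter (fun p : V × V => p.1 ∈ D.Hi 0 ∧ p.2 ∈ D.Hi 0 ∧ (D.T 0).Adj p.1 p.2) =
        ∅ := by
      rw [eq_empty_iff_forall_notMem]
      intro p hp
      rw [mem_filter] at hp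
      exact h.T0 _ _ hp.2.2.2
    rw [this]
    simp
  | succ b =>
    obtain ⟨pos, C, hT⟩ := h.top (D.N (b + 1))
    have hS1 := h.GN_pos b
    refine (samp_darts hT (D.Hi (b + 1))).trans ?_
    obtain ⟨S, hS⟩ : ∃ S, S = D.G * D.N (b + 1) := ⟨_, rfl⟩
    have hMS : m * D.N (b + 1) ≤ S := by
      rw [hS]
      exact Nat.mul_le_mul_right _ (by have := h.hG; omega)
    rw [β, ← hS]
    rw [← hS] at hS1
    calc 56 * (2 * (m * D.N (b + 1)) + 1) * (D.Hi (b + 1)).card ≤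
        56 * (2 * S + S) * (D.Hi (b + 1)).card := by gcongr
      _ = 168 * (S * (D.Hi (b + 1)).card) := by ring

theorem Q_card (h : D.Ok m s g₀ q t) (b : ℕ) : (D.Q b).card ≤ 2 + D.σ b + D.σ (b + 1) := by
  have hsub : D.Q b ⊆ univ.filter (fun y => y ∈ D.e₀) ∪ (D.Z b).biUnion (nb D.H) ∪
      (D.Z (b + 1)).biUnion (nb D.H) := by
    intro y hy
    rw [mem_Q] at hy
    rw [mem_union, mem_union, mem_filter, mem_biUnion, mem_biUnion]
    rcases hy with h | ⟨z, hz, hzy⟩ | ⟨z, hz, hzy⟩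
    · exact Or.inl (Or.inl ⟨mem_univ _, h⟩)
    · exact Or.inl (Or.inr ⟨z, hz, mem_nb.mpr (T_le b hzy)⟩)
    · exact Or.inr ⟨z, hz, mem_nb.mpr (T_le b hzy)⟩
  refine (card_le_card hsub).trans ((card_union_le _ _).trans (add_le_add
    ((card_union_le _ _).trans (add_le_add ?_ card_biUnion_le)) card_biUnion_le))
  obtain ⟨e, he⟩ : ∃ e, e = D.e₀ := ⟨_, rfl⟩
  rw [← he]
  induction e using Sym2.ind with
  | _ a b =>
    refine (card_le_card ?_).trans (card_le_two (a := a) (b := b))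
    intro y hy
    rw [mem_filter, Sym2.mem_iff] at hy
    simpa using hy.2

/-- the neighbours of a clean component -/
theorem clean (h : D.Ok m s g₀ q t) {b s' : ℕ} {X : Finset V} (hX : X ∈ D.Sm s' b)
    (hc : ∀ y ∈ X, y ∉ D.Q b) {v w : V} (hv : v ∈ X) (hvw : (D.T b).Adj v w) :
    w ∈ X ∨ (w ∈ D.hubs b X ∧ (w ∈ D.L (b + 1) ∨ w ∈ D.Hi (b + 1))) := by
  have h1 := hc v hv
  rw [mem_Q] at h1
  push Not at h1
  rcases D.tri b w with hw | hw | hw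
  · exact Or.inl ((h.sm hX).2.2.2.2.2.2 v hv w hvw hw)
  · exact absurd hvw.symm (h1.2.1 w hw)
  · refine Or.inr ⟨mem_hubs.mpr ⟨hw, v, hv, hvw⟩, ?_⟩
    rcases D.tri (b + 1) w with hw' | hw' | hw'
    · exact Or.inl hw'
    · exact absurd hvw.symm (h1.2.2 w hw')
    · exact Or.inr hw'

/-- moving clusters -/
theorem mv (h : D.Ok m s g₀ q t) {b : ℕ} {X X' : Finset V} (hX : X ∈ D.Sm s b)
    (hX' : X' ∈ D.Sm s b) (hne : X ≠ X') (hc : ∀ y ∈ X, y ∉ D.Q b) (hc' : ∀ y ∈ X', y ∉ D.Q b)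
    {x x' : V} (hx : x ∈ D.hubs b X) (hx' : x ∈ D.hubs b X') (hx'Hi : x' ∈ D.Hi b)
    (hh : ∀ y ∈ D.hubs b X, y = x ∨ y = x') (hh' : ∀ y ∈ D.hubs b X', y = x ∨ y = x')
    {a c : V} (ha : a ∈ X') (hcX : c ∈ X) (P : D.H.Walk a c)
    (hP : ∃ v ∈ X, ∃ y, y ∈ D.Hi b ∧ (D.T b).Adj v y ∧ s(v, y) ∉ P.edges)
    (hP' : ∃ v ∈ X', ∃ y, y ∈ D.Hi b ∧ (D.T b).Adj v y ∧ s(v, y) ∉ P.edges)
    (hPl : P.length ≤ g₀ + s + 2) (hPlen : ∀ f ∈ P.edges, D.len f ≤ D.N (b + 1))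
    (hPd : ∀ u ∈ P.support, (nb D.H u).card ≤ D.G * D.N (b + 1)) : False := by
  have hXX := h.sm hX
  have hXX' := h.sm hX'
  have hcl : ∀ Y ∈ D.Sm s b, (∀ y ∈ Y, y ∉ D.Q b) → (∀ y ∈ D.hubs b Y, y = x ∨ y = x') →
      ∀ v ∈ Y, ∀ w, (D.T b).Adj v w → w ∈ Y ∨ w = x ∨ w = x' := by
    intro Y hY hcY hhY v hv w hvw
    rcases h.clean hY hcY hv hvw with h1 | ⟨h1, -⟩
    · exact Or.inl h1
    · exact Or.inr (hhY w h1)
  have he₀ : ∀ Y : Finset V, (∀ y ∈ Y, y ∉ D.Q b) → ∀ v ∈ Y, v ∉ D.e₀ := by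
    intro Y hcY v hv he
    exact hcY v hv (mem_Q.mpr (Or.inl he))
  have hxHi := (mem_hubs.mp hx).1
  obtain ⟨v, hv, y, hy, hvy, hvP⟩ := hP
  obtain ⟨v', hv', y', hy', hvy', hvP'⟩ := hP'
  refine mov2 (e₀ := D.e₀) (N := D.N b) (N' := D.N (b + 1)) (x := x) (x' := x') h.hmv
    (h.N_step b) h.G1 h.hsF (h.N_mono b) h.hl X X' hXX.2.2.2.2.1 hXX'.2.2.2.2.1
    hXX.2.2.2.2.2.1 hXX'.2.2.2.2.2.1 ?_ hXX.2.2.2.1 hXX'.2.2.2.1 (he₀ X hc) (he₀ X' hc')
    (h.hubs_not hX hxHi) (h.hubs_not hX hx'Hi) (h.hubs_not hX' hxHi) (h.hubs_not hX' hx'Hi)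
    (hcl X hX hc hh) (hcl X' hX' hc' hh') (mem_hubs.mp hx).2 (mem_hubs.mp hx').2 ha hcX P
    ⟨v, hv, y, h.hubs_not hX hy, hvy, hvP⟩ ⟨v', hv', y', h.hubs_not hX' hy', hvy', hvP'⟩
    hPl hPlen hPd
  intro z hz hz'
  exact hne (h.sm_disj hX hX' hz' hz)

/-- moving clusters at live hubs -/
theorem mv_live (h : D.Ok m s g₀ q t) {b : ℕ} {X X' : Finset V} (hX : X ∈ D.Sm s b)
    (hX' : X' ∈ D.Sm s b) (hne : X ≠ X') (hc : ∀ y ∈ X, y ∉ D.Q b) (hc' : ∀ y ∈ X', y ∉ D.Q b)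
    {x x' : V} (hx : x ∈ D.hubs b X) (hx' : x ∈ D.hubs b X') (hxHi : x ∈ D.Hi (b + 1))
    (hx'Hi : x' ∈ D.Hi b)
    (hh : ∀ y ∈ D.hubs b X, y = x ∨ y = x') (hh' : ∀ y ∈ D.hubs b X', y = x ∨ y = x')
    {a c : V} (ha : a ∈ X') (hcX : c ∈ X) (P : (D.Γ (b + 1)).Walk a c)
    (hPl : P.length ≤ g₀ + s + 2) : False := by
  have haL : a ∈ D.L (b + 1) := h.L_mono b ((h.sm hX').2.2.1 ha)
  have hPe : ∀ f ∈ P.edges, f ∈ (D.T (b + 1)).edgeSet ∧ ∀ x ∈ f, x ∈ D.L (b + 1) :=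
    fun f hf => res_edge (P.edges_subset_edgeSet hf)
  obtain ⟨-, v, hv, hvx⟩ := mem_hubs.mp hx
  obtain ⟨-, v', hv', hvx'⟩ := mem_hubs.mp hx'
  have hno : ∀ u, s(u, x) ∉ P.edges := by
    intro u hu
    exact h.LHi ((hPe _ hu).2 x (by simp)) hxHi
  refine h.mv hX hX' hne hc hc' hx hx' hx'Hi hh hh' ha hcX
    (P.mapLe ((res_le _ _).trans (T_le (b + 1)))) ⟨v, hv, x, (mem_hubs.mp hx).1, hvx, ?_⟩
    ⟨v', hv', x, (mem_hubs.mp hx).1, hvx', ?_⟩ ?_ ?_ ?_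
  · rw [SimpleGraph.Walk.edges_mapLe_eq_edges]
    exact hno v
  · rw [SimpleGraph.Walk.edges_mapLe_eq_edges]
    exact hno v'
  · rw [SimpleGraph.Walk.length_mapLe]
    exact hPl
  · intro f hf
    rw [SimpleGraph.Walk.edges_mapLe_eq_edges] at hf
    exact TN_len f (hPe f hf).1
  · intro u hu
    rw [SimpleGraph.Walk.support_mapLe_eq_support] at hu
    exact mem_L.mp (walk_support_res P haL u hu)

end Ok

end Dat

end Pool.Agent.H354_OP
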