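import Pool.Agent.H354_OP.Pk0

/-!
# Levels of threads, second version: grouping with explicit constants
-/

set_option autoImplicit false

namespace Pool.Agent.H354_OP

open Finset
open scoped Classical

set_option linter.unusedSectionVars false

/-- the constant -/
def GC (g g₀ s : ℕ) : ℕ := (2 * (1 + 2 * (g₀ + g * s)) * (s + g) + 1) *
  (406 * ((1 + 2 * (g₀ + g * s)) * ((1 + 2 * (g₀ + g * s)) * ((1 + 2 * (g₀ + g * s)) * 2)) + 1))

theorem gstar2 (g g₀ s : ℕ) (hg : 0 < g) : ∀ (V τ : Type) [Fintype V]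
    (H Γ : SimpleGraph V) (pos : V → ℂ) (Cc : Sym2 V → Set ℂ) (M S : ℕ), TopD M H pos Cc →
    M ≤ S → 1 ≤ S → Γ ≤ H → ∀ (L Hi : Finset V), Disjoint L Hi → (∀ a b, Γ.Adj a b → a ∈ L) →
    (∀ x ∈ L, (nb Γ x).card ≤ S) → ∀ (Θ : Finset τ) (loc : τ → V) (X : τ → Finset V)
    (EX : τ → Finset (Sym2 V)),
    (∀ θ ∈ Θ, loc θ ∈ X θ ∧ X θ ⊆ L ∧ (EX θ).card ≤ s ∧
      (∀ x ∈ X θ, ∃ w : H.Walk (loc θ) x, (∀ f ∈ w.edges, f ∈ EX θ) ∧ ∀ u ∈ w.support, u ∈ X θ) ∧
      (∀ f ∈ EX θ, f ∈ H.edgeSet ∧ (∃ z ∈ X θ, z ∈ f) ∧ ∀ x ∈ f, x ∈ X θ ∨ x ∈ Hi)) →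
    (∀ z, (Θ.filter (fun θ => z ∈ X θ)).card ≤ s * S) →
    (∀ f, (Θ.filter (fun θ => f ∈ EX θ)).card ≤ s) →
    (∀ A ⊆ Θ, A.card = g →
      (∀ θ ∈ A, ∀ θ' ∈ A, ∃ w : Γ.Walk (loc θ) (loc θ'), w.length ≤ g₀) →
      ∃ T ⊆ Hi, 3 ≤ T.card ∧ ∀ a ∈ T, ∃ θ ∈ A, ∃ x ∈ X θ, s(x, a) ∈ EX θ) →
    ∃ Bd : ℕ, g₀ * Bd ≤ g * Fintype.card V ∧ Θ.card ≤ g * (GC g g₀ s * (S * Hi.card)) + g * Bd +
      g * ((univ.image (cmp Γ)).filter (fun S => ∃ θ ∈ Θ, loc θ ∈ S)).card := by
  obtain ⟨q, hq⟩ : ∃ q, q = 1 + 2 * (g₀ + g * s) := ⟨_, rfl⟩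
  have hGC : GC g g₀ s = (2 * q * (s + g) + 1) * (406 * (q * (q * (q * 2)) + 1)) := by
    rw [GC, ← hq]
  rw [hGC]
  intro V τ _ H Γ pos Cc M S hT hMS hS1 hΓH L Hi hLHi hΓL hdeg Θ loc X EX hX hz hf hhub
  obtain ⟨𝒢, E, hG1, hG2, hG3, hG4, hG5, hG6, hG7⟩ := grouping_all Γ g hg Θ loc
  obtain ⟨𝒢₁, h𝒢₁⟩ : ∃ 𝒢₁, 𝒢₁ = 𝒢.filter (fun A => (E A).card ≤ g₀) := ⟨_, rfl⟩
  obtain ⟨𝒢₂, h𝒢₂⟩ : ∃ 𝒢₂, 𝒢₂ = 𝒢.filter (fun A => ¬ (E A).card ≤ g₀) := ⟨_, rfl⟩
  have hsplit : 𝒢₁.card + 𝒢₂.card = 𝒢.card := by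
    rw [h𝒢₁, h𝒢₂]
    exact card_filter_add_card_filter_not _
  have hm1 : ∀ A ∈ 𝒢₁, A ∈ 𝒢 ∧ (E A).card ≤ g₀ := fun A hA => by
    rwa [h𝒢₁, mem_filter] at hA
  refine ⟨𝒢₂.card, ?_, ?_⟩
  · refine le_trans ?_ hG7
    rw [mul_comm, ← smul_eq_mul, ← sum_const]
    refine (sum_le_sum (f := fun _ => g₀) (g := fun A => (E A).card) fun A hA => ?_).trans
      (sum_le_sum_of_subset ?_)
    · rw [h𝒢₂, mem_filter] at hA
      omega
    · rw [h𝒢₂]
      exact filter_subset _ _
  have hΓL' : ∀ a b, Γ.Adj a b → b ∈ L := fun a b h => hΓL b a h.symm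
  have hnHi : ∀ x ∈ L, x ∉ Hi := fun x h1 h2 => Finset.disjoint_left.mp hLHi h1 h2
  have hΓe : ∀ f ∈ Γ.edgeSet, f ∈ H.edgeSet ∧ ∀ x ∈ f, x ∈ L := by
    intro f
    induction f using Sym2.ind with
    | _ a b =>
      intro h
      refine ⟨hΓH h, fun x hx => ?_⟩
      rw [Sym2.mem_iff] at hx
      rcases hx with rfl | rfl
      · exact hΓL _ _ h
      · exact hΓL' _ _ h
  -- the enlarged groups
  obtain ⟨Ep, hEp⟩ : ∃ Ep : Finset τ → Finset (Sym2 V), ∀ A, Ep A = E A ∪ A.biUnion EX :=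
    ⟨_, fun A => rfl⟩
  have hmE : ∀ A f, f ∈ Ep A ↔ f ∈ E A ∨ ∃ θ ∈ A, f ∈ EX θ := by
    intro A f
    rw [hEp, mem_union, mem_biUnion]
  have hEpH : ∀ A ∈ 𝒢, ∀ f ∈ Ep A, f ∈ H.edgeSet := by
    intro A hA f hf
    rcases (hmE A f).mp hf with h | ⟨θ, hθ, h⟩
    · exact (hΓe f (hG4 A hA f h)).1
    · exact ((hX θ ((hG1 A hA).1 hθ)).2.2.2.2 f h).1
  have hEpc : ∀ A ∈ 𝒢₁, (Ep A).card ≤ g₀ + g * s := by
    intro A hA
    rw [hEp]
    refine (card_union_le _ _).trans (add_le_add (hm1 A hA).2 (card_biUnion_le.trans ?_))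
    rw [← (hG1 A (hm1 A hA).1).2, ← smul_eq_mul, ← sum_const]
    exact sum_le_sum fun θ hθ => (hX θ ((hG1 A (hm1 A hA).1).1 hθ)).2.2.1
  have hmain : 𝒢₁.card ≤ (2 * q * (s + g) + 1) * (406 * (q * (q * (q * 2)) + 1)) *
      (S * Hi.card) := by
    rcases 𝒢₁.eq_empty_or_nonempty with h0 | ⟨A₀, hA₀⟩
    · rw [h0]
      simp
    have hneA : ∀ A ∈ 𝒢₁, ∃ θ, θ ∈ A := by
      intro A hA
      obtain ⟨θ, hθ⟩ : A.Nonempty := card_pos.mp (by rw [(hG1 A (hm1 A hA).1).2]; exact hg)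
      exact ⟨θ, hθ⟩
    obtain ⟨θ₀, -⟩ := hneA A₀ hA₀
    have hτ : Nonempty τ := ⟨θ₀⟩
    choose! b hb using hneA
    have hbΘ : ∀ A ∈ 𝒢₁, b A ∈ Θ := fun A hA => (hG1 A (hm1 A hA).1).1 (hb A hA)
    -- the graph of a group
    obtain ⟨Q, hQ⟩ : ∃ Q : Finset τ → SimpleGraph V, ∀ A x y, (Q A).Adj x y ↔
        s(x, y) ∈ Ep A ∧ H.Adj x y ∧ x ∉ Hi ∧ y ∉ Hi := by
      refine ⟨fun A => ⟨fun x y => s(x, y) ∈ Ep A ∧ H.Adj x y ∧ x ∉ Hi ∧ y ∉ Hi,
        ⟨fun x y h => ⟨by rw [Sym2.eq_swap]; exact h.1, h.2.1.symm, h.2.2.2, h.2.2.1⟩⟩,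
        ⟨fun x h => h.2.1.ne rfl⟩⟩, fun A x y => Iff.rfl⟩
    have hQH : ∀ A, Q A ≤ H := fun A x y h => ((hQ A x y).mp h).2.1
    obtain ⟨Z, hZ⟩ : ∃ Z : Finset τ → Finset V, ∀ A, Z A = cmp (Q A) (loc (b A)) :=
      ⟨_, fun A => rfl⟩
    have hZHi : ∀ A ∈ 𝒢₁, ∀ z ∈ Z A, z ∉ Hi := by
      intro A hA z hz'
      rw [hZ, mem_cmp] at hz'
      obtain ⟨w⟩ := hz'.symm
      cases w with
      | nil =>
        have := hX _ (hbΘ A hA)
        exact hnHi _ (this.2.1 this.1)
      | cons h w => exact ((hQ _ _ _).mp h).2.2.1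
    have hZE : ∀ A ∈ 𝒢₁, ∀ z ∈ Z A, z = loc (b A) ∨ ∃ f ∈ Ep A, z ∈ f := by
      intro A hA z hz'
      rw [hZ, mem_cmp] at hz'
      obtain ⟨w⟩ := hz'.symm
      cases w with
      | nil => exact Or.inl rfl
      | cons h w => exact Or.inr ⟨_, ((hQ _ _ _).mp h).1, by simp⟩
    obtain ⟨E', hE'⟩ : ∃ E' : Finset τ → Finset (Sym2 V), ∀ A, E' A =
        (Ep A).filter (fun f => ∃ z ∈ Z A, z ∈ f) := ⟨_, fun A => rfl⟩
    have hmE' : ∀ A f, f ∈ E' A ↔ f ∈ Ep A ∧ ∃ z ∈ Z A, z ∈ f := by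
      intro A f
      rw [hE', mem_filter]
    have hq1 : ∀ A ∈ 𝒢₁, (Ep A).card ≤ q := fun A hA => (hEpc A hA).trans (by omega)
    have key := star2 hT Hi 𝒢₁ Z E' q ((s + g) * S) (g + s) ?_ ?_ ?_ ?_ ?_ ?_ ?_ ?_
    · refine key.trans ?_
      have h1 : q * ((s + g) * S) + q * (M * (g + s)) + 1 ≤ (2 * q * (s + g) + 1) * S := by
        calc q * ((s + g) * S) + q * (M * (g + s)) + 1 ≤
            q * ((s + g) * S) + q * (S * (g + s)) + S := by gcongr
          _ = (2 * q * (s + g) + 1) * S := by ring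
      calc (q * ((s + g) * S) + q * (M * (g + s)) + 1) *
          (406 * (q * (q * (q * 2)) + 1) * Hi.card) ≤
          (2 * q * (s + g) + 1) * S * (406 * (q * (q * (q * 2)) + 1) * Hi.card) :=
            Nat.mul_le_mul_right _ h1
        _ = _ := by ring
    · -- edges
      intro A hA f hf'
      rw [hmE'] at hf'
      obtain ⟨h1, z, hz1, hz2⟩ := hf'
      have hfH := hEpH A (hm1 A hA).1 f h1
      refine ⟨hfH, ⟨z, hz1, hz2⟩, ?_⟩
      obtain ⟨y, rfl⟩ := hz2
      intro x hx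
      rw [Sym2.mem_iff] at hx
      rcases hx with rfl | rfl
      · exact Or.inl hz1
      · by_cases hxHi : x ∈ Hi
        · exact Or.inr hxHi
        · left
          rw [hZ] at hz1 ⊢
          exact cmp_adj hz1 ((hQ _ _ _).mpr ⟨h1, hfH, hZHi A hA z (by rw [hZ]; exact hz1), hxHi⟩)
    · intro A hA
      rw [Finset.disjoint_left]
      exact fun z hz' => hZHi A hA z hz'
    · -- connected
      intro A hA x hx y hy
      rw [hZ] at hx hy
      obtain ⟨w, hw⟩ := cmp_conn (Q A) _ x hx y hy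
      refine ⟨w.mapLe (hQH A), ?_, ?_⟩
      · intro f hf'
        rw [SimpleGraph.Walk.edges_mapLe_eq_edges] at hf'
        have h1 := w.edges_subset_edgeSet hf'
        rw [hmE', hZ]
        induction f using Sym2.ind with
        | _ c d =>
          exact ⟨((hQ _ _ _).mp h1).1, c, hw c (w.fst_mem_support_of_mem_edges hf'), by simp⟩
      · intro u hu
        rw [SimpleGraph.Walk.support_mapLe_eq_support] at hu
        rw [hZ]
        exact hw u hu
    · -- number of vertices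
      intro A hA
      have hsub : Z A ⊆ insert (loc (b A)) (univ.filter (fun z => ∃ f ∈ Ep A, z ∈ f)) := by
        intro z hz'
        rw [mem_insert, mem_filter]
        rcases hZE A hA z hz' with h | h
        · exact Or.inl h
        · exact Or.inr ⟨mem_univ _, h⟩
      refine (card_le_card hsub).trans ((card_insert_le _ _).trans ?_)
      have h1 := ends_card (Ep A)
      have h2 := hEpc A hA
      omega
    · intro A hA
      rw [hE']
      exact (card_filter_le _ _).trans (hq1 A hA)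
    · -- groups at a vertex
      intro z
      have hsub : 𝒢₁.filter (fun A => z ∈ Z A) ⊆ 𝒢.filter (fun A => ∃ θ ∈ A, z ∈ X θ) ∪
          (if z ∈ L then (nb Γ z).biUnion (fun y => 𝒢.filter (fun A => s(z, y) ∈ E A)) else ∅) := by
        intro A hA
        rw [mem_filter] at hA
        obtain ⟨hA1, hzA⟩ := hA
        have hA𝒢 := (hm1 A hA1).1
        rw [mem_union, mem_filter]
        rcases hZE A hA1 z hzA with h | ⟨f, hf1, hf2⟩
        · exact Or.inl ⟨hA𝒢, b A, hb A hA1, h ▸ (hX _ (hbΘ A hA1)).1⟩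
        · rcases (hmE A f).mp hf1 with h | ⟨θ, hθ, h⟩
          · right
            have h2 := hΓe f (hG4 A hA𝒢 f h)
            rw [if_pos (h2.2 z hf2), mem_biUnion]
            obtain ⟨y, rfl⟩ := hf2
            refine ⟨y, mem_nb.mpr (hG4 A hA𝒢 _ h), ?_⟩
            rw [mem_filter]
            exact ⟨hA𝒢, h⟩
          · left
            refine ⟨hA𝒢, θ, hθ, ?_⟩
            rcases ((hX θ ((hG1 A hA𝒢).1 hθ)).2.2.2.2 f h).2.2 z hf2 with h3 | h3
            · exact h3
            · exact absurd h3 (hZHi A hA1 z hzA)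
      refine (card_le_card hsub).trans ((card_union_le _ _).trans ?_)
      have h1 : (𝒢.filter (fun A => ∃ θ ∈ A, z ∈ X θ)).card ≤ s * S := by
        have h2 := groups_card 𝒢 Θ (fun A hA => (hG1 A hA).1) hG2 (fun θ => z ∈ X θ)
        have h3 := hz z
        refine le_trans (le_of_eq ?_) (h2.trans (le_trans (le_of_eq ?_) h3)) <;> congr!
      have h2 : (if z ∈ L then (nb Γ z).biUnion (fun y => 𝒢.filter (fun A => s(z, y) ∈ E A))
          else ∅).card ≤ g * S := by
        split_ifs with hzL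
        · refine card_biUnion_le.trans ((sum_le_sum (g := fun _ => g) fun y _ => hG6 _).trans ?_)
          rw [sum_const, smul_eq_mul, mul_comm]
          exact Nat.mul_le_mul_left _ (hdeg z hzL)
        · simp
      calc _ ≤ s * S + g * S := add_le_add h1 h2
        _ = (s + g) * S := by ring
    · -- groups at an edge
      intro f
      have hsub : 𝒢₁.filter (fun A => f ∈ E' A) ⊆ 𝒢.filter (fun A => f ∈ E A) ∪
          𝒢.filter (fun A => ∃ θ ∈ A, f ∈ EX θ) := by
        intro A hA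
        rw [mem_filter] at hA
        have h1 := ((hmE' A f).mp hA.2).1
        rw [mem_union, mem_filter, mem_filter]
        rcases (hmE A f).mp h1 with h | h
        · exact Or.inl ⟨(hm1 A hA.1).1, h⟩
        · exact Or.inr ⟨(hm1 A hA.1).1, h⟩
      refine (card_le_card hsub).trans ((card_union_le _ _).trans (add_le_add (hG6 f) ?_))
      have h2 := groups_card 𝒢 Θ (fun A hA => (hG1 A hA).1) hG2 (fun θ => f ∈ EX θ)
      have h3 := hf f
      refine le_trans (le_of_eq ?_) (h2.trans (le_trans (le_of_eq ?_) h3)) <;> congr!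
    · -- three hubs
      intro A hA
      have hA𝒢 := (hm1 A hA).1
      obtain ⟨T, hTHi, hT3, hTT⟩ := hhub A (hG1 A hA𝒢).1 (hG1 A hA𝒢).2 (by
        intro θ hθ θ' hθ'
        obtain ⟨w, hw⟩ := hG5 A hA𝒢 θ hθ θ' hθ'
        refine ⟨w.bypass, ?_⟩
        have h1 : w.bypass.edges.Nodup := w.bypass_isPath.isTrail.edges_nodup
        rw [← SimpleGraph.Walk.length_edges, ← List.toFinset_card_of_nodup h1]
        refine (card_le_card ?_).trans (hm1 A hA).2
        intro f hf'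
        rw [List.mem_toFinset] at hf'
        exact hw f (w.edges_bypass_subset_edges hf'))
      refine ⟨T, hTHi, hT3, ?_⟩
      intro a ha
      obtain ⟨θ, hθ, x, hx, hxa⟩ := hTT a ha
      have hθΘ := (hG1 A hA𝒢).1 hθ
      have hlift : ∀ {x y : V} (w : H.Walk x y), (∀ f ∈ w.edges, f ∈ Ep A) →
          (∀ u ∈ w.support, u ∉ Hi) → (Q A).Reachable x y := by
        intro x y w
        induction w with
        | nil => exact fun _ _ => SimpleGraph.Reachable.refl _
        | cons h w ih =>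
          intro h1 h2
          refine SimpleGraph.Reachable.trans (SimpleGraph.Adj.reachable ?_)
            (ih (fun f hf' => h1 f (by simp [hf'])) (fun u hu => h2 u (by simp [hu])))
          exact (hQ _ _ _).mpr ⟨h1 _ (by simp), h, h2 _ (by simp), h2 _ (by simp)⟩
      have hr1 : (Q A).Reachable (loc θ) x := by
        obtain ⟨w, hw1, hw2⟩ := (hX θ hθΘ).2.2.2.1 x hx
        exact hlift w (fun f hf' => (hmE A f).mpr (Or.inr ⟨θ, hθ, hw1 f hf'⟩))
          (fun u hu => hnHi u ((hX θ hθΘ).2.1 (hw2 u hu)))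
      have hr2 : (Q A).Reachable (loc (b A)) (loc θ) := by
        obtain ⟨w, hw⟩ := hG5 A hA𝒢 (b A) (hb A hA) θ hθ
        refine hlift (w.mapLe hΓH) ?_ ?_
        · intro f hf'
          rw [SimpleGraph.Walk.edges_mapLe_eq_edges] at hf'
          exact (hmE A f).mpr (Or.inl (hw f hf'))
        · intro u hu
          rw [SimpleGraph.Walk.support_mapLe_eq_support] at hu
          refine hnHi u ?_
          have h1 := (w.takeUntil u hu).reverse
          cases h1 with
          | nil => exact (hX _ (hbΘ A hA)).2.1 (hX _ (hbΘ A hA)).1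
          | cons h _ => exact hΓL _ _ h
      have hxZ : x ∈ Z A := by
        rw [hZ, mem_cmp]
        exact hr2.trans hr1
      refine ⟨x, hxZ, ?_⟩
      rw [hmE']
      exact ⟨(hmE A _).mpr (Or.inr ⟨θ, hθ, hxa⟩), x, hxZ, by simp⟩
  rw [← hsplit] at hG3
  have h1 := Nat.mul_le_mul_left g hmain
  have h2 : g * (𝒢₁.card + 𝒢₂.card) = g * 𝒢₁.card + g * 𝒢₂.card := by ring
  omega

theorem long_few2 (g₀ : ℕ) : ∀ (V : Type) [Fintype V] (H : SimpleGraph V)
    (len : Sym2 V → ℕ) (e₀ : Sym2 V) (N₀ N F G γ M : ℕ) (pos : V → ℂ) (Cc : Sym2 V → Set ℂ)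
    (T : SimpleGraph V) (_ : T = TN H len e₀ N) (L : Finset V) (_ : L = Lo H (G * N))
    (Hi : Finset V) (_ : Hi = Hb H (G * N) γ) (_ : TopD M T pos Cc) (_ : M ≤ G * N)
    (_ : 1 ≤ G * N) (_ : 1 ≤ F) (_ : 1 ≤ G) (_ : 1 ≤ γ) (_ : ∀ ℓ, N₀ < ℓ → N ≤ F * ℓ)
    (_ : NoDir H len (g₀ + 1) (F * G)) (Θ : Finset (V × V))
    (_ : ∀ p ∈ Θ, p.1 ∈ L ∧ p.2 ∈ Hi ∧ T.Adj p.1 p.2 ∧ N₀ < len s(p.1, p.2)),
    ∃ Bd : ℕ, g₀ * Bd ≤ 3 * Fintype.card V ∧ Θ.card ≤ 3 * (GC 3 g₀ 1 * (G * N * Hi.card)) + 3 * Bd +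
      3 * ((univ.image (cmp (res T L))).filter (fun S => ∃ θ ∈ Θ, θ.1 ∈ S)).card := by
  have hC := gstar2 3 g₀ 1 (by norm_num)
  intro V _ H len e₀ N₀ N F G γ M pos Cc T hTdef L hL Hi hHi hT hM hS1 hF hG hγ hstep hND Θ hΘ
  have hLHi : Disjoint L Hi := by
    rw [hL, hHi]
    exact lo_hb hγ
  have hnHi : ∀ x ∈ L, x ∉ Hi := fun x h1 h2 => Finset.disjoint_left.mp hLHi h1 h2
  have hLdeg : ∀ x ∈ L, (nb H x).card ≤ G * N := fun x hx => by
    rw [hL] at hx
    exact mem_Lo.mp hx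
  have hTH : T ≤ H := by
    rw [hTdef]
    exact TN_le
  refine hC V (V × V) T (res T L) pos Cc M (G * N) hT hM hS1 (res_le T L) L Hi hLHi
    (fun a b h => h.2.1) ?_ Θ Prod.fst (fun p => {p.1}) (fun p => {s(p.1, p.2)}) ?_ ?_ ?_ ?_
  · intro x hx
    refine le_trans (card_le_card ?_) (hLdeg x hx)
    intro y hy
    rw [mem_nb] at hy ⊢
    exact hTH hy.1
  · -- the clusters
    intro p hp
    obtain ⟨h1, h2, h3, h4⟩ := hΘ p hp
    refine ⟨mem_singleton_self _, ?_, by simp, ?_, ?_⟩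
    · intro x hx
      rw [mem_singleton] at hx
      rw [hx]
      exact h1
    · intro x hx
      rw [mem_singleton] at hx
      subst hx
      refine ⟨SimpleGraph.Walk.nil, by simp, by simp⟩
    · intro f hf
      rw [mem_singleton] at hf
      subst hf
      refine ⟨h3, ⟨p.1, mem_singleton_self _, by simp⟩, ?_⟩
      intro x hx
      rw [Sym2.mem_iff] at hx
      rcases hx with rfl | rfl
      · exact Or.inl (mem_singleton_self _)
      · exact Or.inr h2
  · intro z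
    rw [one_mul]
    by_cases hz : z ∈ L
    · refine le_trans (card_le_card_of_injOn (t := nb H z) Prod.snd ?_ ?_) (hLdeg z hz)
      · intro p hp
        rw [mem_coe, mem_filter, mem_singleton] at hp
        rw [mem_coe, mem_nb, hp.2]
        exact hTH (hΘ p hp.1).2.2.1
      · intro p hp p' hp' he
        rw [mem_coe, mem_filter, mem_singleton] at hp hp'
        exact Prod.ext (hp.2.symm.trans hp'.2) he
    · have : Θ.filter (fun p => z ∈ ({p.1} : Finset V)) = ∅ := by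
        rw [filter_eq_empty_iff]
        intro p hp h
        rw [mem_singleton] at h
        exact hz (h ▸ (hΘ p hp).1)
      rw [this]
      simp
  · intro f
    rw [card_le_one]
    intro p hp p' hp'
    rw [mem_filter, mem_singleton] at hp hp'
    have h1 := hΘ p hp.1
    have h2 := hΘ p' hp'.1
    have h3 := hp.2.symm.trans hp'.2
    rw [Sym2.eq_iff] at h3
    rcases h3 with ⟨h3, h4⟩ | ⟨h3, h4⟩
    · exact Prod.ext h3 h4
    · exact absurd h2.2.1 (h3 ▸ hnHi _ h1.1)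
  · -- three hubs
    intro A hA hA3 hw
    have hinj : Set.InjOn Prod.snd (A : Set (V × V)) := by
      intro p hp p' hp' he
      rw [mem_coe] at hp hp'
      by_contra hne
      have h1 := hΘ p (hA hp)
      have h2 := hΘ p' (hA hp')
      have hne1 : p'.1 ≠ p.1 := fun h => hne (Prod.ext h.symm he)
      obtain ⟨w, hwl⟩ := hw p hp p' hp'
      have hws := walk_support_res w h1.1
      have hadj : H.Adj p'.1 p.2 := by
        rw [he]
        exact hTH h2.2.2.1
      have hlK : N ≤ F * G * len s(p.1, p.2) :=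
        (hstep _ h1.2.2.2).trans (Nat.mul_le_mul_right _ (Nat.le_mul_of_pos_right _ hG))
      refine hND p.1 p.2 (hTH h1.2.2.1) ((w.mapLe ((res_le T L).trans hTH)).append
        (SimpleGraph.Walk.cons hadj SimpleGraph.Walk.nil)) ?_ ?_ ?_ ?_
      · rw [SimpleGraph.Walk.edges_append, SimpleGraph.Walk.edges_mapLe_eq_edges, List.mem_append]
        simp only [SimpleGraph.Walk.edges_cons, SimpleGraph.Walk.edges_nil, List.mem_singleton]
        rintro (h | h)
        · exact hnHi _ ((res_edge (w.edges_subset_edgeSet h)).2 p.2 (by simp)) h1.2.1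
        · rw [Sym2.eq_iff] at h
          rcases h with ⟨h, -⟩ | ⟨h, -⟩
          · exact hne1 h.symm
          · exact hnHi _ h1.1 (h ▸ h1.2.1)
      · rw [SimpleGraph.Walk.length_append, SimpleGraph.Walk.length_mapLe]
        simp only [SimpleGraph.Walk.length_cons, SimpleGraph.Walk.length_nil]
        omega
      · intro f hf
        rw [SimpleGraph.Walk.edges_append, SimpleGraph.Walk.edges_mapLe_eq_edges,
          List.mem_append] at hf
        simp only [SimpleGraph.Walk.edges_cons, SimpleGraph.Walk.edges_nil,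
          List.mem_singleton] at hf
        refine le_trans ?_ hlK
        rcases hf with h | h
        · have h5 := (res_edge (w.edges_subset_edgeSet h)).1
          rw [hTdef] at h5
          induction f using Sym2.ind with
          | _ a b => exact h5.2.2
        · have h5 := h2.2.2.1
          rw [hTdef] at h5
          rw [h, he]
          exact h5.2.2
      · intro x hx hx1 hx2
        rw [SimpleGraph.Walk.mem_support_append_iff,
          SimpleGraph.Walk.support_mapLe_eq_support] at hx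
        simp only [SimpleGraph.Walk.support_cons, SimpleGraph.Walk.support_nil, List.mem_cons,
          List.not_mem_nil, or_false] at hx
        have hxL : x ∈ L := by
          rcases hx with h | h | h
          · exact hws x h
          · rw [h]
            exact h2.1
          · exact absurd h hx2
        refine (hLdeg x hxL).trans ?_
        calc G * N ≤ G * (F * len s(p.1, p.2)) := Nat.mul_le_mul_left _ (hstep _ h1.2.2.2)
          _ = F * G * len s(p.1, p.2) := by ring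
    refine ⟨A.image Prod.snd, ?_, ?_, ?_⟩
    · intro y hy
      rw [mem_image] at hy
      obtain ⟨p, hp, rfl⟩ := hy
      exact (hΘ p (hA hp)).2.1
    · rw [card_image_of_injOn hinj, hA3]
    · intro y hy
      rw [mem_image] at hy
      obtain ⟨p, hp, rfl⟩ := hy
      exact ⟨p, hp, p.1, mem_singleton_self _, mem_singleton_self _⟩


theorem two_cover2 {V : Type} [Fintype V] {P : Finset V} (hne : P.Nonempty) (hP2 : P.card ≤ 2) :
    ∃ h : Bool → V, (∀ b, h b ∈ P) ∧ ∀ y ∈ P, y = h true ∨ y = h false := by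
  obtain ⟨y₀, hy₀⟩ := hne
  rcases (P.erase y₀).eq_empty_or_nonempty with h0 | ⟨y₁, hy₁⟩
  · refine ⟨fun _ => y₀, fun _ => hy₀, fun y hy => Or.inl ?_⟩
    by_contra hne
    have : y ∈ P.erase y₀ := mem_erase.mpr ⟨hne, hy⟩
    rw [h0] at this
    simp at this
  · rw [mem_erase] at hy₁
    refine ⟨fun b => if b then y₀ else y₁, fun b => ?_, fun y hy => ?_⟩
    · cases b
      · exact hy₁.2
      · exact hy₀
    · by_contra hne
      push Not at hne
      simp only [if_true, Bool.false_eq_true, if_false] at hne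
      have h3 : ({y₀, y₁, y} : Finset V) ⊆ P := by
        intro z hz
        simp only [mem_insert, mem_singleton] at hz
        rcases hz with rfl | rfl | rfl
        · exact hy₀
        · exact hy₁.2
        · exact hy
      have h4 : ({y₀, y₁, y} : Finset V).card = 3 :=
        Finset.card_eq_three.mpr ⟨y₀, y₁, y, hy₁.1.symm, hne.1.symm, hne.2.symm, rfl⟩
      have := card_le_card h3
      omega

end Pool.Agent.H354_OP
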