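import Pool.Agent.H354_OP.Pk1

/-!
# Levels of threads, second version: few clusters see a retiring hub and another hub, few clusters
and few long tokens lie in large components of the next level
-/

set_option autoImplicit false

namespace Pool.Agent.H354_OP

open Finset
open scoped Classical

set_option linter.unusedSectionVars false

namespace Dat

variable {V : Type} [Fintype V] (D : Dat V)

/-- clean components at two hubs, one of which is low at the next level -/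
noncomputable def CP (s b : ℕ) : Finset (Finset V) :=
  (D.Sm s b).filter (fun X => (∀ y ∈ X, y ∉ D.Q b) ∧ (D.hubs b X).card = 2 ∧
    ∃ y ∈ D.hubs b X, y ∈ D.L (b + 1))

/-- clean components in large components of the next level -/
noncomputable def CL (s b : ℕ) : Finset (Finset V) :=
  (D.Sm s b).filter (fun X => (∀ y ∈ X, y ∉ D.Q b) ∧ (D.hubs b X).Nonempty ∧
    (∀ y ∈ D.hubs b X, y ∈ D.Hi (b + 1)) ∧ ∀ v ∈ X, s < D.mass (cmp (D.Γ (b + 1)) v))

/-- long tokens -/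
noncomputable def lg (b : ℕ) : Finset (V × V) :=
  (D.tok (b + 1)).filter (fun p => D.N b < D.len s(p.1, p.2))

/-- long tokens at large components -/
noncomputable def lgB (s b : ℕ) : Finset (V × V) :=
  (D.lg b).filter (fun p => s < D.mass (cmp (D.Γ (b + 1)) p.1))

variable {D}

theorem mem_lg {b : ℕ} {p : V × V} :
    p ∈ D.lg b ↔ p ∈ D.tok (b + 1) ∧ D.N b < D.len s(p.1, p.2) := by
  simp [lg]

theorem mem_lgB {s b : ℕ} {p : V × V} :
    p ∈ D.lgB s b ↔ p ∈ D.lg b ∧ s < D.mass (cmp (D.Γ (b + 1)) p.1) := by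
  simp [lgB]

theorem mem_CP {s b : ℕ} {X : Finset V} : X ∈ D.CP s b ↔ X ∈ D.Sm s b ∧
    (∀ y ∈ X, y ∉ D.Q b) ∧ (D.hubs b X).card = 2 ∧ ∃ y ∈ D.hubs b X, y ∈ D.L (b + 1) := by
  simp only [CP, mem_filter]

theorem mem_CL {s b : ℕ} {X : Finset V} : X ∈ D.CL s b ↔ X ∈ D.Sm s b ∧
    (∀ y ∈ X, y ∉ D.Q b) ∧ (D.hubs b X).Nonempty ∧
    (∀ y ∈ D.hubs b X, y ∈ D.Hi (b + 1)) ∧ ∀ v ∈ X, s < D.mass (cmp (D.Γ (b + 1)) v) := by
  simp only [CL, mem_filter]

namespace Ok

variable {m s g₀ q t : ℕ}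

theorem cp_few (h : D.Ok m s g₀ q t) (b : ℕ) :
    (D.CP s b).card ≤ 56 * (2 * (2 * s + 3) + 1) * D.β b := by
  cases b with
  | zero =>
    have : D.CP s 0 = ∅ := by
      rw [eq_empty_iff_forall_notMem]
      intro X hX
      rw [mem_CP, mem_Sm] at hX
      obtain ⟨⟨⟨v, hv, -⟩, -⟩, -⟩ := hX
      exact h.L0 v hv
    rw [this]
    simp
  | succ b =>
    obtain ⟨pos, C, hT⟩ := h.top (D.N (b + 1))
    have hS1 := h.GN_pos b
    have hinj : Set.InjOn (D.hubs (b + 1)) (D.CP s (b + 1) : Set (Finset V)) := by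
      intro X hX X' hX' he
      rw [mem_coe, mem_CP] at hX hX'
      by_contra hne
      obtain ⟨hX1, hX2, hX3, y, hy, hyL⟩ := hX
      obtain ⟨hX1', hX2', hX3', -⟩ := hX'
      obtain ⟨y₁, y₂, hy12, hyy⟩ := card_eq_two.mp hX3
      obtain ⟨y₃, hy₃, hy₃y, hcov⟩ : ∃ y₃ ∈ D.hubs (b + 1) X, y₃ ≠ y ∧
          ∀ w ∈ D.hubs (b + 1) X, w = y ∨ w = y₃ := by
        rw [hyy] at hy ⊢
        simp only [mem_insert, mem_singleton] at hy ⊢
        rcases hy with rfl | rfl
        · exact ⟨y₂, Or.inr rfl, hy12.symm, fun w hw => hw⟩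
        · exact ⟨y₁, Or.inl rfl, hy12, fun w hw => hw.symm⟩
      have hy' : y ∈ D.hubs (b + 1) X' := he ▸ hy
      have hy₃' : y₃ ∈ D.hubs (b + 1) X' := he ▸ hy₃
      obtain ⟨hyHi, v, hv, hvy⟩ := mem_hubs.mp hy
      obtain ⟨-, v', hv', hvy'⟩ := mem_hubs.mp hy'
      obtain ⟨hy₃Hi, u, hu, huy⟩ := mem_hubs.mp hy₃
      obtain ⟨-, u', hu', huy'⟩ := mem_hubs.mp hy₃'
      have hno : ∀ w ∈ D.L (b + 1), s(w, y₃) ≠ s(v', y) ∧ s(w, y₃) ≠ s(y, v) := by
        intro w hw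
        constructor
        · intro h1
          rw [Sym2.eq_iff] at h1
          rcases h1 with ⟨-, h1⟩ | ⟨h1, -⟩
          · exact hy₃y h1
          · exact h.LHi hw (h1 ▸ hyHi)
        · intro h1
          rw [Sym2.eq_iff] at h1
          rcases h1 with ⟨h1, -⟩ | ⟨-, h1⟩
          · exact h.LHi hw (h1 ▸ hyHi)
          · exact hy₃y h1
      refine h.mv hX1 hX1' hne hX2 hX2' hy hy' hy₃Hi hcov (fun w hw => hcov w (he ▸ hw)) hv' hv
        (SimpleGraph.Walk.cons hvy'.1 (SimpleGraph.Walk.cons hvy.1.symm SimpleGraph.Walk.nil))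
        ⟨u, hu, y₃, hy₃Hi, huy, ?_⟩ ⟨u', hu', y₃, hy₃Hi, huy', ?_⟩ ?_ ?_ ?_
      · have := hno u ((h.sm hX1).2.2.1 hu)
        simp [this]
      · have := hno u' ((h.sm hX1').2.2.1 hu')
        simp [this]
      · simp
      · intro f hf
        simp only [SimpleGraph.Walk.edges_cons, SimpleGraph.Walk.edges_nil, List.mem_cons,
          List.not_mem_nil, or_false] at hf
        rcases hf with rfl | rfl
        · exact hvy'.2.2.trans (h.N_mono _)
        · exact hvy.symm.2.2.trans (h.N_mono _)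
      · intro w hw
        simp only [SimpleGraph.Walk.support_cons, SimpleGraph.Walk.support_nil, List.mem_cons,
          List.not_mem_nil, or_false] at hw
        rcases hw with rfl | rfl | rfl
        · exact (mem_L.mp ((h.sm hX1').2.2.1 hv')).trans (h.GN_mono _)
        · exact mem_L.mp hyL
        · exact (mem_L.mp ((h.sm hX1).2.2.1 hv)).trans (h.GN_mono _)
    rw [← card_image_of_injOn hinj]
    have h1 : ((D.CP s (b + 1)).image (D.hubs (b + 1))).card ≤
        56 * (2 * (m * D.N (b + 1)) * (2 * (s + 1) + 1) + 1) * (D.Hi (b + 1)).card := by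
      refine samp_pairs hT (D.Hi (b + 1)) (D.CP s (b + 1)) ?_ ?_ ?_ ?_ (D.hubs (b + 1)) ?_
      · intro X h1 X' h2 hne
        rw [mem_CP] at h1 h2
        rw [Finset.disjoint_left]
        intro x hx hx'
        exact hne (h.sm_disj h1.1 h2.1 hx hx')
      · intro X h1
        rw [mem_CP] at h1
        rw [Finset.disjoint_left]
        intro x hx hx'
        exact h.hubs_not h1.1 hx' hx
      · intro X h1
        rw [mem_CP] at h1
        exact (h.sm h1.1).2.2.2.1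
      · intro X h1
        rw [mem_CP] at h1
        exact (h.sm h1.1).2.2.2.2.2.1
      · intro X h1
        rw [mem_CP] at h1
        exact ⟨fun y hy => (mem_hubs.mp hy).1, h1.2.2.1, fun y hy => (mem_hubs.mp hy).2⟩
    refine h1.trans ?_
    obtain ⟨S, hS⟩ : ∃ S, S = D.G * D.N (b + 1) := ⟨_, rfl⟩
    have hMS : m * D.N (b + 1) ≤ S := by
      rw [hS]
      exact Nat.mul_le_mul_right _ (by have := h.hG; omega)
    rw [β, ← hS]
    rw [← hS] at hS1
    calc 56 * (2 * (m * D.N (b + 1)) * (2 * (s + 1) + 1) + 1) * (D.Hi (b + 1)).card ≤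
        56 * (2 * S * (2 * (s + 1) + 1) + S) * (D.Hi (b + 1)).card := by gcongr
      _ = 56 * (2 * (2 * s + 3) + 1) * (S * (D.Hi (b + 1)).card) := by ring

theorem lgB_few (h : D.Ok m s g₀ q t) (hq : g₀ + s + 1 ≤ q) (b : ℕ) :
    ∃ Bd κ : ℕ, g₀ * Bd ≤ t ∧ s * κ ≤ t ∧
      (D.lgB s b).card ≤ 3 * (GC 3 g₀ 1 * D.β (b + 1)) + 3 * Bd + 3 * κ := by
  obtain ⟨pos, C, hT⟩ := h.top (D.N (b + 1))
  obtain ⟨Bd, h1, h2⟩ := long_few2 g₀ V D.H D.len D.e₀ (D.N b) (D.N (b + 1)) D.F D.G D.γ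
    (m * D.N (b + 1)) pos C (D.T (b + 1)) rfl (D.L (b + 1)) rfl (D.Hi (b + 1)) rfl hT
    (Nat.mul_le_mul_right _ (by have := h.hG; omega)) (h.GN_pos b) h.F1 h.G1 h.hγ (h.N_step b)
    (h.hdir.mono (by omega)) (D.lgB s b) (by
      intro p hp
      rw [mem_lgB, mem_lg, mem_tok] at hp
      exact ⟨hp.1.1.1, hp.1.1.2.1, hp.1.1.2.2, hp.1.2⟩)
  refine ⟨Bd, _, h1.trans h.cardV, ?_, h2⟩
  refine big_comps h.ht (D.lgB s b) Prod.fst fun p hp => ?_
  rw [mem_lgB] at hp
  exact hp.2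

theorem cl_few (h : D.Ok m s g₀ q t) (b : ℕ) :
    ∃ Bd κ : ℕ, g₀ * Bd ≤ t ∧ s * κ ≤ t ∧
      (D.CL s b).card ≤ 3 * (GC 3 g₀ (s + 2) * D.β (b + 1)) + 3 * Bd + 3 * κ := by
  rcases (D.CL s b).eq_empty_or_nonempty with h0 | ⟨X₀, hX₀⟩
  · exact ⟨0, 0, by simp, by simp, by simp [h0]⟩
  obtain ⟨pos, C, hT⟩ := h.top (D.N (b + 1))
  have hne : Nonempty V := by
    rw [mem_CL] at hX₀
    obtain ⟨v, -⟩ := (h.sm hX₀.1).2.1
    exact ⟨v⟩
  have hloc : ∀ X ∈ D.CL s b, ∃ v, v ∈ X := fun X hX => (h.sm (mem_CL.mp hX).1).2.1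
  choose! loc hloc using hloc
  have hS1 := h.GN_pos b
  have hcount : ∀ R : Finset V, ((D.CL s b).filter (fun X => ∃ y ∈ X, y ∈ R)).card ≤ R.card := by
    intro R
    refine meet_card _ ?_ R fun X hX => (mem_filter.mp hX).2
    intro X hX X' hX' x hx hx'
    exact h.sm_disj (mem_CL.mp (mem_filter.mp hX).1).1 (mem_CL.mp (mem_filter.mp hX').1).1 hx hx'
  have key := gstar2 3 g₀ (s + 2) (by norm_num) V (Finset V) (D.T (b + 1)) (D.Γ (b + 1)) pos C
    (m * D.N (b + 1)) (D.G * D.N (b + 1)) hT (Nat.mul_le_mul_right _ (by have := h.hG; omega)) hS1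
    (res_le _ _) (D.L (b + 1)) (D.Hi (b + 1)) (Finset.disjoint_left.mpr fun x hx => h.LHi hx)
    (fun _ _ hab => hab.2.1) ?_ (D.CL s b) loc (fun X => X)
    (fun X => univ.filter (fun f => f ∈ (D.T b).edgeSet ∧ ∃ z ∈ X, z ∈ f)) ?_ ?_ ?_ ?_
  · obtain ⟨Bd, h1, h2⟩ := key
    refine ⟨Bd, _, h1.trans h.cardV, ?_, h2⟩
    refine big_comps h.ht (D.CL s b) loc fun X hX => ?_
    exact (mem_CL.mp hX).2.2.2.2 _ (hloc X hX)
  · intro x hx
    refine le_trans (card_le_card ?_) (mem_L.mp hx)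
    intro y hy
    rw [mem_nb] at hy ⊢
    exact hy.1.1
  · -- the clusters
    intro X hX
    obtain ⟨h1, h2, h3, h4, h5⟩ := mem_CL.mp hX
    have hsm := h.sm h1
    refine ⟨hloc X hX, hsm.2.2.1.trans (h.L_mono b), ?_, ?_, ?_⟩
    · have hsub : univ.filter (fun f => f ∈ (D.T b).edgeSet ∧ ∃ z ∈ X, z ∈ f) ⊆
          X.biUnion (fun z => (nb D.H z).image (fun y => s(z, y))) := by
        intro f hf
        rw [mem_filter] at hf
        obtain ⟨-, hf1, z, hz, hzf⟩ := hf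
        obtain ⟨y, rfl⟩ := hzf
        rw [mem_biUnion]
        exact ⟨z, hz, mem_image_of_mem _ (mem_nb.mpr (T_le b hf1))⟩
      refine (card_le_card hsub).trans (card_biUnion_le.trans ?_)
      refine (sum_le_sum fun z _ => card_image_le).trans (hsm.2.2.2.2.1.trans ?_)
      omega
    · intro x hx
      obtain ⟨w, hw⟩ := hsm.2.2.2.1 _ (hloc X hX) x hx
      refine ⟨w.mapLe (h.T_mono b), ?_, ?_⟩
      · intro f hf
        rw [SimpleGraph.Walk.edges_mapLe_eq_edges] at hf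
        rw [mem_filter]
        refine ⟨mem_univ _, w.edges_subset_edgeSet hf, ?_⟩
        induction f using Sym2.ind with
        | _ a b => exact ⟨a, hw a (w.fst_mem_support_of_mem_edges hf), by simp⟩
      · intro u hu
        rw [SimpleGraph.Walk.support_mapLe_eq_support] at hu
        exact hw u hu
    · intro f hf
      rw [mem_filter] at hf
      obtain ⟨-, hf1, z, hz, hzf⟩ := hf
      obtain ⟨y, rfl⟩ := hzf
      refine ⟨h.T_mono b hf1, ⟨z, hz, by simp⟩, ?_⟩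
      intro x hx
      rw [Sym2.mem_iff] at hx
      rcases hx with rfl | rfl
      · exact Or.inl hz
      · rcases h.clean h1 h2 hz hf1 with h6 | ⟨h6, -⟩
        · exact Or.inl h6
        · exact Or.inr (h4 _ h6)
  · intro z
    refine (le_trans (card_le_card ?_) (hcount {z})).trans ?_
    · intro X hX
      rw [mem_filter] at hX ⊢
      exact ⟨hX.1, z, hX.2, mem_singleton_self z⟩
    · rw [card_singleton]
      exact Nat.mul_pos (by omega) hS1
  · intro f
    refine (le_trans (card_le_card ?_) (hcount (univ.filter (· ∈ f)))).trans ?_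
    · intro X hX
      rw [mem_filter, mem_filter] at hX
      obtain ⟨hX1, -, -, z, hz, hzf⟩ := hX
      rw [mem_filter]
      exact ⟨hX1, z, hz, by rw [mem_filter]; exact ⟨mem_univ _, hzf⟩⟩
    · refine le_trans ?_ (Nat.le_add_left 2 s)
      induction f using Sym2.ind with
      | _ a b =>
        refine (card_le_card ?_).trans (card_le_two (a := a) (b := b))
        intro y hy
        rw [mem_filter, Sym2.mem_iff] at hy
        simpa using hy.2
  · -- three hubs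
    intro A hA hAc hw
    obtain ⟨P, hP⟩ : ∃ P : Finset V, P = A.biUnion (D.hubs b) := ⟨_, rfl⟩
    have hmP : ∀ a, a ∈ P ↔ ∃ X ∈ A, a ∈ D.hubs b X := by
      intro a
      rw [hP, mem_biUnion]
    refine ⟨P, ?_, ?_, ?_⟩
    · intro a ha
      obtain ⟨X, hX, haX⟩ := (hmP a).mp ha
      exact (mem_CL.mp (hA hX)).2.2.2.1 a haX
    swap
    · intro a ha
      obtain ⟨X, hX, haX⟩ := (hmP a).mp ha
      obtain ⟨-, x, hx, hxa⟩ := mem_hubs.mp haX
      refine ⟨X, hX, x, hx, ?_⟩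
      rw [mem_filter]
      exact ⟨mem_univ _, hxa, x, hx, by simp⟩
    by_contra hcon
    have hPne : P.Nonempty := by
      obtain ⟨X, hX⟩ : A.Nonempty := card_pos.mp (by omega)
      obtain ⟨a, ha⟩ := (mem_CL.mp (hA hX)).2.2.1
      exact ⟨a, (hmP a).mpr ⟨X, hX, ha⟩⟩
    obtain ⟨hb, hb1, hb2⟩ := two_cover2 hPne (by omega)
    have hch : ∀ X ∈ A, ∃ c : Bool, hb c ∈ D.hubs b X := by
      intro X hX
      obtain ⟨a, ha⟩ := (mem_CL.mp (hA hX)).2.2.1
      rcases hb2 a ((hmP a).mpr ⟨X, hX, ha⟩) with rfl | rfl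
      · exact ⟨true, ha⟩
      · exact ⟨false, ha⟩
    choose! f hf using hch
    obtain ⟨X, hX, X', hX', hne, he⟩ := Finset.exists_ne_map_eq_of_card_lt_of_maps_to
      (s := A) (t := (univ : Finset Bool)) (f := f) (by rw [hAc]; decide) (fun a _ => mem_univ _)
    obtain ⟨h1, h2, h3, h4, h5⟩ := mem_CL.mp (hA hX)
    obtain ⟨h1', h2', h3', h4', h5'⟩ := mem_CL.mp (hA hX')
    have hcov : ∀ Y ∈ A, ∀ y ∈ D.hubs b Y, y = hb (f X) ∨ y = hb (!(f X)) := by
      intro Y hY y hy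
      have := hb2 y ((hmP y).mpr ⟨Y, hY, hy⟩)
      cases f X
      · simpa [or_comm] using this
      · simpa using this
    obtain ⟨w, hwl⟩ := hw X' hX' X hX
    refine h.mv_live h1 h1' hne h2 h2' (hf X hX) (he ▸ hf X' hX') (h4 _ (hf X hX)) ?_
      (hcov X hX) (hcov X' hX') (hloc X' (hA hX')) (hloc X (hA hX)) w (by omega)
    obtain ⟨Y, hY, hyY⟩ := (hmP _).mp (hb1 (!(f X)))
    exact (mem_hubs.mp hyY).1

end Ok

end Dat

end Pool.Agent.H354_OP
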