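import Pool.Agent.H354_OP.Pk2

/-!
# Levels of threads, second version: the inequality between tokens and pairs
-/

set_option autoImplicit false

namespace Pool.Agent.H354_OP

open Finset
open scoped Classical

set_option linter.unusedSectionVars false

namespace Dat

variable {V : Type} [Fintype V] (D : Dat V)

/-- the components with a token at a hub that is low at the next level -/
noncomputable def RC (b : ℕ) : Finset (Finset V) :=
  (univ.image (cmp (D.Γ b))).filter (fun X => ∃ v ∈ X, ∃ x, v ∈ D.L b ∧ x ∈ D.Hi b ∧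
    x ∈ D.L (b + 1) ∧ (D.T b).Adj v x)

/-- the tokens at hubs of the next level -/
noncomputable def Liv (b : ℕ) : Finset (V × V) :=
  (D.tok b).filter (fun p => p.2 ∈ D.Hi (b + 1))

/-- the tokens at hubs that are low at the next level -/
noncomputable def Ret (b : ℕ) : Finset (V × V) :=
  (D.tok b).filter (fun p => p.2 ∈ D.L (b + 1))

/-- long tokens at small components -/
noncomputable def lgS (s b : ℕ) : Finset (V × V) :=
  (D.lg b).filter (fun p => ¬ s < D.mass (cmp (D.Γ (b + 1)) p.1))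

/-- the pairs that stay -/
noncomputable def Ps (s b : ℕ) : Finset (Finset V × V) :=
  (D.Pr s b).filter (fun p => (∀ y ∈ p.1, y ∉ D.Q b) ∧ (∀ y ∈ D.hubs b p.1, y ∈ D.Hi (b + 1)) ∧
    ∃ v ∈ p.1, D.mass (cmp (D.Γ (b + 1)) v) ≤ s)

variable {D}

theorem mem_Ps {s b : ℕ} {p : Finset V × V} : p ∈ D.Ps s b ↔ p ∈ D.Pr s b ∧
    (∀ y ∈ p.1, y ∉ D.Q b) ∧ (∀ y ∈ D.hubs b p.1, y ∈ D.Hi (b + 1)) ∧
    ∃ v ∈ p.1, D.mass (cmp (D.Γ (b + 1)) v) ≤ s := by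
  simp only [Ps, mem_filter]

theorem mem_lgS {s b : ℕ} {p : V × V} :
    p ∈ D.lgS s b ↔ p ∈ D.lg b ∧ ¬ s < D.mass (cmp (D.Γ (b + 1)) p.1) := by
  simp [lgS]

theorem mem_Liv {b : ℕ} {p : V × V} : p ∈ D.Liv b ↔ p ∈ D.tok b ∧ p.2 ∈ D.Hi (b + 1) := by
  simp [Liv]

theorem mem_Ret {b : ℕ} {p : V × V} : p ∈ D.Ret b ↔ p ∈ D.tok b ∧ p.2 ∈ D.L (b + 1) := by
  simp [Ret]

theorem mem_RC {b : ℕ} {X : Finset V} : X ∈ D.RC b ↔ X ∈ univ.image (cmp (D.Γ b)) ∧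
    ∃ v ∈ X, ∃ x, v ∈ D.L b ∧ x ∈ D.Hi b ∧ x ∈ D.L (b + 1) ∧ (D.T b).Adj v x := by
  simp only [RC, mem_filter]

theorem pairs_sum {b : ℕ} (Θ : Finset (Finset V × V)) (𝒜 : Finset (Finset V))
    (h1 : ∀ p ∈ Θ, p.1 ∈ 𝒜) (h2 : ∀ p ∈ Θ, p.2 ∈ D.hubs b p.1) :
    Θ.card ≤ ∑ X ∈ 𝒜, (D.hubs b X).card := by
  rw [← card_sigma]
  refine card_le_card_of_injOn (fun p => (⟨p.1, p.2⟩ : (_ : Finset V) × V)) ?_ ?_
  · intro p hp
    simp only [mem_coe, mem_sigma]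
    exact ⟨h1 p hp, h2 p hp⟩
  · intro p _ p' _ he
    simp only [Sigma.mk.injEq, heq_eq_eq] at he
    exact Prod.ext he.1 he.2

theorem pairs_card {b k : ℕ} (Θ : Finset (Finset V × V)) (𝒜 : Finset (Finset V))
    (h1 : ∀ p ∈ Θ, p.1 ∈ 𝒜) (h2 : ∀ p ∈ Θ, p.2 ∈ D.hubs b p.1)
    (h3 : ∀ X ∈ 𝒜, (D.hubs b X).card ≤ k) : Θ.card ≤ k * 𝒜.card := by
  refine (pairs_sum Θ 𝒜 h1 h2).trans ((sum_le_sum h3).trans ?_)
  rw [sum_const, smul_eq_mul, mul_comm]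

theorem hubs_le_mass {b : ℕ} (X : Finset V) : (D.hubs b X).card ≤ D.mass X := by
  refine le_trans (card_le_card ?_) (card_biUnion_le (s := X) (t := nb D.H))
  intro y hy
  obtain ⟨-, v, hv, hvy⟩ := mem_hubs.mp hy
  rw [mem_biUnion]
  exact ⟨v, hv, mem_nb.mpr (T_le b hvy)⟩

namespace Ok

variable {m s g₀ q t : ℕ}

theorem pr_le (h : D.Ok m s g₀ q t) (b : ℕ) :
    (D.Pr s b).card ≤ s * (D.hub3 s b).card + 2 * (D.Q b).card + (D.RC b).card +
      (D.CP s b).card + 2 * (D.CL s b).card + (D.Ps s b).card := by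
  obtain ⟨P3, hP3⟩ : ∃ P3 : Finset (Finset V × V), P3 = (D.Pr s b).filter (fun p =>
    3 ≤ (D.hubs b p.1).card) := ⟨_, rfl⟩
  obtain ⟨Pd, hPd⟩ : ∃ Pd : Finset (Finset V × V), Pd = (D.Pr s b).filter (fun p =>
    (D.hubs b p.1).card ≤ 2 ∧ ∃ y ∈ p.1, y ∈ D.Q b) := ⟨_, rfl⟩
  obtain ⟨Pt, hPt⟩ : ∃ Pt : Finset (Finset V × V), Pt = (D.Pr s b).filter (fun p =>
    (D.hubs b p.1).card ≤ 2 ∧ (∀ y ∈ p.1, y ∉ D.Q b) ∧ ∃ y ∈ D.hubs b p.1, y ∈ D.L (b + 1)) :=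
    ⟨_, rfl⟩
  obtain ⟨Pb, hPb⟩ : ∃ Pb : Finset (Finset V × V), Pb = (D.Pr s b).filter (fun p =>
    (D.hubs b p.1).card ≤ 2 ∧ (∀ y ∈ p.1, y ∉ D.Q b) ∧ (∀ y ∈ D.hubs b p.1, y ∈ D.Hi (b + 1)) ∧
      ∀ v ∈ p.1, s < D.mass (cmp (D.Γ (b + 1)) v)) := ⟨_, rfl⟩
  have hcover : (D.Pr s b).card ≤ P3.card + Pd.card + Pt.card + Pb.card + (D.Ps s b).card := by
    have hsub : D.Pr s b ⊆ P3 ∪ Pd ∪ Pt ∪ Pb ∪ D.Ps s b := by
      intro p hp
      simp only [mem_union, hP3, hPd, hPt, hPb, mem_Ps, mem_filter, hp, true_and]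
      by_cases h3 : 3 ≤ (D.hubs b p.1).card
      · exact Or.inl (Or.inl (Or.inl (Or.inl h3)))
      have h2 : (D.hubs b p.1).card ≤ 2 := by omega
      by_cases hd : ∃ y ∈ p.1, y ∈ D.Q b
      · exact Or.inl (Or.inl (Or.inl (Or.inr ⟨h2, hd⟩)))
      push Not at hd
      by_cases hr : ∃ y ∈ D.hubs b p.1, y ∈ D.L (b + 1)
      · exact Or.inl (Or.inl (Or.inr ⟨h2, hd, hr⟩))
      have hlive : ∀ y ∈ D.hubs b p.1, y ∈ D.Hi (b + 1) := by
        intro y hy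
        obtain ⟨hyHi, v, hv, hvy⟩ := mem_hubs.mp hy
        rcases h.clean (mem_Pr.mp hp).1 hd hv hvy with h4 | ⟨-, h4 | h4⟩
        · exact absurd h4 (h.hubs_not (mem_Pr.mp hp).1 hyHi)
        · exact absurd ⟨y, hy, h4⟩ hr
        · exact h4
      by_cases hb : ∀ v ∈ p.1, s < D.mass (cmp (D.Γ (b + 1)) v)
      · exact Or.inl (Or.inr ⟨h2, hd, hlive, hb⟩)
      · push Not at hb
        exact Or.inr ⟨hd, hlive, hb⟩
    refine (card_le_card hsub).trans ?_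
    have a1 := card_union_le P3 Pd
    have a2 := card_union_le (P3 ∪ Pd) Pt
    have a3 := card_union_le (P3 ∪ Pd ∪ Pt) Pb
    have a4 := card_union_le (P3 ∪ Pd ∪ Pt ∪ Pb) (D.Ps s b)
    omega
  have h3 : P3.card ≤ s * (D.hub3 s b).card := by
    refine pairs_card (D := D) (b := b) _ _ ?_ ?_ ?_
    · intro p hp
      rw [hP3, mem_filter, mem_Pr] at hp
      exact mem_hub3.mpr ⟨hp.1.1, hp.2⟩
    · intro p hp
      rw [hP3, mem_filter, mem_Pr] at hp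
      exact hp.1.2
    · intro X hX
      exact (hubs_le_mass X).trans (h.sm (mem_hub3.mp hX).1).2.2.2.2.1
  have hd : Pd.card ≤ 2 * (D.Q b).card := by
    have h1 : Pd.card ≤ 2 * ((D.Sm s b).filter (fun X => (D.hubs b X).card ≤ 2 ∧
        ∃ y ∈ X, y ∈ D.Q b)).card := by
      refine pairs_card (D := D) (b := b) _ _ ?_ ?_ ?_
      · intro p hp
        rw [hPd, mem_filter, mem_Pr] at hp
        rw [mem_filter]
        exact ⟨hp.1.1, hp.2⟩
      · intro p hp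
        rw [hPd, mem_filter, mem_Pr] at hp
        exact hp.1.2
      · intro X hX
        exact (mem_filter.mp hX).2.1
    refine h1.trans (Nat.mul_le_mul_left _ (meet_card _ ?_ _ ?_))
    · intro X hX X' hX' x hx hx'
      exact h.sm_disj (mem_filter.mp hX).1 (mem_filter.mp hX').1 hx hx'
    · intro X hX
      exact (mem_filter.mp hX).2.2
  have ht : Pt.card ≤ (D.RC b).card + (D.CP s b).card := by
    obtain ⟨𝒜, h𝒜⟩ : ∃ 𝒜 : Finset (Finset V), 𝒜 = (D.Sm s b).filter (fun X =>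
      (D.hubs b X).card ≤ 2 ∧ (∀ y ∈ X, y ∉ D.Q b) ∧ ∃ y ∈ D.hubs b X, y ∈ D.L (b + 1)) :=
      ⟨_, rfl⟩
    have h1 : Pt.card ≤ ∑ X ∈ 𝒜, (D.hubs b X).card := by
      refine pairs_sum _ _ ?_ ?_
      · intro p hp
        rw [hPt, mem_filter, mem_Pr] at hp
        rw [h𝒜, mem_filter]
        exact ⟨hp.1.1, hp.2⟩
      · intro p hp
        rw [hPt, mem_filter, mem_Pr] at hp
        exact hp.1.2
    have h2 : ∑ X ∈ 𝒜, (D.hubs b X).card ≤
        ∑ X ∈ 𝒜, (1 + if (D.hubs b X).card = 2 then 1 else 0) := by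
      refine sum_le_sum fun X hX => ?_
      rw [h𝒜, mem_filter] at hX
      split_ifs with h5 <;> omega
    rw [sum_add_distrib, sum_const, smul_eq_mul, mul_one, ← sum_filter, sum_const, smul_eq_mul,
      mul_one] at h2
    refine h1.trans (h2.trans (add_le_add (card_le_card ?_) (card_le_card ?_)))
    · intro X hX
      rw [h𝒜, mem_filter] at hX
      obtain ⟨h5, -, -, y, hy, hyL⟩ := hX
      obtain ⟨hyHi, v, hv, hvy⟩ := mem_hubs.mp hy
      exact mem_RC.mpr ⟨(h.sm h5).1, v, hv, y, (h.sm h5).2.2.1 hv, hyHi, hyL, hvy⟩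
    · intro X hX
      rw [mem_filter, h𝒜, mem_filter] at hX
      obtain ⟨⟨h5, -, h6, h7⟩, h8⟩ := hX
      exact mem_CP.mpr ⟨h5, h6, h8, h7⟩
  have hb : Pb.card ≤ 2 * (D.CL s b).card := by
    have h1 : Pb.card ≤ 2 * ((D.CL s b).filter (fun X => (D.hubs b X).card ≤ 2)).card := by
      refine pairs_card (D := D) (b := b) _ _ ?_ ?_ ?_
      · intro p hp
        rw [hPb, mem_filter, mem_Pr] at hp
        rw [mem_filter, mem_CL]
        exact ⟨⟨hp.1.1, hp.2.2.1, ⟨_, hp.1.2⟩, hp.2.2.2.1, hp.2.2.2.2⟩, hp.2.1⟩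
      · intro p hp
        rw [hPb, mem_filter, mem_Pr] at hp
        exact hp.1.2
      · intro X hX
        exact (mem_filter.mp hX).2
    exact h1.trans (Nat.mul_le_mul_left _ (card_filter_le _ _))
  omega

theorem tok_le (h : D.Ok m s g₀ q t) (b : ℕ) :
    (D.tok (b + 1)).card ≤ (D.Liv b).card + D.σ b + 168 * D.β b + (D.lgB s b).card +
      (D.lgS s b).card := by
  obtain ⟨Kz, hKz⟩ : ∃ Kz : Finset (V × V), Kz = univ.filter (fun p => p.1 ∈ D.Z b ∧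
    D.H.Adj p.1 p.2) := ⟨_, rfl⟩
  obtain ⟨Kh, hKh⟩ : ∃ Kh : Finset (V × V), Kh = univ.filter (fun p => p.1 ∈ D.Hi b ∧
    p.2 ∈ D.Hi b ∧ (D.T b).Adj p.1 p.2) := ⟨_, rfl⟩
  have hsub : D.tok (b + 1) ⊆ D.Liv b ∪ Kz ∪ Kh ∪ D.lgB s b ∪ D.lgS s b := by
    intro p hp
    simp only [mem_union]
    by_cases hl : D.N b < D.len s(p.1, p.2)
    · by_cases hs : s < D.mass (cmp (D.Γ (b + 1)) p.1)
      · exact Or.inl (Or.inr (mem_lgB.mpr ⟨mem_lg.mpr ⟨hp, hl⟩, hs⟩))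
      · exact Or.inr (mem_lgS.mpr ⟨mem_lg.mpr ⟨hp, hl⟩, hs⟩)
    · obtain ⟨h1, h2, h3⟩ := mem_tok.mp hp
      have h4 : (D.T b).Adj p.1 p.2 := ⟨h3.1, h3.2.1, not_lt.mp hl⟩
      rcases D.tri b p.1 with h5 | h5 | h5
      · exact Or.inl (Or.inl (Or.inl (Or.inl (mem_Liv.mpr
          ⟨mem_tok.mpr ⟨h5, h.Hi_anti b h2, h4⟩, h2⟩))))
      · refine Or.inl (Or.inl (Or.inl (Or.inr ?_)))
        rw [hKz, mem_filter]
        exact ⟨mem_univ _, h5, h3.1⟩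
      · refine Or.inl (Or.inl (Or.inr ?_))
        rw [hKh, mem_filter]
        exact ⟨mem_univ _, h5, h.Hi_anti b h2, h4⟩
  have hz : Kz.card ≤ D.σ b := by
    rw [σ, mass, ← card_sigma]
    refine card_le_card_of_injOn (fun p => (⟨p.1, p.2⟩ : (_ : V) × V)) ?_ ?_
    · intro p hp
      rw [mem_coe, hKz, mem_filter] at hp
      simp only [mem_coe, mem_sigma]
      exact ⟨hp.2.1, mem_nb.mpr hp.2.2⟩
    · intro p _ p' _ he
      simp only [Sigma.mk.injEq, heq_eq_eq] at he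
      exact Prod.ext he.1 he.2
  have hh : Kh.card ≤ 168 * D.β b := by
    rw [hKh]
    exact h.hh_le b
  have a1 := card_union_le (D.Liv b) Kz
  have a2 := card_union_le (D.Liv b ∪ Kz) Kh
  have a3 := card_union_le (D.Liv b ∪ Kz ∪ Kh) (D.lgB s b)
  have a4 := card_union_le (D.Liv b ∪ Kz ∪ Kh ∪ D.lgB s b) (D.lgS s b)
  have a5 := card_le_card hsub
  omega

/-- a long token and another token of the same vertex, joined by low vertices -/
theorem dirlong (h : D.Ok m s g₀ q t) {b : ℕ} {v v' x : V} (hv : v ∈ D.L (b + 1))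
    (hx : x ∈ D.Hi (b + 1)) (hvx : (D.T (b + 1)).Adj v x) (hlen : D.N b < D.len s(v, x))
    (hv'x : (D.T (b + 1)).Adj v' x) (hne : v ≠ v') (W : (D.Γ (b + 1)).Walk v v')
    (hW : W.length + 1 ≤ q) : False := by
  have hWe : ∀ f ∈ W.edges, f ∈ (D.T (b + 1)).edgeSet ∧ ∀ x ∈ f, x ∈ D.L (b + 1) :=
    fun f hf => res_edge (W.edges_subset_edgeSet hf)
  have hstep := h.N_step b _ hlen
  have hFG : D.F ≤ D.F * D.G := Nat.le_mul_of_pos_right _ h.G1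
  have hNK : D.N (b + 1) ≤ D.F * D.G * D.len s(v, x) :=
    hstep.trans (Nat.mul_le_mul_right _ hFG)
  refine h.hdir v x hvx.1 ((W.mapLe ((res_le _ _).trans (T_le (b + 1)))).append
    (SimpleGraph.Walk.cons hv'x.1 SimpleGraph.Walk.nil)) ?_ ?_ ?_ ?_
  · rw [SimpleGraph.Walk.edges_append, SimpleGraph.Walk.edges_mapLe_eq_edges, List.mem_append]
    simp only [SimpleGraph.Walk.edges_cons, SimpleGraph.Walk.edges_nil, List.mem_singleton]
    rintro (h1 | h1)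
    · exact h.LHi ((hWe _ h1).2 x (by simp)) hx
    · rw [Sym2.eq_iff] at h1
      rcases h1 with ⟨h1, -⟩ | ⟨h1, -⟩
      · exact hne h1
      · exact hvx.1.ne h1
  · rw [SimpleGraph.Walk.length_append, SimpleGraph.Walk.length_mapLe]
    simp only [SimpleGraph.Walk.length_cons, SimpleGraph.Walk.length_nil]
    exact hW
  · intro f hf
    rw [SimpleGraph.Walk.edges_append, SimpleGraph.Walk.edges_mapLe_eq_edges,
      List.mem_append] at hf
    simp only [SimpleGraph.Walk.edges_cons, SimpleGraph.Walk.edges_nil,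
      List.mem_singleton] at hf
    refine le_trans ?_ hNK
    rcases hf with h1 | h1
    · exact TN_len f (hWe f h1).1
    · rw [h1]
      exact hv'x.2.2
  · intro y hy hyv hyx
    rw [SimpleGraph.Walk.mem_support_append_iff, SimpleGraph.Walk.support_mapLe_eq_support] at hy
    simp only [SimpleGraph.Walk.support_cons, SimpleGraph.Walk.support_nil, List.mem_cons,
      List.not_mem_nil, or_false] at hy
    have hyL : y ∈ D.L (b + 1) := by
      rcases hy with h1 | h1 | h1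
      · exact walk_support_res W hv y h1
      · rw [h1]
        exact walk_support_res W hv v' W.end_mem_support
      · exact absurd h1 hyx
    refine (mem_L.mp hyL).trans ?_
    calc D.G * D.N (b + 1) ≤ D.G * (D.F * D.len s(v, x)) := Nat.mul_le_mul_left _ hstep
      _ = D.F * D.G * D.len s(v, x) := by ring

theorem stay_le (h : D.Ok m s g₀ q t) (hq : g₀ + s + 1 ≤ q) (b : ℕ) :
    (D.Ps s b).card + (D.lgS s b).card ≤ (D.Pr s (b + 1)).card + s * (D.hub3 s (b + 1)).card := by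
  have hch : ∀ p : Finset V × V, ∃ v, p ∈ D.Ps s b → v ∈ p.1 ∧ (D.T b).Adj v p.2 := by
    intro p
    by_cases hp : p ∈ D.Ps s b
    · obtain ⟨-, v, hv, hvx⟩ := mem_hubs.mp (mem_Pr.mp (mem_Ps.mp hp).1).2
      exact ⟨v, fun _ => ⟨hv, hvx⟩⟩
    · exact ⟨p.2, fun h => absurd h hp⟩
  choose rep hrep using hch
  obtain ⟨Θ, hΘ⟩ : ∃ Θ : Finset (V × V), Θ = (D.Ps s b).image (fun p => (rep p, p.2)) ∪
    D.lgS s b := ⟨_, rfl⟩
  have hinj : Set.InjOn (fun p : Finset V × V => (rep p, p.2))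
      (D.Ps s b : Set (Finset V × V)) := by
    intro p hp p' hp' he
    rw [mem_coe] at hp hp'
    simp only [Prod.mk.injEq] at he
    refine Prod.ext ?_ he.2
    refine h.sm_disj (mem_Pr.mp (mem_Ps.mp hp).1).1 (mem_Pr.mp (mem_Ps.mp hp').1).1 (hrep p hp).1 ?_
    rw [he.1]
    exact (hrep p' hp').1
  have hcard : Θ.card = (D.Ps s b).card + (D.lgS s b).card := by
    rw [hΘ, card_union_of_disjoint, card_image_of_injOn hinj]
    rw [Finset.disjoint_left]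
    intro θ hθ hθ'
    rw [mem_image] at hθ
    obtain ⟨p, hp, rfl⟩ := hθ
    rw [mem_lgS, mem_lg] at hθ'
    have h1 : D.len s(rep p, p.2) ≤ D.N b := (hrep p hp).2.2.2
    have h2 := hθ'.1.2
    simp only at h2
    omega
  have hΘ1 : ∀ θ ∈ Θ, θ.1 ∈ D.L (b + 1) ∧ θ.2 ∈ D.Hi (b + 1) ∧ (D.T (b + 1)).Adj θ.1 θ.2 ∧
      D.mass (cmp (D.Γ (b + 1)) θ.1) ≤ s := by
    intro θ hθ
    rw [hΘ, mem_union, mem_image] at hθ
    rcases hθ with ⟨p, hp, rfl⟩ | hθ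
    · obtain ⟨h1, h2, h3, v, hv, hvm⟩ := mem_Ps.mp hp
      obtain ⟨h4, h5⟩ := mem_Pr.mp h1
      obtain ⟨h6, h7⟩ := hrep p hp
      refine ⟨h.L_mono b ((h.sm h4).2.2.1 h6), h3 _ h5, h.T_mono b h7, ?_⟩
      simp only
      have h8 : rep p ∈ cmp (D.Γ (b + 1)) v := by
        obtain ⟨⟨v₀, -, hv₀⟩, -⟩ := mem_Sm.mp h4
        rw [hv₀, mem_cmp] at h6 hv
        rw [mem_cmp]
        exact (hv.symm.trans h6).mono (h.Γ_mono b)
      rw [cmp_eq h8]
      exact hvm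
    · rw [mem_lgS, mem_lg, mem_tok] at hθ
      exact ⟨hθ.1.1.1, hθ.1.1.2.1, hθ.1.1.2.2, not_lt.mp hθ.2⟩
  obtain ⟨Θ₃, hΘ₃⟩ : ∃ Θ₃ : Finset (V × V), Θ₃ = Θ.filter (fun θ =>
    cmp (D.Γ (b + 1)) θ.1 ∈ D.hub3 s (b + 1)) := ⟨_, rfl⟩
  obtain ⟨Θ₂, hΘ₂⟩ : ∃ Θ₂ : Finset (V × V), Θ₂ = Θ.filter (fun θ =>
    ¬ cmp (D.Γ (b + 1)) θ.1 ∈ D.hub3 s (b + 1)) := ⟨_, rfl⟩
  have hsplit : Θ₃.card + Θ₂.card = Θ.card := by
    rw [hΘ₃, hΘ₂]
    exact card_filter_add_card_filter_not _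
  have h3 : Θ₃.card ≤ s * (D.hub3 s (b + 1)).card := by
    refine fiberG (H := D.H) (Γ := D.Γ (b + 1)) Θ₃ _ (fun p => cmp (D.Γ (b + 1)) p.1)
      (fun p hp => ?_) (fun p hp => ?_) (fun p _ p' _ h => h)
    · rw [hΘ₃, mem_filter] at hp
      exact hp.2
    · rw [hΘ₃, mem_filter] at hp
      obtain ⟨-, -, h1, h2⟩ := hΘ1 p hp.1
      exact ⟨h1.1, h2⟩
  have hSm : ∀ θ ∈ Θ, cmp (D.Γ (b + 1)) θ.1 ∈ D.Sm s (b + 1) := by
    intro θ hθ
    obtain ⟨h1, -, -, h2⟩ := hΘ1 θ hθ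
    exact mem_Sm.mpr ⟨⟨θ.1, h1, rfl⟩, h2⟩
  have hwalk : ∀ θ ∈ Θ, ∀ θ' ∈ Θ, cmp (D.Γ (b + 1)) θ.1 = cmp (D.Γ (b + 1)) θ'.1 →
      ∃ W : (D.Γ (b + 1)).Walk θ.1 θ'.1, W.length ≤ s := by
    intro θ hθ θ' hθ' he
    have h1 : θ'.1 ∈ cmp (D.Γ (b + 1)) θ.1 := by rw [he]; exact self_mem_cmp _ _
    obtain ⟨W, hW, -⟩ := conn_walk (le_refl (D.Γ (b + 1))) (cmp_conn (D.Γ (b + 1)) θ.1)
      (self_mem_cmp _ _) h1
    exact ⟨W, hW.trans (h.sm (hSm θ hθ)).2.2.2.2.2.1⟩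
  have h2 : Θ₂.card ≤ (D.Pr s (b + 1)).card := by
    refine card_le_card_of_injOn (fun θ => (cmp (D.Γ (b + 1)) θ.1, θ.2)) ?_ ?_
    · intro θ hθ
      rw [mem_coe, hΘ₂, mem_filter] at hθ
      obtain ⟨h1, h4, h5, h6⟩ := hΘ1 θ hθ.1
      rw [mem_coe, mem_Pr]
      exact ⟨hSm θ hθ.1, mem_hubs.mpr ⟨h4, θ.1, self_mem_cmp _ _, h5⟩⟩
    · intro θ hθ θ' hθ' he
      rw [mem_coe, hΘ₂, mem_filter] at hθ hθ'
      simp only [Prod.mk.injEq] at he
      obtain ⟨he1, he2⟩ := he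
      by_contra hne
      have hne1 : θ.1 ≠ θ'.1 := fun h1 => hne (Prod.ext h1 he2)
      obtain ⟨k1, k2, k3, k4⟩ := hΘ1 θ hθ.1
      obtain ⟨k1', k2', k3', k4'⟩ := hΘ1 θ' hθ'.1
      -- a long token
      have hlong : ∀ θ ∈ Θ, ∀ θ' ∈ Θ, cmp (D.Γ (b + 1)) θ.1 = cmp (D.Γ (b + 1)) θ'.1 →
          θ.2 = θ'.2 → θ.1 ≠ θ'.1 → θ ∈ D.lgS s b → False := by
        intro θ hθ θ' hθ' he1 he2 hne1 hl
        obtain ⟨W, hW⟩ := hwalk θ hθ θ' hθ' he1
        obtain ⟨k1, k2, k3, k4⟩ := hΘ1 θ hθ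
        obtain ⟨k1', k2', k3', k4'⟩ := hΘ1 θ' hθ'
        rw [mem_lgS, mem_lg] at hl
        exact h.dirlong k1 k2 k3 hl.1.2 (by rw [he2]; exact k3') hne1 W (by omega)
      have h5 := hθ.1
      have h5' := hθ'.1
      rw [hΘ, mem_union] at h5 h5'
      rcases h5 with h5 | h5
      swap
      · exact hlong θ hθ.1 θ' hθ'.1 he1 he2 hne1 h5
      rcases h5' with h5' | h5'
      swap
      · exact hlong θ' hθ'.1 θ hθ.1 he1.symm he2.symm hne1.symm h5'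
      rw [mem_image] at h5 h5'
      obtain ⟨p, hp, rfl⟩ := h5
      obtain ⟨p', hp', rfl⟩ := h5'
      simp only at he1 he2 hne1 k1 k2 k3 k4 k1' k2' k3' k4'
      have hpp : p.1 ≠ p'.1 := by
        intro h6
        have : p = p' := Prod.ext h6 he2
        exact hne1 (by rw [this])
      obtain ⟨p1, p2, p3, -⟩ := mem_Ps.mp hp
      obtain ⟨p1', p2', p3', -⟩ := mem_Ps.mp hp'
      obtain ⟨p4, p5⟩ := mem_Pr.mp p1
      obtain ⟨p4', p5'⟩ := mem_Pr.mp p1'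
      obtain ⟨Y, hY⟩ : ∃ Y, Y = cmp (D.Γ (b + 1)) (rep p) := ⟨_, rfl⟩
      have hY2 : (D.hubs (b + 1) Y).card ≤ 2 := by
        have h7 := hθ.2
        simp only [mem_hub3, not_and] at h7
        have h8 := h7 (hSm _ hθ.1)
        rw [hY]
        omega
      have hsubY : ∀ p ∈ D.Ps s b, cmp (D.Γ (b + 1)) (rep p) = Y → ∀ y ∈ D.hubs b p.1,
          y ∈ D.hubs (b + 1) Y := by
        intro p hp hpY y hy
        obtain ⟨p1, p2, p3, -⟩ := mem_Ps.mp hp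
        obtain ⟨-, v, hv, hvy⟩ := mem_hubs.mp hy
        refine mem_hubs.mpr ⟨p3 y hy, v, ?_, h.T_mono b hvy⟩
        rw [← hpY, mem_cmp]
        obtain ⟨⟨v₀, -, hv₀⟩, -⟩ := mem_Sm.mp (mem_Pr.mp p1).1
        have h6 := (hrep p hp).1
        rw [hv₀, mem_cmp] at h6 hv
        exact (h6.symm.trans hv).mono (h.Γ_mono b)
      have hxY : p.2 ∈ D.hubs (b + 1) Y := hsubY p hp hY.symm _ p5
      obtain ⟨hb, hb1, hb2⟩ := two_cover2 ⟨_, hxY⟩ hY2
      obtain ⟨c, hc⟩ : ∃ c, p.2 = hb c := by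
        rcases hb2 _ hxY with h6 | h6
        · exact ⟨true, h6⟩
        · exact ⟨false, h6⟩
      have hcov : ∀ y ∈ D.hubs (b + 1) Y, y = p.2 ∨ y = hb (!c) := by
        intro y hy
        have := hb2 y hy
        rw [hc]
        cases c
        · simpa [or_comm] using this
        · simpa using this
      obtain ⟨W, hW⟩ := hwalk _ hθ'.1 _ hθ.1 he1.symm
      exact h.mv_live p4 p4' hpp p2 p2' p5 (he2 ▸ p5') (p3 _ p5)
        (h.Hi_anti b (mem_hubs.mp (hb1 (!c))).1)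
        (fun y hy => hcov y (hsubY p hp hY.symm y hy))
        (fun y hy => hcov y (hsubY p' hp' (by rw [hY, he1]) y hy))
        (hrep p' hp').1 (hrep p hp).1 W (by omega)
  omega

/-- the inequality between tokens and pairs -/
theorem token_ineq (h : D.Ok m s g₀ q t) (hq : g₀ + s + 1 ≤ q) (b : ℕ) :
    (D.Pr s b).card + (D.tok (b + 1)).card ≤ (D.RC b).card + (D.Liv b).card +
      (D.Pr s (b + 1)).card + (s * (D.hub3 s b).card + s * (D.hub3 s (b + 1)).card +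
      2 * (D.Q b).card + (D.CP s b).card + 2 * (D.CL s b).card + D.σ b + 168 * D.β b +
      (D.lgB s b).card) := by
  have h1 := h.pr_le b
  have h2 := h.tok_le (s := s) b
  have h3 := h.stay_le hq b
  omega

end Ok

end Dat

end Pool.Agent.H354_OP
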