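import Pool.Agent.H354_OP.Pk5
import Pool.Agent.H354_OP.Dtp
import Pool.Agent.H354_OP.Mv2

/-!
# Levels of threads, third version: the forest of the next level, with
cycles whose length depends on the drawing only
-/

set_option autoImplicit false

namespace Pool.Agent.H354_OP

open Finset
open scoped Classical

set_option linter.unusedSectionVars false

namespace Dat

variable {V : Type} [Fintype V] {D : Dat V}

namespace Ok

variable {m s g₀ q t : ℕ}

theorem forest_step2 (h : D.Ok m s g₀ q t) {c r : ℕ} (hrq : 8 * r + 1 ≤ q) (b : ℕ)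
    (hr : (2 * (2 * c)) ^ r * (2 * (2 * c) * (56 * (2 * (m * D.N (b + 1)) * (2 * (2 * r) + 1) + 1)))
      < (2 * (2 * c) + 1) ^ r) (Φ₀ : SimpleGraph V) (hΦ₀ : Φ₀ ≤ D.Γ b)
    (hΦ₀a : Φ₀.IsAcyclic) : ∃ (Φ : SimpleGraph V) (x : ℕ), Φ ≤ D.Γ (b + 1) ∧ Φ.IsAcyclic ∧
      2 * c * x ≤ t ∧ ∑ v, (nb (D.Γ (b + 1)) v).card + ∑ v, (nb Φ₀ v).card + 2 * (D.RC b).card ≤
        ∑ v, (nb Φ v).card + x + ∑ v, (nb (D.Γ b) v).card + 2 * (D.Ret b).card + 2 * D.σ b +
          168 * D.β b := by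
  have hcard := h.cardV
  -- representatives
  obtain ⟨R, hR1, hR2, hR3, hR4⟩ : ∃ R : Finset (V × V), R ⊆ D.Ret b ∧ R.card = (D.RC b).card ∧
      (∀ p ∈ R, cmp (D.Γ b) p.1 ⊆ D.L b) ∧
      ∀ p ∈ R, ∀ p' ∈ R, p'.1 ∈ cmp (D.Γ b) p.1 → p' = p := by
    rcases (D.RC b).eq_empty_or_nonempty with h0 | ⟨X₀, hX₀⟩
    · exact ⟨∅, by simp, by simp [h0], by simp, by simp⟩
    obtain ⟨-, v₀, -, -⟩ := mem_RC.mp hX₀
    have hne : Nonempty (V × V) := ⟨(v₀, v₀)⟩
    have hch : ∀ X ∈ D.RC b, ∃ p : V × V, p.1 ∈ X ∧ p ∈ D.Ret b := by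
      intro X hX
      obtain ⟨-, v, hv, x, h1, h2, h3, h4⟩ := mem_RC.mp hX
      exact ⟨(v, x), hv, mem_Ret.mpr ⟨mem_tok.mpr ⟨h1, h2, h4⟩, h3⟩⟩
    choose! rep hrep1 hrep2 using hch
    have hX : ∀ X ∈ D.RC b, cmp (D.Γ b) (rep X).1 = X := by
      intro X hX
      have h1 := (mem_RC.mp hX).1
      rw [mem_image] at h1
      obtain ⟨v, -, hv⟩ := h1
      have h2 := hrep1 X hX
      rw [← hv] at h2 ⊢
      exact cmp_eq h2
    have hinj : Set.InjOn rep (D.RC b : Set (Finset V)) := by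
      intro X hX1 X' hX2 he
      rw [mem_coe] at hX1 hX2
      rw [← hX X hX1, ← hX X' hX2, he]
    refine ⟨(D.RC b).image rep, ?_, card_image_of_injOn hinj, ?_, ?_⟩
    · intro p hp
      rw [mem_image] at hp
      obtain ⟨X, hX1, rfl⟩ := hp
      exact hrep2 X hX1
    · intro p hp
      rw [mem_image] at hp
      obtain ⟨X, hX1, rfl⟩ := hp
      exact cmp_sub (mem_tok.mp (mem_Ret.mp (hrep2 X hX1)).1).1
    · intro p hp p' hp' hpp
      rw [mem_image] at hp hp'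
      obtain ⟨X, hX1, rfl⟩ := hp
      obtain ⟨X', hX1', rfl⟩ := hp'
      have h1 := cmp_eq hpp
      rw [hX X hX1, hX X' hX1'] at h1
      rw [h1]
  have hRtok : ∀ p ∈ R, p.1 ∈ D.L b ∧ p.2 ∈ D.Hi b ∧ (D.T b).Adj p.1 p.2 ∧ p.2 ∈ D.L (b + 1) := by
    intro p hp
    have h1 := mem_Ret.mp (hR1 hp)
    have h2 := mem_tok.mp h1.1
    exact ⟨h2.1, h2.2.1, h2.2.2, h1.2⟩
  obtain ⟨U, hU⟩ : ∃ U : SimpleGraph V, ∀ a c, U.Adj a c ↔ (a, c) ∈ R ∨ (c, a) ∈ R := by
    refine ⟨⟨fun a c => (a, c) ∈ R ∨ (c, a) ∈ R, ⟨fun a c h => h.symm⟩, ⟨fun a h => ?_⟩⟩,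
      fun a c => Iff.rfl⟩
    rcases h with h | h
    · exact (hRtok _ h).2.2.1.ne rfl
    · exact (hRtok _ h).2.2.1.ne rfl
  have hΦ' : (Φ₀ ⊔ U).IsAcyclic := by
    refine acyclic_pend hΦ₀a ?_
    intro a c hac
    obtain ⟨v, x, hvx, htk⟩ : ∃ v x, s(a, c) = s(v, x) ∧ (v, x) ∈ R := by
      rcases (hU a c).mp hac with h | h
      · exact ⟨a, c, rfl, h⟩
      · exact ⟨c, a, Sym2.eq_swap, h⟩
    obtain ⟨t1, t2, t3, t4⟩ := hRtok _ htk
    have hsubL := hR3 _ htk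
    simp only at t1 t2 t3 t4 hsubL
    refine ⟨v, x, (cmp (D.Γ b) v : Set V), hvx, self_mem_cmp _ _, ?_, ?_⟩
    · intro hx
      exact h.LHi (hsubL hx) t2
    · intro c' d hc' hd h'
      rw [mem_coe] at hc' hd
      rcases h' with h' | h'
      · exact absurd (cmp_adj hc' (hΦ₀ h')) hd
      · rcases (hU c' d).mp h' with h' | h'
        · have := hR4 _ htk _ h' hc'
          rw [(Prod.mk.inj this).1, (Prod.mk.inj this).2]
        · exact absurd (hRtok _ h').2.1 (h.LHi (hsubL hc'))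
  obtain ⟨E', hE'⟩ : ∃ E' : SimpleGraph V, ∀ a c, E'.Adj a c ↔ (D.Γ (b + 1)).Adj a c ∧
      D.N b < D.len s(a, c) := by
    refine ⟨⟨fun a c => (D.Γ (b + 1)).Adj a c ∧ D.N b < D.len s(a, c),
      ⟨fun a c h => ⟨h.1.symm, ?_⟩⟩, ⟨fun a h => h.1.ne rfl⟩⟩, fun a c => Iff.rfl⟩
    rw [Sym2.eq_swap]
    exact h.2
  obtain ⟨Φ', hΦ'd⟩ : ∃ Φ', Φ' = Φ₀ ⊔ U := ⟨_, rfl⟩
  rw [← hΦ'd] at hΦ'
  obtain ⟨Γs, hΓs⟩ : ∃ Γs, Γs = Φ' ⊔ E' := ⟨_, rfl⟩
  have hUΓ : U ≤ D.Γ (b + 1) := by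
    intro a c h'
    rcases (hU a c).mp h' with h' | h'
    · obtain ⟨t1, t2, t3, t4⟩ := hRtok _ h'
      exact ⟨h.T_mono b t3, h.L_mono b t1, t4⟩
    · obtain ⟨t1, t2, t3, t4⟩ := hRtok _ h'
      exact ⟨(h.T_mono b t3).symm, t4, h.L_mono b t1⟩
  have hΓsΓ : Γs ≤ D.Γ (b + 1) := by
    rw [hΓs, hΦ'd]
    refine sup_le (sup_le (hΦ₀.trans (h.Γ_mono b)) hUΓ) ?_
    intro a c h
    exact ((hE' a c).mp h).1
  obtain ⟨Dd, hD⟩ : ∃ Dd : Finset (V × V), Dd = univ.filter (fun p => (D.T b).Adj p.1 p.2 ∧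
    p.1 ∈ D.L (b + 1) ∧ p.2 ∈ D.L (b + 1) ∧ ¬ Φ'.Adj p.1 p.2) := ⟨_, rfl⟩
  have hsumD : ∑ v, (nb (D.Γ (b + 1)) v).card ≤ ∑ v, (nb Γs v).card + Dd.card := by
    rw [darts_card, darts_card]
    refine (card_le_card ?_).trans (card_union_le _ _)
    intro p hp
    rw [mem_filter] at hp
    rw [mem_union, mem_filter, hD, mem_filter]
    have hp2 := hp.2
    by_cases h' : Γs.Adj p.1 p.2
    · exact Or.inl ⟨mem_univ _, h'⟩
    · right
      rw [hΓs, SimpleGraph.sup_adj, hE'] at h'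
      push Not at h'
      refine ⟨mem_univ _, ?_, hp2.2.1, hp2.2.2, h'.1⟩
      have h3 := h'.2 hp.2
      have h4 : (D.T (b + 1)).Adj p.1 p.2 := hp2.1
      exact ⟨h4.1, h4.2.1, h3⟩
  -- the exceptional darts
  have hΦ'adj : ∀ a c, Φ'.Adj a c ↔ Φ₀.Adj a c ∨ U.Adj a c := by
    intro a c
    rw [hΦ'd, SimpleGraph.sup_adj]
  have hDt : Dd.card + ∑ v, (nb Φ₀ v).card + 2 * (D.RC b).card ≤ ∑ v, (nb (D.Γ b) v).card +
      2 * (D.Ret b).card + 2 * D.σ b + 168 * D.β b := by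
    obtain ⟨Da, hDa⟩ : ∃ Da : Finset (V × V), Da = univ.filter (fun p => (D.Γ b).Adj p.1 p.2 ∧
      ¬ Φ₀.Adj p.1 p.2) := ⟨_, rfl⟩
    obtain ⟨Dz, hDz⟩ : ∃ Dz : Finset (V × V), Dz = univ.filter (fun p => p.1 ∈ D.Z b ∧
      D.H.Adj p.1 p.2) := ⟨_, rfl⟩
    obtain ⟨Dh, hDh⟩ : ∃ Dh : Finset (V × V), Dh = univ.filter (fun p => p.1 ∈ D.Hi b ∧
      p.2 ∈ D.Hi b ∧ (D.T b).Adj p.1 p.2) := ⟨_, rfl⟩
    obtain ⟨Dt, hDt⟩ : ∃ Dt : Finset (V × V), Dt = D.Ret b \ R := ⟨_, rfl⟩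
    have hcover : Dd.card ≤ Da.card + Dz.card + Dz.card + Dh.card + Dt.card + Dt.card := by
      have hsub : Dd ⊆ Da ∪ Dz ∪ Dz.image Prod.swap ∪ Dh ∪ Dt ∪ Dt.image Prod.swap := by
        intro p hp
        rw [hD, mem_filter, hΦ'adj] at hp
        obtain ⟨-, h1, h2, h3, h4⟩ := hp
        push Not at h4
        simp only [mem_union]
        have hz2 : p.2 ∈ D.Z b → p ∈ Dz.image Prod.swap := by
          intro h'
          rw [mem_image]
          refine ⟨p.swap, ?_, Prod.swap_swap p⟩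
          rw [hDz, mem_filter]
          exact ⟨mem_univ _, h', (T_le b h1).symm⟩
        have hz1 : p.1 ∈ D.Z b → p ∈ Dz := by
          intro h'
          rw [hDz, mem_filter]
          exact ⟨mem_univ _, h', T_le b h1⟩
        rcases D.tri b p.1 with h5 | h5 | h5
        · rcases D.tri b p.2 with h6 | h6 | h6
          · refine Or.inl (Or.inl (Or.inl (Or.inl (Or.inl ?_))))
            rw [hDa, mem_filter]
            exact ⟨mem_univ _, ⟨h1, h5, h6⟩, h4.1⟩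
          · exact Or.inl (Or.inl (Or.inl (Or.inr (hz2 h6))))
          · refine Or.inl (Or.inr ?_)
            rw [hDt, mem_sdiff]
            refine ⟨mem_Ret.mpr ⟨mem_tok.mpr ⟨h5, h6, h1⟩, h3⟩, fun h7 => ?_⟩
            exact h4.2 ((hU _ _).mpr (Or.inl h7))
        · exact Or.inl (Or.inl (Or.inl (Or.inl (Or.inr (hz1 h5)))))
        · rcases D.tri b p.2 with h6 | h6 | h6
          · refine Or.inr ?_
            rw [mem_image]
            refine ⟨p.swap, ?_, Prod.swap_swap p⟩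
            rw [hDt, mem_sdiff]
            refine ⟨mem_Ret.mpr ⟨mem_tok.mpr ⟨h6, h5, h1.symm⟩, h2⟩, fun h7 => ?_⟩
            exact h4.2 ((hU _ _).mpr (Or.inr h7))
          · exact Or.inl (Or.inl (Or.inl (Or.inr (hz2 h6))))
          · refine Or.inl (Or.inl (Or.inr ?_))
            rw [hDh, mem_filter]
            exact ⟨mem_univ _, h5, h6, h1⟩
      refine (card_le_card hsub).trans ?_
      have a1 := card_union_le Da Dz
      have a2 := card_union_le (Da ∪ Dz) (Dz.image Prod.swap)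
      have a3 := card_union_le (Da ∪ Dz ∪ Dz.image Prod.swap) Dh
      have a4 := card_union_le (Da ∪ Dz ∪ Dz.image Prod.swap ∪ Dh) Dt
      have a5 := card_union_le (Da ∪ Dz ∪ Dz.image Prod.swap ∪ Dh ∪ Dt) (Dt.image Prod.swap)
      have a6 : (Dz.image Prod.swap).card ≤ Dz.card := card_image_le
      have a7 : (Dt.image Prod.swap).card ≤ Dt.card := card_image_le
      omega
    have b1 : Da.card + ∑ v, (nb Φ₀ v).card ≤ ∑ v, (nb (D.Γ b) v).card := by
      rw [darts_card, darts_card, ← card_union_of_disjoint]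
      · refine card_le_card fun p hp => ?_
        rw [mem_union, hDa, mem_filter, mem_filter] at hp
        rw [mem_filter]
        rcases hp with hp | hp
        · exact ⟨mem_univ _, hp.2.1⟩
        · exact ⟨mem_univ _, hΦ₀ hp.2⟩
      · rw [Finset.disjoint_left]
        intro p hp hp'
        rw [hDa, mem_filter] at hp
        rw [mem_filter] at hp'
        exact hp.2.2 hp'.2
    have b2 : Dz.card ≤ D.σ b := by
      rw [σ, mass, ← card_sigma]
      refine card_le_card_of_injOn (fun p => (⟨p.1, p.2⟩ : (_ : V) × V)) ?_ ?_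
      · intro p hp
        rw [mem_coe, hDz, mem_filter] at hp
        simp only [mem_coe, mem_sigma]
        exact ⟨hp.2.1, mem_nb.mpr hp.2.2⟩
      · intro p _ p' _ he
        simp only [Sigma.mk.injEq, heq_eq_eq] at he
        exact Prod.ext he.1 he.2
    have b3 : Dh.card ≤ 168 * D.β b := by
      rw [hDh]
      exact h.hh_le b
    have b4 : Dt.card + (D.RC b).card = (D.Ret b).card := by
      rw [hDt, ← hR2]
      exact card_sdiff_add_card_eq_card hR1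
    omega
  -- a spanning forest
  obtain ⟨Φ, hΦle, hΦa, hΦr⟩ := Γs.exists_isAcyclic_reachable_eq_le
  obtain ⟨x, hx⟩ : ∃ x, ∑ v, (nb Φ v).card + x = ∑ v, (nb Γs v).card := by
    refine ⟨∑ v, (nb Γs v).card - ∑ v, (nb Φ v).card, ?_⟩
    have := sum_le_sum (s := univ) fun v _ => nb_mono hΦle v
    omega
  refine ⟨Φ, x, hΦle.trans hΓsΓ, hΦa, ?_, by omega⟩
  by_contra hcon
  push Not at hcon
  have hx0 : 0 < x := by
    rcases Nat.eq_zero_or_pos x with h' | h'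
    · rw [h'] at hcon
      omega
    · exact h'
  have hshort : ShortC (8 * r + 1) Γs := by
    obtain ⟨pos, C, hT⟩ := h.top (D.N (b + 1))
    refine excess_topD (H := D.T (b + 1)) hT (hΓsΓ.trans (res_le _ _)) (Φ := Φ) (c := 2 * c)
      (x := x) ?_ hΦle hx0 hx.le (by omega) hr
    intro a c hac
    have := hac.reachable
    rwa [← hΦr] at this
  obtain ⟨u, v, huv, hnuv, w, hwp, hw2, hwl⟩ := short_extra hΦ' hshort
  have hE : E'.Adj u v := by
    rw [hΓs, SimpleGraph.sup_adj] at huv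
    exact huv.resolve_left hnuv
  rw [hE'] at hE
  obtain ⟨hE1, hE2⟩ := hE
  have hN' := h.N_step b _ hE2
  have hwΓ : ∀ f ∈ w.edges, f ∈ (D.T (b + 1)).edgeSet ∧ ∀ x ∈ f, x ∈ D.L (b + 1) := by
    intro f hf
    have h1 := w.edges_subset_edgeSet hf
    have h2 : f ∈ (D.Γ (b + 1)).edgeSet := by
      induction f using Sym2.ind with
      | _ a c => exact hΓsΓ h1
    exact res_edge h2
  refine h.hdir u v (T_le (b + 1) hE1.1) (w.mapLe (hΓsΓ.trans
    ((res_le _ _).trans (T_le (b + 1))))) ?_ ?_ ?_ ?_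
  · rw [SimpleGraph.Walk.edges_mapLe_eq_edges]
    intro h'
    have := path_edge_length w hwp h'
    omega
  · rw [SimpleGraph.Walk.length_mapLe]
    exact hwl.trans hrq
  · intro f hf
    rw [SimpleGraph.Walk.edges_mapLe_eq_edges] at hf
    exact ((TN_len f (hwΓ f hf).1).trans hN').trans
      (Nat.mul_le_mul_right _ (Nat.le_mul_of_pos_right _ h.G1))
  · intro y hy hyu hyv
    rw [SimpleGraph.Walk.support_mapLe_eq_support] at hy
    have hyL : y ∈ D.L (b + 1) := by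
      have h1 := (w.takeUntil y hy).reverse
      cases h1 with
      | nil => exact absurd rfl hyu
      | cons h' _ => exact (hΓsΓ h').2.1
    refine (mem_L.mp hyL).trans ?_
    calc D.G * D.N (b + 1) ≤ D.G * (D.F * D.len s(u, v)) := Nat.mul_le_mul_left _ hN'
      _ = D.F * D.G * D.len s(u, v) := by ring

end Ok

end Dat

end Pool.Agent.H354_OP
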