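import Pool.Agent.H354_OP.Pk6

/-!
# Levels of threads, third version: the last level
-/

set_option autoImplicit false

namespace Pool.Agent.H354_OP

open Finset
open scoped Classical

set_option linter.unusedSectionVars false

namespace Dat

variable {V : Type} [Fintype V] (D : Dat V)

/-- the long darts -/
noncomputable def Lg (b : ℕ) : Finset (V × V) :=
  univ.filter (fun p => D.H.Adj p.1 p.2 ∧ D.N b < D.len s(p.1, p.2))

/-- clean small components without long threads -/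
noncomputable def Fr (s b : ℕ) : Finset (Finset V) :=
  (D.Sm s b).filter (fun X => (∀ y ∈ X, y ∉ D.Q b) ∧
    ∀ v ∈ X, ∀ w, D.H.Adj v w → D.len s(v, w) ≤ D.N b)

variable {D}

theorem mem_Lg {b : ℕ} {p : V × V} :
    p ∈ D.Lg b ↔ D.H.Adj p.1 p.2 ∧ D.N b < D.len s(p.1, p.2) := by
  simp [Lg]

theorem mem_Fr {s b : ℕ} {X : Finset V} : X ∈ D.Fr s b ↔ X ∈ D.Sm s b ∧
    (∀ y ∈ X, y ∉ D.Q b) ∧ ∀ v ∈ X, ∀ w, D.H.Adj v w → D.len s(v, w) ≤ D.N b := by
  simp only [Fr, mem_filter]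

namespace Ok

variable {m s g₀ q t : ℕ}

theorem N_le (h : D.Ok m s g₀ q t) {b J : ℕ} (hb : b ≤ J) : D.N b ≤ D.N J := by
  induction J, hb using Nat.le_induction with
  | base => exact le_rfl
  | succ J hJ ih => exact ih.trans (h.N_mono J)

/-- moving clusters without long threads -/
theorem mvL (h : D.Ok m s g₀ q t) {b : ℕ} {X X' : Finset V} (hX : X ∈ D.Fr s b)
    (hX' : X' ∈ D.Fr s b) (hne : X ≠ X')
    {x x' : V} (hx : x ∈ D.hubs b X) (hx' : x ∈ D.hubs b X') (hx'Hi : x' ∈ D.Hi b)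
    (hh : ∀ y ∈ D.hubs b X, y = x ∨ y = x') (hh' : ∀ y ∈ D.hubs b X', y = x ∨ y = x') :
    False := by
  obtain ⟨hX, hc, hf⟩ := mem_Fr.mp hX
  obtain ⟨hX', hc', hf'⟩ := mem_Fr.mp hX'
  have hXX := h.sm hX
  have hXX' := h.sm hX'
  have hcl : ∀ Y ∈ D.Sm s b, (∀ y ∈ Y, y ∉ D.Q b) → (∀ y ∈ D.hubs b Y, y = x ∨ y = x') →
      ∀ v ∈ Y, ∀ w, (D.T b).Adj v w → w ∈ Y ∨ w = x ∨ w = x' := by
    intro Y hY hcY hhY v hv w hvw
    rcases h.clean hY hcY hv hvw with h1 | ⟨h1, -⟩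
    · exact Or.inl h1
    · exact Or.inr (hhY w h1)
  have he₀ : ∀ Y : Finset V, (∀ y ∈ Y, y ∉ D.Q b) → ∀ v ∈ Y, v ∉ D.e₀ := by
    intro Y hcY v hv he
    exact hcY v hv (mem_Q.mpr (Or.inl he))
  have hxHi := (mem_hubs.mp hx).1
  refine mov2L (e₀ := D.e₀) (N := D.N b) (x := x) (x' := x') h.hmv
    (Nat.mul_pos h.F1 h.G1) h.hl X X' hXX.2.2.2.2.1 hXX'.2.2.2.2.1
    ?_ hXX.2.2.2.1 hXX'.2.2.2.1 (he₀ X hc) (he₀ X' hc') hf hf'
    (h.hubs_not hX hxHi) (h.hubs_not hX hx'Hi) (h.hubs_not hX' hxHi) (h.hubs_not hX' hx'Hi)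
    (hcl X hX hc hh) (hcl X' hX' hc' hh') (mem_hubs.mp hx).2 (mem_hubs.mp hx').2
  intro z hz hz'
  exact hne (h.sm_disj hX hX' hz' hz)

theorem fr2_few (h : D.Ok m s g₀ q t) (b : ℕ) :
    ((D.Fr s b).filter (fun X => (D.hubs b X).card = 2)).card ≤
      56 * (2 * (2 * s + 3) + 1) * D.β b := by
  cases b with
  | zero =>
    have : (D.Fr s 0).filter (fun X => (D.hubs 0 X).card = 2) = ∅ := by
      rw [eq_empty_iff_forall_notMem]
      intro X hX
      rw [mem_filter, mem_Fr, mem_Sm] at hX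
      obtain ⟨⟨⟨⟨v, hv, -⟩, -⟩, -⟩, -⟩ := hX
      exact h.L0 v hv
    rw [this]
    simp
  | succ b =>
    obtain ⟨pos, C, hT⟩ := h.top (D.N (b + 1))
    have hS1 := h.GN_pos b
    obtain ⟨𝒳, h𝒳⟩ : ∃ 𝒳, 𝒳 = (D.Fr s (b + 1)).filter (fun X => (D.hubs (b + 1) X).card = 2) :=
      ⟨_, rfl⟩
    rw [← h𝒳]
    have hm : ∀ X, X ∈ 𝒳 ↔ X ∈ D.Fr s (b + 1) ∧ (D.hubs (b + 1) X).card = 2 := by
      intro X
      rw [h𝒳, mem_filter]
    have hinj : Set.InjOn (D.hubs (b + 1)) (𝒳 : Set (Finset V)) := by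
      intro X hX X' hX' he
      rw [mem_coe, hm] at hX hX'
      by_contra hne
      obtain ⟨y₁, y₂, hy12, hyy⟩ := card_eq_two.mp hX.2
      have hy₁ : y₁ ∈ D.hubs (b + 1) X := by rw [hyy]; simp
      have hy₂ : y₂ ∈ D.hubs (b + 1) X := by rw [hyy]; simp
      have hcov : ∀ w ∈ D.hubs (b + 1) X, w = y₁ ∨ w = y₂ := by
        intro w hw
        rw [hyy] at hw
        simpa using hw
      exact h.mvL hX.1 hX'.1 hne hy₁ (he ▸ hy₁) (mem_hubs.mp hy₂).1 hcov
        (fun w hw => hcov w (he ▸ hw))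
    rw [← card_image_of_injOn hinj]
    have h1 : (𝒳.image (D.hubs (b + 1))).card ≤
        56 * (2 * (m * D.N (b + 1)) * (2 * (s + 1) + 1) + 1) * (D.Hi (b + 1)).card := by
      refine samp_pairs hT (D.Hi (b + 1)) 𝒳 ?_ ?_ ?_ ?_ (D.hubs (b + 1)) ?_
      · intro X h1 X' h2 hne
        rw [hm, mem_Fr] at h1 h2
        rw [Finset.disjoint_left]
        intro x hx hx'
        exact hne (h.sm_disj h1.1.1 h2.1.1 hx hx')
      · intro X h1
        rw [hm, mem_Fr] at h1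
        rw [Finset.disjoint_left]
        intro x hx hx'
        exact h.hubs_not h1.1.1 hx' hx
      · intro X h1
        rw [hm, mem_Fr] at h1
        exact (h.sm h1.1.1).2.2.2.1
      · intro X h1
        rw [hm, mem_Fr] at h1
        exact (h.sm h1.1.1).2.2.2.2.2.1
      · intro X h1
        rw [hm] at h1
        exact ⟨fun y hy => (mem_hubs.mp hy).1, h1.2, fun y hy => (mem_hubs.mp hy).2⟩
    refine h1.trans ?_
    obtain ⟨S, hS⟩ : ∃ S, S = D.G * D.N (b + 1) := ⟨_, rfl⟩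
    have hMS : m * D.N (b + 1) ≤ S := by
      rw [hS]
      exact Nat.mul_le_mul_right _ (by have := h.hG; omega)
    rw [β, ← hS]
    rw [← hS] at hS1
    calc 56 * (2 * (m * D.N (b + 1)) * (2 * (s + 1) + 1) + 1) * (D.Hi (b + 1)).card ≤
        56 * (2 * S * (2 * (s + 1) + 1) + S) * (D.Hi (b + 1)).card := by gcongr
      _ = 56 * (2 * (2 * s + 3) + 1) * (S * (D.Hi (b + 1)).card) := by ring

theorem fr1_few (h : D.Ok m s g₀ q t) (b : ℕ) :
    ((D.Fr s b).filter (fun X => (D.hubs b X).card = 1)).card ≤ D.β b := by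
  cases b with
  | zero =>
    have : (D.Fr s 0).filter (fun X => (D.hubs 0 X).card = 1) = ∅ := by
      rw [eq_empty_iff_forall_notMem]
      intro X hX
      rw [mem_filter, mem_Fr, mem_Sm] at hX
      obtain ⟨⟨⟨⟨v, hv, -⟩, -⟩, -⟩, -⟩ := hX
      exact h.L0 v hv
    rw [this]
    simp
  | succ b =>
    have hS1 := h.GN_pos b
    have h1 : ((D.Fr s (b + 1)).filter (fun X => (D.hubs (b + 1) X).card = 1)).card ≤
        ((D.Hi (b + 1)).image (fun x => ({x} : Finset V))).card := by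
      refine Finset.card_le_card_of_injOn (D.hubs (b + 1)) ?_ ?_
      · intro X hX
        rw [mem_coe, mem_filter] at hX
        obtain ⟨y, hy⟩ := card_eq_one.mp hX.2
        rw [mem_coe, mem_image]
        refine ⟨y, (mem_hubs.mp (?_ : y ∈ D.hubs (b + 1) X)).1, hy.symm⟩
        rw [hy]
        simp
      · intro X hX X' hX' he
        rw [mem_coe, mem_filter] at hX hX'
        by_contra hne
        obtain ⟨y, hy⟩ := card_eq_one.mp hX.2
        have hyX : y ∈ D.hubs (b + 1) X := by rw [hy]; simp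
        have hcov : ∀ w ∈ D.hubs (b + 1) X, w = y ∨ w = y := by
          intro w hw
          rw [hy] at hw
          left
          simpa using hw
        exact h.mvL hX.1 hX'.1 hne hyX (he ▸ hyX) (mem_hubs.mp hyX).1 hcov
          (fun w hw => hcov w (he ▸ hw))
    refine h1.trans (card_image_le.trans ?_)
    rw [β]
    exact Nat.le_mul_of_pos_left _ hS1

theorem pr_top (h : D.Ok m s g₀ q t) (b : ℕ) :
    (D.Pr s b).card ≤ s * (D.hub3 s b).card + 2 * ((D.Q b).card + (D.Lg b).card +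
      56 * (2 * (2 * s + 3) + 1) * D.β b + D.β b) := by
  obtain ⟨P3, hP3⟩ : ∃ P3 : Finset (Finset V × V), P3 = (D.Pr s b).filter (fun p =>
    3 ≤ (D.hubs b p.1).card) := ⟨_, rfl⟩
  obtain ⟨P2, hP2⟩ : ∃ P2 : Finset (Finset V × V), P2 = (D.Pr s b).filter (fun p =>
    ¬ 3 ≤ (D.hubs b p.1).card) := ⟨_, rfl⟩
  have hcov : (D.Pr s b).card = P3.card + P2.card := by
    rw [hP3, hP2, card_filter_add_card_filter_not]
  have h3 : P3.card ≤ s * (D.hub3 s b).card := by
    refine pairs_card (D := D) (b := b) _ _ ?_ ?_ ?_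
    · intro p hp
      rw [hP3, mem_filter, mem_Pr] at hp
      exact mem_hub3.mpr ⟨hp.1.1, hp.2⟩
    · intro p hp
      rw [hP3, mem_filter, mem_Pr] at hp
      exact hp.1.2
    · intro X hX
      exact (hubs_le_mass X).trans (h.sm (mem_hub3.mp hX).1).2.2.2.2.1
  obtain ⟨𝒜, h𝒜⟩ : ∃ 𝒜 : Finset (Finset V), 𝒜 = (D.Sm s b).filter (fun X =>
    (D.hubs b X).Nonempty ∧ (D.hubs b X).card ≤ 2) := ⟨_, rfl⟩
  have h2 : P2.card ≤ 2 * 𝒜.card := by
    refine pairs_card (D := D) (b := b) _ _ ?_ ?_ ?_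
    · intro p hp
      rw [hP2, mem_filter, mem_Pr] at hp
      rw [h𝒜, mem_filter]
      exact ⟨hp.1.1, ⟨_, hp.1.2⟩, by omega⟩
    · intro p hp
      rw [hP2, mem_filter, mem_Pr] at hp
      exact hp.1.2
    · intro X hX
      rw [h𝒜, mem_filter] at hX
      exact hX.2.2
  have hA : 𝒜.card ≤ (D.Q b).card + (D.Lg b).card +
      ((D.Fr s b).filter (fun X => (D.hubs b X).card = 2)).card +
      ((D.Fr s b).filter (fun X => (D.hubs b X).card = 1)).card := by
    obtain ⟨A1, hA1⟩ : ∃ A1, A1 = (D.Sm s b).filter (fun X => ∃ y ∈ X, y ∈ D.Q b) := ⟨_, rfl⟩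
    obtain ⟨A2, hA2⟩ : ∃ A2, A2 = (D.Sm s b).filter (fun X => ∃ y ∈ X,
      y ∈ (D.Lg b).image Prod.fst) := ⟨_, rfl⟩
    have hsub : 𝒜 ⊆ A1 ∪ A2 ∪ (D.Fr s b).filter (fun X => (D.hubs b X).card = 2) ∪
        (D.Fr s b).filter (fun X => (D.hubs b X).card = 1) := by
      intro X hX
      rw [h𝒜, mem_filter] at hX
      obtain ⟨hX1, hX2, hX3⟩ := hX
      simp only [mem_union, hA1, hA2, mem_filter, mem_Fr, hX1, true_and]
      by_cases hq : ∃ y ∈ X, y ∈ D.Q b
      · exact Or.inl (Or.inl (Or.inl hq))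
      push Not at hq
      by_cases hl : ∃ y ∈ X, y ∈ (D.Lg b).image Prod.fst
      · exact Or.inl (Or.inl (Or.inr hl))
      have hf : ∀ v ∈ X, ∀ w, D.H.Adj v w → D.len s(v, w) ≤ D.N b := by
        intro v hv w hvw
        by_contra hcon
        push Not at hcon
        refine hl ⟨v, hv, ?_⟩
        rw [mem_image]
        exact ⟨(v, w), mem_Lg.mpr ⟨hvw, hcon⟩, rfl⟩
      have h5 := card_pos.mpr hX2
      rcases (by omega : (D.hubs b X).card = 2 ∨ (D.hubs b X).card = 1) with h6 | h6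
      · exact Or.inl (Or.inr ⟨⟨hq, hf⟩, h6⟩)
      · exact Or.inr ⟨⟨hq, hf⟩, h6⟩
    have c1 : A1.card ≤ (D.Q b).card := by
      refine meet_card _ ?_ _ ?_
      · intro X hX X' hX' x hx hx'
        rw [hA1, mem_filter] at hX hX'
        exact h.sm_disj hX.1 hX'.1 hx hx'
      · intro X hX
        rw [hA1, mem_filter] at hX
        exact hX.2
    have c2 : A2.card ≤ (D.Lg b).card := by
      refine (meet_card _ ?_ ((D.Lg b).image Prod.fst) ?_).trans card_image_le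
      · intro X hX X' hX' x hx hx'
        rw [hA2, mem_filter] at hX hX'
        exact h.sm_disj hX.1 hX'.1 hx hx'
      · intro X hX
        rw [hA2, mem_filter] at hX
        exact hX.2
    refine (card_le_card hsub).trans ?_
    have a1 := card_union_le A1 A2
    have a2 := card_union_le (A1 ∪ A2) ((D.Fr s b).filter (fun X => (D.hubs b X).card = 2))
    have a3 := card_union_le (A1 ∪ A2 ∪ (D.Fr s b).filter (fun X => (D.hubs b X).card = 2))
      ((D.Fr s b).filter (fun X => (D.hubs b X).card = 1))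
    omega
  have h4 := h.fr2_few b
  have h5 := h.fr1_few b
  omega

theorem darts_top (h : D.Ok m s g₀ q t) (b : ℕ) :
    t ≤ ∑ v, (nb (D.Γ b) v).card + 2 * (D.tok b).card + 2 * D.σ b + 168 * D.β b + 2 +
      (D.Lg b).card := by
  rw [← h.ht, darts_card, darts_card]
  obtain ⟨De, hDe⟩ : ∃ De : Finset (V × V), De = univ.filter (fun p : V × V =>
    s(p.1, p.2) = D.e₀) := ⟨_, rfl⟩
  obtain ⟨Dz, hDz⟩ : ∃ Dz : Finset (V × V), Dz = univ.filter (fun p => p.1 ∈ D.Z b ∧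
    D.H.Adj p.1 p.2) := ⟨_, rfl⟩
  obtain ⟨Dh, hDh⟩ : ∃ Dh : Finset (V × V), Dh = univ.filter (fun p => p.1 ∈ D.Hi b ∧
    p.2 ∈ D.Hi b ∧ (D.T b).Adj p.1 p.2) := ⟨_, rfl⟩
  obtain ⟨Dg, hDg⟩ : ∃ Dg : Finset (V × V), Dg = univ.filter (fun p => (D.Γ b).Adj p.1 p.2) :=
    ⟨_, rfl⟩
  rw [← hDg]
  have hsub : univ.filter (fun p : V × V => D.H.Adj p.1 p.2) ⊆
      Dg ∪ D.tok b ∪ (D.tok b).image Prod.swap ∪ Dz ∪ Dz.image Prod.swap ∪ Dh ∪ De ∪ D.Lg b := by
    intro p hp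
    rw [mem_filter] at hp
    have hadj := hp.2
    simp only [mem_union]
    by_cases hl : D.N b < D.len s(p.1, p.2)
    · exact Or.inr (mem_Lg.mpr ⟨hadj, hl⟩)
    push Not at hl
    by_cases he : s(p.1, p.2) = D.e₀
    · left; right
      rw [hDe, mem_filter]
      exact ⟨mem_univ _, he⟩
    have hT : (D.T b).Adj p.1 p.2 := ⟨hadj, he, hl⟩
    have hz2 : p.2 ∈ D.Z b → p ∈ Dz.image Prod.swap := by
      intro h'
      rw [mem_image]
      refine ⟨p.swap, ?_, Prod.swap_swap p⟩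
      rw [hDz, mem_filter]
      exact ⟨mem_univ _, h', hadj.symm⟩
    have hz1 : p.1 ∈ D.Z b → p ∈ Dz := by
      intro h'
      rw [hDz, mem_filter]
      exact ⟨mem_univ _, h', hadj⟩
    left; left
    rcases D.tri b p.1 with h5 | h5 | h5
    · rcases D.tri b p.2 with h6 | h6 | h6
      · refine Or.inl (Or.inl (Or.inl (Or.inl (Or.inl ?_))))
        rw [hDg, mem_filter]
        exact ⟨mem_univ _, hT, h5, h6⟩
      · exact Or.inl (Or.inr (hz2 h6))
      · exact Or.inl (Or.inl (Or.inl (Or.inl (Or.inr (mem_tok.mpr ⟨h5, h6, hT⟩)))))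
    · exact Or.inl (Or.inl (Or.inr (hz1 h5)))
    · rcases D.tri b p.2 with h6 | h6 | h6
      · refine Or.inl (Or.inl (Or.inl (Or.inr ?_)))
        rw [mem_image]
        exact ⟨p.swap, mem_tok.mpr ⟨h6, h5, hT.symm⟩, Prod.swap_swap p⟩
      · exact Or.inl (Or.inr (hz2 h6))
      · refine Or.inr ?_
        rw [hDh, mem_filter]
        exact ⟨mem_univ _, h5, h6, hT⟩
  refine (card_le_card hsub).trans ?_
  have a1 := card_union_le Dg (D.tok b)
  have a2 := card_union_le (Dg ∪ D.tok b) ((D.tok b).image Prod.swap)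
  have a3 := card_union_le (Dg ∪ D.tok b ∪ (D.tok b).image Prod.swap) Dz
  have a4 := card_union_le (Dg ∪ D.tok b ∪ (D.tok b).image Prod.swap ∪ Dz) (Dz.image Prod.swap)
  have a5 := card_union_le (Dg ∪ D.tok b ∪ (D.tok b).image Prod.swap ∪ Dz ∪ Dz.image Prod.swap) Dh
  have a6 := card_union_le (Dg ∪ D.tok b ∪ (D.tok b).image Prod.swap ∪ Dz ∪ Dz.image Prod.swap ∪
    Dh) De
  have a7 := card_union_le (Dg ∪ D.tok b ∪ (D.tok b).image Prod.swap ∪ Dz ∪ Dz.image Prod.swap ∪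
    Dh ∪ De) (D.Lg b)
  have a8 : (Dz.image Prod.swap).card ≤ Dz.card := card_image_le
  have a9 : ((D.tok b).image Prod.swap).card ≤ (D.tok b).card := card_image_le
  have b2 : Dz.card ≤ D.σ b := by
    rw [σ, mass, ← card_sigma]
    refine card_le_card_of_injOn (fun p => (⟨p.1, p.2⟩ : (_ : V) × V)) ?_ ?_
    · intro p hp
      rw [mem_coe, hDz, mem_filter] at hp
      simp only [mem_coe, mem_sigma]
      exact ⟨hp.2.1, mem_nb.mpr hp.2.2⟩
    · intro p _ p' _ he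
      simp only [Sigma.mk.injEq, heq_eq_eq] at he
      exact Prod.ext he.1 he.2
  have b3 : Dh.card ≤ 168 * D.β b := by
    rw [hDh]
    exact h.hh_le b
  have b4 : De.card ≤ 2 := by
    obtain ⟨e, he⟩ : ∃ e, e = D.e₀ := ⟨_, rfl⟩
    rw [hDe, ← he]
    induction e using Sym2.ind with
    | _ a b =>
      refine (card_le_card ?_).trans (card_le_two (a := (a, b)) (b := (b, a)))
      intro p hp
      rw [mem_filter, Sym2.eq_iff] at hp
      rw [mem_insert, mem_singleton]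
      rcases hp.2 with h | h
      · exact Or.inl (Prod.ext h.1 h.2)
      · exact Or.inr (Prod.ext h.1 h.2)
  omega

end Ok

end Dat

end Pool.Agent.H354_OP
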