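import Pool.Agent.H354_OP.Pk7

/-!
# Levels of threads, third version: the contradiction
-/

set_option autoImplicit false

namespace Pool.Agent.H354_OP

open Finset
open scoped Classical

set_option linter.unusedSectionVars false

namespace Dat

variable {V : Type} [Fintype V] {D : Dat V}

namespace Ok

variable {m s g₀ q t : ℕ}

theorem step2 (h : D.Ok m s g₀ q t) {U r : ℕ} (hs : s = 96 * U) (hg : g₀ = 96 * U)
    (hq : g₀ + s + 1 ≤ q) (hrq : 8 * r + 1 ≤ q)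
    (hγ : 8 * U * Bc s g₀ ≤ D.γ) (htU : 64 * U ≤ t) (b : ℕ)
    (hr : (2 * (2 * (4 * U))) ^ r * (2 * (2 * (4 * U)) *
      (56 * (2 * (m * D.N (b + 1)) * (2 * (2 * r) + 1) + 1))) < (2 * (2 * (4 * U)) + 1) ^ r) (Φ₀ : SimpleGraph V)
    (hΦ₀ : Φ₀ ≤ D.Γ b) (hΦ₀a : Φ₀.IsAcyclic) (E : ℕ)
    (hE : ∑ v, (nb (D.Γ b) v).card + 2 * (D.tok b).card ≤ ∑ v, (nb Φ₀ v).card +
      2 * (D.Pr s b).card + E) : ∃ (Φ : SimpleGraph V) (y : ℕ), Φ ≤ D.Γ (b + 1) ∧ Φ.IsAcyclic ∧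
      U * y ≤ t ∧ ∑ v, (nb (D.Γ (b + 1)) v).card + 2 * (D.tok (b + 1)).card ≤
        ∑ v, (nb Φ v).card + 2 * (D.Pr s (b + 1)).card +
          (E + y + 8 * D.σ b + 4 * D.σ (b + 1)) := by
  obtain ⟨Φ, x, h1, h2, h3, h4⟩ := h.forest_step2 (c := 4 * U) hrq b hr Φ₀ hΦ₀ hΦ₀a
  have h5 := h.token_ineq hq b
  have h6 : (D.Ret b).card + (D.Liv b).card ≤ (D.tok b).card := by
    rw [← card_union_of_disjoint]
    · refine card_le_card ?_
      intro p hp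
      rw [mem_union, mem_Ret, mem_Liv] at hp
      rcases hp with hp | hp
      · exact hp.1
      · exact hp.1
    · rw [Finset.disjoint_left]
      intro p hp hp'
      rw [mem_Ret] at hp
      rw [mem_Liv] at hp'
      exact h.LHi hp.2 hp'.2
  have h7 := h.Q_card b
  have h8 := h.hub3_le b s
  have h9 := h.hub3_le (b + 1) s
  have h10 := h.cp_few b
  obtain ⟨Bd, κ, k1, k2, k3⟩ := h.cl_few b
  obtain ⟨Bd', κ', k1', k2', k3'⟩ := h.lgB_few hq b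
  obtain ⟨βi, hβi⟩ : ∃ β, β = D.β b := ⟨_, rfl⟩
  obtain ⟨βj, hβj⟩ : ∃ β, β = D.β (b + 1) := ⟨_, rfl⟩
  have hβit : D.γ * βi ≤ t := by
    rw [hβi]
    exact hub_few h.ht
  have hβjt : D.γ * βj ≤ t := by
    rw [hβj]
    exact hub_few h.ht
  rw [← hβi] at h4 h5 h8 h10
  rw [← hβj] at h9 k3 k3'
  obtain ⟨a₁, ha₁⟩ : ∃ a, a = s * (2 * s * s + 1) := ⟨_, rfl⟩
  obtain ⟨a₂, ha₂⟩ : ∃ a, a = 56 * (2 * (2 * s + 3) + 1) := ⟨_, rfl⟩
  obtain ⟨a₃, ha₃⟩ : ∃ a, a = GC 3 g₀ (s + 2) := ⟨_, rfl⟩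
  obtain ⟨a₄, ha₄⟩ : ∃ a, a = GC 3 g₀ 1 := ⟨_, rfl⟩
  have hBc : Bc s g₀ = 504 + 812 * a₁ + 2 * a₂ + 12 * a₃ + 6 * a₄ := by
    rw [Bc, ha₁, ha₂, ha₃, ha₄]
  rw [← ha₂] at h10
  rw [← ha₃] at k3
  rw [← ha₄] at k3'
  have h8' : s * (D.hub3 s b).card ≤ 406 * (a₁ * βi) := by
    calc s * (D.hub3 s b).card ≤ s * (406 * (2 * s * s + 1) * βi) := Nat.mul_le_mul_left _ h8
      _ = 406 * (a₁ * βi) := by rw [ha₁]; ring
  have h9' : s * (D.hub3 s (b + 1)).card ≤ 406 * (a₁ * βj) := by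
    calc s * (D.hub3 s (b + 1)).card ≤ s * (406 * (2 * s * s + 1) * βj) :=
          Nat.mul_le_mul_left _ h9
      _ = 406 * (a₁ * βj) := by rw [ha₁]; ring
  refine ⟨Φ, x + (504 * βi + 812 * (a₁ * βi) + 2 * (a₂ * βi)) + (812 * (a₁ * βj) +
    12 * (a₃ * βj) + 6 * (a₄ * βj)) + 8 + 12 * Bd + 12 * κ + 6 * Bd' + 6 * κ', h1, h2, ?_, ?_⟩
  · have e1 : 8 * (U * x) ≤ t := by
      calc 8 * (U * x) = 2 * (4 * U) * x := by ring
        _ ≤ t := h3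
    have e2 : 8 * (U * (504 * βi + 812 * (a₁ * βi) + 2 * (a₂ * βi))) ≤ t := by
      calc 8 * (U * (504 * βi + 812 * (a₁ * βi) + 2 * (a₂ * βi))) =
          8 * U * (504 + 812 * a₁ + 2 * a₂) * βi := by ring
        _ ≤ 8 * U * Bc s g₀ * βi := by
          refine Nat.mul_le_mul_right _ (Nat.mul_le_mul_left _ ?_)
          rw [hBc]
          omega
        _ ≤ D.γ * βi := Nat.mul_le_mul_right _ hγ
        _ ≤ t := hβit
    have e3 : 8 * (U * (812 * (a₁ * βj) + 12 * (a₃ * βj) + 6 * (a₄ * βj))) ≤ t := by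
      calc 8 * (U * (812 * (a₁ * βj) + 12 * (a₃ * βj) + 6 * (a₄ * βj))) =
          8 * U * (812 * a₁ + 12 * a₃ + 6 * a₄) * βj := by ring
        _ ≤ 8 * U * Bc s g₀ * βj := by
          refine Nat.mul_le_mul_right _ (Nat.mul_le_mul_left _ ?_)
          rw [hBc]
          omega
        _ ≤ D.γ * βj := Nat.mul_le_mul_right _ hγ
        _ ≤ t := hβjt
    have e4 : 8 * (U * (12 * Bd)) ≤ t := by
      calc 8 * (U * (12 * Bd)) = g₀ * Bd := by rw [hg]; ring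
        _ ≤ t := k1
    have e5 : 8 * (U * (12 * κ)) ≤ t := by
      calc 8 * (U * (12 * κ)) = s * κ := by rw [hs]; ring
        _ ≤ t := k2
    have e6 : 16 * (U * (6 * Bd')) ≤ t := by
      calc 16 * (U * (6 * Bd')) = g₀ * Bd' := by rw [hg]; ring
        _ ≤ t := k1'
    have e7 : 16 * (U * (6 * κ')) ≤ t := by
      calc 16 * (U * (6 * κ')) = s * κ' := by rw [hs]; ring
        _ ≤ t := k2'
    rw [Nat.mul_add, Nat.mul_add, Nat.mul_add, Nat.mul_add, Nat.mul_add, Nat.mul_add, Nat.mul_add]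
    omega
  · omega

theorem no_world3 (h : D.Ok m s g₀ q t) {J U r : ℕ} (hJ : 1 ≤ J) (hUJ : U = 16 * J)
    (hs : s = 96 * U) (hg : g₀ = 96 * U)
    (hq : g₀ + s + 1 ≤ q) (hrq : 8 * r + 1 ≤ q)
    (hr : (2 * (2 * (4 * U))) ^ r * (2 * (2 * (4 * U)) *
      (56 * (2 * (m * D.N J) * (2 * (2 * r) + 1) + 1))) < (2 * (2 * (4 * U)) + 1) ^ r)
    (hγ : 8 * U * Bc s g₀ ≤ D.γ) (htU : 64 * U ≤ t)
    (hσ : 192 * ∑ i ∈ range (J + 2), D.σ i ≤ t) (hlong : 48 * (D.Lg J).card ≤ t) :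
    False := by
  have key : ∀ b ≤ J, ∃ (Φ : SimpleGraph V) (E : ℕ), Φ ≤ D.Γ b ∧ Φ.IsAcyclic ∧
      U * E ≤ b * t + U * (12 * ∑ i ∈ range b, D.σ i + 4 * D.σ b) ∧
      ∑ v, (nb (D.Γ b) v).card + 2 * (D.tok b).card ≤ ∑ v, (nb Φ v).card +
        2 * (D.Pr s b).card + E := by
    intro b
    induction b with
    | zero =>
      intro _
      refine ⟨⊥, 0, bot_le, SimpleGraph.isAcyclic_bot, by simp, ?_⟩
      have h1 : ∀ v, nb (D.Γ 0) v = ∅ := by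
        intro v
        rw [eq_empty_iff_forall_notMem]
        intro y hy
        rw [mem_nb] at hy
        exact h.T0 _ _ hy.1
      have h2 : D.tok 0 = ∅ := by
        rw [eq_empty_iff_forall_notMem]
        intro p hp
        exact h.T0 _ _ (mem_tok.mp hp).2.2
      simp [h1, h2]
    | succ b ih =>
      intro hb
      obtain ⟨Φ₀, E, h1, h2, h3, h4⟩ := ih (by omega)
      have hrb : (2 * (2 * (4 * U))) ^ r * (2 * (2 * (4 * U)) *
          (56 * (2 * (m * D.N (b + 1)) * (2 * (2 * r) + 1) + 1))) < (2 * (2 * (4 * U)) + 1) ^ r := by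
        refine lt_of_le_of_lt ?_ hr
        have hN := h.N_le hb
        gcongr
      obtain ⟨Φ, y, k1, k2, k3, k4⟩ := h.step2 hs hg hq hrq hγ htU b hrb Φ₀ h1 h2 E h4
      refine ⟨Φ, _, k1, k2, ?_, k4⟩
      rw [sum_range_succ]
      have e1 : U * (E + y + 8 * D.σ b + 4 * D.σ (b + 1)) = U * E + U * y +
        U * (8 * D.σ b + 4 * D.σ (b + 1)) := by ring
      have e2 : (b + 1) * t + U * (12 * (∑ i ∈ range b, D.σ i + D.σ b) + 4 * D.σ (b + 1)) =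
        b * t + U * (12 * ∑ i ∈ range b, D.σ i + 4 * D.σ b) + t +
        U * (8 * D.σ b + 4 * D.σ (b + 1)) := by ring
      rw [e1, e2]
      omega
  obtain ⟨Φ, E, h1, h2, h3, h4⟩ := key J le_rfl
  have hf := forest_sum h2
  have hcard := h.cardV
  have hpr := h.pr_top J
  have hdt := h.darts_top J
  have hQ := h.Q_card J
  have h8 := h.hub3_le J s
  obtain ⟨βj, hβj⟩ : ∃ β, β = D.β J := ⟨_, rfl⟩
  have hβjt : D.γ * βj ≤ t := by
    rw [hβj]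
    exact hub_few h.ht
  rw [← hβj] at hpr hdt h8
  obtain ⟨a₁, ha₁⟩ : ∃ a, a = s * (2 * s * s + 1) := ⟨_, rfl⟩
  obtain ⟨a₂, ha₂⟩ : ∃ a, a = 56 * (2 * (2 * s + 3) + 1) := ⟨_, rfl⟩
  have hBc : 504 + 812 * a₁ + 2 * a₂ ≤ Bc s g₀ := by
    rw [Bc, ha₁, ha₂]
    omega
  rw [← ha₂] at hpr
  have h8' : s * (D.hub3 s J).card ≤ 406 * (a₁ * βj) := by
    calc s * (D.hub3 s J).card ≤ s * (406 * (2 * s * s + 1) * βj) := Nat.mul_le_mul_left _ h8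
      _ = 406 * (a₁ * βj) := by rw [ha₁]; ring
  -- the hubs
  have hβ1 : 64 * (812 * (a₁ * βj) + 4 * (a₂ * βj) + 172 * βj) ≤ t := by
    calc 64 * (812 * (a₁ * βj) + 4 * (a₂ * βj) + 172 * βj) ≤
        128 * ((504 + 812 * a₁ + 2 * a₂) * βj) := by
          have : 128 * ((504 + 812 * a₁ + 2 * a₂) * βj) = 64 * (1008 * βj + 1624 * (a₁ * βj) +
            4 * (a₂ * βj)) := by ring
          rw [this]
          omega
      _ ≤ 128 * (Bc s g₀ * βj) := Nat.mul_le_mul_left _ (Nat.mul_le_mul_right _ hBc)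
      _ ≤ 8 * U * (Bc s g₀ * βj) := Nat.mul_le_mul_right _ (by omega)
      _ = 8 * U * Bc s g₀ * βj := by ring
      _ ≤ D.γ * βj := Nat.mul_le_mul_right _ hγ
      _ ≤ t := hβjt
  -- the sum
  have hSig : ∑ i ∈ range (J + 2), D.σ i = ∑ i ∈ range J, D.σ i + D.σ J + D.σ (J + 1) := by
    rw [sum_range_succ, sum_range_succ]
  rw [hSig] at hσ
  obtain ⟨Ssum, hSsum⟩ : ∃ Ssum, Ssum = ∑ i ∈ range J, D.σ i := ⟨_, rfl⟩
  rw [← hSsum] at hσ h3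
  have h7 : J * (16 * E) ≤ J * (2 * t) := by
    have e1 : J * (16 * E) = U * E := by rw [hUJ]; ring
    have e2 : U * (12 * Ssum + 4 * D.σ J) ≤ J * t := by
      calc U * (12 * Ssum + 4 * D.σ J) = J * (16 * (12 * Ssum + 4 * D.σ J)) := by rw [hUJ]; ring
        _ ≤ J * t := Nat.mul_le_mul_left _ (by omega)
    have e3 : J * (2 * t) = J * t + J * t := by ring
    rw [e1, e3]
    omega
  have h9 := Nat.le_of_mul_le_mul_left h7 (by omega)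
  have h10 : 1024 ≤ t := by omega
  obtain ⟨sh, hsh⟩ : ∃ sh, sh = s * (D.hub3 s J).card := ⟨_, rfl⟩
  rw [← hsh] at hpr h8'
  obtain ⟨u₁, hu₁⟩ : ∃ u, u = a₁ * βj := ⟨_, rfl⟩
  obtain ⟨u₂, hu₂⟩ : ∃ u, u = a₂ * βj := ⟨_, rfl⟩
  rw [← hu₁] at h8' hβ1
  rw [← hu₂] at hpr hβ1
  omega

end Ok

end Dat

end Pool.Agent.H354_OP
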