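import Pool.Agent.H354_OP.Pk5
import Pool.Agent.H354_OP.MainB

/-!
# Levels of threads: the contradiction, with all the long threads in one step
-/

set_option autoImplicit false

namespace Pool.Agent.H354_OP

open Finset
open scoped Classical

set_option linter.unusedSectionVars false

namespace Dat

variable {V : Type} [Fintype V] {D : Dat V}

namespace Ok

variable {m s g₀ q t : ℕ}

theorem no_world4 (h : D.Ok m s g₀ q t) {J U : ℕ} (hJ : 1 ≤ J) (hUJ : U = 16 * J)
    (hs : s = 96 * U) (hg : g₀ = 96 * U)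
    (hq : g₀ + s + 1 ≤ q) (hqc : (8 * (4 * U) + 1) * (Nat.log 2 t + 1) ≤ q)
    (hγ : 8 * U * Bc s g₀ ≤ D.γ) (htU : 64 * U ≤ t)
    (hσ : 192 * ∑ i ∈ range (J + 1), D.σ i ≤ t)
    (hdeg : ∀ x, (nb D.H x).card ≤ D.G * D.N J) : False := by
  have key : ∀ b, ∃ (Φ : SimpleGraph V) (E : ℕ), Φ ≤ D.Γ b ∧ Φ.IsAcyclic ∧
      U * E ≤ b * t + U * (12 * ∑ i ∈ range b, D.σ i + 4 * D.σ b) ∧
      ∑ v, (nb (D.Γ b) v).card + 2 * (D.tok b).card ≤ ∑ v, (nb Φ v).card +
        2 * (D.Pr s b).card + E := by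
    intro b
    induction b with
    | zero =>
      refine ⟨⊥, 0, bot_le, SimpleGraph.isAcyclic_bot, by simp, ?_⟩
      have h1 : ∀ v, nb (D.Γ 0) v = ∅ := by
        intro v
        rw [eq_empty_iff_forall_notMem]
        intro y hy
        rw [mem_nb] at hy
        exact h.T0 _ _ hy.1
      have h2 : D.tok 0 = ∅ := by
        rw [eq_empty_iff_forall_notMem]
        intro p hp
        exact h.T0 _ _ (mem_tok.mp hp).2.2
      simp [h1, h2]
    | succ b ih =>
      obtain ⟨Φ₀, E, h1, h2, h3, h4⟩ := ih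
      obtain ⟨Φ, y, k1, k2, k3, k4⟩ := h.step (by omega) hs hg hq hqc hγ htU b Φ₀ h1 h2 E h4
      refine ⟨Φ, _, k1, k2, ?_, k4⟩
      rw [sum_range_succ]
      have e1 : U * (E + y + 8 * D.σ b + 4 * D.σ (b + 1)) = U * E + U * y +
        U * (8 * D.σ b + 4 * D.σ (b + 1)) := by ring
      have e2 : (b + 1) * t + U * (12 * (∑ i ∈ range b, D.σ i + D.σ b) + 4 * D.σ (b + 1)) =
        b * t + U * (12 * ∑ i ∈ range b, D.σ i + 4 * D.σ b) + t +
        U * (8 * D.σ b + 4 * D.σ (b + 1)) := by ring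
      rw [e1, e2]
      omega
  obtain ⟨Φ, E, h1, h2, h3, h4⟩ := key J
  have hf := forest_sum h2
  have hcard := h.cardV
  have hHi : D.Hi J = ∅ := by
    rw [eq_empty_iff_forall_notMem]
    intro x hx
    rw [mem_Hi] at hx
    have h5 := hdeg x
    have h6 := Nat.le_mul_of_pos_left (D.G * D.N J) h.hγ
    omega
  have hPr : D.Pr s J = ∅ := by
    rw [eq_empty_iff_forall_notMem]
    intro p hp
    have h5 := (mem_hubs.mp (mem_Pr.mp hp).2).1
    rw [hHi] at h5
    simp at h5
  have htok : D.tok J = ∅ := by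
    rw [eq_empty_iff_forall_notMem]
    intro p hp
    have h5 := (mem_tok.mp hp).2.1
    rw [hHi] at h5
    simp at h5
  -- the long threads
  obtain ⟨E', hE'⟩ : ∃ E' : SimpleGraph V, ∀ a c, E'.Adj a c ↔ D.H.Adj a c ∧
      D.N J < D.len s(a, c) := by
    refine ⟨⟨fun a c => D.H.Adj a c ∧ D.N J < D.len s(a, c),
      ⟨fun a c h => ⟨h.1.symm, ?_⟩⟩, ⟨fun a h => h.1.ne rfl⟩⟩, fun a c => Iff.rfl⟩
    rw [Sym2.eq_swap]
    exact h.2
  obtain ⟨Γs, hΓs⟩ : ∃ Γs, Γs = Φ ⊔ E' := ⟨_, rfl⟩
  have hΦH : Φ ≤ D.H := h1.trans ((res_le _ _).trans (T_le J))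
  have hΓsH : Γs ≤ D.H := by
    rw [hΓs]
    refine sup_le hΦH ?_
    intro a c h
    exact ((hE' a c).mp h).1
  have hsup : ∑ v, (nb Φ v).card + ∑ v, (nb E' v).card ≤ ∑ v, (nb Γs v).card := by
    rw [darts_card, darts_card, darts_card, ← card_union_of_disjoint]
    · refine card_le_card fun p hp => ?_
      rw [mem_union, mem_filter, mem_filter] at hp
      rw [mem_filter, hΓs, SimpleGraph.sup_adj]
      rcases hp with hp | hp
      · exact ⟨mem_univ _, Or.inl hp.2⟩
      · exact ⟨mem_univ _, Or.inr hp.2⟩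
    · rw [Finset.disjoint_left]
      intro p hp hp'
      rw [mem_filter] at hp hp'
      have h5 := ((hE' _ _).mp hp'.2).2
      have h6 : D.len s(p.1, p.2) ≤ D.N J := (h1 hp.2).1.2.2
      omega
  have h5 : ∑ v, (nb D.H v).card ≤ ∑ v, (nb (D.Γ J) v).card + ∑ v, (nb E' v).card + 2 := by
    rw [darts_card, darts_card, darts_card]
    have hsub : univ.filter (fun p : V × V => D.H.Adj p.1 p.2) ⊆
        univ.filter (fun p : V × V => (D.Γ J).Adj p.1 p.2) ∪
        univ.filter (fun p : V × V => E'.Adj p.1 p.2) ∪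
        univ.filter (fun p : V × V => s(p.1, p.2) = D.e₀) := by
      intro p hp
      rw [mem_filter] at hp
      rw [mem_union, mem_union, mem_filter, mem_filter, mem_filter]
      by_cases h : s(p.1, p.2) = D.e₀
      · exact Or.inr ⟨mem_univ _, h⟩
      · by_cases hl : D.N J < D.len s(p.1, p.2)
        · exact Or.inl (Or.inr ⟨mem_univ _, (hE' _ _).mpr ⟨hp.2, hl⟩⟩)
        · exact Or.inl (Or.inl ⟨mem_univ _, ⟨hp.2, h, not_lt.mp hl⟩, mem_L.mpr (hdeg _),
            mem_L.mpr (hdeg _)⟩)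
    refine (card_le_card hsub).trans ((card_union_le _ _).trans (add_le_add (card_union_le _ _) ?_))
    obtain ⟨e, he⟩ : ∃ e, e = D.e₀ := ⟨_, rfl⟩
    rw [← he]
    induction e using Sym2.ind with
    | _ a b =>
      refine (card_le_card ?_).trans (card_le_two (a := (a, b)) (b := (b, a)))
      intro p hp
      rw [mem_filter, Sym2.eq_iff] at hp
      rw [mem_insert, mem_singleton]
      rcases hp.2 with h | h
      · exact Or.inl (Prod.ext h.1 h.2)
      · exact Or.inr (Prod.ext h.1 h.2)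
  rw [h.ht] at h5
  rw [hPr, htok, card_empty, card_empty] at h4
  -- a spanning forest
  obtain ⟨Ψ, hΨle, hΨa, hΨr⟩ := Γs.exists_isAcyclic_reachable_eq_le
  have hfΨ := forest_sum hΨa
  obtain ⟨x, hx⟩ : ∃ x, ∑ v, (nb Ψ v).card + x = ∑ v, (nb Γs v).card := by
    refine ⟨∑ v, (nb Γs v).card - ∑ v, (nb Ψ v).card, ?_⟩
    have := sum_le_sum (s := univ) fun v _ => nb_mono hΨle v
    omega
  have hxt : 2 * (4 * U) * x ≤ t := by
    by_contra hcon
    push Not at hcon
    have hx0 : 0 < x := by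
      rcases Nat.eq_zero_or_pos x with h' | h'
      · rw [h'] at hcon
        omega
      · exact h'
    obtain ⟨r, hr⟩ : ∃ r, r = 2 * (2 * (4 * U)) * (Nat.log 2 t + 1) := ⟨_, rfl⟩
    have hshort : ShortC (2 * r + 1) Γs := by
      refine excess_short (Φ := Ψ) (c := 2 * (4 * U)) (x := x) ?_ hΨle hx0 hx.le (by omega) ?_
      · intro a c hac
        have := hac.reachable
        rwa [← hΨr] at this
      · rw [hr]
        refine lt_of_le_of_lt ?_ (radius_fact (t := t) (by omega))
        exact Nat.mul_le_mul_left _ (by omega)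
    obtain ⟨u, v, huv, w, hwp, hw2, hwl, hmax⟩ := heaviest hshort D.len
    have hlong : D.N J < D.len s(u, v) := by
      by_contra hle
      push Not at hle
      have hΦall : ∀ a c, Γs.Adj a c → D.len s(a, c) ≤ D.N J → Φ.Adj a c := by
        intro a c hac hl
        rw [hΓs, SimpleGraph.sup_adj] at hac
        rcases hac with hac | hac
        · exact hac
        · have := ((hE' a c).mp hac).2
          omega
      have h6 : ∀ f ∈ w.edges, f ∈ Φ.edgeSet := by
        intro f hf
        have h7 := w.edges_subset_edgeSet hf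
        have h8 := hmax f hf
        induction f using Sym2.ind with
        | _ a c => exact hΦall a c h7 (by omega)
      have huv' := hΦall u v huv hle
      have hc : (SimpleGraph.Walk.cons huv'.symm (w.transfer Φ h6)).IsCycle := by
        rw [SimpleGraph.Walk.cons_isCycle_iff]
        refine ⟨hwp.transfer h6, ?_⟩
        intro he
        rw [SimpleGraph.Walk.edges_transfer] at he
        rw [Sym2.eq_swap] at he
        have := path_edge_length w hwp he
        omega
      exact h2 _ hc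
    have hFG : 1 ≤ D.F * D.G := Nat.mul_pos h.F1 h.G1
    refine h.hdir u v (hΓsH huv) (w.mapLe hΓsH) ?_ ?_ ?_ ?_
    · rw [SimpleGraph.Walk.edges_mapLe_eq_edges]
      intro h'
      have := path_edge_length w hwp h'
      omega
    · rw [SimpleGraph.Walk.length_mapLe]
      refine hwl.trans ?_
      refine le_trans ?_ hqc
      have h7 : (8 * (4 * U) + 1) * (Nat.log 2 t + 1) =
        2 * (2 * (2 * (4 * U)) * (Nat.log 2 t + 1)) + Nat.log 2 t + 1 := by ring
      omega
    · intro f hf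
      rw [SimpleGraph.Walk.edges_mapLe_eq_edges] at hf
      exact (hmax f hf).trans (Nat.le_mul_of_pos_left _ hFG)
    · intro y _ _ _
      calc (nb D.H y).card ≤ D.G * D.N J := hdeg y
        _ ≤ D.G * D.len s(u, v) := Nat.mul_le_mul_left _ hlong.le
        _ ≤ D.F * D.G * D.len s(u, v) := by
          rw [mul_assoc]
          exact Nat.le_mul_of_pos_left _ h.F1
  -- the sum
  have h6 : 12 * ∑ i ∈ range J, D.σ i + 4 * D.σ J ≤ 12 * ∑ i ∈ range (J + 1), D.σ i := by
    rw [sum_range_succ]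
    omega
  have h7 : J * (16 * E) ≤ J * (2 * t) := by
    have e1 : J * (16 * E) = U * E := by rw [hUJ]; ring
    have e2 : U * (12 * ∑ i ∈ range J, D.σ i + 4 * D.σ J) ≤ J * t := by
      calc U * (12 * ∑ i ∈ range J, D.σ i + 4 * D.σ J) ≤
          U * (12 * ∑ i ∈ range (J + 1), D.σ i) := Nat.mul_le_mul_left _ h6
        _ = J * (192 * ∑ i ∈ range (J + 1), D.σ i) := by rw [hUJ]; ring
        _ ≤ J * t := Nat.mul_le_mul_left _ hσ
    have e3 : J * (2 * t) = J * t + J * t := by ring
    rw [e1, e3]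
    omega
  have h8 := Nat.le_of_mul_le_mul_left h7 (by omega)
  have h9 : 8 * x ≤ t := by
    refine le_trans (Nat.mul_le_mul_right _ ?_) hxt
    omega
  omega

end Ok

end Dat

end Pool.Agent.H354_OP
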