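import Pool.Agent.H354_OP.Geo

/-!
# Polygonal approximation of a finite family of arcs with disjoint interiors
-/

set_option autoImplicit false

namespace Pool.Agent.H354_OP

open Set Filter Topology

/-- the visibility graph of a set of points of the plane -/
def vis (S : Set ℂ) : SimpleGraph ℂ where
  Adj x y := x ≠ y ∧ segment ℝ x y ⊆ S
  symm := ⟨fun x y h => ⟨h.1.symm, by rw [segment_symm]; exact h.2⟩⟩
  loopless := ⟨fun x h => h.1 rfl⟩

theorem vis_walk {S : Set ℂ} {x y : ℂ} (h : segment ℝ x y ⊆ S) :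
    ∃ s : (vis S).Walk x y, s.length ≤ 1 := by
  by_cases hxy : x = y
  · subst hxy
    exact ⟨SimpleGraph.Walk.nil, by simp⟩
  · have hadj : (vis S).Adj x y := ⟨hxy, h⟩
    exact ⟨SimpleGraph.Walk.cons hadj SimpleGraph.Walk.nil, by simp⟩

theorem vis_reach {S : Set ℂ} {x y : ℂ} (h : segment ℝ x y ⊆ S) : (vis S).Reachable x y := by
  obtain ⟨s, -⟩ := vis_walk h
  exact ⟨s⟩

/-- a polygonal line with the least number of segments inside a given set is simple -/
theorem geodesic {S : Set ℂ} {a b : ℂ} (hab : a ≠ b) (h : (vis S).Reachable a b) :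
    ∃ (n : ℕ) (p : ℕ → ℂ), p 0 = a ∧ p (n + 1) = b ∧ SimplePoly p (n + 1) ∧
      ∀ i < n + 1, segment ℝ (p i) (p (i + 1)) ⊆ S := by
  obtain ⟨w, hw⟩ := h.exists_walk_length_eq_dist
  have hpos : 0 < w.length := by
    rcases Nat.eq_zero_or_pos w.length with h0 | h0
    · exact absurd (SimpleGraph.Walk.eq_of_length_eq_zero h0) hab
    · exact h0
  have key : ∀ i j, i ≤ j → j ≤ w.length →
      ∀ s : (vis S).Walk (w.getVert i) (w.getVert j), j - i ≤ s.length := by
    intro i j hij hj s
    have h1 := SimpleGraph.dist_le ((w.take i).append (s.append (w.drop j)))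
    rw [← hw, SimpleGraph.Walk.length_append, SimpleGraph.Walk.length_append,
      SimpleGraph.Walk.take_length, SimpleGraph.Walk.drop_length] at h1
    have h2 : min i w.length = i := min_eq_left (by omega)
    rw [h2] at h1
    omega
  have hadj : ∀ i < w.length, (vis S).Adj (w.getVert i) (w.getVert (i + 1)) :=
    fun i hi => w.adj_getVert_succ hi
  have hlen : w.length - 1 + 1 = w.length := by omega
  refine ⟨w.length - 1, w.getVert, by simp, by rw [hlen]; simp, ?_, ?_⟩
  · rw [hlen]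
    refine ⟨fun i hi => (hadj i hi).1, ?_, ?_⟩
    · intro i hi
      rintro z ⟨hz1, hz2⟩
      rw [mem_singleton_iff]
      by_contra hne
      rw [segment_symm] at hz1
      obtain ⟨s, s0, s1, e1⟩ := mem_seg hz1
      obtain ⟨t, t0, t1, e2⟩ := mem_seg hz2
      set x := w.getVert i with hx
      set y := w.getVert (i + 1) with hy
      set v := w.getVert (i + 2) with hv
      have hs : 0 < s := by
        refine lt_of_le_of_ne s0 fun h0 => hne ?_
        rw [e1, ← h0, zero_smul, add_zero]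
      have ht : 0 < t := by
        refine lt_of_le_of_ne t0 fun h0 => hne ?_
        rw [e2, ← h0, zero_smul, add_zero]
      have e3 : s • (x - y) = t • (v - y) := by
        have : y + s • (x - y) = y + t • (v - y) := e1.symm.trans e2
        exact add_left_cancel this
      have hsub : segment ℝ x v ⊆ S := by
        rcases le_total s t with hst | hst
        · -- `v` is between `y` and `x`
          have hvmem : v ∈ segment ℝ x y := by
            rw [segment_symm]
            have : v = y + (s / t) • (x - y) := by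
              have h1 : (s / t) • (x - y) = v - y := by
                rw [div_eq_inv_mul, ← smul_smul, e3, smul_smul, inv_mul_cancel₀ ht.ne', one_smul]
              rw [h1]; ring
            rw [this]
            exact seg_mem (by positivity) ((div_le_one ht).mpr hst)
          exact ((convex_segment x y).segment_subset (left_mem_segment _ _ _) hvmem).trans
            (hadj i (by omega)).2
        · have hxmem : x ∈ segment ℝ y v := by
            have : x = y + (t / s) • (v - y) := by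
              have h1 : (t / s) • (v - y) = x - y := by
                rw [div_eq_inv_mul, ← smul_smul, ← e3, smul_smul, inv_mul_cancel₀ hs.ne', one_smul]
              rw [h1]; ring
            rw [this]
            exact seg_mem (by positivity) ((div_le_one hs).mpr hst)
          exact ((convex_segment y v).segment_subset hxmem (right_mem_segment _ _ _)).trans
            (hadj (i + 1) hi).2
      obtain ⟨W, hW⟩ := vis_walk hsub
      have := key i (i + 2) (by omega) (by omega) W
      omega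
    · intro i j hij hj
      rw [Set.disjoint_left]
      intro z hz1 hz2
      have h1 : segment ℝ (w.getVert i) z ⊆ S :=
        ((convex_segment _ _).segment_subset (left_mem_segment _ _ _) hz1).trans
          (hadj i (by omega)).2
      have h2 : segment ℝ z (w.getVert (j + 1)) ⊆ S :=
        ((convex_segment _ _).segment_subset hz2 (right_mem_segment _ _ _)).trans (hadj j hj).2
      obtain ⟨W1, hW1⟩ := vis_walk h1
      obtain ⟨W2, hW2⟩ := vis_walk h2
      have := key i (j + 1) (by omega) (by omega) (W1.append W2)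
      rw [SimpleGraph.Walk.length_append] at this
      omega
  · intro i hi
    exact (hadj i (by omega)).2

/-- the last time at which a continuous function is at most `r` -/
theorem last_le {f : ℝ → ℝ} (hf : ContinuousOn f (Icc 0 1)) {r : ℝ} (h0 : f 0 < r) (h1 : r < f 1) :
    ∃ σ, 0 < σ ∧ σ < 1 ∧ f σ = r ∧ ∀ t, σ < t → t ≤ 1 → r < f t := by
  set A : Set ℝ := Icc 0 1 ∩ f ⁻¹' Iic r with hA
  have hclosed : IsClosed A := hf.preimage_isClosed_of_isClosed isClosed_Icc isClosed_Iic
  have hcomp : IsCompact A := isCompact_Icc.of_isClosed_subset hclosed inter_subset_left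
  have hne : A.Nonempty := ⟨0, ⟨le_refl _, zero_le_one⟩, h0.le⟩
  obtain ⟨σ, hσ, hmax⟩ := hcomp.exists_isGreatest hne
  obtain ⟨⟨s0, s1⟩, s2⟩ := hσ
  have hlast : ∀ t, σ < t → t ≤ 1 → r < f t := by
    intro t ht ht1
    by_contra hcon
    push Not at hcon
    exact absurd (hmax ⟨⟨by linarith, ht1⟩, hcon⟩) (not_le.mpr ht)
  have hσ1 : σ < 1 := by
    refine lt_of_le_of_ne s1 fun h => ?_
    rw [h] at s2
    exact absurd h1 (not_lt.mpr s2)
  have hval : f σ = r := by
    refine le_antisymm s2 ?_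
    by_contra hcon
    push Not at hcon
    have hsub : Icc σ 1 ⊆ Icc (0 : ℝ) 1 := Icc_subset_Icc_left s0
    obtain ⟨t, ht, hft⟩ := intermediate_value_Icc hσ1.le (hf.mono hsub)
      (show r ∈ Icc (f σ) (f 1) from ⟨hcon.le, h1.le⟩)
    have ht' : σ < t := by
      refine lt_of_le_of_ne ht.1 fun h => ?_
      rw [← h] at hft
      exact hcon.ne hft
    exact absurd (hlast t ht' ht.2) (by rw [hft]; exact lt_irrefl _)
  refine ⟨σ, ?_, hσ1, hval, hlast⟩
  refine lt_of_le_of_ne s0 fun h => ?_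
  rw [← h] at hval
  exact h0.ne hval

/-- the first time, from `c` on, at which a continuous function is at most `r` -/
theorem first_le {f : ℝ → ℝ} {c : ℝ} (hc1 : c ≤ 1) (hf : ContinuousOn f (Icc c 1)) {r : ℝ}
    (h0 : r < f c) (h1 : f 1 < r) :
    ∃ τ, c < τ ∧ τ < 1 ∧ f τ = r ∧ ∀ t, c ≤ t → t < τ → r < f t := by
  set A : Set ℝ := Icc c 1 ∩ f ⁻¹' Iic r with hA
  have hclosed : IsClosed A := hf.preimage_isClosed_of_isClosed isClosed_Icc isClosed_Iic
  have hcomp : IsCompact A := isCompact_Icc.of_isClosed_subset hclosed inter_subset_left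
  have hne : A.Nonempty := ⟨1, ⟨hc1, le_refl _⟩, h1.le⟩
  obtain ⟨τ, hτ, hmin⟩ := hcomp.exists_isLeast hne
  obtain ⟨⟨s0, s1⟩, s2⟩ := hτ
  have hfirst : ∀ t, c ≤ t → t < τ → r < f t := by
    intro t ht ht1
    by_contra hcon
    push Not at hcon
    exact absurd (hmin ⟨⟨ht, by linarith⟩, hcon⟩) (not_le.mpr ht1)
  have hτc : c < τ := by
    refine lt_of_le_of_ne s0 fun h => ?_
    rw [← h] at s2
    exact absurd h0 (not_lt.mpr s2)
  have hval : f τ = r := by
    refine le_antisymm s2 ?_
    by_contra hcon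
    push Not at hcon
    have hsub : Icc c τ ⊆ Icc c 1 := Icc_subset_Icc_right s1
    obtain ⟨t, ht, hft⟩ := intermediate_value_Icc' hτc.le (hf.mono hsub)
      (show r ∈ Icc (f τ) (f c) from ⟨hcon.le, h0.le⟩)
    have ht' : t < τ := by
      refine lt_of_le_of_ne ht.2 fun h => ?_
      rw [h] at hft
      exact hcon.ne hft
    exact absurd (hfirst t ht.1 ht') (by rw [hft]; exact lt_irrefl _)
  refine ⟨τ, hτc, ?_, hval, hfirst⟩
  refine lt_of_le_of_ne s1 fun h => ?_
  rw [h] at hval
  exact h1.ne hval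

theorem seg_dist_le {c x z : ℂ} (h : z ∈ segment ℝ c x) : dist z c ≤ dist x c := by
  obtain ⟨t, t0, t1, rfl⟩ := mem_seg h
  rw [dist_eq_norm, dist_eq_norm, add_sub_cancel_left, norm_smul, Real.norm_eq_abs,
    abs_of_nonneg t0]
  calc t * ‖x - c‖ ≤ 1 * ‖x - c‖ := by gcongr
    _ = ‖x - c‖ := one_mul _

theorem seg_dist_eq {c x z : ℂ} (h : z ∈ segment ℝ c x) (hd : dist z c = dist x c)
    (hne : x ≠ c) : z = x := by
  obtain ⟨t, t0, t1, rfl⟩ := mem_seg h
  rw [dist_eq_norm, dist_eq_norm, add_sub_cancel_left, norm_smul, Real.norm_eq_abs,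
    abs_of_nonneg t0] at hd
  have h1 : ‖x - c‖ ≠ 0 := norm_ne_zero_iff.mpr (sub_ne_zero.mpr hne)
  have h2 : t = 1 := by
    have : (t - 1) * ‖x - c‖ = 0 := by linarith
    rcases mul_eq_zero.mp this with h | h
    · linarith
    · exact absurd h h1
  rw [h2, one_smul]; ring

theorem seg_radial {c x y z : ℂ} (h : z ∈ segment ℝ c x) (h' : z ∈ segment ℝ c y)
    (hd : dist x c = dist y c) (hne : x ≠ y) (hx : x ≠ c) : z = c := by
  obtain ⟨t, t0, t1, e⟩ := mem_seg h
  obtain ⟨s, s0, s1, e'⟩ := mem_seg h'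
  have h1 : ‖x - c‖ ≠ 0 := norm_ne_zero_iff.mpr (sub_ne_zero.mpr hx)
  have e1 : z - c = t • (x - c) := by rw [e]; ring
  have e2 : z - c = s • (y - c) := by rw [e']; ring
  have n1 : ‖z - c‖ = t * ‖x - c‖ := by
    rw [e1, norm_smul, Real.norm_eq_abs, abs_of_nonneg t0]
  have n2 : ‖z - c‖ = s * ‖x - c‖ := by
    rw [e2, norm_smul, Real.norm_eq_abs, abs_of_nonneg s0, ← dist_eq_norm y c, ← hd, dist_eq_norm]
  have hts : t = s := mul_right_cancel₀ h1 (n1.symm.trans n2)
  subst hts
  have h3 : t • (x - y) = 0 := by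
    have : t • (x - c) = t • (y - c) := e1.symm.trans e2
    rw [show x - y = (x - c) - (y - c) by ring, smul_sub, this, sub_self]
  rcases smul_eq_zero.mp h3 with h | h
  · rw [h, zero_smul] at e1
    exact sub_eq_zero.mp e1
  · exact absurd (sub_eq_zero.mp h) hne

/-- the data of the tame version of an arc near its ends -/
structure Ends (N : Set ℂ) (r : ℝ) (α : ℝ → ℂ) where
  σ : ℝ
  τ : ℝ
  hσ : 0 < σ
  hστ : σ < τ
  hτ : τ < 1
  eσ : dist (α σ) (α 0) = r
  eτ : dist (α τ) (α 1) = r
  near : ∀ n ∈ N, ∀ t, σ ≤ t → t ≤ τ → dist (α t) n ≤ r →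
    (n = α 0 ∧ t = σ) ∨ (n = α 1 ∧ t = τ)

theorem cont_dist {α : ℝ → ℂ} {s : Set ℝ} (hc : ContinuousOn α s) (c : ℂ) :
    ContinuousOn (fun t => dist (α t) c) s := by
  have h : Continuous (fun z : ℂ => dist z c) := by fun_prop
  exact h.comp_continuousOn hc

theorem exists_ends {N : Set ℂ} {r : ℝ} {α : ℝ → ℂ} (hc : ContinuousOn α (Icc 0 1))
    (hr : 0 < r) (h01 : 2 * r < dist (α 0) (α 1))
    (hfar : ∀ n ∈ N, n ≠ α 0 → n ≠ α 1 → ∀ t ∈ Icc (0 : ℝ) 1, r < dist (α t) n) :
    Nonempty (Ends N r α) := by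
  have c0 : ContinuousOn (fun t => dist (α t) (α 0)) (Icc 0 1) := cont_dist hc _
  obtain ⟨σ, s0, s1, s2, s3⟩ := last_le c0 (r := r) (by simpa using hr)
    (by rw [dist_comm]; linarith)
  have c1 : ContinuousOn (fun t => dist (α t) (α 1)) (Icc σ 1) :=
    cont_dist (hc.mono (Icc_subset_Icc_left s0.le)) _
  obtain ⟨τ, t0, t1, t2, t3⟩ := first_le s1.le c1 (r := r) (by
      have := dist_triangle (α 0) (α σ) (α 1)
      rw [dist_comm (α 0) (α σ)] at this
      linarith) (by simpa using hr)
  refine ⟨⟨σ, τ, s0, t0, t1, s2, t2, ?_⟩⟩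
  intro n hn t ht1 ht2 hd
  by_cases h0 : n = α 0
  · left
    refine ⟨h0, ?_⟩
    rcases eq_or_lt_of_le ht1 with h | h
    · exact h.symm
    · have := s3 t h (by linarith)
      rw [h0] at hd
      linarith
  · by_cases h1 : n = α 1
    · right
      refine ⟨h1, ?_⟩
      rcases eq_or_lt_of_le ht2 with h | h
      · exact h
      · have := t3 t ht1 h
        rw [h1] at hd
        linarith
    · have := hfar n hn h0 h1 t ⟨by linarith, by linarith⟩
      linarith

theorem polygonal {J : Type*} [Finite J] (N : Set ℂ) (hN : N.Finite) (α : J → ℝ → ℂ)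
    (hc : ∀ j, ContinuousOn (α j) (Icc 0 1)) (h0 : ∀ j, α j 0 ∈ N) (h1 : ∀ j, α j 1 ∈ N)
    (hne : ∀ j, α j 0 ≠ α j 1) (hint : ∀ j, ∀ t ∈ Ioo (0 : ℝ) 1, α j t ∉ N)
    (hdis : ∀ i j, i ≠ j → ∀ s ∈ Ioo (0 : ℝ) 1, ∀ t ∈ Ioo (0 : ℝ) 1, α i s ≠ α j t) :
    ∃ S : J → Set ℂ, (∀ j, (vis (S j)).Reachable (α j 0) (α j 1)) ∧
      (∀ i j, i ≠ j → S i ∩ S j ⊆ N) ∧ (∀ j, S j ∩ N ⊆ {α j 0, α j 1}) := by
  classical
  have hr1 : ∀ᶠ r in 𝓝[>] (0 : ℝ), ∀ n ∈ N, ∀ n' ∈ N, n ≠ n' → 2 * r < dist n n' := by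
    refine hN.eventually_all.mpr fun n hn => ?_
    refine hN.eventually_all.mpr fun n' hn' => ?_
    by_cases h : n = n'
    · exact Filter.Eventually.of_forall fun r h' => absurd h h'
    · have hpos : 0 < dist n n' := dist_pos.mpr h
      have hcont : Continuous (fun r : ℝ => 2 * r) := by fun_prop
      have : ∀ᶠ r in 𝓝 (0 : ℝ), 2 * r < dist n n' :=
        hcont.continuousAt.eventually (gt_mem_nhds (by simpa using hpos))
      filter_upwards [mem_nhdsWithin_of_mem_nhds this] with r hr _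
      exact hr
  have hr2 : ∀ᶠ r in 𝓝[>] (0 : ℝ), ∀ j, ∀ n ∈ N, n ≠ α j 0 → n ≠ α j 1 →
      ∀ t ∈ Icc (0 : ℝ) 1, r < dist (α j t) n := by
    refine Filter.eventually_all.mpr fun j => ?_
    refine hN.eventually_all.mpr fun n hn => ?_
    by_cases h : n ≠ α j 0 ∧ n ≠ α j 1
    · obtain ⟨t, ht, hmin⟩ := isCompact_Icc.exists_isMinOn (f := fun t => dist (α j t) n)
        (nonempty_Icc.mpr zero_le_one) (cont_dist (hc j) _)
      have hpos : 0 < dist (α j t) n := by
        refine dist_pos.mpr fun h' => ?_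
        rcases eq_or_lt_of_le ht.1 with h3 | h3
        · exact h.1 (by rw [h3]; exact h'.symm)
        · rcases eq_or_lt_of_le ht.2 with h4 | h4
          · exact h.2 (by rw [← h4]; exact h'.symm)
          · exact hint j t ⟨h3, h4⟩ (h' ▸ hn)
      have : ∀ᶠ r in 𝓝 (0 : ℝ), r < dist (α j t) n := gt_mem_nhds hpos
      filter_upwards [mem_nhdsWithin_of_mem_nhds this] with r hr _ _ s hs
      exact lt_of_lt_of_le hr (hmin hs)
    · refine Filter.Eventually.of_forall fun r h3 h4 => absurd ⟨h3, h4⟩ h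
  obtain ⟨r, hr1, hr2, hr⟩ := (hr1.and (hr2.and self_mem_nhdsWithin)).exists
  have hr : 0 < r := hr
  have E : ∀ j, Ends N r (α j) := fun j =>
    (exists_ends (hc j) hr (hr1 _ (h0 j) _ (h1 j) (hne j)) (hr2 j)).some
  -- the middle parts
  set K : J → Set ℂ := fun j => α j '' Icc (E j).σ (E j).τ with hK
  have hIcc : ∀ j, Icc (E j).σ (E j).τ ⊆ Icc (0 : ℝ) 1 := fun j =>
    Icc_subset_Icc (E j).hσ.le (E j).hτ.le
  have hIoo : ∀ j, Icc (E j).σ (E j).τ ⊆ Ioo (0 : ℝ) 1 := fun j =>
    fun t ht => ⟨lt_of_lt_of_le (E j).hσ ht.1, lt_of_le_of_lt ht.2 (E j).hτ⟩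
  have hσm : ∀ j, (E j).σ ∈ Icc (E j).σ (E j).τ := fun j => ⟨le_refl _, (E j).hστ.le⟩
  have hτm : ∀ j, (E j).τ ∈ Icc (E j).σ (E j).τ := fun j => ⟨(E j).hστ.le, le_refl _⟩
  have hKc : ∀ j, IsCompact (K j) := fun j =>
    isCompact_Icc.image_of_continuousOn ((hc j).mono (hIcc j))
  have hKconn : ∀ j, IsPreconnected (K j) := fun j =>
    isPreconnected_Icc.image _ ((hc j).mono (hIcc j))
  -- radial parts, indexed by a side
  set cen : J → Bool → ℂ := fun j b => if b then α j 0 else α j 1 with hcen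
  set tip : J → Bool → ℂ := fun j b => if b then α j (E j).σ else α j (E j).τ with htip
  have hcenN : ∀ j b, cen j b ∈ N := by
    intro j b
    cases b
    · exact h1 j
    · exact h0 j
  have htipcen : ∀ j b, dist (tip j b) (cen j b) = r := by
    intro j b
    cases b
    · exact (E j).eτ
    · exact (E j).eσ
  have htipK : ∀ j b, tip j b ∈ K j := by
    intro j b
    cases b
    · exact ⟨_, hτm j, rfl⟩
    · exact ⟨_, hσm j, rfl⟩
  have htipne : ∀ j b, tip j b ≠ cen j b := by
    intro j b h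
    have := htipcen j b
    rw [h, dist_self] at this
    exact hr.ne this
  have hKK : ∀ i j, i ≠ j → ∀ z ∈ K i, z ∉ K j := by
    rintro i j hij z ⟨s, hs, rfl⟩ ⟨t, ht, h⟩
    exact hdis i j hij s (hIoo i hs) t (hIoo j ht) h.symm
  have hKN : ∀ j, ∀ z ∈ K j, z ∉ N := by
    rintro j z ⟨s, hs, rfl⟩ h
    exact hint j s (hIoo j hs) h
  have hnear : ∀ j, ∀ z ∈ K j, ∀ n ∈ N, dist z n ≤ r → ∃ b, n = cen j b ∧ z = tip j b := by
    rintro j z ⟨t, ht, rfl⟩ n hn hd
    rcases (E j).near n hn t ht.1 ht.2 hd with ⟨h3, h4⟩ | ⟨h3, h4⟩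
    · exact ⟨true, h3, by rw [h4]; rfl⟩
    · exact ⟨false, h3, by rw [h4]; rfl⟩
  have hKR : ∀ i j, i ≠ j → ∀ b, ∀ z ∈ K i, z ∉ segment ℝ (cen j b) (tip j b) := by
    intro i j hij b z hz hz'
    have hd : dist z (cen j b) ≤ r := (seg_dist_le hz').trans (htipcen j b).le
    obtain ⟨b', h3, h4⟩ := hnear i z hz _ (hcenN j b) hd
    have h5 : dist z (cen j b) = dist (tip j b) (cen j b) := by
      rw [htipcen, h3, h4, htipcen]
    have h6 := seg_dist_eq hz' h5 (htipne j b)
    exact hKK i j hij z hz (h6 ▸ htipK j b)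
  have hRR : ∀ i j, i ≠ j → ∀ b c, ∀ z ∈ segment ℝ (cen i b) (tip i b),
      z ∈ segment ℝ (cen j c) (tip j c) → z ∈ N := by
    intro i j hij b c z hz hz'
    by_cases hcc : cen i b = cen j c
    · rw [← hcc] at hz'
      have h3 : tip i b ≠ tip j c := by
        intro h
        exact hKK i j hij _ (htipK i b) (h ▸ htipK j c)
      have h4 : dist (tip i b) (cen i b) = dist (tip j c) (cen i b) := by
        rw [htipcen, hcc, htipcen]
      rw [seg_radial hz hz' h4 h3 (htipne i b)]
      exact hcenN i b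
    · exfalso
      have h3 : dist z (cen i b) ≤ r := (seg_dist_le hz).trans (htipcen i b).le
      have h4 : dist z (cen j c) ≤ r := (seg_dist_le hz').trans (htipcen j c).le
      have h5 := hr1 _ (hcenN i b) _ (hcenN j c) hcc
      have h6 := dist_triangle (cen i b) z (cen j c)
      rw [dist_comm (cen i b) z] at h6
      linarith
  have hRN : ∀ j b, ∀ z ∈ segment ℝ (cen j b) (tip j b), z ∈ N → z = cen j b := by
    intro j b z hz hzN
    by_contra hne'
    have h3 : dist z (cen j b) ≤ r := (seg_dist_le hz).trans (htipcen j b).le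
    have h5 := hr1 _ hzN _ (hcenN j b) hne'
    linarith
  -- thickenings
  have hthick : ∀ᶠ δ in 𝓝[>] (0 : ℝ), ∀ j, Disjoint (Metric.thickening δ (K j))
      (Metric.thickening δ ((⋃ i ∈ {i : J | i ≠ j}, K i) ∪
        (⋃ i ∈ {i : J | i ≠ j}, ⋃ b : Bool, segment ℝ (cen i b) (tip i b)) ∪ N)) := by
    refine Filter.eventually_all.mpr fun j => ?_
    have hcl : IsClosed ((⋃ i ∈ {i : J | i ≠ j}, K i) ∪
        (⋃ i ∈ {i : J | i ≠ j}, ⋃ b : Bool, segment ℝ (cen i b) (tip i b)) ∪ N) := by
      refine IsClosed.union (IsClosed.union ?_ ?_) hN.isClosed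
      · exact (Set.toFinite _).isClosed_biUnion fun i _ => (hKc i).isClosed
      · refine (Set.toFinite _).isClosed_biUnion fun i _ => ?_
        exact isClosed_iUnion_of_finite fun b => isClosed_seg _ _
    have hd : Disjoint (K j) ((⋃ i ∈ {i : J | i ≠ j}, K i) ∪
        (⋃ i ∈ {i : J | i ≠ j}, ⋃ b : Bool, segment ℝ (cen i b) (tip i b)) ∪ N) := by
      rw [Set.disjoint_left]
      rintro z hz ((h | h) | h)
      · simp only [mem_iUnion] at h
        obtain ⟨i, hi, h⟩ := h
        exact hKK i j hi z h hz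
      · simp only [mem_iUnion] at h
        obtain ⟨i, hi, b, h⟩ := h
        exact hKR j i (Ne.symm hi) b z hz h
      · exact hKN j z hz h
    obtain ⟨δ, hδ, hδd⟩ := hd.exists_thickenings (hKc j) hcl
    have : ∀ᶠ δ' in 𝓝 (0 : ℝ), δ' < δ := gt_mem_nhds hδ
    filter_upwards [mem_nhdsWithin_of_mem_nhds this] with δ' hδ'
    exact hδd.mono (Metric.thickening_mono hδ'.le _) (Metric.thickening_mono hδ'.le _)
  obtain ⟨δ, hδd, hδ⟩ := (hthick.and self_mem_nhdsWithin).exists
  have hδ : 0 < δ := hδ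
  have hTT : ∀ i j, i ≠ j → ∀ z ∈ Metric.thickening δ (K i), z ∉ Metric.thickening δ (K j) := by
    intro i j hij z hz hz'
    refine Set.disjoint_left.mp (hδd i) hz (Metric.thickening_subset_of_subset δ ?_ hz')
    intro x hx
    refine Or.inl (Or.inl ?_)
    simp only [mem_iUnion]
    exact ⟨j, hij.symm, hx⟩
  have hTR : ∀ i j, i ≠ j → ∀ b, ∀ z ∈ Metric.thickening δ (K i),
      z ∉ segment ℝ (cen j b) (tip j b) := by
    intro i j hij b z hz hz'
    refine Set.disjoint_left.mp (hδd i) hz (Metric.self_subset_thickening hδ _ ?_)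
    refine Or.inl (Or.inr ?_)
    simp only [mem_iUnion]
    exact ⟨j, hij.symm, b, hz'⟩
  have hTN : ∀ j, ∀ z ∈ Metric.thickening δ (K j), z ∉ N := by
    intro j z hz hz'
    exact Set.disjoint_left.mp (hδd j) hz (Metric.self_subset_thickening hδ _ (Or.inr hz'))
  refine ⟨fun j => (⋃ b : Bool, segment ℝ (cen j b) (tip j b)) ∪ Metric.thickening δ (K j),
    ?_, ?_, ?_⟩
  · intro j
    have hrad : ∀ b, (vis ((⋃ b : Bool, segment ℝ (cen j b) (tip j b)) ∪
        Metric.thickening δ (K j))).Reachable (cen j b) (tip j b) := by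
      intro b
      refine vis_reach ?_
      exact (subset_iUnion (fun b => segment ℝ (cen j b) (tip j b)) b).trans subset_union_left
    have hmid : (vis ((⋃ b : Bool, segment ℝ (cen j b) (tip j b)) ∪
        Metric.thickening δ (K j))).Reachable (tip j true) (tip j false) := by
      refine (hKconn j).induction₂ (fun x y => (vis ((⋃ b : Bool, segment ℝ (cen j b) (tip j b)) ∪
        Metric.thickening δ (K j))).Reachable x y) ?_ ?_ ?_ (htipK j true) (htipK j false)
      · intro x hx
        have : ∀ᶠ y in 𝓝[K j] x, y ∈ Metric.ball x δ :=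
          mem_nhdsWithin_of_mem_nhds (Metric.ball_mem_nhds x hδ)
        filter_upwards [this] with y hy
        refine vis_reach ?_
        refine ((convex_ball x δ).segment_subset (Metric.mem_ball_self hδ) hy).trans ?_
        refine (Metric.ball_subset_thickening hx δ).trans subset_union_right
      · intro x y z _ _ _ hxy hyz
        exact hxy.trans hyz
      · intro x y _ _ hxy
        exact hxy.symm
    exact ((hrad true).trans hmid).trans (hrad false).symm
  · rintro i j hij z ⟨hz | hz, hz' | hz'⟩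
    · rw [mem_iUnion] at hz hz'
      obtain ⟨b, hz⟩ := hz
      obtain ⟨c, hz'⟩ := hz'
      exact hRR i j hij b c z hz hz'
    · rw [mem_iUnion] at hz
      obtain ⟨b, hz⟩ := hz
      exact absurd hz (hTR j i hij.symm b z hz')
    · rw [mem_iUnion] at hz'
      obtain ⟨b, hz'⟩ := hz'
      exact absurd hz' (hTR i j hij b z hz)
    · exact absurd hz' (hTT i j hij z hz)
  · rintro j z ⟨hz | hz, hzN⟩
    · rw [mem_iUnion] at hz
      obtain ⟨b, hz⟩ := hz
      have := hRN j b z hz hzN
      rw [this]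
      cases b
      · exact Or.inr rfl
      · exact Or.inl rfl
    · exact absurd hzN (hTN j z hz)

end Pool.Agent.H354_OP
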