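import Pool.Agent.H354_OP.Qk0

/-!
# Levels of threads for graphs with sparse quotients: the contradiction
-/

set_option autoImplicit false

namespace Pool.Agent.H354_OP

open Finset
open scoped Classical

set_option linter.unusedSectionVars false

namespace Dat

variable {V : Type} [Fintype V] {D : Dat V}

namespace Ok

variable {m s g₀ q t : ℕ}

theorem step3 (h : D.Ok m s g₀ q t) {A U r : ℕ} (hA : Spn A D.H) (hs : s = 96 * U) (hg : g₀ = 96 * U)
    (hq : g₀ + s + 1 ≤ q) (hrq : 8 * r + 1 ≤ q)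
    (hγ : 8 * U * Bc s g₀ ≤ D.γ) (htU : 64 * U ≤ t) (b : ℕ)
    (hr : (2 * (2 * (4 * U))) ^ r * (2 * (2 * (4 * U)) * A) < (2 * (2 * (4 * U)) + 1) ^ r) (Φ₀ : SimpleGraph V)
    (hΦ₀ : Φ₀ ≤ D.Γ b) (hΦ₀a : Φ₀.IsAcyclic) (E : ℕ)
    (hE : ∑ v, (nb (D.Γ b) v).card + 2 * (D.tok b).card ≤ ∑ v, (nb Φ₀ v).card +
      2 * (D.Pr s b).card + E) : ∃ (Φ : SimpleGraph V) (y : ℕ), Φ ≤ D.Γ (b + 1) ∧ Φ.IsAcyclic ∧
      U * y ≤ t ∧ ∑ v, (nb (D.Γ (b + 1)) v).card + 2 * (D.tok (b + 1)).card ≤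
        ∑ v, (nb Φ v).card + 2 * (D.Pr s (b + 1)).card +
          (E + y + 8 * D.σ b + 4 * D.σ (b + 1)) := by
  obtain ⟨Φ, x, h1, h2, h3, h4⟩ := h.forest_step3 (c := 4 * U) hA hrq b hr Φ₀ hΦ₀ hΦ₀a
  have h5 := h.token_ineq hq b
  have h6 : (D.Ret b).card + (D.Liv b).card ≤ (D.tok b).card := by
    rw [← card_union_of_disjoint]
    · refine card_le_card ?_
      intro p hp
      rw [mem_union, mem_Ret, mem_Liv] at hp
      rcases hp with hp | hp
      · exact hp.1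
      · exact hp.1
    · rw [Finset.disjoint_left]
      intro p hp hp'
      rw [mem_Ret] at hp
      rw [mem_Liv] at hp'
      exact h.LHi hp.2 hp'.2
  have h7 := h.Q_card b
  have h8 := h.hub3_le b s
  have h9 := h.hub3_le (b + 1) s
  have h10 := h.cp_few b
  obtain ⟨Bd, κ, k1, k2, k3⟩ := h.cl_few b
  obtain ⟨Bd', κ', k1', k2', k3'⟩ := h.lgB_few hq b
  obtain ⟨βi, hβi⟩ : ∃ β, β = D.β b := ⟨_, rfl⟩
  obtain ⟨βj, hβj⟩ : ∃ β, β = D.β (b + 1) := ⟨_, rfl⟩
  have hβit : D.γ * βi ≤ t := by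
    rw [hβi]
    exact hub_few h.ht
  have hβjt : D.γ * βj ≤ t := by
    rw [hβj]
    exact hub_few h.ht
  rw [← hβi] at h4 h5 h8 h10
  rw [← hβj] at h9 k3 k3'
  obtain ⟨a₁, ha₁⟩ : ∃ a, a = s * (2 * s * s + 1) := ⟨_, rfl⟩
  obtain ⟨a₂, ha₂⟩ : ∃ a, a = 56 * (2 * (2 * s + 3) + 1) := ⟨_, rfl⟩
  obtain ⟨a₃, ha₃⟩ : ∃ a, a = GC 3 g₀ (s + 2) := ⟨_, rfl⟩
  obtain ⟨a₄, ha₄⟩ : ∃ a, a = GC 3 g₀ 1 := ⟨_, rfl⟩
  have hBc : Bc s g₀ = 504 + 812 * a₁ + 2 * a₂ + 12 * a₃ + 6 * a₄ := by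
    rw [Bc, ha₁, ha₂, ha₃, ha₄]
  rw [← ha₂] at h10
  rw [← ha₃] at k3
  rw [← ha₄] at k3'
  have h8' : s * (D.hub3 s b).card ≤ 406 * (a₁ * βi) := by
    calc s * (D.hub3 s b).card ≤ s * (406 * (2 * s * s + 1) * βi) := Nat.mul_le_mul_left _ h8
      _ = 406 * (a₁ * βi) := by rw [ha₁]; ring
  have h9' : s * (D.hub3 s (b + 1)).card ≤ 406 * (a₁ * βj) := by
    calc s * (D.hub3 s (b + 1)).card ≤ s * (406 * (2 * s * s + 1) * βj) :=
          Nat.mul_le_mul_left _ h9
      _ = 406 * (a₁ * βj) := by rw [ha₁]; ring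
  refine ⟨Φ, x + (504 * βi + 812 * (a₁ * βi) + 2 * (a₂ * βi)) + (812 * (a₁ * βj) +
    12 * (a₃ * βj) + 6 * (a₄ * βj)) + 8 + 12 * Bd + 12 * κ + 6 * Bd' + 6 * κ', h1, h2, ?_, ?_⟩
  · have e1 : 8 * (U * x) ≤ t := by
      calc 8 * (U * x) = 2 * (4 * U) * x := by ring
        _ ≤ t := h3
    have e2 : 8 * (U * (504 * βi + 812 * (a₁ * βi) + 2 * (a₂ * βi))) ≤ t := by
      calc 8 * (U * (504 * βi + 812 * (a₁ * βi) + 2 * (a₂ * βi))) =
          8 * U * (504 + 812 * a₁ + 2 * a₂) * βi := by ring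
        _ ≤ 8 * U * Bc s g₀ * βi := by
          refine Nat.mul_le_mul_right _ (Nat.mul_le_mul_left _ ?_)
          rw [hBc]
          omega
        _ ≤ D.γ * βi := Nat.mul_le_mul_right _ hγ
        _ ≤ t := hβit
    have e3 : 8 * (U * (812 * (a₁ * βj) + 12 * (a₃ * βj) + 6 * (a₄ * βj))) ≤ t := by
      calc 8 * (U * (812 * (a₁ * βj) + 12 * (a₃ * βj) + 6 * (a₄ * βj))) =
          8 * U * (812 * a₁ + 12 * a₃ + 6 * a₄) * βj := by ring
        _ ≤ 8 * U * Bc s g₀ * βj := by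
          refine Nat.mul_le_mul_right _ (Nat.mul_le_mul_left _ ?_)
          rw [hBc]
          omega
        _ ≤ D.γ * βj := Nat.mul_le_mul_right _ hγ
        _ ≤ t := hβjt
    have e4 : 8 * (U * (12 * Bd)) ≤ t := by
      calc 8 * (U * (12 * Bd)) = g₀ * Bd := by rw [hg]; ring
        _ ≤ t := k1
    have e5 : 8 * (U * (12 * κ)) ≤ t := by
      calc 8 * (U * (12 * κ)) = s * κ := by rw [hs]; ring
        _ ≤ t := k2
    have e6 : 16 * (U * (6 * Bd')) ≤ t := by
      calc 16 * (U * (6 * Bd')) = g₀ * Bd' := by rw [hg]; ring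
        _ ≤ t := k1'
    have e7 : 16 * (U * (6 * κ')) ≤ t := by
      calc 16 * (U * (6 * κ')) = s * κ' := by rw [hs]; ring
        _ ≤ t := k2'
    rw [Nat.mul_add, Nat.mul_add, Nat.mul_add, Nat.mul_add, Nat.mul_add, Nat.mul_add, Nat.mul_add]
    omega
  · omega

theorem no_world5 (h : D.Ok m s g₀ q t) {A J U r : ℕ} (hA : Spn A D.H) (hJ : 1 ≤ J) (hUJ : U = 16 * J)
    (hs : s = 96 * U) (hg : g₀ = 96 * U)
    (hq : g₀ + s + 1 ≤ q) (hrq : 8 * r + 1 ≤ q)
    (hr : (2 * (2 * (4 * U))) ^ r * (2 * (2 * (4 * U)) * A) < (2 * (2 * (4 * U)) + 1) ^ r)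
    (hγ : 8 * U * Bc s g₀ ≤ D.γ) (htU : 64 * U ≤ t)
    (hσ : 192 * ∑ i ∈ range (J + 1), D.σ i ≤ t)
    (hdeg : ∀ x, (nb D.H x).card ≤ D.G * D.N J) : False := by
  have key : ∀ b, ∃ (Φ : SimpleGraph V) (E : ℕ), Φ ≤ D.Γ b ∧ Φ.IsAcyclic ∧
      U * E ≤ b * t + U * (12 * ∑ i ∈ range b, D.σ i + 4 * D.σ b) ∧
      ∑ v, (nb (D.Γ b) v).card + 2 * (D.tok b).card ≤ ∑ v, (nb Φ v).card +
        2 * (D.Pr s b).card + E := by
    intro b
    induction b with
    | zero =>
      refine ⟨⊥, 0, bot_le, SimpleGraph.isAcyclic_bot, by simp, ?_⟩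
      have h1 : ∀ v, nb (D.Γ 0) v = ∅ := by
        intro v
        rw [eq_empty_iff_forall_notMem]
        intro y hy
        rw [mem_nb] at hy
        exact h.T0 _ _ hy.1
      have h2 : D.tok 0 = ∅ := by
        rw [eq_empty_iff_forall_notMem]
        intro p hp
        exact h.T0 _ _ (mem_tok.mp hp).2.2
      simp [h1, h2]
    | succ b ih =>
      obtain ⟨Φ₀, E, h1, h2, h3, h4⟩ := ih
      obtain ⟨Φ, y, k1, k2, k3, k4⟩ := h.step3 hA hs hg hq hrq hγ htU b hr Φ₀ h1 h2 E h4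
      refine ⟨Φ, _, k1, k2, ?_, k4⟩
      rw [sum_range_succ]
      have e1 : U * (E + y + 8 * D.σ b + 4 * D.σ (b + 1)) = U * E + U * y +
        U * (8 * D.σ b + 4 * D.σ (b + 1)) := by ring
      have e2 : (b + 1) * t + U * (12 * (∑ i ∈ range b, D.σ i + D.σ b) + 4 * D.σ (b + 1)) =
        b * t + U * (12 * ∑ i ∈ range b, D.σ i + 4 * D.σ b) + t +
        U * (8 * D.σ b + 4 * D.σ (b + 1)) := by ring
      rw [e1, e2]
      omega
  obtain ⟨Φ, E, h1, h2, h3, h4⟩ := key J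
  have hf := forest_sum h2
  have hcard := h.cardV
  have hHi : D.Hi J = ∅ := by
    rw [eq_empty_iff_forall_notMem]
    intro x hx
    rw [mem_Hi] at hx
    have h5 := hdeg x
    have h6 := Nat.le_mul_of_pos_left (D.G * D.N J) h.hγ
    omega
  have hPr : D.Pr s J = ∅ := by
    rw [eq_empty_iff_forall_notMem]
    intro p hp
    have h5 := (mem_hubs.mp (mem_Pr.mp hp).2).1
    rw [hHi] at h5
    simp at h5
  have htok : D.tok J = ∅ := by
    rw [eq_empty_iff_forall_notMem]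
    intro p hp
    have h5 := (mem_tok.mp hp).2.1
    rw [hHi] at h5
    simp at h5
  -- the long threads
  obtain ⟨E', hE'⟩ : ∃ E' : SimpleGraph V, ∀ a c, E'.Adj a c ↔ D.H.Adj a c ∧
      D.N J < D.len s(a, c) := by
    refine ⟨⟨fun a c => D.H.Adj a c ∧ D.N J < D.len s(a, c),
      ⟨fun a c h => ⟨h.1.symm, ?_⟩⟩, ⟨fun a h => h.1.ne rfl⟩⟩, fun a c => Iff.rfl⟩
    rw [Sym2.eq_swap]
    exact h.2
  obtain ⟨Γs, hΓs⟩ : ∃ Γs, Γs = Φ ⊔ E' := ⟨_, rfl⟩
  have hΦH : Φ ≤ D.H := h1.trans ((res_le _ _).trans (T_le J))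
  have hΓsH : Γs ≤ D.H := by
    rw [hΓs]
    refine sup_le hΦH ?_
    intro a c h
    exact ((hE' a c).mp h).1
  have hsup : ∑ v, (nb Φ v).card + ∑ v, (nb E' v).card ≤ ∑ v, (nb Γs v).card := by
    rw [darts_card, darts_card, darts_card, ← card_union_of_disjoint]
    · refine card_le_card fun p hp => ?_
      rw [mem_union, mem_filter, mem_filter] at hp
      rw [mem_filter, hΓs, SimpleGraph.sup_adj]
      rcases hp with hp | hp
      · exact ⟨mem_univ _, Or.inl hp.2⟩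
      · exact ⟨mem_univ _, Or.inr hp.2⟩
    · rw [Finset.disjoint_left]
      intro p hp hp'
      rw [mem_filter] at hp hp'
      have h5 := ((hE' _ _).mp hp'.2).2
      have h6 : D.len s(p.1, p.2) ≤ D.N J := (h1 hp.2).1.2.2
      omega
  have h5 : ∑ v, (nb D.H v).card ≤ ∑ v, (nb (D.Γ J) v).card + ∑ v, (nb E' v).card + 2 := by
    rw [darts_card, darts_card, darts_card]
    have hsub : univ.filter (fun p : V × V => D.H.Adj p.1 p.2) ⊆
        univ.filter (fun p : V × V => (D.Γ J).Adj p.1 p.2) ∪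
        univ.filter (fun p : V × V => E'.Adj p.1 p.2) ∪
        univ.filter (fun p : V × V => s(p.1, p.2) = D.e₀) := by
      intro p hp
      rw [mem_filter] at hp
      rw [mem_union, mem_union, mem_filter, mem_filter, mem_filter]
      by_cases h : s(p.1, p.2) = D.e₀
      · exact Or.inr ⟨mem_univ _, h⟩
      · by_cases hl : D.N J < D.len s(p.1, p.2)
        · exact Or.inl (Or.inr ⟨mem_univ _, (hE' _ _).mpr ⟨hp.2, hl⟩⟩)
        · exact Or.inl (Or.inl ⟨mem_univ _, ⟨hp.2, h, not_lt.mp hl⟩, mem_L.mpr (hdeg _),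
            mem_L.mpr (hdeg _)⟩)
    refine (card_le_card hsub).trans ((card_union_le _ _).trans (add_le_add (card_union_le _ _) ?_))
    obtain ⟨e, he⟩ : ∃ e, e = D.e₀ := ⟨_, rfl⟩
    rw [← he]
    induction e using Sym2.ind with
    | _ a b =>
      refine (card_le_card ?_).trans (card_le_two (a := (a, b)) (b := (b, a)))
      intro p hp
      rw [mem_filter, Sym2.eq_iff] at hp
      rw [mem_insert, mem_singleton]
      rcases hp.2 with h | h
      · exact Or.inl (Prod.ext h.1 h.2)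
      · exact Or.inr (Prod.ext h.1 h.2)
  rw [h.ht] at h5
  rw [hPr, htok, card_empty, card_empty] at h4
  -- a spanning forest
  obtain ⟨Ψ, hΨle, hΨa, hΨr⟩ := Γs.exists_isAcyclic_reachable_eq_le
  have hfΨ := forest_sum hΨa
  obtain ⟨x, hx⟩ : ∃ x, ∑ v, (nb Ψ v).card + x = ∑ v, (nb Γs v).card := by
    refine ⟨∑ v, (nb Γs v).card - ∑ v, (nb Ψ v).card, ?_⟩
    have := sum_le_sum (s := univ) fun v _ => nb_mono hΨle v
    omega
  have hxt : 2 * (4 * U) * x ≤ t := by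
    by_contra hcon
    push Not at hcon
    have hx0 : 0 < x := by
      rcases Nat.eq_zero_or_pos x with h' | h'
      · rw [h'] at hcon
        omega
      · exact h'
    have hshort : ShortC (8 * r + 1) Γs := by
      refine excess_samp (H := D.H) hA hΓsH (Φ := Ψ) (c := 2 * (4 * U)) (x := x) ?_ hΨle hx0 hx.le
        (by omega) hr
      intro a c hac
      have := hac.reachable
      rwa [← hΨr] at this
    obtain ⟨u, v, huv, w, hwp, hw2, hwl, hmax⟩ := heaviest hshort D.len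
    have hlong : D.N J < D.len s(u, v) := by
      by_contra hle
      push Not at hle
      have hΦall : ∀ a c, Γs.Adj a c → D.len s(a, c) ≤ D.N J → Φ.Adj a c := by
        intro a c hac hl
        rw [hΓs, SimpleGraph.sup_adj] at hac
        rcases hac with hac | hac
        · exact hac
        · have := ((hE' a c).mp hac).2
          omega
      have h6 : ∀ f ∈ w.edges, f ∈ Φ.edgeSet := by
        intro f hf
        have h7 := w.edges_subset_edgeSet hf
        have h8 := hmax f hf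
        induction f using Sym2.ind with
        | _ a c => exact hΦall a c h7 (by omega)
      have huv' := hΦall u v huv hle
      have hc : (SimpleGraph.Walk.cons huv'.symm (w.transfer Φ h6)).IsCycle := by
        rw [SimpleGraph.Walk.cons_isCycle_iff]
        refine ⟨hwp.transfer h6, ?_⟩
        intro he
        rw [SimpleGraph.Walk.edges_transfer] at he
        rw [Sym2.eq_swap] at he
        have := path_edge_length w hwp he
        omega
      exact h2 _ hc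
    have hFG : 1 ≤ D.F * D.G := Nat.mul_pos h.F1 h.G1
    refine h.hdir u v (hΓsH huv) (w.mapLe hΓsH) ?_ ?_ ?_ ?_
    · rw [SimpleGraph.Walk.edges_mapLe_eq_edges]
      intro h'
      have := path_edge_length w hwp h'
      omega
    · rw [SimpleGraph.Walk.length_mapLe]
      exact hwl.trans hrq
    · intro f hf
      rw [SimpleGraph.Walk.edges_mapLe_eq_edges] at hf
      exact (hmax f hf).trans (Nat.le_mul_of_pos_left _ hFG)
    · intro y _ _ _
      calc (nb D.H y).card ≤ D.G * D.N J := hdeg y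
        _ ≤ D.G * D.len s(u, v) := Nat.mul_le_mul_left _ hlong.le
        _ ≤ D.F * D.G * D.len s(u, v) := by
          rw [mul_assoc]
          exact Nat.le_mul_of_pos_left _ h.F1
  -- the sum
  have h6 : 12 * ∑ i ∈ range J, D.σ i + 4 * D.σ J ≤ 12 * ∑ i ∈ range (J + 1), D.σ i := by
    rw [sum_range_succ]
    omega
  have h7 : J * (16 * E) ≤ J * (2 * t) := by
    have e1 : J * (16 * E) = U * E := by rw [hUJ]; ring
    have e2 : U * (12 * ∑ i ∈ range J, D.σ i + 4 * D.σ J) ≤ J * t := by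
      calc U * (12 * ∑ i ∈ range J, D.σ i + 4 * D.σ J) ≤
          U * (12 * ∑ i ∈ range (J + 1), D.σ i) := Nat.mul_le_mul_left _ h6
        _ = J * (192 * ∑ i ∈ range (J + 1), D.σ i) := by rw [hUJ]; ring
        _ ≤ J * t := Nat.mul_le_mul_left _ hσ
    have e3 : J * (2 * t) = J * t + J * t := by ring
    rw [e1, e3]
    omega
  have h8 := Nat.le_of_mul_le_mul_left h7 (by omega)
  have h9 : 8 * x ≤ t := by
    refine le_trans (Nat.mul_le_mul_right _ ?_) hxt
    omega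
  omega

end Ok

end Dat

end Pool.Agent.H354_OP
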