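import Pool.Agent.H354_OP.Tw1
import Pool.Agent.H354_OP.Tran
import Pool.Agent.H354_OP.MainJ

/-!
# Critical graphs without a fixed complete minor in which vertices of large degree are joined by few
disjoint paths
-/

set_option autoImplicit false

namespace Pool.Agent.H354_OP

open Finset
open scoped Classical

set_option linter.unusedSectionVars false

/-- a vertex of small degree near just one vertex of large degree can be drawn anew -/
theorem no_good {V : Type} [Fintype V] {H : SimpleGraph V} {len : Sym2 V → ℕ} {q qm s K S : ℕ}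
    (hl : ∀ f ∈ H.edgeSet, 1 ≤ len f) (hd3 : ∀ v, 3 ≤ (nb H v).card) (hdir : NoDir H len q K)
    (hmv : NoMv H len s qm K) (hq : 2 ≤ q) (hqm : 2 ≤ qm) (hSK : S ≤ K) (hSs : S ≤ s)
    (hK1 : 1 ≤ K) {v y : V} (hv : (nb H v).card ≤ S) (hvy : H.Adj v y)
    (hw : ∀ w, H.Adj v w → w ≠ y → (nb H w).card ≤ S ∧ H.Adj w y) : False := by
  have hne : ((nb H v).erase y).Nonempty := by
    rw [← card_pos, card_erase_of_mem (mem_nb.mpr hvy)]
    have := hd3 v
    omega
  obtain ⟨w, hwm, hmin⟩ := Finset.exists_min_image ((nb H v).erase y) (fun w => len s(v, w)) hne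
  rw [mem_erase, mem_nb] at hwm
  obtain ⟨hwy, hvw⟩ := hwm
  obtain ⟨hwS, hwy'⟩ := hw w hvw hwy
  have hlvy := hl s(v, y) hvy
  have hlwy := hl s(w, y) hwy'
  have hlvw := hl s(v, w) hvw
  obtain ⟨a, ha⟩ : ∃ a, a = len s(v, y) := ⟨_, rfl⟩
  obtain ⟨b, hb⟩ : ∃ b, b = len s(w, y) := ⟨_, rfl⟩
  obtain ⟨c, hc⟩ : ∃ c, c = len s(v, w) := ⟨_, rfl⟩
  have hdir1 : ¬ (c ≤ K * a ∧ b ≤ K * a) := by
    rintro ⟨h1, h2⟩
    refine hdir v y hvy (SimpleGraph.Walk.cons hvw (SimpleGraph.Walk.cons hwy'
      SimpleGraph.Walk.nil)) ?_ (by simpa using hq) ?_ ?_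
    · simp only [SimpleGraph.Walk.edges_cons, SimpleGraph.Walk.edges_nil, List.mem_cons,
        List.not_mem_nil, or_false, not_or]
      refine ⟨?_, ?_⟩
      · intro h
        rw [Sym2.eq_iff] at h
        rcases h with ⟨-, h⟩ | ⟨h, h'⟩
        · exact hwy h.symm
        · exact hvy.ne h'.symm
      · intro h
        rw [Sym2.eq_iff] at h
        rcases h with ⟨h, -⟩ | ⟨h, -⟩
        · exact hvw.ne h
        · exact hvy.ne h
    · intro f hf
      simp only [SimpleGraph.Walk.edges_cons, SimpleGraph.Walk.edges_nil, List.mem_cons,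
        List.not_mem_nil, or_false] at hf
      rcases hf with rfl | rfl
      · rw [← hc, ← ha]
        exact h1
      · rw [← hb, ← ha]
        exact h2
    · intro x hx hxv hxy
      simp only [SimpleGraph.Walk.support_cons, SimpleGraph.Walk.support_nil, List.mem_cons,
        List.not_mem_nil, or_false] at hx
      rcases hx with rfl | rfl | rfl
      · exact absurd rfl hxv
      · exact hwS.trans (hSK.trans (Nat.le_mul_of_pos_right _ hlvy))
      · exact absurd rfl hxy
  have hdir2 : ¬ (c ≤ K * b ∧ a ≤ K * b) := by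
    rintro ⟨h1, h2⟩
    refine hdir w y hwy' (SimpleGraph.Walk.cons hvw.symm (SimpleGraph.Walk.cons hvy
      SimpleGraph.Walk.nil)) ?_ (by simpa using hq) ?_ ?_
    · simp only [SimpleGraph.Walk.edges_cons, SimpleGraph.Walk.edges_nil, List.mem_cons,
        List.not_mem_nil, or_false, not_or]
      refine ⟨?_, ?_⟩
      · intro h
        rw [Sym2.eq_iff] at h
        rcases h with ⟨-, h⟩ | ⟨h, h'⟩
        · exact hvy.ne h.symm
        · exact hwy h'.symm
      · intro h
        rw [Sym2.eq_iff] at h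
        rcases h with ⟨h, -⟩ | ⟨h, -⟩
        · exact hvw.ne h.symm
        · exact hwy h
    · intro f hf
      simp only [SimpleGraph.Walk.edges_cons, SimpleGraph.Walk.edges_nil, List.mem_cons,
        List.not_mem_nil, or_false] at hf
      rcases hf with rfl | rfl
      · rw [Sym2.eq_swap, ← hc, ← hb]
        exact h1
      · rw [← hb, ← ha]
        exact h2
    · intro x hx hxw hxy
      simp only [SimpleGraph.Walk.support_cons, SimpleGraph.Walk.support_nil, List.mem_cons,
        List.not_mem_nil, or_false] at hx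
      rcases hx with rfl | rfl | rfl
      · exact absurd rfl hxw
      · exact hv.trans (hSK.trans (Nat.le_mul_of_pos_right _ hlwy))
      · exact absurd rfl hxy
  have hle : ∀ n, n ≤ K * n := fun n => Nat.le_mul_of_pos_left _ hK1
  have hbc : b ≤ K * c := by
    by_contra hcon
    push Not at hcon
    have h1 := hle c
    have h2 := hle b
    have h3 : K * b < a := by
      by_contra h
      push Not at h
      exact hdir2 ⟨by omega, h⟩
    have h4 := hle a
    exact hdir1 ⟨by omega, by omega⟩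
  refine hmv {v} s(v, y) y w w hwy'.symm SimpleGraph.Walk.nil (fun _ => min a b) b ?_ ?_ hvy
    ⟨v, mem_singleton_self v, by simp⟩ ?_ (by simp) ?_ ?_ (hwS.trans hSs) (by simp)
    (Or.inl (hwS.trans hSs)) ?_ ?_
  · rw [Sym2.eq_swap, ← hb]
    simp
  · rw [sum_singleton]
    exact hv.trans hSs
  · intro h
    rw [Sym2.eq_iff] at h
    rcases h with ⟨h, -⟩ | ⟨h, -⟩
    · exact hvy.ne h
    · exact hvw.ne h
  · rw [mem_singleton]
    exact hvy.ne'
  · rw [mem_singleton]
    exact hvw.ne'
  · intro u _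
    omega
  · intro u hu w' huw'
    rw [mem_singleton] at hu
    subst hu
    by_cases h1 : w' = y
    · subst h1
      refine Or.inr (Or.inl ⟨rfl, ?_⟩)
      rw [← ha]
      have := hle a
      omega
    · by_cases h2 : w' = w
      · subst h2
        refine Or.inr (Or.inr (Or.inl ⟨rfl, ?_⟩))
        rw [← hc]
        exact hbc.trans (Nat.le_add_left _ _)
      · refine Or.inr (Or.inr (Or.inr ⟨?_, ?_, ?_⟩))
        · rw [mem_singleton]
          exact huw'.ne'
        · have h3 := hmin w' (mem_erase.mpr ⟨h1, mem_nb.mpr huw'⟩)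
          rw [← hc] at h3
          exact hbc.trans (Nat.mul_le_mul_left _ h3)
        · have h3 := hmin w' (mem_erase.mpr ⟨h1, mem_nb.mpr huw'⟩)
          have hlw' := hl s(u, w') huw'
          have e1 : (H.deleteEdges {s(u, y)}).Adj w u := by
            rw [SimpleGraph.deleteEdges_adj]
            refine ⟨hvw.symm, ?_⟩
            rw [Set.mem_singleton_iff, Sym2.eq_iff]
            rintro (⟨h, -⟩ | ⟨h, -⟩)
            · exact hvw.ne h.symm
            · exact hwy h
          have e2 : (H.deleteEdges {s(u, y)}).Adj u w' := by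
            rw [SimpleGraph.deleteEdges_adj]
            refine ⟨huw', ?_⟩
            rw [Set.mem_singleton_iff, Sym2.eq_iff]
            rintro (⟨-, h⟩ | ⟨h, -⟩)
            · exact h1 h
            · exact hvy.ne h
          refine ⟨SimpleGraph.Walk.cons e1 (SimpleGraph.Walk.cons e2 SimpleGraph.Walk.nil),
            by simpa using hqm, ?_, ?_⟩
          · intro f hf
            simp only [SimpleGraph.Walk.edges_cons, SimpleGraph.Walk.edges_nil, List.mem_cons,
              List.not_mem_nil, or_false] at hf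
            rcases hf with rfl | rfl
            · rw [Sym2.eq_swap]
              exact h3.trans (hle _)
            · exact hle _
          · intro x hx
            simp only [SimpleGraph.Walk.support_cons, SimpleGraph.Walk.support_nil, List.mem_cons,
              List.not_mem_nil, or_false] at hx
            rcases hx with rfl | rfl | rfl
            · exact Or.inr (hwS.trans (hSK.trans (Nat.le_mul_of_pos_right _ hlw')))
            · exact Or.inr (hv.trans (hSK.trans (Nat.le_mul_of_pos_right _ hlw')))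
            · exact Or.inl rfl

theorem res_support {V : Type} [Fintype V] {H : SimpleGraph V} {W : Finset V} {u v : V}
    (w : (res H W).Walk u v) {x : V} (hx : x ∈ w.support) (hxu : x ≠ u) : x ∈ W := by
  have h1 := (w.takeUntil x hx).reverse
  cases h1 with
  | nil => exact absurd rfl hxu
  | cons h' _ => exact h'.2.1

/-- the low vertices carry few edges -/
theorem low_sum {V : Type} [Fintype V] {H : SimpleGraph V} {len : Sym2 V → ℕ} {A q r K S : ℕ}
    (hA : Spn A H) (hl : ∀ f ∈ H.edgeSet, 1 ≤ len f) (hdir : NoDir H len q K)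
    (hK1 : 1 ≤ K) (hSK : S ≤ K) (hrq : 8 * r + 1 ≤ q)
    (hr : (2 * 100) ^ r * (2 * 100 * A) < (2 * 100 + 1) ^ r) :
    100 * ∑ v ∈ Lo H S, ((nb H v).filter (fun y => y ∈ Lo H S)).card ≤ 201 * (Lo H S).card := by
  rcases (Lo H S).eq_empty_or_nonempty with h0 | hne
  · rw [h0]
    simp
  by_contra hcon
  push Not at hcon
  have hshort : ShortC (8 * r + 1) (res H (Lo H S)) := by
    refine dense_samp hA (res_le H (Lo H S)) (c := 100) (S := Lo H S) hne ?_ hr
    have h1 : ∑ z ∈ Lo H S, ((nb (res H (Lo H S)) z).filter (fun y => y ∈ Lo H S)).card =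
        ∑ z ∈ Lo H S, ((nb H z).filter (fun y => y ∈ Lo H S)).card := by
      refine sum_congr rfl fun z hz => ?_
      congr 1
      ext y
      rw [mem_filter, mem_filter, mem_nb, mem_nb]
      constructor
      · rintro ⟨h1, h2⟩
        exact ⟨h1.1, h2⟩
      · rintro ⟨h1, h2⟩
        exact ⟨⟨h1, hz, h2⟩, h2⟩
    rw [h1]
    omega
  obtain ⟨u, v, huv, w, hwp, hw2, hwl, hmax⟩ := heaviest hshort len
  have hluv := hl s(u, v) huv.1
  refine hdir u v huv.1 (w.mapLe (res_le _ _)) ?_ ?_ ?_ ?_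
  · rw [SimpleGraph.Walk.edges_mapLe_eq_edges]
    intro h'
    have := path_edge_length w hwp h'
    omega
  · rw [SimpleGraph.Walk.length_mapLe]
    exact hwl.trans hrq
  · intro f hf
    rw [SimpleGraph.Walk.edges_mapLe_eq_edges] at hf
    exact (hmax f hf).trans (Nat.le_mul_of_pos_left _ hK1)
  · intro x hx hxu _
    rw [SimpleGraph.Walk.support_mapLe_eq_support] at hx
    exact ((mem_Lo.mp (res_support w hx hxu)).trans hSK).trans (Nat.le_mul_of_pos_right _ hluv)

theorem radius_two (t₀ : ℕ) : (2 * 100) ^ (200 * (200 + t₀)) * (2 * 100 * 2 ^ t₀) <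
    (2 * 100 + 1) ^ (200 * (200 + t₀)) := by
  obtain ⟨B, hB⟩ : ∃ B, B = 200 := ⟨_, rfl⟩
  have e1 : 2 * 100 = B := by rw [hB]
  have hB1 : 0 < B := by omega
  rw [e1, ← hB, pow_mul, pow_mul]
  have h2 : (2 * B ^ B) ^ (B + t₀) ≤ ((B + 1) ^ B) ^ (B + t₀) :=
    Nat.pow_le_pow_left (two_mul_pow_le B hB1) _
  rw [mul_pow] at h2
  refine lt_of_lt_of_le ?_ h2
  rw [mul_comm]
  refine Nat.mul_lt_mul_of_pos_right ?_ (pow_pos (pow_pos hB1 B) _)
  rw [pow_add]
  exact Nat.mul_lt_mul_of_pos_right Nat.lt_two_pow_self (by positivity)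

/-- no two vertices of degree more than `D` are joined by more than `p` disjoint connected sets -/
def FewD {V : Type} [Fintype V] (G : SimpleGraph V) (D p : ℕ) : Prop :=
  ∀ y₁ y₂, y₁ ≠ y₂ → D < (nb G y₁).card → D < (nb G y₂).card → ∀ f : Fin (p + 1) → Finset V,
    (∀ i j, i ≠ j → Disjoint (f i) (f j)) →
    (∀ i, (f i).Nonempty ∧ Conn G (f i) ∧ y₁ ∉ f i ∧ y₂ ∉ f i ∧ (∃ a ∈ f i, G.Adj a y₁) ∧
      ∃ b ∈ f i, G.Adj b y₂) → False

theorem TH.fewJ {V : Type} [Fintype V] {G : SimpleGraph V} {Br : V → Prop} (hD : D2 G Br)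
    (hnb : ∀ x : {v // Br v}, (nb (TH G Br) x).card = (nb G x.1).card) {D p : ℕ}
    (h : FewD G D p) {B : Finset {v // Br v}} (hB : ∀ y ∈ B, D < (nb (TH G Br) y).card) :
    FewJ (TH G Br) B p := by
  intro y₁ hy₁ y₂ hy₂ hne 𝒴 hd h𝒴
  by_contra hcon
  push Not at hcon
  obtain ⟨g, hg⟩ : ∃ g : Fin (p + 1) → Finset {v // Br v}, (∀ i, g i ∈ 𝒴) ∧
      ∀ i j, i ≠ j → g i ≠ g j := by
    refine ⟨fun i => (𝒴.equivFin.symm (Fin.castLE hcon i)).1, fun i => (𝒴.equivFin.symm _).2, ?_⟩
    intro i j hij he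
    apply hij
    have h1 := 𝒴.equivFin.symm.injective (Subtype.ext he)
    exact Fin.castLE_injective hcon h1
  obtain ⟨hg1, hg2⟩ := hg
  obtain ⟨f, hf1, hf2, hf3⟩ : ∃ f : Fin (p + 3) → Finset {v // Br v},
      (∀ i : Fin (p + 1), f (Fin.castLE (by omega) i) = g i) ∧
      f ⟨p + 1, by omega⟩ = {y₁} ∧ f ⟨p + 2, by omega⟩ = {y₂} := by
    refine ⟨fun i => if h : i.1 < p + 1 then g ⟨i.1, h⟩ else if i.1 = p + 1 then {y₁} else {y₂},
      ?_, ?_, ?_⟩
    · intro i
      have hi : (Fin.castLE (show p + 1 ≤ p + 3 by omega) i).1 < p + 1 := i.2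
      simp only [dif_pos hi]
      rfl
    · simp
    · simp
  have hcase : ∀ i : Fin (p + 3), (∃ j : Fin (p + 1), i = Fin.castLE (by omega) j) ∨
      i = ⟨p + 1, by omega⟩ ∨ i = ⟨p + 2, by omega⟩ := by
    intro i
    by_cases h1 : i.1 < p + 1
    · exact Or.inl ⟨⟨i.1, h1⟩, by ext; simp⟩
    · by_cases h2 : i.1 = p + 1
      · exact Or.inr (Or.inl (Fin.ext h2))
      · refine Or.inr (Or.inr (Fin.ext ?_))
        have := i.2
        simp only
        omega
  have hdisy : ∀ j, Disjoint (g j) {y₁} ∧ Disjoint (g j) {y₂} := by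
    intro j
    obtain ⟨-, -, k1, k2, -⟩ := h𝒴 _ (hg1 j)
    exact ⟨Finset.disjoint_singleton_right.mpr k1, Finset.disjoint_singleton_right.mpr k2⟩
  have hyy : Disjoint ({y₁} : Finset {v // Br v}) {y₂} := by
    rw [Finset.disjoint_singleton_right, mem_singleton]
    exact hne.symm
  have hdf : ∀ i j, i ≠ j → Disjoint (f i) (f j) := by
    intro i j hij
    rcases hcase i with ⟨i', rfl⟩ | rfl | rfl <;> rcases hcase j with ⟨j', rfl⟩ | rfl | rfl
    · rw [hf1, hf1]
      have hij' : i' ≠ j' := fun h => hij (by rw [h])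
      exact hd _ (hg1 i') _ (hg1 j') (hg2 i' j' hij')
    · rw [hf1, hf2]
      exact (hdisy i').1
    · rw [hf1, hf3]
      exact (hdisy i').2
    · rw [hf1, hf2]
      exact (hdisy j').1.symm
    · exact absurd rfl hij
    · rw [hf2, hf3]
      exact hyy
    · rw [hf1, hf3]
      exact (hdisy j').2.symm
    · rw [hf2, hf3]
      exact hyy.symm
    · exact absurd rfl hij
  obtain ⟨m1, m2, m3, -⟩ := TH.model hD f (by
    intro i
    rcases hcase i with ⟨i', rfl⟩ | rfl | rfl
    · rw [hf1]
      exact (h𝒴 _ (hg1 i')).1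
    · rw [hf2]
      exact singleton_nonempty _
    · rw [hf3]
      exact singleton_nonempty _) (by
    intro i
    rcases hcase i with ⟨i', rfl⟩ | rfl | rfl
    · rw [hf1]
      exact (h𝒴 _ (hg1 i')).2.1
    · rw [hf2]
      exact conn_singleton _ _
    · rw [hf3]
      exact conn_singleton _ _) hdf
  refine h y₁.1 y₂.1 (fun h => hne (Subtype.ext h)) (by rw [← hnb]; exact hB _ hy₁)
    (by rw [← hnb]; exact hB _ hy₂) (fun i => fat G Br f (Fin.castLE (by omega) i)) ?_ ?_
  · intro i j hij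
    refine m3 _ _ fun h => hij ?_
    exact Fin.castLE_injective _ h
  · intro i
    obtain ⟨-, -, k1, k2, k3, k4⟩ := h𝒴 _ (hg1 i)
    have hnot : ∀ y : {v // Br v}, y ∉ g i → y.1 ∉ fat G Br f (Fin.castLE (by omega) i) := by
      intro y hy hmem
      rcases mem_fat.mp hmem with ⟨x, hx, hxy⟩ | ⟨hb, -⟩
      · rw [hf1] at hx
        exact hy ((Subtype.ext hxy : x = y) ▸ hx)
      · exact hb y.2
    have hadj : ∀ (y : {v // Br v}) (j : Fin (p + 3)), p + 1 ≤ j.1 → f j = {y} →
        (∃ a ∈ g i, (TH G Br).Adj a y) →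
        ∃ a ∈ fat G Br f (Fin.castLE (by omega) i), G.Adj a y.1 := by
      rintro y j hj hfj ⟨a, ha, hay⟩
      obtain ⟨-, n, q, hq, h0, hn⟩ := id hay
      have hpos := hq.pos
      refine ⟨q (n - 1), fat_thread (i := Fin.castLE (by omega) i) (j := j) ?_ hq
        (by rw [hf1]; exact ha) h0.symm (by rw [hfj]; exact mem_singleton_self y) hn.symm
        (by omega), ?_⟩
      · rw [Fin.le_def, Fin.val_castLE]
        have := i.2
        omega
      · have := hq.seq.adj (n - 1) (by omega)
        rw [show n - 1 + 1 = n by omega, hn] at this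
        exact this
    exact ⟨m1 _, m2 _, hnot y₁ k1, hnot y₂ k2, hadj y₁ _ le_rfl hf2 k3,
      hadj y₂ _ (Nat.le_succ _) hf3 k4⟩

end Pool.Agent.H354_OP
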