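import Pool.Agent.H354_OP.Tw1

/-!
# Vertices of degree three whose neighbourhood has just one vertex of large degree
-/

set_option autoImplicit false

namespace Pool.Agent.H354_OP

open Finset
open scoped Classical

set_option linter.unusedSectionVars false

variable {V : Type} [Fintype V]

theorem good_vertex3 {H : SimpleGraph V} {A p S γ t : ℕ} (hA : Spn A H)
    (ht : ∑ v, (nb H v).card = t)
    (hd3 : ∀ v, 3 ≤ (nb H v).card) {W Z B : Finset V} (hW : W = Lo H S) (hZ : Z = Zo H S γ)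
    (hB : B = Hb H S γ) (hp : FewJ H B p) (hS1 : 1 ≤ S)
    (hmZ : 3072 * ∑ x ∈ Z, (nb H x).card ≤ t) (hγ : 4000 * (p + 1) * (A + 1) ≤ γ)
    (hWW : 64 * ∑ v ∈ W, ((nb H v).filter (fun y => y ∈ W)).card ≤ 128 * Fintype.card V + t)
    (hn : 0 < Fintype.card V) : ∃ v, (nb H v).card ≤ 3 ∧ ∃ y ∈ B, H.Adj v y ∧
      ∀ w, H.Adj v w → w ≠ y → (nb H w).card ≤ 3 ∧ H.Adj w y := by
  have hmW : ∀ v, v ∈ W ↔ (nb H v).card ≤ S := fun v => by rw [hW, mem_Lo]
  have hmZ' : ∀ v, v ∈ Z ↔ S < (nb H v).card ∧ (nb H v).card ≤ γ * S := fun v => by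
    rw [hZ, mem_Zo]
  have hmB : ∀ v, v ∈ B ↔ γ * S < (nb H v).card := fun v => by rw [hB, mem_Hb]
  have hγ0 : 0 < γ := by
    have : 0 < 4000 * (p + 1) * (A + 1) := by positivity
    omega
  have htri : ∀ v, v ∈ W ∨ v ∈ Z ∨ v ∈ B := by
    intro v
    rw [hmW, hmZ', hmB]
    omega
  have hWB : ∀ v, v ∈ W → v ∉ B := by
    intro v h h'
    rw [hmW] at h
    rw [hmB] at h'
    have := Nat.le_mul_of_pos_left S hγ0
    omega
  -- sets with two hubs
  obtain ⟨T, hT⟩ : ∃ T : Finset V → Prop, ∀ X, T X ↔ X ⊆ W ∧ Conn H X ∧ X.card ≤ 2 ∧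
    ∃ y₁ ∈ B, ∃ y₂ ∈ B, y₁ ≠ y₂ ∧ (∃ a ∈ X, H.Adj a y₁) ∧ ∃ b ∈ X, H.Adj b y₂ :=
    ⟨_, fun X => Iff.rfl⟩
  obtain ⟨good, hgood⟩ : ∃ good : Finset (Finset V) → Prop, ∀ 𝒳, good 𝒳 ↔
      (∀ X ∈ 𝒳, T X) ∧ ∀ X ∈ 𝒳, ∀ X' ∈ 𝒳, X ≠ X' → Disjoint X X' := ⟨_, fun X => Iff.rfl⟩
  obtain ⟨𝒳, h𝒳, hmax⟩ := Finset.exists_max_image (univ.filter good) Finset.card
    ⟨∅, by rw [mem_filter, hgood]; simp⟩
  rw [mem_filter, hgood] at h𝒳
  obtain ⟨-, h𝒳1, h𝒳2⟩ := h𝒳
  obtain ⟨U, hU⟩ : ∃ U, U = 𝒳.biUnion id := ⟨_, rfl⟩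
  have hUW : U ⊆ W := by
    intro v hv
    rw [hU, mem_biUnion] at hv
    obtain ⟨X, hX, hv⟩ := hv
    exact ((hT X).mp (h𝒳1 X hX)).1 hv
  have hUc : U.card ≤ 2 * (p * (A * B.card)) := by
    have h1 := two_hubs hA hp 𝒳 h𝒳2 (fun X hX => by
      obtain ⟨k1, k2, k3, k4⟩ := (hT X).mp (h𝒳1 X hX)
      exact ⟨Finset.disjoint_left.mpr fun v hv => hWB v (k1 hv), k2, k4⟩)
    rw [hU]
    refine card_biUnion_le.trans ?_
    calc ∑ X ∈ 𝒳, (id X).card ≤ ∑ X ∈ 𝒳, 2 := sum_le_sum fun X hX =>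
          ((hT X).mp (h𝒳1 X hX)).2.2.1
      _ = 2 * 𝒳.card := by rw [sum_const, smul_eq_mul, mul_comm]
      _ ≤ 2 * (p * (A * B.card)) := Nat.mul_le_mul_left _ h1
  have hTU : ∀ X, T X → ∃ v ∈ X, v ∈ U := by
    intro X hX
    by_contra hcon
    push Not at hcon
    have hXn : X ∉ 𝒳 := by
      intro h
      obtain ⟨-, -, -, y₁, -, y₂, -, -, ⟨a, ha, -⟩, -⟩ := (hT X).mp hX
      refine hcon a ha ?_
      rw [hU, mem_biUnion]
      exact ⟨X, h, ha⟩
    have hdis : ∀ X' ∈ 𝒳, Disjoint X X' := by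
      intro X' hX'
      rw [Finset.disjoint_left]
      intro v hv hv'
      refine hcon v hv ?_
      rw [hU, mem_biUnion]
      exact ⟨X', hX', hv'⟩
    have := hmax (insert X 𝒳) (by
      rw [mem_filter, hgood]
      refine ⟨mem_univ _, ?_, ?_⟩
      · intro X' hX'
        rw [mem_insert] at hX'
        rcases hX' with rfl | hX'
        · exact hX
        · exact h𝒳1 X' hX'
      · intro X1 h1 X2 h2 hne
        rw [mem_insert] at h1 h2
        rcases h1 with rfl | h1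
        · rcases h2 with rfl | h2
          · exact absurd rfl hne
          · exact hdis X2 h2
        · rcases h2 with rfl | h2
          · exact (hdis X1 h1).symm
          · exact h𝒳2 X1 h1 X2 h2 hne)
    rw [card_insert_of_notMem hXn] at this
    omega
  have hb1 : ∀ v ∈ W, v ∉ U → ((nb H v).filter (fun y => y ∈ B)).card ≤ 1 := by
    intro v hv hvU
    by_contra hcon
    push Not at hcon
    obtain ⟨y₁, h1, y₂, h2, h3⟩ := Finset.one_lt_card.mp hcon
    rw [mem_filter, mem_nb] at h1 h2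
    obtain ⟨u, hu, huU⟩ := hTU {v} ((hT _).mpr ⟨singleton_subset_iff.mpr hv, conn_singleton H v,
      by rw [card_singleton]; omega, y₁, h1.2, y₂, h2.2, h3, ⟨v, mem_singleton_self v, h1.1⟩, v,
      mem_singleton_self v, h2.1⟩)
    rw [mem_singleton] at hu
    exact hvU (hu ▸ huU)
  -- the other neighbours
  obtain ⟨a, ha⟩ : ∃ a : V → ℕ, ∀ v, a v = ((nb H v).filter (fun y => ¬ y ∈ B)).card :=
    ⟨_, fun v => rfl⟩
  have hab : ∀ v, (nb H v).card = ((nb H v).filter (fun y => y ∈ B)).card + a v := by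
    intro v
    rw [ha, card_filter_add_card_filter_not]
  have ha2 : ∀ v ∈ W, v ∉ U → 2 ≤ a v := by
    intro v hv hvU
    have h1 := hb1 v hv hvU
    have h2 := hab v
    have h3 := hd3 v
    omega
  obtain ⟨ω, hω⟩ : ∃ ω, ω = ∑ v ∈ W, ((nb H v).filter (fun y => y ∈ W)).card := ⟨_, rfl⟩
  obtain ⟨ζ, hζ⟩ : ∃ ζ, ζ = ∑ x ∈ Z, (nb H x).card := ⟨_, rfl⟩
  rw [← hω] at hWW
  rw [← hζ] at hmZ
  have haW : ∑ v ∈ W, a v ≤ ω + ζ := by
    have h1 : ∀ v, a v ≤ ((nb H v).filter (fun y => y ∈ W)).card +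
        ((nb H v).filter (fun y => y ∈ Z)).card := by
      intro v
      rw [ha]
      refine (card_le_card ?_).trans (card_union_le _ _)
      intro y hy
      rw [mem_filter] at hy
      rw [mem_union, mem_filter, mem_filter]
      rcases htri y with h | h | h
      · exact Or.inl ⟨hy.1, h⟩
      · exact Or.inr ⟨hy.1, h⟩
      · exact absurd h hy.2
    have h2 : ∑ v ∈ W, ((nb H v).filter (fun y => y ∈ Z)).card ≤ ζ := by
      rw [swap_sum H W Z, hζ]
      exact sum_le_sum fun x _ => card_le_card (filter_subset _ _)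
    have h3 := sum_le_sum (s := W) fun v _ => h1 v
    rw [sum_add_distrib] at h3
    omega
  obtain ⟨W0, hW0⟩ : ∃ W0, W0 = (W \ U).filter (fun v =>
    ((nb H v).filter (fun y => y ∈ B)).card = 0 ∨ 4 ≤ (nb H v).card) := ⟨_, rfl⟩
  have hmW0 : ∀ v, v ∈ W0 ↔ (v ∈ W ∧ v ∉ U) ∧ (((nb H v).filter (fun y => y ∈ B)).card = 0 ∨
      4 ≤ (nb H v).card) := by
    intro v
    rw [hW0, mem_filter, mem_sdiff]
  obtain ⟨x, hx⟩ : ∃ x, x = ∑ v ∈ W0, a v := ⟨_, rfl⟩
  have hx3 : 3 * W0.card ≤ x := by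
    rw [hx, mul_comm, ← smul_eq_mul, ← sum_const]
    refine sum_le_sum fun v hv => ?_
    have h1 := (hmW0 v).mp hv
    have h2 := hab v
    have h3 := hd3 v
    have h4 := hb1 v h1.1.1 h1.1.2
    rcases h1.2 with h5 | h5 <;> omega
  have hx2 : x + 2 * (W \ U).card ≤ ∑ v ∈ W, a v + 2 * W0.card := by
    have h1 : W0 ⊆ W \ U := by
      rw [hW0]
      exact filter_subset _ _
    have h2 : ∑ v ∈ W \ U, a v = ∑ v ∈ (W \ U) \ W0, a v + x := by
      rw [hx]
      exact (sum_sdiff h1).symm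
    have h3 : 2 * ((W \ U) \ W0).card ≤ ∑ v ∈ (W \ U) \ W0, a v := by
      rw [mul_comm, ← smul_eq_mul, ← sum_const]
      refine sum_le_sum fun v hv => ?_
      rw [mem_sdiff, mem_sdiff] at hv
      exact ha2 v hv.1.1 hv.1.2
    have h4 := card_sdiff_add_card_eq_card h1
    have h5 : ∑ v ∈ W \ U, a v ≤ ∑ v ∈ W, a v :=
      sum_le_sum_of_subset sdiff_subset
    omega
  have hUW' := card_sdiff_add_card_eq_card hUW
  -- the sets to be avoided
  obtain ⟨D1, hD1⟩ : ∃ D1, D1 = U.biUnion (fun u => insert u (nb H u)) := ⟨_, rfl⟩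
  obtain ⟨D2, hD2⟩ : ∃ D2, D2 = W0.biUnion (fun u => (nb H u).filter (fun y => ¬ y ∈ B)) := ⟨_, rfl⟩
  obtain ⟨D3, hD3⟩ : ∃ D3, D3 = Z.biUnion (fun u => nb H u) := ⟨_, rfl⟩
  have hD1c : D1.card ≤ U.card * (1 + S) := by
    rw [hD1]
    refine card_biUnion_le.trans ?_
    rw [← smul_eq_mul, ← sum_const]
    refine sum_le_sum fun u hu => ?_
    have h1 := (hmW u).mp (hUW hu)
    have h2 := card_insert_le u (nb H u)
    omega
  have hUD1 : U.card ≤ D1.card := by
    refine card_le_card fun u hu => ?_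
    rw [hD1, mem_biUnion]
    exact ⟨u, hu, mem_insert_self _ _⟩
  have hD2c : D2.card ≤ x := by
    rw [hD2, hx]
    refine card_biUnion_le.trans (sum_le_sum fun u _ => ?_)
    rw [ha]
  have hD3c : D3.card ≤ ∑ x ∈ Z, (nb H x).card := by
    rw [hD3]
    exact card_biUnion_le
  rw [← hζ] at hD3c
  -- the number of hubs
  have hBc : γ * S * B.card ≤ t := by
    rw [← ht, mul_comm, ← smul_eq_mul, ← sum_const]
    refine (sum_le_sum fun v hv => ?_).trans (sum_le_sum_of_subset (subset_univ B))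
    exact ((hmB v).mp hv).le
  have hγB : 4000 * ((p + 1) * (A + 1) * (S * B.card)) ≤ t := by
    calc 4000 * ((p + 1) * (A + 1) * (S * B.card)) = 4000 * (p + 1) * (A + 1) * (S * B.card) := by
          ring
      _ ≤ γ * (S * B.card) := Nat.mul_le_mul_right _ hγ
      _ = γ * S * B.card := by ring
      _ ≤ t := hBc
  have hSB : B.card ≤ S * B.card := Nat.le_mul_of_pos_left _ hS1
  have hpA : p * A ≤ (p + 1) * (A + 1) := Nat.mul_le_mul (Nat.le_succ _) (Nat.le_succ _)
  have hA' : A ≤ (p + 1) * (A + 1) := by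
    calc A ≤ 1 * (A + 1) := by omega
      _ ≤ (p + 1) * (A + 1) := Nat.mul_le_mul_right _ (by omega)
  have h1' : 1 ≤ (p + 1) * (A + 1) := Nat.mul_pos (by omega) (by omega)
  have hB4 : 4000 * B.card ≤ t := by
    refine le_trans (Nat.mul_le_mul_left _ ?_) hγB
    exact hSB.trans (Nat.le_mul_of_pos_left _ h1')
  have hAB4 : 4000 * (A * B.card) ≤ t := by
    refine le_trans (Nat.mul_le_mul_left _ ?_) hγB
    exact Nat.mul_le_mul hA' hSB
  have hD1n : 1000 * D1.card ≤ t := by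
    have h1 : D1.card ≤ 4 * (p * A * (S * B.card)) := by
      calc D1.card ≤ U.card * (1 + S) := hD1c
        _ ≤ 2 * (p * (A * B.card)) * (S + S) := Nat.mul_le_mul hUc (by omega)
        _ = 4 * (p * A * (S * B.card)) := by ring
    have h2 : p * A * (S * B.card) ≤ (p + 1) * (A + 1) * (S * B.card) :=
      Nat.mul_le_mul_right _ hpA
    omega
  have hSU : 1000 * (S * U.card) ≤ t := by
    have h1 : S * U.card ≤ 2 * (p * A * (S * B.card)) := by
      calc S * U.card ≤ S * (2 * (p * (A * B.card))) := Nat.mul_le_mul_left _ hUc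
        _ = 2 * (p * A * (S * B.card)) := by ring
    have h2 : p * A * (S * B.card) ≤ (p + 1) * (A + 1) * (S * B.card) :=
      Nat.mul_le_mul_right _ hpA
    omega
  -- the sum of the degrees
  have hWdis : Disjoint W Z := Finset.disjoint_left.mpr fun v h h' => by
    rw [hmW] at h
    rw [hmZ'] at h'
    omega
  have hWZB : Disjoint (W ∪ Z) B := Finset.disjoint_left.mpr fun v h h' => by
    rw [mem_union] at h
    rcases h with h | h
    · exact hWB v h h'
    · rw [hmZ'] at h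
      rw [hmB] at h'
      omega
  have huniv : (univ : Finset V) = (W ∪ Z) ∪ B := by
    ext v
    simp only [mem_univ, mem_union, true_iff]
    rcases htri v with h | h | h
    · exact Or.inl (Or.inl h)
    · exact Or.inl (Or.inr h)
    · exact Or.inr h
  have hcardn : Fintype.card V = W.card + Z.card + B.card := by
    rw [← Finset.card_univ, huniv, card_union_of_disjoint hWZB, card_union_of_disjoint hWdis]
  have hZζ : Z.card ≤ ζ := by
    rw [hζ, card_eq_sum_ones]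
    refine sum_le_sum fun v _ => ?_
    have := hd3 v
    omega
  obtain ⟨β, hβ⟩ : ∃ β, β = ∑ v ∈ W, ((nb H v).filter (fun y => y ∈ B)).card := ⟨_, rfl⟩
  have hβle : β ≤ W.card + S * U.card := by
    rw [hβ, ← sum_sdiff hUW]
    refine add_le_add ?_ ?_
    · calc ∑ v ∈ W \ U, ((nb H v).filter (fun y => y ∈ B)).card ≤ ∑ v ∈ W \ U, 1 := by
            refine sum_le_sum fun v hv => ?_
            rw [mem_sdiff] at hv
            exact hb1 v hv.1 hv.2
        _ = (W \ U).card := by rw [card_eq_sum_ones]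
        _ ≤ W.card := card_le_card sdiff_subset
    · rw [mul_comm, ← smul_eq_mul, ← sum_const]
      refine sum_le_sum fun v hv => ?_
      exact (card_le_card (filter_subset _ _)).trans ((hmW v).mp (hUW hv))
  have hsumB : ∑ v ∈ B, (nb H v).card ≤ β + ζ + A * B.card := by
    have h1 : ∀ v, (nb H v).card ≤ ((nb H v).filter (fun y => y ∈ W)).card +
        ((nb H v).filter (fun y => y ∈ Z)).card + ((nb H v).filter (fun y => y ∈ B)).card := by
      intro v
      refine (card_le_card ?_).trans ((card_union_le _ _).trans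
        (Nat.add_le_add_right (card_union_le _ _) _))
      intro y hy
      rw [mem_union, mem_union, mem_filter, mem_filter, mem_filter]
      rcases htri y with h | h | h
      · exact Or.inl (Or.inl ⟨hy, h⟩)
      · exact Or.inl (Or.inr ⟨hy, h⟩)
      · exact Or.inr ⟨hy, h⟩
    have h3 := sum_le_sum (s := B) fun v _ => h1 v
    rw [sum_add_distrib, sum_add_distrib, swap_sum H B W, swap_sum H B Z, ← hβ] at h3
    have h4 : ∑ v ∈ Z, ((nb H v).filter (fun y => y ∈ B)).card ≤ ζ := by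
      rw [hζ]
      exact sum_le_sum fun x _ => card_le_card (filter_subset _ _)
    have h5 := hA B (fun x => {x}) (fun x _ y _ hxy => by simpa using hxy)
      (fun x _ => mem_singleton_self x) (fun x _ => conn_singleton H x)
    have h6 : ∑ v ∈ B, ((nb H v).filter (fun y => y ∈ B)).card ≤ A * B.card := by
      refine le_trans (sum_le_sum fun x _ => card_le_card fun y hy => ?_) h5
      rw [mem_filter, mem_nb] at hy
      rw [mem_filter]
      exact ⟨hy.2, hy.1.ne, x, mem_singleton_self x, y, mem_singleton_self y, hy.1⟩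
    omega
  have htot : t ≤ ω + ζ + β + ζ + (β + ζ + A * B.card) := by
    rw [← ht, huniv, sum_union hWZB, sum_union hWdis, ← hζ]
    have h1 : ∑ v ∈ W, (nb H v).card = β + ∑ v ∈ W, a v := by
      rw [hβ, ← sum_add_distrib]
      exact sum_congr rfl fun v _ => hab v
    rw [h1]
    omega
  obtain ⟨v, hv, hv'⟩ : ∃ v ∈ W, v ∉ D1 ∪ W0 ∪ D2 ∪ D3 := by
    by_contra hcon
    push Not at hcon
    have h1 := card_le_card (s := W) (t := D1 ∪ W0 ∪ D2 ∪ D3) hcon
    have h2 := card_union_le (D1 ∪ W0 ∪ D2) D3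
    have h3 := card_union_le (D1 ∪ W0) D2
    have h4 := card_union_le D1 W0
    omega
  simp only [mem_union, not_or] at hv'
  obtain ⟨⟨⟨hv1, hv0⟩, hv2⟩, hvZ⟩ := hv'
  have hvU : v ∉ U := by
    intro h
    apply hv1
    rw [hD1, mem_biUnion]
    exact ⟨v, h, mem_insert_self _ _⟩
  have hvb : ((nb H v).filter (fun y => y ∈ B)).card ≠ 0 := by
    intro h
    exact hv0 ((hmW0 v).mpr ⟨⟨hv, hvU⟩, Or.inl h⟩)
  have hv3 : (nb H v).card ≤ 3 := by
    by_contra h
    exact hv0 ((hmW0 v).mpr ⟨⟨hv, hvU⟩, Or.inr (by omega)⟩)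
  obtain ⟨y, hy⟩ := Finset.card_pos.mp (Nat.pos_of_ne_zero hvb)
  rw [mem_filter, mem_nb] at hy
  refine ⟨v, hv3, y, hy.2, hy.1, ?_⟩
  intro w hvw hwy
  have hwB : w ∉ B := by
    intro h
    have h1 := hb1 v hv hvU
    have h2 : 1 < ((nb H v).filter (fun y => y ∈ B)).card :=
      Finset.one_lt_card.mpr ⟨y, by rw [mem_filter, mem_nb]; exact hy, w,
        by rw [mem_filter, mem_nb]; exact ⟨hvw, h⟩, hwy.symm⟩
    omega
  have hwW : w ∈ W := by
    rcases htri w with h | h | h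
    · exact h
    · exfalso
      apply hvZ
      rw [hD3, mem_biUnion]
      exact ⟨w, h, mem_nb.mpr hvw.symm⟩
    · exact absurd h hwB
  have hwU : w ∉ U := by
    intro h
    apply hv1
    rw [hD1, mem_biUnion]
    exact ⟨w, h, mem_insert_of_mem (mem_nb.mpr hvw.symm)⟩
  have hw0 : w ∉ W0 := by
    intro h
    apply hv2
    rw [hD2, mem_biUnion]
    refine ⟨w, h, ?_⟩
    rw [mem_filter, mem_nb]
    exact ⟨hvw.symm, hWB v hv⟩
  have hwb : ((nb H w).filter (fun y => y ∈ B)).card ≠ 0 := by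
    intro h
    exact hw0 ((hmW0 w).mpr ⟨⟨hwW, hwU⟩, Or.inl h⟩)
  refine ⟨by
    by_contra h
    exact hw0 ((hmW0 w).mpr ⟨⟨hwW, hwU⟩, Or.inr (by omega)⟩), ?_⟩
  obtain ⟨y', hy'⟩ := Finset.card_pos.mp (Nat.pos_of_ne_zero hwb)
  rw [mem_filter, mem_nb] at hy'
  by_cases hyy : y' = y
  · rw [← hyy]
    exact hy'.1
  · exfalso
    have hsub : ({v, w} : Finset V) ⊆ W := by
      intro u hu
      rw [mem_insert, mem_singleton] at hu
      rcases hu with rfl | rfl
      · exact hv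
      · exact hwW
    have hcn : Conn H ({v, w} : Finset V) :=
      conn_insert (conn_singleton H w) (mem_singleton_self w) hvw.symm
    obtain ⟨u, hu, huU⟩ := hTU {v, w} ((hT _).mpr ⟨hsub, hcn, card_le_two, y, hy.2, y', hy'.2,
      fun h => hyy h.symm, ⟨v, by simp, hy.1⟩, w, by simp, hy'.1⟩)
    rw [mem_insert, mem_singleton] at hu
    rcases hu with rfl | rfl
    · exact hvU huU
    · exact hwU huU

end Pool.Agent.H354_OP
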