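import Pool.Agent.H354_OP.Qk1
import Pool.Agent.H354_OP.Tw3
import Pool.Agent.H354_OP.Tw2

/-!
# Levels of threads for graphs with sparse quotients: the contradiction, with vertices of large
degree that are joined by few disjoint connected sets
-/

set_option autoImplicit false

namespace Pool.Agent.H354_OP

open Finset
open scoped Classical

set_option linter.unusedSectionVars false

namespace Dat

variable {V : Type} [Fintype V] {D : Dat V}

namespace Ok

variable {m s g₀ q t : ℕ}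

theorem pr_le_tok (h : D.Ok m s g₀ q t) (b s' : ℕ) : (D.Pr s' b).card ≤ (D.tok b).card := by
  have hch : ∀ p : Finset V × V, ∃ v, p ∈ D.Pr s' b → v ∈ p.1 ∧ (D.T b).Adj v p.2 := by
    intro p
    by_cases hp : p ∈ D.Pr s' b
    · obtain ⟨-, v, hv, hvx⟩ := mem_hubs.mp (mem_Pr.mp hp).2
      exact ⟨v, fun _ => ⟨hv, hvx⟩⟩
    · exact ⟨p.2, fun h => absurd h hp⟩
  choose rep hrep using hch
  refine card_le_card_of_injOn (fun p => (rep p, p.2)) ?_ ?_
  · intro p hp
    rw [mem_coe] at hp ⊢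
    obtain ⟨h1, h2⟩ := hrep p hp
    obtain ⟨h3, h4⟩ := mem_Pr.mp hp
    exact mem_tok.mpr ⟨(h.sm h3).2.2.1 h1, (mem_hubs.mp h4).1, h2⟩
  · intro p hp p' hp' he
    rw [mem_coe] at hp hp'
    obtain ⟨h1, -⟩ := hrep p hp
    obtain ⟨h1', -⟩ := hrep p' hp'
    have e1 : rep p = rep p' := (Prod.mk.inj he).1
    have e2 : p.2 = p'.2 := (Prod.mk.inj he).2
    rw [← e1] at h1'
    exact Prod.ext (h.sm_disj (mem_Pr.mp hp).1 (mem_Pr.mp hp').1 h1 h1') e2

theorem no_world6 (h : D.Ok m s g₀ q t) {A J U r p : ℕ} (hA : Spn A D.H) (hJ : 1 ≤ J)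
    (hUJ : U = 256 * J)
    (hs : s = 96 * U) (hg : g₀ = 96 * U)
    (hq : g₀ + s + 1 ≤ q) (hrq : 8 * r + 1 ≤ q)
    (hr : (2 * (2 * (4 * U))) ^ r * (2 * (2 * (4 * U)) * A) < (2 * (2 * (4 * U)) + 1) ^ r)
    (hγ : 8 * U * Bc s g₀ ≤ D.γ) (htU : 64 * U ≤ t)
    (hσ : 3072 * ∑ i ∈ range (J + 1), D.σ i ≤ t) (hp : FewJ D.H (D.Hi J) p)
    (hγp : 4000 * (p + 1) * (A + 1) ≤ D.γ) (hN : 1 ≤ D.N J) : False := by
  have key : ∀ b, ∃ (Φ : SimpleGraph V) (E : ℕ), Φ ≤ D.Γ b ∧ Φ.IsAcyclic ∧
      U * E ≤ b * t + U * (12 * ∑ i ∈ range b, D.σ i + 4 * D.σ b) ∧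
      ∑ v, (nb (D.Γ b) v).card + 2 * (D.tok b).card ≤ ∑ v, (nb Φ v).card +
        2 * (D.Pr s b).card + E := by
    intro b
    induction b with
    | zero =>
      refine ⟨⊥, 0, bot_le, SimpleGraph.isAcyclic_bot, by simp, ?_⟩
      have h1 : ∀ v, nb (D.Γ 0) v = ∅ := by
        intro v
        rw [eq_empty_iff_forall_notMem]
        intro y hy
        rw [mem_nb] at hy
        exact h.T0 _ _ hy.1
      have h2 : D.tok 0 = ∅ := by
        rw [eq_empty_iff_forall_notMem]
        intro p hp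
        exact h.T0 _ _ (mem_tok.mp hp).2.2
      simp [h1, h2]
    | succ b ih =>
      obtain ⟨Φ₀, E, h1, h2, h3, h4⟩ := ih
      obtain ⟨Φ, y, k1, k2, k3, k4⟩ := h.step3 hA hs hg hq hrq hγ htU b hr Φ₀ h1 h2 E h4
      refine ⟨Φ, _, k1, k2, ?_, k4⟩
      rw [sum_range_succ]
      have e1 : U * (E + y + 8 * D.σ b + 4 * D.σ (b + 1)) = U * E + U * y +
        U * (8 * D.σ b + 4 * D.σ (b + 1)) := by ring
      have e2 : (b + 1) * t + U * (12 * (∑ i ∈ range b, D.σ i + D.σ b) + 4 * D.σ (b + 1)) =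
        b * t + U * (12 * ∑ i ∈ range b, D.σ i + 4 * D.σ b) + t +
        U * (8 * D.σ b + 4 * D.σ (b + 1)) := by ring
      rw [e1, e2]
      omega
  obtain ⟨Φ, E, h1, h2, h3, h4⟩ := key J
  have hf := forest_sum h2
  have hcard := h.cardV
  have hprt := h.pr_le_tok J s
  -- the long threads
  obtain ⟨E', hE'⟩ : ∃ E' : SimpleGraph V, ∀ a c, E'.Adj a c ↔ D.H.Adj a c ∧
      (a ∈ D.L J ∧ c ∈ D.L J) ∧ D.N J < D.len s(a, c) := by
    refine ⟨⟨fun a c => D.H.Adj a c ∧ (a ∈ D.L J ∧ c ∈ D.L J) ∧ D.N J < D.len s(a, c),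
      ⟨fun a c h => ⟨h.1.symm, h.2.1.symm, ?_⟩⟩, ⟨fun a h => h.1.ne rfl⟩⟩, fun a c => Iff.rfl⟩
    rw [Sym2.eq_swap]
    exact h.2.2
  obtain ⟨Γs, hΓs⟩ : ∃ Γs, Γs = Φ ⊔ E' := ⟨_, rfl⟩
  have hΦH : Φ ≤ D.H := h1.trans ((res_le _ _).trans (T_le J))
  have hΓsH : Γs ≤ D.H := by
    rw [hΓs]
    refine sup_le hΦH ?_
    intro a c h
    exact ((hE' a c).mp h).1
  have hΓsL : ∀ a c, Γs.Adj a c → a ∈ D.L J := by
    intro a c hac
    rw [hΓs, SimpleGraph.sup_adj] at hac
    rcases hac with hac | hac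
    · exact (h1 hac).2.1
    · exact ((hE' _ _).mp hac).2.1.1
  have hsup : ∑ v, (nb Φ v).card + ∑ v, (nb E' v).card ≤ ∑ v, (nb Γs v).card := by
    rw [darts_card, darts_card, darts_card, ← card_union_of_disjoint]
    · refine card_le_card fun p hp => ?_
      rw [mem_union, mem_filter, mem_filter] at hp
      rw [mem_filter, hΓs, SimpleGraph.sup_adj]
      rcases hp with hp | hp
      · exact ⟨mem_univ _, Or.inl hp.2⟩
      · exact ⟨mem_univ _, Or.inr hp.2⟩
    · rw [Finset.disjoint_left]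
      intro p hp hp'
      rw [mem_filter] at hp hp'
      have h5 := ((hE' _ _).mp hp'.2).2.2
      have h6 : D.len s(p.1, p.2) ≤ D.N J := (h1 hp.2).1.2.2
      omega
  have h5 : ∑ v ∈ D.L J, ((nb D.H v).filter (fun y => y ∈ D.L J)).card ≤
      ∑ v, (nb (D.Γ J) v).card + ∑ v, (nb E' v).card + 2 := by
    have h50 : ∑ v ∈ D.L J, ((nb D.H v).filter (fun y => y ∈ D.L J)).card ≤
        ∑ v, (nb (res D.H (D.L J)) v).card := by
      refine le_trans (sum_le_sum fun v hv => card_le_card ?_)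
        (sum_le_sum_of_subset (subset_univ (D.L J)))
      intro y hy
      rw [mem_filter, mem_nb] at hy
      rw [mem_nb]
      exact ⟨hy.1, hv, hy.2⟩
    refine h50.trans ?_
    rw [darts_card, darts_card, darts_card]
    have hsub : univ.filter (fun p : V × V => (res D.H (D.L J)).Adj p.1 p.2) ⊆
        univ.filter (fun p : V × V => (D.Γ J).Adj p.1 p.2) ∪
        univ.filter (fun p : V × V => E'.Adj p.1 p.2) ∪
        univ.filter (fun p : V × V => s(p.1, p.2) = D.e₀) := by
      intro p hp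
      rw [mem_filter] at hp
      rw [mem_union, mem_union, mem_filter, mem_filter, mem_filter]
      obtain ⟨-, hpa, hpb, hpc⟩ := hp
      by_cases h : s(p.1, p.2) = D.e₀
      · exact Or.inr ⟨mem_univ _, h⟩
      · by_cases hl : D.N J < D.len s(p.1, p.2)
        · exact Or.inl (Or.inr ⟨mem_univ _, (hE' _ _).mpr ⟨hpa, ⟨hpb, hpc⟩, hl⟩⟩)
        · exact Or.inl (Or.inl ⟨mem_univ _, ⟨hpa, h, not_lt.mp hl⟩, hpb, hpc⟩)
    refine (card_le_card hsub).trans ((card_union_le _ _).trans (add_le_add (card_union_le _ _) ?_))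
    obtain ⟨e, he⟩ : ∃ e, e = D.e₀ := ⟨_, rfl⟩
    rw [← he]
    induction e using Sym2.ind with
    | _ a b =>
      refine (card_le_card ?_).trans (card_le_two (a := (a, b)) (b := (b, a)))
      intro p hp
      rw [mem_filter, Sym2.eq_iff] at hp
      rw [mem_insert, mem_singleton]
      rcases hp.2 with h | h
      · exact Or.inl (Prod.ext h.1 h.2)
      · exact Or.inr (Prod.ext h.1 h.2)
  -- a spanning forest
  obtain ⟨Ψ, hΨle, hΨa, hΨr⟩ := Γs.exists_isAcyclic_reachable_eq_le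
  have hfΨ := forest_sum hΨa
  obtain ⟨x, hx⟩ : ∃ x, ∑ v, (nb Ψ v).card + x = ∑ v, (nb Γs v).card := by
    refine ⟨∑ v, (nb Γs v).card - ∑ v, (nb Ψ v).card, ?_⟩
    have := sum_le_sum (s := univ) fun v _ => nb_mono hΨle v
    omega
  have hxt : 2 * (4 * U) * x ≤ t := by
    by_contra hcon
    push Not at hcon
    have hx0 : 0 < x := by
      rcases Nat.eq_zero_or_pos x with h' | h'
      · rw [h'] at hcon
        omega
      · exact h'
    have hshort : ShortC (8 * r + 1) Γs := by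
      refine excess_samp (H := D.H) hA hΓsH (Φ := Ψ) (c := 2 * (4 * U)) (x := x) ?_ hΨle hx0 hx.le
        (by omega) hr
      intro a c hac
      have := hac.reachable
      rwa [← hΨr] at this
    obtain ⟨u, v, huv, w, hwp, hw2, hwl, hmax⟩ := heaviest hshort D.len
    have hlong : D.N J < D.len s(u, v) := by
      by_contra hle
      push Not at hle
      have hΦall : ∀ a c, Γs.Adj a c → D.len s(a, c) ≤ D.N J → Φ.Adj a c := by
        intro a c hac hl
        rw [hΓs, SimpleGraph.sup_adj] at hac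
        rcases hac with hac | hac
        · exact hac
        · have := ((hE' a c).mp hac).2.2
          omega
      have h6 : ∀ f ∈ w.edges, f ∈ Φ.edgeSet := by
        intro f hf
        have h7 := w.edges_subset_edgeSet hf
        have h8 := hmax f hf
        induction f using Sym2.ind with
        | _ a c => exact hΦall a c h7 (by omega)
      have huv' := hΦall u v huv hle
      have hc : (SimpleGraph.Walk.cons huv'.symm (w.transfer Φ h6)).IsCycle := by
        rw [SimpleGraph.Walk.cons_isCycle_iff]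
        refine ⟨hwp.transfer h6, ?_⟩
        intro he
        rw [SimpleGraph.Walk.edges_transfer] at he
        rw [Sym2.eq_swap] at he
        have := path_edge_length w hwp he
        omega
      exact h2 _ hc
    have hFG : 1 ≤ D.F * D.G := Nat.mul_pos h.F1 h.G1
    refine h.hdir u v (hΓsH huv) (w.mapLe hΓsH) ?_ ?_ ?_ ?_
    · rw [SimpleGraph.Walk.edges_mapLe_eq_edges]
      intro h'
      have := path_edge_length w hwp h'
      omega
    · rw [SimpleGraph.Walk.length_mapLe]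
      exact hwl.trans hrq
    · intro f hf
      rw [SimpleGraph.Walk.edges_mapLe_eq_edges] at hf
      exact (hmax f hf).trans (Nat.le_mul_of_pos_left _ hFG)
    · intro y hy hyu _
      rw [SimpleGraph.Walk.support_mapLe_eq_support] at hy
      have hyL : y ∈ D.L J := by
        have k1 := (w.takeUntil y hy).reverse
        cases k1 with
        | nil => exact absurd rfl hyu
        | cons h' _ => exact hΓsL _ _ h'
      calc (nb D.H y).card ≤ D.G * D.N J := mem_L.mp hyL
        _ ≤ D.G * D.len s(u, v) := Nat.mul_le_mul_left _ hlong.le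
        _ ≤ D.F * D.G * D.len s(u, v) := by
          rw [mul_assoc]
          exact Nat.le_mul_of_pos_left _ h.F1
  -- the sum
  have h6 : 12 * ∑ i ∈ range J, D.σ i + 4 * D.σ J ≤ 12 * ∑ i ∈ range (J + 1), D.σ i := by
    rw [sum_range_succ]
    omega
  have h7 : J * (256 * E) ≤ J * (2 * t) := by
    have e1 : J * (256 * E) = U * E := by rw [hUJ]; ring
    have e2 : U * (12 * ∑ i ∈ range J, D.σ i + 4 * D.σ J) ≤ J * t := by
      calc U * (12 * ∑ i ∈ range J, D.σ i + 4 * D.σ J) ≤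
          U * (12 * ∑ i ∈ range (J + 1), D.σ i) := Nat.mul_le_mul_left _ h6
        _ = J * (3072 * ∑ i ∈ range (J + 1), D.σ i) := by rw [hUJ]; ring
        _ ≤ J * t := Nat.mul_le_mul_left _ hσ
    have e3 : J * (2 * t) = J * t + J * t := by ring
    rw [e1, e3]
    omega
  have h8 := Nat.le_of_mul_le_mul_left h7 (by omega)
  have h9 : 1024 * x ≤ t := by
    obtain ⟨κ, hκ⟩ : ∃ κ, κ = 2 * (4 * U) := ⟨_, rfl⟩
    rw [← hκ] at hxt
    have hκ2 : 1024 ≤ κ := by
      have e1 : κ = 2048 * J := by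
        rw [hκ, hUJ]
        ring
      have e2 : 1024 * 1 ≤ 2048 * J := Nat.mul_le_mul (by norm_num) hJ
      rw [e1]
      exact e2
    have hκ3 : 1024 * x ≤ κ * x := Nat.mul_le_mul_right x hκ2
    exact hκ3.trans hxt
  have hn : 0 < Fintype.card V := by
    rcases Nat.eq_zero_or_pos (Fintype.card V) with h0 | h0
    · exfalso
      rw [Fintype.card_eq_zero_iff] at h0
      have : t = 0 := by
        rw [← h.ht]
        exact Fintype.sum_empty _
      omega
    · exact h0
  obtain ⟨v, hv, y, -, hvy, hw⟩ := good_vertex3 hA h.ht h.hd (W := D.L J) (Z := D.Z J)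
    (B := D.Hi J) (S := D.G * D.N J) (γ := D.γ) rfl rfl rfl hp (Nat.mul_pos h.G1 hN) (by
      refine le_trans (Nat.mul_le_mul_left _ ?_) hσ
      exact single_le_sum (f := fun i => D.σ i) (fun _ _ => Nat.zero_le _)
        (mem_range.mpr (Nat.lt_succ_self J))) hγp (by omega) hn
  have hFG : D.F ≤ D.F * D.G := Nat.le_mul_of_pos_right _ h.G1
  have hsF := h.hsF
  exact no_good (S := 3) h.hl h.hd h.hdir h.hmv (by omega) (by omega) (by omega) (by omega)
    (by omega) hv hvy hw

end Ok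

end Dat

end Pool.Agent.H354_OP
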