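import Pool.Agent.H354_OP.Draw

/-!
# An arc that runs parallel to a walk of a drawn graph
-/

set_option autoImplicit false

namespace Pool.Agent.H354_OP

open Set Filter Topology

theorem offset' {p : ℕ → ℂ} {T : ℕ} (hT : 0 < T) (hp : SimplePoly p T) (S : Set (ℂ × ℂ))
    (hSfin : S.Finite)
    (hS : ∀ s ∈ S, ∀ i < T, segment ℝ s.1 s.2 ∩ segment ℝ (p i) (p (i + 1)) ⊆
      {s.1, s.2} ∩ {p i, p (i + 1)}) (N : Set ℂ) (hN : N.Finite) :
    ∃ B, IsArc B (p 0) (p T) ∧ (∀ z ∈ B, z ∈ polyImg p T → z = p 0 ∨ z = p T) ∧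
      (∀ z ∈ N, z ∈ B → z = p 0 ∨ z = p T) ∧
      ∃ c : ℕ → Bool → ℂ × ℂ → ℂ, ∀ s ∈ S, ∀ z ∈ B, z ∈ segment ℝ s.1 s.2 → z ≠ p 0 → z ≠ p T →
        ∃ j b, 0 < j ∧ j < T ∧ (p j = s.1 ∨ p j = s.2) ∧ z = c j b s := by
  classical
  rcases Nat.lt_or_ge 1 T with h1T | h1T
  · obtain ⟨q, q0, qT, qs, qself, qN, qS⟩ := offset h1T hp S hSfin hS N hN
    obtain ⟨T', rfl⟩ : ∃ T', T = T' + 1 := ⟨T - 1, by omega⟩
    refine ⟨polyImg q (T' + 1), q0 ▸ qT ▸ qs.isArc, ?_, ?_, ?_⟩
    · intro z hz hz'
      rw [mem_polyImg] at hz hz'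
      obtain ⟨i, hi, hz⟩ := hz
      obtain ⟨j, hj, hz'⟩ := hz'
      exact qself i hi j hj z hz hz'
    · intro z hzN hz
      rw [mem_polyImg] at hz
      obtain ⟨i, hi, hz⟩ := hz
      exact qN z hzN i hi hz
    · refine ⟨fun j b s => if b then
          Classical.epsilon (fun z => z ∈ segment ℝ (q j) (q (j + 1)) ∩ segment ℝ s.1 s.2)
        else Classical.epsilon
          (fun z => z ∈ segment ℝ (q (j - 1)) (q (j - 1 + 1)) ∩ segment ℝ s.1 s.2), ?_⟩
      intro s hs z hz hzs hz0 hzT
      rw [mem_polyImg] at hz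
      obtain ⟨i, hi, hz⟩ := hz
      obtain ⟨hsub, hex⟩ := qS s hs i hi
      obtain ⟨j, hj, hj0, hjT, hjs⟩ := hex z ⟨hz, hzs⟩ hz0 hzT
      rcases hj with rfl | rfl
      · refine ⟨j, true, hj0, hjT, hjs, ?_⟩
        simp only [if_true]
        exact hsub ⟨hz, hzs⟩ (Classical.epsilon_spec (p := fun z =>
          z ∈ segment ℝ (q j) (q (j + 1)) ∩ segment ℝ s.1 s.2) ⟨z, hz, hzs⟩)
      · refine ⟨i + 1, false, hj0, hjT, hjs, ?_⟩
        simp only [Bool.false_eq_true, if_false, Nat.add_sub_cancel]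
        exact hsub ⟨hz, hzs⟩ (Classical.epsilon_spec (p := fun z =>
          z ∈ segment ℝ (q i) (q (i + 1)) ∩ segment ℝ s.1 s.2) ⟨z, hz, hzs⟩)
  · obtain rfl : T = 1 := by omega
    have h01 := hp.ne 0 (by omega)
    rw [zero_add] at h01
    set a := p 0 with ha
    set b := p 1 with hb
    set c := a + (1 / 2 : ℝ) • (b - a) with hc
    have hba : b - a ≠ 0 := sub_ne_zero.mpr h01.symm
    set p' : ℕ → ℂ := fun i => if i = 0 then a else if i = 1 then c else b with hp'
    have p0 : p' 0 = a := by simp [hp']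
    have p1 : p' 1 = c := by simp [hp']
    have p2 : p' 2 = b := by simp [hp']
    have hcmem : c ∈ segment ℝ a b := seg_mem (by norm_num) (by norm_num)
    have hac : a ≠ c := by
      intro h
      have h3 : (1 / 2 : ℝ) • (b - a) = 0 := by
        have h4 : a + 0 = a + (1 / 2 : ℝ) • (b - a) := by rw [add_zero]; exact h
        exact (add_left_cancel h4).symm
      rcases smul_eq_zero.mp h3 with h5 | h5
      · norm_num at h5
      · exact hba h5
    have hcb' : b - c = (1 / 2 : ℝ) • (b - a) := by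
      rw [hc, show b - (a + (1 / 2 : ℝ) • (b - a)) = (1 : ℝ) • (b - a) - (1 / 2 : ℝ) • (b - a) by
        rw [one_smul]; ring, ← sub_smul]
      norm_num
    have hcb : c ≠ b := by
      intro h
      rw [← h, sub_self] at hcb'
      have h3 := hcb'.symm
      rcases smul_eq_zero.mp h3 with h5 | h5
      · norm_num at h5
      · apply hac
        exact (sub_eq_zero.mp h5).symm
    have hsimple : SimplePoly p' 2 := by
      refine ⟨?_, ?_, ?_⟩
      · intro i hi
        obtain rfl | rfl : i = 0 ∨ i = 1 := by omega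
        · rw [p0, p1]; exact hac
        · rw [p1, p2]; exact hcb
      · intro i hi
        obtain rfl : i = 0 := by omega
        rw [zero_add, p0, p1, p2]
        rintro z ⟨hz1, hz2⟩
        obtain ⟨t, t0, t1, e1⟩ := mem_seg hz1
        obtain ⟨s, s0, s1, e2⟩ := mem_seg hz2
        have e3 : (t * (1 / 2)) • (b - a) = (1 / 2 + s * (1 / 2)) • (b - a) := by
          have h5 : c - a = (1 / 2 : ℝ) • (b - a) := by rw [hc]; ring
          have h6 : z - a = (t * (1 / 2)) • (b - a) := by
            rw [e1, add_sub_cancel_left, h5, smul_smul]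
          have h7 : z - a = (1 / 2 + s * (1 / 2)) • (b - a) := by
            rw [e2, add_sub_right_comm, h5, hcb', smul_smul, ← add_smul]
          exact h6.symm.trans h7
        have e4 := smul_left_injective ℝ hba e3
        have e5 : s = 0 := by linarith
        rw [mem_singleton_iff, e2, e5, zero_smul, add_zero]
      · intro i j hij hj
        omega
    have hcov : segment ℝ a b ⊆ segment ℝ a c ∪ segment ℝ c b := by
      intro z hz
      obtain ⟨t, t0, t1, e1⟩ := mem_seg hz
      rcases le_total t (1 / 2) with h | h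
      · left
        have : z = a + (2 * t) • (c - a) := by
          rw [show c - a = (1 / 2 : ℝ) • (b - a) by rw [hc]; ring, smul_smul, e1]
          congr 2
          ring
        rw [this]
        exact seg_mem (by linarith) (by linarith)
      · right
        have : z = c + (2 * t - 1) • (b - c) := by
          rw [hcb', smul_smul, e1, hc, add_assoc, ← add_smul]
          congr 2
          ring
        rw [this]
        exact seg_mem (by linarith) (by linarith)
    have hsub : ∀ i < 2, segment ℝ (p' i) (p' (i + 1)) ⊆ segment ℝ a b := by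
      intro i hi
      obtain rfl | rfl : i = 0 ∨ i = 1 := by omega
      · rw [zero_add, p0, p1]
        exact (convex_segment _ _).segment_subset (left_mem_segment _ _ _) hcmem
      · rw [p1, p2]
        exact (convex_segment _ _).segment_subset hcmem (right_mem_segment _ _ _)
    have hSab : ∀ s ∈ S, segment ℝ s.1 s.2 ∩ segment ℝ a b ⊆ {s.1, s.2} ∩ {a, b} := by
      intro s hs
      have := hS s hs 0 (by omega)
      rw [zero_add] at this
      exact this
    obtain ⟨q, q0, qT, qs, qself, qN, qS⟩ := offset (le_refl 2) hsimple S hSfin (by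
      intro s hs i hi z hz
      have h1 := hSab s hs ⟨hz.1, hsub i hi hz.2⟩
      refine ⟨h1.1, ?_⟩
      rcases h1.2 with h2 | h2
      · have h3 : p' 0 ∈ segment ℝ (p' i) (p' (i + 1)) := by rw [p0, ← h2]; exact hz.2
        rcases hsimple.node_mem hi (by omega) h3 with h4 | h4
        · left; rw [h2, ← h4, p0]
        · right; rw [mem_singleton_iff, h2, ← h4, p0]
      · rw [mem_singleton_iff] at h2
        have h3 : p' 2 ∈ segment ℝ (p' i) (p' (i + 1)) := by rw [p2, ← h2]; exact hz.2
        rcases hsimple.node_mem hi (by omega) h3 with h4 | h4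
        · left; rw [h2, ← h4, p2]
        · right; rw [mem_singleton_iff, h2, ← h4, p2]) N hN
    rw [p0] at q0 qself qN qS
    rw [p2] at qT qself qN qS
    refine ⟨polyImg q (1 + 1), q0 ▸ qT ▸ SimplePoly.isArc (n := 1) qs, ?_, ?_, ?_⟩
    · intro z hz hz'
      rw [mem_polyImg] at hz hz'
      obtain ⟨i, hi, hz⟩ := hz
      obtain ⟨j, hj, hz'⟩ := hz'
      obtain rfl : j = 0 := by omega
      rw [zero_add] at hz'
      rcases hcov hz' with h | h
      · refine qself i hi 0 (by omega) z hz ?_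
        rw [zero_add, p0, p1]
        exact h
      · refine qself i hi 1 (by omega) z hz ?_
        rw [p1, p2]
        exact h
    · intro z hzN hz
      rw [mem_polyImg] at hz
      obtain ⟨i, hi, hz⟩ := hz
      exact qN z hzN i hi hz
    · refine ⟨fun _ _ _ => 0, ?_⟩
      intro s hs z hz hzs hz0 hzT
      exfalso
      rw [mem_polyImg] at hz
      obtain ⟨i, hi, hz⟩ := hz
      obtain ⟨hsub', hex⟩ := qS s hs i hi
      obtain ⟨j, hj, hj0, hjT, hjs⟩ := hex z ⟨hz, hzs⟩ hz0 hzT
      obtain rfl : j = 1 := by omega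
      rw [p1] at hjs
      have hcs : c ∈ segment ℝ s.1 s.2 := by
        rcases hjs with h | h
        · rw [h]; exact left_mem_segment _ _ _
        · rw [h]; exact right_mem_segment _ _ _
      rcases (hSab s hs ⟨hcs, hcmem⟩).2 with h | h
      · exact hac h.symm
      · exact hcb h

/-- the segments of the routes of a set of edges -/
def routeGraph {V : Type*} (P : Sym2 V → ℕ → ℂ) (n : Sym2 V → ℕ) (C : Set (Sym2 V)) :
    SimpleGraph ℂ where
  Adj a b := a ≠ b ∧ ∃ e ∈ C, ∃ i < n e, s(a, b) = s(P e i, P e (i + 1))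
  symm := ⟨fun a b h => ⟨h.1.symm, by rw [Sym2.eq_swap]; exact h.2⟩⟩
  loopless := ⟨fun a h => h.1 rfl⟩

theorem encard_iUnion_le {α : Type*} (Z : ℕ → Set α) (K r : ℕ) (h : ∀ i < r, (Z i).encard ≤ K) :
    (⋃ i ∈ {i | i < r}, Z i).encard ≤ r * K := by
  induction r with
  | zero => simp
  | succ r ih =>
    have : (⋃ i ∈ {i | i < r + 1}, Z i) = (⋃ i ∈ {i | i < r}, Z i) ∪ Z r := by
      ext x
      simp only [mem_iUnion, mem_union]
      constructor
      · rintro ⟨i, hi, hx⟩
        have hi' : i < r + 1 := hi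
        rcases Nat.lt_or_ge i r with h1 | h1
        · exact Or.inl ⟨i, h1, hx⟩
        · obtain rfl : i = r := by omega
          exact Or.inr hx
      · rintro (⟨i, hi, hx⟩ | hx)
        · exact ⟨i, Nat.lt_succ_of_lt hi, hx⟩
        · exact ⟨r, Nat.lt_succ_self r, hx⟩
    rw [this]
    refine (Set.encard_union_le _ _).trans ?_
    have h1 := ih fun i hi => h i (by omega)
    have h2 := h r (by omega)
    push_cast
    rw [add_mul, one_mul]
    exact add_le_add h1 h2

theorem reach_walk {V : Type*} {H : SimpleGraph V} {Γ : SimpleGraph ℂ} {pos : V → ℂ} {u v : V}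
    (w : H.Walk u v) (h : ∀ a b, s(a, b) ∈ w.edges → Γ.Reachable (pos a) (pos b)) :
    Γ.Reachable (pos u) (pos v) := by
  induction w with
  | nil => exact SimpleGraph.Reachable.refl _
  | cons hadj w ih =>
    refine (h _ _ ?_).trans (ih fun a b hab => h a b ?_)
    · simp
    · simp [hab]

theorem mem_walk_edges {V : Type*} {H : SimpleGraph V} {u v : V} (w : H.Walk u v) {e : Sym2 V}
    (he : e ∈ w.edges) : ∃ i < w.length, e = s(w.getVert i, w.getVert (i + 1)) := by
  induction w with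
  | nil => simp at he
  | cons hadj w ih =>
    rw [SimpleGraph.Walk.edges_cons, List.mem_cons] at he
    rcases he with rfl | he
    · exact ⟨0, by simp, by simp⟩
    · obtain ⟨i, hi, h⟩ := ih he
      exact ⟨i + 1, by simpa using hi, by simpa using h⟩

/-- In a drawing of `H` with at most `m` crossings on each edge, an arc can be drawn along a walk
from `u` to `v`, with few crossings when the inner vertices of the walk have bounded degree. -/
theorem parallel {V : Type*} [Finite V] {H : SimpleGraph V} {pos : V → ℂ} {A : Sym2 V → Set ℂ}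
    (hd : Drawing H pos A) {m : ℕ} (hx : ∀ e ∈ H.edgeSet, (xs H pos A e).encard ≤ m) {u v : V}
    (huv : u ≠ v) (w : H.Walk u v) {Δ : ℕ}
    (hΔ : ∀ x ∈ w.support, x ≠ u → x ≠ v → {e | e ∈ H.edgeSet ∧ x ∈ e}.encard ≤ Δ) :
    ∃ (A' : Sym2 V → Set ℂ) (B : Set ℂ), Drawing H pos A' ∧
      (∀ e ∈ H.edgeSet, xs H pos A' e ⊆ xs H pos A e) ∧ IsArc B (pos u) (pos v) ∧
      (∀ x, pos x ∈ B → x = u ∨ x = v) ∧
      {q : Sym2 V × ℂ | q.1 ∈ H.edgeSet ∧ q.2 ∈ B ∧ q.2 ∈ A' q.1 ∧ q.2 ∉ range pos}.encard ≤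
        (w.length * (Δ + 2 * m) * 4 : ℕ) := by
  classical
  set N : Set ℂ := range pos ∪ ⋃ e ∈ H.edgeSet, Prod.snd '' xs H pos A e with hNdef
  have hxfin : ∀ e ∈ H.edgeSet, (xs H pos A e).Finite := fun e he =>
    Set.finite_of_encard_le_coe (hx e he)
  have hN : N.Finite := by
    refine (Set.finite_range pos).union ?_
    exact (Set.toFinite _).biUnion fun e he => (hxfin e he).image _
  have hpos : range pos ⊆ N := subset_union_left
  have hNA : ∀ e ∈ H.edgeSet, ∀ f ∈ H.edgeSet, e ≠ f → A e ∩ A f ⊆ N := by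
    rintro e he f hf hef z ⟨hz, hz'⟩
    by_cases h : z ∈ range pos
    · exact hpos h
    · right
      simp only [mem_iUnion]
      exact ⟨e, he, ⟨(f, z), ⟨hf, hef.symm, hz, hz', h⟩, rfl⟩⟩
  have hNx : ∀ z ∈ N, z ∉ range pos → ∀ e ∈ H.edgeSet, z ∈ A e → ∃ g, (g, z) ∈ xs H pos A e := by
    intro z hz hzp e he hze
    rcases hz with hz | hz
    · exact absurd hz hzp
    · simp only [mem_iUnion] at hz
      obtain ⟨h, hh, ⟨g, z'⟩, hgz, rfl⟩ := hz
      by_cases hhe : h = e
      · subst hhe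
        exact ⟨g, hgz⟩
      · exact ⟨h, hh, hhe, hze, hgz.2.2.1, hzp⟩
  obtain ⟨Γ, P, n, hΓ, hdeg, hroute, hPe, hPP, hPA⟩ := exists_poly hd N hN hpos hNA
  have hPne : ∀ e ∈ H.edgeSet, 0 < n e := by
    intro e
    induction e using Sym2.ind with
    | _ a b =>
      intro he
      rcases Nat.eq_zero_or_pos (n s(a, b)) with h0 | h0
      · exfalso
        have hab : pos a ≠ pos b := fun h => (SimpleGraph.Adj.ne he) (hd.inj h)
        rcases hPe a b he with ⟨h1, h2⟩ | ⟨h1, h2⟩
        · rw [h0, h1] at h2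
          exact hab h2
        · rw [h0, h1] at h2
          exact hab h2.symm
      · exact h0
  set A' : Sym2 V → Set ℂ := fun e => polyImg (P e) (n e) with hA'
  have hd' : Drawing H pos A' := by
    refine ⟨hd.inj, ?_, ?_⟩
    · intro a b hab
      have h1 := hPne s(a, b) hab
      obtain ⟨k, hk⟩ : ∃ k, n s(a, b) = k + 1 := ⟨n s(a, b) - 1, by omega⟩
      have h2 : IsArc (A' s(a, b)) (P s(a, b) 0) (P s(a, b) (n s(a, b))) := by
        have h3 := hΓ.simple (hroute s(a, b) hab)
        simp only [hA']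
        rw [hk] at h3 ⊢
        exact h3.isArc
      rcases hPe a b hab with ⟨h3, h4⟩ | ⟨h3, h4⟩
      · rw [h3, h4] at h2
        exact h2
      · rw [h3, h4] at h2
        exact h2.symm
    · intro e he x hx
      exact hd.avoid e he x (hPA e he ⟨hx, hpos ⟨x, rfl⟩⟩)
  have hxs : ∀ e ∈ H.edgeSet, xs H pos A' e ⊆ xs H pos A e := by
    rintro e he ⟨f, z⟩ ⟨h1, h2, h3, h4, h5⟩
    have hzN : z ∈ N := hPP e he f h1 (Ne.symm h2) ⟨h3, h4⟩
    exact ⟨h1, h2, hPA e he ⟨h3, hzN⟩, hPA f h1 ⟨h4, hzN⟩, h5⟩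
  have hwe : ∀ e ∈ w.edges, e ∈ H.edgeSet := fun e he => w.edges_subset_edgeSet he
  -- the path along the walk
  set ΓP := routeGraph P n {e | e ∈ w.edges} with hΓP
  have hΓle : ΓP ≤ Γ := by
    rintro a b ⟨hab, e, he, i, hi, h⟩
    have h1 := (hroute e (hwe e he)).adj i hi
    rw [Sym2.eq_iff] at h
    rcases h with ⟨rfl, rfl⟩ | ⟨rfl, rfl⟩
    · exact h1
    · exact h1.symm
  have hreach : ΓP.Reachable (pos u) (pos v) := by
    refine reach_walk w fun a b hab => ?_
    have hr := hroute s(a, b) (hwe _ hab)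
    have h1 : ∀ i ≤ n s(a, b), ΓP.Reachable (P s(a, b) 0) (P s(a, b) i) := by
      intro i
      induction i with
      | zero => intro _; exact SimpleGraph.Reachable.refl _
      | succ i ih =>
        intro hi
        refine (ih (by omega)).trans (SimpleGraph.Adj.reachable ?_)
        exact ⟨(hr.adj i (by omega)).ne, s(a, b), hab, i, by omega, rfl⟩
    have h2 := h1 _ le_rfl
    rcases hPe a b (hwe _ hab) with ⟨h3, h4⟩ | ⟨h3, h4⟩
    · rw [h3, h4] at h2
      exact h2
    · rw [h3, h4] at h2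
      exact h2.symm
  obtain ⟨p, T, p0, pT, hp⟩ := exists_route hreach
  have hpΓ : Route Γ p T := hp.mono hΓle
  have hTpos : 0 < T := by
    rcases Nat.eq_zero_or_pos T with h | h
    · exfalso
      rw [h, p0] at pT
      exact huv (hd.inj pT)
    · exact h
  have hps := hΓ.simple hpΓ
  set S : Set (ℂ × ℂ) := {q | Γ.Adj q.1 q.2 ∧ ∀ i < T, s(q.1, q.2) ≠ s(p i, p (i + 1))} with hSdef
  have hSfin : S.Finite := hΓ.fin.subset fun q hq => hq.1
  obtain ⟨B, hB, hBp, hBN, c, hc⟩ := offset' hTpos hps S hSfin (by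
    intro s hs i hi
    exact hΓ.meet _ _ _ _ hs.1 (hpΓ.adj i hi) (hs.2 i hi)) N hN
  rw [p0] at hB hBp hBN hc
  rw [pT] at hB hBp hBN hc
  refine ⟨A', B, hd', hxs, hB, ?_, ?_⟩
  · intro x hx'
    rcases hBN (pos x) (hpos ⟨x, rfl⟩) hx' with h | h
    · exact Or.inl (hd.inj h)
    · exact Or.inr (hd.inj h)
  -- nodes of the path at which a segment off the path starts
  have hnode : ∀ s ∈ S, ∀ j, 0 < j → j < T → (p j = s.1 ∨ p j = s.2) → p j ∈ N := by
    rintro ⟨a, b⟩ hs j hj0 hjT hjs
    by_contra hjN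
    have h1 : Γ.Adj (p j) (p (j + 1)) := hpΓ.adj j hjT
    have h2 : Γ.Adj (p j) (p (j - 1)) := by
      have := hpΓ.adj (j - 1) (by omega)
      rw [show j - 1 + 1 = j by omega] at this
      exact this.symm
    have hne : p (j + 1) ≠ p (j - 1) := by
      intro h
      have := hpΓ.inj (j + 1) (j - 1) (by omega) (by omega) h
      omega
    have key : ∀ y, Γ.Adj (p j) y → (∀ i < T, s(p j, y) ≠ s(p i, p (i + 1))) → False := by
      intro y hy hoff
      rcases hdeg (p j) hjN _ _ _ h1 h2 hy with h | h | h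
      · exact hne h
      · refine hoff (j - 1) (by omega) ?_
        rw [show j - 1 + 1 = j by omega, ← h]
        exact Sym2.eq_swap
      · refine hoff j hjT ?_
        rw [← h]
    rcases hjs with h | h
    · simp only at h
      refine key b (h ▸ hs.1) ?_
      intro i hi
      rw [h]
      exact hs.2 i hi
    · simp only at h
      refine key a (h ▸ hs.1.symm) ?_
      intro i hi
      rw [h, Sym2.eq_swap]
      exact hs.2 i hi
  have hpA : ∀ j < T, ∃ e ∈ w.edges, p j ∈ A' e := by
    intro j hj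
    obtain ⟨-, e, he, i, hi, h⟩ := hp.adj j hj
    refine ⟨e, he, ?_⟩
    simp only [hA']
    rw [mem_polyImg]
    refine ⟨i, hi, ?_⟩
    rw [Sym2.eq_iff] at h
    rcases h with ⟨h1, -⟩ | ⟨h1, -⟩
    · rw [h1]; exact left_mem_segment _ _ _
    · rw [h1]; exact right_mem_segment _ _ _
  -- the count
  set Q : Set (Sym2 V × ℂ) := {q | q.1 ∈ H.edgeSet ∧ q.2 ∈ N ∧ q.2 ≠ pos u ∧ q.2 ≠ pos v ∧
    q.2 ∈ A q.1 ∧ ∃ e ∈ w.edges, q.2 ∈ A e} with hQ
  have hQcard : Q.encard ≤ (w.length * (Δ + 2 * m) : ℕ) := by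
    set Z : ℕ → Set (Sym2 V × ℂ) := fun i =>
      {q | q.1 ∈ H.edgeSet ∧ w.getVert i ∈ q.1 ∧ q.2 = pos (w.getVert i) ∧ w.getVert i ≠ u ∧
        w.getVert i ≠ v} ∪
      ((xs H pos A s(w.getVert i, w.getVert (i + 1))) ∪
        (fun q => (s(w.getVert i, w.getVert (i + 1)), q.2)) ''
          (xs H pos A s(w.getVert i, w.getVert (i + 1)))) with hZ
    have hsub : Q ⊆ ⋃ i ∈ {i | i < w.length}, Z i := by
      rintro ⟨f, x⟩ ⟨hf, hxN, hxu, hxv, hxf, e, he, hxe⟩
      simp only at hf hxN hxu hxv hxf hxe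
      obtain ⟨i, hi, rfl⟩ := mem_walk_edges w he
      simp only [mem_iUnion]
      by_cases hxp : x ∈ range pos
      · obtain ⟨y, rfl⟩ := hxp
        have hy1 := hd.avoid _ (hwe _ he) y hxe
        have hy2 := hd.avoid f hf y hxf
        have hyu : y ≠ u := fun h => hxu (by rw [h])
        have hyv : y ≠ v := fun h => hxv (by rw [h])
        rcases Sym2.mem_iff.mp hy1 with h | h
        · exact ⟨i, hi, Or.inl ⟨hf, h ▸ hy2, by rw [h], h ▸ hyu, h ▸ hyv⟩⟩
        · have hi1 : i + 1 < w.length := by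
            rcases Nat.lt_or_ge (i + 1) w.length with h' | h'
            · exact h'
            · exfalso
              rw [w.getVert_of_length_le h'] at h
              exact hyv h
          exact ⟨i + 1, hi1, Or.inl ⟨hf, h ▸ hy2, by rw [h], h ▸ hyu, h ▸ hyv⟩⟩
      · refine ⟨i, hi, Or.inr ?_⟩
        by_cases hfe : f = s(w.getVert i, w.getVert (i + 1))
        · right
          obtain ⟨g, hg⟩ := hNx x hxN hxp _ (hwe _ he) hxe
          exact ⟨(g, x), hg, by rw [hfe]⟩
        · left
          exact ⟨hf, hfe, hxe, hxf, hxp⟩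
    refine (Set.encard_le_encard hsub).trans ?_
    have := encard_iUnion_le Z (Δ + 2 * m) w.length (by
      intro i hi
      have hadj : s(w.getVert i, w.getVert (i + 1)) ∈ H.edgeSet := w.adj_getVert_succ hi
      have h1 : {q : Sym2 V × ℂ | q.1 ∈ H.edgeSet ∧ w.getVert i ∈ q.1 ∧
          q.2 = pos (w.getVert i) ∧ w.getVert i ≠ u ∧ w.getVert i ≠ v}.encard ≤ Δ := by
        by_cases hg : w.getVert i ≠ u ∧ w.getVert i ≠ v
        · refine le_trans ?_ (hΔ (w.getVert i) (w.getVert_mem_support i) hg.1 hg.2)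
          refine Set.encard_le_encard_of_injOn (f := Prod.fst) ?_ ?_
          · rintro q ⟨h1, h2, -⟩
            exact ⟨h1, h2⟩
          · rintro q ⟨-, -, h3, -⟩ q' ⟨-, -, h4, -⟩ h5
            exact Prod.ext h5 (h3.trans h4.symm)
        · have : {q : Sym2 V × ℂ | q.1 ∈ H.edgeSet ∧ w.getVert i ∈ q.1 ∧
              q.2 = pos (w.getVert i) ∧ w.getVert i ≠ u ∧ w.getVert i ≠ v} = ∅ := by
            ext q
            simp only [mem_ofPred_eq, mem_empty_iff_false, iff_false]
            rintro ⟨-, -, -, h3⟩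
            exact hg h3
          rw [this]
          simp
      refine (Set.encard_union_le _ _).trans ?_
      have h2 := hx _ hadj
      have h3 := Set.encard_image_le (fun q : Sym2 V × ℂ =>
        (s(w.getVert i, w.getVert (i + 1)), q.2))
        (xs H pos A s(w.getVert i, w.getVert (i + 1)))
      have h4 := (Set.encard_union_le (xs H pos A s(w.getVert i, w.getVert (i + 1)))
        ((fun q : Sym2 V × ℂ => (s(w.getVert i, w.getVert (i + 1)), q.2)) ''
          (xs H pos A s(w.getVert i, w.getVert (i + 1))))).trans (add_le_add h2 (h3.trans h2))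
      refine (add_le_add h1 h4).trans ?_
      push_cast
      rw [two_mul])
    refine this.trans ?_
    push_cast
    exact le_rfl
  have hex : ∀ q : Sym2 V × ℂ, q.1 ∈ H.edgeSet ∧ q.2 ∈ B ∧ q.2 ∈ A' q.1 ∧ q.2 ∉ range pos →
      ∃ (x : ℂ) (b side : Bool) (i j : ℕ), (q.1, x) ∈ Q ∧ i < n q.1 ∧ j < T ∧ p j = x ∧
        q.2 = c j b (P q.1 i, P q.1 (i + 1)) ∧
        (if side then P q.1 i = x else P q.1 (i + 1) = x) := by
    rintro ⟨f, z⟩ ⟨hf, hzB, hzf, hzp⟩
    simp only at hf hzB hzf hzp ⊢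
    have hzf' := hzf
    simp only [hA'] at hzf
    rw [mem_polyImg] at hzf
    obtain ⟨i, hi, hz⟩ := hzf
    have hz0 : z ≠ pos u := fun h => hzp ⟨u, h.symm⟩
    have hz1 : z ≠ pos v := fun h => hzp ⟨v, h.symm⟩
    have hmem : (P f i, P f (i + 1)) ∈ S := by
      refine ⟨(hroute f hf).adj i hi, ?_⟩
      intro j hj h
      have hzp' : z ∈ polyImg p T := by
        rw [mem_polyImg]
        refine ⟨j, hj, ?_⟩
        simp only at h
        rw [Sym2.eq_iff] at h
        rcases h with ⟨h1, h2⟩ | ⟨h1, h2⟩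
        · rw [← h1, ← h2]; exact hz
        · rw [← h1, ← h2, segment_symm]; exact hz
      rcases hBp z hzB hzp' with h' | h'
      · exact hz0 h'
      · exact hz1 h'
    obtain ⟨j, b, hj0, hjT, hjs, hzc⟩ := hc _ hmem z hzB hz hz0 hz1
    have hjN := hnode _ hmem j hj0 hjT hjs
    obtain ⟨e, he, hje⟩ := hpA j hjT
    have hju : p j ≠ pos u := by
      rw [← p0]
      intro h
      have := hpΓ.inj j 0 hjT.le (by omega) h
      omega
    have hjv : p j ≠ pos v := by
      rw [← pT]
      intro h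
      have := hpΓ.inj j T hjT.le le_rfl h
      omega
    have hjf : p j ∈ A' f := by
      simp only [hA']
      rw [mem_polyImg]
      refine ⟨i, hi, ?_⟩
      rcases hjs with h | h
      · simp only at h
        rw [h]; exact left_mem_segment _ _ _
      · simp only at h
        rw [h]; exact right_mem_segment _ _ _
    have hQm : (f, p j) ∈ Q :=
      ⟨hf, hjN, hju, hjv, hPA f hf ⟨hjf, hjN⟩, e, he, hPA e (hwe e he) ⟨hje, hjN⟩⟩
    rcases hjs with h | h
    · exact ⟨p j, b, true, i, j, hQm, hi, hjT, rfl, hzc, by simpa using h.symm⟩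
    · exact ⟨p j, b, false, i, j, hQm, hi, hjT, rfl, hzc, by simpa using h.symm⟩
  choose! x b side i j hq1 hq2 hq3 hq4 hq5 hq6 using hex
  have hcard : {q : Sym2 V × ℂ | q.1 ∈ H.edgeSet ∧ q.2 ∈ B ∧ q.2 ∈ A' q.1 ∧
      q.2 ∉ range pos}.encard ≤ (Q ×ˢ (univ : Set (Bool × Bool))).encard := by
    refine Set.encard_le_encard_of_injOn (f := fun q => ((q.1, x q), (b q, side q))) ?_ ?_
    · intro q hq
      exact ⟨hq1 q hq, mem_univ _⟩
    · intro q hq q' hq' h
      simp only [Prod.mk.injEq] at h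
      obtain ⟨⟨h1, h2⟩, h3, h4⟩ := h
      have a3 := hq3 q hq
      have a4 := hq4 q hq
      have b3 := hq3 q' hq'
      have b4 := hq4 q' hq'
      have hj : j q = j q' := hpΓ.inj _ _ a3.le b3.le (by rw [a4, b4, h2])
      have a2 := hq2 q hq
      have b2 := hq2 q' hq'
      have a6 := hq6 q hq
      have b6 := hq6 q' hq'
      rw [← h1] at b2 b6
      have hr := hroute q.1 hq.1
      have hi : i q = i q' := by
        rw [← h2, ← h4] at b6
        cases hside : side q
        · rw [hside] at a6 b6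
          simp only [Bool.false_eq_true, if_false] at a6 b6
          have := hr.inj _ _ (by omega) (by omega) (a6.trans b6.symm)
          omega
        · rw [hside] at a6 b6
          simp only [if_true] at a6 b6
          exact hr.inj _ _ (by omega) (by omega) (a6.trans b6.symm)
      refine Prod.ext h1 ?_
      rw [hq5 q hq, hq5 q' hq', hj, h3, h1, hi]
  refine hcard.trans ?_
  rw [Set.encard_prod]
  have h4 : (univ : Set (Bool × Bool)).encard = 4 := by
    rw [Set.encard_univ]
    simp [ENat.card_eq_coe_fintype_card]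
  rw [h4]
  calc Q.encard * 4 ≤ ((w.length * (Δ + 2 * m) : ℕ) : ℕ∞) * 4 := by gcongr
    _ = _ := by push_cast; rfl

end Pool.Agent.H354_OP
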