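import Pool.Agent.H354_OP.Sub
import Pool.Agent.H354_OP.LC
set_option autoImplicit false
namespace Pool.Agent.H354_OP
open Set Filter Topology
open scoped Classical

/-- a type with two more points for every point -/
abbrev Ext (V : Type) : Type := V ⊕ (V × Bool)

theorem exists_add_edge {V : Type} (H : SimpleGraph V) {u v : V} (huv : u ≠ v) :
    ∃ K : SimpleGraph V, ∀ f, f ∈ K.edgeSet ↔ f ∈ H.edgeSet ∨ f = s(u, v) := by
  refine ⟨H ⊔ SimpleGraph.edge u v, fun f => ?_⟩
  rw [SimpleGraph.edgeSet_sup, SimpleGraph.edgeSet_edge_of_ne huv]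
  exact Iff.rfl

theorem sum_getVert_le {V : Type} {H : SimpleGraph V} {u v : V} (w : H.Walk u v) (f : V → ℕ) :
    ∑ i ∈ Finset.range w.length, f (w.getVert i) ≤ (w.support.map f).sum := by
  induction w with
  | nil => simp
  | cons h w ih =>
    rw [SimpleGraph.Walk.length_cons, Finset.sum_range_succ', SimpleGraph.Walk.support_cons,
      List.map_cons, List.sum_cons]
    simp only [SimpleGraph.Walk.getVert_cons_succ, SimpleGraph.Walk.getVert_zero]
    omega

theorem LDraw.add' {V : Type} [Finite V] {H : SimpleGraph V} {ℓ : Sym2 V → ℕ} {S : Set (Sym2 V)}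
    (h : LDraw H ℓ S) {u v : V} (huv : u ≠ v) (hna : ¬ H.Adj u v) (w : H.Walk u v) {U : ℕ}
    (hU : ∀ e ∈ w.edges, ℓ e ≤ U) (D : V → ℕ)
    (hD : ∀ y, y ≠ u → y ≠ v → {e | e ∈ H.edgeSet ∧ y ∈ e}.encard ≤ D y) {K : SimpleGraph V}
    (hK : ∀ f, f ∈ K.edgeSet ↔ f ∈ H.edgeSet ∨ f = s(u, v)) {ℓ' : Sym2 V → ℕ}
    (h1 : ∀ f ∈ H.edgeSet, 5 * ℓ f + 8 ≤ ℓ' f)
    (h2 : 4 * (w.support.map (fun y => D y + 2 * U)).sum ≤ ℓ' s(u, v)) :
    LDraw K ℓ' (insert s(u, v) S) := by
  refine h.add huv hna w hU (fun i => D (w.getVert i)) (fun i _ hu hv => hD _ hu hv) hK h1 ?_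
  refine le_trans (Nat.mul_le_mul_left _ ?_) h2
  exact sum_getVert_le w (fun y => D y + 2 * U)

/-- the constants -/
def rm (m : ℕ) : ℕ → ℕ
  | 0 => m
  | i + 1 => 5 * rm m i + 8

/-- the constants -/
def rc (m r : ℕ) : ℕ → ℕ
  | 0 => 0
  | i + 1 => 5 * rc m r i + 8 + 4 * (8 * r + 9 + 12 * rm m i)

theorem rm_mono (m : ℕ) : Monotone (rm m) := by
  refine monotone_nat_of_le_succ fun i => ?_
  rw [rm]
  omega

theorem rc_mono (m r : ℕ) : Monotone (rc m r) := by
  refine monotone_nat_of_le_succ fun i => ?_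
  rw [rc]
  omega

theorem reroute {V : Type} [Fintype V] {G : SimpleGraph V} {m : ℕ} {e : Sym2 V}
    (hdraw : KDraw m (G.deleteEdges {e})) (X : Finset V) (π : V → V) (hπ : ∀ y, y ∉ X → π y = y)
    {r k₀ : ℕ} (hXr : X.card ≤ r) (hk₀ : k₀ ≤ r) (p : Fin k₀ → ℕ → V) (n : Fin k₀ → ℕ)
    (hn : ∀ i, 0 < n i)
    (hp : ∀ i, PSeq G (p i) (n i)) (hpX : ∀ i, p i 0 ∈ X)
    (hend : ∀ i i' j', 0 < j' → j' < n i' → p i' j' ≠ p i (n i))
    (hinnX : ∀ i j, 0 < j → j < n i → p i j ∉ X)
    (hdisj : ∀ i j i' j', 0 < j → j < n i → 0 < j' → j' < n i' → p i j = p i' j' → i = i')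
    (hends : ∀ i i', s(p i 0, p i (n i)) = s(p i' 0, p i' (n i')) → i = i')
    (hcov : ∀ a b, G.Adj a b → (a ∈ X ∨ ∃ i j, 0 < j ∧ j < n i ∧ p i j = a) →
      ∃ i j, j < n i ∧ s(a, b) = s(p i j, p i (j + 1)))
    (he : ∃ i j, j < n i ∧ e = s(p i j, p i (j + 1))) {R : ℕ} (hR : 0 < R)
    (W : ∀ i, (G.deleteEdges {e}).Walk (π (p i 0)) (π (p i (n i))))
    (hW : ∀ i, (W i).length + ((W i).support.map (fun y =>
      if p i (n i) ∉ X ∧ y = p i (n i) then 0 else (nb G y).card)).sum ≤ R * n i) :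
    KDraw (rc m r r * R + rm m r) G := by
  -- the new vertices
  obtain ⟨ψ, hψ1, hψ2⟩ : ∃ ψ : V → Ext V, (∀ x ∈ X, ψ x = Sum.inr (x, true)) ∧
      ∀ x, x ∉ X → ψ x = Sum.inl x :=
    ⟨fun x => if x ∈ X then Sum.inr (x, true) else Sum.inl x, fun x hx => if_pos hx,
      fun x hx => if_neg hx⟩
  have hψinj : ∀ x y, ψ x = ψ y → x = y := by
    intro x y hxy
    by_cases hx : x ∈ X <;> by_cases hy : y ∈ X
    · rw [hψ1 x hx, hψ1 y hy] at hxy
      exact (Prod.mk.inj (Sum.inr.inj hxy)).1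
    · rw [hψ1 x hx, hψ2 y hy] at hxy
      exact absurd hxy Sum.inr_ne_inl
    · rw [hψ2 x hx, hψ1 y hy] at hxy
      exact absurd hxy Sum.inl_ne_inr
    · rw [hψ2 x hx, hψ2 y hy] at hxy
      exact Sum.inl.inj hxy
  have hψaux : ∀ x y, ψ x ≠ Sum.inr (y, false) := by
    intro x y hxy
    by_cases hx : x ∈ X
    · rw [hψ1 x hx] at hxy
      simp at hxy
    · rw [hψ2 x hx] at hxy
      simp at hxy
  set nw : Fin k₀ → Sym2 (Ext V) := fun i => s(ψ (p i 0), ψ (p i (n i))) with hnw
  have hnwinj : ∀ i i', nw i = nw i' → i = i' := by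
    intro i i' h
    refine hends i i' ?_
    simp only [hnw] at h
    rw [Sym2.eq_iff] at h ⊢
    rcases h with ⟨h1, h2⟩ | ⟨h1, h2⟩
    · exact Or.inl ⟨hψinj _ _ h1, hψinj _ _ h2⟩
    · exact Or.inr ⟨hψinj _ _ h1, hψinj _ _ h2⟩
  -- the old edges
  obtain ⟨pos, A, hd, hx⟩ := hdraw
  obtain ⟨K₀, hK₀adj⟩ : ∃ K₀ : SimpleGraph (Ext V), ∀ a b, K₀.Adj a b ↔
      ∃ a' b', a = Sum.inl a' ∧ b = Sum.inl b' ∧ (G.deleteEdges {e}).Adj a' b' := by
    refine ⟨⟨fun a b => ∃ a' b', a = Sum.inl a' ∧ b = Sum.inl b' ∧ (G.deleteEdges {e}).Adj a' b', ⟨?_⟩, ⟨?_⟩⟩,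
      fun a b => Iff.rfl⟩
    · rintro a b ⟨a', b', rfl, rfl, h⟩
      exact ⟨b', a', rfl, rfl, h.symm⟩
    · rintro a ⟨a', b', rfl, h2, h⟩
      rw [Sum.inl.inj h2] at h
      exact h.ne rfl
  have hL0 : LDraw K₀ (fun _ => m) ∅ := by
    refine LDraw.sum (H := (G.deleteEdges {e})) (ℓ := fun _ => m) (S := ∅) ⟨pos, A, hd, hx, ?_⟩ hK₀adj
      (fun a b _ => le_rfl)
    intro b hb
    exact absurd hb (by simp)
  have hK₀e : ∀ f, f ∈ K₀.edgeSet ↔ ∃ a b, (G.deleteEdges {e}).Adj a b ∧ f = s(Sum.inl a, Sum.inl b) := by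
    intro f
    induction f using Sym2.ind with
    | _ a b =>
      rw [SimpleGraph.mem_edgeSet, hK₀adj]
      constructor
      · rintro ⟨a', b', rfl, rfl, h⟩
        exact ⟨a', b', h, rfl⟩
      · rintro ⟨a', b', h, h2⟩
        rw [Sym2.eq_iff] at h2
        rcases h2 with ⟨rfl, rfl⟩ | ⟨rfl, rfl⟩
        · exact ⟨a', b', rfl, rfl, h⟩
        · exact ⟨b', a', rfl, rfl, h.symm⟩
  -- the leaves
  have hleaves : ∀ Y : Finset V, ∃ K : SimpleGraph (Ext V), (∀ f, f ∈ K.edgeSet ↔ f ∈ K₀.edgeSet ∨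
      ∃ x ∈ Y, f = s(Sum.inr (x, false), Sum.inl (π x)) ∨
        f = s(Sum.inr (x, true), Sum.inr (x, false))) ∧ LDraw K (fun _ => m) ∅ := by
    intro Y
    induction Y using Finset.induction_on with
    | empty => exact ⟨K₀, fun f => by simp, hL0⟩
    | insert x Y hxY ih =>
      obtain ⟨K, hK, hL⟩ := ih
      obtain ⟨K1, hK1⟩ := exists_add_edge K
        (u := (Sum.inr (x, false) : Ext V)) (v := Sum.inl (π x)) (by simp)
      obtain ⟨K2, hK2⟩ := exists_add_edge K1
        (u := (Sum.inr (x, true) : Ext V)) (v := Sum.inr (x, false))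
        (fun h => by simpa using (Prod.mk.inj (Sum.inr.inj h)).2)
      have hiso : ∀ (b : Bool) (z : Ext V), ¬ K.Adj (Sum.inr (x, b)) z := by
        intro b z hz
        rw [← SimpleGraph.mem_edgeSet, hK, hK₀e] at hz
        rcases hz with ⟨a, b', -, h2⟩ | ⟨y, hy, h2 | h2⟩
        · rw [Sym2.eq_iff] at h2
          simp at h2
        · rw [Sym2.eq_iff] at h2
          rcases h2 with h2 | h2
          · exact hxY ((Prod.mk.inj (Sum.inr.inj h2.1)).1 ▸ hy)
          · exact absurd h2.1 Sum.inr_ne_inl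
        · rw [Sym2.eq_iff] at h2
          rcases h2 with h2 | h2
          · exact hxY ((Prod.mk.inj (Sum.inr.inj h2.1)).1 ▸ hy)
          · exact hxY ((Prod.mk.inj (Sum.inr.inj h2.1)).1 ▸ hy)
      have hL1 := hL.leaf (x := (Sum.inr (x, false) : Ext V)) (y := Sum.inl (π x)) (by simp)
        (hiso false) hK1
      have hL2 := hL1.leaf (x := (Sum.inr (x, true) : Ext V)) (y := Sum.inr (x, false))
        (fun h => by simpa using (Prod.mk.inj (Sum.inr.inj h)).2)
        (by
          intro z hz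
          rw [← SimpleGraph.mem_edgeSet, hK1] at hz
          rcases hz with hz | hz
          · exact hiso true z hz
          · rw [Sym2.eq_iff] at hz
            rcases hz with hz | hz
            · have := (Prod.mk.inj (Sum.inr.inj hz.1)).2
              exact absurd this (by simp)
            · exact absurd hz.1 Sum.inr_ne_inl) hK2
      refine ⟨K2, fun f => ?_, hL2⟩
      rw [hK2, hK1, hK]
      constructor
      · rintro (((h | ⟨y, hy, h⟩) | h) | h)
        · exact Or.inl h
        · exact Or.inr ⟨y, Finset.mem_insert_of_mem hy, h⟩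
        · exact Or.inr ⟨x, Finset.mem_insert_self _ _, Or.inl h⟩
        · exact Or.inr ⟨x, Finset.mem_insert_self _ _, Or.inr h⟩
      · rintro (h | ⟨y, hy, h⟩)
        · exact Or.inl (Or.inl (Or.inl h))
        · rw [Finset.mem_insert] at hy
          rcases hy with rfl | hy
          · rcases h with h | h
            · exact Or.inl (Or.inr h)
            · exact Or.inr h
          · exact Or.inl (Or.inl (Or.inr ⟨y, hy, h⟩))
  obtain ⟨K₁, hK₁, hL1⟩ := hleaves X
  have hK₁0 : ∀ a b, (G.deleteEdges {e}).Adj a b → K₁.Adj (Sum.inl a) (Sum.inl b) := by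
    intro a b h
    rw [← SimpleGraph.mem_edgeSet, hK₁, hK₀e]
    exact Or.inl ⟨a, b, h, rfl⟩
  have hK₁1 : ∀ x ∈ X, K₁.Adj (Sum.inr (x, false)) (Sum.inl (π x)) := by
    intro x hx
    rw [← SimpleGraph.mem_edgeSet, hK₁]
    exact Or.inr ⟨x, hx, Or.inl rfl⟩
  have hK₁2 : ∀ x ∈ X, K₁.Adj (Sum.inr (x, true)) (Sum.inr (x, false)) := by
    intro x hx
    rw [← SimpleGraph.mem_edgeSet, hK₁]
    exact Or.inr ⟨x, hx, Or.inr rfl⟩
  have hnwK₁ : ∀ i, nw i ∉ K₁.edgeSet := by
    intro i hi
    rw [hK₁, hK₀e] at hi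
    simp only [hnw] at hi
    rw [hψ1 _ (hpX i)] at hi
    rcases hi with ⟨a, b, -, h2⟩ | ⟨y, hy, h2 | h2⟩
    · rw [Sym2.eq_iff] at h2
      rcases h2 with h2 | h2
      · exact Sum.inr_ne_inl h2.1
      · exact Sum.inr_ne_inl h2.1
    · rw [Sym2.eq_iff] at h2
      rcases h2 with h2 | h2
      · exact absurd (Prod.mk.inj (Sum.inr.inj h2.1)).2 (by simp)
      · exact Sum.inr_ne_inl h2.1
    · rw [Sym2.eq_iff] at h2
      rcases h2 with h2 | h2
      · exact hψaux _ _ h2.2
      · exact absurd (Prod.mk.inj (Sum.inr.inj h2.1)).2 (by simp)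
  -- the degrees
  set D : Fin k₀ → Ext V → ℕ := fun i y => Sum.elim (fun y =>
    (if p i (n i) ∉ X ∧ y = p i (n i) then 0 else (nb G y).card) + 2 * r) (fun _ => r + 2) y with hD
  have hDle : ∀ (K : SimpleGraph (Ext V)) (i : Fin k₀), (∀ f ∈ K.edgeSet, f ∈ K₁.edgeSet ∨
      ∃ j, f = nw j) → ∀ y, y ≠ ψ (p i (n i)) → {f | f ∈ K.edgeSet ∧ y ∈ f}.encard ≤ D i y := by
    intro K i hK y hy
    rcases y with y | ⟨y, b⟩
    · have h0 : D i (Sum.inl y) = (nb G y).card + 2 * r := by
        simp only [hD, Sum.elim_inl]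
        rw [if_neg]
        rintro ⟨h1, h2⟩
        exact hy (by rw [hψ2 _ h1, h2])
      rw [h0]
      have hsub : {f | f ∈ K.edgeSet ∧ Sum.inl y ∈ f} ⊆
          (Sym2.map Sum.inl '' {f | f ∈ G.edgeSet ∧ y ∈ f}) ∪
          ((fun x => s(Sum.inr (x, false), Sum.inl (π x))) '' (X : Set V) ∪ range nw) := by
        rintro f ⟨hf, hyf⟩
        rcases hK f hf with h | ⟨j, rfl⟩
        · rw [hK₁, hK₀e] at h
          rcases h with ⟨a, b, h1, h2⟩ | ⟨x, hx, h | h⟩
          · left
            refine ⟨s(a, b), ⟨?_, ?_⟩, h2.symm⟩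
            · rw [SimpleGraph.deleteEdges_adj] at h1
              exact h1.1
            · rw [h2, Sym2.mem_iff] at hyf
              rcases hyf with hyf | hyf
              · rw [Sum.inl.inj hyf]; simp
              · rw [Sum.inl.inj hyf]; simp
          · right
            left
            exact ⟨x, hx, h.symm⟩
          · exfalso
            rw [h, Sym2.mem_iff] at hyf
            rcases hyf with hyf | hyf
            · exact Sum.inl_ne_inr hyf
            · exact Sum.inl_ne_inr hyf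
        · right
          right
          exact ⟨j, rfl⟩
      refine (Set.encard_le_encard hsub).trans ((Set.encard_union_le _ _).trans ?_)
      have h1 := (Set.encard_image_le (Sym2.map (Sum.inl : V → Ext V))
        {f | f ∈ G.edgeSet ∧ y ∈ f}).trans (incid_le (H := G) y)
      have h2 : ((fun x => (s(Sum.inr (x, false), Sum.inl (π x)) : Sym2 (Ext V))) ''
          (X : Set V)).encard ≤ r := by
        refine (Set.encard_image_le _ _).trans ?_
        rw [Set.encard_coe_eq_coe_finsetCard]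
        exact_mod_cast hXr
      have h3 : (range nw).encard ≤ r := by
        rw [← Set.image_univ]
        refine (Set.encard_image_le _ _).trans ?_
        have : ((k₀ : ℕ) : ℕ∞) ≤ r := by exact_mod_cast hk₀
        simpa using this
      have h4 := (Set.encard_union_le ((fun x => (s(Sum.inr (x, false), Sum.inl (π x)) :
        Sym2 (Ext V))) '' (X : Set V)) (range nw)).trans (add_le_add h2 h3)
      refine (add_le_add h1 h4).trans ?_
      have : (nb G y).card + (r + r) ≤ (nb G y).card + 2 * r := by omega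
      exact_mod_cast this
    · have h0 : D i (Sum.inr (y, b)) = r + 2 := by simp only [hD, Sum.elim_inr]
      rw [h0]
      have hsub : {f | f ∈ K.edgeSet ∧ Sum.inr (y, b) ∈ f} ⊆
          {s(Sum.inr (y, false), Sum.inl (π y)), s(Sum.inr (y, true), Sum.inr (y, false))} ∪
            range nw := by
        rintro f ⟨hf, hyf⟩
        rcases hK f hf with h | ⟨j, rfl⟩
        · left
          rw [hK₁, hK₀e] at h
          rcases h with ⟨a, b, h1, h2⟩ | ⟨x, hx, h | h⟩
          · exfalso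
            rw [h2, Sym2.mem_iff] at hyf
            rcases hyf with hyf | hyf
            · exact Sum.inr_ne_inl hyf
            · exact Sum.inr_ne_inl hyf
          · rw [h, Sym2.mem_iff] at hyf
            rcases hyf with hyf | hyf
            · have := (Prod.mk.inj (Sum.inr.inj hyf)).1
              rw [h, ← this]
              exact Or.inl rfl
            · exact absurd hyf Sum.inr_ne_inl
          · rw [h, Sym2.mem_iff] at hyf
            rcases hyf with hyf | hyf
            · have := (Prod.mk.inj (Sum.inr.inj hyf)).1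
              rw [h, ← this]
              exact Or.inr rfl
            · have := (Prod.mk.inj (Sum.inr.inj hyf)).1
              rw [h, ← this]
              exact Or.inr rfl
        · right
          exact ⟨j, rfl⟩
      refine (Set.encard_le_encard hsub).trans ((Set.encard_union_le _ _).trans ?_)
      have h2 : ({s(Sum.inr (y, false), Sum.inl (π y)), s(Sum.inr (y, true), Sum.inr (y, false))} :
          Set (Sym2 (Ext V))).encard ≤ 2 := by
        refine (Set.encard_insert_le _ _).trans ?_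
        rw [Set.encard_singleton]
        norm_num
      have h3 : (range nw).encard ≤ r := by
        rw [← Set.image_univ]
        refine (Set.encard_image_le _ _).trans ?_
        have : ((k₀ : ℕ) : ℕ∞) ≤ r := by exact_mod_cast hk₀
        simpa using this
      refine (add_le_add h2 h3).trans ?_
      have : 2 + r ≤ r + 2 := by omega
      exact_mod_cast this
  -- the walks
  have hwalk : ∀ i, ∃ w : K₁.Walk (ψ (p i 0)) (ψ (p i (n i))), ∀ U : ℕ,
      (w.support.map (fun y => D i y + 2 * U)).sum ≤ (8 * r + 9 + 12 * U) * (R * n i) := by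
    intro i
    obtain ⟨w₀, hw₀⟩ : ∃ w : K₁.Walk (Sum.inl (π (p i 0))) (Sum.inl (π (p i (n i)))),
        w.support = (W i).support.map Sum.inl := by
      refine ⟨(W i).map ⟨Sum.inl, fun h => hK₁0 _ _ h⟩, ?_⟩
      rw [SimpleGraph.Walk.support_map]
      rfl
    have hadj1 := hK₁1 _ (hpX i)
    have hadj2 := hK₁2 _ (hpX i)
    have hRn : 1 ≤ R * n i := Nat.mul_pos hR (hn i)
    have hsum0 : ∀ U, (w₀.support.map (fun y => D i y + 2 * U)).sum ≤
        (1 + 4 * r + 4 * U) * (R * n i) := by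
      intro U
      rw [hw₀, List.map_map]
      have h1 : ∀ l : List V, (l.map ((fun y => D i y + 2 * U) ∘ Sum.inl)).sum =
          (l.map (fun y => if p i (n i) ∉ X ∧ y = p i (n i) then 0 else (nb G y).card)).sum +
            (2 * r + 2 * U) * l.length := by
        intro l
        induction l with
        | nil => simp
        | cons a l ih =>
          rw [List.map_cons, List.map_cons, List.sum_cons, List.sum_cons, ih, List.length_cons]
          simp only [Function.comp, hD, Sum.elim_inl]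
          ring
      rw [h1, SimpleGraph.Walk.length_support]
      have h2 := hW i
      have h3 : (2 * r + 2 * U) * ((W i).length + 1) ≤ (2 * r + 2 * U) * (2 * (R * n i)) :=
        Nat.mul_le_mul_left _ (by omega)
      have h4 : (1 + 4 * r + 4 * U) * (R * n i) = R * n i + (2 * r + 2 * U) * (2 * (R * n i)) := by
        ring
      rw [h4]
      omega
    have hDr : ∀ z : V × Bool, D i (Sum.inr z) = r + 2 := fun z => by simp only [hD, Sum.elim_inr]
    by_cases hw : p i (n i) ∈ X
    · have hadj3 := hK₁1 _ hw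
      have hadj4 := hK₁2 _ hw
      rw [hψ1 _ (hpX i), hψ1 _ hw]
      refine ⟨SimpleGraph.Walk.cons hadj2 (SimpleGraph.Walk.cons hadj1 (w₀.append
        (SimpleGraph.Walk.cons hadj3.symm (SimpleGraph.Walk.cons hadj4.symm
          SimpleGraph.Walk.nil)))), fun U => ?_⟩
      rw [SimpleGraph.Walk.support_cons, SimpleGraph.Walk.support_cons,
        SimpleGraph.Walk.support_append, SimpleGraph.Walk.support_cons,
        SimpleGraph.Walk.support_cons, SimpleGraph.Walk.support_nil, List.tail_cons,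
        List.map_cons, List.map_cons, List.map_append, List.sum_cons, List.sum_cons,
        List.sum_append, List.map_cons, List.map_cons, List.map_nil, List.sum_cons, List.sum_cons,
        List.sum_nil, hDr, hDr, hDr, hDr]
      have h1 := hsum0 U
      have h2 : (4 * r + 8 + 8 * U) * 1 ≤ (4 * r + 8 + 8 * U) * (R * n i) :=
        Nat.mul_le_mul_left _ hRn
      have h3 : (8 * r + 9 + 12 * U) * (R * n i) = (1 + 4 * r + 4 * U) * (R * n i) +
        (4 * r + 8 + 8 * U) * (R * n i) := by ring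
      rw [h3]
      omega
    · rw [hψ1 _ (hpX i), hψ2 _ hw]
      refine ⟨SimpleGraph.Walk.cons hadj2 (SimpleGraph.Walk.cons hadj1 (w₀.copy rfl
        (by rw [hπ _ hw]))), fun U => ?_⟩
      rw [SimpleGraph.Walk.support_cons, SimpleGraph.Walk.support_cons,
        SimpleGraph.Walk.support_copy, List.map_cons, List.map_cons, List.sum_cons, List.sum_cons,
        hDr, hDr]
      have h1 := hsum0 U
      have h2 : (4 * r + 8 + 8 * U) * 1 ≤ (4 * r + 8 + 8 * U) * (R * n i) :=
        Nat.mul_le_mul_left _ hRn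
      have h3 : (8 * r + 9 + 12 * U) * (R * n i) = (1 + 4 * r + 4 * U) * (R * n i) +
        (4 * r + 8 + 8 * U) * (R * n i) := by ring
      rw [h3]
      omega
  choose w' hw' using hwalk
  -- the new edges
  have hnews : ∀ k ≤ k₀, ∃ (K : SimpleGraph (Ext V)) (ℓ : Sym2 (Ext V) → ℕ),
      (∀ f, f ∈ K.edgeSet ↔ f ∈ K₁.edgeSet ∨ ∃ j : Fin k₀, j.1 < k ∧ f = nw j) ∧
      LDraw K ℓ {f | ∃ j : Fin k₀, j.1 < k ∧ f = nw j} ∧
      (∀ f ∈ K₁.edgeSet, ℓ f ≤ rm m k) ∧
      ∀ j : Fin k₀, j.1 < k → ℓ (nw j) ≤ rc m r k * (R * n j) := by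
    intro k
    induction k with
    | zero =>
      intro _
      refine ⟨K₁, fun _ => m, fun f => by simp, ?_, fun f _ => le_rfl, fun j hj => by omega⟩
      exact hL1.mono le_rfl (fun f _ => le_rfl) (fun b _ hb => by simp at hb)
    | succ k ih =>
      intro hk
      obtain ⟨K, ℓ, hK, hL, hℓ1, hℓ2⟩ := ih (by omega)
      obtain ⟨i, hi⟩ : ∃ i : Fin k₀, i.1 = k := ⟨⟨k, hk⟩, rfl⟩
      have hne : ψ (p i 0) ≠ ψ (p i (n i)) := by
        intro h
        have h1 := (hp i).inj 0 (n i) (Nat.zero_le _) le_rfl (hψinj _ _ h)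
        have h2 := hn i
        omega
      have hna : nw i ∉ K.edgeSet := by
        intro h
        rcases (hK _).mp h with h | ⟨j, hj, h⟩
        · exact hnwK₁ i h
        · have := hnwinj _ _ h
          rw [← this] at hj
          omega
      obtain ⟨K2, hK2⟩ := exists_add_edge K hne
      have hle : K₁ ≤ K := by
        intro a b hab
        exact (hK s(a, b)).mpr (Or.inl hab)
      have hwe : ∀ f ∈ ((w' i).mapLe hle).edges, f ∈ K₁.edgeSet := by
        intro f hf
        rw [SimpleGraph.Walk.edges_mapLe_eq_edges] at hf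
        exact (w' i).edges_subset_edgeSet hf
      obtain ⟨ℓ', hℓ'1, hℓ'2⟩ : ∃ ℓ' : Sym2 (Ext V) → ℕ, (∀ f, f ≠ nw i → ℓ' f = 5 * ℓ f + 8) ∧
          ℓ' (nw i) = rc m r (k + 1) * (R * n i) :=
        ⟨fun f => if f = nw i then rc m r (k + 1) * (R * n i) else 5 * ℓ f + 8,
          fun f hf => if_neg hf, if_pos rfl⟩
      have hKe : ∀ f ∈ K.edgeSet, f ≠ nw i := by
        rintro f hf rfl
        exact hna hf
      have hadd := hL.add' hne hna ((w' i).mapLe hle) (U := rm m k)
        (fun f hf => hℓ1 f (hwe f hf)) (D i) (fun y _ hy => hDle K i (by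
          intro f hf
          rcases (hK f).mp hf with h | ⟨j, -, h⟩
          · exact Or.inl h
          · exact Or.inr ⟨j, h⟩) y hy) hK2 (ℓ' := ℓ') (fun f hf => (hℓ'1 f (hKe f hf)).ge) (by
          rw [SimpleGraph.Walk.support_mapLe_eq_support]
          refine (Nat.mul_le_mul_left 4 (hw' i (rm m k))).trans ?_
          have : ℓ' s(ψ (p i 0), ψ (p i (n i))) = rc m r (k + 1) * (R * n i) := hℓ'2
          rw [this, rc]
          calc 4 * ((8 * r + 9 + 12 * rm m k) * (R * n i)) =
              (4 * (8 * r + 9 + 12 * rm m k)) * (R * n i) := by ring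
            _ ≤ (5 * rc m r k + 8 + 4 * (8 * r + 9 + 12 * rm m k)) * (R * n i) :=
              Nat.mul_le_mul_right _ (by omega))
      refine ⟨K2, ℓ', ?_, hadd.mono le_rfl (fun f _ => le_rfl) ?_, ?_, ?_⟩
      · intro f
        rw [hK2, hK]
        constructor
        · rintro ((h | ⟨j, hj, h⟩) | h)
          · exact Or.inl h
          · exact Or.inr ⟨j, by omega, h⟩
          · exact Or.inr ⟨i, by omega, h⟩
        · rintro (h | ⟨j, hj, h⟩)
          · exact Or.inl (Or.inl h)
          · rcases Nat.lt_or_ge j.1 k with h1 | h1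
            · exact Or.inl (Or.inr ⟨j, h1, h⟩)
            · have : j = i := Fin.ext (by omega)
              rw [this] at h
              exact Or.inr h
      · rintro b - ⟨j, hj, h⟩
        rcases Nat.lt_or_ge j.1 k with h1 | h1
        · exact Or.inr ⟨j, h1, h⟩
        · have : j = i := Fin.ext (by omega)
          rw [this] at h
          exact Or.inl h
      · intro f hf
        rw [hℓ'1 f (hKe f ((hK f).mpr (Or.inl hf))), rm]
        have := hℓ1 f hf
        omega
      · intro j hj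
        rcases Nat.lt_or_ge j.1 k with h1 | h1
        · have h2 : nw j ≠ nw i := by
            intro h
            have := hnwinj _ _ h
            rw [this] at h1
            omega
          rw [hℓ'1 _ h2, rc]
          have h3 := hℓ2 j h1
          have h4 : 1 ≤ R * n j := Nat.mul_pos hR (hn j)
          calc 5 * ℓ (nw j) + 8 ≤ 5 * (rc m r k * (R * n j)) + 8 * (R * n j) := by omega
            _ = (5 * rc m r k + 8) * (R * n j) := by ring
            _ ≤ (5 * rc m r k + 8 + 4 * (8 * r + 9 + 12 * rm m k)) * (R * n j) :=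
              Nat.mul_le_mul_right _ (by omega)
        · have : j = i := Fin.ext (by omega)
          rw [this, hℓ'2]
  obtain ⟨K, ℓ, hK, hL, hℓ1, hℓ2⟩ := hnews k₀ le_rfl
  have hmr := rm_mono m hk₀
  have hcr := rc_mono m r hk₀
  have hTEe : ∀ a b, G.Adj a b → ¬ (∃ i j, j < n i ∧ s(a, b) = s(p i j, p i (j + 1))) →
      (a ∉ X ∧ ¬ ∃ i j, 0 < j ∧ j < n i ∧ p i j = a) ∧ (G.deleteEdges {e}).Adj a b := by
    intro a b hab hT
    refine ⟨⟨fun h => hT (hcov a b hab (Or.inl h)), fun h => hT (hcov a b hab (Or.inr h))⟩, ?_⟩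
    rw [SimpleGraph.deleteEdges_adj]
    refine ⟨hab, fun h => hT ?_⟩
    rw [Set.mem_singleton_iff] at h
    rw [h]
    exact he
  have hTEb : ∀ a b, G.Adj a b → ¬ (∃ i j, j < n i ∧ s(a, b) = s(p i j, p i (j + 1))) →
      (b ∉ X ∧ ¬ ∃ i j, 0 < j ∧ j < n i ∧ p i j = b) := by
    intro a b hab hT
    refine (hTEe b a hab.symm ?_).1
    rw [Sym2.eq_swap]
    exact hT
  refine hL.subdiv (G := G) p n hn hp ψ (Inn := fun x => ∃ i j, 0 < j ∧ j < n i ∧ p i j = x)
    (fun x => Iff.rfl) (TE := fun f => ∃ i j, j < n i ∧ f = s(p i j, p i (j + 1)))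
    (fun f => Iff.rfl) (fun x y _ _ h => hψinj x y h) ?_ hdisj ?_ (q := rc m r r * R) (by omega)
    ?_ (fun i i' h => hnwinj i i' h) ?_ ?_
  · intro i
    refine ⟨?_, ?_⟩
    · rintro ⟨i', j', h1, h2, h3⟩
      refine hinnX i' j' h1 h2 ?_
      rw [h3]
      exact hpX i
    · rintro ⟨i', j', h1, h2, h3⟩
      exact hend i i' j' h1 h2 h3
  · intro a b hab hT
    have h1 := hTEe a b hab hT
    have h2 := hTEb a b hab hT
    refine ⟨h1.1.2, h2.2, ?_⟩
    rw [hψ2 a h1.1.1, hψ2 b h2.1]
    exact (hK s(Sum.inl a, Sum.inl b)).mpr (Or.inl (hK₁0 a b h1.2))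
  · intro i
    refine ⟨(hK _).mpr (Or.inr ⟨i, i.2, rfl⟩), ⟨i, i.2, rfl⟩, ?_⟩
    have := hℓ2 i i.2
    rw [mul_assoc]
    exact this.trans (Nat.mul_le_mul_right _ hcr)
  · intro a b hab hT i h
    have h1 := hTEe a b hab hT
    have h2 := hTEb a b hab hT
    rw [hψ2 a h1.1.1, hψ2 b h2.1, hψ1 _ (hpX i), Sym2.eq_iff] at h
    rcases h with h | h
    · exact Sum.inl_ne_inr h.1
    · exact Sum.inl_ne_inr h.2
  · intro a b hab hT
    have h1 := hTEe a b hab hT
    have h2 := hTEb a b hab hT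
    rw [hψ2 a h1.1.1, hψ2 b h2.1]
    exact (hℓ1 _ (hK₁0 a b h1.2)).trans (by omega)

end Pool.Agent.H354_OP
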