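import Pool.Agent.H354_OP.Main0

/-!
# Threads: paths whose inner vertices have degree two
-/

set_option autoImplicit false

namespace Pool.Agent.H354_OP

open Finset
open scoped Classical

/-- a path, as a sequence of vertices -/
structure PSeq {V : Type} (G : SimpleGraph V) (p : ℕ → V) (n : ℕ) : Prop where
  adj : ∀ i < n, G.Adj (p i) (p (i + 1))
  inj : ∀ i j, i ≤ n → j ≤ n → p i = p j → i = j

theorem PSeq.mono {V : Type} {G : SimpleGraph V} {p : ℕ → V} {n k : ℕ} (h : PSeq G p n)
    (hk : k ≤ n) : PSeq G p k :=
  ⟨fun i hi => h.adj i (by omega), fun i j hi hj hij => h.inj i j (by omega) (by omega) hij⟩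

theorem PSeq.walk {V : Type} {G : SimpleGraph V} {p : ℕ → V} {n : ℕ} (h : PSeq G p n) :
    ∃ w : G.Walk (p 0) (p n), w.IsPath ∧ w.length = n ∧
      (∀ x, x ∈ w.support ↔ ∃ i ≤ n, x = p i) ∧
      (∀ e, e ∈ w.edges ↔ ∃ i < n, e = s(p i, p (i + 1))) := by
  induction n with
  | zero =>
    refine ⟨SimpleGraph.Walk.nil, SimpleGraph.Walk.IsPath.nil, rfl, ?_, ?_⟩
    · intro x
      simp only [SimpleGraph.Walk.support_nil, List.mem_singleton]
      constructor
      · intro hx
        exact ⟨0, le_rfl, hx⟩
      · rintro ⟨i, hi, hx⟩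
        obtain rfl : i = 0 := by omega
        exact hx
    · intro e
      simp
  | succ n ih =>
    obtain ⟨w, hw, hlen, hsup, hed⟩ := ih (h.mono (Nat.le_succ n))
    have hadj := h.adj n (by omega)
    refine ⟨w.concat hadj, ?_, ?_, ?_, ?_⟩
    · rw [SimpleGraph.Walk.isPath_def, SimpleGraph.Walk.support_concat, List.nodup_append]
      refine ⟨hw.support_nodup, List.nodup_singleton _, ?_⟩
      intro a ha b hb hab
      rw [List.mem_singleton] at hb
      obtain ⟨i, hi, rfl⟩ := (hsup a).mp ha
      have := h.inj i (n + 1) (by omega) le_rfl (hab.trans hb)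
      omega
    · rw [SimpleGraph.Walk.length_concat, hlen]
    · intro x
      rw [SimpleGraph.Walk.support_concat, List.mem_append, List.mem_singleton, hsup]
      constructor
      · rintro (⟨i, hi, rfl⟩ | rfl)
        · exact ⟨i, by omega, rfl⟩
        · exact ⟨n + 1, le_rfl, rfl⟩
      · rintro ⟨i, hi, rfl⟩
        rcases Nat.lt_or_ge n i with h1 | h1
        · obtain rfl : i = n + 1 := by omega
          exact Or.inr rfl
        · exact Or.inl ⟨i, h1, rfl⟩
    · intro e
      rw [SimpleGraph.Walk.edges_concat, List.concat_eq_append, List.mem_append,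
        List.mem_singleton, hed]
      constructor
      · rintro (⟨i, hi, rfl⟩ | rfl)
        · exact ⟨i, by omega, rfl⟩
        · exact ⟨n, by omega, rfl⟩
      · rintro ⟨i, hi, rfl⟩
        rcases Nat.lt_or_ge i n with h1 | h1
        · exact Or.inl ⟨i, h1, rfl⟩
        · obtain rfl : i = n := by omega
          exact Or.inr rfl

/-- a path between two branch vertices without inner branch vertices -/
structure Thr {V : Type} (G : SimpleGraph V) (Br : V → Prop) (n : ℕ) (p : ℕ → V) : Prop where
  pos : 0 < n
  seq : PSeq G p n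
  b0 : Br (p 0)
  bn : Br (p n)
  inn : ∀ i, 0 < i → i < n → ¬ Br (p i)

theorem Thr.rev {V : Type} {G : SimpleGraph V} {Br : V → Prop} {n : ℕ} {p : ℕ → V}
    (h : Thr G Br n p) : Thr G Br n (fun i => p (n - i)) := by
  refine ⟨h.pos, ⟨?_, ?_⟩, ?_, ?_, ?_⟩
  · intro i hi
    have := h.seq.adj (n - (i + 1)) (by omega)
    rw [show n - (i + 1) + 1 = n - i by omega] at this
    exact this.symm
  · intro i j hi hj hij
    have := h.seq.inj (n - i) (n - j) (by omega) (by omega) hij
    omega
  · simpa using h.bn
  · simpa using h.b0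
  · intro i hi0 hin
    exact h.inn (n - i) (by omega) (by omega)

/-- all vertices off `Br` have at most two neighbours -/
def D2 {V : Type} (G : SimpleGraph V) (Br : V → Prop) : Prop :=
  ∀ z, ¬ Br z → ∀ a b c, G.Adj z a → G.Adj z b → G.Adj z c → a ≠ b → c = a ∨ c = b

theorem Thr.forward {V : Type} {G : SimpleGraph V} {Br : V → Prop} (hD : D2 G Br) {n n' : ℕ}
    {p q : ℕ → V} (h : Thr G Br n p) (h' : Thr G Br n' q) :
    ∀ k i j, n - i = k → i < n → j < n' → p i = q j → p (i + 1) = q (j + 1) → p n = q n' := by
  intro k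
  induction k with
  | zero => intro i j hk hi; omega
  | succ k ih =>
    intro i j hk hi hj h1 h2
    rcases Nat.eq_zero_or_pos k with hk0 | hk0
    · have hin : i + 1 = n := by omega
      rw [hin] at h2
      rcases Nat.lt_or_ge (j + 1) n' with h3 | h3
      · exact absurd (h2 ▸ h.bn) (h'.inn (j + 1) (by omega) h3)
      · rw [h2, show j + 1 = n' by omega]
    · have hi1 : i + 1 < n := by omega
      have hnb : ¬ Br (p (i + 1)) := h.inn (i + 1) (by omega) hi1
      have hj1 : j + 1 < n' := by
        rcases Nat.lt_or_ge (j + 1) n' with h3 | h3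
        · exact h3
        · exfalso
          have hjn : j + 1 = n' := by omega
          apply hnb
          rw [h2, hjn]
          exact h'.bn
      have a1 : G.Adj (p (i + 1)) (p i) := (h.seq.adj i hi).symm
      have a2 : G.Adj (p (i + 1)) (p (i + 2)) := h.seq.adj (i + 1) hi1
      have a3 : G.Adj (p (i + 1)) (q (j + 2)) := by
        rw [h2]
        exact h'.seq.adj (j + 1) hj1
      have hne : p i ≠ p (i + 2) := by
        intro he
        have := h.seq.inj i (i + 2) (by omega) (by omega) he
        omega
      rcases hD _ hnb _ _ _ a1 a2 a3 hne with h3 | h3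
      · exfalso
        have := h'.seq.inj (j + 2) j (by omega) (by omega) (h3.trans h1)
        omega
      · exact ih (i + 1) (j + 1) (by omega) hi1 hj1 h2 h3.symm

theorem Thr.dart {V : Type} {G : SimpleGraph V} {Br : V → Prop} (hD : D2 G Br) {n n' : ℕ}
    {p q : ℕ → V} (h : Thr G Br n p) (h' : Thr G Br n' q) {i j : ℕ} (hi : i < n) (hj : j < n')
    (h1 : p i = q j) (h2 : p (i + 1) = q (j + 1)) : p 0 = q 0 ∧ p n = q n' := by
  refine ⟨?_, h.forward hD h' _ i j rfl hi hj h1 h2⟩
  have := h.rev.forward hD h'.rev _ (n - (i + 1)) (n' - (j + 1)) rfl (by omega) (by omega)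
    (by
      rw [show n - (n - (i + 1)) = i + 1 by omega, show n' - (n' - (j + 1)) = j + 1 by omega]
      exact h2)
    (by
      rw [show n - (n - (i + 1) + 1) = i by omega, show n' - (n' - (j + 1) + 1) = j by omega]
      exact h1)
  simpa using this

theorem Thr.edge {V : Type} {G : SimpleGraph V} {Br : V → Prop} (hD : D2 G Br) {n n' : ℕ}
    {p q : ℕ → V} (h : Thr G Br n p) (h' : Thr G Br n' q) {i j : ℕ} (hi : i < n) (hj : j < n')
    (he : s(p i, p (i + 1)) = s(q j, q (j + 1))) : s(p 0, p n) = s(q 0, q n') := by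
  rw [Sym2.eq_iff] at he
  rcases he with ⟨h1, h2⟩ | ⟨h1, h2⟩
  · obtain ⟨h3, h4⟩ := h.dart hD h' hi hj h1 h2
    rw [h3, h4]
  · have := h.dart hD h'.rev (i := i) (j := n' - (j + 1)) hi (by omega)
      (by
        rw [show n' - (n' - (j + 1)) = j + 1 by omega]
        exact h1)
      (by
        rw [show n' - (n' - (j + 1) + 1) = j by omega]
        exact h2)
    simp only [Nat.sub_zero, Nat.sub_self] at this
    rw [this.1, this.2]
    exact Sym2.eq_swap

theorem Thr.inner {V : Type} {G : SimpleGraph V} {Br : V → Prop} {n : ℕ}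
    {p : ℕ → V} (h : Thr G Br n p) {i : ℕ} (hi : i ≤ n) (hb : ¬ Br (p i)) : 0 < i ∧ i < n := by
  constructor
  · rcases Nat.eq_zero_or_pos i with rfl | h0
    · exact absurd h.b0 hb
    · exact h0
  · rcases Nat.lt_or_ge i n with h0 | h0
    · exact h0
    · obtain rfl : i = n := by omega
      exact absurd h.bn hb

theorem Thr.ends {V : Type} {G : SimpleGraph V} {Br : V → Prop} {n : ℕ}
    {p : ℕ → V} (h : Thr G Br n p) {i : ℕ} (hi : i ≤ n) (hb : Br (p i)) : i = 0 ∨ i = n := by
  by_contra hcon
  push Not at hcon
  exact h.inn i (by omega) (by omega) hb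

theorem Thr.vertex {V : Type} {G : SimpleGraph V} {Br : V → Prop} (hD : D2 G Br) {n n' : ℕ}
    {p q : ℕ → V} (h : Thr G Br n p) (h' : Thr G Br n' q) {i j : ℕ} (hi : i ≤ n) (hj : j ≤ n')
    (hb : ¬ Br (p i)) (he : p i = q j) : s(p 0, p n) = s(q 0, q n') := by
  obtain ⟨hi0, hin⟩ := h.inner hi hb
  obtain ⟨hj0, hjn⟩ := h'.inner hj (he ▸ hb)
  have a1 : G.Adj (p i) (p (i - 1)) := by
    have := h.seq.adj (i - 1) (by omega)
    rw [show i - 1 + 1 = i by omega] at this
    exact this.symm
  have a2 : G.Adj (p i) (p (i + 1)) := h.seq.adj i hin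
  have a3 : G.Adj (p i) (q (j + 1)) := by
    rw [he]
    exact h'.seq.adj j hjn
  have hne : p (i - 1) ≠ p (i + 1) := by
    intro h2
    have := h.seq.inj (i - 1) (i + 1) (by omega) (by omega) h2
    omega
  rcases hD _ hb _ _ _ a1 a2 a3 hne with h3 | h3
  · refine h.edge hD h' (i := i - 1) (j := j) (by omega) hjn ?_
    rw [show i - 1 + 1 = i by omega, h3, he]
    exact Sym2.eq_swap
  · refine h.edge hD h' (i := i) (j := j) hin hjn ?_
    rw [h3, he]

/-- threads have bounded length -/
theorem Thr.length_le {V : Type} {G : SimpleGraph V} {Br : V → Prop} {s : ℕ}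
    (hs : ∀ n p, PSeq G p n → (∀ i ≤ n, ¬ Br (p i)) → n + 1 ≤ s) {n : ℕ} {p : ℕ → V}
    (h : Thr G Br n p) : n ≤ s + 1 := by
  rcases Nat.lt_or_ge n 2 with h1 | h1
  · omega
  · have := hs (n - 2) (fun i => p (i + 1)) ⟨fun i hi => h.seq.adj (i + 1) (by omega),
      fun i j hi hj hij => by
        have := h.seq.inj (i + 1) (j + 1) (by omega) (by omega) hij
        omega⟩ (fun i hi => h.inn (i + 1) (by omega) (by omega))
    omega

theorem d2_of_deg {V : Type} [Fintype V] {G : SimpleGraph V} {Br : V → Prop}
    (hdeg : ∀ v, ¬ Br v → (nb G v).card = 0 ∨ (nb G v).card = 2) : D2 G Br := by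
  intro z hz b c d hb hc hd hbc
  have h2 : (nb G z).card = 2 := by
    rcases hdeg z hz with h | h
    · exact absurd h (Finset.card_pos.mpr ⟨b, mem_nb.mpr hb⟩).ne'
    · exact h
  by_contra hcon
  push Not at hcon
  have hsub : ({b, c, d} : Finset V) ⊆ nb G z := by
    intro y hy
    simp only [mem_insert, mem_singleton] at hy
    rcases hy with rfl | rfl | rfl
    · exact mem_nb.mpr hb
    · exact mem_nb.mpr hc
    · exact mem_nb.mpr hd
  have hcard : ({b, c, d} : Finset V).card = 3 :=
    Finset.card_eq_three.mpr ⟨b, c, d, hbc, hcon.1.symm, hcon.2.symm, rfl⟩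
  have := Finset.card_le_card hsub
  omega

/-- no cycle passes through one branch vertex only -/
def NoLoop {V : Type} (G : SimpleGraph V) (Br : V → Prop) : Prop :=
  ∀ n p, PSeq G p n → 2 ≤ n → (∀ i, 0 < i → i ≤ n → ¬ Br (p i)) → ¬ G.Adj (p n) (p 0)

/-- every edge at a branch vertex starts a thread -/
theorem exists_thread {V : Type} [Fintype V] {G : SimpleGraph V} {Br : V → Prop} {s : ℕ}
    (hs : ∀ n p, PSeq G p n → (∀ i ≤ n, ¬ Br (p i)) → n + 1 ≤ s)
    (hdeg : ∀ v, ¬ Br v → (nb G v).card = 0 ∨ (nb G v).card = 2) {x a : V} (hx : Br x)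
    (hxa : G.Adj x a) (hL : NoLoop G Br) :
    ∃ n p, Thr G Br n p ∧ p 0 = x ∧ p 1 = a := by
  have hD : D2 G Br := d2_of_deg hdeg
  by_contra hno
  have key : ∀ n, ∃ p, PSeq G p (n + 1) ∧ p 0 = x ∧ p 1 = a ∧ ∀ i, 0 < i → i ≤ n + 1 →
      ¬ Br (p i) := by
    intro n
    induction n with
    | zero =>
      refine ⟨fun i => if i = 0 then x else a, ⟨?_, ?_⟩, by simp, by simp, ?_⟩
      · intro i hi
        obtain rfl : i = 0 := by omega
        simpa using hxa
      · intro i j hi hj hij
        by_contra hne
        rcases Nat.eq_zero_or_pos i with h0 | h0 <;> rcases Nat.eq_zero_or_pos j with h1 | h1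
        · omega
        · simp only [h0, if_true, if_neg (show ¬ j = 0 by omega)] at hij
          exact hxa.ne hij
        · simp only [h1, if_true, if_neg (show ¬ i = 0 by omega)] at hij
          exact hxa.ne hij.symm
        · omega
      · intro i hi0 hi hb
        simp only [if_neg (show ¬ i = 0 by omega)] at hb
        refine hno ⟨1, fun i => if i = 0 then x else a, ⟨by omega, ⟨?_, ?_⟩, ?_, ?_, ?_⟩,
          by simp, by simp⟩
        · intro i hi
          obtain rfl : i = 0 := by omega
          simpa using hxa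
        · intro i j hi hj hij
          by_contra hne
          rcases Nat.eq_zero_or_pos i with h0 | h0 <;> rcases Nat.eq_zero_or_pos j with h1 | h1
          · omega
          · simp only [h0, if_true, if_neg (show ¬ j = 0 by omega)] at hij
            exact hxa.ne hij
          · simp only [h1, if_true, if_neg (show ¬ i = 0 by omega)] at hij
            exact hxa.ne hij.symm
          · omega
        · simpa using hx
        · simpa using hb
        · intro i h1 h2
          omega
    | succ n ih =>
      obtain ⟨p, hp, p0, p1, hpb⟩ := ih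
      have hb := hpb (n + 1) (by omega) le_rfl
      have hadj := hp.adj n (by omega)
      have h2 : (nb G (p (n + 1))).card = 2 := by
        rcases hdeg _ hb with h | h
        · exact absurd h (Finset.card_pos.mpr ⟨p n, mem_nb.mpr hadj.symm⟩).ne'
        · exact h
      obtain ⟨d, hd, hdn⟩ : ∃ d ∈ nb G (p (n + 1)), d ≠ p n := by
        have : 1 < (nb G (p (n + 1))).card := by omega
        exact Finset.exists_mem_ne this (p n)
      rw [mem_nb] at hd
      have hdi : ∀ i ≤ n + 1, p i = d → i = 0 := by
        intro i hi hid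
        by_contra hi0
        have hin : i ≠ n := fun h => hdn (by rw [← hid, h])
        have hin1 : i ≠ n + 1 := fun h => by
          rw [h] at hid
          exact hd.ne hid
        have hbi := hpb i (by omega) (by omega)
        have a1 : G.Adj (p i) (p (i - 1)) := by
          have := hp.adj (i - 1) (by omega)
          rw [show i - 1 + 1 = i by omega] at this
          exact this.symm
        have a2 : G.Adj (p i) (p (i + 1)) := hp.adj i (by omega)
        have a3 : G.Adj (p i) (p (n + 1)) := by
          rw [hid]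
          exact hd.symm
        rcases hD _ hbi _ _ _ a1 a2 a3 (fun h => by
          have := hp.inj (i - 1) (i + 1) (by omega) (by omega) h
          omega) with h | h
        · have := hp.inj (n + 1) (i - 1) le_rfl (by omega) h
          omega
        · have := hp.inj (n + 1) (i + 1) le_rfl (by omega) h
          omega
      have hdx : d ≠ x := by
        intro hdx
        have hn0 : 0 < n := by
          rcases Nat.eq_zero_or_pos n with h | h
          · exfalso
            subst h
            exact hdn (by rw [hdx, p0])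
          · exact h
        refine hL (n + 1) p hp (by omega) hpb ?_
        rw [p0, ← hdx]
        exact hd
      have hdni : ∀ i ≤ n + 1, p i ≠ d := by
        intro i hi hid
        have := hdi i hi hid
        rw [this, p0] at hid
        exact hdx hid.symm
      obtain ⟨p', hp'1, hp'2⟩ : ∃ p' : ℕ → V, (∀ i ≤ n + 1, p' i = p i) ∧ p' (n + 2) = d :=
        ⟨fun i => if i ≤ n + 1 then p i else d, fun i hi => by simp [hi], by simp⟩
      have hp' : PSeq G p' (n + 2) := by
        refine ⟨?_, ?_⟩
        · intro i hi
          rcases Nat.lt_or_ge i (n + 1) with h | h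
          · rw [hp'1 i (by omega), hp'1 (i + 1) (by omega)]
            exact hp.adj i h
          · obtain rfl : i = n + 1 := by omega
            rw [hp'1 (n + 1) le_rfl, hp'2]
            exact hd
        · intro i j hi hj hij
          rcases Nat.lt_or_ge (n + 1) i with h | h <;> rcases Nat.lt_or_ge (n + 1) j with h' | h'
          · omega
          · obtain rfl : i = n + 2 := by omega
            rw [hp'2, hp'1 j h'] at hij
            exact absurd hij.symm (hdni j h')
          · obtain rfl : j = n + 2 := by omega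
            rw [hp'2, hp'1 i h] at hij
            exact absurd hij (hdni i h)
          · rw [hp'1 i h, hp'1 j h'] at hij
            exact hp.inj i j h h' hij
      refine ⟨p', hp', by rw [hp'1 0 (by omega), p0], by rw [hp'1 1 (by omega), p1], ?_⟩
      intro i hi0 hi hbi
      rcases Nat.lt_or_ge (n + 1) i with h | h
      · obtain rfl : i = n + 2 := by omega
        refine hno ⟨n + 2, p', ⟨by omega, hp', ?_, hbi, ?_⟩, by rw [hp'1 0 (by omega), p0],
          by rw [hp'1 1 (by omega), p1]⟩
        · rw [hp'1 0 (by omega), p0]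
          exact hx
        · intro i h1 h2
          rw [hp'1 i (by omega)]
          exact hpb i h1 (by omega)
      · rw [hp'1 i h] at hbi
        exact hpb i hi0 h hbi
  obtain ⟨p, hp, p0, p1, hpb⟩ := key s
  have := hs s (fun i => p (i + 1)) ⟨fun i hi => hp.adj (i + 1) (by omega),
    fun i j hi hj hij => by
      have := hp.inj (i + 1) (j + 1) (by omega) (by omega) hij
      omega⟩ (fun i hi => hpb (i + 1) (by omega) (by omega))
  omega

end Pool.Agent.H354_OP
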