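import Pool.Agent.H354_OP.Samp

/-!
# Few disjoint small connected pieces see three hubs
-/

set_option autoImplicit false

namespace Pool.Agent.H354_OP

open Set Filter Topology Pool.Agent.Helper805.CHS

/-- the bipartite contact graph of pieces and hubs -/
def contact {V : Type} (Hi : Finset V) (Q : Finset (Finset V)) (T : Finset V → Finset V) :
    SimpleGraph ({c // c ∈ Hi} ⊕ {Z // Z ∈ Q}) where
  Adj x y := match x, y with
    | .inr Z, .inl c => c.1 ∈ T Z.1
    | .inl c, .inr Z => c.1 ∈ T Z.1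
    | .inl _, .inl _ => False
    | .inr _, .inr _ => False
  symm := ⟨fun x y h => by
    rcases x with x | x <;> rcases y with y | y <;> exact h⟩
  loopless := ⟨fun x h => by
    rcases x with x | x <;> exact h⟩

theorem star {V : Type} [Fintype V] {M : ℕ} {H : SimpleGraph V} {pos : V → ℂ}
    {C : Sym2 V → Set ℂ} (hT : TopD M H pos C) (Hi : Finset V) (Q : Finset (Finset V)) (q Δ : ℕ)
    (hdisj : ∀ Z ∈ Q, ∀ Z' ∈ Q, Z ≠ Z' → Disjoint Z Z') (hHi : ∀ Z ∈ Q, Disjoint Z Hi)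
    (hconn : ∀ Z ∈ Q, ∀ x ∈ Z, ∀ y ∈ Z, ∃ w : H.Walk x y, ∀ u ∈ w.support, u ∈ Z)
    (hsize : ∀ Z ∈ Q, Z.card ≤ q)
    (hdeg : ∀ Z ∈ Q, ∀ x ∈ Z, {e | e ∈ H.edgeSet ∧ x ∈ e}.encard ≤ Δ)
    (h3 : ∀ Z ∈ Q, ∃ T : Finset V, T ⊆ Hi ∧ 3 ≤ T.card ∧ ∀ a ∈ T, ∃ x ∈ Z, H.Adj x a) :
    Q.card ≤ 406 * (q * (Δ * (M * 2)) + 1) * Hi.card := by
  classical
  rcases Q.eq_empty_or_nonempty with hQ0 | ⟨Z₀, hZ₀⟩
  · rw [hQ0]; simp
  choose! T hTHi hT3 hTadj using h3
  have hne : ∀ Z ∈ Q, ∃ x, x ∈ Z := by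
    intro Z hZ
    obtain ⟨a, ha⟩ : (T Z).Nonempty := Finset.card_pos.mp (by have := hT3 Z hZ; omega)
    obtain ⟨x, hx, -⟩ := hTadj Z hZ a ha
    exact ⟨x, hx⟩
  obtain ⟨v₀, hv₀⟩ := hne Z₀ hZ₀
  have : Nonempty V := ⟨v₀⟩
  choose! rt hrt using hne
  -- conflicts
  set cf : Finset V → Finset V → Prop := fun Z Z' => ∃ e ∈ H.edgeSet, (∃ x ∈ Z, x ∈ e) ∧
    ∃ f, (f ∈ H.edgeSet ∧ (∀ x ∈ e, x ∉ f) ∧ ¬ Disjoint (C e) (C f)) ∧ ∃ y ∈ f, y ∈ Z' with hcf
  have hcfsymm : ∀ Z Z', cf Z Z' → cf Z' Z := by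
    rintro Z Z' ⟨e, he, ⟨x, hx, hxe⟩, f, ⟨hf, hef, hd⟩, y, hyf, hy⟩
    exact ⟨f, hf, ⟨y, hy, hyf⟩, e, ⟨he, fun z hz hz' => hef z hz' hz, fun h => hd h.symm⟩,
      x, hxe, hx⟩
  have hcfcard : ∀ Z ∈ Q, (Q.filter (fun Z' => cf Z Z')).card ≤ q * (Δ * (M * 2)) := by
    intro Z hZ
    have h1 := encard_biUnion_le_finset Z (fun x => ⋃ e ∈ {e | e ∈ H.edgeSet ∧ x ∈ e},
      ⋃ f ∈ {f | f ∈ H.edgeSet ∧ (∀ x ∈ e, x ∉ f) ∧ ¬ Disjoint (C e) (C f)},
        {k : {Z // Z ∈ Q} | ∃ y ∈ f, y ∈ (k.1 : Set V)}) (Δ * (M * 2)) (by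
          intro x hx
          refine encard_biUnion_le_set _ _ Δ (M * 2) (hdeg Z hZ x hx) ?_
          intro e he
          refine encard_biUnion_le_set _ _ M 2 (hT.conf e he.1) ?_
          intro f _
          exact two_cells (fun k : {Z // Z ∈ Q} => (k.1 : Set V)) (by
            intro i j hij
            rw [Finset.disjoint_coe]
            exact hdisj i.1 i.2 j.1 j.2 fun h => hij (Subtype.ext h)) f)
    have hsub : ((Finset.univ.filter (fun k : {Z // Z ∈ Q} => cf Z k.1) : Finset {Z // Z ∈ Q}) :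
        Set {Z // Z ∈ Q}) ⊆ ⋃ x ∈ Z, ⋃ e ∈ {e | e ∈ H.edgeSet ∧ x ∈ e},
      ⋃ f ∈ {f | f ∈ H.edgeSet ∧ (∀ x ∈ e, x ∉ f) ∧ ¬ Disjoint (C e) (C f)},
        {k : {Z // Z ∈ Q} | ∃ y ∈ f, y ∈ (k.1 : Set V)} := by
      intro k hk
      rw [Finset.mem_coe] at hk
      simp only [Finset.mem_filter, Finset.mem_univ, true_and] at hk
      obtain ⟨e, he, ⟨x, hx, hxe⟩, f, hf, y, hyf, hy⟩ := hk
      simp only [mem_iUnion]
      exact ⟨x, hx, e, ⟨he, hxe⟩, f, hf, y, hyf, hy⟩
    have h2 := (Set.encard_le_encard hsub).trans h1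
    rw [Set.encard_coe_eq_coe_finsetCard] at h2
    have h4 : (Finset.univ.filter (fun k : {Z // Z ∈ Q} => cf Z k.1)).card ≤
        Z.card * (Δ * (M * 2)) := by exact_mod_cast h2
    have h5 : (Q.filter (fun Z' => cf Z Z')).card ≤
        (Finset.univ.filter (fun k : {Z // Z ∈ Q} => cf Z k.1)).card := by
      have : Q.filter (fun Z' => cf Z Z') ⊆
          (Finset.univ.filter (fun k : {Z // Z ∈ Q} => cf Z k.1)).image (fun k => k.1) := by
        intro Z' hZ'
        rw [Finset.mem_filter] at hZ'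
        rw [Finset.mem_image]
        exact ⟨⟨Z', hZ'.1⟩, by simp [hZ'.2], rfl⟩
      exact (Finset.card_le_card this).trans Finset.card_image_le
    exact h5.trans (h4.trans (Nat.mul_le_mul_right _ (hsize Z hZ)))
  -- a maximal conflict-free subfamily
  obtain ⟨good, hgood⟩ : ∃ good : Finset (Finset V) → Prop,
      ∀ P, good P ↔ ∀ Z ∈ P, ∀ Z' ∈ P, Z ≠ Z' → ¬ cf Z Z' := ⟨_, fun P => Iff.rfl⟩
  obtain ⟨Q', hQ', hmax⟩ := Finset.exists_max_image (Q.powerset.filter good) Finset.card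
    ⟨∅, by rw [Finset.mem_filter, hgood]; simp⟩
  rw [Finset.mem_filter, Finset.mem_powerset, hgood] at hQ'
  obtain ⟨hQ'Q, hfree⟩ := hQ'
  have hcover : Q ⊆ Q' ∪ Q'.biUnion (fun Z => Q.filter (fun Z' => cf Z Z')) := by
    intro Z hZ
    rw [Finset.mem_union]
    by_cases hZQ' : Z ∈ Q'
    · exact Or.inl hZQ'
    · right
      rw [Finset.mem_biUnion]
      by_contra hcon
      push Not at hcon
      have hno : ∀ Z' ∈ Q', ¬ cf Z' Z := by
        intro Z' hZ' h
        exact hcon Z' hZ' (Finset.mem_filter.mpr ⟨hZ, h⟩)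
      have h6 := hmax (insert Z Q') (by
        rw [Finset.mem_filter, Finset.mem_powerset, hgood]
        refine ⟨Finset.insert_subset hZ hQ'Q, ?_⟩
        intro A hA B hB hAB
        rw [Finset.mem_insert] at hA hB
        rcases hA with rfl | hA
        · rcases hB with rfl | hB
          · exact absurd rfl hAB
          · exact fun h => hno B hB (hcfsymm _ _ h)
        · rcases hB with rfl | hB
          · exact hno A hA
          · exact hfree A hA B hB hAB)
      rw [Finset.card_insert_of_notMem hZQ'] at h6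
      omega
  have hcardQ : Q.card ≤ Q'.card * (q * (Δ * (M * 2)) + 1) := by
    refine (Finset.card_le_card hcover).trans ((Finset.card_union_le _ _).trans ?_)
    have := Finset.card_biUnion_le_card_mul Q' (fun Z => Q.filter (fun Z' => cf Z Z'))
      (q * (Δ * (M * 2))) (fun Z hZ => hcfcard Z (hQ'Q hZ))
    rw [mul_add, mul_one, add_comm]
    exact add_le_add_left this _
  -- walks
  have hW : ∀ Z ∈ Q, ∀ c ∈ T Z, ∃ w : H.Walk (rt Z) c, (∀ u ∈ w.support, u ∈ Z ∨ u = c) ∧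
      ∀ e ∈ w.edges, ∃ x ∈ Z, x ∈ e := by
    intro Z hZ c hc
    obtain ⟨x, hx, hxc⟩ := hTadj Z hZ c hc
    obtain ⟨w, hw⟩ := hconn Z hZ _ (hrt Z hZ) x hx
    refine ⟨w.append (SimpleGraph.Walk.cons hxc SimpleGraph.Walk.nil), ?_, ?_⟩
    · intro u hu
      rw [SimpleGraph.Walk.mem_support_append_iff] at hu
      rcases hu with hu | hu
      · exact Or.inl (hw u hu)
      · simp only [SimpleGraph.Walk.support_cons, SimpleGraph.Walk.support_nil, List.mem_cons,
          List.not_mem_nil, or_false] at hu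
        rcases hu with rfl | rfl
        · exact Or.inl hx
        · exact Or.inr rfl
    · intro e he
      rw [SimpleGraph.Walk.edges_append, List.mem_append] at he
      rcases he with he | he
      · induction e using Sym2.ind with
        | _ a b =>
          exact ⟨a, hw a (w.mem_support_of_mem_edges he (by simp)), by simp⟩
      · simp only [SimpleGraph.Walk.edges_cons, SimpleGraph.Walk.edges_nil,
          List.mem_cons, List.not_mem_nil, or_false] at he
        rw [he]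
        exact ⟨x, hx, by simp⟩
  choose W hWs hWe using hW
  set KE : Finset V → V → Set ℂ := fun Z c =>
    if h : Z ∈ Q ∧ c ∈ T Z then KW pos C (W Z h.1 c h.2) else ∅ with hKE
  have hKE' : ∀ Z (hZ : Z ∈ Q) c (hc : c ∈ T Z), KE Z c = KW pos C (W Z hZ c hc) :=
    fun Z hZ c hc => by simp [hKE, hZ, hc]
  set p : {c // c ∈ Hi} ⊕ {Z // Z ∈ Q'} → ℂ :=
    Sum.elim (fun c => pos c.1) (fun Z => pos (rt Z.1)) with hp
  have hrtHi : ∀ Z ∈ Q, rt Z ∉ Hi := fun Z hZ h =>
    Finset.disjoint_left.mp (hHi Z hZ) (hrt Z hZ) h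
  have hrtinj : ∀ Z ∈ Q, ∀ Z' ∈ Q, rt Z ∈ Z' → Z = Z' := by
    intro Z hZ Z' hZ' h
    by_contra hne'
    exact Finset.disjoint_left.mp (hdisj Z hZ Z' hZ' hne') (hrt Z hZ) h
  have hpinj : Function.Injective p := by
    rintro (c | Z) (c' | Z') h
    · simp only [hp, Sum.elim_inl] at h
      rw [Subtype.ext (hT.inj h)]
    · simp only [hp, Sum.elim_inl, Sum.elim_inr] at h
      exact absurd (hT.inj h ▸ c.2) (hrtHi Z'.1 (hQ'Q Z'.2))
    · simp only [hp, Sum.elim_inl, Sum.elim_inr] at h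
      exact absurd ((hT.inj h).symm ▸ c'.2) (hrtHi Z.1 (hQ'Q Z.2))
    · simp only [hp, Sum.elim_inr] at h
      have h1 := hT.inj h
      have h2 := hrtinj Z.1 (hQ'Q Z.2) Z'.1 (hQ'Q Z'.2) (h1 ▸ hrt Z'.1 (hQ'Q Z'.2))
      rw [Subtype.ext h2]
  have hsupp : ∀ Z (hZ : Z ∈ Q) c (hc : c ∈ T Z) v, pos v ∈ KE Z c → v ∈ Z ∨ v = c := by
    intro Z hZ c hc v hv
    rw [hKE' Z hZ c hc] at hv
    have hs : v ∈ (W Z hZ c hc).support := by
      rcases hv with ⟨y, hy, hxy⟩ | ⟨f, hf, hxf⟩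
      · rw [hT.inj hxy]; exact hy
      · exact (W Z hZ c hc).mem_support_of_mem_edges hf
          (hT.avoid f ((W Z hZ c hc).edges_subset_edgeSet hf) _ hxf)
    exact hWs Z hZ c hc v hs
  have hpS : ∀ Z (hZ : Z ∈ Q') c (hc : c ∈ T Z) k, p k ∈ KE Z c →
      k = Sum.inr ⟨Z, hZ⟩ ∨ k = Sum.inl ⟨c, hTHi Z (hQ'Q hZ) hc⟩ := by
    rintro Z hZ c hc (k | k) hk
    · right
      simp only [hp, Sum.elim_inl] at hk
      rcases hsupp Z (hQ'Q hZ) c hc _ hk with h | h
      · exact absurd k.2 (Finset.disjoint_left.mp (hHi Z (hQ'Q hZ)) h)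
      · congr 1
        exact Subtype.ext h
    · left
      simp only [hp, Sum.elim_inr] at hk
      rcases hsupp Z (hQ'Q hZ) c hc _ hk with h | h
      · congr 1
        exact Subtype.ext (hrtinj k.1 (hQ'Q k.2) Z (hQ'Q hZ) h)
      · exact absurd (h ▸ hTHi Z (hQ'Q hZ) hc) (hrtHi k.1 (hQ'Q k.2))
  have hdis : ∀ Z (hZ : Z ∈ Q') c (hc : c ∈ T Z) Z' (hZ' : Z' ∈ Q') c' (hc' : c' ∈ T Z'),
      Z ≠ Z' → c ≠ c' → Disjoint (KE Z c) (KE Z' c') := by
    intro Z hZ c hc Z' hZ' c' hc' hZZ hcc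
    rw [hKE' Z (hQ'Q hZ) c hc, hKE' Z' (hQ'Q hZ') c' hc']
    have hsup : ∀ x ∈ (W Z (hQ'Q hZ) c hc).support, x ∉ (W Z' (hQ'Q hZ') c' hc').support := by
      intro x hx hx'
      rcases hWs _ _ _ _ x hx with h | h <;> rcases hWs _ _ _ _ x hx' with h' | h'
      · exact Finset.disjoint_left.mp (hdisj Z (hQ'Q hZ) Z' (hQ'Q hZ') hZZ) h h'
      · rw [h'] at h
        exact Finset.disjoint_left.mp (hHi Z (hQ'Q hZ)) h (hTHi Z' (hQ'Q hZ') hc')
      · rw [h] at h'
        exact Finset.disjoint_left.mp (hHi Z' (hQ'Q hZ')) h' (hTHi Z (hQ'Q hZ) hc)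
      · exact hcc (h.symm.trans h')
    refine hT.disj _ _ hsup ?_
    intro e he f hf
    by_contra hnd
    obtain ⟨x, hx, hxe⟩ := hWe _ _ _ _ e he
    obtain ⟨y, hy, hyf⟩ := hWe _ _ _ _ f hf
    refine hfree Z hZ Z' hZ' hZZ ⟨e, SimpleGraph.Walk.edges_subset_edgeSet _ he, ⟨x, hx, hxe⟩, f,
      ⟨SimpleGraph.Walk.edges_subset_edgeSet _ hf, ?_, hnd⟩, y, hyf, hy⟩
    intro z hz hz'
    exact hsup z ((W Z (hQ'Q hZ) c hc).mem_support_of_mem_edges he hz)
      ((W Z' (hQ'Q hZ') c' hc').mem_support_of_mem_edges hf hz')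
  have hmod := models_of_sets (contact Hi Q' T) p hpinj
    (fun x y => match x, y with
      | .inr Z, .inl c => KE Z.1 c.1
      | .inl c, .inr Z => KE Z.1 c.1
      | .inl _, .inl _ => ∅
      | .inr _, .inr _ => ∅) (by
      rintro (c | Z) (c' | Z') h
      · exact absurd h (by simp [contact])
      · have h' : c.1 ∈ T Z'.1 := h
        simp only [hp, Sum.elim_inl, Sum.elim_inr]
        rw [hKE' Z'.1 (hQ'Q Z'.2) c.1 h']
        exact (hT.joined _).symm
      · have h' : c'.1 ∈ T Z.1 := h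
        simp only [hp, Sum.elim_inl, Sum.elim_inr]
        rw [hKE' Z.1 (hQ'Q Z.2) c'.1 h']
        exact hT.joined _
      · exact absurd h (by simp [contact])) (by
      rintro (c | Z) (c' | Z') h k hk
      · exact absurd h (by simp [contact])
      · have h' : c.1 ∈ T Z'.1 := h
        exact (hpS Z'.1 Z'.2 c.1 h' k hk).symm
      · have h' : c'.1 ∈ T Z.1 := h
        exact hpS Z.1 Z.2 c'.1 h' k hk
      · exact absurd h (by simp [contact])) (by
      rintro (c | Z) (c' | Z') (d | Y) (d' | Y') h h' n1 n2 n3 n4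
      · exact absurd h (by simp [contact])
      · exact absurd h (by simp [contact])
      · exact absurd h (by simp [contact])
      · exact absurd h (by simp [contact])
      · exact absurd h' (by simp [contact])
      · exact hdis Z'.1 Z'.2 c.1 h Y'.1 Y'.2 d.1 h' (fun h => n4 (by rw [Subtype.ext h]))
          (fun h => n1 (by rw [Subtype.ext h]))
      · exact hdis Z'.1 Z'.2 c.1 h Y.1 Y.2 d'.1 h' (fun h => n3 (by rw [Subtype.ext h]))
          (fun h => n2 (by rw [Subtype.ext h]))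
      · exact absurd h' (by simp [contact])
      · exact absurd h' (by simp [contact])
      · exact hdis Z.1 Z.2 c'.1 h Y'.1 Y'.2 d.1 h' (fun h => n2 (by rw [Subtype.ext h]))
          (fun h => n3 (by rw [Subtype.ext h]))
      · exact hdis Z.1 Z.2 c'.1 h Y.1 Y.2 d'.1 h' (fun h => n1 (by rw [Subtype.ext h]))
          (fun h => n4 (by rw [Subtype.ext h]))
      · exact absurd h' (by simp [contact])
      · exact absurd h (by simp [contact])
      · exact absurd h (by simp [contact])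
      · exact absurd h (by simp [contact])
      · exact absurd h (by simp [contact]))
  have hhub := (hub (contact Hi Q' T) hmod.2
    (fun ι _ A hc hd E hE => density (contact Hi Q' T) hmod.1 A hc hd E hE)
    (Finset.univ.image Sum.inl) (Finset.univ.image Sum.inr) (fun r => {r})
    (fun r _ => hub_conn_singleton _ r)
    (fun r _ r' _ h => Set.disjoint_singleton.mpr h) (by
      intro r hr x hx
      rw [Finset.mem_image] at hr
      obtain ⟨Z, -, rfl⟩ := hr
      rw [mem_singleton_iff] at hx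
      subst hx
      simp)
    (fun r => Finset.univ.filter (fun y => (contact Hi Q' T).Adj r y)) (by
      intro r hr a ha
      rw [Finset.mem_image] at hr
      obtain ⟨Z, -, rfl⟩ := hr
      simp only [Finset.mem_filter, Finset.mem_univ, true_and] at ha
      refine ⟨?_, _, rfl, ha⟩
      rcases a with a | a
      · simp
      · exact absurd ha (by simp [contact])) (by
      intro r hr
      rw [Finset.mem_image] at hr
      obtain ⟨Z, -, rfl⟩ := hr
      refine (hT3 Z.1 (hQ'Q Z.2)).trans ?_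
      have himg : (T Z.1).attach.image
          (fun c => (Sum.inl ⟨c.1, hTHi Z.1 (hQ'Q Z.2) c.2⟩ : {c // c ∈ Hi} ⊕ {Z // Z ∈ Q'})) ⊆
          Finset.univ.filter (fun y => (contact Hi Q' T).Adj (Sum.inr Z) y) := by
        intro y hy
        rw [Finset.mem_image] at hy
        obtain ⟨c, -, rfl⟩ := hy
        simp only [Finset.mem_filter, Finset.mem_univ, true_and]
        exact c.2
      refine le_trans ?_ (Finset.card_le_card himg)
      rw [Finset.card_image_of_injective, Finset.card_attach]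
      intro c c' h
      simp only [Sum.inl.injEq, Subtype.mk.injEq] at h
      exact Subtype.ext h)).1
  rw [Finset.card_image_of_injective _ Sum.inr_injective,
    Finset.card_image_of_injective _ Sum.inl_injective, Finset.card_univ, Finset.card_univ,
    Fintype.card_coe, Fintype.card_coe] at hhub
  calc Q.card ≤ Q'.card * (q * (Δ * (M * 2)) + 1) := hcardQ
    _ ≤ (406 * Hi.card) * (q * (Δ * (M * 2)) + 1) := Nat.mul_le_mul_right _ hhub
    _ = 406 * (q * (Δ * (M * 2)) + 1) * Hi.card := by ring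

end Pool.Agent.H354_OP
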