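import Pool.Agent.H354_OP.Star
import Pool.Agent.H354_OP.Comb

/-!
# Few groups see three hubs, for overlapping groups
-/

set_option autoImplicit false

namespace Pool.Agent.H354_OP

open Finset
open scoped Classical

set_option linter.unusedSectionVars false

/-- the graph of a family of edge sets -/
def famG {V ι : Type} (𝒢 : Finset ι) (E : ι → Finset (Sym2 V)) : SimpleGraph V where
  Adj x y := x ≠ y ∧ ∃ A ∈ 𝒢, s(x, y) ∈ E A
  symm := ⟨fun x y h => ⟨h.1.symm, by rw [Sym2.eq_swap]; exact h.2⟩⟩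
  loopless := ⟨fun _ h => h.1 rfl⟩

theorem star2 {V : Type} [Fintype V] {M : ℕ} {H : SimpleGraph V} {pos : V → ℂ}
    {C : Sym2 V → Set ℂ} (hT : TopD M H pos C) (Hi : Finset V) {ι : Type} (𝒢 : Finset ι)
    (Z : ι → Finset V) (E : ι → Finset (Sym2 V)) (q κ κ' : ℕ)
    (hE : ∀ A ∈ 𝒢, ∀ f ∈ E A, f ∈ H.edgeSet ∧ (∃ z ∈ Z A, z ∈ f) ∧ ∀ x ∈ f, x ∈ Z A ∨ x ∈ Hi)
    (hHi : ∀ A ∈ 𝒢, Disjoint (Z A) Hi)
    (hconn : ∀ A ∈ 𝒢, ∀ x ∈ Z A, ∀ y ∈ Z A, ∃ w : H.Walk x y, (∀ f ∈ w.edges, f ∈ E A) ∧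
      ∀ u ∈ w.support, u ∈ Z A)
    (hZq : ∀ A ∈ 𝒢, (Z A).card ≤ q) (hEq : ∀ A ∈ 𝒢, (E A).card ≤ q)
    (hκ : ∀ z, (𝒢.filter (fun A => z ∈ Z A)).card ≤ κ)
    (hκ' : ∀ f, (𝒢.filter (fun A => f ∈ E A)).card ≤ κ')
    (h3 : ∀ A ∈ 𝒢, ∃ T : Finset V, T ⊆ Hi ∧ 3 ≤ T.card ∧ ∀ a ∈ T, ∃ x ∈ Z A, s(x, a) ∈ E A) :
    𝒢.card ≤ (q * κ + q * (M * κ') + 1) * (406 * (q * (q * (q * 2)) + 1) * Hi.card) := by
  have hfin : ∀ e ∈ H.edgeSet, ({f | f ∈ H.edgeSet ∧ (∀ x ∈ e, x ∉ f) ∧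
      ¬ Disjoint (C e) (C f)} : Set (Sym2 V)).Finite := fun e _ => Set.toFinite _
  obtain ⟨cfe, hcfe⟩ : ∃ cfe : Sym2 V → Finset (Sym2 V), ∀ e ∈ H.edgeSet,
      (∀ f, f ∈ cfe e ↔ f ∈ H.edgeSet ∧ (∀ x ∈ e, x ∉ f) ∧ ¬ Disjoint (C e) (C f)) ∧
      (cfe e).card ≤ M := by
    refine ⟨fun e => (Set.toFinite {f | f ∈ H.edgeSet ∧ (∀ x ∈ e, x ∉ f) ∧
      ¬ Disjoint (C e) (C f)}).toFinset, ?_⟩
    intro e he
    refine ⟨fun f => by rw [Set.Finite.mem_toFinset]; exact Iff.rfl, ?_⟩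
    have h1 := hT.conf e he
    rw [Set.Finite.encard_eq_coe_toFinset_card (Set.toFinite _)] at h1
    exact_mod_cast h1
  have hne : ∀ A ∈ 𝒢, (Z A).Nonempty := by
    intro A hA
    obtain ⟨T, -, hT3, hT⟩ := h3 A hA
    obtain ⟨a, ha⟩ : T.Nonempty := card_pos.mp (by omega)
    obtain ⟨x, hx, -⟩ := hT a ha
    exact ⟨x, hx⟩
  set cf : ι → ι → Prop := fun A A' => (∃ z ∈ Z A, z ∈ Z A') ∨ ∃ e ∈ E A, ∃ f ∈ E A',
    (∀ x ∈ e, x ∉ f) ∧ ¬ Disjoint (C e) (C f) with hcf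
  have hcfsymm : ∀ A A', cf A A' → cf A' A := by
    rintro A A' (⟨z, h1, h2⟩ | ⟨e, he, f, hf, h1, h2⟩)
    · exact Or.inl ⟨z, h2, h1⟩
    · exact Or.inr ⟨f, hf, e, he, fun x hx hx' => h1 x hx' hx, fun h => h2 h.symm⟩
  have hcfcard : ∀ A ∈ 𝒢, (𝒢.filter (fun A' => cf A A')).card ≤ q * κ + q * (M * κ') := by
    intro A hA
    have hsub : 𝒢.filter (fun A' => cf A A') ⊆
        (Z A).biUnion (fun z => 𝒢.filter (fun A' => z ∈ Z A')) ∪
        (E A).biUnion (fun e => (cfe e).biUnion (fun f => 𝒢.filter (fun A' => f ∈ E A'))) := by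
      intro A' hA'
      rw [mem_filter] at hA'
      rw [mem_union]
      rcases hA'.2 with ⟨z, h1, h2⟩ | ⟨e, he, f, hf, h1, h2⟩
      · left
        rw [mem_biUnion]
        exact ⟨z, h1, mem_filter.mpr ⟨hA'.1, h2⟩⟩
      · right
        rw [mem_biUnion]
        refine ⟨e, he, ?_⟩
        rw [mem_biUnion]
        refine ⟨f, ?_, mem_filter.mpr ⟨hA'.1, hf⟩⟩
        rw [(hcfe e (hE A hA e he).1).1]
        exact ⟨(hE A' hA'.1 f hf).1, h1, h2⟩
    refine (card_le_card hsub).trans ((card_union_le _ _).trans (add_le_add ?_ ?_))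
    · refine (card_biUnion_le_card_mul _ _ κ fun z _ => hκ z).trans ?_
      exact Nat.mul_le_mul_right _ (hZq A hA)
    · refine (card_biUnion_le_card_mul _ _ (M * κ') fun e he => ?_).trans ?_
      · refine (card_biUnion_le_card_mul _ _ κ' fun f _ => hκ' f).trans ?_
        exact Nat.mul_le_mul_right _ (hcfe e (hE A hA e he).1).2
      · exact Nat.mul_le_mul_right _ (hEq A hA)
  obtain ⟨good, hgood⟩ : ∃ good : Finset ι → Prop,
      ∀ P, good P ↔ ∀ A ∈ P, ∀ A' ∈ P, A ≠ A' → ¬ cf A A' := ⟨_, fun P => Iff.rfl⟩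
  obtain ⟨𝒢', h𝒢', hmax⟩ := Finset.exists_max_image (𝒢.powerset.filter good) Finset.card
    ⟨∅, by rw [mem_filter, hgood]; simp⟩
  rw [mem_filter, mem_powerset, hgood] at h𝒢'
  obtain ⟨hsub, hfree⟩ := h𝒢'
  have hcover : 𝒢 ⊆ 𝒢' ∪ 𝒢'.biUnion (fun A => 𝒢.filter (fun A' => cf A A')) := by
    intro A hA
    rw [mem_union]
    by_cases hAG : A ∈ 𝒢'
    · exact Or.inl hAG
    · right
      rw [mem_biUnion]
      by_contra hcon
      push Not at hcon
      have hno : ∀ A' ∈ 𝒢', ¬ cf A' A := by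
        intro A' hA' h
        exact hcon A' hA' (mem_filter.mpr ⟨hA, h⟩)
      have h6 := hmax (insert A 𝒢') (by
        rw [mem_filter, mem_powerset, hgood]
        refine ⟨insert_subset hA hsub, ?_⟩
        intro B hB B' hB' hBB
        rw [mem_insert] at hB hB'
        rcases hB with rfl | hB
        · rcases hB' with rfl | hB'
          · exact absurd rfl hBB
          · exact fun h => hno B' hB' (hcfsymm _ _ h)
        · rcases hB' with rfl | hB'
          · exact hno B hB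
          · exact hfree B hB B' hB' hBB)
      rw [card_insert_of_notMem hAG] at h6
      omega
  have hcard : 𝒢.card ≤ 𝒢'.card * (q * κ + q * (M * κ') + 1) := by
    refine (card_le_card hcover).trans ((card_union_le _ _).trans ?_)
    have := card_biUnion_le_card_mul 𝒢' (fun A => 𝒢.filter (fun A' => cf A A'))
      (q * κ + q * (M * κ')) (fun A hA => hcfcard A (hsub hA))
    rw [mul_add, mul_one, add_comm]
    exact add_le_add_left this _
  -- the subgraph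
  set H' := famG 𝒢' E with hH'
  have hH'e : ∀ f, f ∈ H'.edgeSet → ∃ A ∈ 𝒢', f ∈ E A := by
    intro f
    induction f using Sym2.ind with
    | _ a b => exact fun h => h.2
  have hH'e' : ∀ A ∈ 𝒢', ∀ f ∈ E A, f ∈ H'.edgeSet := by
    intro A hA f
    induction f using Sym2.ind with
    | _ a b =>
      intro hf
      exact ⟨SimpleGraph.Adj.ne ((hE A (hsub hA) _ hf).1), A, hA, hf⟩
  have hH'H : ∀ f ∈ H'.edgeSet, f ∈ H.edgeSet := by
    intro f hf
    obtain ⟨A, hA, h⟩ := hH'e f hf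
    exact (hE A (hsub hA) f h).1
  have hZuniq : ∀ A ∈ 𝒢', ∀ A' ∈ 𝒢', ∀ z, z ∈ Z A → z ∈ Z A' → A = A' := by
    intro A hA A' hA' z h1 h2
    by_contra hne'
    exact hfree A hA A' hA' hne' (Or.inl ⟨z, h1, h2⟩)
  have hT' : TopD q H' pos C := by
    refine ⟨hT.inj, fun u v h => hT.join u v (hH'H s(u, v) h), fun e he => hT.avoid e (hH'H e he), ?_⟩
    intro e he
    obtain ⟨A, hA, heA⟩ := hH'e e he
    have : {f | f ∈ H'.edgeSet ∧ (∀ x ∈ e, x ∉ f) ∧ ¬ Disjoint (C e) (C f)} ⊆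
        ((E A : Finset (Sym2 V)) : Set (Sym2 V)) := by
      rintro f ⟨hf, h1, h2⟩
      obtain ⟨A', hA', hfA'⟩ := hH'e f hf
      by_cases h : A = A'
      · rw [h]
        exact hfA'
      · exact absurd (Or.inr ⟨e, heA, f, hfA', h1, h2⟩) (hfree A hA A' hA' h)
    refine (Set.encard_le_encard this).trans ?_
    rw [Set.encard_coe_eq_coe_finsetCard]
    exact_mod_cast hEq A (hsub hA)
  have hstar := star hT' Hi (𝒢'.image Z) q q (by
      intro S hS S' hS' hne'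
      rw [mem_image] at hS hS'
      obtain ⟨A, hA, rfl⟩ := hS
      obtain ⟨A', hA', rfl⟩ := hS'
      rw [Finset.disjoint_left]
      intro z h1 h2
      exact hne' (by rw [hZuniq A hA A' hA' z h1 h2])) (by
      intro S hS
      rw [mem_image] at hS
      obtain ⟨A, hA, rfl⟩ := hS
      exact hHi A (hsub hA)) (by
      intro S hS x hx y hy
      rw [mem_image] at hS
      obtain ⟨A, hA, rfl⟩ := hS
      obtain ⟨w, hw1, hw2⟩ := hconn A (hsub hA) x hx y hy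
      refine ⟨w.transfer H' (fun f hf => hH'e' A hA f (hw1 f hf)), ?_⟩
      intro u hu
      rw [SimpleGraph.Walk.support_transfer] at hu
      exact hw2 u hu) (by
      intro S hS
      rw [mem_image] at hS
      obtain ⟨A, hA, rfl⟩ := hS
      exact hZq A (hsub hA)) (by
      intro S hS x hx
      rw [mem_image] at hS
      obtain ⟨A, hA, rfl⟩ := hS
      have : {e | e ∈ H'.edgeSet ∧ x ∈ e} ⊆ ((E A : Finset (Sym2 V)) : Set (Sym2 V)) := by
        rintro e ⟨he, hxe⟩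
        obtain ⟨A', hA', heA'⟩ := hH'e e he
        rcases (hE A' (hsub hA') e heA').2.2 x hxe with h | h
        · rw [hZuniq A hA A' hA' x hx h]
          exact heA'
        · exact absurd h (Finset.disjoint_left.mp (hHi A (hsub hA)) hx)
      refine (Set.encard_le_encard this).trans ?_
      rw [Set.encard_coe_eq_coe_finsetCard]
      exact_mod_cast hEq A (hsub hA)) (by
      intro S hS
      rw [mem_image] at hS
      obtain ⟨A, hA, rfl⟩ := hS
      obtain ⟨T, hT1, hT2, hT3⟩ := h3 A (hsub hA)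
      refine ⟨T, hT1, hT2, ?_⟩
      intro a ha
      obtain ⟨x, hx, hxa⟩ := hT3 a ha
      exact ⟨x, hx, hH'e' A hA _ hxa⟩)
  have hinj : (𝒢'.image Z).card = 𝒢'.card := by
    refine card_image_of_injOn ?_
    intro A hA A' hA' h
    obtain ⟨z, hz⟩ := hne A (hsub hA)
    have hz' : z ∈ Z A' := by
      have : Z A = Z A' := h
      rw [← this]
      exact hz
    exact hZuniq A hA A' hA' z hz hz'
  rw [hinj] at hstar
  calc 𝒢.card ≤ 𝒢'.card * (q * κ + q * (M * κ') + 1) := hcard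
    _ ≤ (406 * (q * (q * (q * 2)) + 1) * Hi.card) * (q * κ + q * (M * κ') + 1) :=
      Nat.mul_le_mul_right _ hstar
    _ = _ := mul_comm _ _

end Pool.Agent.H354_OP
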