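import Pool.Agent.H354_OP.LDr
import Pool.Agent.H354_OP.Seq

/-!
# Replacing edges of a drawing by long paths
-/

set_option autoImplicit false

namespace Pool.Agent.H354_OP

open Set Filter Topology

theorem LDraw.subdiv {V V' : Type} {K : SimpleGraph V'} {ℓ : Sym2 V' → ℕ} {S : Set (Sym2 V')}
    (h : LDraw K ℓ S) {G : SimpleGraph V} {ι : Type} (p : ι → ℕ → V) (n : ι → ℕ)
    (hn : ∀ i, 0 < n i) (hp : ∀ i, PSeq G (p i) (n i)) (ψ : V → V') {Inn : V → Prop}
    (hInn : ∀ x, Inn x ↔ ∃ i j, 0 < j ∧ j < n i ∧ p i j = x)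
    {TE : Sym2 V → Prop} (hTE : ∀ f, TE f ↔ ∃ i j, j < n i ∧ f = s(p i j, p i (j + 1)))
    (hψ : ∀ x y, ¬ Inn x → ¬ Inn y → ψ x = ψ y → x = y)
    (hend : ∀ i, ¬ Inn (p i 0) ∧ ¬ Inn (p i (n i)))
    (hdisj : ∀ i j i' j', 0 < j → j < n i → 0 < j' → j' < n i' → p i j = p i' j' → i = i')
    (hold : ∀ a b, G.Adj a b → ¬ TE s(a, b) → ¬ Inn a ∧ ¬ Inn b ∧ K.Adj (ψ a) (ψ b))
    {k q : ℕ} (hqk : q ≤ k)
    (hnew : ∀ i, K.Adj (ψ (p i 0)) (ψ (p i (n i))) ∧ s(ψ (p i 0), ψ (p i (n i))) ∈ S ∧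
      ℓ s(ψ (p i 0), ψ (p i (n i))) ≤ q * n i)
    (hinj : ∀ i i', s(ψ (p i 0), ψ (p i (n i))) = s(ψ (p i' 0), ψ (p i' (n i'))) → i = i')
    (hne : ∀ a b, G.Adj a b → ¬ TE s(a, b) → ∀ i, s(ψ a, ψ b) ≠ s(ψ (p i 0), ψ (p i (n i))))
    (hℓ : ∀ a b, G.Adj a b → ¬ TE s(a, b) → ℓ s(ψ a, ψ b) ≤ k) : KDraw k G := by
  classical
  obtain ⟨pos, A, hd, hx, hS⟩ := h
  obtain ⟨nw, hnw⟩ : ∃ nw : ι → Sym2 V', ∀ i, nw i = s(ψ (p i 0), ψ (p i (n i))) :=
    ⟨_, fun i => rfl⟩
  have hnwK : ∀ i, nw i ∈ K.edgeSet := fun i => by rw [hnw]; exact (hnew i).1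
  have hFp : ∀ i x, pos x ∉ Prod.snd '' xs K pos A (nw i) := by
    rintro i x ⟨q, hq, hqx⟩
    exact hq.2.2.2.2 ⟨x, hqx.symm⟩
  have hex : ∀ i, ∃ (c : ℕ → ℂ) (S : ℕ → Set ℂ), c 0 = pos (ψ (p i 0)) ∧
      c (n i) = pos (ψ (p i (n i))) ∧
      (∀ j < n i, IsArc (S j) (c j) (c (j + 1))) ∧ (∀ j < n i, S j ⊆ A (nw i)) ∧
      (∀ j, 0 < j → j < n i → c j ∈ A (nw i) ∧ c j ∉ Prod.snd '' xs K pos A (nw i)) ∧
      (∀ j l, j ≤ n i → l ≤ n i → c j = c l → j = l) ∧
      (∀ j l, j < l → l < n i → ∀ z ∈ S j, z ∈ S l → z = c l) ∧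
      (∀ j l, j < n i → l ≤ n i → c l ∈ S j → l = j ∨ l = j + 1) ∧
      (∀ j < n i, (S j ∩ (Prod.snd '' xs K pos A (nw i))).encard ≤ q) := by
    intro i
    have harc := hd.arc _ _ (hnew i).1
    rw [← hnw] at harc
    obtain ⟨t, ht⟩ : ∃ t, n i = t + 1 := ⟨n i - 1, by have := hn i; omega⟩
    obtain ⟨c, S', h1, h2, h3, h4, h5, h6, h7, h8, h9⟩ := harc.subdivide_bal
      (F := Prod.snd '' xs K pos A (nw i)) (q := q) (t := t) (by
        refine (Set.encard_image_le _ _).trans ((hx _ (hnwK i)).trans ?_)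
        have := (hnew i).2.2
        rw [← hnw, ht] at this
        exact_mod_cast this) (hFp i _) (hFp i _)
    exact ⟨c, S', h1, by rw [← h2, ht], fun j hj => h3 j (by omega), fun j hj => h4 j (by omega),
      fun j hj hj' => h5 j hj (by omega), fun j l hj hl => h6 j l (by omega) (by omega),
      fun j l hjl hl => h7 j l hjl (by omega),
      fun j l hj hl => h8 j l (by omega) (by omega), fun j hj => h9 j (by omega)⟩
  choose c T hc0 hcn hT hTB hcB hcinj hTT hcT hTq using hex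
  -- points
  have hpinj : ∀ i j l, j ≤ n i → l ≤ n i → p i j = p i l → j = l := fun i => (hp i).inj
  have hd' : ∀ i j i' j', 0 < j → j < n i → 0 < j' → j' < n i' → p i j = p i' j' →
      i = i' ∧ j = j' := by
    intro i j i' j' h1 h2 h3 h4 h5
    have h6 := hdisj i j i' j' h1 h2 h3 h4 h5
    subst h6
    exact ⟨rfl, hpinj i j j' h2.le h4.le h5⟩
  obtain ⟨pos', hpos1, hpos2⟩ : ∃ pos' : V → ℂ,
      (∀ i j, 0 < j → j < n i → pos' (p i j) = c i j) ∧ ∀ x, ¬ Inn x → pos' x = pos (ψ x) := by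
    refine ⟨fun x => if h : ∃ i j, 0 < j ∧ j < n i ∧ p i j = x then c h.choose h.choose_spec.choose
      else pos (ψ x), ?_, ?_⟩
    · intro i j hj hjn
      have h : ∃ i' j', 0 < j' ∧ j' < n i' ∧ p i' j' = p i j := ⟨i, j, hj, hjn, rfl⟩
      simp only [dif_pos h]
      have h2 := h.choose_spec.choose_spec
      obtain ⟨h3, h4⟩ := hd' _ _ _ _ h2.1 h2.2.1 hj hjn h2.2.2
      rw [h4]
      exact congrFun (congrArg c h3) j
    · intro x hx'
      rw [hInn] at hx'
      simp only [dif_neg hx']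
  have hpos3 : ∀ i j, j ≤ n i → pos' (p i j) = c i j := by
    intro i j hj
    rcases Nat.eq_zero_or_pos j with rfl | h0
    · rw [hpos2 _ (hend i).1, hc0]
    · rcases Nat.lt_or_ge j (n i) with h1 | h1
      · exact hpos1 i j h0 h1
      · obtain rfl : j = n i := by omega
        rw [hpos2 _ (hend i).2, hcn]
  -- edges
  have hTEinj : ∀ i j i' j', j < n i → j' < n i' → s(p i j, p i (j + 1)) = s(p i' j', p i' (j' + 1)) →
      i = i' ∧ j = j' := by
    intro i j i' j' hj hj' he
    have hi : i = i' := by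
      by_cases h1 : n i = 1
      · by_cases h1' : n i' = 1
        · obtain rfl : j = 0 := by omega
          obtain rfl : j' = 0 := by omega
          refine hinj i i' ?_
          have := congrArg (Sym2.map ψ) he
          rw [h1, h1']
          exact this
        · exfalso
          have hin : Inn (p i' j') ∨ Inn (p i' (j' + 1)) := by
            rcases Nat.eq_zero_or_pos j' with h0 | h0
            · right
              rw [hInn]
              exact ⟨i', j' + 1, by omega, by omega, rfl⟩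
            · left
              rw [hInn]
              exact ⟨i', j', h0, hj', rfl⟩
          have h2 : ¬ Inn (p i j) ∧ ¬ Inn (p i (j + 1)) := by
            obtain rfl : j = 0 := by omega
            have := hend i
            rw [h1] at this
            exact this
          rw [Sym2.eq_iff] at he
          rcases he with ⟨e1, e2⟩ | ⟨e1, e2⟩
          · rw [e1, e2] at h2
            tauto
          · rw [e1, e2] at h2
            tauto
      · have hin : ∃ l, 0 < l ∧ l < n i ∧ p i l ∈ s(p i j, p i (j + 1)) := by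
          rcases Nat.eq_zero_or_pos j with h0 | h0
          · exact ⟨j + 1, by omega, by omega, by simp⟩
          · exact ⟨j, h0, hj, by simp⟩
        obtain ⟨l, hl0, hln, hl⟩ := hin
        have hI : Inn (p i l) := (hInn _).mpr ⟨i, l, hl0, hln, rfl⟩
        rw [he, Sym2.mem_iff] at hl
        have hin' : ∃ l', l' ≤ n i' ∧ p i l = p i' l' := by
          rcases hl with hl | hl
          · exact ⟨j', hj'.le, hl⟩
          · exact ⟨j' + 1, hj', hl⟩
        obtain ⟨l', hl', hll⟩ := hin'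
        rcases Nat.eq_zero_or_pos l' with h0 | h0
        · rw [h0] at hll
          rw [hll] at hI
          exact absurd hI (hend i').1
        · rcases Nat.lt_or_ge l' (n i') with h2 | h2
          · exact hdisj i l i' l' hl0 hln h0 h2 hll
          · obtain rfl : l' = n i' := by omega
            rw [hll] at hI
            exact absurd hI (hend i').2
    subst hi
    refine ⟨rfl, ?_⟩
    rw [Sym2.eq_iff] at he
    rcases he with ⟨e1, -⟩ | ⟨e1, e2⟩
    · exact hpinj i j j' hj.le hj'.le e1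
    · have a1 := hpinj i j (j' + 1) hj.le hj' e1
      have a2 := hpinj i (j + 1) j' hj hj'.le e2
      omega
  obtain ⟨A', hA1, hA2⟩ : ∃ A' : Sym2 V → Set ℂ,
      (∀ i j, j < n i → A' s(p i j, p i (j + 1)) = T i j) ∧
      ∀ f, ¬ TE f → A' f = A (f.map ψ) := by
    refine ⟨fun f => if h : ∃ i j, j < n i ∧ f = s(p i j, p i (j + 1)) then
      T h.choose h.choose_spec.choose else A (f.map ψ), ?_, ?_⟩
    · intro i j hj
      have h : ∃ i' j', j' < n i' ∧ s(p i j, p i (j + 1)) = s(p i' j', p i' (j' + 1)) :=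
        ⟨i, j, hj, rfl⟩
      simp only [dif_pos h]
      have h2 := h.choose_spec.choose_spec
      obtain ⟨h3, h4⟩ := hTEinj _ _ _ _ hj h2.1 h2.2
      rw [← h4]
      exact (congrFun (congrArg T h3) j).symm
    · intro f hf
      rw [hTE] at hf
      simp only [dif_neg hf]
  obtain ⟨κ, hκ1, hκ2⟩ : ∃ κ : Sym2 V → Sym2 V',
      (∀ i j, j < n i → κ s(p i j, p i (j + 1)) = nw i) ∧ ∀ f, ¬ TE f → κ f = f.map ψ := by
    refine ⟨fun f => if h : ∃ i j, j < n i ∧ f = s(p i j, p i (j + 1)) then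
      nw h.choose else f.map ψ, ?_, ?_⟩
    · intro i j hj
      have h : ∃ i' j', j' < n i' ∧ s(p i j, p i (j + 1)) = s(p i' j', p i' (j' + 1)) :=
        ⟨i, j, hj, rfl⟩
      simp only [dif_pos h]
      have h2 := h.choose_spec.choose_spec
      obtain ⟨h3, h4⟩ := hTEinj _ _ _ _ hj h2.1 h2.2
      exact (congrArg nw h3).symm
    · intro f hf
      rw [hTE] at hf
      simp only [dif_neg hf]
  have hcp : ∀ i j, 0 < j → j < n i → c i j ∉ range pos := by
    rintro i j hj hjn ⟨w, hw⟩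
    have h1 := (hcB i j hj hjn).1
    rw [← hw] at h1
    have h2 := hd.avoid _ (hnwK i) w h1
    rw [hnw, Sym2.mem_iff] at h2
    rcases h2 with rfl | rfl
    · rw [← hc0] at hw
      have := hcinj i 0 j (by omega) hjn.le hw
      omega
    · rw [← hcn] at hw
      have := hcinj i (n i) j le_rfl hjn.le hw
      omega
  have hcA : ∀ i j, 0 < j → j < n i → ∀ f ∈ K.edgeSet, f ≠ nw i → c i j ∉ A f := by
    intro i j hj hjn f hf hfn hm
    exact (hcB i j hj hjn).2 ⟨(f, c i j), ⟨hf, hfn, (hcB i j hj hjn).1, hm, hcp i j hj hjn⟩, rfl⟩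
  have hnwinj : ∀ i i', nw i = nw i' → i = i' := by
    intro i i' h
    rw [hnw, hnw] at h
    exact hinj i i' h
  have hcc : ∀ i j i' j', 0 < j → j < n i → 0 < j' → j' < n i' → c i j = c i' j' → i = i' := by
    intro i j i' j' h1 h2 h3 h4 h5
    by_contra hii
    refine hcA i j h1 h2 (nw i') (hnwK i') (fun h => hii (hnwinj _ _ h).symm) ?_
    rw [h5]
    exact (hcB i' j' h3 h4).1
  -- the edges of the big graph
  have hκE : ∀ f ∈ G.edgeSet, κ f ∈ K.edgeSet := by
    intro f hf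
    by_cases hT : TE f
    · obtain ⟨i, j, hj, rfl⟩ := (hTE f).mp hT
      rw [hκ1 i j hj]
      exact hnwK i
    · rw [hκ2 f hT]
      induction f using Sym2.ind with
      | _ a b => exact (hold a b hf hT).2.2
  have hκend : ∀ f ∈ G.edgeSet, ∀ w ∈ κ f, ∃ a, ¬ Inn a ∧ w = ψ a := by
    intro f hf w hw
    by_cases hT : TE f
    · obtain ⟨i, j, hj, rfl⟩ := (hTE f).mp hT
      rw [hκ1 i j hj, hnw, Sym2.mem_iff] at hw
      rcases hw with rfl | rfl
      · exact ⟨_, (hend i).1, rfl⟩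
      · exact ⟨_, (hend i).2, rfl⟩
    · rw [hκ2 f hT] at hw
      induction f using Sym2.ind with
      | _ a b =>
        rw [Sym2.map_mk, Sym2.mem_iff] at hw
        have := hold a b hf hT
        rcases hw with rfl | rfl
        · exact ⟨a, this.1, rfl⟩
        · exact ⟨b, this.2.1, rfl⟩
  have hκA : ∀ f ∈ G.edgeSet, A' f ⊆ A (κ f) := by
    intro f hf
    by_cases hT : TE f
    · obtain ⟨i, j, hj, rfl⟩ := (hTE f).mp hT
      rw [hκ1 i j hj, hA1 i j hj]
      exact hTB i j hj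
    · rw [hκ2 f hT, hA2 f hT]
  have hκinj : ∀ f ∈ G.edgeSet, ∀ f' ∈ G.edgeSet, ∀ z ∈ A' f, z ∈ A' f' → z ∉ range pos' →
      κ f = κ f' → f = f' := by
    intro f hf f' hf' z hz hz' hzp hκ
    by_cases hT : TE f
    · obtain ⟨i, j, hj, rfl⟩ := (hTE f).mp hT
      rw [hκ1 i j hj] at hκ
      rw [hA1 i j hj] at hz
      by_cases hT' : TE f'
      · obtain ⟨i', j', hj', rfl⟩ := (hTE f').mp hT'
        rw [hκ1 i' j' hj'] at hκ
        have := hnwinj _ _ hκ
        subst this
        rw [hA1 i j' hj'] at hz'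
        rcases lt_trichotomy j j' with h1 | h1 | h1
        · exact absurd ⟨_, ((hTT i j j' h1 hj' z hz hz').trans (hpos3 i j' hj'.le).symm).symm⟩ hzp
        · rw [h1]
        · exact absurd ⟨_, ((hTT i j' j h1 hj z hz' hz).trans (hpos3 i j hj.le).symm).symm⟩ hzp
      · exfalso
        rw [hκ2 f' hT'] at hκ
        induction f' using Sym2.ind with
        | _ a b =>
          refine hne a b hf' hT' i ?_
          rw [← hnw, hκ]
          rfl
    · rw [hκ2 f hT] at hκ
      by_cases hT' : TE f'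
      · exfalso
        obtain ⟨i', j', hj', rfl⟩ := (hTE f').mp hT'
        rw [hκ1 i' j' hj'] at hκ
        induction f using Sym2.ind with
        | _ a b =>
          refine hne a b hf hT i' ?_
          rw [← hnw, ← hκ]
          rfl
      · rw [hκ2 f' hT'] at hκ
        induction f using Sym2.ind with
        | _ a b =>
          induction f' using Sym2.ind with
          | _ a' b' =>
            have h1 := hold a b hf hT
            have h2 := hold a' b' hf' hT'
            rw [Sym2.map_mk, Sym2.map_mk, Sym2.eq_iff] at hκ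
            rw [Sym2.eq_iff]
            rcases hκ with ⟨e1, e2⟩ | ⟨e1, e2⟩
            · exact Or.inl ⟨hψ _ _ h1.1 h2.1 e1, hψ _ _ h1.2.1 h2.2.1 e2⟩
            · exact Or.inr ⟨hψ _ _ h1.1 h2.2.1 e1, hψ _ _ h1.2.1 h2.1 e2⟩
  have hxκ : ∀ e ∈ G.edgeSet, ∀ f z, (f, z) ∈ xs G pos' A' e → (κ f, z) ∈ xs K pos A (κ e) := by
    rintro e he f z ⟨h1, h2, h3, h4, h5⟩
    simp only at h1 h2 h3 h4 h5
    refine ⟨hκE f h1, fun h => h2 (hκinj f h1 e he z h4 h3 h5 h), hκA e he h3, hκA f h1 h4, ?_⟩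
    rintro ⟨w, rfl⟩
    obtain ⟨a, ha, rfl⟩ := hκend e he w (hd.avoid _ (hκE e he) w (hκA e he h3))
    exact h5 ⟨a, hpos2 a ha⟩
  refine ⟨pos', A', ⟨?_, ?_, ?_⟩, ?_⟩
  · intro x y hxy
    by_cases hxI : Inn x
    · obtain ⟨i, j, hj0, hjn, rfl⟩ := (hInn x).mp hxI
      rw [hpos1 i j hj0 hjn] at hxy
      by_cases hyI : Inn y
      · obtain ⟨i', j', hj0', hjn', rfl⟩ := (hInn y).mp hyI
        rw [hpos1 i' j' hj0' hjn'] at hxy
        have := hcc i j i' j' hj0 hjn hj0' hjn' hxy
        subst this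
        rw [hcinj i j j' hjn.le hjn'.le hxy]
      · rw [hpos2 y hyI] at hxy
        exact absurd ⟨_, hxy.symm⟩ (hcp i j hj0 hjn)
    · rw [hpos2 x hxI] at hxy
      by_cases hyI : Inn y
      · obtain ⟨i', j', hj0', hjn', rfl⟩ := (hInn y).mp hyI
        rw [hpos1 i' j' hj0' hjn'] at hxy
        exact absurd ⟨_, hxy⟩ (hcp i' j' hj0' hjn')
      · rw [hpos2 y hyI] at hxy
        exact hψ x y hxI hyI (hd.inj hxy)
  · intro a b hab
    by_cases hT' : TE s(a, b)
    · obtain ⟨i, j, hj, he⟩ := (hTE _).mp hT'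
      rw [he, hA1 i j hj]
      have h1 := hT i j hj
      rw [← hpos3 i j hj.le, ← hpos3 i (j + 1) hj] at h1
      rw [Sym2.eq_iff] at he
      rcases he with ⟨rfl, rfl⟩ | ⟨rfl, rfl⟩
      · exact h1
      · exact h1.symm
    · obtain ⟨h1, h2, h3⟩ := hold a b hab hT'
      rw [hA2 _ hT', hpos2 a h1, hpos2 b h2]
      exact hd.arc _ _ h3
  · intro e he w hw
    by_cases hT' : TE e
    · obtain ⟨i, j, hj, rfl⟩ := (hTE e).mp hT'
      rw [hA1 i j hj] at hw
      have key : ∀ l ≤ n i, w = p i l → w ∈ s(p i j, p i (j + 1)) := by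
        intro l hl hwl
        rw [hwl, hpos3 i l hl] at hw
        rcases hcT i j l hj hl hw with rfl | rfl
        · rw [hwl]; simp
        · rw [hwl]; simp
      by_cases hwI : Inn w
      · obtain ⟨i', j', hj0', hjn', rfl⟩ := (hInn w).mp hwI
        have : i' = i := by
          by_contra hii
          rw [hpos1 i' j' hj0' hjn'] at hw
          exact hcA i' j' hj0' hjn' (nw i) (hnwK i) (fun h => hii (hnwinj _ _ h).symm)
            (hTB i j hj hw)
        subst this
        exact key j' hjn'.le rfl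
      · have h1 := hw
        rw [hpos2 w hwI] at h1
        have h2 := hd.avoid _ (hnwK i) _ (hTB i j hj h1)
        rw [hnw, Sym2.mem_iff] at h2
        rcases h2 with h2 | h2
        · exact key 0 (Nat.zero_le _) (hψ _ _ hwI (hend i).1 h2)
        · exact key (n i) le_rfl (hψ _ _ hwI (hend i).2 h2)
    · rw [hA2 e hT'] at hw
      induction e using Sym2.ind with
      | _ a b =>
        obtain ⟨h1, h2, h3⟩ := hold a b he hT'
        by_cases hwI : Inn w
        · exfalso
          obtain ⟨i', j', hj0', hjn', rfl⟩ := (hInn w).mp hwI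
          rw [hpos1 i' j' hj0' hjn'] at hw
          refine hcA i' j' hj0' hjn' _ h3 ?_ hw
          rw [hnw]
          exact hne a b he hT' i'
        · rw [hpos2 w hwI] at hw
          have h4 := hd.avoid _ h3 _ hw
          rw [Sym2.map_mk, Sym2.mem_iff] at h4
          rcases h4 with h4 | h4
          · rw [hψ _ _ hwI h1 h4]; simp
          · rw [hψ _ _ hwI h2 h4]; simp
  · intro e he
    by_cases hT' : TE e
    · obtain ⟨i, j, hj, rfl⟩ := (hTE e).mp hT'
      have hinto : MapsTo Prod.snd (xs G pos' A' s(p i j, p i (j + 1)))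
          (T i j ∩ (Prod.snd '' xs K pos A (nw i))) := by
        rintro ⟨f, z⟩ hf
        have h1 := hxκ _ he f z hf
        rw [hκ1 i j hj] at h1
        have h2 := hf.2.2.1
        rw [hA1 i j hj] at h2
        exact ⟨h2, _, h1, rfl⟩
      have hinj' : InjOn Prod.snd (xs G pos' A' s(p i j, p i (j + 1))) := by
        rintro ⟨f, z⟩ hf ⟨f', z'⟩ hf' hz
        simp only at hz
        subst hz
        have h1 := hxκ _ he f z hf
        have h2 := hxκ _ he f' z hf'
        rw [hκ1 i j hj] at h1 h2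
        have h3 : κ f = κ f' := by
          refine hS (nw i) ?_ (hnwK i) z _ _ h1 h2
          rw [hnw]
          exact (hnew i).2.1
        rw [hκinj f hf.1 f' hf'.1 z hf.2.2.2.1 hf'.2.2.2.1 hf.2.2.2.2 h3]
      refine (Set.encard_le_encard_of_injOn hinto hinj').trans ((hTq i j hj).trans ?_)
      exact_mod_cast hqk
    · have hinto : MapsTo (fun q : Sym2 V × ℂ => (κ q.1, q.2)) (xs G pos' A' e)
          (xs K pos A (κ e)) := by
        rintro ⟨f, z⟩ hf
        exact hxκ _ he f z hf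
      have hinj' : InjOn (fun q : Sym2 V × ℂ => (κ q.1, q.2)) (xs G pos' A' e) := by
        rintro ⟨f, z⟩ hf ⟨f', z'⟩ hf' hz
        simp only [Prod.mk.injEq] at hz
        obtain ⟨h1, h2⟩ := hz
        subst h2
        rw [hκinj f hf.1 f' hf'.1 z hf.2.2.2.1 hf'.2.2.2.1 hf.2.2.2.2 h1]
      refine (Set.encard_le_encard_of_injOn hinto hinj').trans ((hx _ (hκE e he)).trans ?_)
      rw [hκ2 e hT']
      induction e using Sym2.ind with
      | _ a b => exact_mod_cast hℓ a b he hT'

end Pool.Agent.H354_OP
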