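import Pool.Agent.H354_OP.TG
import Pool.Agent.H354_OP.LD

/-!
# The graph of the short threads
-/

set_option autoImplicit false

namespace Pool.Agent.H354_OP

open Set Filter Topology
open scoped Classical

/-- the graph of the threads of length at most `N`, without the ones that join the two ends
in `e₀` -/
def TGS {V : Type} (G : SimpleGraph V) (Br : V → Prop) (N : ℕ) (e₀ : Sym2 V) :
    SimpleGraph {v // Br v} where
  Adj x y := x ≠ y ∧ s(x.1, y.1) ≠ e₀ ∧ ∃ n p, Thr G Br n p ∧ n ≤ N ∧ p 0 = x.1 ∧ p n = y.1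
  symm := ⟨fun x y h => ⟨h.1.symm, by rw [Sym2.eq_swap]; exact h.2.1, by
    obtain ⟨n, p, hp, hN, h0, hn⟩ := h.2.2
    exact ⟨n, fun i => p (n - i), hp.rev, hN, by simpa using hn, by simpa using h0⟩⟩⟩
  loopless := ⟨fun _ h => h.1 rfl⟩

theorem TGS.topD {V : Type} {G : SimpleGraph V} {Br : V → Prop} (hD : D2 G Br) {N m : ℕ}
    {e e₀ : Sym2 V}
    (he : ∀ n p, Thr G Br n p → (∃ i < n, s(p i, p (i + 1)) = e) → s(p 0, p n) = e₀)
    {pos : V → ℂ} {A : Sym2 V → Set ℂ} (hT : TopD m (G.deleteEdges {e}) pos A) :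
    ∃ C, TopD (m * N) (TGS G Br N e₀) (fun v => pos v.1) C := by
  set H := G.deleteEdges {e} with hH
  set T := TGS G Br N e₀ with hTdef
  have hch : ∀ E : Sym2 {v // Br v}, ∃ n p, E ∈ T.edgeSet →
      Thr G Br n p ∧ n ≤ N ∧ s(p 0, p n) = E.map Subtype.val := by
    intro E
    induction E using Sym2.ind with
    | _ a b =>
      by_cases h : s(a, b) ∈ T.edgeSet
      · obtain ⟨-, -, n, p, hp, hN, h0, hn⟩ := h
        refine ⟨n, p, fun _ => ⟨hp, hN, ?_⟩⟩
        rw [h0, hn]
        rfl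
      · exact ⟨0, fun _ => a.1, fun h' => absurd h' h⟩
  choose n p hp using hch
  have hne₀ : ∀ E ∈ T.edgeSet, E.map Subtype.val ≠ e₀ := by
    intro E
    induction E using Sym2.ind with
    | _ a b => exact fun h => h.2.1
  have hseq : ∀ E ∈ T.edgeSet, PSeq H (p E) (n E) := by
    intro E hE
    refine ⟨?_, (hp E hE).1.seq.inj⟩
    intro i hi
    rw [hH, SimpleGraph.deleteEdges_adj]
    refine ⟨(hp E hE).1.seq.adj i hi, ?_⟩
    intro h
    rw [Set.mem_singleton_iff] at h
    have h2 := he _ _ (hp E hE).1 ⟨i, hi, h⟩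
    rw [(hp E hE).2.2] at h2
    exact hne₀ E hE h2
  have hedge : ∀ E ∈ T.edgeSet, ∀ i < n E, s(p E i, p E (i + 1)) ∈ H.edgeSet := fun E hE i hi =>
    (hseq E hE).adj i hi
  have hinjE : ∀ E ∈ T.edgeSet, ∀ F ∈ T.edgeSet, s(p E 0, p E (n E)) = s(p F 0, p F (n F)) →
      E = F := by
    intro E hE F hF h
    rw [(hp E hE).2.2, (hp F hF).2.2] at h
    exact Sym2.map.injective Subtype.val_injective h
  -- the ends of a thread
  have hends : ∀ E ∈ T.edgeSet, ∀ i ≤ n E, ∀ hb : Br (p E i), (⟨p E i, hb⟩ : {v // Br v}) ∈ E := by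
    intro E hE i hi hb
    have h1 : p E i ∈ E.map Subtype.val := by
      rw [← (hp E hE).2.2]
      rcases (hp E hE).1.ends hi hb with h | h
      · rw [h]; simp
      · rw [h]; simp
    rw [Sym2.mem_map] at h1
    obtain ⟨a, ha, hab⟩ := h1
    have : a = ⟨p E i, hb⟩ := Subtype.ext hab
    rw [← this]
    exact ha
  have hshare : ∀ E ∈ T.edgeSet, ∀ F ∈ T.edgeSet, (∀ x ∈ E, x ∉ F) → ∀ i ≤ n E, ∀ j ≤ n F,
      p E i ≠ p F j := by
    intro E hE F hF hEF i hi j hj hij
    by_cases hb : Br (p E i)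
    · refine hEF _ (hends E hE i hi hb) ?_
      have hb' : Br (p F j) := hij ▸ hb
      have : (⟨p E i, hb⟩ : {v // Br v}) = ⟨p F j, hb'⟩ := Subtype.ext hij
      rw [this]
      exact hends F hF j hj hb'
    · have h1 := (hp E hE).1.vertex hD (hp F hF).1 hi hj hb hij
      obtain rfl := hinjE E hE F hF h1
      have h2 := hends E hE 0 (Nat.zero_le _) (hp E hE).1.b0
      exact hEF _ h2 h2
  refine ⟨fun E => {z | (∃ i ≤ n E, z = pos (p E i)) ∨ ∃ i < n E, z ∈ A s(p E i, p E (i + 1))},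
    ?_, ?_, ?_, ?_⟩
  · intro a b hab
    exact Subtype.ext (hT.inj hab)
  · intro u v huv
    obtain ⟨w, -, -, hsup, hed⟩ := (hseq s(u, v) huv).walk
    have hj := (hT.joined w).mono (V := {z | (∃ i ≤ n s(u, v), z = pos (p s(u, v) i)) ∨
      ∃ i < n s(u, v), z ∈ A s(p s(u, v) i, p s(u, v) (i + 1))}) (by
        rintro z (⟨x, hx, rfl⟩ | ⟨f, hf, hz⟩)
        · obtain ⟨i, hi, rfl⟩ := (hsup x).mp hx
          exact Or.inl ⟨i, hi, rfl⟩
        · obtain ⟨i, hi, rfl⟩ := (hed f).mp hf
          exact Or.inr ⟨i, hi, hz⟩)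
    have h1 := (hp s(u, v) huv).2.2
    rw [Sym2.map_mk, Sym2.eq_iff] at h1
    rcases h1 with ⟨h1, h2⟩ | ⟨h1, h2⟩
    · rw [h1, h2] at hj
      exact hj
    · rw [h1, h2] at hj
      exact hj.symm
  · intro E hE w hw
    have hi : ∃ i ≤ n E, w.1 = p E i := by
      rcases hw with ⟨i, hi, h⟩ | ⟨i, hi, h⟩
      · exact ⟨i, hi, hT.inj h⟩
      · have h1 := hT.avoid _ (hedge E hE i hi) w.1 h
        rcases Sym2.mem_iff.mp h1 with h2 | h2
        · exact ⟨i, hi.le, h2⟩
        · exact ⟨i + 1, hi, h2⟩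
    obtain ⟨i, hi, h⟩ := hi
    have := hends E hE i hi (h ▸ w.2)
    have hww : w = ⟨p E i, h ▸ w.2⟩ := Subtype.ext h
    rw [hww]
    exact this
  · intro E hE
    set Z : ℕ → Set (Sym2 {v // Br v}) := fun i => {F | F ∈ T.edgeSet ∧ ∃ j < n F,
      s(p F j, p F (j + 1)) ∈ {f | f ∈ H.edgeSet ∧ (∀ x ∈ s(p E i, p E (i + 1)), x ∉ f) ∧
        ¬ Disjoint (A s(p E i, p E (i + 1))) (A f)}} with hZ
    have hsub : {F | F ∈ T.edgeSet ∧ (∀ x ∈ E, x ∉ F) ∧
        ¬ Disjoint {z | (∃ i ≤ n E, z = pos (p E i)) ∨ ∃ i < n E, z ∈ A s(p E i, p E (i + 1))}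
          {z | (∃ i ≤ n F, z = pos (p F i)) ∨ ∃ i < n F, z ∈ A s(p F i, p F (i + 1))}} ⊆
        ⋃ i ∈ {i | i < n E}, Z i := by
      rintro F ⟨hF, hEF, hdis⟩
      have hs := hshare E hE F hF hEF
      rw [Set.not_disjoint_iff] at hdis
      obtain ⟨z, hz1, hz2⟩ := hdis
      rcases hz1 with ⟨i, hi, rfl⟩ | ⟨i, hi, hz1⟩
      · exfalso
        rcases hz2 with ⟨j, hj, h⟩ | ⟨j, hj, h⟩
        · exact hs i hi j hj (hT.inj h)
        · rcases Sym2.mem_iff.mp (hT.avoid _ (hedge F hF j hj) _ h) with h2 | h2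
          · exact hs i hi j hj.le h2
          · exact hs i hi (j + 1) hj h2
      · rcases hz2 with ⟨j, hj, rfl⟩ | ⟨j, hj, hz2⟩
        · exfalso
          rcases Sym2.mem_iff.mp (hT.avoid _ (hedge E hE i hi) _ hz1) with h2 | h2
          · exact hs i hi.le j hj h2.symm
          · exact hs (i + 1) hi j hj h2.symm
        · simp only [mem_iUnion]
          refine ⟨i, hi, hF, j, hj, hedge F hF j hj, ?_, ?_⟩
          · intro x hx hx'
            have h3 : ∀ a b, x ∈ s(p E a, p E (a + 1)) → x ∈ s(p F b, p F (b + 1)) → a < n E →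
                b < n F → False := by
              intro a b h4 h5 ha hb
              rcases Sym2.mem_iff.mp h4 with h6 | h6 <;> rcases Sym2.mem_iff.mp h5 with h7 | h7
              · exact hs a ha.le b hb.le (h6.symm.trans h7)
              · exact hs a ha.le (b + 1) hb (h6.symm.trans h7)
              · exact hs (a + 1) ha b hb.le (h6.symm.trans h7)
              · exact hs (a + 1) ha (b + 1) hb (h6.symm.trans h7)
            exact h3 i j hx hx' hi hj
          · rw [Set.not_disjoint_iff]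
            exact ⟨z, hz1, hz2⟩
    refine (Set.encard_le_encard hsub).trans ?_
    refine (encard_iUnion_le Z m (n E) ?_).trans ?_
    · intro i hi
      have hcf := hT.conf _ (hedge E hE i hi)
      have hch : ∀ F : Sym2 {v // Br v}, ∃ f, F ∈ Z i → f ∈ {f | f ∈ H.edgeSet ∧
          (∀ x ∈ s(p E i, p E (i + 1)), x ∉ f) ∧ ¬ Disjoint (A s(p E i, p E (i + 1))) (A f)} ∧
          ∃ j < n F, f = s(p F j, p F (j + 1)) := by
        intro F
        by_cases hF : F ∈ Z i
        · obtain ⟨h1, j, hj, h2⟩ := hF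
          exact ⟨_, fun _ => ⟨h2, j, hj, rfl⟩⟩
        · exact ⟨e, fun h => absurd h hF⟩
      choose f hf using hch
      refine le_trans (Set.encard_le_encard_of_injOn (f := f) (fun F hF => (hf F hF).1) ?_) hcf
      intro F hF F' hF' hff
      obtain ⟨j, hj, h1⟩ := (hf F hF).2
      obtain ⟨j', hj', h2⟩ := (hf F' hF').2
      refine hinjE F hF.1 F' hF'.1 ?_
      refine (hp F hF.1).1.edge hD (hp F' hF'.1).1 hj hj' ?_
      rw [← h1, ← h2, hff]
    · have h1 := (hp E hE).2.1
      have h2 : n E * m ≤ m * N := by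
        rw [mul_comm]
        exact Nat.mul_le_mul_left _ h1
      exact_mod_cast h2

/-- a walk in the graph of the threads, written out -/
theorem TGS.expand {V : Type} {G : SimpleGraph V} {Br : V → Prop} {N : ℕ} {e₀ : Sym2 V}
    {u v : {v // Br v}}
    (w : (TGS G Br N e₀).Walk u v) : ∃ Q : G.Walk u.1 v.1, Q.length ≤ w.length * N ∧
      (∀ x ∈ Q.support, ∀ h : Br x, (⟨x, h⟩ : {v // Br v}) ∈ w.support) ∧
      (∀ f ∈ Q.edges, ∃ n p, Thr G Br n p ∧ (∃ i < n, f = s(p i, p (i + 1))) ∧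
        ∃ E ∈ w.edges, E.map Subtype.val = s(p 0, p n)) := by
  induction w with
  | @nil u =>
    refine ⟨SimpleGraph.Walk.nil, by simp, ?_, by simp⟩
    intro x hx h
    rw [SimpleGraph.Walk.support_nil, List.mem_singleton] at hx ⊢
    exact Subtype.ext hx
  | @cons a b c hadj w ih =>
    obtain ⟨Q, hQ1, hQ2, hQ3⟩ := ih
    obtain ⟨-, -, n, p, hp, hN, h0, hn⟩ := id hadj
    obtain ⟨P, -, hPl, hPs, hPe⟩ := hp.seq.walk
    refine ⟨(P.copy h0 hn).append Q, ?_, ?_, ?_⟩
    · rw [SimpleGraph.Walk.length_append, SimpleGraph.Walk.length_copy, hPl,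
        SimpleGraph.Walk.length_cons, add_mul, one_mul]
      omega
    · intro x hx h
      rw [SimpleGraph.Walk.mem_support_append_iff, SimpleGraph.Walk.support_copy] at hx
      rw [SimpleGraph.Walk.support_cons, List.mem_cons]
      rcases hx with hx | hx
      · obtain ⟨i, hi, rfl⟩ := (hPs x).mp hx
        rcases hp.ends hi h with h1 | h1
        · left
          apply Subtype.ext
          simp only
          rw [h1, h0]
        · right
          have : (⟨p i, h⟩ : {v // Br v}) = b := by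
            apply Subtype.ext
            simp only
            rw [h1, hn]
          rw [this]
          exact w.start_mem_support
      · exact Or.inr (hQ2 x hx h)
    · intro f hf
      rw [SimpleGraph.Walk.edges_append, List.mem_append, SimpleGraph.Walk.edges_copy] at hf
      rcases hf with hf | hf
      · obtain ⟨i, hi, h⟩ := (hPe f).mp hf
        refine ⟨n, p, hp, ⟨i, hi, h⟩, s(a, b), by simp, ?_⟩
        rw [h0, hn]
        rfl
      · obtain ⟨n', p', h1, h2, E, hE, h3⟩ := hQ3 f hf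
        exact ⟨n', p', h1, h2, E, by simp [hE], h3⟩


/-- the threads that pass an edge in the same direction begin in the same way -/
theorem Thr.back {V : Type} {G : SimpleGraph V} {Br : V → Prop} (hD : D2 G Br) {n n' : ℕ}
    {p q : ℕ → V} (h : Thr G Br n p) (h' : Thr G Br n' q) :
    ∀ i j, i < n → j < n' → p i = q j → p (i + 1) = q (j + 1) → i = j ∧ ∀ k ≤ i + 1, p k = q k := by
  intro i
  induction i with
  | zero =>
    intro j hi hj h1 h2
    have hb : Br (q j) := h1 ▸ h.b0
    rcases h'.ends hj.le hb with h3 | h3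
    · subst h3
      refine ⟨rfl, fun k hk => ?_⟩
      rcases Nat.le_one_iff_eq_zero_or_eq_one.mp hk with rfl | rfl
      · exact h1
      · exact h2
    · omega
  | succ i ih =>
    intro j hi hj h1 h2
    have hnb : ¬ Br (p (i + 1)) := h.inn (i + 1) (by omega) hi
    have hj0 : 0 < j := by
      rcases Nat.eq_zero_or_pos j with h3 | h3
      · exfalso
        apply hnb
        rw [h1, h3]
        exact h'.b0
      · exact h3
    obtain ⟨j, rfl⟩ : ∃ j', j = j' + 1 := ⟨j - 1, by omega⟩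
    have a1 : G.Adj (p (i + 1)) (p i) := (h.seq.adj i (by omega)).symm
    have a2 : G.Adj (p (i + 1)) (p (i + 2)) := h.seq.adj (i + 1) hi
    have a3 : G.Adj (p (i + 1)) (q j) := by
      rw [h1]
      exact (h'.seq.adj j (by omega)).symm
    have hne : p i ≠ p (i + 2) := by
      intro he
      have := h.seq.inj i (i + 2) (by omega) (by omega) he
      omega
    rcases hD _ hnb _ _ _ a1 a2 a3 hne with h3 | h3
    · obtain ⟨h4, h5⟩ := ih j (by omega) (by omega) h3.symm h1
      refine ⟨by omega, fun k hk => ?_⟩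
      rcases Nat.lt_or_ge k (i + 2) with h6 | h6
      · exact h5 k (by omega)
      · obtain rfl : k = i + 2 := by omega
        rw [show i + 2 = i + 1 + 1 by ring, h2, h4]
    · exfalso
      have h4 : q j = q (j + 2) := h3.trans h2
      have := h'.seq.inj j (j + 2) (by omega) (by omega) h4
      omega

/-- the total length of the threads is at most the number of darts -/
theorem darts_sum {V : Type} [Fintype V] {G : SimpleGraph V} {Br : V → Prop} (hD : D2 G Br)
    {n : V → V → ℕ} {p : V → V → ℕ → V}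
    (hp : ∀ x a, Br x → G.Adj x a → Thr G Br (n x a) (p x a) ∧ p x a 0 = x ∧ p x a 1 = a) :
    ∑ x ∈ Finset.univ.filter Br, ∑ a ∈ nb G x, n x a ≤ ∑ v, (nb G v).card := by
  have h1 : ∑ x ∈ Finset.univ.filter Br, ∑ a ∈ nb G x, n x a =
      ((Finset.univ.filter Br).sigma fun x => (nb G x).sigma fun a => Finset.range (n x a)).card := by
    rw [Finset.card_sigma]
    refine Finset.sum_congr rfl fun x _ => ?_
    rw [Finset.card_sigma]
    refine Finset.sum_congr rfl fun a _ => ?_
    rw [Finset.card_range]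
  have h2 : ∑ v, (nb G v).card = (Finset.univ.sigma fun v => nb G v).card := by
    rw [Finset.card_sigma]
  rw [h1, h2]
  refine Finset.card_le_card_of_injOn
    (fun z => (⟨p z.1 z.2.1 z.2.2, p z.1 z.2.1 (z.2.2 + 1)⟩ : (_ : V) × V)) ?_ ?_
  · rintro ⟨x, a, i⟩ h
    simp only [Finset.coe_sigma, Set.mem_sigma_iff, Finset.mem_coe, Finset.mem_filter,
      Finset.mem_univ, true_and, mem_nb, Finset.mem_range] at h
    simp only [Finset.coe_sigma, Set.mem_sigma_iff, Finset.mem_coe, Finset.mem_univ, true_and,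
      mem_nb]
    exact (hp x a h.1 h.2.1).1.seq.adj i h.2.2
  · rintro ⟨x, a, i⟩ h ⟨y, b, j⟩ h' he
    simp only [Finset.coe_sigma, Set.mem_sigma_iff, Finset.mem_coe, Finset.mem_filter,
      Finset.mem_univ, true_and, mem_nb, Finset.mem_range] at h h'
    simp only [Sigma.mk.injEq, heq_eq_eq] at he
    obtain ⟨h3, h4⟩ := (hp x a h.1 h.2.1).1.back hD (hp y b h'.1 h'.2.1).1 i j h.2.2 h'.2.2
      he.1 he.2
    have hxy : x = y := by
      rw [← (hp x a h.1 h.2.1).2.1, ← (hp y b h'.1 h'.2.1).2.1]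
      exact h4 0 (Nat.zero_le _)
    have hab : a = b := by
      rw [← (hp x a h.1 h.2.1).2.2, ← (hp y b h'.1 h'.2.1).2.2]
      exact h4 1 (by omega)
    subst hxy hab h3
    rfl

/-- the degrees in the graph of the short threads -/
theorem TGS.deg {V : Type} [Fintype V] {G : SimpleGraph V} {Br : V → Prop} {N : ℕ}
    {n : V → V → ℕ} {p : V → V → ℕ → V}
    (hp : ∀ x a, Br x → G.Adj x a → Thr G Br (n x a) (p x a) ∧ p x a 0 = x ∧ p x a 1 = a)
    (hpar : ∀ n p n' q, Thr G Br n p → Thr G Br n' q → n' ≤ N → p 0 = q 0 → p n = q n' →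
      p 1 = q 1) (x₀ y₀ x : {v // Br v}) :
    (nb G x.1).card ≤ (nb (TGS G Br N s(x₀.1, y₀.1)) x).card +
      (((nb G x.1).filter (fun a => N < n x.1 a)).card +
      (if x ∈ ({x₀, y₀} : Finset {v // Br v}) then 1 else 0)) := by
  set T := TGS G Br N s(x₀.1, y₀.1) with hT
  have hpx : ∀ a ∈ nb G x.1, Thr G Br (n x.1 a) (p x.1 a) ∧ p x.1 a 0 = x.1 ∧ p x.1 a 1 = a :=
    fun a ha => hp x.1 a x.2 (mem_nb.mp ha)
  set S := (nb G x.1).filter (fun a => ¬ N < n x.1 a) with hS
  have hsplit : ((nb G x.1).filter (fun a => N < n x.1 a)).card + S.card = (nb G x.1).card :=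
    Finset.card_filter_add_card_filter_not _
  have hSm : ∀ a ∈ S, a ∈ nb G x.1 ∧ n x.1 a ≤ N := by
    intro a ha
    rw [hS, Finset.mem_filter] at ha
    exact ⟨ha.1, not_lt.mp ha.2⟩
  set E : Finset {v // Br v} := Finset.univ.filter (fun y => ∃ a ∈ S, p x.1 a (n x.1 a) = y.1)
    with hE
  have h1 : S.card ≤ E.card := by
    refine Finset.card_le_card_of_injOn
      (fun a => if h : Br (p x.1 a (n x.1 a)) then ⟨p x.1 a (n x.1 a), h⟩ else x) ?_ ?_
    · intro a ha
      have hb := (hpx a (hSm a ha).1).1.bn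
      simp only [dif_pos hb]
      rw [Finset.mem_coe, hE, Finset.mem_filter]
      exact ⟨Finset.mem_univ _, a, ha, rfl⟩
    · intro a ha b hb hab
      have hba := (hpx a (hSm a ha).1).1.bn
      have hbb := (hpx b (hSm b hb).1).1.bn
      simp only [dif_pos hba, dif_pos hbb, Subtype.mk.injEq] at hab
      have h3 := hpar _ _ _ _ (hpx a (hSm a ha).1).1 (hpx b (hSm b hb).1).1 (hSm b hb).2
        ((hpx a (hSm a ha).1).2.1.trans (hpx b (hSm b hb).1).2.1.symm) hab
      rw [(hpx a (hSm a ha).1).2.2, (hpx b (hSm b hb).1).2.2] at h3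
      exact h3
  have hEx : ∀ y ∈ E, y ≠ x := by
    rintro y hy rfl
    rw [hE, Finset.mem_filter] at hy
    obtain ⟨-, a, ha, h⟩ := hy
    have h2 := (hpx a (hSm a ha).1).1.seq.inj 0 (n y.1 a) (Nat.zero_le _) le_rfl
      ((hpx a (hSm a ha).1).2.1.trans h.symm)
    have h3 := (hpx a (hSm a ha).1).1.pos
    omega
  have hET : ∀ y ∈ E, s(x.1, y.1) ≠ s(x₀.1, y₀.1) → y ∈ nb T x := by
    intro y hy hne
    rw [mem_nb]
    refine ⟨(hEx y hy).symm, hne, ?_⟩
    rw [hE, Finset.mem_filter] at hy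
    obtain ⟨-, a, ha, h⟩ := hy
    exact ⟨n x.1 a, p x.1 a, (hpx a (hSm a ha).1).1, (hSm a ha).2, (hpx a (hSm a ha).1).2.1, h⟩
  have h5 : E.card ≤ (nb T x).card + (if x ∈ ({x₀, y₀} : Finset {v // Br v}) then 1 else 0) := by
    by_cases hx : x ∈ ({x₀, y₀} : Finset {v // Br v})
    · rw [if_pos hx]
      have hsub : E ⊆ nb T x ∪ {if x = x₀ then y₀ else x₀} := by
        intro y hy
        rw [Finset.mem_union, Finset.mem_singleton]
        by_cases h : s(x.1, y.1) = s(x₀.1, y₀.1)
        · right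
          rw [Sym2.eq_iff] at h
          rcases h with ⟨h2, h3⟩ | ⟨h2, h3⟩
          · rw [if_pos (Subtype.ext h2)]
            exact Subtype.ext h3
          · have hxy : x ≠ x₀ := by
              intro hxx
              have : y = x := by rw [hxx]; exact Subtype.ext h3
              exact hEx y hy this
            rw [if_neg hxy]
            exact Subtype.ext h3
        · exact Or.inl (hET y hy h)
      refine (Finset.card_le_card hsub).trans ((Finset.card_union_le _ _).trans ?_)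
      rw [Finset.card_singleton]
    · rw [if_neg hx, add_zero]
      refine Finset.card_le_card fun y hy => hET y hy ?_
      intro h
      apply hx
      rw [Finset.mem_insert, Finset.mem_singleton]
      rw [Sym2.eq_iff] at h
      rcases h with ⟨h2, -⟩ | ⟨h2, -⟩
      · exact Or.inl (Subtype.ext h2)
      · exact Or.inr (Subtype.ext h2)
  omega

end Pool.Agent.H354_OP
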