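import Pool.Agent.H354_OP.KD

/-!
# Redrawing a path of vertices of degree two along a walk
-/

set_option autoImplicit false

namespace Pool.Agent.H354_OP

open Set Filter Topology

theorem IsArc.subdivide {B : Set ℂ} {a b : ℂ} (h : IsArc B a b) {F : Set ℂ} (hF : F.Finite)
    (t : ℕ) : ∃ (c : ℕ → ℂ) (S : ℕ → Set ℂ), c 0 = a ∧ c (t + 1) = b ∧
      (∀ i ≤ t, IsArc (S i) (c i) (c (i + 1))) ∧ (∀ i ≤ t, S i ⊆ B) ∧
      (∀ i, 1 ≤ i → i ≤ t → c i ∈ B ∧ c i ∉ F) ∧
      (∀ i j, i ≤ t + 1 → j ≤ t + 1 → c i = c j → i = j) ∧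
      (∀ i j, i < j → j ≤ t → ∀ z ∈ S i, z ∈ S j → z = c j) ∧
      (∀ i l, i ≤ t → l ≤ t + 1 → c l ∈ S i → l = i ∨ l = i + 1) := by
  obtain ⟨γ, hc, hi, h0, h1, hB⟩ := h
  have hpos : (0 : ℝ) < 2 * (t + 1) := by positivity
  -- the times
  have htime : ∀ i : ℕ, ∃ τ : ℝ, (1 ≤ i → i ≤ t →
      (2 * (i : ℝ) - 1) / (2 * (t + 1)) < τ ∧ τ < (2 * (i : ℝ)) / (2 * (t + 1)) ∧ γ τ ∉ F) := by
    intro i
    by_cases hi1 : 1 ≤ i ∧ i ≤ t
    · have hlt : (2 * (i : ℝ) - 1) / (2 * (t + 1)) < (2 * (i : ℝ)) / (2 * (t + 1)) :=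
        div_lt_div_of_pos_right (by linarith) hpos
      have h1i : (1 : ℝ) ≤ i := by exact_mod_cast hi1.1
      have hit : (i : ℝ) ≤ t := by exact_mod_cast hi1.2
      have hsub : Ioo ((2 * (i : ℝ) - 1) / (2 * (t + 1))) ((2 * (i : ℝ)) / (2 * (t + 1))) ⊆
          Icc (0 : ℝ) 1 := by
        intro x hx
        constructor
        · have : 0 ≤ (2 * (i : ℝ) - 1) / (2 * (t + 1)) := div_nonneg (by linarith) hpos.le
          linarith [hx.1]
        · have : (2 * (i : ℝ)) / (2 * (t + 1)) ≤ 1 := (div_le_one hpos).mpr (by linarith)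
          linarith [hx.2]
      have hfin : {τ | τ ∈ Ioo ((2 * (i : ℝ) - 1) / (2 * (t + 1)))
          ((2 * (i : ℝ)) / (2 * (t + 1))) ∧ γ τ ∈ F}.Finite := by
        refine Set.Finite.of_injOn (f := γ) (t := F) (fun τ hτ => hτ.2) ?_ hF
        exact hi.mono fun τ hτ => hsub hτ.1
      obtain ⟨τ, hτ, hτF⟩ := (Set.Ioo_infinite hlt).exists_notMem_finite hfin
      refine ⟨τ, fun _ _ => ⟨hτ.1, hτ.2, fun h => hτF ⟨hτ, h⟩⟩⟩
    · exact ⟨0, fun a b => absurd ⟨a, b⟩ hi1⟩
  choose τ0 hτ0 using htime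
  set τ : ℕ → ℝ := fun i => if i = 0 then 0 else if i ≤ t then τ0 i else 1 with hτ
  have τz : τ 0 = 0 := by simp [hτ]
  have τl : τ (t + 1) = 1 := by simp [hτ]
  have τm : ∀ i, 1 ≤ i → i ≤ t → τ i = τ0 i := by
    intro i h1 h2
    have : i ≠ 0 := by omega
    simp [hτ, this, h2]
  have hstep : ∀ i, i ≤ t → τ i < τ (i + 1) := by
    intro i hit
    rcases Nat.eq_zero_or_pos i with rfl | hipos
    · rw [τz]
      rcases Nat.eq_zero_or_pos t with rfl | htpos
      · rw [τl]; norm_num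
      · have := (hτ0 1 le_rfl htpos).1
        rw [τm 1 le_rfl htpos]
        have h2 : (0 : ℝ) ≤ (2 * ((1 : ℕ) : ℝ) - 1) / (2 * (t + 1)) :=
          div_nonneg (by norm_num) hpos.le
        linarith
    · rw [τm i hipos hit]
      have h2 := (hτ0 i hipos hit).2.1
      rcases Nat.lt_or_ge i t with hlt | hge
      · rw [τm (i + 1) (by omega) hlt]
        have h3 := (hτ0 (i + 1) (by omega) hlt).1
        have h4 : (2 * (i : ℝ)) / (2 * (t + 1)) ≤
            (2 * ((i + 1 : ℕ) : ℝ) - 1) / (2 * (t + 1)) := by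
          refine div_le_div_of_nonneg_right ?_ hpos.le
          push_cast
          linarith
        linarith
      · obtain rfl : i = t := by omega
        rw [τl]
        have h4 : (2 * (i : ℝ)) / (2 * (i + 1)) ≤ 1 := (div_le_one (by positivity)).mpr (by linarith)
        linarith
  have hmono : ∀ i j, i < j → j ≤ t + 1 → τ i < τ j := by
    intro i j hij
    induction j with
    | zero => omega
    | succ j ih =>
      intro hj
      rcases Nat.lt_or_ge i j with h2 | h2
      · exact (ih h2 (by omega)).trans (hstep j (by omega))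
      · obtain rfl : i = j := by omega
        exact hstep i (by omega)
  have hle : ∀ i j, i ≤ j → j ≤ t + 1 → τ i ≤ τ j := by
    intro i j hij hj
    rcases eq_or_lt_of_le hij with rfl | h2
    · exact le_rfl
    · exact (hmono i j h2 hj).le
  have hmem : ∀ i, i ≤ t + 1 → τ i ∈ Icc (0 : ℝ) 1 := by
    intro i hit
    constructor
    · rw [← τz]; exact hle 0 i (by omega) hit
    · rw [← τl]; exact hle i (t + 1) hit le_rfl
  have hsubI : ∀ i, i ≤ t → Icc (τ i) (τ (i + 1)) ⊆ Icc (0 : ℝ) 1 := by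
    intro i hit x hx
    exact ⟨(hmem i (by omega)).1.trans hx.1, hx.2.trans (hmem (i + 1) (by omega)).2⟩
  have hinj : ∀ i j, i ≤ t + 1 → j ≤ t + 1 → τ i = τ j → i = j := by
    intro i j hit hjt hij
    rcases lt_trichotomy i j with h2 | h2 | h2
    · exact absurd hij (hmono i j h2 hjt).ne
    · exact h2
    · exact absurd hij (hmono j i h2 hit).ne'
  refine ⟨fun i => γ (τ i), fun i => γ '' Icc (τ i) (τ (i + 1)), by change γ (τ 0) = a; rw [τz, h0],
    by change γ (τ (t + 1)) = b; rw [τl, h1],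
    ?_, ?_, ?_, ?_, ?_, ?_⟩
  · intro i hit
    have hlt := hstep i hit
    have hd : 0 < τ (i + 1) - τ i := by linarith
    have hm : ∀ s ∈ Icc (0 : ℝ) 1, τ i + s * (τ (i + 1) - τ i) ∈ Icc (τ i) (τ (i + 1)) := by
      intro s hs
      constructor
      · have := mul_nonneg hs.1 hd.le
        linarith
      · have := mul_le_mul_of_nonneg_right hs.2 hd.le
        linarith
    refine ⟨fun s => γ (τ i + s * (τ (i + 1) - τ i)), ?_, ?_, by simp, by simp, ?_⟩
    · exact hc.comp (by fun_prop) fun s hs => hsubI i hit (hm s hs)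
    · intro s hs s' hs' hss
      have h3 := hi (hsubI i hit (hm s hs)) (hsubI i hit (hm s' hs')) hss
      have h4 : s * (τ (i + 1) - τ i) = s' * (τ (i + 1) - τ i) := by linarith
      exact mul_right_cancel₀ hd.ne' h4
    · ext z
      constructor
      · rintro ⟨s, hs, rfl⟩
        exact ⟨_, hm s hs, rfl⟩
      · rintro ⟨x, hx, rfl⟩
        refine ⟨(x - τ i) / (τ (i + 1) - τ i), ⟨div_nonneg (by linarith [hx.1]) hd.le,
          (div_le_one hd).mpr (by linarith [hx.2])⟩, ?_⟩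
        simp only
        rw [div_mul_cancel₀ _ hd.ne']
        congr 1
        ring
  · intro i hit
    rw [← hB]
    exact image_mono (hsubI i hit)
  · intro i hi1 hit
    refine ⟨?_, ?_⟩
    · rw [← hB]
      exact ⟨τ i, hmem i (by omega), rfl⟩
    · simp only
      rw [τm i hi1 hit]
      exact (hτ0 i hi1 hit).2.2
  · intro i j hit hjt hij
    exact hinj i j hit hjt (hi (hmem i hit) (hmem j hjt) hij)
  · rintro i j hij hjt z ⟨s, hs, rfl⟩ ⟨s', hs', hss⟩
    have h2 : s' = s := hi (hsubI j hjt hs') (hsubI i (by omega) hs) hss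
    have h3 : τ (i + 1) ≤ τ j := hle (i + 1) j (by omega) (by omega)
    have h4 : s = τ j := by
      have := hs.2
      have := hs'.1
      linarith
    rw [h4]
  · rintro i l hit hlt ⟨s, hs, hsl⟩
    have h2 : s = τ l := hi (hsubI i hit hs) (hmem l hlt) hsl
    by_contra hcon
    push Not at hcon
    rcases Nat.lt_or_ge l i with h3 | h3
    · have := hmono l i h3 (by omega)
      linarith [hs.1]
    · have := hmono (i + 1) l (by omega) hlt
      linarith [hs.2]

theorem redraw {V : Type} [Finite V] {G : SimpleGraph V} {u v : V} (huv : u ≠ v)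
    (P : G.Walk u v) (hP : P.IsPath)
    (hPint : ∀ x ∈ P.support, x ≠ u → x ≠ v → ∀ y, G.Adj x y → s(x, y) ∈ P.edges)
    {m Δ g : ℕ} {e : Sym2 V} (he : e ∈ P.edges) (hdraw : KDraw m (G.deleteEdges {e}))
    (Q : G.Walk u v) (hQP : ∀ f ∈ Q.edges, f ≠ e) (hQlen : Q.length ≤ g)
    (hQdeg : ∀ x ∈ Q.support, x ≠ u → x ≠ v → {e | e ∈ G.edgeSet ∧ x ∈ e}.encard ≤ Δ) :
    KDraw (m + g * (Δ + 2 * m) * 4) G := by
  classical
  obtain ⟨pos, A, hd, hx⟩ := hdraw
  set H := G.deleteEdges {e} with hH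
  have hHe : ∀ f, f ∈ H.edgeSet ↔ f ∈ G.edgeSet ∧ f ≠ e := by
    intro f
    rw [hH, SimpleGraph.edgeSet_deleteEdges]
    simp
  have hQH : ∀ f ∈ Q.edges, f ∈ H.edgeSet := fun f hf =>
    (hHe f).mpr ⟨Q.edges_subset_edgeSet hf, hQP f hf⟩
  obtain ⟨A', B, hd', hxs, hB, hBpos, hBcard⟩ := parallel hd hx huv (Q.transfer H hQH) (Δ := Δ) (by
    intro x hx hxu hxv
    rw [SimpleGraph.Walk.support_transfer] at hx
    refine (Set.encard_le_encard ?_).trans (hQdeg x hx hxu hxv)
    rintro f ⟨hf, hxf⟩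
    exact ⟨((hHe f).mp hf).1, hxf⟩)
  rw [SimpleGraph.Walk.length_transfer] at hBcard
  set XB : Set (Sym2 V × ℂ) := {q | q.1 ∈ H.edgeSet ∧ q.2 ∈ B ∧ q.2 ∈ A' q.1 ∧ q.2 ∉ range pos}
    with hXB
  have hXBcard : XB.encard ≤ (g * (Δ + 2 * m) * 4 : ℕ) := by
    refine hBcard.trans ?_
    have : Q.length * (Δ + 2 * m) * 4 ≤ g * (Δ + 2 * m) * 4 := by gcongr
    exact_mod_cast this
  have hXBfin : XB.Finite := Set.finite_of_encard_le_coe hXBcard
  have hPlen : 0 < P.length := by
    rcases Nat.eq_zero_or_pos P.length with h0 | h0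
    · exact absurd (SimpleGraph.Walk.eq_of_length_eq_zero h0) huv
    · exact h0
  obtain ⟨t, ht⟩ : ∃ t, P.length = t + 1 := ⟨P.length - 1, by omega⟩
  set p : ℕ → V := P.getVert with hp
  have p0 : p 0 = u := by simp [hp]
  have pt : p (t + 1) = v := by rw [hp, ← ht]; simp
  have pinj : ∀ i j, i ≤ t + 1 → j ≤ t + 1 → p i = p j → i = j := by
    intro i j hi hj hij
    exact hP.getVert_injOn (by simp only [mem_ofPred_eq]; omega)
      (by simp only [mem_ofPred_eq]; omega) hij
  have padj : ∀ i ≤ t, G.Adj (p i) (p (i + 1)) := fun i hi => P.adj_getVert_succ (by omega)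
  obtain ⟨c, S, c0, ct, hS, hSB, hcB, hcinj, hSS, hcS⟩ := hB.subdivide
    (F := Prod.snd '' XB ∪ range pos) ((hXBfin.image _).union (Set.finite_range pos)) t
  -- inner vertices of the path
  set inn : V → Prop := fun x => ∃ i, 1 ≤ i ∧ i ≤ t ∧ p i = x with hinn
  have hpos'ex : ∃ pos' : V → ℂ, (∀ i, i ≤ t + 1 → pos' (p i) = c i) ∧
      ∀ x, ¬ inn x → pos' x = pos x := by
    refine ⟨fun x => if h : inn x then c h.choose else pos x, ?_, ?_⟩
    · intro i hi
      by_cases h : inn (p i)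
      · simp only [dif_pos h]
        have hs := h.choose_spec
        exact congrArg c (pinj _ _ (by omega) hi hs.2.2)
      · simp only [dif_neg h]
        rcases Nat.eq_zero_or_pos i with rfl | hi0
        · rw [p0, c0]
        · have : i = t + 1 := by
            by_contra hne
            exact h ⟨i, hi0, by omega, rfl⟩
          rw [this, pt, ct]
    · intro x hx
      simp only [dif_neg hx]
  obtain ⟨pos', hpos'1, hpos'2⟩ := hpos'ex
  set PE : Set (Sym2 V) := {f | ∃ i ≤ t, f = s(p i, p (i + 1))} with hPE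
  have hPEinj : ∀ i j, i ≤ t → j ≤ t → s(p i, p (i + 1)) = s(p j, p (j + 1)) → i = j := by
    intro i j hi hj h
    rw [Sym2.eq_iff] at h
    rcases h with ⟨h1, -⟩ | ⟨h1, h2⟩
    · exact pinj i j (by omega) (by omega) h1
    · have a1 := pinj i (j + 1) (by omega) (by omega) h1
      have a2 := pinj (i + 1) j (by omega) (by omega) h2
      omega
  have hA''ex : ∃ A'' : Sym2 V → Set ℂ, (∀ i ≤ t, A'' s(p i, p (i + 1)) = S i) ∧
      ∀ f ∉ PE, A'' f = A' f := by
    refine ⟨fun f => if h : ∃ i ≤ t, f = s(p i, p (i + 1)) then S h.choose else A' f, ?_, ?_⟩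
    · intro i hi
      have h : ∃ j ≤ t, s(p i, p (i + 1)) = s(p j, p (j + 1)) := ⟨i, hi, rfl⟩
      simp only [dif_pos h]
      have hs := h.choose_spec
      exact congrArg S (hPEinj _ _ hi hs.1 hs.2).symm
    · intro f hf
      have h : ¬ ∃ j ≤ t, f = s(p j, p (j + 1)) := hf
      simp only [dif_neg h]
  obtain ⟨A'', hA''1, hA''2⟩ := hA''ex
  have hPEe : ∀ f ∈ P.edges, f ∈ PE := by
    intro f hf
    obtain ⟨i, hi, h⟩ := mem_walk_edges P hf
    exact ⟨i, by omega, h⟩
  have hnPE : ∀ f ∈ G.edgeSet, f ∉ PE → f ∈ H.edgeSet := by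
    intro f hf hfP
    refine (hHe f).mpr ⟨hf, ?_⟩
    rintro rfl
    exact hfP (hPEe _ he)
  -- edges off the path avoid its inner vertices
  have hninn : ∀ f ∈ G.edgeSet, f ∉ PE → ∀ x ∈ f, ¬ inn x := by
    rintro f hf hfP x hxf ⟨i, hi1, hit, rfl⟩
    obtain ⟨y, rfl⟩ := hxf
    refine hfP (hPEe _ (hPint (p i) (P.getVert_mem_support i) ?_ ?_ y hf))
    · rw [← p0]
      intro h
      have := pinj i 0 (by omega) (by omega) h
      omega
    · rw [← pt]
      intro h
      have := pinj i (t + 1) (by omega) le_rfl h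
      omega
  have hcF : ∀ i, 1 ≤ i → i ≤ t → c i ∉ range pos := fun i h1 h2 h =>
    (hcB i h1 h2).2 (Or.inr h)
  have hcA' : ∀ i, 1 ≤ i → i ≤ t → ∀ f ∈ H.edgeSet, c i ∉ A' f := by
    intro i h1 h2 f hf hm
    exact (hcB i h1 h2).2 (Or.inl ⟨(f, c i), ⟨hf, (hcB i h1 h2).1, hm, hcF i h1 h2⟩, rfl⟩)
  have hdraw : Drawing G pos' A'' := by
    refine ⟨?_, ?_, ?_⟩
    · intro x y hxy
      by_cases hx : inn x
      · obtain ⟨i, i1, i2, rfl⟩ := hx
        by_cases hy : inn y
        · obtain ⟨j, j1, j2, rfl⟩ := hy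
          rw [hpos'1 i (by omega), hpos'1 j (by omega)] at hxy
          rw [hcinj i j (by omega) (by omega) hxy]
        · rw [hpos'1 i (by omega), hpos'2 y hy] at hxy
          exact absurd ⟨y, hxy.symm⟩ (hcF i i1 i2)
      · by_cases hy : inn y
        · obtain ⟨j, j1, j2, rfl⟩ := hy
          rw [hpos'1 j (by omega), hpos'2 x hx] at hxy
          exact absurd ⟨x, hxy⟩ (hcF j j1 j2)
        · rw [hpos'2 x hx, hpos'2 y hy] at hxy
          exact hd'.inj hxy
    · intro a b hab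
      by_cases hf : s(a, b) ∈ PE
      · obtain ⟨i, hi, h⟩ := hf
        rw [h, hA''1 i hi]
        have harc := hS i hi
        rw [← hpos'1 i (by omega), ← hpos'1 (i + 1) (by omega)] at harc
        rw [Sym2.eq_iff] at h
        rcases h with ⟨rfl, rfl⟩ | ⟨rfl, rfl⟩
        · exact harc
        · exact harc.symm
      · rw [hA''2 _ hf, hpos'2 a (hninn _ hab hf a (by simp)),
          hpos'2 b (hninn _ hab hf b (by simp))]
        exact hd'.arc a b (hnPE _ hab hf)
    · intro f hf x hxf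
      by_cases hfP : f ∈ PE
      · obtain ⟨i, hi, rfl⟩ := hfP
        rw [hA''1 i hi] at hxf
        by_cases hx : inn x
        · obtain ⟨l, l1, l2, rfl⟩ := hx
          rw [hpos'1 l (by omega)] at hxf
          rcases hcS i l hi (by omega) hxf with rfl | rfl
          · simp
          · simp
        · rw [hpos'2 x hx] at hxf
          rcases hBpos x (hSB i hi hxf) with rfl | rfl
          · rw [← c0] at hxf
            have := hcS i 0 hi (by omega) hxf
            obtain rfl : i = 0 := by omega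
            rw [p0]
            simp
          · rw [← ct] at hxf
            have := hcS i (t + 1) hi le_rfl hxf
            obtain rfl : i = t := by omega
            rw [pt]
            simp
      · rw [hA''2 f hfP] at hxf
        by_cases hx : inn x
        · obtain ⟨l, l1, l2, rfl⟩ := hx
          rw [hpos'1 l (by omega)] at hxf
          exact absurd hxf (hcA' l l1 l2 f (hnPE f hf hfP))
        · rw [hpos'2 x hx] at hxf
          exact hd'.avoid f (hnPE f hf hfP) x hxf
  have hrange : ∀ f ∈ G.edgeSet, f ∉ PE → ∀ z ∈ A' f, z ∉ range pos' → z ∉ range pos := by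
    rintro f hf hfP z hz hz' ⟨y, rfl⟩
    have hy := hd'.avoid f (hnPE f hf hfP) y hz
    exact hz' ⟨y, hpos'2 y (hninn f hf hfP y hy)⟩
  have hSSc : ∀ i j, i ≤ t → j ≤ t → i ≠ j → ∀ z ∈ S i, z ∈ S j → z ∈ range pos' := by
    intro i j hi hj hij z hz hz'
    rcases Nat.lt_or_gt_of_ne hij with h | h
    · exact ⟨p j, by rw [hpos'1 j (by omega), hSS i j h hj z hz hz']⟩
    · exact ⟨p i, by rw [hpos'1 i (by omega), hSS j i h hi z hz' hz]⟩
  refine ⟨pos', A'', hdraw, ?_⟩
  intro f hf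
  by_cases hfP : f ∈ PE
  · obtain ⟨i, hi, rfl⟩ := hfP
    refine le_trans (Set.encard_le_encard (t := XB) ?_) (hXBcard.trans ?_)
    · rintro ⟨g', z⟩ ⟨h1, h2, h3, h4, h5⟩
      simp only at h1 h2 h3 h4 h5
      rw [hA''1 i hi] at h3
      by_cases hgP : g' ∈ PE
      · exfalso
        obtain ⟨j, hj, rfl⟩ := hgP
        rw [hA''1 j hj] at h4
        refine h5 (hSSc i j hi hj ?_ z h3 h4)
        rintro rfl
        exact h2 rfl
      · rw [hA''2 g' hgP] at h4
        exact ⟨hnPE g' h1 hgP, hSB i hi h3, h4, hrange g' h1 hgP z h4 h5⟩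
    · exact_mod_cast Nat.le_add_left _ _
  · have hfH := hnPE f hf hfP
    have hsub : xs G pos' A'' f ⊆ xs H pos A' f ∪ {q | q.1 ∈ PE ∧ q ∈ xs G pos' A'' f} := by
      rintro ⟨g', z⟩ hq
      by_cases hgP : g' ∈ PE
      · exact Or.inr ⟨hgP, hq⟩
      · left
        obtain ⟨h1, h2, h3, h4, h5⟩ := hq
        simp only at h1 h2 h3 h4 h5
        rw [hA''2 f hfP] at h3
        rw [hA''2 g' hgP] at h4
        exact ⟨hnPE g' h1 hgP, h2, h3, h4, hrange f hf hfP z h3 h5⟩
    refine (Set.encard_le_encard hsub).trans ((Set.encard_union_le _ _).trans ?_)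
    have hb1 : (xs H pos A' f).encard ≤ m :=
      (Set.encard_le_encard (hxs f hfH)).trans (hx f hfH)
    have hb2 : {q | q.1 ∈ PE ∧ q ∈ xs G pos' A'' f}.encard ≤ XB.encard := by
      refine Set.encard_le_encard_of_injOn (f := fun q => (f, q.2)) ?_ ?_
      · rintro ⟨g', z⟩ ⟨⟨i, hi, hgi⟩, h1, h2, h3, h4, h5⟩
        simp only at hgi h1 h2 h3 h4 h5 ⊢
        rw [hA''2 f hfP] at h3
        rw [hgi, hA''1 i hi] at h4
        exact ⟨hfH, hSB i hi h4, h3, hrange f hf hfP z h3 h5⟩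
      · rintro ⟨g', z⟩ ⟨⟨i, hi, hgi⟩, h1, h2, h3, h4, h5⟩ ⟨g'', z'⟩
          ⟨⟨j, hj, hgj⟩, h1', h2', h3', h4', h5'⟩ h
        simp only [Prod.mk.injEq, true_and] at h
        subst h
        simp only at hgi hgj h4 h4' h5
        rw [hgi, hA''1 i hi] at h4
        rw [hgj, hA''1 j hj] at h4'
        by_cases hij : i = j
        · subst hij
          rw [hgi, hgj]
        · exact absurd (hSSc i j hi hj hij z h4 h4') h5
    refine (add_le_add hb1 (hb2.trans hXBcard)).trans ?_
    exact_mod_cast le_rfl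

end Pool.Agent.H354_OP
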