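import Pool.Agent.H354_OP.Draw
import Pool.Agent.Helper805.CHS.Hub
import Pool.Agent.Helper805.CHS.Density
import Pool.Agent.Helper805.CHS.Drawn

/-!
# The topological information used by the counting arguments
-/

set_option autoImplicit false

namespace Pool.Agent.H354_OP

open Set Filter Topology Pool.Agent.Helper805.CHS

/-- Points for the vertices and connecting sets for the edges, where each edge meets at most `M`
edges that are vertex-disjoint from it. -/
structure TopD {V : Type} (M : ℕ) (H : SimpleGraph V) (pos : V → ℂ) (C : Sym2 V → Set ℂ) :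
    Prop where
  inj : Function.Injective pos
  join : ∀ u v, H.Adj u v → JoinedIn (C s(u, v)) (pos u) (pos v)
  avoid : ∀ e ∈ H.edgeSet, ∀ w, pos w ∈ C e → w ∈ e
  conf : ∀ e ∈ H.edgeSet,
    {f | f ∈ H.edgeSet ∧ (∀ x ∈ e, x ∉ f) ∧ ¬ Disjoint (C e) (C f)}.encard ≤ M

theorem IsArc.joinedIn {A : Set ℂ} {a b : ℂ} (h : IsArc A a b) : JoinedIn A a b := by
  obtain ⟨γ, h1, h2, h3, h4, h5⟩ := h
  refine JoinedIn.ofLine h1 h3 h4 ?_
  rw [h5]

theorem Drawing.topD {V : Type} {H : SimpleGraph V} {pos : V → ℂ} {A : Sym2 V → Set ℂ}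
    (hd : Drawing H pos A) {m : ℕ} (hx : ∀ e ∈ H.edgeSet, (xs H pos A e).encard ≤ m) :
    TopD m H pos A := by
  refine ⟨hd.inj, fun u v huv => (hd.arc u v huv).joinedIn, hd.avoid, ?_⟩
  intro e he
  refine le_trans ?_ (hx e he)
  have hz : ∀ f, f ∈ {f | f ∈ H.edgeSet ∧ (∀ x ∈ e, x ∉ f) ∧ ¬ Disjoint (A e) (A f)} →
      ∃ z, (f, z) ∈ xs H pos A e := by
    rintro f ⟨hf, hef, hd'⟩
    rw [Set.not_disjoint_iff] at hd'
    obtain ⟨z, hz1, hz2⟩ := hd'
    refine ⟨z, hf, ?_, hz1, hz2, ?_⟩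
    · rintro rfl
      induction f using Sym2.ind with
      | _ a b => exact hef a (by simp) (by simp)
    · rintro ⟨w, rfl⟩
      exact hef w (hd.avoid e he w hz1) (hd.avoid f hf w hz2)
  choose! z hz using hz
  refine Set.encard_le_encard_of_injOn (f := fun f => (f, z f)) (fun f hf => hz f hf) ?_
  intro f _ f' _ h
  exact (Prod.mk.inj h).1

/-- the set connecting the ends of a walk -/
def KW {V : Type} {H : SimpleGraph V} (pos : V → ℂ) (C : Sym2 V → Set ℂ) {a b : V}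
    (w : H.Walk a b) : Set ℂ :=
  {z | (∃ x ∈ w.support, z = pos x) ∨ ∃ e ∈ w.edges, z ∈ C e}

theorem TopD.joined {V : Type} {M : ℕ} {H : SimpleGraph V} {pos : V → ℂ} {C : Sym2 V → Set ℂ}
    (h : TopD M H pos C) {a b : V} (w : H.Walk a b) : JoinedIn (KW pos C w) (pos a) (pos b) := by
  induction w with
  | nil => exact JoinedIn.refl (Or.inl ⟨_, by simp, rfl⟩)
  | cons hadj w ih =>
    refine (h.join _ _ hadj |>.mono ?_).trans (ih.mono ?_)
    · intro z hz
      exact Or.inr ⟨_, by simp, hz⟩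
    · rintro z (⟨x, hx, rfl⟩ | ⟨e, he, hz⟩)
      · exact Or.inl ⟨x, by simp [hx], rfl⟩
      · exact Or.inr ⟨e, by simp [he], hz⟩

theorem TopD.disj {V : Type} {M : ℕ} {H : SimpleGraph V} {pos : V → ℂ} {C : Sym2 V → Set ℂ}
    (h : TopD M H pos C) {a b c d : V} (w : H.Walk a b) (w' : H.Walk c d)
    (hs : ∀ x ∈ w.support, x ∉ w'.support)
    (hC : ∀ e ∈ w.edges, ∀ f ∈ w'.edges, Disjoint (C e) (C f)) :
    Disjoint (KW pos C w) (KW pos C w') := by
  rw [Set.disjoint_left]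
  have hsup : ∀ {a b : V} (w : H.Walk a b), ∀ e ∈ w.edges, ∀ x ∈ e, x ∈ w.support := by
    intro a b w e he x hx
    exact w.mem_support_of_mem_edges he hx
  rintro z (⟨x, hx, rfl⟩ | ⟨e, he, hz⟩) (⟨y, hy, hxy⟩ | ⟨f, hf, hz'⟩)
  · exact hs x hx (h.inj hxy ▸ hy)
  · exact hs x hx (hsup w' f hf x (h.avoid f (w'.edges_subset_edgeSet hf) x hz'))
  · subst hxy
    exact hs y (hsup w e he y (h.avoid e (w.edges_subset_edgeSet he) y hz)) hy
  · exact Set.disjoint_left.mp (hC e he f hf) hz hz'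

theorem models_of_sets {ι : Type} (B : SimpleGraph ι) (p : ι → ℂ) (hp : Function.Injective p)
    (S : ι → ι → Set ℂ) (h1 : ∀ i j, B.Adj i j → JoinedIn (S i j) (p i) (p j))
    (h2 : ∀ i j, B.Adj i j → ∀ k, p k ∈ S i j → k = i ∨ k = j)
    (h3 : ∀ i j k l, B.Adj i j → B.Adj k l → i ≠ k → i ≠ l → j ≠ k → j ≠ l →
      Disjoint (S i j) (S k l)) : ¬ K5Model B ∧ ¬ K33Model B := by
  classical
  have hγ : ∀ i j, ∃ γ : unitInterval → ℂ, B.Adj i j →
      Continuous γ ∧ γ 0 = p i ∧ γ 1 = p j ∧ ∀ t, γ t ∈ S i j := by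
    intro i j
    by_cases h : B.Adj i j
    · obtain ⟨γ, hγ⟩ := h1 i j h
      exact ⟨γ, fun _ => ⟨γ.continuous, γ.source, γ.target, hγ⟩⟩
    · exact ⟨fun _ => 0, fun h' => absurd h' h⟩
  choose γ hγ using hγ
  have hD : IsDrawing B p γ := by
    refine ⟨hp, fun i j h => (hγ i j h).1, fun i j h => (hγ i j h).2.1,
      fun i j h => (hγ i j h).2.2.1, ?_, ?_⟩
    · intro i j h k t hk
      exact h2 i j h k (hk ▸ (hγ i j h).2.2.2 t)
    · intro i j k l hij hkl n1 n2 n3 n4 t s hts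
      exfalso
      refine Set.disjoint_left.mp (h3 i j k l hij hkl n1 n2 n3 n4) ((hγ i j hij).2.2.2 t) ?_
      rw [hts]
      exact (hγ k l hkl).2.2.2 s
  exact ⟨no_K5Model hD, no_K33Model hD⟩

end Pool.Agent.H354_OP
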