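import Pool.Agent.H354_OP.Dns
import Pool.Agent.H354_OP.Lv1

/-!
# Vertices of small degree whose neighbourhood has just one vertex of large degree
-/

set_option autoImplicit false

namespace Pool.Agent.H354_OP

open Finset
open scoped Classical

set_option linter.unusedSectionVars false

variable {V : Type} [Fintype V]

/-- no two vertices of `B` are joined by more than `p` disjoint connected sets -/
def FewJ (H : SimpleGraph V) (B : Finset V) (p : ℕ) : Prop :=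
  ∀ y₁ ∈ B, ∀ y₂ ∈ B, y₁ ≠ y₂ → ∀ 𝒴 : Finset (Finset V),
    (∀ X ∈ 𝒴, ∀ X' ∈ 𝒴, X ≠ X' → Disjoint X X') →
    (∀ X ∈ 𝒴, X.Nonempty ∧ Conn H X ∧ y₁ ∉ X ∧ y₂ ∉ X ∧ (∃ a ∈ X, H.Adj a y₁) ∧
      ∃ b ∈ X, H.Adj b y₂) → 𝒴.card ≤ p

/-- few disjoint connected sets have two neighbours in `B` -/
theorem two_hubs {H : SimpleGraph V} {A p : ℕ} (hA : Spn A H) {B : Finset V}
    (hp : FewJ H B p) (𝒳 : Finset (Finset V))
    (hd : ∀ X ∈ 𝒳, ∀ X' ∈ 𝒳, X ≠ X' → Disjoint X X')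
    (hX : ∀ X ∈ 𝒳, Disjoint X B ∧ Conn H X ∧ ∃ y₁ ∈ B, ∃ y₂ ∈ B, y₁ ≠ y₂ ∧
      (∃ a ∈ X, H.Adj a y₁) ∧ ∃ b ∈ X, H.Adj b y₂) : 𝒳.card ≤ p * (A * B.card) := by
  rcases 𝒳.eq_empty_or_nonempty with h0 | ⟨X₀, hX₀⟩
  · simp [h0]
  obtain ⟨-, -, v₀, -⟩ := hX X₀ hX₀
  have hch : ∀ X : Finset V, ∃ y : V × V, X ∈ 𝒳 → y.1 ∈ B ∧ y.2 ∈ B ∧ y.1 ≠ y.2 ∧
      (∃ a ∈ X, H.Adj a y.1) ∧ ∃ b ∈ X, H.Adj b y.2 := by
    intro X
    by_cases h : X ∈ 𝒳
    · obtain ⟨-, -, y₁, h1, y₂, h2, h3⟩ := hX X h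
      exact ⟨(y₁, y₂), fun _ => ⟨h1, h2, h3⟩⟩
    · exact ⟨(v₀, v₀), fun h' => absurd h' h⟩
  choose y hy using hch
  obtain ⟨Z, hZ⟩ : ∃ Z : V → Finset V, ∀ x v, v ∈ Z x ↔ v = x ∨ ∃ X ∈ 𝒳, (y X).1 = x ∧ v ∈ X := by
    refine ⟨fun x => univ.filter (fun v => v = x ∨ ∃ X ∈ 𝒳, (y X).1 = x ∧ v ∈ X), ?_⟩
    intro x v
    simp only [mem_filter, mem_univ, true_and]
  have hZd : ∀ x ∈ B, ∀ x' ∈ B, x ≠ x' → Disjoint (Z x) (Z x') := by
    intro x hx x' hx' hne
    rw [Finset.disjoint_left]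
    intro v hv hv'
    rw [hZ] at hv hv'
    rcases hv with rfl | ⟨X, h1, h2, h3⟩
    · rcases hv' with h | ⟨X', h1', h2', h3'⟩
      · exact hne h
      · exact Finset.disjoint_left.mp (hX X' h1').1 h3' hx
    · rcases hv' with rfl | ⟨X', h1', h2', h3'⟩
      · exact Finset.disjoint_left.mp (hX X h1).1 h3 hx'
      · have hXX : X = X' := by
          by_contra h
          exact Finset.disjoint_left.mp (hd X h1 X' h1' h) h3 h3'
        rw [hXX] at h2
        exact hne (h2.symm.trans h2')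
  have hZc : ∀ x ∈ B, Conn H (Z x) := by
    intro x hx
    have key : ∀ v ∈ Z x, ∃ w : H.Walk v x, ∀ u ∈ w.support, u ∈ Z x := by
      intro v hv
      rcases (hZ x v).mp hv with rfl | ⟨X, h1, h2, h3⟩
      · refine ⟨SimpleGraph.Walk.nil, ?_⟩
        intro u hu
        rw [SimpleGraph.Walk.support_nil, List.mem_singleton] at hu
        rw [hu]
        exact hv
      · obtain ⟨-, -, -, ⟨a, ha, hax⟩, -⟩ := hy X h1
        obtain ⟨w, hw⟩ := (hX X h1).2.1 v h3 a ha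
        rw [h2] at hax
        refine ⟨w.concat hax, ?_⟩
        intro u hu
        rw [SimpleGraph.Walk.support_concat, List.mem_append, List.mem_singleton] at hu
        rw [hZ]
        rcases hu with hu | rfl
        · exact Or.inr ⟨X, h1, h2, hw u hu⟩
        · exact Or.inl rfl
    intro a ha b hb
    obtain ⟨w1, h1⟩ := key a ha
    obtain ⟨w2, h2⟩ := key b hb
    refine ⟨w1.append w2.reverse, ?_⟩
    intro u hu
    rw [SimpleGraph.Walk.mem_support_append_iff, SimpleGraph.Walk.support_reverse,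
      List.mem_reverse] at hu
    exact hu.elim (h1 u) (h2 u)
  have h1 := hA B Z hZd (fun x _ => (hZ x x).mpr (Or.inl rfl)) hZc
  have h2 : (𝒳.image y).card ≤ A * B.card := by
    refine le_trans ?_ h1
    rw [← Finset.card_sigma]
    refine Finset.card_le_card_of_injOn (fun e => (⟨e.1, e.2⟩ : (_ : V) × V)) ?_ ?_
    · intro e he
      rw [mem_coe, mem_image] at he
      obtain ⟨X, hXX, rfl⟩ := he
      obtain ⟨k1, k2, k3, -, b, hb, hbb⟩ := hy X hXX
      rw [mem_coe, mem_sigma]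
      refine ⟨k1, ?_⟩
      rw [mem_filter]
      exact ⟨k2, k3, b, (hZ _ _).mpr (Or.inr ⟨X, hXX, rfl, hb⟩), _, (hZ _ _).mpr (Or.inl rfl), hbb⟩
    · intro e _ e' _ h
      simp only [Sigma.mk.injEq, heq_eq_eq] at h
      exact Prod.ext h.1 h.2
  have h3 : 𝒳.card ≤ p * (𝒳.image y).card := by
    refine Finset.card_le_mul_card_image 𝒳 p ?_
    intro e he
    rw [mem_image] at he
    obtain ⟨X, hXX, rfl⟩ := he
    obtain ⟨k1, k2, k3, -⟩ := hy X hXX
    refine hp _ k1 _ k2 k3 _ ?_ ?_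
    · intro X1 h1 X2 h2 hne
      rw [mem_filter] at h1 h2
      exact hd X1 h1.1 X2 h2.1 hne
    · intro X1 h1
      rw [mem_filter] at h1
      obtain ⟨j1, j2, j3, ⟨a, ha, haa⟩, b, hb, hbb⟩ := hy X1 h1.1
      rw [h1.2] at j1 j2 haa hbb
      have hB := (hX X1 h1.1).1
      exact ⟨⟨a, ha⟩, (hX X1 h1.1).2.1, fun h => Finset.disjoint_left.mp hB h j1,
        fun h => Finset.disjoint_left.mp hB h j2, ⟨a, ha, haa⟩, b, hb, hbb⟩
  exact h3.trans (Nat.mul_le_mul_left _ h2)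

/-- sum of the degrees -/
theorem spn_sum {H : SimpleGraph V} {A : ℕ} (hA : Spn A H) :
    ∑ v, (nb H v).card ≤ A * Fintype.card V := by
  have h := hA univ (fun x => {x}) (fun x _ y _ hxy => by simpa using hxy)
    (fun x _ => mem_singleton_self x) (fun x _ => conn_singleton H x)
  rw [Finset.card_univ] at h
  refine le_trans (sum_le_sum fun x _ => card_le_card fun y hy => ?_) h
  rw [mem_filter]
  exact ⟨mem_univ _, (mem_nb.mp hy).ne, x, mem_singleton_self x, y, mem_singleton_self y,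
    mem_nb.mp hy⟩

end Pool.Agent.H354_OP
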