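import Pool.Agent.H354_OP.Tw0

/-!
# Vertices of small degree whose neighbourhood has just one vertex of large degree, continued
-/

set_option autoImplicit false

namespace Pool.Agent.H354_OP

open Finset
open scoped Classical

set_option linter.unusedSectionVars false

variable {V : Type} [Fintype V]

theorem good_vertex {H : SimpleGraph V} {A p S γ : ℕ} (hA : Spn A H) (hA1 : 0 < A)
    (hd3 : ∀ v, 3 ≤ (nb H v).card) {W Z B : Finset V} (hW : W = Lo H S) (hZ : Z = Zo H S γ)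
    (hB : B = Hb H S γ) (hp : FewJ H B p)
    (hmZ : 100 * ∑ x ∈ Z, (nb H x).card ≤ Fintype.card V) (hS : 100 * A ≤ S)
    (hγ : 400 * (p * A) * A ≤ γ)
    (hWW : 100 * ∑ v ∈ W, ((nb H v).filter (fun y => y ∈ W)).card ≤ 201 * W.card)
    (hn : 0 < Fintype.card V) : ∃ v ∈ W, ∃ y ∈ B, H.Adj v y ∧ ∀ w, H.Adj v w → w ≠ y →
      w ∈ W ∧ H.Adj w y := by
  have hsum := spn_sum hA
  have hS1 : 1 ≤ S := by omega
  have hmW : ∀ v, v ∈ W ↔ (nb H v).card ≤ S := fun v => by rw [hW, mem_Lo]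
  have hmZ' : ∀ v, v ∈ Z ↔ S < (nb H v).card ∧ (nb H v).card ≤ γ * S := fun v => by
    rw [hZ, mem_Zo]
  have hmB : ∀ v, v ∈ B ↔ γ * S < (nb H v).card := fun v => by rw [hB, mem_Hb]
  rcases Nat.eq_zero_or_pos γ with hγ0 | hγ0
  · -- `p = 0`
    have hp0 : p = 0 := by
      rw [hγ0] at hγ
      have h1 : 400 * (p * A) * A = 0 := by omega
      rcases Nat.eq_zero_or_pos p with h | h
      · exact h
      · have : 0 < 400 * (p * A) * A := by positivity
        omega
    exfalso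
    have hBall : ∀ v, v ∈ B := by
      intro v
      rw [hmB, hγ0, zero_mul]
      have := hd3 v
      omega
    have hV1 : ∃ v y₁ y₂ : V, y₁ ≠ y₂ ∧ H.Adj v y₁ ∧ H.Adj v y₂ := by
      obtain ⟨v⟩ := Fintype.card_pos_iff.mp hn
      have h1 : 1 < (nb H v).card := by
        have := hd3 v
        omega
      obtain ⟨y₁, h1, y₂, h2, h3⟩ := Finset.one_lt_card.mp h1
      exact ⟨v, y₁, y₂, h3, mem_nb.mp h1, mem_nb.mp h2⟩
    obtain ⟨v, y₁, y₂, h1, h2, h3⟩ := hV1
    have := hp y₁ (hBall _) y₂ (hBall _) h1 {{v}} (by simp) (by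
      intro X hX
      rw [mem_singleton] at hX
      subst hX
      refine ⟨singleton_nonempty v, conn_singleton H v, ?_, ?_, ⟨v, by simp, h2⟩, v, by simp, h3⟩
      · rw [mem_singleton]
        exact h2.ne'
      · rw [mem_singleton]
        exact h3.ne')
    rw [hp0, card_singleton] at this
    omega
  have htri : ∀ v, v ∈ W ∨ v ∈ Z ∨ v ∈ B := by
    intro v
    rw [hmW, hmZ', hmB]
    omega
  have hWB : ∀ v, v ∈ W → v ∉ B := by
    intro v h h'
    rw [hmW] at h
    rw [hmB] at h'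
    have := Nat.le_mul_of_pos_left S hγ0
    omega
  -- sets with two hubs
  obtain ⟨T, hT⟩ : ∃ T : Finset V → Prop, ∀ X, T X ↔ X ⊆ W ∧ Conn H X ∧ X.card ≤ 2 ∧
    ∃ y₁ ∈ B, ∃ y₂ ∈ B, y₁ ≠ y₂ ∧ (∃ a ∈ X, H.Adj a y₁) ∧ ∃ b ∈ X, H.Adj b y₂ :=
    ⟨_, fun X => Iff.rfl⟩
  obtain ⟨good, hgood⟩ : ∃ good : Finset (Finset V) → Prop, ∀ 𝒳, good 𝒳 ↔
      (∀ X ∈ 𝒳, T X) ∧ ∀ X ∈ 𝒳, ∀ X' ∈ 𝒳, X ≠ X' → Disjoint X X' := ⟨_, fun X => Iff.rfl⟩
  obtain ⟨𝒳, h𝒳, hmax⟩ := Finset.exists_max_image (univ.filter good) Finset.card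
    ⟨∅, by rw [mem_filter, hgood]; simp⟩
  rw [mem_filter, hgood] at h𝒳
  obtain ⟨-, h𝒳1, h𝒳2⟩ := h𝒳
  obtain ⟨U, hU⟩ : ∃ U, U = 𝒳.biUnion id := ⟨_, rfl⟩
  have hUW : U ⊆ W := by
    intro v hv
    rw [hU, mem_biUnion] at hv
    obtain ⟨X, hX, hv⟩ := hv
    exact ((hT X).mp (h𝒳1 X hX)).1 hv
  have hUc : U.card ≤ 2 * (p * (A * B.card)) := by
    have h1 := two_hubs hA hp 𝒳 h𝒳2 (fun X hX => by
      obtain ⟨k1, k2, k3, k4⟩ := (hT X).mp (h𝒳1 X hX)
      exact ⟨Finset.disjoint_left.mpr fun v hv => hWB v (k1 hv), k2, k4⟩)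
    rw [hU]
    refine card_biUnion_le.trans ?_
    calc ∑ X ∈ 𝒳, (id X).card ≤ ∑ X ∈ 𝒳, 2 := sum_le_sum fun X hX =>
          ((hT X).mp (h𝒳1 X hX)).2.2.1
      _ = 2 * 𝒳.card := by rw [sum_const, smul_eq_mul, mul_comm]
      _ ≤ 2 * (p * (A * B.card)) := Nat.mul_le_mul_left _ h1
  have hTU : ∀ X, T X → ∃ v ∈ X, v ∈ U := by
    intro X hX
    by_contra hcon
    push Not at hcon
    have hXn : X ∉ 𝒳 := by
      intro h
      obtain ⟨-, -, -, y₁, -, y₂, -, -, ⟨a, ha, -⟩, -⟩ := (hT X).mp hX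
      refine hcon a ha ?_
      rw [hU, mem_biUnion]
      exact ⟨X, h, ha⟩
    have hdis : ∀ X' ∈ 𝒳, Disjoint X X' := by
      intro X' hX'
      rw [Finset.disjoint_left]
      intro v hv hv'
      refine hcon v hv ?_
      rw [hU, mem_biUnion]
      exact ⟨X', hX', hv'⟩
    have := hmax (insert X 𝒳) (by
      rw [mem_filter, hgood]
      refine ⟨mem_univ _, ?_, ?_⟩
      · intro X' hX'
        rw [mem_insert] at hX'
        rcases hX' with rfl | hX'
        · exact hX
        · exact h𝒳1 X' hX'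
      · intro X1 h1 X2 h2 hne
        rw [mem_insert] at h1 h2
        rcases h1 with rfl | h1
        · rcases h2 with rfl | h2
          · exact absurd rfl hne
          · exact hdis X2 h2
        · rcases h2 with rfl | h2
          · exact (hdis X1 h1).symm
          · exact h𝒳2 X1 h1 X2 h2 hne)
    rw [card_insert_of_notMem hXn] at this
    omega
  have hb1 : ∀ v ∈ W, v ∉ U → ((nb H v).filter (fun y => y ∈ B)).card ≤ 1 := by
    intro v hv hvU
    by_contra hcon
    push Not at hcon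
    obtain ⟨y₁, h1, y₂, h2, h3⟩ := Finset.one_lt_card.mp hcon
    rw [mem_filter, mem_nb] at h1 h2
    obtain ⟨u, hu, huU⟩ := hTU {v} ((hT _).mpr ⟨singleton_subset_iff.mpr hv, conn_singleton H v,
      by rw [card_singleton]; omega, y₁, h1.2, y₂, h2.2, h3, ⟨v, mem_singleton_self v, h1.1⟩, v,
      mem_singleton_self v, h2.1⟩)
    rw [mem_singleton] at hu
    exact hvU (hu ▸ huU)
  -- the other neighbours
  obtain ⟨a, ha⟩ : ∃ a : V → ℕ, ∀ v, a v = ((nb H v).filter (fun y => ¬ y ∈ B)).card :=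
    ⟨_, fun v => rfl⟩
  have hab : ∀ v, (nb H v).card = ((nb H v).filter (fun y => y ∈ B)).card + a v := by
    intro v
    rw [ha, card_filter_add_card_filter_not]
  have ha2 : ∀ v ∈ W, v ∉ U → 2 ≤ a v := by
    intro v hv hvU
    have h1 := hb1 v hv hvU
    have h2 := hab v
    have h3 := hd3 v
    omega
  have haW : 100 * ∑ v ∈ W, a v ≤ 201 * W.card + Fintype.card V := by
    have h1 : ∀ v, a v ≤ ((nb H v).filter (fun y => y ∈ W)).card +
        ((nb H v).filter (fun y => y ∈ Z)).card := by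
      intro v
      rw [ha]
      refine (card_le_card ?_).trans (card_union_le _ _)
      intro y hy
      rw [mem_filter] at hy
      rw [mem_union, mem_filter, mem_filter]
      rcases htri y with h | h | h
      · exact Or.inl ⟨hy.1, h⟩
      · exact Or.inr ⟨hy.1, h⟩
      · exact absurd h hy.2
    have h2 : ∑ v ∈ W, ((nb H v).filter (fun y => y ∈ Z)).card ≤ ∑ x ∈ Z, (nb H x).card := by
      rw [swap_sum H W Z]
      exact sum_le_sum fun x _ => card_le_card (filter_subset _ _)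
    have h3 := sum_le_sum (s := W) fun v _ => h1 v
    rw [sum_add_distrib] at h3
    omega
  obtain ⟨W0, hW0⟩ : ∃ W0, W0 = (W \ U).filter (fun v =>
    ((nb H v).filter (fun y => y ∈ B)).card = 0) := ⟨_, rfl⟩
  have hmW0 : ∀ v, v ∈ W0 ↔ (v ∈ W ∧ v ∉ U) ∧ ((nb H v).filter (fun y => y ∈ B)).card = 0 := by
    intro v
    rw [hW0, mem_filter, mem_sdiff]
  obtain ⟨x, hx⟩ : ∃ x, x = ∑ v ∈ W0, a v := ⟨_, rfl⟩
  have hx3 : 3 * W0.card ≤ x := by
    rw [hx, mul_comm, ← smul_eq_mul, ← sum_const]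
    refine sum_le_sum fun v hv => ?_
    have h1 := ((hmW0 v).mp hv).2
    have h2 := hab v
    have h3 := hd3 v
    omega
  have hx2 : x + 2 * (W \ U).card ≤ ∑ v ∈ W, a v + 2 * W0.card := by
    have h1 : W0 ⊆ W \ U := by
      rw [hW0]
      exact filter_subset _ _
    have h2 : ∑ v ∈ W \ U, a v = ∑ v ∈ (W \ U) \ W0, a v + x := by
      rw [hx]
      exact (sum_sdiff h1).symm
    have h3 : 2 * ((W \ U) \ W0).card ≤ ∑ v ∈ (W \ U) \ W0, a v := by
      rw [mul_comm, ← smul_eq_mul, ← sum_const]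
      refine sum_le_sum fun v hv => ?_
      rw [mem_sdiff, mem_sdiff] at hv
      exact ha2 v hv.1.1 hv.1.2
    have h4 := card_sdiff_add_card_eq_card h1
    have h5 : ∑ v ∈ W \ U, a v ≤ ∑ v ∈ W, a v :=
      sum_le_sum_of_subset sdiff_subset
    omega
  have hUW' := card_sdiff_add_card_eq_card hUW
  -- the sets to be avoided
  obtain ⟨D1, hD1⟩ : ∃ D1, D1 = U.biUnion (fun u => insert u (nb H u)) := ⟨_, rfl⟩
  obtain ⟨D2, hD2⟩ : ∃ D2, D2 = W0.biUnion (fun u => (nb H u).filter (fun y => ¬ y ∈ B)) := ⟨_, rfl⟩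
  obtain ⟨D3, hD3⟩ : ∃ D3, D3 = Z.biUnion (fun u => nb H u) := ⟨_, rfl⟩
  have hD1c : D1.card ≤ U.card * (1 + S) := by
    rw [hD1]
    refine card_biUnion_le.trans ?_
    rw [← smul_eq_mul, ← sum_const]
    refine sum_le_sum fun u hu => ?_
    have h1 := (hmW u).mp (hUW hu)
    have h2 := card_insert_le u (nb H u)
    omega
  have hUD1 : U.card ≤ D1.card := by
    refine card_le_card fun u hu => ?_
    rw [hD1, mem_biUnion]
    exact ⟨u, hu, mem_insert_self _ _⟩
  have hD2c : D2.card ≤ x := by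
    rw [hD2, hx]
    refine card_biUnion_le.trans (sum_le_sum fun u _ => ?_)
    rw [ha]
  have hD3c : D3.card ≤ ∑ x ∈ Z, (nb H x).card := by
    rw [hD3]
    exact card_biUnion_le
  -- the number of hubs
  have hBc : γ * S * B.card ≤ A * Fintype.card V := by
    refine le_trans ?_ hsum
    rw [mul_comm, ← smul_eq_mul, ← sum_const]
    refine (sum_le_sum fun v hv => ?_).trans (sum_le_sum_of_subset (subset_univ B))
    exact ((hmB v).mp hv).le
  have hD1n : 100 * D1.card ≤ Fintype.card V := by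
    have h1 : D1.card ≤ 4 * (p * A) * (S * B.card) := by
      calc D1.card ≤ U.card * (1 + S) := hD1c
        _ ≤ 2 * (p * (A * B.card)) * (S + S) := Nat.mul_le_mul hUc (by omega)
        _ = 4 * (p * A) * (S * B.card) := by ring
    have h2 : 100 * D1.card * A ≤ Fintype.card V * A := by
      calc 100 * D1.card * A ≤ 100 * (4 * (p * A) * (S * B.card)) * A :=
            Nat.mul_le_mul_right _ (Nat.mul_le_mul_left _ h1)
        _ = 400 * (p * A) * A * (S * B.card) := by ring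
        _ ≤ γ * (S * B.card) := Nat.mul_le_mul_right _ hγ
        _ = γ * S * B.card := by ring
        _ ≤ A * Fintype.card V := hBc
        _ = Fintype.card V * A := mul_comm _ _
    exact Nat.le_of_mul_le_mul_right h2 hA1
  have hWn : 100 * (univ \ W).card ≤ Fintype.card V := by
    have h1 : S * (univ \ W).card ≤ A * Fintype.card V := by
      refine le_trans ?_ hsum
      rw [mul_comm, ← smul_eq_mul, ← sum_const]
      refine (sum_le_sum fun v hv => ?_).trans (sum_le_sum_of_subset (subset_univ (univ \ W)))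
      rw [mem_sdiff, hmW] at hv
      omega
    have h2 : 100 * (univ \ W).card * A ≤ Fintype.card V * A := by
      calc 100 * (univ \ W).card * A = 100 * A * (univ \ W).card := by ring
        _ ≤ S * (univ \ W).card := Nat.mul_le_mul_right _ hS
        _ ≤ A * Fintype.card V := h1
        _ = Fintype.card V * A := mul_comm _ _
    exact Nat.le_of_mul_le_mul_right h2 hA1
  have hWc : (univ \ W).card + W.card = Fintype.card V := by
    rw [← Finset.card_univ]
    exact card_sdiff_add_card_eq_card (subset_univ W)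
  obtain ⟨v, hv, hv'⟩ : ∃ v ∈ W, v ∉ D1 ∪ W0 ∪ D2 ∪ D3 := by
    by_contra hcon
    push Not at hcon
    have h1 := card_le_card (s := W) (t := D1 ∪ W0 ∪ D2 ∪ D3) hcon
    have h2 := card_union_le (D1 ∪ W0 ∪ D2) D3
    have h3 := card_union_le (D1 ∪ W0) D2
    have h4 := card_union_le D1 W0
    omega
  simp only [mem_union, not_or] at hv'
  obtain ⟨⟨⟨hv1, hv0⟩, hv2⟩, hv3⟩ := hv'
  have hvU : v ∉ U := by
    intro h
    apply hv1
    rw [hD1, mem_biUnion]
    exact ⟨v, h, mem_insert_self _ _⟩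
  have hvb : ((nb H v).filter (fun y => y ∈ B)).card ≠ 0 := by
    intro h
    exact hv0 ((hmW0 v).mpr ⟨⟨hv, hvU⟩, h⟩)
  obtain ⟨y, hy⟩ := Finset.card_pos.mp (Nat.pos_of_ne_zero hvb)
  rw [mem_filter, mem_nb] at hy
  refine ⟨v, hv, y, hy.2, hy.1, ?_⟩
  intro w hvw hwy
  have hwB : w ∉ B := by
    intro h
    have h1 := hb1 v hv hvU
    have h2 : 1 < ((nb H v).filter (fun y => y ∈ B)).card :=
      Finset.one_lt_card.mpr ⟨y, by rw [mem_filter, mem_nb]; exact hy, w,
        by rw [mem_filter, mem_nb]; exact ⟨hvw, h⟩, hwy.symm⟩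
    omega
  have hwW : w ∈ W := by
    rcases htri w with h | h | h
    · exact h
    · exfalso
      apply hv3
      rw [hD3, mem_biUnion]
      exact ⟨w, h, mem_nb.mpr hvw.symm⟩
    · exact absurd h hwB
  refine ⟨hwW, ?_⟩
  have hwU : w ∉ U := by
    intro h
    apply hv1
    rw [hD1, mem_biUnion]
    exact ⟨w, h, mem_insert_of_mem (mem_nb.mpr hvw.symm)⟩
  have hw0 : w ∉ W0 := by
    intro h
    apply hv2
    rw [hD2, mem_biUnion]
    refine ⟨w, h, ?_⟩
    rw [mem_filter, mem_nb]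
    exact ⟨hvw.symm, hWB v hv⟩
  have hwb : ((nb H w).filter (fun y => y ∈ B)).card ≠ 0 := by
    intro h
    exact hw0 ((hmW0 w).mpr ⟨⟨hwW, hwU⟩, h⟩)
  obtain ⟨y', hy'⟩ := Finset.card_pos.mp (Nat.pos_of_ne_zero hwb)
  rw [mem_filter, mem_nb] at hy'
  by_cases hyy : y' = y
  · rw [← hyy]
    exact hy'.1
  · exfalso
    have hsub : ({v, w} : Finset V) ⊆ W := by
      intro u hu
      rw [mem_insert, mem_singleton] at hu
      rcases hu with rfl | rfl
      · exact hv
      · exact hwW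
    have hcn : Conn H ({v, w} : Finset V) :=
      conn_insert (conn_singleton H w) (mem_singleton_self w) hvw.symm
    obtain ⟨u, hu, huU⟩ := hTU {v, w} ((hT _).mpr ⟨hsub, hcn, card_le_two, y, hy.2, y', hy'.2,
      fun h => hyy h.symm, ⟨v, by simp, hy.1⟩, w, by simp, hy'.1⟩)
    rw [mem_insert, mem_singleton] at hu
    rcases hu with rfl | rfl
    · exact hvU huU
    · exact hwU huU

end Pool.Agent.H354_OP
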