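import Pool.Agent.H354_OP.Lv6
import Pool.Agent.H354_OP.Rer
import Pool.Agent.H354_OP.MainC

/-!
# The graph of all threads, with their lengths
-/

set_option autoImplicit false

namespace Pool.Agent.H354_OP

open Finset
open scoped Classical

set_option linter.unusedSectionVars false

theorem Thr.unique {V : Type} {G : SimpleGraph V} {Br : V → Prop} (hD : D2 G Br) {n n' : ℕ}
    {p q : ℕ → V} (h : Thr G Br n p) (h' : Thr G Br n' q) (h0 : p 0 = q 0) (h1 : p 1 = q 1) :
    n = n' ∧ ∀ k ≤ n, p k = q k := by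
  have key : ∀ k, k + 1 ≤ n → k + 1 ≤ n' → p k = q k ∧ p (k + 1) = q (k + 1) := by
    intro k
    induction k with
    | zero => exact fun _ _ => ⟨h0, h1⟩
    | succ k ih =>
      intro hn hn'
      obtain ⟨e1, e2⟩ := ih (by omega) (by omega)
      refine ⟨e2, ?_⟩
      have hb := h.inn (k + 1) (by omega) (by omega)
      have a1 : G.Adj (p (k + 1)) (p k) := (h.seq.adj k (by omega)).symm
      have a2 : G.Adj (p (k + 1)) (p (k + 2)) := h.seq.adj (k + 1) (by omega)
      have a3 : G.Adj (p (k + 1)) (q (k + 2)) := by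
        rw [e2]
        exact h'.seq.adj (k + 1) (by omega)
      have hne : p k ≠ p (k + 2) := by
        intro he
        have := h.seq.inj k (k + 2) (by omega) (by omega) he
        omega
      rcases hD _ hb _ _ _ a1 a2 a3 hne with h2 | h2
      · exfalso
        have := h'.seq.inj (k + 2) k (by omega) (by omega) (h2.trans e1)
        omega
      · exact h2.symm
  have hn := h.pos
  have hn' := h'.pos
  have hnn : n = n' := by
    rcases lt_trichotomy n n' with hlt | heq | hlt
    · exfalso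
      have h2 := (key (n - 1) (by omega) (by omega)).2
      rw [show n - 1 + 1 = n by omega] at h2
      exact h'.inn n hn hlt (h2 ▸ h.bn)
    · exact heq
    · exfalso
      have h2 := (key (n' - 1) (by omega) (by omega)).2
      rw [show n' - 1 + 1 = n' by omega] at h2
      exact h.inn n' hn' hlt (h2.symm ▸ h'.bn)
  refine ⟨hnn, fun k hk => ?_⟩
  rcases Nat.eq_zero_or_pos k with rfl | hk0
  · exact h0
  · have h2 := (key (k - 1) (by omega) (by omega)).2
    rwa [show k - 1 + 1 = k by omega] at h2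

theorem seqWalk {V : Type} {G : SimpleGraph V} {p : ℕ → V} : ∀ n : ℕ,
    (∀ i < n, G.Adj (p i) (p (i + 1))) → ∃ w : G.Walk (p 0) (p n), w.length = n ∧
      (∀ e ∈ w.edges, ∃ i < n, e = s(p i, p (i + 1))) ∧
      ∀ (f : V → ℕ) (c : V) (Q : G.Walk (p n) c), ((w.append Q).support.map f).sum =
        ∑ i ∈ range n, f (p i) + (Q.support.map f).sum := by
  intro n
  induction n with
  | zero =>
    intro _
    refine ⟨SimpleGraph.Walk.nil, rfl, by simp, ?_⟩
    intro f c Q
    simp
  | succ n ih =>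
    intro h
    obtain ⟨w, hw1, hw2, hw3⟩ := ih (fun i hi => h i (by omega))
    refine ⟨w.append (SimpleGraph.Walk.cons (h n (by omega)) SimpleGraph.Walk.nil), ?_, ?_, ?_⟩
    · simp [hw1]
    · intro e he
      rw [SimpleGraph.Walk.edges_append, List.mem_append] at he
      rcases he with he | he
      · obtain ⟨i, hi, h2⟩ := hw2 e he
        exact ⟨i, by omega, h2⟩
      · simp only [SimpleGraph.Walk.edges_cons, SimpleGraph.Walk.edges_nil,
          List.mem_singleton] at he
        exact ⟨n, by omega, he⟩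
    · intro f c Q
      rw [← SimpleGraph.Walk.append_assoc, SimpleGraph.Walk.cons_append,
        SimpleGraph.Walk.nil_append, hw3, SimpleGraph.Walk.support_cons, List.map_cons,
        List.sum_cons, sum_range_succ]
      ring

/-- threads are determined by their ends -/
def ParU {V : Type} (G : SimpleGraph V) (Br : V → Prop) : Prop :=
  ∀ n p n' q, Thr G Br n p → Thr G Br n' q → p 0 = q 0 → p n = q n' → p 1 = q 1

/-- the graph of the threads -/
def TH {V : Type} (G : SimpleGraph V) (Br : V → Prop) : SimpleGraph {v // Br v} where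
  Adj x y := x ≠ y ∧ ∃ n p, Thr G Br n p ∧ p 0 = x.1 ∧ p n = y.1
  symm := ⟨fun x y h => ⟨h.1.symm, by
    obtain ⟨n, p, hp, h0, hn⟩ := h.2
    exact ⟨n, fun i => p (n - i), hp.rev, by simpa using hn, by simpa using h0⟩⟩⟩
  loopless := ⟨fun _ h => h.1 rfl⟩

/-- the lengths of the threads -/
noncomputable def tl {V : Type} (G : SimpleGraph V) (Br : V → Prop) (E : Sym2 {v // Br v}) : ℕ :=
  if h : ∃ n p, Thr G Br n p ∧ s(p 0, p n) = E.map Subtype.val then h.choose else 0

theorem tl_eq {V : Type} {G : SimpleGraph V} {Br : V → Prop} (hD : D2 G Br) (hP : ParU G Br)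
    {n : ℕ} {p : ℕ → V} (hp : Thr G Br n p) {E : Sym2 {v // Br v}}
    (hE : s(p 0, p n) = E.map Subtype.val) : tl G Br E = n := by
  have h : ∃ n p, Thr G Br n p ∧ s(p 0, p n) = E.map Subtype.val := ⟨n, p, hp, hE⟩
  rw [tl, dif_pos h]
  obtain ⟨q, hq, hqE⟩ := h.choose_spec
  have hqE' := hqE.trans hE.symm
  rw [Sym2.eq_iff] at hqE'
  rcases hqE' with ⟨h1, h2⟩ | ⟨h1, h2⟩
  · exact (hq.unique hD hp h1 (hP _ _ _ _ hq hp h1 h2)).1
  · have h3 : q 0 = (fun i => p (n - i)) 0 := by simpa using h1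
    have h4 : q h.choose = (fun i => p (n - i)) n := by simpa using h2
    exact (hq.unique hD hp.rev h3 (hP _ _ _ _ hq hp.rev h3 h4)).1

theorem TH.thread {V : Type} {G : SimpleGraph V} {Br : V → Prop} (hD : D2 G Br)
    (hP : ParU G Br) {x y : {v // Br v}} (h : (TH G Br).Adj x y) :
    ∃ p, Thr G Br (tl G Br s(x, y)) p ∧ p 0 = x.1 ∧ p (tl G Br s(x, y)) = y.1 := by
  obtain ⟨n, p, hp, h0, hn⟩ := h.2
  have : tl G Br s(x, y) = n := tl_eq hD hP hp (by rw [h0, hn]; rfl)
  rw [this]
  exact ⟨p, hp, h0, hn⟩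

theorem TH.expand {V : Type} {G : SimpleGraph V} {Br : V → Prop} (hD : D2 G Br)
    (hP : ParU G Br) {u v : {v // Br v}} (w : (TH G Br).Walk u v) {Lm B : ℕ}
    (hL : ∀ f ∈ w.edges, tl G Br f ≤ Lm) (f : V → ℕ) (hf : ∀ y, ¬ Br y → f y ≤ 2)
    (hB : ∀ x ∈ w.support, f x.1 ≤ B) :
    ∃ Q : G.Walk u.1 v.1, Q.length ≤ w.length * Lm ∧
      (Q.support.map f).sum ≤ w.length * (B + 2 * Lm) + B ∧
      (∀ g ∈ Q.edges, ∃ n p, Thr G Br n p ∧ (∃ i < n, g = s(p i, p (i + 1))) ∧
        ∃ E ∈ w.edges, E.map Subtype.val = s(p 0, p n)) := by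
  induction w with
  | @nil u =>
    refine ⟨SimpleGraph.Walk.nil, by simp, ?_, by simp⟩
    have := hB u (by simp)
    simpa using this
  | @cons a b c hadj w ih =>
    obtain ⟨Q, hQ1, hQ2, hQ3⟩ := ih (fun g hg => hL g (by simp [hg])) (fun x hx => hB x (by simp [hx]))
    obtain ⟨p, hp, h0, hn⟩ := TH.thread hD hP hadj
    have hLn : tl G Br s(a, b) ≤ Lm := hL _ (by simp)
    obtain ⟨n, hnn⟩ : ∃ n, n = tl G Br s(a, b) := ⟨_, rfl⟩
    rw [← hnn] at hp hn hLn
    obtain ⟨P, hP1, hP2, hP3⟩ := seqWalk n hp.seq.adj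
    refine ⟨(P.append (Q.copy hn.symm rfl)).copy h0 rfl, ?_, ?_, ?_⟩
    · rw [SimpleGraph.Walk.length_copy, SimpleGraph.Walk.length_append,
        SimpleGraph.Walk.length_copy, hP1, SimpleGraph.Walk.length_cons, add_mul, one_mul]
      omega
    · rw [SimpleGraph.Walk.support_copy, hP3, SimpleGraph.Walk.support_copy,
        SimpleGraph.Walk.length_cons]
      have h1 : ∑ i ∈ range n, f (p i) ≤ B + 2 * Lm := by
        obtain ⟨t, rfl⟩ : ∃ t, n = t + 1 := ⟨n - 1, by have := hp.pos; omega⟩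
        rw [sum_range_succ']
        have h2 : ∑ i ∈ range t, f (p (i + 1)) ≤ ∑ i ∈ range t, 2 := by
          refine sum_le_sum fun i hi => hf _ ?_
          rw [mem_range] at hi
          exact hp.inn (i + 1) (by omega) (by omega)
        rw [sum_const, card_range, smul_eq_mul] at h2
        have h3 := hB a (by simp)
        rw [h0]
        omega
      have h4 : (w.length + 1) * (B + 2 * Lm) + B = w.length * (B + 2 * Lm) + B + (B + 2 * Lm) := by
        ring
      rw [h4]
      omega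
    · intro g hg
      rw [SimpleGraph.Walk.edges_copy, SimpleGraph.Walk.edges_append, List.mem_append,
        SimpleGraph.Walk.edges_copy] at hg
      rcases hg with hg | hg
      · obtain ⟨i, hi, h⟩ := hP2 g hg
        refine ⟨n, p, hp, ⟨i, hi, h⟩, s(a, b), by simp, ?_⟩
        rw [h0, hn]
        rfl
      · obtain ⟨n', p', h1, h2, E, hE, h3⟩ := hQ3 g hg
        exact ⟨n', p', h1, h2, E, by simp [hE], h3⟩

theorem TH.nb_card {V : Type} [Fintype V] {G : SimpleGraph V} {Br : V → Prop} (hD : D2 G Br)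
    (hP : ParU G Br) {n : V → V → ℕ} {p : V → V → ℕ → V}
    (hp : ∀ x a, Br x → G.Adj x a → Thr G Br (n x a) (p x a) ∧ p x a 0 = x ∧ p x a 1 = a)
    (x : {v // Br v}) : (nb (TH G Br) x).card = (nb G x.1).card := by
  refine le_antisymm ?_ ?_
  · have hch : ∀ y, ∃ a, y ∈ nb (TH G Br) x → G.Adj x.1 a ∧
        ∃ n p, Thr G Br n p ∧ p 0 = x.1 ∧ p n = y.1 ∧ p 1 = a := by
      intro y
      by_cases h : y ∈ nb (TH G Br) x
      · rw [mem_nb] at h
        obtain ⟨-, n, p, hp, h0, hn⟩ := h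
        refine ⟨p 1, fun _ => ⟨?_, n, p, hp, h0, hn, rfl⟩⟩
        rw [← h0]
        exact hp.seq.adj 0 hp.pos
      · exact ⟨x.1, fun h' => absurd h' h⟩
    choose f hf using hch
    refine Finset.card_le_card_of_injOn f ?_ ?_
    · intro y hy
      rw [Finset.mem_coe, mem_nb]
      exact (hf y hy).1
    · intro y hy z hz hyz
      obtain ⟨-, n, p, hp, h0, hn, h1⟩ := hf y hy
      obtain ⟨-, n', q, hq, h0', hn', h1'⟩ := hf z hz
      have := (hp.dart hD hq (i := 0) (j := 0) hp.pos hq.pos (h0.trans h0'.symm)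
        (by rw [Nat.zero_add, h1, h1', hyz])).2
      exact Subtype.ext (by rw [← hn, ← hn', this])
  · have hpx : ∀ a ∈ nb G x.1, Thr G Br (n x.1 a) (p x.1 a) ∧ p x.1 a 0 = x.1 ∧ p x.1 a 1 = a :=
      fun a ha => hp x.1 a x.2 (mem_nb.mp ha)
    refine Finset.card_le_card_of_injOn
      (fun a => if h : Br (p x.1 a (n x.1 a)) then ⟨p x.1 a (n x.1 a), h⟩ else x) ?_ ?_
    · intro a ha
      have ha' := hpx a ha
      have hb := ha'.1.bn
      simp only [dif_pos hb]
      rw [Finset.mem_coe, mem_nb]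
      refine ⟨?_, n x.1 a, p x.1 a, ha'.1, ha'.2.1, rfl⟩
      intro he
      have h2 := ha'.1.seq.inj 0 (n x.1 a) (Nat.zero_le _) le_rfl
        (ha'.2.1.trans (congrArg Subtype.val he))
      have h3 := ha'.1.pos
      omega
    · intro a ha b hb hab
      have ha' := hpx a ha
      have hb' := hpx b hb
      have hba := ha'.1.bn
      have hbb := hb'.1.bn
      simp only [dif_pos hba, dif_pos hbb, Subtype.mk.injEq] at hab
      have h3 := hP _ _ _ _ ha'.1 hb'.1 (ha'.2.1.trans hb'.2.1.symm) hab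
      rw [ha'.2.2, hb'.2.2] at h3
      exact h3

end Pool.Agent.H354_OP
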