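import Pool.Agent.H354_OP.Wor1

/-!
# The world of a graph that is hard to draw: nothing can be drawn anew
-/

set_option autoImplicit false

namespace Pool.Agent.H354_OP

open Finset
open scoped Classical

set_option linter.unusedSectionVars false

theorem world_dir {V : Type} [Fintype V] {G : SimpleGraph V} {m k : ℕ} (hk : ¬ KDraw k G)
    (hcrit : ∀ e ∈ G.edgeSet, KDraw m (G.deleteEdges {e})) {Br : V → Prop}
    (hBr : ∀ v, Br v ↔ 3 ≤ (nb G v).card)
    (hdeg : ∀ v, (nb G v).card < 3 → (nb G v).card = 0 ∨ (nb G v).card = 2) (hD : D2 G Br)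
    (hP : ParU G Br) (hnb : ∀ x : {v // Br v}, (nb (TH G Br) x).card = (nb G x.1).card)
    {q K : ℕ} (hq : 1 ≤ q) (hqk : (16 + 8 * m) * q * K * (m + 1) + (5 * m + 8) ≤ k) :
    NoDir (TH G Br) (tl G Br) q K := by
  intro u v huv w hw hwl hwL hwd
  obtain ⟨p, hp, h0, hn⟩ := TH.thread hD hP huv
  obtain ⟨n, hnn⟩ : ∃ n, n = tl G Br s(u, v) := ⟨_, rfl⟩
  rw [← hnn] at hp hn hwL hwd
  obtain ⟨Q, hQ1, hQ2, hQ3⟩ := TH.expand hD hP w (Lm := K * n) (B := K * n) hwL
    (fun y => if y = p 0 ∨ y = p n then 0 else (nb G y).card) (by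
      intro y hy
      split_ifs with h
      · omega
      · have := hdeg y (not_le.mp ((hBr _).not.mp hy))
        omega) (by
      intro x hx
      split_ifs with h
      · omega
      · push Not at h
        rw [← hnb]
        refine hwd x hx ?_ ?_
        · rintro rfl
          exact h.1 h0.symm
        · rintro rfl
          exact h.2 hn.symm)
  refine redraw_cost hk hcrit hdeg hp.seq hp.pos
    (fun i h1 h2 => not_le.mp ((hBr _).not.mp (hp.inn i h1 h2))) (Q.copy h0.symm hn.symm) ?_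
    (R := (16 + 8 * m) * q * K) ?_ hqk
  · intro f hf h
    rw [SimpleGraph.Walk.edges_copy] at hf
    obtain ⟨n'', p'', hp'', ⟨i, hi, hfi⟩, E, hE, hEm⟩ := hQ3 f hf
    have h3 := hp''.edge hD hp hi hp.pos (by rw [← hfi, h])
    rw [h0, hn, ← hEm] at h3
    have h4 : E = s(u, v) := Sym2.map.injective Subtype.val_injective h3
    exact hw (h4 ▸ hE)
  · rw [SimpleGraph.Walk.support_copy, SimpleGraph.Walk.length_copy]
    have h1 : w.length * (K * n + 2 * (K * n)) ≤ q * (3 * (K * n)) := by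
      have : K * n + 2 * (K * n) = 3 * (K * n) := by ring
      rw [this]
      exact Nat.mul_le_mul_right _ hwl
    have h2 : K * n ≤ q * (K * n) := Nat.le_mul_of_pos_left _ hq
    have h3 : 2 * m * Q.length ≤ 2 * m * (q * (K * n)) :=
      Nat.mul_le_mul_left _ (hQ1.trans (Nat.mul_le_mul_right _ hwl))
    have h4 : (16 + 8 * m) * q * K * n = 4 * (q * (3 * (K * n))) + 4 * (q * (K * n)) +
      4 * (2 * m * (q * (K * n))) := by ring
    rw [h4]
    omega

theorem world_mov {V : Type} [Fintype V] {G : SimpleGraph V} {m k : ℕ} (hk : ¬ KDraw k G)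
    (hcrit : ∀ e ∈ G.edgeSet, KDraw m (G.deleteEdges {e})) {Br : V → Prop}
    (hBr : ∀ v, Br v ↔ 3 ≤ (nb G v).card)
    (hdeg : ∀ v, (nb G v).card < 3 → (nb G v).card = 0 ∨ (nb G v).card = 2) (hD : D2 G Br)
    (hP : ParU G Br) (hnb : ∀ x : {v // Br v}, (nb (TH G Br) x).card = (nb G x.1).card)
    (hthr : ∃ (n : V → V → ℕ) (p : V → V → ℕ → V), ∀ x a, Br x → G.Adj x a →
        Thr G Br (n x a) (p x a) ∧ p x a 0 = x ∧ p x a 1 = a)
    {s q K : ℕ} (hK : 1 ≤ K) (hqk : rc m s s * ((4 * q + 1) * K) + rm m s ≤ k) :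
    NoMov (TH G Br) (tl G Br) s q K := by
  intro X e π hX he hXe hπ hwalk
  obtain ⟨nn, pp, hpp⟩ := hthr
  have hXc : X.card ≤ s := by
    refine le_trans ?_ hX
    rw [card_eq_sum_ones]
    refine sum_le_sum fun x _ => ?_
    rw [hnb]
    have := (hBr _).mp x.2
    omega
  -- the threads at `X`
  obtain ⟨I, hI⟩ : ∃ I : Finset (Sym2 {v // Br v}), I =
      univ.filter (fun E => E ∈ (TH G Br).edgeSet ∧ ∃ x ∈ X, x ∈ E) := ⟨_, rfl⟩
  have hmI : ∀ E, E ∈ I ↔ E ∈ (TH G Br).edgeSet ∧ ∃ x ∈ X, x ∈ E := by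
    intro E
    rw [hI, mem_filter]
    simp
  have hIc : I.card ≤ s := by
    refine le_trans ?_ hX
    have hsub : I ⊆ X.biUnion (fun x => (nb (TH G Br) x).image (fun y => s(x, y))) := by
      intro E hE
      obtain ⟨h1, x, hx, hxE⟩ := (hmI E).mp hE
      obtain ⟨y, rfl⟩ := hxE
      rw [mem_biUnion]
      exact ⟨x, hx, mem_image_of_mem _ (mem_nb.mpr h1)⟩
    exact (card_le_card hsub).trans (card_biUnion_le.trans (sum_le_sum fun x _ => card_image_le))
  have hex : ∀ E : {E // E ∈ I}, ∃ (v w : {v // Br v}) (p : ℕ → V), E.1 = s(v, w) ∧ v ∈ X ∧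
      (TH G Br).Adj v w ∧ Thr G Br (tl G Br E.1) p ∧ p 0 = v.1 ∧ p (tl G Br E.1) = w.1 := by
    rintro ⟨E, hE⟩
    obtain ⟨h1, x, hx, hxE⟩ := (hmI E).mp hE
    obtain ⟨y, rfl⟩ := hxE
    obtain ⟨p, hp⟩ := TH.thread hD hP h1
    exact ⟨x, y, p, rfl, hx, h1, hp⟩
  choose v₁ w₁ p₁ hE1 hE2 hE3 hE4 hE5 hE6 using hex
  obtain ⟨idx, hidx⟩ : ∃ idx : Fin I.card → {E // E ∈ I}, Function.Bijective idx :=
    ⟨I.equivFin.symm, I.equivFin.symm.bijective⟩
  have hends : ∀ E : {E // E ∈ I}, s(p₁ E 0, p₁ E (tl G Br E.1)) = E.1.map Subtype.val := by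
    intro E
    rw [hE5, hE6, hE1 E]
    rfl
  -- an edge of a thread of the list
  have hthread : ∀ (n : ℕ) (q : ℕ → V), Thr G Br n q → (∃ x ∈ X, q 0 = x.1) →
      ∃ E : {E // E ∈ I}, s(q 0, q n) = s(p₁ E 0, p₁ E (tl G Br E.1)) := by
    rintro n q hq ⟨x, hx, hx0⟩
    have hadj : (TH G Br).Adj x ⟨q n, hq.bn⟩ := by
      refine ⟨?_, n, q, hq, hx0, rfl⟩
      intro he
      have h2 := hq.seq.inj 0 n (Nat.zero_le _) le_rfl (hx0.trans (congrArg Subtype.val he))
      have h3 := hq.pos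
      omega
    refine ⟨⟨s(x, ⟨q n, hq.bn⟩), (hmI _).mpr ⟨hadj, x, hx, by simp⟩⟩, ?_⟩
    rw [hends, hx0]
    rfl
  -- threads with the same ends have the same edges
  have hsame : ∀ (n : ℕ) (q : ℕ → V) (n' : ℕ) (q' : ℕ → V), Thr G Br n q → Thr G Br n' q' →
      s(q 0, q n) = s(q' 0, q' n') → ∀ j < n, ∃ j' < n', s(q j, q (j + 1)) = s(q' j', q' (j' + 1)) := by
    intro n q n' q' hq hq' he j hj
    rw [Sym2.eq_iff] at he
    rcases he with ⟨h1, h2⟩ | ⟨h1, h2⟩
    · obtain ⟨h3, h4⟩ := hq.unique hD hq' h1 (hP _ _ _ _ hq hq' h1 h2)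
      exact ⟨j, by omega, by rw [h4 j hj.le, h4 (j + 1) hj]⟩
    · have e1 : q 0 = (fun i => q' (n' - i)) 0 := by simpa using h1
      have e2 : q n = (fun i => q' (n' - i)) n' := by simpa using h2
      obtain ⟨h3, h4⟩ := hq.unique hD hq'.rev e1 (hP _ _ _ _ hq hq'.rev e1 e2)
      refine ⟨n' - (j + 1), by omega, ?_⟩
      have e3 := h4 j hj.le
      have e4 := h4 (j + 1) hj
      change q j = q' (n' - j) at e3
      change q (j + 1) = q' (n' - (j + 1)) at e4
      rw [e3, e4, show n' - (j + 1) + 1 = n' - j by omega]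
      exact Sym2.eq_swap
  obtain ⟨eI, heI⟩ : ∃ eI : {E // E ∈ I}, eI.1 = e := ⟨⟨e, (hmI e).mpr ⟨he, hXe⟩⟩, rfl⟩
  obtain ⟨e', he'⟩ : ∃ e', e' = s(p₁ eI 0, p₁ eI 1) := ⟨_, rfl⟩
  have he'G : e' ∈ G.edgeSet := by
    rw [he']
    exact (hE4 eI).seq.adj 0 (hE4 eI).pos
  obtain ⟨π', hπ'1, hπ'2⟩ : ∃ π' : V → V, (∀ x : {v // Br v}, π' x.1 = (π x).1) ∧
      ∀ y, ¬ Br y → π' y = y :=
    ⟨fun y => if h : Br y then (π ⟨y, h⟩).1 else y, fun x => dif_pos x.2, fun y hy => dif_neg hy⟩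
  have hmX : ∀ x : {v // Br v}, x.1 ∈ X.image Subtype.val ↔ x ∈ X := by
    intro x
    rw [mem_image]
    constructor
    · rintro ⟨y, hy, hyx⟩
      rwa [← Subtype.ext hyx]
    · exact fun h => ⟨x, h, rfl⟩
  have hXBr : ∀ y ∈ X.image Subtype.val, Br y := by
    intro y hy
    rw [mem_image] at hy
    obtain ⟨x, -, rfl⟩ := hy
    exact x.2
  -- the walks
  have hWex : ∀ i : Fin I.card, ∃ W : (G.deleteEdges {e'}).Walk (π' (p₁ (idx i) 0))
      (π' (p₁ (idx i) (tl G Br (idx i).1))), W.length + (W.support.map (fun y =>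
      if p₁ (idx i) (tl G Br (idx i).1) ∉ X.image Subtype.val ∧
        y = p₁ (idx i) (tl G Br (idx i).1) then 0 else (nb G y).card)).sum ≤
          (4 * q + 1) * K * tl G Br (idx i).1 := by
    intro i
    obtain ⟨E, hE⟩ : ∃ E, E = idx i := ⟨_, rfl⟩
    rw [← hE]
    obtain ⟨W, hW1, hW2, hW3⟩ := hwalk (v₁ E) (hE2 E) (w₁ E) (hE3 E)
    obtain ⟨n, hn⟩ : ∃ n, n = tl G Br E.1 := ⟨_, rfl⟩
    have hnE : tl G Br s(v₁ E, w₁ E) = n := by rw [hn, ← hE1 E]
    rw [hnE] at hW2 hW3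
    have hle : (TH G Br).deleteEdges {e} ≤ TH G Br := SimpleGraph.deleteEdges_le _
    obtain ⟨Q, hQ1, hQ2, hQ3⟩ := TH.expand hD hP (W.mapLe hle) (Lm := K * n) (B := K * n) (by
        intro f hf
        rw [SimpleGraph.Walk.edges_mapLe_eq_edges] at hf
        exact hW2 f hf)
      (fun y => if p₁ E (tl G Br E.1) ∉ X.image Subtype.val ∧ y = p₁ E (tl G Br E.1) then 0 else
        (nb G y).card) (by
        intro y hy
        split_ifs with h
        · omega
        · have := hdeg y (not_le.mp ((hBr _).not.mp hy))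
          omega) (by
        intro x hx
        rw [SimpleGraph.Walk.support_mapLe_eq_support] at hx
        split_ifs with h
        · omega
        · rw [hE6] at h
          rw [← hnb]
          rcases hW3 x hx with ⟨h1, h2⟩ | h1
          · exfalso
            refine h ⟨?_, by rw [h2]⟩
            rw [hmX]
            exact h1
          · exact h1)
    rw [SimpleGraph.Walk.length_mapLe] at hQ1 hQ2
    rw [← hn] at hQ2
    have hQe : ∀ g ∈ Q.edges, g ∈ (G.deleteEdges {e'}).edgeSet := by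
      intro g hg
      rw [SimpleGraph.edgeSet_deleteEdges]
      refine ⟨Q.edges_subset_edgeSet hg, fun h => ?_⟩
      rw [Set.mem_singleton_iff] at h
      obtain ⟨n'', p'', hp'', ⟨j, hj, hgj⟩, E'', hE'', hEm⟩ := hQ3 g hg
      rw [SimpleGraph.Walk.edges_mapLe_eq_edges] at hE''
      have h3 := hp''.edge hD (hE4 eI) hj (hE4 eI).pos (by rw [← hgj, h, he'])
      rw [hends, ← hEm] at h3
      have h4 : E'' = eI.1 := Sym2.map.injective Subtype.val_injective h3
      have h5 := W.edges_subset_edgeSet hE''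
      rw [SimpleGraph.edgeSet_deleteEdges] at h5
      exact h5.2 (by rw [h4, heI]; rfl)
    refine ⟨(Q.transfer _ hQe).copy (by rw [hE5, hπ'1]) (by rw [hE6, hπ'1]), ?_⟩
    rw [SimpleGraph.Walk.length_copy, SimpleGraph.Walk.support_copy,
      SimpleGraph.Walk.length_transfer, SimpleGraph.Walk.support_transfer, ← hn]
    have h1 : W.length * (K * n) ≤ q * (K * n) := Nat.mul_le_mul_right _ hW1
    have h2 : W.length * (K * n + 2 * (K * n)) ≤ q * (K * n + 2 * (K * n)) :=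
      Nat.mul_le_mul_right _ hW1
    have h3 : (4 * q + 1) * K * n = q * (K * n) + (q * (K * n + 2 * (K * n)) + K * n) := by ring
    rw [h3]
    exact add_le_add (hQ1.trans h1) (hQ2.trans (Nat.add_le_add_right h2 _))
  choose W hW using hWex
  refine hk (KDraw.mono (reroute (hcrit e' he'G) (X.image Subtype.val) π' ?_
    (r := s) (k₀ := I.card) (card_image_le.trans hXc) hIc (fun i => p₁ (idx i))
    (fun i => tl G Br (idx i).1) (fun i => (hE4 _).pos) (fun i => (hE4 _).seq) ?_ ?_ ?_ ?_ ?_ ?_ ?_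
    (R := (4 * q + 1) * K) (Nat.mul_pos (by omega) hK) W hW) hqk)
  · intro y hy
    by_cases hb : Br y
    · have h1 : (⟨y, hb⟩ : {v // Br v}) ∉ X := fun h => hy ((hmX ⟨y, hb⟩).mpr h)
      have h2 := hπ'1 ⟨y, hb⟩
      rw [hπ _ h1] at h2
      exact h2
    · exact hπ'2 y hb
  · intro i
    rw [hE5, hmX]
    exact hE2 _
  · intro i i' j' h1 h2 h3
    refine (hE4 (idx i')).inn j' h1 h2 ?_
    rw [h3]
    exact (hE4 (idx i)).bn
  · intro i j h1 h2 h3
    exact (hE4 (idx i)).inn j h1 h2 (hXBr _ h3)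
  · intro i j i' j' h1 h2 h3 h4 h5
    have h6 := (hE4 (idx i)).vertex hD (hE4 (idx i')) h2.le h4.le ((hE4 (idx i)).inn j h1 h2) h5
    rw [hends, hends] at h6
    exact hidx.1 (Subtype.ext (Sym2.map.injective Subtype.val_injective h6))
  · intro i i' h6
    rw [hends, hends] at h6
    exact hidx.1 (Subtype.ext (Sym2.map.injective Subtype.val_injective h6))
  · intro a b hab ha
    rcases ha with ha | ⟨i, j, hj0, hjn, hja⟩
    · rw [mem_image] at ha
      obtain ⟨x, hx, rfl⟩ := ha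
      obtain ⟨hq, hq0, hq1⟩ := hpp x.1 b x.2 hab
      obtain ⟨E, hE⟩ := hthread _ _ hq ⟨x, hx, hq0⟩
      obtain ⟨i, rfl⟩ := hidx.2 E
      obtain ⟨j', hj', hjj⟩ := hsame _ _ _ _ hq (hE4 (idx i)) hE 0 hq.pos
      refine ⟨i, j', hj', ?_⟩
      rw [← hjj, Nat.zero_add, hq0, hq1]
    · have hp := hE4 (idx i)
      have a1 : G.Adj (p₁ (idx i) j) (p₁ (idx i) (j - 1)) := by
        have := hp.seq.adj (j - 1) (by omega)
        rw [show j - 1 + 1 = j by omega] at this
        exact this.symm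
      have a2 : G.Adj (p₁ (idx i) j) (p₁ (idx i) (j + 1)) := hp.seq.adj j hjn
      have a3 : G.Adj (p₁ (idx i) j) b := by rw [hja]; exact hab
      have hne : p₁ (idx i) (j - 1) ≠ p₁ (idx i) (j + 1) := by
        intro h2
        have := hp.seq.inj (j - 1) (j + 1) (by omega) (by omega) h2
        omega
      rcases hD _ (hp.inn j hj0 hjn) _ _ _ a1 a2 a3 hne with h3 | h3
      · refine ⟨i, j - 1, by omega, ?_⟩
        rw [show j - 1 + 1 = j by omega, ← hja, h3]
        exact Sym2.eq_swap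
      · exact ⟨i, j, hjn, by rw [← hja, h3]⟩
  · obtain ⟨i, hi⟩ := hidx.2 eI
    refine ⟨i, 0, (hE4 _).pos, ?_⟩
    rw [he', hi]

end Pool.Agent.H354_OP
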