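import Pool.Agent.H354_OP.Wor2
import Pool.Agent.H354_OP.Rer2

/-!
# The world of a graph that is hard to draw: nothing can be moved onto a path of threads
-/

set_option autoImplicit false

namespace Pool.Agent.H354_OP

open Finset
open scoped Classical

set_option linter.unusedSectionVars false

/-- no small set of vertices can be drawn anew at places on a path of threads -/
def NoMv {V : Type} [Fintype V] (H : SimpleGraph V) (len : Sym2 V → ℕ) (s q K : ℕ) : Prop :=
  ∀ (X : Finset V) (e : Sym2 V) (x a z : V) (_ : H.Adj x a) (R : H.Walk a z) (φ : V → ℕ) (L : ℕ),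
    L = len s(x, a) + (R.edges.map len).sum →
    ∑ v ∈ X, (nb H v).card ≤ s → e ∈ H.edgeSet → (∃ v ∈ X, v ∈ e) → e ≠ s(x, a) →
    e ∉ R.edges → x ∉ X → z ∉ X → (nb H a).card ≤ s →
    (∀ i < R.length, (nb H (R.getVert i)).card ≤ s) →
    ((nb H z).card ≤ s ∨ ∀ v ∈ X, φ v < L) → (∀ v ∈ X, 1 ≤ φ v ∧ φ v ≤ L) →
    (∀ v ∈ X, ∀ w, H.Adj v w → (w ∈ X ∧ φ v ≤ φ w + K * len s(v, w)) ∨
      (w = x ∧ φ v ≤ K * len s(v, w)) ∨ (w = z ∧ L ≤ φ v + K * len s(v, w)) ∨
      (w ∉ X ∧ L ≤ K * len s(v, w) ∧ ∃ W : (H.deleteEdges {e}).Walk a w, W.length ≤ q ∧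
        (∀ f ∈ W.edges, len f ≤ K * len s(v, w)) ∧
        ∀ y ∈ W.support, y = w ∨ (nb H y).card ≤ K * len s(v, w))) → False

theorem seg1 {V : Type} {G : SimpleGraph V} {p : ℕ → V} {L : ℕ}
    (h : ∀ l < L, G.Adj (p l) (p (l + 1))) {i j : ℕ} (hij : i ≤ j) (hj : j ≤ L) :
    ∃ w : G.Walk (p i) (p j), w.length + i = j ∧
      (∀ e ∈ w.edges, ∃ l < L, e = s(p l, p (l + 1))) ∧
      ∀ y ∈ w.support, ∃ l, i ≤ l ∧ l ≤ j ∧ y = p l := by
  induction j, hij using Nat.le_induction with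
  | base =>
    refine ⟨SimpleGraph.Walk.nil, by simp, by simp, ?_⟩
    intro y hy
    rw [SimpleGraph.Walk.support_nil, List.mem_singleton] at hy
    exact ⟨i, le_rfl, le_rfl, hy⟩
  | succ j hij ih =>
    obtain ⟨w, h1, h2, h3⟩ := ih (by omega)
    refine ⟨w.append (SimpleGraph.Walk.cons (h j (by omega)) SimpleGraph.Walk.nil), ?_, ?_, ?_⟩
    · rw [SimpleGraph.Walk.length_append]
      simp only [SimpleGraph.Walk.length_cons, SimpleGraph.Walk.length_nil]
      omega
    · intro e he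
      rw [SimpleGraph.Walk.edges_append, List.mem_append] at he
      rcases he with he | he
      · exact h2 e he
      · simp only [SimpleGraph.Walk.edges_cons, SimpleGraph.Walk.edges_nil,
          List.mem_singleton] at he
        exact ⟨j, by omega, he⟩
    · intro y hy
      rw [SimpleGraph.Walk.mem_support_append_iff] at hy
      simp only [SimpleGraph.Walk.support_cons, SimpleGraph.Walk.support_nil, List.mem_cons,
        List.not_mem_nil, or_false] at hy
      rcases hy with hy | hy | hy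
      · obtain ⟨l, h4, h5, h6⟩ := h3 y hy
        exact ⟨l, h4, by omega, h6⟩
      · exact ⟨j, hij, by omega, hy⟩
      · exact ⟨j + 1, by omega, le_rfl, hy⟩

theorem seg2 {V : Type} {G : SimpleGraph V} {p : ℕ → V} {L : ℕ}
    (h : ∀ l < L, G.Adj (p l) (p (l + 1))) {i j : ℕ} (hi : i ≤ L) (hj : j ≤ L) :
    ∃ w : G.Walk (p i) (p j), (w.length + i = j ∨ w.length + j = i) ∧
      (∀ e ∈ w.edges, ∃ l < L, e = s(p l, p (l + 1))) ∧
      ∀ y ∈ w.support, ∃ l, min i j ≤ l ∧ l ≤ max i j ∧ y = p l := by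
  rcases Nat.le_total i j with hij | hij
  · obtain ⟨w, h1, h2, h3⟩ := seg1 h hij hj
    refine ⟨w, Or.inl h1, h2, fun y hy => ?_⟩
    obtain ⟨l, h4, h5, h6⟩ := h3 y hy
    exact ⟨l, by omega, by omega, h6⟩
  · obtain ⟨w, h1, h2, h3⟩ := seg1 h hij hi
    refine ⟨w.reverse, Or.inr (by rw [SimpleGraph.Walk.length_reverse]; exact h1), ?_, ?_⟩
    · intro e he
      rw [SimpleGraph.Walk.edges_reverse, List.mem_reverse] at he
      exact h2 e he
    · intro y hy
      rw [SimpleGraph.Walk.support_reverse, List.mem_reverse] at hy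
      obtain ⟨l, h4, h5, h6⟩ := h3 y hy
      exact ⟨l, by omega, by omega, h6⟩

theorem glueS {V : Type} (p q : ℕ → V) (n : ℕ) (h : p n = q 0) :
    ∃ r : ℕ → V, (∀ l ≤ n, r l = p l) ∧ ∀ l, r (n + l) = q l := by
  refine ⟨fun l => if l < n then p l else q (l - n), fun l hl => ?_, fun l => ?_⟩
  · by_cases h1 : l < n
    · simp only [if_pos h1]
    · have h2 : l = n := by omega
      simp only [if_neg h1]
      rw [h2, Nat.sub_self, h]
  · simp only [if_neg (show ¬ n + l < n by omega)]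
    rw [Nat.add_sub_cancel_left]

theorem TH.expandG {V : Type} {G : SimpleGraph V} {Br : V → Prop} (hD : D2 G Br)
    (hP : ParU G Br) {u v : {v // Br v}} (w : (TH G Br).Walk u v) (d : V → Prop)
    (hd : ∀ y, ¬ Br y → d y) (hw : ∀ i < w.length, d (w.getVert i).1) :
    ∃ p : ℕ → V, p 0 = u.1 ∧ p (w.edges.map (tl G Br)).sum = v.1 ∧
      (∀ l < (w.edges.map (tl G Br)).sum, G.Adj (p l) (p (l + 1))) ∧
      (∀ l < (w.edges.map (tl G Br)).sum, d (p l)) ∧
      ∀ l < (w.edges.map (tl G Br)).sum, ∃ n q, Thr G Br n q ∧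
        (∃ i < n, s(p l, p (l + 1)) = s(q i, q (i + 1))) ∧
        ∃ E ∈ w.edges, E.map Subtype.val = s(q 0, q n) := by
  induction w with
  | @nil u =>
    exact ⟨fun _ => u.1, rfl, rfl, by simp, by simp, by simp⟩
  | @cons a b c hadj w ih =>
    obtain ⟨p₂, g1, g2, g3, g4, g5⟩ := ih (fun i hi => by
      have := hw (i + 1) (by rw [SimpleGraph.Walk.length_cons]; omega)
      rwa [SimpleGraph.Walk.getVert_cons_succ] at this)
    obtain ⟨p₁, hp, h0, hn⟩ := TH.thread hD hP hadj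
    obtain ⟨n, hnn⟩ : ∃ n, n = tl G Br s(a, b) := ⟨_, rfl⟩
    rw [← hnn] at hp hn
    obtain ⟨L, hL⟩ : ∃ L, L = (w.edges.map (tl G Br)).sum := ⟨_, rfl⟩
    rw [← hL] at g2 g3 g4 g5
    have hLL : ((SimpleGraph.Walk.cons hadj w).edges.map (tl G Br)).sum = n + L := by
      rw [SimpleGraph.Walk.edges_cons, List.map_cons, List.sum_cons, ← hnn, hL]
    rw [hLL]
    obtain ⟨r, hr1, hr2⟩ := glueS p₁ p₂ n (hn.trans g1.symm)
    refine ⟨r, by rw [hr1 0 (Nat.zero_le _), h0], by rw [hr2, g2], ?_, ?_, ?_⟩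
    · intro l hl
      rcases Nat.lt_or_ge l n with h | h
      · rw [hr1 l h.le, hr1 (l + 1) h]
        exact hp.seq.adj l h
      · obtain ⟨l', rfl⟩ : ∃ l', l = n + l' := ⟨l - n, by omega⟩
        rw [hr2, add_assoc, hr2]
        exact g3 l' (by omega)
    · intro l hl
      rcases Nat.lt_or_ge l n with h | h
      · rw [hr1 l h.le]
        rcases Nat.eq_zero_or_pos l with rfl | h'
        · rw [h0]
          exact hw 0 (by rw [SimpleGraph.Walk.length_cons]; omega)
        · exact hd _ (hp.inn l h' h)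
      · obtain ⟨l', rfl⟩ : ∃ l', l = n + l' := ⟨l - n, by omega⟩
        rw [hr2]
        exact g4 l' (by omega)
    · intro l hl
      rcases Nat.lt_or_ge l n with h | h
      · refine ⟨n, p₁, hp, ⟨l, h, by rw [hr1 l h.le, hr1 (l + 1) h]⟩, s(a, b), by simp, ?_⟩
        rw [h0, hn]
        rfl
      · obtain ⟨l', rfl⟩ : ∃ l', l = n + l' := ⟨l - n, by omega⟩
        rw [hr2, add_assoc, hr2]
        obtain ⟨n', q, k1, k2, E, hE, k3⟩ := g5 l' (by omega)
        exact ⟨n', q, k1, k2, E, by simp [hE], k3⟩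

theorem sum_support_le {V : Type} {G : SimpleGraph V} {u v : V} (w : G.Walk u v) (f : V → ℕ)
    (s : ℕ) (h : ∀ y ∈ w.support, f y ≤ s) : (w.support.map f).sum ≤ (w.length + 1) * s := by
  have h1 := List.sum_le_card_nsmul (w.support.map f) s (by
    intro x hx
    rw [List.mem_map] at hx
    obtain ⟨y, hy, rfl⟩ := hx
    exact h y hy)
  rw [List.length_map, SimpleGraph.Walk.length_support, smul_eq_mul] at h1
  exact h1

theorem world_mv {V : Type} [Fintype V] {G : SimpleGraph V} {m k : ℕ} (hk : ¬ KDraw k G)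
    (hcrit : ∀ e ∈ G.edgeSet, KDraw m (G.deleteEdges {e})) {Br : V → Prop}
    (hBr : ∀ v, Br v ↔ 3 ≤ (nb G v).card)
    (hdeg : ∀ v, (nb G v).card < 3 → (nb G v).card = 0 ∨ (nb G v).card = 2) (hD : D2 G Br)
    (hP : ParU G Br) (hnb : ∀ x : {v // Br v}, (nb (TH G Br) x).card = (nb G x.1).card)
    (hthr : ∃ (n : V → V → ℕ) (p : V → V → ℕ → V), ∀ x a, Br x → G.Adj x a →
        Thr G Br (n x a) (p x a) ∧ p x a 0 = x ∧ p x a 1 = a)
    {s q K : ℕ} (hK : 1 ≤ K) (hs2 : 2 ≤ s) (hqk : rc2 m s s * ((4 * q + 2 * s + 2) * K) + rm2 m s ≤ k) :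
    NoMv (TH G Br) (tl G Br) s q K := by
  intro X e x a z hxa R φ L hL hX he hXe hex heR hxX hzX has hR hzs hφ hwalk
  obtain ⟨nn, pp, hpp⟩ := hthr
  have hXc : X.card ≤ s := by
    refine le_trans ?_ hX
    rw [card_eq_sum_ones]
    refine sum_le_sum fun x _ => ?_
    rw [hnb]
    have := (hBr _).mp x.2
    omega
  -- the threads at `X`
  obtain ⟨I, hI⟩ : ∃ I : Finset (Sym2 {v // Br v}), I =
      univ.filter (fun E => E ∈ (TH G Br).edgeSet ∧ ∃ x ∈ X, x ∈ E) := ⟨_, rfl⟩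
  have hmI : ∀ E, E ∈ I ↔ E ∈ (TH G Br).edgeSet ∧ ∃ x ∈ X, x ∈ E := by
    intro E
    rw [hI, mem_filter]
    simp
  have hIc : I.card ≤ s := by
    refine le_trans ?_ hX
    have hsub : I ⊆ X.biUnion (fun x => (nb (TH G Br) x).image (fun y => s(x, y))) := by
      intro E hE
      obtain ⟨h1, x, hx, hxE⟩ := (hmI E).mp hE
      obtain ⟨y, rfl⟩ := hxE
      rw [mem_biUnion]
      exact ⟨x, hx, mem_image_of_mem _ (mem_nb.mpr h1)⟩
    exact (card_le_card hsub).trans (card_biUnion_le.trans (sum_le_sum fun x _ => card_image_le))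
  have hex : ∀ E : {E // E ∈ I}, ∃ (v w : {v // Br v}) (p : ℕ → V), E.1 = s(v, w) ∧ v ∈ X ∧
      (TH G Br).Adj v w ∧ Thr G Br (tl G Br E.1) p ∧ p 0 = v.1 ∧ p (tl G Br E.1) = w.1 := by
    rintro ⟨E, hE⟩
    obtain ⟨h1, x, hx, hxE⟩ := (hmI E).mp hE
    obtain ⟨y, rfl⟩ := hxE
    obtain ⟨p, hp⟩ := TH.thread hD hP h1
    exact ⟨x, y, p, rfl, hx, h1, hp⟩
  choose v₁ w₁ p₁ hE1 hE2 hE3 hE4 hE5 hE6 using hex
  obtain ⟨idx, hidx⟩ : ∃ idx : Fin I.card → {E // E ∈ I}, Function.Bijective idx :=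
    ⟨I.equivFin.symm, I.equivFin.symm.bijective⟩
  have hends : ∀ E : {E // E ∈ I}, s(p₁ E 0, p₁ E (tl G Br E.1)) = E.1.map Subtype.val := by
    intro E
    rw [hE5, hE6, hE1 E]
    rfl
  -- an edge of a thread of the list
  have hthread : ∀ (n : ℕ) (q : ℕ → V), Thr G Br n q → (∃ x ∈ X, q 0 = x.1) →
      ∃ E : {E // E ∈ I}, s(q 0, q n) = s(p₁ E 0, p₁ E (tl G Br E.1)) := by
    rintro n q hq ⟨x, hx, hx0⟩
    have hadj : (TH G Br).Adj x ⟨q n, hq.bn⟩ := by
      refine ⟨?_, n, q, hq, hx0, rfl⟩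
      intro he
      have h2 := hq.seq.inj 0 n (Nat.zero_le _) le_rfl (hx0.trans (congrArg Subtype.val he))
      have h3 := hq.pos
      omega
    refine ⟨⟨s(x, ⟨q n, hq.bn⟩), (hmI _).mpr ⟨hadj, x, hx, by simp⟩⟩, ?_⟩
    rw [hends, hx0]
    rfl
  -- threads with the same ends have the same edges
  have hsame : ∀ (n : ℕ) (q : ℕ → V) (n' : ℕ) (q' : ℕ → V), Thr G Br n q → Thr G Br n' q' →
      s(q 0, q n) = s(q' 0, q' n') → ∀ j < n, ∃ j' < n', s(q j, q (j + 1)) = s(q' j', q' (j' + 1)) := by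
    intro n q n' q' hq hq' he j hj
    rw [Sym2.eq_iff] at he
    rcases he with ⟨h1, h2⟩ | ⟨h1, h2⟩
    · obtain ⟨h3, h4⟩ := hq.unique hD hq' h1 (hP _ _ _ _ hq hq' h1 h2)
      exact ⟨j, by omega, by rw [h4 j hj.le, h4 (j + 1) hj]⟩
    · have e1 : q 0 = (fun i => q' (n' - i)) 0 := by simpa using h1
      have e2 : q n = (fun i => q' (n' - i)) n' := by simpa using h2
      obtain ⟨h3, h4⟩ := hq.unique hD hq'.rev e1 (hP _ _ _ _ hq hq'.rev e1 e2)
      refine ⟨n' - (j + 1), by omega, ?_⟩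
      have e3 := h4 j hj.le
      have e4 := h4 (j + 1) hj
      change q j = q' (n' - j) at e3
      change q (j + 1) = q' (n' - (j + 1)) at e4
      rw [e3, e4, show n' - (j + 1) + 1 = n' - j by omega]
      exact Sym2.eq_swap
  obtain ⟨eI, heI⟩ : ∃ eI : {E // E ∈ I}, eI.1 = e := ⟨⟨e, (hmI e).mpr ⟨he, hXe⟩⟩, rfl⟩
  obtain ⟨e', he'⟩ : ∃ e', e' = s(p₁ eI 0, p₁ eI 1) := ⟨_, rfl⟩
  have he'G : e' ∈ G.edgeSet := by
    rw [he']
    exact (hE4 eI).seq.adj 0 (hE4 eI).pos
  -- the path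
  obtain ⟨P, n₀, hn₀, hP0, hPn, hPL, hPadj, hPs, hPe⟩ : ∃ (P : ℕ → V) (n₀ : ℕ),
      n₀ ≤ L ∧ P 0 = x.1 ∧ P n₀ = a.1 ∧ P L = z.1 ∧ (∀ l < L, G.Adj (P l) (P (l + 1))) ∧
      (∀ l < L, 1 ≤ l → (nb G (P l)).card ≤ s) ∧
      ∀ l < L, ∃ n q, Thr G Br n q ∧ (∃ i < n, s(P l, P (l + 1)) = s(q i, q (i + 1))) ∧
        ∃ E, E ≠ e ∧ E.map Subtype.val = s(q 0, q n) := by
    obtain ⟨p₂, g1, g2, g3, g4, g5⟩ := TH.expandG hD hP R (fun y => (nb G y).card ≤ s)
      (fun y hy => by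
        have := hdeg y (not_le.mp ((hBr _).not.mp hy))
        omega) (fun i hi => by
        have := hR i hi
        rwa [hnb] at this)
    obtain ⟨p₁', hp, h0, hn⟩ := TH.thread hD hP hxa
    obtain ⟨n, hnn⟩ : ∃ n, n = tl G Br s(x, a) := ⟨_, rfl⟩
    rw [← hnn] at hp hn
    obtain ⟨L₂, hL₂⟩ : ∃ L₂, L₂ = (R.edges.map (tl G Br)).sum := ⟨_, rfl⟩
    rw [← hL₂] at g2 g3 g4 g5 hL
    rw [← hnn] at hL
    obtain ⟨r, hr1, hr2⟩ := glueS p₁' p₂ n (hn.trans g1.symm)
    refine ⟨r, n, by omega, by rw [hr1 0 (Nat.zero_le _), h0], by rw [hr1 n le_rfl, hn],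
      by rw [hL, hr2, g2], ?_, ?_, ?_⟩
    · intro l hl
      rcases Nat.lt_or_ge l n with h | h
      · rw [hr1 l h.le, hr1 (l + 1) h]
        exact hp.seq.adj l h
      · obtain ⟨l', rfl⟩ : ∃ l', l = n + l' := ⟨l - n, by omega⟩
        rw [hr2, add_assoc, hr2]
        exact g3 l' (by omega)
    · intro l hl hl1
      rcases Nat.lt_or_ge l n with h | h
      · rw [hr1 l h.le]
        have := hdeg _ (not_le.mp ((hBr _).not.mp (hp.inn l hl1 h)))
        omega
      · obtain ⟨l', rfl⟩ : ∃ l', l = n + l' := ⟨l - n, by omega⟩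
        rw [hr2]
        exact g4 l' (by omega)
    · intro l hl
      rcases Nat.lt_or_ge l n with h | h
      · refine ⟨n, p₁', hp, ⟨l, h, by rw [hr1 l h.le, hr1 (l + 1) h]⟩, s(x, a), hex.symm, ?_⟩
        rw [h0, hn]
        rfl
      · obtain ⟨l', rfl⟩ : ∃ l', l = n + l' := ⟨l - n, by omega⟩
        rw [hr2, add_assoc, hr2]
        obtain ⟨n', q', k1, k2, E, hE, k3⟩ := g5 l' (by omega)
        refine ⟨n', q', k1, k2, E, ?_, k3⟩
        rintro rfl
        exact heR hE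
  have hzL : (nb G (P L)).card ≤ s ∨ ∀ v ∈ X, φ v < L := by
    rw [hPL, ← hnb]
    exact hzs
  obtain ⟨π', hπ'1, hπ'2⟩ : ∃ π' : V → V, (∀ x : {v // Br v}, x ∈ X → π' x.1 = P (φ x)) ∧
      ∀ y, (∀ h : Br y, (⟨y, h⟩ : {v // Br v}) ∉ X) → π' y = y := by
    refine ⟨fun y => if h : ∃ h : Br y, (⟨y, h⟩ : {v // Br v}) ∈ X then P (φ ⟨y, h.choose⟩) else y,
      fun x hx => ?_, fun y hy => ?_⟩
    · have h : ∃ h : Br x.1, (⟨x.1, h⟩ : {v // Br v}) ∈ X := ⟨x.2, hx⟩
      simp only [dif_pos h]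
    · have h : ¬ ∃ h : Br y, (⟨y, h⟩ : {v // Br v}) ∈ X := fun ⟨h1, h2⟩ => hy h1 h2
      simp only [dif_neg h]
  have hmX : ∀ x : {v // Br v}, x.1 ∈ X.image Subtype.val ↔ x ∈ X := by
    intro x
    rw [mem_image]
    constructor
    · rintro ⟨y, hy, hyx⟩
      rwa [← Subtype.ext hyx]
    · exact fun h => ⟨x, h, rfl⟩
  have hXBr : ∀ y ∈ X.image Subtype.val, Br y := by
    intro y hy
    rw [mem_image] at hy
    obtain ⟨x, -, rfl⟩ := hy
    exact x.2
  have hπX : ∀ x : {v // Br v}, x ∉ X → π' x.1 = x.1 := fun x hx => hπ'2 x.1 fun _ => hx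
  -- a part of the path
  have hseg : ∀ i ≤ L, ∀ j ≤ L, ∃ W : (G.deleteEdges {e'}).Walk (P i) (P j),
      (W.length + i = j ∨ W.length + j = i) ∧
      ∀ y ∈ W.support, ∃ l, min i j ≤ l ∧ l ≤ max i j ∧ y = P l := by
    intro i hi j hj
    obtain ⟨W, h1, h2, h3⟩ := seg2 hPadj hi hj
    have h4 : ∀ g ∈ W.edges, g ∈ (G.deleteEdges {e'}).edgeSet := by
      intro g hg
      rw [SimpleGraph.edgeSet_deleteEdges]
      refine ⟨W.edges_subset_edgeSet hg, fun h => ?_⟩
      rw [Set.mem_singleton_iff] at h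
      obtain ⟨l, hl, hgl⟩ := h2 g hg
      obtain ⟨n'', p'', hp'', ⟨j, hj, hlj⟩, E'', hE'', hEm⟩ := hPe l hl
      have h5 := hp''.edge hD (hE4 eI) hj (hE4 eI).pos (by rw [← hlj, ← hgl, h, he'])
      rw [hends, ← hEm] at h5
      have h6 : E'' = eI.1 := Sym2.map.injective Subtype.val_injective h5
      exact hE'' (by rw [h6, heI])
    refine ⟨W.transfer _ h4, ?_, ?_⟩
    · rw [SimpleGraph.Walk.length_transfer]
      exact h1
    · rw [SimpleGraph.Walk.support_transfer]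
      exact h3
  -- the walks
  have hWex : ∀ i : Fin I.card, ∃ W : (G.deleteEdges {e'}).Walk (π' (p₁ (idx i) 0))
      (π' (p₁ (idx i) (tl G Br (idx i).1))), W.length + (W.support.map (fun y =>
      if p₁ (idx i) (tl G Br (idx i).1) ∉ X.image Subtype.val ∧
        y = p₁ (idx i) (tl G Br (idx i).1) then 0 else (nb G y).card)).sum ≤
          (4 * q + 2 * s + 2) * K * tl G Br (idx i).1 := by
    intro i
    obtain ⟨E, hE⟩ : ∃ E, E = idx i := ⟨_, rfl⟩
    rw [← hE]
    obtain ⟨v, hv⟩ : ∃ v, v = v₁ E := ⟨_, rfl⟩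
    obtain ⟨w, hw⟩ : ∃ w, w = w₁ E := ⟨_, rfl⟩
    have hvX : v ∈ X := by rw [hv]; exact hE2 E
    have hvw : (TH G Br).Adj v w := by rw [hv, hw]; exact hE3 E
    obtain ⟨n, hn⟩ : ∃ n, n = tl G Br E.1 := ⟨_, rfl⟩
    have hnE : tl G Br s(v, w) = n := by rw [hn, hv, hw, ← hE1 E]
    have hnE' : tl G Br s(w, v) = n := by rw [Sym2.eq_swap]; exact hnE
    have hn0 : 1 ≤ n := by rw [hn]; exact (hE4 E).pos
    have hKn : 1 ≤ K * n := Nat.mul_pos hK hn0
    have h50 : p₁ E 0 = v.1 := by rw [hE5, hv]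
    have h60 : p₁ E (tl G Br E.1) = w.1 := by rw [hE6, hw]
    rw [h50, h60, hπ'1 v hvX, ← hn]
    obtain ⟨f, hf⟩ : ∃ f : V → ℕ, f = fun y => if w.1 ∉ X.image Subtype.val ∧
        y = w.1 then 0 else (nb G y).card := ⟨_, rfl⟩
    rw [← hf]
    have hfle : ∀ y, f y ≤ (nb G y).card := by
      intro y
      rw [hf]
      simp only
      split_ifs
      · exact Nat.zero_le _
      · exact le_rfl
    have hfw : w ∉ X → f w.1 = 0 := by
      intro h
      rw [hf]
      exact if_pos ⟨(hmX w).not.mpr h, rfl⟩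
    obtain ⟨hφ1, hφ2⟩ := hφ v hvX
    -- the sum for a part of the path
    have hsum : ∀ (i j : ℕ) (W : (G.deleteEdges {e'}).Walk (P i) (P j)), W.length ≤ K * n →
        (∀ y ∈ W.support, f y ≤ s) →
        W.length + (W.support.map f).sum ≤ (4 * q + 2 * s + 2) * K * n := by
      intro i j W h1 h2
      have h3 := sum_support_le W f s h2
      have h4 : (W.length + 1) * s ≤ (K * n + K * n) * s := Nat.mul_le_mul_right _ (by omega)
      have h5 : (4 * q + 2 * s + 2) * K * n = 4 * q * (K * n) + (K * n + K * n) * s +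
        2 * (K * n) := by ring
      rw [h5]
      omega
    have hfl : ∀ l, 1 ≤ l → l ≤ L → (l = L → (∃ v ∈ X, φ v = L) ∨ l = n₀) → f (P l) ≤ s := by
      intro l h1 h2 h3
      refine (hfle _).trans ?_
      rcases Nat.lt_or_ge l L with h | h
      · exact hPs l h h1
      · have hlL : l = L := by omega
        rcases h3 hlL with ⟨v', hv', h4⟩ | h4
        · rw [hlL]
          refine hzL.resolve_right fun h5 => ?_
          have := h5 v' hv'
          omega
        · rw [h4, hPn, ← hnb]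
          exact has
    have hn₀1 : 1 ≤ n₀ := by
      rcases Nat.eq_zero_or_pos n₀ with h | h
      · exfalso
        rw [h, hP0] at hPn
        exact hxa.ne (Subtype.ext hPn)
      · exact h
    rcases hwalk v hvX w hvw with ⟨hwX, h1⟩ | ⟨rfl, h1⟩ | ⟨rfl, h1⟩ | ⟨hwX, h1, W', hW1, hW2, hW3⟩
    · -- an edge inside
      rw [hπ'1 w hwX]
      rw [hnE] at h1
      have h2 : φ w ≤ φ v + K * n := by
        rcases hwalk w hwX v hvw.symm with ⟨-, h2⟩ | ⟨h2, -⟩ | ⟨h2, -⟩ | ⟨h2, -⟩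
        · rw [hnE'] at h2
          exact h2
        · exact absurd (h2 ▸ hvX) hxX
        · exact absurd (h2 ▸ hvX) hzX
        · exact absurd hvX h2
      obtain ⟨hφ3, hφ4⟩ := hφ w hwX
      obtain ⟨W, hW1, hW2⟩ := hseg _ hφ2 _ hφ4
      refine ⟨W, hsum _ _ W (by omega) ?_⟩
      intro y hy
      obtain ⟨l, h3, h4, rfl⟩ := hW2 y hy
      refine hfl l (by omega) (by omega) fun h5 => Or.inl ?_
      rcases Nat.le_total (φ v) (φ w) with h6 | h6
      · exact ⟨w, hwX, by omega⟩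
      · exact ⟨v, hvX, by omega⟩
    · -- an edge to the first end
      rw [hπX w hxX, ← hP0]
      rw [hnE] at h1
      obtain ⟨W, hW1, hW2⟩ := hseg _ hφ2 _ (Nat.zero_le L)
      refine ⟨W, hsum _ _ W (by omega) ?_⟩
      intro y hy
      obtain ⟨l, h3, h4, rfl⟩ := hW2 y hy
      rcases Nat.eq_zero_or_pos l with h5 | h5
      · rw [h5, hP0, hfw hxX]
        exact Nat.zero_le _
      · refine hfl l h5 (by omega) fun h6 => Or.inl ⟨v, hvX, ?_⟩
        omega
    · -- an edge to the last end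
      rw [hπX w hzX, ← hPL]
      rw [hnE] at h1
      obtain ⟨W, hW1, hW2⟩ := hseg _ hφ2 _ (le_refl L)
      refine ⟨W, hsum _ _ W (by omega) ?_⟩
      intro y hy
      obtain ⟨l, h3, h4, rfl⟩ := hW2 y hy
      rcases Nat.lt_or_ge l L with h5 | h5
      · exact hfl l (by omega) (by omega) fun h6 => by omega
      · have h6 : l = L := by omega
        rw [h6, hPL, hfw hzX]
        exact Nat.zero_le _
    · -- an edge to another vertex
      rw [hπX w hwX]
      rw [hnE] at h1 hW2 hW3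
      obtain ⟨W, hW4, hW5⟩ := hseg _ hφ2 _ hn₀
      have hle : (TH G Br).deleteEdges {e} ≤ TH G Br := SimpleGraph.deleteEdges_le _
      obtain ⟨Q, hQ1, hQ2, hQ3⟩ := TH.expand hD hP (W'.mapLe hle) (Lm := K * n) (B := K * n) (by
          intro f hf
          rw [SimpleGraph.Walk.edges_mapLe_eq_edges] at hf
          exact hW2 f hf) f (by
          intro y hy
          refine (hfle y).trans ?_
          have := hdeg y (not_le.mp ((hBr _).not.mp hy))
          omega) (by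
          intro y hy
          rw [SimpleGraph.Walk.support_mapLe_eq_support] at hy
          rcases hW3 y hy with rfl | h2
          · rw [hfw hwX]
            exact Nat.zero_le _
          · refine (hfle _).trans ?_
            rw [← hnb]
            exact h2)
      rw [SimpleGraph.Walk.length_mapLe] at hQ1 hQ2
      have hQe : ∀ g ∈ Q.edges, g ∈ (G.deleteEdges {e'}).edgeSet := by
        intro g hg
        rw [SimpleGraph.edgeSet_deleteEdges]
        refine ⟨Q.edges_subset_edgeSet hg, fun h => ?_⟩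
        rw [Set.mem_singleton_iff] at h
        obtain ⟨n'', p'', hp'', ⟨j, hj, hgj⟩, E'', hE'', hEm⟩ := hQ3 g hg
        rw [SimpleGraph.Walk.edges_mapLe_eq_edges] at hE''
        have h3 := hp''.edge hD (hE4 eI) hj (hE4 eI).pos (by rw [← hgj, h, he'])
        rw [hends, ← hEm] at h3
        have h4 : E'' = eI.1 := Sym2.map.injective Subtype.val_injective h3
        have h5 := W'.edges_subset_edgeSet hE''
        rw [SimpleGraph.edgeSet_deleteEdges] at h5
        exact h5.2 (by rw [h4, heI]; rfl)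
      refine ⟨W.append ((Q.transfer _ hQe).copy hPn.symm rfl), ?_⟩
      rw [SimpleGraph.Walk.length_append, SimpleGraph.Walk.length_copy,
        SimpleGraph.Walk.length_transfer, SimpleGraph.Walk.support_append,
        SimpleGraph.Walk.support_copy, SimpleGraph.Walk.support_transfer, List.map_append,
        List.sum_append]
      have h2 : (Q.support.tail.map f).sum ≤ (Q.support.map f).sum := by
        conv_rhs => rw [← SimpleGraph.Walk.cons_tail_support Q]
        rw [List.map_cons, List.sum_cons]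
        exact Nat.le_add_left _ _
      have h3 := sum_support_le W f s (by
        intro y hy
        obtain ⟨l, h3, h4, rfl⟩ := hW5 y hy
        refine hfl l (by omega) (by omega) fun h5 => ?_
        rcases Nat.le_total (φ v) n₀ with h6 | h6
        · exact Or.inr (by omega)
        · exact Or.inl ⟨v, hvX, by omega⟩)
      have h4 : (W.length + 1) * s ≤ (K * n + K * n) * s := Nat.mul_le_mul_right _ (by omega)
      have h5 : (4 * q + 2 * s + 2) * K * n = q * (K * n) + q * (K * n + 2 * (K * n)) +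
        (K * n + K * n) * s + 2 * (K * n) := by ring
      have h6 : W'.length * (K * n) ≤ q * (K * n) := Nat.mul_le_mul_right _ hW1
      have h7 : W'.length * (K * n + 2 * (K * n)) ≤ q * (K * n + 2 * (K * n)) :=
        Nat.mul_le_mul_right _ hW1
      rw [h5]
      omega
  choose W hW using hWex
  refine hk (KDraw.mono (reroute2 (hcrit e' he'G) (X.image Subtype.val) π' ?_
    (r := s) (k₀ := I.card) (card_image_le.trans hXc) hIc (fun i => p₁ (idx i))
    (fun i => tl G Br (idx i).1) (fun i => (hE4 _).pos) (fun i => (hE4 _).seq) ?_ ?_ ?_ ?_ ?_ ?_ ?_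
    (R := (4 * q + 2 * s + 2) * K) (Nat.mul_pos (by omega) hK) W hW) hqk)
  · intro y hy
    exact hπ'2 y fun hb h => hy ((hmX ⟨y, hb⟩).mpr h)
  · intro i
    rw [hE5, hmX]
    exact hE2 _
  · intro i i' j' h1 h2 h3
    refine (hE4 (idx i')).inn j' h1 h2 ?_
    rw [h3]
    exact (hE4 (idx i)).bn
  · intro i j h1 h2 h3
    exact (hE4 (idx i)).inn j h1 h2 (hXBr _ h3)
  · intro i j i' j' h1 h2 h3 h4 h5
    have h6 := (hE4 (idx i)).vertex hD (hE4 (idx i')) h2.le h4.le ((hE4 (idx i)).inn j h1 h2) h5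
    rw [hends, hends] at h6
    exact hidx.1 (Subtype.ext (Sym2.map.injective Subtype.val_injective h6))
  · intro i i' h6
    rw [hends, hends] at h6
    exact hidx.1 (Subtype.ext (Sym2.map.injective Subtype.val_injective h6))
  · intro a b hab ha
    rcases ha with ha | ⟨i, j, hj0, hjn, hja⟩
    · rw [mem_image] at ha
      obtain ⟨x, hx, rfl⟩ := ha
      obtain ⟨hq, hq0, hq1⟩ := hpp x.1 b x.2 hab
      obtain ⟨E, hE⟩ := hthread _ _ hq ⟨x, hx, hq0⟩
      obtain ⟨i, rfl⟩ := hidx.2 E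
      obtain ⟨j', hj', hjj⟩ := hsame _ _ _ _ hq (hE4 (idx i)) hE 0 hq.pos
      refine ⟨i, j', hj', ?_⟩
      rw [← hjj, Nat.zero_add, hq0, hq1]
    · have hp := hE4 (idx i)
      have a1 : G.Adj (p₁ (idx i) j) (p₁ (idx i) (j - 1)) := by
        have := hp.seq.adj (j - 1) (by omega)
        rw [show j - 1 + 1 = j by omega] at this
        exact this.symm
      have a2 : G.Adj (p₁ (idx i) j) (p₁ (idx i) (j + 1)) := hp.seq.adj j hjn
      have a3 : G.Adj (p₁ (idx i) j) b := by rw [hja]; exact hab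
      have hne : p₁ (idx i) (j - 1) ≠ p₁ (idx i) (j + 1) := by
        intro h2
        have := hp.seq.inj (j - 1) (j + 1) (by omega) (by omega) h2
        omega
      rcases hD _ (hp.inn j hj0 hjn) _ _ _ a1 a2 a3 hne with h3 | h3
      · refine ⟨i, j - 1, by omega, ?_⟩
        rw [show j - 1 + 1 = j by omega, ← hja, h3]
        exact Sym2.eq_swap
      · exact ⟨i, j, hjn, by rw [← hja, h3]⟩
  · obtain ⟨i, hi⟩ := hidx.2 eI
    refine ⟨i, 0, (hE4 _).pos, ?_⟩
    rw [he', hi]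

end Pool.Agent.H354_OP
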